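import Mathlib

section -- file TFC/Defs

/-!
2-factors without 4-cycles: basic definitions (degree vectors, squares, jump sets, clusters, units).
-/

set_option autoImplicit false

namespace Pool.Agent.TFC

open Finset
open scoped Pointwise

variable {V : Type*} [DecidableEq V]

/-- the degree of `v` in the edge set `z` -/
def dg (z : Finset (Sym2 V)) (v : V) : ℕ := #{e ∈ z | v ∈ e}

/-- the degree vector of the edge set `z` -/
def dv (z : Finset (Sym2 V)) : V → ℤ := fun v => (dg z v : ℤ)

/-- no loops -/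
def NoLoop (z : Finset (Sym2 V)) : Prop := ∀ e ∈ z, ¬ e.IsDiag

/-- `z` is a simple 2-matching: no loops, all degrees at most 2 -/
structure M2 (z : Finset (Sym2 V)) : Prop where
  nl : NoLoop z
  le : ∀ v, dg z v ≤ 2

/-- `a b c d` is a square (a 4-cycle) of `z` (for `z` without loops, the four are distinct) -/
structure Sq (z : Finset (Sym2 V)) (a b c d : V) : Prop where
  ac : a ≠ c
  bd : b ≠ d
  ab : s(a, b) ∈ z
  bc : s(b, c) ∈ z
  cd : s(c, d) ∈ z
  da : s(d, a) ∈ z

/-- `z` contains no square -/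
def SqFree (z : Finset (Sym2 V)) : Prop := ∀ a b c d, ¬ Sq z a b c d

/-- all squares of `z` are allowed by `al` -/
def Good (al : V → V → V → V → Prop) (z : Finset (Sym2 V)) : Prop :=
  ∀ a b c d, Sq z a b c d → al a b c d

/-- no square allowed -/
def none4 : V → V → V → V → Prop := fun _ _ _ _ => False

/-- degree vectors of the 2-matchings contained in `E` all of whose squares are allowed -/
def JS (E : Finset (Sym2 V)) (al : V → V → V → V → Prop) : Set (V → ℤ) :=
  {x | ∃ z ⊆ E, M2 z ∧ Good al z ∧ x = dv z}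

/-- unit vector -/
def ev (v : V) : V → ℤ := Pi.single v 1

/-- jump set (constant parity jump system): two-step axiom -/
def Jump {W : Type*} [DecidableEq W] (J : Set (W → ℤ)) : Prop :=
  ∀ x ∈ J, ∀ y ∈ J, ∀ (i : W) (ε : ℤ), (ε = 1 ∨ ε = -1) → 0 < ε * (y i - x i) →
    ∃ (j : W) (δ : ℤ), (δ = 1 ∨ δ = -1) ∧ 0 < δ * (y j - (x + Pi.single i ε : W → ℤ) j) ∧
      x + Pi.single i ε + Pi.single j δ ∈ J

/-- the edge set of the square `a b c d` -/
def sq (a b c d : V) : Finset (Sym2 V) := {s(a, b), s(b, c), s(c, d), s(d, a)}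

/-- four distinct vertices -/
def Dist4 (a b c d : V) : Prop := a ≠ b ∧ a ≠ c ∧ a ≠ d ∧ b ≠ c ∧ b ≠ d ∧ c ≠ d

/-- `Q` is the edge set of a square -/
def IsSq (Q : Finset (Sym2 V)) : Prop := ∃ a b c d, Dist4 a b c d ∧ Q = sq a b c d

/-- clusters: a complete graph on 4 vertices, or all edges between two centres and a set of leaves -/
inductive Clu (V : Type*) where
  | k4 (X : Finset V)
  | k2 (x y : V) (L : Finset V)

/-- the edges of a cluster -/
def Clu.edges : Clu V → Finset (Sym2 V)
  | .k4 X => X.sym2.filter (fun e => ¬ e.IsDiag)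
  | .k2 x y L => L.image (fun l => s(x, l)) ∪ L.image (fun l => s(y, l))

/-- non-degenerate cluster -/
def Clu.Valid : Clu V → Prop
  | .k4 X => #X = 4
  | .k2 x y L => x ≠ y ∧ x ∉ L ∧ y ∉ L ∧ 2 ≤ #L

/-- a unit: nothing, or join a vertex of `S` with a vertex of `T` -/
def Un (S T : Finset V) : Set (V → ℤ) :=
  {x | x = 0 ∨ ∃ s ∈ S, ∃ t ∈ T, x = ev s + ev t}

/-- the sums of a list of units -/
def sumU : List (Finset V × Finset V) → Set (V → ℤ)
  | [] => {0}
  | u :: us => Un u.1 u.2 + sumU us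

/-- clusters with a choice: for `k2 w w' c L` the centre `w` and the leaf `c` are chosen -/
inductive CC (V : Type*) where
  | k4 (X : Finset V)
  | k2 (w w' c : V) (L : Finset V)

/-- forget the choice -/
def CC.clu : CC V → Clu V
  | .k4 X => .k4 X
  | .k2 w w' _ L => .k2 w w' L

/-- non-degenerate cluster, the chosen leaf is a leaf -/
def CC.Valid : CC V → Prop
  | .k4 X => #X = 4
  | .k2 w w' c L => w ≠ w' ∧ w ∉ L ∧ w' ∉ L ∧ 2 ≤ #L ∧ c ∈ L

/-- the units of a cluster -/
noncomputable def CC.units : CC V → List (Finset V × Finset V)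
  | .k4 X => [(X, X), (X, X), (X, X)]
  | .k2 w w' c L => (L.erase c).toList.map (fun l => ({l}, {w, w'})) ++ [({w}, L), ({w'}, {c})]

end Pool.Agent.TFC

end

section -- file TFC/Deg

/-!
Elementary facts on degrees and squares.
-/

set_option autoImplicit false
set_option linter.unusedSectionVars false

namespace Pool.Agent.TFC

open Finset

variable {V : Type*} [DecidableEq V]

lemma dg_insert {z : Finset (Sym2 V)} {e : Sym2 V} (he : e ∉ z) (v : V) :
    dg (insert e z) v = dg z v + if v ∈ e then 1 else 0 := by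
  unfold dg
  rw [filter_insert]
  split_ifs with h
  · rw [card_insert_of_notMem]
    intro h'
    exact he (mem_of_mem_filter _ h')
  · simp

lemma dg_erase {z : Finset (Sym2 V)} {e : Sym2 V} (he : e ∈ z) (v : V) :
    dg (z.erase e) v + (if v ∈ e then 1 else 0) = dg z v := by
  have := dg_insert (notMem_erase e z) v
  rw [insert_erase he] at this
  exact this.symm

lemma msw {z : Finset (Sym2 V)} {a b : V} (h : s(a, b) ∈ z) : s(b, a) ∈ z := by
  rw [Sym2.eq_swap]; exact h

lemma ev_apply (a v : V) : ev a v = if v = a then 1 else 0 := by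
  unfold ev
  by_cases h : v = a
  · subst h; simp
  · simp [h]

lemma ev_self (a : V) : ev a a = 1 := by simp [ev]

lemma ev_ne {a v : V} (h : v ≠ a) : ev a v = 0 := by simp [ev_apply, h]

lemma dv_insert {z : Finset (Sym2 V)} {a b : V} (hab : a ≠ b) (h : s(a, b) ∉ z) :
    dv (insert s(a, b) z) = dv z + ev a + ev b := by
  funext v
  simp only [dv, Pi.add_apply, dg_insert h, ev_apply, Sym2.mem_iff]
  by_cases h1 : v = a
  · subst h1
    simp [hab]
  · by_cases h2 : v = b
    · subst h2
      simp [h1]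
    · simp [h1, h2]

lemma dv_erase {z : Finset (Sym2 V)} {a b : V} (hab : a ≠ b) (h : s(a, b) ∈ z) :
    dv (z.erase s(a, b)) = dv z - ev a - ev b := by
  have := dv_insert hab (notMem_erase s(a, b) z)
  rw [insert_erase h] at this
  rw [this]
  abel

lemma dv_apply (z : Finset (Sym2 V)) (v : V) : dv z v = (dg z v : ℤ) := rfl

lemma NoLoop.ne {z : Finset (Sym2 V)} (hz : NoLoop z) {a b : V} (h : s(a, b) ∈ z) : a ≠ b := by
  intro hab
  exact hz _ h (by simpa using hab)

lemma NoLoop.mono {z z' : Finset (Sym2 V)} (hz : NoLoop z') (h : z ⊆ z') : NoLoop z :=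
  fun e he => hz e (h he)

lemma NoLoop.insert {z : Finset (Sym2 V)} (hz : NoLoop z) {a b : V} (h : a ≠ b) :
    NoLoop (insert s(a, b) z) := by
  intro e he
  rw [mem_insert] at he
  rcases he with rfl | he
  · simpa using h
  · exact hz e he

lemma dg_mono {z z' : Finset (Sym2 V)} (h : z ⊆ z') (v : V) : dg z v ≤ dg z' v :=
  card_le_card (filter_subset_filter _ h)

lemma M2.mono {z z' : Finset (Sym2 V)} (hz : M2 z') (h : z ⊆ z') : M2 z :=
  ⟨hz.nl.mono h, fun v => (dg_mono h v).trans (hz.le v)⟩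

/-- the neighbours of `v` -/
lemma dg_pos {z : Finset (Sym2 V)} {v a : V} (h : s(v, a) ∈ z) : 1 ≤ dg z v := by
  unfold dg
  exact card_pos.mpr ⟨s(v, a), by simp [h]⟩

lemma sym2_inj_left {v a b : V} (h : s(v, a) = s(v, b)) : a = b := Sym2.congr_right.mp h

lemma nbr_unique {z : Finset (Sym2 V)} {v a b : V} (hd : dg z v ≤ 1) (ha : s(v, a) ∈ z)
    (hb : s(v, b) ∈ z) : a = b := by
  unfold dg at hd
  have := card_le_one.mp hd s(v, a) (by simp [ha]) s(v, b) (by simp [hb])
  exact sym2_inj_left this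

lemma dg_ge_two {z : Finset (Sym2 V)} {v a b : V} (ha : s(v, a) ∈ z)
    (hb : s(v, b) ∈ z) (hab : a ≠ b) : 2 ≤ dg z v := by
  by_contra h
  exact hab (nbr_unique (by omega) ha hb)

lemma nbr_two {z : Finset (Sym2 V)} {v a b c : V} (hd : dg z v ≤ 2) (ha : s(v, a) ∈ z)
    (hb : s(v, b) ∈ z) (hab : a ≠ b) (hc : s(v, c) ∈ z) : c = a ∨ c = b := by
  by_contra h
  push Not at h
  have h3 : ({s(v, a), s(v, b), s(v, c)} : Finset (Sym2 V)) ⊆ {e ∈ z | v ∈ e} := by
    intro e he
    simp only [mem_insert, mem_singleton] at he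
    rcases he with rfl | rfl | rfl <;> simp [ha, hb, hc]
  have h4 := card_le_card h3
  have h5 : #({s(v, a), s(v, b), s(v, c)} : Finset (Sym2 V)) = 3 := by
    rw [card_insert_of_notMem, card_insert_of_notMem, card_singleton]
    · simp only [mem_singleton]
      intro h'
      exact h.2 (sym2_inj_left h').symm
    · simp only [mem_insert, mem_singleton]
      rintro (h' | h')
      · exact hab (sym2_inj_left h')
      · exact h.1 (sym2_inj_left h').symm
  unfold dg at hd
  omega

lemma exists_nbr_notMem {z z' : Finset (Sym2 V)} {v : V} (h : dg z v < dg z' v) :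
    ∃ c, s(v, c) ∈ z' ∧ s(v, c) ∉ z := by
  by_contra hc
  push Not at hc
  have : {e ∈ z' | v ∈ e} ⊆ {e ∈ z | v ∈ e} := by
    intro e he
    rw [mem_filter] at he ⊢
    obtain ⟨c, rfl⟩ := he.2
    exact ⟨hc c he.1, he.2⟩
  exact absurd (card_le_card this) (not_le.mpr h)

lemma exists_nbr_ne {z : Finset (Sym2 V)} {v : V} (h : 2 ≤ dg z v) (a : V) :
    ∃ c, c ≠ a ∧ s(v, c) ∈ z := by
  by_contra hc
  push Not at hc
  have : {e ∈ z | v ∈ e} ⊆ {s(v, a)} := by
    intro e he
    rw [mem_filter] at he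
    obtain ⟨c, rfl⟩ := he.2
    by_cases hca : c = a
    · subst hca; simp
    · exact absurd he.1 (hc c hca)
  have h1 := card_le_card this
  rw [card_singleton] at h1
  unfold dg at h
  omega

lemma exists_nbr {z : Finset (Sym2 V)} {v : V} (h : 1 ≤ dg z v) : ∃ c, s(v, c) ∈ z := by
  unfold dg at h
  obtain ⟨e, he⟩ := card_pos.mp h
  rw [mem_filter] at he
  obtain ⟨c, rfl⟩ := he.2
  exact ⟨c, he.1⟩

namespace Sq

variable {z z' : Finset (Sym2 V)} {a b c d : V}

lemma rot (h : Sq z a b c d) : Sq z b c d a :=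
  ⟨h.bd, h.ac.symm, h.bc, h.cd, h.da, h.ab⟩

lemma ref (h : Sq z a b c d) : Sq z d c b a :=
  ⟨h.bd.symm, h.ac.symm, by rw [Sym2.eq_swap]; exact h.cd, by rw [Sym2.eq_swap]; exact h.bc,
    by rw [Sym2.eq_swap]; exact h.ab, by rw [Sym2.eq_swap]; exact h.da⟩

lemma dist4 (h : Sq z a b c d) (hz : NoLoop z) : Dist4 a b c d :=
  ⟨hz.ne h.ab, h.ac, (hz.ne h.da).symm, hz.ne h.bc, h.bd, hz.ne h.cd⟩

end Sq

/-- a 2-matching in terms of the degree vector -/
lemma M2.of_dv {z : Finset (Sym2 V)} (hn : NoLoop z) (h : ∀ v, dv z v ≤ 2) : M2 z :=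
  ⟨hn, fun v => by have := h v; rw [dv_apply] at this; exact_mod_cast this⟩

end Pool.Agent.TFC

end

section -- file TFC/LemW

/-!
The exchange theorem for 2-matchings all of whose squares are allowed.
-/

set_option autoImplicit false
set_option linter.unusedSectionVars false

namespace Pool.Agent.TFC

open Finset

variable {V : Type*} [DecidableEq V]

lemma card_dist_insert {L K : Finset (Sym2 V)} {e : Sym2 V} (h1 : e ∈ K) (h2 : e ∉ L) :
    #(insert e L \ K) + #(K \ insert e L) + 1 = #(L \ K) + #(K \ L) := by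
  have e1 : insert e L \ K = L \ K := by
    rw [insert_sdiff_of_mem _ h1]
  have e2 : K \ insert e L = (K \ L).erase e := by
    rw [sdiff_insert]
  rw [e1, e2, add_assoc, card_erase_add_one (mem_sdiff.mpr ⟨h1, h2⟩)]

lemma card_dist_erase {L K : Finset (Sym2 V)} {e : Sym2 V} (h1 : e ∉ K) (h2 : e ∈ L) :
    #(L.erase e \ K) + #(K \ L.erase e) + 1 = #(L \ K) + #(K \ L) := by
  have e1 : L.erase e \ K = (L \ K).erase e := by
    rw [erase_sdiff_comm]
  have e2 : K \ L.erase e = K \ L := by
    ext f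
    simp only [mem_sdiff, mem_erase, not_and]
    constructor
    · rintro ⟨hf, h⟩
      exact ⟨hf, fun h' => h (fun h'' => h1 (h'' ▸ hf)) h'⟩
    · rintro ⟨hf, h⟩
      exact ⟨hf, fun _ h' => h h'⟩
  rw [e1, e2, add_right_comm, card_erase_add_one (mem_sdiff.mpr ⟨h2, h1⟩)]

lemma card_dist_erase' {L K : Finset (Sym2 V)} {e : Sym2 V} (h1 : e ∈ K) (h2 : e ∈ L) :
    #(L.erase e \ K) + #(K \ L.erase e) = #(L \ K) + #(K \ L) + 1 := by
  have := card_dist_insert (L := L.erase e) h1 (notMem_erase e L)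
  rw [insert_erase h2] at this
  omega

variable {al : V → V → V → V → Prop}

lemma M2.of_tau {M : Finset (Sym2 V)} (hn : NoLoop M) {τ : V → ℤ} (hτ : ∀ v, τ v ≤ 2) {w : V}
    (h : dv M = τ - ev w) : M2 M := by
  refine M2.of_dv hn fun v => ?_
  rw [h, Pi.sub_apply, ev_apply]
  have := hτ v
  split_ifs <;> omega

end Pool.Agent.TFC

end

section -- file TFC/JumpJS

/-!
Degree vectors of 2-matchings all of whose squares are allowed form a jump set.
-/

set_option autoImplicit false
set_option linter.unusedSectionVars false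

namespace Pool.Agent.TFC

open Finset

variable {V : Type*} [DecidableEq V]

lemma single_one (v : V) : (Pi.single v (1 : ℤ) : V → ℤ) = ev v := rfl

lemma single_neg_one (v : V) : (Pi.single v (-1 : ℤ) : V → ℤ) = -ev v := by
  funext u
  by_cases h : u = v
  · subst h; simp [ev]
  · simp [ev, h]

end Pool.Agent.TFC

end
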