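import Pool.Agent.PFN.M03

section -- file EDM/Defs

/-!
# Perfect matchings in polynomial time: definitions

A graph is given by a list `V` of vertices (natural numbers) and a list `E` of ordered pairs, which
contains with `(u, v)` also `(v, u)`. Matchings are lists of ordered pairs of the same kind.
The algorithm: `forest` grows an alternating tree from the exposed vertex `a` (the tree is stored as
the list of the paths from its outer vertices to `a`). If an outer vertex is adjacent to the second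
exposed vertex `b`, the matching is augmented (`base`). Otherwise, if two outer vertices are adjacent,
the odd cycle `cyc` is contracted to its base `ctr` (`next`); a perfect matching of the contracted
graph is lifted by `lift`.
-/

set_option autoImplicit false

namespace Pool.Agent.EDM

/-- ordered pairs -/
abbrev Ed := ℕ × ℕ

/-- `(V, E)` is a graph -/
structure Gr (V : List ℕ) (E : List Ed) : Prop where
  symm : ∀ u v, (u, v) ∈ E → (v, u) ∈ E
  irr : ∀ u, (u, u) ∉ E
  mem : ∀ u v, (u, v) ∈ E → u ∈ V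

/-- `M` is a matching of the graph -/
structure Mt (E M : List Ed) : Prop where
  sub : ∀ u v, (u, v) ∈ M → (u, v) ∈ E
  symm : ∀ u v, (u, v) ∈ M → (v, u) ∈ M
  func : ∀ u v w, (u, v) ∈ M → (u, w) ∈ M → v = w

/-- `M` is a perfect matching of the graph -/
structure PM (V : List ℕ) (E M : List Ed) : Prop where
  mt : Mt E M
  cov : ∀ v ∈ V, ∃ w, (v, w) ∈ M

/-- `M` is a matching which exposes exactly the vertices `a ≠ b` -/
structure Near (V : List ℕ) (E M : List Ed) (a b : ℕ) : Prop where
  mt : Mt E M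
  av : a ∈ V
  bv : b ∈ V
  ne : a ≠ b
  ea : ∀ w, (a, w) ∉ M
  eb : ∀ w, (b, w) ∉ M
  cov : ∀ v ∈ V, v ≠ a → v ≠ b → ∃ w, (v, w) ∈ M

/-- membership in a list of numbers -/
def memN (l : List ℕ) (v : ℕ) : Bool := l.any fun x => decide (x = v)

/-- membership in a list of pairs -/
def memE (l : List Ed) (e : Ed) : Bool := l.any fun x => decide (x.1 = e.1) && decide (x.2 = e.2)

@[simp] theorem memN_iff (l : List ℕ) (v : ℕ) : memN l v = true ↔ v ∈ l := by
  simp [memN]

@[simp] theorem memE_iff (l : List Ed) (e : Ed) : memE l e = true ↔ e ∈ l := by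
  simp only [memE, List.any_eq_true, Bool.and_eq_true, decide_eq_true_eq]
  constructor
  · rintro ⟨x, hx, h1, h2⟩
    have : x = e := Prod.ext h1 h2
    rwa [← this]
  · intro h
    exact ⟨e, h, rfl, rfl⟩

theorem memN_false (l : List ℕ) (v : ℕ) : memN l v = false ↔ v ∉ l := by
  rw [← memN_iff, Bool.not_eq_true]

theorem memE_false (l : List Ed) (e : Ed) : memE l e = false ↔ e ∉ l := by
  rw [← memE_iff, Bool.not_eq_true]

/-- the partner of `v` -/
def mate (M : List Ed) (v : ℕ) : ℕ := ((M.filter fun e => decide (e.1 = v)).map Prod.snd).headD 0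

/-- consecutive pairs of `x :: l`, in both directions -/
def chainE : ℕ → List ℕ → List Ed
  | _, [] => []
  | x, y :: l => (x, y) :: (y, x) :: chainE y l

/-- consecutive pairs of a list, in both directions, computed by a fold -/
def steps (p : List ℕ) : List Ed :=
  (p.tail.foldl (fun s y => (y, (s.1, y) :: (y, s.1) :: s.2)) (p.headD 0, ([] : List Ed))).2

/-- symmetric difference of the matching and the edges of a path -/
def sw (E M : List Ed) (p : List ℕ) : List Ed := E.filter fun e => xor (memE M e) (memE (steps p) e)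

/-- the pairs (first, second), (third, fourth), ..., in both directions -/
def pairsR : List ℕ → List Ed
  | [] => []
  | [_] => []
  | x :: y :: l => (x, y) :: (y, x) :: pairsR l

/-- the same computed by a fold; the state is (pending?, pending element, pairs) -/
def pairs (l : List ℕ) : List Ed :=
  (l.foldl (fun s y => bif s.1 then (false, 0, (s.2.1, y) :: (y, s.2.1) :: s.2.2)
    else (true, y, s.2.2)) (false, 0, ([] : List Ed))).2.2

/-- rotate `l` until its first element is `v` -/
def rotTo (v : ℕ) (l : List ℕ) : List ℕ :=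
  (fun l : List ℕ => bif decide (l.headD 0 = v) then l else l.tail ++ [l.headD 0])^[l.length] l

/-- the possible extensions of the alternating tree -/
def grows (E M : List Ed) (b : ℕ) (F : List (List ℕ)) : List (List ℕ) :=
  F.flatMap fun p => (E.filter fun e => decide (e.1 = p.headD 0) &&
    (!(memN F.flatten e.2) && !decide (e.2 = b))).map fun e => mate M e.2 :: e.2 :: p

/-- one extension of the alternating tree -/
def fstep (E M : List Ed) (b : ℕ) (F : List (List ℕ)) : List (List ℕ) :=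
  match grows E M b F with
  | [] => F
  | r :: _ => r :: F

/-- the alternating tree with root `a` -/
def forest (V : List ℕ) (E M : List Ed) (a b : ℕ) : List (List ℕ) :=
  (fstep E M b)^[V.length] [[a]]

/-- the outer paths whose first vertex is adjacent to `b` -/
def good (E : List Ed) (b : ℕ) (F : List (List ℕ)) : List (List ℕ) :=
  F.filter fun p => memE E (p.headD 0, b)

/-- the pairs of outer paths with adjacent first vertices -/
def hits (E : List Ed) (F : List (List ℕ)) : List (List ℕ × List ℕ) :=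
  F.flatMap fun p => (F.filter fun q => memE E (p.headD 0, q.headD 0)).map fun q => (p, q)

/-- the common part of two paths -/
def stem (p q : List ℕ) : List ℕ := p.filter fun v => memN q v

/-- the part of the first path which is not in the second -/
def dif (p q : List ℕ) : List ℕ := p.filter fun v => !memN q v

/-- the odd cycle (starting at its base) closed by the edge between the first vertices of `p`, `q` -/
def cyc (p q : List ℕ) : List ℕ := (stem p q).headD 0 :: ((dif p q).reverse ++ dif q p)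

/-- contraction of the vertices of `C` to `c` -/
def rel (C : List ℕ) (c v : ℕ) : ℕ := bif memN C v then c else v

/-- vertices of the contracted graph -/
def ctrV (C : List ℕ) (V : List ℕ) : List ℕ := V.filter fun v => !memN C.tail v

/-- edges of the contracted graph -/
def ctrE (C : List ℕ) (E : List Ed) : List Ed :=
  (E.map fun e => (rel C (C.headD 0) e.1, rel C (C.headD 0) e.2)).filter fun e => !decide (e.1 = e.2)

/-- matching of the contracted graph -/
def ctrM (C : List ℕ) (M : List Ed) : List Ed := M.filter fun e => !memN C e.1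

/-- lifting of a perfect matching `N` of the contracted graph -/
def liftN (C : List ℕ) (E N : List Ed) : List Ed :=
  let w := mate N (C.headD 0)
  let v := (C.filter fun v => memE E (v, w)).headD 0
  E.filter fun e => memE ((v, w) :: (w, v) :: ((N.filter fun e => !decide (e.1 = C.headD 0) &&
    !decide (e.2 = C.headD 0)) ++ pairs (rotTo v C).tail)) e

/-- the data of the search: vertices, edges, matching, the two exposed vertices -/
abbrev St := List ℕ × List Ed × List Ed × ℕ × ℕ

/-- the alternating tree of a state -/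
def fst' (x : St) : List (List ℕ) := forest x.1 x.2.1 x.2.2.1 x.2.2.2.1 x.2.2.2.2

/-- is a contraction necessary? -/
def isRec (x : St) : Bool :=
  (good x.2.1 x.2.2.2.2 (fst' x)).isEmpty && !(hits x.2.1 (fst' x)).isEmpty

/-- the odd cycle of a state -/
def cycS (x : St) : List ℕ :=
  cyc ((hits x.2.1 (fst' x)).headD ([], [])).1 ((hits x.2.1 (fst' x)).headD ([], [])).2

/-- the stem of a state -/
def stemS (x : St) : List ℕ :=
  stem ((hits x.2.1 (fst' x)).headD ([], [])).1 ((hits x.2.1 (fst' x)).headD ([], [])).2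

/-- the contracted state -/
def next (x : St) : St :=
  (ctrV (cycS x) x.1, ctrE (cycS x) x.2.1, ctrM (cycS x) (sw x.2.1 x.2.2.1 (stemS x)),
    (cycS x).headD 0, x.2.2.2.2)

/-- the result if there is no contraction -/
def base (x : St) : Bool × List Ed :=
  match good x.2.1 x.2.2.2.2 (fst' x) with
  | [] => (false, [])
  | p :: _ => (true, (p.headD 0, x.2.2.2.2) :: (x.2.2.2.2, p.headD 0) :: sw x.2.1 x.2.2.1 p)

/-- lifting of the result of the contracted state -/
def liftS (x : St) (r : Bool × List Ed) : Bool × List Ed :=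
  bif r.1 then (true, liftN (cycS x) x.2.1 r.2) else (false, [])

/-- linear recursion -/
def lrec {X R : Type} (c : X → Bool) (nx : X → X) (bs : X → R) (lf : X → R → R) : ℕ → X → R
  | 0, x => bs x
  | k + 1, x => bif c x then lf x (lrec c nx bs lf k (nx x)) else bs x

/-- the search for a perfect matching, given a matching which exposes two vertices -/
def aug (x : St) : Bool × List Ed := lrec isRec next base liftS x.1.length x

/-- all edges of the graph with `n` universal vertices `n, ..., 2n - 1` -/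
def full (n : ℕ) (E : List Ed) : List Ed :=
  (List.range (2 * n)).flatMap fun u => ((List.range (2 * n)).filter fun v =>
    !decide (u = v) && ((decide (n ≤ u) || decide (n ≤ v)) || (memE E (u, v) || memE E (v, u)))).map
      fun v => (u, v)

/-- vertices of `H_m` -/
def hV (m : ℕ) : List ℕ := List.range m

/-- edges of `H_m`: the pairs below `m` -/
def hE (m : ℕ) (E : List Ed) : List Ed := E.filter fun e => decide (e.1 < m) && decide (e.2 < m)

/-- the trivial perfect matching of the graph with `n` universal vertices -/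
def triv (n : ℕ) : List Ed := (List.range n).flatMap fun i => [(i, n + i), (n + i, i)]

/-- one step: from a perfect matching `M` of `H_(m + 2)` to one of `H_m`; `EE` is the list of all edges -/
def hstep (EE : List Ed) (s : Bool × ℕ × List Ed) : Bool × ℕ × List Ed :=
  bif s.1 then
    bif memE s.2.2 (s.2.1 + 1, s.2.1) then (true, s.2.1 - 2, hE s.2.1 s.2.2)
    else
      let r := aug (hV s.2.1, hE s.2.1 EE, hE s.2.1 s.2.2, mate s.2.2 (s.2.1 + 1), mate s.2.2 s.2.1)
      (r.1, s.2.1 - 2, r.2)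
  else s

/-- a perfect matching of the graph with the vertices `0, ..., n - 1` and the edges `u v`, `u ≠ v`,
`(u, v) ∈ E` or `(v, u) ∈ E` (or the answer `false`) -/
def pm (n : ℕ) (E : List Ed) : Bool × List Ed :=
  bif decide (n % 2 = 0) then
    let s := (hstep (full n E))^[n / 2] (true, 2 * n - 2, triv n)
    (s.1, s.2.2)
  else (false, [])

end Pool.Agent.EDM

end

section -- file EDM/S0

/-! **[EDM-S0]** Basic facts about the list functions. -/

namespace Pool.Agent.EDM

private theorem S0_fold (l : List ℕ) : ∀ (x : ℕ) (acc : List Ed) (e : Ed),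
    e ∈ (l.foldl (fun s y => (y, (s.1, y) :: (y, s.1) :: s.2)) (x, acc)).2 ↔
      e ∈ acc ∨ e ∈ chainE x l := by
  induction l with
  | nil => intro x acc e; simp [chainE]
  | cons y l ih =>
    intro x acc e
    rw [List.foldl_cons, ih]
    simp only [chainE, List.mem_cons]
    tauto

/- PROOF. `steps (x :: l)` is the fold over `l` from `(x, [])`; by induction on `l`, for all `x`, `acc`:
`e ∈ (l.foldl .. (x, acc)).2 ↔ e ∈ acc ∨ e ∈ chainE x l`. -/
theorem mem_steps (x : ℕ) (l : List ℕ) (e : Ed) : e ∈ steps (x :: l) ↔ e ∈ chainE x l := by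
  have h := S0_fold l x [] e
  simp only [List.not_mem_nil, false_or] at h
  exact h

private theorem S0_chain (l : List ℕ) : ∀ (x u v : ℕ), (u, v) ∈ chainE x l →
    (v, u) ∈ chainE x l ∧ u ∈ x :: l ∧ v ∈ x :: l := by
  induction l with
  | nil => intro x u v h; simp [chainE] at h
  | cons y l ih =>
    intro x u v h
    simp only [chainE, List.mem_cons, Prod.mk.injEq] at h ⊢
    rcases h with ⟨rfl, rfl⟩ | ⟨rfl, rfl⟩ | h
    · simp
    · simp
    · have := ih y u v h
      simp only [List.mem_cons] at this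
      refine ⟨Or.inr (Or.inr this.1), Or.inr this.2.1, Or.inr this.2.2⟩

private theorem S0_nil : steps [] = [] := rfl

/- PROOF. `chainE x l` contains only pairs of members of `x :: l`, and with `e` the reversed pair. -/
theorem steps_mem (p : List ℕ) (u v : ℕ) (h : (u, v) ∈ steps p) : u ∈ p ∧ v ∈ p := by
  cases p with
  | nil => rw [S0_nil] at h; simp at h
  | cons x l =>
    rw [mem_steps] at h
    exact (S0_chain l x u v h).2

/- PROOF. membership in a filtered list; `mem_steps`, `chainE`. -/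
theorem mem_sw (E M : List Ed) (p : List ℕ) (e : Ed) :
    e ∈ sw E M p ↔ e ∈ E ∧ ((e ∈ M ∧ e ∉ steps p) ∨ (e ∉ M ∧ e ∈ steps p)) := by
  rw [sw, List.mem_filter]
  refine and_congr_right fun _ => ?_
  by_cases h1 : e ∈ M <;> by_cases h2 : e ∈ steps p
  · simp [(memE_iff M e).2 h1, (memE_iff _ e).2 h2, h1, h2]
  · simp [(memE_iff M e).2 h1, (memE_false _ e).2 h2, h1, h2]
  · simp [(memE_false M e).2 h1, (memE_iff _ e).2 h2, h1, h2]
  · simp [(memE_false M e).2 h1, (memE_false _ e).2 h2, h1, h2]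

/- PROOF. the filtered list is not empty and all its members are `(v, w)`. -/
theorem mate_eq {E M : List Ed} (hM : Mt E M) {v w : ℕ} (h : (v, w) ∈ M) : mate M v = w := by
  have h1 : (v, w) ∈ M.filter fun e => decide (e.1 = v) := by
    rw [List.mem_filter]
    exact ⟨h, by simp⟩
  have h2 : ∀ e ∈ M.filter fun e => decide (e.1 = v), e.2 = w := by
    intro e he
    rw [List.mem_filter] at he
    have h3 : e.1 = v := by simpa using he.2
    have h4 : (v, e.2) ∈ M := by
      have := he.1
      rw [← h3]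
      exact this
    exact hM.func _ _ _ h4 h
  rw [mate]
  generalize (M.filter fun e => decide (e.1 = v)) = l at h1 h2
  cases l with
  | nil => simp at h1
  | cons x l => simpa using h2 x (by simp)

private theorem S0_pairs : ∀ (n : ℕ) (l : List ℕ), l.length ≤ n → ∀ (acc : List Ed) (e : Ed),
    e ∈ (l.foldl (fun s y => bif s.1 then (false, 0, (s.2.1, y) :: (y, s.2.1) :: s.2.2)
      else (true, y, s.2.2)) (false, 0, acc)).2.2 ↔ e ∈ acc ∨ e ∈ pairsR l := by
  intro n
  induction n with
  | zero =>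
    intro l hl acc e
    have : l = [] := List.length_eq_zero_iff.1 (by omega)
    subst this
    simp [pairsR]
  | succ n ih =>
    intro l hl acc e
    match l, hl with
    | [], _ => simp [pairsR]
    | [x], _ => simp [pairsR]
    | x :: y :: l, hl =>
      rw [List.foldl_cons, List.foldl_cons]
      have h1 := ih l (by simp at hl; omega) ((x, y) :: (y, x) :: acc) e
      simp only [cond_false, cond_true]
      rw [h1]
      simp only [pairsR, List.mem_cons]
      tauto

/- PROOF. By strong induction on the length, for the fold from `(false, 0, acc)`: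
`e ∈ result ↔ e ∈ acc ∨ e ∈ pairsR l`. -/
theorem mem_pairs (l : List ℕ) (e : Ed) : e ∈ pairs l ↔ e ∈ pairsR l := by
  have h := S0_pairs l.length l le_rfl [] e
  simp only [List.not_mem_nil, false_or] at h
  exact h

private theorem S0_rot (v : ℕ) (l₁ : List ℕ) : ∀ (l₂ : List ℕ) (k : ℕ), v ∉ l₁ → l₁.length ≤ k →
    (fun l : List ℕ => bif decide (l.headD 0 = v) then l else l.tail ++ [l.headD 0])^[k]
      (l₁ ++ v :: l₂) = v :: l₂ ++ l₁ := by
  have hfix : ∀ (l : List ℕ) (k : ℕ),
      (fun l : List ℕ => bif decide (l.headD 0 = v) then l else l.tail ++ [l.headD 0])^[k]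
        (v :: l) = v :: l := by
    intro l k
    induction k with
    | zero => rfl
    | succ k ih => rw [Function.iterate_succ_apply]; simpa using ih
  induction l₁ with
  | nil =>
    intro l₂ k _ _
    rw [List.nil_append, hfix, List.append_nil]
  | cons x l₁ ih =>
    intro l₂ k h hk
    cases k with
    | zero => simp at hk
    | succ k =>
      have hx : x ≠ v := fun e => h (by simp [e])
      rw [Function.iterate_succ_apply]
      have h1 : (bif decide (((x :: l₁) ++ v :: l₂).headD 0 = v) then (x :: l₁) ++ v :: l₂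
          else ((x :: l₁) ++ v :: l₂).tail ++ [((x :: l₁) ++ v :: l₂).headD 0]) =
          l₁ ++ v :: (l₂ ++ [x]) := by
        simp [hx]
      rw [h1, ih (l₂ ++ [x]) k (fun e => h (by simp [e])) (by simpa using hk)]
      simp

/- PROOF. By induction on `l₁`, the `l₁.length`-th iterate of the step at `l₁ ++ v :: l₂` is
`v :: l₂ ++ l₁`, which is fixed by the step. -/
theorem rotTo_eq (v : ℕ) (l₁ l₂ : List ℕ) (h : v ∉ l₁) :
    rotTo v (l₁ ++ v :: l₂) = v :: l₂ ++ l₁ :=
  S0_rot v l₁ l₂ _ h (by simp)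

/- PROOF. two-step induction (`pairsR`). -/
theorem pairsR_mem (l : List ℕ) (u v : ℕ) (h : (u, v) ∈ pairsR l) : u ∈ l ∧ v ∈ l := by
  induction l using pairsR.induct with
  | case1 => simp [pairsR] at h
  | case2 => simp [pairsR] at h
  | case3 x y l ih =>
    simp only [pairsR, List.mem_cons, Prod.mk.injEq] at h ⊢
    rcases h with ⟨rfl, rfl⟩ | ⟨rfl, rfl⟩ | h
    · simp
    · simp
    · have := ih h
      exact ⟨Or.inr (Or.inr this.1), Or.inr (Or.inr this.2)⟩

theorem pairsR_symm (l : List ℕ) (u v : ℕ) (h : (u, v) ∈ pairsR l) : (v, u) ∈ pairsR l := by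
  induction l using pairsR.induct with
  | case1 => simp [pairsR] at h
  | case2 => simp [pairsR] at h
  | case3 x y l ih =>
    simp only [pairsR, List.mem_cons, Prod.mk.injEq] at h ⊢
    rcases h with ⟨rfl, rfl⟩ | ⟨rfl, rfl⟩ | h
    · simp
    · simp
    · exact Or.inr (Or.inr (ih h))

theorem pairsR_func (l : List ℕ) (hl : l.Nodup) (u v w : ℕ) (h : (u, v) ∈ pairsR l)
    (h' : (u, w) ∈ pairsR l) : v = w := by
  induction l using pairsR.induct with
  | case1 => simp [pairsR] at h
  | case2 => simp [pairsR] at h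
  | case3 x y l ih =>
    have hx : x ≠ y ∧ x ∉ l := by
      have := (List.nodup_cons.1 hl).1
      simp only [List.mem_cons, not_or] at this
      exact this
    have hy : y ∉ l := (List.nodup_cons.1 (List.nodup_cons.1 hl).2).1
    have hl' : l.Nodup := (List.nodup_cons.1 (List.nodup_cons.1 hl).2).2
    simp only [pairsR, List.mem_cons, Prod.mk.injEq] at h h'
    rcases h with ⟨rfl, rfl⟩ | ⟨rfl, rfl⟩ | h <;> rcases h' with ⟨h1, h2⟩ | ⟨h1, h2⟩ | h'
    · exact h2.symm
    · exact absurd h1 hx.1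
    · exact absurd (pairsR_mem _ _ _ h').1 hx.2
    · exact absurd h1.symm hx.1
    · exact h2.symm
    · exact absurd (pairsR_mem _ _ _ h').1 hy
    · rw [h1] at h
      exact absurd (pairsR_mem _ _ _ h).1 hx.2
    · rw [h1] at h
      exact absurd (pairsR_mem _ _ _ h).1 hy
    · exact ih hl' h h'

theorem pairsR_cov (l : List ℕ) (hl : l.length % 2 = 0) (u : ℕ) (hu : u ∈ l) :
    ∃ v, (u, v) ∈ pairsR l := by
  induction l using pairsR.induct with
  | case1 => simp at hu
  | case2 => simp at hl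
  | case3 x y l ih =>
    simp only [pairsR, List.mem_cons, Prod.mk.injEq] at hu ⊢
    rcases hu with rfl | rfl | hu
    · exact ⟨y, Or.inl ⟨rfl, rfl⟩⟩
    · exact ⟨x, Or.inr (Or.inl ⟨rfl, rfl⟩)⟩
    · obtain ⟨v, hv⟩ := ih (by simp only [List.length_cons] at hl; omega) hu
      exact ⟨v, Or.inr (Or.inr hv)⟩

theorem pairsR_sub {E : List Ed} (hE : ∀ u v, (u, v) ∈ E → (v, u) ∈ E) (l : List ℕ)
    (hl : List.IsChain (fun u v => (u, v) ∈ E) l) (u v : ℕ) (h : (u, v) ∈ pairsR l) :
    (u, v) ∈ E := by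
  induction l using pairsR.induct with
  | case1 => simp [pairsR] at h
  | case2 => simp [pairsR] at h
  | case3 x y l ih =>
    rw [List.isChain_cons_cons] at hl
    have hl' : List.IsChain (fun u v => (u, v) ∈ E) l := by
      have := hl.2
      cases l with
      | nil => exact List.IsChain.nil
      | cons z l => exact (List.isChain_cons_cons.1 this).2
    simp only [pairsR, List.mem_cons, Prod.mk.injEq] at h
    rcases h with ⟨rfl, rfl⟩ | ⟨rfl, rfl⟩ | h
    · exact hl.1
    · exact hE _ _ hl.1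
    · exact ih hl' h

end Pool.Agent.EDM

end

section -- file EDM/S1

/-! **[EDM-S1]** Switching along an alternating path. -/

namespace Pool.Agent.EDM

/-- alternating paths from a vertex (the first element of the list) to the exposed vertex `a` -/
inductive AP (E M : List Ed) (a : ℕ) : List ℕ → Prop
  | root : AP E M a [a]
  | step {u t s : ℕ} {p : List ℕ} : AP E M a (s :: p) → (s, t) ∈ E → (t, u) ∈ M → t ∉ s :: p →
      u ∉ s :: p → AP E M a (u :: t :: s :: p)

/-- the properties proved by induction -/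
structure S1_R (E M : List Ed) (l : List ℕ) : Prop where
  mt : Mt E (sw E M l)
  hd : ∀ w, (l.headD 0, w) ∉ sw E M l
  off : ∀ x, x ∉ l → ∀ y, (x, y) ∈ sw E M l ↔ (x, y) ∈ M
  cov : ∀ x ∈ l, x ≠ l.headD 0 → ∃ y, (x, y) ∈ sw E M l
  int : ∀ x y, (x, y) ∈ sw E M l → x ∈ l → y ∈ l

theorem S1_main {E M : List Ed} {a : ℕ} (hs : ∀ u v, (u, v) ∈ E → (v, u) ∈ E) (hi : ∀ u, (u, u) ∉ E)
    (hM : Mt E M) (ha : ∀ w, (a, w) ∉ M) {l : List ℕ} (hl : AP E M a l) : S1_R E M l := by
  induction hl with
  | root =>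
    have h1 : ∀ e : Ed, e ∈ sw E M [a] ↔ e ∈ M := by
      intro e
      rw [mem_sw, mem_steps]
      constructor
      · rintro ⟨-, ⟨h, -⟩ | ⟨-, h⟩⟩
        · exact h
        · exact absurd h (by simp [chainE])
      · intro h
        exact ⟨hM.sub e.1 e.2 h, Or.inl ⟨h, by simp [chainE]⟩⟩
    refine ⟨⟨?_, ?_, ?_⟩, ?_, ?_, ?_, ?_⟩
    · intro u v h
      exact hM.sub _ _ ((h1 _).1 h)
    · intro u v h
      exact (h1 _).2 (hM.symm _ _ ((h1 _).1 h))
    · intro u v w h h'
      exact hM.func _ _ _ ((h1 _).1 h) ((h1 _).1 h')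
    · intro w h
      exact ha w ((h1 _).1 h)
    · intro x _ y
      exact h1 _
    · intro x hx hx'
      exact absurd (List.mem_singleton.1 hx) hx'
    · intro x y h hx
      rw [List.mem_singleton.1 hx] at h
      exact absurd ((h1 _).1 h) (ha y)
  | @step u t s p hp hst htu ht hu ih =>
    obtain ⟨i1, i2, i3, i4, i5⟩ := ih
    have i2' : ∀ w, (s, w) ∉ sw E M (s :: p) := i2
    have hut : (u, t) ∈ M := hM.symm _ _ htu
    have hne : u ≠ t := by
      rintro rfl
      exact hi _ (hM.sub _ _ htu)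
    have hus : u ≠ s := fun h => hu (h ▸ List.mem_cons_self)
    have hts : t ≠ s := fun h => ht (h ▸ List.mem_cons_self)
    have hMts : (t, s) ∉ M := fun h => hus (hM.func _ _ _ htu h)
    have hMst : (s, t) ∉ M := fun h => hMts (hM.symm _ _ h)
    have hA : ∀ x y, (x, y) ∈ steps (s :: p) → x ≠ t ∧ x ≠ u ∧ y ≠ t ∧ y ≠ u := by
      intro x y h
      obtain ⟨h1, h2⟩ := steps_mem _ _ _ h
      exact ⟨fun h => ht (h ▸ h1), fun h => hu (h ▸ h1), fun h => ht (h ▸ h2), fun h => hu (h ▸ h2)⟩
    have hsteps : ∀ x y, (x, y) ∈ steps (u :: t :: s :: p) ↔ (x = u ∧ y = t) ∨ (x = t ∧ y = u) ∨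
        (x = t ∧ y = s) ∨ (x = s ∧ y = t) ∨ (x, y) ∈ steps (s :: p) := by
      intro x y
      rw [mem_steps, mem_steps]
      simp only [chainE, List.mem_cons, Prod.mk.injEq]
    have key : ∀ x y, (x, y) ∈ sw E M (u :: t :: s :: p) ↔
        ((x, y) ∈ sw E M (s :: p) ∧ ¬ (x = t ∧ y = u) ∧ ¬ (x = u ∧ y = t)) ∨ (x = s ∧ y = t) ∨ (x = t ∧ y = s) := by
      intro x y
      rw [mem_sw, mem_sw, hsteps]
      by_cases c1 : x = t ∧ y = u
      · obtain ⟨rfl, rfl⟩ := c1
        constructor
        · rintro ⟨-, ⟨-, h⟩ | ⟨h, -⟩⟩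
          · exact absurd (Or.inr (Or.inl ⟨rfl, rfl⟩)) h
          · exact absurd htu h
        · rintro (⟨-, h, -⟩ | ⟨h, -⟩ | ⟨-, h⟩)
          · exact absurd ⟨rfl, rfl⟩ h
          · exact absurd h hts
          · exact absurd h hus
      by_cases c2 : x = u ∧ y = t
      · obtain ⟨rfl, rfl⟩ := c2
        constructor
        · rintro ⟨-, ⟨-, h⟩ | ⟨h, -⟩⟩
          · exact absurd (Or.inl ⟨rfl, rfl⟩) h
          · exact absurd hut h
        · rintro (⟨-, -, h⟩ | ⟨h, -⟩ | ⟨h, -⟩)
          · exact absurd ⟨rfl, rfl⟩ h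
          · exact absurd h hus
          · exact absurd h hne
      by_cases c3 : x = s ∧ y = t
      · obtain ⟨rfl, rfl⟩ := c3
        constructor
        · intro _
          exact Or.inr (Or.inl ⟨rfl, rfl⟩)
        · intro _
          exact ⟨hst, Or.inr ⟨hMst, Or.inr (Or.inr (Or.inr (Or.inl ⟨rfl, rfl⟩)))⟩⟩
      by_cases c4 : x = t ∧ y = s
      · obtain ⟨rfl, rfl⟩ := c4
        constructor
        · intro _
          exact Or.inr (Or.inr ⟨rfl, rfl⟩)
        · intro _
          exact ⟨hs _ _ hst, Or.inr ⟨hMts, Or.inr (Or.inr (Or.inl ⟨rfl, rfl⟩))⟩⟩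
      · constructor
        · rintro ⟨h, h2⟩
          left
          refine ⟨⟨h, ?_⟩, c1, c2⟩
          rcases h2 with ⟨h3, h4⟩ | ⟨h3, h4⟩
          · exact Or.inl ⟨h3, fun h5 => h4 (Or.inr (Or.inr (Or.inr (Or.inr h5))))⟩
          · right
            refine ⟨h3, ?_⟩
            rcases h4 with h5 | h5 | h5 | h5 | h5
            · exact absurd h5 c2
            · exact absurd h5 c1
            · exact absurd h5 c4
            · exact absurd h5 c3
            · exact h5
        · rintro (⟨⟨h, h2⟩, -, -⟩ | h | h)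
          · refine ⟨h, ?_⟩
            rcases h2 with ⟨h3, h4⟩ | ⟨h3, h4⟩
            · left
              refine ⟨h3, ?_⟩
              rintro (h5 | h5 | h5 | h5 | h5)
              · exact absurd h5 c2
              · exact absurd h5 c1
              · exact absurd h5 c4
              · exact absurd h5 c3
              · exact h4 h5
            · exact Or.inr ⟨h3, Or.inr (Or.inr (Or.inr (Or.inr h4)))⟩
          · exact absurd h c3
          · exact absurd h c4
    have kt : ∀ y, (t, y) ∈ sw E M (s :: p) → y = u := fun y h =>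
      hM.func _ _ _ ((i3 t ht y).1 h) htu
    have ku : ∀ y, (u, y) ∈ sw E M (s :: p) → y = t := fun y h =>
      hM.func _ _ _ ((i3 u hu y).1 h) hut
    refine ⟨⟨?_, ?_, ?_⟩, ?_, ?_, ?_, ?_⟩
    · intro x y h
      exact ((mem_sw _ _ _ _).1 h).1
    · intro x y h
      rw [key] at h ⊢
      rcases h with ⟨h1, h2, h3⟩ | ⟨h1, h2⟩ | ⟨h1, h2⟩
      · exact Or.inl ⟨i1.symm _ _ h1, fun h4 => h3 ⟨h4.2, h4.1⟩, fun h4 => h2 ⟨h4.2, h4.1⟩⟩
      · exact Or.inr (Or.inr ⟨h2, h1⟩)
      · exact Or.inr (Or.inl ⟨h2, h1⟩)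
    · intro x y z h h'
      rw [key] at h h'
      rcases h with ⟨h1, h2, h3⟩ | ⟨h1, h2⟩ | ⟨h1, h2⟩
      · rcases h' with ⟨h1', h2', h3'⟩ | ⟨h1', h2'⟩ | ⟨h1', h2'⟩
        · exact i1.func _ _ _ h1 h1'
        · rw [h1'] at h1
          exact absurd h1 (i2' _)
        · rw [h1'] at h1
          exact absurd ⟨h1', kt _ h1⟩ h2
      · rcases h' with ⟨h1', h2', h3'⟩ | ⟨h1', h2'⟩ | ⟨h1', h2'⟩
        · rw [h1] at h1'
          exact absurd h1' (i2' _)
        · rw [h2, h2']
        · exact absurd (h1'.symm.trans h1) hts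
      · rcases h' with ⟨h1', h2', h3'⟩ | ⟨h1', h2'⟩ | ⟨h1', h2'⟩
        · rw [h1] at h1'
          exact absurd ⟨h1, kt _ h1'⟩ h2'
        · exact absurd (h1.symm.trans h1') hts
        · rw [h2, h2']
    · intro w h
      have h' : (u, w) ∈ sw E M (u :: t :: s :: p) := h
      rw [key] at h'
      rcases h' with ⟨h1, h2, h3⟩ | ⟨h1, h2⟩ | ⟨h1, h2⟩
      · exact h3 ⟨rfl, ku _ h1⟩
      · exact hus h1
      · exact hne h1
    · intro x hx y
      have hx1 : x ≠ u := fun h => hx (h ▸ List.mem_cons_self)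
      have hx2 : x ≠ t := fun h => hx (h ▸ List.mem_cons_of_mem _ List.mem_cons_self)
      have hx3 : x ∉ s :: p := fun h => hx (List.mem_cons_of_mem _ (List.mem_cons_of_mem _ h))
      have hx4 : x ≠ s := fun h => hx3 (h ▸ List.mem_cons_self)
      rw [key, ← i3 x hx3 y]
      constructor
      · rintro (⟨h1, -, -⟩ | ⟨h1, -⟩ | ⟨h1, -⟩)
        · exact h1
        · exact absurd h1 hx4
        · exact absurd h1 hx2
      · intro h
        exact Or.inl ⟨h, fun h1 => hx2 h1.1, fun h1 => hx1 h1.1⟩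
    · intro x hx hxu
      have hxu' : x ≠ u := hxu
      rcases List.mem_cons.1 hx with h | h
      · exact absurd h hxu'
      rcases List.mem_cons.1 h with h1 | h1
      · exact ⟨s, (key _ _).2 (Or.inr (Or.inr ⟨h1, rfl⟩))⟩
      · by_cases hxs : x = s
        · exact ⟨t, (key _ _).2 (Or.inr (Or.inl ⟨hxs, rfl⟩))⟩
        · obtain ⟨y, hy⟩ := i4 x h1 hxs
          refine ⟨y, (key _ _).2 (Or.inl ⟨hy, ?_, ?_⟩)⟩
          · rintro ⟨h2, -⟩
            exact ht (h2 ▸ h1)
          · rintro ⟨h2, -⟩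
            exact hxu' h2
    · intro x y h hx
      rw [key] at h
      rcases h with ⟨h1, h2, h3⟩ | ⟨h1, h4⟩ | ⟨h1, h4⟩
      · rcases List.mem_cons.1 hx with h5 | h5
        · rw [h5] at h1
          exact absurd ⟨h5, ku _ h1⟩ h3
        rcases List.mem_cons.1 h5 with h6 | h6
        · rw [h6] at h1
          exact absurd ⟨h6, kt _ h1⟩ h2
        · exact List.mem_cons_of_mem _ (List.mem_cons_of_mem _ (i5 x y h1 h6))
      · rw [h4]
        exact List.mem_cons_of_mem _ List.mem_cons_self
      · rw [h4]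
        exact List.mem_cons_of_mem _ (List.mem_cons_of_mem _ List.mem_cons_self)

theorem S1_root {E M : List Ed} {a : ℕ} {l : List ℕ} (hl : AP E M a l) : a ∈ l := by
  induction hl with
  | root => exact List.mem_singleton.2 rfl
  | step _ _ _ _ _ ih => exact List.mem_cons_of_mem _ (List.mem_cons_of_mem _ ih)

/-
PROOF of the three theorems: first prove by induction on `AP E M a (v :: p)` (for all `v`, `p`), with
`sw` described by `mem_sw`, `mem_steps`, `chainE`, the conjunction of
(1) `Mt E (sw E M (v :: p))`, (2) no pair `(v, w)` is in `sw E M (v :: p)`,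
(3) for `x ∉ v :: p`: `(x, y) ∈ sw E M (v :: p) ↔ (x, y) ∈ M`,
(4) for `x ∈ v :: p`, `x ≠ v` there is `y` with `(x, y) ∈ sw E M (v :: p)`, and
(5) `(x, y) ∈ sw E M (v :: p)`, `x ∈ v :: p` imply `y ∈ v :: p`.
For `[a]`: `chainE a [] = []`, `sw` is `E.filter (· ∈ M)`, i.e. `M` (as a set), and `a` is exposed.
Step: `chainE u (t :: s :: p)` has the four pairs `(u, t), (t, u), (t, s), (s, t)` and `chainE s p`. The latter
only has pairs of members of `s :: p` (`steps_mem`), so `t`, `u` do not occur in it; `(t, u), (u, t) ∈ M`;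
`(s, t), (t, s) ∉ M` (`M` is functional, `u ≠ s`). So as a set `sw E M (u :: t :: s :: p)` is
`sw E M (s :: p)` minus `(t, u), (u, t)` plus `(s, t), (t, s)`; `(t, u)` is in `sw E M (s :: p)` by (3) for
`s :: p`; `s` is exposed in `sw E M (s :: p)` by (2). `u ≠ t` since `(t, t) ∉ E`.
-/
theorem sw_near {V : List ℕ} {E M : List Ed} {a b v : ℕ} {p : List ℕ} (hG : Gr V E)
    (hN : Near V E M a b) (hp : AP E M a (v :: p)) (hb : b ∉ v :: p) :
    Near V E (sw E M (v :: p)) v b := by
  have h := S1_main hG.symm hG.irr hN.mt hN.ea hp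
  refine ⟨h.mt, ?_, hN.bv, fun e => hb (e ▸ List.mem_cons_self), h.hd, ?_, ?_⟩
  · cases hp with
    | root => exact hN.av
    | step _ _ htu _ _ => exact hG.mem _ _ (hG.symm _ _ (hN.mt.sub _ _ htu))
  · intro w hw
    exact hN.eb w ((h.off b hb w).1 hw)
  · intro x hx hxv hxb
    by_cases hxl : x ∈ v :: p
    · exact h.cov x hxl hxv
    · have hxa : x ≠ a := fun e => hxl (e ▸ S1_root hp)
      obtain ⟨w, hw⟩ := hN.cov x hx hxa hxb
      exact ⟨w, (h.off x hxl w).2 hw⟩

theorem sw_off {V : List ℕ} {E M : List Ed} {a b v : ℕ} {p : List ℕ} (hG : Gr V E)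
    (hN : Near V E M a b) (hp : AP E M a (v :: p)) {x y : ℕ} (hx : x ∉ v :: p) :
    (x, y) ∈ sw E M (v :: p) ↔ (x, y) ∈ M :=
  (S1_main hG.symm hG.irr hN.mt hN.ea hp).off x hx y

end Pool.Agent.EDM

end

section -- file EDM/F1

/-! **[EDM-F1]** The alternating tree. -/

namespace Pool.Agent.EDM

/-- alternating tree with root `a`, as the list of the paths from its outer vertices to `a` -/
structure Fo (V : List ℕ) (E M : List Ed) (a b : ℕ) (F : List (List ℕ)) : Prop where
  ap : ∀ p ∈ F, AP E M a p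
  suf : ∀ u t p, (u :: t :: p) ∈ F → p ∈ F
  inj : ∀ p ∈ F, ∀ q ∈ F, p.headD 0 = q.headD 0 → p = q
  nd : F.Nodup
  root : [a] ∈ F
  sep : ∀ u t p, (u :: t :: p) ∈ F → ∀ q ∈ F, q.headD 0 ≠ t
  nb : ∀ p ∈ F, b ∉ p

private theorem F1_ne {E M : List Ed} {a : ℕ} {l : List ℕ} (h : AP E M a l) :
    ∃ s p, l = s :: p ∧ l.headD 0 = s := by
  cases h with
  | root => exact ⟨a, [], rfl, rfl⟩
  | @step u t s p _ _ _ _ _ => exact ⟨u, _, rfl, rfl⟩

private theorem F1_head {E M : List Ed} {a : ℕ} {l : List ℕ} (h : AP E M a l) : l.headD 0 ∈ l := by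
  obtain ⟨s, p, rfl, h2⟩ := F1_ne h
  exact List.mem_cons_self

private theorem F1_closed {E M : List Ed} {a : ℕ} (hM : Mt E M) {l : List ℕ} (h : AP E M a l) :
    ∀ v ∈ l, v = a ∨ ∃ w ∈ l, (v, w) ∈ M := by
  induction h with
  | root =>
    intro v hv
    exact Or.inl (List.mem_singleton.1 hv)
  | @step u t s p _ _ htu _ _ ih =>
    intro v hv
    rcases List.mem_cons.1 hv with h1 | h1
    · exact Or.inr ⟨t, List.mem_cons_of_mem _ List.mem_cons_self, h1 ▸ hM.symm _ _ htu⟩
    rcases List.mem_cons.1 h1 with h2 | h2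
    · exact Or.inr ⟨u, List.mem_cons_self, h2 ▸ htu⟩
    rcases ih v h2 with h3 | ⟨w, hw, h3⟩
    · exact Or.inl h3
    · exact Or.inr ⟨w, List.mem_cons_of_mem _ (List.mem_cons_of_mem _ hw), h3⟩

private theorem F1_headV {V : List ℕ} {E M : List Ed} {a b : ℕ} (hG : Gr V E) (hN : Near V E M a b)
    {l : List ℕ} (h : AP E M a l) : l.headD 0 ∈ V := by
  cases h with
  | root => exact hN.av
  | step _ _ htu _ _ => exact hG.mem _ _ (hG.symm _ _ (hN.mt.sub _ _ htu))

private theorem F1_grows (E M : List Ed) (b : ℕ) (F : List (List ℕ)) (r : List ℕ) :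
    r ∈ grows E M b F ↔ ∃ p ∈ F, ∃ t, (p.headD 0, t) ∈ E ∧ t ∉ F.flatten ∧ t ≠ b ∧ r = mate M t :: t :: p := by
  unfold grows
  rw [List.mem_flatMap]
  constructor
  · rintro ⟨p, hp, h⟩
    obtain ⟨e, he, rfl⟩ := List.mem_map.1 h
    rw [List.mem_filter] at he
    obtain ⟨h1, h2⟩ := he
    simp only [Bool.and_eq_true, Bool.not_eq_true', decide_eq_true_eq, decide_eq_false_iff_not] at h2
    obtain ⟨h3, h4, h5⟩ := h2
    refine ⟨p, hp, e.2, ?_, (memN_false _ _).1 h4, h5, rfl⟩
    rw [← h3]
    exact h1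
  · rintro ⟨p, hp, t, h1, h2, h3, rfl⟩
    refine ⟨p, hp, List.mem_map.2 ⟨(p.headD 0, t), List.mem_filter.2 ⟨h1, ?_⟩, rfl⟩⟩
    simp only [Bool.and_eq_true, Bool.not_eq_true', decide_eq_true_eq, decide_eq_false_iff_not]
    exact ⟨trivial, (memN_false _ _).2 h2, h3⟩

private theorem F1_cons {V : List ℕ} {E M : List Ed} {a b : ℕ} (hG : Gr V E) (hN : Near V E M a b)
    {F : List (List ℕ)} (hF : Fo V E M a b F) {r : List ℕ} (hr : r ∈ grows E M b F) :
    Fo V E M a b (r :: F) := by
  obtain ⟨p, hp, t, h1, h2, h3, rfl⟩ := (F1_grows E M b F r).1 hr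
  have hfl : ∀ q ∈ F, ∀ x ∈ q, x ∈ F.flatten := fun q hq x hx => List.mem_flatten.2 ⟨q, hq, hx⟩
  have hta : t ≠ a := by
    rintro rfl
    exact h2 (hfl _ hF.root _ List.mem_cons_self)
  have htV : t ∈ V := hG.mem _ _ (hG.symm _ _ h1)
  obtain ⟨u, hu⟩ := hN.cov t htV hta h3
  have hmate : mate M t = u := mate_eq hN.mt hu
  rw [hmate]
  have hut : (u, t) ∈ M := hN.mt.symm _ _ hu
  have hufl : u ∉ F.flatten := by
    intro h
    obtain ⟨q, hq, huq⟩ := List.mem_flatten.1 h
    rcases F1_closed hN.mt (hF.ap q hq) u huq with h4 | ⟨w, hw, h4⟩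
    · rw [h4] at hut
      exact hN.ea _ hut
    · have h5 := hN.mt.func _ _ _ h4 hut
      exact h2 (hfl q hq t (h5 ▸ hw))
  have hub : u ≠ b := by
    rintro rfl
    exact hN.eb _ hut
  have hne : u ≠ t := by
    rintro rfl
    exact hG.irr _ (hN.mt.sub _ _ hu)
  have hhd : ∀ q ∈ F, q.headD 0 ∈ F.flatten := fun q hq => hfl q hq _ (F1_head (hF.ap q hq))
  have hap : AP E M a (u :: t :: p) := by
    obtain ⟨s, p', hsp, hs⟩ := F1_ne (hF.ap p hp)
    have h5 := hF.ap p hp
    have h6 : t ∉ p := fun h => h2 (hfl p hp t h)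
    have h7 : u ∉ p := fun h => hufl (hfl p hp u h)
    rw [hs] at h1
    rw [hsp] at h5 h6 h7 ⊢
    exact AP.step h5 h1 hu h6 h7
  refine ⟨?_, ?_, ?_, ?_, ?_, ?_, ?_⟩
  · intro q hq
    rcases List.mem_cons.1 hq with rfl | hq
    · exact hap
    · exact hF.ap q hq
  · intro u' t' p' h
    rcases List.mem_cons.1 h with h | h
    · simp only [List.cons.injEq] at h
      rw [h.2.2]
      exact List.mem_cons_of_mem _ hp
    · exact List.mem_cons_of_mem _ (hF.suf _ _ _ h)
  · intro q hq q' hq' h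
    rcases List.mem_cons.1 hq with h4 | h4
    · rcases List.mem_cons.1 hq' with h5 | h5
      · rw [h4, h5]
      · exfalso
        rw [h4] at h
        have h6 : u = q'.headD 0 := h
        exact hufl (h6 ▸ hhd q' h5)
    · rcases List.mem_cons.1 hq' with h5 | h5
      · exfalso
        rw [h5] at h
        have h6 : q.headD 0 = u := h
        exact hufl (h6 ▸ hhd q h4)
      · exact hF.inj q h4 q' h5 h
  · refine List.nodup_cons.2 ⟨fun h => hufl (hfl _ h u List.mem_cons_self), hF.nd⟩
  · exact List.mem_cons_of_mem _ hF.root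
  · intro u' t' p' h q hq
    rcases List.mem_cons.1 h with h | h
    · simp only [List.cons.injEq] at h
      rw [h.2.1]
      rcases List.mem_cons.1 hq with h5 | h5
      · rw [h5]
        exact hne
      · intro h6
        exact h2 (h6 ▸ hhd q h5)
    · rcases List.mem_cons.1 hq with h5 | h5
      · rw [h5]
        intro h6
        have h7 : u = t' := h6
        exact hufl (h7 ▸ hfl _ h t' (List.mem_cons_of_mem _ List.mem_cons_self))
      · exact hF.sep _ _ _ h q h5
  · intro q hq hbq
    rcases List.mem_cons.1 hq with h5 | h5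
    · rw [h5] at hbq
      rcases List.mem_cons.1 hbq with h6 | h6
      · exact hub h6.symm
      rcases List.mem_cons.1 h6 with h7 | h7
      · exact h3 h7.symm
      · exact hF.nb p hp h7
    · exact hF.nb q h5 hbq

private theorem F1_len {V : List ℕ} {E M : List Ed} {a b : ℕ} (hG : Gr V E) (hN : Near V E M a b)
    {F : List (List ℕ)} (hF : Fo V E M a b F) : F.length ≤ V.length := by
  have h1 : (F.map fun p => p.headD 0).Nodup := List.Nodup.map_on hF.inj hF.nd
  have h2 : (F.map fun p => p.headD 0) ⊆ V := by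
    intro x hx
    obtain ⟨p, hp, rfl⟩ := List.mem_map.1 hx
    exact F1_headV hG hN (hF.ap p hp)
  have h3 := (h1.subperm h2).length_le
  rwa [List.length_map] at h3

private theorem F1_base {V : List ℕ} {E M : List Ed} {a b : ℕ} (hN : Near V E M a b) :
    Fo V E M a b [[a]] := by
  refine ⟨?_, ?_, ?_, List.nodup_singleton _, List.mem_singleton.2 rfl, ?_, ?_⟩
  · intro p hp
    rw [List.mem_singleton.1 hp]
    exact AP.root
  · intro u t p h
    simp at h
  · intro p hp q hq _
    rw [List.mem_singleton.1 hp, List.mem_singleton.1 hq]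
  · intro u t p h
    simp at h
  · intro p hp hb
    rw [List.mem_singleton.1 hp] at hb
    exact hN.ne (List.mem_singleton.1 hb).symm

/-
PROOF. `[[a]]` is an `Fo`. `fstep` preserves `Fo`: a new path is `u :: t :: p`, `p ∈ F`, `s = p.headD 0` (`p` is not
empty, `ap`), `(s, t) ∈ E`, `t ∉ F.flatten`, `t ≠ b`, `u = mate M t`; `t ≠ a` since `[a] ∈ F`, so `t` is covered
(`t ∈ V` by `Gr`) and `(t, u) ∈ M` (`mate_eq`), `(u, t) ∈ M`. Every path of `F` is closed in the following sense:
if `v ∈ q`, `q ∈ F` (an `AP`), then `v = a` or the `M`-partner of `v` is in `q` (induction on `AP`). So `u ∉ F.flatten`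
(`u ≠ a`: `u` is covered). `u ≠ b`. The members of an `AP` are in `V` (for `hd`: the first elements of the paths are
different members of `V`: `inj` and `nd`), so `F.length ≤ V.length` (`List.Nodup.subperm`, `List.Subperm.length_le`).
If `grows E M b F = []` then `fstep` fixes `F`, otherwise it increases the length by one. If `grows` of the `V.length`-th
iterate were not empty, the `(V.length + 1)`-st iterate would have length `V.length + 2`, but it is an `Fo`.
-/
theorem forest_ok {V : List ℕ} {E M : List Ed} {a b : ℕ} (hG : Gr V E) (hN : Near V E M a b) :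
    Fo V E M a b (forest V E M a b) ∧ grows E M b (forest V E M a b) = [] := by
  have key : ∀ k : ℕ, Fo V E M a b ((fstep E M b)^[k] [[a]]) ∧
      (grows E M b ((fstep E M b)^[k] [[a]]) = [] ∨ ((fstep E M b)^[k] [[a]]).length = k + 1) := by
    intro k
    induction k with
    | zero => exact ⟨F1_base hN, Or.inr rfl⟩
    | succ k ih =>
      obtain ⟨h1, h2⟩ := ih
      rw [Function.iterate_succ_apply']
      set F := (fstep E M b)^[k] [[a]] with hF
      cases hg : grows E M b F with
      | nil =>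
        have h3 : fstep E M b F = F := by
          unfold fstep
          rw [hg]
        rw [h3]
        exact ⟨h1, Or.inl hg⟩
      | cons r L =>
        have h3 : fstep E M b F = r :: F := by
          unfold fstep
          rw [hg]
        rw [h3]
        refine ⟨F1_cons hG hN h1 (by rw [hg]; exact List.mem_cons_self), Or.inr ?_⟩
        rcases h2 with h2 | h2
        · rw [hg] at h2
          exact absurd h2 (List.cons_ne_nil _ _)
        · rw [List.length_cons, h2]
  obtain ⟨h1, h2⟩ := key V.length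
  refine ⟨h1, ?_⟩
  rcases h2 with h2 | h2
  · exact h2
  · have h3 := F1_len hG hN h1
    omega

end Pool.Agent.EDM

end

section -- file EDM/F2

/-! **[EDM-F2]** A complete alternating tree without adjacent outer vertices: no perfect matching. -/

namespace Pool.Agent.EDM

/-
PROOF. Let `N` be a perfect matching (`PM V E N`), `O` the finset of the first elements of the paths in `F`.
For `v ∈ O`, `v = p.headD 0`, let `w` be the `N`-partner of `v` (`mate N v`): `(v, w) ∈ E`. `w ≠ b` since `good = []`,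
`w` is not in `O` since `hits = []`, and `w ∈ F.flatten` since `grows = []`. Induction on `AP` (with `suf`): every member
of `q ∈ F` is in `O` or is the second element `t` of a path `u :: t :: p' ∈ F`. So `(w, u) ∈ M` for some `u ∈ O`;
`u ≠ a` because `a` is exposed. So `v ↦ mate M (mate N v)` maps `O` into `O.erase a`; it is injective (`mate_eq`, symmetry);
`a ∈ O` (`root`). Contradiction by cardinalities (`Finset.card_le_card_of_injOn`, `Finset.card_erase_of_mem`).
-/
private theorem F2_class {V : List ℕ} {E M : List Ed} {a b : ℕ} {F : List (List ℕ)}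
    (hF : Fo V E M a b F) (q : List ℕ) (hq : AP E M a q) :
    q ∈ F → ∀ x ∈ q, (∃ p ∈ F, x = p.headD 0) ∨ ∃ u p', (u :: x :: p') ∈ F := by
  induction hq with
  | root =>
    intro hqF x hx
    rw [List.mem_singleton] at hx
    exact Or.inl ⟨[a], hqF, hx⟩
  | @step u t s p hp h1 h2 h3 h4 ih =>
    intro hqF x hx
    rcases List.mem_cons.1 hx with hx | hx
    · exact Or.inl ⟨_, hqF, hx⟩
    rcases List.mem_cons.1 hx with hx | hx
    · right
      rw [hx]
      exact ⟨u, s :: p, hqF⟩
    · exact ih (hF.suf u t _ hqF) x hx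

private theorem F2_headV {V : List ℕ} {E M : List Ed} {a b : ℕ} (hG : Gr V E)
    (hN : Near V E M a b) (q : List ℕ) (hq : AP E M a q) : q.headD 0 ∈ V := by
  cases hq with
  | root => exact hN.av
  | @step u t s p hp h1 h2 h3 h4 =>
    exact hG.mem u t (hN.mt.sub u t (hN.mt.symm t u h2))

theorem no_pm {V : List ℕ} {E M : List Ed} {a b : ℕ} {F : List (List ℕ)} (hG : Gr V E)
    (hN : Near V E M a b) (hF : Fo V E M a b F) (hg : grows E M b F = []) (h1 : good E b F = [])
    (h2 : hits E F = []) : ¬ ∃ N, PM V E N := by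
  classical
  rintro ⟨N, hPM⟩
  set O : Finset ℕ := (F.map fun p => p.headD 0).toFinset with hO
  have hOmem : ∀ v, v ∈ O ↔ ∃ p ∈ F, v = p.headD 0 := by
    intro v
    rw [hO, List.mem_toFinset, List.mem_map]
    constructor
    · rintro ⟨p, hp, h⟩
      exact ⟨p, hp, h.symm⟩
    · rintro ⟨p, hp, h⟩
      exact ⟨p, hp, h.symm⟩
  have key : ∀ v ∈ O, ∃ w u, (v, w) ∈ N ∧ (w, u) ∈ M ∧ u ∈ O ∧ u ≠ a := by
    intro v hv
    obtain ⟨p, hp, rfl⟩ := (hOmem v).1 hv
    obtain ⟨w, hw⟩ := hPM.cov _ (F2_headV hG hN p (hF.ap p hp))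
    have hwE := hPM.mt.sub _ _ hw
    have hwb : w ≠ b := by
      rintro rfl
      have h3 : p ∈ good E w F := by
        unfold good
        rw [List.mem_filter]
        exact ⟨hp, (memE_iff _ _).2 hwE⟩
      rw [h1] at h3
      exact absurd h3 List.not_mem_nil
    have hwO : ¬ ∃ q ∈ F, w = q.headD 0 := by
      rintro ⟨q, hq, hwq⟩
      have h3 : (p, q) ∈ hits E F := by
        unfold hits
        rw [List.mem_flatMap]
        refine ⟨p, hp, ?_⟩
        rw [List.mem_map]
        refine ⟨q, ?_, rfl⟩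
        rw [List.mem_filter]
        refine ⟨hq, (memE_iff _ _).2 ?_⟩
        rw [← hwq]
        exact hwE
      rw [h2] at h3
      exact absurd h3 List.not_mem_nil
    have hwF : w ∈ F.flatten := by
      by_contra hcon
      have h3 : (mate M w :: w :: p) ∈ grows E M b F := by
        unfold grows
        rw [List.mem_flatMap]
        refine ⟨p, hp, ?_⟩
        rw [List.mem_map]
        refine ⟨(p.headD 0, w), ?_, rfl⟩
        rw [List.mem_filter]
        refine ⟨hwE, ?_⟩
        simp only [Bool.and_eq_true, decide_eq_true_eq, Bool.not_eq_true', decide_eq_false_iff_not,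
          true_and]
        exact ⟨(memN_false _ _).2 hcon, hwb⟩
      rw [hg] at h3
      exact absurd h3 List.not_mem_nil
    obtain ⟨q, hq, hwq⟩ := List.mem_flatten.1 hwF
    rcases F2_class hF q (hF.ap q hq) hq w hwq with h3 | ⟨u, p', h3⟩
    · exact absurd h3 hwO
    · have h4 : (w, u) ∈ M := by
        have h5 := hF.ap _ h3
        cases h5 with
        | step _ _ h6 _ _ => exact h6
      refine ⟨w, u, hw, h4, (hOmem u).2 ⟨_, h3, rfl⟩, ?_⟩
      rintro rfl
      exact hN.ea w (hN.mt.symm _ _ h4)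
  have haO : a ∈ O := (hOmem a).2 ⟨[a], hF.root, rfl⟩
  have hmaps : ∀ v ∈ O, mate M (mate N v) ∈ O.erase a := by
    intro v hv
    obtain ⟨w, u, h3, h4, h5, h6⟩ := key v hv
    rw [mate_eq hPM.mt h3, mate_eq hN.mt h4, Finset.mem_erase]
    exact ⟨h6, h5⟩
  have hinj : Set.InjOn (fun v => mate M (mate N v)) (O : Set ℕ) := by
    intro v hv v' hv' h
    obtain ⟨w, u, h3, h4, -, -⟩ := key v hv
    obtain ⟨w', u', h3', h4', -, -⟩ := key v' hv'
    simp only at h
    rw [mate_eq hPM.mt h3, mate_eq hN.mt h4, mate_eq hPM.mt h3', mate_eq hN.mt h4'] at h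
    subst h
    have h7 := hN.mt.func u w w' (hN.mt.symm _ _ h4) (hN.mt.symm _ _ h4')
    subst h7
    exact hPM.mt.func w v v' (hPM.mt.symm _ _ h3) (hPM.mt.symm _ _ h3')
  have hcard := Finset.card_le_card_of_injOn (fun v => mate M (mate N v)) hmaps hinj
  rw [Finset.card_erase_of_mem haO] at hcard
  have hpos : 0 < O.card := Finset.card_pos.2 ⟨a, haO⟩
  omega

end Pool.Agent.EDM

end

section -- file EDM/G0

/-! Odd cycles (definition). -/

namespace Pool.Agent.EDM

/-- an odd cycle through all members of `C`, starting at its first element -/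
structure Cy (V : List ℕ) (E : List Ed) (C : List ℕ) : Prop where
  nd : C.Nodup
  sub : ∀ v ∈ C, v ∈ V
  three : 3 ≤ C.length
  odd : C.length % 2 = 1
  chain : List.IsChain (fun u v => (u, v) ∈ E) (C ++ [C.headD 0])

/-- an odd cycle whose base (first element) is exposed and whose other vertices are matched inside -/
structure Bl (V : List ℕ) (E M : List Ed) (b : ℕ) (C : List ℕ) : Prop where
  cy : Cy V E C
  near : Near V E M (C.headD 0) b
  int : ∀ u v, (u, v) ∈ M → u ∈ C → v ∈ C
  nb : b ∉ C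

end Pool.Agent.EDM

end

section -- file EDM/G1

/-! **[EDM-G1]** Two adjacent outer vertices give an odd cycle with exposed base. -/

namespace Pool.Agent.EDM

/-
PROOF. (a) For `p, q ∈ F`: if `v = p.headD 0 ∈ q` then `p <:+ q` (`p` is a suffix of `q`): by induction on `AP` of `q`
(with `suf`): if `v` is the first element of `q` use `inj`; it is not the second one (`sep`). If `p = u :: t :: p₁` and
`t ∈ q` then also `p <:+ q`: `t` is not a first element (`sep`), and if `q = u' :: t :: q₁` then `u' = u` (`M` functional).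
(b) DECOMPOSITION: for `p, q ∈ F` there are `p', q', c` with `p = p' ++ c`, `q = q' ++ c`, `c ∈ F` (so `c ≠ []`), `p'.length`,
`q'.length` even, no member of `p'` in `q`, no member of `q'` in `p`. Strong induction on `p.length + q.length`: `p <:+ q`:
`c = p` (members of `q'` are not in `p`: `q` is `Nodup`, by induction on `AP`; lengths of the members of `F` are odd).
`q <:+ p` the same. Otherwise `p` is not `[a]` (every path ends in `a`), `p = u :: t :: p₁`, `u, t ∉ q` by (a), apply the
induction hypothesis to `p₁, q`.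
(c) Hence `stem p q = c`, `dif p q = p'`, `dif q p = q'`, `cyc p q = β :: (p'.reverse ++ q')` with `β = c.headD 0`. Not both
`p'` and `q'` are empty: `(p.headD 0, q.headD 0) ∈ E` and `Gr.irr`. So `cyc` has odd length `≥ 3`; `Nodup`; contained in `V`.
(d) chain: consecutive elements of an `AP` are adjacent (both directions, `Gr.symm`): `p' ++ [β]` reversed is a chain from `β`
to the first element of `p` (if `p' = []` this is `β` itself), which is adjacent to the first element of `q`, and `q' ++ [β]`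
is a chain (`List.isChain_append`, `List.isChain_reverse`). Treat the cases `p' = []`, `q' = []` separately.
(e) near: `sw_near` for `c` (`AP E M a c`); `β` exposed. int: for `u ∈ C`, `u ≠ β`, `u ∉ c`, so `(u, v) ∈ sw .. ↔ (u, v) ∈ M`
(`sw_off`), and the `M`-partner of a member of `p'` is in `p'` (induction in (b): add this to the decomposition: `p'` and
`q'` are closed under `M`-partners). `b ∉ cyc` by `nb`.
-/
private theorem G1_nodup {V : List ℕ} {E M : List Ed} {a b : ℕ} (hG : Gr V E)
    (hN : Near V E M a b) {p : List ℕ} (hp : AP E M a p) : p.Nodup := by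
  induction hp with
  | root => exact List.nodup_singleton a
  | @step u t s p hp h1 h2 h3 h4 ih =>
    have h5 : u ≠ t := by
      rintro rfl
      exact hG.irr u (hN.mt.sub u u h2)
    refine List.nodup_cons.2 ⟨?_, List.nodup_cons.2 ⟨h3, ih⟩⟩
    intro h6
    rcases List.mem_cons.1 h6 with h7 | h7
    · exact h5 h7
    · exact h4 h7

private theorem G1_sub {V : List ℕ} {E M : List Ed} {a b : ℕ} (hG : Gr V E)
    (hN : Near V E M a b) {p : List ℕ} (hp : AP E M a p) : ∀ x ∈ p, x ∈ V := by
  induction hp with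
  | root =>
    intro x hx
    rw [List.mem_singleton] at hx
    rw [hx]
    exact hN.av
  | @step u t s p hp h1 h2 h3 h4 ih =>
    intro x hx
    rcases List.mem_cons.1 hx with hx | hx
    · rw [hx]
      exact hG.mem u t (hN.mt.sub u t (hN.mt.symm t u h2))
    rcases List.mem_cons.1 hx with hx | hx
    · rw [hx]
      exact hG.mem t s (hG.symm s t h1)
    · exact ih x hx

private theorem G1_chain {V : List ℕ} {E M : List Ed} {a b : ℕ} (hG : Gr V E)
    (hN : Near V E M a b) {p : List ℕ} (hp : AP E M a p) :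
    List.IsChain (fun u v => (u, v) ∈ E) p := by
  induction hp with
  | root => exact List.isChain_singleton a
  | @step u t s p hp h1 h2 h3 h4 ih =>
    refine List.isChain_cons_cons.2 ⟨hN.mt.sub u t (hN.mt.symm t u h2), ?_⟩
    exact List.isChain_cons_cons.2 ⟨hG.symm s t h1, ih⟩

private theorem G1_last {E M : List Ed} {a : ℕ} {p : List ℕ} (hp : AP E M a p) : a ∈ p := by
  induction hp with
  | root => exact List.mem_singleton.2 rfl
  | @step u t s p hp h1 h2 h3 h4 ih => exact List.mem_cons_of_mem _ (List.mem_cons_of_mem _ ih)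

private theorem G1_cons {E M : List Ed} {a : ℕ} {p : List ℕ} (hp : AP E M a p) :
    ∃ l, p = p.headD 0 :: l := by
  cases hp with
  | root => exact ⟨[], rfl⟩
  | step => exact ⟨_, rfl⟩

private theorem G1_a {V : List ℕ} {E M : List Ed} {a b : ℕ} {F : List (List ℕ)}
    (hF : Fo V E M a b F) {p : List ℕ} (hp : p ∈ F) {q : List ℕ} (hq : AP E M a q) :
    q ∈ F → p.headD 0 ∈ q → ∃ q', q = q' ++ p := by
  induction hq with
  | root =>
    intro hqF hx
    rw [List.mem_singleton] at hx
    have h1 : p = [a] := hF.inj p hp [a] hqF hx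
    exact ⟨[], h1.symm⟩
  | @step u t s l hp' h1 h2 h3 h4 ih =>
    intro hqF hx
    rcases List.mem_cons.1 hx with hx | hx
    · have h5 : p = u :: t :: s :: l := hF.inj p hp _ hqF hx
      exact ⟨[], h5.symm⟩
    rcases List.mem_cons.1 hx with hx | hx
    · exact absurd hx (hF.sep u t _ hqF p hp)
    · obtain ⟨q', hq'⟩ := ih (hF.suf u t _ hqF) hx
      exact ⟨u :: t :: q', by rw [hq']; rfl⟩

private theorem G1_a2 {V : List ℕ} {E M : List Ed} {a b : ℕ} {F : List (List ℕ)}
    (hN : Near V E M a b) (hF : Fo V E M a b F) {u t : ℕ} {l : List ℕ} (hp : (u :: t :: l) ∈ F)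
    (ht : (t, u) ∈ M) {q : List ℕ} (hq : AP E M a q) :
    q ∈ F → t ∈ q → ∃ q', q = q' ++ (u :: t :: l) := by
  induction hq with
  | root =>
    intro hqF hx
    rw [List.mem_singleton] at hx
    exact absurd hx.symm (hF.sep u t l hp [a] hqF)
  | @step u' t' s' l' hp' h1 h2 h3 h4 ih =>
    intro hqF hx
    rcases List.mem_cons.1 hx with hx | hx
    · exact absurd hx.symm (hF.sep u t l hp _ hqF)
    rcases List.mem_cons.1 hx with hx | hx
    · subst hx
      have h5 : u = u' := hN.mt.func t u u' ht h2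
      have h6 : (u :: t :: l) = u' :: t :: s' :: l' := hF.inj _ hp _ hqF h5
      exact ⟨[], by rw [h6]; rfl⟩
    · obtain ⟨q', hq'⟩ := ih (hF.suf _ _ _ hqF) hx
      exact ⟨u' :: t' :: q', by rw [hq']; rfl⟩

private theorem G1_D {V : List ℕ} {E M : List Ed} {a b : ℕ} {F : List (List ℕ)}
    (hN : Near V E M a b) (hF : Fo V E M a b F) {q : List ℕ} (hq : q ∈ F) {p : List ℕ}
    (hp : AP E M a p) :
    p ∈ F → ∃ p' c, p = p' ++ c ∧ c ∈ F ∧ (∃ q', q = q' ++ c) ∧ p'.length % 2 = 0 ∧
      (∀ x ∈ p', x ∉ q) ∧ ∀ x ∈ p', ∀ y, (x, y) ∈ M → y ∈ p' := by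
  induction hp with
  | root =>
    intro hpF
    obtain ⟨q', hq'⟩ := G1_a hF hpF (hF.ap q hq) hq (G1_last (hF.ap q hq))
    exact ⟨[], [a], rfl, hpF, ⟨q', hq'⟩, rfl, fun x hx => absurd hx List.not_mem_nil,
      fun x hx => absurd hx List.not_mem_nil⟩
  | @step u t s l hp h1 h2 h3 h4 ih =>
    intro hpF
    by_cases hu : u ∈ q
    · obtain ⟨q', hq'⟩ := G1_a hF hpF (hF.ap q hq) hq hu
      exact ⟨[], _, rfl, hpF, ⟨q', hq'⟩, rfl, fun x hx => absurd hx List.not_mem_nil,
        fun x hx => absurd hx List.not_mem_nil⟩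
    · have ht : t ∉ q := by
        intro ht
        obtain ⟨q', hq'⟩ := G1_a2 hN hF hpF h2 (hF.ap q hq) hq ht
        apply hu
        rw [hq']
        simp
      obtain ⟨p', c, e1, e2, e3, e4, e5, e6⟩ := ih (hF.suf _ _ _ hpF)
      refine ⟨u :: t :: p', c, by rw [e1]; rfl, e2, e3, ?_, ?_, ?_⟩
      · simp only [List.length_cons]
        omega
      · intro x hx
        rcases List.mem_cons.1 hx with hx | hx
        · rw [hx]; exact hu
        rcases List.mem_cons.1 hx with hx | hx
        · rw [hx]; exact ht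
        · exact e5 x hx
      · intro x hx y hy
        rcases List.mem_cons.1 hx with hx | hx
        · subst hx
          have h7 : t = y := hN.mt.func _ _ _ (hN.mt.symm _ _ h2) hy
          rw [← h7]
          simp
        rcases List.mem_cons.1 hx with hx | hx
        · subst hx
          have h7 : u = y := hN.mt.func _ _ _ h2 hy
          rw [← h7]
          simp
        · exact List.mem_cons_of_mem _ (List.mem_cons_of_mem _ (e6 x hx y hy))

private theorem G1_suf {p q p' c c2 : List ℕ} (h1 : p = p' ++ c) (h2 : c2 <:+ p) (h3 : c2 <:+ q)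
    (h4 : ∀ x ∈ p', x ∉ q) : c2 <:+ c := by
  have h5 : c <:+ p := ⟨p', h1.symm⟩
  rcases List.suffix_or_suffix_of_suffix h2 h5 with h6 | h6
  · exact h6
  · obtain ⟨r, hr⟩ := h6
    obtain ⟨s, hs⟩ := h2
    have h7 : p' = s ++ r := by
      have h8 : p' ++ c = (s ++ r) ++ c := by rw [← h1, ← hs, ← hr, List.append_assoc]
      exact List.append_cancel_right h8
    have h9 : r = [] := by
      rw [List.eq_nil_iff_forall_not_mem]
      intro x hx
      apply h4 x
      · rw [h7]
        exact List.mem_append_right _ hx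
      · apply h3.subset
        rw [← hr]
        exact List.mem_append_left _ hx
    rw [h9, List.nil_append] at hr
    rw [hr]

private theorem G1_stem {p q p' c : List ℕ} (h1 : p = p' ++ c) (h2 : ∀ x ∈ c, x ∈ q)
    (h4 : ∀ x ∈ p', x ∉ q) : stem p q = c ∧ dif p q = p' := by
  unfold stem dif
  rw [h1, List.filter_append, List.filter_append]
  have e1 : (p'.filter fun v => memN q v) = [] := by
    rw [List.filter_eq_nil_iff]
    intro x hx h
    exact h4 x hx ((memN_iff q x).1 h)
  have e2 : (c.filter fun v => memN q v) = c := by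
    rw [List.filter_eq_self]
    intro x hx
    exact (memN_iff q x).2 (h2 x hx)
  have e3 : (p'.filter fun v => !memN q v) = p' := by
    rw [List.filter_eq_self]
    intro x hx
    rw [(memN_false q x).2 (h4 x hx)]
    rfl
  have e4 : (c.filter fun v => !memN q v) = [] := by
    rw [List.filter_eq_nil_iff]
    intro x hx h
    rw [(memN_iff q x).2 (h2 x hx)] at h
    exact absurd h (by decide)
  rw [e1, e2, e3, e4]
  simp

theorem blossom {V : List ℕ} {E M : List Ed} {a b : ℕ} {F : List (List ℕ)} (hG : Gr V E)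
    (hN : Near V E M a b) (hF : Fo V E M a b F) {p q : List ℕ} (hp : p ∈ F) (hq : q ∈ F)
    (he : (p.headD 0, q.headD 0) ∈ E) :
    Bl V E (sw E M (stem p q)) b (cyc p q) := by
  obtain ⟨p', c, a1, a2, ⟨q0, a3⟩, a4, a5, a6⟩ := G1_D hN hF hq (hF.ap p hp) hp
  obtain ⟨q', c2, b1, b2, ⟨p0, b3⟩, b4, b5, b6⟩ := G1_D hN hF hp (hF.ap q hq) hq
  have hc : c2 = c := by
    have h1 : c2 <:+ c := G1_suf a1 ⟨p0, b3.symm⟩ ⟨q', b1.symm⟩ a5
    have h2 : c <:+ c2 := G1_suf b1 ⟨q0, a3.symm⟩ ⟨p', a1.symm⟩ b5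
    exact h1.eq_of_length (le_antisymm h1.length_le h2.length_le)
  subst hc
  obtain ⟨l, hl⟩ := G1_cons (hF.ap _ a2)
  set β := c2.headD 0 with hβ
  have hcp : ∀ x ∈ c2, x ∈ p := fun x hx => by rw [a1]; exact List.mem_append_right _ hx
  have hcq : ∀ x ∈ c2, x ∈ q := fun x hx => by rw [b1]; exact List.mem_append_right _ hx
  have hp'p : ∀ x ∈ p', x ∈ p := fun x hx => by rw [a1]; exact List.mem_append_left _ hx
  have hq'q : ∀ x ∈ q', x ∈ q := fun x hx => by rw [b1]; exact List.mem_append_left _ hx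
  have hβc : β ∈ c2 := by rw [hl]; exact List.mem_cons_self
  obtain ⟨e1, e2⟩ := G1_stem a1 hcq a5
  obtain ⟨-, e4⟩ := G1_stem b1 hcp b5
  have hcyc : cyc p q = β :: (p'.reverse ++ q') := by
    unfold cyc
    rw [e1, e2, e4]
  have hβp' : β ∉ p' := fun h => a5 β h (hcq β hβc)
  have hβq' : β ∉ q' := fun h => b5 β h (hcp β hβc)
  have hne : ¬ (p' = [] ∧ q' = []) := by
    rintro ⟨h1, h2⟩
    rw [h1, List.nil_append] at a1
    rw [h2, List.nil_append] at b1
    rw [a1, b1] at he
    exact hG.irr _ he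
  have hpn := G1_nodup hG hN (hF.ap p hp)
  have hqn := G1_nodup hG hN (hF.ap q hq)
  have hp'n : p'.Nodup := by rw [a1] at hpn; exact (List.nodup_append.1 hpn).1
  have hq'n : q'.Nodup := by rw [b1] at hqn; exact (List.nodup_append.1 hqn).1
  rw [e1]
  have hC : Cy V E (cyc p q) := by
    rw [hcyc]
    refine ⟨?_, ?_, ?_, ?_, ?_⟩
    · refine List.nodup_cons.2 ⟨?_, ?_⟩
      · intro h
        rcases List.mem_append.1 h with h | h
        · exact hβp' (List.mem_reverse.1 h)
        · exact hβq' h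
      · refine List.nodup_append.2 ⟨List.nodup_reverse.2 hp'n, hq'n, ?_⟩
        rintro x hx y hy rfl
        exact a5 x (List.mem_reverse.1 hx) (hq'q x hy)
    · intro x hx
      rcases List.mem_cons.1 hx with hx | hx
      · rw [hx]
        exact G1_sub hG hN (hF.ap _ a2) β hβc
      rcases List.mem_append.1 hx with hx | hx
      · exact G1_sub hG hN (hF.ap p hp) x (hp'p x (List.mem_reverse.1 hx))
      · exact G1_sub hG hN (hF.ap q hq) x (hq'q x hx)
    · simp only [List.length_cons, List.length_append, List.length_reverse]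
      by_contra hcon
      apply hne
      constructor
      · apply List.length_eq_zero_iff.1
        omega
      · apply List.length_eq_zero_iff.1
        omega
    · simp only [List.length_cons, List.length_append, List.length_reverse]
      omega
    · have h1 : (β :: (p'.reverse ++ q')) ++ [(β :: (p'.reverse ++ q')).headD 0]
          = (p' ++ [β]).reverse ++ (q' ++ [β]) := by
        simp
      rw [h1]
      have hpc := G1_chain hG hN (hF.ap p hp)
      have hqc := G1_chain hG hN (hF.ap q hq)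
      have e5 : p = (p' ++ [β]) ++ l := by
        rw [List.append_assoc]
        change p = p' ++ (β :: l)
        rw [← hl]
        exact a1
      have e6 : q = (q' ++ [β]) ++ l := by
        rw [List.append_assoc]
        change q = q' ++ (β :: l)
        rw [← hl]
        exact b1
      have h2 : List.IsChain (fun u v => (u, v) ∈ E) (p' ++ [β]) := by
        rw [e5] at hpc
        exact (List.isChain_append.1 hpc).1
      have h3 : List.IsChain (fun u v => (u, v) ∈ E) (q' ++ [β]) := by
        rw [e6] at hqc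
        exact (List.isChain_append.1 hqc).1
      refine List.isChain_append.2 ⟨?_, h3, ?_⟩
      · rw [List.isChain_reverse]
        exact h2.imp fun u v h => hG.symm u v h
      · intro x hx y hy
        rw [List.getLast?_reverse] at hx
        have h4 : p.headD 0 = x := by
          rw [e5]
          cases hp0 : (p' ++ [β]) with
          | nil => simp at hp0
          | cons z w =>
            rw [hp0] at hx
            simpa using hx
        have h5 : q.headD 0 = y := by
          rw [e6]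
          cases hq0 : (q' ++ [β]) with
          | nil => simp at hq0
          | cons z w =>
            rw [hq0] at hy
            simpa using hy
        rw [← h4, ← h5]
        exact he
  have hcap : AP E M a (β :: l) := by rw [← hl]; exact hF.ap _ a2
  have hbc : b ∉ (β :: l) := by rw [← hl]; exact hF.nb _ a2
  have hnear : Near V E (sw E M c2) β b := by
    rw [hl]
    exact sw_near hG hN hcap hbc
  refine ⟨hC, ?_, ?_, ?_⟩
  · rw [hcyc]
    exact hnear
  · intro u v huv hu
    rw [hcyc] at hu ⊢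
    rcases List.mem_cons.1 hu with hu | hu
    · rw [hu] at huv
      exact absurd huv (hnear.ea v)
    rcases List.mem_append.1 hu with hu | hu
    · have hu' := List.mem_reverse.1 hu
      have h1 : u ∉ (β :: l) := by
        rw [← hl]
        exact fun h => a5 u hu' (hcq u h)
      rw [hl, sw_off hG hN hcap h1] at huv
      exact List.mem_cons_of_mem _ (List.mem_append_left _ (List.mem_reverse.2 (a6 u hu' v huv)))
    · have h1 : u ∉ (β :: l) := by
        rw [← hl]
        exact fun h => b5 u hu (hcp u h)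
      rw [hl, sw_off hG hN hcap h1] at huv
      exact List.mem_cons_of_mem _ (List.mem_append_right _ (b6 u hu v huv))
  · rw [hcyc]
    intro h
    rcases List.mem_cons.1 h with h | h
    · rw [h] at hbc
      exact hbc List.mem_cons_self
    rcases List.mem_append.1 h with h | h
    · exact hF.nb p hp (hp'p b (List.mem_reverse.1 h))
    · exact hF.nb q hq (hq'q b h)

end Pool.Agent.EDM

end

section -- file EDM/G2

/-! **[EDM-G2]** The contracted graph. -/

namespace Pool.Agent.EDM

/-
PROOF. Write `β = C.headD 0`, `C = β :: C.tail` (`C` is not empty). `rel C β v = β` for `v ∈ C`, `= v` otherwise.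
`v ∈ ctrV C V ↔ v ∈ V ∧ v ∉ C.tail`; `rel C β v ∈ ctrV C V` for `v ∈ V`. `(u, v) ∈ ctrE C E ↔ u ≠ v ∧ ∃ (x, y) ∈ E`,
`rel C β x = u`, `rel C β y = v`. Near: pairs of `ctrM` are pairs `(u, v)` of `M` with `u ∉ C`, hence `v ∉ C` (otherwise
`(v, u) ∈ M` and `int`), `rel` fixes both, `u ≠ v` (`Gr.irr`). `β` and `b` are exposed in `ctrM`. A vertex `v ∈ ctrV C V`,
`v ≠ β`, is not in `C`, so its `M`-pair is in `ctrM`. Length: `C.tail` has a member, it is in `V` and is removed
(`List.length_filter_lt_length_iff_exists` or similar).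
-/
private theorem G2_mem_ctrV (C V : List ℕ) (v : ℕ) : v ∈ ctrV C V ↔ v ∈ V ∧ v ∉ C.tail := by
  unfold ctrV
  rw [List.mem_filter, Bool.not_eq_true', memN_false]

private theorem G2_rel_in (C : List ℕ) (c v : ℕ) (h : v ∈ C) : rel C c v = c := by
  unfold rel
  rw [(memN_iff C v).2 h]
  rfl

private theorem G2_rel_out (C : List ℕ) (c v : ℕ) (h : v ∉ C) : rel C c v = v := by
  unfold rel
  rw [(memN_false C v).2 h]
  rfl

private theorem G2_mem_ctrE (C : List ℕ) (E : List Ed) (u v : ℕ) :
    (u, v) ∈ ctrE C E ↔ u ≠ v ∧ ∃ x y, (x, y) ∈ E ∧ rel C (C.headD 0) x = u ∧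
      rel C (C.headD 0) y = v := by
  unfold ctrE
  rw [List.mem_filter, List.mem_map]
  simp only [Bool.not_eq_true', decide_eq_false_iff_not]
  constructor
  · rintro ⟨⟨⟨x, y⟩, h1, h2⟩, h3⟩
    exact ⟨h3, x, y, h1, congrArg Prod.fst h2, congrArg Prod.snd h2⟩
  · rintro ⟨h3, x, y, h1, h2, h4⟩
    exact ⟨⟨(x, y), h1, by rw [h2, h4]⟩, h3⟩

private theorem G2_cons {V : List ℕ} {E : List Ed} {C : List ℕ} (hC : Cy V E C) :
    ∃ l, C = C.headD 0 :: l := by
  cases C with
  | nil => exact absurd hC.three (by simp)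
  | cons x l => exact ⟨l, rfl⟩

private theorem G2_head_mem {V : List ℕ} {E : List Ed} {C : List ℕ} (hC : Cy V E C) :
    C.headD 0 ∈ C := by
  obtain ⟨l, hl⟩ := G2_cons hC
  rw [hl]
  exact List.mem_cons_self

private theorem G2_head_not {V : List ℕ} {E : List Ed} {C : List ℕ} (hC : Cy V E C) :
    C.headD 0 ∉ C.tail := by
  obtain ⟨l, hl⟩ := G2_cons hC
  have h1 := hC.nd
  rw [hl] at h1 ⊢
  exact (List.nodup_cons.1 h1).1

private theorem G2_mem_of {V : List ℕ} {E : List Ed} {C : List ℕ} (hC : Cy V E C) {v : ℕ}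
    (h1 : v ≠ C.headD 0) (h2 : v ∉ C.tail) : v ∉ C := by
  obtain ⟨l, hl⟩ := G2_cons hC
  rw [hl] at h2 ⊢
  intro h3
  rcases List.mem_cons.1 h3 with h4 | h4
  · exact h1 h4
  · exact h2 h4

private theorem G2_head_ctrV {V : List ℕ} {E : List Ed} {C : List ℕ} (hC : Cy V E C) :
    C.headD 0 ∈ ctrV C V :=
  (G2_mem_ctrV C V _).2 ⟨hC.sub _ (G2_head_mem hC), G2_head_not hC⟩

theorem ctr_gr {V : List ℕ} {E : List Ed} {C : List ℕ} (hG : Gr V E) (hC : Cy V E C) :
    Gr (ctrV C V) (ctrE C E) := by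
  refine ⟨?_, ?_, ?_⟩
  · intro u v h
    obtain ⟨h1, x, y, h2, h3, h4⟩ := (G2_mem_ctrE C E u v).1 h
    exact (G2_mem_ctrE C E v u).2 ⟨fun h5 => h1 h5.symm, y, x, hG.symm x y h2, h4, h3⟩
  · intro u h
    exact ((G2_mem_ctrE C E u u).1 h).1 rfl
  · intro u v h
    obtain ⟨-, x, y, h2, h3, -⟩ := (G2_mem_ctrE C E u v).1 h
    by_cases hx : x ∈ C
    · rw [← h3, G2_rel_in C _ x hx]
      exact G2_head_ctrV hC
    · rw [← h3, G2_rel_out C _ x hx]
      exact (G2_mem_ctrV C V x).2 ⟨hG.mem x y h2, fun h4 => hx (List.mem_of_mem_tail h4)⟩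

theorem ctr_near {V : List ℕ} {E M : List Ed} {b : ℕ} {C : List ℕ} (hG : Gr V E)
    (hB : Bl V E M b C) :
    Near (ctrV C V) (ctrE C E) (ctrM C M) (C.headD 0) b := by
  have hC := hB.cy
  have hmem : ∀ u v, (u, v) ∈ ctrM C M ↔ (u, v) ∈ M ∧ u ∉ C := by
    intro u v
    unfold ctrM
    rw [List.mem_filter, Bool.not_eq_true', memN_false]
  have hv : ∀ u v, (u, v) ∈ ctrM C M → v ∉ C := by
    intro u v h hvC
    obtain ⟨h1, h2⟩ := (hmem u v).1 h
    exact h2 (hB.int v u (hB.near.mt.symm u v h1) hvC)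
  refine ⟨⟨?_, ?_, ?_⟩, G2_head_ctrV hC, ?_, hB.near.ne, ?_, ?_, ?_⟩
  · intro u v h
    obtain ⟨h1, h2⟩ := (hmem u v).1 h
    have h3 := hB.near.mt.sub u v h1
    refine (G2_mem_ctrE C E u v).2 ⟨?_, u, v, h3, G2_rel_out C _ u h2,
      G2_rel_out C _ v (hv u v h)⟩
    rintro rfl
    exact hG.irr u h3
  · intro u v h
    exact (hmem v u).2 ⟨hB.near.mt.symm u v ((hmem u v).1 h).1, hv u v h⟩
  · intro u v w h h'
    exact hB.near.mt.func u v w ((hmem u v).1 h).1 ((hmem u w).1 h').1
  · exact (G2_mem_ctrV C V b).2 ⟨hB.near.bv, fun h => hB.nb (List.mem_of_mem_tail h)⟩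
  · intro w h
    exact ((hmem _ w).1 h).2 (G2_head_mem hC)
  · intro w h
    exact hB.near.eb w ((hmem b w).1 h).1
  · intro v hv1 hv2 hv3
    obtain ⟨h1, h2⟩ := (G2_mem_ctrV C V v).1 hv1
    obtain ⟨w, hw⟩ := hB.near.cov v h1 hv2 hv3
    exact ⟨w, (hmem v w).2 ⟨hw, G2_mem_of hC hv2 h2⟩⟩

theorem ctr_len {V : List ℕ} {E : List Ed} {C : List ℕ} (hC : Cy V E C) :
    (ctrV C V).length < V.length := by
  unfold ctrV
  rw [List.length_filter_lt_length_iff_exists]
  have h3 := hC.three
  rcases C with _ | ⟨x, _ | ⟨y, l⟩⟩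
  · simp at h3
  · simp at h3
  · refine ⟨y, hC.sub y (by simp), ?_⟩
    simp

end Pool.Agent.EDM

end

section -- file EDM/G3

/-! **[EDM-G3]** Lifting a perfect matching of the contracted graph. -/

namespace Pool.Agent.EDM

private theorem G3_rel_mem {C : List ℕ} {c v : ℕ} (h : v ∈ C) : rel C c v = c := by
  unfold rel
  rw [(memN_iff C v).2 h]
  rfl

private theorem G3_rel_not {C : List ℕ} {c v : ℕ} (h : v ∉ C) : rel C c v = v := by
  unfold rel
  rw [(memN_false C v).2 h]
  rfl

private theorem G3_ctrE {C : List ℕ} {E : List Ed} {x y : ℕ} (h : (x, y) ∈ ctrE C E) :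
    x ≠ y ∧ ∃ x' y', (x', y') ∈ E ∧ rel C (C.headD 0) x' = x ∧ rel C (C.headD 0) y' = y := by
  unfold ctrE at h
  rw [List.mem_filter] at h
  obtain ⟨h1, h2⟩ := h
  obtain ⟨e, he, h3⟩ := List.mem_map.1 h1
  simp only [Bool.not_eq_true', decide_eq_false_iff_not] at h2
  simp only [Prod.mk.injEq] at h3
  exact ⟨h2, e.1, e.2, he, h3.1, h3.2⟩

private theorem G3_ctrV (C V : List ℕ) (v : ℕ) : v ∈ ctrV C V ↔ v ∈ V ∧ v ∉ C.tail := by
  unfold ctrV
  rw [List.mem_filter, Bool.not_eq_true', memN_false]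

/-- an end of an edge of the contracted graph which is not the base -/
private theorem G3_off {C : List ℕ} {x x' : ℕ} (_ : C.headD 0 ∈ C) (h : rel C (C.headD 0) x' = x)
    (hx : x ≠ C.headD 0) : x' = x ∧ x ∉ C := by
  by_cases h1 : x' ∈ C
  · rw [G3_rel_mem h1] at h
    exact absurd h.symm hx
  · rw [G3_rel_not h1] at h
    exact ⟨h, h ▸ h1⟩

private theorem G3_on {C : List ℕ} {x' : ℕ} (hb : C.headD 0 ∈ C) (h : rel C (C.headD 0) x' = C.headD 0) :
    x' ∈ C := by
  by_cases h1 : x' ∈ C
  · exact h1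
  · rw [G3_rel_not h1] at h
    rw [h]
    exact hb

/-
PROOF. Write `β = C.headD 0`. `β ∈ ctrV C V`, so `(β, w) ∈ N` for some `w`, `mate N β = w`; `w ≠ β`, `(β, w) ∈ ctrE C E`, so there is
`(x, y) ∈ E` with `rel x = β`, `rel y = w`: `x ∈ C` (or `x = β`), `y ∉ C`, `y = w`. So the filtered list in `liftN` is not empty
and `v` (its first element) is in `C` with `(v, w) ∈ E`; `w ∉ C`. Write `C = l₁ ++ v :: l₂` with `v ∉ l₁` (`List.append_of_mem`,
`Nodup`): `rotTo v C = v :: l₂ ++ l₁` (`rotTo_eq`), its tail `r = l₂ ++ l₁` has even length, is `Nodup`, has the members of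
`C` except `v`, and is a chain: from `Cy.chain` (`l₁ ++ v :: l₂ ++ [β]`): if `l₁ = []` then `r = l₂`; if `l₁ = β :: l₁'`, then
`l₂ ++ [β]` and `β :: l₁'` are chains, so `l₂ ++ β :: l₁'` is (`List.isChain_split`). The pairs of `N` with both ends `≠ β` are
pairs of `E` with both ends outside `C` (ends of pairs of `ctrE` which are `≠ β` are not in `C`: they are `rel x` of some `x`).
Use `mem_pairs`, `pairsR_*`. The union of `(v, w), (w, v)`, the pairs of `N` off `β`, and `pairs r` is contained in `E`,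
symmetric, functional (the three parts have disjoint supports: `{v, w}`; the vertices outside `C` except `w`; the members of
`r`), and covers `V`.
-/
theorem lift_ok {V : List ℕ} {E : List Ed} {C : List ℕ} {N : List Ed} (hG : Gr V E)
    (hC : Cy V E C) (hN : PM (ctrV C V) (ctrE C E) N) : PM V E (liftN C E N) := by
  obtain ⟨β, C', hCC⟩ : ∃ β C', C = β :: C' := by
    cases C with
    | nil =>
      have := hC.three
      simp at this
    | cons β C' => exact ⟨β, C', rfl⟩
  have hβ : C.headD 0 = β := by rw [hCC]; rfl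
  have hβC : C.headD 0 ∈ C := by rw [hβ, hCC]; exact List.mem_cons_self
  have hβC' : β ∈ C := by rw [hCC]; exact List.mem_cons_self
  have hβV : β ∈ ctrV C V := by
    rw [G3_ctrV]
    refine ⟨hC.sub _ hβC', ?_⟩
    have h1 := hC.nd
    rw [hCC] at h1 ⊢
    exact (List.nodup_cons.1 h1).1
  obtain ⟨w, hw⟩ := hN.cov β hβV
  have hmate : mate N (C.headD 0) = w := by
    rw [hβ]
    exact mate_eq hN.mt hw
  obtain ⟨hne, x₀, y₀, hxy, hx₀, hy₀⟩ := G3_ctrE (hN.mt.sub _ _ hw)
  have hwβ : w ≠ C.headD 0 := by rw [hβ]; exact hne.symm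
  obtain ⟨hyw, hwC⟩ := G3_off hβC hy₀ hwβ
  have hx₀C : x₀ ∈ C := G3_on hβC (by rw [hx₀, hβ])
  rw [hyw] at hxy
  -- the vertex `v`
  obtain ⟨v, L, hvL⟩ : ∃ v L, (C.filter fun v => memE E (v, w)) = v :: L := by
    cases h : C.filter fun v => memE E (v, w) with
    | nil =>
      have h1 : x₀ ∈ C.filter fun v => memE E (v, w) := List.mem_filter.2 ⟨hx₀C, (memE_iff _ _).2 hxy⟩
      rw [h] at h1
      exact absurd h1 List.not_mem_nil
    | cons v L => exact ⟨v, L, rfl⟩
  have hv : v ∈ C.filter fun v => memE E (v, w) := by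
    rw [hvL]
    exact List.mem_cons_self
  rw [List.mem_filter, memE_iff] at hv
  obtain ⟨hvC, hvw⟩ := hv
  have hvw' : v ≠ w := fun h => hwC (h ▸ hvC)
  obtain ⟨l₁, l₂, hC12⟩ := List.append_of_mem hvC
  have hnd := hC.nd
  rw [hC12, List.nodup_append] at hnd
  obtain ⟨hnd1, hnd2, hdis⟩ := hnd
  have hvl1 : v ∉ l₁ := fun h => hdis v h v List.mem_cons_self rfl
  have hvl2 : v ∉ l₂ := (List.nodup_cons.1 hnd2).1
  have hrot : (rotTo v C).tail = l₂ ++ l₁ := by
    rw [hC12, rotTo_eq v l₁ l₂ hvl1]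
    rfl
  set r := l₂ ++ l₁ with hr
  have hrmem : ∀ x, x ∈ r ↔ x ∈ C ∧ x ≠ v := by
    intro x
    rw [hr, hC12, List.mem_append, List.mem_append, List.mem_cons]
    constructor
    · rintro (h | h)
      · exact ⟨Or.inr (Or.inr h), fun e => hvl2 (e ▸ h)⟩
      · exact ⟨Or.inl h, fun e => hvl1 (e ▸ h)⟩
    · rintro ⟨h | h | h, h'⟩
      · exact Or.inr h
      · exact absurd h h'
      · exact Or.inl h
  have hrnd : r.Nodup := by
    rw [hr, List.nodup_append]
    refine ⟨(List.nodup_cons.1 hnd2).2, hnd1, ?_⟩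
    intro a ha b hb hab
    exact hdis b hb a (List.mem_cons_of_mem _ ha) hab.symm
  have hrlen : r.length % 2 = 0 := by
    have h1 := hC.odd
    rw [hC12, List.length_append, List.length_cons] at h1
    rw [hr, List.length_append]
    omega
  have hrch : List.IsChain (fun u v => (u, v) ∈ E) r := by
    have h1 := hC.chain
    rw [hβ] at h1
    cases h2 : l₁ with
    | nil =>
      rw [hC12, h2, List.nil_append] at h1
      rw [hr, h2, List.append_nil]
      exact (h1.left_of_append).tail
    | cons b l₁' =>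
      have h3 : b = β := by
        have h4 := hC12
        rw [h2, hCC] at h4
        simp only [List.cons_append, List.cons.injEq] at h4
        exact h4.1.symm
      rw [hC12, h2, h3, List.append_assoc] at h1
      rw [hr, h2, h3]
      refine List.isChain_split.2 ⟨?_, h1.left_of_append⟩
      exact (h1.right_of_append).tail
  -- membership in the lifted matching
  have hmem : ∀ x y, (x, y) ∈ liftN C E N ↔ (x, y) ∈ E ∧ ((x = v ∧ y = w) ∨ (x = w ∧ y = v) ∨
      ((x, y) ∈ N ∧ x ≠ β ∧ y ≠ β) ∨ (x, y) ∈ pairsR r) := by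
    intro x y
    unfold liftN
    simp only [hmate, hvL, List.headD_cons, hrot]
    rw [List.mem_filter, memE_iff, List.mem_cons, List.mem_cons, List.mem_append, mem_pairs, List.mem_filter]
    simp only [Prod.mk.injEq, Bool.and_eq_true, Bool.not_eq_true', decide_eq_false_iff_not, hβ]
  have hNoff : ∀ x y, (x, y) ∈ N → x ≠ β → y ≠ β → (x, y) ∈ E ∧ x ∉ C ∧ y ∉ C ∧ x ≠ w := by
    intro x y h hx hy
    obtain ⟨-, x', y', h1, h2, h3⟩ := G3_ctrE (hN.mt.sub _ _ h)
    obtain ⟨e1, e2⟩ := G3_off hβC h2 (by rw [hβ]; exact hx)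
    obtain ⟨e3, e4⟩ := G3_off hβC h3 (by rw [hβ]; exact hy)
    rw [e1, e3] at h1
    refine ⟨h1, e2, e4, ?_⟩
    rintro rfl
    exact hy (hN.mt.func _ _ _ h (hN.mt.symm _ _ hw))
  have hPr : ∀ x y, (x, y) ∈ pairsR r → x ∈ C ∧ x ≠ v := fun x y h => (hrmem x).1 (pairsR_mem r x y h).1
  refine ⟨⟨?_, ?_, ?_⟩, ?_⟩
  · intro x y h
    exact ((hmem x y).1 h).1
  · intro x y h
    rw [hmem] at h ⊢
    refine ⟨hG.symm _ _ h.1, ?_⟩
    rcases h.2 with h | h | h | h
    · exact Or.inr (Or.inl ⟨h.2, h.1⟩)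
    · exact Or.inl ⟨h.2, h.1⟩
    · exact Or.inr (Or.inr (Or.inl ⟨hN.mt.symm _ _ h.1, h.2.2, h.2.1⟩))
    · exact Or.inr (Or.inr (Or.inr (pairsR_symm r x y h)))
  · intro x y z h h'
    have k1 := ((hmem x y).1 h).2
    have k2 := ((hmem x z).1 h').2
    rcases k1 with k1 | k1 | k1 | k1
    · rcases k2 with k2 | k2 | k2 | k2
      · rw [k1.2, k2.2]
      · exact absurd (k1.1.symm.trans k2.1) hvw'
      · have h3 := (hNoff _ _ k2.1 k2.2.1 k2.2.2).2.1
        rw [k1.1] at h3
        exact absurd hvC h3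
      · exact absurd k1.1 (hPr _ _ k2).2
    · rcases k2 with k2 | k2 | k2 | k2
      · exact absurd (k2.1.symm.trans k1.1) hvw'
      · rw [k1.2, k2.2]
      · exact absurd k1.1 (hNoff _ _ k2.1 k2.2.1 k2.2.2).2.2.2
      · have h3 := (hPr _ _ k2).1
        rw [k1.1] at h3
        exact absurd h3 hwC
    · have h3 := hNoff _ _ k1.1 k1.2.1 k1.2.2
      rcases k2 with k2 | k2 | k2 | k2
      · rw [k2.1] at h3
        exact absurd hvC h3.2.1
      · exact absurd k2.1 h3.2.2.2
      · exact hN.mt.func _ _ _ k1.1 k2.1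
      · exact absurd (hPr _ _ k2).1 h3.2.1
    · have h3 := hPr _ _ k1
      rcases k2 with k2 | k2 | k2 | k2
      · exact absurd k2.1 h3.2
      · have h4 := h3.1
        rw [k2.1] at h4
        exact absurd h4 hwC
      · exact absurd h3.1 (hNoff _ _ k2.1 k2.2.1 k2.2.2).2.1
      · exact pairsR_func r hrnd _ _ _ k1 k2
  · intro x hx
    by_cases hxC : x ∈ C
    · by_cases hxv : x = v
      · exact ⟨w, (hmem _ _).2 ⟨hxv ▸ hvw, Or.inl ⟨hxv, rfl⟩⟩⟩
      · obtain ⟨y, hy⟩ := pairsR_cov r hrlen x ((hrmem x).2 ⟨hxC, hxv⟩)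
        exact ⟨y, (hmem _ _).2 ⟨pairsR_sub hG.symm r hrch x y hy, Or.inr (Or.inr (Or.inr hy))⟩⟩
    · by_cases hxw : x = w
      · exact ⟨v, (hmem _ _).2 ⟨hxw ▸ hG.symm _ _ hvw, Or.inr (Or.inl ⟨hxw, rfl⟩)⟩⟩
      · have hxV : x ∈ ctrV C V := (G3_ctrV _ _ _).2 ⟨hx, fun h => hxC (List.mem_of_mem_tail h)⟩
        obtain ⟨y, hy⟩ := hN.cov x hxV
        have hxβ : x ≠ β := fun e => hxC (e ▸ hβC')
        have hyβ : y ≠ β := by
          rintro rfl
          exact hxw (hN.mt.func _ _ _ (hN.mt.symm _ _ hy) hw)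
        exact ⟨y, (hmem _ _).2 ⟨(hNoff x y hy hxβ hyβ).1, Or.inr (Or.inr (Or.inl ⟨hy, hxβ, hyβ⟩))⟩⟩

end Pool.Agent.EDM

end

section -- file EDM/G4

/-! **[EDM-G4]** If the graph has a perfect matching, then the contracted graph has one. -/

namespace Pool.Agent.EDM

/-- the general lemma: a perfect matching `N` of `S ∪ B` and a matching `M` of `S` exposing `a`
give a matching of `S` exposing a neighbour of `B` -/
theorem ctr_aux (A : ℕ → ℕ → Prop) (hs : ∀ u v, A u v → A v u) (hi : ∀ u, ¬ A u u)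
    (B : Finset ℕ) (M N : ℕ → ℕ) : ∀ (n : ℕ) (S : Finset ℕ) (a : ℕ), S.card = n → Disjoint S B →
    a ∈ S →
    (∀ x ∈ S, x ≠ a → M x ∈ S ∧ M x ≠ a ∧ M (M x) = x ∧ A x (M x)) →
    (∀ x, x ∈ S ∨ x ∈ B → (N x ∈ S ∨ N x ∈ B) ∧ N (N x) = x ∧ A x (N x)) →
    ∃ x₀ ∈ S, (∃ β ∈ B, A x₀ β) ∧ ∃ P : ℕ → ℕ,
      ∀ y ∈ S, y ≠ x₀ → P y ∈ S ∧ P y ≠ x₀ ∧ P (P y) = y ∧ A y (P y) := by
  intro n
  induction n using Nat.strong_induction_on with
  | _ n ih =>
    intro S a hn hd ha hM hN
    obtain ⟨hf1, hf2, hf3⟩ := hN a (Or.inl ha)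
    by_cases hfB : N a ∈ B
    · exact ⟨a, ha, ⟨N a, hfB, hf3⟩, M, hM⟩
    have hfS : N a ∈ S := hf1.resolve_right hfB
    have hfa : N a ≠ a := by
      intro h
      rw [h] at hf3
      exact hi a hf3
    have haB : a ∉ B := Finset.disjoint_left.mp hd ha
    obtain ⟨he1, he2, he3, he4⟩ := hM (N a) hfS hfa
    have hef : M (N a) ≠ N a := by
      intro h
      rw [h] at he4
      exact hi _ he4
    have hS' : ∀ x, x ∈ (S.erase a).erase (N a) ↔ x ∈ S ∧ x ≠ a ∧ x ≠ N a := by
      intro x
      simp only [Finset.mem_erase]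
      tauto
    have hcard : ((S.erase a).erase (N a)).card < n := by
      have h1 : ((S.erase a).erase (N a)).card ≤ (S.erase a).card := Finset.card_erase_le
      have h2 : (S.erase a).card < S.card := Finset.card_erase_lt_of_mem ha
      omega
    obtain ⟨x₀, hx₀, hβ, P, hP⟩ := ih _ hcard ((S.erase a).erase (N a)) (M (N a)) rfl
      (by
        rw [Finset.disjoint_left] at hd ⊢
        intro x hx
        exact hd ((hS' x).mp hx).1)
      ((hS' _).mpr ⟨he1, he2, hef⟩)
      (by
        intro x hx hxe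
        obtain ⟨hx1, hx2, hx3⟩ := (hS' x).mp hx
        obtain ⟨h1, h2, h3, h4⟩ := hM x hx1 hx2
        refine ⟨(hS' _).mpr ⟨h1, h2, ?_⟩, ?_, h3, h4⟩
        · intro h
          apply hxe
          rw [← h3, h]
        · intro h
          apply hx3
          rw [← h3, h, he3])
      (by
        intro x hx
        have hxx : x ∈ S ∨ x ∈ B := by
          rcases hx with hx | hx
          · exact Or.inl ((hS' x).mp hx).1
          · exact Or.inr hx
        obtain ⟨h1, h2, h3⟩ := hN x hxx
        have hna : N x ≠ a := by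
          intro h
          rw [h] at h2
          rcases hx with hx | hx
          · exact ((hS' x).mp hx).2.2 h2.symm
          · rw [h2] at hfB
            exact hfB hx
        have hnf : N x ≠ N a := by
          intro h
          rw [h, hf2] at h2
          rcases hx with hx | hx
          · exact ((hS' x).mp hx).2.1 h2.symm
          · rw [h2] at haB
            exact haB hx
        refine ⟨?_, h2, h3⟩
        rcases h1 with h1 | h1
        · exact Or.inl ((hS' _).mpr ⟨h1, hna, hnf⟩)
        · exact Or.inr h1)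
    obtain ⟨hx1, hx2, hx3⟩ := (hS' x₀).mp hx₀
    refine ⟨x₀, hx1, hβ, fun y => if y = a then N a else if y = N a then a else P y, ?_⟩
    intro y hy hyx
    by_cases hya : y = a
    · subst hya
      simp only [if_true, if_neg hfa]
      exact ⟨hfS, hx3.symm, trivial, hf3⟩
    by_cases hyf : y = N a
    · simp only [hyf, if_neg hfa, if_true]
      exact ⟨ha, hx2.symm, trivial, hs _ _ hf3⟩
    · obtain ⟨h1, h2, h3, h4⟩ := hP y ((hS' y).mpr ⟨hy, hya, hyf⟩) hyx
      obtain ⟨k1, k2, k3⟩ := (hS' _).mp h1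
      simp only [if_neg hya, if_neg hyf, if_neg k2, if_neg k3]
      exact ⟨k1, h2, h3, h4⟩

theorem ctr_pm {V : List ℕ} {E M : List Ed} {b : ℕ} {C : List ℕ} {N : List Ed} (hG : Gr V E)
    (hB : Bl V E M b C) (hN : PM V E N) : ∃ N', PM (ctrV C V) (ctrE C E) N' := by
  obtain ⟨β, C', rfl⟩ : ∃ β C', C = β :: C' := by
    cases C with
    | nil => exact absurd hB.cy.three (by simp)
    | cons β C' => exact ⟨β, C', rfl⟩
  have hβC : β ∈ β :: C' := List.mem_cons_self
  have hmem2 : ∀ u v, (u, v) ∈ E → v ∈ V := fun u v h => hG.mem v u (hG.symm u v h)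
  have hmemS : ∀ x, x ∈ V.toFinset.filter (fun v => v ∉ β :: C') ↔ x ∈ V ∧ x ∉ β :: C' := by
    intro x
    rw [Finset.mem_filter, List.mem_toFinset]
  have hmemB : ∀ x, x ∈ V.toFinset.filter (fun v => v ∈ β :: C') ↔ x ∈ V ∧ x ∈ β :: C' := by
    intro x
    rw [Finset.mem_filter, List.mem_toFinset]
  obtain ⟨x₀, hx₀, ⟨β', hβ', hA⟩, P, hP⟩ := ctr_aux (fun u v => (u, v) ∈ E) hG.symm hG.irr
    (V.toFinset.filter (fun v => v ∈ β :: C')) (mate M) (mate N) _
    (V.toFinset.filter (fun v => v ∉ β :: C')) b rfl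
    (by
      rw [Finset.disjoint_left]
      intro x hx hx'
      exact ((hmemS x).mp hx).2 ((hmemB x).mp hx').2)
    ((hmemS b).mpr ⟨hB.near.bv, hB.nb⟩)
    (by
      intro x hx hxb
      obtain ⟨hxV, hxC⟩ := (hmemS x).mp hx
      obtain ⟨w, hw⟩ := hB.near.cov x hxV (by
        intro h
        apply hxC
        rw [h]
        exact hβC) hxb
      rw [mate_eq hB.near.mt hw]
      have hw' := hB.near.mt.symm _ _ hw
      refine ⟨(hmemS w).mpr ⟨hmem2 _ _ (hB.near.mt.sub _ _ hw), ?_⟩, ?_, mate_eq hB.near.mt hw',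
        hB.near.mt.sub _ _ hw⟩
      · intro hwC
        exact hxC (hB.int _ _ hw' hwC)
      · intro h
        rw [h] at hw'
        exact hB.near.eb _ hw')
    (by
      intro x hx
      have hxV : x ∈ V := by
        rcases hx with hx | hx
        · exact ((hmemS x).mp hx).1
        · exact ((hmemB x).mp hx).1
      obtain ⟨w, hw⟩ := hN.cov x hxV
      rw [mate_eq hN.mt hw]
      have hwE := hN.mt.sub _ _ hw
      refine ⟨?_, mate_eq hN.mt (hN.mt.symm _ _ hw), hwE⟩
      by_cases hwC : w ∈ β :: C'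
      · exact Or.inr ((hmemB w).mpr ⟨hmem2 _ _ hwE, hwC⟩)
      · exact Or.inl ((hmemS w).mpr ⟨hmem2 _ _ hwE, hwC⟩))
  obtain ⟨hx₀V, hx₀C⟩ := (hmemS x₀).mp hx₀
  obtain ⟨hβ'V, hβ'C⟩ := (hmemB β').mp hβ'
  have hP' : ∀ y, y ∈ V → y ∉ β :: C' → y ≠ x₀ → (P y ∈ V ∧ P y ∉ β :: C') ∧ P y ≠ x₀ ∧
      P (P y) = y ∧ (y, P y) ∈ E := by
    intro y h1 h2 h3
    obtain ⟨k1, k2, k3, k4⟩ := hP y ((hmemS y).mpr ⟨h1, h2⟩) h3
    exact ⟨(hmemS _).mp k1, k2, k3, k4⟩
  have hx₀β : x₀ ≠ β := by
    intro h
    apply hx₀C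
    rw [h]
    exact hβC
  have hrel : ∀ v, v ∉ β :: C' → rel (β :: C') β v = v := by
    intro v hv
    rw [rel, (memN_false _ _).mpr hv]
    rfl
  have hrel' : ∀ v, v ∈ β :: C' → rel (β :: C') β v = β := by
    intro v hv
    rw [rel, (memN_iff _ _).mpr hv]
    rfl
  have hctr : ∀ u v, (u, v) ∈ ctrE (β :: C') E ↔ ∃ u' v', (u', v') ∈ E ∧
      rel (β :: C') β u' = u ∧ rel (β :: C') β v' = v ∧ u ≠ v := by
    intro u v
    simp only [ctrE, List.headD_cons, List.mem_filter, List.mem_map, Prod.exists, Prod.mk.injEq,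
      Bool.not_eq_true', decide_eq_false_iff_not]
    constructor
    · rintro ⟨⟨u', v', h1, h2, h3⟩, h4⟩
      exact ⟨u', v', h1, h2, h3, h4⟩
    · rintro ⟨u', v', h1, h2, h3, h4⟩
      exact ⟨⟨u', v', h1, h2, h3⟩, h4⟩
  let L : List Ed := (x₀, β) :: (β, x₀) ::
    (V.filter fun v => !memN (β :: C') v && !decide (v = x₀)).map fun y => (y, P y)
  have hL : ∀ u v, (u, v) ∈ L ↔ (u = x₀ ∧ v = β) ∨ (u = β ∧ v = x₀) ∨
      (u ∈ V ∧ u ∉ β :: C' ∧ u ≠ x₀ ∧ v = P u) := by
    intro u v
    simp only [L, List.mem_cons, Prod.mk.injEq, List.mem_map, List.mem_filter,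
      Bool.and_eq_true, Bool.not_eq_true', decide_eq_false_iff_not, memN_false]
    constructor
    · rintro (h | h | ⟨y, ⟨h1, h2, h3⟩, h4, h5⟩)
      · exact Or.inl h
      · exact Or.inr (Or.inl h)
      · subst h4
        exact Or.inr (Or.inr ⟨h1, h2, h3, h5.symm⟩)
    · rintro (h | h | ⟨h1, h2, h3, h4⟩)
      · exact Or.inl h
      · exact Or.inr (Or.inl h)
      · exact Or.inr (Or.inr ⟨u, ⟨h1, h2, h3⟩, rfl, h4.symm⟩)
  refine ⟨L, ⟨⟨?_, ?_, ?_⟩, ?_⟩⟩
  · intro u v h
    rcases (hL u v).mp h with ⟨h1, h2⟩ | ⟨h1, h2⟩ | ⟨h1, h2, h3, h4⟩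
    · subst h1 h2
      exact (hctr _ _).mpr ⟨u, β', hA, hrel _ hx₀C, hrel' _ hβ'C, hx₀β⟩
    · subst h1 h2
      exact (hctr _ _).mpr ⟨β', v, hG.symm _ _ hA, hrel' _ hβ'C, hrel _ hx₀C, hx₀β.symm⟩
    · subst h4
      obtain ⟨⟨k1, k2⟩, k3, k4, k5⟩ := hP' u h1 h2 h3
      refine (hctr _ _).mpr ⟨u, P u, k5, hrel _ h2, hrel _ k2, ?_⟩
      intro h6
      rw [← h6] at k5
      exact hG.irr _ k5
  · intro u v h
    rcases (hL u v).mp h with ⟨h1, h2⟩ | ⟨h1, h2⟩ | ⟨h1, h2, h3, h4⟩
    · exact (hL v u).mpr (Or.inr (Or.inl ⟨h2, h1⟩))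
    · exact (hL v u).mpr (Or.inl ⟨h2, h1⟩)
    · subst h4
      obtain ⟨⟨k1, k2⟩, k3, k4, k5⟩ := hP' u h1 h2 h3
      exact (hL _ u).mpr (Or.inr (Or.inr ⟨k1, k2, k3, k4.symm⟩))
  · intro u v w h h'
    rcases (hL u v).mp h with ⟨h1, h2⟩ | ⟨h1, h2⟩ | ⟨h1, h2, h3, h4⟩ <;>
    rcases (hL u w).mp h' with ⟨g1, g2⟩ | ⟨g1, g2⟩ | ⟨g1, g2, g3, g4⟩
    · rw [h2, g2]
    · exact absurd (h1.symm.trans g1) hx₀β
    · exact absurd h1 g3
    · exact absurd (g1.symm.trans h1) hx₀β
    · rw [h2, g2]
    · exact absurd (h1 ▸ hβC) g2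
    · exact absurd g1 h3
    · exact absurd (g1 ▸ hβC) h2
    · rw [h4, g4]
  · intro v hv
    have hv' : v ∈ V ∧ v ∉ C' := by
      simp only [ctrV, List.tail_cons, List.mem_filter, Bool.not_eq_true', memN_false] at hv
      exact hv
    by_cases h1 : v = β
    · exact ⟨x₀, (hL _ _).mpr (Or.inr (Or.inl ⟨h1, rfl⟩))⟩
    by_cases h2 : v = x₀
    · exact ⟨β, (hL _ _).mpr (Or.inl ⟨h2, rfl⟩)⟩
    · refine ⟨P v, (hL _ _).mpr (Or.inr (Or.inr ⟨hv'.1, ?_, h2, rfl⟩))⟩
      intro h3
      rcases List.mem_cons.mp h3 with h3 | h3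
      · exact h1 h3
      · exact hv'.2 h3

end Pool.Agent.EDM

end

section -- file EDM/M1

/-! **[EDM-M1]** Correctness of the search from a matching which exposes two vertices. -/

namespace Pool.Agent.EDM

private theorem M1_aux (k : ℕ) : ∀ (V : List ℕ) (E M : List Ed) (a b : ℕ), Gr V E → Near V E M a b →
    V.length ≤ k →
    ((lrec isRec next base liftS k (V, E, M, a, b)).1 = true →
      PM V E (lrec isRec next base liftS k (V, E, M, a, b)).2) ∧
    ((lrec isRec next base liftS k (V, E, M, a, b)).1 = false → ¬ ∃ N, PM V E N) := by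
  induction k with
  | zero =>
    intro V E M a b _ hN hk
    have : V = [] := List.length_eq_zero_iff.1 (by omega)
    have h := hN.av
    rw [this] at h
    simp at h
  | succ k ih =>
    intro V E M a b hG hN hk
    obtain ⟨hF, hg⟩ := forest_ok hG hN
    have hfst : fst' (V, E, M, a, b) = forest V E M a b := rfl
    generalize hFF : forest V E M a b = F at hF hg hfst
    by_cases h1 : good E b F = []
    · by_cases h2 : hits E F = []
      · have h3 : isRec (V, E, M, a, b) = false := by
          simp only [isRec, hfst, h1, h2]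
          rfl
        have h4 : base (V, E, M, a, b) = (false, []) := by
          simp only [base, hfst, h1]
        have h5 : lrec isRec next base liftS (k + 1) (V, E, M, a, b) = (false, []) := by
          rw [lrec, h3, cond_false, h4]
        rw [h5]
        exact ⟨fun h => by simp at h, fun _ => no_pm hG hN hF hg h1 h2⟩
      · obtain ⟨⟨p, q⟩, l, hl⟩ := List.exists_cons_of_ne_nil h2
        have h3 : isRec (V, E, M, a, b) = true := by
          simp only [isRec, hfst, h1, hl]
          rfl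
        have hmem : (p, q) ∈ hits E F := by rw [hl]; simp
        simp only [hits, List.mem_flatMap, List.mem_map, List.mem_filter, Prod.mk.injEq] at hmem
        obtain ⟨p', hp, q', ⟨hq, he⟩, rfl, rfl⟩ := hmem
        rw [memE_iff] at he
        have hB := blossom hG hN hF hp hq he
        have hcyc : cycS (V, E, M, a, b) = cyc p' q' := by
          simp only [cycS, hfst, hl, List.headD_cons]
        have hstem : stemS (V, E, M, a, b) = stem p' q' := by
          simp only [stemS, hfst, hl, List.headD_cons]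
        have hnext : next (V, E, M, a, b) = (ctrV (cyc p' q') V, ctrE (cyc p' q') E,
            ctrM (cyc p' q') (sw E M (stem p' q')), (cyc p' q').headD 0, b) := by
          simp only [next, hcyc, hstem]
        have hlen := ctr_len hB.cy
        obtain ⟨i1, i2⟩ := ih _ _ _ _ _ (ctr_gr hG hB.cy) (ctr_near hG hB) (by omega)
        have h5 : lrec isRec next base liftS (k + 1) (V, E, M, a, b) =
            liftS (V, E, M, a, b) (lrec isRec next base liftS k (ctrV (cyc p' q') V,
              ctrE (cyc p' q') E, ctrM (cyc p' q') (sw E M (stem p' q')), (cyc p' q').headD 0, b)) := by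
          rw [lrec, h3, cond_true, hnext]
        rw [h5]
        generalize lrec isRec next base liftS k (ctrV (cyc p' q') V, ctrE (cyc p' q') E,
          ctrM (cyc p' q') (sw E M (stem p' q')), (cyc p' q').headD 0, b) = r at i1 i2
        obtain ⟨r1, r2⟩ := r
        cases r1 with
        | true =>
          have h6 : liftS (V, E, M, a, b) (true, r2) = (true, liftN (cyc p' q') E r2) := by
            simp only [liftS, hcyc, cond_true]
          rw [h6]
          exact ⟨fun _ => lift_ok hG hB.cy (i1 rfl), fun h => by simp at h⟩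
        | false =>
          have h6 : liftS (V, E, M, a, b) (false, r2) = (false, []) := by
            simp only [liftS, cond_false]
          rw [h6]
          refine ⟨fun h => by simp at h, fun _ => ?_⟩
          rintro ⟨N, hNN⟩
          exact i2 rfl (ctr_pm hG hB hNN)
    · obtain ⟨p, l, hl⟩ := List.exists_cons_of_ne_nil h1
      have h3 : isRec (V, E, M, a, b) = false := by
        simp only [isRec, hfst, hl]
        rfl
      have h4 : base (V, E, M, a, b) = (true, (p.headD 0, b) :: (b, p.headD 0) :: sw E M p) := by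
        simp only [base, hfst, hl]
      have h5 : lrec isRec next base liftS (k + 1) (V, E, M, a, b) =
          (true, (p.headD 0, b) :: (b, p.headD 0) :: sw E M p) := by
        rw [lrec, h3, cond_false, h4]
      rw [h5]
      refine ⟨fun _ => ?_, fun h => by simp at h⟩
      have hmem : p ∈ good E b F := by rw [hl]; simp
      simp only [good, List.mem_filter] at hmem
      obtain ⟨hp, he⟩ := hmem
      rw [memE_iff] at he
      have hap := hF.ap p hp
      have hb := hF.nb p hp
      cases p with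
      | nil => cases hap
      | cons s p =>
        simp only [List.headD_cons] at he ⊢
        have hs := sw_near hG hN hap hb
        have hsb : s ≠ b := hs.ne
        refine ⟨⟨?_, ?_, ?_⟩, ?_⟩
        · intro u v h
          simp only [List.mem_cons, Prod.mk.injEq] at h
          rcases h with ⟨rfl, rfl⟩ | ⟨rfl, rfl⟩ | h
          · exact he
          · exact hG.symm _ _ he
          · exact hs.mt.sub _ _ h
        · intro u v h
          simp only [List.mem_cons, Prod.mk.injEq] at h ⊢
          rcases h with ⟨rfl, rfl⟩ | ⟨rfl, rfl⟩ | h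
          · exact Or.inr (Or.inl ⟨rfl, rfl⟩)
          · exact Or.inl ⟨rfl, rfl⟩
          · exact Or.inr (Or.inr (hs.mt.symm _ _ h))
        · intro u v w h h'
          simp only [List.mem_cons, Prod.mk.injEq] at h h'
          rcases h with ⟨rfl, rfl⟩ | ⟨rfl, rfl⟩ | h <;> rcases h' with ⟨h6, h7⟩ | ⟨h6, h7⟩ | h'
          · exact h7.symm
          · exact absurd h6 hsb
          · exact absurd h' (hs.ea _)
          · exact absurd h6.symm hsb
          · exact h7.symm
          · exact absurd h' (hs.eb _)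
          · rw [h6] at h
            exact absurd h (hs.ea _)
          · rw [h6] at h
            exact absurd h (hs.eb _)
          · exact hs.mt.func _ _ _ h h'
        · intro v hv
          by_cases h6 : v = s
          · exact ⟨b, by simp [h6]⟩
          · by_cases h7 : v = b
            · exact ⟨s, by simp [h7]⟩
            · obtain ⟨w, hw⟩ := hs.cov v hv h6 h7
              exact ⟨w, by simp [hw]⟩

/-
PROOF. For all `k` and all states `x = (V, E, M, a, b)` with `Gr V E`, `Near V E M a b`, `V.length ≤ k`, the statement holds for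
`lrec isRec next base liftS k x`: induction on `k`. With `F = fst' x`, `forest_ok`. If `good E b F = p :: _`: `base` returns
`(true, (s, b) :: (b, s) :: sw E M p)`, `s = p.headD 0`, `p = s :: _` is an `AP`, `b ∉ p`, `(s, b) ∈ E`: `sw_near` gives
`Near V E (sw E M p) s b`, adding the edge `s b` gives a `PM`. If `good = []` and `hits = []`: `no_pm`. If `good = []` and
`hits = (p, q) :: _`: `p, q ∈ F`, heads adjacent, `blossom`, `ctr_gr`, `ctr_near`, `ctr_len` (so `k ≠ 0` and the induction
hypothesis applies to `next x`, with `k - 1`), `lift_ok`, `ctr_pm`. (For `k = 0`: `V` is empty, but `a ∈ V`.)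
-/
theorem aug_ok {V : List ℕ} {E M : List Ed} {a b : ℕ} (hG : Gr V E) (hN : Near V E M a b) :
    ((aug (V, E, M, a, b)).1 = true → PM V E (aug (V, E, M, a, b)).2) ∧
      ((aug (V, E, M, a, b)).1 = false → ¬ ∃ N, PM V E N) :=
  M1_aux V.length V E M a b hG hN le_rfl

end Pool.Agent.EDM

end

section -- file EDM/M2

/-! **[EDM-M2]** Correctness of `pm`. -/

namespace Pool.Agent.EDM

theorem M2_mem_full (n : ℕ) (E : List Ed) (u v : ℕ) :
    (u, v) ∈ full n E ↔
      u < 2 * n ∧ v < 2 * n ∧ u ≠ v ∧ (n ≤ u ∨ n ≤ v ∨ (u, v) ∈ E ∨ (v, u) ∈ E) := by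
  unfold full
  simp only [List.mem_flatMap, List.mem_range, List.mem_map, List.mem_filter, Bool.and_eq_true,
    Bool.or_eq_true, Bool.not_eq_true', decide_eq_false_iff_not, decide_eq_true_eq, memE_iff]
  constructor
  · rintro ⟨u', hu, v', ⟨hv, hne, h⟩, he⟩
    obtain ⟨rfl, rfl⟩ := Prod.mk.inj he
    exact ⟨hu, hv, hne, by tauto⟩
  · rintro ⟨hu, hv, hne, h⟩
    exact ⟨u, hu, v, ⟨hv, hne, by tauto⟩, rfl⟩

theorem M2_mem_hE (m : ℕ) (E : List Ed) (u v : ℕ) :
    (u, v) ∈ hE m E ↔ (u, v) ∈ E ∧ u < m ∧ v < m := by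
  simp [hE, List.mem_filter]

theorem M2_mem_hV (m v : ℕ) : v ∈ hV m ↔ v < m := by simp [hV]

theorem M2_gr (n m : ℕ) (E : List Ed) : Gr (hV m) (hE m (full n E)) := by
  refine ⟨fun u v h => ?_, fun u h => ?_, fun u v h => ?_⟩
  · rw [M2_mem_hE, M2_mem_full] at h ⊢
    obtain ⟨⟨h1, h2, h3, h4⟩, h5, h6⟩ := h
    exact ⟨⟨h2, h1, fun h => h3 h.symm, by tauto⟩, h6, h5⟩
  · rw [M2_mem_hE, M2_mem_full] at h
    exact h.1.2.2.1 rfl
  · rw [M2_mem_hE] at h
    rw [M2_mem_hV]
    exact h.2.1

theorem M2_mem_triv (n u v : ℕ) :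
    (u, v) ∈ triv n ↔ ∃ i < n, (u = i ∧ v = n + i) ∨ (u = n + i ∧ v = i) := by
  simp [triv, List.mem_flatMap]

theorem M2_triv (n : ℕ) (E : List Ed) :
    PM (hV (2 * n)) (hE (2 * n) (full n E)) (triv n) := by
  refine ⟨⟨fun u v h => ?_, fun u v h => ?_, fun u v w h h' => ?_⟩, fun v hv => ?_⟩
  · rw [M2_mem_triv] at h
    rw [M2_mem_hE, M2_mem_full]
    rcases h with ⟨i, hi, ⟨rfl, rfl⟩ | ⟨rfl, rfl⟩⟩
    · exact ⟨⟨by omega, by omega, by omega, Or.inr (Or.inl (by omega))⟩, by omega, by omega⟩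
    · exact ⟨⟨by omega, by omega, by omega, Or.inl (by omega)⟩, by omega, by omega⟩
  · rw [M2_mem_triv] at h ⊢
    rcases h with ⟨i, hi, ⟨rfl, rfl⟩ | ⟨rfl, rfl⟩⟩
    · exact ⟨_, hi, Or.inr ⟨rfl, rfl⟩⟩
    · exact ⟨_, hi, Or.inl ⟨rfl, rfl⟩⟩
  · rw [M2_mem_triv] at h h'
    rcases h with ⟨i, hi, ⟨h1, h2⟩ | ⟨h1, h2⟩⟩ <;>
      rcases h' with ⟨j, hj, ⟨h3, h4⟩ | ⟨h3, h4⟩⟩ <;> omega
  · rw [M2_mem_hV] at hv
    by_cases h : v < n
    · exact ⟨n + v, (M2_mem_triv _ _ _).2 ⟨v, h, Or.inl ⟨rfl, rfl⟩⟩⟩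
    · exact ⟨v - n, (M2_mem_triv _ _ _).2 ⟨v - n, by omega, Or.inr ⟨by omega, rfl⟩⟩⟩

theorem M2_mt {n m : ℕ} {E M : List Ed} (h : PM (hV (m + 2)) (hE (m + 2) (full n E)) M) :
    Mt (hE m (full n E)) (hE m M) := by
  refine ⟨fun u v h' => ?_, fun u v h' => ?_, fun u v w h' h'' => ?_⟩
  · rw [M2_mem_hE] at h' ⊢
    have := h.mt.sub u v h'.1
    rw [M2_mem_hE] at this
    exact ⟨this.1, h'.2⟩
  · rw [M2_mem_hE] at h' ⊢
    exact ⟨h.mt.symm _ _ h'.1, h'.2.2, h'.2.1⟩
  · rw [M2_mem_hE] at h' h''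
    exact h.mt.func u v w h'.1 h''.1

theorem M2_lt {n m : ℕ} {E M : List Ed} (h : PM (hV (m + 2)) (hE (m + 2) (full n E)) M)
    {u v : ℕ} (h' : (u, v) ∈ M) : v < m + 2 ∧ u ≠ v := by
  have := h.mt.sub u v h'
  rw [M2_mem_hE, M2_mem_full] at this
  exact ⟨this.2.2, this.1.2.2.1⟩

theorem M2_del {n m : ℕ} {E M : List Ed} (h : PM (hV (m + 2)) (hE (m + 2) (full n E)) M)
    (h1 : (m + 1, m) ∈ M) : PM (hV m) (hE m (full n E)) (hE m M) := by
  refine ⟨M2_mt h, fun v hv => ?_⟩
  rw [M2_mem_hV] at hv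
  obtain ⟨w, hw⟩ := h.cov v ((M2_mem_hV _ _).2 (by omega))
  have h2 := M2_lt h hw
  refine ⟨w, (M2_mem_hE _ _ _ _).2 ⟨hw, hv, ?_⟩⟩
  by_contra hc
  have h3 : w = m ∨ w = m + 1 := by omega
  rcases h3 with rfl | rfl
  · have := h.mt.func _ _ _ (h.mt.symm _ _ hw) (h.mt.symm _ _ h1)
    omega
  · have := h.mt.func _ _ _ (h.mt.symm _ _ hw) h1
    omega

theorem M2_near {n m : ℕ} {E M : List Ed} (h : PM (hV (m + 2)) (hE (m + 2) (full n E)) M)
    (h1 : (m + 1, m) ∉ M) :
    Near (hV m) (hE m (full n E)) (hE m M) (mate M (m + 1)) (mate M m) := by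
  obtain ⟨a, ha⟩ := h.cov (m + 1) ((M2_mem_hV _ _).2 (by omega))
  obtain ⟨b, hb⟩ := h.cov m ((M2_mem_hV _ _).2 (by omega))
  rw [mate_eq h.mt ha, mate_eq h.mt hb]
  have ha1 := M2_lt h ha
  have hb1 := M2_lt h hb
  have ha2 : a ≠ m := by rintro rfl; exact h1 ha
  have hb2 : b ≠ m + 1 := by rintro rfl; exact h1 (h.mt.symm _ _ hb)
  have ha3 := h.mt.symm _ _ ha
  have hb3 := h.mt.symm _ _ hb
  refine ⟨M2_mt h, (M2_mem_hV _ _).2 (by omega), (M2_mem_hV _ _).2 (by omega), ?_, ?_, ?_, ?_⟩
  · rintro rfl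
    have := h.mt.func _ _ _ ha3 hb3
    omega
  · intro w hw
    rw [M2_mem_hE] at hw
    have := h.mt.func _ _ _ ha3 hw.1
    omega
  · intro w hw
    rw [M2_mem_hE] at hw
    have := h.mt.func _ _ _ hb3 hw.1
    omega
  · intro v hv hva hvb
    rw [M2_mem_hV] at hv
    obtain ⟨w, hw⟩ := h.cov v ((M2_mem_hV _ _).2 (by omega))
    have h2 := M2_lt h hw
    refine ⟨w, (M2_mem_hE _ _ _ _).2 ⟨hw, hv, ?_⟩⟩
    by_contra hc
    have h3 : w = m ∨ w = m + 1 := by omega
    rcases h3 with rfl | rfl
    · exact hvb (h.mt.func _ _ _ (h.mt.symm _ _ hw) hb)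
    · exact hva (h.mt.func _ _ _ (h.mt.symm _ _ hw) ha)

theorem M2_ext1 {n m : ℕ} {E : List Ed} (h1 : n ≤ m) (h2 : m + 2 ≤ 2 * n)
    (h : ∃ N, PM (hV m) (hE m (full n E)) N) : ∃ N, PM (hV (m + 2)) (hE (m + 2) (full n E)) N := by
  obtain ⟨N, hN⟩ := h
  have hlt : ∀ {u v : ℕ}, (u, v) ∈ N → u < m ∧ v < m := by
    intro u v h
    have := hN.mt.sub u v h
    rw [M2_mem_hE] at this
    exact this.2
  refine ⟨(m, m + 1) :: (m + 1, m) :: N, ⟨⟨fun u v h => ?_, fun u v h => ?_, fun u v w h h' => ?_⟩,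
    fun v hv => ?_⟩⟩
  · simp only [List.mem_cons, Prod.mk.injEq] at h
    rcases h with ⟨rfl, rfl⟩ | ⟨rfl, rfl⟩ | h
    · rw [M2_mem_hE, M2_mem_full]
      exact ⟨⟨by omega, by omega, by omega, Or.inl (by omega)⟩, by omega, by omega⟩
    · rw [M2_mem_hE, M2_mem_full]
      exact ⟨⟨by omega, by omega, by omega, Or.inl (by omega)⟩, by omega, by omega⟩
    · have h3 := hN.mt.sub u v h
      rw [M2_mem_hE] at h3 ⊢
      exact ⟨h3.1, by omega, by omega⟩
  · simp only [List.mem_cons, Prod.mk.injEq] at h ⊢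
    rcases h with ⟨rfl, rfl⟩ | ⟨rfl, rfl⟩ | h
    · exact Or.inr (Or.inl ⟨rfl, rfl⟩)
    · exact Or.inl ⟨rfl, rfl⟩
    · exact Or.inr (Or.inr (hN.mt.symm _ _ h))
  · simp only [List.mem_cons, Prod.mk.injEq] at h h'
    rcases h with ⟨h3, h4⟩ | ⟨h3, h4⟩ | h <;> rcases h' with ⟨h5, h6⟩ | ⟨h5, h6⟩ | h'
    · omega
    · omega
    · have := hlt h'
      omega
    · omega
    · omega
    · have := hlt h'
      omega
    · have := hlt h
      omega
    · have := hlt h
      omega
    · exact hN.mt.func _ _ _ h h'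
  · rw [M2_mem_hV] at hv
    have h3 : v < m ∨ v = m ∨ v = m + 1 := by omega
    rcases h3 with h3 | rfl | rfl
    · obtain ⟨w, hw⟩ := hN.cov v ((M2_mem_hV _ _).2 h3)
      exact ⟨w, by simp [hw]⟩
    · exact ⟨v + 1, by simp⟩
    · exact ⟨m, by simp⟩

theorem M2_ext {n : ℕ} {E : List Ed} (h : ∃ N, PM (hV n) (hE n (full n E)) N) (k : ℕ)
    (hk : n + 2 * k ≤ 2 * n) :
    ∃ N, PM (hV (n + 2 * k)) (hE (n + 2 * k) (full n E)) N := by
  induction k with
  | zero => simpa using h
  | succ k ih =>
    have h1 := M2_ext1 (n := n) (m := n + 2 * k) (E := E) (by omega) (by omega) (ih (by omega))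
    have h2 : n + 2 * (k + 1) = n + 2 * k + 2 := by ring
    rw [h2]
    exact h1

theorem M2_inv {n : ℕ} (hn : n % 2 = 0) (E : List Ed) (i : ℕ) (hi : i ≤ n / 2) :
    ((((hstep (full n E))^[i] (true, 2 * n - 2, triv n)).1 = true ∧
      ((hstep (full n E))^[i] (true, 2 * n - 2, triv n)).2.1 = 2 * n - 2 - 2 * i ∧
      PM (hV (2 * n - 2 * i)) (hE (2 * n - 2 * i) (full n E))
        ((hstep (full n E))^[i] (true, 2 * n - 2, triv n)).2.2) ∨
    (((hstep (full n E))^[i] (true, 2 * n - 2, triv n)).1 = false ∧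
      ¬ ∃ N, PM (hV n) (hE n (full n E)) N)) := by
  induction i with
  | zero =>
    left
    exact ⟨rfl, rfl, M2_triv n E⟩
  | succ i ih =>
    rw [Function.iterate_succ_apply']
    generalize (hstep (full n E))^[i] (true, 2 * n - 2, triv n) = s at ih ⊢
    obtain ⟨s1, m, M⟩ := s
    rcases ih (by omega) with ⟨h1, h2, h3⟩ | ⟨h1, h2⟩
    · simp only at h1 h2 h3
      subst h1
      have hm : 2 * n - 2 * i = m + 2 := by omega
      have hm' : 2 * n - 2 * (i + 1) = m := by omega
      have hm'' : 2 * n - 2 - 2 * (i + 1) = m - 2 := by omega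
      rw [hm] at h3
      rw [hm', hm'']
      unfold hstep
      simp only [cond_true]
      cases hb : memE M (m + 1, m) with
      | true =>
        rw [cond_true]
        left
        rw [memE_iff] at hb
        exact ⟨rfl, rfl, M2_del h3 hb⟩
      | false =>
        rw [cond_false]
        rw [memE_false] at hb
        have h4 := aug_ok (M2_gr n m E) (M2_near h3 hb)
        simp only
        cases hr : (aug (hV m, hE m (full n E), hE m M, mate M (m + 1), mate M m)).1 with
        | true =>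
          left
          exact ⟨by trivial, by trivial, h4.1 hr⟩
        | false =>
          right
          refine ⟨by trivial, fun h5 => h4.2 hr ?_⟩
          have h6 := M2_ext h5 ((m - n) / 2) (by omega)
          have h7 : n + 2 * ((m - n) / 2) = m := by omega
          rw [h7] at h6
          exact h6
    · right
      simp only at h1
      subst h1
      refine ⟨?_, h2⟩
      unfold hstep
      simp only [cond_false]

theorem M2_odd {n : ℕ} (hn : n % 2 ≠ 0) (E : List Ed) :
    ¬ ∃ N, PM (hV n) (hE n (full n E)) N := by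
  rintro ⟨N, hN⟩
  have hm : ∀ v ∈ Finset.range n, (v, mate N v) ∈ N := by
    intro v hv
    obtain ⟨w, hw⟩ := hN.cov v ((M2_mem_hV _ _).2 (Finset.mem_range.1 hv))
    rw [mate_eq hN.mt hw]
    exact hw
  have hs := Finset.sum_involution (s := Finset.range n) (f := fun _ => (1 : ZMod 2))
    (fun v _ => mate N v) (fun _ _ => by decide)
    (fun v hv _ => by
      have := hN.mt.sub _ _ (hm v hv)
      rw [M2_mem_hE, M2_mem_full] at this
      exact fun h => this.1.2.2.1 h.symm)
    (fun v hv => by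
      have := hN.mt.sub _ _ (hm v hv)
      rw [M2_mem_hE] at this
      exact Finset.mem_range.2 this.2.2)
    (fun v hv => mate_eq hN.mt (hN.mt.symm _ _ (hm v hv)))
  simp only [Finset.sum_const, Finset.card_range, nsmul_eq_mul, mul_one] at hs
  rw [ZMod.natCast_eq_zero_iff] at hs
  omega

theorem pm_spec (n : ℕ) (E : List Ed) :
    ((pm n E).1 = true → PM (hV n) (hE n (full n E)) (pm n E).2) ∧
      ((pm n E).1 = false → ¬ ∃ N, PM (hV n) (hE n (full n E)) N) := by
  by_cases hn : n % 2 = 0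
  · have h := M2_inv hn E (n / 2) le_rfl
    have h1 : pm n E = (((hstep (full n E))^[n / 2] (true, 2 * n - 2, triv n)).1,
        ((hstep (full n E))^[n / 2] (true, 2 * n - 2, triv n)).2.2) := by
      unfold pm
      simp only [hn, decide_true, cond_true]
    rw [h1]
    have h2 : 2 * n - 2 * (n / 2) = n := by omega
    rw [h2] at h
    generalize (hstep (full n E))^[n / 2] (true, 2 * n - 2, triv n) = s at h ⊢
    rcases h with ⟨h3, -, h4⟩ | ⟨h3, h4⟩
    · exact ⟨fun _ => h4, fun h5 => absurd (h3.symm.trans h5) (by decide)⟩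
    · exact ⟨fun h5 => absurd (h3.symm.trans h5) (by decide), fun _ => h4⟩
  · have h1 : pm n E = (false, []) := by
      unfold pm
      simp only [hn, decide_false, cond_false]
    rw [h1]
    exact ⟨fun h => by simp at h, fun _ => M2_odd hn E⟩

end Pool.Agent.EDM

end

section -- file EDM/P1

/-! **[EDM-P1]** Polynomial time: the elementary functions. -/

namespace Pool.Agent.EDM

open Pool.Agent.Lib.helper60

variable {ι : Type} [DEnc ι]

/- PROOF. `PT.any`, `PT.neq`, `PT.band`, `PT.p1`, `PT.p2`. -/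
theorem pt_memN {l : ι → List ℕ} {v : ι → ℕ} (hl : PT l) (hv : PT v) :
    PT (fun x => memN (l x) (v x)) :=
  PT.any hl (p := fun y : ι × ℕ => decide (y.2 = v y.1)) (PT.neq PT.snd (hv.comp PT.fst))

theorem pt_memE {l : ι → List Ed} {e : ι → Ed} (hl : PT l) (he : PT e) :
    PT (fun x => memE (l x) (e x)) :=
  PT.any hl (p := fun y : ι × Ed => decide (y.2.1 = (e y.1).1) && decide (y.2.2 = (e y.1).2))
    (PT.band (PT.neq (PT.p1 PT.snd) (PT.p1 (he.comp PT.fst)))
      (PT.neq (PT.p2 PT.snd) (PT.p2 (he.comp PT.fst))))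

theorem pt_mate {M : ι → List Ed} {v : ι → ℕ} (hM : PT M) (hv : PT v) :
    PT (fun x => mate (M x) (v x)) :=
  PT.headD (PT.map (g := fun y : ι × Ed => y.2.2)
    (PT.filter hM (p := fun y : ι × Ed => decide (y.2.1 = v y.1))
      (PT.neq (PT.p1 PT.snd) (hv.comp PT.fst))) (PT.p2 PT.snd)) (PT.const 0)

private theorem P1_fold (B : ℕ) : ∀ (l : List ℕ) (s : ℕ × List Ed), tsize s.1 ≤ B →
    (∀ y ∈ l, tsize y ≤ B) →
    tsize (l.foldl (fun s y => (y, (s.1, y) :: (y, s.1) :: s.2)) s).1 ≤ B ∧
    tsize (l.foldl (fun s y => (y, (s.1, y) :: (y, s.1) :: s.2)) s).2 ≤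
      tsize s.2 + l.length * (4 * B + 4) := by
  intro l
  induction l with
  | nil => intro s h _; exact ⟨h, by simp⟩
  | cons y l ih =>
    intro s h1 h2
    have hy : tsize y ≤ B := h2 y List.mem_cons_self
    have h3 := ih (y, (s.1, y) :: (y, s.1) :: s.2) hy (fun z hz => h2 z (List.mem_cons_of_mem _ hz))
    rw [List.foldl_cons]
    refine ⟨h3.1, h3.2.trans ?_⟩
    simp only [tsize_cons, tsize_pair, List.length_cons]
    have : (l.length + 1) * (4 * B + 4) = l.length * (4 * B + 4) + (4 * B + 4) := by ring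
    omega

private theorem P1_mem {l : List ℕ} {y : ℕ} (h : y ∈ l) : tsize y ≤ tsize l := (tsize_mem_lt h).le

/- PROOF. `PT.foldl` (the state after the fold over `l₁` consists of a member of the list or the head and
`2 * l₁.length` pairs of such numbers: polynomial bound). -/
theorem pt_steps {p : ι → List ℕ} (hp : PT p) : PT (fun x => steps (p x)) := by
  have hB : PB (fun x : ι => tsize (p x)) := hp.size
  refine PT.p2 (PT.foldl (init := fun x => ((p x).headD 0, ([] : List Ed)))
    (g := fun y : ι × (ℕ × List Ed) × ℕ =>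
      (y.2.2, (y.2.1.1, y.2.2) :: (y.2.2, y.2.1.1) :: y.2.1.2))
    (PT.tail hp) (PT.pair (PT.headD hp (PT.const 0)) (PT.const [])) ?_ ?_)
  · have h1 : PT (fun y : ι × (ℕ × List Ed) × ℕ => y.2.2) := PT.p2 PT.snd
    have h2 : PT (fun y : ι × (ℕ × List Ed) × ℕ => y.2.1.1) := PT.p1 (PT.p1 PT.snd)
    have h3 : PT (fun y : ι × (ℕ × List Ed) × ℕ => y.2.1.2) := PT.p2 (PT.p1 PT.snd)
    exact PT.pair h1 (PT.cons (PT.pair h2 h1) (PT.cons (PT.pair h1 h2) h3))
  · refine ⟨fun x => tsize (p x) + (1 + tsize (p x) * (4 * tsize (p x) + 4)) + 1,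
      (hB.add ((PB.const 1).add (hB.mul (((PB.const 4).mul hB).add (PB.const 4))))).add
        (PB.const 1), ?_⟩
    intro x l₁ l₂ h
    have hsub : ∀ y ∈ (p x).tail, tsize y ≤ tsize (p x) := fun y hy =>
      P1_mem (List.mem_of_mem_tail hy)
    have h0 : tsize ((p x).headD 0) ≤ tsize (p x) := by
      cases hpx : p x with
      | nil => simp
      | cons a u =>
        simp only [List.headD_cons, tsize_cons]
        omega
    have h1 := P1_fold (tsize (p x)) l₁ ((p x).headD 0, ([] : List Ed)) h0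
      (fun y hy => hsub y (by rw [← h]; exact List.mem_append_left _ hy))
    have h2 : l₁.length ≤ tsize (p x) := by
      have h4 := length_lt_tsize (p x)
      have h5 : l₁.length ≤ (p x).tail.length := by
        rw [← h, List.length_append]
        omega
      rw [List.length_tail] at h5
      omega
    have h3 : l₁.length * (4 * tsize (p x) + 4) ≤ tsize (p x) * (4 * tsize (p x) + 4) :=
      Nat.mul_le_mul_right _ h2
    have h6 := h1.2
    have e0 : tsize ((((p x).headD 0, ([] : List Ed)) : ℕ × List Ed).2) = 1 := rfl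
    rw [e0] at h6
    have h7 : ∀ s : ℕ × List Ed, tsize s = tsize s.1 + tsize s.2 + 1 :=
      fun s => tsize_pair s.1 s.2
    show tsize (l₁.foldl (fun s y => (y, (s.1, y) :: (y, s.1) :: s.2))
      ((p x).headD 0, ([] : List Ed))) ≤
        tsize (p x) + (1 + tsize (p x) * (4 * tsize (p x) + 4)) + 1
    rw [h7]
    have h8 := h1.1
    omega

theorem pt_sw {E M : ι → List Ed} {p : ι → List ℕ} (hE : PT E) (hM : PT M) (hp : PT p) :
    PT (fun x => sw (E x) (M x) (p x)) := by
  have h1 : PT (fun y : ι × Ed => memE (M y.1) y.2) := pt_memE (hM.comp PT.fst) PT.snd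
  have h2 : PT (fun y : ι × Ed => memE (steps (p y.1)) y.2) :=
    pt_memE ((pt_steps hp).comp PT.fst) PT.snd
  refine PT.filter hE (p := fun y : ι × Ed => xor (memE (M y.1) y.2) (memE (steps (p y.1)) y.2)) ?_
  refine (PT.cond h1 (PT.bnot h2) h2).congr fun y => ?_
  cases memE (M y.1) y.2 <;> cases memE (steps (p y.1)) y.2 <;> rfl

private theorem P1_fold2 (B : ℕ) : ∀ (l : List ℕ) (s : Bool × ℕ × List Ed), tsize s.2.1 ≤ B →
    1 ≤ B → (∀ y ∈ l, tsize y ≤ B) →
    tsize (l.foldl (fun s y => bif s.1 then (false, 0, (s.2.1, y) :: (y, s.2.1) :: s.2.2)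
      else (true, y, s.2.2)) s).2.1 ≤ B ∧
    tsize (l.foldl (fun s y => bif s.1 then (false, 0, (s.2.1, y) :: (y, s.2.1) :: s.2.2)
      else (true, y, s.2.2)) s).2.2 ≤ tsize s.2.2 + l.length * (4 * B + 4) := by
  intro l
  induction l with
  | nil => intro s h _ _; exact ⟨h, by simp⟩
  | cons y l ih =>
    intro s h1 hB h2
    have hy : tsize y ≤ B := h2 y List.mem_cons_self
    have hl : ∀ z ∈ l, tsize z ≤ B := fun z hz => h2 z (List.mem_cons_of_mem _ hz)
    rw [List.foldl_cons]
    have e : (l.length + 1) * (4 * B + 4) = l.length * (4 * B + 4) + (4 * B + 4) := by ring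
    obtain ⟨b, v, w⟩ := s
    cases b with
    | false =>
      have h3 := ih (true, y, w) hy hB hl
      refine ⟨h3.1, h3.2.trans ?_⟩
      simp only [List.length_cons]
      omega
    | true =>
      have h3 := ih (false, 0, (v, y) :: (y, v) :: w) (by simpa using hB) hB hl
      refine ⟨h3.1, h3.2.trans ?_⟩
      simp only [tsize_cons, tsize_pair, List.length_cons]
      simp only at h1
      omega

theorem pt_pairs {l : ι → List ℕ} (hl : PT l) : PT (fun x => pairs (l x)) := by
  have hB : PB (fun x : ι => tsize (l x)) := hl.size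
  refine PT.p2 (PT.p2 (PT.foldl (init := fun _ => (false, 0, ([] : List Ed)))
    (g := fun y : ι × (Bool × ℕ × List Ed) × ℕ =>
      bif y.2.1.1 then (false, 0, (y.2.1.2.1, y.2.2) :: (y.2.2, y.2.1.2.1) :: y.2.1.2.2)
      else (true, y.2.2, y.2.1.2.2))
    hl (PT.const _) ?_ ?_))
  · have h1 : PT (fun y : ι × (Bool × ℕ × List Ed) × ℕ => y.2.2) := PT.p2 PT.snd
    have h2 : PT (fun y : ι × (Bool × ℕ × List Ed) × ℕ => y.2.1.2.1) :=
      PT.p1 (PT.p2 (PT.p1 PT.snd))
    have h3 : PT (fun y : ι × (Bool × ℕ × List Ed) × ℕ => y.2.1.2.2) :=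
      PT.p2 (PT.p2 (PT.p1 PT.snd))
    have h4 : PT (fun y : ι × (Bool × ℕ × List Ed) × ℕ => y.2.1.1) := PT.p1 (PT.p1 PT.snd)
    exact PT.cond h4 (PT.pair (PT.const false) (PT.pair (PT.const 0)
      (PT.cons (PT.pair h2 h1) (PT.cons (PT.pair h1 h2) h3))))
      (PT.pair (PT.const true) (PT.pair h1 h3))
  · refine ⟨fun x => 3 + (tsize (l x) + (1 + tsize (l x) * (4 * tsize (l x) + 4)) + 1) + 1,
      ((PB.const 3).add ((hB.add ((PB.const 1).add
        (hB.mul (((PB.const 4).mul hB).add (PB.const 4))))).add (PB.const 1))).add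
        (PB.const 1), ?_⟩
    intro x l₁ l₂ h
    have h1 := P1_fold2 (tsize (l x)) l₁ (false, 0, ([] : List Ed))
      (by simp only [tsize_nat]; exact tsize_pos (l x)) (tsize_pos (l x))
      (fun y hy => P1_mem (by rw [← h]; exact List.mem_append_left _ hy))
    have h2 : l₁.length ≤ tsize (l x) := by
      have h4 := length_lt_tsize (l x)
      rw [← h, List.length_append] at h4
      rw [h] at h4
      omega
    have h3 : l₁.length * (4 * tsize (l x) + 4) ≤ tsize (l x) * (4 * tsize (l x) + 4) :=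
      Nat.mul_le_mul_right _ h2
    have h6 := h1.2
    have e0 : tsize (((false, 0, ([] : List Ed)) : Bool × ℕ × List Ed).2.2) = 1 := rfl
    rw [e0] at h6
    have h7 : ∀ s : Bool × ℕ × List Ed,
        tsize s = tsize s.1 + (tsize s.2.1 + tsize s.2.2 + 1) + 1 := by
      rintro ⟨a, b, c⟩
      rw [tsize_pair, tsize_pair]
    show tsize (l₁.foldl (fun s y => bif s.1 then
      (false, 0, (s.2.1, y) :: (y, s.2.1) :: s.2.2) else (true, y, s.2.2))
      (false, 0, ([] : List Ed))) ≤
        3 + (tsize (l x) + (1 + tsize (l x) * (4 * tsize (l x) + 4)) + 1) + 1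
    rw [h7]
    have h8 := h1.1
    have h9 := tsize_bool_le (l₁.foldl (fun s y => bif s.1 then
      (false, 0, (s.2.1, y) :: (y, s.2.1) :: s.2.2) else (true, y, s.2.2))
      (false, 0, ([] : List Ed))).1
    omega

private theorem P1_rot (v : ℕ) (l : List ℕ) (hl : l ≠ []) :
    tsize (bif decide (l.headD 0 = v) then l else l.tail ++ [l.headD 0]) = tsize l ∧
    (bif decide (l.headD 0 = v) then l else l.tail ++ [l.headD 0]) ≠ [] := by
  cases l with
  | nil => exact (hl rfl).elim
  | cons a u =>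
    cases hd : decide ((a :: u).headD 0 = v) with
    | true => exact ⟨rfl, by simp⟩
    | false =>
      have h1 := tsize_append u [a]
      simp only [List.headD_cons, List.tail_cons, tsize_cons, tsize_nil, cond_false] at h1 ⊢
      exact ⟨by omega, by simp⟩

/- PROOF. `PT.iterateList` (pair `v` with the list); all iterates are rotations of `l` (or `[]` / `[0]` for `l = []`:
`l.length = 0`, no iteration), so their size is `tsize l` (`tsize_append`). -/
theorem pt_rotTo {v : ι → ℕ} {l : ι → List ℕ} (hv : PT v) (hl : PT l) :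
    PT (fun x => rotTo (v x) (l x)) := by
  have hit : ∀ (i : ℕ) (v : ℕ) (l : List ℕ),
      (fun s : ℕ × List ℕ => (s.1, bif decide (s.2.headD 0 = s.1) then s.2
        else s.2.tail ++ [s.2.headD 0]))^[i] (v, l) =
      (v, (fun l : List ℕ => bif decide (l.headD 0 = v) then l
        else l.tail ++ [l.headD 0])^[i] l) := by
    intro i
    induction i with
    | zero => intro v l; rfl
    | succ i ih => intro v l; rw [Function.iterate_succ_apply, ih, Function.iterate_succ_apply]
  have hsz : ∀ (i : ℕ) (v : ℕ) (l : List ℕ), l ≠ [] →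
      tsize ((fun l : List ℕ => bif decide (l.headD 0 = v) then l
        else l.tail ++ [l.headD 0])^[i] l) = tsize l := by
    intro i
    induction i with
    | zero => intro v l _; rfl
    | succ i ih =>
      intro v l h
      obtain ⟨h1, h2⟩ := P1_rot v l h
      rw [Function.iterate_succ_apply, ih v _ h2, h1]
  have h1 : PT (fun s : ℕ × List ℕ => s.1) := PT.fst
  have h2 : PT (fun s : ℕ × List ℕ => s.2) := PT.snd
  have h3 : PT (fun s : ℕ × List ℕ => s.2.headD 0) := PT.headD h2 (PT.const 0)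
  have hstep : PT (fun s : ℕ × List ℕ => (s.1, bif decide (s.2.headD 0 = s.1) then s.2
      else s.2.tail ++ [s.2.headD 0])) :=
    PT.pair h1 (PT.cond (PT.neq h3 h1) h2 (PT.append (PT.tail h2) (PT.cons h3 (PT.const []))))
  have h := PT.iterateList (count := l) (init := fun x => (v x, l x)) hl (PT.pair hv hl) hstep
    ⟨fun x => tsize (v x) + tsize (l x) + 1, (hv.size.add hl.size).add (PB.const 1), by
      intro x i hi
      rw [hit, tsize_pair]
      by_cases hx : l x = []
      · have hi0 : i = 0 := by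
          rw [hx] at hi
          simpa using hi
        subst hi0
        rw [Function.iterate_zero, id]
      · rw [hsz i _ _ hx]⟩
  refine (PT.p2 h).congr fun x => ?_
  rw [hit]
  rfl

theorem pt_stem {p q : ι → List ℕ} (hp : PT p) (hq : PT q) : PT (fun x => stem (p x) (q x)) :=
  PT.filter hp (p := fun y : ι × ℕ => memN (q y.1) y.2) (pt_memN (hq.comp PT.fst) PT.snd)

private theorem P1_dif {p q : ι → List ℕ} (hp : PT p) (hq : PT q) :
    PT (fun x => dif (p x) (q x)) :=
  PT.filter hp (p := fun y : ι × ℕ => !memN (q y.1) y.2)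
    (PT.bnot (pt_memN (hq.comp PT.fst) PT.snd))

theorem pt_cyc {p q : ι → List ℕ} (hp : PT p) (hq : PT q) : PT (fun x => cyc (p x) (q x)) :=
  PT.cons (PT.headD (pt_stem hp hq) (PT.const 0))
    (PT.append (PT.reverse (P1_dif hp hq)) (P1_dif hq hp))

theorem pt_ctrV {C : ι → List ℕ} {V : ι → List ℕ} (hC : PT C) (hV : PT V) :
    PT (fun x => ctrV (C x) (V x)) :=
  PT.filter hV (p := fun y : ι × ℕ => !memN (C y.1).tail y.2)
    (PT.bnot (pt_memN ((PT.tail hC).comp PT.fst) PT.snd))

theorem pt_ctrE {C : ι → List ℕ} {E : ι → List Ed} (hC : PT C) (hE : PT E) :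
    PT (fun x => ctrE (C x) (E x)) := by
  have hC' : PT (fun y : ι × Ed => C y.1) := hC.comp PT.fst
  have hh : PT (fun y : ι × Ed => (C y.1).headD 0) := PT.headD hC' (PT.const 0)
  have h1 : PT (fun y : ι × Ed => y.2.1) := PT.p1 PT.snd
  have h2 : PT (fun y : ι × Ed => y.2.2) := PT.p2 PT.snd
  have hm := PT.map hE (g := fun y : ι × Ed =>
    (rel (C y.1) ((C y.1).headD 0) y.2.1, rel (C y.1) ((C y.1).headD 0) y.2.2))
    (PT.pair (PT.cond (pt_memN hC' h1) hh h1) (PT.cond (pt_memN hC' h2) hh h2))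
  exact PT.filter hm (p := fun y : ι × Ed => !decide (y.2.1 = y.2.2)) (PT.bnot (PT.neq h1 h2))

theorem pt_ctrM {C : ι → List ℕ} {M : ι → List Ed} (hC : PT C) (hM : PT M) :
    PT (fun x => ctrM (C x) (M x)) :=
  PT.filter hM (p := fun y : ι × Ed => !memN (C y.1) y.2.1)
    (PT.bnot (pt_memN (hC.comp PT.fst) (PT.p1 PT.snd)))

theorem pt_liftN {C : ι → List ℕ} {E N : ι → List Ed} (hC : PT C) (hE : PT E) (hN : PT N) :
    PT (fun x => liftN (C x) (E x) (N x)) := by
  have hh : PT (fun x => (C x).headD 0) := PT.headD hC (PT.const 0)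
  have hw : PT (fun x => mate (N x) ((C x).headD 0)) := pt_mate hN hh
  have hv : PT (fun x => ((C x).filter fun v => memE (E x)
      (v, mate (N x) ((C x).headD 0))).headD 0) :=
    PT.headD (PT.filter hC (p := fun y : ι × ℕ => memE (E y.1)
      (y.2, mate (N y.1) ((C y.1).headD 0)))
      (pt_memE (hE.comp PT.fst) (PT.pair PT.snd (hw.comp PT.fst)))) (PT.const 0)
  have hf : PT (fun x => (N x).filter fun e => !decide (e.1 = (C x).headD 0) &&
      !decide (e.2 = (C x).headD 0)) :=
    PT.filter hN (p := fun y : ι × Ed => !decide (y.2.1 = (C y.1).headD 0) &&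
      !decide (y.2.2 = (C y.1).headD 0))
      (PT.band (PT.bnot (PT.neq (PT.p1 PT.snd) (hh.comp PT.fst)))
        (PT.bnot (PT.neq (PT.p2 PT.snd) (hh.comp PT.fst))))
  have hp : PT (fun x => pairs (rotTo (((C x).filter fun v => memE (E x)
      (v, mate (N x) ((C x).headD 0))).headD 0) (C x)).tail) :=
    pt_pairs (PT.tail (pt_rotTo hv hC))
  have hL := PT.cons (PT.pair hv hw) (PT.cons (PT.pair hw hv) (PT.append hf hp))
  exact PT.filter hE (p := fun y : ι × Ed => memE
    (((((C y.1).filter fun v => memE (E y.1) (v, mate (N y.1) ((C y.1).headD 0))).headD 0),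
      mate (N y.1) ((C y.1).headD 0)) :: (mate (N y.1) ((C y.1).headD 0),
      (((C y.1).filter fun v => memE (E y.1) (v, mate (N y.1) ((C y.1).headD 0))).headD 0)) ::
      (((N y.1).filter fun e => !decide (e.1 = (C y.1).headD 0) &&
        !decide (e.2 = (C y.1).headD 0)) ++ pairs (rotTo (((C y.1).filter fun v =>
        memE (E y.1) (v, mate (N y.1) ((C y.1).headD 0))).headD 0) (C y.1)).tail)) y.2)
    (pt_memE (hL.comp PT.fst) PT.snd)

end Pool.Agent.EDM

end

section -- file EDM/P2

/-! **[EDM-P2]** Polynomial time: the alternating tree and the functions of the recursion. -/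

namespace Pool.Agent.EDM

open Pool.Agent.Lib.helper60

/-- all numbers in the state are `≤ m`, all lists have length `≤ L` -/
structure Bd (m L : ℕ) (x : St) : Prop where
  v : ∀ v ∈ x.1, v ≤ m
  e : ∀ e ∈ x.2.1, e.1 ≤ m ∧ e.2 ≤ m
  mt : ∀ e ∈ x.2.2.1, e.1 ≤ m ∧ e.2 ≤ m
  a : x.2.2.2.1 ≤ m
  b : x.2.2.2.2 ≤ m
  lv : x.1.length ≤ L
  le : x.2.1.length ≤ L
  lm : x.2.2.1.length ≤ L

theorem bd_self (x : St) : Bd (tsize x) (tsize x) x := by
  obtain ⟨V, E, M, a, b⟩ := x
  have hx : tsize ((V, E, M, a, b) : St) =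
      tsize V + (tsize E + (tsize M + (tsize a + tsize b + 1) + 1) + 1) + 1 := by
    simp only [tsize_pair]
  have ha : tsize a = 2 * a + 1 := tsize_nat a
  have hb : tsize b = 2 * b + 1 := tsize_nat b
  rw [hx]
  refine ⟨fun v hv => ?_, fun e he => ?_, fun e he => ?_, ?_, ?_, ?_, ?_, ?_⟩
  · have h := tsize_mem_lt hv
    simp only [tsize_nat] at h
    omega
  · have h := tsize_mem_lt he
    obtain ⟨e1, e2⟩ := e
    simp only [tsize_pair, tsize_nat] at h
    simp only
    omega
  · have h := tsize_mem_lt he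
    obtain ⟨e1, e2⟩ := e
    simp only [tsize_pair, tsize_nat] at h
    simp only
    omega
  · simp only
    omega
  · simp only
    omega
  · have h := length_lt_tsize V
    simp only
    omega
  · have h := length_lt_tsize E
    simp only
    omega
  · have h := length_lt_tsize M
    simp only
    omega

theorem P2_listN {l : List ℕ} {m : ℕ} (h : ∀ v ∈ l, v ≤ m) :
    tsize l ≤ l.length * (2 * m + 2) + 1 := by
  refine tsize_le_of_forall fun x hx => ?_
  have := h x hx
  rw [tsize_nat]
  omega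

theorem P2_listE {l : List Ed} {m : ℕ} (h : ∀ e ∈ l, e.1 ≤ m ∧ e.2 ≤ m) :
    tsize l ≤ l.length * (4 * m + 4) + 1 := by
  refine tsize_le_of_forall (B := 4 * m + 3) fun x hx => ?_
  have := h x hx
  obtain ⟨x1, x2⟩ := x
  rw [tsize_pair, tsize_nat, tsize_nat]
  simp only at this
  omega

theorem bd_size {m L : ℕ} {x : St} (h : Bd m L x) :
    tsize x ≤ 3 * (L * (4 * m + 4) + 1) + 4 * m + 6 := by
  obtain ⟨V, E, M, a, b⟩ := x
  obtain ⟨h1, h2, h3, h4, h5, h6, h7, h8⟩ := h
  simp only at h1 h2 h3 h4 h5 h6 h7 h8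
  have hx : tsize ((V, E, M, a, b) : St) =
      tsize V + (tsize E + (tsize M + (tsize a + tsize b + 1) + 1) + 1) + 1 := by
    simp only [tsize_pair]
  have ha : tsize a = 2 * a + 1 := tsize_nat a
  have hb : tsize b = 2 * b + 1 := tsize_nat b
  have h9 := P2_listN h1
  have h10 := P2_listE h2
  have h11 := P2_listE h3
  have h12 : V.length * (2 * m + 2) ≤ L * (4 * m + 4) := Nat.mul_le_mul h6 (by omega)
  have h13 : E.length * (4 * m + 4) ≤ L * (4 * m + 4) := Nat.mul_le_mul_right _ h7
  have h14 : M.length * (4 * m + 4) ≤ L * (4 * m + 4) := Nat.mul_le_mul_right _ h8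
  rw [hx]
  omega

theorem P2_headD {l : List ℕ} {m : ℕ} (h : ∀ x ∈ l, x ≤ m) : l.headD 0 ≤ m := by
  cases l with
  | nil => simp
  | cons a l => exact h a (by simp)

theorem P2_mate {M : List Ed} {m : ℕ} (h : ∀ e ∈ M, e.1 ≤ m ∧ e.2 ≤ m) (v : ℕ) :
    mate M v ≤ m := by
  unfold mate
  apply P2_headD
  intro x hx
  obtain ⟨e, he, rfl⟩ := List.mem_map.1 hx
  exact (h e (List.mem_filter.1 he).1).2

theorem P2_grows {m k : ℕ} {E M : List Ed} {b : ℕ} {F : List (List ℕ)}
    (hE : ∀ e ∈ E, e.1 ≤ m ∧ e.2 ≤ m) (hM : ∀ e ∈ M, e.1 ≤ m ∧ e.2 ≤ m)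
    (hF : ∀ p ∈ F, p.length ≤ k ∧ ∀ v ∈ p, v ≤ m) {r : List ℕ} (hr : r ∈ grows E M b F) :
    r.length ≤ k + 2 ∧ ∀ v ∈ r, v ≤ m := by
  unfold grows at hr
  rw [List.mem_flatMap] at hr
  obtain ⟨p, hp, hr⟩ := hr
  obtain ⟨e, he, rfl⟩ := List.mem_map.1 hr
  have he' := hE e (List.mem_filter.1 he).1
  obtain ⟨h1, h2⟩ := hF p hp
  refine ⟨by simp only [List.length_cons]; omega, fun v hv => ?_⟩
  rw [List.mem_cons, List.mem_cons] at hv
  rcases hv with rfl | rfl | hv
  · exact P2_mate hM _
  · exact he'.2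
  · exact h2 v hv

theorem bd_forest {m L : ℕ} {x : St} (h : Bd m L x) (i : ℕ) :
    ((fstep x.2.1 x.2.2.1 x.2.2.2.2)^[i] [[x.2.2.2.1]]).length ≤ i + 1 ∧
      ∀ p ∈ (fstep x.2.1 x.2.2.1 x.2.2.2.2)^[i] [[x.2.2.2.1]], p.length ≤ 2 * i + 1 ∧
        ∀ v ∈ p, v ≤ m := by
  induction i with
  | zero =>
    refine ⟨le_rfl, fun p hp => ?_⟩
    rw [Function.iterate_zero, id, List.mem_singleton] at hp
    subst hp
    refine ⟨le_rfl, fun v hv => ?_⟩
    rw [List.mem_singleton] at hv
    subst hv
    exact h.a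
  | succ i ih =>
    rw [Function.iterate_succ_apply']
    generalize (fstep x.2.1 x.2.2.1 x.2.2.2.2)^[i] [[x.2.2.2.1]] = F at ih ⊢
    obtain ⟨h1, h2⟩ := ih
    have h3 := fun (r : List ℕ) (hr : r ∈ grows x.2.1 x.2.2.1 x.2.2.2.2 F) =>
      P2_grows h.e h.mt h2 hr
    unfold fstep
    cases hg : grows x.2.1 x.2.2.1 x.2.2.2.2 F with
    | nil =>
      refine ⟨by simp only; omega, fun p hp => ?_⟩
      obtain ⟨h4, h5⟩ := h2 p hp
      exact ⟨by omega, h5⟩
    | cons r l =>
      refine ⟨by simp only [List.length_cons]; omega, fun p hp => ?_⟩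
      simp only [List.mem_cons] at hp
      rcases hp with rfl | hp
      · obtain ⟨h4, h5⟩ := h3 p (by rw [hg]; simp)
        exact ⟨by omega, h5⟩
      · obtain ⟨h4, h5⟩ := h2 p hp
        exact ⟨by omega, h5⟩

section

variable {ι : Type} [DEnc ι]

theorem P2_isEmpty {β : Type} [DEnc β] {l : ι → List β} (hl : PT l) :
    PT (fun x => (l x).isEmpty) :=
  (PT.listCases hl (f := fun _ => true) (g := fun _ : ι × β × List β => false) (PT.const true)
    (PT.const false)).congr fun x => by cases l x <;> rfl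

theorem P2_pt_grows {E M : ι → List Ed} {b : ι → ℕ} {F : ι → List (List ℕ)} (hE : PT E)
    (hM : PT M) (hb : PT b) (hF : PT F) : PT (fun x => grows (E x) (M x) (b x) (F x)) := by
  have h1 : PT (fun w : (ι × List ℕ) × Ed => decide (w.2.1 = w.1.2.headD 0) &&
      (!(memN (F w.1.1).flatten w.2.2) && !decide (w.2.2 = b w.1.1))) :=
    PT.band (PT.neq (PT.p1 PT.snd) (PT.headD (PT.p2 PT.fst) (PT.const 0)))
      (PT.band (PT.bnot (pt_memN (PT.flatten (hF.comp (PT.p1 PT.fst))) (PT.p2 PT.snd)))
        (PT.bnot (PT.neq (PT.p2 PT.snd) (hb.comp (PT.p1 PT.fst)))))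
  have h2 : PT (fun w : (ι × List ℕ) × Ed => mate (M w.1.1) w.2.2 :: w.2.2 :: w.1.2) :=
    PT.cons (pt_mate (hM.comp (PT.p1 PT.fst)) (PT.p2 PT.snd))
      (PT.cons (PT.p2 PT.snd) (PT.p2 PT.fst))
  have h3 : PT (fun z : ι × List ℕ => ((E z.1).filter fun e => decide (e.1 = z.2.headD 0) &&
      (!(memN (F z.1).flatten e.2) && !decide (e.2 = b z.1))).map
        fun e => mate (M z.1) e.2 :: e.2 :: z.2) :=
    PT.map (PT.filter (hE.comp PT.fst) h1) h2
  exact PT.flatMap hF h3

theorem P2_pt_fstep {E M : ι → List Ed} {b : ι → ℕ} {F : ι → List (List ℕ)} (hE : PT E)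
    (hM : PT M) (hb : PT b) (hF : PT F) : PT (fun x => fstep (E x) (M x) (b x) (F x)) := by
  have h := PT.listCases (P2_pt_grows hE hM hb hF) (f := F)
    (g := fun y : ι × List ℕ × List (List ℕ) => y.2.1 :: F y.1) hF
    (PT.cons (PT.p1 PT.snd) (hF.comp PT.fst))
  refine h.congr fun x => ?_
  unfold fstep
  cases grows (E x) (M x) (b x) (F x) <;> rfl

end

theorem P2_iter (x : St) (i : ℕ) (F : List (List ℕ)) :
    (fun y : St × List (List ℕ) =>
      (y.1, fstep y.1.2.1 y.1.2.2.1 y.1.2.2.2.2 y.2))^[i] (x, F) =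
      (x, (fstep x.2.1 x.2.2.1 x.2.2.2.2)^[i] F) := by
  induction i with
  | zero => rfl
  | succ i ih => rw [Function.iterate_succ_apply', ih, Function.iterate_succ_apply']

theorem pt_fst : PT fst' := by
  have hstep : PT (fun y : St × List (List ℕ) =>
      (y.1, fstep y.1.2.1 y.1.2.2.1 y.1.2.2.2.2 y.2)) :=
    PT.pair PT.fst (P2_pt_fstep (PT.p1 (PT.p2 PT.fst)) (PT.p1 (PT.p2 (PT.p2 PT.fst)))
      (PT.p2 (PT.p2 (PT.p2 (PT.p2 PT.fst)))) PT.snd)
  have hinit : PT (fun x : St => (x, [[x.2.2.2.1]])) :=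
    PT.pair PT.id (PT.cons (PT.cons (PT.p1 (PT.p2 (PT.p2 PT.snd))) (PT.const []))
      (PT.const []))
  have h := PT.iterateList (count := fun x : St => x.1) PT.fst hinit hstep
    ⟨fun x => tsize x + ((tsize x + 1) *
      (((2 * tsize x + 1) * (2 * tsize x + 2) + 1) + 1) + 1) + 1, ?_, fun x i hi => ?_⟩
  · refine (PT.p2 h).congr fun x => ?_
    rw [P2_iter]
    rfl
  · have hT : PB (fun x : St => tsize x) := PB.tsize
    exact (hT.add (((hT.add (PB.const 1)).mul ((((((PB.const 2).mul hT).add (PB.const 1)).mul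
      (((PB.const 2).mul hT).add (PB.const 2))).add (PB.const 1)).add (PB.const 1))).add
      (PB.const 1))).add (PB.const 1)
  · rw [P2_iter]
    have h0 := bd_self x
    obtain ⟨h1, h2⟩ := bd_forest h0 i
    generalize (fstep x.2.1 x.2.2.1 x.2.2.2.2)^[i] [[x.2.2.2.1]] = F at h1 h2 ⊢
    have hi' : i ≤ tsize x := hi.trans h0.lv
    have h3 : ∀ p ∈ F, tsize p ≤ (2 * tsize x + 1) * (2 * tsize x + 2) + 1 := by
      intro p hp
      obtain ⟨h4, h5⟩ := h2 p hp
      have h6 := P2_listN h5
      have h7 : p.length * (2 * tsize x + 2) ≤ (2 * tsize x + 1) * (2 * tsize x + 2) :=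
        Nat.mul_le_mul_right _ (by omega)
      omega
    have h4 := tsize_le_of_forall h3
    have h5 : F.length * ((2 * tsize x + 1) * (2 * tsize x + 2) + 1 + 1) ≤
        (tsize x + 1) * ((2 * tsize x + 1) * (2 * tsize x + 2) + 1 + 1) :=
      Nat.mul_le_mul_right _ (by omega)
    rw [tsize_pair]
    beta_reduce
    omega

theorem P2_good : PT (fun x : St => good x.2.1 x.2.2.2.2 (fst' x)) := by
  have h : PT (fun y : St × List ℕ => memE y.1.2.1 (y.2.headD 0, y.1.2.2.2.2)) :=
    pt_memE (PT.p1 (PT.p2 PT.fst)) (PT.pair (PT.headD PT.snd (PT.const 0))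
      (PT.p2 (PT.p2 (PT.p2 (PT.p2 PT.fst)))))
  exact PT.filter pt_fst h

theorem P2_hits : PT (fun x : St => hits x.2.1 (fst' x)) := by
  have h1 : PT (fun w : (St × List ℕ) × List ℕ =>
      memE w.1.1.2.1 (w.1.2.headD 0, w.2.headD 0)) :=
    pt_memE (PT.p1 (PT.p2 (PT.p1 PT.fst))) (PT.pair (PT.headD (PT.p2 PT.fst) (PT.const 0))
      (PT.headD PT.snd (PT.const 0)))
  have h2 : PT (fun w : (St × List ℕ) × List ℕ => (w.1.2, w.2)) :=
    PT.pair (PT.p2 PT.fst) PT.snd
  have h3 : PT (fun y : St × List ℕ => ((fst' y.1).filter fun q =>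
      memE y.1.2.1 (y.2.headD 0, q.headD 0)).map fun q => (y.2, q)) :=
    PT.map (PT.filter (pt_fst.comp PT.fst) h1) h2
  exact PT.flatMap pt_fst h3

theorem P2_hd : PT (fun x : St => (hits x.2.1 (fst' x)).headD ([], [])) :=
  PT.headD P2_hits (PT.const ([], []))

theorem pt_isRec : PT isRec :=
  PT.band (P2_isEmpty P2_good) (PT.bnot (P2_isEmpty P2_hits))

theorem pt_cycS : PT cycS := pt_cyc (PT.p1 P2_hd) (PT.p2 P2_hd)

theorem P2_stemS : PT stemS := pt_stem (PT.p1 P2_hd) (PT.p2 P2_hd)

theorem pt_next : PT next :=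
  PT.pair (pt_ctrV pt_cycS PT.fst) (PT.pair (pt_ctrE pt_cycS (PT.p1 PT.snd))
    (PT.pair (pt_ctrM pt_cycS (pt_sw (PT.p1 PT.snd) (PT.p1 (PT.p2 PT.snd)) P2_stemS))
      (PT.pair (PT.headD pt_cycS (PT.const 0)) (PT.p2 (PT.p2 (PT.p2 PT.snd))))))

theorem pt_base : PT base := by
  have hb : PT (fun y : St × List ℕ × List (List ℕ) => y.1.2.2.2.2) :=
    PT.p2 (PT.p2 (PT.p2 (PT.p2 PT.fst)))
  have hs : PT (fun y : St × List ℕ × List (List ℕ) => y.2.1.headD 0) :=
    PT.headD (PT.p1 PT.snd) (PT.const 0)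
  have h1 : PT (fun y : St × List ℕ × List (List ℕ) =>
      (true, (y.2.1.headD 0, y.1.2.2.2.2) :: (y.1.2.2.2.2, y.2.1.headD 0) ::
        sw y.1.2.1 y.1.2.2.1 y.2.1)) :=
    PT.pair (PT.const true) (PT.cons (PT.pair hs hb) (PT.cons (PT.pair hb hs)
      (pt_sw (PT.p1 (PT.p2 PT.fst)) (PT.p1 (PT.p2 (PT.p2 PT.fst))) (PT.p1 PT.snd))))
  have h := PT.listCases P2_good (f := fun _ => ((false, []) : Bool × List Ed)) (PT.const _) h1
  refine h.congr fun x => ?_
  unfold base
  cases good x.2.1 x.2.2.2.2 (fst' x) <;> rfl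

theorem pt_liftS : PT (fun y : St × Bool × List Ed => liftS y.1 y.2) :=
  PT.cond (PT.p1 PT.snd)
    (PT.pair (PT.const true) (pt_liftN (pt_cycS.comp PT.fst) (PT.p1 (PT.p2 PT.fst))
      (PT.p2 PT.snd)))
    (PT.const (false, []))

end Pool.Agent.EDM

end

section -- file EDM/P3

/-! **[EDM-P3]** Polynomial time: linear recursion. -/

namespace Pool.Agent.EDM

open Pool.Agent.Lib.helper60

variable {ι X R : Type} [DEnc ι] [DEnc X] [DEnc R]

/-- one step of the first phase -/
private def P3_step (c : X → Bool) (nx : X → X) (s : X × List X) : X × List X :=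
  bif c s.1 then (nx s.1, s.1 :: s.2) else s

omit [DEnc ι] [DEnc X] [DEnc R] in
private theorem P3_inv (c : X → Bool) (nx : X → X) (x : X) (i : ℕ) :
    (∃ j, j ≤ i ∧ ((P3_step c nx)^[i] (x, [])).1 = nx^[j] x) ∧
      ((P3_step c nx)^[i] (x, [])).2.length ≤ i ∧
      ∀ y ∈ ((P3_step c nx)^[i] (x, [])).2, ∃ j, j ≤ i ∧ y = nx^[j] x := by
  induction i with
  | zero => exact ⟨⟨0, le_rfl, rfl⟩, by simp, by simp⟩
  | succ i ih =>
    obtain ⟨⟨j, hj, h1⟩, h2, h3⟩ := ih
    rw [Function.iterate_succ_apply']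
    generalize (P3_step c nx)^[i] (x, []) = s at h1 h2 h3
    cases hc : c s.1 with
    | false =>
      have e : P3_step c nx s = s := by simp [P3_step, hc]
      rw [e]
      refine ⟨⟨j, by omega, h1⟩, by omega, ?_⟩
      intro y hy
      obtain ⟨j', hj', h⟩ := h3 y hy
      exact ⟨j', by omega, h⟩
    | true =>
      have e : P3_step c nx s = (nx s.1, s.1 :: s.2) := by simp [P3_step, hc]
      rw [e]
      refine ⟨⟨j + 1, by omega, ?_⟩, by simp only [List.length_cons]; omega, ?_⟩
      · rw [Function.iterate_succ_apply', ← h1]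
      · intro y hy
        rcases List.mem_cons.1 hy with hy | hy
        · exact ⟨j, by omega, hy.trans h1⟩
        · obtain ⟨j', hj', h⟩ := h3 y hy
          exact ⟨j', by omega, h⟩

omit [DEnc ι] [DEnc X] [DEnc R] in
private theorem P3_fix (c : X → Bool) (nx : X → X) (bs : X → R) (lf : X → R → R) (k : ℕ) (x : X)
    (h : c x = false) : lrec c nx bs lf k x = bs x := by
  cases k with
  | zero => rfl
  | succ k => simp [lrec, h]

omit [DEnc ι] [DEnc X] [DEnc R] in
private theorem P3_main (c : X → Bool) (nx : X → X) (bs : X → R) (lf : X → R → R) (k : ℕ) :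
    ∀ (x : X) (st : List X),
      ((P3_step c nx)^[k] (x, st)).2.foldl (fun r y => lf y r)
        (bs ((P3_step c nx)^[k] (x, st)).1) =
      st.foldl (fun r y => lf y r) (lrec c nx bs lf k x) := by
  induction k with
  | zero => intro x st; rfl
  | succ k ih =>
    intro x st
    rw [Function.iterate_succ_apply]
    cases hc : c x with
    | false =>
      have e : P3_step c nx (x, st) = (x, st) := by simp [P3_step, hc]
      rw [e, ih x st, P3_fix c nx bs lf k x hc, P3_fix c nx bs lf (k + 1) x hc]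
    | true =>
      have e : P3_step c nx (x, st) = (nx x, x :: st) := by simp [P3_step, hc]
      rw [e, ih (nx x) (x :: st), List.foldl_cons]
      have e2 : lrec c nx bs lf (k + 1) x = lf x (lrec c nx bs lf k (nx x)) := by
        simp [lrec, hc]
      rw [e2]

/-
PROOF. Phase 1: `PT.iterateNat` of the step `(x, st) ↦ bif c x then (nx x, x :: st) else (x, st)` on `X × List X` from
`(x0, [])`, `k` times; the `i`-th iterate is `(nx^[j] x0, [nx^[j-1] x0, ..., x0])` for some `j ≤ i`, so its size is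
polynomially bounded (`hb`, `tsize_le_of_forall`). Phase 2: `PT.foldl` over the stack with `g (·, r, y) = lf y r` from
`bs` of the last state; every value after the first step is `lf y r` with `y` in the stack, so its size is at most
`tsize y + K` (`hlf'`), the first one is `bs ..` (`PT.size` of `bs`). The result is `lrec c nx bs lf k x0`: by induction on `k`
for all `x` and stacks `st`: with `(x', st')` the `k`-th iterate from `(x, st)`,
`st'.foldl (fun r y => lf y r) (bs x') = st.foldl (fun r y => lf y r) (lrec c nx bs lf k x)`.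
-/
theorem pt_lrec {c : X → Bool} {nx : X → X} {bs : X → R} {lf : X → R → R} {k : ι → ℕ} {x0 : ι → X}
    (hc : PT c) (hnx : PT nx) (hbs : PT bs) (hlf : PT (fun y : X × R => lf y.1 y.2)) (hk : PT k)
    (hx0 : PT x0)
    (hb : ∃ t : ι → ℕ, PB t ∧ ∀ i j, j ≤ k i → tsize (nx^[j] (x0 i)) ≤ t i)
    (K : ℕ) (hlf' : ∀ x r, tsize (lf x r) ≤ tsize x + K) :
    PT (fun i => lrec c nx bs lf (k i) (x0 i)) := by
  obtain ⟨t, ht, hbt⟩ := hb
  have hkb : PB (fun i => k i) := hk.size.of_le fun i => by simp only [tsize_nat]; omega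
  have hstep : PT (P3_step c nx) :=
    PT.cond (hc.comp PT.fst) (PT.pair (hnx.comp PT.fst) (PT.cons PT.fst PT.snd)) PT.id
  have hS : PT (fun i => (P3_step c nx)^[k i] (x0 i, ([] : List X))) := by
    refine PT.iterateNat (count := k) (init := fun i => (x0 i, ([] : List X))) hk
      (PT.pair hx0 (PT.const [])) hstep
      ⟨fun i => t i + (k i * (t i + 1) + 1) + 1,
        ((ht.add ((hkb.mul (ht.add (PB.const 1))).add (PB.const 1))).add (PB.const 1)), ?_⟩
    intro i n hn
    obtain ⟨⟨j, hj, h1⟩, h2, h3⟩ := P3_inv c nx (x0 i) n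
    generalize (P3_step c nx)^[n] (x0 i, []) = s at h1 h2 h3
    have h4 : tsize s.1 ≤ t i := by rw [h1]; exact hbt i j (by omega)
    have h5 : ∀ y ∈ s.2, tsize y ≤ t i := by
      intro y hy
      obtain ⟨j', hj', rfl⟩ := h3 y hy
      exact hbt i j' (by omega)
    have h6 := tsize_le_of_forall h5
    have h7 : s.2.length * (t i + 1) ≤ k i * (t i + 1) := Nat.mul_le_mul_right _ (by omega)
    have h8 : tsize s = tsize s.1 + tsize s.2 + 1 := tsize_pair s.1 s.2
    beta_reduce
    omega
  have hF := PT.foldl (l := fun i => ((P3_step c nx)^[k i] (x0 i, ([] : List X))).2)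
    (init := fun i => bs ((P3_step c nx)^[k i] (x0 i, ([] : List X))).1)
    (g := fun y : ι × R × X => lf y.2.2 y.2.1) (PT.p2 hS) (hbs.comp (PT.p1 hS))
    (hlf.comp (PT.pair (PT.snd.comp PT.snd) (PT.fst.comp PT.snd)))
    ⟨fun i => tsize (bs ((P3_step c nx)^[k i] (x0 i, ([] : List X))).1) +
        (tsize ((P3_step c nx)^[k i] (x0 i, ([] : List X))).2 + K),
      (hbs.comp (PT.p1 hS)).size.add ((PT.p2 hS).size.add (PB.const K)), by
      intro i l₁ l₂ h
      beta_reduce
      rcases List.eq_nil_or_concat l₁ with rfl | ⟨u, b, rfl⟩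
      · rw [List.foldl_nil]
        omega
      · rw [List.concat_eq_append, List.foldl_append, List.foldl_cons, List.foldl_nil]
        have hb : b ∈ ((P3_step c nx)^[k i] (x0 i, ([] : List X))).2 := by
          rw [← h]
          simp
        have h1 := tsize_mem_lt hb
        refine (hlf' b _).trans ?_
        omega⟩
  refine hF.congr fun i => ?_
  exact P3_main c nx bs lf (k i) (x0 i) []

end Pool.Agent.EDM

end

section -- file EDM/P4

/-! **[EDM-P4]** Polynomial time: `aug` and `pm`. -/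

namespace Pool.Agent.EDM

open Pool.Agent.Lib.helper60

private theorem P4_headD {β : Type} {P : β → Prop} {l : List β} {d : β} (hd : P d)
    (h : ∀ x ∈ l, P x) : P (l.headD d) := by
  cases l with
  | nil => exact hd
  | cons x l => exact h x List.mem_cons_self

private theorem P4_fst {m L : ℕ} {x : St} (h : Bd m L x) : ∀ p ∈ fst' x, ∀ v ∈ p, v ≤ m := by
  intro p hp
  exact ((bd_forest h x.1.length).2 p hp).2

private theorem P4_hits {E : List Ed} {F : List (List ℕ)} {y : List ℕ × List ℕ}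
    (h : y ∈ hits E F) : y.1 ∈ F ∧ y.2 ∈ F := by
  simp only [hits, List.mem_flatMap, List.mem_map, List.mem_filter] at h
  obtain ⟨p, hp, q, ⟨hq, _⟩, rfl⟩ := h
  exact ⟨hp, hq⟩

private theorem P4_hd {m L : ℕ} {x : St} (h : Bd m L x) :
    (∀ v ∈ ((hits x.2.1 (fst' x)).headD ([], [])).1, v ≤ m) ∧
      ∀ v ∈ ((hits x.2.1 (fst' x)).headD ([], [])).2, v ≤ m :=
  P4_headD (P := fun y : List ℕ × List ℕ => (∀ v ∈ y.1, v ≤ m) ∧ ∀ v ∈ y.2, v ≤ m)
    ⟨by simp, by simp⟩
    (fun y hy => ⟨P4_fst h _ (P4_hits hy).1, P4_fst h _ (P4_hits hy).2⟩)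

private theorem P4_cyc {m L : ℕ} {x : St} (h : Bd m L x) : (cycS x).headD 0 ≤ m := by
  have h1 := (P4_hd h).1
  change (stem _ _).headD 0 ≤ m
  exact P4_headD (P := fun v => v ≤ m) (Nat.zero_le _)
    (fun v hv => h1 v (List.mem_of_mem_filter hv))

private theorem P4_rel {m c v : ℕ} (C : List ℕ) (hc : c ≤ m) (hv : v ≤ m) : rel C c v ≤ m := by
  unfold rel
  cases memN C v with
  | false => exact hv
  | true => exact hc

/- PROOF. `V`, `E`, `M` shrink in length (`ctrM` of `sw` is a part of `E`); the numbers in the new state are numbers of the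
old one, or members of paths of the tree (`bd_forest`), or `0` (`headD`). The lists `p, q` of `hits` are members of the tree
(or `[]`). -/
theorem bd_next {m L : ℕ} {x : St} (h : Bd m L x) : Bd m L (next x) := by
  have hc := P4_cyc h
  constructor
  · intro v hv
    exact h.v v (List.mem_of_mem_filter hv)
  · intro e he
    obtain ⟨e', he', rfl⟩ := List.mem_map.1 (List.mem_of_mem_filter he)
    have h2 := h.e e' he'
    exact ⟨P4_rel _ hc h2.1, P4_rel _ hc h2.2⟩
  · intro e he
    exact h.e e (List.mem_of_mem_filter (List.mem_of_mem_filter he))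
  · exact hc
  · exact h.b
  · exact (List.length_filter_le _ _).trans h.lv
  · refine (List.length_filter_le _ _).trans ?_
    rw [List.length_map]
    exact h.le
  · exact (List.length_filter_le _ _).trans ((List.length_filter_le _ _).trans h.le)

private theorem P4_iter {m L : ℕ} {x : St} (h : Bd m L x) (j : ℕ) : Bd m L (next^[j] x) := by
  induction j with
  | zero => exact h
  | succ j ih =>
    rw [Function.iterate_succ_apply']
    exact bd_next ih

private theorem P4_tsize_filter {β : Type} [DEnc β] (p : β → Bool) (l : List β) :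
    tsize (l.filter p) ≤ tsize l := by
  induction l with
  | nil => exact le_rfl
  | cons x l ih =>
    rw [List.filter_cons]
    split
    · simp only [tsize_cons]
      omega
    · simp only [tsize_cons]
      omega

private theorem P4_lift (x : St) (r : Bool × List Ed) : tsize (liftS x r) ≤ tsize x + 5 := by
  obtain ⟨V, E, M, a, b⟩ := x
  obtain ⟨r1, r2⟩ := r
  have h0 := tsize_pos V
  cases r1 with
  | false =>
    change tsize (false, ([] : List Ed)) ≤ _
    have h1 := tsize_bool_le false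
    simp only [tsize_pair, tsize_nil]
    omega
  | true =>
    change tsize (true, liftN (cycS (V, E, M, a, b)) E r2) ≤ _
    have h1 := tsize_bool_le true
    have h2 : tsize (liftN (cycS (V, E, M, a, b)) E r2) ≤ tsize E := P4_tsize_filter _ _
    simp only [tsize_pair]
    omega

/- PROOF. `pt_lrec` with `k x = x.1.length`, bound `bd_self`, `bd_next`, `bd_size`; `liftS` returns a part of `E` or `[]`. -/
theorem pt_aug : PT aug := by
  refine pt_lrec (ι := St) (k := fun x => x.1.length) (x0 := fun x => x) pt_isRec pt_next pt_base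
    pt_liftS (PT.length PT.fst) PT.id
    ⟨fun x => 3 * (tsize x * (4 * tsize x + 4) + 1) + 4 * tsize x + 6, ?_, ?_⟩ 5 P4_lift
  · exact (((PB.const 3).mul ((PB.tsize.mul (((PB.const 4).mul PB.tsize).add (PB.const 4))).add
      (PB.const 1))).add ((PB.const 4).mul PB.tsize)).add (PB.const 6)
  · intro x j _
    exact bd_size (P4_iter (bd_self x) j)

private theorem P4_base {m L : ℕ} {x : St} (h : Bd m L x) :
    (base x).2.length ≤ L + 2 ∧ ∀ e ∈ (base x).2, e.1 ≤ m ∧ e.2 ≤ m := by
  unfold base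
  split
  · exact ⟨by simp, by simp⟩
  · rename_i p l hp
    have hp1 : p ∈ fst' x := by
      have : p ∈ good x.2.1 x.2.2.2.2 (fst' x) := by rw [hp]; exact List.mem_cons_self
      exact List.mem_of_mem_filter this
    have hp2 : p.headD 0 ≤ m := P4_headD (P := fun v => v ≤ m) (Nat.zero_le _) (P4_fst h p hp1)
    have h1 : (sw x.2.1 x.2.2.1 p).length ≤ L := (List.length_filter_le _ _).trans h.le
    constructor
    · simp only [List.length_cons]
      omega
    · intro e he
      rcases List.mem_cons.1 he with rfl | he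
      · exact ⟨hp2, h.b⟩
      · rcases List.mem_cons.1 he with rfl | he
        · exact ⟨h.b, hp2⟩
        · exact h.e e (List.mem_of_mem_filter he)

private theorem P4_lrec {m L : ℕ} (k : ℕ) : ∀ {x : St}, Bd m L x →
    (lrec isRec next base liftS k x).2.length ≤ L + 2 ∧
      ∀ e ∈ (lrec isRec next base liftS k x).2, e.1 ≤ m ∧ e.2 ≤ m := by
  cases k with
  | zero => intro x h; exact P4_base h
  | succ k =>
    intro x h
    cases hc : isRec x with
    | false =>
      have e : lrec isRec next base liftS (k + 1) x = base x := by simp [lrec, hc]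
      rw [e]
      exact P4_base h
    | true =>
      have e : lrec isRec next base liftS (k + 1) x =
          liftS x (lrec isRec next base liftS k (next x)) := by simp [lrec, hc]
      rw [e]
      generalize lrec isRec next base liftS k (next x) = r
      obtain ⟨r1, r2⟩ := r
      cases r1 with
      | false => exact ⟨by simp [liftS], by simp [liftS]⟩
      | true =>
        constructor
        · exact (List.length_filter_le _ _).trans (h.le.trans (by omega))
        · intro e he
          exact h.e e (List.mem_of_mem_filter he)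

/- PROOF. `aug` returns `(false, [])`, or `liftN ..`, a part of `E`, or `base`. For the bound: the second component of
`base x` has at most `x.2.1.length + 2` pairs of numbers `≤ m`. -/
theorem bd_aug {m L : ℕ} {x : St} (h : Bd m L x) :
    (aug x).2.length ≤ L + 2 ∧ ∀ e ∈ (aug x).2, e.1 ≤ m ∧ e.2 ≤ m :=
  P4_lrec _ h

/-! ### halving -/

private def P4_half (s : ℕ × Bool) : ℕ × Bool := bif s.2 then (s.1 + 1, false) else (s.1, true)

private theorem P4_half_it (i : ℕ) : P4_half^[i] (0, false) = (i / 2, decide (i % 2 = 1)) := by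
  induction i with
  | zero => rfl
  | succ i ih =>
    rw [Function.iterate_succ_apply', ih]
    rcases Nat.mod_two_eq_zero_or_one i with h | h
    · have h1 : (i + 1) / 2 = i / 2 := by omega
      have h2 : (i + 1) % 2 = 1 := by omega
      simp [P4_half, h, h1, h2]
    · have h1 : (i + 1) / 2 = i / 2 + 1 := by omega
      have h2 : (i + 1) % 2 = 0 := by omega
      simp [P4_half, h, h1, h2]

private theorem P4_pt_half {ι : Type} [DEnc ι] {n : ι → ℕ} (hn : PT n) :
    PT (fun x => (n x / 2, decide (n x % 2 = 1))) := by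
  have hs : PT P4_half :=
    PT.cond PT.snd (PT.pair (PT.nsucc PT.fst) (PT.const false)) (PT.pair PT.fst (PT.const true))
  have h := PT.iterateNat (count := n) (init := fun _ => ((0 : ℕ), false)) hn (PT.const _) hs
    ⟨fun x => tsize (n x) + 3 + 1, (hn.size.add (PB.const 3)).add (PB.const 1), by
      intro x i hi
      rw [P4_half_it]
      have h1 := tsize_bool_le (decide (i % 2 = 1))
      simp only [tsize_pair, tsize_nat]
      omega⟩
  exact h.congr fun x => P4_half_it (n x)

private theorem P4_pt_div {ι : Type} [DEnc ι] {n : ι → ℕ} (hn : PT n) :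
    PT (fun x => n x / 2) := PT.p1 (P4_pt_half hn)

private theorem P4_pt_even {ι : Type} [DEnc ι] {n : ι → ℕ} (hn : PT n) :
    PT (fun x => decide (n x % 2 = 0)) := by
  refine (PT.bnot (PT.p2 (P4_pt_half hn))).congr fun x => ?_
  rcases Nat.mod_two_eq_zero_or_one (n x) with h | h
  · simp [h]
  · simp [h]

private theorem P4_pt_dbl {ι : Type} [DEnc ι] {n : ι → ℕ} (hn : PT n) :
    PT (fun x => 2 * n x) := PT.nmul (PT.const 2) hn

/-! ### the pieces of `pm` -/

private theorem P4_pt_full : PT (fun x : ℕ × List Ed => full x.1 x.2) := by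
  have hr : PT (fun x : (ℕ × List Ed) × ℕ => List.range (2 * x.1.1)) :=
    PT.range (P4_pt_dbl (PT.fst.comp PT.fst))
  -- `((n, E), u), v`
  have hp : PT (fun y : ((ℕ × List Ed) × ℕ) × ℕ => !decide (y.1.2 = y.2) &&
      ((decide (y.1.1.1 ≤ y.1.2) || decide (y.1.1.1 ≤ y.2)) ||
        (memE y.1.1.2 (y.1.2, y.2) || memE y.1.1.2 (y.2, y.1.2)))) := by
    have hu : PT (fun y : ((ℕ × List Ed) × ℕ) × ℕ => y.1.2) := PT.p2 PT.fst
    have hv : PT (fun y : ((ℕ × List Ed) × ℕ) × ℕ => y.2) := PT.snd
    have hn : PT (fun y : ((ℕ × List Ed) × ℕ) × ℕ => y.1.1.1) := PT.p1 (PT.p1 PT.fst)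
    have hE : PT (fun y : ((ℕ × List Ed) × ℕ) × ℕ => y.1.1.2) := PT.p2 (PT.p1 PT.fst)
    exact PT.band (PT.bnot (PT.neq hu hv)) (PT.bor (PT.bor (PT.nle hn hu) (PT.nle hn hv))
      (PT.bor (pt_memE hE (PT.pair hu hv)) (pt_memE hE (PT.pair hv hu))))
  have hm : PT (fun y : ((ℕ × List Ed) × ℕ) × ℕ => (y.1.2, y.2)) :=
    PT.pair (PT.p2 PT.fst) PT.snd
  exact PT.flatMap (l := fun x : ℕ × List Ed => List.range (2 * x.1))
    (PT.range (P4_pt_dbl PT.fst)) (PT.map (PT.filter hr hp) hm)

private theorem P4_pt_triv : PT triv := by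
  have hg : PT (fun y : ℕ × ℕ => [(y.2, y.1 + y.2), (y.1 + y.2, y.2)]) :=
    PT.cons (PT.pair PT.snd (PT.nadd PT.fst PT.snd))
      (PT.cons (PT.pair (PT.nadd PT.fst PT.snd) PT.snd) (PT.const []))
  exact PT.flatMap (l := fun n : ℕ => List.range n) (PT.range PT.id) hg

private theorem P4_pt_hE {ι : Type} [DEnc ι] {m : ι → ℕ} {E : ι → List Ed} (hm : PT m)
    (h : PT E) : PT (fun x => hE (m x) (E x)) := by
  have hp : PT (fun y : ι × Ed => decide (y.2.1 < m y.1) && decide (y.2.2 < m y.1)) :=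
    PT.band (PT.nlt (PT.p1 PT.snd) (hm.comp PT.fst)) (PT.nlt (PT.p2 PT.snd) (hm.comp PT.fst))
  exact PT.filter h hp

private theorem P4_pt_hstep :
    PT (fun y : List Ed × Bool × ℕ × List Ed => hstep y.1 y.2) := by
  have hEE : PT (fun y : List Ed × Bool × ℕ × List Ed => y.1) := PT.fst
  have hs : PT (fun y : List Ed × Bool × ℕ × List Ed => y.2) := PT.snd
  have hb : PT (fun y : List Ed × Bool × ℕ × List Ed => y.2.1) := PT.p1 PT.snd
  have hm : PT (fun y : List Ed × Bool × ℕ × List Ed => y.2.2.1) := PT.p1 (PT.p2 PT.snd)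
  have hM : PT (fun y : List Ed × Bool × ℕ × List Ed => y.2.2.2) := PT.p2 (PT.p2 PT.snd)
  have hm2 : PT (fun y : List Ed × Bool × ℕ × List Ed => y.2.2.1 - 2) :=
    PT.nsub hm (PT.const 2)
  have hr : PT (fun y : List Ed × Bool × ℕ × List Ed =>
      aug (hV y.2.2.1, hE y.2.2.1 y.1, hE y.2.2.1 y.2.2.2, mate y.2.2.2 (y.2.2.1 + 1),
        mate y.2.2.2 y.2.2.1)) :=
    pt_aug.comp (PT.pair (PT.range hm) (PT.pair (P4_pt_hE hm hEE) (PT.pair (P4_pt_hE hm hM)
      (PT.pair (pt_mate hM (PT.nsucc hm)) (pt_mate hM hm)))))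
  exact PT.cond hb (PT.cond (pt_memE hM (PT.pair (PT.nsucc hm) hm))
    (PT.pair (PT.const true) (PT.pair hm2 (P4_pt_hE hm hM)))
    (PT.pair (PT.p1 hr) (PT.pair hm2 (PT.p2 hr)))) hs

private theorem P4_mate {M : List Ed} {v m : ℕ} (h : ∀ e ∈ M, e.1 ≤ m ∧ e.2 ≤ m) :
    mate M v ≤ m := by
  unfold mate
  refine P4_headD (P := fun v => v ≤ m) (Nat.zero_le _) ?_
  intro w hw
  obtain ⟨e, he, rfl⟩ := List.mem_map.1 hw
  exact (h e (List.mem_of_mem_filter he)).2

/-- bounds for the state of `pm` -/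
private def P4_Inv (n L : ℕ) (s : Bool × ℕ × List Ed) : Prop :=
  s.2.1 ≤ 2 * n ∧ s.2.2.length ≤ L ∧ ∀ e ∈ s.2.2, e.1 ≤ 2 * n ∧ e.2 ≤ 2 * n

private theorem P4_inv_step {n L : ℕ} {EE : List Ed} {s : Bool × ℕ × List Ed}
    (hEE : EE.length ≤ L) (hn : 2 * n ≤ L) (h : P4_Inv n L s) : P4_Inv n (L + 2) (hstep EE s) := by
  obtain ⟨s1, m, M⟩ := s
  obtain ⟨h1, h2, h3⟩ := h
  dsimp only at h1 h2 h3
  cases s1 with
  | false => exact ⟨h1, h2.trans (by omega), h3⟩
  | true =>
    cases hc : memE M (m + 1, m) with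
    | true =>
      have e : hstep EE (true, m, M) = (true, m - 2, hE m M) := by simp [hstep, hc]
      rw [e]
      refine ⟨by dsimp only; omega, ?_, ?_⟩
      · exact (List.length_filter_le _ _).trans (h2.trans (by omega))
      · intro e he
        exact h3 e (List.mem_of_mem_filter he)
    | false =>
      have e : hstep EE (true, m, M) =
          ((aug (hV m, hE m EE, hE m M, mate M (m + 1), mate M m)).1, m - 2,
            (aug (hV m, hE m EE, hE m M, mate M (m + 1), mate M m)).2) := by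
        simp [hstep, hc]
      rw [e]
      have hB : Bd (2 * n) L (hV m, hE m EE, hE m M, mate M (m + 1), mate M m) := by
        constructor
        · intro v hv
          have := List.mem_range.1 hv
          omega
        · intro e he
          have he := (List.mem_filter.1 he).2
          simp only [Bool.and_eq_true, decide_eq_true_eq] at he
          omega
        · intro e he
          exact h3 e (List.mem_of_mem_filter he)
        · exact P4_mate h3
        · exact P4_mate h3
        · change (List.range m).length ≤ L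
          rw [List.length_range]
          omega
        · exact (List.length_filter_le _ _).trans hEE
        · exact (List.length_filter_le _ _).trans h2
      have hA := bd_aug hB
      exact ⟨by dsimp only; omega, hA.1, hA.2⟩

private theorem P4_inv_iter {n L : ℕ} {EE : List Ed} (s : Bool × ℕ × List Ed)
    (hEE : EE.length ≤ L) (hn : 2 * n ≤ L) (h : P4_Inv n L s) (i : ℕ) :
    P4_Inv n (L + 2 * i) ((hstep EE)^[i] s) := by
  induction i with
  | zero => exact h
  | succ i ih =>
    rw [Function.iterate_succ_apply']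
    have := P4_inv_step (EE := EE) (by omega) (by omega) ih
    have e : L + 2 * i + 2 = L + 2 * (i + 1) := by ring
    rwa [e] at this

private theorem P4_triv_length (n : ℕ) : (triv n).length = 2 * n := by
  unfold triv
  rw [List.length_flatMap]
  simp
  omega

private theorem P4_pair_it (EE : List Ed) (s : Bool × ℕ × List Ed) (i : ℕ) :
    (fun y : List Ed × Bool × ℕ × List Ed => (y.1, hstep y.1 y.2))^[i] (EE, s) =
      (EE, (hstep EE)^[i] s) := by
  induction i with
  | zero => rfl
  | succ i ih => rw [Function.iterate_succ_apply', Function.iterate_succ_apply', ih]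

/- PROOF. `PT.iterateNat` for the state `(full n E, s)`; bound: `s.2.1 ≤ 2 * n`, the third component has at most
`4 * n ^ 2 + 2 * n + 2` pairs of numbers `< 2 * n + 1` (`bd_aug`; `hE` shrinks; `(full n E).length ≤ (2 * n) ^ 2`). -/
theorem pt_pm : PT (fun x : ℕ × List Ed => pm x.1 x.2) := by
  have hn : PT (fun x : ℕ × List Ed => x.1) := PT.fst
  have hnb : PB (fun x : ℕ × List Ed => x.1) := hn.size.of_le fun i => by
    simp only [tsize_nat]; omega
  have hfull := P4_pt_full
  have hF : PB (fun x : ℕ × List Ed => tsize (full x.1 x.2)) := hfull.size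
  -- bound for the length of the third component
  have hL : PB (fun x : ℕ × List Ed => tsize (full x.1 x.2) + 2 * x.1 + 2 * x.1) :=
    (hF.add ((PB.const 2).mul hnb)).add ((PB.const 2).mul hnb)
  have hinit : PT (fun x : ℕ × List Ed => (full x.1 x.2, true, 2 * x.1 - 2, triv x.1)) :=
    PT.pair hfull (PT.pair (PT.const true) (PT.pair (PT.nsub (P4_pt_dbl hn) (PT.const 2))
      (P4_pt_triv.comp hn)))
  have hstp : PT (fun y : List Ed × Bool × ℕ × List Ed => (y.1, hstep y.1 y.2)) :=
    PT.pair PT.fst P4_pt_hstep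
  have hit := PT.iterateNat (count := fun x : ℕ × List Ed => x.1 / 2)
    (init := fun x : ℕ × List Ed => (full x.1 x.2, true, 2 * x.1 - 2, triv x.1))
    (step := fun y : List Ed × Bool × ℕ × List Ed => (y.1, hstep y.1 y.2))
    (P4_pt_div hn) hinit hstp
    ⟨fun x => tsize (full x.1 x.2) + (3 + ((4 * x.1 + 1) +
        ((tsize (full x.1 x.2) + 2 * x.1 + 2 * x.1) * (8 * x.1 + 3 + 1) + 1) + 1) + 1) + 1,
      (hF.add (((PB.const 3).add (((((PB.const 4).mul hnb).add (PB.const 1)).add
        ((hL.mul ((((PB.const 8).mul hnb).add (PB.const 3)).add (PB.const 1))).add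
          (PB.const 1))).add (PB.const 1))).add (PB.const 1))).add (PB.const 1), by
      intro x i hi
      obtain ⟨n, E⟩ := x
      dsimp only at hi ⊢
      rw [P4_pair_it]
      have hlen : (full n E).length ≤ tsize (full n E) := (length_lt_tsize _).le
      have h0 : P4_Inv n (tsize (full n E) + 2 * n) (true, 2 * n - 2, triv n) := by
        refine ⟨by dsimp only; omega, ?_, ?_⟩
        · dsimp only
          rw [P4_triv_length]
          omega
        · intro e he
          simp only [triv, List.mem_flatMap, List.mem_range] at he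
          obtain ⟨a, ha, he⟩ := he
          simp only [List.mem_cons, List.not_mem_nil, or_false] at he
          rcases he with rfl | rfl
          · dsimp only; omega
          · dsimp only; omega
      have h1 := P4_inv_iter (EE := full n E) _ (by omega) (by omega) h0 i
      generalize (hstep (full n E))^[i] (true, 2 * n - 2, triv n) = s at h1
      obtain ⟨b, m, M⟩ := s
      obtain ⟨h2, h3, h4⟩ := h1
      dsimp only at h2 h3 h4
      have h5 : ∀ e ∈ M, tsize e ≤ 8 * n + 3 := by
        intro e he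
        obtain ⟨e1, e2⟩ := e
        have := h4 _ he
        simp only [tsize_pair, tsize_nat]
        dsimp only at this
        omega
      have h6 := tsize_le_of_forall h5
      have h7 : M.length ≤ tsize (full n E) + 2 * n + 2 * n := by omega
      have h8 : M.length * (8 * n + 3 + 1) ≤
          (tsize (full n E) + 2 * n + 2 * n) * (8 * n + 3 + 1) := Nat.mul_le_mul_right _ h7
      have h9 := tsize_bool_le b
      simp only [tsize_pair, tsize_nat]
      omega⟩
  have hs : PT (fun x : ℕ × List Ed =>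
      (hstep (full x.1 x.2))^[x.1 / 2] (true, 2 * x.1 - 2, triv x.1)) := by
    refine (PT.p2 hit).congr fun x => ?_
    rw [P4_pair_it]
  exact PT.cond (P4_pt_even hn) (PT.pair (PT.p1 hs) (PT.p2 (PT.p2 hs))) (PT.const (false, []))

end Pool.Agent.EDM

end

section -- file EDM/Gra

/-!
# Perfect matchings in polynomial time: the interface for simple graphs

`pt_pm : PT (fun x : ℕ × List Ed => pm x.1 x.2)` (file `P4`) and `pm_graph`: if `φ` is a bijection of the vertices of `G`
onto `0, ..., n - 1` and `E` is a list of the edges, `(pm n E).1` decides whether `G` has a perfect matching, and then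
`(pm n E).2` is the list of its edges (in both directions).
-/

set_option autoImplicit false

namespace Pool.Agent.EDM

theorem gra_mem (n : ℕ) (E : List Ed) (u v : ℕ) :
    (u, v) ∈ hE n (full n E) ↔ u < n ∧ v < n ∧ u ≠ v ∧ ((u, v) ∈ E ∨ (v, u) ∈ E) := by
  simp only [hE, full, List.mem_filter, List.mem_flatMap, List.mem_range, List.mem_map, Bool.and_eq_true,
    Bool.or_eq_true, Bool.not_eq_true', decide_eq_true_eq, decide_eq_false_iff_not, memE_iff, Prod.mk.injEq]
  constructor
  · rintro ⟨⟨a, _, b, ⟨_, h3, h4⟩, rfl, rfl⟩, h1, h2⟩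
    refine ⟨h1, h2, h3, ?_⟩
    rcases h4 with (h4 | h4) | h4
    · omega
    · omega
    · exact h4
  · rintro ⟨h1, h2, h3, h4⟩
    exact ⟨⟨u, by omega, v, ⟨by omega, h3, Or.inr h4⟩, rfl, rfl⟩, h1, h2⟩

theorem pm_iff (n : ℕ) (E : List Ed) :
    (pm n E).1 = true ↔ ∃ N, PM (hV n) (hE n (full n E)) N := by
  constructor
  · intro h
    exact ⟨_, (pm_spec n E).1 h⟩
  · intro h
    by_contra h1
    exact (pm_spec n E).2 (by simpa using h1) h

section
variable {W : Type*} (G : SimpleGraph W) (n : ℕ) (φ : W → ℕ) (E : List Ed)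

/-- the list of pairs `N` is a perfect matching of `G` (via `φ`) -/
structure IsPMof (N : List Ed) : Prop where
  sub : ∀ u v : W, (φ u, φ v) ∈ N → G.Adj u v
  rng : ∀ i j : ℕ, (i, j) ∈ N → ∃ u v : W, φ u = i ∧ φ v = j
  symm : ∀ i j : ℕ, (i, j) ∈ N → (j, i) ∈ N
  ex : ∀ u : W, ∃! v : W, (φ u, φ v) ∈ N

variable {G n φ E}

theorem gra_pm (hφ : Function.Injective φ) (hr : ∀ w, φ w < n) (hs : ∀ i < n, ∃ w, φ w = i)
    (hE' : ∀ u v : W, G.Adj u v ↔ u ≠ v ∧ ((φ u, φ v) ∈ E ∨ (φ v, φ u) ∈ E)) (N : List Ed) :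
    PM (hV n) (hE n (full n E)) N ↔ IsPMof G φ N := by
  have hadj : ∀ u v : W, (φ u, φ v) ∈ hE n (full n E) ↔ G.Adj u v := by
    intro u v
    rw [gra_mem, hE']
    constructor
    · rintro ⟨_, _, h3, h4⟩
      exact ⟨fun h => h3 (by rw [h]), h4⟩
    · rintro ⟨h3, h4⟩
      exact ⟨hr u, hr v, fun h => h3 (hφ h), h4⟩
  constructor
  · intro h
    refine ⟨?_, ?_, h.mt.symm, ?_⟩
    · intro u v huv
      exact (hadj u v).1 (h.mt.sub _ _ huv)
    · intro i j hij
      have h1 := (gra_mem n E i j).1 (h.mt.sub _ _ hij)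
      obtain ⟨u, hu⟩ := hs i h1.1
      obtain ⟨v, hv⟩ := hs j h1.2.1
      exact ⟨u, v, hu, hv⟩
    · intro u
      obtain ⟨w, hw⟩ := h.cov (φ u) (List.mem_range.2 (hr u))
      have h1 := (gra_mem n E _ _).1 (h.mt.sub _ _ hw)
      obtain ⟨v, rfl⟩ := hs w h1.2.1
      refine ⟨v, hw, ?_⟩
      intro v' hv'
      exact hφ (h.mt.func _ _ _ hv' hw)
  · intro h
    refine ⟨⟨?_, h.symm, ?_⟩, ?_⟩
    · intro i j hij
      obtain ⟨u, v, rfl, rfl⟩ := h.rng i j hij
      exact (hadj u v).2 (h.sub u v hij)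
    · intro i j k hij hik
      obtain ⟨u, v, rfl, rfl⟩ := h.rng i j hij
      obtain ⟨u', v', h1, rfl⟩ := h.rng _ k hik
      obtain rfl := hφ h1
      rw [(h.ex u').unique hij hik]
    · intro i hi
      obtain ⟨u, rfl⟩ := hs i (List.mem_range.1 hi)
      obtain ⟨v, hv, _⟩ := h.ex u
      exact ⟨φ v, hv⟩

theorem isPMof_sub {N : List Ed} (h : IsPMof G φ N) : ∃ M : G.Subgraph, M.IsPerfectMatching ∧ ∀ u v, M.Adj u v ↔ (φ u, φ v) ∈ N := by
  refine ⟨⟨Set.univ, fun u v => (φ u, φ v) ∈ N, fun {u v} huv => h.sub u v huv, fun _ => Set.mem_univ _,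
    ⟨fun u v huv => h.symm _ _ huv⟩⟩, ?_, fun u v => Iff.rfl⟩
  rw [SimpleGraph.Subgraph.isPerfectMatching_iff]
  exact h.ex

theorem sub_isPMof [Finite W] (hφ : Function.Injective φ) {M : G.Subgraph} (hM : M.IsPerfectMatching) : ∃ N, IsPMof G φ N := by
  classical
  have := Fintype.ofFinite W
  rw [SimpleGraph.Subgraph.isPerfectMatching_iff] at hM
  obtain ⟨l, hl⟩ : ∃ l : List (W × W), ∀ u v, (u, v) ∈ l ↔ M.Adj u v :=
    ⟨((Finset.univ : Finset (W × W)).filter fun p => M.Adj p.1 p.2).toList, fun u v => by simp⟩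
  have key : ∀ u v : W, (φ u, φ v) ∈ l.map (fun p => (φ p.1, φ p.2)) ↔ M.Adj u v := by
    intro u v
    rw [List.mem_map]
    constructor
    · rintro ⟨p, hp, h⟩
      rw [Prod.mk.injEq] at h
      rw [← hφ h.1, ← hφ h.2]
      exact (hl _ _).1 hp
    · intro h
      exact ⟨(u, v), (hl _ _).2 h, rfl⟩
  refine ⟨l.map (fun p => (φ p.1, φ p.2)), ?_, ?_, ?_, ?_⟩
  · intro u v h
    exact ((key u v).1 h).adj_sub
  · intro i j h
    rw [List.mem_map] at h
    obtain ⟨p, _, h⟩ := h
    rw [Prod.mk.injEq] at h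
    exact ⟨p.1, p.2, h.1, h.2⟩
  · intro i j h
    have h' := h
    rw [List.mem_map] at h
    obtain ⟨p, _, h⟩ := h
    rw [Prod.mk.injEq] at h
    rw [← h.1, ← h.2] at h' ⊢
    rw [key] at h' ⊢
    exact h'.symm
  · intro u
    obtain ⟨v, hv, hv'⟩ := hM u
    exact ⟨v, (key u v).2 hv, fun w hw => hv' w ((key u w).1 hw)⟩

/-- `pm` decides whether `G` has a perfect matching -/
theorem pm_graph (hφ : Function.Injective φ) (hr : ∀ w, φ w < n) (hs : ∀ i < n, ∃ w, φ w = i)
    (hE' : ∀ u v : W, G.Adj u v ↔ u ≠ v ∧ ((φ u, φ v) ∈ E ∨ (φ v, φ u) ∈ E)) :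
    (pm n E).1 = true ↔ ∃ M : G.Subgraph, M.IsPerfectMatching := by
  have hfin : Finite W := Finite.of_injective (fun w => (⟨φ w, hr w⟩ : Fin n)) (fun a b h => hφ (congrArg Fin.val h))
  rw [pm_iff]
  constructor
  · rintro ⟨N, hN⟩
    obtain ⟨M, hM, _⟩ := isPMof_sub ((gra_pm hφ hr hs hE' N).1 hN)
    exact ⟨M, hM⟩
  · rintro ⟨M, hM⟩
    obtain ⟨N, hN⟩ := sub_isPMof hφ hM
    exact ⟨N, (gra_pm hφ hr hs hE' N).2 hN⟩

end

end Pool.Agent.EDM

end

section -- file PF4/GadG

/-!
2-factors without 4-cycles: the matching gadget with degree intervals (the graph part). A unit `i` has two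
nodes `(i, false)`, `(i, true)`; every vertex has `K` copies, `K` even; the copies which need not be covered
form a clique.
-/

set_option autoImplicit false
set_option linter.unusedSectionVars false

namespace Pool.Agent.PF4.Gd

open Finset

variable {V I : Type*} [Fintype V] [DecidableEq V] [Fintype I] [DecidableEq I] {K : ℕ}

/-- the nodes -/
abbrev Nod (V I : Type*) (K : ℕ) := (V × Fin K) ⊕ (I × Bool)

/-- the relation which generates the gadget graph -/
def gr (A : I × Bool → V → Prop) (lo hi : V → ℕ) (α β : Nod V I K) : Prop :=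
  match α, β with
  | .inr (i, false), .inr (j, true) => i = j
  | .inr p, .inl (v, c) => A p v ∧ (c : ℕ) < hi v
  | .inl p, .inl q => lo p.1 ≤ p.2 ∧ lo q.1 ≤ q.2
  | _, _ => False

/-- the gadget graph -/
def gG (A : I × Bool → V → Prop) (lo hi : V → ℕ) : SimpleGraph (Nod V I K) :=
  SimpleGraph.fromRel (gr A lo hi)

/-- selections: for each unit nothing or a pair of end points -/
structure GSel (A : I × Bool → V → Prop) (lo hi : V → ℕ) (g : I × Bool → Option V) : Prop where
  pair : ∀ i, g (i, false) = none ↔ g (i, true) = none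
  mem : ∀ p v, g p = some v → A p v
  lo : ∀ v, lo v ≤ #{p | g p = some v}
  hi : ∀ v, #{p | g p = some v} ≤ hi v

/-- the selection of an involution -/
def rd (m : Nod V I K → Nod V I K) (p : I × Bool) : Option V :=
  match m (.inr p) with
  | .inl q => some q.1
  | .inr _ => none

theorem rd_some {m : Nod V I K → Nod V I K} {p : I × Bool} {v : V} :
    rd m p = some v ↔ ∃ c, m (.inr p) = .inl (v, c) := by
  unfold rd
  rcases h : m (.inr p) with ⟨w, c⟩ | q
  · simp
  · simp

theorem rd_none {m : Nod V I K → Nod V I K} {p : I × Bool} :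
    rd m p = none ↔ ∃ q, m (.inr p) = .inr q := by
  unfold rd
  rcases h : m (.inr p) with ⟨w, c⟩ | q
  · simp
  · simp

theorem gG_rr {A : I × Bool → V → Prop} {lo hi : V → ℕ} {p q : I × Bool}
    (h : (gG (K := K) A lo hi).Adj (.inr p) (.inr q)) : q = (p.1, !p.2) := by
  obtain ⟨i, b⟩ := p
  obtain ⟨j, c⟩ := q
  rw [gG, SimpleGraph.fromRel_adj] at h
  rcases b with _ | _ <;> rcases c with _ | _ <;> simp only [gr] at h ⊢
  · simp at h
  · rcases h.2 with h | h
    · simp [h]
    · exact h.elim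
  · rcases h.2 with h | h
    · exact h.elim
    · simp [h]
  · simp at h

theorem gG_rl {A : I × Bool → V → Prop} {lo hi : V → ℕ} {p : I × Bool} {q : V × Fin K} :
    (gG A lo hi).Adj (.inr p) (.inl q) ↔ A p q.1 ∧ (q.2 : ℕ) < hi q.1 := by
  obtain ⟨i, b⟩ := p
  obtain ⟨v, c⟩ := q
  rw [gG, SimpleGraph.fromRel_adj]
  rcases b with _ | _ <;> simp [gr]

theorem gG_ll {A : I × Bool → V → Prop} {lo hi : V → ℕ} {p q : V × Fin K} :
    (gG (I := I) A lo hi).Adj (.inl p) (.inl q) ↔ p ≠ q ∧ lo p.1 ≤ p.2 ∧ lo q.1 ≤ q.2 := by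
  rw [gG, SimpleGraph.fromRel_adj]
  simp only [gr, ne_eq, Sum.inl.injEq]
  tauto

theorem card_fin_lt {c : ℕ} (h : c ≤ K) : Fintype.card {b : Fin K // (b : ℕ) < c} = c := by
  rw [Fintype.card_congr (⟨fun b => ⟨b.1, b.2⟩, fun b => ⟨⟨b.1, b.2.trans_le h⟩, b.2⟩, fun b => rfl, fun b => rfl⟩ :
    {b : Fin K // (b : ℕ) < c} ≃ Fin c), Fintype.card_fin]

/-- an involution along edges gives a selection -/
theorem gsel_of_inv {A : I × Bool → V → Prop} {lo hi : V → ℕ} (hlo : ∀ v, lo v ≤ K)
    {m : Nod V I K → Nod V I K} (hm : ∀ w, m (m w) = w)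
    (ha : ∀ w, (gG A lo hi).Adj w (m w)) : GSel A lo hi (rd m) := by
  classical
  have card : ∀ v, #{p | rd m p = some v} = #{c : Fin K | (m (.inl (v, c))).isRight} := by
    intro v
    symm
    refine Finset.card_bij (fun c hc => (m (.inl (v, c))).getRight (by simpa using hc)) ?_ ?_ ?_
    · intro c hc
      simp only [Finset.mem_filter, Finset.mem_univ, true_and]
      rw [rd_some]
      exact ⟨c, by rw [Sum.inr_getRight, hm]⟩
    · intro c hc c' hc' h
      have h1 : m (.inl (v, c)) = m (.inl (v, c')) := by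
        rw [← Sum.inr_getRight (m (.inl (v, c))) (by simpa using hc), h, Sum.inr_getRight]
      have h2 := congrArg m h1
      rw [hm, hm] at h2
      simpa using h2
    · intro p hp
      have := (Finset.mem_filter.1 hp).2
      obtain ⟨c, hc⟩ := rd_some.1 this
      have h2 : m (.inl (v, c)) = .inr p := by rw [← hc, hm]
      exact ⟨c, by simp [h2], (Sum.getRight_eq_iff _).2 h2⟩
  refine ⟨?_, ?_, ?_, ?_⟩
  · have aux : ∀ i b, rd m (i, b) = none → rd m (i, !b) = none := by
      intro i b h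
      obtain ⟨q, hq⟩ := rd_none.1 h
      have h1 := ha (.inr (i, b))
      rw [hq] at h1
      have := gG_rr h1
      subst this
      rw [rd_none]
      exact ⟨(i, b), by rw [← hq, hm]⟩
    intro i
    exact ⟨fun h => by simpa using aux i false h, fun h => by simpa using aux i true h⟩
  · intro p v h
    obtain ⟨c, hc⟩ := rd_some.1 h
    have h1 := ha (.inr p)
    rw [hc, gG_rl] at h1
    exact h1.1
  · intro v
    rw [card]
    have h1 : ({c : Fin K | (c : ℕ) < lo v} : Finset (Fin K)) ⊆
        ({c : Fin K | (m (.inl (v, c))).isRight} : Finset (Fin K)) := by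
      intro c hc
      simp only [Finset.mem_filter, Finset.mem_univ, true_and] at hc ⊢
      rcases h : m (.inl (v, c)) with q | p
      · have h1 := ha (.inl (v, c))
        rw [h, gG_ll] at h1
        have := h1.2.1
        dsimp only at this
        omega
      · rfl
    refine le_trans ?_ (Finset.card_le_card h1)
    rw [← Fintype.card_subtype, card_fin_lt (hlo v)]
  · intro v
    rw [card]
    by_cases hK : hi v ≤ K
    · have h1 : ({c : Fin K | (m (.inl (v, c))).isRight} : Finset (Fin K)) ⊆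
          ({c : Fin K | (c : ℕ) < hi v} : Finset (Fin K)) := by
        intro c hc
        simp only [Finset.mem_filter, Finset.mem_univ, true_and] at hc ⊢
        rcases h : m (.inl (v, c)) with q | p
        · rw [h] at hc; simp at hc
        · have h1 := (ha (.inl (v, c))).symm
          rw [h, gG_rl] at h1
          exact h1.2
      refine (Finset.card_le_card h1).trans ?_
      rw [← Fintype.card_subtype, card_fin_lt hK]
    · refine (Finset.card_le_univ _).trans ?_
      rw [Fintype.card_fin]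
      omega

/-- a selection gives an involution along edges -/
theorem inv_of_gsel {A : I × Bool → V → Prop} {lo hi : V → ℕ} {g : I × Bool → Option V}
    (h : GSel A lo hi g) (hK : ∀ v, #{p | g p = some v} ≤ K) (hev : K % 2 = 0) :
    ∃ m : Nod V I K → Nod V I K, (∀ w, m (m w) = w) ∧
      ∀ w, (gG A lo hi).Adj w (m w) := by
  classical
  set c : V → ℕ := fun v => #{p | g p = some v} with hc
  -- the bijection of the used nodes and the used copies
  have hcard : ∀ v, Fintype.card {p : {p : I × Bool // (g p).isSome} // (g p.1).get p.2 = v} =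
      Fintype.card {b : Fin K // (b : ℕ) < c v} := by
    intro v
    rw [card_fin_lt (hK v), ← Fintype.card_subtype]
    refine Fintype.card_congr ⟨fun p => ⟨p.1.1, ?_⟩, fun p => ⟨⟨p.1, ?_⟩, ?_⟩, ?_, ?_⟩
    · exact (Option.some_get p.1.2).symm.trans (congrArg some p.2)
    · rw [p.2]; rfl
    · simp [p.2]
    · intro p; rfl
    · intro p; rfl
  let e : {p : I × Bool // (g p).isSome} ≃ {q : V × Fin K // (q.2 : ℕ) < c q.1} :=
    (Equiv.sigmaFiberEquiv fun p : {p : I × Bool // (g p).isSome} =>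
      (g p.1).get p.2).symm.trans ((Equiv.sigmaCongrRight fun v =>
        Fintype.equivOfCardEq (hcard v)).trans
        (Equiv.subtypeProdEquivSigmaSubtype (fun (v : V) (b : Fin K) => (b : ℕ) < c v)).symm)
  have he : ∀ p, g p.1 = some (e p).1.1 := by
    intro p
    have : (e p).1.1 = (g p.1).get p.2 := rfl
    rw [this]; simp
  have he' : ∀ q, g (e.symm q).1 = some q.1.1 := by
    intro q
    have := he (e.symm q)
    simpa using this
  have hsome : ∀ i b, (g (i, b)).isSome → ∀ b', (g (i, b')).isSome := by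
    intro i b hb b'
    have := h.pair i
    rcases b with _ | _ <;> rcases b' with _ | _
    · exact hb
    · by_contra h
      rw [Option.not_isSome_iff_eq_none] at h
      rw [this.2 h] at hb; simp at hb
    · by_contra h
      rw [Option.not_isSome_iff_eq_none] at h
      rw [this.1 h] at hb; simp at hb
    · exact hb
  -- the unused copies
  have hU : ∃ k, Fintype.card {p : I × Bool // (g p).isSome} = k * 2 := by
    refine ⟨Fintype.card {i : I // (g (i, false)).isSome}, ?_⟩
    rw [← Fintype.card_bool, ← Fintype.card_prod]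
    refine Fintype.card_congr ⟨fun p => (⟨p.1.1, hsome p.1.1 p.1.2 p.2 _⟩, p.1.2),
      fun q => ⟨(q.1.1, q.2), hsome q.1.1 false q.1.2 _⟩, ?_, ?_⟩
    · intro p; rfl
    · intro p; rfl
  obtain ⟨k, hk⟩ := hU
  have hR : Fintype.card {q : V × Fin K // ¬ (q.2 : ℕ) < c q.1} + k * 2 =
      Fintype.card V * K := by
    rw [← hk, Fintype.card_congr e, add_comm]
    have := Fintype.card_subtype_compl (fun q : V × Fin K => (q.2 : ℕ) < c q.1)
    have h2 := Fintype.card_subtype_le (fun q : V × Fin K => (q.2 : ℕ) < c q.1)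
    rw [this, Fintype.card_prod, Fintype.card_fin] at *
    omega
  obtain ⟨r, hr⟩ : ∃ r, Fintype.card {q : V × Fin K // ¬ (q.2 : ℕ) < c q.1} = r * 2 := by
    have h3 : Fintype.card V * K % 2 = 0 := by rw [Nat.mul_mod, hev]; simp
    exact ⟨Fintype.card {q : V × Fin K // ¬ (q.2 : ℕ) < c q.1} / 2, by omega⟩
  let ρ : {q : V × Fin K // ¬ (q.2 : ℕ) < c q.1} ≃ Fin r × Bool :=
    Fintype.equivOfCardEq (by rw [hr, Fintype.card_prod, Fintype.card_fin, Fintype.card_bool])
  refine ⟨fun w => match w with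
    | .inl q => if hq : (q.2 : ℕ) < c q.1 then .inr (e.symm ⟨q, hq⟩).1 else
        .inl (ρ.symm ((ρ ⟨q, hq⟩).1, !(ρ ⟨q, hq⟩).2)).1
    | .inr p => if hp : (g p).isSome then .inl (e ⟨p, hp⟩).1 else .inr (p.1, !p.2), ?_, ?_⟩
  · rintro (q | ⟨i, b⟩)
    · by_cases hq : (q.2 : ℕ) < c q.1
      · have := (e.symm ⟨q, hq⟩).2
        simp [hq, this]
      · have := (ρ.symm ((ρ ⟨q, hq⟩).1, !(ρ ⟨q, hq⟩).2)).2
        simp only [hq, dite_false, this]
        simp
    · by_cases hp : (g (i, b)).isSome
      · have := (e ⟨(i, b), hp⟩).2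
        simp [hp, this]
      · have h' : ¬ (g (i, !b)).isSome := fun h' => hp (hsome i _ h' _)
        simp only [hp]
        simp [h']
  · rintro (q | ⟨i, b⟩)
    · by_cases hq : (q.2 : ℕ) < c q.1
      · simp only [hq, dite_true]
        refine ((gG_rl).2 ⟨?_, hq.trans_le (h.hi _)⟩).symm
        exact h.mem _ _ (he' ⟨q, hq⟩)
      · simp only [hq, dite_false]
        rw [gG_ll]
        have h2 := (ρ.symm ((ρ ⟨q, hq⟩).1, !(ρ ⟨q, hq⟩).2)).2
        refine ⟨?_, ?_, ?_⟩
        · intro h3
          have h4 : ρ.symm ((ρ ⟨q, hq⟩).1, !(ρ ⟨q, hq⟩).2) = ⟨q, hq⟩ := Subtype.ext h3.symm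
          rw [Equiv.symm_apply_eq] at h4
          have := congrArg Prod.snd h4
          simp at this
        · exact (h.lo _).trans (not_lt.1 hq)
        · exact (h.lo _).trans (not_lt.1 h2)
    · by_cases hp : (g (i, b)).isSome
      · simp only [hp, dite_true]
        rw [gG_rl]
        exact ⟨h.mem _ _ (he ⟨(i, b), hp⟩), (e ⟨(i, b), hp⟩).2.trans_le (h.hi _)⟩
      · simp only [hp]
        rcases b with _ | _
        · simp [gG, SimpleGraph.fromRel_adj, gr]
        · simp [gG, SimpleGraph.fromRel_adj, gr]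

end Pool.Agent.PF4.Gd

end

section -- file PF4/Gad

/-!
2-factors without 4-cycles in polynomial time: the matching gadget with degree intervals. `us` is a list of
units `(S, T)` (choose nothing, or `s` in `S` and `t` in `T`), `lo` and `hi` are the lists of the bounds of
the degrees of the vertices `0, ..., n - 1`. `feas n us lo hi` decides whether there is a choice
(`feas_iff`), `sel n us lo hi` is one (`sel_ok`); both are polynomial time functions (`pt_feas`, `pt_sel`).
-/

set_option autoImplicit false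

namespace Pool.Agent.PF4.Gd

open Finset Pool.Agent.Lib.helper60

/-! ### definitions -/

/-- the copies of the vertices which need not be covered (`K` copies of each vertex) -/
def optC (n K : ℕ) (lo : List ℕ) : List ℕ :=
  (List.range n).flatMap fun v =>
    ((List.range K).filter fun c => decide (lo.getD v 0 ≤ c)).map fun c => K * v + c

/-- the edges from the node `a` to the copies of the elements of `S` -/
def endE (n K a : ℕ) (hi S : List ℕ) : List (ℕ × ℕ) :=
  (S.filter fun s => decide (s < n)).flatMap fun s =>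
    ((List.range K).filter fun c => decide (c < hi.getD s 0)).map fun c => (a, K * s + c)

/-- the edges of the gadget -/
def gadE (n K : ℕ) (us : List (List ℕ × List ℕ)) (lo hi : List ℕ) : List (ℕ × ℕ) :=
  ((List.range us.length).flatMap fun i => (K * n + 2 * i, K * n + 2 * i + 1) ::
    (endE n K (K * n + 2 * i) hi (us.getD i ([], [])).1 ++
      endE n K (K * n + 2 * i + 1) hi (us.getD i ([], [])).2)) ++
  (optC n K lo).flatMap fun a => (optC n K lo).map fun b => (a, b)

/-- the matching of the gadget -/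
def gpm (n : ℕ) (us : List (List ℕ × List ℕ)) (lo hi : List ℕ) : Bool × List (ℕ × ℕ) :=
  EDM.pm (2 * us.length * n + 2 * us.length) (gadE n (2 * us.length) us lo hi)

/-- is there a choice? -/
def feas (n : ℕ) (us : List (List ℕ × List ℕ)) (lo hi : List ℕ) : Bool :=
  (List.range n).all (fun v => decide (lo.getD v 0 ≤ 2 * us.length)) && (gpm n us lo hi).1

/-- the quotient `m / K` for `K > 0` -/
def quo (K m : ℕ) : ℕ := ((List.range m).filter fun x => decide (K * (x + 1) ≤ m)).length

/-- the choice for the unit `i` -/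
def selU (n K : ℕ) (M : List (ℕ × ℕ)) (i : ℕ) : List (ℕ × ℕ) :=
  bif decide (EDM.mate M (K * n + 2 * i) < K * n) then
    [(quo K (EDM.mate M (K * n + 2 * i)), quo K (EDM.mate M (K * n + 2 * i + 1)))] else []

/-- a choice -/
def sel (n : ℕ) (us : List (List ℕ × List ℕ)) (lo hi : List ℕ) : List (List (ℕ × ℕ)) :=
  (List.range us.length).map fun i => selU n (2 * us.length) (gpm n us lo hi).2 i

/-- how often is `v` used by one unit? -/
def useU (c : List (ℕ × ℕ)) (v : ℕ) : ℕ :=
  (c.filter fun e => decide (e.1 = v)).length + (c.filter fun e => decide (e.2 = v)).length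

/-- how often is `v` used? -/
def use (C : List (List (ℕ × ℕ))) (v : ℕ) : ℕ := (C.map fun c => useU c v).sum

/-- a choice for one unit -/
def ChU (n : ℕ) (u : List ℕ × List ℕ) (c : List (ℕ × ℕ)) : Prop :=
  c = [] ∨ ∃ s ∈ u.1, ∃ t ∈ u.2, s < n ∧ t < n ∧ c = [(s, t)]

/-- a choice for each unit, with the bounds `lo` and `hi` -/
structure Ch (n : ℕ) (us : List (List ℕ × List ℕ)) (lo hi : List ℕ) (C : List (List (ℕ × ℕ))) :
    Prop where
  ch : List.Forall₂ (ChU n) us C
  lo : ∀ v < n, lo.getD v 0 ≤ use C v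
  hi : ∀ v < n, use C v ≤ hi.getD v 0

/-! ### polynomial time -/

variable {ι : Type} [DEnc ι]

theorem pt_quo {K m : ι → ℕ} (hK : PT K) (hm : PT m) : PT (fun x => quo (K x) (m x)) :=
  PT.length (PT.filter (PT.range hm) (p := fun y : ι × ℕ => decide (K y.1 * (y.2 + 1) ≤ m y.1))
    (PT.nle (PT.nmul (hK.comp PT.fst) (PT.nsucc PT.snd)) (hm.comp PT.fst)))

theorem pt_optC {n K : ι → ℕ} {lo : ι → List ℕ} (hn : PT n) (hK : PT K) (hg : PT lo) :
    PT (fun x => optC (n x) (K x) (lo x)) := by
  have h1 : PT (fun y : ι × ℕ => (List.range (K y.1)).filter fun c => decide ((lo y.1).getD y.2 0 ≤ c)) :=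
    PT.filter (PT.range (hK.comp PT.fst)) (p := fun z : (ι × ℕ) × ℕ =>
      decide ((lo z.1.1).getD z.1.2 0 ≤ z.2))
      (PT.nle (PT.getD (hg.comp (PT.p1 PT.fst)) (PT.p2 PT.fst) (PT.const 0)) PT.snd)
  have h2 := PT.map h1 (g := fun z : (ι × ℕ) × ℕ => K z.1.1 * z.1.2 + z.2)
    (PT.nadd (PT.nmul (hK.comp (PT.p1 PT.fst)) (PT.p2 PT.fst)) PT.snd)
  exact PT.flatMap (PT.range hn) (g := fun y : ι × ℕ =>
    ((List.range (K y.1)).filter fun c => decide ((lo y.1).getD y.2 0 ≤ c)).map fun c =>
      K y.1 * y.2 + c) h2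

theorem pt_endE {n K a : ι → ℕ} {hi S : ι → List ℕ} (hn : PT n) (hK : PT K) (ha : PT a) (hh : PT hi)
    (hS : PT S) : PT (fun x => endE (n x) (K x) (a x) (hi x) (S x)) := by
  have h0 : PT (fun x => (S x).filter fun s => decide (s < n x)) :=
    PT.filter hS (p := fun y : ι × ℕ => decide (y.2 < n y.1)) (PT.nlt PT.snd (hn.comp PT.fst))
  have h1 : PT (fun y : ι × ℕ => (List.range (K y.1)).filter fun c => decide (c < (hi y.1).getD y.2 0)) :=
    PT.filter (PT.range (hK.comp PT.fst)) (p := fun z : (ι × ℕ) × ℕ =>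
      decide (z.2 < (hi z.1.1).getD z.1.2 0))
      (PT.nlt PT.snd (PT.getD (hh.comp (PT.p1 PT.fst)) (PT.p2 PT.fst) (PT.const 0)))
  have h2 := PT.map h1 (g := fun z : (ι × ℕ) × ℕ => (a z.1.1, K z.1.1 * z.1.2 + z.2))
    (PT.pair (ha.comp (PT.p1 PT.fst))
      (PT.nadd (PT.nmul (hK.comp (PT.p1 PT.fst)) (PT.p2 PT.fst)) PT.snd))
  exact PT.flatMap h0 (g := fun y : ι × ℕ =>
    ((List.range (K y.1)).filter fun c => decide (c < (hi y.1).getD y.2 0)).map fun c =>
      (a y.1, K y.1 * y.2 + c)) h2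

theorem pt_gadE {n K : ι → ℕ} {us : ι → List (List ℕ × List ℕ)} {lo hi : ι → List ℕ} (hn : PT n)
    (hK : PT K) (hu : PT us) (hl : PT lo) (hh : PT hi) :
    PT (fun x => gadE (n x) (K x) (us x) (lo x) (hi x)) := by
  have hb : PT (fun y : ι × ℕ => K y.1 * n y.1 + 2 * y.2) :=
    PT.nadd (PT.nmul (hK.comp PT.fst) (hn.comp PT.fst)) (PT.nmul (PT.const 2) PT.snd)
  have hui : PT (fun y : ι × ℕ => (us y.1).getD y.2 ([], [])) :=
    PT.getD (hu.comp PT.fst) PT.snd (PT.const ([], []))
  have ho := pt_optC hn hK hl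
  refine PT.append ?_ ?_
  · exact PT.flatMap (PT.range (PT.length hu)) (g := fun y : ι × ℕ =>
      (K y.1 * n y.1 + 2 * y.2, K y.1 * n y.1 + 2 * y.2 + 1) ::
      (endE (n y.1) (K y.1) (K y.1 * n y.1 + 2 * y.2) (hi y.1) ((us y.1).getD y.2 ([], [])).1 ++
        endE (n y.1) (K y.1) (K y.1 * n y.1 + 2 * y.2 + 1) (hi y.1) ((us y.1).getD y.2 ([], [])).2))
      (PT.cons (PT.pair hb (PT.nsucc hb)) (PT.append
        (pt_endE (hn.comp PT.fst) (hK.comp PT.fst) hb (hh.comp PT.fst) (PT.p1 hui))
        (pt_endE (hn.comp PT.fst) (hK.comp PT.fst) (PT.nsucc hb) (hh.comp PT.fst) (PT.p2 hui))))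
  · exact PT.flatMap ho (g := fun y : ι × ℕ => (optC (n y.1) (K y.1) (lo y.1)).map fun b => (y.2, b))
      (PT.map (ho.comp PT.fst) (g := fun z : (ι × ℕ) × ℕ => (z.1.2, z.2))
        (PT.pair (PT.p2 PT.fst) PT.snd))

theorem pt_gpm {n : ι → ℕ} {us : ι → List (List ℕ × List ℕ)} {lo hi : ι → List ℕ} (hn : PT n)
    (hu : PT us) (hl : PT lo) (hh : PT hi) : PT (fun x => gpm (n x) (us x) (lo x) (hi x)) := by
  have hK : PT (fun x => 2 * (us x).length) := PT.nmul (PT.const 2) (PT.length hu)
  have h1 : PT (fun x => (2 * (us x).length * n x + 2 * (us x).length,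
      gadE (n x) (2 * (us x).length) (us x) (lo x) (hi x))) :=
    PT.pair (PT.nadd (PT.nmul hK hn) hK) (pt_gadE hn hK hu hl hh)
  have h2 := PT.comp EDM.pt_pm h1
  exact h2

/-- `feas` is a polynomial time function -/
theorem pt_feas {n : ι → ℕ} {us : ι → List (List ℕ × List ℕ)} {lo hi : ι → List ℕ} (hn : PT n)
    (hu : PT us) (hl : PT lo) (hh : PT hi) : PT (fun x => feas (n x) (us x) (lo x) (hi x)) :=
  PT.band (PT.all (PT.range hn) (p := fun y : ι × ℕ =>
      decide ((lo y.1).getD y.2 0 ≤ 2 * (us y.1).length))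
    (PT.nle (PT.getD (hl.comp PT.fst) PT.snd (PT.const 0))
      (PT.nmul (PT.const 2) (PT.length (hu.comp PT.fst))))) (PT.p1 (pt_gpm hn hu hl hh))

theorem pt_selU {n K i : ι → ℕ} {M : ι → List (ℕ × ℕ)} (hn : PT n) (hK : PT K) (hM : PT M) (hi : PT i) :
    PT (fun x => selU (n x) (K x) (M x) (i x)) := by
  have hb : PT (fun x => K x * n x + 2 * i x) :=
    PT.nadd (PT.nmul hK hn) (PT.nmul (PT.const 2) hi)
  have h1 := EDM.pt_mate hM hb
  have h2 := EDM.pt_mate hM (PT.nsucc hb)
  exact PT.cond (PT.nlt h1 (PT.nmul hK hn))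
    (PT.cons (PT.pair (pt_quo hK h1) (pt_quo hK h2)) (PT.const [])) (PT.const [])

/-- `sel` is a polynomial time function -/
theorem pt_sel {n : ι → ℕ} {us : ι → List (List ℕ × List ℕ)} {lo hi : ι → List ℕ} (hn : PT n)
    (hu : PT us) (hl : PT lo) (hh : PT hi) : PT (fun x => sel (n x) (us x) (lo x) (hi x)) := by
  have hM : PT (fun x => (gpm (n x) (us x) (lo x) (hi x)).2) := PT.p2 (pt_gpm hn hu hl hh)
  have h := PT.map (ι := ι × List (ℕ × ℕ)) (l := fun x => List.range (us x.1).length)
    (g := fun y : (ι × List (ℕ × ℕ)) × ℕ => selU (n y.1.1) (2 * (us y.1.1).length) y.1.2 y.2)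
    (PT.range (PT.length (hu.comp PT.fst)))
    (pt_selU (hn.comp (PT.p1 PT.fst)) (PT.nmul (PT.const 2) (PT.length (hu.comp (PT.p1 PT.fst))))
      (PT.p2 PT.fst) PT.snd)
  exact h.comp (f := fun x => (x, (gpm (n x) (us x) (lo x) (hi x)).2)) (PT.pair PT.id hM)

/-! ### correctness -/

theorem quo_eq {K : ℕ} (hK : 0 < K) (m : ℕ) : quo K m = m / K := by
  unfold quo
  have h : ∀ k, ((List.range k).filter fun x => decide (K * (x + 1) ≤ m)).length = min k (m / K) := by
    intro k
    induction k with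
    | zero => simp
    | succ k ih =>
      rw [List.range_succ, List.filter_append, List.length_append, ih]
      have h1 : K * (k + 1) ≤ m ↔ k + 1 ≤ m / K := by
        rw [Nat.le_div_iff_mul_le hK, mul_comm]
      by_cases hk : K * (k + 1) ≤ m
      · have := h1.1 hk
        simp [hk]; omega
      · have := mt h1.2 hk
        simp [hk]; omega
  rw [h]
  have := Nat.div_le_self m K
  omega

theorem mem_optC {n K : ℕ} {lo : List ℕ} {x : ℕ} :
    x ∈ optC n K lo ↔ ∃ v < n, ∃ c < K, lo.getD v 0 ≤ c ∧ x = K * v + c := by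
  simp only [optC, List.mem_flatMap, List.mem_range, List.mem_map, List.mem_filter, decide_eq_true_eq]
  refine exists_congr fun v => and_congr_right fun _ => ?_
  refine exists_congr fun c => ?_
  rw [and_assoc]
  refine and_congr_right fun _ => and_congr_right fun _ => eq_comm

theorem mem_endE {n K a : ℕ} {hi S : List ℕ} {x y : ℕ} :
    (x, y) ∈ endE n K a hi S ↔
      ∃ s ∈ S, s < n ∧ x = a ∧ ∃ c < K, c < hi.getD s 0 ∧ y = K * s + c := by
  simp only [endE, List.mem_flatMap, List.mem_filter, decide_eq_true_eq, List.mem_map, List.mem_range,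
    Prod.mk.injEq]
  refine exists_congr fun s => ?_
  constructor
  · rintro ⟨⟨h1, h2⟩, c, ⟨h3, h4⟩, rfl, rfl⟩; exact ⟨h1, h2, rfl, c, h3, h4, rfl⟩
  · rintro ⟨h1, h2, rfl, c, h3, h4, rfl⟩; exact ⟨⟨h1, h2⟩, c, ⟨h3, h4⟩, rfl, rfl⟩

theorem mem_gadE {n K : ℕ} {us : List (List ℕ × List ℕ)} {lo hi : List ℕ} {x y : ℕ} :
    (x, y) ∈ gadE n K us lo hi ↔ (∃ i < us.length, (x = K * n + 2 * i ∧ y = K * n + 2 * i + 1) ∨
      (∃ s ∈ (us.getD i ([], [])).1, s < n ∧ x = K * n + 2 * i ∧ ∃ c < K, c < hi.getD s 0 ∧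
        y = K * s + c) ∨
      (∃ t ∈ (us.getD i ([], [])).2, t < n ∧ x = K * n + 2 * i + 1 ∧ ∃ c < K, c < hi.getD t 0 ∧
        y = K * t + c)) ∨ (x ∈ optC n K lo ∧ y ∈ optC n K lo) := by
  simp only [gadE, List.mem_append, List.mem_flatMap, List.mem_range, List.mem_cons, mem_endE,
    Prod.mk.injEq, List.mem_map]
  refine or_congr Iff.rfl ?_
  constructor
  · rintro ⟨a, ha, b, hb, rfl, rfl⟩; exact ⟨ha, hb⟩
  · rintro ⟨ha, hb⟩; exact ⟨x, ha, y, hb, rfl, rfl⟩

end Pool.Agent.PF4.Gd

end

section -- file PF4/GadC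

/-!
2-factors without 4-cycles in polynomial time: correctness of the matching gadget with degree intervals.
-/

set_option autoImplicit false

namespace Pool.Agent.PF4.Gd

open Finset

theorem lin_inj {K v w c d : ℕ} (hc : c < K) (hd : d < K) (h : K * v + c = K * w + d) : v = w ∧ c = d := by
  have hK : 0 < K := by omega
  have h1 : (K * v + c) / K = v := by rw [Nat.mul_add_div hK, Nat.div_eq_of_lt hc, add_zero]
  have h2 : (K * w + d) / K = w := by rw [Nat.mul_add_div hK, Nat.div_eq_of_lt hd, add_zero]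
  have h3 : v = w := by rw [← h1, ← h2, h]
  subst h3
  exact ⟨rfl, by omega⟩

theorem lin_lt {K v n c : ℕ} (hc : c < K) (hv : v < n) : K * v + c < K * n := by
  have : K * (v + 1) ≤ K * n := Nat.mul_le_mul_left _ hv
  rw [Nat.mul_add] at this
  omega

theorem lin_lt_swap {n J j v : ℕ} (hv : v < n) (hj : j < J) : n * j + v < n * J := lin_lt hv hj

/-- allowed end points of a node -/
def gA (n : ℕ) (us : List (List ℕ × List ℕ)) (p : Fin us.length × Bool) (v : Fin n) : Prop :=
  (v : ℕ) ∈ (bif p.2 then (us.getD p.1 ([], [])).2 else (us.getD p.1 ([], [])).1)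

/-- bounds -/
def gB (n : ℕ) (g : List ℕ) (v : Fin n) : ℕ := g.getD v 0

/-- the numbers of the nodes -/
def gφ (n K : ℕ) (us : List (List ℕ × List ℕ)) : Nod (Fin n) (Fin us.length) K → ℕ
  | .inl (v, c) => K * v + c
  | .inr (i, b) => K * n + 2 * i + b.toNat

theorem gφ_inj (n K : ℕ) (us : List (List ℕ × List ℕ)) : Function.Injective (gφ n K us) := by
  rintro (⟨v, b⟩ | ⟨i, b⟩) (⟨w, c⟩ | ⟨j, c⟩) h
  · simp only [gφ] at h
    obtain ⟨h1, h2⟩ := lin_inj b.2 c.2 h
    rw [Fin.ext h1, Fin.ext h2]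
  · have h1 := lin_lt b.2 v.2
    simp only [gφ] at h
    omega
  · have h1 := lin_lt c.2 w.2
    simp only [gφ] at h
    omega
  · rcases b with _ | _ <;> rcases c with _ | _ <;> simp only [gφ, Bool.toNat_false, Bool.toNat_true] at h
    · obtain rfl : i = j := Fin.ext (by omega)
      rfl
    · omega
    · omega
    · obtain rfl : i = j := Fin.ext (by omega)
      rfl

theorem gφ_lt (n K : ℕ) (us : List (List ℕ × List ℕ)) (w : Nod (Fin n) (Fin us.length) K) :
    gφ n K us w < K * n + 2 * us.length := by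
  rcases w with ⟨v, b⟩ | ⟨i, b⟩
  · have := lin_lt b.2 v.2
    simp only [gφ]; omega
  · have := i.2
    have := Bool.toNat_lt b
    simp only [gφ]; omega

theorem gφ_surj (n K : ℕ) (us : List (List ℕ × List ℕ)) (k : ℕ) (hk : k < K * n + 2 * us.length) :
    ∃ w, gφ n K us w = k := by
  by_cases h : k < K * n
  · have hK : 0 < K := by
      rcases Nat.eq_zero_or_pos K with h1 | h1
      · subst h1; simp at h
      · exact h1
    refine ⟨.inl (⟨k / K, ?_⟩, ⟨k % K, Nat.mod_lt _ hK⟩), ?_⟩
    · exact Nat.div_lt_of_lt_mul h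
    · simp only [gφ]
      exact Nat.div_add_mod k K
  · have hb : (decide ((k - K * n) % 2 = 1)).toNat = (k - K * n) % 2 := by
      rcases Nat.mod_two_eq_zero_or_one (k - K * n) with h | h <;> simp [h]
    refine ⟨.inr (⟨(k - K * n) / 2, by omega⟩, decide ((k - K * n) % 2 = 1)), ?_⟩
    simp only [gφ, hb]; omega

theorem optC_lt {n K : ℕ} {g : List ℕ} {x : ℕ} (h : x ∈ optC n K g) : x < K * n := by
  obtain ⟨v, hv, c, hc, _, rfl⟩ := mem_optC.1 h
  exact lin_lt hc hv

theorem optC_φ {n K : ℕ} {g : List ℕ} (v : Fin n) (c : Fin K) :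
    K * (v : ℕ) + c ∈ optC n K g ↔ g.getD v 0 ≤ c := by
  rw [mem_optC]
  constructor
  · rintro ⟨w, _, d, hd, h, h2⟩
    obtain ⟨h3, h4⟩ := lin_inj c.2 hd h2
    rw [h3, h4]; exact h
  · intro h; exact ⟨v, v.2, c, c.2, h, rfl⟩

theorem gφ_rel (n K : ℕ) (us : List (List ℕ × List ℕ)) (lo hi : List ℕ)
    (x y : Nod (Fin n) (Fin us.length) K) :
    gr (gA n us) (gB n lo) (gB n hi) x y ↔ (gφ n K us x, gφ n K us y) ∈ gadE n K us lo hi := by
  rw [mem_gadE]
  rcases x with ⟨v, b⟩ | ⟨i, b⟩
  · have hv := lin_lt b.2 v.2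
    rcases y with ⟨w, c⟩ | ⟨j, c⟩
    · simp only [gr, gB, gφ]
      rw [optC_φ, optC_φ]
      constructor
      · intro h; exact Or.inr h
      · rintro (⟨i, _, ⟨h1, _⟩ | ⟨s, _, _, h1, _⟩ | ⟨s, _, _, h1, _⟩⟩ | h)
        · omega
        · omega
        · omega
        · exact h
    · simp only [gr, gφ]
      constructor
      · intro h; exact h.elim
      · rintro (⟨i, _, ⟨h1, _⟩ | ⟨s, _, _, h1, _⟩ | ⟨s, _, _, h1, _⟩⟩ | h)
        · omega
        · omega
        · omega
        · have := optC_lt h.2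
          omega
  · have hi' := i.2
    rcases y with ⟨w, c⟩ | ⟨j, c⟩
    · have hw := lin_lt c.2 w.2
      rcases b with _ | _
      · simp only [gr, gA, gB, gφ, Bool.toNat_false, cond_false]
        constructor
        · intro h
          exact Or.inl ⟨i, hi', Or.inr (Or.inl ⟨w, h.1, w.2, by omega, c, c.2, h.2, rfl⟩)⟩
        · rintro (⟨i', _, ⟨h1, h2⟩ | ⟨s, h, h2, h1, d, hd, h3, h4⟩ | ⟨s, _, _, h1, _⟩⟩ | h)
          · omega
          · obtain rfl : (i : ℕ) = i' := by omega
            obtain ⟨h5, h6⟩ := lin_inj c.2 hd h4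
            rw [h5, h6]
            exact ⟨h, h3⟩
          · omega
          · have := optC_lt h.1
            omega
      · simp only [gr, gA, gB, gφ, Bool.toNat_true, cond_true]
        constructor
        · intro h
          exact Or.inl ⟨i, hi', Or.inr (Or.inr ⟨w, h.1, w.2, by omega, c, c.2, h.2, rfl⟩)⟩
        · rintro (⟨i', _, ⟨h1, h2⟩ | ⟨s, _, _, h1, _⟩ | ⟨s, h, h2, h1, d, hd, h3, h4⟩⟩ | h)
          · omega
          · omega
          · obtain rfl : (i : ℕ) = i' := by omega
            obtain ⟨h5, h6⟩ := lin_inj c.2 hd h4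
            rw [h5, h6]
            exact ⟨h, h3⟩
          · have := optC_lt h.1
            omega
    · have hj := j.2
      have key : ∀ b c : Bool, (K * n + 2 * (i : ℕ) + b.toNat, K * n + 2 * (j : ℕ) + c.toNat) ∈
          gadE n K us lo hi ↔ (b = false ∧ c = true ∧ i = j) := by
        intro b c
        have hb := Bool.toNat_lt b
        have hc := Bool.toNat_lt c
        rw [mem_gadE]
        constructor
        · rintro (⟨i', _, ⟨h1, h2⟩ | ⟨s, _, hs, _, d, hd, _, h3⟩ | ⟨s, _, hs, _, d, hd, _, h3⟩⟩ | h)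
          · rcases b with _ | _ <;> rcases c with _ | _ <;>
              simp only [Bool.toNat_false, Bool.toNat_true] at h1 h2
            · omega
            · exact ⟨rfl, rfl, Fin.ext (by omega)⟩
            · omega
            · omega
          · have := lin_lt hd hs
            omega
          · have := lin_lt hd hs
            omega
          · have := optC_lt h.1
            omega
        · rintro ⟨rfl, rfl, rfl⟩
          exact Or.inl ⟨i, hi', Or.inl ⟨rfl, rfl⟩⟩
      rw [← mem_gadE]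
      simp only [gφ]
      rw [key]
      rcases b with _ | _ <;> rcases c with _ | _ <;> simp [gr]

theorem gφ_adj (n K : ℕ) (us : List (List ℕ × List ℕ)) (lo hi : List ℕ)
    (x y : Nod (Fin n) (Fin us.length) K) :
    (gG (gA n us) (gB n lo) (gB n hi)).Adj x y ↔ x ≠ y ∧
      ((gφ n K us x, gφ n K us y) ∈ gadE n K us lo hi ∨
        (gφ n K us y, gφ n K us x) ∈ gadE n K us lo hi) := by
  rw [gG, SimpleGraph.fromRel_adj, gφ_rel, gφ_rel]

/-! ### lists of choices and selections -/

theorem sum_getD {β : Type*} (f : β → ℕ) (d : β) (l : List β) :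
    ∑ i : Fin l.length, f (l.getD i d) = (l.map f).sum := by
  rw [← Finset.sum_range (n := l.length) (f := fun i => f (l.getD i d))]
  induction l with
  | nil => simp
  | cons a l ih =>
    rw [List.length_cons, Finset.sum_range_succ', List.map_cons, List.sum_cons, ← ih]
    simp only [List.getD_cons_succ, List.getD_cons_zero]
    ring

theorem card_sel {k n : ℕ} (s : Fin k × Bool → Option (Fin n)) (v : Fin n) :
    #{p | s p = some v} =
      ∑ i : Fin k, ((if s (i, false) = some v then 1 else 0) + (if s (i, true) = some v then 1 else 0)) := by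
  rw [Finset.card_filter, Fintype.sum_prod_type]
  refine Finset.sum_congr rfl fun i _ => ?_
  rw [Fintype.sum_bool, add_comm]

theorem useU_nil (v : ℕ) : useU [] v = 0 := rfl

theorem useU_single (s t v : ℕ) :
    useU [(s, t)] v = (if s = v then 1 else 0) + (if t = v then 1 else 0) := by
  unfold useU
  by_cases h1 : s = v <;> by_cases h2 : t = v <;> simp [h1, h2]

theorem use_nil (v : ℕ) : use [] v = 0 := rfl

theorem use_cons (c : List (ℕ × ℕ)) (C : List (List (ℕ × ℕ))) (v : ℕ) :
    use (c :: C) v = useU c v + use C v := rfl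

theorem use_append (C D : List (List (ℕ × ℕ))) (v : ℕ) : use (C ++ D) v = use C v + use D v := by
  simp [use]

theorem useU_le {n : ℕ} {u : List ℕ × List ℕ} {c : List (ℕ × ℕ)} (h : ChU n u c) (v : ℕ) :
    useU c v ≤ 2 := by
  rcases h with rfl | ⟨s, _, t, _, _, _, rfl⟩
  · simp [useU_nil]
  · rw [useU_single]
    split_ifs <;> omega

/-- a vertex is used at most twice by each unit -/
theorem use_le {n : ℕ} {us : List (List ℕ × List ℕ)} {C : List (List (ℕ × ℕ))}
    (h : List.Forall₂ (ChU n) us C) (v : ℕ) : use C v ≤ 2 * us.length := by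
  induction h with
  | nil => simp [use_nil]
  | cons h1 _ ih =>
    rw [use_cons, List.length_cons]
    have := useU_le h1 v
    omega

/-- the choices in terms of indices -/
theorem ch_iff {n : ℕ} {us : List (List ℕ × List ℕ)} {lo hi : List ℕ} {C : List (List (ℕ × ℕ))} :
    Ch n us lo hi C ↔ C.length = us.length ∧
      (∀ i < us.length, ChU n (us.getD i ([], [])) (C.getD i [])) ∧
      ∀ v < n, lo.getD v 0 ≤ use C v ∧ use C v ≤ hi.getD v 0 := by
  constructor
  · intro h
    have h1 := h.ch.length_eq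
    refine ⟨h1.symm, ?_, fun v hv => ⟨h.lo v hv, h.hi v hv⟩⟩
    intro i hi
    have h2 := (List.forall₂_iff_get.1 h.ch).2 i hi (h1 ▸ hi)
    rw [List.getD_eq_getElem _ _ hi, List.getD_eq_getElem _ _ (h1 ▸ hi)]
    simpa using h2
  · rintro ⟨h1, h2, h3⟩
    refine ⟨?_, fun v hv => (h3 v hv).1, fun v hv => (h3 v hv).2⟩
    rw [List.forall₂_iff_get]
    refine ⟨h1.symm, ?_⟩
    intro i hi hi'
    have := h2 i hi
    rw [List.getD_eq_getElem _ _ hi, List.getD_eq_getElem _ _ hi'] at this
    simpa using this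

theorem use_sum {n : ℕ} {us : List (List ℕ × List ℕ)} {C : List (List (ℕ × ℕ))}
    (s : Fin us.length × Bool → Option (Fin n)) (hC : C.length = us.length)
    (h : ∀ (i : Fin us.length) (v : Fin n), useU (C.getD i []) v =
      (if s (i, false) = some v then 1 else 0) + (if s (i, true) = some v then 1 else 0)) (v : Fin n) :
    use C v = #{p | s p = some v} := by
  rw [card_sel]
  unfold use
  rw [← sum_getD (fun c => useU c v) []]
  have e : ∑ i : Fin C.length, useU (C.getD i []) v = ∑ i : Fin us.length, useU (C.getD i []) v := by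
    rw [← Finset.sum_range (n := C.length) (f := fun i => useU (C.getD i []) v),
      ← Finset.sum_range (n := us.length) (f := fun i => useU (C.getD i []) v), hC]
  rw [e]
  exact Finset.sum_congr rfl fun i _ => h i v

/-- the choice list of a selection -/
theorem ch_of_gsel {n : ℕ} {us : List (List ℕ × List ℕ)} {lo hi : List ℕ}
    {s : Fin us.length × Bool → Option (Fin n)} (hs : GSel (gA n us) (gB n lo) (gB n hi) s)
    {C : List (List (ℕ × ℕ))} (hC : C.length = us.length)
    (h : ∀ i : Fin us.length, (s (i, false) = none ∧ C.getD i [] = []) ∨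
      ∃ a b : Fin n, s (i, false) = some a ∧ s (i, true) = some b ∧ C.getD i [] = [((a : ℕ), (b : ℕ))]) :
    Ch n us lo hi C := by
  have hu : ∀ v : Fin n, use C v = #{p | s p = some v} := by
    refine use_sum s hC ?_
    intro i v
    rcases h i with ⟨h1, h2⟩ | ⟨a, b, h1, h2, h3⟩
    · rw [h2, h1, (hs.pair i).1 h1]
      simp [useU_nil]
    · rw [h3, h1, h2, useU_single]
      simp only [Option.some.injEq, Fin.ext_iff]
  rw [ch_iff]
  refine ⟨hC, ?_, ?_⟩
  · intro i hi
    rcases h ⟨i, hi⟩ with ⟨_, h2⟩ | ⟨a, b, h1, h2, h3⟩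
    · exact Or.inl h2
    · exact Or.inr ⟨a, hs.mem _ _ h1, b, hs.mem _ _ h2, a.2, b.2, h3⟩
  · intro v hv
    rw [hu ⟨v, hv⟩]
    exact ⟨hs.lo ⟨v, hv⟩, hs.hi ⟨v, hv⟩⟩

/-- the selection of a choice list -/
theorem gsel_of_ch {n : ℕ} {us : List (List ℕ × List ℕ)} {lo hi : List ℕ} {C : List (List (ℕ × ℕ))}
    (h : Ch n us lo hi C) : ∃ s, GSel (gA n us) (gB n lo) (gB n hi) s ∧
      ∀ v : Fin n, use C v = #{p | s p = some v} := by
  classical
  obtain ⟨hC, h1, h2⟩ := ch_iff.1 h
  have h3 : ∀ i : Fin us.length, ∃ f : Bool → Option (Fin n), (f false = none ↔ f true = none) ∧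
      (∀ b v, f b = some v → gA n us (i, b) v) ∧
      ∀ v : Fin n, useU (C.getD i []) v =
        (if f false = some v then 1 else 0) + (if f true = some v then 1 else 0) := by
    intro i
    rcases h1 i i.2 with h4 | ⟨s, hs, t, ht, hs', ht', h4⟩
    · refine ⟨fun _ => none, by simp, by simp, ?_⟩
      intro v
      rw [h4]; simp [useU_nil]
    · refine ⟨fun b => bif b then some ⟨t, ht'⟩ else some ⟨s, hs'⟩, by simp, ?_, ?_⟩
      · intro b v hv
        rcases b with _ | _
        · simp only [cond_false, Option.some.injEq] at hv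
          subst hv
          exact hs
        · simp only [cond_true, Option.some.injEq] at hv
          subst hv
          exact ht
      · intro v
        rw [h4, useU_single]
        simp only [cond_false, cond_true, Option.some.injEq, Fin.ext_iff]
  choose f hf1 hf2 hf3 using h3
  have hu := use_sum (fun p : Fin us.length × Bool => f p.1 p.2) hC hf3
  refine ⟨fun p => f p.1 p.2, ⟨fun i => hf1 i, fun p v hv => hf2 p.1 p.2 v hv, ?_, ?_⟩, hu⟩
  · intro v
    rw [← hu]
    exact (h2 v v.2).1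
  · intro v
    rw [← hu]
    exact (h2 v v.2).2

/-! ### the theorems -/

/-- the length of `sel` -/
theorem sel_length (n : ℕ) (us : List (List ℕ × List ℕ)) (lo hi : List ℕ) :
    (sel n us lo hi).length = us.length := by
  simp [sel]

theorem sel_getD (n : ℕ) (us : List (List ℕ × List ℕ)) (lo hi : List ℕ) {i : ℕ} (h : i < us.length) :
    (sel n us lo hi).getD i [] = selU n (2 * us.length) (gpm n us lo hi).2 i := by
  unfold sel
  rw [List.getD_eq_getElem _ _ (by simpa using h)]
  simp

theorem gφ_quo {n K : ℕ} {us : List (List ℕ × List ℕ)} (v : Fin n) (c : Fin K) :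
    quo K (gφ n K us (.inl (v, c))) = v := by
  have hc := c.2
  have hK : 0 < K := by omega
  rw [quo_eq hK]
  simp only [gφ]
  rw [Nat.mul_add_div hK, Nat.div_eq_of_lt hc, add_zero]

/-- `sel` is a choice -/
theorem sel_ok {n : ℕ} {us : List (List ℕ × List ℕ)} {lo hi : List ℕ} (h : feas n us lo hi = true) :
    Ch n us lo hi (sel n us lo hi) := by
  unfold feas at h
  rw [Bool.and_eq_true, List.all_eq_true] at h
  obtain ⟨h1, h2⟩ := h
  have hlo : ∀ v : Fin n, gB n lo v ≤ 2 * us.length := by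
    intro v
    have := h1 v (List.mem_range.2 v.2)
    simpa [gB] using this
  have hP := (EDM.pm_spec (2 * us.length * n + 2 * us.length)
    (gadE n (2 * us.length) us lo hi)).1 h2
  have hI := (EDM.gra_pm (gφ_inj n (2 * us.length) us) (gφ_lt n _ us) (gφ_surj n _ us)
    (gφ_adj n _ us lo hi) _).1 hP
  change EDM.PM _ _ (gpm n us lo hi).2 at hP
  change EDM.IsPMof _ _ (gpm n us lo hi).2 at hI
  choose m hm hm' using hI.ex
  have hmm : ∀ w, m (m w) = w := fun w => (hm' (m w) w (hI.symm _ _ (hm w))).symm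
  have hma : ∀ w, (gG (gA n us) (gB n lo) (gB n hi)).Adj w (m w) := fun w => hI.sub _ _ (hm w)
  have hmate : ∀ w, EDM.mate (gpm n us lo hi).2 (gφ n (2 * us.length) us w) =
      gφ n (2 * us.length) us (m w) := fun w => EDM.mate_eq hP.mt (hm w)
  have hs := gsel_of_inv hlo hmm hma
  refine ch_of_gsel hs (sel_length n us lo hi) ?_
  intro i
  rw [sel_getD n us lo hi i.2]
  have e1 : 2 * us.length * n + 2 * (i : ℕ) = gφ n (2 * us.length) us (.inr (i, false)) := by
    simp [gφ]
  have e2 : 2 * us.length * n + 2 * (i : ℕ) + 1 = gφ n (2 * us.length) us (.inr (i, true)) := by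
    simp [gφ]
  unfold selU
  rw [e2, e1, hmate, hmate]
  rcases hf : m (.inr (i, false)) with ⟨a, c⟩ | q
  · right
    have h3 : rd m (i, false) = some a := rd_some.2 ⟨c, hf⟩
    have h4 : rd m (i, true) ≠ none := by
      intro h4
      rw [(hs.pair i).2 h4] at h3
      simp at h3
    obtain ⟨b, hb⟩ := Option.ne_none_iff_exists'.1 h4
    obtain ⟨c', hc'⟩ := rd_some.1 hb
    refine ⟨a, b, h3, hb, ?_⟩
    rw [hc', gφ_quo, gφ_quo]
    have h5 : gφ n (2 * us.length) us (.inl (a, c)) < 2 * us.length * n := lin_lt c.2 a.2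
    rw [decide_eq_true h5, cond_true]
  · left
    refine ⟨rd_none.2 ⟨q, hf⟩, ?_⟩
    have h5 : ¬ gφ n (2 * us.length) us (.inr q) < 2 * us.length * n := by
      simp only [gφ]; omega
    rw [decide_eq_false h5, cond_false]

/-- an involution along edges gives a perfect matching -/
theorem pm_of_inv {W : Type*} (G : SimpleGraph W) (m : W → W) (h1 : ∀ w, m (m w) = w)
    (h2 : ∀ w, G.Adj w (m w)) : ∃ M : G.Subgraph, M.IsPerfectMatching := by
  refine ⟨{ verts := Set.univ, Adj := fun a b => m a = b, adj_sub := ?_, edge_vert := ?_,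
            symm := ?_ }, ?_, ?_⟩
  · rintro a b rfl; exact h2 a
  · intro a b _; trivial
  · exact ⟨by rintro a b rfl; exact h1 a⟩
  · intro a _
    refine ⟨m a, rfl, fun b hb => ?_⟩
    have hb' : m a = b := hb
    exact hb'.symm
  · intro a; trivial

/-- `feas` decides whether there is a choice -/
theorem feas_iff (n : ℕ) (us : List (List ℕ × List ℕ)) (lo hi : List ℕ) :
    feas n us lo hi = true ↔ ∃ C, Ch n us lo hi C := by
  constructor
  · intro h; exact ⟨_, sel_ok h⟩
  · rintro ⟨C, hC⟩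
    obtain ⟨s, hs, hu⟩ := gsel_of_ch hC
    obtain ⟨m, h1, h2⟩ := inv_of_gsel (K := 2 * us.length) hs
      (fun v => by rw [← hu]; exact use_le hC.ch v) (by omega)
    have h3 := (EDM.pm_graph (gφ_inj n (2 * us.length) us) (gφ_lt n _ us) (gφ_surj n _ us)
      (gφ_adj n _ us lo hi)).2 (pm_of_inv _ m h1 h2)
    unfold feas
    rw [Bool.and_eq_true, List.all_eq_true]
    refine ⟨?_, h3⟩
    intro v hv
    rw [List.mem_range] at hv
    have := hC.lo v hv
    have := use_le hC.ch v
    rw [decide_eq_true_eq]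
    omega

end Pool.Agent.PF4.Gd

end

section -- file PF4/Cap

/-!
2-factors without 4-cycles in polynomial time: the round gadget. `ps` is a list of pieces, a piece is a list
of units; the vector of a piece (a list of vertices with multiplicity) is at most 2 at each vertex. The sum
of the vectors is `τ - e_v` with `v` in `Um` or `τ + e_v` with `v` in `Up`.
-/

set_option autoImplicit false

namespace Pool.Agent.PF4.Gd

open Finset Pool.Agent.Lib.helper60

/-! ### definitions -/

/-- shift a unit -/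
def shU (n o : ℕ) (u : List ℕ × List ℕ) : List ℕ × List ℕ :=
  ((u.1.filter fun s => decide (s < n)).map fun s => o + s,
    (u.2.filter fun s => decide (s < n)).map fun s => o + s)

/-- the units of the pieces, for each piece its own copy of the vertices -/
def pcU (n o : ℕ) (ps : List (List (List ℕ × List ℕ))) : List (List ℕ × List ℕ) :=
  (List.range ps.length).flatMap fun j => (ps.getD j []).map fun u => shU n (o + n * j) u

/-- units which join two numbers -/
def sU (m : ℕ) (f g : ℕ → ℕ) : List (List ℕ × List ℕ) := (List.range m).map fun i => ([f i], [g i])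

/-- remainder -/
def md (n y : ℕ) : ℕ := y - n * quo n y

/-- the first number of the slots -/
def c0 (n : ℕ) : ℕ := 2 * n + 1

/-- the ends of the token -/
def tok (n : ℕ) (Um Up : List ℕ) : List ℕ × List ℕ :=
  ((Um.filter fun s => decide (s < n)) ++ ((Up.filter fun s => decide (s < n)).map fun s => n + s),
    [2 * n])

/-- the units of the round gadget -/
def capU (n : ℕ) (ps : List (List (List ℕ × List ℕ))) (Um Up : List ℕ) : List (List ℕ × List ℕ) :=
  pcU n (c0 n) ps ++
  (sU (n * ps.length) (fun y => c0 n + y) (fun y => c0 n + n * ps.length + y) ++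
  (sU (n * ps.length) (fun y => c0 n + y) (fun y => c0 n + n * ps.length + y) ++
  (sU (n * ps.length) (fun y => c0 n + n * ps.length + y) (fun y => md n y) ++
  (sU (n * ps.length) (fun y => c0 n + n * ps.length + y) (fun y => md n y) ++
  (sU n (fun v => v) (fun v => n + v) ++ [tok n Um Up])))))

/-- the number of the vertices of the round gadget -/
def capN (n J : ℕ) : ℕ := c0 n + n * J + n * J

/-- the bounds of the round gadget -/
def capB (n : ℕ) (τ : List ℕ) (J : ℕ) : List ℕ := (List.range (capN n J)).map fun x =>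
  bif decide (x < n) then τ.getD x 0 + 1 else bif decide (x < c0 n) then 1 else 2

/-- is there a configuration? -/
def capF (n : ℕ) (τ : List ℕ) (ps : List (List (List ℕ × List ℕ))) (Um Up : List ℕ) : Bool :=
  feas (capN n ps.length) (capU n ps Um Up) (capB n τ ps.length) (capB n τ ps.length)

/-- the choice -/
def capC (n : ℕ) (τ : List ℕ) (ps : List (List (List ℕ × List ℕ))) (Um Up : List ℕ) :
    List (List (ℕ × ℕ)) :=
  sel (capN n ps.length) (capU n ps Um Up) (capB n τ ps.length) (capB n τ ps.length)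

/-- the reversed choice, without the part which is not about the pieces -/
def capD (n : ℕ) (τ : List ℕ) (ps : List (List (List ℕ × List ℕ))) (Um Up : List ℕ) :
    List (List (ℕ × ℕ)) :=
  (capC n τ ps Um Up).reverse.drop (n * ps.length + (n * ps.length + (n * ps.length +
    (n * ps.length + (n + 1)))))

/-- the end points of a choice -/
def vec (C : List (List (ℕ × ℕ))) : List ℕ := C.flatten.flatMap fun e => [e.1, e.2]

/-- the part of a vector in a block -/
def blk (n o : ℕ) (l : List ℕ) : List ℕ :=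
  (l.filter fun x => decide (o ≤ x) && decide (x < o + n)).map fun x => x - o

/-- the vectors of the pieces -/
def capS (n : ℕ) (τ : List ℕ) (ps : List (List (List ℕ × List ℕ))) (Um Up : List ℕ) :
    List (List ℕ) :=
  (List.range ps.length).map fun j => blk n (c0 n + n * j) (vec (capD n τ ps Um Up))

/-- the port (`s`: `τ - e_s`; `n + v`: `τ + e_v`) -/
def capP (n : ℕ) (τ : List ℕ) (ps : List (List (List ℕ × List ℕ))) (Um Up : List ℕ) : ℕ :=
  (vec [(capC n τ ps Um Up).reverse.headD []]).headD 0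

/-- `k` is a vector of the piece `p`, at most 2 everywhere -/
def PV (n : ℕ) (p : List (List ℕ × List ℕ)) (k : List ℕ) : Prop :=
  ∃ C, List.Forall₂ (ChU n) p C ∧ ∀ v, k.count v = use C v ∧ k.count v ≤ 2

/-- `ks` are vectors of the pieces; their sum is at the port `s` -/
structure Cfg (n : ℕ) (τ : List ℕ) (ps : List (List (List ℕ × List ℕ))) (Um Up : List ℕ)
    (ks : List (List ℕ)) (s : ℕ) : Prop where
  pv : List.Forall₂ (PV n) ps ks
  port : (s ∈ Um ∧ s < n ∧
      ∀ v < n, (ks.map fun k => k.count v).sum + (if s = v then 1 else 0) = τ.getD v 0) ∨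
    (∃ v₀ ∈ Up, v₀ < n ∧ s = n + v₀ ∧
      ∀ v < n, (ks.map fun k => k.count v).sum = τ.getD v 0 + (if v₀ = v then 1 else 0))

/-! ### polynomial time -/

variable {ι : Type} [DEnc ι]

theorem pt_shU {n o : ι → ℕ} {u : ι → List ℕ × List ℕ} (hn : PT n) (ho : PT o) (hu : PT u) :
    PT (fun x => shU (n x) (o x) (u x)) := by
  have h : ∀ {l : ι → List ℕ}, PT l →
      PT (fun x => ((l x).filter fun s => decide (s < n x)).map fun s => o x + s) := fun hl =>
    PT.map (PT.filter hl (p := fun y : ι × ℕ => decide (y.2 < n y.1)) (PT.nlt PT.snd (hn.comp PT.fst)))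
      (g := fun y : ι × ℕ => o y.1 + y.2) (PT.nadd (ho.comp PT.fst) PT.snd)
  exact PT.pair (h (PT.p1 hu)) (h (PT.p2 hu))

theorem pt_pcU {n o : ι → ℕ} {ps : ι → List (List (List ℕ × List ℕ))} (hn : PT n) (ho : PT o)
    (hp : PT ps) : PT (fun x => pcU (n x) (o x) (ps x)) := by
  refine PT.flatMap (PT.range (PT.length hp)) (g := fun y : ι × ℕ =>
    ((ps y.1).getD y.2 []).map fun u => shU (n y.1) (o y.1 + n y.1 * y.2) u) ?_
  refine PT.map (PT.getD (hp.comp PT.fst) PT.snd (PT.const [])) (g := fun z : (ι × ℕ) × (List ℕ × List ℕ) =>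
    shU (n z.1.1) (o z.1.1 + n z.1.1 * z.1.2) z.2) ?_
  exact pt_shU (hn.comp (PT.p1 PT.fst)) (PT.nadd (ho.comp (PT.p1 PT.fst))
    (PT.nmul (hn.comp (PT.p1 PT.fst)) (PT.p2 PT.fst))) PT.snd

theorem pt_sU {m : ι → ℕ} {f g : ι × ℕ → ℕ} (hm : PT m) (hf : PT f) (hg : PT g) :
    PT (fun x => sU (m x) (fun y => f (x, y)) (fun y => g (x, y))) :=
  PT.map (PT.range hm) (g := fun y : ι × ℕ => ([f y], [g y]))
    (PT.pair (PT.cons hf (PT.const [])) (PT.cons hg (PT.const [])))

theorem pt_md {n y : ι → ℕ} (hn : PT n) (hy : PT y) : PT (fun x => md (n x) (y x)) :=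
  PT.nsub hy (PT.nmul hn (pt_quo hn hy))

theorem pt_c0 {n : ι → ℕ} (hn : PT n) : PT (fun x => c0 (n x)) :=
  PT.nsucc (PT.nmul (PT.const 2) hn)

theorem pt_tok {n : ι → ℕ} {Um Up : ι → List ℕ} (hn : PT n) (hm : PT Um) (hp : PT Up) :
    PT (fun x => tok (n x) (Um x) (Up x)) := by
  have h : ∀ {l : ι → List ℕ}, PT l → PT (fun x => (l x).filter fun s => decide (s < n x)) := fun hl =>
    PT.filter hl (p := fun y : ι × ℕ => decide (y.2 < n y.1)) (PT.nlt PT.snd (hn.comp PT.fst))
  exact PT.pair (PT.append (h hm) (PT.map (h hp) (g := fun y : ι × ℕ => n y.1 + y.2)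
    (PT.nadd (hn.comp PT.fst) PT.snd))) (PT.cons (PT.nmul (PT.const 2) hn) (PT.const []))

theorem pt_capU {n : ι → ℕ} {ps : ι → List (List (List ℕ × List ℕ))} {Um Up : ι → List ℕ} (hn : PT n)
    (hps : PT ps) (hm : PT Um) (hp : PT Up) : PT (fun x => capU (n x) (ps x) (Um x) (Up x)) := by
  have hJ : PT (fun x => n x * (ps x).length) := PT.nmul hn (PT.length hps)
  have h1 : PT (fun y : ι × ℕ => c0 (n y.1) + y.2) := PT.nadd (pt_c0 (hn.comp PT.fst)) PT.snd
  have h2 : PT (fun y : ι × ℕ => c0 (n y.1) + n y.1 * (ps y.1).length + y.2) :=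
    PT.nadd (PT.nadd (pt_c0 (hn.comp PT.fst)) (hJ.comp PT.fst)) PT.snd
  have h3 : PT (fun y : ι × ℕ => md (n y.1) y.2) := pt_md (hn.comp PT.fst) PT.snd
  have s1 := pt_sU hJ h1 h2
  have s2 := pt_sU hJ h2 h3
  have s3 := pt_sU (f := fun y : ι × ℕ => y.2) (g := fun y : ι × ℕ => n y.1 + y.2) hn PT.snd
    (PT.nadd (hn.comp PT.fst) PT.snd)
  exact PT.append (pt_pcU hn (pt_c0 hn) hps) (PT.append s1 (PT.append s1 (PT.append s2 (PT.append s2
    (PT.append s3 (PT.cons (pt_tok hn hm hp) (PT.const [])))))))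

theorem pt_capN {n J : ι → ℕ} (hn : PT n) (hJ : PT J) : PT (fun x => capN (n x) (J x)) :=
  PT.nadd (PT.nadd (pt_c0 hn) (PT.nmul hn hJ)) (PT.nmul hn hJ)

theorem pt_capB {n J : ι → ℕ} {τ : ι → List ℕ} (hn : PT n) (hτ : PT τ) (hJ : PT J) :
    PT (fun x => capB (n x) (τ x) (J x)) := by
  refine PT.map (PT.range (pt_capN hn hJ)) (g := fun y : ι × ℕ =>
    bif decide (y.2 < n y.1) then (τ y.1).getD y.2 0 + 1 else
      bif decide (y.2 < c0 (n y.1)) then 1 else 2) ?_
  exact PT.cond (PT.nlt PT.snd (hn.comp PT.fst))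
    (PT.nsucc (PT.getD (hτ.comp PT.fst) PT.snd (PT.const 0)))
    (PT.cond (PT.nlt PT.snd (pt_c0 (hn.comp PT.fst))) (PT.const 1) (PT.const 2))

theorem pt_capF {n : ι → ℕ} {τ : ι → List ℕ} {ps : ι → List (List (List ℕ × List ℕ))}
    {Um Up : ι → List ℕ} (hn : PT n) (hτ : PT τ) (hps : PT ps) (hm : PT Um) (hp : PT Up) :
    PT (fun x => capF (n x) (τ x) (ps x) (Um x) (Up x)) :=
  pt_feas (pt_capN hn (PT.length hps)) (pt_capU hn hps hm hp) (pt_capB hn hτ (PT.length hps))
    (pt_capB hn hτ (PT.length hps))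

theorem pt_capC {n : ι → ℕ} {τ : ι → List ℕ} {ps : ι → List (List (List ℕ × List ℕ))}
    {Um Up : ι → List ℕ} (hn : PT n) (hτ : PT τ) (hps : PT ps) (hm : PT Um) (hp : PT Up) :
    PT (fun x => capC (n x) (τ x) (ps x) (Um x) (Up x)) :=
  pt_sel (pt_capN hn (PT.length hps)) (pt_capU hn hps hm hp) (pt_capB hn hτ (PT.length hps))
    (pt_capB hn hτ (PT.length hps))

theorem pt_capD {n : ι → ℕ} {τ : ι → List ℕ} {ps : ι → List (List (List ℕ × List ℕ))}
    {Um Up : ι → List ℕ} (hn : PT n) (hτ : PT τ) (hps : PT ps) (hm : PT Um) (hp : PT Up) :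
    PT (fun x => capD (n x) (τ x) (ps x) (Um x) (Up x)) := by
  have hJ : PT (fun x => n x * (ps x).length) := PT.nmul hn (PT.length hps)
  exact PT.drop (PT.nadd hJ (PT.nadd hJ (PT.nadd hJ (PT.nadd hJ (PT.nsucc hn)))))
    (PT.reverse (pt_capC hn hτ hps hm hp))

theorem pt_vec {C : ι → List (List (ℕ × ℕ))} (hC : PT C) : PT (fun x => vec (C x)) :=
  PT.flatMap (PT.flatten hC) (g := fun y : ι × (ℕ × ℕ) => [y.2.1, y.2.2])
    (PT.cons (PT.p1 PT.snd) (PT.cons (PT.p2 PT.snd) (PT.const [])))

theorem pt_blk {n o : ι → ℕ} {l : ι → List ℕ} (hn : PT n) (ho : PT o) (hl : PT l) :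
    PT (fun x => blk (n x) (o x) (l x)) :=
  PT.map (PT.filter hl (p := fun y : ι × ℕ => decide (o y.1 ≤ y.2) && decide (y.2 < o y.1 + n y.1))
    (PT.band (PT.nle (ho.comp PT.fst) PT.snd)
      (PT.nlt PT.snd (PT.nadd (ho.comp PT.fst) (hn.comp PT.fst)))))
    (g := fun y : ι × ℕ => y.2 - o y.1) (PT.nsub PT.snd (ho.comp PT.fst))

theorem pt_capS {n : ι → ℕ} {τ : ι → List ℕ} {ps : ι → List (List (List ℕ × List ℕ))}
    {Um Up : ι → List ℕ} (hn : PT n) (hτ : PT τ) (hps : PT ps) (hm : PT Um) (hp : PT Up) :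
    PT (fun x => capS (n x) (τ x) (ps x) (Um x) (Up x)) := by
  have hV := pt_vec (pt_capD hn hτ hps hm hp)
  have h := PT.map (ι := ι × List ℕ) (l := fun x => List.range (ps x.1).length)
    (g := fun y : (ι × List ℕ) × ℕ => blk (n y.1.1) (c0 (n y.1.1) + n y.1.1 * y.2) y.1.2)
    (PT.range (PT.length (hps.comp PT.fst)))
    (pt_blk (hn.comp (PT.p1 PT.fst)) (PT.nadd (pt_c0 (hn.comp (PT.p1 PT.fst)))
      (PT.nmul (hn.comp (PT.p1 PT.fst)) PT.snd)) (PT.p2 PT.fst))
  exact h.comp (f := fun x => (x, vec (capD (n x) (τ x) (ps x) (Um x) (Up x)))) (PT.pair PT.id hV)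

theorem pt_capP {n : ι → ℕ} {τ : ι → List ℕ} {ps : ι → List (List (List ℕ × List ℕ))}
    {Um Up : ι → List ℕ} (hn : PT n) (hτ : PT τ) (hps : PT ps) (hm : PT Um) (hp : PT Up) :
    PT (fun x => capP (n x) (τ x) (ps x) (Um x) (Up x)) :=
  PT.headD (pt_vec (PT.cons (PT.headD (PT.reverse (pt_capC hn hτ hps hm hp)) (PT.const []))
    (PT.const []))) (PT.const 0)

end Pool.Agent.PF4.Gd

end

section -- file PF4/CapC

/-!
2-factors without 4-cycles in polynomial time: correctness of the round gadget, the parts.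
-/

set_option autoImplicit false

namespace Pool.Agent.PF4.Gd

open Finset

/-! ### lists -/

theorem f2_split {α β : Type*} {R : α → β → Prop} {l₁ l₂ : List α} {l : List β}
    (h : List.Forall₂ R (l₁ ++ l₂) l) :
    ∃ a b, l = a ++ b ∧ List.Forall₂ R l₁ a ∧ List.Forall₂ R l₂ b := by
  induction l₁ generalizing l with
  | nil => exact ⟨[], l, rfl, List.Forall₂.nil, h⟩
  | cons x l₁ ih =>
    cases h with
    | cons h1 h2 =>
      obtain ⟨a, b, rfl, h3, h4⟩ := ih h2
      exact ⟨_ :: a, b, rfl, List.Forall₂.cons h1 h3, h4⟩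

theorem use_reverse (C : List (List (ℕ × ℕ))) (v : ℕ) : use C.reverse v = use C v := by
  simp [use, List.map_reverse, List.sum_reverse]

theorem use_zero {n : ℕ} {us : List (List ℕ × List ℕ)} {C : List (List (ℕ × ℕ))}
    (h : List.Forall₂ (ChU n) us C) {v : ℕ} (hv : n ≤ v) : use C v = 0 := by
  induction h with
  | nil => rfl
  | cons h1 _ ih =>
    rw [use_cons, ih]
    rcases h1 with rfl | ⟨s, _, t, _, h1, h2, rfl⟩
    · rfl
    · rw [useU_single, if_neg (by omega), if_neg (by omega)]

theorem count_vec (C : List (List (ℕ × ℕ))) (v : ℕ) : (vec C).count v = use C v := by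
  have h1 : ∀ c : List (ℕ × ℕ), (c.flatMap fun e => [e.1, e.2]).count v = useU c v := by
    intro c
    induction c with
    | nil => rfl
    | cons e c ih =>
      rw [List.flatMap_cons, List.count_append, ih]
      unfold useU
      rw [List.filter_cons, List.filter_cons]
      simp only [List.count_cons, List.count_nil, beq_iff_eq, decide_eq_true_eq]
      split_ifs <;> simp <;> omega
  induction C with
  | nil => rfl
  | cons c C ih =>
    rw [use_cons, ← ih, ← h1]
    unfold vec
    rw [List.flatten_cons, List.flatMap_append, List.count_append]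

theorem count_blk (n o : ℕ) (l : List ℕ) (v : ℕ) :
    (blk n o l).count v = if v < n then l.count (o + v) else 0 := by
  unfold blk
  induction l with
  | nil => simp
  | cons x l ih =>
    rw [List.filter_cons]
    by_cases h : o ≤ x ∧ x < o + n
    · rw [if_pos (by simpa using h), List.map_cons, List.count_cons, ih, List.count_cons]
      by_cases hv : v < n
      · have : (x - o == v) = (x == o + v) := by
          rw [Bool.eq_iff_iff, beq_iff_eq, beq_iff_eq]; omega
        simp only [hv, if_true, this]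
      · have : (x - o == v) = false := by
          rw [beq_eq_false_iff_ne]; omega
        simp [hv, this]
    · rw [if_neg (by simpa using h), ih, List.count_cons]
      by_cases hv : v < n
      · have : (x == o + v) = false := by
          rw [beq_eq_false_iff_ne]; omega
        simp [hv, this]
      · simp [hv]

theorem list_sum_range (m : ℕ) (F : ℕ → ℕ) : ((List.range m).map F).sum = ∑ i ∈ range m, F i := by
  induction m with
  | zero => rfl
  | succ m ih => rw [List.range_succ, List.map_append, List.sum_append, ih, Finset.sum_range_succ]; simp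

/-! ### simple units -/

/-- the number of uses by simple units -/
def sX (m : ℕ) (f g : ℕ → ℕ) (χ : ℕ → ℕ) (x : ℕ) : ℕ :=
  ∑ i ∈ range m, χ i * ((if f i = x then 1 else 0) + (if g i = x then 1 else 0))

theorem sU_length (m : ℕ) (f g : ℕ → ℕ) : (sU m f g).length = m := by simp [sU]

theorem sU_use {N m : ℕ} {f g : ℕ → ℕ} {C : List (List (ℕ × ℕ))}
    (h : List.Forall₂ (ChU N) (sU m f g) C) :
    ∃ χ : ℕ → ℕ, (∀ i < m, χ i ≤ 1) ∧ ∀ x, use C x = sX m f g χ x := by
  have hl : C.length = m := by rw [← h.length_eq, sU_length]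
  have h1 : ∀ i < m, C.getD i [] = [] ∨ C.getD i [] = [(f i, g i)] := by
    intro i hi
    have h2 := (List.forall₂_iff_get.1 h).2 i (by rwa [sU_length]) (by rwa [hl])
    rw [List.getD_eq_getElem _ _ (by rwa [hl])]
    simp only [List.get_eq_getElem, sU, List.getElem_map, List.getElem_range] at h2
    rcases h2 with h2 | ⟨s, hs, t, ht, _, _, h2⟩
    · exact Or.inl h2
    · right
      rw [h2]
      simp only [List.mem_singleton] at hs ht
      rw [hs, ht]
  refine ⟨fun i => (C.getD i []).length, ?_, ?_⟩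
  · intro i hi
    dsimp only
    rcases h1 i hi with h2 | h2
    · rw [h2]; simp
    · rw [h2]; simp
  · intro x
    unfold use sX
    rw [← sum_getD (fun c => useU c x) [],
      ← Finset.sum_range (n := C.length) (f := fun i => useU (C.getD i []) x), hl]
    refine Finset.sum_congr rfl fun i hi => ?_
    dsimp only
    rcases h1 i (Finset.mem_range.1 hi) with h2 | h2
    · rw [h2, useU_nil, List.length_nil, zero_mul]
    · rw [h2, useU_single, List.length_singleton, one_mul]

theorem sU_mk {N m : ℕ} {f g : ℕ → ℕ} (hf : ∀ i < m, f i < N) (hg : ∀ i < m, g i < N) (χ : ℕ → ℕ)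
    (hχ : ∀ i < m, χ i ≤ 1) :
    ∃ C, List.Forall₂ (ChU N) (sU m f g) C ∧ ∀ x, use C x = sX m f g χ x := by
  refine ⟨(List.range m).map fun i => if χ i = 0 then [] else [(f i, g i)], ?_, ?_⟩
  · unfold sU
    rw [List.forall₂_map_left_iff, List.forall₂_map_right_iff, List.forall₂_same]
    intro i hi
    rw [List.mem_range] at hi
    by_cases h : χ i = 0
    · rw [if_pos h]; exact Or.inl rfl
    · rw [if_neg h]
      exact Or.inr ⟨f i, List.mem_singleton.2 rfl, g i, List.mem_singleton.2 rfl, hf i hi, hg i hi, rfl⟩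
  · intro x
    unfold use sX
    rw [List.map_map, list_sum_range]
    refine Finset.sum_congr rfl fun i hi => ?_
    rw [Function.comp_apply]
    have h1 := hχ i (Finset.mem_range.1 hi)
    by_cases h : χ i = 0
    · rw [if_pos h, useU_nil, h, zero_mul]
    · rw [if_neg h, useU_single, show χ i = 1 by omega, one_mul]

/-! ### the pieces -/

theorem mem_shU1 {n o : ℕ} {u : List ℕ × List ℕ} {x : ℕ} :
    x ∈ (shU n o u).1 ↔ ∃ s ∈ u.1, s < n ∧ o + s = x := by
  simp only [shU, List.mem_map, List.mem_filter, decide_eq_true_eq, and_assoc]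

theorem mem_shU2 {n o : ℕ} {u : List ℕ × List ℕ} {x : ℕ} :
    x ∈ (shU n o u).2 ↔ ∃ s ∈ u.2, s < n ∧ o + s = x := by
  simp only [shU, List.mem_map, List.mem_filter, decide_eq_true_eq, and_assoc]

theorem shU_fwd {N n o : ℕ} {p : List (List ℕ × List ℕ)} {C : List (List (ℕ × ℕ))}
    (h : List.Forall₂ (ChU N) (p.map fun u => shU n o u) C) :
    ∃ D, List.Forall₂ (ChU n) p D ∧ (∀ v < n, use C (o + v) = use D v) ∧
      ∀ x, (x < o ∨ o + n ≤ x) → use C x = 0 := by
  induction p generalizing C with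
  | nil =>
    cases h
    exact ⟨[], List.Forall₂.nil, fun _ _ => rfl, fun _ _ => rfl⟩
  | cons u p ih =>
    rw [List.map_cons] at h
    cases h with
    | @cons _ c _ C h1 h2 =>
      obtain ⟨D, hD, h3, h4⟩ := ih h2
      rcases h1 with rfl | ⟨s, hs, t, ht, _, _, rfl⟩
      · refine ⟨[] :: D, List.Forall₂.cons (Or.inl rfl) hD, ?_, ?_⟩
        · intro v hv; rw [use_cons, use_cons, h3 v hv]; rfl
        · intro x hx; rw [use_cons, h4 x hx]; rfl
      · obtain ⟨s', hs', hs1, rfl⟩ := mem_shU1.1 hs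
        obtain ⟨t', ht', ht1, rfl⟩ := mem_shU2.1 ht
        refine ⟨[(s', t')] :: D,
          List.Forall₂.cons (Or.inr ⟨s', hs', t', ht', hs1, ht1, rfl⟩) hD, ?_, ?_⟩
        · intro v hv
          rw [use_cons, use_cons, h3 v hv, useU_single, useU_single]
          simp only [Nat.add_left_cancel_iff]
        · intro x hx
          rw [use_cons, h4 x hx, useU_single, if_neg (by omega), if_neg (by omega)]

theorem shU_bwd {N n o : ℕ} (hN : o + n ≤ N) {p : List (List ℕ × List ℕ)} {D : List (List (ℕ × ℕ))}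
    (h : List.Forall₂ (ChU n) p D) :
    ∃ C, List.Forall₂ (ChU N) (p.map fun u => shU n o u) C ∧ (∀ v < n, use C (o + v) = use D v) ∧
      ∀ x, (x < o ∨ o + n ≤ x) → use C x = 0 := by
  induction h with
  | nil => exact ⟨[], List.Forall₂.nil, fun _ _ => rfl, fun _ _ => rfl⟩
  | @cons u c p D h1 _ ih =>
    obtain ⟨C, hC, h3, h4⟩ := ih
    rcases h1 with rfl | ⟨s, hs, t, ht, hs1, ht1, rfl⟩
    · refine ⟨[] :: C, List.Forall₂.cons (Or.inl rfl) hC, ?_, ?_⟩
      · intro v hv; rw [use_cons, use_cons, h3 v hv]; rfl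
      · intro x hx; rw [use_cons, h4 x hx]; rfl
    · refine ⟨[(o + s, o + t)] :: C, List.Forall₂.cons (Or.inr ⟨o + s, mem_shU1.2 ⟨s, hs, hs1, rfl⟩,
        o + t, mem_shU2.2 ⟨t, ht, ht1, rfl⟩, by omega, by omega, rfl⟩) hC, ?_, ?_⟩
      · intro v hv
        rw [use_cons, use_cons, h3 v hv, useU_single, useU_single]
        simp only [Nat.add_left_cancel_iff]
      · intro x hx
        rw [use_cons, h4 x hx, useU_single, if_neg (by omega), if_neg (by omega)]

theorem pcU_nil (n o : ℕ) : pcU n o [] = [] := rfl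

theorem pcU_cons (n o : ℕ) (p : List (List ℕ × List ℕ)) (ps : List (List (List ℕ × List ℕ))) :
    pcU n o (p :: ps) = (p.map fun u => shU n o u) ++ pcU n (o + n) ps := by
  unfold pcU
  rw [List.length_cons, List.range_succ_eq_map, List.flatMap_cons, List.flatMap_map]
  congr 1
  refine List.flatMap_congr fun j _ => ?_
  rw [List.getD_cons_succ]
  have e : o + n * (j + 1) = o + n + n * j := by ring
  rw [e]

theorem pcU_fwd {N n o : ℕ} {ps : List (List (List ℕ × List ℕ))} {C : List (List (ℕ × ℕ))}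
    (h : List.Forall₂ (ChU N) (pcU n o ps) C) :
    ∃ D : List (List (List (ℕ × ℕ))), List.Forall₂ (List.Forall₂ (ChU n)) ps D ∧
      (∀ j < ps.length, ∀ v < n, use C (o + n * j + v) = use (D.getD j []) v) ∧
      ∀ x, (x < o ∨ o + n * ps.length ≤ x) → use C x = 0 := by
  induction ps generalizing o C with
  | nil =>
    rw [pcU_nil] at h
    cases h
    exact ⟨[], List.Forall₂.nil, fun j hj => absurd hj (by simp), fun _ _ => rfl⟩
  | cons p ps ih =>
    rw [pcU_cons] at h
    obtain ⟨A, B, rfl, h1, h2⟩ := f2_split h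
    obtain ⟨D1, hD1, a1, a2⟩ := shU_fwd h1
    obtain ⟨D, hD, b1, b2⟩ := ih h2
    refine ⟨D1 :: D, List.Forall₂.cons hD1 hD, ?_, ?_⟩
    · intro j hj v hv
      rcases j with _ | j
      · rw [use_append, List.getD_cons_zero]
        have e : o + n * 0 + v = o + v := by ring
        rw [e, a1 v hv, b2 _ (Or.inl (by omega)), add_zero]
      · rw [List.getD_cons_succ, use_append]
        have hj' : j < ps.length := by simpa using hj
        have e : o + n * (j + 1) + v = o + n + n * j + v := by ring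
        rw [e, b1 j hj' v hv, a2 _ (Or.inr (by omega)), zero_add]
    · intro x hx
      rw [List.length_cons] at hx
      have e : n * (ps.length + 1) = n * ps.length + n := by ring
      rw [e] at hx
      rw [use_append, a2 x (by omega), b2 x (by omega)]

theorem pcU_bwd {N n o : ℕ} {ps : List (List (List ℕ × List ℕ))} (hN : o + n * ps.length ≤ N)
    {D : List (List (List (ℕ × ℕ)))} (h : List.Forall₂ (List.Forall₂ (ChU n)) ps D) :
    ∃ C, List.Forall₂ (ChU N) (pcU n o ps) C ∧
      (∀ j < ps.length, ∀ v < n, use C (o + n * j + v) = use (D.getD j []) v) ∧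
      ∀ x, (x < o ∨ o + n * ps.length ≤ x) → use C x = 0 := by
  induction h generalizing o with
  | nil =>
    exact ⟨[], by rw [pcU_nil]; exact List.Forall₂.nil, fun j hj => absurd hj (by simp), fun _ _ => rfl⟩
  | @cons p D1 ps D h1 _ ih =>
    rw [List.length_cons] at hN
    have e : n * (ps.length + 1) = n * ps.length + n := by ring
    rw [e] at hN
    obtain ⟨A, hA, a1, a2⟩ := shU_bwd (N := N) (o := o) (by omega) h1
    obtain ⟨B, hB, b1, b2⟩ := ih (o := o + n) (by omega)
    refine ⟨A ++ B, by rw [pcU_cons]; exact List.rel_append hA hB, ?_, ?_⟩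
    · intro j hj v hv
      rcases j with _ | j
      · rw [use_append, List.getD_cons_zero]
        have e : o + n * 0 + v = o + v := by ring
        rw [e, a1 v hv, b2 _ (Or.inl (by omega)), add_zero]
      · rw [List.getD_cons_succ, use_append]
        have hj' : j < ps.length := by simpa using hj
        have e : o + n * (j + 1) + v = o + n + n * j + v := by ring
        rw [e, b1 j hj' v hv, a2 _ (Or.inr (by omega)), zero_add]
    · intro x hx
      rw [List.length_cons, e] at hx
      rw [use_append, a2 x (by omega), b2 x (by omega)]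

/-! ### the sums -/

theorem md_eq {n : ℕ} (hn : 0 < n) (y : ℕ) : md n y = y % n := by
  unfold md
  rw [quo_eq hn]
  have := Nat.div_add_mod y n
  omega

theorem sum_blocks (n J v : ℕ) (hv : v < n) (F : ℕ → ℕ) :
    ∑ i ∈ range (n * J), F i * (if md n i = v then 1 else 0) = ∑ j ∈ range J, F (n * j + v) := by
  have hn : 0 < n := by omega
  induction J with
  | zero => simp
  | succ J ih =>
    rw [Nat.mul_succ, Finset.sum_range_add, ih, Finset.sum_range_succ]
    congr 1
    rw [Finset.sum_eq_single v]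
    · rw [md_eq hn, Nat.mul_add_mod, Nat.mod_eq_of_lt hv, if_pos rfl, mul_one]
    · intro b hb hbv
      rw [md_eq hn, Nat.mul_add_mod, Nat.mod_eq_of_lt (Finset.mem_range.1 hb), if_neg hbv, mul_zero]
    · intro h
      exact absurd (Finset.mem_range.2 hv) h

/-- the uses of `x` by simple units when `f` and `g` do not take the value `x` -/
theorem sX_zero {m : ℕ} {f g χ : ℕ → ℕ} {x : ℕ} (h : ∀ i < m, f i ≠ x ∧ g i ≠ x) :
    sX m f g χ x = 0 := by
  unfold sX
  refine Finset.sum_eq_zero fun i hi => ?_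
  obtain ⟨h1, h2⟩ := h i (Finset.mem_range.1 hi)
  rw [if_neg h1, if_neg h2]
  ring

/-- when only `f y = x` -/
theorem sX_one {m : ℕ} {f g χ : ℕ → ℕ} {x y : ℕ} (hy : y < m) (h1 : ∀ i < m, f i = x ↔ i = y)
    (h2 : ∀ i < m, g i ≠ x) : sX m f g χ x = χ y := by
  unfold sX
  rw [Finset.sum_eq_single y]
  · rw [if_pos ((h1 y hy).2 rfl), if_neg (h2 y hy)]; ring
  · intro b hb hby
    have hb := Finset.mem_range.1 hb
    rw [if_neg (fun h => hby ((h1 b hb).1 h)), if_neg (h2 b hb)]
    ring
  · intro h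
    exact absurd (Finset.mem_range.2 hy) h

/-- when only `g y = x` -/
theorem sX_two {m : ℕ} {f g χ : ℕ → ℕ} {x y : ℕ} (hy : y < m) (h1 : ∀ i < m, g i = x ↔ i = y)
    (h2 : ∀ i < m, f i ≠ x) : sX m f g χ x = χ y := by
  unfold sX
  rw [Finset.sum_eq_single y]
  · rw [if_pos ((h1 y hy).2 rfl), if_neg (h2 y hy)]; ring
  · intro b hb hby
    have hb := Finset.mem_range.1 hb
    rw [if_neg (fun h => hby ((h1 b hb).1 h)), if_neg (h2 b hb)]
    ring
  · intro h
    exact absurd (Finset.mem_range.2 hy) h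

/-- when `f` does not take the value `x` -/
theorem sX_g {m : ℕ} {f g χ : ℕ → ℕ} {x : ℕ} (h : ∀ i < m, f i ≠ x) :
    sX m f g χ x = ∑ i ∈ range m, χ i * (if g i = x then 1 else 0) := by
  unfold sX
  refine Finset.sum_congr rfl fun i hi => ?_
  rw [if_neg (h i (Finset.mem_range.1 hi)), zero_add]

end Pool.Agent.PF4.Gd

end
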