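import Pool.Agent.PFN.M02

section -- file TFC/Mink

/-!
Calculus of jump sets: sums, units, restriction to coordinates.
-/

set_option autoImplicit false
set_option linter.unusedSectionVars false

namespace Pool.Agent.TFC

open Finset
open scoped Pointwise

variable {V : Type*} [DecidableEq V]

lemma jump_zero : Jump ({0} : Set (V → ℤ)) := by
  intro x hx y hy i ε _ h
  rw [Set.mem_singleton_iff] at hx hy
  subst hx; subst hy
  simp at h

/-- distance between two vectors -/
def Mink_N [Fintype V] (y a : V → ℤ) : ℕ := ∑ v, (y v - a v).natAbs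

lemma Mink_N_step [Fintype V] (y a : V → ℤ) (k : V) (δ : ℤ) (hδ : δ = 1 ∨ δ = -1)
    (h : 0 < δ * (y k - a k)) : Mink_N y (a + Pi.single k δ) + 1 = Mink_N y a := by
  unfold Mink_N
  have e : ∀ v, (y v - a v).natAbs =
      (y v - (a + Pi.single k δ : V → ℤ) v).natAbs + if v = k then 1 else 0 := by
    intro v
    by_cases hv : v = k
    · subst hv
      rw [if_pos rfl, Pi.add_apply, Pi.single_eq_same]
      rcases hδ with rfl | rfl <;> omega
    · rw [if_neg hv, Pi.add_apply, Pi.single_eq_of_ne hv]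
      simp
  rw [Finset.sum_congr rfl fun v _ => e v, Finset.sum_add_distrib]
  simp

lemma Mink_add_one [Fintype V] {J₁ J₂ : Set (V → ℤ)} (h₁ : Jump J₁)
    {y₁ y₂ : V → ℤ} (hy₁ : y₁ ∈ J₁) (u : V → ℤ)
    (a b : V → ℤ) (k : V) (δ : ℤ) (ha : a ∈ J₁) (hb : b ∈ J₂) (hδ : δ = 1 ∨ δ = -1)
    (hu : a + b + Pi.single k δ = u) (h : 0 < δ * (y₁ k - a k)) :
    (∃ (j : V) (δ' : ℤ), (δ' = 1 ∨ δ' = -1) ∧ 0 < δ' * ((y₁ + y₂) j - u j) ∧
        u + Pi.single j δ' ∈ J₁ + J₂) ∨
    ∃ (a' : V → ℤ) (j : V) (δ' : ℤ), a' ∈ J₁ ∧ (δ' = 1 ∨ δ' = -1) ∧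
      Mink_N y₁ a' + 2 = Mink_N y₁ a ∧ a' + b + Pi.single j δ' = u ∧
      (0 < δ' * (y₁ j - a' j) ∨ 0 < δ' * (y₂ j - b j)) := by
  obtain ⟨j, δ', hδ', hj, hm⟩ := h₁ a ha y₁ hy₁ k δ hδ h
  have hN1 := Mink_N_step y₁ a k δ hδ h
  have hN2 := Mink_N_step y₁ (a + Pi.single k δ) j δ' hδ' hj
  obtain ⟨a', ha'⟩ : ∃ a' : V → ℤ, a' = a + Pi.single k δ + Pi.single j δ' := ⟨_, rfl⟩
  rw [← ha'] at hm hN2
  have hsum : a' + b = u + Pi.single j δ' := by
    rw [← hu, ha']; abel
  by_cases hd : 0 < δ' * ((y₁ + y₂) j - u j)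
  · refine Or.inl ⟨j, δ', hδ', hd, ?_⟩
    rw [← hsum]
    exact Set.add_mem_add hm hb
  · refine Or.inr ⟨a', j, -δ', hm, by omega, by omega, ?_, ?_⟩
    · rw [hsum, Pi.single_neg, add_neg_cancel_right]
    · have hj0 : a' j + b j = u j + δ' := by
        have := congrFun hsum j
        rw [Pi.add_apply, Pi.add_apply, Pi.single_eq_same] at this
        exact this
      rw [Pi.add_apply] at hd
      rcases hδ' with rfl | rfl <;> omega

lemma Mink_add_aux [Fintype V] {J₁ J₂ : Set (V → ℤ)} (h₁ : Jump J₁) (h₂ : Jump J₂)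
    {y₁ y₂ : V → ℤ} (hy₁ : y₁ ∈ J₁) (hy₂ : y₂ ∈ J₂) (u : V → ℤ) (n : ℕ) :
    ∀ (a b : V → ℤ) (k : V) (δ : ℤ), a ∈ J₁ → b ∈ J₂ → (δ = 1 ∨ δ = -1) →
      Mink_N y₁ a + Mink_N y₂ b ≤ n → a + b + Pi.single k δ = u →
      (0 < δ * (y₁ k - a k) ∨ 0 < δ * (y₂ k - b k)) →
      ∃ (j : V) (δ' : ℤ), (δ' = 1 ∨ δ' = -1) ∧ 0 < δ' * ((y₁ + y₂) j - u j) ∧
        u + Pi.single j δ' ∈ J₁ + J₂ := by
  induction n using Nat.strong_induction_on with
  | _ n ih =>
  intro a b k δ ha hb hδ hn hu h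
  rcases h with h | h
  · rcases Mink_add_one (J₂ := J₂) (y₂ := y₂) h₁ hy₁ u a b k δ ha hb hδ hu h with hd | hd
    · exact hd
    · obtain ⟨a', j, δ', ha', hδ', hN, hu', h'⟩ := hd
      exact ih (Mink_N y₁ a' + Mink_N y₂ b) (by omega) a' b j δ' ha' hb hδ' le_rfl hu' h'
  · have hu2 : b + a + Pi.single k δ = u := by rw [add_comm b a]; exact hu
    rcases Mink_add_one (J₂ := J₁) (y₂ := y₁) h₂ hy₂ u b a k δ hb ha hδ hu2 h with hd | hd
    · rw [add_comm J₂ J₁, add_comm y₂ y₁] at hd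
      exact hd
    · obtain ⟨b', j, δ', hb', hδ', hN, hu', h'⟩ := hd
      exact ih (Mink_N y₁ a + Mink_N y₂ b') (by omega) a b' j δ' ha hb' hδ' le_rfl
        (by rw [add_comm a b']; exact hu') h'.symm

theorem Jump.add [Finite V] {J₁ J₂ : Set (V → ℤ)} (h₁ : Jump J₁) (h₂ : Jump J₂) :
    Jump (J₁ + J₂) := by
  have := Fintype.ofFinite V
  rintro x ⟨x₁, hx₁, x₂, hx₂, rfl⟩ y ⟨y₁, hy₁, y₂, hy₂, rfl⟩ i ε hε hpos
  refine Mink_add_aux h₁ h₂ hy₁ hy₂ _ _ x₁ x₂ i ε hx₁ hx₂ hε le_rfl rfl ?_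
  simp only [Pi.add_apply] at hpos
  rcases hε with rfl | rfl <;> omega

lemma Un_symm (S T : Finset V) : Un S T = Un T S := by
  have key : ∀ S T : Finset V, Un S T ⊆ Un T S := by
    intro S T x hx
    rcases hx with rfl | ⟨s, hs, t, ht, rfl⟩
    · exact Or.inl rfl
    · exact Or.inr ⟨t, ht, s, hs, add_comm _ _⟩
  exact Set.Subset.antisymm (key S T) (key T S)

lemma Mink_ev_apply (s v : V) : ev s v = if v = s then 1 else 0 := by
  unfold ev
  rw [Pi.single_apply]

lemma Mink_neg_single (s : V) : (Pi.single s (-1 : ℤ) : V → ℤ) = - ev s := single_neg_one s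

/-- step up at the first end -/
lemma Mink_up {S T : Finset V} {s t s' t' : V} (ht : t ∈ T) (hs' : s' ∈ S)
    (ht' : t' ∈ T) (h : (ev s + ev t : V → ℤ) s' < (ev s' + ev t' : V → ℤ) s') :
    ∃ (j : V) (δ : ℤ), (δ = 1 ∨ δ = -1) ∧
      0 < δ * ((ev s' + ev t' : V → ℤ) j - (ev s + ev t + Pi.single s' 1 : V → ℤ) j) ∧
      ev s + ev t + Pi.single s' 1 + Pi.single j δ ∈ Un S T := by
  have e1 : (Pi.single s' (1 : ℤ) : V → ℤ) = ev s' := rfl
  rw [e1]
  simp only [Pi.add_apply, Mink_ev_apply, if_true] at h ⊢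
  by_cases hss : s = s'
  · subst hss
    have htt : t' = s := by
      by_contra hne
      have hne' : s ≠ t' := fun e => hne e.symm
      simp only [if_neg hne', if_true] at h
      split_ifs at h <;> omega
    subst htt
    have hts : t ≠ t' := by
      rintro rfl
      simp at h
    refine ⟨t, -1, Or.inr rfl, ?_, ?_⟩
    · simp [hts]
    · rw [Mink_neg_single]
      refine Or.inr ⟨t', hs', t', ht', ?_⟩
      abel
  · by_cases h2 : (ev s' + ev t' : V → ℤ) s < (ev s + ev t + ev s' : V → ℤ) s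
    · refine ⟨s, -1, Or.inr rfl, ?_, ?_⟩
      · simp only [Pi.add_apply, Mink_ev_apply, if_true] at h2 ⊢
        omega
      · rw [Mink_neg_single]
        refine Or.inr ⟨s', hs', t, ht, ?_⟩
        abel
    · simp only [Pi.add_apply, Mink_ev_apply] at h2
      have hts : t' = s := by
        by_contra hne
        have hne' : s ≠ t' := fun e => hne e.symm
        apply h2
        simp only [if_neg hss, if_neg hne', if_true]
        split_ifs <;> omega
      subst hts
      have hts : t ≠ t' := by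
        rintro rfl
        apply h2
        simp [hss]
      refine ⟨t, -1, Or.inr rfl, ?_, ?_⟩
      · simp [hts]
      · rw [Mink_neg_single]
        refine Or.inr ⟨s', hs', t', ht', ?_⟩
        abel

/-- step down at the first end -/
lemma Mink_down {S T : Finset V} {s t s' t' : V} (ht : t ∈ T) (hs' : s' ∈ S) (ht' : t' ∈ T) :
    ∃ (j : V) (δ : ℤ), (δ = 1 ∨ δ = -1) ∧
      0 < δ * ((ev s' + ev t' : V → ℤ) j - (ev s + ev t + Pi.single s (-1) : V → ℤ) j) ∧
      ev s + ev t + Pi.single s (-1) + Pi.single j δ ∈ Un S T := by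
  have e0 : (ev s + ev t + Pi.single s (-1) : V → ℤ) = ev t := by
    rw [Mink_neg_single]; abel
  rw [e0]
  by_cases h : (ev t : V → ℤ) s' < (ev s' + ev t' : V → ℤ) s'
  · refine ⟨s', 1, Or.inl rfl, by linarith, Or.inr ⟨s', hs', t, ht, ?_⟩⟩
    show ev t + ev s' = ev s' + ev t
    abel
  · simp only [Pi.add_apply, Mink_ev_apply] at h
    have h1 : s' = t := by
      by_contra hne
      apply h
      simp only [if_neg hne, if_true]
      split_ifs <;> omega
    subst h1
    have h2 : s' ≠ t' := by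
      rintro rfl
      apply h
      simp
    refine ⟨t', 1, Or.inl rfl, ?_, Or.inr ⟨s', hs', t', ht', rfl⟩⟩
    simp only [Pi.add_apply, Mink_ev_apply]
    simp [h2.symm]

theorem jump_Un (S T : Finset V) : Jump (Un S T) := by
  intro x hx y hy i ε hε hpos
  rcases hx with rfl | ⟨s, hs, t, ht, rfl⟩
  · rcases hy with rfl | ⟨s', hs', t', ht', rfl⟩
    · simp at hpos
    · simp only [Pi.add_apply, Mink_ev_apply, Pi.zero_apply, sub_zero] at hpos
      have hε1 : ε = 1 := by
        rcases hε with rfl | rfl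
        · rfl
        · exfalso
          split_ifs at hpos <;> omega
      subst hε1
      have hi : i = s' ∨ i = t' := by
        by_contra hne
        push Not at hne
        rw [if_neg hne.1, if_neg hne.2] at hpos
        omega
      rcases hi with rfl | rfl
      · refine ⟨t', 1, Or.inl rfl, ?_, Or.inr ⟨i, hs', t', ht', ?_⟩⟩
        · show 0 < (1 : ℤ) * ((ev i + ev t' : V → ℤ) t' - (0 + ev i : V → ℤ) t')
          simp [Mink_ev_apply]
        · show (0 : V → ℤ) + ev i + ev t' = _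
          rw [zero_add]
      · refine ⟨s', 1, Or.inl rfl, ?_, Or.inr ⟨s', hs', i, ht', ?_⟩⟩
        · show 0 < (1 : ℤ) * ((ev s' + ev i : V → ℤ) s' - (0 + ev i : V → ℤ) s')
          simp [Mink_ev_apply]
        · show (0 : V → ℤ) + ev i + ev s' = _
          rw [zero_add, add_comm]
  · rcases hy with rfl | ⟨s', hs', t', ht', rfl⟩
    · simp only [Pi.add_apply, Mink_ev_apply, Pi.zero_apply, zero_sub] at hpos
      have hε1 : ε = -1 := by
        rcases hε with rfl | rfl
        · exfalso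
          split_ifs at hpos <;> omega
        · rfl
      subst hε1
      have hi : i = s ∨ i = t := by
        by_contra hne
        push Not at hne
        rw [if_neg hne.1, if_neg hne.2] at hpos
        omega
      rcases hi with rfl | rfl
      · refine ⟨t, -1, Or.inr rfl, ?_, Or.inl ?_⟩
        · rw [Mink_neg_single]
          simp [Mink_ev_apply]
        · rw [Mink_neg_single, Mink_neg_single]; abel
      · refine ⟨s, -1, Or.inr rfl, ?_, Or.inl ?_⟩
        · rw [Mink_neg_single]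
          simp [Mink_ev_apply]
        · rw [Mink_neg_single, Mink_neg_single]; abel
    · rcases hε with rfl | rfl
      · have hlt : (ev s + ev t : V → ℤ) i < (ev s' + ev t' : V → ℤ) i := by linarith
        have hi : i = s' ∨ i = t' := by
          by_contra hne
          push Not at hne
          simp only [Pi.add_apply, Mink_ev_apply] at hlt
          rw [if_neg hne.1, if_neg hne.2] at hlt
          split_ifs at hlt <;> omega
        rcases hi with rfl | rfl
        · exact Mink_up ht hs' ht' hlt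
        · rw [add_comm (ev s), add_comm (ev s')] at hlt
          obtain ⟨j, δ, h1, h2, h3⟩ := Mink_up (S := T) (T := S) hs ht' hs' hlt
          refine ⟨j, δ, h1, ?_, ?_⟩
          · rw [add_comm (ev s), add_comm (ev s')]
            exact h2
          · rw [add_comm (ev s), Un_symm]
            exact h3
      · have hlt : (ev s' + ev t' : V → ℤ) i < (ev s + ev t : V → ℤ) i := by linarith
        have hi : i = s ∨ i = t := by
          by_contra hne
          push Not at hne
          simp only [Pi.add_apply, Mink_ev_apply] at hlt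
          rw [if_neg hne.1, if_neg hne.2] at hlt
          split_ifs at hlt <;> omega
        rcases hi with rfl | rfl
        · exact Mink_down ht hs' ht'
        · obtain ⟨j, δ, h1, h2, h3⟩ := Mink_down (S := T) (T := S) (s := i) (t := s) hs ht' hs'
          refine ⟨j, δ, h1, ?_, ?_⟩
          · rw [add_comm (ev s), add_comm (ev s')]
            exact h2
          · rw [add_comm (ev s), Un_symm]
            exact h3

lemma sumU_append (us vs : List (Finset V × Finset V)) : sumU (us ++ vs) = sumU us + sumU vs := by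
  induction us with
  | nil =>
    show sumU vs = {0} + sumU vs
    rw [Set.singleton_zero, zero_add]
  | cons u us ih =>
    show Un u.1 u.2 + sumU (us ++ vs) = Un u.1 u.2 + sumU us + sumU vs
    rw [ih, add_assoc]

/-- place the numbers `k i` at the vertices `f i` -/
def put {n : ℕ} (f : Fin n → V) (k : Fin n → ℤ) : V → ℤ := fun v => ∑ i, if f i = v then k i else 0

lemma put_add {n : ℕ} (f : Fin n → V) (k l : Fin n → ℤ) : put f (k + l) = put f k + put f l := by
  funext v
  unfold put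
  rw [Pi.add_apply, ← Finset.sum_add_distrib]
  refine Finset.sum_congr rfl fun i _ => ?_
  split_ifs
  · rfl
  · simp

lemma put_single {n : ℕ} (f : Fin n → V) (i : Fin n) (c : ℤ) :
    put f (Pi.single i c) = Pi.single (f i) c := by
  funext v
  unfold put
  rw [Finset.sum_eq_single i]
  · rw [Pi.single_eq_same]
    by_cases h : f i = v
    · subst h; simp
    · rw [if_neg h, Pi.single_eq_of_ne (fun e => h e.symm)]
  · intro j _ hj
    rw [Pi.single_eq_of_ne hj]
    simp
  · intro h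
    exact absurd (Finset.mem_univ _) h

lemma put_apply {n : ℕ} {f : Fin n → V} (hf : Function.Injective f) (k : Fin n → ℤ) (i : Fin n) :
    put f k (f i) = k i := by
  unfold put
  rw [Finset.sum_eq_single i]
  · simp
  · intro j _ hj
    rw [if_neg fun e => hj (hf e)]
  · intro h
    exact absurd (Finset.mem_univ _) h

lemma put_of_not {n : ℕ} {f : Fin n → V} (k : Fin n → ℤ) {v : V} (hv : ∀ i, f i ≠ v) :
    put f k v = 0 := by
  unfold put
  refine Finset.sum_eq_zero fun i _ => ?_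
  rw [if_neg (hv i)]

end Pool.Agent.TFC

end

section -- file TFC/CE0

/-!
Preparations for the conflict elimination theorem.
-/

set_option autoImplicit false
set_option linter.unusedSectionVars false

namespace Pool.Agent.TFC

open Finset

variable {V : Type*} [DecidableEq V]

/-- the vector of an edge -/
def esum : Sym2 V → (V → ℤ) := Sym2.lift ⟨fun a b => ev a + ev b, fun _ _ => add_comm _ _⟩

@[simp] lemma esum_mk (a b : V) : esum s(a, b) = ev a + ev b := rfl

lemma dv_empty : dv (∅ : Finset (Sym2 V)) = 0 := by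
  funext v; simp [dv, dg]

lemma dv_eq_sum {z : Finset (Sym2 V)} (hz : NoLoop z) : dv z = ∑ e ∈ z, esum e := by
  induction z using Finset.induction_on with
  | empty => simp [dv_empty]
  | insert e z he ih =>
    induction e using Sym2.ind with
    | _ a b =>
      have hab : a ≠ b := hz.ne (mem_insert_self _ _)
      rw [dv_insert hab he, sum_insert he, ih (hz.mono (subset_insert _ _)), esum_mk]
      abel

/-- degree vector of an explicit list of edges -/
lemma dv_list {l : List (Sym2 V)} (hn : l.Nodup) (hl : ∀ e ∈ l, ¬ e.IsDiag) :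
    dv l.toFinset = (l.map esum).sum := by
  have h : NoLoop l.toFinset := fun e he => hl e (List.mem_toFinset.mp he)
  rw [dv_eq_sum h, List.sum_toFinset _ hn]

lemma dv_union {z w : Finset (Sym2 V)} (hz : NoLoop z) (hw : NoLoop w) (h : Disjoint z w) :
    dv (z ∪ w) = dv z + dv w := by
  have hzw : NoLoop (z ∪ w) := by
    intro e he
    rcases mem_union.mp he with h | h
    · exact hz e h
    · exact hw e h
  rw [dv_eq_sum hzw, sum_union h, ← dv_eq_sum hz, ← dv_eq_sum hw]

/-- five different vertices do not fit in four places -/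
lemma five_false {a b c d : V} {v : Fin 5 → V} (hv : Function.Injective v)
    (h : ∀ i, v i = a ∨ v i = b ∨ v i = c ∨ v i = d) : False := by
  have h1 : (Finset.univ.image v) ⊆ ({a, b, c, d} : Finset V) := by
    intro u hu
    obtain ⟨i, -, rfl⟩ := mem_image.mp hu
    simpa using h i
  have h2 := card_le_card h1
  rw [card_image_of_injective _ hv] at h2
  have h3 : #({a, b, c, d} : Finset V) ≤ 4 := by
    refine (card_insert_le _ _).trans ?_
    have := (card_insert_le b ({c, d} : Finset V))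
    have := (card_insert_le c ({d} : Finset V))
    simp at *
    omega
  simp at h2
  omega

/-- four different vertices and a fifth one do not fit in four places -/
lemma four_mem {a b c d u : V} {v : Fin 4 → V} (hv : Function.Injective v)
    (h : ∀ i, v i = a ∨ v i = b ∨ v i = c ∨ v i = d) (hu : u = a ∨ u = b ∨ u = c ∨ u = d) :
    ∃ i, u = v i := by
  by_contra hc
  push Not at hc
  refine five_false (v := Fin.cons u v) (a := a) (b := b) (c := c) (d := d) ?_ ?_
  · rw [Fin.cons_injective_iff]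
    refine ⟨?_, hv⟩
    rintro ⟨i, hi⟩
    exact hc i hi.symm
  · intro i
    refine Fin.cases ?_ (fun j => ?_) i
    · simpa using hu
    · simpa using h j

/-- writing a square with a given edge first -/
lemma isSq_first {Q : Finset (Sym2 V)} (hQ : IsSq Q) {x y : V} (he : s(x, y) ∈ Q) :
    ∃ q p, Dist4 x y q p ∧ Q = sq x y q p := by
  obtain ⟨a, b, c, d, ⟨hab, hac, had, hbc, hbd, hcd⟩, rfl⟩ := hQ
  simp only [sq, mem_insert, mem_singleton, Sym2.eq_iff] at he
  rcases he with (⟨rfl, rfl⟩ | ⟨rfl, rfl⟩) | (⟨rfl, rfl⟩ | ⟨rfl, rfl⟩) | (⟨rfl, rfl⟩ | ⟨rfl, rfl⟩) |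
    (⟨rfl, rfl⟩ | ⟨rfl, rfl⟩)
  · exact ⟨c, d, ⟨hab, hac, had, hbc, hbd, hcd⟩, rfl⟩
  · refine ⟨d, c, ⟨hab.symm, hbd, hbc, had, hac, hcd.symm⟩, ?_⟩
    ext e
    simp only [sq, mem_insert, mem_singleton]
    rw [Sym2.eq_swap (a := x) (b := y), Sym2.eq_swap (a := y) (b := d), Sym2.eq_swap (a := d) (b := c),
      Sym2.eq_swap (a := c) (b := x)]
    clear * -
    tauto
  · refine ⟨d, a, ⟨hbc, hbd, hab.symm, hcd, hac.symm, had.symm⟩, ?_⟩
    ext e
    simp only [sq, mem_insert, mem_singleton]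
    tauto
  · refine ⟨a, d, ⟨hbc.symm, hac.symm, hcd, hab.symm, hbd, had⟩, ?_⟩
    ext e
    simp only [sq, mem_insert, mem_singleton]
    rw [Sym2.eq_swap (a := x) (b := y), Sym2.eq_swap (a := y) (b := a), Sym2.eq_swap (a := a) (b := d),
      Sym2.eq_swap (a := d) (b := x)]
    clear * -
    tauto
  · refine ⟨a, b, ⟨hcd, hac.symm, hbc.symm, had.symm, hbd.symm, hab⟩, ?_⟩
    ext e
    simp only [sq, mem_insert, mem_singleton]
    tauto
  · refine ⟨b, a, ⟨hcd.symm, hbd.symm, had.symm, hbc.symm, hac.symm, hab.symm⟩, ?_⟩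
    ext e
    simp only [sq, mem_insert, mem_singleton]
    rw [Sym2.eq_swap (a := x) (b := y), Sym2.eq_swap (a := y) (b := b), Sym2.eq_swap (a := b) (b := a),
      Sym2.eq_swap (a := a) (b := x)]
    clear * -
    tauto
  · refine ⟨b, c, ⟨had.symm, hbd.symm, hcd.symm, hab, hac, hbc⟩, ?_⟩
    ext e
    simp only [sq, mem_insert, mem_singleton]
    tauto
  · refine ⟨c, b, ⟨had, hac, hab, hcd.symm, hbd.symm, hbc.symm⟩, ?_⟩
    ext e
    simp only [sq, mem_insert, mem_singleton]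
    rw [Sym2.eq_swap (a := x) (b := y), Sym2.eq_swap (a := y) (b := c), Sym2.eq_swap (a := c) (b := b),
      Sym2.eq_swap (a := b) (b := x)]
    clear * -
    tauto

end Pool.Agent.TFC

end

section -- file TFC/CE

/-!
Conflict elimination: two 2-factors with squares sharing exactly one edge.
-/

set_option autoImplicit false
set_option linter.unusedSectionVars false
set_option linter.unusedSimpArgs false
set_option linter.unusedTactic false

namespace Pool.Agent.TFC.CE

open Finset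

variable {V : Type*} [DecidableEq V]

lemma put4 (f : Fin 4 → V) (k : Fin 4 → ℤ) (v : V) :
    put f k v = k 0 * ev (f 0) v + k 1 * ev (f 1) v + k 2 * ev (f 2) v + k 3 * ev (f 3) v := by
  have h : ∀ i, (if f i = v then k i else 0) = k i * ev (f i) v := by
    intro i
    rw [ev_apply]
    by_cases hv : f i = v
    · simp [hv]
    · rw [if_neg hv, if_neg (fun h => hv h.symm)]; simp
  simp only [put, h, Fin.sum_univ_four]

/-- six different vertices -/
structure Six (x y p q r t : V) : Prop where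
  xy : x ≠ y
  xp : x ≠ p
  xq : x ≠ q
  xr : x ≠ r
  xt : x ≠ t
  yp : y ≠ p
  yq : y ≠ q
  yr : y ≠ r
  yt : y ≠ t
  pq : p ≠ q
  pr : p ≠ r
  pt : p ≠ t
  qr : q ≠ r
  qt : q ≠ t
  rt : r ≠ t

section six

variable {F N : Finset (Sym2 V)} {x y p q r t : V}

lemma Six.all (h : Six x y p q r t) :
    (x ≠ y ∧ x ≠ p ∧ x ≠ q ∧ x ≠ r ∧ x ≠ t ∧ y ≠ p ∧ y ≠ q ∧ y ≠ r ∧ y ≠ t ∧ p ≠ q ∧ p ≠ r ∧ p ≠ t ∧
      q ≠ r ∧ q ≠ t ∧ r ≠ t) ∧
    (y ≠ x ∧ p ≠ x ∧ q ≠ x ∧ r ≠ x ∧ t ≠ x ∧ p ≠ y ∧ q ≠ y ∧ r ≠ y ∧ t ≠ y ∧ q ≠ p ∧ r ≠ p ∧ t ≠ p ∧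
      r ≠ q ∧ t ≠ q ∧ t ≠ r) :=
  ⟨⟨h.xy, h.xp, h.xq, h.xr, h.xt, h.yp, h.yq, h.yr, h.yt, h.pq, h.pr, h.pt, h.qr, h.qt, h.rt⟩,
    ⟨h.xy.symm, h.xp.symm, h.xq.symm, h.xr.symm, h.xt.symm, h.yp.symm, h.yq.symm, h.yr.symm,
      h.yt.symm, h.pq.symm, h.pr.symm, h.pt.symm, h.qr.symm, h.qt.symm, h.rt.symm⟩⟩

end six

end Pool.Agent.TFC.CE

end

section -- file TFC/CE2

/-!
Conflict elimination: the outer parts of the two 2-factors, and the two cases.
-/

set_option autoImplicit false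
set_option linter.unusedSectionVars false
set_option linter.unusedSimpArgs false
set_option linter.unusedTactic false

namespace Pool.Agent.TFC.CE

open Finset

variable {V : Type*} [DecidableEq V]

lemma dv_sq {a b c d : V} (h : Dist4 a b c d) (v : V) :
    dv (sq a b c d) v = 2 * ev a v + 2 * ev b v + 2 * ev c v + 2 * ev d v := by
  obtain ⟨hab, hac, had, hbc, hbd, hcd⟩ := h
  have e : sq a b c d = [s(a, b), s(b, c), s(c, d), s(d, a)].toFinset := by
    simp [sq]
  rw [e, dv_list]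
  · simp
    ring
  · simp [Sym2.eq_iff, hab, hac, had, hbc, hbd, hcd, hab.symm, hac.symm, had.symm, hbc.symm, hbd.symm,
      hcd.symm]
  · simp [hab, hbc, hcd, had.symm]

section six

variable {F N : Finset (Sym2 V)} {x y p q r t : V}

end six

end Pool.Agent.TFC.CE

end

section -- file TFC/CE3

/-!
Conflict elimination: five vertices, and the theorem.
-/

set_option autoImplicit false
set_option linter.unusedSectionVars false
set_option linter.unusedSimpArgs false
set_option linter.unusedTactic false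
set_option linter.unreachableTactic false

namespace Pool.Agent.TFC

open Finset

variable {V : Type*} [DecidableEq V]

namespace CE

/-- five different vertices -/
structure Five (x y p q r : V) : Prop where
  xy : x ≠ y
  xp : x ≠ p
  xq : x ≠ q
  xr : x ≠ r
  yp : y ≠ p
  yq : y ≠ q
  yr : y ≠ r
  pq : p ≠ q
  pr : p ≠ r
  qr : q ≠ r

section five

variable {F N : Finset (Sym2 V)} {x y p q r : V}

lemma Five.all (h : Five x y p q r) :
    (x ≠ y ∧ x ≠ p ∧ x ≠ q ∧ x ≠ r ∧ y ≠ p ∧ y ≠ q ∧ y ≠ r ∧ p ≠ q ∧ p ≠ r ∧ q ≠ r) ∧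
    (y ≠ x ∧ p ≠ x ∧ q ≠ x ∧ r ≠ x ∧ p ≠ y ∧ q ≠ y ∧ r ≠ y ∧ q ≠ p ∧ r ≠ p ∧ r ≠ q) :=
  ⟨⟨h.xy, h.xp, h.xq, h.xr, h.yp, h.yq, h.yr, h.pq, h.pr, h.qr⟩,
    ⟨h.xy.symm, h.xp.symm, h.xq.symm, h.xr.symm, h.yp.symm, h.yq.symm, h.yr.symm, h.pq.symm,
      h.pr.symm, h.qr.symm⟩⟩

lemma put2 (f : Fin 2 → V) (k : Fin 2 → ℤ) (v : V) :
    put f k v = k 0 * ev (f 0) v + k 1 * ev (f 1) v := by
  have h : ∀ i, (if f i = v then k i else 0) = k i * ev (f i) v := by
    intro i
    rw [ev_apply]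
    by_cases hv : f i = v
    · simp [hv]
    · rw [if_neg hv, if_neg (fun h => hv h.symm)]; simp
  simp only [put, h, Fin.sum_univ_two]

end five

end CE

end Pool.Agent.TFC

end

section -- file P34/Sh

/-!
Short cycles (triangles and squares) as edge sets.
-/

set_option autoImplicit false
set_option linter.unusedSectionVars false

namespace Pool.Agent.P34

open Finset Pool.Agent.TFC

variable {V : Type*} [DecidableEq V]

/-- the edge set of the triangle `a b c` -/
def tri (a b c : V) : Finset (Sym2 V) := {s(a, b), s(b, c), s(c, a)}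

/-- three distinct vertices -/
def Dist3 (a b c : V) : Prop := a ≠ b ∧ a ≠ c ∧ b ≠ c

/-- `Z` is the edge set of a triangle -/
def IsTri (Z : Finset (Sym2 V)) : Prop := ∃ a b c, Dist3 a b c ∧ Z = tri a b c

/-- `Z` is the edge set of a triangle or of a square -/
def IsSh (Z : Finset (Sym2 V)) : Prop := IsTri Z ∨ IsSq Z

/-- all short cycles of `z` are allowed by `al` -/
def Gd (al : Finset (Sym2 V) → Prop) (z : Finset (Sym2 V)) : Prop := ∀ Z, IsSh Z → Z ⊆ z → al Z

lemma Gd.mono {al : Finset (Sym2 V) → Prop} {z z' : Finset (Sym2 V)} (hz : Gd al z') (h : z ⊆ z') :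
    Gd al z := fun Z hZ hs => hz Z hZ (hs.trans h)

lemma isTri_first {Z : Finset (Sym2 V)} (hZ : IsTri Z) {x y : V} (he : s(x, y) ∈ Z) :
    ∃ c, Dist3 x y c ∧ Z = tri x y c := by
  obtain ⟨a, b, c, ⟨hab, hac, hbc⟩, rfl⟩ := hZ
  simp only [tri, mem_insert, mem_singleton, Sym2.eq_iff] at he
  rcases he with (⟨rfl, rfl⟩ | ⟨rfl, rfl⟩) | (⟨rfl, rfl⟩ | ⟨rfl, rfl⟩) | (⟨rfl, rfl⟩ | ⟨rfl, rfl⟩)
  · exact ⟨c, ⟨hab, hac, hbc⟩, rfl⟩
  · refine ⟨c, ⟨hab.symm, hbc, hac⟩, ?_⟩
    ext e
    simp only [tri, mem_insert, mem_singleton]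
    rw [Sym2.eq_swap (a := x) (b := y), Sym2.eq_swap (a := y) (b := c), Sym2.eq_swap (a := c) (b := x)]
    clear * -
    tauto
  · refine ⟨a, ⟨hbc, hab.symm, hac.symm⟩, ?_⟩
    ext e
    simp only [tri, mem_insert, mem_singleton]
    tauto
  · refine ⟨a, ⟨hbc.symm, hac.symm, hab.symm⟩, ?_⟩
    ext e
    simp only [tri, mem_insert, mem_singleton]
    rw [Sym2.eq_swap (a := x) (b := y), Sym2.eq_swap (a := y) (b := a), Sym2.eq_swap (a := a) (b := x)]
    clear * -
    tauto
  · refine ⟨b, ⟨hac.symm, hbc.symm, hab⟩, ?_⟩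
    ext e
    simp only [tri, mem_insert, mem_singleton]
    tauto
  · refine ⟨b, ⟨hac, hab, hbc.symm⟩, ?_⟩
    ext e
    simp only [tri, mem_insert, mem_singleton]
    rw [Sym2.eq_swap (a := x) (b := y), Sym2.eq_swap (a := y) (b := b), Sym2.eq_swap (a := b) (b := x)]
    clear * -
    tauto

/-- writing a short cycle with a given edge first -/
lemma isSh_first {Z : Finset (Sym2 V)} (hZ : IsSh Z) {x y : V} (he : s(x, y) ∈ Z) :
    (∃ c, Dist3 x y c ∧ Z = tri x y c) ∨ ∃ q p, Dist4 x y q p ∧ Z = sq x y q p := by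
  rcases hZ with h | h
  · exact Or.inl (isTri_first h he)
  · exact Or.inr (isSq_first h he)

lemma tri_sub {z : Finset (Sym2 V)} {a b c : V} : tri a b c ⊆ z ↔ s(a, b) ∈ z ∧ s(b, c) ∈ z ∧ s(c, a) ∈ z := by
  simp [tri, insert_subset_iff]

lemma sq_sub {z : Finset (Sym2 V)} {a b c d : V} :
    sq a b c d ⊆ z ↔ s(a, b) ∈ z ∧ s(b, c) ∈ z ∧ s(c, d) ∈ z ∧ s(d, a) ∈ z := by
  simp [TFC.sq, insert_subset_iff]

/-- a triangle through the new edge -/
lemma tri_mem {L : Finset (Sym2 V)} {x y c : V} (h : Dist3 x y c) (hs : tri x y c ⊆ insert s(x, y) L) :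
    s(y, c) ∈ L ∧ s(c, x) ∈ L := by
  obtain ⟨xy, xc, yc⟩ := h
  obtain ⟨-, h2, h3⟩ := tri_sub.1 hs
  refine ⟨(mem_insert.1 h2).resolve_left fun h => ?_, (mem_insert.1 h3).resolve_left fun h => ?_⟩
  · rw [Sym2.eq_iff] at h
    rcases h with ⟨h, -⟩ | ⟨-, h⟩
    · exact xy h.symm
    · exact xc h.symm
  · rw [Sym2.eq_iff] at h
    rcases h with ⟨h, -⟩ | ⟨h, -⟩
    · exact xc h.symm
    · exact yc h.symm

/-- a square through the new edge -/
lemma sq_mem {L : Finset (Sym2 V)} {x y p q : V} (h : Dist4 x y p q) (hs : sq x y p q ⊆ insert s(x, y) L) :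
    s(y, p) ∈ L ∧ s(p, q) ∈ L ∧ s(q, x) ∈ L := by
  obtain ⟨xy, xp, xq, yp, yq, pq⟩ := h
  obtain ⟨-, h2, h3, h4⟩ := sq_sub.1 hs
  refine ⟨(mem_insert.1 h2).resolve_left fun h => ?_, (mem_insert.1 h3).resolve_left fun h => ?_,
    (mem_insert.1 h4).resolve_left fun h => ?_⟩
  · rw [Sym2.eq_iff] at h
    rcases h with ⟨h, -⟩ | ⟨-, h⟩
    · exact xy h.symm
    · exact xp h.symm
  · rw [Sym2.eq_iff] at h
    rcases h with ⟨h, -⟩ | ⟨h, -⟩
    · exact xp h.symm
    · exact yp h.symm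
  · rw [Sym2.eq_iff] at h
    rcases h with ⟨h, -⟩ | ⟨h, -⟩
    · exact xq h.symm
    · exact yq h.symm

/-- a short cycle of `insert s(x, y) z` is a short cycle of `z` or contains the new edge -/
lemma gd_insert {al : Finset (Sym2 V) → Prop} {z : Finset (Sym2 V)} {x y : V} (hz : Gd al z)
    (h3 : ∀ c, Dist3 x y c → tri x y c ⊆ insert s(x, y) z → al (tri x y c))
    (h4 : ∀ p q, Dist4 x y p q → sq x y p q ⊆ insert s(x, y) z → al (sq x y p q)) :
    Gd al (insert s(x, y) z) := by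
  intro Z hZ hs
  by_cases he : s(x, y) ∈ Z
  · rcases isSh_first hZ he with ⟨c, hc, rfl⟩ | ⟨p, q, hpq, rfl⟩
    · exact h3 c hc hs
    · exact h4 p q hpq hs
  · refine hz Z hZ fun e heZ => ?_
    refine (mem_insert.1 (hs heZ)).resolve_left fun h => ?_
    rw [h] at heZ
    exact he heZ

end Pool.Agent.P34

end

section -- file PF4/PcJ

/-!
Jump sets of vectors on `ℕ`: sums of units, and the cut at 2.
-/

set_option autoImplicit false

namespace Pool.Agent.PF4

open Finset Pool.Agent.TFC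
open scoped Pointwise

/-- the part of a jump set below 2 is a jump set -/
theorem jump_box {V : Type*} [DecidableEq V] {J : Set (V → ℤ)} (hJ : Jump J) :
    Jump {x | x ∈ J ∧ ∀ v, x v ≤ 2} := by
  rintro x ⟨hx, hx2⟩ y ⟨hy, hy2⟩ i ε hε hpos
  obtain ⟨j, δ, hδ, hpos2, hmem⟩ := hJ x hx y hy i ε hε hpos
  refine ⟨j, δ, hδ, hpos2, hmem, ?_⟩
  intro v
  have h1 : (x + Pi.single i ε : V → ℤ) v ≤ 2 := by
    rw [Pi.add_apply, Pi.single_apply]
    split_ifs with h
    · subst h
      have := hx2 v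
      have := hy2 v
      rcases hε with rfl | rfl <;> omega
    · have := hx2 v
      omega
  have h2 : (x + Pi.single i ε + Pi.single j δ : V → ℤ) v =
      (x + Pi.single i ε : V → ℤ) v + (Pi.single j δ : V → ℤ) v := rfl
  rw [h2, Pi.single_apply (i := j)]
  split_ifs with h
  · subst h
    have := hy2 v
    rcases hδ with rfl | rfl <;> omega
  · omega

/-- restriction to the numbers below `N` -/
def resN (N : ℕ) (x : ℕ → ℤ) : Fin N → ℤ := fun v => x v

theorem resN_single {N : ℕ} (i : Fin N) (ε : ℤ) : resN N (Pi.single (i : ℕ) ε) = Pi.single i ε := by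
  funext v
  simp only [resN, Pi.single_apply, Fin.ext_iff]

theorem resN_add {N : ℕ} (x y : ℕ → ℤ) : resN N (x + y) = resN N x + resN N y := rfl

/-- all vectors of `J` vanish from `N` on -/
def Supp (N : ℕ) (J : Set (ℕ → ℤ)) : Prop := ∀ x ∈ J, ∀ v, N ≤ v → x v = 0

theorem jump_res {N : ℕ} {J : Set (ℕ → ℤ)} (hs : Supp N J) (hJ : Jump J) : Jump (resN N '' J) := by
  rintro _ ⟨x, hx, rfl⟩ _ ⟨y, hy, rfl⟩ i ε hε hpos
  obtain ⟨j, δ, hδ, hpos2, hmem⟩ := hJ x hx y hy i ε hε hpos
  have hj : j < N := by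
    by_contra h
    rw [not_lt] at h
    rw [Pi.add_apply, hs y hy j h, hs x hx j h, Pi.single_eq_of_ne (by have := i.2; omega)] at hpos2
    simp at hpos2
  refine ⟨⟨j, hj⟩, δ, hδ, ?_, ⟨_, hmem, ?_⟩⟩
  · rw [← resN_single, ← resN_add]
    exact hpos2
  · rw [resN_add, resN_add, resN_single]
    congr 1
    exact resN_single (⟨j, hj⟩ : Fin N) δ

theorem jump_of_res {N : ℕ} {J : Set (ℕ → ℤ)} (hs : Supp N J) (hJ : Jump (resN N '' J)) : Jump J := by
  intro x hx y hy i ε hε hpos
  have hi : i < N := by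
    by_contra h
    rw [not_lt] at h
    rw [hs y hy i h, hs x hx i h] at hpos
    simp at hpos
  obtain ⟨j, δ, hδ, hpos2, z, hz, hz2⟩ := hJ _ ⟨x, hx, rfl⟩ _ ⟨y, hy, rfl⟩ ⟨i, hi⟩ ε hε hpos
  have e1 := resN_single (⟨i, hi⟩ : Fin N) ε
  have e2 := resN_single j δ
  refine ⟨j, δ, hδ, ?_, ?_⟩
  · rw [← e1, ← resN_add] at hpos2
    exact hpos2
  · have : z = x + Pi.single i ε + Pi.single (j : ℕ) δ := by
      funext v
      by_cases hv : v < N
      · have := congrFun hz2 ⟨v, hv⟩
        rw [← e1, ← e2, ← resN_add, ← resN_add] at this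
        exact this
      · rw [not_lt] at hv
        rw [hs z hz v hv, Pi.add_apply, Pi.add_apply, hs x hx v hv,
          Pi.single_eq_of_ne (by omega), Pi.single_eq_of_ne (by have := j.2; omega)]
        simp
    rw [← this]
    exact hz

theorem Supp.add {N : ℕ} {J₁ J₂ : Set (ℕ → ℤ)} (h₁ : Supp N J₁) (h₂ : Supp N J₂) :
    Supp N (J₁ + J₂) := by
  rintro _ ⟨x, hx, y, hy, rfl⟩ v hv
  show x v + y v = 0
  rw [h₁ x hx v hv, h₂ y hy v hv, add_zero]

theorem Supp.mono {N M : ℕ} {J : Set (ℕ → ℤ)} (h : Supp N J) (hNM : N ≤ M) : Supp M J :=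
  fun x hx v hv => h x hx v (hNM.trans hv)

theorem jump_add_nat {N : ℕ} {J₁ J₂ : Set (ℕ → ℤ)} (h₁ : Jump J₁) (h₂ : Jump J₂) (s₁ : Supp N J₁)
    (s₂ : Supp N J₂) : Jump (J₁ + J₂) := by
  refine jump_of_res (s₁.add s₂) ?_
  have e : resN N '' (J₁ + J₂) = resN N '' J₁ + resN N '' J₂ := by
    ext z
    constructor
    · rintro ⟨_, ⟨x, hx, y, hy, rfl⟩, rfl⟩
      exact ⟨_, ⟨x, hx, rfl⟩, _, ⟨y, hy, rfl⟩, rfl⟩
    · rintro ⟨_, ⟨x, hx, rfl⟩, _, ⟨y, hy, rfl⟩, rfl⟩
      exact ⟨_, ⟨x, hx, y, hy, rfl⟩, rfl⟩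
  rw [e]
  exact (jump_res s₁ h₁).add (jump_res s₂ h₂)

theorem supp_Un (S T : Finset ℕ) : ∃ N, Supp N (Un S T) := by
  refine ⟨(S ∪ T).sup id + 1, ?_⟩
  rintro _ (rfl | ⟨s, hs, t, ht, rfl⟩) v hv
  · rfl
  · have h1 : s ≤ (S ∪ T).sup id := Finset.le_sup (f := id) (Finset.mem_union_left _ hs)
    have h2 : t ≤ (S ∪ T).sup id := Finset.le_sup (f := id) (Finset.mem_union_right _ ht)
    rw [Pi.add_apply, ev, ev, Pi.single_eq_of_ne (by omega), Pi.single_eq_of_ne (by omega)]
    rfl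

theorem supp_sumU (us : List (Finset ℕ × Finset ℕ)) : ∃ N, Supp N (sumU us) := by
  induction us with
  | nil =>
    refine ⟨0, ?_⟩
    rintro x hx v _
    rw [show x = 0 from hx]
    rfl
  | cons u us ih =>
    obtain ⟨N, hN⟩ := ih
    obtain ⟨M, hM⟩ := supp_Un u.1 u.2
    exact ⟨max M N, (hM.mono (le_max_left _ _)).add (hN.mono (le_max_right _ _))⟩

/-- sums of units on `ℕ` are jump sets -/
theorem jump_sumU_nat (us : List (Finset ℕ × Finset ℕ)) : Jump (sumU us) := by
  induction us with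
  | nil => exact jump_zero
  | cons u us ih =>
    obtain ⟨N, hN⟩ := supp_sumU us
    obtain ⟨M, hM⟩ := supp_Un u.1 u.2
    exact jump_add_nat (jump_Un u.1 u.2) ih (hM.mono (le_max_left _ _)) (hN.mono (le_max_right _ _))

/-- sums of units cut at 2 -/
theorem jump_sumU_box (us : List (Finset ℕ × Finset ℕ)) : Jump {x | x ∈ sumU us ∧ ∀ v, x v ≤ 2} :=
  jump_box (jump_sumU_nat us)

end Pool.Agent.PF4

end
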