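import Pool.Agent.PFN.M03

section -- file PF4/Outer

/-!
# The outer loop (polymatroid form)

Objects `M : O` with degrees `deg x M : ℕ → ℕ` on the vertices `0, ..., nv x - 1`. A polynomial time function `exch`
(the two-step exchange) and a polynomial time function `inner` (find an object that covers the demand `g`, where near covers
are known for all vertices of the support of `g`) give a polynomial time function `alg` that finds an object with all degrees
at least `2` or reports that there is none.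
-/

set_option autoImplicit false

namespace Pool.Agent.PF4

open Pool.Agent.Lib.helper60

section defs

/-- the demand `g` restricted to the vertices in `T` -/
def res (n : ℕ) (g T : List ℕ) : List ℕ :=
  (List.range n).map (fun u => bif T.any (fun t => decide (t = u)) then g.getD u 0 else 0)

/-- the demand `2` on the vertices below `v`, `r` at `v` and `0` above -/
def dem (n v r : ℕ) : List ℕ :=
  (List.range n).map (fun u => if u < v then 2 else if u = v then r else 0)

theorem getD_map_range (n : ℕ) (f : ℕ → ℕ) (u : ℕ) :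
    ((List.range n).map f).getD u 0 = if u < n then f u else 0 := by
  rw [List.getD_eq_getElem?_getD, List.getElem?_map]
  by_cases h : u < n
  · rw [List.getElem?_range h, if_pos h]
    rfl
  · rw [List.getElem?_eq_none (by simpa using h), if_neg h]
    rfl

theorem res_getD {n : ℕ} {g T : List ℕ} {u : ℕ} (hu : u < n) :
    (res n g T).getD u 0 = if u ∈ T then g.getD u 0 else 0 := by
  unfold res
  rw [getD_map_range, if_pos hu]
  by_cases h : u ∈ T
  · have : T.any (fun t => decide (t = u)) = true := by simpa using h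
    rw [this, if_pos h]
    rfl
  · have : T.any (fun t => decide (t = u)) = false := by
      rw [List.any_eq_false]
      intro t ht
      simp only [decide_eq_true_eq]
      rintro rfl
      exact h ht
    rw [this, if_neg h]
    rfl

theorem dem_getD {n v r u : ℕ} (hu : u < n) :
    (dem n v r).getD u 0 = if u < v then 2 else if u = v then r else 0 := by
  unfold dem
  rw [getD_map_range, if_pos hu]

/-- the demand `g` is covered by the degrees `dg` on `n` vertices -/
def Cov (n : ℕ) (g : List ℕ) (dg : ℕ → ℕ) : Prop := ∀ u < n, g.getD u 0 ≤ dg u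

end defs

/-- What the inner problem knows: the demand `g` is `0` or `2` off `v` and `1` or `2` at `v`, and the table `W` contains
for every vertex `w` of the support of `g` exactly one valid object with degrees at least `g - e_w`. -/
structure Dat {ι O : Type} (nv : ι → ℕ) (deg : ι → O → ℕ → ℕ) (valid : ι → O → Prop) (x : ι) (g : List ℕ)
    (W : List (ℕ × O)) (v : ℕ) : Prop where
  len : g.length = nv x
  lt : v < nv x
  one : 1 ≤ g.getD v 0
  two : g.getD v 0 ≤ 2
  off : ∀ u < nv x, u ≠ v → g.getD u 0 = 0 ∨ g.getD u 0 = 2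
  tab : ∀ p ∈ W, p.1 < nv x ∧ valid x p.2 ∧
    ∀ u < nv x, g.getD u 0 ≤ deg x p.2 u + (if u = p.1 then 1 else 0)
  sup : ∀ w < nv x, 1 ≤ g.getD w 0 ↔ w ∈ W.map Prod.fst
  nod : (W.map Prod.fst).Nodup

/-- the interface of the outer loop -/
structure OutApi (ι O : Type) [DEnc ι] [DEnc O] where
  /-- number of vertices -/
  nv : ι → ℕ
  /-- degree of a vertex in an object -/
  deg : ι → O → ℕ → ℕ
  /-- valid objects (2-matchings without forbidden squares) -/
  valid : ι → O → Prop
  /-- well-formed instances -/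
  wf : ι → Prop
  /-- the empty object -/
  emp : O
  /-- `exch (x, M, L, v)`: the two-step exchange from `M` towards `L` with first step `+ e_v` -/
  exch : ι × O × O × ℕ → O
  /-- `inner (x, g, W)`: an object that covers `g`; `W` is the table of the near covers -/
  inner : ι × List ℕ × List (ℕ × O) → Bool × O
  /-- bound of the sizes of the objects -/
  B : ι → ℕ
  pt_nv : PT nv
  pt_deg : PT (fun y : ι × O × ℕ => deg y.1 y.2.1 y.2.2)
  pt_exch : PT exch
  pt_inner : PT inner
  pb : PB B
  size_exch : ∀ y, tsize (exch y) ≤ B y.1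
  emp_valid : ∀ x, wf x → valid x emp
  exch_spec : ∀ x M L v, wf x → valid x M → valid x L → v < nv x → deg x M v < deg x L v →
    valid x (exch (x, M, L, v)) ∧
      ((∀ u < nv x, deg x M u + (if u = v then 1 else 0) ≤ deg x (exch (x, M, L, v)) u) ∨
        ∃ j < nv x, j ≠ v ∧ deg x L j < deg x M j ∧ ∀ u < nv x,
          deg x M u + (if u = v then 1 else 0) =
            deg x (exch (x, M, L, v)) u + (if u = j then 1 else 0))
  inner_spec : ∀ x g W v, wf x → Dat nv deg valid x g W v →
    ((inner (x, g, W)).1 = true → valid x (inner (x, g, W)).2 ∧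
      Cov (nv x) g (deg x (inner (x, g, W)).2)) ∧
    ((inner (x, g, W)).1 = false → ¬ ∃ L, valid x L ∧ Cov (nv x) g (deg x L))

namespace OutApi

variable {ι O : Type} [DEnc ι] [DEnc O] (A : OutApi ι O)

/-- the vertices where `M` does not cover `g` -/
def bad (x : ι) (g : List ℕ) (M : O) : List ℕ :=
  (List.range (A.nv x)).filter (fun u => decide (A.deg x M u < g.getD u 0))

/-- state of `aug`: instance, demand, vertex, object, table, status (0 running, 1 found, 2 none), result -/
abbrev St (ι O : Type) : Type := ι × List ℕ × ℕ × O × List (ℕ × O) × ℕ × O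

/-- one round of `aug` -/
def step (s : St ι O) : St ι O :=
  let x := s.1
  let g := s.2.1
  let v := s.2.2.1
  let M := s.2.2.2.1
  let W := s.2.2.2.2.1
  if s.2.2.2.2.2.1 = 0 then
    let r := A.inner (x, res (A.nv x) g (W.map Prod.fst), W)
    bif r.1 then
      let N := A.exch (x, M, r.2, v)
      if (A.bad x g N).length = 0 then (x, g, v, M, W, 1, N)
      else (x, g, v, M, ((A.bad x g N).headD 0, N) :: W, 0, M)
    else (x, g, v, M, W, 2, M)
  else s

/-- raise the demand at `v` by one unit: `M` covers `g - e_v` -/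
def aug (y : ι × List ℕ × ℕ × O) : ℕ × O :=
  if (A.bad y.1 y.2.1 y.2.2.2).length = 0 then (1, y.2.2.2)
  else ((A.step)^[A.nv y.1 + 1]
    (y.1, y.2.1, y.2.2.1, y.2.2.2, [(y.2.2.1, y.2.2.2)], 0, y.2.2.2)).2.2.2.2.2

/-- state of the main loop: instance, vertex, level, status (0 running, 2 none), object -/
abbrev Ou (ι O : Type) : Type := ι × ℕ × ℕ × ℕ × O

/-- one round of the main loop -/
def ostep (s : Ou ι O) : Ou ι O :=
  let x := s.1
  let v := s.2.1
  let r := s.2.2.1
  let M := s.2.2.2.2
  if s.2.2.2.1 = 0 then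
    let a := A.aug (x, dem (A.nv x) v (r + 1), v, M)
    if a.1 = 1 then
      if r = 0 then (x, v, 1, 0, a.2) else (x, v + 1, 0, 0, a.2)
    else (x, v, r, 2, M)
  else s

/-- the algorithm -/
def alg (x : ι) : Bool × O :=
  let s := (A.ostep)^[2 * A.nv x] (x, 0, 0, 0, A.emp)
  (decide (s.2.2.2.1 = 0), s.2.2.2.2)

/-! ### correctness of `aug` -/

theorem mem_bad {x : ι} {g : List ℕ} {M : O} {u : ℕ} :
    u ∈ A.bad x g M ↔ u < A.nv x ∧ A.deg x M u < g.getD u 0 := by
  simp [bad]

theorem bad_nil {x : ι} {g : List ℕ} {M : O} :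
    (A.bad x g M).length = 0 ↔ ∀ u < A.nv x, g.getD u 0 ≤ A.deg x M u := by
  rw [List.length_eq_zero_iff, List.eq_nil_iff_forall_not_mem]
  constructor
  · intro h u hu
    by_contra h1
    exact h u (A.mem_bad.2 ⟨hu, by omega⟩)
  · intro h u hu
    have h1 := A.mem_bad.1 hu
    have h2 := h u h1.1
    omega

/-- the demand `g` is `2` or `0` off `v` and `1` or `2` at `v` -/
structure Dm (x : ι) (g : List ℕ) (v : ℕ) : Prop where
  lt : v < A.nv x
  one : 1 ≤ g.getD v 0
  two : g.getD v 0 ≤ 2
  off : ∀ u < A.nv x, u ≠ v → g.getD u 0 = 0 ∨ g.getD u 0 = 2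

/-- near cover -/
def Nr (x : ι) (g : List ℕ) (w : ℕ) (M : O) : Prop :=
  w < A.nv x ∧ A.valid x M ∧ ∀ u < A.nv x, g.getD u 0 ≤ A.deg x M u + (if u = w then 1 else 0)

/-- the invariant of the loop of `aug` -/
structure Inv (x : ι) (g : List ℕ) (v : ℕ) (M : O) (k : ℕ) (s : St ι O) : Prop where
  e1 : s.1 = x
  e2 : s.2.1 = g
  e3 : s.2.2.1 = v
  e4 : s.2.2.2.1 = M
  tab : ∀ p ∈ s.2.2.2.2.1, A.Nr x g p.1 p.2 ∧ 1 ≤ g.getD p.1 0
  vin : v ∈ s.2.2.2.2.1.map Prod.fst
  nod : (s.2.2.2.2.1.map Prod.fst).Nodup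
  len : s.2.2.2.2.2.1 = 0 → s.2.2.2.2.1.length = k + 1
  st : s.2.2.2.2.2.1 = 0 ∨ s.2.2.2.2.2.1 = 1 ∨ s.2.2.2.2.2.1 = 2
  fin1 : s.2.2.2.2.2.1 = 1 → A.valid x s.2.2.2.2.2.2 ∧
    ∀ u < A.nv x, g.getD u 0 ≤ A.deg x s.2.2.2.2.2.2 u
  fin2 : s.2.2.2.2.2.1 = 2 → ¬ ∃ L, A.valid x L ∧ ∀ u < A.nv x, g.getD u 0 ≤ A.deg x L u

theorem inv_step {x : ι} {g : List ℕ} {v : ℕ} {M : O} {k : ℕ} {s : St ι O} (hx : A.wf x)
    (hg : A.Dm x g v) (hM : A.Nr x g v M) (hb : A.deg x M v < g.getD v 0)
    (h : A.Inv x g v M k s) : A.Inv x g v M (k + 1) (A.step s) := by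
  obtain ⟨x', g', v', M', W, st, R⟩ := s
  obtain ⟨e1, e2, e3, e4, tab, vin, nod, len, hst, fin1, fin2⟩ := h
  simp only at e1 e2 e3 e4 tab vin nod len hst fin1 fin2
  subst e1 e2 e3 e4
  unfold step
  simp only
  by_cases h0 : st = 0
  · rw [if_pos h0]
    set gg := res (A.nv x') g' (W.map Prod.fst) with hgg
    have hgD : ∀ u < A.nv x', gg.getD u 0 = if u ∈ W.map Prod.fst then g'.getD u 0 else 0 :=
      fun u hu => res_getD hu
    have hle : ∀ u < A.nv x', gg.getD u 0 ≤ g'.getD u 0 := by
      intro u hu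
      rw [hgD u hu]
      split_ifs
      · exact le_rfl
      · exact Nat.zero_le _
    have hv : gg.getD v' 0 = g'.getD v' 0 := by rw [hgD v' hg.lt, if_pos vin]
    have key := A.inner_spec x' gg W v' hx ⟨by simp [hgg, res], hg.lt, by rw [hv]; exact hg.one,
      by rw [hv]; exact hg.two,
      by
        intro u hu huv
        rw [hgD u hu]
        split_ifs
        · exact hg.off u hu huv
        · exact Or.inl rfl,
      fun p hp => ⟨(tab p hp).1.1, (tab p hp).1.2.1, fun u hu =>
        (hle u hu).trans ((tab p hp).1.2.2 u hu)⟩,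
      by
        intro w hw
        rw [hgD w hw]
        constructor
        · intro h1
          by_contra h2
          rw [if_neg h2] at h1
          omega
        · intro h1
          rw [if_pos h1]
          obtain ⟨p, hp, rfl⟩ := List.mem_map.1 h1
          exact (tab p hp).2, nod⟩
    generalize hr : A.inner (x', gg, W) = r at key ⊢
    obtain ⟨r1, L⟩ := r
    cases r1 with
    | false =>
      have h2 := key.2 rfl
      refine ⟨rfl, rfl, rfl, rfl, tab, vin, nod, ?_, Or.inr (Or.inr rfl), ?_, ?_⟩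
      · intro h; simp at h
      · intro h; simp at h
      · rintro - ⟨L, hL, hL2⟩
        exact h2 ⟨L, hL, fun u hu => (hle u hu).trans (hL2 u hu)⟩
    | true =>
      have h2 := key.1 rfl
      simp only at h2
      obtain ⟨hL, hL2⟩ := h2
      have hvL : A.deg x' M' v' < A.deg x' L v' := by
        have := hL2 v' hg.lt
        omega
      obtain ⟨hN, hN2⟩ := A.exch_spec x' M' L v' hx hM.2.1 hL hg.lt hvL
      simp only [cond_true]
      set N := A.exch (x', M', L, v') with hNdef
      by_cases hbN : (A.bad x' g' N).length = 0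
      · rw [if_pos hbN]
        refine ⟨rfl, rfl, rfl, rfl, tab, vin, nod, ?_, Or.inr (Or.inl rfl), ?_, ?_⟩
        · intro h; simp at h
        · intro _
          exact ⟨hN, A.bad_nil.1 hbN⟩
        · intro h; simp at h
      · rw [if_neg hbN]
        have hcov : ∀ u < A.nv x', g'.getD u 0 ≤ A.deg x' M' u + (if u = v' then 1 else 0) :=
          hM.2.2
        rcases hN2 with hN2 | ⟨j, hj, hjv, hjL, hN2⟩
        · exact absurd (A.bad_nil.2 fun u hu => (hcov u hu).trans (hN2 u hu)) hbN
        · have hall : ∀ u ∈ A.bad x' g' N, u = j := by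
            intro u hu
            have h1 := A.mem_bad.1 hu
            by_contra h2
            have h3 := hN2 u h1.1
            rw [if_neg h2] at h3
            have h4 := hcov u h1.1
            omega
          have hne : A.bad x' g' N ≠ [] := fun h => hbN (by rw [h]; rfl)
          have hhead : (A.bad x' g' N).headD 0 = j := by
            cases hbb : A.bad x' g' N with
            | nil => exact absurd hbb hne
            | cons a l => exact hall a (by rw [hbb]; exact List.mem_cons_self)
          have hjb : j ∈ A.bad x' g' N := by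
            cases hbb : A.bad x' g' N with
            | nil => exact absurd hbb hne
            | cons a l =>
              have := hall a (by rw [hbb]; exact List.mem_cons_self)
              rw [← this]
              exact List.mem_cons_self
          have hjd := (A.mem_bad.1 hjb).2
          have hjn : j ∉ W.map Prod.fst := by
            intro h1
            have h2 := hL2 j hj
            rw [hgD j hj, if_pos h1] at h2
            have h3 := hN2 j hj
            rw [if_neg hjv, if_pos rfl] at h3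
            omega
          refine ⟨rfl, rfl, rfl, rfl, ?_, ?_, ?_, ?_, Or.inl rfl, ?_, ?_⟩
          · intro p hp
            rcases List.mem_cons.1 hp with rfl | hp
            · simp only [hhead]
              refine ⟨⟨hj, hN, ?_⟩, by omega⟩
              intro u hu
              have h1 := hcov u hu
              have h2 := hN2 u hu
              omega
            · exact tab p hp
          · exact List.mem_cons_of_mem _ vin
          · simp only [List.map_cons, List.nodup_cons, hhead]
            exact ⟨hjn, nod⟩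
          · intro _
            simp only [List.length_cons]
            rw [len h0]
          · intro h; simp at h
          · intro h; simp at h
  · rw [if_neg h0]
    exact ⟨rfl, rfl, rfl, rfl, tab, vin, nod, fun h => absurd h h0, hst, fin1, fin2⟩

theorem inv_iter {x : ι} {g : List ℕ} {v : ℕ} {M : O} (hx : A.wf x)
    (hg : A.Dm x g v) (hM : A.Nr x g v M) (hb : A.deg x M v < g.getD v 0) (k : ℕ) :
    A.Inv x g v M k ((A.step)^[k] (x, g, v, M, [(v, M)], 0, M)) := by
  induction k with
  | zero =>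
    refine ⟨rfl, rfl, rfl, rfl, ?_, ?_, ?_, fun _ => rfl, Or.inl rfl, ?_, ?_⟩
    · intro p hp
      simp only [Function.iterate_zero, id_eq, List.mem_singleton] at hp
      subst hp
      exact ⟨hM, hg.one⟩
    · simp
    · simp
    · intro h; simp at h
    · intro h; simp at h
  | succ k ih =>
    rw [Function.iterate_succ_apply']
    exact A.inv_step hx hg hM hb ih

theorem aug_spec {x : ι} {g : List ℕ} {v : ℕ} {M : O} (hx : A.wf x)
    (hg : A.Dm x g v) (hM : A.Nr x g v M) :
    ((A.aug (x, g, v, M)).1 = 1 ∧ A.valid x (A.aug (x, g, v, M)).2 ∧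
        ∀ u < A.nv x, g.getD u 0 ≤ A.deg x (A.aug (x, g, v, M)).2 u) ∨
      ((A.aug (x, g, v, M)).1 = 2 ∧
        ¬ ∃ L, A.valid x L ∧ ∀ u < A.nv x, g.getD u 0 ≤ A.deg x L u) := by
  unfold aug
  simp only
  by_cases h0 : (A.bad x g M).length = 0
  · rw [if_pos h0]
    exact Or.inl ⟨rfl, hM.2.1, A.bad_nil.1 h0⟩
  · rw [if_neg h0]
    have hb : A.deg x M v < g.getD v 0 := by
      by_contra h1
      refine h0 (A.bad_nil.2 fun u hu => ?_)
      by_cases huv : u = v
      · subst huv
        omega
      · have := hM.2.2 u hu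
        rw [if_neg huv] at this
        exact this
    have h := A.inv_iter hx hg hM hb (A.nv x + 1)
    generalize (A.step)^[A.nv x + 1] (x, g, v, M, [(v, M)], 0, M) = s at h ⊢
    rcases h.st with h1 | h1 | h1
    · exfalso
      have h2 := h.len h1
      have h3 : (s.2.2.2.2.1.map Prod.fst).length ≤ A.nv x := by
        have := h.nod.subperm (l₂ := List.range (A.nv x)) (by
          intro j hj
          obtain ⟨p, hp, rfl⟩ := List.mem_map.1 hj
          exact List.mem_range.2 (h.tab p hp).1.1)
        simpa using this.length_le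
      rw [List.length_map] at h3
      omega
    · exact Or.inl ⟨h1, h.fin1 h1⟩
    · exact Or.inr ⟨h1, h.fin2 h1⟩

/-! ### correctness of the main loop -/

/-- the invariant of the main loop -/
structure OInv (x : ι) (k : ℕ) (s : Ou ι O) : Prop where
  e1 : s.1 = x
  run : s.2.2.2.1 = 0 → 2 * s.2.1 + s.2.2.1 = k ∧ s.2.2.1 ≤ 1 ∧ A.valid x s.2.2.2.2 ∧
    ∀ u < A.nv x, (dem (A.nv x) s.2.1 s.2.2.1).getD u 0 ≤ A.deg x s.2.2.2.2 u
  fin : s.2.2.2.1 ≠ 0 → ¬ ∃ L, A.valid x L ∧ ∀ u < A.nv x, 2 ≤ A.deg x L u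

theorem oinv_step {x : ι} {k : ℕ} {s : Ou ι O} (hx : A.wf x) (hk : k < 2 * A.nv x)
    (h : A.OInv x k s) : A.OInv x (k + 1) (A.ostep s) := by
  obtain ⟨x', v, r, st, M⟩ := s
  obtain ⟨e1, run, fin⟩ := h
  simp only at e1 run fin
  subst e1
  unfold ostep
  simp only
  by_cases h0 : st = 0
  · rw [if_pos h0]
    obtain ⟨h1, h2, h3, h4⟩ := run h0
    have hvn : v < A.nv x' := by omega
    have hdm : A.Dm x' (dem (A.nv x') v (r + 1)) v := by
      refine ⟨hvn, ?_, ?_, ?_⟩
      · rw [dem_getD hvn, if_neg (lt_irrefl _), if_pos rfl]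
        omega
      · rw [dem_getD hvn, if_neg (lt_irrefl _), if_pos rfl]
        omega
      · intro u hu huv
        rw [dem_getD hu, if_neg huv]
        split_ifs
        · exact Or.inr rfl
        · exact Or.inl rfl
    have hnr : A.Nr x' (dem (A.nv x') v (r + 1)) v M := by
      refine ⟨hvn, h3, fun u hu => ?_⟩
      have := h4 u hu
      rw [dem_getD hu] at this ⊢
      split_ifs at this ⊢ <;> omega
    have key := A.aug_spec hx hdm hnr
    generalize A.aug (x', dem (A.nv x') v (r + 1), v, M) = a at key ⊢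
    rcases key with ⟨k1, k2, k3⟩ | ⟨k1, k2⟩
    · rw [if_pos k1]
      by_cases hr : r = 0
      · rw [if_pos hr]
        subst hr
        exact ⟨rfl, fun _ => ⟨by simp only; omega, le_rfl, k2, k3⟩, fun h => absurd rfl h⟩
      · rw [if_neg hr]
        refine ⟨rfl, fun _ => ⟨by simp only; omega, by simp, k2, ?_⟩, fun h => absurd rfl h⟩
        intro u hu
        refine le_trans ?_ (k3 u hu)
        rw [dem_getD hu, dem_getD hu]
        simp only
        split_ifs <;> omega
    · rw [if_neg (by omega)]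
      refine ⟨rfl, fun h => ?_, fun _ => ?_⟩
      · simp at h
      · rintro ⟨L, hL, hL2⟩
        refine k2 ⟨L, hL, fun u hu => le_trans ?_ (hL2 u hu)⟩
        rw [dem_getD hu]
        split_ifs <;> omega
  · rw [if_neg h0]
    exact ⟨rfl, fun h => absurd h h0, fin⟩

/-- **Correctness of the algorithm.** -/
theorem alg_spec {x : ι} (hx : A.wf x) :
    ((A.alg x).1 = true → A.valid x (A.alg x).2 ∧ ∀ u < A.nv x, 2 ≤ A.deg x (A.alg x).2 u) ∧
      ((A.alg x).1 = false → ¬ ∃ L, A.valid x L ∧ ∀ u < A.nv x, 2 ≤ A.deg x L u) := by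
  have h : ∀ k, k ≤ 2 * A.nv x → A.OInv x k ((A.ostep)^[k] (x, 0, 0, 0, A.emp)) := by
    intro k
    induction k with
    | zero =>
      intro _
      refine ⟨rfl, fun _ => ⟨rfl, by simp, A.emp_valid x hx, ?_⟩, fun h => absurd rfl h⟩
      intro u hu
      simp only [Function.iterate_zero, id_eq]
      rw [dem_getD hu]
      simp
    | succ k ih =>
      intro hk
      rw [Function.iterate_succ_apply']
      exact A.oinv_step hx (by omega) (ih (by omega))
  have h1 := h _ le_rfl
  unfold alg
  simp only [decide_eq_true_eq, decide_eq_false_iff_not]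
  generalize (A.ostep)^[2 * A.nv x] (x, 0, 0, 0, A.emp) = s at h1 ⊢
  refine ⟨fun h2 => ?_, h1.fin⟩
  obtain ⟨h3, h4, h5, h6⟩ := h1.run h2
  refine ⟨h5, fun u hu => le_trans ?_ (h6 u hu)⟩
  rw [dem_getD hu, if_pos (by omega)]

/-! ### polynomial time -/

theorem pt_res {κ : Type} [DEnc κ] {n : κ → ℕ} {g T : κ → List ℕ} (hn : PT n) (hg : PT g) (hT : PT T) :
    PT (fun y => res (n y) (g y) (T y)) := by
  unfold res
  refine PT.map (g := fun z : κ × ℕ =>
    bif (T z.1).any (fun t => decide (t = z.2)) then (g z.1).getD z.2 0 else 0) (PT.range hn) ?_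
  refine PT.cond ?_ (PT.getD (hg.comp PT.fst) PT.snd (PT.const 0)) (PT.const 0)
  exact PT.any (p := fun w : (κ × ℕ) × ℕ => decide (w.2 = w.1.2)) (hT.comp PT.fst)
    (PT.neq PT.snd PT.fst.p2)

theorem pt_dem {κ : Type} [DEnc κ] {n v r : κ → ℕ} (hn : PT n) (hv : PT v) (hr : PT r) :
    PT (fun y => dem (n y) (v y) (r y)) := by
  unfold dem
  refine PT.map (g := fun z : κ × ℕ => if z.2 < v z.1 then 2 else if z.2 = v z.1 then r z.1 else 0)
    (PT.range hn) ?_
  exact PT.ite (PT.nlt PT.snd (hv.comp PT.fst)) (PT.const 2)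
    (PT.ite (PT.neq PT.snd (hv.comp PT.fst)) (hr.comp PT.fst) (PT.const 0))

theorem pt_bad {κ : Type} [DEnc κ] {x : κ → ι} {g : κ → List ℕ} {M : κ → O} (hx : PT x) (hg : PT g)
    (hM : PT M) : PT (fun y => A.bad (x y) (g y) (M y)) := by
  unfold bad
  refine PT.filter (p := fun z : κ × ℕ => decide (A.deg (x z.1) (M z.1) z.2 < (g z.1).getD z.2 0))
    (PT.range (A.pt_nv.comp hx)) ?_
  exact PT.nlt (A.pt_deg.comp (PT.pair (hx.comp PT.fst) (PT.pair (hM.comp PT.fst) PT.snd)))
    (PT.getD (hg.comp PT.fst) PT.snd (PT.const 0))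

theorem pt_step : PT A.step := by
  unfold step
  have x : PT (fun s : St ι O => s.1) := PT.fst
  have g : PT (fun s : St ι O => s.2.1) := PT.snd.p1
  have v : PT (fun s : St ι O => s.2.2.1) := PT.snd.p2.p1
  have M : PT (fun s : St ι O => s.2.2.2.1) := PT.snd.p2.p2.p1
  have W : PT (fun s : St ι O => s.2.2.2.2.1) := PT.snd.p2.p2.p2.p1
  have st : PT (fun s : St ι O => s.2.2.2.2.2.1) := PT.snd.p2.p2.p2.p2.p1
  have W1 : PT (fun s : St ι O => s.2.2.2.2.1.map Prod.fst) :=
    PT.map (g := fun z : St ι O × (ℕ × O) => z.2.1) W PT.snd.p1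
  have r : PT (fun s : St ι O =>
      A.inner (s.1, res (A.nv s.1) s.2.1 (s.2.2.2.2.1.map Prod.fst), s.2.2.2.2.1)) :=
    A.pt_inner.comp (PT.pair x (PT.pair (pt_res (A.pt_nv.comp x) g W1) W))
  have N : PT (fun s : St ι O => A.exch (s.1, s.2.2.2.1,
      (A.inner (s.1, res (A.nv s.1) s.2.1 (s.2.2.2.2.1.map Prod.fst), s.2.2.2.2.1)).2, s.2.2.1)) :=
    A.pt_exch.comp (PT.pair x (PT.pair M (PT.pair r.p2 v)))
  have b := A.pt_bad x g N
  refine PT.ite (PT.neq st (PT.const 0)) (PT.cond r.p1 (PT.ite (PT.neq (PT.length b) (PT.const 0))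
    ?_ ?_) ?_) PT.id
  · exact PT.pair x (PT.pair g (PT.pair v (PT.pair M (PT.pair W (PT.pair (PT.const 1) N)))))
  · exact PT.pair x (PT.pair g (PT.pair v (PT.pair M (PT.pair
      (PT.cons (PT.pair (PT.headD b (PT.const 0)) N) W) (PT.pair (PT.const 0) M)))))
  · exact PT.pair x (PT.pair g (PT.pair v (PT.pair M (PT.pair W (PT.pair (PT.const 2) M)))))

/-- the size invariant of the loop of `aug` -/
structure Sz (x : ι) (g : List ℕ) (v : ℕ) (M : O) (C k : ℕ) (s : St ι O) : Prop where
  e1 : s.1 = x
  e2 : s.2.1 = g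
  e3 : s.2.2.1 = v
  e4 : s.2.2.2.1 = M
  len : s.2.2.2.2.1.length ≤ k + 1
  mem : ∀ p ∈ s.2.2.2.2.1, tsize p ≤ C
  st : s.2.2.2.2.2.1 ≤ 2
  r : tsize s.2.2.2.2.2.2 ≤ C

theorem bad_headD (x : ι) (g : List ℕ) (N : O) : (A.bad x g N).headD 0 ≤ A.nv x := by
  cases h : A.bad x g N with
  | nil => exact Nat.zero_le _
  | cons a l => exact (A.mem_bad.1 (by rw [h]; exact List.mem_cons_self)).1.le

theorem sz_iter (x : ι) (g : List ℕ) (v : ℕ) (M : O) (k : ℕ) :
    Sz x g v M (2 * (v + A.nv x) + 2 + (A.B x + tsize M)) k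
      ((A.step)^[k] (x, g, v, M, [(v, M)], 0, M)) := by
  induction k with
  | zero =>
    refine ⟨rfl, rfl, rfl, rfl, le_rfl, ?_, by simp, ?_⟩
    · intro p hp
      simp only [Function.iterate_zero, id_eq, List.mem_singleton] at hp
      subst hp
      simp only [tsize_pair, tsize_nat]
      omega
    · simp only [Function.iterate_zero, id_eq]
      omega
  | succ k ih =>
    rw [Function.iterate_succ_apply']
    generalize (A.step)^[k] (x, g, v, M, [(v, M)], 0, M) = s at ih ⊢
    obtain ⟨x', g', v', M', W, st, R⟩ := s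
    obtain ⟨e1, e2, e3, e4, len, mem, hst, hr⟩ := ih
    simp only at e1 e2 e3 e4 len mem hst hr
    subst e1 e2 e3 e4
    unfold step
    simp only
    by_cases h0 : st = 0
    · rw [if_pos h0]
      generalize A.inner (x', res (A.nv x') g' (W.map Prod.fst), W) = r
      obtain ⟨r1, L⟩ := r
      have hN := A.size_exch (x', M', L, v')
      cases r1 with
      | false => exact ⟨rfl, rfl, rfl, rfl, by simp only [cond_false]; omega, mem, le_rfl, by
          simp only [cond_false]; omega⟩
      | true =>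
        simp only [cond_true]
        generalize A.exch (x', M', L, v') = N at hN ⊢
        simp only at hN
        split_ifs
        · exact ⟨rfl, rfl, rfl, rfl, by simp only; omega, mem, by simp, by simp only; omega⟩
        · refine ⟨rfl, rfl, rfl, rfl, by simp only [List.length_cons]; omega, ?_, by simp, by
            simp only; omega⟩
          intro p hp
          rcases List.mem_cons.1 hp with rfl | hp
          · have := A.bad_headD x' g' N
            simp only [tsize_pair, tsize_nat]
            omega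
          · exact mem p hp
    · rw [if_neg h0]
      exact ⟨rfl, rfl, rfl, rfl, by simp only; omega, mem, hst, hr⟩

theorem pt_aug : PT A.aug := by
  unfold aug
  have x : PT (fun y : ι × List ℕ × ℕ × O => y.1) := PT.fst
  have g : PT (fun y : ι × List ℕ × ℕ × O => y.2.1) := PT.snd.p1
  have v : PT (fun y : ι × List ℕ × ℕ × O => y.2.2.1) := PT.snd.p2.p1
  have M : PT (fun y : ι × List ℕ × ℕ × O => y.2.2.2) := PT.snd.p2.p2
  refine PT.ite (PT.neq (PT.length (A.pt_bad x g M)) (PT.const 0)) (PT.pair (PT.const 1) M) ?_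
  refine PT.p2 (PT.p2 (PT.p2 (PT.p2 (PT.p2 ?_))))
  have hC : PB (fun y : ι × List ℕ × ℕ × O =>
      2 * (y.2.2.1 + A.nv y.1) + 2 + (A.B y.1 + tsize y.2.2.2)) := by
    have h1 : PB (fun y : ι × List ℕ × ℕ × O => y.2.2.1) :=
      v.size.of_le fun y => by simp only [tsize_nat]; omega
    have h2 : PB (fun y : ι × List ℕ × ℕ × O => A.nv y.1) :=
      (A.pt_nv.comp x).size.of_le fun y => by simp only [tsize_nat]; omega
    exact (((PB.const 2).mul (h1.add h2)).add (PB.const 2)).add ((A.pb.comp x.size).add M.size)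
  have hn : PB (fun y : ι × List ℕ × ℕ × O => A.nv y.1) :=
    (A.pt_nv.comp x).size.of_le fun y => by simp only [tsize_nat]; omega
  refine PT.iterateNat (count := fun y : ι × List ℕ × ℕ × O => A.nv y.1 + 1)
    (init := fun y : ι × List ℕ × ℕ × O =>
      (y.1, y.2.1, y.2.2.1, y.2.2.2, [(y.2.2.1, y.2.2.2)], 0, y.2.2.2))
    (PT.nsucc (A.pt_nv.comp x))
    (PT.pair x (PT.pair g (PT.pair v (PT.pair M (PT.pair (PT.cons (PT.pair v M) (PT.const []))
      (PT.pair (PT.const 0) M)))))) A.pt_step
    ⟨fun y => tsize y + ((A.nv y.1 + 2) *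
      ((2 * (y.2.2.1 + A.nv y.1) + 2 + (A.B y.1 + tsize y.2.2.2)) + 1) + 1) +
      (2 * (y.2.2.1 + A.nv y.1) + 2 + (A.B y.1 + tsize y.2.2.2)) + 10, ?_, ?_⟩
  · exact ((PB.tsize.add (((hn.add (PB.const 2)).mul (hC.add (PB.const 1))).add (PB.const 1))).add
      hC).add (PB.const 10)
  · rintro ⟨x, g, v, M⟩ k hk
    have h := A.sz_iter x g v M k
    simp only at hk ⊢
    generalize (A.step)^[k] (x, g, v, M, [(v, M)], 0, M) = s at h ⊢
    obtain ⟨x', g', v', M', W, st, R⟩ := s
    obtain ⟨e1, e2, e3, e4, len, mem, hst, hr⟩ := h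
    simp only at e1 e2 e3 e4 len mem hst hr
    subst e1 e2 e3 e4
    have h6 := tsize_le_of_forall mem
    generalize 2 * (v' + A.nv x') + 2 + (A.B x' + tsize M') = C at *
    have h7 : W.length * (C + 1) ≤ (A.nv x' + 2) * (C + 1) := Nat.mul_le_mul_right _ (by omega)
    simp only [tsize_pair, tsize_nat]
    omega

theorem pt_ostep : PT A.ostep := by
  unfold ostep
  have x : PT (fun s : Ou ι O => s.1) := PT.fst
  have v : PT (fun s : Ou ι O => s.2.1) := PT.snd.p1
  have r : PT (fun s : Ou ι O => s.2.2.1) := PT.snd.p2.p1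
  have st : PT (fun s : Ou ι O => s.2.2.2.1) := PT.snd.p2.p2.p1
  have M : PT (fun s : Ou ι O => s.2.2.2.2) := PT.snd.p2.p2.p2
  have a : PT (fun s : Ou ι O =>
      A.aug (s.1, dem (A.nv s.1) s.2.1 (s.2.2.1 + 1), s.2.1, s.2.2.2.2)) :=
    A.pt_aug.comp (PT.pair x (PT.pair (pt_dem (A.pt_nv.comp x) v (PT.nsucc r)) (PT.pair v M)))
  refine PT.ite (PT.neq st (PT.const 0)) (PT.ite (PT.neq a.p1 (PT.const 1))
    (PT.ite (PT.neq r (PT.const 0)) ?_ ?_) ?_) PT.id
  · exact PT.pair x (PT.pair v (PT.pair (PT.const 1) (PT.pair (PT.const 0) a.p2)))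
  · exact PT.pair x (PT.pair (PT.nsucc v) (PT.pair (PT.const 0) (PT.pair (PT.const 0) a.p2)))
  · exact PT.pair x (PT.pair v (PT.pair r (PT.pair (PT.const 2) M)))

theorem aug_size (x : ι) (g : List ℕ) (v : ℕ) (M : O) :
    tsize (A.aug (x, g, v, M)).2 ≤ max (tsize M) (A.B x) := by
  unfold aug
  simp only
  split_ifs
  · exact le_max_left _ _
  · have h : ∀ k, ((A.step)^[k] (x, g, v, M, [(v, M)], 0, M)).1 = x ∧
        ((A.step)^[k] (x, g, v, M, [(v, M)], 0, M)).2.2.2.1 = M ∧
        tsize ((A.step)^[k] (x, g, v, M, [(v, M)], 0, M)).2.2.2.2.2.2 ≤ max (tsize M) (A.B x) := by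
      intro k
      induction k with
      | zero => exact ⟨rfl, rfl, le_max_left _ _⟩
      | succ k ih =>
        rw [Function.iterate_succ_apply']
        generalize (A.step)^[k] (x, g, v, M, [(v, M)], 0, M) = s at ih ⊢
        obtain ⟨x', g', v', M', W, st, R⟩ := s
        obtain ⟨e1, e4, hr⟩ := ih
        simp only at e1 e4 hr
        subst e1 e4
        unfold step
        simp only
        by_cases h0 : st = 0
        · rw [if_pos h0]
          generalize A.inner (x', res (A.nv x') g' (W.map Prod.fst), W) = r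
          obtain ⟨r1, L⟩ := r
          have hN := A.size_exch (x', M', L, v')
          cases r1 with
          | false => exact ⟨rfl, rfl, le_max_left _ _⟩
          | true =>
            simp only [cond_true]
            split_ifs
            · exact ⟨rfl, rfl, hN.trans (le_max_right _ _)⟩
            · exact ⟨rfl, rfl, le_max_left _ _⟩
        · rw [if_neg h0]
          exact ⟨rfl, rfl, hr⟩
    exact (h _).2.2

theorem osz_iter (x : ι) (k : ℕ) :
    ((A.ostep)^[k] (x, 0, 0, 0, A.emp)).1 = x ∧ ((A.ostep)^[k] (x, 0, 0, 0, A.emp)).2.1 ≤ k ∧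
      ((A.ostep)^[k] (x, 0, 0, 0, A.emp)).2.2.1 ≤ 1 ∧
      ((A.ostep)^[k] (x, 0, 0, 0, A.emp)).2.2.2.1 ≤ 2 ∧
      tsize ((A.ostep)^[k] (x, 0, 0, 0, A.emp)).2.2.2.2 ≤ max (tsize A.emp) (A.B x) := by
  induction k with
  | zero => exact ⟨rfl, le_rfl, by simp, by simp, le_max_left _ _⟩
  | succ k ih =>
    rw [Function.iterate_succ_apply']
    generalize (A.ostep)^[k] (x, 0, 0, 0, A.emp) = s at ih ⊢
    obtain ⟨x', v, r, st, M⟩ := s
    obtain ⟨e1, h1, h2, h3, h4⟩ := ih
    simp only at e1 h1 h2 h3 h4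
    subst e1
    unfold ostep
    simp only
    have ha := A.aug_size x' (dem (A.nv x') v (r + 1)) v M
    split_ifs
    · exact ⟨rfl, by simp only; omega, le_rfl, by simp, ha.trans (max_le h4 (le_max_right _ _))⟩
    · exact ⟨rfl, by simp only; omega, by simp, by simp, ha.trans (max_le h4 (le_max_right _ _))⟩
    · exact ⟨rfl, by simp only; omega, h2, le_rfl, h4⟩
    · exact ⟨rfl, by simp only; omega, h2, h3, h4⟩

/-- **The algorithm runs in polynomial time.** -/
theorem pt_alg : PT A.alg := by
  have h := PT.iterateNat (count := fun x : ι => 2 * A.nv x)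
    (init := fun x : ι => (x, 0, 0, 0, A.emp)) (PT.nmul (PT.const 2) A.pt_nv)
    (PT.pair PT.id (PT.const (0, 0, 0, A.emp))) A.pt_ostep
    ⟨fun x => tsize x + 4 * A.nv x + (tsize A.emp + A.B x) + 20, by
      have hn : PB (fun x : ι => A.nv x) :=
        A.pt_nv.size.of_le fun y => by simp only [tsize_nat]; omega
      exact ((PB.tsize.add ((PB.const 4).mul hn)).add ((PB.const _).add A.pb)).add (PB.const 20), by
      intro x k hk
      obtain ⟨e1, h1, h2, h3, h4⟩ := A.osz_iter x k
      generalize (A.ostep)^[k] (x, 0, 0, 0, A.emp) = s at *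
      obtain ⟨x', v, r, st, M⟩ := s
      simp only at e1 h1 h2 h3 h4
      subst e1
      have h5 : max (tsize A.emp) (A.B x') ≤ tsize A.emp + A.B x' :=
        max_le (Nat.le_add_right _ _) (Nat.le_add_left _ _)
      simp only [tsize_pair, tsize_nat]
      omega⟩
  unfold alg
  exact PT.pair (PT.neq h.p2.p2.p2.p1 (PT.const 0)) h.p2.p2.p2.p2

end OutApi

end Pool.Agent.PF4

end

section -- file PF4/Cov

/-!
The concrete data of the inner loop: squares of the graph, harmful squares, conflicts, breaking of the harmless squares,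
the exchange. `SX` is the interface of the two missing functions (`solver`, `xf`), `SX.toIn` the resulting `InApi`.
-/

set_option autoImplicit false

namespace Pool.Agent.PF4

open Finset Pool.Agent.TFC Pool.Agent.Lib.helper60

/-- instances: number of vertices, list of edges -/
abbrev Ins := ℕ × List Ed

/-- the edges of a square -/
def sqE (q : Sq4) : List Ed := [(q.1, q.2.1), (q.2.1, q.2.2.1), (q.2.2.1, q.2.2.2), (q.2.2.2, q.1)]

theorem fs_sqE (q : Sq4) : fs (sqE q) = sqs q := by
  ext x
  simp [fs, sqE, sqs, TFC.sq, fe]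

theorem WF_sqE {q : Sq4} (h : SqOK q) : WF (sqE q) := by
  obtain ⟨a, b, c, d⟩ := q
  obtain ⟨h1, h2, h3, h4, h5, h6⟩ := h
  simp only at h1 h2 h3 h4 h5 h6
  unfold WF sqE fe
  simp only [List.map_cons, List.map_nil, List.nodup_cons, List.mem_cons, List.not_mem_nil, or_false,
    Sym2.eq_iff, not_or, not_false_eq_true, List.nodup_nil, and_true]
  refine ⟨⟨?_, ?_, ?_⟩, ⟨?_, ?_⟩, ?_⟩ <;> tauto

/-- number of common edges -/
def com (q r : Sq4) : ℕ := (norm (sqE q) (sqE r)).length

theorem com_eq {q r : Sq4} (h : SqOK q) : com q r = #(sqs q ∩ sqs r) := by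
  have h1 := card_fs ((WF_sqE h).norm (sqE r))
  rw [com, ← h1, fs_norm, fs_sqE, fs_sqE]

/-- exactly one common edge -/
def conf (q r : Sq4) : Bool := decide (com q r = 1)

/-- two opposite corners of demand 2 -/
def harm (g : List ℕ) (q : Sq4) : Bool :=
  (decide (2 ≤ g.getD q.1 0) && decide (2 ≤ g.getD q.2.2.1 0)) ||
    (decide (2 ≤ g.getD q.2.1 0) && decide (2 ≤ g.getD q.2.2.2 0))

/-- canonical form of a square of the graph -/
def cano (x : Ins) (q : Sq4) : Bool :=
  (decide (q.1 < q.2.1) && (decide (q.1 < q.2.2.1) && decide (q.2.1 < q.2.2.2))) &&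
    ((!decide (q.2.1 = q.2.2.1) && !decide (q.2.2.1 = q.2.2.2)) && sqIn x.2 q)

/-- all pairs -/
def prodL {α β : Type} (l : List α) (m : List β) : List (α × β) := l.flatMap fun a => m.map fun b => (a, b)

/-- the squares of the graph -/
def sqG (x : Ins) : List Sq4 :=
  (prodL (List.range x.1) (prodL (List.range x.1) (prodL (List.range x.1) (List.range x.1)))).filter
    fun q => cano x q

theorem mem_prodL {α β : Type} {l : List α} {m : List β} {p : α × β} : p ∈ prodL l m ↔ p.1 ∈ l ∧ p.2 ∈ m := by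
  obtain ⟨a, b⟩ := p
  simp only [prodL, List.mem_flatMap, List.mem_map, Prod.mk.injEq]
  constructor
  · rintro ⟨a', h1, b', h2, rfl, rfl⟩
    exact ⟨h1, h2⟩
  · rintro ⟨h1, h2⟩
    exact ⟨a, h1, b, h2, rfl, rfl⟩

theorem mem_sqG {x : Ins} {q : Sq4} :
    q ∈ sqG x ↔ (q.1 < x.1 ∧ q.2.1 < x.1 ∧ q.2.2.1 < x.1 ∧ q.2.2.2 < x.1) ∧ cano x q = true := by
  simp only [sqG, List.mem_filter, mem_prodL, List.mem_range]

theorem cano_iff {x : Ins} {q : Sq4} : cano x q = true ↔
    (q.1 < q.2.1 ∧ q.1 < q.2.2.1 ∧ q.2.1 < q.2.2.2) ∧ (q.2.1 ≠ q.2.2.1 ∧ q.2.2.1 ≠ q.2.2.2) ∧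
      sqs q ⊆ fs x.2 := by
  simp only [cano, Bool.and_eq_true, decide_eq_true_eq, Bool.not_eq_true', decide_eq_false_iff_not,
    sqIn_iff, ne_eq]

/-- well-formed instances -/
structure InsWF (x : Ins) : Prop where
  wf : WF x.2
  nl : NoLoop (fs x.2)
  lt : ∀ e ∈ x.2, e.1 < x.1 ∧ e.2 < x.1

theorem InsWF.vlt {x : Ins} (h : InsWF x) {e : Sym2 ℕ} (he : e ∈ fs x.2) {v : ℕ} (hv : v ∈ e) : v < x.1 := by
  obtain ⟨f, hf, rfl⟩ := mem_fs.1 he
  have := h.lt f hf
  rcases Sym2.mem_iff.1 hv with rfl | rfl
  · exact this.1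
  · exact this.2

/-- every square of the graph has a canonical form -/
theorem sqG_full {x : Ins} (hx : InsWF x) {a b c d : ℕ} (h : Sq (fs x.2) a b c d) :
    ∃ q ∈ sqG x, sqs q = TFC.sq a b c d := by
  -- the case where `a` is least and `b < d`
  have key : ∀ a b c d : ℕ, Sq (fs x.2) a b c d → a < b → a < c → b < d →
      ∃ q ∈ sqG x, sqs q = TFC.sq a b c d := by
    intro a b c d h h1 h2 h3
    obtain ⟨g1, g2, g3, g4, g5, g6⟩ := h.dist4 hx.nl
    refine ⟨(a, b, c, d), mem_sqG.2 ⟨⟨?_, ?_, ?_, ?_⟩, cano_iff.2 ⟨⟨h1, h2, h3⟩, ⟨g4, g6⟩, Sq.sub h⟩⟩, rfl⟩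
    · exact hx.vlt h.ab (Sym2.mem_mk_left _ _)
    · exact hx.vlt h.ab (Sym2.mem_mk_right _ _)
    · exact hx.vlt h.bc (Sym2.mem_mk_right _ _)
    · exact hx.vlt h.cd (Sym2.mem_mk_right _ _)
  -- the case where `a` is least
  have key2 : ∀ a b c d : ℕ, Sq (fs x.2) a b c d → a < b → a < c → a < d →
      ∃ q ∈ sqG x, sqs q = TFC.sq a b c d := by
    intro a b c d h h1 h2 h3
    rcases lt_or_gt_of_ne h.bd with h4 | h4
    · exact key a b c d h h1 h2 h4
    · obtain ⟨q, hq, e⟩ := key a d c b (h.ref.rot.rot.rot) h3 h2 h4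
      refine ⟨q, hq, ?_⟩
      rw [e, ← sq_ref' a b c d, sq_rot']
      ext x; simp only [TFC.sq, Finset.mem_insert, Finset.mem_singleton]; tauto
  obtain ⟨g1, g2, g3, g4, g5, g6⟩ := h.dist4 hx.nl
  have c1 : (a < b ∧ a < c ∧ a < d) ∨ (b < c ∧ b < d ∧ b < a) ∨ (c < d ∧ c < a ∧ c < b) ∨
      (d < a ∧ d < b ∧ d < c) := by omega
  rcases c1 with ⟨h1, h2, h3⟩ | ⟨h1, h2, h3⟩ | ⟨h1, h2, h3⟩ | ⟨h1, h2, h3⟩
  · exact key2 a b c d h h1 h2 h3
  · obtain ⟨q, hq, e⟩ := key2 b c d a h.rot h1 h2 h3
    exact ⟨q, hq, by rw [e, sq_rot']⟩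
  · obtain ⟨q, hq, e⟩ := key2 c d a b h.rot.rot h1 h2 h3
    exact ⟨q, hq, by rw [e, sq_rot', sq_rot']⟩
  · obtain ⟨q, hq, e⟩ := key2 d a b c h.rot.rot.rot h1 h2 h3
    exact ⟨q, hq, by rw [e, sq_rot', sq_rot', sq_rot']⟩

theorem conf_iff {q r : Sq4} (hq : SqOK q) : conf q r = true ↔ #(sqs q ∩ sqs r) = 1 := by
  unfold conf
  rw [com_eq hq, decide_eq_true_eq]

/-! ### breaking of the harmless squares -/

section
variable {ι : Type} [DEnc ι]

theorem pt_sqE {q : ι → Sq4} (hq : PT q) : PT (fun x => sqE (q x)) := by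
  have h1 := PT.p1 hq
  have h2 := PT.p1 (PT.p2 hq)
  have h3 := PT.p1 (PT.p2 (PT.p2 hq))
  have h4 := PT.p2 (PT.p2 (PT.p2 hq))
  exact PT.cons (PT.pair h1 h2) (PT.cons (PT.pair h2 h3) (PT.cons (PT.pair h3 h4)
    (PT.cons (PT.pair h4 h1) (PT.const []))))

theorem pt_harm {g : ι → List ℕ} {q : ι → Sq4} (hg : PT g) (hq : PT q) :
    PT (fun x => harm (g x) (q x)) := by
  have h1 := PT.p1 hq
  have h2 := PT.p1 (PT.p2 hq)
  have h3 := PT.p1 (PT.p2 (PT.p2 hq))
  have h4 := PT.p2 (PT.p2 (PT.p2 hq))
  have k : ∀ {v : ι → ℕ}, PT v → PT (fun x => decide (2 ≤ (g x).getD (v x) 0)) := fun hv =>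
    PT.nle (PT.const 2) (PT.getD hg hv (PT.const 0))
  exact PT.bor (PT.band (k h1) (k h3)) (PT.band (k h2) (k h4))

theorem pt_prodL {α β : Type} [DEnc α] [DEnc β] {l : ι → List α} {m : ι → List β} (hl : PT l) (hm : PT m) :
    PT (fun x => prodL (l x) (m x)) :=
  PT.flatMap (g := fun z : ι × α => (m z.1).map fun b => (z.2, b)) hl
    (PT.map (g := fun w : (ι × α) × β => (w.1.2, w.2)) (hm.comp PT.fst) (PT.pair PT.fst.p2 PT.snd))

end

end Pool.Agent.PF4

end

section -- file PF4/SX

/-!
The interface of the two missing functions (`solver`, `xf`) and the resulting algorithm.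
-/

set_option autoImplicit false

namespace Pool.Agent.PF4

open Finset Pool.Agent.TFC Pool.Agent.Lib.helper60

/-- 2-matching of the graph -/
structure MG (x : Ins) (M : List Ed) : Prop where
  wf : WF M
  m2 : M2 (fs M)
  sub : fs M ⊆ fs x.2

/-- restriction to the edges of the graph: bounded size, same edge set -/
def nrm (x : Ins) (M : List Ed) : List Ed := norm x.2 M

theorem fs_nrm {x : Ins} {M : List Ed} (h : fs M ⊆ fs x.2) : fs (nrm x M) = fs M := fs_norm_of h

theorem MG.nrm {x : Ins} {M : List Ed} (h : MG x M) (hx : InsWF x) : MG x (nrm x M) := by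
  have e := fs_nrm h.sub
  exact ⟨hx.wf.norm M, by rw [e]; exact h.m2, by rw [e]; exact h.sub⟩

theorem degL_nrm {x : Ins} {M : List Ed} (h : MG x M) (hx : InsWF x) (v : ℕ) :
    degL (nrm x M) v = degL M v := by
  rw [degL_eq (h.nrm hx).wf, degL_eq h.wf, fs_nrm h.sub]

theorem tsize_nrm (x : Ins) (M : List Ed) : tsize (nrm x M) ≤ tsize x := by
  have h := tsize_filter_le x.2 fun e => hasE M e
  have h2 : tsize x = tsize x.1 + tsize x.2 + 1 := by rw [← tsize_pair]
  unfold nrm norm
  omega

theorem pt_nrm {ι : Type} [DEnc ι] {x : ι → Ins} {M : ι → List Ed} (hx : PT x) (hM : PT M) :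
    PT (fun y => nrm (x y) (M y)) := pt_norm (PT.p2 hx) hM

theorem cov_nrm {x : Ins} {M : List Ed} (h : MG x M) (hx : InsWF x) {g : List ℕ}
    (hc : Cov x.1 g (degL M)) : Cov x.1 g (degL (nrm x M)) := by
  intro u hu
  rw [degL_nrm h hx]
  exact hc u hu

end Pool.Agent.PF4

end

section -- file PF4/Inner2

/-!
# The inner loop, dead-list form

`cl x g N` is the clause of a `g`-cover `N`: the forbidden squares of `N` with two opposite corners of demand `2`. The state
of the loop is a list of dead squares `(R, Z, F)` (`F` is a `g`-cover, `Z` is in its clause and in conflict with `R`, and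
`xf1` could not remove `Z` from `F` relative to `R`; so `R` can be removed from every `g`-cover relative to `Z`). The solver is
called for a maximal conflict-free set of squares which are not dead.
-/

set_option autoImplicit false

namespace Pool.Agent.PF4

open Pool.Agent.Lib.helper60

section grd

variable {κ : Type} [DecidableEq κ]

/-- one step of the greedy selection -/
def grds (conf : κ → κ → Bool) (D : List κ) (q : κ) : List κ :=
  bif D.any (fun R => conf q R) then D else q :: D

/-- greedy maximal conflict-free sublist -/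
def grd (conf : κ → κ → Bool) (l : List κ) : List κ := l.foldl (grds conf) []

theorem grd_aux (conf : κ → κ → Bool) (S : κ → Prop) (hself : ∀ q, S q → conf q q = false)
    (hsymm : ∀ q r, S q → S r → conf q r = conf r q) : ∀ (l D : List κ), l.Nodup → D.Nodup →
    (∀ q ∈ l, S q) → (∀ q ∈ D, S q) → (∀ q ∈ l, q ∉ D) →
    (∀ q ∈ D, ∀ r ∈ D, conf q r = false) →
    (l.foldl (grds conf) D).Nodup ∧ (∀ q ∈ D, q ∈ l.foldl (grds conf) D) ∧
    (∀ q ∈ l.foldl (grds conf) D, q ∈ D ∨ q ∈ l) ∧
    (∀ q ∈ l.foldl (grds conf) D, ∀ r ∈ l.foldl (grds conf) D, conf q r = false) ∧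
    (∀ q ∈ l, q ∈ l.foldl (grds conf) D ∨ ∃ r ∈ l.foldl (grds conf) D, conf q r = true) := by
  intro l
  induction l with
  | nil =>
    intro D _ hD _ _ _ hf
    exact ⟨hD, fun q hq => hq, fun q hq => Or.inl hq, hf, fun q hq => by simp at hq⟩
  | cons a l ih =>
    intro D hl hD hSl hSD hdis hf
    rw [List.foldl_cons]
    obtain ⟨hal, hl'⟩ := List.nodup_cons.1 hl
    cases hc : D.any (fun R => conf a R) with
    | true =>
      have e : grds conf D a = D := by unfold grds; rw [hc]; rfl
      rw [e]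
      obtain ⟨i1, i2, i3, i4, i5⟩ := ih D hl' hD (fun q hq => hSl q (List.mem_cons_of_mem _ hq)) hSD
        (fun q hq => hdis q (List.mem_cons_of_mem _ hq)) hf
      refine ⟨i1, i2, fun q hq => (i3 q hq).imp_right (List.mem_cons_of_mem _), i4, ?_⟩
      intro q hq
      rcases List.mem_cons.1 hq with rfl | hq
      · obtain ⟨r, hr, hr2⟩ := List.any_eq_true.1 hc
        exact Or.inr ⟨r, i2 r hr, hr2⟩
      · exact i5 q hq
    | false =>
      have e : grds conf D a = a :: D := by unfold grds; rw [hc]; rfl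
      rw [e]
      have hc' : ∀ r ∈ D, conf a r = false := by
        intro r hr
        rw [List.any_eq_false] at hc
        exact Bool.not_eq_true _ ▸ hc r hr
      have hSa := hSl a List.mem_cons_self
      obtain ⟨i1, i2, i3, i4, i5⟩ := ih (a :: D) hl'
        (List.nodup_cons.2 ⟨hdis a List.mem_cons_self, hD⟩)
        (fun q hq => hSl q (List.mem_cons_of_mem _ hq))
        (fun q hq => by
          rcases List.mem_cons.1 hq with rfl | hq
          · exact hSa
          · exact hSD q hq)
        (fun q hq h => by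
          rcases List.mem_cons.1 h with rfl | h
          · exact hal hq
          · exact hdis q (List.mem_cons_of_mem _ hq) h)
        (fun q hq r hr => by
          rcases List.mem_cons.1 hq with e1 | h1 <;> rcases List.mem_cons.1 hr with e2 | h2
          · rw [e1, e2]; exact hself _ hSa
          · rw [e1]; exact hc' r h2
          · rw [e2, hsymm q _ (hSD q h1) hSa]; exact hc' q h1
          · exact hf q h1 r h2)
      refine ⟨i1, fun q hq => i2 q (List.mem_cons_of_mem _ hq), ?_, i4, ?_⟩
      · intro q hq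
        rcases i3 q hq with h | h
        · rcases List.mem_cons.1 h with rfl | h
          · exact Or.inr List.mem_cons_self
          · exact Or.inl h
        · exact Or.inr (List.mem_cons_of_mem _ h)
      · intro q hq
        rcases List.mem_cons.1 hq with rfl | hq
        · exact Or.inl (i2 q List.mem_cons_self)
        · exact i5 q hq

/-- the greedy selection is conflict-free and maximal -/
theorem grd_spec (conf : κ → κ → Bool) {l : List κ} (hl : l.Nodup)
    (hself : ∀ q ∈ l, conf q q = false) (hsymm : ∀ q ∈ l, ∀ r ∈ l, conf q r = conf r q) :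
    (grd conf l).Nodup ∧ (∀ q ∈ grd conf l, q ∈ l) ∧
    (∀ q ∈ grd conf l, ∀ r ∈ grd conf l, conf q r = false) ∧
    (∀ q ∈ l, q ∈ grd conf l ∨ ∃ r ∈ grd conf l, conf q r = true) := by
  obtain ⟨h1, _, h3, h4, h5⟩ := grd_aux conf (fun q => q ∈ l) hself (fun q r hq hr => hsymm q hq r hr)
    l [] hl List.nodup_nil (fun q hq => hq) (fun q hq => by simp at hq) (fun q _ h => by simp at h)
    (fun q hq => by simp at hq)
  exact ⟨h1, fun q hq => (h3 q hq).resolve_left (by simp), h4, h5⟩

omit [DecidableEq κ] in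
theorem grd_size [DEnc κ] (conf : κ → κ → Bool) : ∀ (l D : List κ),
    tsize (l.foldl (grds conf) D) ≤ tsize D + tsize l := by
  intro l
  induction l with
  | nil => intro D; simp
  | cons a l ih =>
    intro D
    rw [List.foldl_cons]
    refine (ih _).trans ?_
    unfold grds
    cases D.any (fun R => conf a R) with
    | true => simp only [cond_true, tsize_cons]; omega
    | false => simp only [cond_false, tsize_cons]; omega

omit [DecidableEq κ] in
theorem tsize_headD [DEnc κ] (l : List κ) (d : κ) : tsize (l.headD d) ≤ tsize l + tsize d := by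
  cases l with
  | nil => exact Nat.le_add_left _ _
  | cons a l => simp only [List.headD_cons, tsize_cons]; omega

theorem tsize_filter' {β : Type} [DEnc β] (p : β → Bool) (l : List β) :
    tsize (l.filter p) ≤ tsize l := by
  induction l with
  | nil => exact le_rfl
  | cons x l ih =>
    rw [List.filter_cons]
    split
    · simp only [tsize_cons]
      omega
    · simp only [tsize_cons]
      omega

end grd

/-- the interface of the inner loop in dead-list form -/
structure In2Api (ι O κ : Type) [DEnc ι] [DEnc O] [DEnc κ] [DecidableEq κ] where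
  /-- number of vertices -/
  nv : ι → ℕ
  /-- degree of a vertex in an object -/
  deg : ι → O → ℕ → ℕ
  /-- 2-matchings -/
  m2 : ι → O → Prop
  /-- well-formed instances -/
  wf : ι → Prop
  /-- the list of the forbidden squares -/
  sqs : ι → List κ
  /-- the square is contained in the object -/
  has : ι → O → κ → Bool
  /-- the square has two opposite corners of demand 2 -/
  opp : ι → List ℕ → κ → Bool
  /-- the two squares share exactly one edge -/
  conf : κ → κ → Bool
  /-- the empty object -/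
  emp : O
  /-- a dummy square -/
  k0 : κ
  /-- `exch (x, M, L, v)`: the two-step exchange from `M` towards `L` with first step `+ e_v` -/
  exch : ι × O × O × ℕ → O
  /-- `solver (x, g, W, DD)` -/
  solver : ι × List ℕ × List (ℕ × O) × List κ → Bool × O
  /-- `xf1 (x, g, W, N, Q, R)` -/
  xf1 : ι × List ℕ × List (ℕ × O) × O × κ × κ → Bool × O
  /-- `brk (x, g, N)` -/
  brk : ι × List ℕ × O → O
  /-- bound of the sizes of the objects -/
  B : ι → ℕ
  pt_nv : PT nv
  pt_deg : PT (fun y : ι × O × ℕ => deg y.1 y.2.1 y.2.2)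
  pt_sqs : PT sqs
  pt_has : PT (fun y : ι × O × κ => has y.1 y.2.1 y.2.2)
  pt_opp : PT (fun y : ι × List ℕ × κ => opp y.1 y.2.1 y.2.2)
  pt_conf : PT (fun y : κ × κ => conf y.1 y.2)
  pt_eq : PT (fun y : κ × κ => decide (y.1 = y.2))
  pt_exch : PT exch
  pt_solver : PT solver
  pt_xf1 : PT xf1
  pt_brk : PT brk
  pb : PB B
  size_exch : ∀ y, tsize (exch y) ≤ B y.1
  size_solver : ∀ y, tsize (solver y).2 ≤ B y.1
  size_xf1 : ∀ y, tsize (xf1 y).2 ≤ B y.1
  sqs_nodup : ∀ x, wf x → (sqs x).Nodup
  conf_self : ∀ x Q, wf x → Q ∈ sqs x → conf Q Q = false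
  conf_symm : ∀ x Q R, wf x → Q ∈ sqs x → R ∈ sqs x → conf Q R = conf R Q
  emp_valid : ∀ x, wf x → m2 x emp ∧ ∀ Q ∈ sqs x, has x emp Q = false
  exch_spec : ∀ x M L v, wf x → (m2 x M ∧ ∀ Q ∈ sqs x, has x M Q = false) →
    (m2 x L ∧ ∀ Q ∈ sqs x, has x L Q = false) → v < nv x → deg x M v < deg x L v →
    (m2 x (exch (x, M, L, v)) ∧ ∀ Q ∈ sqs x, has x (exch (x, M, L, v)) Q = false) ∧
      ((∀ u < nv x, deg x M u + (if u = v then 1 else 0) ≤ deg x (exch (x, M, L, v)) u) ∨
        ∃ j < nv x, j ≠ v ∧ deg x L j < deg x M j ∧ ∀ u < nv x,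
          deg x M u + (if u = v then 1 else 0) =
            deg x (exch (x, M, L, v)) u + (if u = j then 1 else 0))
  solver_spec : ∀ x g W v DD, wf x →
    Dat nv deg (fun x M => m2 x M ∧ ∀ Q ∈ sqs x, has x M Q = false) x g W v →
    (∀ u < nv x, g.getD u 0 = 0 ∨ g.getD u 0 = 2) →
    DD.Nodup → (∀ Q ∈ DD, Q ∈ sqs x ∧ opp x g Q = true) →
    (∀ Q ∈ DD, ∀ R ∈ DD, conf Q R = false) →
    ((solver (x, g, W, DD)).1 = true →
      m2 x (solver (x, g, W, DD)).2 ∧ Cov (nv x) g (deg x (solver (x, g, W, DD)).2) ∧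
      ∀ Q ∈ DD, has x (solver (x, g, W, DD)).2 Q = false) ∧
    ((solver (x, g, W, DD)).1 = false →
      ¬ ∃ L, (m2 x L ∧ ∀ Q ∈ sqs x, has x L Q = false) ∧ Cov (nv x) g (deg x L))
  xf1_spec : ∀ x g W v N Q R, wf x →
    Dat nv deg (fun x M => m2 x M ∧ ∀ Q ∈ sqs x, has x M Q = false) x g W v →
    (∀ u < nv x, g.getD u 0 = 0 ∨ g.getD u 0 = 2) →
    m2 x N → Cov (nv x) g (deg x N) →
    Q ∈ (sqs x).filter (fun Q => opp x g Q && has x N Q) →
    R ∈ sqs x → opp x g R = true → conf Q R = true →
    (xf1 (x, g, W, N, Q, R)).1 = true →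
    m2 x (xf1 (x, g, W, N, Q, R)).2 ∧ Cov (nv x) g (deg x (xf1 (x, g, W, N, Q, R)).2) ∧
      ∀ Z ∈ (sqs x).filter (fun Q' => opp x g Q' && has x (xf1 (x, g, W, N, Q, R)).2 Q'),
          Z ∈ (sqs x).filter (fun Q => opp x g Q && has x N Q) ∧ Z ≠ Q
  xf1_alt : ∀ x g W v F N Q R, wf x →
    Dat nv deg (fun x M => m2 x M ∧ ∀ Q ∈ sqs x, has x M Q = false) x g W v →
    (∀ u < nv x, g.getD u 0 = 0 ∨ g.getD u 0 = 2) →
    m2 x F → Cov (nv x) g (deg x F) → m2 x N → Cov (nv x) g (deg x N) →
    Q ∈ (sqs x).filter (fun Q => opp x g Q && has x F Q) →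
    R ∈ (sqs x).filter (fun Q => opp x g Q && has x N Q) → conf Q R = true →
    (xf1 (x, g, W, F, Q, R)).1 = true ∨ (xf1 (x, g, W, N, R, Q)).1 = true
  brk_spec : ∀ x g N, wf x → g.length = nv x → (∀ u < nv x, g.getD u 0 ≤ 2) → m2 x N →
    Cov (nv x) g (deg x N) → (sqs x).filter (fun Q => opp x g Q && has x N Q) = [] →
    (m2 x (brk (x, g, N)) ∧ ∀ Q ∈ sqs x, has x (brk (x, g, N)) Q = false) ∧
      Cov (nv x) g (deg x (brk (x, g, N)))

namespace In2Api

variable {ι O κ : Type} [DEnc ι] [DEnc O] [DEnc κ] [DecidableEq κ] (A : In2Api ι O κ)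

/-! ### correctness -/

/-! ### polynomial time -/

section pt

variable {τ : Type} [DEnc τ]

end pt

end In2Api

end Pool.Agent.PF4

end

section -- file PF4/Loop

/-!
# Loops of polynomial-time functions, with a size guard

`PT.sizeLe`: the test `tsize (f x) ≤ B x` is a polynomial-time function.
`gstep B f s` is `f s` if this has size at most `B` and `s` otherwise. `PT.iterG`: iterating a guarded step a polynomial
number of times is polynomial-time computable, without any condition on the step. `gstep_eq`: as long as the sizes on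
the way are at most `B`, this is the ordinary iteration.
-/

set_option autoImplicit false

namespace Pool.Agent.PF4

open Pool.Agent.Lib.helper60

/-- one step of the traversal of a list of trees -/
def trav : List D → List D
  | [] => []
  | .nil :: l => l
  | .node a b :: l => a :: b :: l

/-- number of nodes of a list of trees -/
def tot (l : List D) : ℕ := (l.map D.size).sum

theorem tot_trav (l : List D) (h : l ≠ []) : tot (trav l) + 1 = tot l := by
  cases l with
  | nil => exact absurd rfl h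
  | cons d l =>
    cases d with
    | nil => simp [trav, tot]; omega
    | node a b => simp [trav, tot]; omega

theorem tot_eq_zero (l : List D) : tot l = 0 ↔ l = [] := by
  cases l with
  | nil => simp [tot]
  | cons d l =>
    have := d.size_pos
    simp [tot]
    omega

theorem tot_iter (k : ℕ) (l : List D) : tot (trav^[k] l) = tot l - k := by
  induction k with
  | zero => simp
  | succ k ih =>
    rw [Function.iterate_succ_apply']
    by_cases h : trav^[k] l = []
    · have h1 : tot (trav^[k] l) = 0 := by rw [h]; rfl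
      rw [h]
      have h2 : tot (trav []) = 0 := rfl
      rw [h2]
      omega
    · have := tot_trav _ h
      omega

theorem trav_nil_iff (k : ℕ) (d : D) : trav^[k] [d] = [] ↔ d.size ≤ k := by
  rw [← tot_eq_zero, tot_iter]
  simp [tot]
  omega

theorem tsize_le_tot (l : List D) : tsize l ≤ 2 * tot l + 1 := by
  induction l with
  | nil => simp [tot]
  | cons d l ih =>
    have h1 : tsize d = d.size := rfl
    have := d.size_pos
    have h2 : tot (d :: l) = d.size + tot l := by simp [tot]
    rw [tsize_cons, h1, h2]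
    omega

theorem pt_trav : PT trav := by
  have h0 : PT (fun x : (List D) × D × List D => (match x.2.1 with | .nil => D.nil | .node a _ => a)) :=
    PT.hdD.comp PT.snd.p1
  have h1 : PT (fun x : (List D) × D × List D => (match x.2.1 with | .nil => D.nil | .node _ b => b)) :=
    PT.tlD.comp PT.snd.p1
  have h2 : PT (fun x : (List D) × D × List D =>
      (match x.2.1 with
        | .nil => x.2.2
        | .node a b => (fun y : ((List D) × D × List D) × D × D => y.2.1 :: y.2.2 :: y.1.2.2) (x, a, b))) :=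
    PT.casesD (c := fun x : (List D) × D × List D => x.2.1) (f := fun x => x.2.2)
      (g := fun y : ((List D) × D × List D) × D × D => y.2.1 :: y.2.2 :: y.1.2.2) PT.snd.p1 PT.snd.p2
      (PT.cons PT.snd.p1 (PT.cons PT.snd.p2 PT.fst.p2.p2))
  refine (PT.listCases (l := fun l : List D => l) (f := fun _ => ([] : List D))
    (g := fun x : (List D) × D × List D => (match x.2.1 with
        | .nil => x.2.2
        | .node a b => a :: b :: x.2.2)) PT.id (PT.const []) (h2.congr ?_)).congr ?_
  · rintro ⟨l, d, t⟩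
    cases d <;> rfl
  · intro l
    cases l with
    | nil => rfl
    | cons d l => cases d <;> rfl

section

variable {ι σ : Type} [DEnc ι] [DEnc σ]

theorem PT.sizeLe {f : ι → σ} {B : ι → ℕ} (hf : PT f) (hB : PT B) :
    PT (fun x => decide (tsize (f x) ≤ B x)) := by
  have h1 : PT (fun x => trav^[B x] [toD (f x)]) := by
    refine PT.iterateNat hB (PT.cons (PT.code.comp hf) (PT.const [])) pt_trav
      ⟨fun x => 2 * tsize (f x) + 1, ((PB.const 2).mul hf.size).add (PB.const 1), ?_⟩
    intro x i _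
    refine (tsize_le_tot _).trans ?_
    rw [tot_iter]
    have : tot [toD (f x)] = tsize (f x) := by simp [tot, tsize]
    rw [this]
    beta_reduce
    omega
  refine (PT.isZero (PT.length h1)).congr fun x => ?_
  rw [decide_eq_decide, List.length_eq_zero_iff, trav_nil_iff]
  exact Iff.rfl

/-- a step with a size guard -/
def gstep (B : ℕ) (f : σ → σ) (s : σ) : σ := if tsize (f s) ≤ B then f s else s

theorem PT.iterG {count B : ι → ℕ} {init : ι → σ} {step : ι × σ → σ} (hc : PT count) (hB : PT B)
    (hi : PT init) (hs : PT step) :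
    PT (fun x => (gstep (B x) (fun s => step (x, s)))^[count x] (init x)) := by
  let stp : ι × σ → ι × σ := fun y => (y.1, if tsize (step y) ≤ B y.1 then step y else y.2)
  have hstp : PT stp := by
    refine PT.pair PT.fst ?_
    exact PT.ite (c := fun y : ι × σ => tsize (step y) ≤ B y.1) (PT.sizeLe hs (hB.comp PT.fst)) hs PT.snd
  have hit : ∀ (k : ℕ) (x : ι) (s : σ), stp^[k] (x, s) = (x, (gstep (B x) (fun s => step (x, s)))^[k] s) := by
    intro k x
    induction k with
    | zero => intro s; rfl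
    | succ k ih =>
      intro s
      rw [Function.iterate_succ_apply, Function.iterate_succ_apply]
      exact ih _
  have hsz : ∀ (k : ℕ) (x : ι) (s : σ), tsize ((gstep (B x) (fun s => step (x, s)))^[k] s) ≤ tsize s + B x := by
    intro k x
    induction k with
    | zero => intro s; simp
    | succ k ih =>
      intro s
      rw [Function.iterate_succ_apply']
      have := ih s
      unfold gstep at this ⊢
      split_ifs <;> omega
  have h := PT.iterateNat (init := fun x => (x, init x)) hc (PT.pair PT.id hi) hstp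
    ⟨fun x => tsize x + (tsize (init x) + B x) + 1, by
      have hB' : PB (fun x => B x) := PB.of_le hB.size (fun a => by rw [tsize_nat]; omega)
      exact (PB.tsize.add (hi.size.add hB')).add (PB.const 1), by
      intro x i _
      rw [hit]
      have := hsz i x (init x)
      simp only [tsize_pair]
      omega⟩
  refine (PT.snd.comp h).congr fun x => ?_
  rw [hit]

theorem gstep_iter {B k : ℕ} {f : σ → σ} {s : σ} (h : ∀ i ≤ k, tsize (f^[i] s) ≤ B) :
    (gstep B f)^[k] s = f^[k] s := by
  induction k with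
  | zero => rfl
  | succ k ih =>
    rw [Function.iterate_succ_apply', Function.iterate_succ_apply', ih fun i hi => h i (by omega)]
    have := h (k + 1) le_rfl
    rw [Function.iterate_succ_apply'] at this
    unfold gstep
    rw [if_pos this]

end

end Pool.Agent.PF4

end

section -- file PF4/Sum

/-!
Sums of pieces: a state is a list of vectors (lists of vertices with multiplicity), one for each piece. The two-step
exchange for the sum of the pieces, by passing a token from piece to piece; pools of states.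
-/

set_option autoImplicit false

namespace Pool.Agent.PF4

open Finset Pool.Agent.TFC Pool.Agent.Lib.helper60

/-! ### vectors -/

/-- multiplicity -/
def cnt (k : List ℕ) (v : ℕ) : ℕ := (k.filter fun x => decide (x = v)).length

theorem cnt_nil (v : ℕ) : cnt [] v = 0 := rfl

theorem cnt_cons (a : ℕ) (k : List ℕ) (v : ℕ) : cnt (a :: k) v = cnt k v + if v = a then 1 else 0 := by
  unfold cnt
  rw [List.filter_cons]
  by_cases h : v = a
  · subst h; simp
  · have h' : ¬ a = v := fun e => h e.symm
    simp [h, h']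

theorem cnt_append (k l : List ℕ) (v : ℕ) : cnt (k ++ l) v = cnt k v + cnt l v := by
  unfold cnt
  rw [List.filter_append, List.length_append]

theorem cnt_eq (k : List ℕ) (v : ℕ) : cnt k v = k.count v := by
  induction k with
  | nil => rfl
  | cons a k ih =>
    rw [cnt_cons, List.count_cons, ih]
    by_cases h : v = a
    · subst h; simp
    · have h' : ¬ a = v := fun e => h e.symm
      simp [h, h']

theorem cnt_pos {k : List ℕ} {v : ℕ} : 0 < cnt k v ↔ v ∈ k := by
  rw [cnt_eq, List.count_pos_iff]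

/-- the vector of a list -/
def vec (k : List ℕ) : ℕ → ℤ := fun v => (cnt k v : ℤ)

theorem vec_nonneg (k : List ℕ) (v : ℕ) : 0 ≤ vec k v := Int.natCast_nonneg _

/-- add or remove one unit -/
def shf (k : List ℕ) (v : ℕ) (up : Bool) : List ℕ :=
  bif up then v :: k else (k.filter fun x => !decide (x = v)) ++ List.replicate (cnt k v - 1) v

theorem cnt_filter_ne (k : List ℕ) (v w : ℕ) :
    cnt (k.filter fun x => !decide (x = v)) w = if w = v then 0 else cnt k w := by
  induction k with
  | nil => simp [cnt]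
  | cons a k ih =>
    rw [List.filter_cons]
    by_cases h : a = v
    · subst h
      simp only [decide_true, Bool.not_true, Bool.false_eq_true, if_false]
      rw [ih, cnt_cons]
      by_cases hw : w = a
      · simp [hw]
      · simp [hw]
    · simp only [h, decide_false, Bool.not_false, if_true]
      rw [cnt_cons, ih, cnt_cons]
      by_cases hw : w = v
      · subst hw
        have h' : ¬ w = a := fun e => h e.symm
        simp [h']
      · simp [hw]

theorem cnt_replicate (n v w : ℕ) : cnt (List.replicate n v) w = if w = v then n else 0 := by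
  induction n with
  | zero => simp [cnt]
  | succ n ih =>
    rw [List.replicate_succ, cnt_cons, ih]
    split_ifs <;> rfl

theorem vec_shf {k : List ℕ} {v : ℕ} {up : Bool} (h : up = true ∨ v ∈ k) :
    vec (shf k v up) = vec k + Pi.single v (sgn up) := by
  funext w
  rw [Pi.add_apply, Pi.single_apply]
  cases up with
  | true =>
    unfold vec shf sgn
    simp only [cond_true]
    rw [cnt_cons]
    by_cases hw : w = v
    · simp [hw]
    · simp [hw]
  | false =>
    have h1 : v ∈ k := by
      rcases h with h | h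
      · cases h
      · exact h
    have h2 := cnt_pos.2 h1
    unfold vec shf sgn
    simp only [cond_false]
    rw [cnt_append, cnt_filter_ne, cnt_replicate]
    by_cases hw : w = v
    · subst hw
      simp only [if_true]
      omega
    · simp [hw]

/-- the direction points from `k` to `y` -/
def tow (k y : List ℕ) (i : ℕ) (up : Bool) : Bool :=
  bif up then decide (cnt k i < cnt y i) else decide (cnt y i < cnt k i)

theorem tow_iff (k y : List ℕ) (i : ℕ) (up : Bool) :
    tow k y i up = true ↔ 0 < sgn up * (vec y i - vec k i) := by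
  unfold tow sgn vec
  cases up with
  | true =>
    simp only [cond_true, decide_eq_true_eq, one_mul]
    omega
  | false =>
    simp only [cond_false, decide_eq_true_eq]
    omega

theorem tow_mem {k y : List ℕ} {i : ℕ} {up : Bool} (h : tow k y i up = true) : up = true ∨ i ∈ k := by
  cases up with
  | true => exact Or.inl rfl
  | false =>
    unfold tow at h
    simp only [cond_false, decide_eq_true_eq] at h
    exact Or.inr (cnt_pos.1 (by omega))

/-! ### the exchange in one piece -/

section pieces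

variable {Pc : Type} (mem : Pc → List ℕ → Bool)

/-- a piece with a jump set of legal vectors -/
structure PcOK (m : ℕ) (p : Pc) : Prop where
  len : ∀ k, mem p k = true → k.length ≤ 8
  le : ∀ k, mem p k = true → ∀ v ∈ k, v ≤ m
  jump : ∀ k y i up, mem p k = true → mem p y = true → tow k y i up = true →
    ∃ (j : ℕ) (dn : Bool), tow (shf k i up) y j dn = true ∧ mem p (shf (shf k i up) j dn) = true

theorem sgn_surj {δ : ℤ} (h : δ = 1 ∨ δ = -1) : ∃ b : Bool, sgn b = δ := by
  rcases h with rfl | rfl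
  · exact ⟨true, rfl⟩
  · exact ⟨false, rfl⟩

variable {mem}

/-- a piece whose legal vectors are those of a jump set -/
theorem PcOK.of {m : ℕ} {p : Pc} {S : Set (ℕ → ℤ)} (hS : Jump S)
    (hm : ∀ k, mem p k = true ↔ vec k ∈ S) (hl : ∀ k, mem p k = true → k.length ≤ 8)
    (hv : ∀ k, mem p k = true → ∀ v ∈ k, v ≤ m) : PcOK mem m p := by
  refine ⟨hl, hv, ?_⟩
  intro k y i up hk hy ht
  obtain ⟨j, δ, hδ, h1, h2⟩ := hS _ ((hm k).1 hk) _ ((hm y).1 hy) i (sgn up) (sgn_or up)
    ((tow_iff k y i up).1 ht)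
  obtain ⟨dn, rfl⟩ := sgn_surj hδ
  have e1 := vec_shf (tow_mem ht)
  rw [← e1] at h1 h2
  have h3 := (tow_iff _ _ _ _).2 h1
  have e2 := vec_shf (tow_mem h3)
  rw [← e2, ← hm] at h2
  exact ⟨j, dn, h3, h2⟩

variable (mem)

/-- candidates for the second step -/
def cands (k y : List ℕ) (i : ℕ) : List (ℕ × Bool) :=
  ((i :: k) ++ y).flatMap fun j => [(j, true), (j, false)]

/-- test of a candidate -/
def okC (p : Pc) (k y : List ℕ) (i : ℕ) (up : Bool) (c : ℕ × Bool) : Bool :=
  tow (shf k i up) y c.1 c.2 && mem p (shf (shf k i up) c.1 c.2)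

/-- the second step -/
def pick (p : Pc) (k y : List ℕ) (i : ℕ) (up : Bool) : ℕ × Bool :=
  findD (okC mem p k y i up) (cands k y i) (i, up)

variable {mem}

theorem mem_shf {k : List ℕ} {v w : ℕ} {up : Bool} (h : w ∈ shf k v up) : w = v ∨ w ∈ k := by
  cases up with
  | true =>
    unfold shf at h
    simp only [cond_true, List.mem_cons] at h
    exact h
  | false =>
    unfold shf at h
    simp only [cond_false, List.mem_append, List.mem_filter, List.mem_replicate] at h
    rcases h with h | h
    · exact Or.inr h.1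
    · exact Or.inl h.2

theorem tow_cand {k y : List ℕ} {j : ℕ} {dn : Bool} (h : tow k y j dn = true) : j ∈ k ∨ j ∈ y := by
  cases dn with
  | true =>
    unfold tow at h
    simp only [cond_true, decide_eq_true_eq] at h
    exact Or.inr (cnt_pos.1 (by omega))
  | false =>
    unfold tow at h
    simp only [cond_false, decide_eq_true_eq] at h
    exact Or.inl (cnt_pos.1 (by omega))

theorem pick_spec {m : ℕ} {p : Pc} (hp : PcOK mem m p) {k y : List ℕ} {i : ℕ} {up : Bool}
    (hk : mem p k = true) (hy : mem p y = true) (ht : tow k y i up = true) :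
    tow (shf k i up) y (pick mem p k y i up).1 (pick mem p k y i up).2 = true ∧
      mem p (shf (shf k i up) (pick mem p k y i up).1 (pick mem p k y i up).2) = true := by
  obtain ⟨j, dn, h1, h2⟩ := hp.jump k y i up hk hy ht
  have h3 : ∃ a ∈ cands k y i, okC mem p k y i up a = true := by
    refine ⟨(j, dn), ?_, ?_⟩
    · unfold cands
      rw [List.mem_flatMap]
      refine ⟨j, ?_, by cases dn <;> simp⟩
      rcases tow_cand h1 with h | h
      · rcases mem_shf h with h | h
        · simp [h]
        · simp [h]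
      · simp [h]
    · unfold okC
      rw [h1, h2]; rfl
  have h4 := (findD_spec _ _ (i, up) h3).2
  unfold okC at h4
  rw [Bool.and_eq_true] at h4
  exact h4

/-! ### states -/

/-- replace an entry -/
def setL (s : List (List ℕ)) (q : ℕ) (k : List ℕ) : List (List ℕ) :=
  (List.range s.length).map fun r => bif decide (r = q) then k else s.getD r []

theorem setL_length (s : List (List ℕ)) (q : ℕ) (k : List ℕ) : (setL s q k).length = s.length := by
  simp [setL]

theorem setL_getD (s : List (List ℕ)) (q : ℕ) (k : List ℕ) {r : ℕ} (hr : r < s.length) :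
    (setL s q k).getD r [] = if r = q then k else s.getD r [] := by
  unfold setL
  rw [List.getD_eq_getElem?_getD, List.getElem?_map, List.getElem?_range hr]
  simp only [Option.map_some, Option.getD_some]
  by_cases h : r = q
  · simp [h]
  · simp [h]

/-- multiplicity in the sum -/
def cT (s : List (List ℕ)) (v : ℕ) : ℕ := cnt s.flatten v

/-- the total vector -/
def totS (s : List (List ℕ)) : ℕ → ℤ := vec s.flatten

theorem totS_apply (s : List (List ℕ)) (v : ℕ) : totS s v = (cT s v : ℤ) := rfl

theorem totS_sum (s : List (List ℕ)) (v : ℕ) :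
    totS s v = ∑ r ∈ Finset.range s.length, vec (s.getD r []) v := by
  induction s with
  | nil => rfl
  | cons k s ih =>
    rw [List.length_cons, Finset.sum_range_succ']
    simp only [List.getD_cons_succ, List.getD_cons_zero]
    rw [← ih]
    unfold totS vec
    rw [List.flatten_cons, cnt_append]
    push_cast
    ring

theorem totS_setL {s : List (List ℕ)} {q : ℕ} (hq : q < s.length) (k : List ℕ) (v : ℕ) :
    totS (setL s q k) v = totS s v + (vec k v - vec (s.getD q []) v) := by
  rw [totS_sum, totS_sum, setL_length]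
  have h : ∀ r ∈ Finset.range s.length, vec ((setL s q k).getD r []) v =
      vec (s.getD r []) v + if r = q then vec k v - vec (s.getD q []) v else 0 := by
    intro r hr
    rw [setL_getD s q k (Finset.mem_range.1 hr)]
    by_cases h : r = q
    · subst h; simp
    · simp [h]
  rw [Finset.sum_congr rfl h, Finset.sum_add_distrib, Finset.sum_ite_eq' (Finset.range s.length) q,
    if_pos (Finset.mem_range.2 hq)]

variable (mem)

/-- legal states -/
structure Leg (d : Pc) (P : List Pc) (s : List (List ℕ)) : Prop where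
  len : s.length = P.length
  mem : ∀ q < P.length, mem (P.getD q d) (s.getD q []) = true

/-- state of the walk: state, token vertex, token direction, finished -/
abbrev Wk := List (List ℕ) × ℕ × Bool × Bool

/-- the piece which takes the token -/
def who (n : ℕ) (Y s : List (List ℕ)) (i : ℕ) (up : Bool) : ℕ :=
  findD (fun q => tow (s.getD q []) (Y.getD q []) i up) (List.range n) 0

/-- the result of the step in piece `q` -/
def newP (d : Pc) (P : List Pc) (Y s : List (List ℕ)) (i : ℕ) (up : Bool) (q : ℕ) : ℕ × Bool :=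
  pick mem (P.getD q d) (s.getD q []) (Y.getD q []) i up

/-- finish -/
def stopB (Y s : List (List ℕ)) (c : ℕ × Bool) : Bool :=
  bif c.2 then decide (cT s c.1 ≤ cT Y c.1) else decide (cT Y c.1 ≤ cT s c.1)

/-- one step of the walk -/
def wstp (d : Pc) (P : List Pc) (Y : List (List ℕ)) (w : Wk) : Wk :=
  bif w.2.2.2 then w else
    ((setL w.1 (who P.length Y w.1 w.2.1 w.2.2.1)
        (shf (shf (w.1.getD (who P.length Y w.1 w.2.1 w.2.2.1) []) w.2.1 w.2.2.1)
          (newP mem d P Y w.1 w.2.1 w.2.2.1 (who P.length Y w.1 w.2.1 w.2.2.1)).1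
          (newP mem d P Y w.1 w.2.1 w.2.2.1 (who P.length Y w.1 w.2.1 w.2.2.1)).2)),
      (newP mem d P Y w.1 w.2.1 w.2.2.1 (who P.length Y w.1 w.2.1 w.2.2.1)).1,
      !(newP mem d P Y w.1 w.2.1 w.2.2.1 (who P.length Y w.1 w.2.1 w.2.2.1)).2,
      stopB Y (setL w.1 (who P.length Y w.1 w.2.1 w.2.2.1)
        (shf (shf (w.1.getD (who P.length Y w.1 w.2.1 w.2.2.1) []) w.2.1 w.2.2.1)
          (newP mem d P Y w.1 w.2.1 w.2.2.1 (who P.length Y w.1 w.2.1 w.2.2.1)).1
          (newP mem d P Y w.1 w.2.1 w.2.2.1 (who P.length Y w.1 w.2.1 w.2.2.1)).2))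
        (newP mem d P Y w.1 w.2.1 w.2.2.1 (who P.length Y w.1 w.2.1 w.2.2.1)))

variable {mem}

/-- distance -/
def DN (m : ℕ) (y a : ℕ → ℤ) : ℕ := ∑ v ∈ Finset.range (m + 1), (y v - a v).natAbs

theorem DN_step {m : ℕ} {y a : ℕ → ℤ} {k : ℕ} {δ : ℤ} (hk : k ≤ m) (hδ : δ = 1 ∨ δ = -1)
    (h : 0 < δ * (y k - a k)) : DN m y (a + Pi.single k δ) + 1 = DN m y a := by
  unfold DN
  have e : ∀ v ∈ Finset.range (m + 1), (y v - a v).natAbs =
      (y v - (a + Pi.single k δ : ℕ → ℤ) v).natAbs + if v = k then 1 else 0 := by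
    intro v _
    by_cases hv : v = k
    · subst hv
      rw [if_pos rfl, Pi.add_apply, Pi.single_eq_same]
      rcases hδ with rfl | rfl <;> omega
    · rw [if_neg hv, Pi.add_apply, Pi.single_eq_of_ne hv]
      simp
  rw [Finset.sum_congr rfl e, Finset.sum_add_distrib, Finset.sum_ite_eq',
    if_pos (Finset.mem_range.2 (by omega))]

/-- the potential -/
def Phi (m n : ℕ) (Y s : List (List ℕ)) : ℕ :=
  ∑ r ∈ Finset.range n, DN m (vec (Y.getD r [])) (vec (s.getD r []))

theorem sum_cnt_le (S : Finset ℕ) (k : List ℕ) : ∑ v ∈ S, cnt k v ≤ k.length := by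
  induction k with
  | nil => simp [cnt]
  | cons a k ih =>
    have e : ∀ v ∈ S, cnt (a :: k) v = cnt k v + if v = a then 1 else 0 := fun v _ => cnt_cons a k v
    rw [Finset.sum_congr rfl e, Finset.sum_add_distrib, Finset.sum_ite_eq']
    have : (if a ∈ S then 1 else 0) ≤ 1 := by split_ifs <;> omega
    rw [List.length_cons]
    omega

theorem DN_le (m : ℕ) (k y : List ℕ) : DN m (vec y) (vec k) ≤ y.length + k.length := by
  unfold DN
  have e : ∀ v ∈ Finset.range (m + 1), (vec y v - vec k v).natAbs ≤ cnt y v + cnt k v := by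
    intro v _
    unfold vec
    omega
  refine (Finset.sum_le_sum e).trans ?_
  rw [Finset.sum_add_distrib]
  exact Nat.add_le_add (sum_cnt_le _ _) (sum_cnt_le _ _)

theorem Phi_le {m : ℕ} {d : Pc} {P : List Pc} (hP : ∀ q < P.length, PcOK mem m (P.getD q d))
    {Y s : List (List ℕ)} (hY : Leg mem d P Y) (hs : Leg mem d P s) : Phi m P.length Y s ≤ 16 * P.length := by
  unfold Phi
  have h : ∀ r ∈ Finset.range P.length, DN m (vec (Y.getD r [])) (vec (s.getD r [])) ≤ 16 := by
    intro r hr
    have hr' := Finset.mem_range.1 hr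
    have h1 := (hP r hr').len _ (hY.mem r hr')
    have h2 := (hP r hr').len _ (hs.mem r hr')
    exact (DN_le _ _ _).trans (by omega)
  refine (Finset.sum_le_sum h).trans ?_
  rw [Finset.sum_const, Finset.card_range, smul_eq_mul, Nat.mul_comm]

/-- invariant of the walk -/
structure SI (mem : Pc → List ℕ → Bool) (d : Pc) (P : List Pc) (Y : List (List ℕ)) (u : ℕ → ℤ)
    (s : List (List ℕ)) (i : ℕ) (up : Bool) : Prop where
  leg : Leg mem d P s
  tot : totS s + Pi.single i (sgn up) = u
  dir : 0 < sgn up * (totS Y i - totS s i)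

theorem who_spec {d : Pc} {P : List Pc} {Y s : List (List ℕ)} (hY : Leg mem d P Y) (hs : Leg mem d P s)
    {i : ℕ} {up : Bool} (h : 0 < sgn up * (totS Y i - totS s i)) :
    who P.length Y s i up < P.length ∧
      tow (s.getD (who P.length Y s i up) []) (Y.getD (who P.length Y s i up) []) i up = true := by
  have h1 : ∃ q ∈ List.range P.length, tow (s.getD q []) (Y.getD q []) i up = true := by
    by_contra hc
    push Not at hc
    have h2 : ∀ q ∈ Finset.range P.length, sgn up * (vec (Y.getD q []) i - vec (s.getD q []) i) ≤ 0 := by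
      intro q hq
      have := hc q (List.mem_range.2 (Finset.mem_range.1 hq))
      rw [ne_eq, tow_iff] at this
      exact not_lt.1 this
    have h3 := Finset.sum_nonpos h2
    rw [← Finset.mul_sum, Finset.sum_sub_distrib] at h3
    have e1 := totS_sum Y i
    have e2 := totS_sum s i
    rw [hY.len] at e1
    rw [hs.len] at e2
    rw [← e1, ← e2] at h3
    omega
  obtain ⟨h2, h3⟩ := findD_spec _ _ 0 h1
  exact ⟨List.mem_range.1 h2, h3⟩

/-- one step of the walk -/
theorem walk_step {m : ℕ} {d : Pc} {P : List Pc} (hP : ∀ q < P.length, PcOK mem m (P.getD q d))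
    {Y : List (List ℕ)} (hY : Leg mem d P Y) {u : ℕ → ℤ} {s : List (List ℕ)} {i : ℕ} {up : Bool}
    (hI : SI mem d P Y u s i up) :
    ∃ (s' : List (List ℕ)) (j : ℕ) (dn : Bool), wstp mem d P Y (s, i, up, false) = (s', j, !dn, stopB Y s' (j, dn)) ∧
      Leg mem d P s' ∧ totS s' = u + Pi.single j (sgn dn) ∧ j ≤ m ∧
      ((stopB Y s' (j, dn) = true ∧ 0 < sgn dn * (totS Y j - u j)) ∨
        (stopB Y s' (j, dn) = false ∧ SI mem d P Y u s' j (!dn) ∧
          Phi m P.length Y s' + 2 = Phi m P.length Y s)) := by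
  obtain ⟨hq, ht⟩ := who_spec hY hI.leg hI.dir
  obtain ⟨q, hqe⟩ : ∃ q, q = who P.length Y s i up := ⟨_, rfl⟩
  rw [← hqe] at hq ht
  obtain ⟨c, hce⟩ : ∃ c, c = newP mem d P Y s i up q := ⟨_, rfl⟩
  obtain ⟨h1, h2⟩ := pick_spec (hP q hq) (hI.leg.mem q hq) (hY.mem q hq) ht
  have hce' : c = pick mem (P.getD q d) (s.getD q []) (Y.getD q []) i up := hce
  rw [← hce'] at h1 h2
  obtain ⟨j, dn⟩ := c
  simp only at h1 h2
  have hql : q < s.length := by rw [hI.leg.len]; exact hq
  obtain ⟨s', hs'⟩ : ∃ s', s' = setL s q (shf (shf (s.getD q []) i up) j dn) := ⟨_, rfl⟩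
  have ev1 := vec_shf (tow_mem ht)
  have ev2 := vec_shf (tow_mem h1)
  have hleg : Leg mem d P s' := by
    refine ⟨by rw [hs', setL_length, hI.leg.len], ?_⟩
    intro r hr
    rw [hs', setL_getD s q _ (by rw [hI.leg.len]; exact hr)]
    by_cases h : r = q
    · subst h; rw [if_pos rfl]; exact h2
    · rw [if_neg h]; exact hI.leg.mem r hr
  have htot : totS s' = u + Pi.single j (sgn dn) := by
    funext v
    rw [hs', totS_setL hql, ev2, ev1, ← hI.tot]
    simp only [Pi.add_apply]
    ring
  have hjm : j ≤ m := by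
    rcases tow_cand h1 with h | h
    · rcases mem_shf h with h | h
      · rw [h]
        rcases tow_cand ht with h' | h'
        · exact (hP q hq).le _ (hI.leg.mem q hq) _ h'
        · exact (hP q hq).le _ (hY.mem q hq) _ h'
      · exact (hP q hq).le _ (hI.leg.mem q hq) _ h
    · exact (hP q hq).le _ (hY.mem q hq) _ h
  have him : i ≤ m := by
    rcases tow_cand ht with h' | h'
    · exact (hP q hq).le _ (hI.leg.mem q hq) _ h'
    · exact (hP q hq).le _ (hY.mem q hq) _ h'
  refine ⟨s', j, dn, ?_, hleg, htot, hjm, ?_⟩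
  · unfold wstp
    simp only [cond_false]
    rw [← hqe, ← hce, hs']
  · have hst : stopB Y s' (j, dn) = true ↔ 0 < sgn dn * (totS Y j - u j) := by
      have e1 := congrFun htot j
      rw [Pi.add_apply, Pi.single_eq_same, totS_apply] at e1
      rw [totS_apply]
      unfold stopB
      cases dn with
      | true =>
        simp only [cond_true, decide_eq_true_eq]
        have e2 : sgn true = 1 := rfl
        rw [e2] at e1 ⊢
        omega
      | false =>
        simp only [cond_false, decide_eq_true_eq]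
        have e2 : sgn false = -1 := rfl
        rw [e2] at e1 ⊢
        omega
    cases hb : stopB Y s' (j, dn) with
    | true => exact Or.inl ⟨rfl, hst.1 hb⟩
    | false =>
      right
      have hn : ¬ 0 < sgn dn * (totS Y j - u j) := by rw [← hst, hb]; simp
      have e3 : sgn (!dn) = - sgn dn := by cases dn <;> rfl
      refine ⟨rfl, ⟨hleg, ?_, ?_⟩, ?_⟩
      · rw [htot, e3, add_assoc, ← Pi.single_add, add_neg_cancel, Pi.single_zero, add_zero]
      · have e1 := congrFun htot j
        rw [Pi.add_apply, Pi.single_eq_same] at e1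
        rw [e1, e3]
        rcases sgn_or dn with e | e <;> rw [e] at hn ⊢ <;> omega
      · unfold Phi
        have hd : ∀ r ∈ Finset.range P.length, DN m (vec (Y.getD r [])) (vec (s.getD r [])) =
            DN m (vec (Y.getD r [])) (vec (s'.getD r [])) + if r = q then 2 else 0 := by
          intro r hr
          rw [hs', setL_getD s q _ (by rw [hI.leg.len]; exact Finset.mem_range.1 hr)]
          by_cases h : r = q
          · subst h
            rw [if_pos rfl, if_pos rfl, ev2, ev1]
            have g1 := DN_step him (sgn_or up) ((tow_iff _ _ _ _).1 ht)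
            have g2 := (tow_iff _ _ _ _).1 h1
            rw [ev1] at g2
            have g3 := DN_step hjm (sgn_or dn) g2
            omega
          · rw [if_neg h, if_neg h, add_zero]
        rw [Finset.sum_congr rfl hd, Finset.sum_add_distrib, Finset.sum_ite_eq',
          if_pos (Finset.mem_range.2 hq)]

end pieces

end Pool.Agent.PF4

end

section -- file PF4/Pad

/-!
Padding: a 2-matching `L` of the graph with a demand list `kk` is completed by stubs (edges from free vertices to dummies) and
by a matching of the remaining dummies, so that every real vertex `v` has degree `2 - k v` and every dummy degree `1`. The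
dummy `n` is the parity token. The exchange of padded graphs is the exchange with slack.
-/

set_option autoImplicit false

namespace Pool.Agent.PF4

open Finset Pool.Agent.TFC Pool.Agent.Lib.helper60

/-! ### the pieces of the padding -/

theorem degL_nil (v : ℕ) : degL [] v = 0 := rfl

theorem degL_append (l l' : List Ed) (v : ℕ) : degL (l ++ l') v = degL l v + degL l' v := by
  unfold degL
  rw [List.filter_append, List.length_append]

theorem degL_cons (e : Ed) (l : List Ed) (v : ℕ) : degL (e :: l) v = degL l v + if e.1 = v ∨ e.2 = v then 1 else 0 := by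
  unfold degL
  rw [List.filter_cons]
  by_cases h : e.1 = v ∨ e.2 = v
  · have : inc v e = true := by
      unfold inc
      rcases h with h | h <;> simp [h]
    rw [this, if_pos h]
    simp
  · have : inc v e = false := by
      unfold inc
      push Not at h
      simp [h.1, h.2]
    rw [this, if_neg h]
    simp

/-- the stubs -/
def stE (n : ℕ) (st : List ℕ) : List Ed := (List.range st.length).map fun j => (st.getD j 0, n + 1 + j)

/-- consecutive pairs -/
def prE (a t : ℕ) : List Ed := (List.range t).map fun i => (a + 2 * i, a + 2 * i + 1)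

theorem prE_succ (a t : ℕ) : prE a (t + 1) = prE a t ++ [(a + 2 * t, a + 2 * t + 1)] := by
  unfold prE
  rw [List.range_succ, List.map_append]
  rfl

theorem degL_prE (a t v : ℕ) : degL (prE a t) v = if a ≤ v ∧ v < a + 2 * t then 1 else 0 := by
  induction t with
  | zero =>
    have : ¬ (a ≤ v ∧ v < a + 2 * 0) := by omega
    rw [if_neg this]
    rfl
  | succ t ih =>
    rw [prE_succ, degL_append, ih, degL_cons, degL_nil]
    simp only
    split_ifs <;> omega

theorem degL_stE (n : ℕ) (st : List ℕ) (hst : ∀ v ∈ st, v < n) (v : ℕ) :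
    degL (stE n st) v = if v < n then cnt st v else if n + 1 ≤ v ∧ v < n + 1 + st.length then 1 else 0 := by
  have key : ∀ t ≤ st.length, degL ((List.range t).map fun j => (st.getD j 0, n + 1 + j)) v =
      if v < n then cnt (st.take t) v else if n + 1 ≤ v ∧ v < n + 1 + t then 1 else 0 := by
    intro t
    induction t with
    | zero =>
      intro _
      simp only [List.range_zero, List.map_nil, List.take_zero]
      split_ifs
      · rfl
      · omega
      · rfl
    | succ t ih =>
      intro ht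
      have ih' := ih (by omega)
      rw [List.range_succ, List.map_append, degL_append, ih', List.map_cons, List.map_nil, degL_cons, degL_nil]
      have e1 : st.getD t 0 = st[t] := by
        rw [List.getD_eq_getElem?_getD, List.getElem?_eq_getElem (by omega)]; rfl
      have e2 : st.take (t + 1) = st.take t ++ [st[t]] := List.take_succ_eq_append_getElem (by omega)
      have h1 : st[t] < n := hst _ (List.getElem_mem _)
      rw [e2, cnt_append, cnt_cons, cnt_nil, e1]
      simp only
      by_cases hv : v < n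
      · rw [if_pos hv, if_pos hv]
        split_ifs <;> omega
      · rw [if_neg hv, if_neg hv]
        split_ifs <;> omega
  have := key st.length le_rfl
  rw [List.take_length] at this
  exact this

theorem WF_append {l l' : List Ed} (h : WF l) (h' : WF l') (hd : ∀ x ∈ fs l, x ∉ fs l') : WF (l ++ l') := by
  show ((l ++ l').map fe).Nodup
  rw [List.map_append, List.nodup_append']
  refine ⟨h, h', ?_⟩
  intro x h1 h2
  exact hd x (by rw [fs, List.mem_toFinset]; exact h1) (by rw [fs, List.mem_toFinset]; exact h2)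

theorem WF_prE (a t : ℕ) : WF (prE a t) := by
  show ((prE a t).map fe).Nodup
  unfold prE
  rw [List.map_map]
  refine List.nodup_range.map_on ?_
  intro i _ j _ h
  simp only [Function.comp, fe, Sym2.eq_iff] at h
  omega

theorem WF_stE {n : ℕ} {st : List ℕ} (hst : ∀ v ∈ st, v < n) : WF (stE n st) := by
  show ((stE n st).map fe).Nodup
  unfold stE
  rw [List.map_map]
  refine List.nodup_range.map_on ?_
  intro i hi j hj h
  have lt : ∀ i ∈ List.range st.length, st.getD i 0 < n := by
    intro i hi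
    have hi' := List.mem_range.1 hi
    have e1 : st.getD i 0 = st[i] := by
      rw [List.getD_eq_getElem?_getD, List.getElem?_eq_getElem hi']; rfl
    rw [e1]
    exact hst _ (List.getElem_mem _)
  have h1 := lt i hi
  have h2 := lt j hj
  simp only [Function.comp, fe, Sym2.eq_iff] at h
  omega

theorem mem_fs_stE {n : ℕ} {st : List ℕ} (hst : ∀ v ∈ st, v < n) {x : Sym2 ℕ} (hx : x ∈ fs (stE n st)) :
    ∃ v d, v ∈ st ∧ n + 1 ≤ d ∧ x = s(v, d) := by
  obtain ⟨e, he, rfl⟩ := mem_fs.1 hx
  unfold stE at he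
  obtain ⟨j, hj, rfl⟩ := List.mem_map.1 he
  have hj' := List.mem_range.1 hj
  have e1 : st.getD j 0 = st[j] := by
    rw [List.getD_eq_getElem?_getD, List.getElem?_eq_getElem hj']; rfl
  refine ⟨st.getD j 0, n + 1 + j, ?_, by omega, rfl⟩
  rw [e1]
  exact List.getElem_mem _

theorem mem_fs_prE {a t : ℕ} {x : Sym2 ℕ} (hx : x ∈ fs (prE a t)) : ∃ u v, a ≤ u ∧ a < v ∧ u ≠ v ∧ x = s(u, v) := by
  obtain ⟨e, he, rfl⟩ := mem_fs.1 hx
  unfold prE at he
  obtain ⟨j, hj, rfl⟩ := List.mem_map.1 he
  exact ⟨a + 2 * j, a + 2 * j + 1, by omega, by omega, by omega, rfl⟩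

/-! ### the padding -/

/-- free vertices -/
def frB (g : List ℕ) (v : ℕ) : Bool := decide (g.getD v 0 ≤ 1)

/-- the list of the stub ends -/
def stL (n : ℕ) (g : List ℕ) (L : List Ed) (kk : List ℕ) : List ℕ :=
  (List.range n).flatMap fun v => bif frB g v then List.replicate (2 - cnt kk v - degL L v) v else []

/-- the matching of the remaining dummies; `s` = number of stubs -/
def dmE (n s : ℕ) : List Ed :=
  bif decide (s % 2 = 0) then (n, n + 1 + s) :: prE (n + 2 + s) ((2 * n - s) / 2)
  else prE (n + 1 + s) ((2 * n + 1 - s) / 2)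

/-- the padding -/
def pad (n : ℕ) (g : List ℕ) (L : List Ed) (kk : List ℕ) : List Ed :=
  L ++ (stE n (stL n g L kk) ++ dmE n (stL n g L kk).length)

theorem cnt_flatMap_range (n : ℕ) (f : ℕ → List ℕ) (c : ℕ → ℕ) (h : ∀ a v, cnt (f a) v = if v = a then c a else 0)
    (v : ℕ) : cnt ((List.range n).flatMap f) v = if v < n then c v else 0 := by
  induction n with
  | zero => simp [cnt]
  | succ n ih =>
    rw [List.range_succ, List.flatMap_append, cnt_append, ih, List.flatMap_cons, List.flatMap_nil,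
      List.append_nil, h]
    by_cases h1 : v = n
    · subst h1; simp
    · by_cases h2 : v < n
      · rw [if_pos h2, if_neg h1, if_pos (by omega), add_zero]
      · rw [if_neg h2, if_neg h1, if_neg (by omega)]

theorem cnt_stL (n : ℕ) (g : List ℕ) (L : List Ed) (kk : List ℕ) (v : ℕ) :
    cnt (stL n g L kk) v = if v < n then (if frB g v = true then 2 - cnt kk v - degL L v else 0) else 0 := by
  unfold stL
  refine cnt_flatMap_range n _ (fun v => if frB g v = true then 2 - cnt kk v - degL L v else 0) ?_ v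
  intro a v
  cases h : frB g a with
  | true =>
    simp only [cond_true, if_true]
    rw [cnt_replicate]
  | false =>
    simp [cnt]

theorem stL_lt {n : ℕ} {g : List ℕ} {L : List Ed} {kk : List ℕ} : ∀ v ∈ stL n g L kk, v < n := by
  intro v hv
  have h1 := cnt_pos.2 hv
  rw [cnt_stL] at h1
  by_contra hc
  rw [if_neg hc] at h1
  omega

theorem stL_free {n : ℕ} {g : List ℕ} {L : List Ed} {kk : List ℕ} : ∀ v ∈ stL n g L kk, frB g v = true := by
  intro v hv
  have h1 := cnt_pos.2 hv
  rw [cnt_stL] at h1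
  by_contra hc
  rw [if_neg hc] at h1
  split_ifs at h1 <;> omega

theorem length_eq_sum_cnt (l : List ℕ) (n : ℕ) (h : ∀ v ∈ l, v < n) : l.length = ∑ v ∈ Finset.range n, cnt l v := by
  induction l with
  | nil => simp [cnt]
  | cons a l ih =>
    have e : ∀ v ∈ Finset.range n, cnt (a :: l) v = cnt l v + if v = a then 1 else 0 := fun v _ => cnt_cons a l v
    rw [Finset.sum_congr rfl e, Finset.sum_add_distrib, Finset.sum_ite_eq',
      if_pos (Finset.mem_range.2 (h a List.mem_cons_self)), ← ih (fun v hv => h v (List.mem_cons_of_mem _ hv)),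
      List.length_cons]

theorem stL_length {n : ℕ} {g : List ℕ} {L : List Ed} {kk : List ℕ} : (stL n g L kk).length ≤ 2 * n := by
  rw [length_eq_sum_cnt _ n stL_lt]
  have e : ∀ v ∈ Finset.range n, cnt (stL n g L kk) v ≤ 2 := by
    intro v _
    rw [cnt_stL]
    split_ifs <;> omega
  refine (Finset.sum_le_sum e).trans ?_
  rw [Finset.sum_const, Finset.card_range, smul_eq_mul]
  omega

theorem degL_dmE {n s : ℕ} (hs : s ≤ 2 * n) (v : ℕ) : degL (dmE n s) v =
    if v = n then (if s % 2 = 0 then 1 else 0) else if n + 1 + s ≤ v ∧ v < 3 * n + 2 then 1 else 0 := by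
  unfold dmE
  by_cases h : s % 2 = 0
  · simp only [h, decide_true, cond_true]
    rw [degL_cons, degL_prE]
    simp only
    split_ifs <;> omega
  · simp only [h, decide_false, cond_false]
    rw [degL_prE]
    split_ifs <;> omega

theorem mem_fs_dmE {n s : ℕ} {x : Sym2 ℕ} (hx : x ∈ fs (dmE n s)) : ∃ u v, n ≤ u ∧ n < v ∧ u ≠ v ∧ x = s(u, v) := by
  unfold dmE at hx
  by_cases h : s % 2 = 0
  · simp only [h, decide_true, cond_true, fs_cons, Finset.mem_insert] at hx
    rcases hx with hx | hx
    · exact ⟨n, n + 1 + s, le_rfl, by omega, by omega, hx⟩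
    · obtain ⟨u, v, h1, h2, h3, rfl⟩ := mem_fs_prE hx
      exact ⟨u, v, by omega, by omega, h3, rfl⟩
  · simp only [h, decide_false, cond_false] at hx
    obtain ⟨u, v, h1, h2, h3, rfl⟩ := mem_fs_prE hx
    exact ⟨u, v, by omega, by omega, h3, rfl⟩

theorem WF_dmE (n s : ℕ) : WF (dmE n s) := by
  unfold dmE
  by_cases h : s % 2 = 0
  · simp only [h, decide_true, cond_true]
    have h1 : WF [(n, n + 1 + s)] := by simp [WF]
    have h2 := WF_append h1 (WF_prE (n + 2 + s) ((2 * n - s) / 2)) ?_
    · exact h2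
    · intro x hx hx'
      simp only [fs_cons, fs_nil, insert_empty_eq, Finset.mem_singleton] at hx
      obtain ⟨u, v, h1, h2, h3, h4⟩ := mem_fs_prE hx'
      rw [hx] at h4
      unfold fe at h4
      simp only [Sym2.eq_iff] at h4
      omega
  · simp only [h, decide_false, cond_false]
    exact WF_prE _ _

/-- all edges of `L` are between real vertices -/
def RealE (n : ℕ) (L : Finset (Sym2 ℕ)) : Prop := ∀ e ∈ L, ∀ v ∈ e, v < n

theorem WF_pad {n : ℕ} {g : List ℕ} {L : List Ed} {kk : List ℕ} (hL : WF L) (hr : RealE n (fs L)) :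
    WF (pad n g L kk) := by
  refine WF_append hL (WF_append (WF_stE stL_lt) (WF_dmE _ _) ?_) ?_
  · intro x hx hx'
    obtain ⟨v, d, h1, h2, rfl⟩ := mem_fs_stE stL_lt hx
    obtain ⟨u, w, h3, h4, h5, h6⟩ := mem_fs_dmE hx'
    have := stL_lt v h1
    simp only [Sym2.eq_iff] at h6
    omega
  · intro x hx hx'
    rw [fs_append, Finset.mem_union] at hx'
    rcases hx' with hx' | hx'
    · obtain ⟨v, d, h1, h2, rfl⟩ := mem_fs_stE stL_lt hx'
      have := hr _ hx d (Sym2.mem_mk_right _ _)
      omega
    · obtain ⟨u, w, h3, h4, h5, rfl⟩ := mem_fs_dmE hx'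
      have := hr _ hx u (Sym2.mem_mk_left _ _)
      omega

/-- the degrees of the padding -/
theorem dg_pad {n : ℕ} {g : List ℕ} {L : List Ed} {kk : List ℕ} (hL : WF L) (hr : RealE n (fs L)) (v : ℕ) :
    dg (fs (pad n g L kk)) v =
      if v < n then degL L v + (if frB g v = true then 2 - cnt kk v - degL L v else 0)
      else if v = n then (if (stL n g L kk).length % 2 = 0 then 1 else 0)
      else if v < 3 * n + 2 then 1 else 0 := by
  have hs := stL_length (n := n) (g := g) (L := L) (kk := kk)
  have h0 : n ≤ v → degL L v = 0 := by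
    intro hv
    rw [degL_eq hL, dg, Finset.card_eq_zero, Finset.filter_eq_empty_iff]
    intro e he hv'
    have := hr e he v hv'
    omega
  rw [← degL_eq (WF_pad hL hr)]
  unfold pad
  rw [degL_append, degL_append, degL_stE n _ stL_lt, degL_dmE hs]
  by_cases h1 : v < n
  · rw [if_pos h1, if_pos h1, cnt_stL, if_pos h1]
    have h2 : ¬ v = n := by omega
    have h3 : ¬ (n + 1 + (stL n g L kk).length ≤ v ∧ v < 3 * n + 2) := by omega
    rw [if_neg h2, if_neg h3, add_zero]
  · rw [if_neg h1, if_neg h1, h0 (by omega)]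
    by_cases h2 : v = n
    · subst h2
      have h3 : ¬ (v + 1 ≤ v ∧ v < v + 1 + (stL v g L kk).length) := by omega
      rw [if_neg h3]
      simp
    · rw [if_neg h2, if_neg h2]
      split_ifs <;> omega

theorem real_of_pad {n : ℕ} {g : List ℕ} {L : List Ed} {kk : List ℕ} {e : Sym2 ℕ}
    (he : e ∈ fs (pad n g L kk)) (hr : ∀ v ∈ e, v < n) : e ∈ fs L := by
  unfold pad at he
  rw [fs_append, fs_append, Finset.mem_union, Finset.mem_union] at he
  rcases he with he | he | he
  · exact he
  · obtain ⟨v, d, h1, h2, rfl⟩ := mem_fs_stE stL_lt he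
    have := hr d (Sym2.mem_mk_right _ _)
    omega
  · obtain ⟨u, w, h3, h4, h5, rfl⟩ := mem_fs_dmE he
    have := hr u (Sym2.mem_mk_left _ _)
    omega

theorem noLoop_pad {n : ℕ} {g : List ℕ} {L : List Ed} {kk : List ℕ} (hL : NoLoop (fs L)) :
    NoLoop (fs (pad n g L kk)) := by
  intro e he
  unfold pad at he
  rw [fs_append, fs_append, Finset.mem_union, Finset.mem_union] at he
  rcases he with he | he | he
  · exact hL e he
  · obtain ⟨v, d, h1, h2, rfl⟩ := mem_fs_stE stL_lt he
    have := stL_lt v h1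
    rw [Sym2.mk_isDiag_iff]
    omega
  · obtain ⟨u, w, h3, h4, h5, rfl⟩ := mem_fs_dmE he
    rw [Sym2.mk_isDiag_iff]
    exact h5

/-- an edge of the padding at a vertex of demand 2 is an edge of `L` -/
theorem pad_T {n : ℕ} {g : List ℕ} {L : List Ed} {kk : List ℕ} {e : Sym2 ℕ} (he : e ∈ fs (pad n g L kk))
    {v : ℕ} (hv : v ∈ e) (hvn : v < n) (hf : frB g v = false) : e ∈ fs L := by
  unfold pad at he
  rw [fs_append, fs_append, Finset.mem_union, Finset.mem_union] at he
  rcases he with he | he | he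
  · exact he
  · obtain ⟨u, d, h1, h2, rfl⟩ := mem_fs_stE stL_lt he
    rcases Sym2.mem_iff.1 hv with rfl | rfl
    · have := stL_free v h1
      rw [hf] at this; cases this
    · omega
  · obtain ⟨u, w, h3, h4, h5, rfl⟩ := mem_fs_dmE he
    rcases Sym2.mem_iff.1 hv with rfl | rfl <;> omega

end Pool.Agent.PF4

end

section -- file PF4/PadX

/-!
The exchange of padded graphs: exchange of demand vectors.
-/

set_option autoImplicit false

namespace Pool.Agent.PF4

open Finset Pool.Agent.TFC Pool.Agent.Lib.helper60 XF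

/-- handshake -/
theorem sum_dg {n : ℕ} {z : Finset (Sym2 ℕ)} (hn : NoLoop z) (hr : RealE n z) :
    ∑ v ∈ Finset.range n, dg z v = 2 * #z := by
  induction z using Finset.induction_on with
  | empty => simp [dg]
  | insert e z he ih =>
    have h1 : NoLoop z := fun f hf => hn f (Finset.mem_insert_of_mem hf)
    have h2 : RealE n z := fun f hf => hr f (Finset.mem_insert_of_mem hf)
    have e1 : ∀ v ∈ Finset.range n, dg (insert e z) v = dg z v + if v ∈ e then 1 else 0 :=
      fun v _ => dg_insert he v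
    rw [Finset.sum_congr rfl e1, Finset.sum_add_distrib, ih h1 h2, Finset.card_insert_of_notMem he]
    have h3 := hn e (Finset.mem_insert_self _ _)
    have h4 := hr e (Finset.mem_insert_self _ _)
    have h5 : ∑ v ∈ Finset.range n, (if v ∈ e then 1 else 0) = 2 := by
      induction e using Sym2.ind with
      | _ a b =>
        rw [Sym2.mk_isDiag_iff] at h3
        have ha := h4 a (Sym2.mem_mk_left _ _)
        have hb := h4 b (Sym2.mem_mk_right _ _)
        have e2 : ∀ v ∈ Finset.range n, (if v ∈ s(a, b) then 1 else 0) =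
            (if v = a then 1 else 0) + (if v = b then 1 else 0) := by
          intro v _
          by_cases hva : v = a
          · subst hva
            simp [h3]
          · by_cases hvb : v = b
            · subst hvb
              simp [hva]
            · simp [hva, hvb]
        rw [Finset.sum_congr rfl e2, Finset.sum_add_distrib, Finset.sum_ite_eq', Finset.sum_ite_eq',
          if_pos (Finset.mem_range.2 ha), if_pos (Finset.mem_range.2 hb)]
    rw [h5]
    omega

/-- the data of the instance -/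
structure XRel (x : Ins) (g : List ℕ) (X : XD) : Prop where
  n : X.n = x.1
  e : X.E ⊆ fs x.2
  t : ∀ v < x.1, (v ∈ X.T ↔ frB g v = false)
  tl : ∀ v ∈ X.T, v < x.1

/-- what is known about one argument -/
structure PA (x : Ins) (g : List ℕ) (X : XD) (L : List Ed) (kk : List ℕ) (k : ℕ → ℤ) : Prop where
  wf : WF L
  m2 : M2 (fs L)
  sub : fs L ⊆ X.E
  fit : FitK X (fs L) k
  kk : ∀ v < x.1, (cnt kk v : ℤ) = k v

section
variable {x : Ins} {g : List ℕ} {X : XD} {L : List Ed} {kk : List ℕ} {k : ℕ → ℤ}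

theorem PA.real (hx : InsWF x) (R : XRel x g X) (h : PA x g X L kk k) : RealE x.1 (fs L) :=
  fun _ he _ hv => hx.vlt (R.e (h.sub he)) hv

/-- degrees of the padding at the real vertices -/
theorem PA.dvr (hx : InsWF x) (R : XRel x g X) (h : PA x g X L kk k) {v : ℕ} (hv : v < x.1) :
    dv (fs (pad x.1 g L kk)) v = 2 - k v := by
  rw [dv_apply, dg_pad h.wf (h.real hx R), if_pos hv, degL_eq h.wf]
  have h1 := h.kk v hv
  cases hf : frB g v with
  | true =>
    have hT : v ∉ X.T := fun hT => by
      rw [R.t v hv, hf] at hT; cases hT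
    obtain ⟨h2, h3⟩ := h.fit.f v (by rw [R.n]; exact hv) hT
    rw [dv_apply] at h3
    simp only [if_true]
    omega
  | false =>
    have hT : v ∈ X.T := (R.t v hv).2 hf
    have h2 := h.fit.t v hT
    rw [dv_apply] at h2
    simp only [Bool.false_eq_true, if_false, add_zero]
    omega

/-- the number of stubs has the parity of the token -/
theorem PA.par (hx : InsWF x) (R : XRel x g X) (h : PA x g X L kk k) :
    ((stL x.1 g L kk).length : ℤ) % 2 = k x.1 % 2 := by
  have h1 := length_eq_sum_cnt (stL x.1 g L kk) x.1 stL_lt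
  have h2 : ∀ v ∈ Finset.range x.1, (cnt (stL x.1 g L kk) v : ℤ) + dv (fs L) v = 2 - k v := by
    intro v hv
    have hv' := Finset.mem_range.1 hv
    rw [← h.dvr hx R hv', cnt_stL, if_pos hv', dv_apply, dv_apply, dg_pad h.wf (h.real hx R), if_pos hv',
      degL_eq h.wf]
    push_cast
    ring
  have h3 := Finset.sum_congr (s₁ := Finset.range x.1) rfl h2
  rw [Finset.sum_add_distrib, Finset.sum_sub_distrib] at h3
  have h4 := sum_dg h.m2.nl (h.real hx R)
  have h5 : ∑ v ∈ Finset.range x.1, dv (fs L) v = 2 * (#(fs L) : ℤ) := by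
    have : ∑ v ∈ Finset.range x.1, dv (fs L) v = ((∑ v ∈ Finset.range x.1, dg (fs L) v : ℕ) : ℤ) := by
      push_cast
      rfl
    rw [this, h4]
    push_cast
    rfl
  have h6 := h.fit.par
  rw [R.n, Finset.sum_range_succ] at h6
  have h7 : ((stL x.1 g L kk).length : ℤ) = ∑ v ∈ Finset.range x.1, (cnt (stL x.1 g L kk) v : ℤ) := by
    rw [h1]; push_cast; rfl
  rw [← h7, h5] at h3
  have h8 : ∑ v ∈ Finset.range x.1, (2 : ℤ) = 2 * x.1 := by
    rw [Finset.sum_const, Finset.card_range]
    ring
  rw [h8] at h3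
  obtain ⟨c, hc⟩ := h6
  omega

/-- degree at the token -/
theorem PA.dvn (hx : InsWF x) (R : XRel x g X) (h : PA x g X L kk k) :
    dv (fs (pad x.1 g L kk)) x.1 = 1 - k x.1 := by
  rw [dv_apply, dg_pad h.wf (h.real hx R), if_neg (lt_irrefl _), if_pos rfl]
  have h1 := h.par hx R
  have h2 := h.fit.tok
  rw [R.n] at h2
  rcases h2 with h2 | h2
  · rw [h2] at h1 ⊢
    rw [if_pos (by omega)]
    rfl
  · rw [h2] at h1 ⊢
    rw [if_neg (by omega)]
    rfl

/-- degree at the other dummies -/
theorem PA.dvd (hx : InsWF x) (R : XRel x g X) (h : PA x g X L kk k) {v : ℕ} (hv : x.1 < v) :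
    dv (fs (pad x.1 g L kk)) v = if v < 3 * x.1 + 2 then 1 else 0 := by
  rw [dv_apply, dg_pad h.wf (h.real hx R), if_neg (by omega), if_neg (by omega)]
  split_ifs <;> rfl

theorem PA.m2p (hx : InsWF x) (R : XRel x g X) (h : PA x g X L kk k) : M2 (fs (pad x.1 g L kk)) := by
  refine ⟨noLoop_pad h.m2.nl, ?_⟩
  intro v
  have h0 : (dg (fs (pad x.1 g L kk)) v : ℤ) = dv (fs (pad x.1 g L kk)) v := rfl
  rcases lt_trichotomy v x.1 with hv | hv | hv
  · have h1 := h.dvr hx R hv
    have h2 := h.kk v hv
    omega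
  · subst hv
    have h1 := h.dvn hx R
    have h2 := h.fit.tok
    rw [R.n] at h2
    omega
  · have h1 := h.dvd hx R hv
    split_ifs at h1 <;> omega

end

section
variable {x : Ins} {g : List ℕ} {X : XD} {L L' : List Ed} {kk kk' : List ℕ} {k k' : ℕ → ℤ}

end

/-! ### polynomial time -/

/-- half of a number and its parity -/
def half2 (s : ℕ × Bool) : ℕ × Bool := bif s.2 then (s.1 + 1, false) else (s.1, true)

theorem half2_it (i : ℕ) : half2^[i] (0, false) = (i / 2, decide (i % 2 = 1)) := by
  induction i with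
  | zero => rfl
  | succ i ih =>
    rw [Function.iterate_succ_apply', ih]
    rcases Nat.mod_two_eq_zero_or_one i with h | h
    · have h1 : (i + 1) / 2 = i / 2 := by omega
      have h2 : (i + 1) % 2 = 1 := by omega
      simp [half2, h, h1, h2]
    · have h1 : (i + 1) / 2 = i / 2 + 1 := by omega
      have h2 : (i + 1) % 2 = 0 := by omega
      simp [half2, h, h1, h2]

section
variable {ι : Type} [DEnc ι]

theorem pt_half2 {n : ι → ℕ} (hn : PT n) : PT (fun x => (n x / 2, decide (n x % 2 = 1))) := by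
  have hs : PT half2 :=
    PT.cond PT.snd (PT.pair (PT.nsucc PT.fst) (PT.const false)) (PT.pair PT.fst (PT.const true))
  have h := PT.iterateNat (count := n) (init := fun _ => ((0 : ℕ), false)) hn (PT.const _) hs
    ⟨fun x => tsize (n x) + 3 + 1, (hn.size.add (PB.const 3)).add (PB.const 1), by
      intro x i hi
      rw [half2_it]
      have h1 := tsize_bool_le (decide (i % 2 = 1))
      simp only [tsize_pair, tsize_nat]
      omega⟩
  exact h.congr fun x => half2_it (n x)

theorem pt_div2 {n : ι → ℕ} (hn : PT n) : PT (fun x => n x / 2) := PT.p1 (pt_half2 hn)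

theorem pt_even {n : ι → ℕ} (hn : PT n) : PT (fun x => decide (n x % 2 = 0)) := by
  refine (PT.bnot (PT.p2 (pt_half2 hn))).congr fun x => ?_
  rcases Nat.mod_two_eq_zero_or_one (n x) with h | h
  · simp [h]
  · simp [h]

theorem pt_cnt' {k : ι → List ℕ} {v : ι → ℕ} (hk : PT k) (hv : PT v) : PT (fun x => cnt (k x) (v x)) :=
  PT.length (PT.filter (p := fun z : ι × ℕ => decide (z.2 = v z.1)) hk (PT.neq PT.snd (hv.comp PT.fst)))

theorem pt_frB {g : ι → List ℕ} {v : ι → ℕ} (hg : PT g) (hv : PT v) : PT (fun x => frB (g x) (v x)) :=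
  PT.nle (PT.getD hg hv (PT.const 0)) (PT.const 1)

theorem pt_stE {n : ι → ℕ} {st : ι → List ℕ} (hn : PT n) (hs : PT st) : PT (fun x => stE (n x) (st x)) :=
  PT.map (g := fun z : ι × ℕ => ((st z.1).getD z.2 0, n z.1 + 1 + z.2)) (PT.range (PT.length hs))
    (PT.pair (PT.getD (hs.comp PT.fst) PT.snd (PT.const 0)) (PT.nadd (PT.nsucc (hn.comp PT.fst)) PT.snd))

theorem pt_prE {a t : ι → ℕ} (ha : PT a) (ht : PT t) : PT (fun x => prE (a x) (t x)) := by
  have h1 : PT (fun z : ι × ℕ => a z.1 + 2 * z.2) :=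
    PT.nadd (ha.comp PT.fst) (PT.nmul (PT.const 2) PT.snd)
  exact PT.map (g := fun z : ι × ℕ => (a z.1 + 2 * z.2, a z.1 + 2 * z.2 + 1)) (PT.range ht)
    (PT.pair h1 (PT.nsucc h1))

theorem pt_stL {n : ι → ℕ} {g : ι → List ℕ} {L : ι → List Ed} {kk : ι → List ℕ} (hn : PT n) (hg : PT g)
    (hL : PT L) (hk : PT kk) : PT (fun x => stL (n x) (g x) (L x) (kk x)) :=
  PT.flatMap (g := fun z : ι × ℕ => bif frB (g z.1) z.2 then
    List.replicate (2 - cnt (kk z.1) z.2 - degL (L z.1) z.2) z.2 else []) (PT.range hn)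
    (PT.cond (pt_frB (hg.comp PT.fst) PT.snd)
      (PT.replicate (PT.nsub (PT.nsub (PT.const 2) (pt_cnt' (hk.comp PT.fst) PT.snd))
        (pt_degL (hL.comp PT.fst) PT.snd)) PT.snd) (PT.const []))

theorem pt_dmE {n s : ι → ℕ} (hn : PT n) (hs : PT s) : PT (fun x => dmE (n x) (s x)) :=
  PT.cond (pt_even hs)
    (PT.cons (PT.pair hn (PT.nadd (PT.nsucc hn) hs))
      (pt_prE (PT.nadd (PT.nadd hn (PT.const 2)) hs) (pt_div2 (PT.nsub (PT.nmul (PT.const 2) hn) hs))))
    (pt_prE (PT.nadd (PT.nsucc hn) hs)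
      (pt_div2 (PT.nsub (PT.nsucc (PT.nmul (PT.const 2) hn)) hs)))

theorem pt_pad {n : ι → ℕ} {g : ι → List ℕ} {L : ι → List Ed} {kk : ι → List ℕ} (hn : PT n) (hg : PT g)
    (hL : PT L) (hk : PT kk) : PT (fun x => pad (n x) (g x) (L x) (kk x)) :=
  PT.append hL (PT.append (pt_stE hn (pt_stL hn hg hL hk)) (pt_dmE hn (PT.length (pt_stL hn hg hL hk))))

end

end Pool.Agent.PF4

end

section -- file PF4/XE

/-!
From the staged pool and the minimal blocking family to the worlds at the clusters.
-/

set_option autoImplicit false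

namespace Pool.Agent.PF4.XF

open Finset Pool.Agent.TFC Pool.Agent.PF4

theorem dg_union {O K : Finset (Sym2 ℕ)} (h : Disjoint O K) (v : ℕ) : dg (O ∪ K) v = dg O v + dg K v := by
  unfold dg
  rw [Finset.filter_union, Finset.card_union_of_disjoint (Finset.disjoint_filter_filter h)]

theorem dg_real {X : XD} (hX : X.OK) {L : Finset (Sym2 ℕ)} (hL : L ⊆ X.E) {v : ℕ} (hv : X.n ≤ v) :
    dg L v = 0 := by
  rw [dg, Finset.card_eq_zero, Finset.filter_eq_empty_iff]
  intro e he hve
  have := hX.lt e (hL he) v hve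
  omega

theorem dg_off {X : XD} (hX : X.OK) {L : Finset (Sym2 ℕ)} (hL : L ⊆ X.E2) {v : ℕ} (hv : v ∉ X.V2) :
    dg L v = 0 := by
  rw [dg, Finset.card_eq_zero, Finset.filter_eq_empty_iff]
  intro e he hve
  exact hv (hX.ev e (hL he) v hve)

section
variable {X : XD} {P : ℕ → Finset (Sym2 ℕ) → Prop} {D : Finset (Finset (Sym2 ℕ))} {j m : ℕ}

/-- a fitting completion makes a cover -/
theorem fit_union (hX : X.OK) {O K : Finset (Sym2 ℕ)} (hO : M2 O) (hOE : O ⊆ X.E) (hK : M2 K) (hKE : K ⊆ X.E)
    (hd : Disjoint O K) {k : ℕ → ℤ} (hk : FitK X O k) (he : dv K = k) : M2 (O ∪ K) ∧ Cv X (O ∪ K) := by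
  constructor
  · constructor
    · intro e he'
      rcases Finset.mem_union.1 he' with h | h
      · exact hO.nl e h
      · exact hK.nl e h
    · intro v
      rw [dg_union hd]
      by_cases hv : v < X.n
      · have h1 := congrFun he v
        rw [dv_apply] at h1
        by_cases hT : v ∈ X.T
        · have h2 := hk.t v hT
          rw [dv_apply] at h2
          omega
        · have h2 := (hk.f v hv hT).2
          rw [dv_apply] at h2
          omega
      · rw [dg_real hX hOE (by omega), dg_real hX hKE (by omega)]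
        omega
  · intro v hv
    rw [dg_union hd]
    have h1 := congrFun he v
    have h2 := hk.t v hv
    rw [dv_apply] at h1 h2
    omega

theorem dg_split (L C : Finset (Sym2 ℕ)) (v : ℕ) : dg L v = dg (L \ C) v + dg (L ∩ C) v := by
  rw [← dg_union (Finset.disjoint_sdiff_inter L C), Finset.sdiff_union_inter]

theorem sum_dv {n : ℕ} {z : Finset (Sym2 ℕ)} (hn : NoLoop z) (hr : ∀ e ∈ z, ∀ v ∈ e, v < n) :
    ∑ v ∈ Finset.range (n + 1), dv z v = 2 * (#z : ℤ) := by
  have h0 : dg z n = 0 := by
    rw [dg, Finset.card_eq_zero, Finset.filter_eq_empty_iff]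
    intro e he hve
    have := hr e he n hve
    omega
  have h1 := sum_dg hn hr
  rw [Finset.sum_range_succ, dv_apply, h0]
  have : ∑ v ∈ Finset.range n, dv z v = ((∑ v ∈ Finset.range n, dg z v : ℕ) : ℤ) := by
    push_cast
    rfl
  rw [this, h1]
  push_cast
  ring

/-- the demand vector of a cover -/
theorem fit_cover (hX : X.OK) {L C : Finset (Sym2 ℕ)} (hL : M2 L) (hE : L ⊆ X.E) (hc : Cv X L)
    (hC : C ⊆ X.E2) : FitK X (L \ C) (dv (L ∩ C)) := by
  have hi : L ∩ C ⊆ X.E := Finset.inter_subset_left.trans hE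
  refine ⟨?_, ?_, ?_, ?_, ?_, ?_⟩
  · intro v hv
    have h1 := hc v hv
    have h2 := dg_split L C v
    rw [dv_apply, dv_apply]
    omega
  · intro v _ _
    have h1 := hL.le v
    have h2 := dg_split L C v
    rw [dv_apply, dv_apply]
    omega
  · intro v _ hv
    rw [dv_apply, dg_off hX (Finset.inter_subset_right.trans hC) hv]
    rfl
  · left
    rw [dv_apply, dg_real hX hi le_rfl]
    rfl
  · rw [sum_dv (hL.mono Finset.inter_subset_left).nl (fun e he v hv => hX.lt e (hi he) v hv)]
    exact ⟨_, two_mul _⟩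
  · intro v hv
    rw [dv_apply, dg_real hX hi (by omega)]
    rfl

/-- near cover at `w` -/
structure NC (X : XD) (w : ℕ) (M : Finset (Sym2 ℕ)) : Prop where
  m2 : M2 M
  sub : M ⊆ X.E
  one : dg M w = 1
  two : ∀ v ∈ X.T, v ≠ w → dg M v = 2

/-- the demand vector of a near cover -/
theorem fit_near (hX : X.OK) {M C : Finset (Sym2 ℕ)} {w : ℕ} (hM : NC X w M) (hw : w ∈ X.T) (hw2 : w ∈ X.V2)
    (hC : C ⊆ X.E2) : FitK X (M \ C) (dv (M ∩ C) + ev w + ev X.n) := by
  have hi : M ∩ C ⊆ X.E := Finset.inter_subset_left.trans hM.sub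
  have hwn := hX.tn w hw
  refine ⟨?_, ?_, ?_, ?_, ?_, ?_⟩
  · intro v hv
    have h2 := dg_split M C v
    have hvn := hX.tn v hv
    rw [Pi.add_apply, Pi.add_apply, ev_apply, ev_apply, dv_apply, dv_apply, if_neg (show v ≠ X.n by omega)]
    by_cases h : v = w
    · subst h
      have := hM.one
      rw [if_pos rfl]
      omega
    · have := hM.two v hv h
      rw [if_neg h]
      omega
  · intro v hv hT
    have h1 := hM.m2.le v
    have h2 := dg_split M C v
    have h3 : v ≠ w := fun h => hT (h ▸ hw)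
    rw [Pi.add_apply, Pi.add_apply, ev_apply, ev_apply, dv_apply, dv_apply, if_neg (show v ≠ X.n by omega),
      if_neg h3]
    omega
  · intro v hv hv2
    have h3 : v ≠ w := fun h => hv2 (h ▸ hw2)
    rw [Pi.add_apply, Pi.add_apply, ev_apply, ev_apply, dv_apply,
      dg_off hX (Finset.inter_subset_right.trans hC) hv2, if_neg (show v ≠ X.n by omega), if_neg h3]
    rfl
  · right
    rw [Pi.add_apply, Pi.add_apply, ev_apply, ev_apply, dv_apply, dg_real hX hi le_rfl, if_pos rfl,
      if_neg (by omega)]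
    rfl
  · simp only [Pi.add_apply]
    rw [Finset.sum_add_distrib, Finset.sum_add_distrib,
      sum_dv (hM.m2.mono Finset.inter_subset_left).nl (fun e he v hv => hX.lt e (hi he) v hv)]
    simp only [ev_apply]
    rw [Finset.sum_ite_eq', Finset.sum_ite_eq', if_pos (Finset.mem_range.2 (by omega)),
      if_pos (Finset.mem_range.2 (by omega))]
    exact ⟨#(M ∩ C) + 1, by ring⟩
  · intro v hv
    rw [Pi.add_apply, Pi.add_apply, ev_apply, ev_apply, dv_apply, dg_real hX hi (by omega),
      if_neg (by omega), if_neg (by omega)]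
    rfl

end

end Pool.Agent.PF4.XF

end

section -- file PF4/SumX

/-!
The exchange for states (sums of pieces) as a function, pools of states, polynomial time.
-/

set_option autoImplicit false

namespace Pool.Agent.PF4

open Finset Pool.Agent.TFC Pool.Agent.Lib.helper60

section pieces

variable {Pc : Type} (mem : Pc → List ℕ → Bool)

/-- size bound of the states of the walk -/
def Bd (m n : ℕ) : ℕ := n * (16 * m + 18) + 2 * m + 12

/-- the two-step exchange of states -/
def exchS (d : Pc) (P : List Pc) (m : ℕ) (Y X : List (List ℕ)) (i : ℕ) (up : Bool) : List (List ℕ) :=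
  ((gstep (Bd m P.length) (wstp mem d P Y))^[16 * P.length + 1] (X, i, up, false)).1

variable {mem}

theorem tsize_leg {m : ℕ} {d : Pc} {P : List Pc} (hP : ∀ q < P.length, PcOK mem m (P.getD q d))
    {s : List (List ℕ)} (hs : Leg mem d P s) : tsize s ≤ P.length * (16 * m + 18) + 1 := by
  have h : ∀ k ∈ s, tsize k ≤ 16 * m + 17 := by
    intro k hk
    obtain ⟨q, hq, rfl⟩ := List.mem_iff_getElem.1 hk
    have hq' : q < P.length := by rw [← hs.len]; exact hq
    have e : s[q] = s.getD q [] := by
      rw [List.getD_eq_getElem?_getD, List.getElem?_eq_getElem hq]; rfl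
    have h1 := hs.mem q hq'
    rw [← e] at h1
    have h2 := (hP q hq').len _ h1
    have h3 := (hP q hq').le _ h1
    have h4 : ∀ v ∈ s[q], tsize v ≤ 2 * m + 1 := by
      intro v hv
      have := h3 v hv
      rw [tsize_nat]
      omega
    have h5 := tsize_le_of_forall h4
    have h6 : (s[q]).length * (2 * m + 1 + 1) ≤ 8 * (2 * m + 1 + 1) := Nat.mul_le_mul_right _ h2
    omega
  have h7 := tsize_le_of_forall h
  rw [hs.len] at h7
  exact h7

/-- the states of the walk after `t` steps -/
theorem walk_inv {m : ℕ} {d : Pc} {P : List Pc} (hP : ∀ q < P.length, PcOK mem m (P.getD q d))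
    {X Y : List (List ℕ)} (hX : Leg mem d P X) (hY : Leg mem d P Y) {i : ℕ} {up : Bool}
    (hd : 0 < sgn up * (totS Y i - totS X i)) (hi : i ≤ m) (t : ℕ) :
    ∃ (s : List (List ℕ)) (j : ℕ) (b e : Bool), (wstp mem d P Y)^[t] (X, i, up, false) = (s, j, b, e) ∧
      Leg mem d P s ∧ j ≤ m ∧
      ((e = true ∧ ∃ (l : ℕ) (δ : ℤ), (δ = 1 ∨ δ = -1) ∧
          0 < δ * (totS Y l - (totS X + Pi.single i (sgn up) : ℕ → ℤ) l) ∧
          totS s = totS X + Pi.single i (sgn up) + Pi.single l δ) ∨
        (e = false ∧ SI mem d P Y (totS X + Pi.single i (sgn up)) s j b ∧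
          Phi m P.length Y s + 2 * t ≤ Phi m P.length Y X)) := by
  induction t with
  | zero =>
    refine ⟨X, i, up, false, rfl, hX, hi, Or.inr ⟨rfl, ⟨hX, rfl, hd⟩, by simp⟩⟩
  | succ t ih =>
    obtain ⟨s, j, b, e, h1, h2, h3, h4⟩ := ih
    rw [Function.iterate_succ_apply', h1]
    rcases h4 with ⟨rfl, h4⟩ | ⟨rfl, h4, h5⟩
    · refine ⟨s, j, b, true, ?_, h2, h3, Or.inl ⟨rfl, h4⟩⟩
      unfold wstp
      simp only [cond_true]
    · obtain ⟨s', j', dn, g1, g2, g3, g4, g5⟩ := walk_step hP hY h4
      rw [g1]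
      refine ⟨s', j', !dn, stopB Y s' (j', dn), rfl, g2, g4, ?_⟩
      rcases g5 with ⟨g5, g6⟩ | ⟨g5, g6, g7⟩
      · left
        exact ⟨g5, j', sgn dn, sgn_or dn, g6, g3⟩
      · right
        exact ⟨g5, g6, by omega⟩

/-- **the exchange of states** -/
theorem exchS_spec {m : ℕ} {d : Pc} {P : List Pc} (hP : ∀ q < P.length, PcOK mem m (P.getD q d))
    {X Y : List (List ℕ)} (hX : Leg mem d P X) (hY : Leg mem d P Y) {i : ℕ} {up : Bool}
    (hd : 0 < sgn up * (totS Y i - totS X i)) :
    Leg mem d P (exchS mem d P m Y X i up) ∧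
      Two (totS X) (totS Y) (totS (exchS mem d P m Y X i up)) i (sgn up) := by
  have hi : i ≤ m := by
    obtain ⟨hq, ht⟩ := who_spec hY hX hd
    rcases tow_cand ht with h' | h'
    · exact (hP _ hq).le _ (hX.mem _ hq) _ h'
    · exact (hP _ hq).le _ (hY.mem _ hq) _ h'
  have hg : (gstep (Bd m P.length) (wstp mem d P Y))^[16 * P.length + 1] (X, i, up, false) =
      (wstp mem d P Y)^[16 * P.length + 1] (X, i, up, false) := by
    refine gstep_iter ?_
    intro t _
    obtain ⟨s, j, b, e, h1, h2, h3, _⟩ := walk_inv hP hX hY hd hi t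
    rw [h1]
    have h4 := tsize_leg hP h2
    have h5 := tsize_bool_le b
    have h6 := tsize_bool_le e
    simp only [tsize_pair, tsize_nat, Bd]
    omega
  unfold exchS
  rw [hg]
  obtain ⟨s, j, b, e, h1, h2, h3, h4⟩ := walk_inv hP hX hY hd hi (16 * P.length + 1)
  rw [h1]
  refine ⟨h2, ?_⟩
  rcases h4 with ⟨_, l, δ, g1, g2, g3⟩ | ⟨_, _, h5⟩
  · exact ⟨l, δ, g1, g2, g3⟩
  · have := Phi_le hP hY hX
    omega

variable (mem)

/-! ### pools -/

/-- direction test on totals -/
def towT (x y : List (List ℕ)) (i : ℕ) (up : Bool) : Bool :=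
  bif up then decide (cT x i < cT y i) else decide (cT y i < cT x i)

theorem towT_iff (x y : List (List ℕ)) (i : ℕ) (up : Bool) :
    towT x y i up = true ↔ 0 < sgn up * (totS y i - totS x i) := tow_iff x.flatten y.flatten i up

/-- exchange, if possible -/
def exch1S (d : Pc) (P : List Pc) (m : ℕ) (x y : List (List ℕ)) (i : ℕ) (up : Bool) :
    List (List (List ℕ)) := bif towT x y i up then [exchS mem d P m y x i up] else []

/-- one round of exchanges -/
def rndS (d : Pc) (P : List Pc) (m : ℕ) (V : List ℕ) (Q : List (List (List ℕ))) : List (List (List ℕ)) :=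
  Q ++ Q.flatMap fun x => Q.flatMap fun y => V.flatMap fun i =>
    exch1S mem d P m x y i true ++ exch1S mem d P m x y i false

/-- the pool after `k` rounds -/
def poolS (d : Pc) (P : List Pc) (m : ℕ) (V : List ℕ) (Q : List (List (List ℕ))) (k : ℕ) :
    List (List (List ℕ)) := (rndS mem d P m V)^[k] Q

variable {mem}

theorem mem_exch1S {d : Pc} {P : List Pc} {m : ℕ} {x y z : List (List ℕ)} {i : ℕ} {up : Bool} :
    z ∈ exch1S mem d P m x y i up ↔ 0 < sgn up * (totS y i - totS x i) ∧ z = exchS mem d P m y x i up := by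
  unfold exch1S
  rw [← towT_iff]
  cases towT x y i up with
  | true => simp
  | false => simp

theorem mem_rndS {d : Pc} {P : List Pc} {m : ℕ} {V : List ℕ} {Q : List (List (List ℕ))}
    {z : List (List ℕ)} :
    z ∈ rndS mem d P m V Q ↔ z ∈ Q ∨ ∃ x ∈ Q, ∃ y ∈ Q, ∃ i ∈ V, ∃ up, z ∈ exch1S mem d P m x y i up := by
  simp only [rndS, List.mem_append, List.mem_flatMap]
  refine or_congr Iff.rfl ?_
  constructor
  · rintro ⟨x, hx, y, hy, i, hi, h | h⟩
    · exact ⟨x, hx, y, hy, i, hi, true, h⟩
    · exact ⟨x, hx, y, hy, i, hi, false, h⟩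
  · rintro ⟨x, hx, y, hy, i, hi, up, h⟩
    cases up with
    | true => exact ⟨x, hx, y, hy, i, hi, Or.inl h⟩
    | false => exact ⟨x, hx, y, hy, i, hi, Or.inr h⟩

section
variable {m : ℕ} {d : Pc} {P : List Pc} {V : List ℕ} {Q : List (List (List ℕ))}

theorem rndS_leg (hP : ∀ q < P.length, PcOK mem m (P.getD q d)) (hQ : ∀ x ∈ Q, Leg mem d P x) :
    ∀ z ∈ rndS mem d P m V Q, Leg mem d P z := by
  intro z hz
  rcases mem_rndS.1 hz with h | ⟨x, hx, y, hy, i, _, up, h⟩
  · exact hQ z h
  · obtain ⟨h1, rfl⟩ := mem_exch1S.1 h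
    exact (exchS_spec hP (hQ x hx) (hQ y hy) h1).1

theorem poolS_succ (k : ℕ) : poolS mem d P m V Q (k + 1) = rndS mem d P m V (poolS mem d P m V Q k) :=
  Function.iterate_succ_apply' _ _ _

theorem sub_rndS : ∀ z ∈ Q, z ∈ rndS mem d P m V Q := fun _ hz => mem_rndS.2 (Or.inl hz)

theorem poolS_mono {k l : ℕ} (h : k ≤ l) : ∀ z ∈ poolS mem d P m V Q k, z ∈ poolS mem d P m V Q l := by
  induction l, h using Nat.le_induction with
  | base => exact fun z hz => hz
  | succ l _ ih =>
    intro z hz
    rw [poolS_succ]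
    exact sub_rndS z (ih z hz)

theorem poolS_leg (hP : ∀ q < P.length, PcOK mem m (P.getD q d)) (hQ : ∀ x ∈ Q, Leg mem d P x) (k : ℕ) :
    ∀ z ∈ poolS mem d P m V Q k, Leg mem d P z := by
  induction k with
  | zero => exact hQ
  | succ k ih => rw [poolS_succ]; exact rndS_leg hP ih

/-- **the staged exchange property of the pool of states** -/
theorem poolS_jump (hP : ∀ q < P.length, PcOK mem m (P.getD q d)) (hQ : ∀ x ∈ Q, Leg mem d P x) {k : ℕ}
    {x y : List (List ℕ)} (hx : x ∈ poolS mem d P m V Q k) (hy : y ∈ poolS mem d P m V Q k) {i : ℕ}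
    (hi : i ∈ V) {ε : ℤ} (hε : ε = 1 ∨ ε = -1) (h : 0 < ε * (totS y i - totS x i)) :
    ∃ z ∈ poolS mem d P m V Q (k + 1), Two (totS x) (totS y) (totS z) i ε := by
  obtain ⟨up, rfl⟩ := sgn_surj hε
  refine ⟨exchS mem d P m y x i up, ?_, ?_⟩
  · rw [poolS_succ, mem_rndS]
    exact Or.inr ⟨x, hx, y, hy, i, hi, up, mem_exch1S.2 ⟨h, rfl⟩⟩
  · exact (exchS_spec hP (poolS_leg hP hQ k x hx) (poolS_leg hP hQ k y hy) h).2

end

end pieces

/-! ### polynomial time -/

section
variable {ι Pc : Type} [DEnc ι] [DEnc Pc] {mem : Pc → List ℕ → Bool}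

theorem pt_cnt {k : ι → List ℕ} {v : ι → ℕ} (hk : PT k) (hv : PT v) : PT (fun x => cnt (k x) (v x)) :=
  PT.length (PT.filter (p := fun z : ι × ℕ => decide (z.2 = v z.1)) hk (PT.neq PT.snd (hv.comp PT.fst)))

theorem pt_shf {k : ι → List ℕ} {v : ι → ℕ} {up : ι → Bool} (hk : PT k) (hv : PT v) (hu : PT up) :
    PT (fun x => shf (k x) (v x) (up x)) :=
  PT.cond hu (PT.cons hv hk) (PT.append
    (PT.filter (p := fun z : ι × ℕ => !decide (z.2 = v z.1)) hk (PT.bnot (PT.neq PT.snd (hv.comp PT.fst))))
    (PT.replicate (PT.npred (pt_cnt hk hv)) hv))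

theorem pt_tow {k y : ι → List ℕ} {v : ι → ℕ} {up : ι → Bool} (hk : PT k) (hy : PT y) (hv : PT v)
    (hu : PT up) : PT (fun x => tow (k x) (y x) (v x) (up x)) :=
  PT.cond hu (PT.nlt (pt_cnt hk hv) (pt_cnt hy hv)) (PT.nlt (pt_cnt hy hv) (pt_cnt hk hv))

theorem pt_pick (hm : PT (fun x : Pc × List ℕ => mem x.1 x.2)) {p : ι → Pc} {k y : ι → List ℕ} {v : ι → ℕ}
    {up : ι → Bool} (hp : PT p) (hk : PT k) (hy : PT y) (hv : PT v) (hu : PT up) :
    PT (fun x => pick mem (p x) (k x) (y x) (v x) (up x)) := by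
  refine pt_findD (p := fun z : ι × ℕ × Bool => okC mem (p z.1) (k z.1) (y z.1) (v z.1) (up z.1) z.2) ?_ ?_
    (PT.pair hv hu)
  · have k' : PT (fun z : ι × ℕ × Bool => shf (k z.1) (v z.1) (up z.1)) :=
      pt_shf (hk.comp PT.fst) (hv.comp PT.fst) (hu.comp PT.fst)
    exact PT.band (pt_tow k' (hy.comp PT.fst) PT.snd.p1 PT.snd.p2)
      (hm.comp (PT.pair (hp.comp PT.fst) (pt_shf k' PT.snd.p1 PT.snd.p2)))
  · exact PT.flatMap (g := fun z : ι × ℕ => [(z.2, true), (z.2, false)])
      (PT.append (PT.cons hv hk) hy)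
      (PT.cons (PT.pair PT.snd (PT.const true)) (PT.cons (PT.pair PT.snd (PT.const false)) (PT.const [])))

theorem pt_setL {s : ι → List (List ℕ)} {q : ι → ℕ} {k : ι → List ℕ} (hs : PT s) (hq : PT q) (hk : PT k) :
    PT (fun x => setL (s x) (q x) (k x)) :=
  PT.map (g := fun z : ι × ℕ => bif decide (z.2 = q z.1) then k z.1 else (s z.1).getD z.2 [])
    (PT.range (PT.length hs))
    (PT.cond (PT.neq PT.snd (hq.comp PT.fst)) (hk.comp PT.fst)
      (PT.getD (hs.comp PT.fst) PT.snd (PT.const [])))

theorem pt_cT {s : ι → List (List ℕ)} {v : ι → ℕ} (hs : PT s) (hv : PT v) : PT (fun x => cT (s x) (v x)) :=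
  pt_cnt (PT.flatten hs) hv

theorem pt_who {n : ι → ℕ} {Y s : ι → List (List ℕ)} {v : ι → ℕ} {up : ι → Bool} (hn : PT n) (hY : PT Y)
    (hs : PT s) (hv : PT v) (hu : PT up) : PT (fun x => who (n x) (Y x) (s x) (v x) (up x)) :=
  pt_findD (p := fun z : ι × ℕ => tow ((s z.1).getD z.2 []) ((Y z.1).getD z.2 []) (v z.1) (up z.1))
    (pt_tow (PT.getD (hs.comp PT.fst) PT.snd (PT.const [])) (PT.getD (hY.comp PT.fst) PT.snd (PT.const []))
      (hv.comp PT.fst) (hu.comp PT.fst)) (PT.range hn) (PT.const 0)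

theorem pt_stopB {Y s : ι → List (List ℕ)} {c : ι → ℕ × Bool} (hY : PT Y) (hs : PT s) (hc : PT c) :
    PT (fun x => stopB (Y x) (s x) (c x)) :=
  PT.cond (PT.p2 hc) (PT.nle (pt_cT hs (PT.p1 hc)) (pt_cT hY (PT.p1 hc)))
    (PT.nle (pt_cT hY (PT.p1 hc)) (pt_cT hs (PT.p1 hc)))

theorem pt_wstp (hm : PT (fun x : Pc × List ℕ => mem x.1 x.2)) (d : Pc) {P : ι → List Pc}
    {Y : ι → List (List ℕ)} {w : ι → Wk} (hP : PT P) (hY : PT Y) (hw : PT w) :
    PT (fun x => wstp mem d (P x) (Y x) (w x)) := by
  have s := PT.p1 hw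
  have i := PT.p1 (PT.p2 hw)
  have up := PT.p1 (PT.p2 (PT.p2 hw))
  have q := pt_who (PT.length hP) hY s i up
  have k := PT.getD s q (PT.const [])
  have c : PT (fun x => newP mem d (P x) (Y x) (w x).1 (w x).2.1 (w x).2.2.1
      (who (P x).length (Y x) (w x).1 (w x).2.1 (w x).2.2.1)) :=
    pt_pick hm (PT.getD hP q (PT.const d)) k (PT.getD hY q (PT.const [])) i up
  have s' := pt_setL s q (pt_shf (pt_shf k i up) (PT.p1 c) (PT.p2 c))
  exact PT.cond (PT.p2 (PT.p2 (PT.p2 hw))) hw
    (PT.pair s' (PT.pair (PT.p1 c) (PT.pair (PT.bnot (PT.p2 c)) (pt_stopB hY s' c))))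

theorem pt_exchS (hm : PT (fun x : Pc × List ℕ => mem x.1 x.2)) (d : Pc) {P : ι → List Pc} {m : ι → ℕ}
    {Y X : ι → List (List ℕ)} {i : ι → ℕ} {up : ι → Bool} (hP : PT P) (hM : PT m) (hY : PT Y) (hX : PT X)
    (hi : PT i) (hu : PT up) : PT (fun x => exchS mem d (P x) (m x) (Y x) (X x) (i x) (up x)) := by
  have hn := PT.length hP
  have hB : PT (fun x => Bd (m x) (P x).length) :=
    PT.nadd (PT.nadd (PT.nmul hn (PT.nadd (PT.nmul (PT.const 16) hM) (PT.const 18)))
      (PT.nmul (PT.const 2) hM)) (PT.const 12)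
  have h := PT.iterG (step := fun z : ι × Wk => wstp mem d (P z.1) (Y z.1) z.2)
    (PT.nsucc (PT.nmul (PT.const 16) hn)) hB (PT.pair hX (PT.pair hi (PT.pair hu (PT.const false))))
    (pt_wstp hm d (hP.comp PT.fst) (hY.comp PT.fst) PT.snd)
  exact PT.p1 h

theorem pt_exch1S (hm : PT (fun x : Pc × List ℕ => mem x.1 x.2)) (d : Pc) {P : ι → List Pc} {m : ι → ℕ}
    {x y : ι → List (List ℕ)} {i : ι → ℕ} {up : ι → Bool} (hP : PT P) (hM : PT m) (hx : PT x) (hy : PT y)
    (hi : PT i) (hu : PT up) : PT (fun a => exch1S mem d (P a) (m a) (x a) (y a) (i a) (up a)) :=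
  PT.cond (pt_tow (PT.flatten hx) (PT.flatten hy) hi hu)
    (PT.cons (pt_exchS hm d hP hM hy hx hi hu) (PT.const [])) (PT.const [])

theorem pt_rndS (hm : PT (fun x : Pc × List ℕ => mem x.1 x.2)) (d : Pc) {P : ι → List Pc} {m : ι → ℕ}
    {V : ι → List ℕ} {Q : ι → List (List (List ℕ))} (hP : PT P) (hM : PT m) (hV : PT V) (hQ : PT Q) :
    PT (fun a => rndS mem d (P a) (m a) (V a) (Q a)) := by
  have h3 : PT (fun z : ((ι × List (List ℕ)) × List (List ℕ)) × ℕ =>
      exch1S mem d (P z.1.1.1) (m z.1.1.1) z.1.1.2 z.1.2 z.2 true ++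
        exch1S mem d (P z.1.1.1) (m z.1.1.1) z.1.1.2 z.1.2 z.2 false) := by
    have e0 : PT (fun z : ((ι × List (List ℕ)) × List (List ℕ)) × ℕ => z.1.1.1) :=
      PT.fst.comp (PT.fst.comp PT.fst)
    have e2 : PT (fun z : ((ι × List (List ℕ)) × List (List ℕ)) × ℕ => z.1.1.2) :=
      PT.snd.comp (PT.fst.comp PT.fst)
    have e3 : PT (fun z : ((ι × List (List ℕ)) × List (List ℕ)) × ℕ => z.1.2) := PT.snd.comp PT.fst
    exact PT.append (pt_exch1S hm d (hP.comp e0) (hM.comp e0) e2 e3 PT.snd (PT.const true))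
      (pt_exch1S hm d (hP.comp e0) (hM.comp e0) e2 e3 PT.snd (PT.const false))
  have h2 : PT (fun z : (ι × List (List ℕ)) × List (List ℕ) => (V z.1.1).flatMap fun i =>
      exch1S mem d (P z.1.1) (m z.1.1) z.1.2 z.2 i true ++
        exch1S mem d (P z.1.1) (m z.1.1) z.1.2 z.2 i false) :=
    PT.flatMap (hV.comp (PT.fst.comp PT.fst)) h3
  have h1 : PT (fun z : ι × List (List ℕ) => (Q z.1).flatMap fun y => (V z.1).flatMap fun i =>
      exch1S mem d (P z.1) (m z.1) z.2 y i true ++ exch1S mem d (P z.1) (m z.1) z.2 y i false) :=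
    PT.flatMap (hQ.comp PT.fst) h2
  exact PT.append hQ (PT.flatMap hQ h1)

theorem pt_poolS (hm : PT (fun x : Pc × List ℕ => mem x.1 x.2)) (d : Pc) {P : ι → List Pc} {m : ι → ℕ}
    {V : ι → List ℕ} {Q : ι → List (List (List ℕ))} (hP : PT P) (hM : PT m) (hV : PT V) (hQ : PT Q) (k : ℕ) :
    PT (fun a => poolS mem d (P a) (m a) (V a) (Q a) k) := by
  induction k with
  | zero => exact hQ
  | succ k ih =>
    refine (pt_rndS hm d hP hM hV ih).congr fun a => ?_
    rw [poolS_succ]

end

end Pool.Agent.PF4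

end

section -- file PF4/Sol

/-!
# The loop of the solver

A fact is a pair `(p, s)` of a port `p < np x` and a witness `s`. One round: `relax` (one matching call with the facts found
so far) reports that there is no solution or gives a relaxed object; `red` lowers the number `mu` of violations of the relaxed
object or gives a new fact; `fin` turns a relaxed object without violations into a solution or a new fact. `solve` finds a
solution or reports that there is none.
-/

set_option autoImplicit false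

namespace Pool.Agent.PF4

open Pool.Agent.Lib.helper60

/-- facts found so far -/
abbrev Fct (S : Type) : Type := List (ℕ × S)

/-- the interface of the solver loop -/
structure SolApi (ι S R : Type) [DEnc ι] [DEnc S] [DEnc R] where
  /-- number of ports -/
  np : ι → ℕ
  /-- bound of the number of violations -/
  mub : ι → ℕ
  /-- bound of the sizes -/
  B : ι → ℕ
  /-- well-formed instances -/
  wf : ι → Prop
  /-- `s` is a witness for the port `p` -/
  fact : ι → ℕ → S → Prop
  /-- solutions -/
  sol : ι → S → Prop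
  /-- relaxed objects, relative to the facts -/
  good : ι → Fct S → R → Prop
  /-- number of violations -/
  mu : ι → R → ℕ
  /-- the facts known at the start -/
  init : ι → Fct S
  s0 : S
  r0 : R
  relax : ι × Fct S → Bool × R
  red : ι × Fct S × R → Bool × R × ℕ × S
  fin : ι × Fct S × R → Bool × ℕ × S
  pt_np : PT np
  pt_mub : PT mub
  pt_B : PT B
  pt_mu : PT (fun y : ι × R => mu y.1 y.2)
  pt_init : PT init
  pt_relax : PT relax
  pt_red : PT red
  pt_fin : PT fin
  size_fact : ∀ x p s, wf x → fact x p s → tsize s ≤ B x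
  size_sol : ∀ x s, wf x → sol x s → tsize s ≤ B x
  size_good : ∀ x F r, wf x → good x F r → tsize r ≤ B x
  mu_le : ∀ x F r, wf x → good x F r → mu x r ≤ mub x
  init_spec : ∀ x, wf x → (∀ p ∈ init x, p.1 < np x ∧ fact x p.1 p.2) ∧ ((init x).map Prod.fst).Nodup
  relax_spec : ∀ x F, wf x → (∀ p ∈ F, p.1 < np x ∧ fact x p.1 p.2) → (F.map Prod.fst).Nodup →
    (∀ p ∈ init x, p ∈ F) →
    ((relax (x, F)).1 = true → good x F (relax (x, F)).2) ∧
      ((relax (x, F)).1 = false → ¬ ∃ s, sol x s)
  red_spec : ∀ x F r, wf x → (∀ p ∈ F, p.1 < np x ∧ fact x p.1 p.2) → (F.map Prod.fst).Nodup →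
    (∀ p ∈ init x, p ∈ F) → good x F r → 0 < mu x r →
    ((red (x, F, r)).1 = true → good x F (red (x, F, r)).2.1 ∧ mu x (red (x, F, r)).2.1 < mu x r) ∧
      ((red (x, F, r)).1 = false → (red (x, F, r)).2.2.1 < np x ∧
        fact x (red (x, F, r)).2.2.1 (red (x, F, r)).2.2.2 ∧ (red (x, F, r)).2.2.1 ∉ F.map Prod.fst)
  fin_spec : ∀ x F r, wf x → (∀ p ∈ F, p.1 < np x ∧ fact x p.1 p.2) → (F.map Prod.fst).Nodup →
    (∀ p ∈ init x, p ∈ F) → good x F r → mu x r = 0 →
    ((fin (x, F, r)).1 = true → sol x (fin (x, F, r)).2.2) ∧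
      ((fin (x, F, r)).1 = false → (fin (x, F, r)).2.1 < np x ∧
        fact x (fin (x, F, r)).2.1 (fin (x, F, r)).2.2 ∧ (fin (x, F, r)).2.1 ∉ F.map Prod.fst)

namespace SolApi

variable {ι S R : Type} [DEnc ι] [DEnc S] [DEnc R] (A : SolApi ι S R)

/-- state: facts, mode (`0`: call `relax` next, otherwise: `r` is a relaxed object), relaxed object, status (`0` running,
`1` solved, `2` none), solution -/
abbrev Sta (S R : Type) : Type := Fct S × ℕ × R × ℕ × S

/-- one step -/
def step (x : ι) (s : Sta S R) : Sta S R :=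
  let F := s.1
  let m := s.2.1
  let r := s.2.2.1
  let st := s.2.2.2.1
  let w := s.2.2.2.2
  if st = 0 then
    if m = 0 then
      let q := A.relax (x, F)
      bif q.1 then (F, 1, q.2, 0, w) else (F, 0, r, 2, w)
    else if A.mu x r = 0 then
      let q := A.fin (x, F, r)
      bif q.1 then (F, 0, r, 1, q.2.2) else (q.2 :: F, 0, r, 0, w)
    else
      let q := A.red (x, F, r)
      bif q.1 then (F, 1, q.2.1, 0, w) else (q.2.2 :: F, 0, r, 0, w)
  else s

/-- the invariant -/
structure Inv (x : ι) (s : Sta S R) : Prop where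
  fac : ∀ p ∈ s.1, p.1 < A.np x ∧ A.fact x p.1 p.2
  nod : (s.1.map Prod.fst).Nodup
  ini : ∀ p ∈ A.init x, p ∈ s.1
  mle : s.2.1 ≤ 1
  rel : s.2.2.2.1 = 0 → s.2.1 ≠ 0 → A.good x s.1 s.2.2.1
  rsz : tsize s.2.2.1 ≤ A.B x + tsize A.r0
  sta : s.2.2.2.1 = 0 ∨ s.2.2.2.1 = 1 ∨ s.2.2.2.1 = 2
  so1 : s.2.2.2.1 = 1 → A.sol x s.2.2.2.2
  so2 : s.2.2.2.1 = 2 → ¬ ∃ w, A.sol x w
  wsz : tsize s.2.2.2.2 ≤ A.B x + tsize A.s0

/-- the potential -/
def Phi (x : ι) (s : Sta S R) : ℕ :=
  (A.np x - s.1.length) * (A.mub x + 2) + (if s.2.1 = 0 then A.mub x + 1 else A.mu x s.2.2.1)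

theorem len_le {x : ι} {F : Fct S} (h : ∀ p ∈ F, p.1 < A.np x ∧ A.fact x p.1 p.2)
    (hn : (F.map Prod.fst).Nodup) : F.length ≤ A.np x := by
  have h1 : (F.map Prod.fst).toFinset ⊆ Finset.range (A.np x) := by
    intro k hk
    rw [List.mem_toFinset, List.mem_map] at hk
    obtain ⟨p, hp, rfl⟩ := hk
    exact Finset.mem_range.2 (h p hp).1
  have h2 := Finset.card_le_card h1
  rw [List.toFinset_card_of_nodup hn, List.length_map, Finset.card_range] at h2
  exact h2

theorem fac_cons {x : ι} {F : Fct S} {p : ℕ} {w : S} (h : ∀ p ∈ F, p.1 < A.np x ∧ A.fact x p.1 p.2)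
    (h1 : p < A.np x) (h2 : A.fact x p w) : ∀ q ∈ (p, w) :: F, q.1 < A.np x ∧ A.fact x q.1 q.2 := by
  intro q hq
  rcases List.mem_cons.1 hq with rfl | hq
  · exact ⟨h1, h2⟩
  · exact h q hq

omit [DEnc S] in
theorem nod_cons {F : Fct S} {p : ℕ} {w : S} (h : (F.map Prod.fst).Nodup) (hp : p ∉ F.map Prod.fst) :
    (((p, w) :: F).map Prod.fst).Nodup := by
  rw [List.map_cons, List.nodup_cons]
  exact ⟨hp, h⟩

theorem inv_step {x : ι} {s : Sta S R} (hx : A.wf x) (h : A.Inv x s) :
    A.Inv x (A.step x s) ∧ (s.2.2.2.1 = 0 → (A.step x s).2.2.2.1 ≠ 0 ∨ A.Phi x (A.step x s) < A.Phi x s) := by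
  obtain ⟨F, m, r, st, w⟩ := s
  obtain ⟨fac, nod, ini, mle, rel, rsz, sta, so1, so2, wsz⟩ := h
  simp only at fac nod ini mle rel rsz sta so1 so2 wsz
  unfold step
  simp only
  by_cases h0 : st = 0
  · rw [if_pos h0]
    by_cases hm : m = 0
    · rw [if_pos hm]
      obtain ⟨k1, k2⟩ := A.relax_spec x F hx fac nod ini
      revert k1 k2
      generalize A.relax (x, F) = q
      obtain ⟨b, r'⟩ := q
      intro k1 k2
      simp only at k1 k2
      cases b with
      | true =>
        have k := k1 rfl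
        refine ⟨⟨fac, nod, ini, le_rfl, fun _ _ => k, (A.size_good x F r' hx k).trans (Nat.le_add_right _ _),
          Or.inl rfl, fun h => absurd h (by simp), fun h => absurd h (by simp), wsz⟩, fun _ => Or.inr ?_⟩
        simp only [Phi, cond_true, if_pos hm, one_ne_zero, if_false]
        have := A.mu_le x F r' hx k
        omega
      | false =>
        exact ⟨⟨fac, nod, ini, Nat.zero_le _, fun h => absurd h (by simp), rsz, Or.inr (Or.inr rfl),
          fun h => absurd h (by simp), fun _ => k2 rfl, wsz⟩, fun _ => Or.inl (by simp)⟩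
    · rw [if_neg hm]
      have hg := rel h0 hm
      by_cases hu : A.mu x r = 0
      · rw [if_pos hu]
        obtain ⟨k1, k2⟩ := A.fin_spec x F r hx fac nod ini hg hu
        revert k1 k2
        generalize A.fin (x, F, r) = q
        obtain ⟨b, p, w'⟩ := q
        intro k1 k2
        simp only at k1 k2
        cases b with
        | true =>
          have k := k1 rfl
          exact ⟨⟨fac, nod, ini, Nat.zero_le _, fun h => absurd h (by simp), rsz, Or.inr (Or.inl rfl),
            fun _ => k, fun h => absurd h (by simp), (A.size_sol x w' hx k).trans (Nat.le_add_right _ _)⟩,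
            fun _ => Or.inl (by simp)⟩
        | false =>
          obtain ⟨k3, k4, k5⟩ := k2 rfl
          have hf := A.fac_cons fac k3 k4
          have hn := nod_cons (w := w') nod k5
          have hl := A.len_le hf hn
          refine ⟨⟨hf, hn, fun q hq => List.mem_cons_of_mem _ (ini q hq), Nat.zero_le _, fun _ h => absurd rfl h, rsz, Or.inl rfl,
            fun h => absurd h (by simp), fun h => absurd h (by simp), wsz⟩, fun _ => Or.inr ?_⟩
          simp only [Phi, cond_false, if_true, if_neg hm, List.length_cons] at hl ⊢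
          obtain ⟨k, hk⟩ := Nat.exists_eq_add_of_le hl
          have e1 : A.np x - (F.length + 1) = k := by omega
          have e2 : A.np x - F.length = k + 1 := by omega
          rw [e1, e2, Nat.add_mul, Nat.one_mul]
          omega
      · rw [if_neg hu]
        obtain ⟨k1, k2⟩ := A.red_spec x F r hx fac nod ini hg (Nat.pos_of_ne_zero hu)
        revert k1 k2
        generalize A.red (x, F, r) = q
        obtain ⟨b, r', p, w'⟩ := q
        intro k1 k2
        simp only at k1 k2
        cases b with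
        | true =>
          obtain ⟨k3, k4⟩ := k1 rfl
          refine ⟨⟨fac, nod, ini, le_rfl, fun _ _ => k3, (A.size_good x F r' hx k3).trans (Nat.le_add_right _ _),
            Or.inl rfl, fun h => absurd h (by simp), fun h => absurd h (by simp), wsz⟩, fun _ => Or.inr ?_⟩
          simp only [Phi, cond_true, if_neg hm, one_ne_zero, if_false]
          omega
        | false =>
          obtain ⟨k3, k4, k5⟩ := k2 rfl
          have hf := A.fac_cons fac k3 k4
          have hn := nod_cons (w := w') nod k5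
          have hl := A.len_le hf hn
          refine ⟨⟨hf, hn, fun q hq => List.mem_cons_of_mem _ (ini q hq), Nat.zero_le _, fun _ h => absurd rfl h, rsz, Or.inl rfl,
            fun h => absurd h (by simp), fun h => absurd h (by simp), wsz⟩, fun _ => Or.inr ?_⟩
          simp only [Phi, cond_false, if_true, if_neg hm, List.length_cons] at hl ⊢
          obtain ⟨k, hk⟩ := Nat.exists_eq_add_of_le hl
          have e1 : A.np x - (F.length + 1) = k := by omega
          have e2 : A.np x - F.length = k + 1 := by omega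
          rw [e1, e2, Nat.add_mul, Nat.one_mul]
          omega
  · rw [if_neg h0]
    exact ⟨⟨fac, nod, ini, mle, rel, rsz, sta, so1, so2, wsz⟩, fun h => absurd h h0⟩

theorem step_done {x : ι} {s : Sta S R} (h : s.2.2.2.1 ≠ 0) : A.step x s = s := by
  unfold step
  simp only
  rw [if_neg h]

/-- the initial state -/
def start (x : ι) : Sta S R := (A.init x, 0, A.r0, 0, A.s0)

theorem inv_start {x : ι} (hx : A.wf x) : A.Inv x (A.start x) := by
  obtain ⟨h1, h2⟩ := A.init_spec x hx
  exact ⟨h1, h2, fun _ h => h, Nat.zero_le _, fun _ h => absurd rfl h, Nat.le_add_left _ _, Or.inl rfl,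
    fun h => absurd h (by simp [start]), fun h => absurd h (by simp [start]), Nat.le_add_left _ _⟩

theorem inv_iter {x : ι} (hx : A.wf x) (k : ℕ) : A.Inv x ((A.step x)^[k] (A.start x)) ∧
    (((A.step x)^[k] (A.start x)).2.2.2.1 = 0 →
      A.Phi x ((A.step x)^[k] (A.start x)) + k ≤ A.Phi x (A.start x)) := by
  induction k with
  | zero => exact ⟨A.inv_start hx, fun _ => le_rfl⟩
  | succ k ih =>
    rw [Function.iterate_succ_apply']
    obtain ⟨h1, h2⟩ := A.inv_step hx ih.1
    refine ⟨h1, fun h3 => ?_⟩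
    by_cases h4 : ((A.step x)^[k] (A.start x)).2.2.2.1 = 0
    · rcases h2 h4 with h5 | h5
      · exact absurd h3 h5
      · have := ih.2 h4
        omega
    · exfalso
      apply h4
      rw [A.step_done h4] at h3
      exact h3

/-- number of steps -/
def steps (x : ι) : ℕ := (A.np x + 1) * (A.mub x + 2)

theorem fin_status {x : ι} (hx : A.wf x) :
    ((A.step x)^[A.steps x] (A.start x)).2.2.2.1 ≠ 0 := by
  intro h
  have h1 := (A.inv_iter hx (A.steps x)).2 h
  have h2 : A.Phi x (A.start x) < A.steps x := by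
    unfold Phi steps start
    simp only [if_true]
    have h3 : (A.np x - (A.init x).length) * (A.mub x + 2) ≤ A.np x * (A.mub x + 2) :=
      Nat.mul_le_mul_right _ (Nat.sub_le _ _)
    rw [Nat.add_mul]
    omega
  omega

/-- bound of the size of the state -/
def Bs (x : ι) : ℕ :=
  A.np x * (2 * A.np x + A.B x + 3) + (A.B x + tsize A.r0) + (A.B x + tsize A.s0) + 20

theorem size_inv {x : ι} (hx : A.wf x) {s : Sta S R} (h : A.Inv x s) : tsize s ≤ A.Bs x := by
  obtain ⟨F, m, r, st, w⟩ := s
  obtain ⟨fac, nod, ini, mle, rel, rsz, sta, so1, so2, wsz⟩ := h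
  simp only at fac nod ini mle rel rsz sta so1 so2 wsz
  have h1 : tsize F ≤ F.length * ((2 * A.np x + A.B x + 2) + 1) + 1 := by
    refine tsize_le_of_forall fun p hp => ?_
    obtain ⟨h1, h2⟩ := fac p hp
    have h3 := A.size_fact x _ _ hx h2
    obtain ⟨p, w'⟩ := p
    simp only at h1 h3
    rw [tsize_pair, tsize_nat]
    omega
  have h2 : F.length * ((2 * A.np x + A.B x + 2) + 1) ≤ A.np x * (2 * A.np x + A.B x + 3) :=
    Nat.mul_le_mul_right _ (A.len_le fac nod)
  have h3 : st ≤ 2 := by omega
  simp only [tsize_pair, tsize_nat, Bs]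
  omega

/-- **The solver.** -/
def solve (x : ι) : Bool × S :=
  let s := (gstep (A.Bs x) (A.step x))^[A.steps x] (A.start x)
  (decide (s.2.2.2.1 = 1), s.2.2.2.2)

/-- **The solver is correct.** -/
theorem solve_spec {x : ι} (hx : A.wf x) :
    ((A.solve x).1 = true → A.sol x (A.solve x).2) ∧
      ((A.solve x).1 = false → ¬ ∃ s, A.sol x s) := by
  have h1 : (gstep (A.Bs x) (A.step x))^[A.steps x] (A.start x) = (A.step x)^[A.steps x] (A.start x) :=
    gstep_iter fun i _ => A.size_inv hx (A.inv_iter hx i).1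
  unfold solve
  simp only
  rw [h1]
  have h2 := (A.inv_iter hx (A.steps x)).1
  have h3 := A.fin_status hx
  constructor
  · intro h
    exact h2.so1 (by simpa using h)
  · intro h
    have h4 : ((A.step x)^[A.steps x] (A.start x)).2.2.2.1 ≠ 1 := by simpa using h
    rcases h2.sta with h5 | h5 | h5
    · exact absurd h5 h3
    · exact absurd h5 h4
    · exact h2.so2 h5

theorem pt_step : PT (fun y : ι × Sta S R => A.step y.1 y.2) := by
  have hx : PT (fun y : ι × Sta S R => y.1) := PT.fst
  have hF : PT (fun y : ι × Sta S R => y.2.1) := PT.snd.p1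
  have hm : PT (fun y : ι × Sta S R => y.2.2.1) := PT.snd.p2.p1
  have hr : PT (fun y : ι × Sta S R => y.2.2.2.1) := PT.snd.p2.p2.p1
  have hst : PT (fun y : ι × Sta S R => y.2.2.2.2.1) := PT.snd.p2.p2.p2.p1
  have hw : PT (fun y : ι × Sta S R => y.2.2.2.2.2) := PT.snd.p2.p2.p2.p2
  have hrel : PT (fun y : ι × Sta S R => A.relax (y.1, y.2.1)) := A.pt_relax.comp (PT.pair hx hF)
  have hred : PT (fun y : ι × Sta S R => A.red (y.1, y.2.1, y.2.2.2.1)) :=
    A.pt_red.comp (PT.pair hx (PT.pair hF hr))
  have hfin : PT (fun y : ι × Sta S R => A.fin (y.1, y.2.1, y.2.2.2.1)) :=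
    A.pt_fin.comp (PT.pair hx (PT.pair hF hr))
  have hmu : PT (fun y : ι × Sta S R => A.mu y.1 y.2.2.2.1) := A.pt_mu.comp (PT.pair hx hr)
  have c0 : ∀ k : ℕ, PT (fun _ : ι × Sta S R => k) := fun k => PT.const k
  unfold step
  refine PT.ite (PT.neq hst (c0 0)) ?_ PT.snd
  refine PT.ite (PT.neq hm (c0 0)) ?_ ?_
  · exact PT.cond hrel.p1 (PT.pair hF (PT.pair (c0 1) (PT.pair hrel.p2 (PT.pair (c0 0) hw))))
      (PT.pair hF (PT.pair (c0 0) (PT.pair hr (PT.pair (c0 2) hw))))
  · refine PT.ite (PT.neq hmu (c0 0)) ?_ ?_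
    · exact PT.cond hfin.p1 (PT.pair hF (PT.pair (c0 0) (PT.pair hr (PT.pair (c0 1) hfin.p2.p2))))
        (PT.pair (PT.cons hfin.p2 hF) (PT.pair (c0 0) (PT.pair hr (PT.pair (c0 0) hw))))
    · exact PT.cond hred.p1 (PT.pair hF (PT.pair (c0 1) (PT.pair hred.p2.p1 (PT.pair (c0 0) hw))))
        (PT.pair (PT.cons hred.p2.p2 hF) (PT.pair (c0 0) (PT.pair hr (PT.pair (c0 0) hw))))

/-- **The solver runs in polynomial time.** -/
theorem pt_solve : PT A.solve := by
  have hB : PT A.Bs := by
    unfold Bs
    exact PT.nadd (PT.nadd (PT.nadd (PT.nmul A.pt_np (PT.nadd (PT.nadd (PT.nmul (PT.const 2) A.pt_np) A.pt_B)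
      (PT.const 3))) (PT.nadd A.pt_B (PT.const _))) (PT.nadd A.pt_B (PT.const _))) (PT.const 20)
  have hs : PT A.steps := by
    unfold steps
    exact PT.nmul (PT.nadd A.pt_np (PT.const 1)) (PT.nadd A.pt_mub (PT.const 2))
  have hi : PT A.start := by
    unfold start
    exact PT.pair A.pt_init (PT.const (0, A.r0, 0, A.s0))
  have h := PT.iterG hs hB hi A.pt_step
  unfold solve
  exact PT.pair (PT.neq h.p2.p2.p2.p1 (PT.const 1)) h.p2.p2.p2.p2

end SolApi

end Pool.Agent.PF4

end
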