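import Pool.Agent.PFN.M01
import Pool.Agent.PFN.M03
import Pool.Agent.PFN.M05

section -- file Lib/helper60/NPLib

/-!
Tools for membership in NP, and the inclusion of P in NP.
-/

set_option autoImplicit false

namespace Pool.Agent.Lib.helper60

open Turing Computability

/-! ### decoding pairs -/

/-! ### machines for predicates -/

/-- a polynomial-time predicate on raw strings -/
theorem PT.decider {α : Type} {ea : α → List Bool} {f : α → Bool} {F : List Bool → Bool}
    (hF : PT F) (h : ∀ a, F (ea a) = f a) :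
    Nonempty (TM2ComputableInPolyTime ea encodeBool f) :=
  PT.toTM2 (F := fun w => [F w]) (PT.cons hF (PT.const [])) (fun a => by rw [h a]; rfl)

end Pool.Agent.Lib.helper60

end

section -- file TFC/R2

/-!
Lemma 6.3: units of a cluster with two centres.
-/

set_option autoImplicit false
set_option linter.unusedSectionVars false

namespace Pool.Agent.TFC

open Finset
open scoped Pointwise

variable {V : Type*} [DecidableEq V]

/-- indicator vector -/
private def r2ind (S : Finset V) : V → ℤ := ∑ l ∈ S, ev l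

private lemma r2ind_apply (S : Finset V) (v : V) : r2ind S v = if v ∈ S then 1 else 0 := by
  simp only [r2ind, Finset.sum_apply, ev_apply]
  rw [Finset.sum_ite_eq]

/-- the star at `w` with leaves `A` -/
private def r2st (w : V) (A : Finset V) : Finset (Sym2 V) := A.image (fun l => s(w, l))

private lemma r2_mem_st {w x y : V} {A : Finset V} :
    s(x, y) ∈ r2st w A ↔ (x = w ∧ y ∈ A) ∨ (y = w ∧ x ∈ A) := by
  simp only [r2st, mem_image, Sym2.eq_iff]
  constructor
  · rintro ⟨a, ha, (⟨rfl, rfl⟩ | ⟨rfl, rfl⟩)⟩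
    · exact Or.inl ⟨rfl, ha⟩
    · exact Or.inr ⟨rfl, ha⟩
  · rintro (⟨rfl, h⟩ | ⟨rfl, h⟩)
    · exact ⟨y, h, Or.inl ⟨rfl, rfl⟩⟩
    · exact ⟨x, h, Or.inr ⟨rfl, rfl⟩⟩

private lemma r2_dv_st {w : V} {A : Finset V} (hw : w ∉ A) :
    dv (r2st w A) = r2ind A + (#A : ℤ) • ev w := by
  induction A using Finset.induction_on with
  | empty => funext v; simp [r2st, r2ind, dv, dg]
  | insert a A ha ih =>
    rw [mem_insert, not_or] at hw
    have h1 : r2st w (insert a A) = insert s(w, a) (r2st w A) := by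
      simp [r2st, image_insert]
    rw [h1, dv_insert hw.1, ih hw.2, card_insert_of_notMem ha]
    · rw [r2ind, r2ind, Finset.sum_insert ha]
      push_cast
      rw [add_smul, one_smul]
      abel
    · rw [r2_mem_st]
      rintro (⟨-, h⟩ | ⟨h, -⟩)
      · exact ha h
      · exact hw.1 h.symm

private lemma r2_dv_union {s t : Finset (Sym2 V)} (h : Disjoint s t) :
    dv (s ∪ t) = dv s + dv t := by
  funext v
  simp only [dv, dg, Pi.add_apply]
  rw [filter_union, card_union_of_disjoint (disjoint_filter_filter h)]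
  push_cast
  rfl

/-- the degree vector of the star at `w` with leaves `A` and the star at `w'` with leaves `B` -/
private def r2K (w w' : V) (A B : Finset V) : V → ℤ :=
  r2ind A + r2ind B + (#A : ℤ) • ev w + (#B : ℤ) • ev w'

private lemma r2_dv {w w' : V} {L A B : Finset V} (h1 : w ≠ w') (h2 : w ∉ L) (h3 : w' ∉ L)
    (hA : A ⊆ L) (hB : B ⊆ L) : dv (r2st w A ∪ r2st w' B) = r2K w w' A B := by
  have hd : Disjoint (r2st w A) (r2st w' B) := by
    rw [Finset.disjoint_left]
    intro e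
    induction e using Sym2.ind with
    | _ x y =>
      rw [r2_mem_st, r2_mem_st]
      rintro (⟨rfl, h⟩ | ⟨rfl, h⟩) (⟨h4, h5⟩ | ⟨h4, h5⟩)
      · exact h1 h4
      · exact h3 (h4 ▸ hA h)
      · exact h3 (h4 ▸ hA h)
      · exact h1 h4
  rw [r2_dv_union hd, r2_dv_st (fun h => h2 (hA h)), r2_dv_st (fun h => h3 (hB h)), r2K]
  abel

private lemma r2K_w {w w' : V} {L A B : Finset V} (h1 : w ≠ w') (h2 : w ∉ L)
    (hA : A ⊆ L) (hB : B ⊆ L) : r2K w w' A B w = #A := by
  have h4 : w ∉ A := fun h => h2 (hA h)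
  have h5 : w ∉ B := fun h => h2 (hB h)
  simp [r2K, r2ind_apply, h4, h5, ev_apply, h1]

private lemma r2K_w' {w w' : V} {L A B : Finset V} (h1 : w ≠ w') (h2 : w' ∉ L)
    (hA : A ⊆ L) (hB : B ⊆ L) : r2K w w' A B w' = #B := by
  have h4 : w' ∉ A := fun h => h2 (hA h)
  have h5 : w' ∉ B := fun h => h2 (hB h)
  simp [r2K, r2ind_apply, h4, h5, ev_apply, h1.symm]

private lemma r2K_other {w w' v : V} {A B : Finset V} (h1 : v ≠ w) (h2 : v ≠ w') :
    r2K w w' A B v ≤ 2 := by
  simp only [r2K, Pi.add_apply, r2ind_apply, Pi.smul_apply, ev_apply, h1, h2, if_false, smul_zero,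
    add_zero]
  split_ifs <;> norm_num

private lemma r2K_eraseA {w w' t : V} {A B : Finset V} (ht : t ∈ A) :
    r2K w w' A B = r2K w w' (A.erase t) B + (ev w + ev t) := by
  have h1 : r2ind A = r2ind (A.erase t) + ev t := by
    rw [r2ind, r2ind, Finset.sum_erase_add _ _ ht]
  have h2 : ((#A : ℕ) : ℤ) = (#(A.erase t) : ℤ) + 1 := by
    rw [← card_erase_add_one ht]; push_cast; rfl
  rw [r2K, r2K, h1, h2, add_smul, one_smul]
  abel

private lemma r2K_eraseB {w w' t : V} {A B : Finset V} (ht : t ∈ B) :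
    r2K w w' A B = r2K w w' A (B.erase t) + (ev w' + ev t) := by
  have h1 : r2ind B = r2ind (B.erase t) + ev t := by
    rw [r2ind, r2ind, Finset.sum_erase_add _ _ ht]
  have h2 : ((#B : ℕ) : ℤ) = (#(B.erase t) : ℤ) + 1 := by
    rw [← card_erase_add_one ht]; push_cast; rfl
  rw [r2K, r2K, h1, h2, add_smul, one_smul]
  abel

private lemma r2K_insA {w w' t : V} {A B : Finset V} (ht : t ∉ A) :
    r2K w w' A B + (ev w + ev t) = r2K w w' (insert t A) B := by
  rw [r2K_eraseA (mem_insert_self t A), erase_insert ht]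

private lemma r2K_insB {w w' t : V} {A B : Finset V} (ht : t ∉ B) :
    r2K w w' A B + (ev w' + ev t) = r2K w w' A (insert t B) := by
  rw [r2K_eraseB (mem_insert_self t B), erase_insert ht]

private lemma r2_mem_JS {w w' : V} {L A B : Finset V} (h1 : w ≠ w') (h2 : w ∉ L) (h3 : w' ∉ L)
    (hA : A ⊆ L) (hB : B ⊆ L) (cA : #A ≤ 2) (cB : #B ≤ 2) (cAB : #(A ∩ B) ≤ 1) :
    r2K w w' A B ∈ JS (Clu.k2 w w' L).edges none4 := by
  refine ⟨r2st w A ∪ r2st w' B, ?_, ?_, ?_, (r2_dv h1 h2 h3 hA hB).symm⟩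
  · exact union_subset_union (image_subset_image hA) (image_subset_image hB)
  · refine M2.of_dv ?_ ?_
    · intro e he
      rcases mem_union.mp he with he | he
      · obtain ⟨l, hl, rfl⟩ := mem_image.mp he
        intro h; rw [Sym2.mk_isDiag_iff] at h; exact h2 (h ▸ hA hl)
      · obtain ⟨l, hl, rfl⟩ := mem_image.mp he
        intro h; rw [Sym2.mk_isDiag_iff] at h; exact h3 (h ▸ hB hl)
    · intro v
      rw [r2_dv h1 h2 h3 hA hB]
      by_cases hw : v = w
      · subst hw; rw [r2K_w h1 h2 hA hB]; exact_mod_cast cA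
      by_cases hw' : v = w'
      · subst hw'; rw [r2K_w' h1 h3 hA hB]; exact_mod_cast cB
      exact r2K_other hw hw'
  · intro a b c d h
    have hm : ∀ {x y : V}, s(x, y) ∈ r2st w A ∪ r2st w' B →
        (x = w ∧ y ∈ A) ∨ (y = w ∧ x ∈ A) ∨ (x = w' ∧ y ∈ B) ∨ (y = w' ∧ x ∈ B) := by
      intro x y hxy
      rw [mem_union, r2_mem_st, r2_mem_st] at hxy
      tauto
    have hAw : w ∉ A := fun h => h2 (hA h)
    have hAw' : w' ∉ A := fun h => h3 (hA h)
    have hBw : w ∉ B := fun h => h2 (hB h)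
    have hBw' : w' ∉ B := fun h => h3 (hB h)
    have hcard : ∀ x y : V, x ≠ y → x ∈ A → x ∈ B → y ∈ A → y ∈ B → False := by
      intro x y hxy h4 h5 h6 h7
      have := card_le_one.mp cAB x (mem_inter.mpr ⟨h4, h5⟩) y (mem_inter.mpr ⟨h6, h7⟩)
      exact hxy this
    have hac := h.ac
    have hbd := h.bd
    -- a square `x y x' y'` with a centre in first position
    have key : ∀ {a b c d : V}, a ≠ c → b ≠ d →
        (a = w ∧ b ∈ A) ∨ (a = w' ∧ b ∈ B) →
        s(b, c) ∈ r2st w A ∪ r2st w' B → s(c, d) ∈ r2st w A ∪ r2st w' B →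
        s(d, a) ∈ r2st w A ∪ r2st w' B → False := by
      intro a b c d hac hbd hab hbc hcd hda
      rcases hab with ⟨rfl, hb⟩ | ⟨rfl, hb⟩
      · rcases hm hbc with ⟨rfl, h5⟩ | ⟨rfl, h5⟩ | ⟨rfl, h5⟩ | ⟨rfl, h5⟩
        · exact hAw hb
        · exact hac rfl
        · exact hAw' hb
        · rcases hm hda with ⟨rfl, h6⟩ | ⟨-, h6⟩ | ⟨rfl, h6⟩ | ⟨h, h6⟩
          · exact hAw h6
          · rcases hm hcd with ⟨h, h7⟩ | ⟨rfl, h7⟩ | ⟨-, h7⟩ | ⟨rfl, h7⟩
            · exact h1 h.symm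
            · exact hAw h6
            · exact hcard b d hbd hb h5 h6 h7
            · exact hAw' h6
          · exact hBw h6
          · exact h1 h
      · rcases hm hbc with ⟨rfl, h5⟩ | ⟨rfl, h5⟩ | ⟨rfl, h5⟩ | ⟨rfl, h5⟩
        · exact hBw hb
        · rcases hm hda with ⟨rfl, h6⟩ | ⟨h, h6⟩ | ⟨rfl, h6⟩ | ⟨-, h6⟩
          · exact hAw' h6
          · exact h1 h.symm
          · exact hBw' h6
          · rcases hm hcd with ⟨-, h7⟩ | ⟨rfl, h7⟩ | ⟨h, h7⟩ | ⟨rfl, h7⟩
            · exact hcard b d hbd h5 hb h7 h6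
            · exact hBw h6
            · exact h1 h
            · exact hBw' h6
        · exact hBw' hb
        · exact hac rfl
    rcases hm h.ab with ⟨h4, h5⟩ | ⟨h4, h5⟩ | ⟨h4, h5⟩ | ⟨h4, h5⟩
    · exact key h.ac h.bd (Or.inl ⟨h4, h5⟩) h.bc h.cd h.da
    · have hr := h.ref.rot.rot
      exact key hr.ac hr.bd (Or.inl ⟨h4, h5⟩) hr.bc hr.cd hr.da
    · exact key h.ac h.bd (Or.inr ⟨h4, h5⟩) h.bc h.cd h.da
    · have hr := h.ref.rot.rot
      exact key hr.ac hr.bd (Or.inr ⟨h4, h5⟩) hr.bc hr.cd hr.da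

private lemma r2_of_mem_JS {w w' : V} {L : Finset V} (h1 : w ≠ w') (h2 : w ∉ L) (h3 : w' ∉ L)
    {k : V → ℤ} (hk : k ∈ JS (Clu.k2 w w' L).edges none4) :
    ∃ A B : Finset V, A ⊆ L ∧ B ⊆ L ∧ #A ≤ 2 ∧ #B ≤ 2 ∧ #(A ∩ B) ≤ 1 ∧ k = r2K w w' A B := by
  obtain ⟨z, hz, hM, hg, rfl⟩ := hk
  set A := L.filter (fun l => s(w, l) ∈ z) with hA
  set B := L.filter (fun l => s(w', l) ∈ z) with hB
  have hAL : A ⊆ L := filter_subset _ _
  have hBL : B ⊆ L := filter_subset _ _
  have hzz : z = r2st w A ∪ r2st w' B := by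
    ext e
    constructor
    · intro he
      have h4 := hz he
      simp only [Clu.edges, mem_union, mem_image] at h4
      rcases h4 with ⟨l, hl, rfl⟩ | ⟨l, hl, rfl⟩
      · exact mem_union_left _ (mem_image.mpr ⟨l, mem_filter.mpr ⟨hl, he⟩, rfl⟩)
      · exact mem_union_right _ (mem_image.mpr ⟨l, mem_filter.mpr ⟨hl, he⟩, rfl⟩)
    · intro he
      rcases mem_union.mp he with he | he
      · obtain ⟨l, hl, rfl⟩ := mem_image.mp he
        exact (mem_filter.mp hl).2
      · obtain ⟨l, hl, rfl⟩ := mem_image.mp he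
        exact (mem_filter.mp hl).2
  have hdv : dv z = r2K w w' A B := by
    rw [← r2_dv h1 h2 h3 hAL hBL, ← hzz]
  refine ⟨A, B, hAL, hBL, ?_, ?_, ?_, hdv⟩
  · have h4 := congrFun hdv w
    rw [r2K_w h1 h2 hAL hBL, dv_apply] at h4
    have h5 := hM.le w
    have : dg z w = #A := by exact_mod_cast h4
    omega
  · have h4 := congrFun hdv w'
    rw [r2K_w' h1 h3 hAL hBL, dv_apply] at h4
    have h5 := hM.le w'
    have : dg z w' = #B := by exact_mod_cast h4
    omega
  · by_contra hcon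
    push Not at hcon
    obtain ⟨a, ha, b, hb, hab⟩ := one_lt_card.mp hcon
    rw [mem_inter] at ha hb
    have a1 := (mem_filter.mp ha.1).2
    have a2 := (mem_filter.mp ha.2).2
    have b1 := (mem_filter.mp hb.1).2
    have b2 := (mem_filter.mp hb.2).2
    exact hg w a w' b ⟨h1, hab, a1, msw a2, b2, msw b1⟩

private lemma r2_list_mem {w w' : V} : ∀ (l : List V), l.Nodup → ∀ P Q : Finset V,
    (∀ x ∈ P, x ∈ l) → (∀ x ∈ Q, x ∈ l) → Disjoint P Q →
    r2K w w' P Q ∈ sumU (l.map (fun l => (({l} : Finset V), ({w, w'} : Finset V)))) := by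
  intro l
  induction l with
  | nil =>
    intro _ P Q hP hQ _
    have h1 : P = ∅ := by
      rw [eq_empty_iff_forall_notMem]; intro x hx; simpa using hP x hx
    have h2 : Q = ∅ := by
      rw [eq_empty_iff_forall_notMem]; intro x hx; simpa using hQ x hx
    subst h1 h2
    simp [sumU, r2K, r2ind]
  | cons a l ih =>
    intro hn P Q hP hQ hd
    rw [List.nodup_cons] at hn
    rw [List.map_cons, sumU]
    by_cases haP : a ∈ P
    · have haQ : a ∉ Q := Finset.disjoint_left.mp hd haP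
      rw [r2K_eraseA haP, add_comm (r2K w w' (P.erase a) Q)]
      refine Set.add_mem_add ?_ ?_
      · refine Or.inr ⟨a, mem_singleton_self a, w, by simp, add_comm _ _⟩
      · refine ih hn.2 _ _ ?_ ?_ (hd.mono_left (erase_subset _ _))
        · intro x hx
          rw [mem_erase] at hx
          exact (List.mem_cons.mp (hP x hx.2)).resolve_left hx.1
        · intro x hx
          refine (List.mem_cons.mp (hQ x hx)).resolve_left ?_
          rintro rfl; exact haQ hx
    · by_cases haQ : a ∈ Q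
      · rw [r2K_eraseB haQ, add_comm (r2K w w' P (Q.erase a))]
        refine Set.add_mem_add ?_ ?_
        · refine Or.inr ⟨a, mem_singleton_self a, w', by simp, add_comm _ _⟩
        · refine ih hn.2 _ _ ?_ ?_ (hd.mono_right (erase_subset _ _))
          · intro x hx
            refine (List.mem_cons.mp (hP x hx)).resolve_left ?_
            rintro rfl; exact haP hx
          · intro x hx
            rw [mem_erase] at hx
            exact (List.mem_cons.mp (hQ x hx.2)).resolve_left hx.1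
      · rw [← zero_add (r2K w w' P Q)]
        refine Set.add_mem_add (Or.inl rfl) ?_
        refine ih hn.2 _ _ ?_ ?_ hd
        · intro x hx
          refine (List.mem_cons.mp (hP x hx)).resolve_left ?_
          rintro rfl; exact haP hx
        · intro x hx
          refine (List.mem_cons.mp (hQ x hx)).resolve_left ?_
          rintro rfl; exact haQ hx

private lemma r2_of_list_mem {w w' : V} : ∀ (l : List V), l.Nodup → ∀ k : V → ℤ,
    k ∈ sumU (l.map (fun l => (({l} : Finset V), ({w, w'} : Finset V)))) →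
    ∃ P Q : Finset V, (∀ x ∈ P, x ∈ l) ∧ (∀ x ∈ Q, x ∈ l) ∧ Disjoint P Q ∧ k = r2K w w' P Q := by
  intro l
  induction l with
  | nil =>
    intro _ k hk
    refine ⟨∅, ∅, by simp, by simp, by simp, ?_⟩
    rw [List.map_nil, sumU, Set.mem_singleton_iff] at hk
    simp [hk, r2K, r2ind]
  | cons a l ih =>
    intro hn k hk
    rw [List.nodup_cons] at hn
    rw [List.map_cons, sumU] at hk
    obtain ⟨u, hu, t, ht, rfl⟩ := Set.mem_add.mp hk
    obtain ⟨P, Q, hP, hQ, hd, rfl⟩ := ih hn.2 t ht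
    have haP : a ∉ P := fun h => hn.1 (hP a h)
    have haQ : a ∉ Q := fun h => hn.1 (hQ a h)
    rcases hu with rfl | ⟨s, hs, t, ht', rfl⟩
    · refine ⟨P, Q, fun x hx => List.mem_cons_of_mem _ (hP x hx),
        fun x hx => List.mem_cons_of_mem _ (hQ x hx), hd, by rw [zero_add]⟩
    · have hs' : s = a := mem_singleton.mp hs
      subst hs'
      have ht'' : t = w ∨ t = w' := by simpa using ht'
      rcases ht'' with rfl | rfl
      · refine ⟨insert s P, Q, ?_, fun x hx => List.mem_cons_of_mem _ (hQ x hx), ?_, ?_⟩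
        · intro x hx
          rcases mem_insert.mp hx with rfl | hx
          · exact List.mem_cons_self
          · exact List.mem_cons_of_mem _ (hP x hx)
        · rw [disjoint_insert_left]; exact ⟨haQ, hd⟩
        · rw [← r2K_insA haP]; abel
      · refine ⟨P, insert s Q, fun x hx => List.mem_cons_of_mem _ (hP x hx), ?_, ?_, ?_⟩
        · intro x hx
          rcases mem_insert.mp hx with rfl | hx
          · exact List.mem_cons_self
          · exact List.mem_cons_of_mem _ (hQ x hx)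
        · rw [disjoint_insert_right]; exact ⟨haP, hd⟩
        · rw [← r2K_insB haQ]; abel

private lemma r2_mem_units {w w' c : V} {L P Q : Finset V} {u1 u2 : V → ℤ}
    (hP : P ⊆ L.erase c) (hQ : Q ⊆ L.erase c) (hd : Disjoint P Q)
    (h1 : u1 = 0 ∨ ∃ t ∈ L, u1 = ev w + ev t) (h2 : u2 = 0 ∨ u2 = ev w' + ev c) :
    r2K w w' P Q + u1 + u2 ∈ sumU (CC.k2 w w' c L).units := by
  rw [CC.units, sumU_append, add_assoc]
  refine Set.add_mem_add ?_ ?_
  · refine r2_list_mem _ (nodup_toList _) P Q ?_ ?_ hd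
    · intro x hx; rw [mem_toList]; exact hP hx
    · intro x hx; rw [mem_toList]; exact hQ hx
  · rw [sumU, sumU, sumU]
    refine Set.add_mem_add ?_ ?_
    · rcases h1 with rfl | ⟨t, ht, rfl⟩
      · exact Or.inl rfl
      · exact Or.inr ⟨w, mem_singleton_self w, t, ht, rfl⟩
    · rw [← add_zero u2]
      refine Set.add_mem_add ?_ (Set.mem_singleton _)
      rcases h2 with rfl | rfl
      · exact Or.inl rfl
      · exact Or.inr ⟨w', mem_singleton_self w', c, mem_singleton_self c, rfl⟩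

private lemma r2_of_mem_units {w w' c : V} {L : Finset V} {k : V → ℤ}
    (hk : k ∈ sumU (CC.k2 w w' c L).units) :
    ∃ (P Q : Finset V) (u1 u2 : V → ℤ), P ⊆ L.erase c ∧ Q ⊆ L.erase c ∧ Disjoint P Q ∧
      (u1 = 0 ∨ ∃ t ∈ L, u1 = ev w + ev t) ∧ (u2 = 0 ∨ u2 = ev w' + ev c) ∧
      k = r2K w w' P Q + u1 + u2 := by
  rw [CC.units, sumU_append] at hk
  obtain ⟨a, ha, b, hb, rfl⟩ := Set.mem_add.mp hk
  obtain ⟨P, Q, hP, hQ, hd, rfl⟩ := r2_of_list_mem _ (nodup_toList _) a ha
  rw [sumU, sumU, sumU] at hb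
  obtain ⟨u1, hu1, r, hr, rfl⟩ := Set.mem_add.mp hb
  obtain ⟨u2, hu2, z, hz, rfl⟩ := Set.mem_add.mp hr
  rw [Set.mem_singleton_iff] at hz
  subst hz
  refine ⟨P, Q, u1, u2, ?_, ?_, hd, ?_, ?_, ?_⟩
  · intro x hx; exact mem_toList.mp (hP x hx)
  · intro x hx; exact mem_toList.mp (hQ x hx)
  · rcases hu1 with rfl | ⟨s, hs, t, ht, rfl⟩
    · exact Or.inl rfl
    · rw [mem_singleton] at hs
      subst hs
      exact Or.inr ⟨t, ht, rfl⟩
  · rcases hu2 with rfl | ⟨s, hs, t, ht, rfl⟩
    · exact Or.inl rfl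
    · rw [mem_singleton] at hs ht
      subst hs ht
      exact Or.inr rfl
  · rw [add_zero]; abel

theorem JS_subset_units_k2 {w w' c : V} {L : Finset V} (hv : (CC.k2 w w' c L).Valid) :
    JS (CC.k2 w w' c L).clu.edges none4 ⊆ sumU (CC.k2 w w' c L).units := by
  obtain ⟨h1, h2, h3, -, hc⟩ := hv
  intro k hk
  obtain ⟨A, B, hA, hB, cA, cB, cAB, rfl⟩ := r2_of_mem_JS h1 h2 h3 hk
  have hAc : A.erase c ⊆ L.erase c := erase_subset_erase c hA
  have hBc : B.erase c ⊆ L.erase c := erase_subset_erase c hB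
  -- the part of `B` at `c`
  have hBB : ∃ u2 : V → ℤ, (u2 = 0 ∨ u2 = ev w' + ev c) ∧
      ∀ P : Finset V, r2K w w' P B = r2K w w' P (B.erase c) + u2 := by
    by_cases hcB : c ∈ B
    · exact ⟨_, Or.inr rfl, fun P => r2K_eraseB hcB⟩
    · exact ⟨0, Or.inl rfl, fun P => by rw [erase_eq_of_notMem hcB, add_zero]⟩
  obtain ⟨u2, hu2, hB2⟩ := hBB
  by_cases hcA : c ∈ A
  · by_cases hcB : c ∈ B
    · -- both
      have hd : Disjoint (A.erase c) (B.erase c) := by
        rw [Finset.disjoint_left]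
        intro x hx hx'
        rw [mem_erase] at hx hx'
        exact hx.1 (card_le_one.mp cAB x (mem_inter.mpr ⟨hx.2, hx'.2⟩) c
          (mem_inter.mpr ⟨hcA, hcB⟩))
      rw [r2K_eraseA hcA, hB2]
      have := r2_mem_units hAc hBc hd (u1 := ev w + ev c) (u2 := u2)
        (Or.inr ⟨c, hc, rfl⟩) hu2
      convert this using 1
      abel
    · have hBL : B ⊆ L.erase c := by
        intro x hx
        rw [mem_erase]
        exact ⟨fun h => hcB (h ▸ hx), hB hx⟩
      by_cases he : A ∩ B = ∅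
      · have hd : Disjoint (A.erase c) B :=
          (disjoint_iff_inter_eq_empty.mpr he).mono_left (erase_subset _ _)
        rw [r2K_eraseA hcA]
        have := r2_mem_units hAc hBL hd (u1 := ev w + ev c) (u2 := 0)
          (Or.inr ⟨c, hc, rfl⟩) (Or.inl rfl) (w := w) (w' := w')
        rwa [add_zero] at this
      · obtain ⟨l, hl⟩ := nonempty_iff_ne_empty.mpr he
        rw [mem_inter] at hl
        have hlc : l ≠ c := fun h => hcB (h ▸ hl.2)
        have hAl : A.erase c = {l} := by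
          have h5 : l ∈ A.erase c := mem_erase.mpr ⟨hlc, hl.1⟩
          have h6 : #(A.erase c) ≤ 1 := by
            have := card_erase_add_one hcA
            omega
          exact eq_singleton_iff_unique_mem.mpr ⟨h5, fun x hx => card_le_one.mp h6 x hx l h5⟩
        have hd : Disjoint ({l} : Finset V) (B.erase l) := by simp
        have hBl : B.erase l ⊆ L.erase c := (erase_subset _ _).trans hBL
        have hll : ({l} : Finset V) ⊆ L.erase c := by
          rw [← hAl]; exact hAc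
        have := r2_mem_units hll hBl hd (u1 := ev w + ev l) (u2 := ev w' + ev c)
          (Or.inr ⟨l, hA hl.1, rfl⟩) (Or.inr rfl) (w := w) (w' := w')
        rw [r2K_eraseA hcA, hAl, r2K_eraseB hl.2]
        convert this using 1
        abel
  · have hAL : A ⊆ L.erase c := by
      intro x hx
      rw [mem_erase]
      exact ⟨fun h => hcA (h ▸ hx), hA hx⟩
    by_cases he : A ∩ B = ∅
    · have hd : Disjoint A (B.erase c) :=
        (disjoint_iff_inter_eq_empty.mpr he).mono_right (erase_subset _ _)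
      have := r2_mem_units (w := w) hAL hBc hd (u1 := 0) (u2 := u2) (Or.inl rfl) hu2
      rw [hB2]
      rwa [add_zero] at this
    · obtain ⟨t, ht⟩ := nonempty_iff_ne_empty.mpr he
      have ht' := mem_inter.mp ht
      have hd : Disjoint (A.erase t) (B.erase c) := by
        rw [Finset.disjoint_left]
        intro x hx hx'
        rw [mem_erase] at hx hx'
        exact hx.1 (card_le_one.mp cAB x (mem_inter.mpr ⟨hx.2, hx'.2⟩) t ht)
      have := r2_mem_units ((erase_subset t A).trans hAL) hBc hd (u1 := ev w + ev t) (u2 := u2)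
        (Or.inr ⟨t, hA ht'.1, rfl⟩) hu2
      rw [r2K_eraseA ht'.1, hB2]
      convert this using 1
      abel

theorem units_k2_le {w w' c : V} {L : Finset V} (hv : (CC.k2 w w' c L).Valid) {k : V → ℤ}
    (hk : k ∈ sumU (CC.k2 w w' c L).units) (h2 : ∀ v, k v ≤ 2) :
    k ∈ JS (CC.k2 w w' c L).clu.edges none4 ∨ ∃ l ∈ L, l ≠ c ∧ k = 2 • ev w + 2 • ev l := by
  obtain ⟨h1, hwL, hwL', -, hc⟩ := hv
  obtain ⟨P, Q, u1, u2, hP, hQ, hd, hu1, hu2, rfl⟩ := r2_of_mem_units hk
  have hcP : c ∉ P := fun h => (mem_erase.mp (hP h)).1 rfl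
  have hcQ : c ∉ Q := fun h => (mem_erase.mp (hQ h)).1 rfl
  have hPL : P ⊆ L := hP.trans (erase_subset _ _)
  have hQL : Q ⊆ L := hQ.trans (erase_subset _ _)
  -- absorb `u2`
  obtain ⟨B, hBL, hdB, hB⟩ : ∃ B : Finset V, B ⊆ L ∧ Disjoint P B ∧
      ∀ A : Finset V, r2K w w' A Q + u2 = r2K w w' A B := by
    rcases hu2 with rfl | rfl
    · exact ⟨Q, hQL, hd, fun A => add_zero _⟩
    · refine ⟨insert c Q, insert_subset hc hQL, ?_, fun A => r2K_insB hcQ⟩
      rw [disjoint_insert_right]; exact ⟨hcP, hd⟩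
  have hk2 : r2K w w' P Q + u1 + u2 = r2K w w' P B + u1 := by
    rw [← hB P]; abel
  rw [hk2] at h2 ⊢
  change _ ∈ JS (Clu.k2 w w' L).edges none4 ∨ _
  rcases hu1 with rfl | ⟨t, htL, rfl⟩
  · left
    rw [add_zero] at h2 ⊢
    refine r2_mem_JS h1 hwL hwL' hPL hBL ?_ ?_ ?_
    · have := h2 w
      rw [r2K_w h1 hwL hPL hBL] at this
      exact_mod_cast this
    · have := h2 w'
      rw [r2K_w' h1 hwL' hPL hBL] at this
      exact_mod_cast this
    · rw [disjoint_iff_inter_eq_empty.mp hdB]; simp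
  · by_cases htP : t ∈ P
    · -- `t ∈ P`
      have htw : t ≠ w := fun h => hwL (h ▸ htL)
      have htw' : t ≠ w' := fun h => hwL' (h ▸ htL)
      have hwt : ev t w = 0 := ev_ne htw.symm
      have hP1 : P = {t} := by
        have h5 := h2 w
        rw [Pi.add_apply, Pi.add_apply, r2K_w h1 hwL hPL hBL, ev_self, hwt] at h5
        have h6 : #P ≤ 1 := by
          have : (#P : ℤ) ≤ 1 := by linarith
          exact_mod_cast this
        exact eq_singleton_iff_unique_mem.mpr ⟨htP, fun x hx => card_le_one.mp h6 x hx t htP⟩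
      have hB2 : #B ≤ 2 := by
        have h5 := h2 w'
        rw [Pi.add_apply, Pi.add_apply, r2K_w' h1 hwL' hPL hBL, ev_ne h1.symm, ev_ne htw'.symm] at h5
        have : (#B : ℤ) ≤ 2 := by linarith
        exact_mod_cast this
      have htB : t ∉ B := Finset.disjoint_left.mp hdB htP
      have htc : t ≠ c := fun h => hcP (h ▸ htP)
      subst hP1
      by_cases hB0 : B = ∅
      · right
        subst hB0
        refine ⟨t, htL, htc, ?_⟩
        rw [r2K, r2ind, r2ind, sum_singleton, sum_empty, card_singleton, card_empty, two_smul,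
          two_smul]
        push_cast
        rw [one_smul, zero_smul]
        abel
      · left
        obtain ⟨m, hm⟩ := nonempty_iff_ne_empty.mpr hB0
        have htm : t ≠ m := fun h => htB (h ▸ hm)
        have hmt : m ∉ ({t} : Finset V) := by simpa using htm.symm
        -- move `m` from `B` to `A`, put `t` in both
        have e1 : r2K w w' {t} B + (ev w + ev t) =
            r2K w w' (insert m {t}) (insert t (B.erase m)) := by
          have htB' : t ∉ B.erase m := fun h => htB (mem_of_mem_erase h)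
          rw [← r2K_insA hmt, ← r2K_insB htB', r2K_eraseB hm]
          abel
        rw [e1]
        refine r2_mem_JS h1 hwL hwL' ?_ ?_ ?_ ?_ ?_
        · exact insert_subset (hBL hm) (by simpa using htL)
        · exact insert_subset htL ((erase_subset _ _).trans hBL)
        · exact card_le_two
        · have htB' : t ∉ B.erase m := fun h => htB (mem_of_mem_erase h)
          rw [card_insert_of_notMem htB', card_erase_add_one hm]
          exact hB2
        · rw [card_le_one]
          have : ∀ x ∈ insert m {t} ∩ insert t (B.erase m), x = t := by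
            intro x hx
            rw [mem_inter, mem_insert, mem_singleton, mem_insert, mem_erase] at hx
            rcases hx.1 with rfl | h
            · rcases hx.2 with h | h
              · exact h
              · exact absurd rfl h.1
            · exact h
          intro x hx y hy
          rw [this x hx, this y hy]
    · left
      rw [r2K_insA htP] at h2 ⊢
      have hAL : insert t P ⊆ L := insert_subset htL hPL
      refine r2_mem_JS h1 hwL hwL' hAL hBL ?_ ?_ ?_
      · have := h2 w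
        rw [r2K_w h1 hwL hAL hBL] at this
        exact_mod_cast this
      · have := h2 w'
        rw [r2K_w' h1 hwL' hAL hBL] at this
        exact_mod_cast this
      · rw [card_le_one]
        have : ∀ x ∈ insert t P ∩ B, x = t := by
          intro x hx
          rw [mem_inter, mem_insert] at hx
          rcases hx.1 with h | h
          · exact h
          · exact absurd hx.2 (Finset.disjoint_left.mp hdB h)
        intro x hx y hy
        rw [this x hx, this y hy]

end Pool.Agent.TFC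

end

section -- file TFC/Clus

/-!
Clusters: a finite set of squares, no two of which share exactly one edge, is covered by edge-disjoint clusters.
-/

set_option autoImplicit false
set_option linter.unusedSectionVars false
set_option linter.unusedSimpArgs false

namespace Pool.Agent.TFC

open Finset
open scoped Pointwise

variable {V : Type*} [DecidableEq V]

/-- `Q` is the square `a b c d`, on the vertex set `X` -/
def Clus_F (Q : Finset (Sym2 V)) (X : Finset V) (a b c d : V) : Prop :=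
  Dist4 a b c d ∧ Q = sq a b c d ∧ X = {a, b, c, d}

lemma Clus_rot {Q : Finset (Sym2 V)} {X : Finset V} {a b c d : V} (h : Clus_F Q X a b c d) :
    Clus_F Q X b c d a := by
  obtain ⟨⟨h1, h2, h3, h4, h5, h6⟩, hQ, hX⟩ := h
  refine ⟨⟨h4, h5, h1.symm, h6, h2.symm, h3.symm⟩, ?_, ?_⟩
  · rw [hQ]
    ext e
    simp only [sq, mem_insert, mem_singleton]
    tauto
  · rw [hX]
    ext e
    simp only [mem_insert, mem_singleton]
    tauto

lemma Clus_ref {Q : Finset (Sym2 V)} {X : Finset V} {a b c d : V} (h : Clus_F Q X a b c d) :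
    Clus_F Q X d c b a := by
  obtain ⟨⟨h1, h2, h3, h4, h5, h6⟩, hQ, hX⟩ := h
  refine ⟨⟨h6.symm, h5.symm, h3.symm, h4.symm, h2.symm, h1.symm⟩, ?_, ?_⟩
  · rw [hQ]
    have e1 : s(d, c) = s(c, d) := Sym2.eq_swap
    have e2 : s(c, b) = s(b, c) := Sym2.eq_swap
    have e3 : s(b, a) = s(a, b) := Sym2.eq_swap
    have e4 : s(a, d) = s(d, a) := Sym2.eq_swap
    ext e
    simp only [sq, mem_insert, mem_singleton, e1, e2, e3, e4]
    tauto
  · rw [hX]
    ext e
    simp only [mem_insert, mem_singleton]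
    tauto

/-- `Q` is a square on the vertex set `X` -/
def Clus_On (Q : Finset (Sym2 V)) (X : Finset V) : Prop := ∃ a b c d, Clus_F Q X a b c d

lemma Clus_start {Q : Finset (Sym2 V)} {X : Finset V} (h : Clus_On Q X) {u : V} (hu : u ∈ X) :
    ∃ b c d, Clus_F Q X u b c d := by
  obtain ⟨a, b, c, d, h⟩ := h
  have hu' := hu
  rw [h.2.2] at hu'
  simp only [mem_insert, mem_singleton] at hu'
  rcases hu' with rfl | rfl | rfl | rfl
  · exact ⟨_, _, _, h⟩
  · exact ⟨_, _, _, Clus_rot h⟩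
  · exact ⟨_, _, _, Clus_rot (Clus_rot h)⟩
  · exact ⟨_, _, _, Clus_rot (Clus_rot (Clus_rot h))⟩

lemma Clus_adj {Q : Finset (Sym2 V)} {X : Finset V} (h : Clus_On Q X) {u v : V} (hu : s(u, v) ∈ Q) :
    ∃ c d, Clus_F Q X u v c d := by
  obtain ⟨a, b, c, d, h⟩ := h
  have hu' := hu
  rw [h.2.1] at hu'
  simp only [sq, mem_insert, mem_singleton, Sym2.eq_iff] at hu'
  rcases hu' with (⟨rfl, rfl⟩ | ⟨rfl, rfl⟩) | (⟨rfl, rfl⟩ | ⟨rfl, rfl⟩) | (⟨rfl, rfl⟩ | ⟨rfl, rfl⟩) |
    (⟨rfl, rfl⟩ | ⟨rfl, rfl⟩)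
  · exact ⟨_, _, h⟩
  · exact ⟨_, _, Clus_rot (Clus_rot (Clus_ref h))⟩
  · exact ⟨_, _, Clus_rot h⟩
  · exact ⟨_, _, Clus_rot (Clus_ref h)⟩
  · exact ⟨_, _, Clus_rot (Clus_rot h)⟩
  · exact ⟨_, _, Clus_ref h⟩
  · exact ⟨_, _, Clus_rot (Clus_rot (Clus_rot h))⟩
  · exact ⟨_, _, Clus_rot (Clus_rot (Clus_rot (Clus_ref h)))⟩

lemma Clus_adj2 {Q : Finset (Sym2 V)} {X : Finset V} (h : Clus_On Q X) {u v w : V} (hu : s(u, v) ∈ Q)
    (hv : s(v, w) ∈ Q) (huw : u ≠ w) : ∃ d, Clus_F Q X u v w d := by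
  obtain ⟨c, d, h'⟩ := Clus_adj h hu
  have hv' := hv
  obtain ⟨⟨h1, h2, h3, h4, h5, h6⟩, hQ, hX⟩ := id h'
  rw [hQ] at hv'
  simp only [sq, mem_insert, mem_singleton, Sym2.eq_iff] at hv'
  rcases hv' with (⟨e1, e2⟩ | ⟨e1, e2⟩) | (⟨e1, e2⟩ | ⟨e1, e2⟩) | (⟨e1, e2⟩ | ⟨e1, e2⟩) |
    (⟨e1, e2⟩ | ⟨e1, e2⟩)
  · exact absurd e1 h1.symm
  · exact absurd e2.symm huw
  · subst e2
    exact ⟨_, h'⟩
  · exact absurd e1 h4
  · exact absurd e1 h4
  · exact absurd e1 h5
  · exact absurd e1 h5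
  · exact absurd e1 h1.symm

lemma Clus_eq {Q R : Finset (Sym2 V)} {X : Finset V} (hQ : Clus_On Q X) (hR : Clus_On R X) {u v w : V}
    (huw : u ≠ w) (h1 : s(u, v) ∈ Q) (h2 : s(v, w) ∈ Q) (h3 : s(u, v) ∈ R) (h4 : s(v, w) ∈ R) : Q = R := by
  obtain ⟨d, ⟨a1, a2, a3, a4, a5, a6⟩, eQ, eX⟩ := Clus_adj2 hQ h1 h2 huw
  obtain ⟨d', ⟨b1, b2, b3, b4, b5, b6⟩, eR, eX'⟩ := Clus_adj2 hR h3 h4 huw
  have hd : d ∈ X := by rw [eX]; simp
  rw [eX'] at hd
  simp only [mem_insert, mem_singleton] at hd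
  rcases hd with e | e | e | e
  · exact absurd e a3.symm
  · exact absurd e a5.symm
  · exact absurd e a6.symm
  · rw [eQ, eR, e]

lemma Clus_mem {Q : Finset (Sym2 V)} {X : Finset V} (h : Clus_On Q X) {u v : V} (hu : s(u, v) ∈ Q) :
    u ∈ X ∧ v ∈ X ∧ u ≠ v := by
  obtain ⟨c, d, h1, -, hX⟩ := Clus_adj h hu
  rw [hX]
  exact ⟨by simp, by simp, h1.1⟩

lemma Clus_card {Q : Finset (Sym2 V)} {X : Finset V} (h : Clus_On Q X) : #X = 4 := by
  obtain ⟨a, b, c, d, ⟨h1, h2, h3, h4, h5, h6⟩, -, hX⟩ := h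
  rw [hX, card_insert_of_notMem, card_insert_of_notMem, card_insert_of_notMem, card_singleton]
  · simpa using h6
  · simp [h4, h5]
  · simp [h1, h2, h3]

lemma Clus_isSq {Q : Finset (Sym2 V)} (h : IsSq Q) : ∃ X, Clus_On Q X := by
  obtain ⟨a, b, c, d, h1, h2⟩ := h
  exact ⟨_, a, b, c, d, h1, h2, rfl⟩

lemma Clus_k4 {X : Finset V} {u v : V} : s(u, v) ∈ (Clu.k4 X).edges ↔ u ∈ X ∧ v ∈ X ∧ u ≠ v := by
  simp only [Clu.edges, mem_filter, Finset.mk_mem_sym2_iff, Sym2.mk_isDiag_iff]
  tauto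

/-- two squares sharing an edge and not exactly one share a second edge -/
lemma Clus_second {T Z : Finset (Sym2 V)} (h : #(T ∩ Z) ≠ 1) {e : Sym2 V} (h1 : e ∈ T) (h2 : e ∈ Z) :
    ∃ e' ∈ T, e' ∈ Z ∧ e' ≠ e := by
  by_contra hcon
  push Not at hcon
  apply h
  rw [card_eq_one]
  refine ⟨e, ?_⟩
  ext e'
  simp only [mem_inter, mem_singleton]
  constructor
  · rintro ⟨h3, h4⟩
    exact hcon e' h3 h4
  · rintro rfl
    exact ⟨h1, h2⟩

/-- exchange the two leaves -/
lemma Clus_leaf {Q : Finset (Sym2 V)} {X : Finset V} {x a y b : V} (h : Clus_F Q X x a y b) :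
    Clus_F Q X x b y a := Clus_rot (Clus_rot (Clus_rot (Clus_ref h)))

/-- exchange the two centres -/
lemma Clus_cen {Q : Finset (Sym2 V)} {X : Finset V} {x a y b : V} (h : Clus_F Q X x a y b) :
    Clus_F Q X y a x b := Clus_rot (Clus_ref h)

lemma Clus_sq_leaf {x a y b : V} (h : Dist4 x a y b) : Dist4 x b y a ∧ sq x a y b = sq x b y a := by
  have h1 : Clus_F (sq x a y b) {x, a, y, b} x a y b := ⟨h, rfl, rfl⟩
  have h2 := Clus_leaf h1
  exact ⟨h2.1, h2.2.1⟩

lemma Clus_sq_cen {x a y b : V} (h : Dist4 x a y b) : Dist4 y a x b ∧ sq x a y b = sq y a x b := by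
  have h1 : Clus_F (sq x a y b) {x, a, y, b} x a y b := ⟨h, rfl, rfl⟩
  have h2 := Clus_cen h1
  exact ⟨h2.1, h2.2.1⟩

lemma Clus_core {D : Finset (Finset (Sym2 V))} (hD : ∀ Q ∈ D, IsSq Q)
    (hc : ∀ Q ∈ D, ∀ R ∈ D, Q ≠ R → #(Q ∩ R) ≠ 1) {x y l l' : V} {T : Finset (Sym2 V)} (hT : T ∈ D)
    (h4 : Dist4 x l y l') (hS : sq x l y l' ∈ D) (hTS : T ≠ sq x l y l')
    (hTn : ∀ m, Dist4 x l y m → m ≠ l' → T ≠ sq x l y m) (he : s(x, l) ∈ T)
    (hP : ∃ m m' m'', ((m = l ∧ m' = l') ∨ (m = l' ∧ m' = l)) ∧ Dist4 x m y m'' ∧ m'' ≠ m' ∧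
      sq x m y m'' ∈ D) : False := by
  obtain ⟨Y, oT⟩ := Clus_isSq (hD T hT)
  obtain ⟨p, q, ⟨h1, h2, h3, h4', h5, h6⟩, eT, -⟩ := Clus_adj oT he
  obtain ⟨k1, k2, k3, k4, k5, k6⟩ := id h4
  obtain ⟨e', he1, he2, he3⟩ := Clus_second (hc T hT _ hS hTS) he (by simp [sq])
  obtain ⟨m, m', m'', hm, ⟨n1, n2, n3, n4, n5, n6⟩, hmm, hSm⟩ := hP
  -- a common edge of T and the partner is the only one
  have fin : ∀ e1 ∈ T, e1 ∈ sq x m y m'' → (∀ e2 ∈ T, e2 ∈ sq x m y m'' → e2 = e1) → T ≠ sq x m y m'' →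
      False := by
    intro e1 g1 g2 g3 g4
    obtain ⟨e2, f1, f2, f3⟩ := Clus_second (hc T hT _ hSm g4) g1 g2
    exact f3 (g3 e2 f1 f2)
  rw [eT] at he1
  simp only [sq, mem_insert, mem_singleton] at he1
  rcases he1 with rfl | rfl | rfl | rfl
  · exact he3 rfl
  · -- second edge l p
    simp only [sq, mem_insert, mem_singleton, Sym2.eq_iff] at he2
    have hpy : p = y := by
      rcases he2 with (⟨e1, e2⟩ | ⟨e1, e2⟩) | (⟨e1, e2⟩ | ⟨e1, e2⟩) | (⟨e1, e2⟩ | ⟨e1, e2⟩) |
        (⟨e1, e2⟩ | ⟨e1, e2⟩)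
      · exact absurd e1 h1.symm
      · exact absurd e2.symm h2
      · exact e2
      · exact absurd e1 k4
      · exact absurd e1 k4
      · exact absurd e1 k5
      · exact absurd e1 k5
      · exact absurd e1 h1.symm
    subst hpy
    by_cases hq : q = l'
    · subst hq
      exact hTS eT
    · exact hTn q ⟨h1, h2, h3, h4', h5, h6⟩ hq eT
  · -- second edge p q
    simp only [sq, mem_insert, mem_singleton, Sym2.eq_iff] at he2
    have hpq : (p = y ∧ q = l') ∨ (p = l' ∧ q = y) := by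
      rcases he2 with (⟨e1, e2⟩ | ⟨e1, e2⟩) | (⟨e1, e2⟩ | ⟨e1, e2⟩) | (⟨e1, e2⟩ | ⟨e1, e2⟩) |
        (⟨e1, e2⟩ | ⟨e1, e2⟩)
      · exact absurd e1.symm h2
      · exact absurd e2.symm h3
      · exact absurd e1.symm h4'
      · exact absurd e2.symm h5
      · exact Or.inl ⟨e1, e2⟩
      · exact Or.inr ⟨e1, e2⟩
      · exact absurd e2.symm h3
      · exact absurd e1.symm h2
    rcases hpq with ⟨rfl, rfl⟩ | ⟨rfl, rfl⟩
    · exact hTS eT
    · -- T = x l l' y
      have hne : T ≠ sq x m q m'' := by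
        intro h
        have : s(q, x) ∈ sq x m q m'' := by rw [← h, eT]; simp [sq]
        simp [sq, n1, n2, n3, n4, n5, n6, n1.symm, n2.symm, n3.symm, n4.symm, n5.symm, n6.symm] at this
      rcases hm with ⟨rfl, rfl⟩ | ⟨rfl, rfl⟩
      · refine fin s(x, m) he (by simp [sq]) ?_ hne
        intro e2 g1 g2
        rw [eT] at g1
        simp only [sq, mem_insert, mem_singleton] at g1
        rcases g1 with rfl | rfl | rfl | rfl
        · rfl
        all_goals
          exfalso
          simp [sq, n1, n2, n3, n4, n5, n6, n1.symm, n2.symm, n3.symm, n4.symm, n5.symm, n6.symm, k1, k2, k3, k4,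
            k5, k6, k1.symm, k2.symm, k3.symm, k4.symm, k5.symm, k6.symm, hmm, hmm.symm] at g2
      · refine fin s(m, q) (by rw [eT]; simp [sq]) (by simp [sq]) ?_ hne
        intro e2 g1 g2
        rw [eT] at g1
        simp only [sq, mem_insert, mem_singleton] at g1
        rcases g1 with rfl | rfl | rfl | rfl
        · exfalso
          simp [sq, n1, n2, n3, n4, n5, n6, n1.symm, n2.symm, n3.symm, n4.symm, n5.symm, n6.symm, k1, k2, k3, k4,
            k5, k6, k1.symm, k2.symm, k3.symm, k4.symm, k5.symm, k6.symm, hmm, hmm.symm] at g2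
        · exfalso
          simp [sq, n1, n2, n3, n4, n5, n6, n1.symm, n2.symm, n3.symm, n4.symm, n5.symm, n6.symm, k1, k2, k3, k4,
            k5, k6, k1.symm, k2.symm, k3.symm, k4.symm, k5.symm, k6.symm, hmm, hmm.symm] at g2
        · rfl
        · exfalso
          simp [sq, n1, n2, n3, n4, n5, n6, n1.symm, n2.symm, n3.symm, n4.symm, n5.symm, n6.symm, k1, k2, k3, k4,
            k5, k6, k1.symm, k2.symm, k3.symm, k4.symm, k5.symm, k6.symm, hmm, hmm.symm] at g2
  · -- second edge q x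
    simp only [sq, mem_insert, mem_singleton, Sym2.eq_iff] at he2
    have hq : q = l' := by
      rcases he2 with (⟨e1, e2⟩ | ⟨e1, e2⟩) | (⟨e1, e2⟩ | ⟨e1, e2⟩) | (⟨e1, e2⟩ | ⟨e1, e2⟩) |
        (⟨e1, e2⟩ | ⟨e1, e2⟩)
      · exact absurd e2 k1
      · exact absurd e1.symm h5
      · exact absurd e2 k2
      · exact absurd e2 k1
      · exact absurd e2 k3
      · exact absurd e2 k2
      · exact e1
      · exact absurd e1.symm h3
    subst hq
    by_cases hpy : p = y
    · subst hpy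
      exact hTS eT
    · -- T = x l p l'
      have hpy' : y ≠ p := fun h => hpy h.symm
      have hne : T ≠ sq x m y m'' := by
        intro h
        have : s(l, p) ∈ sq x m y m'' := by rw [← h, eT]; simp [sq]
        rcases hm with ⟨rfl, rfl⟩ | ⟨rfl, rfl⟩ <;>
        simp [sq, n1, n2, n3, n4, n5, n6, n1.symm, n2.symm, n3.symm, n4.symm, n5.symm, n6.symm, k1, k2, k3, k4,
            k5, k6, k1.symm, k2.symm, k3.symm, k4.symm, k5.symm, k6.symm, hmm, hmm.symm, hpy, hpy', h1, h2, h3, h4',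
            h5, h6, h1.symm, h2.symm, h3.symm, h4'.symm, h5.symm, h6.symm] at this
      rcases hm with ⟨rfl, rfl⟩ | ⟨rfl, rfl⟩
      · refine fin s(x, m) he (by simp [sq]) ?_ hne
        intro e2 g1 g2
        rw [eT] at g1
        simp only [sq, mem_insert, mem_singleton] at g1
        rcases g1 with rfl | rfl | rfl | rfl
        · rfl
        all_goals
          exfalso
          simp [sq, n1, n2, n3, n4, n5, n6, n1.symm, n2.symm, n3.symm, n4.symm, n5.symm, n6.symm, k1, k2, k3, k4,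
            k5, k6, k1.symm, k2.symm, k3.symm, k4.symm, k5.symm, k6.symm, hmm, hmm.symm, hpy, hpy', h1, h2, h3, h4',
            h5, h6, h1.symm, h2.symm, h3.symm, h4'.symm, h5.symm, h6.symm] at g2
      · refine fin s(m, x) (by rw [eT]; simp [sq]) (by rw [Sym2.eq_swap]; simp [sq]) ?_ hne
        intro e2 g1 g2
        rw [eT] at g1
        simp only [sq, mem_insert, mem_singleton] at g1
        rcases g1 with rfl | rfl | rfl | rfl
        · exfalso
          simp [sq, n1, n2, n3, n4, n5, n6, n1.symm, n2.symm, n3.symm, n4.symm, n5.symm, n6.symm, k1, k2, k3, k4,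
            k5, k6, k1.symm, k2.symm, k3.symm, k4.symm, k5.symm, k6.symm, hmm, hmm.symm, hpy, hpy', h1, h2, h3, h4',
            h5, h6, h1.symm, h2.symm, h3.symm, h4'.symm, h5.symm, h6.symm] at g2
        · exfalso
          simp [sq, n1, n2, n3, n4, n5, n6, n1.symm, n2.symm, n3.symm, n4.symm, n5.symm, n6.symm, k1, k2, k3, k4,
            k5, k6, k1.symm, k2.symm, k3.symm, k4.symm, k5.symm, k6.symm, hmm, hmm.symm, hpy, hpy', h1, h2, h3, h4',
            h5, h6, h1.symm, h2.symm, h3.symm, h4'.symm, h5.symm, h6.symm] at g2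
        · exfalso
          simp [sq, n1, n2, n3, n4, n5, n6, n1.symm, n2.symm, n3.symm, n4.symm, n5.symm, n6.symm, k1, k2, k3, k4,
            k5, k6, k1.symm, k2.symm, k3.symm, k4.symm, k5.symm, k6.symm, hmm, hmm.symm, hpy, hpy', h1, h2, h3, h4',
            h5, h6, h1.symm, h2.symm, h3.symm, h4'.symm, h5.symm, h6.symm] at g2
        · rfl

end Pool.Agent.TFC

end

section -- file TFC/Unit

/-!
Lemma 6.1 (two opposite digons) and Lemma 6.2 (relaxation of a cluster `K2(x, y; L)`).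
-/

set_option autoImplicit false
set_option linter.unusedSectionVars false

namespace Pool.Agent.TFC

open Finset
open scoped Pointwise

variable {V : Type*} [DecidableEq V]

lemma Unit_dv0 : dv (∅ : Finset (Sym2 V)) = 0 := by
  funext v
  simp [dv, dg]

lemma Unit_dv1 {a b : V} (hab : a ≠ b) : dv ({s(a, b)} : Finset (Sym2 V)) = ev a + ev b := by
  have h := dv_insert (z := ∅) hab (notMem_empty _)
  rw [Unit_dv0, zero_add] at h
  exact h

lemma Unit_dv2 {a b c d : V} (hab : a ≠ b) (hcd : c ≠ d) (h : s(a, b) ≠ s(c, d)) :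
    dv ({s(a, b), s(c, d)} : Finset (Sym2 V)) = ev a + ev b + (ev c + ev d) := by
  have h1 := dv_insert (z := {s(c, d)}) hab (by simpa using h)
  rw [Unit_dv1 hcd] at h1
  rw [h1]; abel

lemma Unit_dv3 {a b c d p q : V} (hab : a ≠ b) (hcd : c ≠ d) (hpq : p ≠ q)
    (h : s(a, b) ≠ s(c, d)) (h' : s(a, b) ≠ s(p, q)) (h'' : s(c, d) ≠ s(p, q)) :
    dv ({s(a, b), s(c, d), s(p, q)} : Finset (Sym2 V)) =
      ev a + ev b + (ev c + ev d) + (ev p + ev q) := by
  have h1 := dv_insert (z := {s(c, d), s(p, q)}) hab (by simp [h, h'])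
  rw [Unit_dv2 hcd hpq h''] at h1
  rw [h1]; abel

lemma Unit_sq_sub {z : Finset (Sym2 V)} {a b c d : V} (h : Sq z a b c d) : sq a b c d ⊆ z := by
  simp [sq, insert_subset_iff, h.ab, h.bc, h.cd, h.da]

lemma Unit_sq_M2 {a b c d : V} (h : Dist4 a b c d) : M2 (sq a b c d) := by
  obtain ⟨hab, hac, had, hbc, hbd, hcd⟩ := h
  constructor
  · intro e he
    simp only [sq, mem_insert, mem_singleton] at he
    rcases he with rfl | rfl | rfl | rfl
    · simpa using hab
    · simpa using hbc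
    · simpa using hcd
    · simpa using had.symm
  · intro v
    unfold dg sq
    by_cases ha : v = a
    · subst ha
      have : ({e ∈ ({s(v, b), s(b, c), s(c, d), s(d, v)} : Finset (Sym2 V)) | v ∈ e}) ⊆
          {s(v, b), s(d, v)} := by
        intro e he
        simp only [mem_filter, mem_insert, mem_singleton] at he ⊢
        obtain ⟨rfl | rfl | rfl | rfl, he⟩ := he
        · exact Or.inl rfl
        · simp [hab, hac] at he
        · simp [hac, had] at he
        · exact Or.inr rfl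
      exact (card_le_card this).trans card_le_two
    by_cases hb : v = b
    · subst hb
      have : ({e ∈ ({s(a, v), s(v, c), s(c, d), s(d, a)} : Finset (Sym2 V)) | v ∈ e}) ⊆
          {s(a, v), s(v, c)} := by
        intro e he
        simp only [mem_filter, mem_insert, mem_singleton] at he ⊢
        obtain ⟨rfl | rfl | rfl | rfl, he⟩ := he
        · exact Or.inl rfl
        · exact Or.inr rfl
        · simp [hbc, hbd] at he
        · simp [ha, hbd] at he
      exact (card_le_card this).trans card_le_two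
    have : ({e ∈ ({s(a, b), s(b, c), s(c, d), s(d, a)} : Finset (Sym2 V)) | v ∈ e}) ⊆
        {s(c, d), if v = c then s(b, c) else s(d, a)} := by
      intro e he
      simp only [mem_filter, mem_insert, mem_singleton] at he ⊢
      obtain ⟨rfl | rfl | rfl | rfl, he⟩ := he
      · simp [ha, hb] at he
      · right
        have : v = c := by simpa [hb] using he
        rw [if_pos this]
      · exact Or.inl rfl
      · right
        have : v = d := by simpa [ha] using he
        rw [if_neg (by rw [this]; exact hcd.symm)]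
    exact (card_le_card this).trans card_le_two

end Pool.Agent.TFC

end

section -- file TF4/K10

set_option autoImplicit false

namespace TF4

open Finset Pool.Agent.TFC
open scoped Classical

/-- the adjacency matrix as a list -/
theorem code_length {n : ℕ} (G : SimpleGraph (Fin n)) : (code G).length = n * n := by
  unfold code
  simp

theorem idx_lt {n i j : ℕ} (hi : i < n) (hj : j < n) : n * i + j < n * n := by
  have : n * i + n ≤ n * n := by
    calc n * i + n = n * (i + 1) := by ring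
      _ ≤ n * n := Nat.mul_le_mul_left _ hi
  omega

theorem bit_code {n : ℕ} (G : SimpleGraph (Fin n)) (i j : Fin n) : bit n (code G) i j = decide (G.Adj i j) := by
  have hlt : n * (i : ℕ) + j < n * n := idx_lt i.2 j.2
  have hn : 0 < n := Nat.lt_of_le_of_lt (Nat.zero_le _) i.2
  unfold bit
  rw [List.getD_eq_getElem _ _ (by rw [code_length]; exact hlt)]
  unfold code
  rw [List.getElem_ofFn]
  have e1 : (⟨n * (i : ℕ) + j, by simpa using hlt⟩ : Fin (n * n)).divNat = i := by
    apply Fin.ext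
    simp only [Fin.coe_divNat]
    rw [Nat.mul_add_div hn, Nat.div_eq_of_lt j.2, add_zero]
  have e2 : (⟨n * (i : ℕ) + j, by simpa using hlt⟩ : Fin (n * n)).modNat = j := by
    apply Fin.ext
    simp only [Fin.coe_modNat]
    rw [Nat.mul_add_mod, Nat.mod_eq_of_lt j.2]
  rw [e1, e2]

theorem matB_iff' {n : ℕ} {w : List Bool} : matB n w = true ↔
    w.length = n * n ∧ ∀ i < n, bit n w i i = false ∧ ∀ j < n, bit n w i j = bit n w j i := by
  unfold matB
  simp only [Bool.and_eq_true, decide_eq_true_eq, List.all_eq_true, List.mem_range,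
    Bool.not_eq_true']

theorem adj_gr {n : ℕ} {w : List Bool} (hw : matB n w = true) (i j : Fin n) :
    (gr n w).Adj i j ↔ bit n w i j = true := by
  rw [matB_iff'] at hw
  constructor
  · rintro ⟨h, _, _⟩
    exact h
  · intro h
    refine ⟨h, ?_, ?_⟩
    · rw [← (hw.2 i i.2).2 j j.2]; exact h
    · rintro rfl
      rw [(hw.2 i i.2).1] at h
      exact Bool.false_ne_true h

/-- (TF4-K10) codes and well-formed strings.
PROOF. `bit n (code G) i j` is the entry with number `n i + j`, whose `divNat` is `i` and whose `modNat` is `j`; symmetric and zero on the diagonal. -/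
theorem matB_code {n : ℕ} (G : SimpleGraph (Fin n)) : matB n (code G) = true ∧ gr n (code G) = G := by
  have h1 : matB n (code G) = true := by
    rw [matB_iff']
    refine ⟨code_length G, ?_⟩
    intro i hi
    refine ⟨?_, ?_⟩
    · have := bit_code G ⟨i, hi⟩ ⟨i, hi⟩
      simp only at this
      rw [this]
      simp
    · intro j hj
      have a := bit_code G ⟨i, hi⟩ ⟨j, hj⟩
      have b := bit_code G ⟨j, hj⟩ ⟨i, hi⟩
      simp only at a b
      rw [a, b]
      simp only [G.adj_comm]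
  refine ⟨h1, ?_⟩
  ext i j
  rw [adj_gr h1, bit_code, decide_eq_true_eq]

/-- PROOF. Both lists have length `n * n`; entry `k` of `code (gr n w)` is the truth value of `bit n w i j ∧ bit n w j i ∧ i ≠ j` with `k = n i + j` (`i = k / n`, `j = k % n`),
which is `bit n w i j` by `matB` (symmetry and diagonal); `List.ext_getElem`. -/
theorem code_gr {n : ℕ} {w : List Bool} (hw : matB n w = true) : code (gr n w) = w := by
  have hl : w.length = n * n := (matB_iff'.1 hw).1
  apply List.ext_getElem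
  · rw [code_length, hl]
  intro k h1 h2
  have hk : k < n * n := by rw [← hl]; exact h2
  have hn : 0 < n := by
    rcases Nat.eq_zero_or_pos n with h | h
    · subst h; simp at hk
    · exact h
  have hi : k / n < n := Nat.div_lt_of_lt_mul hk
  have hj : k % n < n := Nat.mod_lt _ hn
  have e : n * (k / n) + k % n = k := Nat.div_add_mod k n
  have a := bit_code (gr n w) ⟨k / n, hi⟩ ⟨k % n, hj⟩
  simp only at a
  have b : bit n (code (gr n w)) (k / n) (k % n) = (code (gr n w))[k] := by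
    unfold bit
    rw [e, List.getD_eq_getElem _ _ h1]
  have c : bit n w (k / n) (k % n) = w[k] := by
    unfold bit
    rw [e, List.getD_eq_getElem _ _ h2]
  rw [← b, ← c, a]
  have d := adj_gr hw ⟨k / n, hi⟩ ⟨k % n, hj⟩
  simp only at d
  rw [Bool.eq_iff_iff, decide_eq_true_eq]
  exact d

/-- PROOF. `side w` is the head of the list of the `m < w.length + 1` with `m * m = w.length`, which contains `n` (`n ≤ n * n`) and nothing else (`Nat.mul_self_inj`). -/
theorem side_eq {n : ℕ} {w : List Bool} (hw : matB n w = true) : side w = n := by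
  have hl : w.length = n * n := (matB_iff'.1 hw).1
  unfold side
  have hmem : n ∈ (List.range (w.length + 1)).filter (fun m => decide (m * m = w.length)) := by
    rw [List.mem_filter, List.mem_range]
    refine ⟨?_, by simp [hl]⟩
    rw [hl]
    rcases Nat.eq_zero_or_pos n with h | h
    · subst h; simp
    · have : n ≤ n * n := Nat.le_mul_of_pos_left n h
      omega
  generalize hL : (List.range (w.length + 1)).filter (fun m => decide (m * m = w.length)) = L at hmem ⊢
  have hall : ∀ m ∈ L, m = n := by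
    intro m hm
    rw [← hL, List.mem_filter] at hm
    have : m * m = n * n := by rw [← hl]; exact of_decide_eq_true hm.2
    exact Nat.mul_self_inj.1 this
  cases L with
  | nil => simp at hmem
  | cons a t => exact hall a (List.mem_cons_self ..)

end TF4

end

section -- file TF4/PTV

set_option autoImplicit false

/-! [TF4] the verifiers run in polynomial time -/

namespace TF4

open Pool.Agent.Lib.helper60

section

variable {ι : Type} [DEnc ι]

theorem pt_bit {n : ι → ℕ} {w : ι → List Bool} {i j : ι → ℕ} (hn : PT n) (hw : PT w) (hi : PT i)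
    (hj : PT j) : PT (fun x => bit (n x) (w x) (i x) (j x)) :=
  PT.getD hw (PT.nadd (PT.nmul hn hi) hj) (PT.const false)

theorem pt_matB {n : ι → ℕ} {w : ι → List Bool} (hn : PT n) (hw : PT w) :
    PT (fun x => matB (n x) (w x)) := by
  unfold matB
  refine PT.band (PT.neq (PT.length hw) (PT.nmul hn hn)) ?_
  refine PT.all (p := fun y : ι × ℕ => !bit (n y.1) (w y.1) y.2 y.2 &&
    (List.range (n y.1)).all (fun j => decide (bit (n y.1) (w y.1) y.2 j = bit (n y.1) (w y.1) j y.2)))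
    (PT.range hn) ?_
  refine PT.band (PT.bnot (pt_bit (hn.comp PT.fst) (hw.comp PT.fst) PT.snd PT.snd)) ?_
  refine PT.all (p := fun z : (ι × ℕ) × ℕ => decide (bit (n z.1.1) (w z.1.1) z.1.2 z.2 =
    bit (n z.1.1) (w z.1.1) z.2 z.1.2)) (PT.range (hn.comp PT.fst)) ?_
  have hn' : PT (fun z : (ι × ℕ) × ℕ => n z.1.1) := hn.comp PT.fst.p1
  have hw' : PT (fun z : (ι × ℕ) × ℕ => w z.1.1) := hw.comp PT.fst.p1
  exact PT.beq (pt_bit hn' hw' PT.fst.p2 PT.snd) (pt_bit hn' hw' PT.snd PT.fst.p2)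

theorem pt_side {w : ι → List Bool} (hw : PT w) : PT (fun x => side (w x)) := by
  unfold side
  refine PT.headD ?_ (PT.const 0)
  refine PT.filter (p := fun y : ι × ℕ => decide (y.2 * y.2 = (w y.1).length))
    (PT.range (PT.nsucc (PT.length hw))) ?_
  exact PT.neq (PT.nmul PT.snd PT.snd) (PT.length (hw.comp PT.fst))

end

end TF4

end

section -- file PF4/InP

/-!
# 2F({4}) in P: the statement and the parsing of the input

`inP_of`: if `dec n E` decides, in polynomial time, whether the graph with the vertices `0, ..., n - 1` and the edges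
`E` (pairs `(u, v)` with `u < v < n`, without repetition) has a 2-factor without 4-cycles, then 2F({4}) is in P.
-/

set_option autoImplicit false

namespace Pool.Agent.PF4

open TF4 Pool.Agent.Lib.helper60

/-- the edges `(u, v)`, `u < v < n`, of the graph of a bit string -/
def edg (n : ℕ) (w : List Bool) : List (ℕ × ℕ) :=
  (List.range n).flatMap fun v => ((List.range v).filter fun u => bit n w u v).map fun u => (u, v)

theorem mem_edg {n : ℕ} {w : List Bool} {u v : ℕ} : (u, v) ∈ edg n w ↔ u < v ∧ v < n ∧ bit n w u v = true := by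
  simp only [edg, List.mem_flatMap, List.mem_range, List.mem_map, List.mem_filter, Prod.mk.injEq]
  constructor
  · rintro ⟨v', h1, u', ⟨h2, h3⟩, rfl, rfl⟩
    exact ⟨h2, h1, h3⟩
  · rintro ⟨h1, h2, h3⟩
    exact ⟨v, h2, u, ⟨h1, h3⟩, rfl, rfl⟩

theorem nodup_edg (n : ℕ) (w : List Bool) : (edg n w).Nodup := by
  unfold edg
  rw [List.nodup_flatMap]
  constructor
  · intro v _
    refine List.Nodup.map ?_ (List.nodup_range.filter _)
    intro a b h
    exact (Prod.mk.inj h).1
  · refine (List.nodup_range (n := n)).pairwise_of_forall_ne ?_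
    intro a _ b _ hab
    simp only [Function.onFun, List.disjoint_left, List.mem_map]
    rintro e ⟨u, _, rfl⟩ ⟨u', _, h⟩
    exact hab (Prod.mk.inj h).2.symm

theorem pt_edg {ι : Type} [DEnc ι] {n : ι → ℕ} {w : ι → List Bool} (hn : PT n) (hw : PT w) :
    PT (fun x => edg (n x) (w x)) := by
  unfold edg
  refine PT.flatMap (g := fun y : ι × ℕ =>
    ((List.range y.2).filter fun u => bit (n y.1) (w y.1) u y.2).map fun u => (u, y.2)) (PT.range hn) ?_
  refine PT.map (g := fun z : (ι × ℕ) × ℕ => (z.2, z.1.2)) ?_ (PT.pair PT.snd PT.fst.p2)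
  refine PT.filter (p := fun z : (ι × ℕ) × ℕ => bit (n z.1.1) (w z.1.1) z.2 z.1.2) (PT.range PT.snd) ?_
  exact pt_bit (hn.comp PT.fst.p1) (hw.comp PT.fst.p1) PT.snd PT.fst.p2

end Pool.Agent.PF4

end

section -- file P34/Clus3

/-!
Clusters: a finite family of triangles and squares, such that any two members sharing exactly one edge are triangles
`x y p`, `x y r` whose square `x p y r` also belongs to the family, is covered by pairwise edge-disjoint clusters
`K_4`, `K_{2,m}` and `K_{1,1,m}`.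
-/

set_option autoImplicit false
set_option linter.unusedSectionVars false
set_option linter.unusedSimpArgs false

namespace Pool.Agent.P34

open Finset Pool.Agent.TFC

variable {V : Type*} [DecidableEq V]

/-- the three kinds of clusters -/
inductive Clu3 (V : Type*) where
  | k4 (X : Finset V)
  | k2 (x y : V) (L : Finset V)
  | k11 (x y : V) (L : Finset V)

/-- the edges of a cluster -/
def Clu3.edges : Clu3 V → Finset (Sym2 V)
  | .k4 X => (Clu.k4 X).edges
  | .k2 x y L => (Clu.k2 x y L).edges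
  | .k11 x y L => insert s(x, y) (Clu.k2 x y L).edges

/-- non-degenerate cluster -/
def Clu3.Valid : Clu3 V → Prop
  | .k4 X => #X = 4
  | .k2 x y L => x ≠ y ∧ x ∉ L ∧ y ∉ L ∧ 2 ≤ #L
  | .k11 x y L => x ≠ y ∧ x ∉ L ∧ y ∉ L ∧ 1 ≤ #L

/-- two members sharing exactly one edge are triangles with the square around the common edge in the family -/
def StarV (D : Finset (Finset (Sym2 V))) : Prop :=
  ∀ Z ∈ D, ∀ Z' ∈ D, Z ≠ Z' → #(Z ∩ Z') = 1 →
    ∃ x y p r, Dist4 x y p r ∧ Z = tri x y p ∧ Z' = tri x y r ∧ TFC.sq x p y r ∈ D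

lemma tri_rot (a b c : V) : tri a b c = tri b c a := by
  ext e
  simp only [tri, mem_insert, mem_singleton]
  tauto

lemma tri_ref (a b c : V) : tri a b c = tri b a c := by
  ext e
  simp only [tri, mem_insert, mem_singleton]
  rw [Sym2.eq_swap (a := b) (b := a), Sym2.eq_swap (a := a) (b := c), Sym2.eq_swap (a := c) (b := b)]
  clear * -
  tauto

lemma tri_ref2 (a b c : V) : tri a b c = tri a c b := by
  rw [tri_rot a b c, tri_ref b c a, tri_rot c b a, tri_rot b a c]

lemma tri_rot2 (a b c : V) : tri a b c = tri c a b := (tri_rot c a b).symm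

lemma tri_rev (a b c : V) : tri a b c = tri c b a := by
  rw [tri_ref a b c, tri_rot2 b a c]

lemma dist3_of {a b c : V} (h : Dist3 a b c) : Dist3 b c a ∧ Dist3 b a c := by
  obtain ⟨h1, h2, h3⟩ := h
  exact ⟨⟨h3, h1.symm, h2.symm⟩, ⟨h1.symm, h3, h2⟩⟩

lemma card_tri {a b c : V} (h : Dist3 a b c) : #(tri a b c) = 3 := by
  obtain ⟨ab, ac, bc⟩ := h
  rw [tri, card_insert_of_notMem, card_insert_of_notMem, card_singleton]
  · simp [Sym2.eq_iff, ab, ac, bc, ab.symm, ac.symm, bc.symm]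
  · simp [Sym2.eq_iff, ab, ac, bc, ab.symm, ac.symm, bc.symm]

lemma card_sqV {a b c d : V} (h : Dist4 a b c d) : #(TFC.sq a b c d) = 4 := by
  obtain ⟨ab, ac, ad, bc, bd, cd⟩ := h
  rw [TFC.sq, card_insert_of_notMem, card_insert_of_notMem, card_insert_of_notMem, card_singleton]
  all_goals
    simp [Sym2.eq_iff, ab, ac, ad, bc, bd, cd, ab.symm, ac.symm, ad.symm, bc.symm, bd.symm, cd.symm]

lemma tri_not_sq {Z : Finset (Sym2 V)} (h : IsTri Z) (h' : IsSq Z) : False := by
  obtain ⟨a, b, c, h1, rfl⟩ := h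
  obtain ⟨a', b', c', d', h2, h3⟩ := h'
  have := card_tri h1
  rw [h3, card_sqV h2] at this
  omega

/-- case 1 -/
lemma k4_case {D : Finset (Finset (Sym2 V))} (hD : ∀ Q ∈ D, IsSq Q)
    (hc : ∀ Q ∈ D, ∀ R ∈ D, Q ≠ R → #(Q ∩ R) ≠ 1) {Q R : Finset (Sym2 V)} (hQ : Q ∈ D) (hR : R ∈ D)
    (hne : Q ≠ R) {X : Finset V} (oQ : Clus_On Q X) (oR : Clus_On R X) :
    (∀ S ∈ D, Clus_On S X → S ⊆ (Clu.k4 X).edges) ∧ (∀ e ∈ (Clu.k4 X).edges, e ∈ Q ∨ e ∈ R) ∧
      ∀ T ∈ D, ¬ T ⊆ (Clu.k4 X).edges → ∀ e ∈ T, e ∉ (Clu.k4 X).edges := by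
  classical
  have sub : ∀ Z, Clus_On Z X → Z ⊆ (Clu.k4 X).edges := by
    intro Z hZ e he
    induction e using Sym2.ind with
    | _ u v => exact Clus_k4.2 (Clus_mem hZ he)
  have cov : ∀ u v, s(u, v) ∈ (Clu.k4 X).edges → s(u, v) ∈ Q ∨ s(u, v) ∈ R := by
    intro u v huv
    by_contra hcon
    push Not at hcon
    obtain ⟨hu, hv, huv'⟩ := Clus_k4.1 huv
    have key : ∀ Z, Clus_On Z X → s(u, v) ∉ Z → ∃ b d, Clus_F Z X b u d v := by
      intro Z hZ hn
      obtain ⟨b, c, d, h⟩ := Clus_start hZ hu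
      obtain ⟨⟨h1, h2, h3, h4, h5, h6⟩, eQ, eX⟩ := id h
      have hv' := hv
      rw [eX] at hv'
      simp only [mem_insert, mem_singleton] at hv'
      rcases hv' with e | e | e | e
      · exact absurd e huv'.symm
      · exfalso
        apply hn
        rw [eQ, e]
        simp [TFC.sq]
      · subst e
        exact ⟨_, _, Clus_rot (Clus_ref (Clus_rot (Clus_ref (Clus_rot (Clus_rot (Clus_rot h))))))⟩
      · exfalso
        apply hn
        rw [eQ, e, Sym2.eq_swap]
        simp [TFC.sq]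
    obtain ⟨b, d, ⟨a1, a2, a3, a4, a5, a6⟩, eQ, eX⟩ := key Q oQ hcon.1
    obtain ⟨b', d', ⟨b1, b2, b3, b4, b5, b6⟩, eR, eX'⟩ := key R oR hcon.2
    have hbm : b ∈ X := by rw [eX]; simp
    have hdm : d ∈ X := by rw [eX]; simp
    rw [eX'] at hbm hdm
    simp only [mem_insert, mem_singleton] at hbm hdm
    apply hne
    have hb : b = b' ∨ b = d' := by
      rcases hbm with e | e | e | e
      · exact Or.inl e
      · exact absurd e a1
      · exact Or.inr e
      · exact absurd e a3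
    have hd : d = b' ∨ d = d' := by
      rcases hdm with e | e | e | e
      · exact Or.inl e
      · exact absurd e a4.symm
      · exact Or.inr e
      · exact absurd e a6
    rcases hb with rfl | rfl
    · rcases hd with rfl | rfl
      · exact absurd rfl a2
      · rw [eQ, eR]
    · rcases hd with rfl | rfl
      · rw [eQ, eR]
        have e1 : s(d, u) = s(u, d) := Sym2.eq_swap
        have e2 : s(u, b) = s(b, u) := Sym2.eq_swap
        have e3 : s(b, v) = s(v, b) := Sym2.eq_swap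
        have e4 : s(v, d) = s(d, v) := Sym2.eq_swap
        ext e
        simp only [TFC.sq, mem_insert, mem_singleton, e1, e2, e3, e4]
        tauto
      · exact absurd rfl a2
  refine ⟨fun S _ hS => sub S hS, ?_, ?_⟩
  · intro e he
    induction e using Sym2.ind with
    | _ u v => exact cov u v he
  · intro T hT hTn' e heT heK
    obtain ⟨Y, oT⟩ := Clus_isSq (hD T hT)
    -- the main argument
    have main : ∀ p q r s, Clus_F T Y p q r s → p ∈ X → q ∈ X → s ∉ X → False := by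
      intro p q r s h hp hq hs
      obtain ⟨⟨h1, h2, h3, h4, h5, h6⟩, eT, -⟩ := h
      have hiff : ∀ Z ∈ D, Clus_On Z X → (s(p, q) ∈ Z ↔ s(q, r) ∈ Z) := by
        intro Z hZ oZ
        have hTZ : T ≠ Z := by
          rintro rfl
          exact hTn' (sub _ oZ)
        have hcard := hc T hT Z hZ hTZ
        have n1 : s(r, s) ∉ Z := fun h => hs (Clus_mem oZ h).2.1
        have n2 : s(s, p) ∉ Z := fun h => hs (Clus_mem oZ h).1
        constructor
        · intro h
          obtain ⟨e', he1, he2, he3⟩ := Clus_second hcard (e := s(p, q)) (by rw [eT]; simp [TFC.sq]) h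
          rw [eT] at he1
          simp only [TFC.sq, mem_insert, mem_singleton] at he1
          rcases he1 with rfl | rfl | rfl | rfl
          · exact absurd rfl he3
          · exact he2
          · exact absurd he2 n1
          · exact absurd he2 n2
        · intro h
          obtain ⟨e', he1, he2, he3⟩ := Clus_second hcard (e := s(q, r)) (by rw [eT]; simp [TFC.sq]) h
          rw [eT] at he1
          simp only [TFC.sq, mem_insert, mem_singleton] at he1
          rcases he1 with rfl | rfl | rfl | rfl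
          · exact he2
          · exact absurd rfl he3
          · exact absurd he2 n1
          · exact absurd he2 n2
      have final : ∀ Z Z', Z ∈ D → Z' ∈ D → Clus_On Z X → Clus_On Z' X → Z ≠ Z' → s(p, q) ∈ Z → False := by
        intro Z Z' hZ hZ' oZ oZ' hZZ hpq
        have hqr := (hiff Z hZ oZ).1 hpq
        by_cases hpq' : s(p, q) ∈ Z'
        · exact hZZ (Clus_eq oZ oZ' h2 hpq hqr hpq' ((hiff Z' hZ' oZ').1 hpq'))
        · have hqr' : s(q, r) ∉ Z' := fun h => hpq' ((hiff Z' hZ' oZ').2 h)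
          have hr : r ∈ X := (Clus_mem oZ hqr).2.1
          obtain ⟨b, c, d, ⟨c1, c2, c3, c4, c5, c6⟩, eZ, eX⟩ := Clus_start oZ' hq
          have only : ∀ m, m ∈ X → m ≠ q → s(q, m) ∉ Z' → m = c := by
            intro m hm hmq hn
            rw [eX] at hm
            simp only [mem_insert, mem_singleton] at hm
            rcases hm with e | e | e | e
            · exact absurd e hmq
            · exfalso
              apply hn
              rw [eZ, e]
              simp [TFC.sq]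
            · exact e
            · exfalso
              apply hn
              rw [eZ, e, Sym2.eq_swap]
              simp [TFC.sq]
          have e1 := only p hp h1 (by rw [Sym2.eq_swap]; exact hpq')
          have e2 := only r hr h4.symm hqr'
          exact h2 (e1.trans e2.symm)
      rcases cov p q (Clus_k4.2 ⟨hp, hq, h1⟩) with h | h
      · exact final Q R hQ hR oQ oR hne h
      · exact final R Q hR hQ oR oQ hne.symm h
    induction e using Sym2.ind with
    | _ p q =>
      obtain ⟨hp, hq, hpq⟩ := Clus_k4.1 heK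
      obtain ⟨r, s, h⟩ := Clus_adj oT heT
      by_cases hs : s ∈ X
      · by_cases hr : r ∈ X
        · apply hTn'
          obtain ⟨⟨h1, h2, h3, h4, h5, h6⟩, eT, -⟩ := h
          rw [eT]
          intro e he
          simp only [TFC.sq, mem_insert, mem_singleton] at he
          rcases he with rfl | rfl | rfl | rfl
          · exact Clus_k4.2 ⟨hp, hq, h1⟩
          · exact Clus_k4.2 ⟨hq, hr, h4⟩
          · exact Clus_k4.2 ⟨hr, hs, h6⟩
          · exact Clus_k4.2 ⟨hs, hp, h3.symm⟩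
        · exact main q p s r (Clus_rot (Clus_rot (Clus_ref h))) hq hp hr
      · exact main p q r s h hp hq hs

/-- case 2 -/
lemma k2_case {D : Finset (Finset (Sym2 V))} (hD : ∀ Q ∈ D, IsSq Q)
    (hc : ∀ Q ∈ D, ∀ R ∈ D, Q ≠ R → #(Q ∩ R) ≠ 1) {x y a b c : V} (hQ : TFC.sq x a y b ∈ D)
    (hR : TFC.sq x a y c ∈ D) (dQ : Dist4 x a y b) (dR : Dist4 x a y c) (hbc : b ≠ c) :
    ∃ (L : Finset V) (D' : Finset (Finset (Sym2 V))), D' ⊆ D ∧ TFC.sq x a y b ∈ D' ∧ (Clu.k2 x y L).Valid ∧
      (∀ S ∈ D', S ⊆ (Clu.k2 x y L).edges) ∧ (Clu.k2 x y L).edges ⊆ D'.biUnion id ∧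
      (∀ T ∈ D, T ∉ D' → ∀ e ∈ T, e ∉ (Clu.k2 x y L).edges) ∧
      ∀ l ∈ L, ∃ l', Dist4 x l y l' ∧ TFC.sq x l y l' ∈ D ∧
        ∃ m m' m'', ((m = l ∧ m' = l') ∨ (m = l' ∧ m' = l)) ∧ Dist4 x m y m'' ∧ m'' ≠ m' ∧
        TFC.sq x m y m'' ∈ D := by
  classical
  obtain ⟨Pr, hPr⟩ : ∃ Pr : Finset (Sym2 V) → Prop, ∀ S, Pr S ↔ ∃ l l' l'', Dist4 x l y l' ∧
      Dist4 x l y l'' ∧ l' ≠ l'' ∧ S = TFC.sq x l y l' ∧ TFC.sq x l y l'' ∈ D := ⟨_, fun _ => Iff.rfl⟩
  set D' := D.filter Pr with hD'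
  have hmD' : ∀ S, S ∈ D' ↔ S ∈ D ∧ Pr S := fun S => mem_filter
  set L : Finset V := (D'.biUnion (fun S => S.biUnion Sym2.toFinset)).filter (fun l => l ≠ x ∧ l ≠ y) with hL
  have hmL : ∀ l, l ∈ L ↔ (∃ S ∈ D', ∃ e ∈ S, l ∈ e) ∧ l ≠ x ∧ l ≠ y := by
    intro l
    rw [hL, mem_filter]
    simp only [mem_biUnion, Sym2.mem_toFinset]
  -- leaves of members of D'
  have leafL : ∀ l l', Dist4 x l y l' → TFC.sq x l y l' ∈ D' → l ∈ L ∧ l' ∈ L := by
    rintro l l' ⟨h1, h2, h3, h4, h5, h6⟩ hS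
    refine ⟨(hmL l).2 ⟨⟨_, hS, s(x, l), by simp [TFC.sq], by simp⟩, h1.symm, h4⟩,
      (hmL l').2 ⟨⟨_, hS, s(y, l'), by simp [TFC.sq], by simp⟩, h3.symm, h6.symm⟩⟩
  have ofL : ∀ l ∈ L, ∃ l', Dist4 x l y l' ∧ TFC.sq x l y l' ∈ D' ∧
      ∃ m m' m'', ((m = l ∧ m' = l') ∨ (m = l' ∧ m' = l)) ∧ Dist4 x m y m'' ∧ m'' ≠ m' ∧
      TFC.sq x m y m'' ∈ D := by
    intro l hl
    obtain ⟨⟨S, hS, e, he, hle⟩, hlx, hly⟩ := (hmL l).1 hl
    have hS' := hS
    obtain ⟨hSD, m, m', m'', d1, d2, hmm, rfl, hSm⟩ := (hmD' S).1 hS |>.imp_right (hPr S).1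
    have hl' : l = m ∨ l = m' := by
      simp only [TFC.sq, mem_insert, mem_singleton] at he
      rcases he with rfl | rfl | rfl | rfl <;> rw [Sym2.mem_iff] at hle <;> tauto
    rcases hl' with rfl | rfl
    · exact ⟨m', d1, hS', l, m', m'', Or.inl ⟨rfl, rfl⟩, d2, hmm.symm, hSm⟩
    · obtain ⟨d3, e3⟩ := Clus_sq_leaf d1
      exact ⟨m, d3, by rw [← e3]; exact hS', m, l, m'', Or.inr ⟨rfl, rfl⟩, d2, hmm.symm, hSm⟩
  have hQ' : TFC.sq x a y b ∈ D' := (hmD' _).2 ⟨hQ, (hPr _).2 ⟨a, b, c, dQ, dR, hbc, rfl, hR⟩⟩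
  have hedge : ∀ l ∈ L, s(x, l) ∈ (Clu.k2 x y L).edges ∧ s(y, l) ∈ (Clu.k2 x y L).edges := by
    intro l hl
    constructor
    · exact mem_union_left _ (mem_image_of_mem _ hl)
    · exact mem_union_right _ (mem_image_of_mem _ hl)
  refine ⟨L, D', filter_subset _ _, hQ', ⟨dQ.2.1, ?_, ?_, ?_⟩, ?_, ?_, ?_, ?_⟩
  · intro h
    exact ((hmL x).1 h).2.1 rfl
  · intro h
    exact ((hmL y).1 h).2.2 rfl
  · obtain ⟨h1, h2⟩ := leafL a b dQ hQ'
    exact one_lt_card.2 ⟨a, h1, b, h2, dQ.2.2.2.2.1⟩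
  · intro S hS
    have hS' := hS
    obtain ⟨hSD, m, m', m'', d1, d2, hmm, rfl, hSm⟩ := (hmD' S).1 hS |>.imp_right (hPr S).1
    obtain ⟨h1, h2⟩ := leafL m m' d1 hS'
    intro e he
    simp only [TFC.sq, mem_insert, mem_singleton] at he
    rcases he with rfl | rfl | rfl | rfl
    · exact (hedge m h1).1
    · rw [Sym2.eq_swap]; exact (hedge m h1).2
    · exact (hedge m' h2).2
    · rw [Sym2.eq_swap]; exact (hedge m' h2).1
  · intro e he
    rw [mem_biUnion]
    have he' : (∃ l ∈ L, s(x, l) = e) ∨ (∃ l ∈ L, s(y, l) = e) := by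
      simpa [Clu.edges] using he
    rcases he' with ⟨l, hl, rfl⟩ | ⟨l, hl, rfl⟩
    · obtain ⟨l', d, hS, -⟩ := ofL l hl
      exact ⟨_, hS, by simp [TFC.sq]⟩
    · obtain ⟨l', d, hS, -⟩ := ofL l hl
      exact ⟨_, hS, by rw [Sym2.eq_swap]; simp [TFC.sq]⟩
  · intro T hT hTn e heT heK
    have he' : (∃ l ∈ L, s(x, l) = e) ∨ (∃ l ∈ L, s(y, l) = e) := by
      simpa [Clu.edges] using heK
    rcases he' with ⟨l, hl, rfl⟩ | ⟨l, hl, rfl⟩
    · obtain ⟨l', d, hS, hP⟩ := ofL l hl
      refine Clus_core hD hc hT d ((hmD' _).1 hS).1 (fun h => hTn (by rw [h]; exact hS)) ?_ heT hP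
      intro m dm hm h
      apply hTn
      rw [hmD']
      exact ⟨hT, (hPr T).2 ⟨l, m, l', dm, d, hm, h, ((hmD' _).1 hS).1⟩⟩
    · obtain ⟨l', d, hS, m, m', m'', hm, d2, hmm, hSm⟩ := ofL l hl
      obtain ⟨d', e'⟩ := Clus_sq_cen d
      obtain ⟨d2', e2'⟩ := Clus_sq_cen d2
      have hSD := ((hmD' _).1 hS).1
      refine Clus_core hD hc hT d' (by rw [← e']; exact hSD) (fun h => hTn (by rw [h, ← e']; exact hS)) ?_ heT
        ⟨m, m', m'', hm, d2', hmm, by rw [← e2']; exact hSm⟩
      intro k dk hk h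
      obtain ⟨dk', ek'⟩ := Clus_sq_cen dk
      apply hTn
      rw [hmD']
      exact ⟨hT, (hPr T).2 ⟨l, k, l', dk', d, hk, by rw [h, ek'], hSD⟩⟩
  · intro l hl
    obtain ⟨l', d, hS, hP⟩ := ofL l hl
    exact ⟨l', d, ((hmD' _).1 hS).1, hP⟩

/-- a triangle with two edges in `K_4` -/
lemma tri_k4 {T : Finset (Sym2 V)} (hT : IsTri T) {X : Finset V} {e e' : Sym2 V} (he : e ∈ T) (he' : e' ∈ T)
    (hne : e' ≠ e) (h : e ∈ (Clu.k4 X).edges) (h' : e' ∈ (Clu.k4 X).edges) : T ⊆ (Clu.k4 X).edges := by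
  induction e using Sym2.ind with
  | _ u v =>
    obtain ⟨c, hc, rfl⟩ := isTri_first hT he
    obtain ⟨h1, h2, h3⟩ := Clus_k4.1 h
    have hcX : c ∈ X := by
      simp only [tri, mem_insert, mem_singleton] at he'
      rcases he' with rfl | rfl | rfl
      · exact absurd rfl hne
      · exact (Clus_k4.1 h').2.1
      · exact (Clus_k4.1 h').1
    rw [tri_sub]
    exact ⟨h, Clus_k4.2 ⟨h2, hcX, hc.2.2⟩, Clus_k4.2 ⟨hcX, h1, hc.2.1.symm⟩⟩

/-- a triangle meeting a star cluster -/
lemma tri_core {T : Finset (Sym2 V)} (hT : IsTri T) {D : Finset (Finset (Sym2 V))}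
    (hc : ∀ S ∈ D, IsSq S → #(T ∩ S) ≠ 1) {x y l l' : V} (d : Dist4 x l y l') (hS : TFC.sq x l y l' ∈ D)
    (hP : ∃ m m' m'', ((m = l ∧ m' = l') ∨ (m = l' ∧ m' = l)) ∧ Dist4 x m y m'' ∧ m'' ≠ m' ∧
      TFC.sq x m y m'' ∈ D) (he : s(x, l) ∈ T) : T = tri x y l := by
  obtain ⟨t, ⟨t1, t2, t3⟩, rfl⟩ := isTri_first hT he
  obtain ⟨k1, k2, k3, k4, k5, k6⟩ := id d
  obtain ⟨e', he1, he2, he3⟩ := Clus_second (hc _ hS ⟨_, _, _, _, d, rfl⟩) he (by simp [TFC.sq])
  simp only [tri, mem_insert, mem_singleton] at he1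
  have ht : t = y ∨ t = l' := by
    rcases he1 with rfl | rfl | rfl
    · exact absurd rfl he3
    · left
      simpa [TFC.sq, k1, k2, k3, k4, k5, k6, k1.symm, k2.symm, k3.symm, k4.symm, k5.symm, k6.symm, t1, t2, t3, t1.symm,
        t2.symm, t3.symm] using he2
    · right
      simpa [TFC.sq, k1, k2, k3, k4, k5, k6, k1.symm, k2.symm, k3.symm, k4.symm, k5.symm, k6.symm, t1, t2, t3, t1.symm,
        t2.symm, t3.symm] using he2
  rcases ht with rfl | rfl
  · exact tri_ref2 _ _ _
  · exfalso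
    obtain ⟨m, m', m'', hm, d2, hmm, hSm⟩ := hP
    obtain ⟨n1, n2, n3, n4, n5, n6⟩ := id d2
    have hin : s(x, m) ∈ tri x l t := by
      rcases hm with ⟨rfl, rfl⟩ | ⟨rfl, rfl⟩
      · simp [tri]
      · rw [Sym2.eq_swap]; simp [tri]
    obtain ⟨e2, f1, f2, f3⟩ := Clus_second (hc _ hSm ⟨_, _, _, _, d2, rfl⟩) hin (by simp [TFC.sq])
    simp only [tri, mem_insert, mem_singleton] at f1
    rcases hm with ⟨rfl, rfl⟩ | ⟨rfl, rfl⟩
    · rcases f1 with rfl | rfl | rfl
      · exact f3 rfl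
      all_goals
        simp [TFC.sq, n1, n2, n3, n4, n5, n6, n1.symm, n2.symm, n3.symm, n4.symm, n5.symm, n6.symm, k1, k2, k3, k4,
            k5, k6, k1.symm, k2.symm, k3.symm, k4.symm, k5.symm, k6.symm, hmm, hmm.symm] at f2
    · rcases f1 with rfl | rfl | rfl
      · simp [TFC.sq, n1, n2, n3, n4, n5, n6, n1.symm, n2.symm, n3.symm, n4.symm, n5.symm, n6.symm, k1, k2, k3, k4,
            k5, k6, k1.symm, k2.symm, k3.symm, k4.symm, k5.symm, k6.symm, hmm, hmm.symm] at f2
      · simp [TFC.sq, n1, n2, n3, n4, n5, n6, n1.symm, n2.symm, n3.symm, n4.symm, n5.symm, n6.symm, k1, k2, k3, k4,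
            k5, k6, k1.symm, k2.symm, k3.symm, k4.symm, k5.symm, k6.symm, hmm, hmm.symm] at f2
      · exact f3 Sym2.eq_swap

/-- the conclusion of one step -/
def Step3 (D : Finset (Finset (Sym2 V))) (Q : Finset (Sym2 V)) : Prop :=
  ∃ (c : Clu3 V) (D' : Finset (Finset (Sym2 V))), D' ⊆ D ∧ Q ∈ D' ∧ c.Valid ∧ (∀ S ∈ D', S ⊆ c.edges) ∧
    c.edges ⊆ D'.biUnion id ∧ ∀ T ∈ D, T ∉ D' → ∀ e ∈ T, e ∉ c.edges

lemma k2_edges {x y : V} {L : Finset V} {e : Sym2 V} :
    e ∈ (Clu.k2 x y L).edges ↔ (∃ l ∈ L, s(x, l) = e) ∨ (∃ l ∈ L, s(y, l) = e) := by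
  simp [Clu.edges]

lemma star_hc {D : Finset (Finset (Sym2 V))} (hst : StarV D) {T S : Finset (Sym2 V)} (hT : T ∈ D) (hS : S ∈ D)
    (hs : IsSq S) (hne : T ≠ S) : #(T ∩ S) ≠ 1 := by
  intro h
  obtain ⟨x, y, p, r, ⟨h1, h2, h3, h4, h5, h6⟩, e1, e2, -⟩ := hst T hT S hS hne h
  exact tri_not_sq ⟨x, y, r, ⟨h1, h3, h5⟩, e2⟩ hs

/-- from the squares to all members -/
lemma up {D : Finset (Finset (Sym2 V))} (hD : ∀ Q ∈ D, IsSh Q) (hst : StarV D) {x y : V} {L : Finset V}
    {D' : Finset (Finset (Sym2 V))} (hD' : D' ⊆ D) {Q : Finset (Sym2 V)} (hQ : Q ∈ D')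
    (hv : (Clu.k2 x y L).Valid) (h1 : ∀ S ∈ D', S ⊆ (Clu.k2 x y L).edges)
    (h2 : (Clu.k2 x y L).edges ⊆ D'.biUnion id)
    (h3 : ∀ S ∈ D, IsSq S → S ∉ D' → ∀ e ∈ S, e ∉ (Clu.k2 x y L).edges)
    (h4 : ∀ T ∈ D, IsTri T → ∀ e ∈ T, e ∈ (Clu.k2 x y L).edges → ∃ l ∈ L, T = tri x y l) : Step3 D Q := by
  classical
  by_cases hn : ∃ l ∈ L, tri x y l ∈ D
  · obtain ⟨l0, hl0, hT0⟩ := hn
    obtain ⟨hxy, hxL, hyL, hL⟩ := hv
    have hx0 : x ≠ l0 := fun h => hxL (h ▸ hl0)
    have hy0 : y ≠ l0 := fun h => hyL (h ▸ hl0)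
    have d0 : Dist3 x y l0 := ⟨hxy, hx0, hy0⟩
    have ed : ∀ l ∈ L, s(x, l) ∈ (Clu.k2 x y L).edges ∧ s(y, l) ∈ (Clu.k2 x y L).edges := fun l hl =>
      ⟨k2_edges.2 (Or.inl ⟨l, hl, rfl⟩), k2_edges.2 (Or.inr ⟨l, hl, rfl⟩)⟩
    refine ⟨Clu3.k11 x y L, D' ∪ D.filter (fun T => ∃ l ∈ L, T = tri x y l), ?_, mem_union_left _ hQ,
      ⟨hxy, hxL, hyL, by omega⟩, ?_, ?_, ?_⟩
    · exact union_subset hD' (filter_subset _ _)
    · intro S hS
      rcases mem_union.1 hS with h | h
      · exact (h1 S h).trans (subset_insert _ _)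
      · obtain ⟨-, l, hl, rfl⟩ := mem_filter.1 h
        rw [tri_sub]
        exact ⟨mem_insert_self _ _, mem_insert_of_mem (ed l hl).2,
          mem_insert_of_mem (by rw [Sym2.eq_swap]; exact (ed l hl).1)⟩
    · intro e he
      rcases mem_insert.1 he with rfl | he
      · exact mem_biUnion.2 ⟨tri x y l0, mem_union_right _ (mem_filter.2 ⟨hT0, l0, hl0, rfl⟩), by simp [tri]⟩
      · obtain ⟨S, hS, heS⟩ := mem_biUnion.1 (h2 he)
        exact mem_biUnion.2 ⟨S, mem_union_left _ hS, heS⟩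
    · intro T hT hTn e heT heK
      have hTn' : T ∉ D' := fun h => hTn (mem_union_left _ h)
      have hTn'' : ¬ ∃ l ∈ L, T = tri x y l := fun h => hTn (mem_union_right _ (mem_filter.2 ⟨hT, h⟩))
      rcases mem_insert.1 heK with rfl | heK
      · rcases hD T hT with hTT | hTS
        · obtain ⟨t, ht, rfl⟩ := isTri_first hTT heT
          have ht0 : t ≠ l0 := by
            rintro rfl
            exact hTn'' ⟨t, hl0, rfl⟩
          obtain ⟨t1, t2, t3⟩ := id ht
          have hcard : #(tri x y l0 ∩ tri x y t) = 1 := by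
            rw [card_eq_one]
            refine ⟨s(x, y), ?_⟩
            ext e
            simp only [tri, mem_inter, mem_insert, mem_singleton]
            constructor
            · rintro ⟨rfl | rfl | rfl, f⟩
              · rfl
              all_goals
                exfalso
                simp [hxy, hxy.symm, hx0, hx0.symm, hy0, hy0.symm, t1, t2, t3, t1.symm, t2.symm, t3.symm, ht0,
                  ht0.symm] at f
            · rintro rfl
              exact ⟨Or.inl rfl, Or.inl rfl⟩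
          have hne : tri x y l0 ≠ tri x y t := by
            intro h
            rw [h, inter_self, card_tri ht] at hcard
            omega
          obtain ⟨x', y', p, r, ⟨g1, g2, g3, g4, g5, g6⟩, e1, e2, hS⟩ := hst _ hT0 _ hT hne hcard
          have hxy' : s(x', y') = s(x, y) := by
            rw [card_eq_one] at hcard
            obtain ⟨e0, he0⟩ := hcard
            have a1 : s(x', y') ∈ tri x y l0 ∩ tri x y t := by
              rw [e1, e2]; simp [tri]
            have a2 : s(x, y) ∈ tri x y l0 ∩ tri x y t := by simp [tri]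
            rw [he0, mem_singleton] at a1 a2
            rw [a1, a2]
          have key : ∀ p l, p ≠ x → p ≠ y → x ≠ l → y ≠ l → s(y, p) ∈ tri x y l → p = l := by
            intro p l p1 p2 p3 p4 h
            simpa [tri, p1, p2, p3, p4, p1.symm, p2.symm, p3.symm, p4.symm, hxy, hxy.symm] using h
          have fin : TFC.sq x l0 y t ∈ D := by
            rw [Sym2.eq_iff] at hxy'
            rcases hxy' with ⟨rfl, rfl⟩ | ⟨rfl, rfl⟩
            · have hp : p = l0 := key p l0 g2.symm g4.symm hx0 hy0 (by rw [e1]; simp [tri])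
              have hr : r = t := key r t g3.symm g5.symm t2 t3 (by rw [e2]; simp [tri])
              rw [hp, hr] at hS
              exact hS
            · have hp : p = l0 := key p l0 g4.symm g2.symm hx0 hy0 (by rw [e1, Sym2.eq_swap]; simp [tri])
              have hr : r = t := key r t g5.symm g3.symm t2 t3 (by rw [e2, Sym2.eq_swap]; simp [tri])
              rw [hp, hr] at hS
              have d4 : Dist4 x' l0 y' t := by
                rw [hp] at g2 g4 g6
                rw [hr] at g3 g5 g6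
                exact ⟨g2, g1, g3, g4.symm, g6, g5⟩
              rw [(Clus_sq_cen d4).2] at hS
              exact hS
          have d4 : Dist4 x l0 y t := ⟨hx0, hxy, t2, hy0.symm, ht0.symm, t3⟩
          have hSD' : TFC.sq x l0 y t ∈ D' := by
            by_contra hcon
            exact h3 _ fin ⟨_, _, _, _, d4, rfl⟩ hcon s(x, l0) (by simp [TFC.sq]) (ed l0 hl0).1
          have := h1 _ hSD' (show s(t, x) ∈ TFC.sq x l0 y t by simp [TFC.sq])
          rw [k2_edges] at this
          apply hTn''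
          refine ⟨t, ?_, rfl⟩
          rcases this with ⟨l, hl, h⟩ | ⟨l, hl, h⟩
          · rw [Sym2.eq_iff] at h
            rcases h with ⟨h, -⟩ | ⟨-, h⟩
            · exact absurd h t2
            · rw [← h]; exact hl
          · rw [Sym2.eq_iff] at h
            rcases h with ⟨h, -⟩ | ⟨h, -⟩
            · exact absurd h t3
            · exact absurd h hxy.symm
        · have hne : tri x y l0 ≠ T := by
            rintro rfl
            exact tri_not_sq ⟨_, _, _, d0, rfl⟩ hTS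
          obtain ⟨e', f1, f2, f3⟩ := Clus_second (star_hc hst hT0 hT hTS hne) (e := s(x, y)) (by simp [tri]) heT
          refine h3 T hT hTS hTn' e' f2 ?_
          simp only [tri, mem_insert, mem_singleton] at f1
          rcases f1 with rfl | rfl | rfl
          · exact absurd rfl f3
          · exact (ed l0 hl0).2
          · rw [Sym2.eq_swap]; exact (ed l0 hl0).1
      · rcases hD T hT with hTT | hTS
        · exact hTn'' (h4 T hT hTT e heT heK)
        · exact h3 T hT hTS hTn' e heT heK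
  · refine ⟨Clu3.k2 x y L, D', hD', hQ, hv, h1, h2, ?_⟩
    intro T hT hTn e heT heK
    rcases hD T hT with hTT | hTS
    · obtain ⟨l, hl, rfl⟩ := h4 T hT hTT e heT heK
      exact hn ⟨l, hl, hT⟩
    · exact h3 T hT hTS hTn e heT heK

/-- a triangle sharing two edges with a square -/
lemma tri_sq {T : Finset (Sym2 V)} (hT : IsTri T) {a b c d : V} (h4 : Dist4 a b c d)
    (hc : #(T ∩ TFC.sq a b c d) ≠ 1) {e : Sym2 V} (he : e ∈ T) (he' : e ∈ TFC.sq a b c d) :
    T = tri a c b ∨ T = tri a c d ∨ T = tri b d a ∨ T = tri b d c := by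
  obtain ⟨e', f1, f2, f3⟩ := Clus_second hc he he'
  have key : ∀ a b c d : V, Dist4 a b c d → s(a, b) ∈ T → e' ∈ T → e' ∈ TFC.sq a b c d → e' ≠ s(a, b) →
      T = tri a b c ∨ T = tri a b d := by
    intro a b c d ⟨k1, k2, k3, k4, k5, k6⟩ g1 g2 g3 g4
    obtain ⟨t, ⟨t1, t2, t3⟩, rfl⟩ := isTri_first hT g1
    simp only [tri, mem_insert, mem_singleton] at g2
    rcases g2 with rfl | rfl | rfl
    · exact absurd rfl g4
    · left
      have : t = c := by
        simpa [TFC.sq, k1, k2, k3, k4, k5, k6, k1.symm, k2.symm, k3.symm, k4.symm, k5.symm, k6.symm, t1, t2, t3,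
          t1.symm, t2.symm, t3.symm] using g3
      rw [this]
    · right
      have : t = d := by
        simpa [TFC.sq, k1, k2, k3, k4, k5, k6, k1.symm, k2.symm, k3.symm, k4.symm, k5.symm, k6.symm, t1, t2, t3,
          t1.symm, t2.symm, t3.symm] using g3
      rw [this]
  obtain ⟨k1, k2, k3, k4, k5, k6⟩ := id h4
  have r1 : TFC.sq a b c d = TFC.sq b c d a := (Clus_rot ⟨h4, rfl, rfl⟩).2.1
  have r2 : TFC.sq a b c d = TFC.sq c d a b := (Clus_rot (Clus_rot ⟨h4, rfl, rfl⟩)).2.1
  have r3 : TFC.sq a b c d = TFC.sq d a b c := (Clus_rot (Clus_rot (Clus_rot ⟨h4, rfl, rfl⟩))).2.1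
  have he'' := he'
  simp only [TFC.sq, mem_insert, mem_singleton] at he''
  rcases he'' with rfl | rfl | rfl | rfl
  · rcases key a b c d h4 he f1 f2 f3 with h | h
    · exact Or.inl (h.trans (tri_ref2 _ _ _))
    · exact Or.inr (Or.inr (Or.inl (h.trans (tri_rot _ _ _))))
  · rw [r1] at f2
    rcases key b c d a ⟨k4, k5, k1.symm, k6, k2.symm, k3.symm⟩ he f1 f2 f3 with h | h
    · exact Or.inr (Or.inr (Or.inr (h.trans (tri_ref2 _ _ _))))
    · exact Or.inl (h.trans (tri_rev _ _ _))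
  · rw [r2] at f2
    rcases key c d a b ⟨k6, k2.symm, k4.symm, k3.symm, k5.symm, k1⟩ he f1 f2 f3 with h | h
    · exact Or.inr (Or.inl (h.trans (tri_rot2 _ _ _)))
    · exact Or.inr (Or.inr (Or.inr (h.trans (tri_rev _ _ _))))
  · rw [r3] at f2
    rcases key d a b c ⟨k3.symm, k5.symm, k6.symm, k1, k2, k4⟩ he f1 f2 f3 with h | h
    · exact Or.inr (Or.inr (Or.inl (h.trans (tri_rot2 _ _ _))))
    · exact Or.inr (Or.inl (h.trans (tri_rot _ _ _)))

/-- an isolated square is not met by triangles with different chords -/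
lemma two_chords {D : Finset (Finset (Sym2 V))} (hst : StarV D) {a b c d : V} (h4 : Dist4 a b c d)
    (hiso : ∀ R ∈ D, IsSq R → R ≠ TFC.sq a b c d → ∀ e ∈ R, e ∉ TFC.sq a b c d) (h1 : tri a b c ∈ D)
    (h2 : tri a b d ∈ D) : False := by
  obtain ⟨k1, k2, k3, k4, k5, k6⟩ := id h4
  have hcard : #(tri a b c ∩ tri a b d) = 1 := by
    rw [card_eq_one]
    refine ⟨s(a, b), ?_⟩
    ext e
    simp only [tri, mem_inter, mem_insert, mem_singleton]
    constructor
    · rintro ⟨rfl | rfl | rfl, f⟩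
      · rfl
      all_goals
        exfalso
        simp [k1, k2, k3, k4, k5, k6, k1.symm, k2.symm, k3.symm, k4.symm, k5.symm, k6.symm] at f
    · rintro rfl
      exact ⟨Or.inl rfl, Or.inl rfl⟩
  have hne : tri a b c ≠ tri a b d := by
    intro h
    rw [h, inter_self, card_tri ⟨k1, k3, k5⟩] at hcard
    omega
  obtain ⟨x', y', p, r, ⟨g1, g2, g3, g4, g5, g6⟩, e1, e2, hS⟩ := hst _ h1 _ h2 hne hcard
  have hxy' : s(x', y') = s(a, b) := by
    rw [card_eq_one] at hcard
    obtain ⟨e0, he0⟩ := hcard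
    have a1 : s(x', y') ∈ tri a b c ∩ tri a b d := by
      rw [e1, e2]; simp [tri]
    have a2 : s(a, b) ∈ tri a b c ∩ tri a b d := by simp [tri]
    rw [he0, mem_singleton] at a1 a2
    rw [a1, a2]
  have key : ∀ p l, p ≠ a → p ≠ b → a ≠ l → b ≠ l → s(b, p) ∈ tri a b l → p = l := by
    intro p l p1 p2 p3 p4 h
    simpa [tri, p1, p2, p3, p4, p1.symm, p2.symm, p3.symm, p4.symm, k1, k1.symm] using h
  have d4 : Dist4 a c b d := ⟨k2, k1, k3, k4.symm, k6, k5⟩
  have fin : TFC.sq a c b d ∈ D := by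
    rw [Sym2.eq_iff] at hxy'
    rcases hxy' with ⟨rfl, rfl⟩ | ⟨rfl, rfl⟩
    · have hp : p = c := key p c g2.symm g4.symm k2 k4 (by rw [e1]; simp [tri])
      have hr : r = d := key r d g3.symm g5.symm k3 k5 (by rw [e2]; simp [tri])
      rw [hp, hr] at hS
      exact hS
    · have hp : p = c := key p c g4.symm g2.symm k2 k4 (by rw [e1, Sym2.eq_swap]; simp [tri])
      have hr : r = d := key r d g5.symm g3.symm k3 k5 (by rw [e2, Sym2.eq_swap]; simp [tri])
      rw [hp, hr] at hS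
      rw [(Clus_sq_cen d4).2]
      exact hS
  refine hiso _ fin ⟨_, _, _, _, d4, rfl⟩ ?_ s(c, b) (by simp [TFC.sq]) (by rw [Sym2.eq_swap]; simp [TFC.sq])
  intro h
  have : s(a, c) ∈ TFC.sq a b c d := by rw [← h]; simp [TFC.sq]
  simp [TFC.sq, k1, k2, k3, k4, k5, k6, k1.symm, k2.symm, k3.symm, k4.symm, k5.symm, k6.symm] at this

lemma k2_sq (a b c d : V) : (Clu.k2 a c {b, d}).edges = TFC.sq a b c d := by
  ext e
  have e1 : s(b, c) = s(c, b) := Sym2.eq_swap
  have e2 : s(d, a) = s(a, d) := Sym2.eq_swap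
  simp only [Clu.edges, TFC.sq, mem_union, mem_image, mem_insert, mem_singleton, e1, e2]
  constructor
  · rintro (⟨l, rfl | rfl, rfl⟩ | ⟨l, rfl | rfl, rfl⟩) <;> simp
  · rintro (rfl | rfl | rfl | rfl)
    · exact Or.inl ⟨b, Or.inl rfl, rfl⟩
    · exact Or.inr ⟨b, Or.inl rfl, rfl⟩
    · exact Or.inr ⟨d, Or.inr rfl, rfl⟩
    · exact Or.inl ⟨d, Or.inr rfl, rfl⟩

/-- an isolated square, triangles with one chord only -/
lemma iso_core {D : Finset (Finset (Sym2 V))} (hD : ∀ Q ∈ D, IsSh Q) (hst : StarV D) {a b c d : V}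
    (h4 : Dist4 a b c d) (hQ : TFC.sq a b c d ∈ D)
    (hiso : ∀ R ∈ D, IsSq R → R ≠ TFC.sq a b c d → ∀ e ∈ R, e ∉ TFC.sq a b c d) (n1 : tri b d a ∉ D)
    (n2 : tri b d c ∉ D) : Step3 D (TFC.sq a b c d) := by
  obtain ⟨k1, k2, k3, k4, k5, k6⟩ := id h4
  refine up hD hst (x := a) (y := c) (L := {b, d}) (D' := {TFC.sq a b c d}) (by simpa using hQ)
    (mem_singleton_self _) ⟨k2, by simp [k1, k3], by simp [k4.symm, k6], by rw [card_pair k5]⟩ ?_ ?_ ?_ ?_
  · intro S hS
    rw [mem_singleton] at hS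
    rw [hS, k2_sq]
  · rw [k2_sq]
    intro e he
    exact mem_biUnion.2 ⟨_, mem_singleton_self _, he⟩
  · intro S hS hs hn e he
    rw [k2_sq]
    exact hiso S hS hs (by simpa using hn) e he
  · intro T hT hTT e he he'
    rw [k2_sq] at he'
    have hne : T ≠ TFC.sq a b c d := by
      rintro rfl
      exact tri_not_sq hTT ⟨_, _, _, _, h4, rfl⟩
    rcases tri_sq hTT h4 (star_hc hst hT hQ ⟨_, _, _, _, h4, rfl⟩ hne) he he' with h | h | h | h
    · exact ⟨b, by simp, h⟩
    · exact ⟨d, by simp, h⟩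
    · exact absurd (h ▸ hT) n1
    · exact absurd (h ▸ hT) n2

lemma iso_case {D : Finset (Finset (Sym2 V))} (hD : ∀ Q ∈ D, IsSh Q) (hst : StarV D) {Q : Finset (Sym2 V)}
    (hQ : Q ∈ D) (oQ : IsSq Q) (hiso : ∀ R ∈ D, IsSq R → R ≠ Q → ∀ e ∈ R, e ∉ Q) : Step3 D Q := by
  obtain ⟨a, b, c, d, h4, rfl⟩ := oQ
  obtain ⟨k1, k2, k3, k4, k5, k6⟩ := id h4
  have r1 : TFC.sq a b c d = TFC.sq b c d a := (Clus_rot ⟨h4, rfl, rfl⟩).2.1
  have r2 : TFC.sq a b c d = TFC.sq c d a b := (Clus_rot (Clus_rot ⟨h4, rfl, rfl⟩)).2.1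
  have r3 : TFC.sq a b c d = TFC.sq d a b c := (Clus_rot (Clus_rot (Clus_rot ⟨h4, rfl, rfl⟩))).2.1
  have d1 : Dist4 b c d a := ⟨k4, k5, k1.symm, k6, k2.symm, k3.symm⟩
  have d2 : Dist4 c d a b := ⟨k6, k2.symm, k4.symm, k3.symm, k5.symm, k1⟩
  have d3 : Dist4 d a b c := ⟨k3.symm, k5.symm, k6.symm, k1, k2, k4⟩
  -- chord `a c` and chord `b d` exclude each other
  have ex : (tri a c b ∈ D ∨ tri a c d ∈ D) → (tri b d a ∈ D ∨ tri b d c ∈ D) → False := by
    rintro (h | h) (h' | h')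
    · exact two_chords hst h4 hiso (by rw [tri_ref2]; exact h) (by rw [tri_rot]; exact h')
    · refine two_chords hst d1 (by rw [← r1]; exact hiso) (by rw [tri_ref2]; exact h') (by rw [tri_rev]; exact h)
    · refine two_chords hst d3 (by rw [← r3]; exact hiso) (by rw [tri_rot2]; exact h') (by rw [tri_rot]; exact h)
    · refine two_chords hst d2 (by rw [← r2]; exact hiso) (by rw [tri_rot2]; exact h) (by rw [tri_rev]; exact h')
  by_cases h : tri b d a ∈ D ∨ tri b d c ∈ D
  · have hn : ¬ (tri a c b ∈ D ∨ tri a c d ∈ D) := fun h' => ex h' h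
    push Not at hn
    rw [r1]
    refine iso_core hD hst d1 (by rw [← r1]; exact hQ) (by rw [← r1]; exact hiso) ?_ ?_
    · rw [tri_ref]; exact hn.1
    · rw [tri_ref]; exact hn.2
  · push Not at h
    exact iso_core hD hst h4 hQ hiso h.1 h.2

/-- the step for a square -/
lemma step_sq {D : Finset (Finset (Sym2 V))} (hD : ∀ Q ∈ D, IsSh Q) (hst : StarV D) {Q : Finset (Sym2 V)}
    (hQ : Q ∈ D) (oQ' : IsSq Q) : Step3 D Q := by
  classical
  have hDS : ∀ S ∈ D.filter IsSq, IsSq S := fun S hS => (mem_filter.1 hS).2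
  have hc : ∀ Q ∈ D.filter IsSq, ∀ R ∈ D.filter IsSq, Q ≠ R → #(Q ∩ R) ≠ 1 := fun Q hQ R hR hne =>
    star_hc hst (mem_filter.1 hQ).1 (mem_filter.1 hR).1 (mem_filter.1 hR).2 hne
  have hQS : Q ∈ D.filter IsSq := mem_filter.2 ⟨hQ, oQ'⟩
  by_cases c1 : ∃ R ∈ D.filter IsSq, Q ≠ R ∧ ∃ X, Clus_On Q X ∧ Clus_On R X
  · obtain ⟨R, hR, hne, X, oQ, oR⟩ := c1
    obtain ⟨a1, a2, a3⟩ := k4_case hDS hc hQS hR hne oQ oR
    refine ⟨Clu3.k4 X, D.filter (fun S => S ⊆ (Clu.k4 X).edges), filter_subset _ _, ?_, Clus_card oQ, ?_, ?_, ?_⟩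
    · exact mem_filter.2 ⟨hQ, a1 Q hQS oQ⟩
    · intro S hS
      exact (mem_filter.1 hS).2
    · intro e he
      rcases a2 e he with h | h
      · exact mem_biUnion.2 ⟨Q, mem_filter.2 ⟨hQ, a1 Q hQS oQ⟩, h⟩
      · exact mem_biUnion.2 ⟨R, mem_filter.2 ⟨(mem_filter.1 hR).1, a1 R hR oR⟩, h⟩
    · intro T hT hTn e heT heK
      have hTn' : ¬ T ⊆ (Clu.k4 X).edges := fun h => hTn (mem_filter.2 ⟨hT, h⟩)
      rcases hD T hT with hTT | hTS
      · apply hTn'
        have fin : ∀ S ∈ D.filter IsSq, S ⊆ (Clu.k4 X).edges → e ∈ S → T ⊆ (Clu.k4 X).edges := by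
          intro S hS hSX heS
          have hne' : T ≠ S := by
            rintro rfl
            exact tri_not_sq hTT (mem_filter.1 hS).2
          obtain ⟨e', f1, f2, f3⟩ := Clus_second (star_hc hst hT (mem_filter.1 hS).1 (mem_filter.1 hS).2 hne')
            heT heS
          exact tri_k4 hTT heT f1 f3 heK (hSX f2)
        rcases a2 e heK with h | h
        · exact fin Q hQS (a1 Q hQS oQ) h
        · exact fin R hR (a1 R hR oR) h
      · exact a3 T (mem_filter.2 ⟨hT, hTS⟩) hTn' e heT heK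
  by_cases c2 : ∀ R ∈ D.filter IsSq, R ≠ Q → ∀ e ∈ R, e ∉ Q
  · exact iso_case hD hst hQ oQ' (fun R hR hs hne => c2 R (mem_filter.2 ⟨hR, hs⟩) hne)
  push Not at c2
  obtain ⟨R, hR, hne, e, he, heQ⟩ := c2
  obtain ⟨X, oQ⟩ := Clus_isSq (hDS Q hQS)
  obtain ⟨X', oR⟩ := Clus_isSq (hDS R hR)
  obtain ⟨e', he1, he2, he3⟩ := Clus_second (hc Q hQS R hR hne.symm) heQ he
  -- adjacent common edges
  have adj : ∀ u v w, u ≠ w → s(u, v) ∈ Q → s(v, w) ∈ Q → s(u, v) ∈ R → s(v, w) ∈ R → Step3 D Q := by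
    intro x a y huw q1 q2 r1 r2
    obtain ⟨t, dQ, eQ, -⟩ := Clus_adj2 oQ q1 q2 huw
    obtain ⟨t', dR, eR, -⟩ := Clus_adj2 oR r1 r2 huw
    have htt : t ≠ t' := by
      rintro rfl
      exact hne (by rw [eQ, eR])
    obtain ⟨L, D', b1, b2, b3, b4, b5, b6, b7⟩ :=
      k2_case hDS hc (by rw [← eQ]; exact hQS) (by rw [← eR]; exact hR) dQ dR htt
    rw [← eQ] at b2
    refine up hD hst (fun S hS => (mem_filter.1 (b1 hS)).1) b2 b3 b4 b5
      (fun S hS hs hn => b6 S (mem_filter.2 ⟨hS, hs⟩) hn) ?_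
    intro T hT hTT e heT heK
    have hcT : ∀ S ∈ D.filter IsSq, IsSq S → #(T ∩ S) ≠ 1 := fun S hS hs =>
      star_hc hst hT (mem_filter.1 hS).1 hs (fun h => tri_not_sq hTT (h ▸ hs))
    rcases k2_edges.1 heK with ⟨l, hl, rfl⟩ | ⟨l, hl, rfl⟩
    · obtain ⟨l', d, hS, hP⟩ := b7 l hl
      exact ⟨l, hl, tri_core hTT hcT d hS hP heT⟩
    · obtain ⟨l', d, hS, m, m', m'', hm, d2, hmm, hSm⟩ := b7 l hl
      obtain ⟨d', e'⟩ := Clus_sq_cen d
      obtain ⟨d2', e2'⟩ := Clus_sq_cen d2
      refine ⟨l, hl, ?_⟩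
      rw [tri_ref]
      exact tri_core hTT hcT d' (by rw [← e']; exact hS) ⟨m, m', m'', hm, d2', hmm, by rw [← e2']; exact hSm⟩ heT
  induction e using Sym2.ind with
  | _ u v =>
    obtain ⟨w, t, hF⟩ := Clus_adj oQ heQ
    obtain ⟨⟨h1, h2, h3, h4, h5, h6⟩, eQ, eX⟩ := id hF
    rw [eQ] at he1
    simp only [TFC.sq, mem_insert, mem_singleton] at he1
    rcases he1 with rfl | rfl | rfl | rfl
    · exact absurd rfl he3
    · exact adj u v w h2 heQ (by rw [eQ]; simp [TFC.sq]) he he2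
    · exfalso
      obtain ⟨c, d, ⟨g1, g2, g3, g4, g5, g6⟩, eR, eX'⟩ := Clus_adj oR he
      have he2' := he2
      rw [eR] at he2'
      simp only [TFC.sq, mem_insert, mem_singleton, Sym2.eq_iff] at he2'
      have hcd : (w = c ∧ t = d) ∨ (w = d ∧ t = c) := by
        rcases he2' with (⟨e1, e2⟩ | ⟨e1, e2⟩) | (⟨e1, e2⟩ | ⟨e1, e2⟩) | (⟨e1, e2⟩ | ⟨e1, e2⟩) |
          (⟨e1, e2⟩ | ⟨e1, e2⟩)
        · exact absurd e1.symm h2
        · exact absurd e1.symm h4
        · exact absurd e1.symm h4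
        · exact absurd e2.symm h5
        · exact Or.inl ⟨e1, e2⟩
        · exact Or.inr ⟨e1, e2⟩
        · exact absurd e2.symm h3
        · exact absurd e1.symm h2
      apply c1
      refine ⟨R, hR, hne.symm, X, oQ, ?_⟩
      have hXX : X = X' := by
        rw [eX, eX']
        rcases hcd with ⟨rfl, rfl⟩ | ⟨rfl, rfl⟩
        · rfl
        · ext z
          simp only [mem_insert, mem_singleton]
          tauto
      rw [hXX]
      exact oR
    · exact adj t u v h5.symm (by rw [eQ]; simp [TFC.sq]) heQ he2 he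

/-- the step for a family of triangles -/
lemma step_tri {D : Finset (Finset (Sym2 V))} (hD : ∀ Q ∈ D, IsTri Q) (hst : StarV D) {Q : Finset (Sym2 V)}
    (hQ : Q ∈ D) : Step3 D Q := by
  obtain ⟨a, b, c, ⟨h1, h2, h3⟩, rfl⟩ := hD Q hQ
  have hed : (Clu3.k11 a b {c}).edges = tri a b c := by
    ext e
    have e1 : s(c, a) = s(a, c) := Sym2.eq_swap
    simp only [Clu3.edges, Clu.edges, tri, mem_insert, mem_union, mem_image, mem_singleton, e1]
    constructor
    · rintro (rfl | ⟨l, rfl, rfl⟩ | ⟨l, rfl, rfl⟩) <;> simp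
    · rintro (rfl | rfl | rfl)
      · exact Or.inl rfl
      · exact Or.inr (Or.inr ⟨c, rfl, rfl⟩)
      · exact Or.inr (Or.inl ⟨c, rfl, rfl⟩)
  refine ⟨Clu3.k11 a b {c}, {tri a b c}, by simpa using hQ, mem_singleton_self _,
    ⟨h1, by simp [h2], by simp [h3], by simp⟩, ?_, ?_, ?_⟩
  · intro S hS
    rw [mem_singleton] at hS
    rw [hS, hed]
  · rw [hed]
    intro e he
    exact mem_biUnion.2 ⟨_, mem_singleton_self _, he⟩
  · intro T hT hTn e heT heK
    rw [hed] at heK
    rw [mem_singleton] at hTn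
    have hcard : #(T ∩ tri a b c) ≠ 1 := by
      intro h
      obtain ⟨x, y, p, r, ⟨k1, k2, k3, k4, k5, k6⟩, -, -, hS⟩ := hst T hT _ hQ hTn h
      exact tri_not_sq (hD _ hS) ⟨x, p, y, r, ⟨k2, k1, k3, k4.symm, k6, k5⟩, rfl⟩
    obtain ⟨e', f1, f2, f3⟩ := Clus_second hcard heT heK
    have key : ∀ a b c : V, Dist3 a b c → s(a, b) ∈ T → e' ∈ tri a b c → e' ≠ s(a, b) → T = tri a b c := by
      intro a b c ⟨h1, h2, h3⟩ g1 g2 g3
      obtain ⟨t, ⟨t1, t2, t3⟩, rfl⟩ := isTri_first (hD T hT) g1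
      have ht : t = c := by
        simp only [tri, mem_insert, mem_singleton] at f1
        rcases f1 with rfl | rfl | rfl
        · exact absurd rfl g3
        · simpa [tri, h1, h2, h3, h1.symm, h2.symm, h3.symm, t1, t2, t3, t1.symm, t2.symm, t3.symm] using g2
        · simpa [tri, h1, h2, h3, h1.symm, h2.symm, h3.symm, t1, t2, t3, t1.symm, t2.symm, t3.symm] using g2
      rw [ht]
    apply hTn
    have heK' := heK
    simp only [tri, mem_insert, mem_singleton] at heK'
    rcases heK' with rfl | rfl | rfl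
    · exact key a b c ⟨h1, h2, h3⟩ heT f2 f3
    · rw [tri_rot]
      exact key b c a ⟨h3, h1.symm, h2.symm⟩ heT (by rw [← tri_rot]; exact f2) f3
    · rw [tri_rot2]
      exact key c a b ⟨h2.symm, h3.symm, h1⟩ heT (by rw [← tri_rot2]; exact f2) f3

/-- **clusters** -/
theorem clusters3 (D : Finset (Finset (Sym2 V))) (hD : ∀ Q ∈ D, IsSh Q) (hst : StarV D) :
    ∃ C : List (Clu3 V), (∀ c ∈ C, c.Valid) ∧ (C.Pairwise fun c c' => Disjoint c.edges c'.edges) ∧
      (∀ c ∈ C, c.edges ⊆ D.biUnion id) ∧ ∀ Q ∈ D, ∃ c ∈ C, Q ⊆ c.edges := by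
  classical
  induction D using Finset.strongInduction with
  | H D ih =>
    rcases D.eq_empty_or_nonempty with rfl | hne
    · exact ⟨[], by simp, List.Pairwise.nil, by simp, by simp⟩
    · have hstep : ∃ Q, Step3 D Q := by
        by_cases hs : ∃ Q ∈ D, IsSq Q
        · obtain ⟨Q, hQ, h⟩ := hs
          exact ⟨Q, step_sq hD hst hQ h⟩
        · push Not at hs
          obtain ⟨Q, hQ⟩ := hne
          exact ⟨Q, step_tri (fun T hT => (hD T hT).resolve_right (hs T hT)) hst hQ⟩
      obtain ⟨Q, c, D', hD'D, hQD', hval, hin, hcov, hdis⟩ := hstep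
      have hss : D \ D' ⊂ D := by
        refine sdiff_ssubset hD'D ⟨Q, hQD'⟩
      have hst' : StarV (D \ D') := by
        intro Z hZ Z' hZ' hne h1
        obtain ⟨x, y, p, r, h4, e1, e2, hS⟩ := hst Z (mem_sdiff.1 hZ).1 Z' (mem_sdiff.1 hZ').1 hne h1
        refine ⟨x, y, p, r, h4, e1, e2, mem_sdiff.2 ⟨hS, fun hS' => ?_⟩⟩
        -- the square shares an edge with the triangle
        refine hdis Z (mem_sdiff.1 hZ).1 (mem_sdiff.1 hZ).2 s(y, p) (by rw [e1]; simp [tri]) ?_
        exact hin _ hS' (by rw [Sym2.eq_swap]; simp [TFC.sq])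
      obtain ⟨C, h1, h2, h3, h4⟩ := ih (D \ D') hss (fun Q hQ => hD Q (sdiff_subset hQ)) hst'
      refine ⟨c :: C, ?_, ?_, ?_, ?_⟩
      · intro c' hc'
        rcases List.mem_cons.1 hc' with rfl | h
        · exact hval
        · exact h1 c' h
      · rw [List.pairwise_cons]
        refine ⟨fun c' hc' => ?_, h2⟩
        rw [disjoint_left]
        intro e he he'
        have := h3 c' hc' he'
        rw [mem_biUnion] at this
        obtain ⟨T, hT, heT⟩ := this
        rw [mem_sdiff] at hT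
        exact hdis T hT.1 hT.2 e heT he
      · intro c' hc'
        rcases List.mem_cons.1 hc' with rfl | h
        · exact hcov.trans (biUnion_subset_biUnion_of_subset_left _ hD'D)
        · exact (h3 c' h).trans (biUnion_subset_biUnion_of_subset_left _ sdiff_subset)
      · intro R hR
        by_cases hRD : R ∈ D'
        · exact ⟨c, List.mem_cons_self .., hin R hRD⟩
        · obtain ⟨c', hc', hs⟩ := h4 R (mem_sdiff.2 ⟨hR, hRD⟩)
          exact ⟨c', List.mem_cons_of_mem _ hc', hs⟩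

end Pool.Agent.P34

end
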