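import Pool.Agent.PFN.M03
import Pool.Agent.PFN.M05

section -- file P34/W3

/-!
The exchange theorem for 2-matchings all of whose triangles and squares are allowed: the one-step version (at most two
insertions of edges of `K` and two deletions).
-/

set_option autoImplicit false
set_option linter.unusedSectionVars false

namespace Pool.Agent.P34

open Finset Pool.Agent.TFC Pool.Agent.PF4

variable {V : Type*} [DecidableEq V] {al : Finset (Sym2 V) → Prop}

/-- the possible results of one step -/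
def WRes (al : Finset (Sym2 V) → Prop) (K : Finset (Sym2 V)) (τ : V → ℤ) (n : ℕ)
    (L : Finset (Sym2 V)) : Prop :=
  M2 L ∧ Gd al L ∧ ((∃ w, dv L = τ - ev w ∧ (dv K w < τ w ∨ #(L \ K) + #(K \ L) < n)) ∨
    (∃ c, dv L = τ + ev c ∧ τ c < dv K c))

/-- one exchange (insert an edge of `K`, perhaps delete an edge) leads to `WRes` -/
def WOne (al : Finset (Sym2 V) → Prop) (K : Finset (Sym2 V)) (τ : V → ℤ) (n : ℕ)
    (L : Finset (Sym2 V)) : Prop :=
  ∃ e ∈ K, ∃ o, OIn o (L ∪ K) ∧ WRes al K τ n (ersO o (insert e L))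

/-- Case A of Lemma W': the edge `zc` can be added without creating a bad short cycle. -/
lemma caseA {K : Finset (Sym2 V)} (hK : M2 K) {τ : V → ℤ} (hτ : ∀ v, τ v ≤ 2) {n : ℕ}
    {L : Finset (Sym2 V)} {z c : V} (hn : #(L \ K) + #(K \ L) ≤ n) (hL : M2 L)
    (hd : dv L = τ - ev z) (hzK : s(z, c) ∈ K) (hzL : s(z, c) ∉ L)
    (hg : Gd al (insert s(z, c) L)) : WOne al K τ n L := by
  have hzc : z ≠ c := hK.nl.ne hzK
  have hd1 : dv (insert s(z, c) L) = τ + ev c := by
    rw [dv_insert hzc hzL, hd]; abel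
  have hnl : NoLoop (insert s(z, c) L) := hL.nl.insert hzc
  have hsub : insert s(z, c) L ⊆ L ∪ K := by
    intro e he
    rw [mem_insert] at he
    rcases he with rfl | he
    · exact mem_union_right _ hzK
    · exact mem_union_left _ he
  by_cases h1 : τ c < dv K c
  · refine ⟨s(z, c), hzK, none, OIn.no _, ?_, hg, Or.inr ⟨c, hd1, h1⟩⟩
    show M2 (insert s(z, c) L)
    refine M2.of_dv hnl fun v => ?_
    rw [hd1, Pi.add_apply, ev_apply]
    have hKc := hK.le c
    rw [dv_apply] at h1
    split_ifs with hv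
    · subst hv; omega
    · have := hτ v; omega
  · push Not at h1
    have h2 : dg K c < dg (insert s(z, c) L) c := by
      have h3 : dv (insert s(z, c) L) c = τ c + 1 := by rw [hd1, Pi.add_apply, ev_self]
      rw [dv_apply] at h1 h3
      omega
    obtain ⟨w, hw1, hw2⟩ := exists_nbr_notMem h2
    have hcw : c ≠ w := hnl.ne hw1
    have hwz : w ≠ z := by
      rintro rfl
      rw [Sym2.eq_swap] at hw2
      exact hw2 hzK
    have hd2 : dv ((insert s(z, c) L).erase s(c, w)) = τ - ev w := by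
      rw [dv_erase hcw hw1, hd1]; abel
    have hnl2 : NoLoop ((insert s(z, c) L).erase s(c, w)) := hnl.mono (erase_subset _ _)
    refine ⟨s(z, c), hzK, some s(c, w), OIn.so (hsub hw1), M2.of_tau hnl2 hτ hd2,
      hg.mono (erase_subset _ _), Or.inl ⟨w, hd2, Or.inr ?_⟩⟩
    · show #((insert s(z, c) L).erase s(c, w) \ K) + #(K \ (insert s(z, c) L).erase s(c, w)) < n
      have e1 := card_dist_insert hzK hzL
      have e2 := card_dist_erase hw2 hw1
      omega

/-- the result of one step of the exchange -/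
def WSt (al : Finset (Sym2 V) → Prop) (K : Finset (Sym2 V)) (τ : V → ℤ) (L : Finset (Sym2 V)) : Prop :=
  ∃ e1 ∈ K, ∃ o2, OIn o2 (L ∪ K) ∧ ∃ o3, OIn o3 K ∧ ∃ o4, OIn o4 (L ∪ K) ∧
    WRes al K τ (#(L \ K) + #(K \ L)) (ersO o4 (insO o3 (ersO o2 (insert e1 L))))

lemma WOne.st {K : Finset (Sym2 V)} {τ : V → ℤ} {L : Finset (Sym2 V)}
    (h : WOne al K τ (#(L \ K) + #(K \ L)) L) : WSt al K τ L := by
  obtain ⟨e, he, o, ho, h⟩ := h
  exact ⟨e, he, o, ho, none, OIn.no _, none, OIn.no _, h⟩

/-- the situation at the start of a step: `z` has the only neighbour `t` in `L`, degree 2 in `K` -/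
structure WS (al : Finset (Sym2 V) → Prop) (K : Finset (Sym2 V)) (τ : V → ℤ) (L : Finset (Sym2 V))
    (z t : V) : Prop where
  hK : M2 K
  hKg : Gd al K
  hτ : ∀ v, τ v ≤ 2
  hL : M2 L
  hLg : Gd al L
  hd : dv L = τ - ev z
  zt : s(z, t) ∈ L
  nz : ∀ u, s(z, u) ∈ L → u = t
  kz : dg K z = 2

/-- insertion of an edge at `z` and deletion of an edge outside `K` -/
lemma swap_st {K : Finset (Sym2 V)} {τ : V → ℤ} {L : Finset (Sym2 V)} {z c c2 : V} (hK : M2 K)
    (hτ : ∀ v, τ v ≤ 2) (hL : M2 L) (hd : dv L = τ - ev z) (hcK : s(z, c) ∈ K) (hcL : s(z, c) ∉ L)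
    (m1 : s(c, c2) ∈ L) (hcK2 : s(c, c2) ∉ K) (hg : Gd al ((insert s(z, c) L).erase s(c, c2))) :
    WSt al K τ L := by
  have hzc : z ≠ c := hK.nl.ne hcK
  have hcc2 : c ≠ c2 := hL.nl.ne m1
  have hc2mem : s(c, c2) ∈ insert s(z, c) L := mem_insert_of_mem m1
  have hd2 : dv ((insert s(z, c) L).erase s(c, c2)) = τ - ev c2 := by
    rw [dv_erase hcc2 hc2mem, dv_insert hzc hcL, hd]; abel
  have hnl2 : NoLoop ((insert s(z, c) L).erase s(c, c2)) := (hL.nl.insert hzc).mono (erase_subset _ _)
  refine ⟨s(z, c), hcK, some s(c, c2), OIn.so (mem_union_left _ m1), none, OIn.no _, none, OIn.no _,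
    M2.of_tau hnl2 hτ hd2, hg, Or.inl ⟨c2, hd2, Or.inr ?_⟩⟩
  show #((insert s(z, c) L).erase s(c, c2) \ K) + #(K \ (insert s(z, c) L).erase s(c, c2)) < _
  have e1 := card_dist_insert hcK hcL
  have e2 := card_dist_erase hcK2 hc2mem
  omega

/-- deleting an edge of all new short cycles -/
lemma gd_swap {L : Finset (Sym2 V)} {z c : V} {f : Sym2 V} (hLg : Gd al L)
    (h : ∀ Z, IsSh Z → Z ⊆ insert s(z, c) L → s(z, c) ∈ Z → f ∈ Z) :
    Gd al ((insert s(z, c) L).erase f) := by
  intro Z hZ hs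
  have hs1 : Z ⊆ insert s(z, c) L := hs.trans (erase_subset _ _)
  by_cases he : s(z, c) ∈ Z
  · exact absurd rfl (mem_erase.1 (hs (h Z hZ hs1 he))).1
  · refine hLg Z hZ fun e heZ => ?_
    refine (mem_insert.1 (hs1 heZ)).resolve_left fun h => ?_
    rw [h] at heZ
    exact he heZ

/-- the triangle case: `z c t` is a bad triangle of `L + zc` -/
lemma caseT {K : Finset (Sym2 V)} {τ : V → ℤ} {L : Finset (Sym2 V)} {z t c : V} (S : WS al K τ L z t)
    (hcK : s(z, c) ∈ K) (hcL : s(z, c) ∉ L) (hct : s(c, t) ∈ L) (hbad : ¬ al (tri z c t)) :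
    WSt al K τ L := by
  obtain ⟨hK, hKg, hτ, hL, hLg, hd, m3, nz, hzK2⟩ := S
  have hzc : z ≠ c := hK.nl.ne hcK
  have hzt : z ≠ t := hL.nl.ne m3
  have hctn : c ≠ t := hL.nl.ne hct
  have nt : ∀ u, s(t, u) ∈ L → u = z ∨ u = c := fun u hu =>
    nbr_two (hL.le t) (msw m3) (msw hct) hzc hu
  -- all new short cycles contain `ct`
  have uniq : ∀ Z, IsSh Z → Z ⊆ insert s(z, c) L → s(z, c) ∈ Z → s(c, t) ∈ Z := by
    intro Z hZ hs he
    rcases isSh_first hZ he with ⟨u, hu, rfl⟩ | ⟨p, q, hpq, rfl⟩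
    · obtain ⟨k1, k2⟩ := tri_mem hu hs
      have := nz u (msw k2)
      subst this
      simp [tri]
    · obtain ⟨k1, k2, k3⟩ := sq_mem hpq hs
      have hq := nz q (msw k3)
      subst hq
      obtain ⟨-, h2, -, h4, -, -⟩ := hpq
      rcases nt p (msw k2) with h | h
      · exact absurd h.symm h2
      · exact absurd h.symm h4
  by_cases htK : s(c, t) ∈ K
  swap
  · -- (Ta)
    exact swap_st hK hτ hL hd hcK hcL hct htK (gd_swap hLg uniq)
  -- (Tb)
  have hztK : s(z, t) ∉ K := by
    intro h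
    exact hbad (hKg _ (Or.inl ⟨z, c, t, ⟨hzc, hzt, hctn⟩, rfl⟩) (tri_sub.2 ⟨hcK, htK, msw h⟩))
  obtain ⟨c', hc'c, hc'K⟩ := exists_nbr_ne (z := K) (v := z) (by omega) c
  have hc't : c' ≠ t := by rintro rfl; exact hztK hc'K
  have hc'L : s(z, c') ∉ L := fun h => hc't (nz c' h)
  have hzc' : z ≠ c' := hK.nl.ne hc'K
  -- all short cycles through `zc'` contain `c'c`
  have uniq' : ∀ Z, IsSh Z → Z ⊆ insert s(z, c') L → s(z, c') ∈ Z → s(c', c) ∈ Z ∧ s(c', c) ∈ L := by
    intro Z hZ hs he
    rcases isSh_first hZ he with ⟨u, hu, rfl⟩ | ⟨p, q, hpq, rfl⟩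
    · obtain ⟨k1, k2⟩ := tri_mem hu hs
      have := nz u (msw k2)
      subst this
      rcases nt c' (msw k1) with h | h
      · exact absurd h.symm hzc'
      · exact absurd h hc'c
    · obtain ⟨k1, k2, k3⟩ := sq_mem hpq hs
      have hq := nz q (msw k3)
      subst hq
      obtain ⟨-, h2, -, h4, -, -⟩ := hpq
      rcases nt p (msw k2) with h | h
      · exact absurd h.symm h2
      · subst h
        exact ⟨by simp [TFC.sq], k1⟩
  by_cases hcc : s(c', c) ∈ L
  · refine swap_st hK hτ hL hd hc'K hc'L hcc ?_ (gd_swap hLg fun Z h1 h2 h3 => (uniq' Z h1 h2 h3).1)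
    intro h
    rcases nbr_two (hK.le c) (msw hcK) htK hzt (msw h) with h | h
    · exact hzc' h.symm
    · exact hc't h
  · refine (caseA hK hτ le_rfl hL hd hc'K hc'L ?_).st
    intro Z hZ hs
    by_cases he : s(z, c') ∈ Z
    · exact absurd (uniq' Z hZ hs he).2 hcc
    · refine hLg Z hZ fun e heZ => ?_
      refine (mem_insert.1 (hs heZ)).resolve_left fun h => ?_
      rw [h] at heZ
      exact he heZ

/-- the square case: `z c c2 t` is a bad square of `L + zc` -/
lemma caseS {K : Finset (Sym2 V)} {τ : V → ℤ} {L : Finset (Sym2 V)} {z t c c2 : V} (S : WS al K τ L z t)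
    (hcK : s(z, c) ∈ K) (hcL : s(z, c) ∉ L) (hD : Dist4 z c c2 t) (m1 : s(c, c2) ∈ L) (m2 : s(c2, t) ∈ L)
    (hbad : ¬ al (TFC.sq z c c2 t)) : WSt al K τ L := by
  obtain ⟨hK, hKg, hτ, hL, hLg, hd, m3', nz, hzK2⟩ := S
  have hD' := hD
  obtain ⟨hzc, hzc2, hzt, hcc2, hct, hc2t⟩ := hD
  have m1' : s(c2, c) ∈ L := msw m1
  have m2' : s(t, c2) ∈ L := msw m2
  have m3 : s(t, z) ∈ L := msw m3'
  have nt : ∀ u, s(t, u) ∈ L → u = z ∨ u = c2 := fun u hu => nbr_two (hL.le t) m3 m2' hzc2 hu
  have nc2 : ∀ u, s(c2, u) ∈ L → u = t ∨ u = c := fun u hu =>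
    nbr_two (hL.le c2) m2 m1' (Ne.symm hct) hu
  -- all new short cycles contain `c c2`
  have uniq : ∀ Z, IsSh Z → Z ⊆ insert s(z, c) L → s(z, c) ∈ Z → s(c, c2) ∈ Z := by
    intro Z hZ hs he
    rcases isSh_first hZ he with ⟨u, hu, rfl⟩ | ⟨p, q, hpq, rfl⟩
    · obtain ⟨k1, k2⟩ := tri_mem hu hs
      have := nz u (msw k2)
      subst this
      rcases nt c (msw k1) with h | h
      · exact absurd h.symm hzc
      · exact absurd h hcc2
    · obtain ⟨k1, k2, k3⟩ := sq_mem hpq hs
      have hq := nz q (msw k3)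
      subst hq
      rcases nt p (msw k2) with h | h
      · exact absurd h.symm hpq.2.1
      · subst h
        simp [TFC.sq]
  have hg2 : Gd al ((insert s(z, c) L).erase s(c, c2)) := gd_swap hLg uniq
  have hc2mem : s(c, c2) ∈ insert s(z, c) L := mem_insert_of_mem m1
  have hnl1 : NoLoop (insert s(z, c) L) := hL.nl.insert hzc
  have hd1 : dv (insert s(z, c) L) = τ + ev c := by
    rw [dv_insert hzc hcL, hd]; abel
  have hd2 : dv ((insert s(z, c) L).erase s(c, c2)) = τ - ev c2 := by
    rw [dv_erase hcc2 hc2mem, hd1]; abel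
  have hsub1 : insert s(z, c) L ⊆ L ∪ K := by
    intro e he
    rw [mem_insert] at he
    rcases he with rfl | he
    · exact mem_union_right _ hcK
    · exact mem_union_left _ he
  have hsub2 : (insert s(z, c) L).erase s(c, c2) ⊆ L ∪ K := (erase_subset _ _).trans hsub1
  have hnl2 : NoLoop ((insert s(z, c) L).erase s(c, c2)) := hnl1.mono (erase_subset _ _)
  have hM2 : M2 ((insert s(z, c) L).erase s(c, c2)) := M2.of_tau hnl2 hτ hd2
  have e1 := card_dist_insert hcK hcL
  by_cases hcK2 : s(c, c2) ∈ K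
  swap
  · -- (Sa)
    exact swap_st hK hτ hL hd hcK hcL m1 hcK2 hg2
  have e2 := card_dist_erase' hcK2 hc2mem
  by_cases htK : s(z, t) ∈ K
  swap
  · -- (Sb)
    obtain ⟨c', hc'c, hc'K⟩ := exists_nbr_ne (z := K) (v := z) (by omega) c
    have hc't : c' ≠ t := by rintro rfl; exact htK hc'K
    have hc'L : s(z, c') ∉ L := fun h => hc't (nz c' h)
    have hzc' : z ≠ c' := hK.nl.ne hc'K
    by_cases hc2' : c' = c2
    · -- `L + zc + zc2 - cc2 - zt`
      subst hc2'
      set L2 := (insert s(z, c) L).erase s(c, c') with hL2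
      have hzc2L2 : s(z, c') ∉ L2 := by
        intro h
        rcases mem_insert.1 (mem_erase.1 h).2 with h | h
        · exact hc'c (sym2_inj_left h)
        · exact hc'L h
      have hztL : s(z, t) ∈ insert s(z, c') L2 := by
        refine mem_insert_of_mem (mem_erase.2 ⟨?_, mem_insert_of_mem m3'⟩)
        intro h
        rw [Sym2.eq_iff] at h
        rcases h with ⟨h, -⟩ | ⟨h, -⟩
        · exact hzc h
        · exact hzc2 h
      have hd3 : dv ((insert s(z, c') L2).erase s(z, t)) = τ - ev t := by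
        rw [dv_erase hzt hztL, dv_insert hzc' hzc2L2, hd2]; abel
      have hnl3 : NoLoop ((insert s(z, c') L2).erase s(z, t)) := (hnl2.insert hzc').mono (erase_subset _ _)
      refine ⟨s(z, c), hcK, some s(c, c'), OIn.so (mem_union_left _ m1), some s(z, c'), OIn.so hc'K,
        some s(z, t), OIn.so (mem_union_left _ m3'), M2.of_tau hnl3 hτ hd3, ?_,
        Or.inl ⟨t, hd3, Or.inr ?_⟩⟩
      · -- good
        show Gd al ((insert s(z, c') L2).erase s(z, t))
        -- the neighbours of `z` are `c` and `c'`, and `c c'` is not an edge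
        have hM3 : ∀ e, e ∈ (insert s(z, c') L2).erase s(z, t) → e = s(z, c') ∨ e = s(z, c) ∨ (e ∈ L ∧ e ≠ s(c, c') ∧ e ≠ s(z, t)) := by
          intro e he
          obtain ⟨h1, h2⟩ := mem_erase.1 he
          rcases mem_insert.1 h2 with h2 | h2
          · exact Or.inl h2
          · obtain ⟨h3, h4⟩ := mem_erase.1 h2
            rcases mem_insert.1 h4 with h4 | h4
            · exact Or.inr (Or.inl h4)
            · exact Or.inr (Or.inr ⟨h4, h3, h1⟩)
        have nbz : ∀ u, s(z, u) ∈ (insert s(z, c') L2).erase s(z, t) → u = c' ∨ u = c := by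
          intro u hu
          rcases hM3 _ hu with h | h | ⟨h, -, h'⟩
          · exact Or.inl (sym2_inj_left h)
          · exact Or.inr (sym2_inj_left h)
          · exact absurd (by rw [nz u h]) h'
        have nbc : ∀ u, s(c', u) ∈ (insert s(z, c') L2).erase s(z, t) → u = z ∨ u = t := by
          intro u hu
          rcases hM3 _ hu with h | h | ⟨h, h', -⟩
          · rw [Sym2.eq_iff] at h
            rcases h with ⟨h, -⟩ | ⟨-, h⟩
            · exact absurd h.symm hzc'
            · exact Or.inl h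
          · rw [Sym2.eq_iff] at h
            rcases h with ⟨h, -⟩ | ⟨h, -⟩
            · exact absurd h.symm hzc'
            · exact absurd h hc'c
          · rcases nc2 u h with h1 | h1
            · exact Or.inr h1
            · subst h1
              exact absurd Sym2.eq_swap h'
        have nzt : ∀ u, s(t, u) ∈ (insert s(z, c') L2).erase s(z, t) → u = c' := by
          intro u hu
          rcases hM3 _ hu with h | h | ⟨h, h', h''⟩
          · rw [Sym2.eq_iff] at h
            rcases h with ⟨h, -⟩ | ⟨h, -⟩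
            · exact absurd h.symm hzt
            · exact absurd h.symm hc2t
          · rw [Sym2.eq_iff] at h
            rcases h with ⟨h, -⟩ | ⟨h, -⟩
            · exact absurd h.symm hzt
            · exact absurd h.symm hct
          · rcases nt u h with h1 | h1
            · subst h1
              exact absurd Sym2.eq_swap h''
            · exact h1
        -- no short cycle through `z`
        have noz : ∀ Z, IsSh Z → Z ⊆ (insert s(z, c') L2).erase s(z, t) → ∀ w, s(z, w) ∉ Z := by
          intro Z hZ hs w hw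
          have key : ∀ w, s(z, w) ∈ Z → False := by
            intro w hw
            rcases isSh_first hZ hw with ⟨u, hu, rfl⟩ | ⟨p, q, hpq, rfl⟩
            · obtain ⟨h1, h2, h3⟩ := tri_sub.1 hs
              obtain ⟨u1, u2, u3⟩ := hu
              rcases nbz w h1 with rfl | rfl
              · -- w = c'
                rcases nbz u (msw h3) with rfl | rfl
                · exact u3 rfl
                · rcases nbc u h2 with h | h
                  · exact u2 h.symm
                  · exact hct h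
              · rcases nbz u (msw h3) with rfl | rfl
                · rcases nbc w (msw h2) with h | h
                  · exact u1 h.symm
                  · exact hct h
                · exact u3 rfl
            · obtain ⟨h1, h2, h3, h4⟩ := sq_sub.1 hs
              obtain ⟨u1, u2, u3, u4, u5, u6⟩ := hpq
              rcases nbz w h1 with rfl | rfl
              · rcases nbz q (msw h4) with rfl | rfl
                · exact u5 rfl
                · rcases nbc p h2 with h | h
                  · exact u2 h.symm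
                  · subst h
                    exact u5 (nzt q h3).symm
              · rcases nbz q (msw h4) with rfl | rfl
                · rcases nbc p (msw h3) with h | h
                  · exact u2 h.symm
                  · subst h
                    exact u5 (nzt w (msw h2))
                · exact u5 rfl
          exact key w hw
        intro Z hZ hs
        refine hLg Z hZ fun e heZ => ?_
        rcases hM3 e (hs heZ) with h | h | h
        · rw [h] at heZ; exact absurd heZ (noz Z hZ hs _)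
        · rw [h] at heZ; exact absurd heZ (noz Z hZ hs _)
        · exact h.1
      · -- progress
        show #((insert s(z, c') L2).erase s(z, t) \ K) + #(K \ (insert s(z, c') L2).erase s(z, t)) < _
        have e3 := card_dist_insert hc'K hzc2L2
        have e4 := card_dist_erase htK hztL
        omega
    · -- `L + zc'` has no new short cycle
      refine (caseA hK hτ le_rfl hL hd hc'K hc'L ?_).st
      refine gd_insert hLg ?_ ?_
      · intro u hu hs
        exfalso
        obtain ⟨k1, k2⟩ := tri_mem hu hs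
        have := nz u (msw k2)
        subst this
        rcases nt c' (msw k1) with h | h
        · exact hzc' h.symm
        · exact hc2' h
      · intro p q hpq hs
        exfalso
        obtain ⟨k1, k2, k3⟩ := sq_mem hpq hs
        have hq := nz q (msw k3)
        subst hq
        rcases nt p (msw k2) with h | h
        · exact hpq.2.1 h.symm
        · subst h
          rcases nc2 c' (msw k1) with h | h
          · exact hc't h
          · exact hc'c h
  -- (Sc)
  have htc2 : s(t, c2) ∉ K := by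
    intro h
    exact hbad (hKg _ (Or.inr ⟨z, c, c2, t, hD', rfl⟩) (sq_sub.2 ⟨hcK, hcK2, msw h, msw htK⟩))
  by_cases h5 : dv K c2 < τ c2
  · exact ⟨s(z, c), hcK, some s(c, c2), OIn.so (mem_union_left _ m1), none, OIn.no _, none,
      OIn.no _, hM2, hg2, Or.inl ⟨c2, hd2, Or.inl h5⟩⟩
  push Not at h5
  have hLc2 : dg L c2 = 2 := le_antisymm (hL.le c2) (dg_ge_two m2 m1' (Ne.symm hct))
  have hτc2 : τ c2 = 2 := by
    have : dv L c2 = τ c2 - 0 := by rw [hd, Pi.sub_apply, ev_ne hzc2.symm]
    rw [dv_apply, hLc2] at this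
    push_cast at this
    omega
  have hKc2 : 2 ≤ dg K c2 := by
    rw [dv_apply, hτc2] at h5
    exact_mod_cast h5
  obtain ⟨y, hyc, hyK⟩ := exists_nbr_ne hKc2 c
  have hyt : y ≠ t := by
    rintro rfl
    exact htc2 (msw hyK)
  have hyz : y ≠ z := by
    rintro rfl
    rcases nbr_two (hK.le y) hcK htK hct (msw hyK) with h | h
    · exact hcc2 h.symm
    · exact hc2t h
  have hyc2 : c2 ≠ y := hK.nl.ne hyK
  set L2 := (insert s(z, c) L).erase s(c, c2) with hL2
  -- membership in L2
  have inL2 : ∀ e, e ∈ L2 → e = s(z, c) ∨ (e ∈ L ∧ e ≠ s(c, c2)) := by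
    intro e he
    rw [hL2, mem_erase, mem_insert] at he
    rcases he with ⟨h1, h2 | h2⟩
    · exact Or.inl h2
    · exact Or.inr ⟨h2, h1⟩
  have n2c2 : ∀ u, s(c2, u) ∈ L2 → u = t := by
    intro u hu
    rcases inL2 _ hu with h | ⟨h, h'⟩
    · rw [Sym2.eq_iff] at h
      rcases h with ⟨h, -⟩ | ⟨h, -⟩
      · exact absurd h.symm hzc2
      · exact absurd h.symm hcc2
    · rcases nc2 u h with h1 | h1
      · exact h1
      · subst h1
        exact absurd Sym2.eq_swap h'
  have n2t : ∀ u, s(t, u) ∈ L2 → u = z ∨ u = c2 := by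
    intro u hu
    rcases inL2 _ hu with h | ⟨h, -⟩
    · rw [Sym2.eq_iff] at h
      rcases h with ⟨h, -⟩ | ⟨h, -⟩
      · exact absurd h.symm hzt
      · exact absurd h.symm hct
    · exact nt u h
  have n2z : ∀ u, s(z, u) ∈ L2 → u = t ∨ u = c := by
    intro u hu
    rcases inL2 _ hu with h | ⟨h, -⟩
    · exact Or.inr (sym2_inj_left h)
    · exact Or.inl (nz u h)
  have hyL2 : s(c2, y) ∉ L2 := fun h => hyt (n2c2 y h)
  have hg3 : Gd al (insert s(c2, y) L2) := by
    refine gd_insert hg2 ?_ ?_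
    · intro u hu hs
      exfalso
      obtain ⟨k1, k2⟩ := tri_mem hu hs
      have := n2c2 u (msw k2)
      subst this
      rcases n2t y (msw k1) with h | h
      · exact hyz h
      · exact hyc2 h.symm
    · intro p q hpq hs
      exfalso
      obtain ⟨k1, k2, k3⟩ := sq_mem hpq hs
      have hq := n2c2 q (msw k3)
      subst hq
      rcases n2t p (msw k2) with h | h
      · subst h
        rcases n2z y (msw k1) with h | h
        · exact hyt h
        · exact hyc h
      · exact hpq.2.1 h.symm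
  obtain ⟨e, he, o, ho, h⟩ := caseA hK hτ (n := #(L \ K) + #(K \ L)) (by omega) hM2 hd2 hyK hyL2 hg3
  refine ⟨s(z, c), hcK, some s(c, c2), OIn.so (mem_union_left _ m1), some e, OIn.so he, o,
    fun e' he' => ?_, h⟩
  rcases mem_union.1 (ho e' he') with h1 | h1
  · exact hsub2 h1
  · exact mem_union_right _ h1

/-- **One step of the exchange.** -/
theorem wstep {K : Finset (Sym2 V)} (hK : M2 K) (hKg : Gd al K)
    {τ : V → ℤ} (hτ : ∀ v, τ v ≤ 2) {L : Finset (Sym2 V)} {z : V} (hL : M2 L) (hLg : Gd al L)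
    (hd : dv L = τ - ev z) (h0 : τ z ≤ dv K z) : WSt al K τ L := by
  have hdz : dv L z = τ z - 1 := by rw [hd, Pi.sub_apply, ev_self]
  have hlt : dg L z < dg K z := by
    rw [dv_apply] at hdz h0
    omega
  obtain ⟨c, hcK, hcL⟩ := exists_nbr_notMem hlt
  have hzc : z ≠ c := hK.nl.ne hcK
  by_cases hG : Gd al (insert s(z, c) L)
  · exact (caseA hK hτ le_rfl hL hd hcK hcL hG).st
  -- a bad short cycle through `zc`
  have hB : ∃ Z, IsSh Z ∧ Z ⊆ insert s(z, c) L ∧ s(z, c) ∈ Z ∧ ¬ al Z := by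
    by_contra h
    push Not at h
    refine hG fun Z hZ hs => ?_
    by_cases he : s(z, c) ∈ Z
    · exact h Z hZ hs he
    · refine hLg Z hZ fun e heZ => ?_
      refine (mem_insert.1 (hs heZ)).resolve_left fun h => ?_
      rw [h] at heZ
      exact he heZ
  obtain ⟨Z, hZ, hs, heZ, hbad⟩ := hB
  -- `z` has a neighbour in `L`
  have mk : ∀ t, s(z, t) ∈ L → WS al K τ L z t := by
    intro t m3'
    have hzle : dg L z ≤ 1 := by
      have := hτ z
      rw [dv_apply] at hdz
      omega
    have hτz : τ z = 2 := by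
      have h1 := dg_pos m3'
      have := hτ z
      rw [dv_apply] at hdz
      omega
    have hzK2 : dg K z = 2 := by
      have := hK.le z
      rw [dv_apply] at h0
      omega
    exact ⟨hK, hKg, hτ, hL, hLg, hd, m3', fun u hu => nbr_unique hzle hu m3', hzK2⟩
  rcases isSh_first hZ heZ with ⟨t, ht, rfl⟩ | ⟨c2, t, hpq, rfl⟩
  · obtain ⟨k1, k2⟩ := tri_mem ht hs
    exact caseT (mk t (msw k2)) hcK hcL k1 hbad
  · obtain ⟨k1, k2, k3⟩ := sq_mem hpq hs
    exact caseS (mk t (msw k3)) hcK hcL hpq k1 k2 hbad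

end Pool.Agent.P34

end

section -- file P34/Cy

/-!
Short cycles as 4-tuples: `(a, b, c, a)` is the triangle `a b c`, `(a, b, c, d)` with `d ≠ a` is the square `a b c d`.
-/

set_option autoImplicit false

namespace Pool.Agent.P34

open Finset Pool.Agent.TFC Pool.Agent.PF4 Pool.Agent.Lib.helper60

/-- the edge set of a short cycle -/
def cys (q : Sq4) : Finset (Sym2 ℕ) :=
  if q.2.2.2 = q.1 then tri q.1 q.2.1 q.2.2.1 else TFC.sq q.1 q.2.1 q.2.2.1 q.2.2.2

/-- a proper short cycle -/
def CyOK (q : Sq4) : Prop :=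
  (q.2.2.2 = q.1 ∧ Dist3 q.1 q.2.1 q.2.2.1) ∨ Dist4 q.1 q.2.1 q.2.2.1 q.2.2.2

/-- the short cycle `q` is contained in `l` -/
def cyIn (l : List Ed) (q : Sq4) : Bool :=
  hasE l (q.1, q.2.1) && (hasE l (q.2.1, q.2.2.1) && (hasE l (q.2.2.1, q.2.2.2) &&
    (decide (q.2.2.2 = q.1) || hasE l (q.2.2.2, q.1))))

/-- no short cycle of `FS` is contained in `l` -/
def freeC (FS : List Sq4) (l : List Ed) : Bool := FS.all fun q => !cyIn l q

/-- the allowed short cycles: those not in the list `FS` -/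
def alC (FS : List Sq4) (Z : Finset (Sym2 ℕ)) : Prop := ∀ q ∈ FS, cys q ≠ Z

theorem cys_tri (a b c : ℕ) : cys (a, b, c, a) = tri a b c := by simp [cys]

theorem cys_sq {a b c d : ℕ} (h : d ≠ a) : cys (a, b, c, d) = TFC.sq a b c d := by simp [cys, h]

theorem CyOK.sh {q : Sq4} (h : CyOK q) : IsSh (cys q) := by
  obtain ⟨a, b, c, d⟩ := q
  rcases h with ⟨h1, h2⟩ | h
  · have h1' : d = a := h1
    subst h1'
    rw [cys_tri]
    exact Or.inl ⟨_, _, _, h2, rfl⟩
  · rw [cys_sq h.2.2.1.symm]
    exact Or.inr ⟨_, _, _, _, h, rfl⟩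

theorem cyIn_iff (l : List Ed) (q : Sq4) : cyIn l q = true ↔ cys q ⊆ fs l := by
  obtain ⟨a, b, c, d⟩ := q
  simp only [cyIn, Bool.and_eq_true, Bool.or_eq_true, decide_eq_true_eq, hasE_iff, fe]
  by_cases h : d = a
  · subst h
    rw [cys_tri, tri_sub]
    simp
  · rw [cys_sq h, sq_sub]
    simp [h]

theorem freeC_iff (FS : List Sq4) (l : List Ed) : freeC FS l = true ↔ ∀ q ∈ FS, ¬ cys q ⊆ fs l := by
  simp only [freeC, List.all_eq_true, Bool.not_eq_true', Bool.eq_false_iff, ne_eq, cyIn_iff]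

theorem gd_iff {FS : List Sq4} (hFS : ∀ q ∈ FS, CyOK q) (z : Finset (Sym2 ℕ)) :
    Gd (alC FS) z ↔ ∀ q ∈ FS, ¬ cys q ⊆ z := by
  constructor
  · intro h q hq hs
    exact h _ (hFS q hq).sh hs q hq rfl
  · intro h Z _ hs q hq he
    exact h q hq (by rw [he]; exact hs)

theorem freeC_good {FS : List Sq4} (hFS : ∀ q ∈ FS, CyOK q) (l : List Ed) :
    freeC FS l = true ↔ Gd (alC FS) (fs l) := by
  rw [freeC_iff, gd_iff hFS]

variable {ι : Type} [DEnc ι]

theorem pt_cyIn {l : ι → List Ed} {q : ι → Sq4} (hl : PT l) (hq : PT q) :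
    PT (fun x => cyIn (l x) (q x)) := by
  have h1 := PT.p1 hq
  have h2 := PT.p1 (PT.p2 hq)
  have h3 := PT.p1 (PT.p2 (PT.p2 hq))
  have h4 := PT.p2 (PT.p2 (PT.p2 hq))
  exact PT.band (pt_hasE hl (PT.pair h1 h2)) (PT.band (pt_hasE hl (PT.pair h2 h3))
    (PT.band (pt_hasE hl (PT.pair h3 h4)) (PT.bor (PT.neq h4 h1) (pt_hasE hl (PT.pair h4 h1)))))

theorem pt_freeC {FS : ι → List Sq4} {l : ι → List Ed} (hF : PT FS) (hl : PT l) :
    PT (fun x => freeC (FS x) (l x)) :=
  PT.all hF (p := fun y : ι × Sq4 => !cyIn (l y.1) y.2) (PT.bnot (pt_cyIn (hl.comp PT.fst) PT.snd))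

end Pool.Agent.P34

end

section -- file P34/Jump3

/-!
Degree vectors of 2-matchings all of whose short cycles (triangles and squares) are allowed form a jump set.
-/

set_option autoImplicit false
set_option linter.unusedSectionVars false

namespace Pool.Agent.P34

open Finset Pool.Agent.TFC Pool.Agent.PF4

variable {V : Type*} [DecidableEq V]

/-- no short cycle is allowed -/
def noZ : Finset (Sym2 V) → Prop := fun _ => False

/-- the degree vectors of the 2-matchings in `E` all of whose short cycles are allowed -/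
def JS3 (E : Finset (Sym2 V)) (al : Finset (Sym2 V) → Prop) : Set (V → ℤ) :=
  {x | ∃ z ⊆ E, M2 z ∧ Gd al z ∧ x = dv z}

variable {al : Finset (Sym2 V) → Prop}

/-- the conclusion of Lemma W' -/
def WConc3 (al : Finset (Sym2 V) → Prop) (K : Finset (Sym2 V)) (τ : V → ℤ) (L : Finset (Sym2 V)) :
    Prop :=
  ∃ M ⊆ L ∪ K, M2 M ∧ Gd al M ∧
    ((∃ w, dv M = τ - ev w ∧ dv K w < τ w) ∨ (∃ c, dv M = τ + ev c ∧ τ c < dv K c))

lemma ersO_sub {o : Option (Sym2 V)} {L E : Finset (Sym2 V)} (h : L ⊆ E) : ersO o L ⊆ E := by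
  cases o with
  | none => exact h
  | some e => exact (erase_subset _ _).trans h

lemma insO_sub {o : Option (Sym2 V)} {L E : Finset (Sym2 V)} (h : L ⊆ E) (ho : OIn o E) : insO o L ⊆ E := by
  cases o with
  | none => exact h
  | some e => exact insert_subset (ho e rfl) h

/-- **Lemma W'** -/
theorem lemW3 {K : Finset (Sym2 V)} (hK : M2 K) (hKg : Gd al K) {τ : V → ℤ} (hτ : ∀ v, τ v ≤ 2) (n : ℕ) :
    ∀ (L : Finset (Sym2 V)) (z : V), #(L \ K) + #(K \ L) ≤ n → M2 L → Gd al L → dv L = τ - ev z →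
      WConc3 al K τ L := by
  induction n with
  | zero =>
    intro L z hn hL hLg hd
    by_cases h0 : τ z ≤ dv K z
    · obtain ⟨e1, h1, o2, h2, o3, h3, o4, h4, hM, hG, h⟩ := wstep hK hKg hτ hL hLg hd h0
      have hsub : ersO o4 (insO o3 (ersO o2 (insert e1 L))) ⊆ L ∪ K :=
        ersO_sub (insO_sub (ersO_sub (insert_subset (mem_union_right _ h1) subset_union_left))
          (fun e he => mem_union_right _ (h3 e he)))
      rcases h with ⟨w, hw, h5 | h5⟩ | ⟨c, hc, h5⟩
      · exact ⟨_, hsub, hM, hG, Or.inl ⟨w, hw, h5⟩⟩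
      · exfalso; omega
      · exact ⟨_, hsub, hM, hG, Or.inr ⟨c, hc, h5⟩⟩
    · exact ⟨L, subset_union_left, hL, hLg, Or.inl ⟨z, hd, not_le.1 h0⟩⟩
  | succ n ih =>
    intro L z hn hL hLg hd
    by_cases h0 : τ z ≤ dv K z
    · obtain ⟨e1, h1, o2, h2, o3, h3, o4, h4, hM, hG, h⟩ := wstep hK hKg hτ hL hLg hd h0
      have hsub : ersO o4 (insO o3 (ersO o2 (insert e1 L))) ⊆ L ∪ K :=
        ersO_sub (insO_sub (ersO_sub (insert_subset (mem_union_right _ h1) subset_union_left))
          (fun e he => mem_union_right _ (h3 e he)))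
      rcases h with ⟨w, hw, h5 | h5⟩ | ⟨c, hc, h5⟩
      · exact ⟨_, hsub, hM, hG, Or.inl ⟨w, hw, h5⟩⟩
      · obtain ⟨M, k1, k2, k3, k4⟩ := ih _ w (by omega) hM hG hw
        exact ⟨M, k1.trans (union_subset hsub subset_union_right), k2, k3, k4⟩
      · exact ⟨_, hsub, hM, hG, Or.inr ⟨c, hc, h5⟩⟩
    · exact ⟨L, subset_union_left, hL, hLg, Or.inl ⟨z, hd, not_le.1 h0⟩⟩

/-- **Theorem 1'** -/
theorem jump_JS3 (E : Finset (Sym2 V)) : Jump (JS3 E al) := by
  rintro x ⟨A, hAE, hA, hAg, rfl⟩ y ⟨B, hBE, hB, hBg, rfl⟩ i ε hε hpos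
  have fin : ∀ (τ : V → ℤ) (L : Finset (Sym2 V)), L ⊆ E → WConc3 al B τ L →
      ∃ (j : V) (δ : ℤ), (δ = 1 ∨ δ = -1) ∧ 0 < δ * (dv B j - τ j) ∧
        τ + Pi.single j δ ∈ JS3 E al := by
    rintro τ L hL ⟨M, hM, hM2, hMg, h⟩
    have hME : M ⊆ E := hM.trans (union_subset hL hBE)
    rcases h with ⟨w, h1, h2⟩ | ⟨c, h1, h2⟩
    · refine ⟨w, -1, Or.inr rfl, by linarith, M, hME, hM2, hMg, ?_⟩
      rw [h1, single_neg_one]; abel
    · refine ⟨c, 1, Or.inl rfl, by linarith, M, hME, hM2, hMg, ?_⟩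
      rw [h1, single_one]
  rcases hε with rfl | rfl
  · -- step up
    have hlt : dv A i < dv B i := by linarith
    refine fin (dv A + Pi.single i 1) A hAE ?_
    refine lemW3 hB hBg (fun v => ?_) _ A i le_rfl hA hAg ?_
    · rw [single_one, Pi.add_apply, ev_apply]
      have h1 := hA.le v
      have h2 := hB.le v
      simp only [dv_apply] at hlt ⊢
      split_ifs with hv
      · subst hv; omega
      · omega
    · rw [single_one]; abel
  · -- step down
    have hlt : dg B i < dg A i := by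
      have : dv B i < dv A i := by linarith
      simp only [dv_apply] at this
      exact_mod_cast this
    obtain ⟨u, hu1, hu2⟩ := exists_nbr_notMem hlt
    have hiu : i ≠ u := hA.nl.ne hu1
    refine fin (dv A + Pi.single i (-1)) (A.erase s(i, u)) ((erase_subset _ _).trans hAE) ?_
    refine lemW3 hB hBg (fun v => ?_) _ (A.erase s(i, u)) u le_rfl
      (hA.mono (erase_subset _ _)) (hAg.mono (erase_subset _ _)) ?_
    · rw [single_neg_one, Pi.add_apply, Pi.neg_apply, ev_apply]
      have h1 := hA.le v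
      simp only [dv_apply]
      split_ifs <;> omega
    · rw [single_neg_one, dv_erase hiu hu1]; abel

end Pool.Agent.P34

end
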