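import Pool.Agent.PFN.M03
import Pool.Agent.PFN.M05

section -- file P34/ShM

/-!
Short cycles in 2-matchings: closedness, and conditions for an edge set to be disjoint from all short cycles.
-/

set_option autoImplicit false
set_option linter.unusedSectionVars false

namespace Pool.Agent.P34

open Finset Pool.Agent.TFC

variable {V : Type*} [DecidableEq V]

/-- `v` is a vertex of an edge of `Z` -/
def Vx (Z : Finset (Sym2 V)) (v : V) : Prop := ∃ e ∈ Z, v ∈ e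

lemma vx_mk {Z : Finset (Sym2 V)} {a b : V} (h : s(a, b) ∈ Z) : Vx Z a := ⟨_, h, by simp⟩

lemma vx_mk' {Z : Finset (Sym2 V)} {a b : V} (h : s(a, b) ∈ Z) : Vx Z b := ⟨_, h, by simp⟩

/-- a vertex of a short cycle has two neighbours in it -/
lemma sh_two {Z : Finset (Sym2 V)} (hZ : IsSh Z) {u w : V} (h : s(u, w) ∈ Z) : ∃ v, v ≠ w ∧ s(u, v) ∈ Z := by
  rcases isSh_first hZ h with ⟨c, hc, rfl⟩ | ⟨q, p, hqp, rfl⟩
  · exact ⟨c, hc.2.2.symm, by rw [Sym2.eq_swap]; simp [tri]⟩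
  · exact ⟨p, hqp.2.2.2.2.1.symm, by rw [Sym2.eq_swap]; simp [TFC.sq]⟩

/-- a short cycle is closed under adjacency -/
lemma sh_closed {M : Finset (Sym2 V)} (hM : M2 M) {Z : Finset (Sym2 V)} (hZ : IsSh Z) (hs : Z ⊆ M) {u w : V}
    (hu : Vx Z u) (h : s(u, w) ∈ M) : s(u, w) ∈ Z := by
  obtain ⟨e, he, hue⟩ := hu
  obtain ⟨a, rfl⟩ := hue
  obtain ⟨b, hab, hb⟩ := sh_two hZ he
  rcases nbr_two (hM.le u) (hs he) (hs hb) hab.symm h with h1 | h1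
  · rw [h1]; exact he
  · rw [h1]; exact hb

/-- the vertices of a short cycle -/
lemma sh_vx {Z : Finset (Sym2 V)} (hZ : IsSh Z) : ∃ a b c d, ∀ v, Vx Z v → v = a ∨ v = b ∨ v = c ∨ v = d := by
  rcases hZ with ⟨a, b, c, _, rfl⟩ | ⟨a, b, c, d, _, rfl⟩
  · refine ⟨a, b, c, c, ?_⟩
    rintro v ⟨e, he, hv⟩
    simp only [tri, mem_insert, mem_singleton] at he
    rcases he with rfl | rfl | rfl <;> rw [Sym2.mem_iff] at hv <;> rcases hv with rfl | rfl <;> simp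
  · refine ⟨a, b, c, d, ?_⟩
    rintro v ⟨e, he, hv⟩
    simp only [TFC.sq, mem_insert, mem_singleton] at he
    rcases he with rfl | rfl | rfl | rfl <;> rw [Sym2.mem_iff] at hv <;> rcases hv with rfl | rfl <;> simp

lemma tri_vx {a b c v : V} (h : Vx (tri a b c) v) : v = a ∨ v = b ∨ v = c := by
  obtain ⟨e, he, hv⟩ := h
  simp only [tri, mem_insert, mem_singleton] at he
  rcases he with rfl | rfl | rfl <;> rw [Sym2.mem_iff] at hv <;> rcases hv with rfl | rfl <;> simp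

/-- a connected part with five vertices is disjoint from all short cycles -/
lemma fin5s {M P : Finset (Sym2 V)} (hM : M2 M) {v : Fin 5 → V} (hv : Function.Injective v)
    (h01 : s(v 0, v 1) ∈ M) (h12 : s(v 1, v 2) ∈ M) (h23 : s(v 2, v 3) ∈ M)
    (h34 : s(v 3, v 4) ∈ M) (hcov : ∀ e ∈ P, ∃ i, v i ∈ e) {Z : Finset (Sym2 V)} (hZ : IsSh Z)
    (hs : Z ⊆ M) : ∀ e ∈ Z, e ∉ P := by
  intro e heZ heP
  obtain ⟨i, hi⟩ := hcov _ heP
  have hi' : Vx Z (v i) := ⟨e, heZ, hi⟩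
  have e1 : ∀ a b, Vx Z a → s(a, b) ∈ M → Vx Z b := fun a b ha hab => vx_mk' (sh_closed hM hZ hs ha hab)
  have e01 : Vx Z (v 0) ↔ Vx Z (v 1) := ⟨fun h => e1 _ _ h h01, fun h => e1 _ _ h (msw h01)⟩
  have e12 : Vx Z (v 1) ↔ Vx Z (v 2) := ⟨fun h => e1 _ _ h h12, fun h => e1 _ _ h (msw h12)⟩
  have e23 : Vx Z (v 2) ↔ Vx Z (v 3) := ⟨fun h => e1 _ _ h h23, fun h => e1 _ _ h (msw h23)⟩
  have e34 : Vx Z (v 3) ↔ Vx Z (v 4) := ⟨fun h => e1 _ _ h h34, fun h => e1 _ _ h (msw h34)⟩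
  obtain ⟨a, b, c, d, habcd⟩ := sh_vx hZ
  refine five_false hv (a := a) (b := b) (c := c) (d := d) fun j => habcd _ ?_
  fin_cases i <;> fin_cases j <;> simp_all

/-- four different vertices of a short cycle: it is a square on them -/
lemma four_vx {Z : Finset (Sym2 V)} (hZ : IsSh Z) {v : Fin 4 → V} (hv : Function.Injective v)
    (h : ∀ i, Vx Z (v i)) : ∀ u, Vx Z u → ∃ i, u = v i := by
  obtain ⟨a, b, c, d, habcd⟩ := sh_vx hZ
  intro u hu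
  exact four_mem hv (fun i => habcd _ (h i)) (habcd u hu)

/-- a path with four vertices whose ends are not adjacent is disjoint from all short cycles -/
lemma fin4s {M P : Finset (Sym2 V)} (hM : M2 M) {v : Fin 4 → V} (hv : Function.Injective v)
    (h01 : s(v 0, v 1) ∈ M) (h12 : s(v 1, v 2) ∈ M) (h23 : s(v 2, v 3) ∈ M)
    (h03 : s(v 0, v 3) ∉ M) (hcov : ∀ e ∈ P, ∃ i, v i ∈ e) {Z : Finset (Sym2 V)} (hZ : IsSh Z)
    (hs : Z ⊆ M) : ∀ e ∈ Z, e ∉ P := by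
  intro e heZ heP
  obtain ⟨i, hi⟩ := hcov _ heP
  have hi' : Vx Z (v i) := ⟨e, heZ, hi⟩
  have e1 : ∀ a b, Vx Z a → s(a, b) ∈ M → Vx Z b := fun a b ha hab => vx_mk' (sh_closed hM hZ hs ha hab)
  have e01 : Vx Z (v 0) ↔ Vx Z (v 1) := ⟨fun h => e1 _ _ h h01, fun h => e1 _ _ h (msw h01)⟩
  have e12 : Vx Z (v 1) ↔ Vx Z (v 2) := ⟨fun h => e1 _ _ h h12, fun h => e1 _ _ h (msw h12)⟩
  have e23 : Vx Z (v 2) ↔ Vx Z (v 3) := ⟨fun h => e1 _ _ h h23, fun h => e1 _ _ h (msw h23)⟩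
  have hall : ∀ j, Vx Z (v j) := by
    intro j
    fin_cases i <;> fin_cases j <;> simp_all
  have h0 := sh_closed hM hZ hs (hall 0) h01
  obtain ⟨u, hu1, hu2⟩ := sh_two hZ h0
  obtain ⟨j, rfl⟩ := four_vx hZ hv hall u (vx_mk' hu2)
  have hu3 := hs hu2
  fin_cases j
  · exact hM.nl.ne hu3 rfl
  · exact hu1 rfl
  · have h3 : v 0 = v 1 ∨ v 0 = v 3 :=
      nbr_two (hM.le (v 2)) (msw h12) h23 (hv.ne (by decide)) (msw hu3)
    rcases h3 with h3 | h3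
    · exact hv.ne (by decide) h3
    · exact hv.ne (by decide) h3
  · exact h03 hu3

/-- a short cycle through `u`, with the neighbours `v`, `w` of `u`: `v` and `w` are adjacent or have a second common
neighbour -/
lemma sh_opp {M : Finset (Sym2 V)} (hM : M2 M) {Z : Finset (Sym2 V)} (hZ : IsSh Z) (hs : Z ⊆ M) {u v w : V}
    (hu : Vx Z u) (h1 : s(u, v) ∈ M) (h2 : s(u, w) ∈ M) (hvw : v ≠ w) :
    s(v, w) ∈ M ∨ ∃ m, m ≠ u ∧ s(v, m) ∈ M ∧ s(w, m) ∈ M := by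
  have k1 := sh_closed hM hZ hs hu h1
  have k2 := sh_closed hM hZ hs hu h2
  rcases isSh_first hZ k1 with ⟨c, hc, rfl⟩ | ⟨q, p, hqp, rfl⟩
  · left
    rw [tri_sub] at hs
    have : w = c := by
      rcases nbr_two (hM.le u) h1 (msw hs.2.2) hc.2.2 h2 with h | h
      · exact absurd h.symm hvw
      · exact h
    rw [this]; exact hs.2.1
  · right
    rw [sq_sub] at hs
    have : w = p := by
      rcases nbr_two (hM.le u) h1 (msw hs.2.2.2) hqp.2.2.2.2.1 h2 with h | h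
      · exact absurd h.symm hvw
      · exact h
    rw [this]
    exact ⟨q, hqp.2.1.symm, hs.2.1, msw hs.2.2.1⟩

end Pool.Agent.P34

end

section -- file P34/XI3

/-!
The staged frame for short cycles (triangles and squares).
-/

set_option autoImplicit false

namespace Pool.Agent.P34

open Finset Pool.Agent.TFC Pool.Agent.PF4
open Pool.Agent.PF4.XF (XD FitK Cv)

/-- harmful short cycle: a triangle with two corners in `T`, or a square with two opposite corners in `T` -/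
def Hs3 (T : Finset ℕ) (Z : Finset (Sym2 ℕ)) : Prop :=
  (∃ a b c, Dist3 a b c ∧ Z = tri a b c ∧ a ∈ T ∧ b ∈ T) ∨
  (∃ a b c d, Dist4 a b c d ∧ Z = TFC.sq a b c d ∧ a ∈ T ∧ c ∈ T)

theorem Hs3.sh {T : Finset ℕ} {Z : Finset (Sym2 ℕ)} (h : Hs3 T Z) : IsSh Z := by
  rcases h with ⟨a, b, c, h1, h2, _⟩ | ⟨a, b, c, d, h1, h2, _⟩
  · exact Or.inl ⟨a, b, c, h1, h2⟩
  · exact Or.inr ⟨a, b, c, d, h1, h2⟩

/-- the data of one call; `VN` = the near vertices -/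
structure XD3 extends XD where
  VN : Finset ℕ

/-- well-formed data -/
structure XD3.OK (X : XD3) : Prop where
  lt : ∀ e ∈ X.E, ∀ v ∈ e, v < X.n
  nl : NoLoop X.E
  e1 : X.En ⊆ X.E2
  e2 : X.E2 ⊆ X.E
  tn : ∀ v ∈ X.T, v < X.n
  vn : ∀ v ∈ X.V2, v < X.n
  ev : ∀ e ∈ X.E2, ∀ v ∈ e, v ∈ X.V2
  nv : ∀ e ∈ X.En, ∀ v ∈ e, v ∈ X.VN
  near : ∀ Z, Hs3 X.T Z → Z ⊆ X.E → (∃ v ∈ X.VN, Vx Z v) → Z ⊆ X.E2

/-- **the staged pool** -/
structure XP3 (X : XD3) (P : ℕ → Finset (Sym2 ℕ) → Prop) : Prop where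
  mono : ∀ t L, P t L → P (t + 1) L
  m2 : ∀ t L, P t L → M2 L ∧ L ⊆ X.E
  del : ∀ t L H, P t L → H ⊆ X.E2 → P (t + 1) (L \ H)
  add : ∀ t L K, P t L → K ⊆ X.E2 → M2 (L ∪ K) →
    (∀ Z, Hs3 X.T Z → Z ⊆ L ∪ K → Z ⊆ L ∨ ∃ v ∈ X.VN, Vx Z v) → P (t + 1) (L ∪ K)
  ex : ∀ t L L' k k', P t L → P t L' → FitK X.toXD L k → FitK X.toXD L' k' → ∀ (i : ℕ) (ε : ℤ),
    (i ∈ X.V2 ∨ i = X.n) → (ε = 1 ∨ ε = -1) → 0 < ε * (k' i - k i) →
    ∃ L'' k'', P (t + 1) L'' ∧ FitK X.toXD L'' k'' ∧ L'' ⊆ L ∪ L' ∧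
      (∀ Z, IsSh Z → Z ⊆ L'' → Z ⊆ L ∨ Z ⊆ L') ∧ Two k k' k'' i ε

/-- **a minimal blocking family, relative to the pool** -/
structure Blk3 (X : XD3) (P : ℕ → Finset (Sym2 ℕ) → Prop) (D : Finset (Finset (Sym2 ℕ))) (j m : ℕ) : Prop where
  hs : ∀ Z ∈ D, Hs3 X.T Z ∧ Z ⊆ X.E2 ∧ ∃ v ∈ X.VN, Vx Z v
  blk : ∀ t ≤ j + m, ∀ L, P t L → Cv X.toXD L → ∃ Z ∈ D, Z ⊆ L
  wit : ∀ Z ∈ D, ∃ L, P j L ∧ Cv X.toXD L ∧ Z ⊆ L ∧ ∀ Z' ∈ D, Z' ⊆ L → Z' = Z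

theorem XP3.mono' {X : XD3} {P : ℕ → Finset (Sym2 ℕ) → Prop} (hP : XP3 X P) {s t : ℕ} (h : s ≤ t)
    {L : Finset (Sym2 ℕ)} (hL : P s L) : P t L := by
  induction t, h using Nat.le_induction with
  | base => exact hL
  | succ t _ ih => exact hP.mono t L ih

theorem sh_card {Z : Finset (Sym2 ℕ)} (h : IsSh Z) : #Z = 3 ∨ #Z = 4 := by
  rcases h with ⟨a, b, c, ⟨ab, ac, bc⟩, rfl⟩ | ⟨a, b, c, d, h4, rfl⟩
  · left
    rw [tri, card_insert_of_notMem, card_insert_of_notMem, card_singleton]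
    · simp [Sym2.eq_iff, ab, ac, bc, ab.symm, ac.symm, bc.symm]
    · simp [Sym2.eq_iff, ab, ac, bc, ab.symm, ac.symm, bc.symm]
  · exact Or.inr (R4_card_sq h4)

/-- **a minimal blocking family of the pool** -/
theorem XP3.exists_blk {X : XD3} (hX : X.OK) {P : ℕ → Finset (Sym2 ℕ) → Prop} (hP : XP3 X P)
    (A : Finset (Sym2 ℕ) → Prop) {K m : ℕ}
    (hK : m * ((#X.E2).choose 3 + (#X.E2).choose 4 + 1) ≤ K)
    (inv : ∀ t L Z, P t L → Hs3 X.T Z → Z ⊆ L → A Z ∨ ∃ v ∈ X.VN, Vx Z v)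
    (hno : ∀ L, P K L → Cv X.toXD L → ∃ Z, Hs3 X.T Z ∧ Z ⊆ L ∧ ¬ A Z) :
    ∃ (D : Finset (Finset (Sym2 ℕ))) (j : ℕ), j + m ≤ K ∧ Blk3 X P D j m ∧ ∀ Z ∈ D, ¬ A Z := by
  classical
  set D₀ : Finset (Finset (Sym2 ℕ)) :=
    ((X.E2.powersetCard 3) ∪ (X.E2.powersetCard 4)).filter fun Z => Hs3 X.T Z ∧ ¬ A Z ∧ ∃ v ∈ X.VN, Vx Z v with hD₀
  have hc : #D₀ ≤ (#X.E2).choose 3 + (#X.E2).choose 4 := by
    refine (card_filter_le _ _).trans ((card_union_le _ _).trans ?_)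
    rw [card_powersetCard, card_powersetCard]
  have hmem : ∀ Z, Hs3 X.T Z → Z ⊆ X.E → ¬ A Z → (∃ v ∈ X.VN, Vx Z v) → Z ∈ D₀ := by
    intro Z h1 h2 h3 h4
    rw [hD₀, mem_filter, mem_union, mem_powersetCard, mem_powersetCard]
    have h5 := hX.near Z h1 h2 h4
    refine ⟨?_, h1, h3, h4⟩
    rcases sh_card h1.sh with h | h
    · exact Or.inl ⟨h5, h⟩
    · exact Or.inr ⟨h5, h⟩
  obtain ⟨D, hD, j, h1, h2, h3⟩ := PF4.XF.stage
    (fun D t => ∀ s ≤ t, ∀ L, P s L → Cv X.toXD L → ∃ Z ∈ D, Z ⊆ L)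
    (fun D s t hst h r hr => h r (hr.trans hst)) m D₀ K
    (by
      intro s hs L hL hC
      obtain ⟨Z, z1, z2, z3⟩ := hno L (hP.mono' hs hL) hC
      refine ⟨Z, hmem Z z1 (z2.trans (hP.m2 s L hL).2) z3 ?_, z2⟩
      exact (inv s L Z hL z1 z2).resolve_left z3)
    (le_trans (Nat.mul_le_mul_left _ (Nat.add_le_add_right hc 1)) hK)
  have hprop : ∀ Z ∈ D, Hs3 X.T Z ∧ Z ⊆ X.E2 ∧ ¬ A Z ∧ ∃ v ∈ X.VN, Vx Z v := by
    intro Z hZ
    have := hD hZ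
    rw [hD₀, mem_filter, mem_union, mem_powersetCard, mem_powersetCard] at this
    refine ⟨this.2.1, ?_, this.2.2.1, this.2.2.2⟩
    rcases this.1 with h | h
    · exact h.1
    · exact h.1
  refine ⟨D, j, h1, ⟨fun Z hZ => ⟨(hprop Z hZ).1, (hprop Z hZ).2.1, (hprop Z hZ).2.2.2⟩, h2, ?_⟩,
    fun Z hZ => (hprop Z hZ).2.2.1⟩
  intro Z hZ
  have h4 := h3 Z hZ
  push Not at h4
  obtain ⟨s, hs, L, hL, hC, h5⟩ := h4
  have hu : ∀ Z' ∈ D, Z' ⊆ L → Z' = Z := by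
    intro Z' hZ' hZL
    by_contra hne
    exact h5 Z' (mem_erase.2 ⟨hne, hZ'⟩) hZL
  obtain ⟨Z', z1, z2⟩ := h2 s (hs.trans (Nat.le_add_right _ _)) L hL hC
  have := hu Z' z1 z2
  subst this
  exact ⟨L, hP.mono' hs hL, hC, z2, hu⟩

end Pool.Agent.P34

end
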