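import Pool.Agent.PFN.M06
import Pool.Agent.PFN.M07
import Pool.Agent.PFN.M08
import Pool.Agent.PFN.M09

section -- file P34/Exch3

/-!
The exchange for 2-matchings all of whose triangles and squares are allowed, as a polynomial time function.
-/

set_option autoImplicit false

namespace Pool.Agent.P34

open Finset Pool.Agent.TFC Pool.Agent.PF4 Pool.Agent.Lib.helper60

/-- `L'` is an admissible successor of `L` -/
def isVal (FS : List Sq4) (A B : List Ed) (i : ℕ) (up : Bool) (L L' : List Ed) : Bool :=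
  le2 (ends L') L' && (freeC FS L' && (isFin A B i up L' || isProg A B i up L L'))

/-- one step -/
def xstep (FS : List Sq4) (A B : List Ed) (i : ℕ) (up : Bool) (L : List Ed) : List Ed :=
  bif isFin A B i up L then L
  else norm (uni A B) (findD (fun L' => isVal FS A B i up L L') (cand L B) L)

/-- **the exchange** -/
def exch (FS : List Sq4) (A B : List Ed) (i : ℕ) (up : Bool) : List Ed :=
  (xstep FS A B i up)^[A.length + B.length + 1] (xinit A B i up)

/-- the data and hypotheses of an exchange -/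
structure XH (FS : List Sq4) (A B : List Ed) (i : ℕ) (up : Bool) : Prop where
  ok : ∀ q ∈ FS, CyOK q
  wa : WF A
  wb : WF B
  ma : M2 (fs A)
  mb : M2 (fs B)
  ga : Gd (alC FS) (fs A)
  gb : Gd (alC FS) (fs B)
  lt : 0 < sgn up * (dv (fs B) i - dv (fs A) i)

section
variable {FS : List Sq4} {A B : List Ed} {i : ℕ} {up : Bool}

/-- the same without forbidden squares -/
theorem XH.plain (H : XH FS A B i up) : PF4.XH [] A B i up :=
  ⟨fun q hq => by simp at hq, H.wa, H.wb, H.ma, H.mb, fun _ _ _ _ _ q hq => by simp at hq,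
    fun _ _ _ _ _ q hq => by simp at hq, H.lt⟩

/-- the common part of the invariant -/
structure Inv0 (FS : List Sq4) (A B : List Ed) (L : List Ed) : Prop where
  wf : WF L
  sub : fs L ⊆ fs A ∪ fs B
  m2 : M2 (fs L)
  gd : Gd (alC FS) (fs L)

theorem XH.val_iff (H : XH FS A B i up) {L f : List Ed} (hL : WF L) (hf : WF f) (hn : NoLoop (fs f))
    (hs : fs f ⊆ fs A ∪ fs B) : isVal FS A B i up L f = true ↔
      M2 (fs f) ∧ Gd (alC FS) (fs f) ∧ (FinP A B i up (fs f) ∨
        ((∃ w, dv (fs f) = TT A i up - ev w) ∧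
          #(fs f \ fs B) + #(fs B \ fs f) < #(fs L \ fs B) + #(fs B \ fs L))) := by
  rw [isVal, Bool.and_eq_true, Bool.and_eq_true, Bool.or_eq_true, le2_iff hf, freeC_good H.ok,
    H.plain.fin_iff hf hs, isProg, Bool.and_eq_true, decide_eq_true_eq, distL_eq hf H.wb, distL_eq hL H.wb,
    List.any_eq_true]
  refine and_congr ⟨fun h => ⟨hn, h⟩, fun h => h.le⟩ (and_congr Iff.rfl (or_congr Iff.rfl
    (and_congr ?_ Iff.rfl)))
  constructor
  · rintro ⟨w, hw, h⟩
    exact ⟨w, (H.plain.def_iff hf hs hw).1 h⟩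
  · rintro ⟨w, h⟩
    have hw := H.plain.defmem h
    exact ⟨w, hw, (H.plain.def_iff hf hs hw).2 h⟩


theorem XH.step (H : XH FS A B i up) {L : List Ed} (hI : Inv0 FS A B L)
    (hz : FinP A B i up (fs L) ∨ ∃ z, dv (fs L) = TT A i up - ev z) :
    Inv0 FS A B (xstep FS A B i up L) ∧ (FinP A B i up (fs (xstep FS A B i up L)) ∨
      ((∃ z, dv (fs (xstep FS A B i up L)) = TT A i up - ev z) ∧
        distL (xstep FS A B i up L) B < distL L B)) := by
  have hn : NoLoop (fs A ∪ fs B) := by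
    intro x hx
    rcases Finset.mem_union.1 hx with h | h
    · exact H.ma.nl x h
    · exact H.mb.nl x h
  unfold xstep
  cases hf : isFin A B i up L with
  | true =>
    rw [H.plain.fin_iff hI.wf hI.sub] at hf
    exact ⟨hI, Or.inl hf⟩
  | false =>
    have hnf : ¬ FinP A B i up (fs L) := by
      rw [← H.plain.fin_iff hI.wf hI.sub, hf]; simp
    obtain ⟨z, hz⟩ := hz.resolve_left hnf
    have h0 : TT A i up z ≤ dv (fs B) z := by
      by_contra h
      exact hnf (Or.inl ⟨z, hz, not_le.1 h⟩)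
    obtain ⟨x1, hx1, o2, ho2, o3, ho3, o4, ho4, hm, hg, hr⟩ :=
      wstep H.mb H.gb H.plain.le hI.m2 hI.gd hz h0
    obtain ⟨e1, he1, rfl⟩ := mem_fs.1 hx1
    rw [← fs_append] at ho2 ho4
    obtain ⟨p2, hp2, hp2e, -⟩ := opt_exists ho2
    obtain ⟨p3, hp3, -, hp3e⟩ := opt_exists ho3
    obtain ⟨p4, hp4, hp4e, -⟩ := opt_exists ho4
    have hc : rest (uni (rest (insE L e1) p2) p3) p4 ∈ cand L B :=
      mem_cand.2 ⟨e1, he1, p2, hp2, p3, hp3, p4, hp4, rfl⟩
    have hce : fs (rest (uni (rest (insE L e1) p2) p3) p4) =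
        ersO o4 (insO o3 (ersO o2 (insert (fe e1) (fs L)))) := by
      rw [hp4e, hp3e, hp2e, fs_insE]
    have hsubc : ∀ f ∈ cand L B, fs f ⊆ fs A ∪ fs B := fun f hf =>
      (cand_ok hI.wf hf).2.trans (Finset.union_subset hI.sub Finset.subset_union_right)
    have hv : isVal FS A B i up L (rest (uni (rest (insE L e1) p2) p3) p4) = true := by
      rw [H.val_iff hI.wf (cand_ok hI.wf hc).1 (hn.mono (hsubc _ hc)) (hsubc _ hc), hce]
      refine ⟨hm, hg, ?_⟩
      rcases hr with ⟨w, hw, h1 | h1⟩ | ⟨c, h1, h2⟩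
      · exact Or.inl (Or.inl ⟨w, hw, h1⟩)
      · exact Or.inr ⟨⟨w, hw⟩, h1⟩
      · exact Or.inl (Or.inr ⟨c, h1, h2⟩)
    obtain ⟨hf1, hf2⟩ := findD_spec (fun L' => isVal FS A B i up L L') (cand L B) L ⟨_, hc, hv⟩
    set f := findD (fun L' => isVal FS A B i up L L') (cand L B) L with hfdef
    have hwf : WF f := (cand_ok hI.wf hf1).1
    have hsf := hsubc f hf1
    rw [H.val_iff hI.wf hwf (hn.mono hsf) hsf] at hf2
    have hU : fs f ⊆ fs (uni A B) := by rw [fs_uni]; exact hsf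
    have he : fs (norm (uni A B) f) = fs f := fs_norm_of hU
    have hw2 : WF (norm (uni A B) f) := (H.wa.uni H.wb).norm f
    simp only [cond_false]
    refine ⟨⟨hw2, by rw [he]; exact hsf, by rw [he]; exact hf2.1, by rw [he]; exact hf2.2.1⟩, ?_⟩
    rw [distL_eq hw2 H.wb, distL_eq hI.wf H.wb, he]
    exact hf2.2.2


theorem XH.init (H : XH FS A B i up) : Inv0 FS A B (xinit A B i up) ∧
    (∃ z, dv (fs (xinit A B i up)) = TT A i up - ev z) := by
  have hl := H.lt
  unfold xinit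
  cases up with
  | true =>
    refine ⟨⟨H.wa, Finset.subset_union_left, H.ma, H.ga⟩, i, ?_⟩
    simp only [cond_true, TT, sgn]
    rw [single_one]; abel
  | false =>
    have hlt : dg (fs B) i < dg (fs A) i := by
      simp only [sgn, cond_false, dv_apply] at hl
      omega
    obtain ⟨u, hu1, hu2⟩ := exists_nbr_notMem hlt
    obtain ⟨e, he, hee⟩ := mem_fs.1 hu1
    have hp : (inc i e && !hasE B e) = true := by
      rw [Bool.and_eq_true, inc_iff, hee]
      refine ⟨by simp, ?_⟩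
      rw [Bool.not_eq_true', hasE_false, hee]
      exact hu2
    obtain ⟨h1, h2⟩ := findD_spec (fun e => inc i e && !hasE B e) A (0, 0) ⟨e, he, hp⟩
    set f := findD (fun e => inc i e && !hasE B e) A (0, 0) with hfdef
    rw [Bool.and_eq_true, inc_iff] at h2
    obtain ⟨u', hu'⟩ := Sym2.mem_iff_exists.1 h2.1
    have hiu : i ≠ u' := by
      have := fe_mem_fs h1
      rw [hu'] at this
      exact H.ma.nl.ne this
    have hmem : s(i, u') ∈ fs A := by rw [← hu']; exact fe_mem_fs h1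
    simp only [cond_false]
    refine ⟨⟨H.wa.ersE f, ?_, ?_, ?_⟩, u', ?_⟩
    · rw [fs_ersE]; exact (Finset.erase_subset _ _).trans Finset.subset_union_left
    · rw [fs_ersE]; exact H.ma.mono (Finset.erase_subset _ _)
    · rw [fs_ersE]; exact H.ga.mono (Finset.erase_subset _ _)
    · rw [fs_ersE, hu', dv_erase hiu hmem, TT, sgn, cond_false, single_neg_one]; abel


theorem XH.iter (H : XH FS A B i up) (k : ℕ) :
    Inv0 FS A B ((xstep FS A B i up)^[k] (xinit A B i up)) ∧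
      (FinP A B i up (fs ((xstep FS A B i up)^[k] (xinit A B i up))) ∨
        ((∃ z, dv (fs ((xstep FS A B i up)^[k] (xinit A B i up))) = TT A i up - ev z) ∧
          distL ((xstep FS A B i up)^[k] (xinit A B i up)) B + k ≤ distL (xinit A B i up) B)) := by
  induction k with
  | zero => exact ⟨H.init.1, Or.inr ⟨H.init.2, le_rfl⟩⟩
  | succ k ih =>
    rw [Function.iterate_succ_apply']
    generalize (xstep FS A B i up)^[k] (xinit A B i up) = L at ih
    obtain ⟨h1, h2⟩ := H.step ih.1 (ih.2.imp id fun h => h.1)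
    refine ⟨h1, ?_⟩
    rcases ih.2 with h3 | ⟨h3, h4⟩
    · left
      have hf : isFin A B i up L = true := (H.plain.fin_iff ih.1.wf ih.1.sub).2 h3
      have : xstep FS A B i up L = L := by rw [xstep, hf]; rfl
      rw [this]; exact h3
    · rcases h2 with h2 | ⟨h2, h5⟩
      · exact Or.inl h2
      · exact Or.inr ⟨h2, by omega⟩


/-- **Specification of the exchange**: the two-step axiom. -/
theorem exch_spec (H : XH FS A B i up) : WF (exch FS A B i up) ∧
    fs (exch FS A B i up) ⊆ fs A ∪ fs B ∧ M2 (fs (exch FS A B i up)) ∧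
    Gd (alC FS) (fs (exch FS A B i up)) ∧
    ∃ (j : ℕ) (δ : ℤ), (δ = 1 ∨ δ = -1) ∧
      0 < δ * (dv (fs B) j - (dv (fs A) + Pi.single i (sgn up) : ℕ → ℤ) j) ∧
      dv (fs (exch FS A B i up)) = dv (fs A) + Pi.single i (sgn up) + Pi.single j δ := by
  obtain ⟨h1, h2⟩ := H.iter (A.length + B.length + 1)
  have h3 : FinP A B i up (fs (exch FS A B i up)) := by
    rcases h2 with h2 | ⟨-, h2⟩
    · exact h2
    · have h4 := distL_le (L := xinit A B i up) (B := B)
      have h5 := xinit_len A B i up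
      omega
  refine ⟨h1.wf, h1.sub, h1.m2, h1.gd, ?_⟩
  rcases h3 with ⟨w, h4, h5⟩ | ⟨c, h4, h5⟩
  · refine ⟨w, -1, Or.inr rfl, ?_, ?_⟩
    · show 0 < -1 * (dv (fs B) w - TT A i up w)
      linarith
    · rw [h4, single_neg_one, TT]; abel
  · refine ⟨c, 1, Or.inl rfl, ?_, ?_⟩
    · show 0 < 1 * (dv (fs B) c - TT A i up c)
      linarith
    · rw [h4, single_one, TT]


end

/-! ### polynomial time -/

variable {ι : Type} [DEnc ι]

section
variable {A B L L' : ι → List Ed} {i w : ι → ℕ} {up : ι → Bool}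

theorem pt_isVal {FS : ι → List Sq4} (hF : PT FS) (hA : PT A) (hB : PT B) (hi : PT i) (hu : PT up)
    (hL : PT L) (hL' : PT L') :
    PT (fun x => isVal (FS x) (A x) (B x) (i x) (up x) (L x) (L' x)) :=
  PT.band (pt_le2 (pt_ends hL') hL') (PT.band (pt_freeC hF hL')
    (PT.bor (pt_isFin hA hB hi hu hL') (pt_isProg hA hB hi hu hL hL')))


theorem pt_xstep {FS : ι → List Sq4} (hF : PT FS) (hA : PT A) (hB : PT B) (hi : PT i) (hu : PT up)
    (hL : PT L) : PT (fun x => xstep (FS x) (A x) (B x) (i x) (up x) (L x)) :=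
  PT.cond (pt_isFin hA hB hi hu hL) hL (pt_norm (pt_uni hA hB)
    (pt_findD (p := fun y : ι × List Ed => isVal (FS y.1) (A y.1) (B y.1) (i y.1) (up y.1) (L y.1) y.2)
      (pt_isVal (hF.comp PT.fst) (hA.comp PT.fst) (hB.comp PT.fst) (hi.comp PT.fst) (hu.comp PT.fst)
        (hL.comp PT.fst) PT.snd) (pt_cand hL hB) hL))


theorem tsize_xstep_le (FS : List Sq4) (A B : List Ed) (i : ℕ) (up : Bool) (L : List Ed) (T : ℕ)
    (h : tsize L ≤ T) (h' : tsize (uni A B) ≤ T) : tsize (xstep FS A B i up L) ≤ T := by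
  unfold xstep
  cases isFin A B i up L with
  | true => exact h
  | false => exact (tsize_filter_le _ _).trans h'


/-- **The exchange is a polynomial time function.** -/
theorem pt_exch {FS : ι → List Sq4} (hF : PT FS) (hA : PT A) (hB : PT B) (hi : PT i) (hu : PT up) :
    PT (fun x => exch (FS x) (A x) (B x) (i x) (up x)) := by
  -- state: (parameters, current list)
  let stp : ι × List Ed → ι × List Ed := fun s =>
    (s.1, xstep (FS s.1) (A s.1) (B s.1) (i s.1) (up s.1) s.2)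
  have hstp : PT stp := PT.pair PT.fst (pt_xstep (hF.comp PT.fst) (hA.comp PT.fst) (hB.comp PT.fst)
    (hi.comp PT.fst) (hu.comp PT.fst) PT.snd)
  have hit : ∀ (k : ℕ) (x : ι) (L : List Ed), stp^[k] (x, L) =
      (x, (xstep (FS x) (A x) (B x) (i x) (up x))^[k] L) := by
    intro k
    induction k with
    | zero => intro x L; rfl
    | succ k ih => intro x L; rw [Function.iterate_succ_apply, Function.iterate_succ_apply, ← ih x]
  have hc : PT (fun x => (A x).length + (B x).length + 1) :=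
    PT.nadd (PT.nadd (PT.length hA) (PT.length hB)) (PT.const 1)
  have hsz : ∀ (x : ι) (k : ℕ), tsize ((xstep (FS x) (A x) (B x) (i x) (up x))^[k]
      (xinit (A x) (B x) (i x) (up x))) ≤ tsize (xinit (A x) (B x) (i x) (up x)) +
        tsize (uni (A x) (B x)) := by
    intro x k
    induction k with
    | zero => exact Nat.le_add_right _ _
    | succ k ih =>
      rw [Function.iterate_succ_apply']
      exact tsize_xstep_le _ _ _ _ _ _ _ ih (Nat.le_add_left _ _)
  have h := PT.iterateNat hc (init := fun x => (x, xinit (A x) (B x) (i x) (up x)))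
    (PT.pair PT.id (pt_xinit hA hB hi hu)) hstp
    ⟨fun x => tsize x + (tsize (xinit (A x) (B x) (i x) (up x)) + tsize (uni (A x) (B x))) + 1,
      (PB.tsize.add ((pt_xinit hA hB hi hu).size.add (pt_uni hA hB).size)).add (PB.const 1), by
        intro x k _
        have h1 := hsz x k
        have h2 : tsize (stp^[k] (x, xinit (A x) (B x) (i x) (up x))) = tsize x +
            tsize ((xstep (FS x) (A x) (B x) (i x) (up x))^[k] (xinit (A x) (B x) (i x) (up x))) + 1 := by
          rw [hit]; exact tsize_pair _ _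
        beta_reduce
        omega⟩
  refine (PT.p2 h).congr fun x => ?_
  rw [hit]
  rfl


end

end Pool.Agent.P34

end

section -- file P34/Cov3

/-!
The concrete data of the inner loop for short cycles (triangles and squares): short cycles of the graph, harmful short
cycles, common edges, breaking of the harmless ones, the exchange.
-/

set_option autoImplicit false

namespace Pool.Agent.P34

open Finset Pool.Agent.TFC Pool.Agent.PF4 Pool.Agent.Lib.helper60

/-- the edges of a short cycle -/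
def cyE (q : Sq4) : List Ed :=
  (q.1, q.2.1) :: (q.2.1, q.2.2.1) :: (q.2.2.1, q.2.2.2) ::
    (bif decide (q.2.2.2 = q.1) then [] else [(q.2.2.2, q.1)])

theorem fs_cyE (q : Sq4) : fs (cyE q) = cys q := by
  obtain ⟨a, b, c, d⟩ := q
  by_cases h : d = a
  · subst h
    rw [cys_tri]
    ext x
    simp [fs, cyE, tri, fe]
  · rw [cys_sq h]
    ext x
    simp [fs, cyE, TFC.sq, fe, h]

theorem WF_cyE {q : Sq4} (h : CyOK q) : WF (cyE q) := by
  obtain ⟨a, b, c, d⟩ := q
  rcases h with ⟨h, h1, h2, h3⟩ | ⟨h1, h2, h3, h4, h5, h6⟩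
  · simp only at h h1 h2 h3
    subst h
    unfold WF cyE fe
    simp only [decide_true, cond_true, List.map_cons, List.map_nil, List.nodup_cons, List.mem_cons,
      List.not_mem_nil, or_false, Sym2.eq_iff, not_or, not_false_eq_true, List.nodup_nil, and_true]
    refine ⟨⟨?_, ?_⟩, ?_⟩ <;> tauto
  · simp only at h1 h2 h3 h4 h5 h6
    have h0 : decide (d = a) = false := by simp [Ne.symm h3]
    unfold WF cyE fe
    simp only [h0, cond_false, List.map_cons, List.map_nil, List.nodup_cons, List.mem_cons,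
      List.not_mem_nil, or_false, Sym2.eq_iff, not_or, not_false_eq_true, List.nodup_nil, and_true]
    refine ⟨⟨?_, ?_, ?_⟩, ⟨?_, ?_⟩, ?_⟩ <;> tauto

/-- number of common edges -/
def com3 (q r : Sq4) : ℕ := (norm (cyE q) (cyE r)).length

theorem com3_eq {q r : Sq4} (h : CyOK q) : com3 q r = #(cys q ∩ cys r) := by
  have h1 := card_fs ((WF_cyE h).norm (cyE r))
  rw [com3, ← h1, fs_norm, fs_cyE, fs_cyE]

/-- exactly one common edge -/
def conf3 (q r : Sq4) : Bool := decide (com3 q r = 1)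

/-- is a triangle -/
def isT (q : Sq4) : Bool := decide (q.2.2.2 = q.1)

/-- a triangle with two corners of demand 2, or a square with two opposite corners of demand 2 -/
def harm3 (g : List ℕ) (q : Sq4) : Bool :=
  bif isT q then
    (decide (2 ≤ g.getD q.1 0) && decide (2 ≤ g.getD q.2.1 0)) ||
      ((decide (2 ≤ g.getD q.2.1 0) && decide (2 ≤ g.getD q.2.2.1 0)) ||
        (decide (2 ≤ g.getD q.1 0) && decide (2 ≤ g.getD q.2.2.1 0)))
  else harm g q

/-- canonical form of a triangle -/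
def canoT (q : Sq4) : Bool := isT q && (decide (q.1 < q.2.1) && decide (q.2.1 < q.2.2.1))

/-- canonical form of a square -/
def canoS (q : Sq4) : Bool :=
  (decide (q.1 < q.2.1) && (decide (q.1 < q.2.2.1) && decide (q.2.1 < q.2.2.2))) &&
    (!decide (q.2.1 = q.2.2.1) && !decide (q.2.2.1 = q.2.2.2))

/-- canonical form of a short cycle of the graph -/
def cano3 (x : Ins) (q : Sq4) : Bool := (canoT q || canoS q) && cyIn x.2 q

/-- the short cycles of the graph -/
def cyG (x : Ins) : List Sq4 :=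
  (prodL (List.range x.1) (prodL (List.range x.1) (prodL (List.range x.1) (List.range x.1)))).filter
    fun q => cano3 x q

theorem mem_cyG {x : Ins} {q : Sq4} :
    q ∈ cyG x ↔ (q.1 < x.1 ∧ q.2.1 < x.1 ∧ q.2.2.1 < x.1 ∧ q.2.2.2 < x.1) ∧ cano3 x q = true := by
  simp only [cyG, List.mem_filter, mem_prodL, List.mem_range]

theorem isT_iff {q : Sq4} : isT q = true ↔ q.2.2.2 = q.1 := by simp [isT]

theorem isT_false {q : Sq4} (h : q.2.2.2 ≠ q.1) : isT q = false := by simp [isT, h]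

theorem canoT_iff {q : Sq4} : canoT q = true ↔ q.2.2.2 = q.1 ∧ q.1 < q.2.1 ∧ q.2.1 < q.2.2.1 := by
  simp only [canoT, isT, Bool.and_eq_true, decide_eq_true_eq]

theorem canoS_iff {q : Sq4} : canoS q = true ↔
    (q.1 < q.2.1 ∧ q.1 < q.2.2.1 ∧ q.2.1 < q.2.2.2) ∧ (q.2.1 ≠ q.2.2.1 ∧ q.2.2.1 ≠ q.2.2.2) := by
  simp only [canoS, Bool.and_eq_true, decide_eq_true_eq, Bool.not_eq_true', decide_eq_false_iff_not, ne_eq]

theorem cano3_iff {x : Ins} {q : Sq4} :
    cano3 x q = true ↔ (canoT q = true ∨ canoS q = true) ∧ cys q ⊆ fs x.2 := by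
  simp only [cano3, Bool.and_eq_true, Bool.or_eq_true, cyIn_iff]

theorem cyG_nodup (x : Ins) : (cyG x).Nodup := by
  refine List.Nodup.filter _ ?_
  have h : ∀ {α β : Type} {l : List α} {m : List β}, l.Nodup → m.Nodup → (prodL l m).Nodup :=
    fun h1 h2 => List.Nodup.product h1 h2
  have r := List.nodup_range (n := x.1)
  exact h r (h r (h r r))

theorem cano_ok {q : Sq4} (h : canoT q = true ∨ canoS q = true) : CyOK q := by
  rcases h with h | h
  · obtain ⟨h1, h2, h3⟩ := canoT_iff.1 h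
    exact Or.inl ⟨h1, by omega, by omega, by omega⟩
  · obtain ⟨⟨h1, h2, h3⟩, h4, h5⟩ := canoS_iff.1 h
    exact Or.inr ⟨by omega, by omega, by omega, h4, by omega, h5⟩

theorem cyG_ok {x : Ins} : ∀ q ∈ cyG x, CyOK q := fun _ hq => cano_ok (cano3_iff.1 (mem_cyG.1 hq).2).1

theorem cyG_sub {x : Ins} {q : Sq4} (hq : q ∈ cyG x) : cys q ⊆ fs x.2 := (cano3_iff.1 (mem_cyG.1 hq).2).2

/-- every triangle of the graph has a canonical form -/
theorem cyG_tri {x : Ins} (hx : InsWF x) {a b c : ℕ} (h : Dist3 a b c) (hs : tri a b c ⊆ fs x.2) :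
    ∃ q ∈ cyG x, canoT q = true ∧ cys q = tri a b c := by
  have key : ∀ a b c : ℕ, tri a b c ⊆ fs x.2 → a < b → b < c →
      ∃ q ∈ cyG x, canoT q = true ∧ cys q = tri a b c := by
    intro a b c hs h1 h2
    obtain ⟨s1, s2, s3⟩ := tri_sub.1 hs
    have la : a < x.1 := hx.vlt s1 (Sym2.mem_mk_left _ _)
    have hc : canoT (a, b, c, a) = true := canoT_iff.2 ⟨rfl, h1, h2⟩
    refine ⟨(a, b, c, a), mem_cyG.2 ⟨⟨la, hx.vlt s1 (Sym2.mem_mk_right _ _),
      hx.vlt s2 (Sym2.mem_mk_right _ _), la⟩, cano3_iff.2 ⟨Or.inl hc, ?_⟩⟩, hc, cys_tri a b c⟩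
    rw [cys_tri]; exact hs
  obtain ⟨h1, h2, h3⟩ := h
  have c1 : (a < b ∧ b < c) ∨ (a < c ∧ c < b) ∨ (b < a ∧ a < c) ∨ (b < c ∧ c < a) ∨ (c < a ∧ a < b) ∨
      (c < b ∧ b < a) := by omega
  rcases c1 with ⟨k1, k2⟩ | ⟨k1, k2⟩ | ⟨k1, k2⟩ | ⟨k1, k2⟩ | ⟨k1, k2⟩ | ⟨k1, k2⟩
  · exact key a b c hs k1 k2
  · obtain ⟨q, q1, q2, q3⟩ := key a c b (by rw [← tri_ref2]; exact hs) k1 k2
    exact ⟨q, q1, q2, by rw [q3, ← tri_ref2]⟩
  · obtain ⟨q, q1, q2, q3⟩ := key b a c (by rw [← tri_ref]; exact hs) k1 k2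
    exact ⟨q, q1, q2, by rw [q3, ← tri_ref]⟩
  · obtain ⟨q, q1, q2, q3⟩ := key b c a (by rw [← tri_rot]; exact hs) k1 k2
    exact ⟨q, q1, q2, by rw [q3, ← tri_rot]⟩
  · obtain ⟨q, q1, q2, q3⟩ := key c a b (by rw [← tri_rot2]; exact hs) k1 k2
    exact ⟨q, q1, q2, by rw [q3, ← tri_rot2]⟩
  · obtain ⟨q, q1, q2, q3⟩ := key c b a (by rw [← tri_rev]; exact hs) k1 k2
    exact ⟨q, q1, q2, by rw [q3, ← tri_rev]⟩

/-- every square of the graph has a canonical form -/
theorem cyG_sq {x : Ins} (hx : InsWF x) {a b c d : ℕ} (h : Dist4 a b c d) (hs : TFC.sq a b c d ⊆ fs x.2) :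
    ∃ q ∈ cyG x, canoS q = true ∧ cys q = TFC.sq a b c d := by
  obtain ⟨s1, s2, s3, s4⟩ := sq_sub.1 hs
  obtain ⟨q, hq, he⟩ := sqG_full hx (a := a) (b := b) (c := c) (d := d)
    ⟨h.2.1, h.2.2.2.2.1, s1, s2, s3, s4⟩
  obtain ⟨hq1, hq2⟩ := mem_sqG.1 hq
  obtain ⟨k1, k2, k3⟩ := cano_iff.1 hq2
  have hc : canoS q = true := canoS_iff.2 ⟨k1, k2⟩
  have h4 : q.2.2.2 ≠ q.1 := by omega
  have he' : cys q = sqs q := by
    obtain ⟨a, b, c, d⟩ := q
    exact cys_sq h4
  refine ⟨q, mem_cyG.2 ⟨hq1, cano3_iff.2 ⟨Or.inr hc, ?_⟩⟩, hc, by rw [he', he]⟩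
  rw [he']; exact k3

/-- every short cycle of the graph has a canonical form -/
theorem cyG_full {x : Ins} (hx : InsWF x) {Z : Finset (Sym2 ℕ)} (hZ : IsSh Z) (hs : Z ⊆ fs x.2) :
    ∃ q ∈ cyG x, cys q = Z := by
  rcases hZ with ⟨a, b, c, h, rfl⟩ | ⟨a, b, c, d, h, rfl⟩
  · obtain ⟨q, q1, _, q3⟩ := cyG_tri hx h hs
    exact ⟨q, q1, q3⟩
  · obtain ⟨q, q1, _, q3⟩ := cyG_sq hx h hs
    exact ⟨q, q1, q3⟩

/-- the canonical form is unique -/
theorem cano_inj {q r : Sq4} (hq : canoT q = true ∨ canoS q = true) (hr : canoT r = true ∨ canoS r = true)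
    (h : cys q = cys r) : q = r := by
  have h1 := cano_ok hq
  have h2 := cano_ok hr
  have tt : ∀ q : Sq4, canoT q = true → IsTri (cys q) := by
    intro q hq
    obtain ⟨k1, k2, k3⟩ := canoT_iff.1 hq
    obtain ⟨a, b, c, d⟩ := q
    have k1' : d = a := k1
    subst k1'
    exact ⟨_, _, _, ⟨by simp only at k2; omega, by simp only at k2 k3; omega, by simp only at k3; omega⟩,
      cys_tri _ _ _⟩
  have ss : ∀ q : Sq4, canoS q = true → IsSq (cys q) ∧ cys q = sqs q := by
    intro q hq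
    have k := cano_ok (Or.inr hq)
    obtain ⟨⟨k1, k2, k3⟩, k4, k5⟩ := canoS_iff.1 hq
    obtain ⟨a, b, c, d⟩ := q
    have k0 : d ≠ a := by simp only at k1 k2 k3; omega
    rcases k with k | k
    · exact absurd k.1 k0
    · exact ⟨⟨_, _, _, _, k, cys_sq k0⟩, cys_sq k0⟩
  rcases hq with hq | hq <;> rcases hr with hr | hr
  · obtain ⟨k1, k2, k3⟩ := canoT_iff.1 hq
    obtain ⟨l1, l2, l3⟩ := canoT_iff.1 hr
    obtain ⟨a, b, c, d⟩ := q
    obtain ⟨a', b', c', d'⟩ := r
    simp only at k1 k2 k3 l1 l2 l3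
    subst k1 l1
    rw [cys_tri, cys_tri] at h
    have e1 : s(d, b) ∈ tri d' b' c' := by rw [← h]; simp [tri]
    have e2 : s(b, c) ∈ tri d' b' c' := by rw [← h]; simp [tri]
    have e3 : s(c, d) ∈ tri d' b' c' := by rw [← h]; simp [tri]
    simp only [tri, Finset.mem_insert, Finset.mem_singleton, Sym2.eq_iff] at e1 e2 e3
    have : d = d' ∧ b = b' ∧ c = c' := by omega
    obtain ⟨rfl, rfl, rfl⟩ := this
    rfl
  · exact absurd (ss r hr).1 (fun h' => tri_not_sq (tt q hq) (by rw [h]; exact h'))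
  · exact absurd (ss q hq).1 (fun h' => tri_not_sq (tt r hr) (by rw [← h]; exact h'))
  · obtain ⟨⟨k1, k2, k3⟩, k4, k5⟩ := canoS_iff.1 hq
    obtain ⟨⟨l1, l2, l3⟩, l4, l5⟩ := canoS_iff.1 hr
    rw [(ss q hq).2, (ss r hr).2] at h
    obtain ⟨a, b, c, d⟩ := q
    obtain ⟨a', b', c', d'⟩ := r
    simp only at k1 k2 k3 k4 k5 l1 l2 l3 l4 l5
    have e1 : s(a, b) ∈ TFC.sq a' b' c' d' := by
      have : s(a, b) ∈ sqs (a, b, c, d) := by simp [sqs, TFC.sq]
      rw [h] at this; exact this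
    have e2 : s(b, c) ∈ TFC.sq a' b' c' d' := by
      have : s(b, c) ∈ sqs (a, b, c, d) := by simp [sqs, TFC.sq]
      rw [h] at this; exact this
    have e3 : s(c, d) ∈ TFC.sq a' b' c' d' := by
      have : s(c, d) ∈ sqs (a, b, c, d) := by simp [sqs, TFC.sq]
      rw [h] at this; exact this
    have e4 : s(d, a) ∈ TFC.sq a' b' c' d' := by
      have : s(d, a) ∈ sqs (a, b, c, d) := by simp [sqs, TFC.sq]
      rw [h] at this; exact this
    simp only [TFC.sq, Finset.mem_insert, Finset.mem_singleton, Sym2.eq_iff] at e1 e2 e3 e4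
    have : a = a' ∧ b = b' ∧ c = c' ∧ d = d' := by omega
    obtain ⟨rfl, rfl, rfl, rfl⟩ := this
    rfl

theorem cyG_inj {x : Ins} {q r : Sq4} (hq : q ∈ cyG x) (hr : r ∈ cyG x) (h : cys q = cys r) : q = r :=
  cano_inj (cano3_iff.1 (mem_cyG.1 hq).2).1 (cano3_iff.1 (mem_cyG.1 hr).2).1 h

theorem conf3_iff {q r : Sq4} (hq : CyOK q) : conf3 q r = true ↔ #(cys q ∩ cys r) = 1 := by
  unfold conf3
  rw [com3_eq hq, decide_eq_true_eq]

theorem conf3_symm {q r : Sq4} (hq : CyOK q) (hr : CyOK r) : conf3 q r = conf3 r q := by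
  unfold conf3
  rw [com3_eq hq, com3_eq hr, Finset.inter_comm]

theorem cy_corner {z Z : Finset (Sym2 ℕ)} (h : IsSh Z) (hz : Z ⊆ z) {v a : ℕ}
    (he : s(v, a) ∈ Z) : 2 ≤ dg z v := by
  obtain ⟨b, hb, e⟩ := sh_two h he
  exact dg_ge_two (hz he) (hz e) (Ne.symm hb)

/-! ### harmful short cycles and the set of vertices of demand 2 -/

/-- the vertices of demand 2 -/
def T3 (n : ℕ) (g : List ℕ) : Finset ℕ := (Finset.range n).filter fun v => 2 ≤ g.getD v 0

theorem mem_T3 {n : ℕ} {g : List ℕ} {v : ℕ} : v ∈ T3 n g ↔ v < n ∧ 2 ≤ g.getD v 0 := by simp [T3]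

/-- harmful in terms of `Hs3` -/
theorem harm3_iff {n : ℕ} {g : List ℕ} {q : Sq4} (hq : CyOK q) (hn : ∀ v, Vx (cys q) v → v < n) :
    harm3 g q = true ↔ Hs3 (T3 n g) (cys q) := by
  obtain ⟨a, b, c, d⟩ := q
  rcases hq with ⟨h0, h⟩ | h
  · have h0' : d = a := h0
    subst h0'
    rw [cys_tri] at hn ⊢
    have la : d < n := hn d (vx_mk (a := d) (b := b) (by simp [tri]))
    have lb : b < n := hn b (vx_mk (a := b) (b := c) (by simp [tri]))
    have lc : c < n := hn c (vx_mk (a := c) (b := d) (by simp [tri]))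
    have ht : isT (d, b, c, d) = true := isT_iff.2 rfl
    simp only [harm3, ht, cond_true, Bool.or_eq_true, Bool.and_eq_true, decide_eq_true_eq]
    constructor
    · rintro (⟨h1, h2⟩ | ⟨h1, h2⟩ | ⟨h1, h2⟩)
      · exact Or.inl ⟨d, b, c, h, rfl, mem_T3.2 ⟨la, h1⟩, mem_T3.2 ⟨lb, h2⟩⟩
      · exact Or.inl ⟨b, c, d, (dist3_of h).1, tri_rot _ _ _, mem_T3.2 ⟨lb, h1⟩, mem_T3.2 ⟨lc, h2⟩⟩
      · exact Or.inl ⟨d, c, b, ⟨h.2.1, h.1, h.2.2.symm⟩, tri_ref2 _ _ _, mem_T3.2 ⟨la, h1⟩,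
          mem_T3.2 ⟨lc, h2⟩⟩
    · rintro (⟨p, q, r, k, e, h1, h2⟩ | ⟨p, q, r, t, k, e, -⟩)
      · have v1 := tri_vx (show Vx (tri d b c) p by rw [e]; exact vx_mk (b := q) (by simp [tri]))
        have v2 := tri_vx (show Vx (tri d b c) q by rw [e]; exact vx_mk (b := r) (by simp [tri]))
        have k1 := k.1
        rw [mem_T3] at h1 h2
        rcases v1 with rfl | rfl | rfl <;> rcases v2 with rfl | rfl | rfl <;> tauto
      · exact absurd ⟨_, _, _, _, k, rfl⟩ (fun h' : IsSq (TFC.sq p q r t) =>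
          tri_not_sq (Z := tri d b c) ⟨_, _, _, h, rfl⟩ (by rw [e]; exact h'))
  · have h0 : d ≠ a := h.2.2.1.symm
    rw [cys_sq h0] at hn ⊢
    have la : a < n := hn a (vx_mk (a := a) (b := b) (by simp [TFC.sq]))
    have lb : b < n := hn b (vx_mk (a := b) (b := c) (by simp [TFC.sq]))
    have lc : c < n := hn c (vx_mk (a := c) (b := d) (by simp [TFC.sq]))
    have ld : d < n := hn d (vx_mk (a := d) (b := a) (by simp [TFC.sq]))
    have ht : isT (a, b, c, d) = false := isT_false h0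
    simp only [harm3, ht, cond_false, harm, Bool.or_eq_true, Bool.and_eq_true, decide_eq_true_eq]
    constructor
    · rintro (⟨h1, h2⟩ | ⟨h1, h2⟩)
      · exact Or.inr ⟨a, b, c, d, h, rfl, mem_T3.2 ⟨la, h1⟩, mem_T3.2 ⟨lc, h2⟩⟩
      · refine Or.inr ⟨b, c, d, a, ?_, ?_, mem_T3.2 ⟨lb, h1⟩, mem_T3.2 ⟨ld, h2⟩⟩
        · obtain ⟨k1, k2, k3, k4, k5, k6⟩ := h
          exact ⟨k4, k5, k1.symm, k6, k2.symm, k3.symm⟩
        · ext e; simp only [TFC.sq, Finset.mem_insert, Finset.mem_singleton]; tauto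
    · rintro (⟨p, q, r, k, e, -⟩ | ⟨p, q, r, t, k, e, h1, h2⟩)
      · exact absurd ⟨_, _, _, k, rfl⟩ (fun h' : IsTri (tri p q r) =>
          tri_not_sq (Z := TFC.sq a b c d) (by rw [e]; exact h') ⟨_, _, _, _, h, rfl⟩)
      · rw [mem_T3] at h1 h2
        have e1 : s(p, q) ∈ TFC.sq a b c d := by rw [e]; simp [TFC.sq]
        have e2 : s(q, r) ∈ TFC.sq a b c d := by rw [e]; simp [TFC.sq]
        obtain ⟨d1, d2, d3, d4, d5, d6⟩ := h
        obtain ⟨k1, k2, k3, k4, k5, k6⟩ := k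
        simp only at d1 d2 d3 d4 d5 d6
        simp only [TFC.sq, Finset.mem_insert, Finset.mem_singleton, Sym2.eq_iff] at e1 e2
        rcases e1 with (⟨rfl, rfl⟩ | ⟨rfl, rfl⟩) | (⟨rfl, rfl⟩ | ⟨rfl, rfl⟩) | (⟨rfl, rfl⟩ | ⟨rfl, rfl⟩) |
            (⟨rfl, rfl⟩ | ⟨rfl, rfl⟩) <;>
          rcases e2 with (⟨u1, u2⟩ | ⟨u1, u2⟩) | (⟨u1, u2⟩ | ⟨u1, u2⟩) | (⟨u1, u2⟩ | ⟨u1, u2⟩) |
            (⟨u1, u2⟩ | ⟨u1, u2⟩) <;>
          first | (exfalso; tauto) | (subst u2; tauto)

/-! ### breaking of the harmless short cycles -/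

/-- an edge of the short cycle with demand at most 1 at both ends -/
def brkE3 (g : List ℕ) (q : Sq4) : Ed :=
  findD (fun e => decide (g.getD e.1 0 ≤ 1) && decide (g.getD e.2 0 ≤ 1)) (cyE q) (0, 0)

theorem brkE3_spec {g : List ℕ} {q : Sq4} (hq : CyOK q) (h : harm3 g q = false) :
    brkE3 g q ∈ cyE q ∧ g.getD (brkE3 g q).1 0 ≤ 1 ∧ g.getD (brkE3 g q).2 0 ≤ 1 := by
  have h1 : ∃ e ∈ cyE q, (decide (g.getD e.1 0 ≤ 1) && decide (g.getD e.2 0 ≤ 1)) = true := by
    obtain ⟨a, b, c, d⟩ := q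
    simp only [Bool.and_eq_true, decide_eq_true_eq]
    by_cases h0 : d = a
    · subst h0
      have ht : isT (d, b, c, d) = true := isT_iff.2 rfl
      simp only [harm3, ht, cond_true, Bool.or_eq_false_iff, Bool.and_eq_false_iff, decide_eq_false_iff_not,
        not_le] at h
      obtain ⟨h1, h2, h3⟩ := h
      unfold cyE
      simp only [decide_true, cond_true]
      rcases h1 with h1 | h1
      · rcases h2 with h2 | h2
        · exact ⟨(d, b), by simp, by simp only; omega, by simp only; omega⟩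
        · exact ⟨(c, d), by simp, by simp only; omega, by simp only; omega⟩
      · rcases h3 with h3 | h3
        · exact ⟨(d, b), by simp, by simp only; omega, by simp only; omega⟩
        · exact ⟨(b, c), by simp, by simp only; omega, by simp only; omega⟩
    · have ht : isT (a, b, c, d) = false := isT_false h0
      simp only [harm3, ht, cond_false, harm, Bool.or_eq_false_iff, Bool.and_eq_false_iff,
        decide_eq_false_iff_not, not_le] at h
      obtain ⟨h1, h2⟩ := h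
      have h0 : decide (d = a) = false := by simp [h0]
      unfold cyE
      simp only [h0, cond_false]
      rcases h1 with h1 | h1 <;> rcases h2 with h2 | h2
      · exact ⟨(a, b), by simp, by simp only; omega, by simp only; omega⟩
      · exact ⟨(d, a), by simp, by simp only; omega, by simp only; omega⟩
      · exact ⟨(b, c), by simp, by simp only; omega, by simp only; omega⟩
      · exact ⟨(c, d), by simp, by simp only; omega, by simp only; omega⟩
  have h2 := findD_spec _ _ (0, 0) h1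
  simp only [Bool.and_eq_true, decide_eq_true_eq] at h2
  exact h2

/-- one step of the breaking -/
def brk13 (g : List ℕ) (N : List Ed) (q : Sq4) : List Ed := bif cyIn N q then ersE N (brkE3 g q) else N

/-- break all short cycles of the list -/
def brk3 (g : List ℕ) (l : List Sq4) (N : List Ed) : List Ed := l.foldl (brk13 g) N

theorem brk13_spec {g : List ℕ} {N : List Ed} {q : Sq4} (hq : CyOK q)
    (hh : harm3 g q = true → ¬ cys q ⊆ fs N) (hN : WF N) {n : ℕ} (hc : Cov n g (degL N)) :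
    WF (brk13 g N q) ∧ fs (brk13 g N q) ⊆ fs N ∧ Cov n g (degL (brk13 g N q)) ∧
      ¬ cys q ⊆ fs (brk13 g N q) := by
  unfold brk13
  cases h : cyIn N q with
  | false =>
    simp only [cond_false]
    refine ⟨hN, subset_rfl, hc, ?_⟩
    rw [← cyIn_iff, h]; simp
  | true =>
    simp only [cond_true]
    have hs := (cyIn_iff N q).1 h
    have hf : harm3 g q = false := by
      cases h' : harm3 g q with
      | false => rfl
      | true => exact absurd hs (hh h')
    obtain ⟨e1, e2, e3⟩ := brkE3_spec hq hf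
    rcases hab : brkE3 g q with ⟨a, b⟩
    rw [hab] at e1 e2 e3
    have e4 : s(a, b) ∈ cys q := by
      rw [← fs_cyE]; exact fe_mem_fs e1
    have e5 : s(b, a) ∈ cys q := msw e4
    refine ⟨hN.ersE _, ?_, ?_, ?_⟩
    · rw [fs_ersE]; exact Finset.erase_subset _ _
    · intro u hu
      have h1 := hc u hu
      rw [degL_eq hN] at h1
      rw [degL_eq (hN.ersE _), fs_ersE]
      have h2 := dg_erase (hs e4) u
      show _ ≤ dg ((fs N).erase s(a, b)) u
      by_cases h3 : u ∈ s(a, b)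
      · rw [if_pos h3] at h2
        rcases Sym2.mem_iff.1 h3 with rfl | rfl
        · have h4 := cy_corner hq.sh hs e4
          simp only at e2
          omega
        · have h4 := cy_corner hq.sh hs e5
          simp only at e3
          omega
      · rw [if_neg h3] at h2
        omega
    · intro h1
      have h2 := h1 e4
      rw [fs_ersE] at h2
      exact Finset.notMem_erase _ _ h2

theorem brk3_spec (g : List ℕ) (n : ℕ) : ∀ (l : List Sq4) (N : List Ed), (∀ q ∈ l, CyOK q) →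
    (∀ q ∈ l, harm3 g q = true → ¬ cys q ⊆ fs N) → WF N → Cov n g (degL N) →
    WF (brk3 g l N) ∧ fs (brk3 g l N) ⊆ fs N ∧ Cov n g (degL (brk3 g l N)) ∧
      ∀ q ∈ l, ¬ cys q ⊆ fs (brk3 g l N) := by
  intro l
  induction l with
  | nil => exact fun N _ _ h1 h2 => ⟨h1, subset_rfl, h2, by simp⟩
  | cons q l ih =>
    intro N hok hh hN hc
    obtain ⟨h1, h2, h3, h4⟩ := brk13_spec (hok q List.mem_cons_self) (hh q List.mem_cons_self) hN hc
    obtain ⟨k1, k2, k3, k4⟩ := ih (brk13 g N q) (fun r hr => hok r (List.mem_cons_of_mem _ hr))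
      (fun r hr hr' hs => hh r (List.mem_cons_of_mem _ hr) hr' (hs.trans h2)) h1 h3
    refine ⟨k1, k2.trans h2, k3, ?_⟩
    intro r hr
    rcases List.mem_cons.1 hr with rfl | hr
    · exact fun hs => h4 (hs.trans k2)
    · exact k4 r hr

theorem tsize_brk3 (g : List ℕ) : ∀ (l : List Sq4) (N : List Ed), tsize (brk3 g l N) ≤ tsize N := by
  intro l
  induction l with
  | nil => exact fun N => le_rfl
  | cons q l ih =>
    intro N
    refine (ih (brk13 g N q)).trans ?_
    unfold brk13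
    cases cyIn N q with
    | false => exact le_rfl
    | true => exact tsize_filter_le _ _

/-! ### valid matchings and the exchange -/

/-- 2-matching without short cycle -/
def VM3 (x : Ins) (M : List Ed) : Prop := MG x M ∧ ∀ Q ∈ cyG x, cyIn M Q = false

/-- the clause of `N`: the harmful short cycles in `N` -/
def clS3 (x : Ins) (g : List ℕ) (N : List Ed) : List Sq4 := (cyG x).filter (fun Q => harm3 g Q && cyIn N Q)

/-- good matching -/
structure GM3 (FS : List Sq4) (A : List Ed) : Prop where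
  wf : WF A
  m2 : M2 (fs A)
  gd : Gd (alC FS) (fs A)

theorem VM3.gm {x : Ins} {M : List Ed} (h : VM3 x M) : GM3 (cyG x) M := by
  refine ⟨h.1.wf, h.1.m2, (gd_iff cyG_ok _).2 ?_⟩
  intro q hq
  rw [← cyIn_iff, h.2 q hq]; simp

theorem VM3.of_gm {x : Ins} {M : List Ed} (h : GM3 (cyG x) M) (hs : fs M ⊆ fs x.2) : VM3 x M := by
  refine ⟨⟨h.wf, h.m2, hs⟩, ?_⟩
  intro q hq
  have h1 := (gd_iff cyG_ok _).1 h.gd q hq
  rwa [← cyIn_iff, Bool.not_eq_true] at h1

/-- a valid matching contains no short cycle -/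
theorem VM3.no {x : Ins} {M : List Ed} (h : VM3 x M) (hx : InsWF x) {Z : Finset (Sym2 ℕ)} (hZ : IsSh Z) :
    ¬ Z ⊆ fs M := by
  intro hs
  obtain ⟨q, hq, rfl⟩ := cyG_full hx hZ (hs.trans h.1.sub)
  have h1 := h.2 q hq
  rw [(cyIn_iff M q).2 hs] at h1
  cases h1

theorem cyIn_nrm {x : Ins} {M : List Ed} (h : MG x M) (q : Sq4) : cyIn (nrm x M) q = cyIn M q := by
  have h1 : cyIn (nrm x M) q = true ↔ cyIn M q = true := by rw [cyIn_iff, cyIn_iff, fs_nrm h.sub]
  cases h2 : cyIn (nrm x M) q <;> cases h3 : cyIn M q <;> simp_all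

theorem VM3.nrm {x : Ins} {M : List Ed} (h : VM3 x M) (hx : InsWF x) : VM3 x (nrm x M) :=
  ⟨h.1.nrm hx, fun q hq => by rw [cyIn_nrm h.1]; exact h.2 q hq⟩

theorem clS3_nrm {x : Ins} {M : List Ed} (h : MG x M) (g : List ℕ) : clS3 x g (PF4.nrm x M) = clS3 x g M := by
  unfold clS3
  refine List.filter_congr ?_
  intro q _
  rw [cyIn_nrm h]

theorem mem_clS3 {x : Ins} {g : List ℕ} {N : List Ed} {q : Sq4} :
    q ∈ clS3 x g N ↔ q ∈ cyG x ∧ harm3 g q = true ∧ cys q ⊆ fs N := by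
  simp only [clS3, List.mem_filter, Bool.and_eq_true, cyIn_iff]

/-- the two-step exchange for good matchings -/
theorem exch_GM3 {FS : List Sq4} (hFS : ∀ q ∈ FS, CyOK q) {A B : List Ed} (hA : GM3 FS A) (hB : GM3 FS B)
    {i : ℕ} {up : Bool} (h : 0 < sgn up * (dv (fs B) i - dv (fs A) i)) :
    GM3 FS (exch FS A B i up) ∧ fs (exch FS A B i up) ⊆ fs A ∪ fs B ∧
      ∃ (j : ℕ) (δ : ℤ), (δ = 1 ∨ δ = -1) ∧
        0 < δ * (dv (fs B) j - (dv (fs A) + Pi.single i (sgn up) : ℕ → ℤ) j) ∧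
        dv (fs (exch FS A B i up)) = dv (fs A) + Pi.single i (sgn up) + Pi.single j δ := by
  obtain ⟨h1, h2, h3, h4, h5⟩ := exch_spec (FS := FS) (A := A) (B := B) (i := i) (up := up)
    ⟨hFS, hA.wf, hB.wf, hA.m2, hB.m2, hA.gd, hB.gd, h⟩
  exact ⟨⟨h1, h3, h4⟩, h2, h5⟩

/-- the two-step exchange with first step up -/
def exV3 (y : Ins × List Ed × List Ed × ℕ) : List Ed :=
  nrm y.1 (exch (cyG y.1) y.2.1 y.2.2.1 y.2.2.2 true)

theorem exV3_spec {x : Ins} {M L : List Ed} {v : ℕ} (hx : InsWF x) (hM : VM3 x M) (hL : VM3 x L)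
    (hlt : degL M v < degL L v) :
    VM3 x (exV3 (x, M, L, v)) ∧
      ((∀ u < x.1, degL M u + (if u = v then 1 else 0) ≤ degL (exV3 (x, M, L, v)) u) ∨
        ∃ j < x.1, j ≠ v ∧ degL L j < degL M j ∧ ∀ u < x.1,
          degL M u + (if u = v then 1 else 0) =
            degL (exV3 (x, M, L, v)) u + (if u = j then 1 else 0)) := by
  have h0 : 0 < sgn true * (dv (fs L) v - dv (fs M) v) := by
    rw [dv_apply, dv_apply, ← degL_eq hL.1.wf, ← degL_eq hM.1.wf]
    have e1 : sgn true = 1 := rfl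
    rw [e1]
    omega
  obtain ⟨h1, h2, h3⟩ := exch_GM3 cyG_ok hM.gm hL.gm h0
  have hsub : fs (exch (cyG x) M L v true) ⊆ fs x.2 :=
    h2.trans (Finset.union_subset hM.1.sub hL.1.sub)
  have hV := VM3.of_gm h1 hsub
  refine ⟨hV.nrm hx, ?_⟩
  obtain ⟨j, δ, hδ, hj, he⟩ := h3
  have hd : ∀ u, (degL (exV3 (x, M, L, v)) u : ℤ) =
      degL M u + (if u = v then 1 else 0) + (if u = j then δ else 0) := by
    intro u
    have h4 := congrFun he u
    rw [Pi.add_apply, Pi.add_apply, Pi.single_apply, Pi.single_apply, dv_apply, dv_apply,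
      ← degL_eq hM.1.wf, ← degL_eq hV.1.wf] at h4
    have h5 : degL (exV3 (x, M, L, v)) u = degL (exch (cyG x) M L v true) u := degL_nrm hV.1 hx u
    have e1 : sgn true = 1 := rfl
    rw [h5, h4, e1]
  rw [Pi.add_apply, Pi.single_apply, dv_apply, dv_apply, ← degL_eq hM.1.wf, ← degL_eq hL.1.wf] at hj
  rcases hδ with rfl | rfl
  · left
    intro u _
    have := hd u
    split_ifs at this ⊢ <;> omega
  · right
    have hjv : j ≠ v := by
      rintro rfl
      have e1 : sgn true = 1 := rfl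
      rw [e1, if_pos rfl] at hj
      omega
    rw [if_neg hjv] at hj
    have hlt' : degL L j < degL M j := by omega
    refine ⟨j, ?_, hjv, hlt', ?_⟩
    · have h5 : 0 < degL M j := by omega
      rw [degL_eq hM.1.wf, dg, Finset.card_pos] at h5
      obtain ⟨e, he⟩ := h5
      obtain ⟨he1, he2⟩ := Finset.mem_filter.1 he
      exact hx.vlt (hM.1.sub he1) he2
    · intro u _
      have := hd u
      split_ifs at this ⊢ <;> omega

/-- the context of the inner problem -/
abbrev Da3 (x : Ins) (g : List ℕ) (W : List (ℕ × List Ed)) (v : ℕ) : Prop :=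
  Dat (fun x : Ins => x.1) (fun (_ : Ins) (M : List Ed) (u : ℕ) => degL M u) VM3 x g W v

/-! ### polynomial time -/

section
variable {ι : Type} [DEnc ι]

theorem pt_isT {q : ι → Sq4} (hq : PT q) : PT (fun x => isT (q x)) :=
  PT.neq (PT.p2 (PT.p2 (PT.p2 hq))) (PT.p1 hq)

theorem pt_cyE {q : ι → Sq4} (hq : PT q) : PT (fun x => cyE (q x)) := by
  have h1 := PT.p1 hq
  have h2 := PT.p1 (PT.p2 hq)
  have h3 := PT.p1 (PT.p2 (PT.p2 hq))
  have h4 := PT.p2 (PT.p2 (PT.p2 hq))
  exact PT.cons (PT.pair h1 h2) (PT.cons (PT.pair h2 h3) (PT.cons (PT.pair h3 h4)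
    (PT.cond (PT.neq h4 h1) (PT.const []) (PT.cons (PT.pair h4 h1) (PT.const [])))))

theorem pt_com3 {q r : ι → Sq4} (hq : PT q) (hr : PT r) : PT (fun x => com3 (q x) (r x)) :=
  PT.length (pt_norm (pt_cyE hq) (pt_cyE hr))

theorem pt_conf3 {q r : ι → Sq4} (hq : PT q) (hr : PT r) : PT (fun x => conf3 (q x) (r x)) :=
  PT.neq (pt_com3 hq hr) (PT.const 1)

theorem pt_harm3 {g : ι → List ℕ} {q : ι → Sq4} (hg : PT g) (hq : PT q) :
    PT (fun x => harm3 (g x) (q x)) := by
  have h1 := PT.p1 hq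
  have h2 := PT.p1 (PT.p2 hq)
  have h3 := PT.p1 (PT.p2 (PT.p2 hq))
  have k : ∀ {v : ι → ℕ}, PT v → PT (fun x => decide (2 ≤ (g x).getD (v x) 0)) := fun hv =>
    PT.nle (PT.const 2) (PT.getD hg hv (PT.const 0))
  exact PT.cond (pt_isT hq) (PT.bor (PT.band (k h1) (k h2)) (PT.bor (PT.band (k h2) (k h3))
    (PT.band (k h1) (k h3)))) (pt_harm hg hq)

theorem pt_cano3 {x : ι → Ins} {q : ι → Sq4} (hx : PT x) (hq : PT q) : PT (fun y => cano3 (x y) (q y)) := by
  have h1 := PT.p1 hq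
  have h2 := PT.p1 (PT.p2 hq)
  have h3 := PT.p1 (PT.p2 (PT.p2 hq))
  have h4 := PT.p2 (PT.p2 (PT.p2 hq))
  have ht : PT (fun y => canoT (q y)) := PT.band (pt_isT hq) (PT.band (PT.nlt h1 h2) (PT.nlt h2 h3))
  have hs : PT (fun y => canoS (q y)) :=
    PT.band (PT.band (PT.nlt h1 h2) (PT.band (PT.nlt h1 h3) (PT.nlt h2 h4)))
      (PT.band (PT.bnot (PT.neq h2 h3)) (PT.bnot (PT.neq h3 h4)))
  exact PT.band (PT.bor ht hs) (pt_cyIn (PT.p2 hx) hq)

theorem pt_cyG {x : ι → Ins} (hx : PT x) : PT (fun y => cyG (x y)) := by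
  have r : PT (fun y => List.range (x y).1) := PT.range (PT.p1 hx)
  exact PT.filter (p := fun z : ι × Sq4 => cano3 (x z.1) z.2) (pt_prodL r (pt_prodL r (pt_prodL r r)))
    (pt_cano3 (hx.comp PT.fst) PT.snd)

theorem pt_brkE3 {g : ι → List ℕ} {q : ι → Sq4} (hg : PT g) (hq : PT q) :
    PT (fun x => brkE3 (g x) (q x)) := by
  refine pt_findD (p := fun z : ι × Ed => decide ((g z.1).getD z.2.1 0 ≤ 1) && decide ((g z.1).getD z.2.2 0 ≤ 1))
    ?_ (pt_cyE hq) (PT.const (0, 0))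
  have hg' : PT (fun z : ι × Ed => g z.1) := hg.comp PT.fst
  exact PT.band (PT.nle (PT.getD hg' PT.snd.p1 (PT.const 0)) (PT.const 1))
    (PT.nle (PT.getD hg' PT.snd.p2 (PT.const 0)) (PT.const 1))

theorem pt_brk13 {g : ι → List ℕ} {N : ι → List Ed} {q : ι → Sq4} (hg : PT g) (hN : PT N) (hq : PT q) :
    PT (fun x => brk13 (g x) (N x) (q x)) := PT.cond (pt_cyIn hN hq) (pt_ersE hN (pt_brkE3 hg hq)) hN

theorem pt_brk3 {g : ι → List ℕ} {l : ι → List Sq4} {N : ι → List Ed} (hg : PT g) (hl : PT l) (hN : PT N) :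
    PT (fun x => brk3 (g x) (l x) (N x)) := by
  refine PT.foldl (g := fun z : ι × List Ed × Sq4 => brk13 (g z.1) z.2.1 z.2.2) hl hN
    (pt_brk13 (hg.comp PT.fst) PT.snd.p1 PT.snd.p2) ⟨fun x => tsize (N x), hN.size, ?_⟩
  intro x l₁ l₂ _
  exact tsize_brk3 (g x) l₁ (N x)

theorem pt_exV3 : PT exV3 :=
  pt_nrm PT.fst (pt_exch (pt_cyG PT.fst) PT.snd.p1 PT.snd.p2.p1 PT.snd.p2.p2 (PT.const true))

end

end Pool.Agent.P34

end

section -- file P34/PadX3

/-!
The exchange of padded graphs for short cycles: exchange of demand vectors.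
-/

set_option autoImplicit false

namespace Pool.Agent.P34

open Finset Pool.Agent.TFC Pool.Agent.PF4 Pool.Agent.Lib.helper60
open Pool.Agent.PF4.XF (XD FitK Cv)

/-- the squares which are neither in `L` nor in `L'` -/
def fsq3 (x : Ins) (L L' : List Ed) : List Sq4 := (cyG x).filter fun q => !cyIn L q && !cyIn L' q

/-- the exchange with slack; `up` is the direction of the DEGREES (`false`: the demand at `i` goes up) -/
def exW3 (x : Ins) (g : List ℕ) (L : List Ed) (kk : List ℕ) (L' : List Ed) (kk' : List ℕ) (i : ℕ)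
    (up : Bool) : List Ed :=
  (exch (fsq3 x L L') (pad x.1 g L kk) (pad x.1 g L' kk') i up).filter
    fun e => decide (e.1 < x.1) && decide (e.2 < x.1)


section
variable {x : Ins} {g : List ℕ} {X : XD} {L L' : List Ed} {kk kk' : List ℕ} {k k' : ℕ → ℤ}

theorem pa_gm3 (hx : InsWF x) (R : XRel x g X) (h : PA x g X L kk k) (FS : List Sq4) (hF : ∀ q ∈ FS, q ∈ cyG x ∧
    cyIn L q = false) : GM3 FS (pad x.1 g L kk) := by
  refine ⟨WF_pad h.wf (h.real hx R), h.m2p hx R, ?_⟩
  rw [gd_iff (fun q hq => cyG_ok q (hF q hq).1)]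
  intro q hq hs
  obtain ⟨h1, h2⟩ := hF q hq
  have h3 : cys q ⊆ fs L := by
    intro e he
    refine real_of_pad (hs he) ?_
    intro v hv
    exact hx.vlt (cyG_sub h1 he) hv
  rw [← cyIn_iff, h2] at h3
  cases h3

/-- **the exchange of demand vectors** -/
theorem exW3_spec (hx : InsWF x) (R : XRel x g X) (h : PA x g X L kk k) (h' : PA x g X L' kk' k')
    {i : ℕ} (hi : i ≤ x.1) {up : Bool} (hd : 0 < (- sgn up) * (k' i - k i)) :
    ∃ k'', (WF (exW3 x g L kk L' kk' i up) ∧ M2 (fs (exW3 x g L kk L' kk' i up))) ∧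
      FitK X (fs (exW3 x g L kk L' kk' i up)) k'' ∧
      fs (exW3 x g L kk L' kk' i up) ⊆ fs L ∪ fs L' ∧
      (∀ Z, IsSh Z → Z ⊆ fs (exW3 x g L kk L' kk' i up) → Z ⊆ fs L ∨ Z ⊆ fs L') ∧
      Two k k' k'' i (- sgn up) := by
  obtain ⟨A, hA⟩ : ∃ A, A = pad x.1 g L kk := ⟨_, rfl⟩
  obtain ⟨B, hB⟩ : ∃ B, B = pad x.1 g L' kk' := ⟨_, rfl⟩
  have hFS : ∀ q ∈ fsq3 x L L', q ∈ cyG x ∧ cyIn L q = false ∧ cyIn L' q = false := by
    intro q hq
    unfold fsq3 at hq
    rw [List.mem_filter, Bool.and_eq_true, Bool.not_eq_true', Bool.not_eq_true'] at hq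
    exact ⟨hq.1, hq.2.1, hq.2.2⟩
  have gA : GM3 (fsq3 x L L') A := hA ▸ pa_gm3 hx R h _ (fun q hq => ⟨(hFS q hq).1, (hFS q hq).2.1⟩)
  have gB : GM3 (fsq3 x L L') B := hB ▸ pa_gm3 hx R h' _ (fun q hq => ⟨(hFS q hq).1, (hFS q hq).2.2⟩)
  have ok : ∀ q ∈ fsq3 x L L', CyOK q := fun q hq => cyG_ok q (hFS q hq).1
  have rA : ∀ v < x.1, dv (fs A) v = 2 - k v := fun v hv => hA ▸ h.dvr hx R hv
  have rB : ∀ v < x.1, dv (fs B) v = 2 - k' v := fun v hv => hB ▸ h'.dvr hx R hv
  have nA : dv (fs A) x.1 = 1 - k x.1 := hA ▸ h.dvn hx R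
  have nB : dv (fs B) x.1 = 1 - k' x.1 := hB ▸ h'.dvn hx R
  have dAB : ∀ v, x.1 < v → dv (fs A) v = dv (fs B) v := fun v hv => by
    rw [hA, hB, h.dvd hx R hv, h'.dvd hx R hv]
  have hdir : 0 < sgn up * (dv (fs B) i - dv (fs A) i) := by
    rcases lt_or_eq_of_le hi with hi' | hi'
    · rw [rA i hi', rB i hi']
      rcases sgn_or up with e | e <;> rw [e] at hd ⊢ <;> omega
    · subst hi'
      rw [nA, nB]
      rcases sgn_or up with e | e <;> rw [e] at hd ⊢ <;> omega
  obtain ⟨g1, g2, j, δ, hδ, hj, he⟩ := exch_GM3 ok gA gB hdir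
  have htwo : Two (dv (fs A)) (dv (fs B)) (dv (fs (exch (fsq3 x L L') A B i up))) i (sgn up) :=
    ⟨j, δ, hδ, hj, he⟩
  have hbet := htwo.between (sgn_or up) hdir
  obtain ⟨z, hz⟩ : ∃ z, z = exch (fsq3 x L L') A B i up := ⟨_, rfl⟩
  rw [← hz] at g1 g2 he hbet
  have hjn : j ≤ x.1 := by
    by_contra hc
    have h1 := dAB j (by omega)
    rw [Pi.add_apply, Pi.single_eq_of_ne (by omega), h1] at hj
    rcases hδ with rfl | rfl <;> omega
  -- the result
  have hres : exW3 x g L kk L' kk' i up = z.filter fun e => decide (e.1 < x.1) && decide (e.2 < x.1) := by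
    unfold exW3
    rw [hz, hA, hB]
  have hfs : ∀ e, e ∈ fs (exW3 x g L kk L' kk' i up) ↔ e ∈ fs z ∧ ∀ v ∈ e, v < x.1 := by
    intro e
    rw [hres, mem_fs, mem_fs]
    constructor
    · rintro ⟨f, hf, rfl⟩
      rw [List.mem_filter, Bool.and_eq_true, decide_eq_true_eq, decide_eq_true_eq] at hf
      refine ⟨⟨f, hf.1, rfl⟩, ?_⟩
      intro v hv
      rcases Sym2.mem_iff.1 hv with rfl | rfl
      · exact hf.2.1
      · exact hf.2.2
    · rintro ⟨⟨f, hf, rfl⟩, hr⟩
      refine ⟨f, ?_, rfl⟩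
      rw [List.mem_filter, Bool.and_eq_true, decide_eq_true_eq, decide_eq_true_eq]
      exact ⟨hf, hr _ (Sym2.mem_mk_left _ _), hr _ (Sym2.mem_mk_right _ _)⟩
  have hsub : fs (exW3 x g L kk L' kk' i up) ⊆ fs z := fun e he => ((hfs e).1 he).1
  have hLL : fs (exW3 x g L kk L' kk' i up) ⊆ fs L ∪ fs L' := by
    intro e he
    obtain ⟨h1, h2⟩ := (hfs e).1 he
    rcases Finset.mem_union.1 (g2 h1) with h3 | h3
    · exact Finset.mem_union_left _ (real_of_pad (hA ▸ h3) h2)
    · exact Finset.mem_union_right _ (real_of_pad (hB ▸ h3) h2)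
  -- the vector
  obtain ⟨k'', hk''⟩ : ∃ k'' : ℕ → ℤ, k'' = fun v => if v < x.1 then 2 - dv (fs z) v else
      if v = x.1 then 1 - dv (fs z) x.1 else 0 := ⟨_, rfl⟩
  have kr : ∀ v < x.1, k'' v = 2 - dv (fs z) v := fun v hv => by rw [hk'']; simp [hv]
  have kn : k'' x.1 = 1 - dv (fs z) x.1 := by rw [hk'']; simp
  have kd : ∀ v, x.1 < v → k'' v = 0 := fun v hv => by
    rw [hk'']
    simp only
    rw [if_neg (by omega), if_neg (by omega)]
  have hk2 : k'' = k + Pi.single i (- sgn up) + Pi.single j (-δ) := by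
    funext v
    have hev := congrFun he v
    simp only [Pi.add_apply, Pi.single_apply] at hev ⊢
    rcases lt_trichotomy v x.1 with hv | hv | hv
    · rw [kr v hv, hev, rA v hv]
      split_ifs <;> ring
    · subst hv
      rw [kn, hev, nA]
      split_ifs <;> ring
    · rw [kd v hv, h.fit.up v (by rw [R.n]; exact hv), if_neg (by omega), if_neg (by omega)]
      ring
  refine ⟨k'', ⟨?_, ?_⟩, ⟨?_, ?_, ?_, ?_, ?_, ?_⟩, hLL, ?_, ?_⟩
  · rw [hres]
    exact g1.wf.filter _
  · exact g1.m2.mono hsub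
  · -- T
    intro v hv
    have hvn : v < x.1 := R.tl v hv
    rw [kr v hvn]
    have : dv (fs z) v = dv (fs (exW3 x g L kk L' kk' i up)) v := by
      rw [dv_apply, dv_apply]
      congr 1
      unfold dg
      congr 1
      ext e
      rw [Finset.mem_filter, Finset.mem_filter, hfs]
      constructor
      · rintro ⟨h1, h2⟩
        refine ⟨⟨h1, ?_⟩, h2⟩
        have hf : frB g v = false := (R.t v hvn).1 hv
        rcases Finset.mem_union.1 (g2 h1) with h3 | h3
        · exact h.real hx R e (pad_T (hA ▸ h3) h2 hvn hf)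
        · exact h'.real hx R e (pad_T (hB ▸ h3) h2 hvn hf)
      · rintro ⟨⟨h1, _⟩, h2⟩
        exact ⟨h1, h2⟩
    rw [this]
  · intro v hv _
    rw [R.n] at hv
    rw [kr v hv]
    have h1 := g1.m2.le v
    have h2 := dg_mono hsub v
    rw [dv_apply, dv_apply]
    omega
  · intro v hv hv2
    have e1 := h.fit.off v hv hv2
    have e2 := h'.fit.off v hv hv2
    rw [R.n] at hv
    have h3 := hbet v
    rw [rA v hv, rB v hv, e1, e2] at h3
    rw [kr v hv]
    omega
  · have t1 := h.fit.tok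
    have t2 := h'.fit.tok
    rw [R.n] at t1 t2 ⊢
    have h3 := hbet x.1
    rw [nA, nB] at h3
    rw [kn]
    omega
  · rw [R.n]
    have h1 := h.fit.par
    rw [R.n] at h1
    have h2 : ∑ v ∈ Finset.range (x.1 + 1), k'' v =
        ∑ v ∈ Finset.range (x.1 + 1), k v + (- sgn up) + (-δ) := by
      rw [hk2]
      simp only [Pi.add_apply, Pi.single_apply]
      rw [Finset.sum_add_distrib, Finset.sum_add_distrib, Finset.sum_ite_eq', Finset.sum_ite_eq',
        if_pos (Finset.mem_range.2 (by omega)), if_pos (Finset.mem_range.2 (by omega))]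
    rw [h2]
    obtain ⟨c, hc⟩ := h1
    rcases sgn_or up with e | e <;> rcases hδ with rfl | rfl <;> rw [e]
    · exact ⟨c - 1, by omega⟩
    · exact ⟨c, by omega⟩
    · exact ⟨c, by omega⟩
    · exact ⟨c + 1, by omega⟩
  · intro v hv
    rw [R.n] at hv
    exact kd v hv
  · intro Z hZ hs
    by_contra hc
    push Not at hc
    have hsubE : fs (exW3 x g L kk L' kk' i up) ⊆ fs x.2 := by
      intro e he
      rcases Finset.mem_union.1 (hLL he) with h3 | h3
      · exact R.e (h.sub h3)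
      · exact R.e (h'.sub h3)
    obtain ⟨q, hq, eq⟩ := cyG_full hx hZ (hs.trans hsubE)
    have hqF : q ∈ fsq3 x L L' := by
      unfold fsq3
      rw [List.mem_filter, Bool.and_eq_true, Bool.not_eq_true', Bool.not_eq_true']
      refine ⟨hq, ?_, ?_⟩
      · rw [← Bool.not_eq_true, cyIn_iff, eq]; exact hc.1
      · rw [← Bool.not_eq_true, cyIn_iff, eq]; exact hc.2
    have := (gd_iff ok _).1 g1.gd q hqF
    apply this
    rw [eq]
    exact hs.trans hsub
  · refine ⟨j, -δ, by rcases hδ with rfl | rfl <;> simp, ?_, hk2⟩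
    rw [Pi.add_apply, Pi.single_apply] at hj ⊢
    rcases lt_or_eq_of_le hjn with hj' | hj'
    · rw [rA j hj', rB j hj'] at hj
      rcases hδ with rfl | rfl <;> split_ifs at hj ⊢ <;> omega
    · subst hj'
      rw [nA, nB] at hj
      rcases hδ with rfl | rfl <;> split_ifs at hj ⊢ <;> omega

end


/-! ### polynomial time -/

section
variable {ι : Type} [DEnc ι]

theorem pt_exW3 {x : ι → Ins} {g : ι → List ℕ} {L L' : ι → List Ed} {kk kk' : ι → List ℕ} {i : ι → ℕ}
    {up : ι → Bool} (hx : PT x) (hg : PT g) (hL : PT L) (hk : PT kk) (hL' : PT L') (hk' : PT kk') (hi : PT i)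
    (hu : PT up) : PT (fun a => exW3 (x a) (g a) (L a) (kk a) (L' a) (kk' a) (i a) (up a)) := by
  have hF : PT (fun a => fsq3 (x a) (L a) (L' a)) :=
    PT.filter (p := fun z : ι × Sq4 => !cyIn (L z.1) z.2 && !cyIn (L' z.1) z.2) (pt_cyG hx)
      (PT.band (PT.bnot (pt_cyIn (hL.comp PT.fst) PT.snd)) (PT.bnot (pt_cyIn (hL'.comp PT.fst) PT.snd)))
  have h := pt_exch hF (pt_pad (PT.p1 hx) hg hL hk) (pt_pad (PT.p1 hx) hg hL' hk') hi hu
  exact PT.filter (p := fun z : ι × Ed => decide (z.2.1 < (x z.1).1) && decide (z.2.2 < (x z.1).1)) h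
    (PT.band (PT.nlt PT.snd.p1 ((PT.p1 hx).comp PT.fst)) (PT.nlt PT.snd.p2 ((PT.p1 hx).comp PT.fst)))

end

end Pool.Agent.P34

end
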