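import Pool.Agent.PFN.M03

section -- file PF4/LemD

/-!
The digon lemma of the solver for a conflict-free family of squares (note 1993 on MP_d66f00_lc), in
abstract graded form.  `H k x` = the vector `x` is available at stage `k`.  `o` is the vector of the
relaxed configuration (token `t` used), `o - e_t - e_v` and `o - e_t + e_v` are the vectors of the
facts `(v, -)` and `(v, +)` (token not used).
-/

set_option autoImplicit false

namespace Pool.Agent.PF4.LD

open Pool.Agent.TFC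

/-- a graded family of vectors, closed under the two-step exchange (first step in `I`) -/
structure Gr (I : ℕ → Prop) (H : ℕ → (ℕ → ℤ) → Prop) : Prop where
  mono : ∀ k x, H k x → H (k + 1) x
  ex : ∀ k x y (i : ℕ) (ε : ℤ), I i → H k x → H k y → (ε = 1 ∨ ε = -1) → 0 < ε * (y i - x i) →
    ∃ z, H (k + 1) z ∧ Two x y z i ε

theorem Gr.up {I : ℕ → Prop} {H : ℕ → (ℕ → ℤ) → Prop} (G : Gr I H) {k l : ℕ} (h : k ≤ l)
    {x : ℕ → ℤ} (hx : H k x) : H l x := by
  induction l, h using Nat.le_induction with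
  | base => exact hx
  | succ n _ ih => exact G.mono _ _ ih

theorem evv (a v : ℕ) : (ev a : ℕ → ℤ) v = if v = a then 1 else 0 := ev_apply a v

theorem sgl (i : ℕ) (ε : ℤ) (v : ℕ) : (Pi.single i ε : ℕ → ℤ) v = if v = i then ε else 0 := by
  rw [Pi.single_apply]

/-- change the vector -/
theorem cgH {H : ℕ → (ℕ → ℤ) → Prop} {k : ℕ} {x y : ℕ → ℤ} (h : H k x) (e : ∀ v, x v = y v) :
    H k y := by
  rw [← funext e]; exact h

section
variable {I : ℕ → Prop} {H : ℕ → (ℕ → ℤ) → Prop} {o : ℕ → ℤ} {t a p c w k : ℕ}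

/-- STAR: both ends of the digon have an unknown deficit port -/
theorem d_star (G : Gr I H) {σ : ℤ} (hσ : σ = 1 ∨ σ = -1) (hw : I w) (hat : a ≠ t) (hpt : p ≠ t)
    (hap : a ≠ p) (hwt : w ≠ t) (hY : H k (o - ev t + σ • ev w)) (ha : ¬(σ = -1 ∧ w = a))
    (hp : ¬(σ = -1 ∧ w = p)) (h1 : H k (o - ev a - ev p)) :
    H (k + 1) o ∨ H (k + 1) (o - ev t - ev a) ∨ H (k + 1) (o - ev t - ev p) := by
  obtain ⟨z, hz, j, δ, hδ, h, rfl⟩ := G.ex k _ _ w (-σ) hw hY h1 (by omega) (by
    simp only [Pi.add_apply, Pi.sub_apply, Pi.smul_apply, evv, smul_eq_mul]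
    split_ifs <;> rcases hσ with rfl | rfl <;>
      first | (exfalso; omega) | omega | (simp_all; done) | (exfalso; simp_all; omega))
  simp only [Pi.add_apply, Pi.sub_apply, Pi.smul_apply, evv, sgl, smul_eq_mul] at h
  have key : (j = t ∧ δ = 1) ∨ (j = a ∧ δ = -1) ∨ (j = p ∧ δ = -1) := by
    split_ifs at h <;> rcases hσ with rfl | rfl <;> rcases hδ with rfl | rfl <;>
      first | (exfalso; omega) | omega | (simp_all; done) | (exfalso; simp_all; omega)
  rcases key with ⟨rfl, rfl⟩ | ⟨rfl, rfl⟩ | ⟨rfl, rfl⟩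
  · left; exact cgH hz (by intro v; simp only [Pi.add_apply, Pi.sub_apply, Pi.smul_apply, evv, sgl, smul_eq_mul]; split_ifs <;> ring)
  · right; left; exact cgH hz (by intro v; simp only [Pi.add_apply, Pi.sub_apply, Pi.smul_apply, evv, sgl, smul_eq_mul]; split_ifs <;> ring)
  · right; right; exact cgH hz (by intro v; simp only [Pi.add_apply, Pi.sub_apply, Pi.smul_apply, evv, sgl, smul_eq_mul]; split_ifs <;> ring)

/-- L2: the vertex `c` has a known deficit port -/
theorem d_plus (G : Gr I H) (ha : I a) (hat : a ≠ t) (hct : c ≠ t) (hac : a ≠ c)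
    (hY : H k (o - ev t - ev c)) (hX : H k (o - ev a + ev c)) :
    H (k + 1) o ∨ H (k + 1) (o - ev t + ev c) := by
  obtain ⟨z, hz, j, δ, hδ, h, rfl⟩ := G.ex k _ _ a 1 ha hX hY (by omega) (by
    simp only [Pi.add_apply, Pi.sub_apply, evv]
    split_ifs <;>
      first | (exfalso; omega) | omega | (simp_all; done) | (exfalso; simp_all; omega))
  simp only [Pi.add_apply, Pi.sub_apply, evv, sgl] at h
  have key : (j = t ∧ δ = -1) ∨ (j = c ∧ δ = -1) := by
    split_ifs at h <;> rcases hδ with rfl | rfl <;>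
      first | (exfalso; omega) | omega | (simp_all; done) | (exfalso; simp_all; omega)
  rcases key with ⟨rfl, rfl⟩ | ⟨rfl, rfl⟩
  · right; exact cgH hz (by intro v; simp only [Pi.add_apply, Pi.sub_apply, Pi.smul_apply, evv, sgl, smul_eq_mul]; split_ifs <;> ring)
  · left; exact cgH hz (by intro v; simp only [Pi.add_apply, Pi.sub_apply, Pi.smul_apply, evv, sgl, smul_eq_mul]; split_ifs <;> ring)

/-- L1a: `a` has a known surplus port -/
theorem d_a (G : Gr I H) (ha : I a) (hp : I p) (ht : I t) (hat : a ≠ t) (hpt : p ≠ t)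
    (hap : a ≠ p) (hY : H k (o - ev t + ev a)) (h1 : H k (o - ev a - ev p))
    (h2 : H k (o - (2 : ℤ) • ev a - (2 : ℤ) • ev p)) :
    H (k + 3) o ∨ H (k + 3) (o - ev t - ev p) := by
  -- step 1: from Y towards X1, first step at a
  obtain ⟨z, hz, j, δ, hδ, h, rfl⟩ := G.ex k _ _ a (-1) ha hY h1 (by omega) (by
    simp only [Pi.add_apply, Pi.sub_apply, evv]
    split_ifs <;>
      first | (exfalso; omega) | omega | (simp_all; done) | (exfalso; simp_all; omega))
  simp only [Pi.add_apply, Pi.sub_apply, evv, sgl] at h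
  have key : (j = t ∧ δ = 1) ∨ (j = a ∧ δ = -1) ∨ (j = p ∧ δ = -1) := by
    split_ifs at h <;> rcases hδ with rfl | rfl <;>
      first | (exfalso; omega) | omega | (simp_all; done) | (exfalso; simp_all; omega)
  rcases key with ⟨rfl, rfl⟩ | ⟨rfl, rfl⟩ | ⟨rfl, rfl⟩
  · left; apply G.up (show k + 1 ≤ k + 3 by omega); exact cgH hz (by intro v; simp only [Pi.add_apply, Pi.sub_apply, Pi.smul_apply, evv, sgl, smul_eq_mul]; split_ifs <;> ring)
  · -- z1 = o - e_t - e_a
    have hz1 : H (k + 1) (o - ev t - ev j) := by exact cgH hz (by intro v; simp only [Pi.add_apply, Pi.sub_apply, Pi.smul_apply, evv, sgl, smul_eq_mul]; split_ifs <;> ring)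
    obtain ⟨z, hz, i, δ, hδ, h, rfl⟩ := G.ex (k + 1) _ _ j (-1) ha hz1 (G.mono _ _ h2) (by omega) (by
      simp only [Pi.sub_apply, Pi.smul_apply, evv, smul_eq_mul]
      split_ifs <;>
      first | (exfalso; omega) | omega | (simp_all; done) | (exfalso; simp_all; omega))
    simp only [Pi.add_apply, Pi.sub_apply, Pi.smul_apply, evv, sgl, smul_eq_mul] at h
    have key : (i = t ∧ δ = 1) ∨ (i = p ∧ δ = -1) := by
      split_ifs at h <;> rcases hδ with rfl | rfl <;>
      first | (exfalso; omega) | omega | (simp_all; done) | (exfalso; simp_all; omega)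
    rcases key with ⟨rfl, rfl⟩ | ⟨rfl, rfl⟩
    · -- z3 = o - 2 e_a
      have hz3 : H (k + 2) (o - (2 : ℤ) • ev j) := by exact cgH hz (by intro v; simp only [Pi.add_apply, Pi.sub_apply, Pi.smul_apply, evv, sgl, smul_eq_mul]; split_ifs <;> ring)
      obtain ⟨z, hz, l, δ, hδ, h, rfl⟩ := G.ex (k + 2) _ _ i 1 ht
        (G.up (show k ≤ k + 2 by omega) hY) hz3 (by omega) (by
        simp only [Pi.add_apply, Pi.sub_apply, Pi.smul_apply, evv, smul_eq_mul]
        split_ifs <;>
      first | (exfalso; omega) | omega | (simp_all; done) | (exfalso; simp_all; omega))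
      simp only [Pi.add_apply, Pi.sub_apply, Pi.smul_apply, evv, sgl, smul_eq_mul] at h
      have key : l = j ∧ δ = -1 := by
        split_ifs at h <;> rcases hδ with rfl | rfl <;>
      first | (exfalso; omega) | omega | (simp_all; done) | (exfalso; simp_all; omega)
      obtain ⟨rfl, rfl⟩ := key
      left; exact cgH hz (by intro v; simp only [Pi.add_apply, Pi.sub_apply, Pi.smul_apply, evv, sgl, smul_eq_mul]; split_ifs <;> ring)
    · -- z2 = o - e_t - 2 e_a - e_p
      have hz2 : H (k + 2) (o - ev t - (2 : ℤ) • ev j - ev i) := by exact cgH hz (by intro v; simp only [Pi.add_apply, Pi.sub_apply, Pi.smul_apply, evv, sgl, smul_eq_mul]; split_ifs <;> ring)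
      obtain ⟨z, hz, l, δ, hδ, h, rfl⟩ := G.ex (k + 2) _ _ i (-1) hp
        (G.up (show k ≤ k + 2 by omega) hY) hz2 (by omega) (by
        simp only [Pi.add_apply, Pi.sub_apply, Pi.smul_apply, evv, smul_eq_mul]
        split_ifs <;>
      first | (exfalso; omega) | omega | (simp_all; done) | (exfalso; simp_all; omega))
      simp only [Pi.add_apply, Pi.sub_apply, Pi.smul_apply, evv, sgl, smul_eq_mul] at h
      have key : l = j ∧ δ = -1 := by
        split_ifs at h <;> rcases hδ with rfl | rfl <;>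
      first | (exfalso; omega) | omega | (simp_all; done) | (exfalso; simp_all; omega)
      obtain ⟨rfl, rfl⟩ := key
      right; exact cgH hz (by intro v; simp only [Pi.add_apply, Pi.sub_apply, Pi.smul_apply, evv, sgl, smul_eq_mul]; split_ifs <;> ring)
  · right; apply G.up (show k + 1 ≤ k + 3 by omega); exact cgH hz (by intro v; simp only [Pi.add_apply, Pi.sub_apply, Pi.smul_apply, evv, sgl, smul_eq_mul]; split_ifs <;> ring)

/-- L1b: both ends of the digon have a known surplus port -/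
theorem d_ab (G : Gr I H) (hp : I p) (ht : I t) (hat : a ≠ t) (hpt : p ≠ t)
    (hap : a ≠ p) (hY : H k (o - ev t + ev a)) (hY' : H k (o - ev t + ev p))
    (h1 : H k (o - ev a - ev p)) (h2 : H k (o - (2 : ℤ) • ev a - (2 : ℤ) • ev p)) :
    H (k + 3) o := by
  obtain ⟨z, hz, j, δ, hδ, h, rfl⟩ := G.ex k _ _ t 1 ht hY h1 (by omega) (by
    simp only [Pi.add_apply, Pi.sub_apply, evv]
    split_ifs <;>
      first | (exfalso; omega) | omega | (simp_all; done) | (exfalso; simp_all; omega))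
  simp only [Pi.add_apply, Pi.sub_apply, evv, sgl] at h
  have key : (j = a ∧ δ = -1) ∨ (j = p ∧ δ = -1) := by
    split_ifs at h <;> rcases hδ with rfl | rfl <;>
      first | (exfalso; omega) | omega | (simp_all; done) | (exfalso; simp_all; omega)
  rcases key with ⟨rfl, rfl⟩ | ⟨rfl, rfl⟩
  · apply G.up (show k + 1 ≤ k + 3 by omega); exact cgH hz (by intro v; simp only [Pi.add_apply, Pi.sub_apply, Pi.smul_apply, evv, sgl, smul_eq_mul]; split_ifs <;> ring)
  · have hz1 : H (k + 1) (o + ev a - ev j) := by exact cgH hz (by intro v; simp only [Pi.add_apply, Pi.sub_apply, Pi.smul_apply, evv, sgl, smul_eq_mul]; split_ifs <;> ring)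
    obtain ⟨z, hz, i, δ, hδ, h, rfl⟩ := G.ex (k + 1) _ _ j (-1) hp hz1 (G.mono _ _ h2) (by omega) (by
      simp only [Pi.add_apply, Pi.sub_apply, Pi.smul_apply, evv, smul_eq_mul]
      split_ifs <;>
      first | (exfalso; omega) | omega | (simp_all; done) | (exfalso; simp_all; omega))
    simp only [Pi.add_apply, Pi.sub_apply, Pi.smul_apply, evv, sgl, smul_eq_mul] at h
    have key : i = a ∧ δ = -1 := by
      split_ifs at h <;> rcases hδ with rfl | rfl <;>
      first | (exfalso; omega) | omega | (simp_all; done) | (exfalso; simp_all; omega)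
    obtain ⟨rfl, rfl⟩ := key
    have hz2 : H (k + 2) (o - (2 : ℤ) • ev j) := by exact cgH hz (by intro v; simp only [Pi.add_apply, Pi.sub_apply, Pi.smul_apply, evv, sgl, smul_eq_mul]; split_ifs <;> ring)
    obtain ⟨z, hz, l, δ, hδ, h, rfl⟩ := G.ex (k + 2) _ _ t 1 ht
      (G.up (show k ≤ k + 2 by omega) hY') hz2 (by omega) (by
      simp only [Pi.add_apply, Pi.sub_apply, Pi.smul_apply, evv, smul_eq_mul]
      split_ifs <;>
      first | (exfalso; omega) | omega | (simp_all; done) | (exfalso; simp_all; omega))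
    simp only [Pi.add_apply, Pi.sub_apply, Pi.smul_apply, evv, sgl, smul_eq_mul] at h
    have key : l = j ∧ δ = -1 := by
      split_ifs at h <;> rcases hδ with rfl | rfl <;>
      first | (exfalso; omega) | omega | (simp_all; done) | (exfalso; simp_all; omega)
    obtain ⟨rfl, rfl⟩ := key
    exact cgH hz (by intro v; simp only [Pi.add_apply, Pi.sub_apply, Pi.smul_apply, evv, sgl, smul_eq_mul]; split_ifs <;> ring)

/-- K4: the full square, `c` has a known surplus port -/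
theorem d_sq (G : Gr I H) (ht : I t) (hct : c ≠ t) (hY : H k (o - ev t + ev c))
    (hX : H k (o - (2 : ℤ) • ev c)) : H (k + 1) o := by
  obtain ⟨z, hz, j, δ, hδ, h, rfl⟩ := G.ex k _ _ t 1 ht hY hX (by omega) (by
    simp only [Pi.add_apply, Pi.sub_apply, Pi.smul_apply, evv, smul_eq_mul]
    split_ifs <;>
      first | (exfalso; omega) | omega | (simp_all; done) | (exfalso; simp_all; omega))
  simp only [Pi.add_apply, Pi.sub_apply, Pi.smul_apply, evv, sgl, smul_eq_mul] at h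
  have key : j = c ∧ δ = -1 := by
    split_ifs at h <;> rcases hδ with rfl | rfl <;>
      first | (exfalso; omega) | omega | (simp_all; done) | (exfalso; simp_all; omega)
  obtain ⟨rfl, rfl⟩ := key
  exact cgH hz (by intro v; simp only [Pi.add_apply, Pi.sub_apply, Pi.smul_apply, evv, sgl, smul_eq_mul]; split_ifs <;> ring)

/-- K4: the full square, the deficit port of `c` is unknown -/
theorem d_sq' (G : Gr I H) {σ : ℤ} (hσ : σ = 1 ∨ σ = -1) (hw : I w) (hct : c ≠ t) (hwt : w ≠ t)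
    (hY : H k (o - ev t + σ • ev w)) (hc : ¬(σ = -1 ∧ w = c))
    (hX : H k (o - (2 : ℤ) • ev c)) : H (k + 1) o ∨ H (k + 1) (o - ev t - ev c) := by
  obtain ⟨z, hz, j, δ, hδ, h, rfl⟩ := G.ex k _ _ w (-σ) hw hY hX (by omega) (by
    simp only [Pi.add_apply, Pi.sub_apply, Pi.smul_apply, evv, smul_eq_mul]
    split_ifs <;> rcases hσ with rfl | rfl <;>
      first | (exfalso; omega) | omega | (simp_all; done) | (exfalso; simp_all; omega))
  simp only [Pi.add_apply, Pi.sub_apply, Pi.smul_apply, evv, sgl, smul_eq_mul] at h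
  have key : (j = t ∧ δ = 1) ∨ (j = c ∧ δ = -1) := by
    split_ifs at h <;> rcases hσ with rfl | rfl <;> rcases hδ with rfl | rfl <;>
      first | (exfalso; omega) | omega | (simp_all; done) | (exfalso; simp_all; omega)
  rcases key with ⟨rfl, rfl⟩ | ⟨rfl, rfl⟩
  · left; exact cgH hz (by intro v; simp only [Pi.add_apply, Pi.sub_apply, Pi.smul_apply, evv, sgl, smul_eq_mul]; split_ifs <;> ring)
  · right; exact cgH hz (by intro v; simp only [Pi.add_apply, Pi.sub_apply, Pi.smul_apply, evv, sgl, smul_eq_mul]; split_ifs <;> ring)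

end

/-! ### known and unknown ports -/

/-- the known ports: `Fm v` = `(v, -)` is known, `Fp v` = `(v, +)` is known -/
structure Facts (I : ℕ → Prop) (H : ℕ → (ℕ → ℤ) → Prop) (o : ℕ → ℤ) (t k : ℕ)
    (Fm Fp : ℕ → Prop) : Prop where
  gr : Gr I H
  tI : I t
  m : ∀ v, Fm v → v ≠ t ∧ I v ∧ H k (o - ev t - ev v)
  p : ∀ v, Fp v → v ≠ t ∧ I v ∧ H k (o - ev t + ev v)
  some : (∃ v, Fm v) ∨ ∃ v, Fp v

/-- the vectors we want: `o` itself or an unknown port -/
def Gv (o : ℕ → ℤ) (t : ℕ) (Fm Fp : ℕ → Prop) (z : ℕ → ℤ) : Prop :=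
  z = o ∨ (∃ v, v ≠ t ∧ ¬Fm v ∧ z = o - ev t - ev v) ∨ ∃ v, v ≠ t ∧ ¬Fp v ∧ z = o - ev t + ev v

section
variable {I : ℕ → Prop} {H : ℕ → (ℕ → ℤ) → Prop} {o : ℕ → ℤ} {t a p c k : ℕ}
  {Fm Fp : ℕ → Prop}

/-- LEMMA D, case of a PLUS vertex `c` (deficit port known, surplus port unknown) -/
theorem lemD_plus (F : Facts I H o t k Fm Fp) (hc : Fm c) (hc' : ¬Fp c) (ha : I a) (hat : a ≠ t)
    (hac : a ≠ c) (hX : H k (o - ev a + ev c)) : ∃ z, Gv o t Fm Fp z ∧ H (k + 3) z := by
  obtain ⟨hct, _, hY⟩ := F.m c hc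
  rcases d_plus F.gr ha hat hct hac hY hX with h | h
  · exact ⟨_, Or.inl rfl, F.gr.up (show k + 1 ≤ k + 3 by omega) h⟩
  · exact ⟨_, Or.inr (Or.inr ⟨c, hct, hc', rfl⟩), F.gr.up (show k + 1 ≤ k + 3 by omega) h⟩

/-- LEMMA D, case of a digon without PLUS vertex -/
theorem lemD_digon (F : Facts I H o t k Fm Fp) (ha : I a) (hp : I p) (hat : a ≠ t) (hpt : p ≠ t)
    (hap : a ≠ p) (hFa : Fm a → Fp a) (hFp : Fm p → Fp p) (h1 : H k (o - ev a - ev p))
    (h2 : H k (o - (2 : ℤ) • ev a - (2 : ℤ) • ev p)) :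
    ∃ z, Gv o t Fm Fp z ∧ H (k + 3) z := by
  classical
  have up1 : ∀ {x}, H (k + 1) x → H (k + 3) x := fun {x} h => F.gr.up (by omega) h
  have h1' : H k (o - ev p - ev a) := by exact cgH h1 (by intro v; simp only [Pi.add_apply, Pi.sub_apply, Pi.smul_apply, evv, sgl, smul_eq_mul]; split_ifs <;> ring)
  have h2' : H k (o - (2 : ℤ) • ev p - (2 : ℤ) • ev a) := by exact cgH h2 (by intro v; simp only [Pi.add_apply, Pi.sub_apply, Pi.smul_apply, evv, sgl, smul_eq_mul]; split_ifs <;> ring)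
  by_cases ma : Fm a
  · have pa := hFa ma
    by_cases mp : Fm p
    · exact ⟨_, Or.inl rfl, d_ab F.gr hp F.tI hat hpt hap (F.p a pa).2.2 (F.p p (hFp mp)).2.2 h1 h2⟩
    · rcases d_a F.gr ha hp F.tI hat hpt hap (F.p a pa).2.2 h1 h2 with h | h
      · exact ⟨_, Or.inl rfl, h⟩
      · exact ⟨_, Or.inr (Or.inl ⟨p, hpt, mp, rfl⟩), h⟩
  · by_cases mp : Fm p
    · rcases d_a F.gr hp ha F.tI hpt hat (Ne.symm hap) (F.p p (hFp mp)).2.2 h1' h2' with h | h
      · exact ⟨_, Or.inl rfl, h⟩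
      · exact ⟨_, Or.inr (Or.inl ⟨a, hat, ma, rfl⟩), h⟩
    · obtain ⟨σ, w, hσ, hw, hwt, hY, hwa, hwp⟩ : ∃ (σ : ℤ) (w : ℕ), (σ = 1 ∨ σ = -1) ∧ I w ∧ w ≠ t ∧
          H k (o - ev t + σ • ev w) ∧ ¬(σ = -1 ∧ w = a) ∧ ¬(σ = -1 ∧ w = p) := by
        rcases F.some with ⟨v, hv⟩ | ⟨v, hv⟩
        · obtain ⟨q1, q2, q3⟩ := F.m v hv
          refine ⟨-1, v, by simp, q2, q1, ?_, ?_, ?_⟩
          · exact cgH q3 (by intro v; simp only [Pi.add_apply, Pi.sub_apply, Pi.smul_apply, evv, sgl, smul_eq_mul]; split_ifs <;> ring)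
          · rintro ⟨_, rfl⟩; exact ma hv
          · rintro ⟨_, rfl⟩; exact mp hv
        · obtain ⟨q1, q2, q3⟩ := F.p v hv
          refine ⟨1, v, by simp, q2, q1, ?_, ?_, ?_⟩
          · exact cgH q3 (by intro v; simp only [Pi.add_apply, Pi.sub_apply, Pi.smul_apply, evv, sgl, smul_eq_mul]; split_ifs <;> ring)
          · rintro ⟨h, _⟩; omega
          · rintro ⟨h, _⟩; omega
      rcases d_star F.gr hσ hw hat hpt hap hwt hY hwa hwp h1 with h | h | h
      · exact ⟨_, Or.inl rfl, up1 h⟩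
      · exact ⟨_, Or.inr (Or.inl ⟨a, hat, ma, rfl⟩), up1 h⟩
      · exact ⟨_, Or.inr (Or.inl ⟨p, hpt, mp, rfl⟩), up1 h⟩

/-- LEMMA D, case of the full square of a `K4` with a vertex `c` which is not PLUS -/
theorem lemD_sq (F : Facts I H o t k Fm Fp) (hct : c ≠ t) (hFc : Fm c → Fp c)
    (hX : H k (o - (2 : ℤ) • ev c)) : ∃ z, Gv o t Fm Fp z ∧ H (k + 3) z := by
  classical
  have up1 : ∀ {x}, H (k + 1) x → H (k + 3) x := fun {x} h => F.gr.up (by omega) h
  by_cases mc : Fm c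
  · exact ⟨_, Or.inl rfl, up1 (d_sq F.gr F.tI hct (F.p c (hFc mc)).2.2 hX)⟩
  · obtain ⟨σ, w, hσ, hw, hwt, hY, hwc⟩ : ∃ (σ : ℤ) (w : ℕ), (σ = 1 ∨ σ = -1) ∧ I w ∧ w ≠ t ∧
        H k (o - ev t + σ • ev w) ∧ ¬(σ = -1 ∧ w = c) := by
      rcases F.some with ⟨v, hv⟩ | ⟨v, hv⟩
      · obtain ⟨q1, q2, q3⟩ := F.m v hv
        refine ⟨-1, v, by simp, q2, q1, ?_, ?_⟩
        · exact cgH q3 (by intro v; simp only [Pi.add_apply, Pi.sub_apply, Pi.smul_apply, evv, sgl, smul_eq_mul]; split_ifs <;> ring)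
        · rintro ⟨_, rfl⟩; exact mc hv
      · obtain ⟨q1, q2, q3⟩ := F.p v hv
        refine ⟨1, v, by simp, q2, q1, ?_, ?_⟩
        · exact cgH q3 (by intro v; simp only [Pi.add_apply, Pi.sub_apply, Pi.smul_apply, evv, sgl, smul_eq_mul]; split_ifs <;> ring)
        · rintro ⟨h, _⟩; omega
    rcases d_sq' F.gr hσ hw hct hwt hY hwc hX with h | h
    · exact ⟨_, Or.inl rfl, up1 h⟩
    · exact ⟨_, Or.inr (Or.inl ⟨c, hct, mc, rfl⟩), up1 h⟩

end

end Pool.Agent.PF4.LD

end

section -- file PF4/XCal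

/-!
Calculus of graded families of vectors: sum with a fixed jump set, partner exchange, loops.
-/

set_option autoImplicit false

namespace Pool.Agent.PF4.XC

open Finset Pool.Agent.TFC Pool.Agent.PF4 Pool.Agent.PF4.LD

/-- `B` is a jump set of vectors -/
def JB (B : (ℕ → ℤ) → Prop) : Prop :=
  ∀ x y (i : ℕ) (ε : ℤ), B x → B y → (ε = 1 ∨ ε = -1) → 0 < ε * (y i - x i) → ∃ z, B z ∧ Two x y z i ε

/-- `ℓ1` distance on `S` -/
def dS (S : Finset ℕ) (x y : ℕ → ℤ) : ℕ := ∑ v ∈ S, (y v - x v).natAbs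

theorem dS_step (S : Finset ℕ) (x y : ℕ → ℤ) (i : ℕ) (ε : ℤ) (hi : i ∈ S) (hε : ε = 1 ∨ ε = -1)
    (h : 0 < ε * (y i - x i)) : dS S (x + Pi.single i ε) y + 1 = dS S x y := by
  unfold dS
  have e : ∀ v ∈ S, (y v - x v).natAbs =
      (y v - (x + Pi.single i ε : ℕ → ℤ) v).natAbs + if v = i then 1 else 0 := by
    intro v _
    rw [Pi.add_apply, sgl]
    by_cases hv : v = i
    · subst hv
      simp only [if_true]
      rcases hε with rfl | rfl <;> omega
    · simp only [if_neg hv, add_zero]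
  rw [Finset.sum_congr rfl e, Finset.sum_add_distrib]
  simp [hi]

/-- a two-step exchange inside `S` decreases the distance by 2 -/
theorem dS_two {S : Finset ℕ} {x y z : ℕ → ℤ} {i : ℕ} {ε : ℤ} (hx : ∀ v, v ∉ S → x v = y v)
    (hε : ε = 1 ∨ ε = -1) (h : 0 < ε * (y i - x i)) (h2 : Two x y z i ε) :
    ∃ (j : ℕ) (δ : ℤ), j ∈ S ∧ i ∈ S ∧ (δ = 1 ∨ δ = -1) ∧
      0 < δ * (y j - (x + Pi.single i ε : ℕ → ℤ) j) ∧ z = x + Pi.single i ε + Pi.single j δ ∧
      dS S z y + 2 = dS S x y := by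
  obtain ⟨j, δ, hδ, hj, rfl⟩ := h2
  have hi : i ∈ S := by
    by_contra hc
    rw [hx i hc] at h
    simp at h
  have hjS : j ∈ S := by
    by_contra hc
    rw [Pi.add_apply, sgl, hx j hc, if_neg (fun e : j = i => hc (by rw [e]; exact hi))] at hj
    simp at hj
  refine ⟨j, δ, hjS, hi, hδ, hj, rfl, ?_⟩
  have h1 := dS_step S x y i ε hi hε h
  have h2 := dS_step S (x + Pi.single i ε) y j δ hjS hδ hj
  omega

/-- the result of an exchange in a sum -/
def Res (A B : (ℕ → ℤ) → Prop) (y u : ℕ → ℤ) : Prop :=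
  ∃ (j : ℕ) (δ : ℤ) (a b : ℕ → ℤ), (δ = 1 ∨ δ = -1) ∧ 0 < δ * (y j - u j) ∧ A a ∧ B b ∧
    a + b = u + Pi.single j δ

theorem Res.mono {A A' B : (ℕ → ℤ) → Prop} {y u : ℕ → ℤ} (h : ∀ a, A a → A' a) :
    Res A B y u → Res A' B y u := by
  rintro ⟨j, δ, a, b, h1, h2, h3, h4, h5⟩
  exact ⟨j, δ, a, b, h1, h2, h a h3, h4, h5⟩

variable {I : ℕ → Prop} {A : ℕ → (ℕ → ℤ) → Prop} {B : (ℕ → ℤ) → Prop} {S : Finset ℕ}

/-- the exchange in a sum, starting with a step `(i, δ)` -/
theorem sum_aux (GA : Gr I A) (hB : JB B) (hS : ∀ v ∈ S, I v) (hBS : ∀ b, B b → ∀ v, v ∉ S → b v = 0)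
    {a' b' u : ℕ → ℤ} (hb' : B b') : ∀ (n k : ℕ), A k a' → ∀ (a b : ℕ → ℤ) (i : ℕ) (δ : ℤ), A k a →
    B b → I i → (δ = 1 ∨ δ = -1) → dS S b b' ≤ 2 * n + 1 → a + b + Pi.single i δ = u →
    (0 < δ * (a' i - a i) ∨ 0 < δ * (b' i - b i)) → Res (A (k + n + 1)) B (a' + b') u := by
  intro n
  induction n with
  | zero =>
    intro k ha' a b i δ ha hb hi hδ hn hu h
    -- no step in `B` is possible
    have nb : ∀ (j : ℕ) (δ : ℤ), (δ = 1 ∨ δ = -1) → ¬ 0 < δ * (b' j - b j) := by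
      intro j δ hδ hj
      obtain ⟨z, _, hz⟩ := hB b b' j δ hb hb' hδ hj
      obtain ⟨_, _, _, _, _, _, _, hd⟩ := dS_two (fun v hv => (hBS b hb v hv).trans (hBS b' hb' v hv).symm)
        hδ hj hz
      omega
    rcases h with h | h
    · obtain ⟨z, hz, j, δ', hδ', hj, rfl⟩ := GA.ex k a a' i δ hi ha ha' hδ h
      refine ⟨j, δ', _, b, hδ', ?_, hz, hb, by rw [← hu]; abel⟩
      by_contra hc
      refine nb j (-δ') (by omega) ?_
      rw [← hu] at hc
      simp only [Pi.add_apply] at hc hj ⊢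
      rcases hδ' with rfl | rfl <;> omega
    · exact absurd h (nb i δ hδ)
  | succ n ih =>
    intro k ha' a b i δ ha hb hi hδ hn hu h
    -- a step in `B`
    have sb : ∀ (l : ℕ) (a : ℕ → ℤ) (j : ℕ) (δ : ℤ), A l a' → A l a → (δ = 1 ∨ δ = -1) →
        a + b + Pi.single j δ = u → 0 < δ * (b' j - b j) → Res (A (l + n + 1)) B (a' + b') u := by
      intro l a j δ ha' ha hδ hu hj
      obtain ⟨z, hz, hz2⟩ := hB b b' j δ hb hb' hδ hj
      obtain ⟨j', δ', hjS, _, hδ', hj', rfl, hd⟩ := dS_two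
        (fun v hv => (hBS b hb v hv).trans (hBS b' hb' v hv).symm) hδ hj hz2
      by_cases hc : 0 < δ' * ((a' + b') j' - u j')
      · exact ⟨j', δ', a, _, hδ', hc, GA.up (by omega) ha, hz, by rw [← hu]; abel⟩
      · refine ih l ha' a _ j' (-δ') ha hz (hS j' hjS) (by omega) (by omega) ?_ ?_
        · rw [← hu, Pi.single_neg]; abel
        · rw [← hu] at hc
          simp only [Pi.add_apply, Pi.single_eq_same] at hc hj' ⊢
          rcases hδ' with rfl | rfl <;> omega
    rcases h with h | h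
    · obtain ⟨z, hz, j, δ', hδ', hj, rfl⟩ := GA.ex k a a' i δ hi ha ha' hδ h
      by_cases hc : 0 < δ' * ((a' + b') j - u j)
      · exact ⟨j, δ', _, b, hδ', hc, GA.up (by omega) hz, hb, by rw [← hu]; abel⟩
      · have := sb (k + 1) _ j (-δ') (GA.mono _ _ ha') hz (by omega)
          (by rw [← hu, Pi.single_neg]; abel) (by
          rw [← hu] at hc
          simp only [Pi.add_apply] at hc hj ⊢
          rcases hδ' with rfl | rfl <;> omega)
        exact this.mono fun x hx => GA.up (by omega) hx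
    · exact (sb k a i δ ha' ha hδ hu h).mono fun x hx => GA.up (by omega) hx

/-- sum of two jump sets, the second one living on a finite set of coordinates -/
theorem JB.add {A B : (ℕ → ℤ) → Prop} {S : Finset ℕ} (hA : JB A) (hB : JB B)
    (hBS : ∀ b, B b → ∀ v, v ∉ S → b v = 0) : JB (fun z => ∃ a b, A a ∧ B b ∧ z = a + b) := by
  have GA : Gr (fun _ => True) (fun _ => A) :=
    ⟨fun _ _ h => h, fun _ x y i ε _ hx hy hε h => hA x y i ε hx hy hε h⟩
  rintro _ _ i ε ⟨a, b, ha, hb, rfl⟩ ⟨a', b', ha', hb', rfl⟩ hε h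
  obtain ⟨j, δ, a₂, b₂, hδ, hj, h1, h2, h3⟩ := sum_aux GA hB (fun _ _ => trivial) hBS
    (u := a + b + Pi.single i ε) hb' (dS S b b') 0 ha' a b i ε ha hb trivial hε (by omega) rfl (by
      simp only [Pi.add_apply] at h
      rcases hε with rfl | rfl <;> omega)
  exact ⟨a₂ + b₂, ⟨a₂, b₂, h1, h2, rfl⟩, j, δ, hδ, hj, h3⟩

theorem JB.neg {A : (ℕ → ℤ) → Prop} (hA : JB A) : JB (fun z => A (-z)) := by
  intro x y i ε hx hy hε h
  obtain ⟨z, hz, j, δ, hδ, hj, rfl⟩ := hA (-x) (-y) i (-ε) hx hy (by omega) (by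
    simp only [Pi.neg_apply]
    rcases hε with rfl | rfl <;> omega)
  refine ⟨-(-x + Pi.single i (-ε) + Pi.single j δ), ?_, j, -δ, by omega, ?_, ?_⟩
  · show A (- -(-x + Pi.single i (-ε) + Pi.single j δ))
    rw [neg_neg]; exact hz
  · simp only [Pi.neg_apply, Pi.add_apply, sgl] at hj ⊢
    split_ifs at hj ⊢ <;> rcases hε with rfl | rfl <;> rcases hδ with rfl | rfl <;> omega
  · simp only [Pi.single_neg]; abel

/-! ### a closed stage -/

open Classical in
/-- the vectors of the box `{0,1,2}^S` -/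
noncomputable def boxV (S : Finset ℕ) : Finset (ℕ → ℤ) :=
  (Finset.univ : Finset (S → Fin 3)).image fun g v => if h : v ∈ S then ((g ⟨v, h⟩ : ℕ) : ℤ) else 0

open Classical in
theorem card_boxV (S : Finset ℕ) : #(boxV S) ≤ 3 ^ #S := by
  refine Finset.card_image_le.trans ?_
  simp

open Classical in
theorem mem_boxV {S : Finset ℕ} {z : ℕ → ℤ} (h0 : ∀ v, v ∉ S → z v = 0)
    (h1 : ∀ v ∈ S, 0 ≤ z v ∧ z v ≤ 2) : z ∈ boxV S := by
  unfold boxV
  rw [Finset.mem_image]
  refine ⟨fun v => ⟨(z v).toNat, ?_⟩, Finset.mem_univ _, ?_⟩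
  · have := h1 v v.2
    omega
  · funext v
    by_cases hv : v ∈ S
    · have := h1 v hv
      simp only [hv, dif_pos]
      omega
    · simp only [hv, dif_neg, not_false_iff]
      exact (h0 v hv).symm

/-- among the stages `j, ..., j + #F` there is one which is closed -/
theorem exists_closed {α : Type*} {H : ℕ → α → Prop} (mono : ∀ k z, H k z → H (k + 1) z)
    (F : Finset α) (hF : ∀ k z, H k z → z ∈ F) (j : ℕ) :
    ∃ k, j ≤ k ∧ k ≤ j + #F ∧ ∀ z, H (k + 1) z → H k z := by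
  classical
  by_contra hc
  push Not at hc
  have key : ∀ n, n ≤ #F + 1 → n ≤ #(F.filter (H (j + n))) := by
    intro n
    induction n with
    | zero => intro _; exact Nat.zero_le _
    | succ n ih =>
      intro hn
      have h1 := ih (by omega)
      obtain ⟨z, hz, hz'⟩ := hc (j + n) (by omega) (by omega)
      have h2 : F.filter (H (j + n)) ⊂ F.filter (H (j + (n + 1))) := by
        rw [Finset.ssubset_iff_of_subset]
        · exact ⟨z, Finset.mem_filter.2 ⟨hF _ _ hz, hz⟩, fun h => hz' (Finset.mem_filter.1 h).2⟩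
        · intro w hw
          rw [Finset.mem_filter] at hw ⊢
          exact ⟨hw.1, mono _ _ hw.2⟩
      have := Finset.card_lt_card h2
      omega
  have h1 := key (#F + 1) le_rfl
  have h2 := Finset.card_filter_le F (H (j + (#F + 1)))
  omega

/-- **a closed stage is a jump set** -/
theorem closed_stage {I : ℕ → Prop} {H : ℕ → (ℕ → ℤ) → Prop} (G : Gr I H) (S : Finset ℕ)
    (hI : ∀ v ∈ S, I v) (h0 : ∀ k z, H k z → ∀ v, v ∉ S → z v = 0)
    (h1 : ∀ k z, H k z → ∀ v ∈ S, 0 ≤ z v ∧ z v ≤ 2) (j : ℕ) :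
    ∃ k, j ≤ k ∧ k ≤ j + 3 ^ #S ∧ JB (H k) := by
  obtain ⟨k, hk1, hk2, hk⟩ := exists_closed G.mono (boxV S)
    (fun k z hz => mem_boxV (h0 k z hz) (h1 k z hz)) j
  refine ⟨k, hk1, hk2.trans (Nat.add_le_add_left (card_boxV S) j), ?_⟩
  intro x y i ε hx hy hε h
  have hi : i ∈ S := by
    by_contra hc
    rw [h0 k x hx i hc, h0 k y hy i hc] at h
    simp at h
  obtain ⟨z, hz, hz2⟩ := G.ex k x y i ε (hI i hi) hx hy hε h
  exact ⟨z, hk z hz, hz2⟩

end Pool.Agent.PF4.XC

end

section -- file PF4/RG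

/-!
# The rooted Gallai-Edmonds inequality for jump sets

`J` a jump set of vectors, `z` the root coordinate, `0` not in `J`. The facts are the signed units `(v, ε)` with
`ε e_v + e_z` in `J`. `phi` counts each vector with the types of the facts; `phi d ≥ 1` for all `d` in `J` with `d z = 0` or
`d z = 1`.
-/

set_option autoImplicit false

namespace Pool.Agent.PF4.RG

open Finset Pool.Agent.TFC Pool.Agent.PF4 Pool.Agent.PF4.LD Pool.Agent.PF4.XC

/-- the signed unit `(v, ε)` is a fact -/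
def Fa (J : (ℕ → ℤ) → Prop) (z v : ℕ) (ε : ℤ) : Prop := J (Pi.single v ε + Pi.single z 1)

open Classical in
/-- contribution of the coordinate `v` -/
noncomputable def wt (J : (ℕ → ℤ) → Prop) (z v : ℕ) (a : ℤ) : ℤ :=
  if Fa J z v 1 then (if Fa J z v (-1) then a % 2 else a) else if Fa J z v (-1) then -a else 0

/-- the form -/
noncomputable def phi (J : (ℕ → ℤ) → Prop) (z : ℕ) (S : Finset ℕ) (d : ℕ → ℤ) : ℤ := ∑ v ∈ S, wt J z v (d v)

theorem wt_step (J : (ℕ → ℤ) → Prop) (z v : ℕ) (a δ : ℤ) (hδ : δ = 1 ∨ δ = -1) :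
    wt J z v (a + δ) ≤ wt J z v a + 1 := by
  unfold wt
  split_ifs <;> rcases hδ with rfl | rfl <;> omega

theorem wt_good {J : (ℕ → ℤ) → Prop} {z v : ℕ} {a ε : ℤ} (hε : ε = 1 ∨ ε = -1) (hf : Fa J z v ε) (h : 0 < ε * a)
    (hz : Fa J z v 1 → Fa J z v (-1) → a.natAbs ≤ 1) : 1 ≤ wt J z v a ∧ wt J z v (a - ε) = wt J z v a - 1 := by
  unfold wt
  rcases hε with rfl | rfl
  · rw [if_pos hf, if_pos hf]
    by_cases h2 : Fa J z v (-1)
    · have := hz hf h2
      rw [if_pos h2, if_pos h2]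
      omega
    · rw [if_neg h2, if_neg h2]
      omega
  · by_cases h2 : Fa J z v 1
    · have := hz h2 hf
      rw [if_pos h2, if_pos h2, if_pos hf, if_pos hf]
      omega
    · rw [if_neg h2, if_neg h2, if_pos hf, if_pos hf]
      omega

theorem wt_bad {J : (ℕ → ℤ) → Prop} {z v : ℕ} {a : ℤ} (h : wt J z v a < 0) :
    ∃ η : ℤ, (η = 1 ∨ η = -1) ∧ 0 < η * a ∧ Fa J z v (-η) := by
  unfold wt at h
  split_ifs at h with h1 h2 h2
  · omega
  · exact ⟨-1, Or.inr rfl, by omega, by simpa using h1⟩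
  · exact ⟨1, Or.inl rfl, by omega, h2⟩
  · omega

/-- the size -/
def nm (S : Finset ℕ) (d : ℕ → ℤ) : ℕ := ∑ v ∈ S, (d v).natAbs

theorem sum_upd {S : Finset ℕ} {v : ℕ} (hv : v ∈ S) (g : ℕ → ℤ → ℤ) (d : ℕ → ℤ) (c : ℤ) :
    ∑ u ∈ S, g u ((d + Pi.single v c : ℕ → ℤ) u) = ∑ u ∈ S, g u (d u) + (g v (d v + c) - g v (d v)) := by
  rw [← Finset.add_sum_erase S _ hv, ← Finset.add_sum_erase S (fun u => g u (d u)) hv]
  have h : ∀ u ∈ S.erase v, g u ((d + Pi.single v c : ℕ → ℤ) u) = g u (d u) := by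
    intro u hu
    rw [Pi.add_apply, sgl, if_neg (Finset.ne_of_mem_erase hu), add_zero]
  rw [Finset.sum_congr rfl h, Pi.add_apply, sgl, if_pos rfl]
  ring

theorem nm_upd {S : Finset ℕ} {v : ℕ} (hv : v ∈ S) (d : ℕ → ℤ) (c : ℤ) :
    (nm S (d + Pi.single v c) : ℤ) = nm S d + ((d v + c).natAbs - (d v).natAbs) := by
  have h := sum_upd hv (fun _ a => (a.natAbs : ℤ)) d c
  unfold nm
  rw [Nat.cast_sum, Nat.cast_sum]
  exact h

theorem phi_upd (J : (ℕ → ℤ) → Prop) (z : ℕ) {S : Finset ℕ} {v : ℕ} (hv : v ∈ S) (d : ℕ → ℤ) (c : ℤ) :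
    phi J z S (d + Pi.single v c) = phi J z S d + (wt J z v (d v + c) - wt J z v (d v)) :=
  sum_upd hv (fun u a => wt J z u a) d c

/-! ### periodicity -/

theorem jb_even (v : ℕ) : JB (fun b => ∃ k : ℤ, b = Pi.single v (2 * k)) := by
  rintro _ _ i ε ⟨k, rfl⟩ ⟨l, rfl⟩ hε h
  rw [sgl, sgl] at h
  by_cases hi : i = v
  · subst hi
    rw [if_pos rfl, if_pos rfl] at h
    refine ⟨Pi.single i (2 * (k + ε)), ⟨k + ε, rfl⟩, i, ε, hε, ?_, ?_⟩
    · rw [Pi.add_apply, sgl, sgl, sgl, if_pos rfl, if_pos rfl, if_pos rfl]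
      rcases hε with rfl | rfl <;> omega
    · funext u
      rw [Pi.add_apply, Pi.add_apply, sgl, sgl, sgl]
      split_ifs <;> ring
  · rw [if_neg hi, if_neg hi] at h
    simp at h

/-- properties of the extended jump set -/
structure Ext (J J' : (ℕ → ℤ) → Prop) (z : ℕ) (S Z : Finset ℕ) : Prop where
  jb : JB J'
  sub : ∀ x, J x → J' x
  off : ∀ x, J' x → ∀ v, v ∉ S → v ≠ z → x v = 0
  no : ¬ J' 0
  fa : ∀ v (ε : ℤ), v ≠ z → (ε = 1 ∨ ε = -1) → Fa J' z v ε → Fa J z v ε
  per : ∀ v ∈ Z, ∀ x, J' x → ∀ k : ℤ, J' (x + Pi.single v (2 * k))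

theorem extend {J : (ℕ → ℤ) → Prop} {z : ℕ} {S : Finset ℕ} (hJ : JB J)
    (hoff : ∀ x, J x → ∀ v, v ∉ S → v ≠ z → x v = 0) (h0 : ¬ J 0) (Z : Finset ℕ)
    (hZ : ∀ v ∈ Z, v ∈ S ∧ v ≠ z ∧ Fa J z v 1 ∧ Fa J z v (-1)) : ∃ J', Ext J J' z S Z := by
  classical
  induction Z using Finset.induction_on with
  | empty => exact ⟨J, hJ, fun _ h => h, hoff, h0, fun _ _ _ _ h => h, fun v hv => by simp at hv⟩
  | insert v Z hv ih =>
    obtain ⟨J₁, e⟩ := ih fun u hu => hZ u (Finset.mem_insert_of_mem hu)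
    obtain ⟨hvS, hvz, hf1, hf2⟩ := hZ v (Finset.mem_insert_self _ _)
    have g1 : J₁ (Pi.single v 1 + Pi.single z 1) := e.sub _ hf1
    have g2 : J₁ (Pi.single v (-1) + Pi.single z 1) := e.sub _ hf2
    -- the key step
    have key : ∀ (m : ℤ), m ≠ 0 → ∃ η : ℤ, (η = 1 ∨ η = -1) ∧ 0 < η * m ∧
        J₁ (Pi.single v (-η) + Pi.single z 1) := by
      intro m hm
      rcases lt_or_gt_of_ne hm with h | h
      · exact ⟨-1, Or.inr rfl, by omega, by simpa using g1⟩
      · exact ⟨1, Or.inl rfl, by omega, g2⟩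
    refine ⟨fun x => ∃ a b, J₁ a ∧ (∃ k : ℤ, b = Pi.single v (2 * k)) ∧ x = a + b,
      e.jb.add (S := {v}) (jb_even v) ?_, ?_, ?_, ?_, ?_, ?_⟩
    · rintro b ⟨k, rfl⟩ u hu
      rw [Finset.mem_singleton] at hu
      rw [sgl, if_neg hu]
    · intro x hx
      exact ⟨x, Pi.single v (2 * 0), e.sub x hx, ⟨0, rfl⟩, by simp⟩
    · rintro _ ⟨a, _, ha, ⟨k, rfl⟩, rfl⟩ u hu huz
      rw [Pi.add_apply, e.off a ha u hu huz, sgl, if_neg (fun h => hu (by rw [h]; exact hvS)), add_zero]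
    · rintro ⟨a, _, ha, ⟨k, rfl⟩, h⟩
      by_cases hk : k = 0
      · subst hk
        have : a = 0 := by simpa using h.symm
        rw [this] at ha
        exact e.no ha
      · obtain ⟨η, hη, hη2, hx⟩ := key (-k) (by omega)
        have ha2 : ∀ u, a u = if u = v then -(2 * k) else 0 := by
          intro u
          have := congrFun h u
          rw [Pi.add_apply, sgl, Pi.zero_apply] at this
          split_ifs at this ⊢ <;> omega
        obtain ⟨w, hw, j, δ, hδ, hj, rfl⟩ := e.jb _ _ z (-1) hx ha (Or.inr rfl) (by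
          rw [ha2, Pi.add_apply, sgl, sgl, if_neg hvz.symm, if_neg hvz.symm, if_pos rfl]
          norm_num)
        simp only [Pi.add_apply, sgl, ha2] at hj
        have hjv : j = v := by
          by_contra hjv
          simp only [if_neg hjv] at hj
          by_cases hjz : j = z
          · simp [hjz] at hj
          · simp [hjz] at hj
        subst hjv
        simp only [if_pos, if_neg hvz] at hj
        have hd : δ = η := by
          rcases hδ with rfl | rfl <;> rcases hη with rfl | rfl <;> first | rfl | (exfalso; omega)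
        apply e.no
        have e0 : (Pi.single j (-η) + Pi.single z 1 + Pi.single z (-1) + Pi.single j δ : ℕ → ℤ) = 0 := by
          rw [hd, Pi.single_neg, Pi.single_neg]
          abel
        rw [e0] at hw
        exact hw
    · rintro u ε huz hε ⟨a, _, ha, ⟨k, rfl⟩, h⟩
      by_cases huv : u = v
      · subst huv
        rcases hε with rfl | rfl
        · exact hf1
        · exact hf2
      · refine e.fa u ε huz hε ?_
        show J₁ (Pi.single u ε + Pi.single z 1)
        by_cases hk : k = 0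
        · subst hk
          have : a = Pi.single u ε + Pi.single z 1 := by simpa using h.symm
          rw [← this]
          exact ha
        · obtain ⟨η, hη, hη2, hx⟩ := key (-k) (by omega)
          have ha2 : ∀ w, a w = (if w = u then ε else 0) + (if w = z then 1 else 0) -
              (if w = v then 2 * k else 0) := by
            intro w
            have := congrFun h w
            rw [Pi.add_apply, Pi.add_apply, sgl, sgl, sgl] at this
            omega
          obtain ⟨w, hw, j, δ, hδ, hj, rfl⟩ := e.jb _ _ u ε hx ha hε (by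
            rw [ha2, Pi.add_apply, sgl, sgl, if_pos rfl, if_neg huv, if_neg huz, if_neg huv]
            rcases hε with rfl | rfl <;> norm_num)
          simp only [Pi.add_apply, sgl, ha2] at hj
          have hjv : j = v := by
            by_contra hjv
            simp only [if_neg hjv] at hj
            have : ((if j = u then ε else 0) + (if j = z then 1 else 0) - 0 -
              (0 + (if j = z then 1 else 0) + if j = u then ε else 0) : ℤ) = 0 := by ring
            rw [this] at hj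
            simp at hj
          subst hjv
          have h5 : ¬ j = u := fun h => huv h.symm
          simp only [if_pos, if_neg hvz, if_neg h5] at hj
          have hd : δ = η := by
            rcases hδ with rfl | rfl <;> rcases hη with rfl | rfl <;> first | rfl | (exfalso; omega)
          have e0 : (Pi.single j (-η) + Pi.single z 1 + Pi.single u ε + Pi.single j δ : ℕ → ℤ) =
              Pi.single u ε + Pi.single z 1 := by
            rw [hd, Pi.single_neg]
            abel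
          rw [e0] at hw
          exact hw
    · rintro u hu _ ⟨a, _, ha, ⟨k, rfl⟩, rfl⟩ l
      rcases Finset.mem_insert.1 hu with rfl | hu
      · refine ⟨a, Pi.single u (2 * (k + l)), ha, ⟨k + l, rfl⟩, ?_⟩
        rw [add_assoc, ← Pi.single_add]
        congr 2
        ring
      · refine ⟨a + Pi.single u (2 * l), Pi.single v (2 * k), e.per u hu a ha l, ⟨k, rfl⟩, ?_⟩
        abel

/-! ### the inequality -/

theorem step {J : (ℕ → ℤ) → Prop} {z : ℕ} {S : Finset ℕ} (hJ : JB J) (hzS : z ∉ S)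
    (hoff : ∀ x, J x → ∀ v, v ∉ S → v ≠ z → x v = 0) (h0 : ¬ J 0)
    (hne : ∃ v ∈ S, ∃ ε : ℤ, (ε = 1 ∨ ε = -1) ∧ Fa J z v ε) {d : ℕ → ℤ} (hd : J d) (hdz : d z = 0 ∨ d z = 1)
    (hZ : ∀ v ∈ S, Fa J z v 1 → Fa J z v (-1) → (d v).natAbs ≤ 1) (hp : phi J z S d ≤ 0) :
    ∃ d', J d' ∧ phi J z S d' ≤ 0 ∧ ((d' z = d z ∧ nm S d' < nm S d) ∨ (d z = 0 ∧ d' z = 1)) := by
  have hSz : ∀ v ∈ S, v ≠ z := fun v hv h => hzS (h ▸ hv)
  have hjS : ∀ j, d j ≠ 0 → j ≠ z → j ∈ S := by
    intro j hj hjz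
    by_contra hc
    exact hj (hoff d hd j hc hjz)
  -- a right unit
  obtain ⟨v, hv, ε, hε, hf, hv2⟩ : ∃ v ∈ S, ∃ ε : ℤ, (ε = 1 ∨ ε = -1) ∧ Fa J z v ε ∧ 0 < ε * d v := by
    obtain ⟨u, hu, η, hη, hs⟩ := hne
    by_cases h1 : 0 < η * d u
    · exact ⟨u, hu, η, hη, hs, h1⟩
    · have huz := hSz u hu
      obtain ⟨w, hw, j, δ, hδ, hj, rfl⟩ := hJ _ _ u (-η) hs hd (by omega) (by
        rw [Pi.add_apply, sgl, sgl, if_pos rfl, if_neg huz]
        rcases hη with rfl | rfl <;> omega)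
      have e1 : (Pi.single u η + Pi.single z 1 + Pi.single u (-η) : ℕ → ℤ) = Pi.single z 1 := by
        rw [Pi.single_neg]; abel
      rw [e1] at hj hw
      by_cases hjz : j = z
      · subst hjz
        rw [sgl, if_pos rfl] at hj
        exfalso
        have h2 : δ = -1 := by
          rcases hδ with rfl | rfl
          · exfalso; omega
          · rfl
        apply h0
        have e2 : (Pi.single j 1 + Pi.single j δ : ℕ → ℤ) = 0 := by
          rw [h2, Pi.single_neg]; abel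
        rw [e2] at hw
        exact hw
      · rw [sgl, if_neg hjz, sub_zero] at hj
        refine ⟨j, hjS j ?_ hjz, δ, hδ, ?_, hj⟩
        · intro h; rw [h] at hj; simp at hj
        · show J (Pi.single j δ + Pi.single z 1)
          rw [add_comm]
          exact hw
  obtain ⟨g1, g2⟩ := wt_good hε hf hv2 (hZ v hv)
  -- a wrong unit
  obtain ⟨w, hw, η, hη, hw2, hwf⟩ : ∃ w ∈ S, ∃ η : ℤ, (η = 1 ∨ η = -1) ∧ 0 < η * d w ∧ Fa J z w (-η) ∧ w ≠ v := by
    have h1 : ∃ w ∈ S, wt J z w (d w) < 0 := by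
      by_contra hc
      push Not at hc
      have h2 : wt J z v (d v) ≤ phi J z S d :=
        Finset.single_le_sum (f := fun u => wt J z u (d u)) (fun u hu => hc u hu) hv
      omega
    obtain ⟨w, hw, h2⟩ := h1
    obtain ⟨η, h3, h4, h5⟩ := wt_bad h2
    refine ⟨w, hw, η, h3, h4, h5, ?_⟩
    rintro rfl
    omega
  obtain ⟨hwf, hwv⟩ := hwf
  have hvz := hSz v hv
  have hwz := hSz w hw
  have hvw : ¬ v = w := fun h => hwv h.symm
  obtain ⟨w', hw', j, δ, hδ, hj, rfl⟩ := hJ _ _ v (-ε) hd hwf (by omega) (by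
    rw [Pi.add_apply, sgl, sgl, if_neg hvw, if_neg hvz]
    rcases hε with rfl | rfl <;> omega)
  have hp1 : phi J z S (d + Pi.single v (-ε)) = phi J z S d - 1 := by
    rw [phi_upd J z hv, ← sub_eq_add_neg, g2]
    ring
  by_cases hjz : j = z
  · subst hjz
    have hz1 : ∀ a b : ℕ, a ≠ b → (Pi.single b (-ε) : ℕ → ℤ) a = 0 := fun a b h => by rw [sgl, if_neg h]
    simp only [Pi.add_apply, sgl, if_neg hvz.symm, if_neg hwz.symm, if_true, zero_add, add_zero] at hj
    have h3 : d j = 0 ∧ δ = 1 := by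
      rcases hdz with h | h <;> rw [h] at hj <;> rcases hδ with rfl | rfl
      · exact ⟨h, rfl⟩
      · exfalso; omega
      · exfalso; omega
      · exfalso; omega
    refine ⟨_, hw', ?_, Or.inr ⟨h3.1, ?_⟩⟩
    · have h4 : phi J j S (d + Pi.single v (-ε) + Pi.single j δ) = phi J j S (d + Pi.single v (-ε)) := by
        unfold phi
        refine Finset.sum_congr rfl fun u hu => ?_
        have e5 : (d + Pi.single v (-ε) + Pi.single j δ : ℕ → ℤ) u = (d + Pi.single v (-ε) : ℕ → ℤ) u := by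
          rw [Pi.add_apply, sgl, if_neg (hSz u hu), add_zero]
        rw [e5]
      rw [h4, hp1]
      omega
    · rw [Pi.add_apply, Pi.add_apply, sgl, sgl, if_neg hvz.symm, if_pos rfl, h3.1, h3.2]
      norm_num
  · -- the second step is a removal
    have hrem : (d + Pi.single v (-ε) : ℕ → ℤ) j ≠ 0 ∧ δ * (d + Pi.single v (-ε) : ℕ → ℤ) j < 0 := by
      by_cases hjw : j = w
      · subst hjw
        have e1 : (d + Pi.single v (-ε) : ℕ → ℤ) j = d j := by
          rw [Pi.add_apply, sgl, if_neg hwv, add_zero]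
        rw [e1] at hj ⊢
        rw [Pi.add_apply, sgl, sgl, if_pos rfl, if_neg hjz] at hj
        constructor
        · intro h; rw [h] at hw2; simp at hw2
        · rcases hη with rfl | rfl <;> rcases hδ with rfl | rfl <;> omega
      · have e1 : (Pi.single w (-η) + Pi.single z 1 : ℕ → ℤ) j = 0 := by
          rw [Pi.add_apply, sgl, sgl, if_neg hjw, if_neg hjz, add_zero]
        rw [e1] at hj
        constructor
        · intro h; rw [h] at hj; simp at hj
        · rcases hδ with rfl | rfl <;> omega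
    have hjS' : j ∈ S := by
      by_cases hjv : j = v
      · rw [hjv]; exact hv
      · refine hjS j ?_ hjz
        have h1 := hrem.1
        rw [Pi.add_apply, sgl, if_neg hjv, add_zero] at h1
        exact h1
    refine ⟨_, hw', ?_, Or.inl ⟨?_, ?_⟩⟩
    · rw [phi_upd J z hjS', hp1]
      have := wt_step J z j ((d + Pi.single v (-ε) : ℕ → ℤ) j) δ hδ
      omega
    · rw [Pi.add_apply, Pi.add_apply, sgl, sgl, if_neg hvz.symm, if_neg (Ne.symm hjz), add_zero, add_zero]
    · have h1 := nm_upd hjS' (d + Pi.single v (-ε)) δ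
      have h2 := nm_upd hv d (-ε)
      have h3 := hrem.2
      generalize (d + Pi.single v (-ε) : ℕ → ℤ) j = c at h1 h3
      rcases hε with rfl | rfl <;> rcases hδ with rfl | rfl <;> omega

/-- the inequality for periodic jump sets -/
theorem ineq_per {J : (ℕ → ℤ) → Prop} {z : ℕ} {S : Finset ℕ} (hJ : JB J) (hzS : z ∉ S)
    (hoff : ∀ x, J x → ∀ v, v ∉ S → v ≠ z → x v = 0) (h0 : ¬ J 0)
    (hne : ∃ v ∈ S, ∃ ε : ℤ, (ε = 1 ∨ ε = -1) ∧ Fa J z v ε)
    (hper : ∀ v ∈ S, Fa J z v 1 → Fa J z v (-1) → ∀ x, J x → ∀ k : ℤ, J (x + Pi.single v (2 * k))) :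
    ∀ l : ℤ, (l = 0 ∨ l = 1) → ∀ (n : ℕ) (d : ℕ → ℤ), J d → d z = l → nm S d = n → 1 ≤ phi J z S d := by
  have hSz : ∀ v ∈ S, v ≠ z := fun v hv h => hzS (h ▸ hv)
  have main : ∀ l : ℤ, (l = 0 ∨ l = 1) → (l = 0 → ∀ d, J d → d z = 1 → 1 ≤ phi J z S d) →
      ∀ (n : ℕ) (d : ℕ → ℤ), J d → d z = l → nm S d = n → 1 ≤ phi J z S d := by
    intro l hl h1 n
    induction n using Nat.strong_induction_on with
    | _ n ih =>
      intro d hd hdl hn
      by_contra hc
      have hp : phi J z S d ≤ 0 := by omega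
      by_cases hZ : ∀ v ∈ S, Fa J z v 1 → Fa J z v (-1) → (d v).natAbs ≤ 1
      · obtain ⟨d', hd', hp', h2 | h2⟩ := step hJ hzS hoff h0 hne hd (by rw [hdl]; exact hl) hZ hp
        · have := ih (nm S d') (by omega) d' hd' (by rw [h2.1, hdl]) rfl
          omega
        · have := h1 (by rw [← hdl]; exact h2.1) d' hd' h2.2
          omega
      · push Not at hZ
        obtain ⟨v, hv, f1, f2, h3⟩ := hZ
        obtain ⟨k, hk⟩ : ∃ k : ℤ, (k = 1 ∨ k = -1) ∧ k * d v < 0 := by
          rcases lt_or_ge (d v) 0 with h | h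
          · exact ⟨1, Or.inl rfl, by omega⟩
          · exact ⟨-1, Or.inr rfl, by omega⟩
        have hd' := hper v hv f1 f2 d hd k
        have hw : phi J z S (d + Pi.single v (2 * k)) = phi J z S d := by
          rw [phi_upd J z hv]
          have : wt J z v (d v + 2 * k) = wt J z v (d v) := by
            unfold wt
            rw [if_pos f1, if_pos f2, if_pos f1, if_pos f2]
            omega
          rw [this]
          ring
        have hnm := nm_upd hv d (2 * k)
        have h4 : nm S (d + Pi.single v (2 * k)) < n := by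
          rcases hk with ⟨rfl | rfl, h5⟩ <;> omega
        have := ih _ h4 _ hd' (by rw [Pi.add_apply, sgl, if_neg (hSz v hv).symm, add_zero, hdl]) rfl
        omega
  intro l hl
  refine main l hl ?_
  intro _ d hd hd1
  exact main 1 (Or.inr rfl) (fun h => by omega) _ d hd hd1 rfl

/-- **the rooted Gallai-Edmonds inequality** -/
theorem rgc {J : (ℕ → ℤ) → Prop} {z : ℕ} {S : Finset ℕ} (hJ : JB J) (hzS : z ∉ S)
    (hoff : ∀ x, J x → ∀ v, v ∉ S → v ≠ z → x v = 0) (h0 : ¬ J 0)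
    (hne : ∃ v ∈ S, ∃ ε : ℤ, (ε = 1 ∨ ε = -1) ∧ Fa J z v ε) {d : ℕ → ℤ} (hd : J d) (hdz : d z = 0 ∨ d z = 1) :
    1 ≤ phi J z S d := by
  classical
  have hSz : ∀ v ∈ S, v ≠ z := fun v hv h => hzS (h ▸ hv)
  obtain ⟨J', e⟩ := extend hJ hoff h0 (S.filter fun v => Fa J z v 1 ∧ Fa J z v (-1)) (by
    intro v hv
    rw [Finset.mem_filter] at hv
    exact ⟨hv.1, hSz v hv.1, hv.2⟩)
  have hfa : ∀ v ∈ S, ∀ ε : ℤ, (ε = 1 ∨ ε = -1) → (Fa J' z v ε ↔ Fa J z v ε) := fun v hv ε hε =>
    ⟨e.fa v ε (hSz v hv) hε, fun h => e.sub _ h⟩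
  have hphi : phi J' z S d = phi J z S d := by
    unfold phi
    refine Finset.sum_congr rfl fun v hv => ?_
    unfold wt
    simp only [hfa v hv 1 (Or.inl rfl), hfa v hv (-1) (Or.inr rfl)]
  rw [← hphi]
  refine ineq_per e.jb hzS e.off e.no ?_ ?_ (d z) hdz _ d (e.sub d hd) rfl rfl
  · obtain ⟨v, hv, ε, hε, h⟩ := hne
    exact ⟨v, hv, ε, hε, (hfa v hv ε hε).2 h⟩
  · intro v hv f1 f2
    refine e.per v ?_
    rw [Finset.mem_filter]
    exact ⟨hv, (hfa v hv 1 (Or.inl rfl)).1 f1, (hfa v hv (-1) (Or.inr rfl)).1 f2⟩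

end Pool.Agent.PF4.RG

end
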