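import Pool.Agent.PFN.M06
import Pool.Agent.PFN.M07
import Pool.Agent.PFN.M08
import Pool.Agent.PFN.M11

section -- file PF4/Pc

/-!
# Pieces and clusters as data

A piece is `(z, E, X)`: its vectors are the members of `X` and (if `z`) the degree vectors of the square-free 2-matchings
inside `E`. `pmem` is a polynomial time membership test (for pieces where these have at most four edges). Clusters:
`(true, x, y, L)` is `K2(x,y;L)`, `(false, _, _, L)` is the complete graph on the four vertices of `L`.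
-/

set_option autoImplicit false

namespace Pool.Agent.PF4

open Finset Pool.Agent.TFC Pool.Agent.Lib.helper60

/-- piece -/
abbrev Pc : Type := Bool × List Ed × List (List ℕ)

/-- the list `k` (vertices with multiplicity) as a vector -/
def kvec (k : List ℕ) : ℕ → ℤ := fun v => (k.count v : ℤ)

/-- the vectors of the piece -/
def pcS (p : Pc) : Set (ℕ → ℤ) :=
  {x | (∃ k ∈ p.2.2, x = kvec k) ∨ (p.1 = true ∧ x ∈ JS (fs p.2.1) none4)}

/-- the same multiset -/
def eqK (k l : List ℕ) : Bool := (k ++ l).all fun v => decide (k.count v = l.count v)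

/-- the ends of the edges, with multiplicity -/
def ends2 (S : List Ed) : List ℕ := S.flatMap fun e => [e.1, e.2]

/-- no edge twice -/
def wfB (S : List Ed) : Bool := S.all fun e => decide ((S.filter fun f => eqE e f).length ≤ 1)

/-- no loop -/
def nlB (S : List Ed) : Bool := S.all fun e => !decide (e.1 = e.2)

/-- all degrees at most 2 -/
def dgB (S : List Ed) : Bool := (ends2 S).all fun v => decide (degL S v ≤ 2)

/-- all pairs -/
def prd {α β : Type} (l : List α) (m : List β) : List (α × β) := l.flatMap fun a => m.map fun b => (a, b)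

/-- no square -/
def sfB (S : List Ed) : Bool :=
  (prd (ends2 S) (prd (ends2 S) (prd (ends2 S) (ends2 S)))).all fun q =>
    decide (q.1 = q.2.2.1) || (decide (q.2.1 = q.2.2.2) || !sqIn S q)

/-- square-free 2-matching -/
def okS (S : List Ed) : Bool := wfB S && (nlB S && (dgB S && sfB S))

/-- all lists of at most `k` members of `E` -/
def subs (E : List Ed) : ℕ → List (List Ed)
  | 0 => [[]]
  | k + 1 => subs E k ++ (subs E k).flatMap fun S => E.map fun e => e :: S

theorem eqK_iff (k l : List ℕ) : eqK k l = true ↔ kvec k = kvec l := by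
  simp only [eqK, List.all_eq_true, decide_eq_true_eq, List.mem_append]
  constructor
  · intro h
    funext v
    unfold kvec
    by_cases hv : v ∈ k ∨ v ∈ l
    · rw [h v hv]
    · push Not at hv
      rw [List.count_eq_zero_of_not_mem hv.1, List.count_eq_zero_of_not_mem hv.2]
  · intro h v _
    have := congrFun h v
    unfold kvec at this
    exact_mod_cast this

theorem mem_prd {α β : Type} {l : List α} {m : List β} {p : α × β} : p ∈ prd l m ↔ p.1 ∈ l ∧ p.2 ∈ m := by
  obtain ⟨a, b⟩ := p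
  simp only [prd, List.mem_flatMap, List.mem_map, Prod.mk.injEq]
  constructor
  · rintro ⟨x, hx, y, hy, rfl, rfl⟩
    exact ⟨hx, hy⟩
  · rintro ⟨h1, h2⟩
    exact ⟨a, h1, b, h2, rfl, rfl⟩

theorem wfB_iff (S : List Ed) : wfB S = true ↔ WF S := by
  unfold wfB WF
  rw [List.all_eq_true, List.nodup_iff_count_le_one]
  constructor
  · intro h x
    by_cases hx : x ∈ S.map fe
    · obtain ⟨e, he, rfl⟩ := List.mem_map.1 hx
      have h1 := h e he
      rw [decide_eq_true_eq] at h1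
      rw [List.count_eq_length_filter, List.filter_map, List.length_map]
      refine le_trans (le_of_eq ?_) h1
      congr 1
      refine List.filter_congr ?_
      intro f _
      simp only [Function.comp]
      rw [Bool.eq_iff_iff, beq_iff_eq, eqE_iff]
      exact eq_comm
    · rw [List.count_eq_zero_of_not_mem hx]
      exact Nat.zero_le _
  · intro h e _
    rw [decide_eq_true_eq]
    have h1 := h (fe e)
    rw [List.count_eq_length_filter, List.filter_map, List.length_map] at h1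
    refine le_trans (le_of_eq ?_) h1
    congr 1
    refine List.filter_congr ?_
    intro f _
    simp only [Function.comp]
    rw [Bool.eq_iff_iff, beq_iff_eq, eqE_iff]
    exact eq_comm

theorem nlB_iff (S : List Ed) : nlB S = true ↔ NoLoop (fs S) := by
  unfold nlB NoLoop
  rw [List.all_eq_true]
  constructor
  · intro h x hx
    obtain ⟨e, he, rfl⟩ := mem_fs.1 hx
    have := h e he
    simp only [Bool.not_eq_true', decide_eq_false_iff_not] at this
    simpa [fe] using this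
  · intro h e he
    have := h _ (fe_mem_fs he)
    simp only [Bool.not_eq_true', decide_eq_false_iff_not]
    simpa [fe] using this

theorem mem_ends2 {S : List Ed} {v : ℕ} : v ∈ ends2 S ↔ ∃ x ∈ fs S, v ∈ x := by
  simp only [ends2, List.mem_flatMap, List.mem_cons, List.not_mem_nil, or_false]
  constructor
  · rintro ⟨e, he, h | h⟩
    · exact ⟨fe e, fe_mem_fs he, by rw [h]; exact Sym2.mem_mk_left _ _⟩
    · exact ⟨fe e, fe_mem_fs he, by rw [h]; exact Sym2.mem_mk_right _ _⟩
  · rintro ⟨x, hx, hv⟩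
    obtain ⟨e, he, rfl⟩ := mem_fs.1 hx
    exact ⟨e, he, by simpa [fe] using hv⟩

theorem count_ends2 {S : List Ed} (hn : NoLoop (fs S)) (v : ℕ) : (ends2 S).count v = degL S v := by
  unfold ends2 degL
  have h0 : ∀ e ∈ S, e.1 ≠ e.2 := by
    intro e he h
    refine hn _ (fe_mem_fs he) ?_
    rw [fe, h]
    exact Sym2.mk_isDiag_iff.2 rfl
  clear hn
  induction S with
  | nil => rfl
  | cons e S ih =>
    have h1 := ih fun f hf => h0 f (List.mem_cons_of_mem _ hf)
    have h2 := h0 e List.mem_cons_self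
    rw [List.flatMap_cons, List.count_append, h1, List.filter_cons]
    by_cases ha : e.1 = v
    · have hb : e.2 ≠ v := fun h => h2 (ha.trans h.symm)
      simp [inc, ha, hb]
      omega
    · by_cases hb : e.2 = v
      · simp [inc, ha, hb]
        omega
      · simp [inc, ha, hb]

theorem kvec_ends2 {S : List Ed} (hw : WF S) (hn : NoLoop (fs S)) : kvec (ends2 S) = dv (fs S) := by
  funext v
  rw [kvec, count_ends2 hn, degL_eq hw, dv]

theorem dgB_iff {S : List Ed} (hw : WF S) : dgB S = true ↔ ∀ v, dg (fs S) v ≤ 2 := by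
  unfold dgB
  simp only [List.all_eq_true, decide_eq_true_eq]
  constructor
  · intro h v
    by_cases hv : v ∈ ends2 S
    · rw [← degL_eq hw]
      exact h v hv
    · have : dg (fs S) v = 0 := by
        rw [dg, Finset.card_eq_zero, Finset.filter_eq_empty_iff]
        intro x hx h'
        exact hv (mem_ends2.2 ⟨x, hx, h'⟩)
      omega
  · intro h v _
    rw [degL_eq hw]
    exact h v

theorem sfB_iff {S : List Ed} : sfB S = true ↔ Good none4 (fs S) := by
  unfold sfB Good none4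
  rw [List.all_eq_true]
  constructor
  · intro h a b c d hs
    have hm : (a, b, c, d) ∈ prd (ends2 S) (prd (ends2 S) (prd (ends2 S) (ends2 S))) := by
      refine mem_prd.2 ⟨mem_ends2.2 ⟨_, hs.ab, Sym2.mem_mk_left _ _⟩, mem_prd.2
        ⟨mem_ends2.2 ⟨_, hs.ab, Sym2.mem_mk_right _ _⟩, mem_prd.2
        ⟨mem_ends2.2 ⟨_, hs.bc, Sym2.mem_mk_right _ _⟩, mem_ends2.2 ⟨_, hs.cd, Sym2.mem_mk_right _ _⟩⟩⟩⟩
    have h1 := h _ hm
    simp only [Bool.or_eq_true, decide_eq_true_eq, Bool.not_eq_true', hs.ac, hs.bd, false_or] at h1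
    have h2 : sqIn S (a, b, c, d) = true := by
      simp only [sqIn, Bool.and_eq_true, hasE_iff, fe]
      exact ⟨hs.ab, hs.bc, hs.cd, hs.da⟩
    rw [h1] at h2
    cases h2
  · rintro h ⟨a, b, c, d⟩ _
    simp only [Bool.or_eq_true, decide_eq_true_eq, Bool.not_eq_true']
    by_cases h1 : a = c
    · exact Or.inl h1
    · by_cases h2 : b = d
      · exact Or.inr (Or.inl h2)
      · refine Or.inr (Or.inr ?_)
        rw [← Bool.not_eq_true]
        intro h3
        simp only [sqIn, Bool.and_eq_true, hasE_iff, fe] at h3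
        exact h a b c d ⟨h1, h2, h3.1, h3.2.1, h3.2.2.1, h3.2.2.2⟩

theorem okS_iff (S : List Ed) : okS S = true ↔ WF S ∧ M2 (fs S) ∧ Good none4 (fs S) := by
  unfold okS
  rw [Bool.and_eq_true, Bool.and_eq_true, Bool.and_eq_true, wfB_iff, nlB_iff, sfB_iff]
  constructor
  · rintro ⟨h1, h2, h3, h4⟩
    exact ⟨h1, ⟨h2, (dgB_iff h1).1 h3⟩, h4⟩
  · rintro ⟨h1, h2, h4⟩
    exact ⟨h1, h2.nl, (dgB_iff h1).2 h2.le, h4⟩

theorem mem_subs {E : List Ed} {k : ℕ} {S : List Ed} : S ∈ subs E k ↔ S.length ≤ k ∧ ∀ e ∈ S, e ∈ E := by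
  induction k generalizing S with
  | zero =>
    simp only [subs, List.mem_singleton]
    constructor
    · rintro rfl; simp
    · rintro ⟨h, _⟩; exact List.length_eq_zero_iff.1 (Nat.le_zero.1 h)
  | succ k ih =>
    simp only [subs, List.mem_append, ih, List.mem_flatMap, List.mem_map]
    constructor
    · rintro (⟨h1, h2⟩ | ⟨T, ⟨h1, h2⟩, e, he, rfl⟩)
      · exact ⟨by omega, h2⟩
      · refine ⟨by simpa using h1, ?_⟩
        intro f hf
        rcases List.mem_cons.1 hf with rfl | hf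
        · exact he
        · exact h2 f hf
    · rintro ⟨h1, h2⟩
      cases S with
      | nil => exact Or.inl ⟨Nat.zero_le _, h2⟩
      | cons e S =>
        right
        exact ⟨S, ⟨by simpa using h1, fun f hf => h2 f (List.mem_cons_of_mem _ hf)⟩, e, h2 e List.mem_cons_self, rfl⟩

/-- representatives of a subset -/
theorem exists_rep {E : List Ed} (z : Finset (Sym2 ℕ)) (hz : z ⊆ fs E) :
    ∃ S : List Ed, (∀ e ∈ S, e ∈ E) ∧ WF S ∧ fs S = z ∧ S.length = #z := by
  induction z using Finset.induction_on with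
  | empty => exact ⟨[], by simp, WF.nil, rfl, rfl⟩
  | insert x z hx ih =>
    obtain ⟨S, h1, h2, h3, h4⟩ := ih fun y hy => hz (Finset.mem_insert_of_mem hy)
    obtain ⟨e, he, rfl⟩ := mem_fs.1 (hz (Finset.mem_insert_self _ _))
    refine ⟨e :: S, ?_, ?_, ?_, ?_⟩
    · intro f hf
      rcases List.mem_cons.1 hf with rfl | hf
      · exact he
      · exact h1 f hf
    · show ((e :: S).map fe).Nodup
      rw [List.map_cons, List.nodup_cons]
      refine ⟨fun h => hx ?_, h2⟩
      rw [← h3, fs, List.mem_toFinset]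
      exact h
    · rw [fs_cons, h3]
    · rw [List.length_cons, h4, Finset.card_insert_of_notMem hx]

/-! ### clusters -/

/-- cluster: `(true, x, y, L)` is `K2(x,y;L)`, `(false, _, _, L)` is the complete graph on `L` -/
abbrev Cl : Type := Bool × ℕ × ℕ × List ℕ

/-- the pairs `i < j` in the list -/
def prs (L : List ℕ) : List Ed := (prd L L).filter fun e => decide (e.1 < e.2)

/-- the edges of the cluster -/
def clE (c : Cl) : List Ed :=
  bif c.1 then (c.2.2.2.map fun l => (c.2.1, l)) ++ (c.2.2.2.map fun l => (c.2.2.1, l)) else prs c.2.2.2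

/-- non-degenerate cluster -/
structure ClOK (c : Cl) : Prop where
  nd : c.2.2.2.Nodup
  k2 : c.1 = true → c.2.1 ≠ c.2.2.1 ∧ c.2.1 ∉ c.2.2.2 ∧ c.2.2.1 ∉ c.2.2.2 ∧ 2 ≤ c.2.2.2.length
  k4 : c.1 = false → c.2.2.2.length = 4

/-- the cluster as in TFC -/
def cluF (c : Cl) : Clu ℕ := bif c.1 then .k2 c.2.1 c.2.2.1 c.2.2.2.toFinset else .k4 c.2.2.2.toFinset

theorem fs_clE (c : Cl) : fs (clE c) = (cluF c).edges := by
  obtain ⟨b, x, y, L⟩ := c
  cases b with
  | true =>
    ext e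
    simp only [clE, cluF, cond_true, Clu.edges, mem_fs, List.mem_append, List.mem_map, Finset.mem_union,
      Finset.mem_image, List.mem_toFinset]
    constructor
    · rintro ⟨f, ⟨l, hl, rfl⟩ | ⟨l, hl, rfl⟩, rfl⟩
      · exact Or.inl ⟨l, hl, rfl⟩
      · exact Or.inr ⟨l, hl, rfl⟩
    · rintro (⟨l, hl, rfl⟩ | ⟨l, hl, rfl⟩)
      · exact ⟨_, Or.inl ⟨l, hl, rfl⟩, rfl⟩
      · exact ⟨_, Or.inr ⟨l, hl, rfl⟩, rfl⟩
  | false =>
    ext e
    induction e using Sym2.ind with
    | _ u v =>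
      simp only [clE, cluF, cond_false, Clu.edges, mem_fs, prs, List.mem_filter, mem_prd, decide_eq_true_eq,
        Finset.mem_filter, Finset.mk_mem_sym2_iff, List.mem_toFinset, Sym2.mk_isDiag_iff, fe, Sym2.eq_iff]
      constructor
      · rintro ⟨⟨a, b⟩, ⟨⟨h1, h2⟩, h3⟩, ⟨h4, h5⟩ | ⟨h4, h5⟩⟩
        · simp only at h1 h2 h3 h4 h5
          subst h4 h5
          exact ⟨⟨h1, h2⟩, by omega⟩
        · simp only at h1 h2 h3 h4 h5
          subst h4 h5
          exact ⟨⟨h2, h1⟩, by omega⟩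
      · rintro ⟨⟨h1, h2⟩, h3⟩
        rcases lt_or_gt_of_ne h3 with h | h
        · exact ⟨(u, v), ⟨⟨h1, h2⟩, h⟩, Or.inl ⟨rfl, rfl⟩⟩
        · exact ⟨(v, u), ⟨⟨h2, h1⟩, h⟩, Or.inr ⟨rfl, rfl⟩⟩

theorem wf_clE {c : Cl} (h : ClOK c) : WF (clE c) := by
  obtain ⟨b, x, y, L⟩ := c
  have hn := h.nd
  cases b with
  | true =>
    obtain ⟨h1, h2, h3, h4⟩ := h.k2 rfl
    simp only at h1 h2 h3 h4 hn
    simp only [clE, cond_true, WF, List.map_append, List.map_map]
    rw [List.nodup_append']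
    refine ⟨hn.map_on ?_, hn.map_on ?_, ?_⟩
    · intro a ha b hb hab
      simp only [Function.comp, fe, Sym2.eq_iff] at hab
      rcases hab with ⟨_, h⟩ | ⟨h, h'⟩
      · exact h
      · rw [h', h]
    · intro a ha b hb hab
      simp only [Function.comp, fe, Sym2.eq_iff] at hab
      rcases hab with ⟨_, h⟩ | ⟨h, h'⟩
      · exact h
      · rw [h', h]
    · intro e he he'
      obtain ⟨a, ha, rfl⟩ := List.mem_map.1 he
      obtain ⟨b, hb, hab⟩ := List.mem_map.1 he'
      simp only [Function.comp, fe, Sym2.eq_iff] at hab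
      rcases hab with ⟨h, _⟩ | ⟨h, h'⟩
      · exact h1 h.symm
      · exact h3 (by rw [h]; exact ha)
  | false =>
    simp only at hn
    simp only [clE, cond_false, WF]
    have hp : (prd L L).Nodup := by
      have : prd L L = L.product L := rfl
      rw [this]
      exact hn.product hn
    refine (hp.filter _).map_on ?_
    intro e he f hf hef
    rw [List.mem_filter, decide_eq_true_eq] at he hf
    obtain ⟨a, b⟩ := e
    obtain ⟨a', b'⟩ := f
    simp only [fe, Sym2.eq_iff] at hef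
    have h1 := he.2
    have h2 := hf.2
    simp only at h1 h2
    rcases hef with ⟨rfl, rfl⟩ | ⟨rfl, rfl⟩
    · rfl
    · omega

/-- the exact piece of a cluster -/
def exP (c : Cl) : Pc := (true, clE c, [])

/-- the additional vectors of the relaxed piece; choice `(w, c)` for `K2`, `(0, _)` or `(1, _)` for `K4` -/
def digs (c : Cl) (ch : ℕ × ℕ) : List (List ℕ) :=
  bif c.1 then (c.2.2.2.filter fun l => !decide (l = ch.2)).map fun l => [ch.1, ch.1, l, l]
  else bif decide (ch.1 = 0) then (c.2.2.2.map fun i => [i, i]) ++ ((prs c.2.2.2).map fun e => [e.1, e.1, e.2, e.2])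
  else [c.2.2.2.flatMap fun i => [i, i]]

/-- the relaxed piece of a cluster -/
def rxP (c : Cl) (ch : ℕ × ℕ) : Pc := (true, clE c, digs c ch)

/-- the units of the relaxed piece -/
def rxU (c : Cl) (ch : ℕ × ℕ) : List (List ℕ × List ℕ) :=
  bif c.1 then ((c.2.2.2.filter fun l => !decide (l = ch.2)).map fun l => ([l], [c.2.1, c.2.2.1])) ++
    [([ch.1], c.2.2.2), ([if ch.1 = c.2.1 then c.2.2.1 else c.2.1], [ch.2])]
  else bif decide (ch.1 = 0) then [(c.2.2.2, c.2.2.2), (c.2.2.2, c.2.2.2), (c.2.2.2, c.2.2.2)]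
  else (prs c.2.2.2).map fun e => ([e.1], [e.2])

/-- a legal choice -/
def ChOK (c : Cl) (ch : ℕ × ℕ) : Prop := c.1 = true → (ch.1 = c.2.1 ∨ ch.1 = c.2.2.1) ∧ ch.2 ∈ c.2.2.2

/-! ### polynomial time -/

section pt

variable {ι : Type} [DEnc ι]

theorem pt_count {k : ι → List ℕ} {v : ι → ℕ} (hk : PT k) (hv : PT v) : PT (fun x => (k x).count (v x)) := by
  have h := PT.length (PT.filter hk (p := fun y : ι × ℕ => decide (y.2 = v y.1)) (PT.neq PT.snd (hv.comp PT.fst)))
  refine h.congr fun x => ?_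
  rw [List.count_eq_length_filter]
  congr 1

theorem pt_eqK {k l : ι → List ℕ} (hk : PT k) (hl : PT l) : PT (fun x => eqK (k x) (l x)) := by
  unfold eqK
  exact PT.all (PT.append hk hl) (p := fun y : ι × ℕ => decide ((k y.1).count y.2 = (l y.1).count y.2))
    (PT.neq (pt_count (hk.comp PT.fst) PT.snd) (pt_count (hl.comp PT.fst) PT.snd))

theorem pt_ends2 {S : ι → List Ed} (hS : PT S) : PT (fun x => ends2 (S x)) :=
  PT.flatMap hS (g := fun y : ι × Ed => [y.2.1, y.2.2]) (PT.cons PT.snd.p1 (PT.cons PT.snd.p2 (PT.const [])))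

theorem pt_prd {α β : Type} [DEnc α] [DEnc β] {l : ι → List α} {m : ι → List β} (hl : PT l) (hm : PT m) :
    PT (fun x => prd (l x) (m x)) :=
  PT.flatMap hl (g := fun y : ι × α => (m y.1).map fun b => (y.2, b))
    (PT.map (hm.comp PT.fst) (g := fun z : (ι × α) × β => (z.1.2, z.2)) (PT.pair PT.fst.p2 PT.snd))

theorem pt_okS {S : ι → List Ed} (hS : PT S) : PT (fun x => okS (S x)) := by
  have he := pt_ends2 hS
  unfold okS
  refine PT.band ?_ (PT.band ?_ (PT.band ?_ ?_))
  · exact PT.all hS (p := fun y : ι × Ed => decide (((S y.1).filter fun f => eqE y.2 f).length ≤ 1))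
      (PT.nle (PT.length (PT.filter (hS.comp PT.fst) (p := fun z : (ι × Ed) × Ed => eqE z.1.2 z.2)
        (pt_eqE PT.fst.p2 PT.snd))) (PT.const 1))
  · exact PT.all hS (p := fun y : ι × Ed => !decide (y.2.1 = y.2.2)) (PT.bnot (PT.neq PT.snd.p1 PT.snd.p2))
  · exact PT.all he (p := fun y : ι × ℕ => decide (degL (S y.1) y.2 ≤ 2))
      (PT.nle (pt_degL (hS.comp PT.fst) PT.snd) (PT.const 2))
  · exact PT.all (pt_prd he (pt_prd he (pt_prd he he)))
      (p := fun y : ι × Sq4 => decide (y.2.1 = y.2.2.2.1) || (decide (y.2.2.1 = y.2.2.2.2) || !sqIn (S y.1) y.2))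
      (PT.bor (PT.neq PT.snd.p1 PT.snd.p2.p2.p1) (PT.bor (PT.neq PT.snd.p2.p1 PT.snd.p2.p2.p2)
        (PT.bnot (pt_sqIn (hS.comp PT.fst) PT.snd))))

theorem pt_subs {E : ι → List Ed} (hE : PT E) (k : ℕ) : PT (fun x => subs (E x) k) := by
  induction k with
  | zero => exact PT.const [[]]
  | succ k ih =>
    exact PT.append ih (PT.flatMap ih (g := fun y : ι × List Ed => (E y.1).map fun e => e :: y.2)
      (PT.map (hE.comp PT.fst) (g := fun z : (ι × List Ed) × Ed => z.2 :: z.1.2) (PT.cons PT.snd PT.fst.p2)))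

theorem pt_prs {L : ι → List ℕ} (hL : PT L) : PT (fun x => prs (L x)) :=
  PT.filter (pt_prd hL hL) (p := fun y : ι × Ed => decide (y.2.1 < y.2.2)) (PT.nlt PT.snd.p1 PT.snd.p2)

end pt

end Pool.Agent.PF4

end

section -- file P34/R11

/-!
Lemmas 5.3.1 and 5.3.2: the two relaxations of a cluster `K_{1,1,m}` as sums of units.
-/

set_option autoImplicit false
set_option linter.unusedSectionVars false

namespace Pool.Agent.P34

open Finset Pool.Agent.TFC
open scoped Pointwise

variable {V : Type*} [DecidableEq V]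

/-! ### vectors of stars -/

/-- indicator vector -/
def xind (S : Finset V) : V → ℤ := ∑ l ∈ S, ev l

lemma xind_apply (S : Finset V) (v : V) : xind S v = if v ∈ S then 1 else 0 := by
  simp only [xind, Finset.sum_apply, ev_apply]
  rw [Finset.sum_ite_eq]

/-- the star at `w` with leaves `A` -/
def xst (w : V) (A : Finset V) : Finset (Sym2 V) := A.image (fun l => s(w, l))

lemma mem_xst {w x y : V} {A : Finset V} :
    s(x, y) ∈ xst w A ↔ (x = w ∧ y ∈ A) ∨ (y = w ∧ x ∈ A) := by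
  simp only [xst, mem_image, Sym2.eq_iff]
  constructor
  · rintro ⟨a, ha, (⟨rfl, rfl⟩ | ⟨rfl, rfl⟩)⟩
    · exact Or.inl ⟨rfl, ha⟩
    · exact Or.inr ⟨rfl, ha⟩
  · rintro (⟨rfl, h⟩ | ⟨rfl, h⟩)
    · exact ⟨y, h, Or.inl ⟨rfl, rfl⟩⟩
    · exact ⟨x, h, Or.inr ⟨rfl, rfl⟩⟩

lemma dv_xst {w : V} {A : Finset V} (hw : w ∉ A) :
    dv (xst w A) = xind A + (#A : ℤ) • ev w := by
  induction A using Finset.induction_on with
  | empty => funext v; simp [xst, xind, dv, dg]
  | insert a A ha ih =>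
    rw [mem_insert, not_or] at hw
    have h1 : xst w (insert a A) = insert s(w, a) (xst w A) := by
      simp [xst, image_insert]
    rw [h1, dv_insert hw.1, ih hw.2, card_insert_of_notMem ha]
    · rw [xind, xind, Finset.sum_insert ha]
      push_cast
      rw [add_smul, one_smul]
      abel
    · rw [mem_xst]
      rintro (⟨-, h⟩ | ⟨h, -⟩)
      · exact ha h
      · exact hw.1 h.symm

lemma dv_xunion {s t : Finset (Sym2 V)} (h : Disjoint s t) :
    dv (s ∪ t) = dv s + dv t := by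
  funext v
  simp only [dv, dg, Pi.add_apply]
  rw [filter_union, card_union_of_disjoint (disjoint_filter_filter h)]
  push_cast
  rfl

/-- the degree vector of the star at `w` with leaves `A` and the star at `w'` with leaves `B` -/
def xK (w w' : V) (A B : Finset V) : V → ℤ :=
  xind A + xind B + (#A : ℤ) • ev w + (#B : ℤ) • ev w'

lemma dv_xK {w w' : V} {L A B : Finset V} (h1 : w ≠ w') (h2 : w ∉ L) (h3 : w' ∉ L)
    (hA : A ⊆ L) (hB : B ⊆ L) : dv (xst w A ∪ xst w' B) = xK w w' A B := by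
  have hd : Disjoint (xst w A) (xst w' B) := by
    rw [Finset.disjoint_left]
    intro e
    induction e using Sym2.ind with
    | _ x y =>
      rw [mem_xst, mem_xst]
      rintro (⟨rfl, h⟩ | ⟨rfl, h⟩) (⟨h4, h5⟩ | ⟨h4, h5⟩)
      · exact h1 h4
      · exact h3 (h4 ▸ hA h)
      · exact h3 (h4 ▸ hA h)
      · exact h1 h4
  rw [dv_xunion hd, dv_xst (fun h => h2 (hA h)), dv_xst (fun h => h3 (hB h)), xK]
  abel

lemma xK_w {w w' : V} {L A B : Finset V} (h1 : w ≠ w') (h2 : w ∉ L)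
    (hA : A ⊆ L) (hB : B ⊆ L) : xK w w' A B w = #A := by
  have h4 : w ∉ A := fun h => h2 (hA h)
  have h5 : w ∉ B := fun h => h2 (hB h)
  simp [xK, xind_apply, h4, h5, ev_apply, h1]

lemma xK_w' {w w' : V} {L A B : Finset V} (h1 : w ≠ w') (h2 : w' ∉ L)
    (hA : A ⊆ L) (hB : B ⊆ L) : xK w w' A B w' = #B := by
  have h4 : w' ∉ A := fun h => h2 (hA h)
  have h5 : w' ∉ B := fun h => h2 (hB h)
  simp [xK, xind_apply, h4, h5, ev_apply, h1.symm]

lemma xK_other {w w' v : V} {A B : Finset V} (h1 : v ≠ w) (h2 : v ≠ w') :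
    xK w w' A B v ≤ 2 := by
  simp only [xK, Pi.add_apply, xind_apply, Pi.smul_apply, ev_apply, h1, h2, if_false, smul_zero,
    add_zero]
  split_ifs <;> norm_num

lemma xK_eraseA {w w' t : V} {A B : Finset V} (ht : t ∈ A) :
    xK w w' A B = xK w w' (A.erase t) B + (ev w + ev t) := by
  have h1 : xind A = xind (A.erase t) + ev t := by
    rw [xind, xind, Finset.sum_erase_add _ _ ht]
  have h2 : ((#A : ℕ) : ℤ) = (#(A.erase t) : ℤ) + 1 := by
    rw [← card_erase_add_one ht]; push_cast; rfl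
  rw [xK, xK, h1, h2, add_smul, one_smul]
  abel

lemma xK_eraseB {w w' t : V} {A B : Finset V} (ht : t ∈ B) :
    xK w w' A B = xK w w' A (B.erase t) + (ev w' + ev t) := by
  have h1 : xind B = xind (B.erase t) + ev t := by
    rw [xind, xind, Finset.sum_erase_add _ _ ht]
  have h2 : ((#B : ℕ) : ℤ) = (#(B.erase t) : ℤ) + 1 := by
    rw [← card_erase_add_one ht]; push_cast; rfl
  rw [xK, xK, h1, h2, add_smul, one_smul]
  abel

lemma xK_insA {w w' t : V} {A B : Finset V} (ht : t ∉ A) :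
    xK w w' A B + (ev w + ev t) = xK w w' (insert t A) B := by
  rw [xK_eraseA (mem_insert_self t A), erase_insert ht]

lemma xK_insB {w w' t : V} {A B : Finset V} (ht : t ∉ B) :
    xK w w' A B + (ev w' + ev t) = xK w w' A (insert t B) := by
  rw [xK_eraseB (mem_insert_self t B), erase_insert ht]

lemma xK_nil (w w' : V) : xK w w' ∅ ∅ = 0 := by
  simp [xK, xind]

lemma xK_one {w w' t : V} : xK w w' {t} ∅ + (ev w + ev t) = (2 : ℤ) • ev w + (2 : ℤ) • ev t := by
  rw [xK, xind, xind, sum_singleton, sum_empty, card_singleton, card_empty]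
  push_cast
  module

/-! ### the edges and the short cycles of `K_{1,1,m}` -/

lemma memV_k2 {u v : V} {L : Finset V} {a b : V} : s(a, b) ∈ (Clu.k2 u v L).edges ↔
    ((a = u ∨ a = v) ∧ b ∈ L) ∨ ((b = u ∨ b = v) ∧ a ∈ L) := by
  simp only [Clu.edges, mem_union, mem_image, Sym2.eq_iff]
  constructor
  · rintro (⟨l, hl, (⟨rfl, rfl⟩ | ⟨rfl, rfl⟩)⟩ | ⟨l, hl, (⟨rfl, rfl⟩ | ⟨rfl, rfl⟩)⟩)
    · exact Or.inl ⟨Or.inl rfl, hl⟩
    · exact Or.inr ⟨Or.inl rfl, hl⟩
    · exact Or.inl ⟨Or.inr rfl, hl⟩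
    · exact Or.inr ⟨Or.inr rfl, hl⟩
  · rintro (⟨rfl | rfl, h⟩ | ⟨rfl | rfl, h⟩)
    · exact Or.inl ⟨b, h, Or.inl ⟨rfl, rfl⟩⟩
    · exact Or.inr ⟨b, h, Or.inl ⟨rfl, rfl⟩⟩
    · exact Or.inl ⟨a, h, Or.inr ⟨rfl, rfl⟩⟩
    · exact Or.inr ⟨a, h, Or.inr ⟨rfl, rfl⟩⟩

lemma memV_k11 {u v : V} {L : Finset V} {a b : V} : s(a, b) ∈ (Clu3.k11 u v L).edges ↔
    ((a = u ∧ b = v) ∨ (a = v ∧ b = u)) ∨ ((a = u ∨ a = v) ∧ b ∈ L) ∨ ((b = u ∨ b = v) ∧ a ∈ L) := by
  rw [Clu3.edges, mem_insert, memV_k2, Sym2.eq_iff]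

/-- the short cycles inside `K_{1,1,m}` -/
lemma k11_gd {w w' : V} {L : Finset V} (h1 : w ≠ w') (h2 : w ∉ L) (h3 : w' ∉ L) {z : Finset (Sym2 V)}
    (hz : z ⊆ (Clu3.k11 w w' L).edges)
    (hs : ∀ l ∈ L, ∀ l' ∈ L, l ≠ l' → s(w, l) ∈ z → s(w', l) ∈ z → s(w, l') ∈ z → s(w', l') ∈ z → False)
    (ht : ∀ l ∈ L, s(w, w') ∈ z → s(w, l) ∈ z → s(w', l) ∈ z → False) : Gd noZ z := by
  -- an edge has a centre and a leaf, or two centres
  have hm : ∀ {a b : V}, s(a, b) ∈ z → ((a = w ∧ b = w') ∨ (a = w' ∧ b = w)) ∨ ((a = w ∨ a = w') ∧ b ∈ L) ∨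
      ((b = w ∨ b = w') ∧ a ∈ L) := fun h => memV_k11.1 (hz h)
  have cen : ∀ {a}, (a = w ∨ a = w') → a ∉ L := by
    rintro a (rfl | rfl)
    · exact h2
    · exact h3
  have cl : ∀ {a b : V}, s(a, b) ∈ z → ((a = w ∨ a = w') ∨ a ∈ L) ∧ (a ∈ L → (b = w ∨ b = w')) := by
    intro a b h
    rcases hm h with (⟨h4, h5⟩ | ⟨h4, h5⟩) | (⟨h4, h5⟩ | ⟨h4, h5⟩)
    · exact ⟨Or.inl (Or.inl h4), fun h => absurd h (cen (Or.inl h4))⟩
    · exact ⟨Or.inl (Or.inr h4), fun h => absurd h (cen (Or.inr h4))⟩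
    · exact ⟨Or.inl h4, fun h => absurd h (cen h4)⟩
    · exact ⟨Or.inr h5, fun _ => h4⟩
  -- two centres and a leaf
  have tr : ∀ {a b c : V}, (a = w ∨ a = w') → (b = w ∨ b = w') → a ≠ b → c ∈ L → s(a, b) ∈ z → s(a, c) ∈ z →
      s(b, c) ∈ z → False := by
    rintro a b c (rfl | rfl) (rfl | rfl) hab hc e1 e2 e3
    · exact hab rfl
    · exact ht c hc e1 e2 e3
    · exact ht c hc (msw e1) e3 e2
    · exact hab rfl
  have qu : ∀ {a b c d : V}, (a = w ∨ a = w') → (b = w ∨ b = w') → a ≠ b → c ∈ L → d ∈ L → c ≠ d →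
      s(a, c) ∈ z → s(b, c) ∈ z → s(a, d) ∈ z → s(b, d) ∈ z → False := by
    rintro a b c d (rfl | rfl) (rfl | rfl) hab hc hd hcd e1 e2 e3 e4
    · exact hab rfl
    · exact hs c hc d hd hcd e1 e2 e3 e4
    · exact hs c hc d hd hcd e2 e1 e4 e3
    · exact hab rfl
  have two : ∀ {a b c : V}, (a = w ∨ a = w') → (b = w ∨ b = w') → (c = w ∨ c = w') → a ≠ b → a ≠ c → b ≠ c →
      False := by
    rintro a b c (rfl | rfl) (rfl | rfl) (rfl | rfl) h h' h'' <;> simp_all
  rintro Z (⟨a, b, c, ⟨ab, ac, bc⟩, rfl⟩ | ⟨a, b, c, d, ⟨ab, ac, ad, bc, bd, cd⟩, rfl⟩) hZ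
  · obtain ⟨e1, e2, e3⟩ := tri_sub.1 hZ
    rcases (cl e1).1 with ha | ha
    · rcases (cl e2).1 with hb | hb
      · rcases (cl e3).1 with hc | hc
        · exact two ha hb hc ab ac bc
        · exact tr ha hb ab hc e1 (msw e3) e2
      · exact tr ha ((cl e2).2 hb) ac hb (msw e3) e1 (msw e2)
    · exact tr ((cl e1).2 ha) ((cl (msw e3)).2 ha) bc ha e2 (msw e1) e3
  · obtain ⟨e1, e2, e3, e4⟩ := sq_sub.1 hZ
    rcases (cl e1).1 with ha | ha
    · rcases (cl e2).1 with hb | hb
      · rcases (cl e3).1 with hc | hc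
        · exact two ha hb hc ab ac bc
        · exact two ha hb ((cl e3).2 hc) ab ad bd
      · have hc := (cl e2).2 hb
        rcases (cl e4).1 with hd | hd
        · exact two ha hc hd ac ad cd
        · exact qu ha hc ac hb hd bd e1 (msw e2) (msw e4) e3
    · have hb := (cl e1).2 ha
      have hd := (cl (msw e4)).2 ha
      rcases (cl e3).1 with hc | hc
      · exact two hb hc hd bc bd cd
      · exact qu hb hd bd ha hc ac (msw e1) e4 e2 (msw e3)

lemma hub_notMem {w w' : V} {L A B : Finset V} (h2 : w ∉ L) (h3 : w' ∉ L) (hA : A ⊆ L) (hB : B ⊆ L)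
    (h1 : w ≠ w') : s(w, w') ∉ xst w A ∪ xst w' B := by
  rw [mem_union, mem_xst, mem_xst]
  rintro ((⟨-, h⟩ | ⟨h, -⟩) | (⟨h, -⟩ | ⟨-, h⟩))
  · exact h3 (hA h)
  · exact h1 h.symm
  · exact h1 h
  · exact h2 (hB h)

/-- without the edge of the centres -/
lemma mem_JS3_0 {w w' : V} {L A B : Finset V} (h1 : w ≠ w') (h2 : w ∉ L) (h3 : w' ∉ L)
    (hA : A ⊆ L) (hB : B ⊆ L) (cA : #A ≤ 2) (cB : #B ≤ 2) (cAB : #(A ∩ B) ≤ 1) :
    xK w w' A B ∈ JS3 (Clu3.k11 w w' L).edges noZ := by
  have hm : ∀ {x y : V}, s(x, y) ∈ xst w A ∪ xst w' B →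
      (x = w ∧ y ∈ A) ∨ (y = w ∧ x ∈ A) ∨ (x = w' ∧ y ∈ B) ∨ (y = w' ∧ x ∈ B) := by
    intro x y hxy
    rw [mem_union, mem_xst, mem_xst] at hxy
    tauto
  have hz : xst w A ∪ xst w' B ⊆ (Clu3.k11 w w' L).edges :=
    (union_subset_union (image_subset_image hA) (image_subset_image hB)).trans (subset_insert _ _)
  have hwl : ∀ l ∈ L, s(w, l) ∈ xst w A ∪ xst w' B → l ∈ A := by
    intro l hl h
    rcases hm h with ⟨-, h⟩ | ⟨h, -⟩ | ⟨h, -⟩ | ⟨h, -⟩
    · exact h
    · exact absurd (h ▸ hl) h2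
    · exact absurd h h1
    · exact absurd (h ▸ hl) h3
  have hwl' : ∀ l ∈ L, s(w', l) ∈ xst w A ∪ xst w' B → l ∈ B := by
    intro l hl h
    rcases hm h with ⟨h, -⟩ | ⟨h, -⟩ | ⟨-, h⟩ | ⟨h, -⟩
    · exact absurd h.symm h1
    · exact absurd (h ▸ hl) h2
    · exact h
    · exact absurd (h ▸ hl) h3
  refine ⟨xst w A ∪ xst w' B, hz, ?_, ?_, (dv_xK h1 h2 h3 hA hB).symm⟩
  · refine M2.of_dv ?_ ?_
    · intro e he
      rcases mem_union.mp he with he | he
      · obtain ⟨l, hl, rfl⟩ := mem_image.mp he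
        intro h; rw [Sym2.mk_isDiag_iff] at h; exact h2 (h ▸ hA hl)
      · obtain ⟨l, hl, rfl⟩ := mem_image.mp he
        intro h; rw [Sym2.mk_isDiag_iff] at h; exact h3 (h ▸ hB hl)
    · intro v
      rw [dv_xK h1 h2 h3 hA hB]
      by_cases hw : v = w
      · subst hw; rw [xK_w h1 h2 hA hB]; exact_mod_cast cA
      by_cases hw' : v = w'
      · subst hw'; rw [xK_w' h1 h3 hA hB]; exact_mod_cast cB
      exact xK_other hw hw'
  · refine k11_gd h1 h2 h3 hz ?_ ?_
    · intro l hl l' hl' hne e1 e2 e3 e4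
      exact hne (card_le_one.mp cAB l (mem_inter.mpr ⟨hwl l hl e1, hwl' l hl e2⟩) l'
        (mem_inter.mpr ⟨hwl l' hl' e3, hwl' l' hl' e4⟩))
    · intro l _ e1 _ _
      exact hub_notMem h2 h3 hA hB h1 e1

/-- with the edge of the centres -/
lemma mem_JS3_1 {w w' : V} {L A B : Finset V} (h1 : w ≠ w') (h2 : w ∉ L) (h3 : w' ∉ L)
    (hA : A ⊆ L) (hB : B ⊆ L) (cA : #A ≤ 1) (cB : #B ≤ 1) (hd : Disjoint A B) :
    xK w w' A B + (ev w + ev w') ∈ JS3 (Clu3.k11 w w' L).edges noZ := by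
  have hm : ∀ {x y : V}, s(x, y) ∈ xst w A ∪ xst w' B →
      (x = w ∧ y ∈ A) ∨ (y = w ∧ x ∈ A) ∨ (x = w' ∧ y ∈ B) ∨ (y = w' ∧ x ∈ B) := by
    intro x y hxy
    rw [mem_union, mem_xst, mem_xst] at hxy
    tauto
  have hz : xst w A ∪ xst w' B ⊆ (Clu3.k11 w w' L).edges :=
    (union_subset_union (image_subset_image hA) (image_subset_image hB)).trans (subset_insert _ _)
  have hz' : insert s(w, w') (xst w A ∪ xst w' B) ⊆ (Clu3.k11 w w' L).edges :=
    insert_subset (mem_insert_self _ _) hz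
  have hwl : ∀ l ∈ L, s(w, l) ∈ insert s(w, w') (xst w A ∪ xst w' B) → l ∈ A := by
    intro l hl h
    rcases mem_insert.1 h with h | h
    · rw [Sym2.eq_iff] at h
      rcases h with ⟨-, h⟩ | ⟨h, -⟩
      · exact absurd (h ▸ hl) h3
      · exact absurd h h1
    rcases hm h with ⟨-, h⟩ | ⟨h, -⟩ | ⟨h, -⟩ | ⟨h, -⟩
    · exact h
    · exact absurd (h ▸ hl) h2
    · exact absurd h h1
    · exact absurd (h ▸ hl) h3
  have hwl' : ∀ l ∈ L, s(w', l) ∈ insert s(w, w') (xst w A ∪ xst w' B) → l ∈ B := by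
    intro l hl h
    rcases mem_insert.1 h with h | h
    · rw [Sym2.eq_iff] at h
      rcases h with ⟨h, -⟩ | ⟨-, h⟩
      · exact absurd h.symm h1
      · exact absurd (h ▸ hl) h2
    rcases hm h with ⟨h, -⟩ | ⟨h, -⟩ | ⟨-, h⟩ | ⟨h, -⟩
    · exact absurd h.symm h1
    · exact absurd (h ▸ hl) h2
    · exact h
    · exact absurd (h ▸ hl) h3
  have hdv : dv (insert s(w, w') (xst w A ∪ xst w' B)) = xK w w' A B + (ev w + ev w') := by
    rw [dv_insert h1 (hub_notMem h2 h3 hA hB h1), dv_xK h1 h2 h3 hA hB]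
    abel
  refine ⟨insert s(w, w') (xst w A ∪ xst w' B), hz', ?_, ?_, hdv.symm⟩
  · refine M2.of_dv ?_ ?_
    · intro e he
      rcases mem_insert.1 he with rfl | he
      · simpa using h1
      rcases mem_union.mp he with he | he
      · obtain ⟨l, hl, rfl⟩ := mem_image.mp he
        intro h; rw [Sym2.mk_isDiag_iff] at h; exact h2 (h ▸ hA hl)
      · obtain ⟨l, hl, rfl⟩ := mem_image.mp he
        intro h; rw [Sym2.mk_isDiag_iff] at h; exact h3 (h ▸ hB hl)
    · intro v
      rw [hdv, Pi.add_apply, Pi.add_apply, ev_apply, ev_apply]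
      by_cases hw : v = w
      · subst hw
        rw [xK_w h1 h2 hA hB, if_pos rfl, if_neg h1]
        have : (#A : ℤ) ≤ 1 := by exact_mod_cast cA
        linarith
      by_cases hw' : v = w'
      · subst hw'
        rw [xK_w' h1 h3 hA hB, if_pos rfl, if_neg h1.symm]
        have : (#B : ℤ) ≤ 1 := by exact_mod_cast cB
        linarith
      rw [if_neg hw, if_neg hw']
      have := xK_other (A := A) (B := B) hw hw'
      linarith
  · refine k11_gd h1 h2 h3 hz' ?_ ?_
    · intro l hl l' hl' hne e1 e2 e3 e4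
      exact Finset.disjoint_left.1 hd (hwl l hl e1) (hwl' l hl e2)
    · intro l hl _ e1 e2
      exact Finset.disjoint_left.1 hd (hwl l hl e1) (hwl' l hl e2)

/-- the vectors of `K_{1,1,m}` -/
lemma of_mem_JS3 {w w' : V} {L : Finset V} (h1 : w ≠ w') (h2 : w ∉ L) (h3 : w' ∉ L)
    {k : V → ℤ} (hk : k ∈ JS3 (Clu3.k11 w w' L).edges noZ) :
    ∃ A B : Finset V, A ⊆ L ∧ B ⊆ L ∧ ((#A ≤ 2 ∧ #B ≤ 2 ∧ #(A ∩ B) ≤ 1 ∧ k = xK w w' A B) ∨
      (#A ≤ 1 ∧ #B ≤ 1 ∧ Disjoint A B ∧ k = xK w w' A B + (ev w + ev w'))) := by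
  obtain ⟨z, hz, hM, hg, rfl⟩ := hk
  set A := L.filter (fun l => s(w, l) ∈ z) with hA
  set B := L.filter (fun l => s(w', l) ∈ z) with hB
  have hAL : A ⊆ L := filter_subset _ _
  have hBL : B ⊆ L := filter_subset _ _
  have hAz : xst w A ∪ xst w' B ⊆ z := by
    intro e he
    rcases mem_union.mp he with he | he
    · obtain ⟨l, hl, rfl⟩ := mem_image.mp he
      exact (mem_filter.mp hl).2
    · obtain ⟨l, hl, rfl⟩ := mem_image.mp he
      exact (mem_filter.mp hl).2
  have hzA : ∀ e ∈ z, e ≠ s(w, w') → e ∈ xst w A ∪ xst w' B := by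
    intro e he hne
    have h4 := (mem_insert.1 (hz he)).resolve_left hne
    simp only [Clu.edges, mem_union, mem_image] at h4
    rcases h4 with ⟨l, hl, rfl⟩ | ⟨l, hl, rfl⟩
    · exact mem_union_left _ (mem_image.mpr ⟨l, mem_filter.mpr ⟨hl, he⟩, rfl⟩)
    · exact mem_union_right _ (mem_image.mpr ⟨l, mem_filter.mpr ⟨hl, he⟩, rfl⟩)
  have hub := hub_notMem h2 h3 hAL hBL h1
  refine ⟨A, B, hAL, hBL, ?_⟩
  by_cases hh : s(w, w') ∈ z
  · right
    have hzz : z = insert s(w, w') (xst w A ∪ xst w' B) := by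
      ext e
      rw [mem_insert]
      constructor
      · intro he
        by_cases hne : e = s(w, w')
        · exact Or.inl hne
        · exact Or.inr (hzA e he hne)
      · rintro (rfl | he)
        · exact hh
        · exact hAz he
    have hdv : dv z = xK w w' A B + (ev w + ev w') := by
      rw [hzz, dv_insert h1 hub, dv_xK h1 h2 h3 hAL hBL]
      abel
    refine ⟨?_, ?_, ?_, hdv⟩
    · have h4 := congrFun hdv w
      rw [Pi.add_apply, Pi.add_apply, xK_w h1 h2 hAL hBL, dv_apply, ev_self, ev_ne h1] at h4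
      have h5 := hM.le w
      omega
    · have h4 := congrFun hdv w'
      rw [Pi.add_apply, Pi.add_apply, xK_w' h1 h3 hAL hBL, dv_apply, ev_self, ev_ne h1.symm] at h4
      have h5 := hM.le w'
      omega
    · rw [Finset.disjoint_left]
      intro l hl hl'
      have a1 := (mem_filter.mp hl).2
      have a2 := (mem_filter.mp hl').2
      have hlL := hAL hl
      refine hg (tri w w' l) (Or.inl ⟨w, w', l, ⟨h1, fun h => h2 (h ▸ hlL), fun h => h3 (h ▸ hlL)⟩, rfl⟩) ?_
      rw [tri_sub]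
      exact ⟨hh, a2, msw a1⟩
  · left
    have hzz : z = xst w A ∪ xst w' B := by
      ext e
      constructor
      · intro he
        refine hzA e he ?_
        rintro rfl
        exact hh he
      · intro he
        exact hAz he
    have hdv : dv z = xK w w' A B := by
      rw [← dv_xK h1 h2 h3 hAL hBL, ← hzz]
    refine ⟨?_, ?_, ?_, hdv⟩
    · have h4 := congrFun hdv w
      rw [xK_w h1 h2 hAL hBL, dv_apply] at h4
      have h5 := hM.le w
      have : dg z w = #A := by exact_mod_cast h4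
      omega
    · have h4 := congrFun hdv w'
      rw [xK_w' h1 h3 hAL hBL, dv_apply] at h4
      have h5 := hM.le w'
      have : dg z w' = #B := by exact_mod_cast h4
      omega
    · by_contra hcon
      push Not at hcon
      obtain ⟨a, ha, b, hb, hab⟩ := one_lt_card.mp hcon
      rw [mem_inter] at ha hb
      have a1 := (mem_filter.mp ha.1).2
      have a2 := (mem_filter.mp ha.2).2
      have b1 := (mem_filter.mp hb.1).2
      have b2 := (mem_filter.mp hb.2).2
      have haL := hAL ha.1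
      have hbL := hAL hb.1
      refine hg (TFC.sq w a w' b) (Or.inr ⟨w, a, w', b, ⟨fun h => h2 (h ▸ haL), h1, fun h => h2 (h ▸ hbL),
        fun h => h3 (h ▸ haL), hab, fun h => h3 (h ▸ hbL)⟩, rfl⟩) ?_
      rw [sq_sub]
      exact ⟨a1, msw a2, b2, msw b1⟩

/-! ### sums of units at the leaves -/

lemma list_mem_x {w w' : V} : ∀ (l : List V), l.Nodup → ∀ P Q : Finset V,
    (∀ x ∈ P, x ∈ l) → (∀ x ∈ Q, x ∈ l) → Disjoint P Q →
    xK w w' P Q ∈ sumU (l.map (fun l => (({l} : Finset V), ({w, w'} : Finset V)))) := by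
  intro l
  induction l with
  | nil =>
    intro _ P Q hP hQ _
    have h1 : P = ∅ := by
      rw [eq_empty_iff_forall_notMem]; intro x hx; simpa using hP x hx
    have h2 : Q = ∅ := by
      rw [eq_empty_iff_forall_notMem]; intro x hx; simpa using hQ x hx
    subst h1 h2
    simp [sumU, xK, xind]
  | cons a l ih =>
    intro hn P Q hP hQ hd
    rw [List.nodup_cons] at hn
    rw [List.map_cons, sumU]
    by_cases haP : a ∈ P
    · have haQ : a ∉ Q := Finset.disjoint_left.mp hd haP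
      rw [xK_eraseA haP, add_comm (xK w w' (P.erase a) Q)]
      refine Set.add_mem_add ?_ ?_
      · refine Or.inr ⟨a, mem_singleton_self a, w, by simp, add_comm _ _⟩
      · refine ih hn.2 _ _ ?_ ?_ (hd.mono_left (erase_subset _ _))
        · intro x hx
          rw [mem_erase] at hx
          exact (List.mem_cons.mp (hP x hx.2)).resolve_left hx.1
        · intro x hx
          refine (List.mem_cons.mp (hQ x hx)).resolve_left ?_
          rintro rfl; exact haQ hx
    · by_cases haQ : a ∈ Q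
      · rw [xK_eraseB haQ, add_comm (xK w w' P (Q.erase a))]
        refine Set.add_mem_add ?_ ?_
        · refine Or.inr ⟨a, mem_singleton_self a, w', by simp, add_comm _ _⟩
        · refine ih hn.2 _ _ ?_ ?_ (hd.mono_right (erase_subset _ _))
          · intro x hx
            refine (List.mem_cons.mp (hP x hx)).resolve_left ?_
            rintro rfl; exact haP hx
          · intro x hx
            rw [mem_erase] at hx
            exact (List.mem_cons.mp (hQ x hx.2)).resolve_left hx.1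
      · rw [← zero_add (xK w w' P Q)]
        refine Set.add_mem_add (Or.inl rfl) ?_
        refine ih hn.2 _ _ ?_ ?_ hd
        · intro x hx
          refine (List.mem_cons.mp (hP x hx)).resolve_left ?_
          rintro rfl; exact haP hx
        · intro x hx
          refine (List.mem_cons.mp (hQ x hx)).resolve_left ?_
          rintro rfl; exact haQ hx

lemma of_list_mem_x {w w' : V} : ∀ (l : List V), l.Nodup → ∀ k : V → ℤ,
    k ∈ sumU (l.map (fun l => (({l} : Finset V), ({w, w'} : Finset V)))) →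
    ∃ P Q : Finset V, (∀ x ∈ P, x ∈ l) ∧ (∀ x ∈ Q, x ∈ l) ∧ Disjoint P Q ∧ k = xK w w' P Q := by
  intro l
  induction l with
  | nil =>
    intro _ k hk
    refine ⟨∅, ∅, by simp, by simp, by simp, ?_⟩
    rw [List.map_nil, sumU, Set.mem_singleton_iff] at hk
    simp [hk, xK, xind]
  | cons a l ih =>
    intro hn k hk
    rw [List.nodup_cons] at hn
    rw [List.map_cons, sumU] at hk
    obtain ⟨u, hu, t, ht, rfl⟩ := Set.mem_add.mp hk
    obtain ⟨P, Q, hP, hQ, hd, rfl⟩ := ih hn.2 t ht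
    have haP : a ∉ P := fun h => hn.1 (hP a h)
    have haQ : a ∉ Q := fun h => hn.1 (hQ a h)
    rcases hu with rfl | ⟨s, hs, t, ht', rfl⟩
    · refine ⟨P, Q, fun x hx => List.mem_cons_of_mem _ (hP x hx),
        fun x hx => List.mem_cons_of_mem _ (hQ x hx), hd, by rw [zero_add]⟩
    · have hs' : s = a := mem_singleton.mp hs
      subst hs'
      have ht'' : t = w ∨ t = w' := by simpa using ht'
      rcases ht'' with rfl | rfl
      · refine ⟨insert s P, Q, ?_, fun x hx => List.mem_cons_of_mem _ (hQ x hx), ?_, ?_⟩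
        · intro x hx
          rcases mem_insert.mp hx with rfl | hx
          · exact List.mem_cons_self
          · exact List.mem_cons_of_mem _ (hP x hx)
        · rw [disjoint_insert_left]; exact ⟨haQ, hd⟩
        · rw [← xK_insA haP]; abel
      · refine ⟨P, insert s Q, fun x hx => List.mem_cons_of_mem _ (hP x hx), ?_, ?_, ?_⟩
        · intro x hx
          rcases mem_insert.mp hx with rfl | hx
          · exact List.mem_cons_self
          · exact List.mem_cons_of_mem _ (hQ x hx)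
        · rw [disjoint_insert_right]; exact ⟨haP, hd⟩
        · rw [← xK_insB haQ]; abel

/-! ### the relaxation `R_b` -/

/-- the units of `R_b(w)` -/
noncomputable def ub (w w' : V) (L : Finset V) : List (Finset V × Finset V) :=
  (L.toList.map fun l => (({l} : Finset V), ({w, w'} : Finset V))) ++ [(({w} : Finset V), insert w' L)]

lemma mem_ub {w w' : V} {L P Q : Finset V} {u : V → ℤ} (hP : P ⊆ L) (hQ : Q ⊆ L) (hd : Disjoint P Q)
    (h1 : u = 0 ∨ ∃ t ∈ insert w' L, u = ev w + ev t) : xK w w' P Q + u ∈ sumU (ub w w' L) := by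
  rw [ub, sumU_append]
  refine Set.add_mem_add ?_ ?_
  · refine list_mem_x _ (nodup_toList _) P Q ?_ ?_ hd
    · intro x hx; rw [mem_toList]; exact hP hx
    · intro x hx; rw [mem_toList]; exact hQ hx
  · rw [sumU, sumU]
    rw [← add_zero u]
    refine Set.add_mem_add ?_ (Set.mem_singleton _)
    rcases h1 with rfl | ⟨t, ht, rfl⟩
    · exact Or.inl rfl
    · exact Or.inr ⟨w, mem_singleton_self w, t, ht, rfl⟩

lemma of_mem_ub {w w' : V} {L : Finset V} {k : V → ℤ} (hk : k ∈ sumU (ub w w' L)) :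
    ∃ (P Q : Finset V) (u : V → ℤ), P ⊆ L ∧ Q ⊆ L ∧ Disjoint P Q ∧
      (u = 0 ∨ ∃ t ∈ insert w' L, u = ev w + ev t) ∧ k = xK w w' P Q + u := by
  rw [ub, sumU_append] at hk
  obtain ⟨a, ha, b, hb, rfl⟩ := Set.mem_add.mp hk
  obtain ⟨P, Q, hP, hQ, hd, rfl⟩ := of_list_mem_x _ (nodup_toList _) a ha
  rw [sumU, sumU] at hb
  obtain ⟨u, hu, r, hr, rfl⟩ := Set.mem_add.mp hb
  rw [Set.mem_singleton_iff] at hr
  subst hr
  refine ⟨P, Q, u, ?_, ?_, hd, ?_, ?_⟩
  · intro x hx; exact mem_toList.mp (hP x hx)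
  · intro x hx; exact mem_toList.mp (hQ x hx)
  · rcases hu with rfl | ⟨s, hs, t, ht, rfl⟩
    · exact Or.inl rfl
    · rw [mem_singleton] at hs
      subst hs
      exact Or.inr ⟨t, ht, rfl⟩
  · rw [add_zero]

/-- **Lemma 5.3.1, first part** -/
theorem JS3_subset_ub {w w' : V} {L : Finset V} (h1 : w ≠ w') (h2 : w ∉ L) (h3 : w' ∉ L) :
    JS3 (Clu3.k11 w w' L).edges noZ ⊆ sumU (ub w w' L) := by
  intro k hk
  obtain ⟨A, B, hA, hB, ⟨cA, cB, cAB, rfl⟩ | ⟨cA, cB, hd, rfl⟩⟩ := of_mem_JS3 h1 h2 h3 hk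
  · by_cases he : A ∩ B = ∅
    · have := mem_ub (w := w) (w' := w') hA hB (disjoint_iff_inter_eq_empty.mpr he) (Or.inl rfl)
      rwa [add_zero] at this
    · obtain ⟨t, ht⟩ := nonempty_iff_ne_empty.mpr he
      have ht' := mem_inter.mp ht
      have hd : Disjoint (A.erase t) B := by
        rw [Finset.disjoint_left]
        intro x hx hx'
        rw [mem_erase] at hx
        exact hx.1 (card_le_one.mp cAB x (mem_inter.mpr ⟨hx.2, hx'⟩) t ht)
      rw [xK_eraseA ht'.1]
      exact mem_ub ((erase_subset t A).trans hA) hB hd (Or.inr ⟨t, mem_insert_of_mem (hA ht'.1), rfl⟩)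
  · exact mem_ub hA hB hd (Or.inr ⟨w', mem_insert_self _ _, rfl⟩)

/-- moving a unit at a leaf which is used twice -/
lemma xK_move {w w' t m : V} {B : Finset V} (htB : t ∉ B) (hm : m ∈ B) :
    xK w w' {t} B + (ev w + ev t) = xK w w' (insert m {t}) (insert t (B.erase m)) := by
  have htm : t ≠ m := fun h => htB (h ▸ hm)
  have hmt : m ∉ ({t} : Finset V) := by simpa using htm.symm
  have htB' : t ∉ B.erase m := fun h => htB (mem_of_mem_erase h)
  rw [← xK_insA hmt, ← xK_insB htB', xK_eraseB hm]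
  abel

/-- the common part: `P` and `B` disjoint, a further unit `w t` with `t` a leaf -/
lemma unit_leaf {w w' : V} {L P B : Finset V} (h1 : w ≠ w') (hwL : w ∉ L) (hwL' : w' ∉ L) (hPL : P ⊆ L)
    (hBL : B ⊆ L) (hdB : Disjoint P B) {t : V} (htL : t ∈ L) (h2w : (xK w w' P B + (ev w + ev t)) w ≤ 2)
    (h2w' : (xK w w' P B + (ev w + ev t)) w' ≤ 2) :
    xK w w' P B + (ev w + ev t) ∈ JS3 (Clu3.k11 w w' L).edges noZ ∨
      (t ∈ P ∧ B = ∅ ∧ xK w w' P B + (ev w + ev t) = (2 : ℤ) • ev w + (2 : ℤ) • ev t) := by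
  have htw : t ≠ w := fun h => hwL (h ▸ htL)
  have htw' : t ≠ w' := fun h => hwL' (h ▸ htL)
  rw [Pi.add_apply, Pi.add_apply, xK_w h1 hwL hPL hBL, ev_self, ev_ne htw.symm] at h2w
  rw [Pi.add_apply, Pi.add_apply, xK_w' h1 hwL' hPL hBL, ev_ne h1.symm, ev_ne htw'.symm] at h2w'
  have hPc : #P ≤ 1 := by
    have : (#P : ℤ) ≤ 1 := by linarith
    exact_mod_cast this
  have hBc : #B ≤ 2 := by
    have : (#B : ℤ) ≤ 2 := by linarith
    exact_mod_cast this
  by_cases htP : t ∈ P
  · have hP1 : P = {t} := eq_singleton_iff_unique_mem.mpr ⟨htP, fun x hx => card_le_one.mp hPc x hx t htP⟩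
    have htB : t ∉ B := Finset.disjoint_left.mp hdB htP
    subst hP1
    by_cases hB0 : B = ∅
    · right
      subst hB0
      exact ⟨htP, rfl, xK_one⟩
    · left
      obtain ⟨m, hm⟩ := nonempty_iff_ne_empty.mpr hB0
      have htB' : t ∉ B.erase m := fun h => htB (mem_of_mem_erase h)
      rw [xK_move htB hm]
      refine mem_JS3_0 h1 hwL hwL' (insert_subset (hBL hm) (by simpa using htL))
        (insert_subset htL ((erase_subset _ _).trans hBL)) card_le_two ?_ ?_
      · rw [card_insert_of_notMem htB', card_erase_add_one hm]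
        exact hBc
      · rw [card_le_one]
        have : ∀ x ∈ insert m {t} ∩ insert t (B.erase m), x = t := by
          intro x hx
          rw [mem_inter, mem_insert, mem_singleton, mem_insert, mem_erase] at hx
          rcases hx.1 with rfl | h
          · rcases hx.2 with h | h
            · exact h
            · exact absurd rfl h.1
          · exact h
        intro x hx y hy
        rw [this x hx, this y hy]
  · left
    rw [xK_insA htP]
    refine mem_JS3_0 h1 hwL hwL' (insert_subset htL hPL) hBL ?_ hBc ?_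
    · rw [card_insert_of_notMem htP]; omega
    · rw [card_le_one]
      have : ∀ x ∈ insert t P ∩ B, x = t := by
        intro x hx
        rw [mem_inter, mem_insert] at hx
        rcases hx.1 with h | h
        · exact h
        · exact absurd hx.2 (Finset.disjoint_left.mp hdB h)
      intro x hx y hy
      rw [this x hx, this y hy]

/-- no further unit, or the edge of the centres -/
lemma unit_none {w w' : V} {L P B : Finset V} (h1 : w ≠ w') (hwL : w ∉ L) (hwL' : w' ∉ L) (hPL : P ⊆ L)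
    (hBL : B ⊆ L) (hdB : Disjoint P B) (h2w : xK w w' P B w ≤ 2) (h2w' : xK w w' P B w' ≤ 2) :
    xK w w' P B ∈ JS3 (Clu3.k11 w w' L).edges noZ := by
  rw [xK_w h1 hwL hPL hBL] at h2w
  rw [xK_w' h1 hwL' hPL hBL] at h2w'
  refine mem_JS3_0 h1 hwL hwL' hPL hBL (by exact_mod_cast h2w) (by exact_mod_cast h2w') ?_
  rw [disjoint_iff_inter_eq_empty.mp hdB]; simp

lemma unit_hub {w w' : V} {L P B : Finset V} (h1 : w ≠ w') (hwL : w ∉ L) (hwL' : w' ∉ L) (hPL : P ⊆ L)
    (hBL : B ⊆ L) (hdB : Disjoint P B) (h2w : (xK w w' P B + (ev w + ev w')) w ≤ 2)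
    (h2w' : (xK w w' P B + (ev w + ev w')) w' ≤ 2) :
    xK w w' P B + (ev w + ev w') ∈ JS3 (Clu3.k11 w w' L).edges noZ := by
  rw [Pi.add_apply, Pi.add_apply, xK_w h1 hwL hPL hBL, ev_self, ev_ne h1] at h2w
  rw [Pi.add_apply, Pi.add_apply, xK_w' h1 hwL' hPL hBL, ev_self, ev_ne h1.symm] at h2w'
  refine mem_JS3_1 h1 hwL hwL' hPL hBL ?_ ?_ hdB
  · have : (#P : ℤ) ≤ 1 := by linarith
    exact_mod_cast this
  · have : (#B : ℤ) ≤ 1 := by linarith
    exact_mod_cast this

/-- **Lemma 5.3.1, second part** -/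
theorem ub_le {w w' : V} {L : Finset V} (h1 : w ≠ w') (hwL : w ∉ L) (hwL' : w' ∉ L) {k : V → ℤ}
    (hk : k ∈ sumU (ub w w' L)) (h2 : ∀ v, k v ≤ 2) :
    k ∈ JS3 (Clu3.k11 w w' L).edges noZ ∨ ∃ l ∈ L, k = (2 : ℤ) • ev w + (2 : ℤ) • ev l := by
  obtain ⟨P, Q, u, hP, hQ, hd, hu, rfl⟩ := of_mem_ub hk
  rcases hu with rfl | ⟨t, ht, rfl⟩
  · left
    rw [add_zero] at h2 ⊢
    exact unit_none h1 hwL hwL' hP hQ hd (h2 w) (h2 w')
  · rcases mem_insert.1 ht with rfl | ht
    · left
      exact unit_hub h1 hwL hwL' hP hQ hd (h2 w) (h2 _)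
    · rcases unit_leaf h1 hwL hwL' hP hQ hd ht (h2 w) (h2 w') with h | ⟨_, _, h⟩
      · exact Or.inl h
      · exact Or.inr ⟨t, ht, h⟩

/-! ### the relaxation `R_c` -/

/-- the units of `R_c(c)` with the special centre `x` -/
noncomputable def uc (x y c : V) (L : Finset V) : List (Finset V × Finset V) :=
  ((L.erase c).toList.map fun l => (({l} : Finset V), ({x, y} : Finset V))) ++
    [(({x} : Finset V), insert y L), (({y} : Finset V), {c, x})]

lemma mem_uc {x y c : V} {L P Q : Finset V} {u1 u2 : V → ℤ} (hP : P ⊆ L.erase c) (hQ : Q ⊆ L.erase c)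
    (hd : Disjoint P Q) (h1 : u1 = 0 ∨ ∃ t ∈ insert y L, u1 = ev x + ev t)
    (h2 : u2 = 0 ∨ u2 = ev y + ev c ∨ u2 = ev y + ev x) :
    xK x y P Q + u1 + u2 ∈ sumU (uc x y c L) := by
  rw [uc, sumU_append, add_assoc]
  refine Set.add_mem_add ?_ ?_
  · refine list_mem_x _ (nodup_toList _) P Q ?_ ?_ hd
    · intro x hx; rw [mem_toList]; exact hP hx
    · intro x hx; rw [mem_toList]; exact hQ hx
  · rw [sumU, sumU, sumU]
    refine Set.add_mem_add ?_ ?_
    · rcases h1 with rfl | ⟨t, ht, rfl⟩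
      · exact Or.inl rfl
      · exact Or.inr ⟨x, mem_singleton_self x, t, ht, rfl⟩
    · rw [← add_zero u2]
      refine Set.add_mem_add ?_ (Set.mem_singleton _)
      rcases h2 with rfl | rfl | rfl
      · exact Or.inl rfl
      · exact Or.inr ⟨y, mem_singleton_self y, c, mem_insert_self _ _, rfl⟩
      · exact Or.inr ⟨y, mem_singleton_self y, x, mem_insert_of_mem (mem_singleton_self _), rfl⟩

lemma of_mem_uc {x y c : V} {L : Finset V} {k : V → ℤ} (hk : k ∈ sumU (uc x y c L)) :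
    ∃ (P Q : Finset V) (u1 u2 : V → ℤ), P ⊆ L.erase c ∧ Q ⊆ L.erase c ∧ Disjoint P Q ∧
      (u1 = 0 ∨ ∃ t ∈ insert y L, u1 = ev x + ev t) ∧ (u2 = 0 ∨ u2 = ev y + ev c ∨ u2 = ev y + ev x) ∧
      k = xK x y P Q + u1 + u2 := by
  rw [uc, sumU_append] at hk
  obtain ⟨a, ha, b, hb, rfl⟩ := Set.mem_add.mp hk
  obtain ⟨P, Q, hP, hQ, hd, rfl⟩ := of_list_mem_x _ (nodup_toList _) a ha
  rw [sumU, sumU, sumU] at hb
  obtain ⟨u1, hu1, r, hr, rfl⟩ := Set.mem_add.mp hb
  obtain ⟨u2, hu2, z, hz, rfl⟩ := Set.mem_add.mp hr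
  rw [Set.mem_singleton_iff] at hz
  subst hz
  refine ⟨P, Q, u1, u2, ?_, ?_, hd, ?_, ?_, ?_⟩
  · intro x hx; exact mem_toList.mp (hP x hx)
  · intro x hx; exact mem_toList.mp (hQ x hx)
  · rcases hu1 with rfl | ⟨s, hs, t, ht, rfl⟩
    · exact Or.inl rfl
    · rw [mem_singleton] at hs
      subst hs
      exact Or.inr ⟨t, ht, rfl⟩
  · rcases hu2 with rfl | ⟨s, hs, t, ht, rfl⟩
    · exact Or.inl rfl
    · rw [mem_singleton] at hs
      rw [mem_insert, mem_singleton] at ht
      subst hs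
      rcases ht with rfl | rfl
      · exact Or.inr (Or.inl rfl)
      · exact Or.inr (Or.inr rfl)
  · rw [add_zero]; abel

/-- **Lemma 5.3.2, first part** -/
theorem JS3_subset_uc {x y c : V} {L : Finset V} (h1 : x ≠ y) (h2 : x ∉ L) (h3 : y ∉ L) (hc : c ∈ L) :
    JS3 (Clu3.k11 x y L).edges noZ ⊆ sumU (uc x y c L) := by
  intro k hk
  obtain ⟨A, B, hA, hB, hcase⟩ := of_mem_JS3 h1 h2 h3 hk
  have hAc : A.erase c ⊆ L.erase c := erase_subset_erase c hA
  have hBc : B.erase c ⊆ L.erase c := erase_subset_erase c hB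
  -- the part of `B` at `c`
  have hBB : ∃ u2 : V → ℤ, (u2 = 0 ∨ u2 = ev y + ev c ∨ u2 = ev y + ev x) ∧
      ∀ P : Finset V, xK x y P B = xK x y P (B.erase c) + u2 := by
    by_cases hcB : c ∈ B
    · exact ⟨_, Or.inr (Or.inl rfl), fun P => xK_eraseB hcB⟩
    · exact ⟨0, Or.inl rfl, fun P => by rw [erase_eq_of_notMem hcB, add_zero]⟩
  obtain ⟨u2, hu2, hB2⟩ := hBB
  rcases hcase with ⟨cA, cB, cAB, rfl⟩ | ⟨cA, cB, hd, rfl⟩
  · by_cases hcA : c ∈ A
    · by_cases hcB : c ∈ B
      · -- both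
        have hd : Disjoint (A.erase c) (B.erase c) := by
          rw [Finset.disjoint_left]
          intro x hx hx'
          rw [mem_erase] at hx hx'
          exact hx.1 (card_le_one.mp cAB x (mem_inter.mpr ⟨hx.2, hx'.2⟩) c
            (mem_inter.mpr ⟨hcA, hcB⟩))
        rw [xK_eraseA hcA, hB2]
        have := mem_uc hAc hBc hd (u1 := ev x + ev c) (u2 := u2)
          (Or.inr ⟨c, mem_insert_of_mem hc, rfl⟩) hu2
        convert this using 1
        abel
      · have hBL : B ⊆ L.erase c := by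
          intro x hx
          rw [mem_erase]
          exact ⟨fun h => hcB (h ▸ hx), hB hx⟩
        by_cases he : A ∩ B = ∅
        · have hd : Disjoint (A.erase c) B :=
            (disjoint_iff_inter_eq_empty.mpr he).mono_left (erase_subset _ _)
          rw [xK_eraseA hcA]
          have := mem_uc hAc hBL hd (u1 := ev x + ev c) (u2 := 0)
            (Or.inr ⟨c, mem_insert_of_mem hc, rfl⟩) (Or.inl rfl) (x := x) (y := y)
          rwa [add_zero] at this
        · obtain ⟨l, hl⟩ := nonempty_iff_ne_empty.mpr he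
          rw [mem_inter] at hl
          have hlc : l ≠ c := fun h => hcB (h ▸ hl.2)
          have hAl : A.erase c = {l} := by
            have h5 : l ∈ A.erase c := mem_erase.mpr ⟨hlc, hl.1⟩
            have h6 : #(A.erase c) ≤ 1 := by
              have := card_erase_add_one hcA
              omega
            exact eq_singleton_iff_unique_mem.mpr ⟨h5, fun x hx => card_le_one.mp h6 x hx l h5⟩
          have hd : Disjoint ({l} : Finset V) (B.erase l) := by simp
          have hBl : B.erase l ⊆ L.erase c := (erase_subset _ _).trans hBL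
          have hll : ({l} : Finset V) ⊆ L.erase c := by
            rw [← hAl]; exact hAc
          have := mem_uc hll hBl hd (u1 := ev x + ev l) (u2 := ev y + ev c)
            (Or.inr ⟨l, mem_insert_of_mem (hA hl.1), rfl⟩) (Or.inr (Or.inl rfl)) (x := x) (y := y)
          rw [xK_eraseA hcA, hAl, xK_eraseB hl.2]
          convert this using 1
          abel
    · have hAL : A ⊆ L.erase c := by
        intro x hx
        rw [mem_erase]
        exact ⟨fun h => hcA (h ▸ hx), hA hx⟩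
      by_cases he : A ∩ B = ∅
      · have hd : Disjoint A (B.erase c) :=
          (disjoint_iff_inter_eq_empty.mpr he).mono_right (erase_subset _ _)
        have := mem_uc (x := x) hAL hBc hd (u1 := 0) (u2 := u2) (Or.inl rfl) hu2
        rw [hB2]
        rwa [add_zero] at this
      · obtain ⟨t, ht⟩ := nonempty_iff_ne_empty.mpr he
        have ht' := mem_inter.mp ht
        have hd : Disjoint (A.erase t) (B.erase c) := by
          rw [Finset.disjoint_left]
          intro x hx hx'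
          rw [mem_erase] at hx hx'
          exact hx.1 (card_le_one.mp cAB x (mem_inter.mpr ⟨hx.2, hx'.2⟩) t ht)
        have := mem_uc ((erase_subset t A).trans hAL) hBc hd (u1 := ev x + ev t) (u2 := u2)
          (Or.inr ⟨t, mem_insert_of_mem (hA ht'.1), rfl⟩) hu2
        rw [xK_eraseA ht'.1, hB2]
        convert this using 1
        abel
  · -- the edge of the centres is used
    by_cases hcA : c ∈ A
    · have hA1 : A = {c} := eq_singleton_iff_unique_mem.mpr ⟨hcA, fun x hx => card_le_one.mp cA x hx c hcA⟩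
      subst hA1
      have hcB : c ∉ B := Finset.disjoint_left.1 hd hcA
      have hBL : B ⊆ L.erase c := by
        intro x hx
        rw [mem_erase]
        exact ⟨fun h => hcB (h ▸ hx), hB hx⟩
      have := mem_uc (x := x) (y := y) (P := ∅) (empty_subset _) hBL (disjoint_empty_left _) (u1 := ev x + ev c)
        (u2 := ev y + ev x) (Or.inr ⟨c, mem_insert_of_mem hc, rfl⟩) (Or.inr (Or.inr rfl))
      rw [xK_eraseA (mem_singleton_self c), erase_singleton]
      convert this using 1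
      abel
    · have hAL : A ⊆ L.erase c := by
        intro x hx
        rw [mem_erase]
        exact ⟨fun h => hcA (h ▸ hx), hA hx⟩
      have := mem_uc (x := x) hAL hBc (hd.mono_right (erase_subset _ _)) (u1 := ev x + ev y) (u2 := u2)
        (Or.inr ⟨y, mem_insert_self _ _, rfl⟩) hu2
      rw [hB2]
      convert this using 1
      abel

/-- **Lemma 5.3.2, second part** -/
theorem uc_le {x y c : V} {L : Finset V} (h1 : x ≠ y) (hxL : x ∉ L) (hyL : y ∉ L) (hc : c ∈ L) {k : V → ℤ}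
    (hk : k ∈ sumU (uc x y c L)) (h2 : ∀ v, k v ≤ 2) :
    k ∈ JS3 (Clu3.k11 x y L).edges noZ ∨ (∃ l ∈ L, l ≠ c ∧ k = (2 : ℤ) • ev x + (2 : ℤ) • ev l) ∨
      k = (2 : ℤ) • ev x + (2 : ℤ) • ev y ∨
      ∃ l ∈ L, l ≠ c ∧ k = (2 : ℤ) • ev x + (2 : ℤ) • ev y + (2 : ℤ) • ev l := by
  obtain ⟨P, Q, u1, u2, hP, hQ, hd, hu1, hu2, rfl⟩ := of_mem_uc hk
  have hcP : c ∉ P := fun h => (mem_erase.mp (hP h)).1 rfl
  have hcQ : c ∉ Q := fun h => (mem_erase.mp (hQ h)).1 rfl
  have hPL : P ⊆ L := hP.trans (erase_subset _ _)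
  have hQL : Q ⊆ L := hQ.trans (erase_subset _ _)
  by_cases h3 : u2 = ev y + ev x
  · subst h3
    rcases hu1 with rfl | ⟨t, ht, rfl⟩
    · left
      have e : xK x y P Q + 0 + (ev y + ev x) = xK x y P Q + (ev x + ev y) := by abel
      rw [e] at h2 ⊢
      exact unit_hub h1 hxL hyL hPL hQL hd (h2 x) (h2 y)
    · -- `P` is empty
      have hP0 : #P = 0 ∧ ev t x = 0 := by
        have h4 := h2 x
        rw [Pi.add_apply, Pi.add_apply, Pi.add_apply, Pi.add_apply, xK_w h1 hxL hPL hQL, ev_self,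
          ev_ne h1] at h4
        have h5 : (0 : ℤ) ≤ ev t x := by
          rw [ev_apply]; split_ifs <;> norm_num
        constructor
        · have : (#P : ℤ) ≤ 0 := by linarith
          have h6 : #P ≤ 0 := by exact_mod_cast this
          omega
        · have : (0 : ℤ) ≤ #P := Int.natCast_nonneg _
          linarith
      have hPe : P = ∅ := card_eq_zero.1 hP0.1
      subst hPe
      rcases mem_insert.1 ht with rfl | ht
      · -- `t = y`
        right; right; left
        have hQ0 : Q = ∅ := by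
          have h4 := h2 t
          rw [Pi.add_apply, Pi.add_apply, Pi.add_apply, Pi.add_apply, xK_w' h1 hyL hPL hQL, ev_self,
            ev_ne h1.symm] at h4
          have h5 : (#Q : ℤ) ≤ 0 := by linarith
          have h6 : #Q ≤ 0 := by exact_mod_cast h5
          exact card_eq_zero.1 (by omega)
        subst hQ0
        rw [xK_nil]
        module
      · have htx : t ≠ x := fun h => hxL (h ▸ ht)
        have hty : t ≠ y := fun h => hyL (h ▸ ht)
        have hQ1 : #Q ≤ 1 := by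
          have h4 := h2 y
          rw [Pi.add_apply, Pi.add_apply, Pi.add_apply, Pi.add_apply, xK_w' h1 hyL hPL hQL, ev_self,
            ev_ne h1.symm, ev_ne hty.symm] at h4
          have h5 : (#Q : ℤ) ≤ 1 := by linarith
          exact_mod_cast h5
        by_cases htQ : t ∈ Q
        · right; right; right
          have hQt : Q = {t} := eq_singleton_iff_unique_mem.mpr ⟨htQ, fun x hx => card_le_one.mp hQ1 x hx t htQ⟩
          subst hQt
          refine ⟨t, ht, fun h => hcQ (h ▸ htQ), ?_⟩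
          rw [xK_eraseB (mem_singleton_self t), erase_singleton, xK_nil]
          module
        · left
          have e : xK x y ∅ Q + (ev x + ev t) + (ev y + ev x) = xK x y {t} Q + (ev x + ev y) := by
            rw [xK_insA (notMem_empty t)]
            simp only [insert_empty_eq]
            abel
          rw [e]
          exact mem_JS3_1 h1 hxL hyL (by simpa using ht) hQL (by simp) hQ1 (by simpa using htQ)
  · -- absorb `u2`
    have hu2' : u2 = 0 ∨ u2 = ev y + ev c := by tauto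
    obtain ⟨B, hBL, hdB, hB⟩ : ∃ B : Finset V, B ⊆ L ∧ Disjoint P B ∧
        ∀ A : Finset V, xK x y A Q + u2 = xK x y A B := by
      rcases hu2' with rfl | rfl
      · exact ⟨Q, hQL, hd, fun A => add_zero _⟩
      · refine ⟨insert c Q, insert_subset hc hQL, ?_, fun A => xK_insB hcQ⟩
        rw [disjoint_insert_right]; exact ⟨hcP, hd⟩
    have hk2 : xK x y P Q + u1 + u2 = xK x y P B + u1 := by
      rw [← hB P]; abel
    rw [hk2] at h2 ⊢
    rcases hu1 with rfl | ⟨t, ht, rfl⟩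
    · left
      rw [add_zero] at h2 ⊢
      exact unit_none h1 hxL hyL hPL hBL hdB (h2 x) (h2 y)
    · rcases mem_insert.1 ht with rfl | ht
      · left
        exact unit_hub h1 hxL hyL hPL hBL hdB (h2 x) (h2 _)
      · rcases unit_leaf h1 hxL hyL hPL hBL hdB ht (h2 x) (h2 y) with h | ⟨htP, _, h⟩
        · exact Or.inl h
        · exact Or.inr (Or.inl ⟨t, ht, fun h => hcP (h ▸ htP), h⟩)

end Pool.Agent.P34

end

section -- file P34/R4v

/-!
The relaxations of `K_{2,m}` and of `K_4` when all triangles and squares are forbidden.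
-/

set_option autoImplicit false
set_option linter.unusedSectionVars false

namespace Pool.Agent.P34

open Finset Pool.Agent.TFC
open scoped Pointwise

variable {V : Type*} [DecidableEq V]

/-! ### `K_{2,m}` -/

lemma js_k2_no_tri {w w' : V} {L : Finset V} (h2 : w ∉ L) (h3 : w' ∉ L) {Z : Finset (Sym2 V)}
    (hZ : IsTri Z) (hs : Z ⊆ (Clu.k2 w w' L).edges) : False := by
  obtain ⟨a, b, c, ⟨ab, ac, bc⟩, rfl⟩ := hZ
  obtain ⟨e1, e2, e3⟩ := tri_sub.1 hs
  rw [memV_k2] at e1 e2 e3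
  have cl : ∀ a, (a = w ∨ a = w') → a ∉ L := by
    rintro a (rfl | rfl)
    · exact h2
    · exact h3
  rcases e1 with ⟨hx, hy⟩ | ⟨hy, hx⟩
  · rcases e2 with ⟨h1, _⟩ | ⟨h1, _⟩
    · exact cl b h1 hy
    · rcases e3 with ⟨_, h4⟩ | ⟨_, h4⟩
      · exact cl a hx h4
      · exact cl c h1 h4
  · rcases e2 with ⟨_, h5⟩ | ⟨_, h5⟩
    · rcases e3 with ⟨h3, _⟩ | ⟨h3, _⟩
      · exact cl c h3 h5
      · exact cl a h3 hx
    · exact cl b hy h5

/-- in `K_{2,m}` there are no triangles -/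
theorem JS3_k2 {w w' : V} {L : Finset V} (h2 : w ∉ L) (h3 : w' ∉ L) :
    JS3 (Clu3.k2 w w' L).edges noZ = JS (Clu.k2 w w' L).edges none4 := by
  ext k
  constructor
  · rintro ⟨z, hz, hM, hg, rfl⟩
    refine ⟨z, hz, hM, ?_, rfl⟩
    intro a b c d hs
    have h4 := hs.dist4 hM.nl
    exact hg (TFC.sq a b c d) (Or.inr ⟨a, b, c, d, h4, rfl⟩) (Unit_sq_sub hs)
  · rintro ⟨z, hz, hM, hg, rfl⟩
    refine ⟨z, hz, hM, ?_, rfl⟩
    rintro Z (hZ | ⟨a, b, c, d, h4, rfl⟩) hs
    · exact js_k2_no_tri h2 h3 hZ (hs.trans hz)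
    · obtain ⟨e1, e2, e3, e4⟩ := sq_sub.1 hs
      exact hg a b c d ⟨h4.2.1, h4.2.2.2.2.1, e1, e2, e3, e4⟩

/-! ### small edge sets without short cycles -/

lemma sh_cardV {Z : Finset (Sym2 V)} (h : IsSh Z) : #Z = 3 ∨ #Z = 4 := by
  rcases h with ⟨a, b, c, h, rfl⟩ | ⟨a, b, c, d, h, rfl⟩
  · exact Or.inl (card_tri h)
  · exact Or.inr (card_sqV h)

lemma gd_two {z : Finset (Sym2 V)} (h : #z ≤ 2) : Gd noZ z := by
  intro Z hZ hs
  have h1 := card_le_card hs
  rcases sh_cardV hZ with h2 | h2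
  · omega
  · omega

lemma gd_path {p r s q : V} (h : Dist4 p r s q) : Gd noZ ({s(p, r), s(r, s), s(s, q)} : Finset (Sym2 V)) := by
  obtain ⟨pr, ps, pq, rs, rq, sq'⟩ := h
  intro Z hZ hs
  have hc : #({s(p, r), s(r, s), s(s, q)} : Finset (Sym2 V)) ≤ 3 := card_le_three
  rcases hZ with hZ | ⟨a, b, c, d, h4, rfl⟩
  · have hZ' : Z = {s(p, r), s(r, s), s(s, q)} := by
      refine eq_of_subset_of_card_le hs ?_
      obtain ⟨a, b, c, h3, rfl⟩ := hZ
      rw [card_tri h3]
      exact hc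
    obtain ⟨t, ⟨t1, t2, t3⟩, hT⟩ := isTri_first hZ (x := p) (y := r) (by rw [hZ']; simp)
    have : s(t, p) ∈ ({s(p, r), s(r, s), s(s, q)} : Finset (Sym2 V)) := by rw [← hZ', hT]; simp [tri]
    simp only [mem_insert, mem_singleton, Sym2.eq_iff] at this
    rcases this with (⟨h1, h2⟩ | ⟨h1, h2⟩) | (⟨h1, h2⟩ | ⟨h1, h2⟩) | (⟨h1, h2⟩ | ⟨h1, h2⟩)
    · exact t2 h1.symm
    · exact t3 h1.symm
    · exact ps h2
    · exact pr h2
    · exact pq h2
    · exact ps h2
  · have h1 := card_le_card hs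
    rw [card_sqV h4] at h1
    omega

section
variable {E : Finset (Sym2 V)}

lemma js_zero : (0 : V → ℤ) ∈ JS3 E noZ :=
  ⟨∅, empty_subset _, ⟨by intro e he; simp at he, fun v => by simp [dg]⟩, gd_two (by simp), Unit_dv0.symm⟩

lemma js_edge {p q : V} (pq : p ≠ q) (h : s(p, q) ∈ E) : ev p + ev q ∈ JS3 E noZ := by
  have hd := Unit_dv1 pq
  refine ⟨{s(p, q)}, singleton_subset_iff.2 h, M2.of_dv ?_ fun v => ?_, gd_two (by simp), hd.symm⟩
  · intro e he
    rw [mem_singleton] at he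
    subst he
    simpa using pq
  · rw [hd, Pi.add_apply, ev_apply, ev_apply]
    split_ifs <;> norm_num

lemma js_path2 {p r q : V} (pr : p ≠ r) (rq : r ≠ q) (pq : p ≠ q) (h : s(p, r) ∈ E) (h' : s(r, q) ∈ E) :
    ev p + (2 : ℤ) • ev r + ev q ∈ JS3 E noZ := by
  have hne : s(p, r) ≠ s(r, q) := by
    rw [Ne, Sym2.eq_iff]
    rintro (⟨h1, _⟩ | ⟨h1, _⟩)
    · exact pr h1
    · exact pq h1
  have hd := Unit_dv2 pr rq hne
  have e : ev p + ev r + (ev r + ev q) = (ev p + (2 : ℤ) • ev r + ev q : V → ℤ) := by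
    rw [two_smul]; abel
  refine ⟨{s(p, r), s(r, q)}, ?_, M2.of_dv ?_ fun v => ?_, gd_two card_le_two, by rw [hd, e]⟩
  · intro e he
    rw [mem_insert, mem_singleton] at he
    rcases he with rfl | rfl
    · exact h
    · exact h'
  · intro e he
    rw [mem_insert, mem_singleton] at he
    rcases he with rfl | rfl
    · simpa using pr
    · simpa using rq
  · rw [hd]
    simp only [Pi.add_apply, ev_apply]
    split_ifs <;> simp_all

lemma js_match {p q r s : V} (h4 : Dist4 p q r s) (h : s(p, q) ∈ E) (h' : s(r, s) ∈ E) :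
    ev p + ev q + (ev r + ev s) ∈ JS3 E noZ := by
  obtain ⟨pq, pr, ps, qr, qs, rs⟩ := h4
  have hne : s(p, q) ≠ s(r, s) := by
    rw [Ne, Sym2.eq_iff]
    rintro (⟨h1, _⟩ | ⟨h1, _⟩)
    · exact pr h1
    · exact ps h1
  have hd := Unit_dv2 pq rs hne
  refine ⟨{s(p, q), s(r, s)}, ?_, M2.of_dv ?_ fun v => ?_, gd_two card_le_two, hd.symm⟩
  · intro e he
    rw [mem_insert, mem_singleton] at he
    rcases he with rfl | rfl
    · exact h
    · exact h'
  · intro e he
    rw [mem_insert, mem_singleton] at he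
    rcases he with rfl | rfl
    · simpa using pq
    · simpa using rs
  · rw [hd]
    simp only [Pi.add_apply, ev_apply]
    split_ifs <;> simp_all

lemma js_path3 {p r s q : V} (h4 : Dist4 p r s q) (h : s(p, r) ∈ E) (h' : s(r, s) ∈ E) (h'' : s(s, q) ∈ E) :
    ev p + (2 : ℤ) • ev r + (2 : ℤ) • ev s + ev q ∈ JS3 E noZ := by
  obtain ⟨pr, ps, pq, rs, rq, sq'⟩ := id h4
  have n1 : s(p, r) ≠ s(r, s) := by
    rw [Ne, Sym2.eq_iff]
    rintro (⟨h1, _⟩ | ⟨h1, _⟩)
    · exact pr h1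
    · exact ps h1
  have n2 : s(p, r) ≠ s(s, q) := by
    rw [Ne, Sym2.eq_iff]
    rintro (⟨h1, _⟩ | ⟨h1, _⟩)
    · exact ps h1
    · exact pq h1
  have n3 : s(r, s) ≠ s(s, q) := by
    rw [Ne, Sym2.eq_iff]
    rintro (⟨h1, _⟩ | ⟨h1, _⟩)
    · exact rs h1
    · exact rq h1
  have hd := Unit_dv3 pr rs sq' n1 n2 n3
  have e : ev p + ev r + (ev r + ev s) + (ev s + ev q) =
      (ev p + (2 : ℤ) • ev r + (2 : ℤ) • ev s + ev q : V → ℤ) := by
    rw [two_smul, two_smul]; abel
  refine ⟨{s(p, r), s(r, s), s(s, q)}, ?_, M2.of_dv ?_ fun v => ?_, gd_path h4, by rw [hd, e]⟩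
  · intro e he
    simp only [mem_insert, mem_singleton] at he
    rcases he with rfl | rfl | rfl
    · exact h
    · exact h'
    · exact h''
  · intro e he
    simp only [mem_insert, mem_singleton] at he
    rcases he with rfl | rfl | rfl
    · simpa using pr
    · simpa using rs
    · simpa using sq'
  · rw [hd]
    simp only [Pi.add_apply, ev_apply]
    split_ifs <;> simp_all

end

/-! ### `K_4` -/

/-- a vector with four coordinates -/
def q4 (a b c v : V) (x y z t : ℤ) : V → ℤ := x • ev a + y • ev b + z • ev c + t • ev v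

/-- the possible degrees in a linear forest in `K_4`: even sum, some odd number or all zero -/
def C4 (x y z t : Fin 3) : Prop :=
  (x.val + y.val + z.val + t.val) % 2 = 0 ∧
    ((x.val = 1 ∨ y.val = 1 ∨ z.val = 1 ∨ t.val = 1) ∨ (x = 0 ∧ y = 0 ∧ z = 0 ∧ t = 0))

instance (x y z t : Fin 3) : Decidable (C4 x y z t) := by unfold C4; infer_instance

/-- the same condition for natural numbers -/
def C4n (x y z t : ℕ) : Prop :=
  (x + y + z + t) % 2 = 0 ∧ ((x = 1 ∨ y = 1 ∨ z = 1 ∨ t = 1) ∨ (x = 0 ∧ y = 0 ∧ z = 0 ∧ t = 0))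

instance (x y z t : ℕ) : Decidable (C4n x y z t) := by unfold C4n; infer_instance

/-- the vectors of the units -/
def w1 (i : Fin 2) : ℕ × ℕ × ℕ × ℕ := if i = 0 then (0, 0, 0, 0) else (1, 0, 0, 1)
def w2 (i : Fin 4) : ℕ × ℕ × ℕ × ℕ :=
  if i = 0 then (0, 0, 0, 0) else if i = 1 then (1, 1, 0, 0) else if i = 2 then (0, 2, 0, 0) else (0, 1, 0, 1)
def w3 (i : Fin 5) : ℕ × ℕ × ℕ × ℕ :=
  if i = 0 then (0, 0, 0, 0) else if i = 1 then (1, 0, 1, 0) else if i = 2 then (0, 1, 1, 0)
  else if i = 3 then (0, 0, 2, 0) else (0, 0, 1, 1)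

lemma w_fwd : ∀ x y z t : Fin 3, C4 x y z t → ∃ (i : Fin 2) (j : Fin 4) (l : Fin 5),
    x.val = (w1 i).1 + (w2 j).1 + (w3 l).1 ∧ y.val = (w1 i).2.1 + (w2 j).2.1 + (w3 l).2.1 ∧
    z.val = (w1 i).2.2.1 + (w2 j).2.2.1 + (w3 l).2.2.1 ∧ t.val = (w1 i).2.2.2 + (w2 j).2.2.2 + (w3 l).2.2.2 := by
  decide +kernel

lemma w_bwd : ∀ (i : Fin 2) (j : Fin 4) (l : Fin 5), (w1 i).1 + (w2 j).1 + (w3 l).1 ≤ 2 →
    (w1 i).2.1 + (w2 j).2.1 + (w3 l).2.1 ≤ 2 → (w1 i).2.2.1 + (w2 j).2.2.1 + (w3 l).2.2.1 ≤ 2 →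
    (w1 i).2.2.2 + (w2 j).2.2.2 + (w3 l).2.2.2 ≤ 2 →
    C4n ((w1 i).1 + (w2 j).1 + (w3 l).1) ((w1 i).2.1 + (w2 j).2.1 + (w3 l).2.1)
      ((w1 i).2.2.1 + (w2 j).2.2.1 + (w3 l).2.2.1) ((w1 i).2.2.2 + (w2 j).2.2.2 + (w3 l).2.2.2) ∨
    ((w1 i).1 + (w2 j).1 + (w3 l).1 = 0 ∧ (w1 i).2.2.2 + (w2 j).2.2.2 + (w3 l).2.2.2 = 0 ∧
      (((w1 i).2.1 + (w2 j).2.1 + (w3 l).2.1 = 2 ∧ (w1 i).2.2.1 + (w2 j).2.2.1 + (w3 l).2.2.1 = 0) ∨
      ((w1 i).2.1 + (w2 j).2.1 + (w3 l).2.1 = 0 ∧ (w1 i).2.2.1 + (w2 j).2.2.1 + (w3 l).2.2.1 = 2) ∨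
      ((w1 i).2.1 + (w2 j).2.1 + (w3 l).2.1 = 2 ∧ (w1 i).2.2.1 + (w2 j).2.2.1 + (w3 l).2.2.1 = 2))) := by
  decide +kernel

/-- all admissible vectors are degree vectors of linear forests -/
lemma c4_JS {a b c v : V} (h4 : Dist4 a b c v) {x y z t : Fin 3} (h : C4 x y z t) :
    q4 a b c v x.val y.val z.val t.val ∈ JS3 (Clu.k4 {a, b, c, v}).edges noZ := by
  obtain ⟨ab, ac, av, bc, bv, cv⟩ := h4
  have mE : ∀ p q : V, p ∈ ({a, b, c, v} : Finset V) → q ∈ ({a, b, c, v} : Finset V) → p ≠ q →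
      s(p, q) ∈ (Clu.k4 {a, b, c, v}).edges := fun p q hp hq hpq => R4_mem_edges.2 ⟨hp, hq, hpq⟩
  have ma : a ∈ ({a, b, c, v} : Finset V) := by simp
  have mb : b ∈ ({a, b, c, v} : Finset V) := by simp
  have mc : c ∈ ({a, b, c, v} : Finset V) := by simp
  have mv : v ∈ ({a, b, c, v} : Finset V) := by simp
  fin_cases x <;> fin_cases y <;> fin_cases z <;> fin_cases t
  · have := (js_zero : _ ∈ JS3 (Clu.k4 {a, b, c, v}).edges noZ)
    convert this using 1
    simp only [q4]
    push_cast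
    module
  · exact absurd h (by decide)
  · exact absurd h (by decide)
  · exact absurd h (by decide)
  · have := (js_edge cv (mE c v mc mv cv) : _ ∈ JS3 (Clu.k4 {a, b, c, v}).edges noZ)
    convert this using 1
    simp only [q4]
    push_cast
    module
  · exact absurd h (by decide)
  · exact absurd h (by decide)
  · exact absurd h (by decide)
  · exact absurd h (by decide)
  · exact absurd h (by decide)
  · have := (js_edge bv (mE b v mb mv bv) : _ ∈ JS3 (Clu.k4 {a, b, c, v}).edges noZ)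
    convert this using 1
    simp only [q4]
    push_cast
    module
  · exact absurd h (by decide)
  · have := (js_edge bc (mE b c mb mc bc) : _ ∈ JS3 (Clu.k4 {a, b, c, v}).edges noZ)
    convert this using 1
    simp only [q4]
    push_cast
    module
  · exact absurd h (by decide)
  · have := (js_path2 bv cv.symm bc (mE b v mb mv bv) (mE v c mv mc cv.symm) : _ ∈ JS3 (Clu.k4 {a, b, c, v}).edges noZ)
    convert this using 1
    simp only [q4]
    push_cast
    module
  · exact absurd h (by decide)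
  · have := (js_path2 bc cv bv (mE b c mb mc bc) (mE c v mc mv cv) : _ ∈ JS3 (Clu.k4 {a, b, c, v}).edges noZ)
    convert this using 1
    simp only [q4]
    push_cast
    module
  · exact absurd h (by decide)
  · exact absurd h (by decide)
  · exact absurd h (by decide)
  · exact absurd h (by decide)
  · exact absurd h (by decide)
  · have := (js_path2 bc.symm bv cv (mE c b mc mb bc.symm) (mE b v mb mv bv) : _ ∈ JS3 (Clu.k4 {a, b, c, v}).edges noZ)
    convert this using 1
    simp only [q4]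
    push_cast
    module
  · exact absurd h (by decide)
  · exact absurd h (by decide)
  · exact absurd h (by decide)
  · exact absurd h (by decide)
  · exact absurd h (by decide)
  · have := (js_edge av (mE a v ma mv av) : _ ∈ JS3 (Clu.k4 {a, b, c, v}).edges noZ)
    convert this using 1
    simp only [q4]
    push_cast
    module
  · exact absurd h (by decide)
  · have := (js_edge ac (mE a c ma mc ac) : _ ∈ JS3 (Clu.k4 {a, b, c, v}).edges noZ)
    convert this using 1
    simp only [q4]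
    push_cast
    module
  · exact absurd h (by decide)
  · have := (js_path2 av cv.symm ac (mE a v ma mv av) (mE v c mv mc cv.symm) : _ ∈ JS3 (Clu.k4 {a, b, c, v}).edges noZ)
    convert this using 1
    simp only [q4]
    push_cast
    module
  · exact absurd h (by decide)
  · have := (js_path2 ac cv av (mE a c ma mc ac) (mE c v mc mv cv) : _ ∈ JS3 (Clu.k4 {a, b, c, v}).edges noZ)
    convert this using 1
    simp only [q4]
    push_cast
    module
  · exact absurd h (by decide)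
  · have := (js_edge ab (mE a b ma mb ab) : _ ∈ JS3 (Clu.k4 {a, b, c, v}).edges noZ)
    convert this using 1
    simp only [q4]
    push_cast
    module
  · exact absurd h (by decide)
  · have := (js_path2 av bv.symm ab (mE a v ma mv av) (mE v b mv mb bv.symm) : _ ∈ JS3 (Clu.k4 {a, b, c, v}).edges noZ)
    convert this using 1
    simp only [q4]
    push_cast
    module
  · exact absurd h (by decide)
  · have := (js_match (p := a) (q := b) (r := c) (s := v) ⟨ab, ac, av, bc, bv, cv⟩ (mE a b ma mb ab) (mE c v mc mv cv) : _ ∈ JS3 (Clu.k4 {a, b, c, v}).edges noZ)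
    convert this using 1
    simp only [q4]
    push_cast
    module
  · exact absurd h (by decide)
  · have := (js_path2 ac bc.symm ab (mE a c ma mc ac) (mE c b mc mb bc.symm) : _ ∈ JS3 (Clu.k4 {a, b, c, v}).edges noZ)
    convert this using 1
    simp only [q4]
    push_cast
    module
  · exact absurd h (by decide)
  · have := (js_path3 ⟨ac, av, ab, cv, bc.symm, bv.symm⟩ (mE a c ma mc ac) (mE c v mc mv cv) (mE v b mv mb bv.symm) : _ ∈ JS3 (Clu.k4 {a, b, c, v}).edges noZ)
    convert this using 1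
    simp only [q4]
    push_cast
    module
  · exact absurd h (by decide)
  · have := (js_path2 ab bv av (mE a b ma mb ab) (mE b v mb mv bv) : _ ∈ JS3 (Clu.k4 {a, b, c, v}).edges noZ)
    convert this using 1
    simp only [q4]
    push_cast
    module
  · exact absurd h (by decide)
  · have := (js_path2 ab bc ac (mE a b ma mb ab) (mE b c mb mc bc) : _ ∈ JS3 (Clu.k4 {a, b, c, v}).edges noZ)
    convert this using 1
    simp only [q4]
    push_cast
    module
  · exact absurd h (by decide)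
  · have := (js_path3 ⟨ab, av, ac, bv, bc, cv.symm⟩ (mE a b ma mb ab) (mE b v mb mv bv) (mE v c mv mc cv.symm) : _ ∈ JS3 (Clu.k4 {a, b, c, v}).edges noZ)
    convert this using 1
    simp only [q4]
    push_cast
    module
  · exact absurd h (by decide)
  · have := (js_path3 ⟨ab, ac, av, bc, bv, cv⟩ (mE a b ma mb ab) (mE b c mb mc bc) (mE c v mc mv cv) : _ ∈ JS3 (Clu.k4 {a, b, c, v}).edges noZ)
    convert this using 1
    simp only [q4]
    push_cast
    module
  · exact absurd h (by decide)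
  · exact absurd h (by decide)
  · exact absurd h (by decide)
  · exact absurd h (by decide)
  · exact absurd h (by decide)
  · have := (js_path2 ac.symm av cv (mE c a mc ma ac.symm) (mE a v ma mv av) : _ ∈ JS3 (Clu.k4 {a, b, c, v}).edges noZ)
    convert this using 1
    simp only [q4]
    push_cast
    module
  · exact absurd h (by decide)
  · exact absurd h (by decide)
  · exact absurd h (by decide)
  · exact absurd h (by decide)
  · exact absurd h (by decide)
  · have := (js_path2 ab.symm av bv (mE b a mb ma ab.symm) (mE a v ma mv av) : _ ∈ JS3 (Clu.k4 {a, b, c, v}).edges noZ)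
    convert this using 1
    simp only [q4]
    push_cast
    module
  · exact absurd h (by decide)
  · have := (js_path2 ab.symm ac bc (mE b a mb ma ab.symm) (mE a c ma mc ac) : _ ∈ JS3 (Clu.k4 {a, b, c, v}).edges noZ)
    convert this using 1
    simp only [q4]
    push_cast
    module
  · exact absurd h (by decide)
  · have := (js_path3 ⟨ab.symm, bv, bc, av, ac, cv.symm⟩ (mE b a mb ma ab.symm) (mE a v ma mv av) (mE v c mv mc cv.symm) : _ ∈ JS3 (Clu.k4 {a, b, c, v}).edges noZ)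
    convert this using 1
    simp only [q4]
    push_cast
    module
  · exact absurd h (by decide)
  · have := (js_path3 ⟨ab.symm, bc, bv, ac, av, cv⟩ (mE b a mb ma ab.symm) (mE a c ma mc ac) (mE c v mc mv cv) : _ ∈ JS3 (Clu.k4 {a, b, c, v}).edges noZ)
    convert this using 1
    simp only [q4]
    push_cast
    module
  · exact absurd h (by decide)
  · exact absurd h (by decide)
  · exact absurd h (by decide)
  · exact absurd h (by decide)
  · exact absurd h (by decide)
  · have := (js_path3 ⟨ac.symm, bc.symm, cv, ab, av, bv⟩ (mE c a mc ma ac.symm) (mE a b ma mb ab) (mE b v mb mv bv) : _ ∈ JS3 (Clu.k4 {a, b, c, v}).edges noZ)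
    convert this using 1
    simp only [q4]
    push_cast
    module
  · exact absurd h (by decide)
  · exact absurd h (by decide)
  · exact absurd h (by decide)
  · exact absurd h (by decide)

/-- the handshake lemma in `K_4` -/
lemma k4_sum {X : Finset V} {z : Finset (Sym2 V)} (hz : z ⊆ (Clu.k4 X).edges) : ∑ u ∈ X, dg z u = 2 * #z := by
  have h := Finset.sum_card_bipartiteAbove_eq_sum_card_bipartiteBelow (s := X) (t := z)
    (r := fun (u : V) (e : Sym2 V) => u ∈ e)
  have h1 : ∑ u ∈ X, dg z u = ∑ a ∈ X, #(bipartiteAbove (fun (u : V) (e : Sym2 V) => u ∈ e) z a) := rfl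
  rw [h1, h, mul_comm, ← smul_eq_mul, ← sum_const]
  refine sum_congr rfl fun e he => ?_
  induction e using Sym2.ind with
  | _ p q =>
    obtain ⟨hp, hq, hpq⟩ := R4_mem_edges.1 (hz he)
    have : bipartiteBelow (fun (u : V) (e : Sym2 V) => u ∈ e) X s(p, q) = {p, q} := by
      ext u
      simp only [bipartiteBelow, mem_filter, Sym2.mem_iff, mem_insert, mem_singleton]
      constructor
      · rintro ⟨_, h⟩
        exact h
      · rintro (rfl | rfl)
        · exact ⟨hp, Or.inl rfl⟩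
        · exact ⟨hq, Or.inr rfl⟩
    rw [this, card_pair hpq]

/-- a nonempty 2-matching in `K_4` with even degrees contains a short cycle -/
lemma even_sh {X : Finset V} (hX : #X = 4) {z : Finset (Sym2 V)} (hz : z ⊆ (Clu.k4 X).edges) (hM : M2 z)
    (hne : z.Nonempty) (hev : ∀ u ∈ X, dg z u = 0 ∨ dg z u = 2) : ¬ Gd noZ z := by
  intro hg
  have hX' : ∀ {p q : V}, s(p, q) ∈ z → p ∈ X ∧ q ∈ X ∧ p ≠ q := fun h => R4_mem_edges.1 (hz h)
  -- a second neighbour
  have sec : ∀ {p q : V}, s(p, q) ∈ z → ∃ r, r ≠ q ∧ s(p, r) ∈ z := by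
    intro p q h
    have h1 : dg z p = 2 := by
      have := dg_pos h
      rcases hev p (hX' h).1 with h2 | h2
      · omega
      · exact h2
    by_contra hcon
    push Not at hcon
    have h2 : z.filter (fun e => p ∈ e) ⊆ {s(p, q)} := by
      intro e he
      obtain ⟨he1, he2⟩ := mem_filter.1 he
      obtain ⟨r, rfl⟩ := he2
      by_cases hr : r = q
      · rw [hr]; exact mem_singleton_self _
      · exact absurd he1 (hcon r hr)
    have h3 := card_le_card h2
    rw [card_singleton] at h3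
    unfold dg at h1
    omega
  obtain ⟨e, he⟩ := hne
  induction e using Sym2.ind with
  | _ u v =>
    obtain ⟨s, hsv, hs⟩ := sec he
    obtain ⟨t, htu, ht⟩ := sec (msw he)
    have huv := (hX' he).2.2
    have hus := (hX' hs).2.2
    have hvt := (hX' ht).2.2
    by_cases hst : s = t
    · subst hst
      exact hg (tri u v s) (Or.inl ⟨u, v, s, ⟨huv, hus, hvt⟩, rfl⟩) (tri_sub.2 ⟨he, ht, msw hs⟩)
    · -- `s` and `t` are adjacent
      obtain ⟨r, hru, hr⟩ := sec (msw hs)
      have hrX := (hX' hr).2.1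
      have hsr := (hX' hr).2.2
      have hcov : r = u ∨ r = v ∨ r = s ∨ r = t := by
        by_contra hcon
        push Not at hcon
        have h5 : ({r, u, v, s, t} : Finset V) ⊆ X := by
          intro w hw
          simp only [mem_insert, mem_singleton] at hw
          rcases hw with rfl | rfl | rfl | rfl | rfl
          · exact hrX
          · exact (hX' he).1
          · exact (hX' he).2.1
          · exact (hX' hs).2.1
          · exact (hX' ht).2.1
        have h6 := card_le_card h5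
        rw [card_insert_of_notMem (by simp [hcon.1, hcon.2.1, hcon.2.2.1, hcon.2.2.2]),
          card_insert_of_notMem (by simp [huv, hus, htu.symm]),
          card_insert_of_notMem (by simp [Ne.symm hsv, hvt]), card_insert_of_notMem (by simp [hst]),
          card_singleton, hX] at h6
        omega
      rcases hcov with h | h | h | h
      · exact hru h
      · subst h
        -- `s` is a neighbour of `v`
        rcases nbr_two (hM.le r) (msw he) ht (Ne.symm htu) (msw hr) with h | h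
        · exact hus h.symm
        · exact hst h
      · exact hsr h.symm
      · subst h
        exact hg (TFC.sq u v r s) (Or.inr ⟨u, v, r, s, ⟨huv, htu.symm, hus, hvt, Ne.symm hsv, Ne.symm hst⟩, rfl⟩)
          (sq_sub.2 ⟨he, ht, msw hr, msw hs⟩)

/-- the degree vectors of linear forests in `K_4` are admissible -/
lemma JS_c4 {a b c v : V} (h4 : Dist4 a b c v) {k : V → ℤ} (hk : k ∈ JS3 (Clu.k4 {a, b, c, v}).edges noZ) :
    ∃ x y z t : Fin 3, C4 x y z t ∧ k = q4 a b c v x.val y.val z.val t.val := by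
  obtain ⟨ab, ac, av, bc, bv, cv⟩ := id h4
  obtain ⟨z, hz, hM, hg, rfl⟩ := hk
  have hX : #({a, b, c, v} : Finset V) = 4 := by
    rw [card_insert_of_notMem (by simp [ab, ac, av]), card_insert_of_notMem (by simp [bc, bv]),
      card_insert_of_notMem (by simp [cv]), card_singleton]
  have hdv : dv z = q4 a b c v (dg z a) (dg z b) (dg z c) (dg z v) := by
    funext u
    simp only [q4, Pi.add_apply, Pi.smul_apply, ev_apply, smul_eq_mul, dv_apply]
    by_cases ha : u = a
    · subst ha; simp [ab, ac, av]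
    by_cases hb : u = b
    · subst hb; simp [Ne.symm ab, bc, bv]
    by_cases hc : u = c
    · subst hc; simp [Ne.symm ac, Ne.symm bc, cv]
    by_cases hv : u = v
    · subst hv; simp [Ne.symm av, Ne.symm bv, Ne.symm cv]
    rw [if_neg ha, if_neg hb, if_neg hc, if_neg hv]
    have : dg z u = 0 := by
      rw [dg, card_eq_zero, filter_eq_empty_iff]
      intro e he hue
      obtain ⟨w, rfl⟩ := hue
      have := (R4_mem_edges.1 (hz he)).1
      simp [ha, hb, hc, hv] at this
    rw [this]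
    simp
  have hsum : dg z a + dg z b + dg z c + dg z v = 2 * #z := by
    have h1 := k4_sum hz
    rw [sum_insert (by simp [ab, ac, av]), sum_insert (by simp [bc, bv]), sum_insert (by simp [cv]),
      sum_singleton] at h1
    omega
  have la := hM.le a
  have lb := hM.le b
  have lc := hM.le c
  have lv := hM.le v
  refine ⟨⟨dg z a, by omega⟩, ⟨dg z b, by omega⟩, ⟨dg z c, by omega⟩, ⟨dg z v, by omega⟩, ⟨?_, ?_⟩, hdv⟩
  · show (dg z a + dg z b + dg z c + dg z v) % 2 = 0
    omega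
  · by_cases hne : z.Nonempty
    · left
      by_contra hcon
      push Not at hcon
      simp only at hcon
      refine even_sh hX hz hM hne ?_ hg
      intro u hu
      simp only [mem_insert, mem_singleton] at hu
      rcases hu with rfl | rfl | rfl | rfl <;> omega
    · right
      rw [not_nonempty_iff_eq_empty] at hne
      subst hne
      have : ∀ u : V, dg (∅ : Finset (Sym2 V)) u = 0 := fun u => by simp [dg]
      simp only [this]
      exact ⟨rfl, rfl, rfl, rfl⟩

/-- the units of `R(v)` -/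
def ur (a b c v : V) : List (Finset V × Finset V) := [({a}, {v}), ({b}, {a, b, v}), ({c}, {a, b, c, v})]

lemma mem_ur {a b c v : V} (i : Fin 2) (j : Fin 4) (l : Fin 5) :
    q4 a b c v ((w1 i).1 + (w2 j).1 + (w3 l).1 : ℕ) ((w1 i).2.1 + (w2 j).2.1 + (w3 l).2.1 : ℕ)
      ((w1 i).2.2.1 + (w2 j).2.2.1 + (w3 l).2.2.1 : ℕ) ((w1 i).2.2.2 + (w2 j).2.2.2 + (w3 l).2.2.2 : ℕ) ∈
      sumU (ur a b c v) := by
  have e : q4 a b c v ((w1 i).1 + (w2 j).1 + (w3 l).1 : ℕ) ((w1 i).2.1 + (w2 j).2.1 + (w3 l).2.1 : ℕ)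
      ((w1 i).2.2.1 + (w2 j).2.2.1 + (w3 l).2.2.1 : ℕ) ((w1 i).2.2.2 + (w2 j).2.2.2 + (w3 l).2.2.2 : ℕ) =
      q4 a b c v (w1 i).1 (w1 i).2.1 (w1 i).2.2.1 (w1 i).2.2.2 +
      (q4 a b c v (w2 j).1 (w2 j).2.1 (w2 j).2.2.1 (w2 j).2.2.2 +
      (q4 a b c v (w3 l).1 (w3 l).2.1 (w3 l).2.2.1 (w3 l).2.2.2 + 0)) := by
    simp only [q4]
    push_cast
    module
  rw [e, ur, sumU, sumU, sumU, sumU]
  refine Set.add_mem_add ?_ (Set.add_mem_add ?_ (Set.add_mem_add ?_ (Set.mem_singleton _)))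
  · fin_cases i
    · left
      simp [q4, w1]
    · right
      refine ⟨a, by simp, v, by simp, ?_⟩
      simp [q4, w1]
  · fin_cases j
    · left
      simp [q4, w2]
    · right
      refine ⟨b, by simp, a, by simp, ?_⟩
      simp [q4, w2]
      abel
    · right
      refine ⟨b, by simp, b, by simp, ?_⟩
      simp [q4, w2, two_smul]
    · right
      refine ⟨b, by simp, v, by simp, ?_⟩
      simp [q4, w2]
  · fin_cases l
    · left
      simp [q4, w3]
    · right
      refine ⟨c, by simp, a, by simp, ?_⟩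
      simp [q4, w3]
      abel
    · right
      refine ⟨c, by simp, b, by simp, ?_⟩
      simp [q4, w3]
      abel
    · right
      refine ⟨c, by simp, c, by simp, ?_⟩
      simp [q4, w3, two_smul]
    · right
      refine ⟨c, by simp, v, by simp, ?_⟩
      simp [q4, w3]

lemma of_mem_ur {a b c v : V} {k : V → ℤ} (hk : k ∈ sumU (ur a b c v)) :
    ∃ (i : Fin 2) (j : Fin 4) (l : Fin 5),
    k = q4 a b c v ((w1 i).1 + (w2 j).1 + (w3 l).1 : ℕ) ((w1 i).2.1 + (w2 j).2.1 + (w3 l).2.1 : ℕ)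
      ((w1 i).2.2.1 + (w2 j).2.2.1 + (w3 l).2.2.1 : ℕ) ((w1 i).2.2.2 + (w2 j).2.2.2 + (w3 l).2.2.2 : ℕ) := by
  rw [ur, sumU, sumU, sumU, sumU] at hk
  obtain ⟨u1, hu1, r1, hr1, rfl⟩ := Set.mem_add.mp hk
  obtain ⟨u2, hu2, r2, hr2, rfl⟩ := Set.mem_add.mp hr1
  obtain ⟨u3, hu3, r3, hr3, rfl⟩ := Set.mem_add.mp hr2
  rw [Set.mem_singleton_iff] at hr3
  subst hr3
  have h1 : ∃ i : Fin 2, u1 = q4 a b c v (w1 i).1 (w1 i).2.1 (w1 i).2.2.1 (w1 i).2.2.2 := by
    rcases hu1 with rfl | ⟨s, hs, t, ht, rfl⟩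
    · exact ⟨0, by simp [q4, w1]⟩
    · rw [mem_singleton] at hs ht
      subst hs ht
      exact ⟨1, by simp [q4, w1]⟩
  have h2 : ∃ j : Fin 4, u2 = q4 a b c v (w2 j).1 (w2 j).2.1 (w2 j).2.2.1 (w2 j).2.2.2 := by
    rcases hu2 with rfl | ⟨s, hs, t, ht, rfl⟩
    · exact ⟨0, by simp [q4, w2]⟩
    · rw [mem_singleton] at hs
      subst hs
      simp only [mem_insert, mem_singleton] at ht
      rcases ht with rfl | rfl | rfl
      · exact ⟨1, by simp [q4, w2]; abel⟩
      · exact ⟨2, by simp [q4, w2, two_smul]⟩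
      · exact ⟨3, by simp [q4, w2]⟩
  have h3 : ∃ l : Fin 5, u3 = q4 a b c v (w3 l).1 (w3 l).2.1 (w3 l).2.2.1 (w3 l).2.2.2 := by
    rcases hu3 with rfl | ⟨s, hs, t, ht, rfl⟩
    · exact ⟨0, by simp [q4, w3]⟩
    · rw [mem_singleton] at hs
      subst hs
      simp only [mem_insert, mem_singleton] at ht
      rcases ht with rfl | rfl | rfl | rfl
      · exact ⟨1, by simp [q4, w3]; abel⟩
      · exact ⟨2, by simp [q4, w3]; abel⟩
      · exact ⟨3, by simp [q4, w3, two_smul]⟩
      · exact ⟨4, by simp [q4, w3]⟩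
  obtain ⟨i, rfl⟩ := h1
  obtain ⟨j, rfl⟩ := h2
  obtain ⟨l, rfl⟩ := h3
  refine ⟨i, j, l, ?_⟩
  simp only [q4]
  push_cast
  module

lemma q4_a {a b c v : V} (h4 : Dist4 a b c v) (x y z t : ℤ) : q4 a b c v x y z t a = x := by
  obtain ⟨ab, ac, av, bc, bv, cv⟩ := h4
  simp [q4, ev_apply, ab, ac, av]

lemma q4_b {a b c v : V} (h4 : Dist4 a b c v) (x y z t : ℤ) : q4 a b c v x y z t b = y := by
  obtain ⟨ab, ac, av, bc, bv, cv⟩ := h4
  simp [q4, ev_apply, ab.symm, bc, bv]

lemma q4_c {a b c v : V} (h4 : Dist4 a b c v) (x y z t : ℤ) : q4 a b c v x y z t c = z := by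
  obtain ⟨ab, ac, av, bc, bv, cv⟩ := h4
  simp [q4, ev_apply, ac.symm, bc.symm, cv]

lemma q4_v {a b c v : V} (h4 : Dist4 a b c v) (x y z t : ℤ) : q4 a b c v x y z t v = t := by
  obtain ⟨ab, ac, av, bc, bv, cv⟩ := h4
  simp [q4, ev_apply, av.symm, bv.symm, cv.symm]

/-- **the relaxation `R(v)` of `K_4`, first part** -/
theorem JS3_subset_ur {a b c v : V} (h4 : Dist4 a b c v) :
    JS3 (Clu3.k4 {a, b, c, v}).edges noZ ⊆ sumU (ur a b c v) := by
  intro k hk
  obtain ⟨x, y, z, t, hC, rfl⟩ := JS_c4 h4 hk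
  obtain ⟨i, j, l, h1, h2, h3, h5⟩ := w_fwd x y z t hC
  have := mem_ur (a := a) (b := b) (c := c) (v := v) i j l
  rw [← h1, ← h2, ← h3, ← h5] at this
  exact this

/-- **the relaxation `R(v)` of `K_4`, second part** -/
theorem ur_le {a b c v : V} (h4 : Dist4 a b c v) {k : V → ℤ} (hk : k ∈ sumU (ur a b c v)) (h2 : ∀ u, k u ≤ 2) :
    k ∈ JS3 (Clu3.k4 {a, b, c, v}).edges noZ ∨ k = (2 : ℤ) • ev b ∨ k = (2 : ℤ) • ev c ∨
      k = (2 : ℤ) • ev b + (2 : ℤ) • ev c := by
  obtain ⟨i, j, l, rfl⟩ := of_mem_ur hk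
  have ka := h2 a
  have kb := h2 b
  have kc := h2 c
  have kv := h2 v
  rw [q4_a h4] at ka
  rw [q4_b h4] at kb
  rw [q4_c h4] at kc
  rw [q4_v h4] at kv
  have ka' : (w1 i).1 + (w2 j).1 + (w3 l).1 ≤ 2 := by exact_mod_cast ka
  have kb' : (w1 i).2.1 + (w2 j).2.1 + (w3 l).2.1 ≤ 2 := by exact_mod_cast kb
  have kc' : (w1 i).2.2.1 + (w2 j).2.2.1 + (w3 l).2.2.1 ≤ 2 := by exact_mod_cast kc
  have kv' : (w1 i).2.2.2 + (w2 j).2.2.2 + (w3 l).2.2.2 ≤ 2 := by exact_mod_cast kv
  have hb := w_bwd i j l ka' kb' kc' kv'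
  generalize (w1 i).1 + (w2 j).1 + (w3 l).1 = x at *
  generalize (w1 i).2.1 + (w2 j).2.1 + (w3 l).2.1 = y at *
  generalize (w1 i).2.2.1 + (w2 j).2.2.1 + (w3 l).2.2.1 = z at *
  generalize (w1 i).2.2.2 + (w2 j).2.2.2 + (w3 l).2.2.2 = t at *
  rcases hb with h | ⟨rfl, rfl, ⟨rfl, rfl⟩ | ⟨rfl, rfl⟩ | ⟨rfl, rfl⟩⟩
  · left
    refine c4_JS (x := ⟨x, by omega⟩) (y := ⟨y, by omega⟩) (z := ⟨z, by omega⟩) (t := ⟨t, by omega⟩) h4 ⟨h.1, ?_⟩
    rcases h.2 with h5 | ⟨rfl, rfl, rfl, rfl⟩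
    · exact Or.inl h5
    · exact Or.inr ⟨rfl, rfl, rfl, rfl⟩
  · right; left
    simp [q4]
  · right; right; left
    simp [q4]
  · right; right; right
    simp [q4]

end Pool.Agent.P34

end

section -- file P34/Pc3

/-!
# Pieces and clusters as data (triangles and squares)

A piece is `(z, E, X)`: its vectors are the members of `X` and (if `z`) the degree vectors of the 2-matchings without short
cycle inside `E`. `pmem3` is a polynomial time membership test (for pieces where these have at most four edges). Clusters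
are `(kind, x, y, L)`: kind 0 is the complete graph on the four vertices of `L`, kind 1 is `K2(x,y;L)`, kind 2 is
`K11(x,y;L)`, i.e. `K2(x,y;L)` and the edge `xy`.
-/

set_option autoImplicit false

namespace Pool.Agent.P34

open Finset Pool.Agent.TFC Pool.Agent.Lib.helper60 Pool.Agent.PF4

/-- the vectors of the piece -/
def pcS3 (p : Pc) : Set (ℕ → ℤ) :=
  {x | (∃ k ∈ p.2.2, x = kvec k) ∨ (p.1 = true ∧ x ∈ JS3 (fs p.2.1) noZ)}

/-- the triangle `q` is contained in the list -/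
def trIn (S : List Ed) (q : ℕ × ℕ × ℕ) : Bool := hasE S (q.1, q.2.1) && (hasE S (q.2.1, q.2.2) && hasE S (q.2.2, q.1))

/-- no triangle -/
def tfB (S : List Ed) : Bool := (prd (ends2 S) (prd (ends2 S) (ends2 S))).all fun q => !trIn S q

/-- 2-matching without triangles and squares -/
def okS3 (S : List Ed) : Bool := okS S && tfB S

/-- membership test -/
def pmem3 (p : Pc) (k : List ℕ) : Bool :=
  (p.2.2.any fun l => eqK k l) || (p.1 && ((subs p.2.1 4).any fun S => okS3 S && eqK k (ends2 S)))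

/-- the 2-matchings without short cycles in the piece have at most four edges -/
def Card43 (p : Pc) : Prop := p.1 = true → ∀ z ⊆ fs p.2.1, M2 z → Gd noZ z → #z ≤ 4

/-- no short cycle = no square and no triangle -/
theorem gd_noZ_iff {z : Finset (Sym2 ℕ)} (hn : NoLoop z) : Gd noZ z ↔ Good none4 z ∧
    ∀ a b c, s(a, b) ∈ z → s(b, c) ∈ z → s(c, a) ∈ z → False := by
  constructor
  · intro h
    refine ⟨?_, ?_⟩
    · intro a b c d hs
      exact h (TFC.sq a b c d) (Or.inr ⟨a, b, c, d, hs.dist4 hn, rfl⟩) (Unit_sq_sub hs)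
    · intro a b c h1 h2 h3
      exact h (tri a b c) (Or.inl ⟨a, b, c, ⟨hn.ne h1, (hn.ne h3).symm, hn.ne h2⟩, rfl⟩) (tri_sub.2 ⟨h1, h2, h3⟩)
  · rintro ⟨h1, h2⟩ Z (⟨a, b, c, h3, rfl⟩ | ⟨a, b, c, d, h4, rfl⟩) hs
    · obtain ⟨e1, e2, e3⟩ := tri_sub.1 hs
      exact h2 a b c e1 e2 e3
    · obtain ⟨e1, e2, e3, e4⟩ := sq_sub.1 hs
      exact h1 a b c d ⟨h4.2.1, h4.2.2.2.2.1, e1, e2, e3, e4⟩

theorem tfB_iff {S : List Ed} : tfB S = true ↔ ∀ a b c, s(a, b) ∈ fs S → s(b, c) ∈ fs S → s(c, a) ∈ fs S → False := by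
  unfold tfB
  rw [List.all_eq_true]
  constructor
  · intro h a b c h1 h2 h3
    have hm : (a, b, c) ∈ prd (ends2 S) (prd (ends2 S) (ends2 S)) :=
      mem_prd.2 ⟨mem_ends2.2 ⟨_, h1, Sym2.mem_mk_left _ _⟩, mem_prd.2 ⟨mem_ends2.2 ⟨_, h1, Sym2.mem_mk_right _ _⟩,
        mem_ends2.2 ⟨_, h2, Sym2.mem_mk_right _ _⟩⟩⟩
    have h4 := h _ hm
    have h5 : trIn S (a, b, c) = true := by
      simp only [trIn, Bool.and_eq_true, hasE_iff, fe]
      exact ⟨h1, h2, h3⟩
    rw [h5] at h4
    cases h4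
  · rintro h ⟨a, b, c⟩ _
    rw [Bool.not_eq_true', ← Bool.not_eq_true]
    intro h3
    simp only [trIn, Bool.and_eq_true, hasE_iff, fe] at h3
    exact h a b c h3.1 h3.2.1 h3.2.2

theorem okS3_iff (S : List Ed) : okS3 S = true ↔ WF S ∧ M2 (fs S) ∧ Gd noZ (fs S) := by
  unfold okS3
  rw [Bool.and_eq_true, okS_iff, tfB_iff]
  constructor
  · rintro ⟨⟨h1, h2, h3⟩, h4⟩
    exact ⟨h1, h2, (gd_noZ_iff h2.nl).2 ⟨h3, h4⟩⟩
  · rintro ⟨h1, h2, h3⟩
    obtain ⟨h4, h5⟩ := (gd_noZ_iff h2.nl).1 h3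
    exact ⟨⟨h1, h2, h4⟩, h5⟩

theorem pmem3_sound {p : Pc} {k : List ℕ} (h : pmem3 p k = true) : kvec k ∈ pcS3 p := by
  unfold pmem3 at h
  rw [Bool.or_eq_true, Bool.and_eq_true, List.any_eq_true, List.any_eq_true] at h
  rcases h with ⟨l, hl, h1⟩ | ⟨h0, S, hS, h1⟩
  · exact Or.inl ⟨l, hl, (eqK_iff _ _).1 h1⟩
  · rw [Bool.and_eq_true, okS3_iff] at h1
    refine Or.inr ⟨h0, fs S, ?_, h1.1.2.1, h1.1.2.2, ?_⟩
    · intro x hx
      obtain ⟨e, he, rfl⟩ := mem_fs.1 hx
      exact fe_mem_fs ((mem_subs.1 hS).2 e he)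
    · rw [(eqK_iff _ _).1 h1.2, kvec_ends2 h1.1.1 h1.1.2.1.nl]

theorem pmem3_complete {p : Pc} (hc : Card43 p) {k : List ℕ} (h : kvec k ∈ pcS3 p) : pmem3 p k = true := by
  unfold pmem3
  rw [Bool.or_eq_true, Bool.and_eq_true, List.any_eq_true, List.any_eq_true]
  rcases h with ⟨l, hl, h1⟩ | ⟨h0, z, hz, h1, h2, h3⟩
  · exact Or.inl ⟨l, hl, (eqK_iff _ _).2 h1⟩
  · obtain ⟨S, k1, k2, k3, k4⟩ := exists_rep z hz
    refine Or.inr ⟨h0, S, mem_subs.2 ⟨by rw [k4]; exact hc h0 z hz h1 h2, k1⟩, ?_⟩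
    rw [Bool.and_eq_true, okS3_iff, eqK_iff, h3, ← k3]
    rw [← k3] at h1 h2
    exact ⟨⟨k2, h1, h2⟩, (kvec_ends2 k2 h1.nl).symm⟩

theorem pmem3_iff {p : Pc} (hc : Card43 p) (k : List ℕ) : pmem3 p k = true ↔ kvec k ∈ pcS3 p :=
  ⟨pmem3_sound, pmem3_complete hc⟩

/-! ### clusters -/

/-- cluster: `(kind, x, y, L)`; kind 0: complete graph on `L`, kind 1: `K2(x,y;L)`, kind 2: `K11(x,y;L)` -/
abbrev Cl3 : Type := ℕ × ℕ × ℕ × List ℕ

/-- the edge of the centres -/
def hubE (c : Cl3) : List Ed := bif decide (c.1 = 1) then [] else [(c.2.1, c.2.2.1)]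

/-- the edges of the cluster -/
def clE3 (c : Cl3) : List Ed :=
  bif decide (c.1 = 0) then prs c.2.2.2
  else hubE c ++ ((c.2.2.2.map fun l => (c.2.1, l)) ++ (c.2.2.2.map fun l => (c.2.2.1, l)))

/-- non-degenerate cluster -/
structure Cl3OK (c : Cl3) : Prop where
  kd : c.1 ≤ 2
  nd : c.2.2.2.Nodup
  k2 : c.1 ≠ 0 → c.2.1 ≠ c.2.2.1 ∧ c.2.1 ∉ c.2.2.2 ∧ c.2.2.1 ∉ c.2.2.2 ∧ 1 ≤ c.2.2.2.length
  k2' : c.1 = 1 → 2 ≤ c.2.2.2.length
  k4 : c.1 = 0 → c.2.2.2.length = 4

/-- the cluster -/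
def cluF3 (c : Cl3) : Clu3 ℕ :=
  if c.1 = 0 then .k4 c.2.2.2.toFinset else if c.1 = 1 then .k2 c.2.1 c.2.2.1 c.2.2.2.toFinset
  else .k11 c.2.1 c.2.2.1 c.2.2.2.toFinset

theorem fs_prs (L : List ℕ) : fs (prs L) = (Clu.k4 L.toFinset).edges := by
  have := fs_clE (false, 0, 0, L)
  simpa [clE, cluF] using this

theorem fs_stars (x y : ℕ) (L : List ℕ) :
    fs ((L.map fun l => (x, l)) ++ (L.map fun l => (y, l))) = (Clu.k2 x y L.toFinset).edges := by
  have := fs_clE (true, x, y, L)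
  simpa [clE, cluF] using this

theorem fs_clE3 (c : Cl3) : fs (clE3 c) = (cluF3 c).edges := by
  obtain ⟨b, x, y, L⟩ := c
  unfold clE3 cluF3 hubE
  by_cases h0 : b = 0
  · simp only [h0, decide_true, cond_true, if_true]
    exact fs_prs L
  · by_cases h1 : b = 1
    · simp only [h1, one_ne_zero, decide_false, decide_true, cond_true, cond_false, if_true, if_false,
        List.nil_append]
      exact fs_stars x y L
    · simp only [h0, h1, decide_false, cond_false, if_false]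
      rw [Clu3.edges, List.singleton_append, fs_cons, fs_stars]
      rfl

theorem wf_clE3 {c : Cl3} (h : Cl3OK c) : WF (clE3 c) := by
  obtain ⟨b, x, y, L⟩ := c
  have hn := h.nd
  simp only at hn
  unfold clE3 hubE
  by_cases h0 : b = 0
  · simp only [h0, decide_true, cond_true]
    have h4 := h.k4 h0
    have := wf_clE (c := (false, x, y, L)) ⟨hn, (fun h => by cases h), fun _ => h4⟩
    simpa [clE] using this
  · obtain ⟨h1, h2, h3, h4⟩ := h.k2 h0
    simp only at h1 h2 h3 h4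
    have key : WF ((L.map fun l => (x, l)) ++ (L.map fun l => (y, l))) := by
      simp only [WF, List.map_append, List.map_map]
      rw [List.nodup_append']
      refine ⟨hn.map_on ?_, hn.map_on ?_, ?_⟩
      · intro a ha b hb hab
        simp only [Function.comp, fe, Sym2.eq_iff] at hab
        rcases hab with ⟨_, h⟩ | ⟨h, h'⟩
        · exact h
        · rw [h', h]
      · intro a ha b hb hab
        simp only [Function.comp, fe, Sym2.eq_iff] at hab
        rcases hab with ⟨_, h⟩ | ⟨h, h'⟩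
        · exact h
        · rw [h', h]
      · intro e he he'
        obtain ⟨a, ha, rfl⟩ := List.mem_map.1 he
        obtain ⟨b, hb, hab⟩ := List.mem_map.1 he'
        simp only [Function.comp, fe, Sym2.eq_iff] at hab
        rcases hab with ⟨h, _⟩ | ⟨h, h'⟩
        · exact h1 h.symm
        · exact h3 (by rw [h]; exact ha)
    by_cases h5 : b = 1
    · simp only [h5, one_ne_zero, decide_false, decide_true, cond_true, cond_false, List.nil_append]
      exact key
    · simp only [h0, h5, decide_false, cond_false]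
      rw [List.singleton_append]
      show ((_ :: _ : List Ed).map fe).Nodup
      rw [List.map_cons, List.nodup_cons]
      refine ⟨?_, key⟩
      intro hm
      have hm' : fe (x, y) ∈ fs ((L.map fun l => (x, l)) ++ (L.map fun l => (y, l))) := by
        rw [fs, List.mem_toFinset]; exact hm
      rw [fs_stars] at hm'
      rw [fe, memV_k2] at hm'
      rcases hm' with ⟨_, h⟩ | ⟨_, h⟩
      · exact h3 (by simpa using h)
      · exact h2 (by simpa using h)

/-- the exact piece of a cluster -/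
def exP3 (c : Cl3) : Pc := (true, clE3 c, [])

/-- the other centre -/
def oth (c : Cl3) (w : ℕ) : ℕ := if w = c.2.1 then c.2.2.1 else c.2.1

/-- the leaves other than `a` -/
def ltf (a : ℕ) (L : List ℕ) : List ℕ := L.filter fun l => !decide (l = a)

/-- the additional vectors of the relaxed piece. Choice for `K4`: `(_, v)`; for `K2`: `(w, c)`; for `K11`: `(w, w)` is
`R_b(w)`, `(w, c)` with `c ≠ w` is `R_c(c)` with the special centre `w` -/
def digs3 (c : Cl3) (ch : ℕ × ℕ) : List (List ℕ) :=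
  bif decide (c.1 = 0) then
    (let b := (ltf ch.2 c.2.2.2).tail.headD 0
     let d := (ltf ch.2 c.2.2.2).tail.tail.headD 0
     [[b, b], [d, d], [b, b, d, d]])
  else bif decide (c.1 = 1) then (ltf ch.2 c.2.2.2).map fun l => [ch.1, ch.1, l, l]
  else bif decide (ch.2 = ch.1) then c.2.2.2.map fun l => [ch.1, ch.1, l, l]
  else ((ltf ch.2 c.2.2.2).map fun l => [ch.1, ch.1, l, l]) ++ ([ch.1, ch.1, oth c ch.1, oth c ch.1] ::
    ((ltf ch.2 c.2.2.2).map fun l => [ch.1, ch.1, oth c ch.1, oth c ch.1, l, l]))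

/-- the relaxed piece of a cluster -/
def rxP3 (c : Cl3) (ch : ℕ × ℕ) : Pc := (true, clE3 c, digs3 c ch)

/-- the units of the relaxed piece -/
def rxU3 (c : Cl3) (ch : ℕ × ℕ) : List (List ℕ × List ℕ) :=
  bif decide (c.1 = 0) then
    (let a := (ltf ch.2 c.2.2.2).headD 0
     let b := (ltf ch.2 c.2.2.2).tail.headD 0
     let d := (ltf ch.2 c.2.2.2).tail.tail.headD 0
     [([a], [ch.2]), ([b], [a, b, ch.2]), ([d], [a, b, d, ch.2])])
  else bif decide (c.1 = 1) then ((ltf ch.2 c.2.2.2).map fun l => ([l], [c.2.1, c.2.2.1])) ++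
    [([ch.1], c.2.2.2), ([oth c ch.1], [ch.2])]
  else bif decide (ch.2 = ch.1) then (c.2.2.2.map fun l => ([l], [c.2.1, c.2.2.1])) ++
    [([ch.1], oth c ch.1 :: c.2.2.2)]
  else ((ltf ch.2 c.2.2.2).map fun l => ([l], [c.2.1, c.2.2.1])) ++
    [([ch.1], oth c ch.1 :: c.2.2.2), ([oth c ch.1], [ch.2, ch.1])]

/-- a legal choice -/
structure Ch3OK (c : Cl3) (ch : ℕ × ℕ) : Prop where
  k4 : c.1 = 0 → ch.2 ∈ c.2.2.2
  w : c.1 ≠ 0 → ch.1 = c.2.1 ∨ ch.1 = c.2.2.1
  k2 : c.1 = 1 → ch.2 ∈ c.2.2.2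
  k11 : c.1 = 2 → ch.2 = ch.1 ∨ ch.2 ∈ c.2.2.2

/-! ### polynomial time -/

section pt

variable {ι : Type} [DEnc ι]

theorem pt_trIn {S : ι → List Ed} {q : ι → ℕ × ℕ × ℕ} (hS : PT S) (hq : PT q) : PT (fun x => trIn (S x) (q x)) := by
  have h1 := PT.p1 hq
  have h2 := PT.p1 (PT.p2 hq)
  have h3 := PT.p2 (PT.p2 hq)
  exact PT.band (pt_hasE hS (PT.pair h1 h2)) (PT.band (pt_hasE hS (PT.pair h2 h3)) (pt_hasE hS (PT.pair h3 h1)))

theorem pt_okS3 {S : ι → List Ed} (hS : PT S) : PT (fun x => okS3 (S x)) := by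
  have he := pt_ends2 hS
  refine PT.band (pt_okS hS) ?_
  exact PT.all (pt_prd he (pt_prd he he)) (p := fun y : ι × ℕ × ℕ × ℕ => !trIn (S y.1) y.2)
    (PT.bnot (pt_trIn (hS.comp PT.fst) PT.snd))

theorem pt_pmem3 {p : ι → Pc} {k : ι → List ℕ} (hp : PT p) (hk : PT k) : PT (fun x => pmem3 (p x) (k x)) := by
  unfold pmem3
  refine PT.bor ?_ (PT.band (PT.p1 hp) ?_)
  · exact PT.any (PT.p2 (PT.p2 hp)) (p := fun y : ι × List ℕ => eqK (k y.1) y.2)
      (pt_eqK (hk.comp PT.fst) PT.snd)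
  · exact PT.any (pt_subs (PT.p1 (PT.p2 hp)) 4)
      (p := fun y : ι × List Ed => okS3 y.2 && eqK (k y.1) (ends2 y.2))
      (PT.band (pt_okS3 PT.snd) (pt_eqK (hk.comp PT.fst) (pt_ends2 PT.snd)))

theorem pt_clE3 {c : ι → Cl3} (hc : PT c) : PT (fun x => clE3 (c x)) := by
  have hL := PT.p2 (PT.p2 (PT.p2 hc))
  have hx := PT.p1 (PT.p2 hc)
  have hy := PT.p1 (PT.p2 (PT.p2 hc))
  unfold clE3 hubE
  exact PT.cond (PT.neq (PT.p1 hc) (PT.const 0)) (pt_prs hL) (PT.append
    (PT.cond (PT.neq (PT.p1 hc) (PT.const 1)) (PT.const []) (PT.cons (PT.pair hx hy) (PT.const []))) (PT.append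
    (PT.map hL (g := fun y : ι × ℕ => ((c y.1).2.1, y.2)) (PT.pair (hx.comp PT.fst) PT.snd))
    (PT.map hL (g := fun y : ι × ℕ => ((c y.1).2.2.1, y.2)) (PT.pair (hy.comp PT.fst) PT.snd))))

theorem pt_exP3 {c : ι → Cl3} (hc : PT c) : PT (fun x => exP3 (c x)) :=
  PT.pair (PT.const true) (PT.pair (pt_clE3 hc) (PT.const []))

theorem pt_oth {c : ι → Cl3} {w : ι → ℕ} (hc : PT c) (hw : PT w) : PT (fun x => oth (c x) (w x)) :=
  PT.ite (PT.neq hw (PT.p1 (PT.p2 hc))) (PT.p1 (PT.p2 (PT.p2 hc))) (PT.p1 (PT.p2 hc))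

theorem pt_ltf {a : ι → ℕ} {L : ι → List ℕ} (ha : PT a) (hL : PT L) : PT (fun x => ltf (a x) (L x)) :=
  PT.filter hL (p := fun y : ι × ℕ => !decide (y.2 = a y.1)) (PT.bnot (PT.neq PT.snd (ha.comp PT.fst)))

theorem pt_digs3 {c : ι → Cl3} {ch : ι → ℕ × ℕ} (hc : PT c) (hh : PT ch) : PT (fun x => digs3 (c x) (ch x)) := by
  have hL := PT.p2 (PT.p2 (PT.p2 hc))
  have h1 := PT.p1 hh
  have h2 := PT.p2 hh
  have hf := pt_ltf h2 hL
  have ho := pt_oth hc h1
  have hb := PT.headD (PT.tail hf) (PT.const 0)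
  have hd := PT.headD (PT.tail (PT.tail hf)) (PT.const 0)
  have hg : PT (fun y : ι × ℕ => [(ch y.1).1, (ch y.1).1, y.2, y.2]) :=
    PT.cons (h1.comp PT.fst) (PT.cons (h1.comp PT.fst) (PT.cons PT.snd (PT.cons PT.snd (PT.const []))))
  have hg2 : PT (fun y : ι × ℕ => [(ch y.1).1, (ch y.1).1, oth (c y.1) (ch y.1).1, oth (c y.1) (ch y.1).1, y.2, y.2]) :=
    PT.cons (h1.comp PT.fst) (PT.cons (h1.comp PT.fst) (PT.cons (ho.comp PT.fst) (PT.cons (ho.comp PT.fst)
      (PT.cons PT.snd (PT.cons PT.snd (PT.const []))))))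
  unfold digs3
  refine PT.cond (PT.neq (PT.p1 hc) (PT.const 0)) ?_ (PT.cond (PT.neq (PT.p1 hc) (PT.const 1)) ?_
    (PT.cond (PT.neq h2 h1) ?_ (PT.append ?_ (PT.cons ?_ ?_))))
  · exact PT.cons (PT.cons hb (PT.cons hb (PT.const []))) (PT.cons (PT.cons hd (PT.cons hd (PT.const [])))
      (PT.cons (PT.cons hb (PT.cons hb (PT.cons hd (PT.cons hd (PT.const []))))) (PT.const [])))
  · exact PT.map hf hg
  · exact PT.map hL hg
  · exact PT.map hf hg
  · exact PT.cons h1 (PT.cons h1 (PT.cons ho (PT.cons ho (PT.const []))))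
  · exact PT.map hf hg2

theorem pt_rxP3 {c : ι → Cl3} {ch : ι → ℕ × ℕ} (hc : PT c) (hh : PT ch) : PT (fun x => rxP3 (c x) (ch x)) :=
  PT.pair (PT.const true) (PT.pair (pt_clE3 hc) (pt_digs3 hc hh))

theorem pt_rxU3 {c : ι → Cl3} {ch : ι → ℕ × ℕ} (hc : PT c) (hh : PT ch) : PT (fun x => rxU3 (c x) (ch x)) := by
  have hL := PT.p2 (PT.p2 (PT.p2 hc))
  have hx := PT.p1 (PT.p2 hc)
  have hy := PT.p1 (PT.p2 (PT.p2 hc))
  have h1 := PT.p1 hh
  have h2 := PT.p2 hh
  have hf := pt_ltf h2 hL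
  have ho := pt_oth hc h1
  have ha := PT.headD hf (PT.const 0)
  have hb := PT.headD (PT.tail hf) (PT.const 0)
  have hd := PT.headD (PT.tail (PT.tail hf)) (PT.const 0)
  have s1 : ∀ {f : ι → ℕ}, PT f → PT (fun x => [f x]) := fun hf => PT.cons hf (PT.const [])
  have hg : PT (fun y : ι × ℕ => (([y.2], [(c y.1).2.1, (c y.1).2.2.1]) : List ℕ × List ℕ)) :=
    PT.pair (PT.cons PT.snd (PT.const []))
        (PT.cons (hx.comp PT.fst) (PT.cons (hy.comp PT.fst) (PT.const [])))
  unfold rxU3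
  refine PT.cond (PT.neq (PT.p1 hc) (PT.const 0)) ?_ (PT.cond (PT.neq (PT.p1 hc) (PT.const 1)) (PT.append ?_ ?_)
    (PT.cond (PT.neq h2 h1) (PT.append ?_ ?_) (PT.append ?_ ?_)))
  · exact PT.cons (PT.pair (s1 ha) (s1 h2)) (PT.cons (PT.pair (s1 hb) (PT.cons ha (PT.cons hb (s1 h2))))
      (PT.cons (PT.pair (s1 hd) (PT.cons ha (PT.cons hb (PT.cons hd (s1 h2))))) (PT.const [])))
  · exact PT.map hf hg
  · exact PT.cons (PT.pair (s1 h1) hL) (PT.cons (PT.pair (s1 ho) (s1 h2)) (PT.const []))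
  · exact PT.map hL hg
  · exact PT.cons (PT.pair (s1 h1) (PT.cons ho hL)) (PT.const [])
  · exact PT.map hf hg
  · exact PT.cons (PT.pair (s1 h1) (PT.cons ho hL)) (PT.cons (PT.pair (s1 ho) (PT.cons h2 (s1 h1))) (PT.const []))

end pt

end Pool.Agent.P34

end

section -- file PF4/CluX

/-!
The steps of the proof of `clusters` with explicit clusters.
-/

set_option autoImplicit false
set_option linter.unusedSectionVars false
set_option linter.unusedSimpArgs false

namespace Pool.Agent.TFC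

open Finset
open scoped Pointwise

variable {V : Type*} [DecidableEq V]

/-- the conclusion of one step, with a given cluster -/
def StepY (D : Finset (Finset (Sym2 V))) (Q : Finset (Sym2 V)) (c : Clu V) : Prop :=
  ∃ (D' : Finset (Finset (Sym2 V))), D' ⊆ D ∧ Q ∈ D' ∧ c.Valid ∧ (∀ S ∈ D', S ⊆ c.edges) ∧
    c.edges ⊆ D'.biUnion id ∧ ∀ T ∈ D, T ∉ D' → ∀ e ∈ T, e ∉ c.edges

/-- case 1 -/
lemma case1Y {D : Finset (Finset (Sym2 V))} (hD : ∀ Q ∈ D, IsSq Q)
    (hc : ∀ Q ∈ D, ∀ R ∈ D, Q ≠ R → #(Q ∩ R) ≠ 1) {Q R : Finset (Sym2 V)} (hQ : Q ∈ D) (hR : R ∈ D)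
    (hne : Q ≠ R) {X : Finset V} (oQ : Clus_On Q X) (oR : Clus_On R X) :
    StepY D Q (Clu.k4 X) := by
  classical
  have sub : ∀ Z, Clus_On Z X → Z ⊆ (Clu.k4 X).edges := by
    intro Z hZ e he
    induction e using Sym2.ind with
    | _ u v => exact Clus_k4.2 (Clus_mem hZ he)
  have cov : ∀ u v, s(u, v) ∈ (Clu.k4 X).edges → s(u, v) ∈ Q ∨ s(u, v) ∈ R := by
    intro u v huv
    by_contra hcon
    push Not at hcon
    obtain ⟨hu, hv, huv'⟩ := Clus_k4.1 huv
    have key : ∀ Z, Clus_On Z X → s(u, v) ∉ Z → ∃ b d, Clus_F Z X b u d v := by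
      intro Z hZ hn
      obtain ⟨b, c, d, h⟩ := Clus_start hZ hu
      obtain ⟨⟨h1, h2, h3, h4, h5, h6⟩, eQ, eX⟩ := id h
      have hv' := hv
      rw [eX] at hv'
      simp only [mem_insert, mem_singleton] at hv'
      rcases hv' with e | e | e | e
      · exact absurd e huv'.symm
      · exfalso
        apply hn
        rw [eQ, e]
        simp [sq]
      · subst e
        exact ⟨_, _, Clus_rot (Clus_ref (Clus_rot (Clus_ref (Clus_rot (Clus_rot (Clus_rot h))))))⟩
      · exfalso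
        apply hn
        rw [eQ, e, Sym2.eq_swap]
        simp [sq]
    obtain ⟨b, d, ⟨a1, a2, a3, a4, a5, a6⟩, eQ, eX⟩ := key Q oQ hcon.1
    obtain ⟨b', d', ⟨b1, b2, b3, b4, b5, b6⟩, eR, eX'⟩ := key R oR hcon.2
    have hbm : b ∈ X := by rw [eX]; simp
    have hdm : d ∈ X := by rw [eX]; simp
    rw [eX'] at hbm hdm
    simp only [mem_insert, mem_singleton] at hbm hdm
    apply hne
    have hb : b = b' ∨ b = d' := by
      rcases hbm with e | e | e | e
      · exact Or.inl e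
      · exact absurd e a1
      · exact Or.inr e
      · exact absurd e a3
    have hd : d = b' ∨ d = d' := by
      rcases hdm with e | e | e | e
      · exact Or.inl e
      · exact absurd e a4.symm
      · exact Or.inr e
      · exact absurd e a6
    rcases hb with rfl | rfl
    · rcases hd with rfl | rfl
      · exact absurd rfl a2
      · rw [eQ, eR]
    · rcases hd with rfl | rfl
      · rw [eQ, eR]
        have e1 : s(d, u) = s(u, d) := Sym2.eq_swap
        have e2 : s(u, b) = s(b, u) := Sym2.eq_swap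
        have e3 : s(b, v) = s(v, b) := Sym2.eq_swap
        have e4 : s(v, d) = s(d, v) := Sym2.eq_swap
        ext e
        simp only [sq, mem_insert, mem_singleton, e1, e2, e3, e4]
        tauto
      · exact absurd rfl a2
  refine ⟨D.filter (fun S => S ⊆ (Clu.k4 X).edges), filter_subset _ _, ?_, Clus_card oQ, ?_, ?_, ?_⟩
  · rw [mem_filter]
    exact ⟨hQ, sub Q oQ⟩
  · intro S hS
    exact (mem_filter.1 hS).2
  · intro e he
    rw [mem_biUnion]
    induction e using Sym2.ind with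
    | _ u v =>
      rcases cov u v he with h | h
      · exact ⟨Q, mem_filter.2 ⟨hQ, sub Q oQ⟩, h⟩
      · exact ⟨R, mem_filter.2 ⟨hR, sub R oR⟩, h⟩
  · intro T hT hTn e heT heK
    have hTn' : ¬ T ⊆ (Clu.k4 X).edges := fun h => hTn (mem_filter.2 ⟨hT, h⟩)
    obtain ⟨Y, oT⟩ := Clus_isSq (hD T hT)
    -- the main argument
    have main : ∀ p q r s, Clus_F T Y p q r s → p ∈ X → q ∈ X → s ∉ X → False := by
      intro p q r s h hp hq hs
      obtain ⟨⟨h1, h2, h3, h4, h5, h6⟩, eT, -⟩ := h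
      have hiff : ∀ Z ∈ D, Clus_On Z X → (s(p, q) ∈ Z ↔ s(q, r) ∈ Z) := by
        intro Z hZ oZ
        have hTZ : T ≠ Z := by
          rintro rfl
          exact hTn' (sub _ oZ)
        have hcard := hc T hT Z hZ hTZ
        have n1 : s(r, s) ∉ Z := fun h => hs (Clus_mem oZ h).2.1
        have n2 : s(s, p) ∉ Z := fun h => hs (Clus_mem oZ h).1
        constructor
        · intro h
          obtain ⟨e', he1, he2, he3⟩ := Clus_second hcard (e := s(p, q)) (by rw [eT]; simp [sq]) h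
          rw [eT] at he1
          simp only [sq, mem_insert, mem_singleton] at he1
          rcases he1 with rfl | rfl | rfl | rfl
          · exact absurd rfl he3
          · exact he2
          · exact absurd he2 n1
          · exact absurd he2 n2
        · intro h
          obtain ⟨e', he1, he2, he3⟩ := Clus_second hcard (e := s(q, r)) (by rw [eT]; simp [sq]) h
          rw [eT] at he1
          simp only [sq, mem_insert, mem_singleton] at he1
          rcases he1 with rfl | rfl | rfl | rfl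
          · exact he2
          · exact absurd rfl he3
          · exact absurd he2 n1
          · exact absurd he2 n2
      have final : ∀ Z Z', Z ∈ D → Z' ∈ D → Clus_On Z X → Clus_On Z' X → Z ≠ Z' → s(p, q) ∈ Z → False := by
        intro Z Z' hZ hZ' oZ oZ' hZZ hpq
        have hqr := (hiff Z hZ oZ).1 hpq
        by_cases hpq' : s(p, q) ∈ Z'
        · exact hZZ (Clus_eq oZ oZ' h2 hpq hqr hpq' ((hiff Z' hZ' oZ').1 hpq'))
        · have hqr' : s(q, r) ∉ Z' := fun h => hpq' ((hiff Z' hZ' oZ').2 h)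
          have hr : r ∈ X := (Clus_mem oZ hqr).2.1
          obtain ⟨b, c, d, ⟨c1, c2, c3, c4, c5, c6⟩, eZ, eX⟩ := Clus_start oZ' hq
          have only : ∀ m, m ∈ X → m ≠ q → s(q, m) ∉ Z' → m = c := by
            intro m hm hmq hn
            rw [eX] at hm
            simp only [mem_insert, mem_singleton] at hm
            rcases hm with e | e | e | e
            · exact absurd e hmq
            · exfalso
              apply hn
              rw [eZ, e]
              simp [sq]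
            · exact e
            · exfalso
              apply hn
              rw [eZ, e, Sym2.eq_swap]
              simp [sq]
          have e1 := only p hp h1 (by rw [Sym2.eq_swap]; exact hpq')
          have e2 := only r hr h4.symm hqr'
          exact h2 (e1.trans e2.symm)
      rcases cov p q (Clus_k4.2 ⟨hp, hq, h1⟩) with h | h
      · exact final Q R hQ hR oQ oR hne h
      · exact final R Q hR hQ oR oQ hne.symm h
    induction e using Sym2.ind with
    | _ p q =>
      obtain ⟨hp, hq, hpq⟩ := Clus_k4.1 heK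
      obtain ⟨r, s, h⟩ := Clus_adj oT heT
      by_cases hs : s ∈ X
      · by_cases hr : r ∈ X
        · apply hTn'
          obtain ⟨⟨h1, h2, h3, h4, h5, h6⟩, eT, -⟩ := h
          rw [eT]
          intro e he
          simp only [sq, mem_insert, mem_singleton] at he
          rcases he with rfl | rfl | rfl | rfl
          · exact Clus_k4.2 ⟨hp, hq, h1⟩
          · exact Clus_k4.2 ⟨hq, hr, h4⟩
          · exact Clus_k4.2 ⟨hr, hs, h6⟩
          · exact Clus_k4.2 ⟨hs, hp, h3.symm⟩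
        · exact main q p s r (Clus_rot (Clus_rot (Clus_ref h))) hq hp hr
      · exact main p q r s h hp hq hs

/-- case 2 -/
lemma case2Y {D : Finset (Finset (Sym2 V))} (hD : ∀ Q ∈ D, IsSq Q)
    (hc : ∀ Q ∈ D, ∀ R ∈ D, Q ≠ R → #(Q ∩ R) ≠ 1) {x y a b c : V} (hQ : sq x a y b ∈ D)
    (hR : sq x a y c ∈ D) (dQ : Dist4 x a y b) (dR : Dist4 x a y c) (hbc : b ≠ c)
    (Pr : Finset (Sym2 V) → Prop) (hPr : ∀ S, Pr S ↔ ∃ l l' l'', Dist4 x l y l' ∧
      Dist4 x l y l'' ∧ l' ≠ l'' ∧ S = sq x l y l' ∧ sq x l y l'' ∈ D) (L : Finset V)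
    (hL : ∀ l, l ∈ L ↔ (∃ S ∈ D, Pr S ∧ ∃ e ∈ S, l ∈ e) ∧ l ≠ x ∧ l ≠ y) :
    StepY D (sq x a y b) (Clu.k2 x y L) := by
  classical
  set D' := D.filter Pr with hD'
  have hmD' : ∀ S, S ∈ D' ↔ S ∈ D ∧ Pr S := fun S => mem_filter
  have hmL : ∀ l, l ∈ L ↔ (∃ S ∈ D', ∃ e ∈ S, l ∈ e) ∧ l ≠ x ∧ l ≠ y := by
    intro l
    rw [hL]
    simp only [hmD', and_assoc]
  -- leaves of members of D'
  have leafL : ∀ l l', Dist4 x l y l' → sq x l y l' ∈ D' → l ∈ L ∧ l' ∈ L := by
    rintro l l' ⟨h1, h2, h3, h4, h5, h6⟩ hS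
    refine ⟨(hmL l).2 ⟨⟨_, hS, s(x, l), by simp [sq], by simp⟩, h1.symm, h4⟩,
      (hmL l').2 ⟨⟨_, hS, s(y, l'), by simp [sq], by simp⟩, h3.symm, h6.symm⟩⟩
  have ofL : ∀ l ∈ L, ∃ l', Dist4 x l y l' ∧ sq x l y l' ∈ D' ∧
      ∃ m m' m'', ((m = l ∧ m' = l') ∨ (m = l' ∧ m' = l)) ∧ Dist4 x m y m'' ∧ m'' ≠ m' ∧
      sq x m y m'' ∈ D := by
    intro l hl
    obtain ⟨⟨S, hS, e, he, hle⟩, hlx, hly⟩ := (hmL l).1 hl
    have hS' := hS
    obtain ⟨hSD, m, m', m'', d1, d2, hmm, rfl, hSm⟩ := (hmD' S).1 hS |>.imp_right (hPr S).1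
    have hl' : l = m ∨ l = m' := by
      simp only [sq, mem_insert, mem_singleton] at he
      rcases he with rfl | rfl | rfl | rfl <;> rw [Sym2.mem_iff] at hle <;> tauto
    rcases hl' with rfl | rfl
    · exact ⟨m', d1, hS', l, m', m'', Or.inl ⟨rfl, rfl⟩, d2, hmm.symm, hSm⟩
    · obtain ⟨d3, e3⟩ := Clus_sq_leaf d1
      exact ⟨m, d3, by rw [← e3]; exact hS', m, l, m'', Or.inr ⟨rfl, rfl⟩, d2, hmm.symm, hSm⟩
  have hQ' : sq x a y b ∈ D' := (hmD' _).2 ⟨hQ, (hPr _).2 ⟨a, b, c, dQ, dR, hbc, rfl, hR⟩⟩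
  have hedge : ∀ l ∈ L, s(x, l) ∈ (Clu.k2 x y L).edges ∧ s(y, l) ∈ (Clu.k2 x y L).edges := by
    intro l hl
    constructor
    · exact mem_union_left _ (mem_image_of_mem _ hl)
    · exact mem_union_right _ (mem_image_of_mem _ hl)
  refine ⟨D', filter_subset _ _, hQ', ⟨dQ.2.1, ?_, ?_, ?_⟩, ?_, ?_, ?_⟩
  · intro h
    exact ((hmL x).1 h).2.1 rfl
  · intro h
    exact ((hmL y).1 h).2.2 rfl
  · obtain ⟨h1, h2⟩ := leafL a b dQ hQ'
    exact one_lt_card.2 ⟨a, h1, b, h2, dQ.2.2.2.2.1⟩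
  · intro S hS
    have hS' := hS
    obtain ⟨hSD, m, m', m'', d1, d2, hmm, rfl, hSm⟩ := (hmD' S).1 hS |>.imp_right (hPr S).1
    obtain ⟨h1, h2⟩ := leafL m m' d1 hS'
    intro e he
    simp only [sq, mem_insert, mem_singleton] at he
    rcases he with rfl | rfl | rfl | rfl
    · exact (hedge m h1).1
    · rw [Sym2.eq_swap]; exact (hedge m h1).2
    · exact (hedge m' h2).2
    · rw [Sym2.eq_swap]; exact (hedge m' h2).1
  · intro e he
    rw [mem_biUnion]
    have he' : (∃ l ∈ L, s(x, l) = e) ∨ (∃ l ∈ L, s(y, l) = e) := by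
      simpa [Clu.edges] using he
    rcases he' with ⟨l, hl, rfl⟩ | ⟨l, hl, rfl⟩
    · obtain ⟨l', d, hS, -⟩ := ofL l hl
      exact ⟨_, hS, by simp [sq]⟩
    · obtain ⟨l', d, hS, -⟩ := ofL l hl
      exact ⟨_, hS, by rw [Sym2.eq_swap]; simp [sq]⟩
  · intro T hT hTn e heT heK
    have he' : (∃ l ∈ L, s(x, l) = e) ∨ (∃ l ∈ L, s(y, l) = e) := by
      simpa [Clu.edges] using heK
    rcases he' with ⟨l, hl, rfl⟩ | ⟨l, hl, rfl⟩
    · obtain ⟨l', d, hS, hP⟩ := ofL l hl
      refine Clus_core hD hc hT d ((hmD' _).1 hS).1 (fun h => hTn (by rw [h]; exact hS)) ?_ heT hP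
      intro m dm hm h
      apply hTn
      rw [hmD']
      exact ⟨hT, (hPr T).2 ⟨l, m, l', dm, d, hm, h, ((hmD' _).1 hS).1⟩⟩
    · obtain ⟨l', d, hS, m, m', m'', hm, d2, hmm, hSm⟩ := ofL l hl
      obtain ⟨d', e'⟩ := Clus_sq_cen d
      obtain ⟨d2', e2'⟩ := Clus_sq_cen d2
      have hSD := ((hmD' _).1 hS).1
      refine Clus_core hD hc hT d' (by rw [← e']; exact hSD) (fun h => hTn (by rw [h, ← e']; exact hS)) ?_ heT
        ⟨m, m', m'', hm, d2', hmm, by rw [← e2']; exact hSm⟩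
      intro k dk hk h
      obtain ⟨dk', ek'⟩ := Clus_sq_cen dk
      apply hTn
      rw [hmD']
      exact ⟨hT, (hPr T).2 ⟨l, k, l', dk', d, hk, by rw [h, ek'], hSD⟩⟩

/-- case 3 -/
lemma case3Y {D : Finset (Finset (Sym2 V))} {a b c d : V} (hd : Dist4 a b c d) (hQ : sq a b c d ∈ D)
    (h : ∀ R ∈ D, R ≠ sq a b c d → ∀ e ∈ R, e ∉ sq a b c d) :
    StepY D (sq a b c d) (Clu.k2 a c {b, d}) := by
  obtain ⟨h1, h2, h3, h4, h5, h6⟩ := hd
  have hed : (Clu.k2 a c {b, d}).edges = sq a b c d := by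
    ext e
    have e1 : s(b, c) = s(c, b) := Sym2.eq_swap
    have e2 : s(d, a) = s(a, d) := Sym2.eq_swap
    simp only [Clu.edges, sq, mem_union, mem_image, mem_insert, mem_singleton, e1, e2]
    constructor
    · rintro (⟨l, rfl | rfl, rfl⟩ | ⟨l, rfl | rfl, rfl⟩) <;> simp
    · rintro (rfl | rfl | rfl | rfl)
      · exact Or.inl ⟨b, Or.inl rfl, rfl⟩
      · exact Or.inr ⟨b, Or.inl rfl, rfl⟩
      · exact Or.inr ⟨d, Or.inr rfl, rfl⟩
      · exact Or.inl ⟨d, Or.inr rfl, rfl⟩
  refine ⟨{sq a b c d}, by simpa using hQ, mem_singleton_self _,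
    ⟨h2, by simp [h1, h3], by simp [h4.symm, h6], ?_⟩, ?_, ?_, ?_⟩
  · rw [card_pair h5]
  · intro S hS
    rw [mem_singleton] at hS
    rw [hS, hed]
  · rw [hed]
    intro e he
    rw [mem_biUnion]
    exact ⟨_, mem_singleton_self _, he⟩
  · intro T hT hTn e he
    rw [hed]
    exact h T hT (fun hh => hTn (by rw [hh]; exact mem_singleton_self _)) e he


end Pool.Agent.TFC

end

section -- file P34/CluY3

/-!
The steps of the proof of `clusters3` with explicit clusters.
-/

set_option autoImplicit false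
set_option linter.unusedSectionVars false
set_option linter.unusedSimpArgs false

namespace Pool.Agent.P34

open Finset Pool.Agent.TFC

variable {V : Type*} [DecidableEq V]

/-- the conclusion of one step, with a given cluster -/
def Step3Y (D : Finset (Finset (Sym2 V))) (Q : Finset (Sym2 V)) (c : Clu3 V) : Prop :=
  ∃ (D' : Finset (Finset (Sym2 V))), D' ⊆ D ∧ Q ∈ D' ∧ c.Valid ∧ (∀ S ∈ D', S ⊆ c.edges) ∧
    c.edges ⊆ D'.biUnion id ∧ ∀ T ∈ D, T ∉ D' → ∀ e ∈ T, e ∉ c.edges

/-- from the squares to all members, with a triangle on the centres -/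
lemma upY {D : Finset (Finset (Sym2 V))} (hD : ∀ Q ∈ D, IsSh Q) (hst : StarV D) {x y : V} {L : Finset V}
    {D' : Finset (Finset (Sym2 V))} (hD' : D' ⊆ D) {Q : Finset (Sym2 V)} (hQ : Q ∈ D')
    (hv : (Clu.k2 x y L).Valid) (h1 : ∀ S ∈ D', S ⊆ (Clu.k2 x y L).edges)
    (h2 : (Clu.k2 x y L).edges ⊆ D'.biUnion id)
    (h3 : ∀ S ∈ D, IsSq S → S ∉ D' → ∀ e ∈ S, e ∉ (Clu.k2 x y L).edges)
    (h4 : ∀ T ∈ D, IsTri T → ∀ e ∈ T, e ∈ (Clu.k2 x y L).edges → ∃ l ∈ L, T = tri x y l) 
    (hn : ∃ l ∈ L, tri x y l ∈ D) : Step3Y D Q (.k11 x y L) := by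
  classical
  obtain ⟨l0, hl0, hT0⟩ := hn
  obtain ⟨hxy, hxL, hyL, hL⟩ := hv
  have hx0 : x ≠ l0 := fun h => hxL (h ▸ hl0)
  have hy0 : y ≠ l0 := fun h => hyL (h ▸ hl0)
  have d0 : Dist3 x y l0 := ⟨hxy, hx0, hy0⟩
  have ed : ∀ l ∈ L, s(x, l) ∈ (Clu.k2 x y L).edges ∧ s(y, l) ∈ (Clu.k2 x y L).edges := fun l hl =>
    ⟨k2_edges.2 (Or.inl ⟨l, hl, rfl⟩), k2_edges.2 (Or.inr ⟨l, hl, rfl⟩)⟩
  refine ⟨D' ∪ D.filter (fun T => ∃ l ∈ L, T = tri x y l), ?_, mem_union_left _ hQ,
    ⟨hxy, hxL, hyL, by omega⟩, ?_, ?_, ?_⟩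
  · exact union_subset hD' (filter_subset _ _)
  · intro S hS
    rcases mem_union.1 hS with h | h
    · exact (h1 S h).trans (subset_insert _ _)
    · obtain ⟨-, l, hl, rfl⟩ := mem_filter.1 h
      rw [tri_sub]
      exact ⟨mem_insert_self _ _, mem_insert_of_mem (ed l hl).2,
        mem_insert_of_mem (by rw [Sym2.eq_swap]; exact (ed l hl).1)⟩
  · intro e he
    rcases mem_insert.1 he with rfl | he
    · exact mem_biUnion.2 ⟨tri x y l0, mem_union_right _ (mem_filter.2 ⟨hT0, l0, hl0, rfl⟩), by simp [tri]⟩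
    · obtain ⟨S, hS, heS⟩ := mem_biUnion.1 (h2 he)
      exact mem_biUnion.2 ⟨S, mem_union_left _ hS, heS⟩
  · intro T hT hTn e heT heK
    have hTn' : T ∉ D' := fun h => hTn (mem_union_left _ h)
    have hTn'' : ¬ ∃ l ∈ L, T = tri x y l := fun h => hTn (mem_union_right _ (mem_filter.2 ⟨hT, h⟩))
    rcases mem_insert.1 heK with rfl | heK
    · rcases hD T hT with hTT | hTS
      · obtain ⟨t, ht, rfl⟩ := isTri_first hTT heT
        have ht0 : t ≠ l0 := by
          rintro rfl
          exact hTn'' ⟨t, hl0, rfl⟩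
        obtain ⟨t1, t2, t3⟩ := id ht
        have hcard : #(tri x y l0 ∩ tri x y t) = 1 := by
          rw [card_eq_one]
          refine ⟨s(x, y), ?_⟩
          ext e
          simp only [tri, mem_inter, mem_insert, mem_singleton]
          constructor
          · rintro ⟨rfl | rfl | rfl, f⟩
            · rfl
            all_goals
              exfalso
              simp [hxy, hxy.symm, hx0, hx0.symm, hy0, hy0.symm, t1, t2, t3, t1.symm, t2.symm, t3.symm, ht0,
                ht0.symm] at f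
          · rintro rfl
            exact ⟨Or.inl rfl, Or.inl rfl⟩
        have hne : tri x y l0 ≠ tri x y t := by
          intro h
          rw [h, inter_self, card_tri ht] at hcard
          omega
        obtain ⟨x', y', p, r, ⟨g1, g2, g3, g4, g5, g6⟩, e1, e2, hS⟩ := hst _ hT0 _ hT hne hcard
        have hxy' : s(x', y') = s(x, y) := by
          rw [card_eq_one] at hcard
          obtain ⟨e0, he0⟩ := hcard
          have a1 : s(x', y') ∈ tri x y l0 ∩ tri x y t := by
            rw [e1, e2]; simp [tri]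
          have a2 : s(x, y) ∈ tri x y l0 ∩ tri x y t := by simp [tri]
          rw [he0, mem_singleton] at a1 a2
          rw [a1, a2]
        have key : ∀ p l, p ≠ x → p ≠ y → x ≠ l → y ≠ l → s(y, p) ∈ tri x y l → p = l := by
          intro p l p1 p2 p3 p4 h
          simpa [tri, p1, p2, p3, p4, p1.symm, p2.symm, p3.symm, p4.symm, hxy, hxy.symm] using h
        have fin : TFC.sq x l0 y t ∈ D := by
          rw [Sym2.eq_iff] at hxy'
          rcases hxy' with ⟨rfl, rfl⟩ | ⟨rfl, rfl⟩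
          · have hp : p = l0 := key p l0 g2.symm g4.symm hx0 hy0 (by rw [e1]; simp [tri])
            have hr : r = t := key r t g3.symm g5.symm t2 t3 (by rw [e2]; simp [tri])
            rw [hp, hr] at hS
            exact hS
          · have hp : p = l0 := key p l0 g4.symm g2.symm hx0 hy0 (by rw [e1, Sym2.eq_swap]; simp [tri])
            have hr : r = t := key r t g5.symm g3.symm t2 t3 (by rw [e2, Sym2.eq_swap]; simp [tri])
            rw [hp, hr] at hS
            have d4 : Dist4 x' l0 y' t := by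
              rw [hp] at g2 g4 g6
              rw [hr] at g3 g5 g6
              exact ⟨g2, g1, g3, g4.symm, g6, g5⟩
            rw [(Clus_sq_cen d4).2] at hS
            exact hS
        have d4 : Dist4 x l0 y t := ⟨hx0, hxy, t2, hy0.symm, ht0.symm, t3⟩
        have hSD' : TFC.sq x l0 y t ∈ D' := by
          by_contra hcon
          exact h3 _ fin ⟨_, _, _, _, d4, rfl⟩ hcon s(x, l0) (by simp [TFC.sq]) (ed l0 hl0).1
        have := h1 _ hSD' (show s(t, x) ∈ TFC.sq x l0 y t by simp [TFC.sq])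
        rw [k2_edges] at this
        apply hTn''
        refine ⟨t, ?_, rfl⟩
        rcases this with ⟨l, hl, h⟩ | ⟨l, hl, h⟩
        · rw [Sym2.eq_iff] at h
          rcases h with ⟨h, -⟩ | ⟨-, h⟩
          · exact absurd h t2
          · rw [← h]; exact hl
        · rw [Sym2.eq_iff] at h
          rcases h with ⟨h, -⟩ | ⟨h, -⟩
          · exact absurd h t3
          · exact absurd h hxy.symm
      · have hne : tri x y l0 ≠ T := by
          rintro rfl
          exact tri_not_sq ⟨_, _, _, d0, rfl⟩ hTS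
        obtain ⟨e', f1, f2, f3⟩ := Clus_second (star_hc hst hT0 hT hTS hne) (e := s(x, y)) (by simp [tri]) heT
        refine h3 T hT hTS hTn' e' f2 ?_
        simp only [tri, mem_insert, mem_singleton] at f1
        rcases f1 with rfl | rfl | rfl
        · exact absurd rfl f3
        · exact (ed l0 hl0).2
        · rw [Sym2.eq_swap]; exact (ed l0 hl0).1
    · rcases hD T hT with hTT | hTS
      · exact hTn'' (h4 T hT hTT e heT heK)
      · exact h3 T hT hTS hTn' e heT heK

/-- from the squares to all members, without a triangle on the centres -/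
lemma upN {D : Finset (Finset (Sym2 V))} (hD : ∀ Q ∈ D, IsSh Q) (_hst : StarV D) {x y : V} {L : Finset V}
    {D' : Finset (Finset (Sym2 V))} (hD' : D' ⊆ D) {Q : Finset (Sym2 V)} (hQ : Q ∈ D')
    (hv : (Clu.k2 x y L).Valid) (h1 : ∀ S ∈ D', S ⊆ (Clu.k2 x y L).edges)
    (h2 : (Clu.k2 x y L).edges ⊆ D'.biUnion id)
    (h3 : ∀ S ∈ D, IsSq S → S ∉ D' → ∀ e ∈ S, e ∉ (Clu.k2 x y L).edges)
    (h4 : ∀ T ∈ D, IsTri T → ∀ e ∈ T, e ∈ (Clu.k2 x y L).edges → ∃ l ∈ L, T = tri x y l) 
    (hn : ¬ ∃ l ∈ L, tri x y l ∈ D) : Step3Y D Q (.k2 x y L) := by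
  refine ⟨D', hD', hQ, hv, h1, h2, ?_⟩
  intro T hT hTn e heT heK
  rcases hD T hT with hTT | hTS
  · obtain ⟨l, hl, rfl⟩ := h4 T hT hTT e heT heK
    exact hn ⟨l, hl, hT⟩
  · exact h3 T hT hTS hTn e heT heK

/-- the step for a family of triangles -/
lemma triY {D : Finset (Finset (Sym2 V))} (hD : ∀ Q ∈ D, IsTri Q) (hst : StarV D) {a b c : V}
    (hd : Dist3 a b c) (hQ : tri a b c ∈ D) : Step3Y D (tri a b c) (.k11 a b {c}) := by
  obtain ⟨h1, h2, h3⟩ := hd
  have hed : (Clu3.k11 a b {c}).edges = tri a b c := by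
    ext e
    have e1 : s(c, a) = s(a, c) := Sym2.eq_swap
    simp only [Clu3.edges, Clu.edges, tri, mem_insert, mem_union, mem_image, mem_singleton, e1]
    constructor
    · rintro (rfl | ⟨l, rfl, rfl⟩ | ⟨l, rfl, rfl⟩) <;> simp
    · rintro (rfl | rfl | rfl)
      · exact Or.inl rfl
      · exact Or.inr (Or.inr ⟨c, rfl, rfl⟩)
      · exact Or.inr (Or.inl ⟨c, rfl, rfl⟩)
  refine ⟨{tri a b c}, by simpa using hQ, mem_singleton_self _,
    ⟨h1, by simp [h2], by simp [h3], by simp⟩, ?_, ?_, ?_⟩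
  · intro S hS
    rw [mem_singleton] at hS
    rw [hS, hed]
  · rw [hed]
    intro e he
    exact mem_biUnion.2 ⟨_, mem_singleton_self _, he⟩
  · intro T hT hTn e heT heK
    rw [hed] at heK
    rw [mem_singleton] at hTn
    have hcard : #(T ∩ tri a b c) ≠ 1 := by
      intro h
      obtain ⟨x, y, p, r, ⟨k1, k2, k3, k4, k5, k6⟩, -, -, hS⟩ := hst T hT _ hQ hTn h
      exact tri_not_sq (hD _ hS) ⟨x, p, y, r, ⟨k2, k1, k3, k4.symm, k6, k5⟩, rfl⟩
    obtain ⟨e', f1, f2, f3⟩ := Clus_second hcard heT heK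
    have key : ∀ a b c : V, Dist3 a b c → s(a, b) ∈ T → e' ∈ tri a b c → e' ≠ s(a, b) → T = tri a b c := by
      intro a b c ⟨h1, h2, h3⟩ g1 g2 g3
      obtain ⟨t, ⟨t1, t2, t3⟩, rfl⟩ := isTri_first (hD T hT) g1
      have ht : t = c := by
        simp only [tri, mem_insert, mem_singleton] at f1
        rcases f1 with rfl | rfl | rfl
        · exact absurd rfl g3
        · simpa [tri, h1, h2, h3, h1.symm, h2.symm, h3.symm, t1, t2, t3, t1.symm, t2.symm, t3.symm] using g2
        · simpa [tri, h1, h2, h3, h1.symm, h2.symm, h3.symm, t1, t2, t3, t1.symm, t2.symm, t3.symm] using g2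
      rw [ht]
    apply hTn
    have heK' := heK
    simp only [tri, mem_insert, mem_singleton] at heK'
    rcases heK' with rfl | rfl | rfl
    · exact key a b c ⟨h1, h2, h3⟩ heT f2 f3
    · rw [tri_rot]
      exact key b c a ⟨h3, h1.symm, h2.symm⟩ heT (by rw [← tri_rot]; exact f2) f3
    · rw [tri_rot2]
      exact key c a b ⟨h2.symm, h3.symm, h1⟩ heT (by rw [← tri_rot2]; exact f2) f3

/-- the step for `K_4` -/
lemma k4Y {D : Finset (Finset (Sym2 V))} (hD : ∀ Q ∈ D, IsSh Q) (hst : StarV D) {Q : Finset (Sym2 V)}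
    {DS : Finset (Finset (Sym2 V))} (hDS : ∀ S, S ∈ DS ↔ S ∈ D ∧ IsSq S)
    {X : Finset V} (h : StepY DS Q (Clu.k4 X)) : Step3Y D Q (.k4 X) := by
  classical
  obtain ⟨D', h1, h2, h3, h4, h5, h6⟩ := h
  refine ⟨D.filter (fun S => S ⊆ (Clu.k4 X).edges), filter_subset _ _, ?_, h3, ?_, ?_, ?_⟩
  · exact mem_filter.2 ⟨((hDS _).1 (h1 h2)).1, h4 Q h2⟩
  · intro S hS
    exact (mem_filter.1 hS).2
  · intro e he
    obtain ⟨S, hS, heS⟩ := mem_biUnion.1 (h5 he)
    exact mem_biUnion.2 ⟨S, mem_filter.2 ⟨((hDS _).1 (h1 hS)).1, h4 S hS⟩, heS⟩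
  · intro T hT hTn e heT heK
    have hTn' : ¬ T ⊆ (Clu.k4 X).edges := fun h => hTn (mem_filter.2 ⟨hT, h⟩)
    rcases hD T hT with hTT | hTS
    · apply hTn'
      obtain ⟨S, hS, heS⟩ := mem_biUnion.1 (h5 heK)
      have hSq : IsSq S := ((hDS _).1 (h1 hS)).2
      have hne' : T ≠ S := by
        rintro rfl
        exact tri_not_sq hTT hSq
      obtain ⟨e', f1, f2, f3⟩ := Clus_second (star_hc hst hT ((hDS _).1 (h1 hS)).1 hSq hne') heT heS
      exact tri_k4 hTT heT f1 f3 heK (h4 S hS f2)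
    · exact h6 T ((hDS _).2 ⟨hT, hTS⟩) (fun h => hTn' (h4 T h)) e heT heK

/-- the step for a star cluster -/
lemma k2Y {D : Finset (Finset (Sym2 V))} (hD : ∀ Q ∈ D, IsSh Q) (hst : StarV D) {Q : Finset (Sym2 V)}
    {DS : Finset (Finset (Sym2 V))} (hDS : ∀ S, S ∈ DS ↔ S ∈ D ∧ IsSq S)
    {x y : V} {L : Finset V} (h : StepY DS Q (Clu.k2 x y L))
    (h4 : ∀ T ∈ D, IsTri T → ∀ e ∈ T, e ∈ (Clu.k2 x y L).edges → ∃ l ∈ L, T = tri x y l) :
    ((∃ l ∈ L, tri x y l ∈ D) → Step3Y D Q (.k11 x y L)) ∧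
      ((¬ ∃ l ∈ L, tri x y l ∈ D) → Step3Y D Q (.k2 x y L)) := by
  obtain ⟨D', a1, a2, a3, a4, a5, a6⟩ := h
  exact ⟨fun hn => upY hD hst (fun S hS => ((hDS S).1 (a1 hS)).1) a2 a3 a4 a5
      (fun S hS hs hn => a6 S ((hDS S).2 ⟨hS, hs⟩) hn) h4 hn,
    fun hn => upN hD hst (fun S hS => ((hDS S).1 (a1 hS)).1) a2 a3 a4 a5
      (fun S hS hs hn => a6 S ((hDS S).2 ⟨hS, hs⟩) hn) h4 hn⟩

/-- triangles meeting a star cluster all of whose leaves have a partner -/
lemma starT {D : Finset (Finset (Sym2 V))} (hst : StarV D) {x y : V} {L : Finset V}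
    (b7 : ∀ l ∈ L, ∃ l', Dist4 x l y l' ∧ TFC.sq x l y l' ∈ D ∧
      ∃ m m' m'', ((m = l ∧ m' = l') ∨ (m = l' ∧ m' = l)) ∧ Dist4 x m y m'' ∧ m'' ≠ m' ∧
        TFC.sq x m y m'' ∈ D) :
    ∀ T ∈ D, IsTri T → ∀ e ∈ T, e ∈ (Clu.k2 x y L).edges → ∃ l ∈ L, T = tri x y l := by
  intro T hT hTT e heT heK
  have hcT : ∀ S ∈ D, IsSq S → #(T ∩ S) ≠ 1 := fun S hS hs =>
    star_hc hst hT hS hs (fun h => tri_not_sq hTT (h ▸ hs))
  rcases k2_edges.1 heK with ⟨l, hl, rfl⟩ | ⟨l, hl, rfl⟩
  · obtain ⟨l', d, hS, hP⟩ := b7 l hl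
    exact ⟨l, hl, tri_core hTT hcT d hS hP heT⟩
  · obtain ⟨l', d, hS, m, m', m'', hm, d2, hmm, hSm⟩ := b7 l hl
    obtain ⟨d', e'⟩ := Clus_sq_cen d
    obtain ⟨d2', e2'⟩ := Clus_sq_cen d2
    refine ⟨l, hl, ?_⟩
    rw [tri_ref]
    exact tri_core hTT hcT d' (by rw [← e']; exact hS) ⟨m, m', m'', hm, d2', hmm, by rw [← e2']; exact hSm⟩ heT

/-- the chords of an isolated square exclude each other -/
lemma chords {D : Finset (Finset (Sym2 V))} (hst : StarV D) {a b c d : V} (h4 : Dist4 a b c d)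
    (hiso : ∀ R ∈ D, IsSq R → R ≠ TFC.sq a b c d → ∀ e ∈ R, e ∉ TFC.sq a b c d) :
    (tri a c b ∈ D ∨ tri a c d ∈ D) → (tri b d a ∈ D ∨ tri b d c ∈ D) → False := by
  obtain ⟨k1, k2, k3, k4, k5, k6⟩ := id h4
  have r1 : TFC.sq a b c d = TFC.sq b c d a := (Clus_rot ⟨h4, rfl, rfl⟩).2.1
  have r3 : TFC.sq a b c d = TFC.sq d a b c := (Clus_rot (Clus_rot (Clus_rot ⟨h4, rfl, rfl⟩))).2.1
  have d1 : Dist4 b c d a := ⟨k4, k5, k1.symm, k6, k2.symm, k3.symm⟩
  have d3 : Dist4 d a b c := ⟨k3.symm, k5.symm, k6.symm, k1, k2, k4⟩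
  rintro (h | h) (h' | h')
  · exact two_chords hst h4 hiso (by rw [tri_ref2]; exact h) (by rw [tri_rot]; exact h')
  · refine two_chords hst d1 (by rw [← r1]; exact hiso) (by rw [tri_ref2]; exact h') (by rw [tri_rev]; exact h)
  · refine two_chords hst d3 (by rw [← r3]; exact hiso) (by rw [tri_rot2]; exact h') (by rw [tri_rot]; exact h)
  · have r2 : TFC.sq a b c d = TFC.sq c d a b := (Clus_rot (Clus_rot ⟨h4, rfl, rfl⟩)).2.1
    exact two_chords hst ⟨k6, k2.symm, k4.symm, k3.symm, k5.symm, k1⟩ (by rw [← r2]; exact hiso)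
      (by rw [tri_rot2]; exact h) (by rw [tri_rev]; exact h')

/-- an isolated square -/
lemma isoY {D : Finset (Finset (Sym2 V))} (hD : ∀ Q ∈ D, IsSh Q) (hst : StarV D) {a b c d : V}
    (h4 : Dist4 a b c d) (hQ : TFC.sq a b c d ∈ D)
    (hiso : ∀ R ∈ D, IsSq R → R ≠ TFC.sq a b c d → ∀ e ∈ R, e ∉ TFC.sq a b c d) (n1 : tri b d a ∉ D)
    (n2 : tri b d c ∉ D) :
    ((∃ l ∈ ({b, d} : Finset V), tri a c l ∈ D) → Step3Y D (TFC.sq a b c d) (.k11 a c {b, d})) ∧
      ((¬ ∃ l ∈ ({b, d} : Finset V), tri a c l ∈ D) → Step3Y D (TFC.sq a b c d) (.k2 a c {b, d})) := by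
  obtain ⟨k1, k2, k3, k4, k5, k6⟩ := id h4
  have g1 : ∀ S ∈ ({TFC.sq a b c d} : Finset (Finset (Sym2 V))), S ⊆ (Clu.k2 a c {b, d}).edges := by
    intro S hS
    rw [mem_singleton] at hS
    rw [hS, k2_sq]
  have g2 : (Clu.k2 a c {b, d}).edges ⊆ ({TFC.sq a b c d} : Finset (Finset (Sym2 V))).biUnion id := by
    rw [k2_sq]
    intro e he
    exact mem_biUnion.2 ⟨_, mem_singleton_self _, he⟩
  have g3 : ∀ S ∈ D, IsSq S → S ∉ ({TFC.sq a b c d} : Finset (Finset (Sym2 V))) → ∀ e ∈ S,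
      e ∉ (Clu.k2 a c {b, d}).edges := by
    intro S hS hs hn e he
    rw [k2_sq]
    exact hiso S hS hs (by simpa using hn) e he
  have g4 : ∀ T ∈ D, IsTri T → ∀ e ∈ T, e ∈ (Clu.k2 a c {b, d}).edges →
      ∃ l ∈ ({b, d} : Finset V), T = tri a c l := by
    intro T hT hTT e he he'
    rw [k2_sq] at he'
    have hne : T ≠ TFC.sq a b c d := by
      rintro rfl
      exact tri_not_sq hTT ⟨_, _, _, _, h4, rfl⟩
    rcases tri_sq hTT h4 (star_hc hst hT hQ ⟨_, _, _, _, h4, rfl⟩ hne) he he' with h | h | h | h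
    · exact ⟨b, by simp, h⟩
    · exact ⟨d, by simp, h⟩
    · exact absurd (h ▸ hT) n1
    · exact absurd (h ▸ hT) n2
  have g5 : (Clu.k2 a c {b, d}).Valid :=
    ⟨k2, by simp [k1, k3], by simp [k4.symm, k6], by rw [card_pair k5]⟩
  exact ⟨fun hn => upY hD hst (by simpa using hQ) (mem_singleton_self _) g5 g1 g2 g3 g4 hn,
    fun hn => upN hD hst (by simpa using hQ) (mem_singleton_self _) g5 g1 g2 g3 g4 hn⟩

end Pool.Agent.P34

end

section -- file PF4/Clu

/-!
The clusters of a conflict-free list of squares as a polynomial-time function `clus` (cluster data `Cl` as in `Pc`).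
-/

set_option autoImplicit false
set_option linter.unusedSimpArgs false
set_option linter.unusedVariables false

namespace Pool.Agent.PF4

open Finset Pool.Agent.TFC Pool.Agent.Lib.helper60

/-! ### one cluster -/

/-- the same square -/
def eqS (S R : Sq4) : Bool := sqIn (sqE R) S && sqIn (sqE S) R

theorem eqS_iff {S R : Sq4} : eqS S R = true ↔ sqs S = sqs R := by
  unfold eqS
  rw [Bool.and_eq_true, sqIn_iff, sqIn_iff, fs_sqE, fs_sqE]
  exact ⟨fun h => Finset.Subset.antisymm h.1 h.2, fun h => ⟨h.subset, h.superset⟩⟩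

/-- the corners -/
def crn (Q : Sq4) : List ℕ := [Q.1, Q.2.1, Q.2.2.1, Q.2.2.2]

/-- all corners of `R` are corners of `Q` -/
def sameV (Q R : Sq4) : Bool := (crn R).all fun v => (crn Q).any fun u => decide (u = v)

/-- the leaves of the square `S`, if `x`, `y` are opposite corners -/
def lf (x y : ℕ) (S : Sq4) : List ℕ :=
  bif (decide (S.1 = x) && decide (S.2.2.1 = y)) || (decide (S.1 = y) && decide (S.2.2.1 = x)) then
    [S.2.1, S.2.2.2]
  else bif (decide (S.2.1 = x) && decide (S.2.2.2 = y)) || (decide (S.2.1 = y) && decide (S.2.2.2 = x)) then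
    [S.1, S.2.2.1]
  else []

/-- `S` has a partner with respect to the centres `x`, `y` -/
def ptn (D : List Sq4) (x y : ℕ) (S : Sq4) : Bool :=
  D.any fun R => (!eqS S R) && ((lf x y S).any fun l => (lf x y R).any fun m => decide (l = m))

/-- the leaves with respect to the centres -/
def lvs (n : ℕ) (D : List Sq4) (x y : ℕ) : List ℕ :=
  (List.range n).filter fun v => (D.filter fun S => ptn D x y S).any fun S => (lf x y S).any fun m => decide (m = v)

/-- the cluster of `Q` -/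
def clOf (n : ℕ) (D : List Sq4) (Q : Sq4) : Cl :=
  bif D.any (fun R => sameV Q R && !eqS Q R) then (false, 0, 0, crn Q)
  else bif ptn D Q.1 Q.2.2.1 Q then (true, Q.1, Q.2.2.1, lvs n D Q.1 Q.2.2.1)
  else bif ptn D Q.2.1 Q.2.2.2 Q then (true, Q.2.1, Q.2.2.2, lvs n D Q.2.1 Q.2.2.2)
  else (true, Q.1, Q.2.2.1, [Q.2.1, Q.2.2.2])

theorem lf_aux {a b c d x l y : ℕ} (h : Dist4 a b c d) (g2 : x ≠ y)
    (e1 : s(x, l) ∈ TFC.sq a b c d) (e2 : s(l, y) ∈ TFC.sq a b c d) :
    (((a = x ∧ c = y) ∨ (a = y ∧ c = x)) ∧ (l = b ∨ l = d)) ∨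
      (((b = x ∧ d = y) ∨ (b = y ∧ d = x)) ∧ (l = a ∨ l = c)) := by
  obtain ⟨h1, h2, h3, h4, h5, h6⟩ := h
  simp only [TFC.sq, Finset.mem_insert, Finset.mem_singleton, Sym2.eq_iff] at e1
  rcases e1 with (⟨rfl, rfl⟩ | ⟨rfl, rfl⟩) | (⟨rfl, rfl⟩ | ⟨rfl, rfl⟩) | (⟨rfl, rfl⟩ | ⟨rfl, rfl⟩) |
      (⟨rfl, rfl⟩ | ⟨rfl, rfl⟩) <;>
    simp only [TFC.sq, Finset.mem_insert, Finset.mem_singleton, Sym2.eq_iff, h1, h2, h3, h4, h5, h6,
      h1.symm, h2.symm, h3.symm, h4.symm, h5.symm, h6.symm, false_and, false_or, or_false, true_and,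
      and_true, g2, g2.symm, true_or, or_true] at e2 <;>
    first
    | (exact absurd e2.symm g2)
    | (subst e2; simp)

theorem mem_lf {x y l : ℕ} {S : Sq4} (h : SqOK S) :
    l ∈ lf x y S ↔ ∃ l', Dist4 x l y l' ∧ sqs S = TFC.sq x l y l' := by
  obtain ⟨a, b, c, d⟩ := S
  obtain ⟨h1, h2, h3, h4, h5, h6⟩ := id h
  simp only at h1 h2 h3 h4 h5 h6
  have k : l ∈ lf x y (a, b, c, d) ↔
      (((a = x ∧ c = y) ∨ (a = y ∧ c = x)) ∧ (l = b ∨ l = d)) ∨
      (((b = x ∧ d = y) ∨ (b = y ∧ d = x)) ∧ (l = a ∨ l = c)) := by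
    unfold lf
    simp only
    by_cases c1 : (a = x ∧ c = y) ∨ (a = y ∧ c = x)
    · have e : ((decide (a = x) && decide (c = y)) || (decide (a = y) && decide (c = x))) = true := by
        simpa using c1
      rw [e]
      simp only [cond_true, List.mem_cons, List.not_mem_nil, or_false]
      constructor
      · intro h; exact Or.inl ⟨c1, h⟩
      · rintro (⟨_, h⟩ | ⟨h, h'⟩)
        · exact h
        · omega
    · have e : ((decide (a = x) && decide (c = y)) || (decide (a = y) && decide (c = x))) = false := by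
        rw [← Bool.not_eq_true]
        simpa using c1
      rw [e]
      simp only [cond_false]
      by_cases c2 : (b = x ∧ d = y) ∨ (b = y ∧ d = x)
      · have e : ((decide (b = x) && decide (d = y)) || (decide (b = y) && decide (d = x))) = true := by
          simpa using c2
        rw [e]
        simp only [cond_true, List.mem_cons, List.not_mem_nil, or_false]
        constructor
        · intro h; exact Or.inr ⟨c2, h⟩
        · rintro (⟨h, _⟩ | ⟨_, h⟩)
          · exact absurd h c1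
          · exact h
      · have e : ((decide (b = x) && decide (d = y)) || (decide (b = y) && decide (d = x))) = false := by
          rw [← Bool.not_eq_true]
          simpa using c2
        rw [e]
        simp only [cond_false, List.not_mem_nil, false_iff]
        rintro (⟨h, _⟩ | ⟨h, _⟩)
        · exact c1 h
        · exact c2 h
  rw [k]
  have F : Clus_F (TFC.sq a b c d) {a, b, c, d} a b c d := ⟨h, rfl, rfl⟩
  have r1 := Clus_rot F
  have r2 := Clus_rot r1
  have r3 := Clus_rot r2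
  have s0 := Clus_ref F
  have s1 := Clus_rot s0
  have s2 := Clus_rot s1
  have s3 := Clus_rot s2
  constructor
  · rintro (⟨⟨rfl, rfl⟩ | ⟨rfl, rfl⟩, rfl | rfl⟩ | ⟨⟨rfl, rfl⟩ | ⟨rfl, rfl⟩, rfl | rfl⟩)
    · exact ⟨_, F.1, F.2.1⟩
    · exact ⟨_, s3.1, s3.2.1⟩
    · exact ⟨_, s1.1, s1.2.1⟩
    · exact ⟨_, r2.1, r2.2.1⟩
    · exact ⟨_, s2.1, s2.2.1⟩
    · exact ⟨_, r1.1, r1.2.1⟩
    · exact ⟨_, r3.1, r3.2.1⟩
    · exact ⟨_, s0.1, s0.2.1⟩
  · rintro ⟨l', ⟨g1, g2, g3, g4, g5, g6⟩, e⟩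
    have e1 : s(x, l) ∈ TFC.sq a b c d := by
      have : s(x, l) ∈ TFC.sq x l y l' := by simp [TFC.sq]
      rw [← e] at this; exact this
    have e2 : s(l, y) ∈ TFC.sq a b c d := by
      have : s(l, y) ∈ TFC.sq x l y l' := by simp [TFC.sq]
      rw [← e] at this; exact this
    exact lf_aux h g2 e1 e2

theorem sameV_iff {Q R : Sq4} : sameV Q R = true ↔ ∀ v ∈ crn R, v ∈ crn Q := by
  simp [sameV]

theorem lf_symm (x y : ℕ) (S : Sq4) : lf x y S = lf y x S := by
  unfold lf
  rw [Bool.or_comm (decide (S.1 = x) && decide (S.2.2.1 = y)),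
    Bool.or_comm (decide (S.2.1 = x) && decide (S.2.2.2 = y))]

theorem lf_pos {x y v : ℕ} {S : Sq4} (h : v ∈ lf x y S) :
    ((S.1 = x ∧ S.2.2.1 = y) ∨ (S.1 = y ∧ S.2.2.1 = x)) ∨ ((S.2.1 = x ∧ S.2.2.2 = y) ∨ (S.2.1 = y ∧ S.2.2.2 = x)) := by
  unfold lf at h
  by_contra hcon
  rw [not_or] at hcon
  obtain ⟨c1, c2⟩ := hcon
  have e1 : ((decide (S.1 = x) && decide (S.2.2.1 = y)) || (decide (S.1 = y) && decide (S.2.2.1 = x))) = false := by
    rw [← Bool.not_eq_true]
    simpa using c1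
  have e2 : ((decide (S.2.1 = x) && decide (S.2.2.2 = y)) || (decide (S.2.1 = y) && decide (S.2.2.2 = x))) =
      false := by
    rw [← Bool.not_eq_true]
    simpa using c2
  rw [e1, e2] at h
  simp at h

theorem ptn_symm (D : List Sq4) (x y : ℕ) (S : Sq4) : ptn D x y S = ptn D y x S := by
  unfold ptn
  simp only [lf_symm x y]

theorem ptn_iff {D : List Sq4} {x y : ℕ} {S : Sq4} :
    ptn D x y S = true ↔ ∃ R ∈ D, sqs S ≠ sqs R ∧ ∃ l, l ∈ lf x y S ∧ l ∈ lf x y R := by
  unfold ptn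
  simp only [List.any_eq_true, Bool.and_eq_true, Bool.not_eq_true', decide_eq_true_eq, ← Bool.not_eq_true,
    eqS_iff]
  constructor
  · rintro ⟨R, h1, h2, l, h3, m, h4, rfl⟩
    exact ⟨R, h1, h2, l, h3, h4⟩
  · rintro ⟨R, h1, h2, l, h3, h4⟩
    exact ⟨R, h1, h2, l, h3, l, h4, rfl⟩

theorem mem_lvs {n : ℕ} {D : List Sq4} {x y v : ℕ} :
    v ∈ lvs n D x y ↔ v < n ∧ ∃ S ∈ D, ptn D x y S = true ∧ v ∈ lf x y S := by
  unfold lvs
  simp only [List.mem_filter, List.mem_range, List.any_eq_true, decide_eq_true_eq]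
  constructor
  · rintro ⟨h1, S, ⟨h2, h3⟩, m, h4, rfl⟩
    exact ⟨h1, S, h2, h3, h4⟩
  · rintro ⟨h1, S, h2, h3, h4⟩
    exact ⟨h1, S, ⟨h2, h3⟩, v, h4, rfl⟩

theorem lvs_nodup (n : ℕ) (D : List Sq4) (x y : ℕ) : (lvs n D x y).Nodup := List.nodup_range.filter _

/-- the set of the squares of the list -/
def SF (D : List Sq4) : Finset (Finset (Sym2 ℕ)) := (D.map sqs).toFinset

theorem mem_SF {D : List Sq4} {S : Finset (Sym2 ℕ)} : S ∈ SF D ↔ ∃ q ∈ D, sqs q = S := by
  simp [SF]

theorem SF_isSq {D : List Sq4} (hD : ∀ q ∈ D, SqOK q) : ∀ S ∈ SF D, IsSq S := by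
  intro S hS
  obtain ⟨q, hq, rfl⟩ := mem_SF.1 hS
  exact ⟨q.1, q.2.1, q.2.2.1, q.2.2.2, hD q hq, rfl⟩

theorem SF_conf {D : List Sq4} (hD : ∀ q ∈ D, SqOK q) (hc : ∀ Q ∈ D, ∀ R ∈ D, conf Q R = false) :
    ∀ Q ∈ SF D, ∀ R ∈ SF D, Q ≠ R → #(Q ∩ R) ≠ 1 := by
  intro S hS R hR _ h
  obtain ⟨q, hq, rfl⟩ := mem_SF.1 hS
  obtain ⟨r, hr, rfl⟩ := mem_SF.1 hR
  have := (conf_iff (hD q hq)).2 h
  rw [hc q hq r hr] at this
  cases this

theorem mem_crn {q : Sq4} {e : Sym2 ℕ} {v : ℕ} (he : e ∈ sqs q) (hv : v ∈ e) : v ∈ crn q := by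
  simp only [sqs, TFC.sq, Finset.mem_insert, Finset.mem_singleton] at he
  unfold crn
  simp only [List.mem_cons, List.not_mem_nil, or_false]
  rcases he with rfl | rfl | rfl | rfl <;> rw [Sym2.mem_iff] at hv <;> tauto

theorem leaf_of {x l y l' v : ℕ} {e : Sym2 ℕ} (he : e ∈ TFC.sq x l y l') (hv : v ∈ e) (hx : v ≠ x)
    (hy : v ≠ y) : v = l ∨ v = l' := by
  simp only [TFC.sq, Finset.mem_insert, Finset.mem_singleton] at he
  rcases he with rfl | rfl | rfl | rfl <;> rw [Sym2.mem_iff] at hv <;> tauto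

theorem swap_set (a b c d : ℕ) : ({a, b, c, d} : Finset ℕ) = {a, b, d, c} := by
  ext z
  simp only [mem_insert, mem_singleton]
  tauto

theorem sq_partner {x l y l' l'' : ℕ} (h1 : Dist4 x l y l') (h2 : Dist4 x l y l'') (hne : l' ≠ l'') :
    TFC.sq x l y l' ≠ TFC.sq x l y l'' := by
  intro e
  have h3 : s(l', x) ∈ TFC.sq x l y l'' := by rw [← e]; simp [TFC.sq]
  obtain ⟨a1, a2, a3, a4, a5, a6⟩ := h1
  obtain ⟨b1, b2, b3, b4, b5, b6⟩ := h2
  simp only [TFC.sq, Finset.mem_insert, Finset.mem_singleton, Sym2.eq_iff] at h3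
  omega

section
variable {n : ℕ} {D : List Sq4} (hD : ∀ q ∈ D, SqOK q) (hn : ∀ q ∈ D, ∀ v ∈ crn q, v < n)
  (hc : ∀ Q ∈ D, ∀ R ∈ D, conf Q R = false)
include hD hn hc

theorem caseB {Q : Sq4} (hQ : Q ∈ D) {x y : ℕ} (h : ptn D x y Q = true) :
    ClOK (true, x, y, lvs n D x y) ∧ StepY (SF D) (sqs Q) (cluF (true, x, y, lvs n D x y)) := by
  have hPP : ∀ S ∈ D, ptn D x y S = true ↔ ∃ l l' l'', Dist4 x l y l' ∧ Dist4 x l y l'' ∧ l' ≠ l'' ∧
      sqs S = TFC.sq x l y l' ∧ TFC.sq x l y l'' ∈ SF D := by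
    intro S hS
    rw [ptn_iff]
    constructor
    · rintro ⟨R, hR, hne, l, h1, h2⟩
      obtain ⟨l', d1, e1⟩ := (mem_lf (hD S hS)).1 h1
      obtain ⟨l'', d2, e2⟩ := (mem_lf (hD R hR)).1 h2
      refine ⟨l, l', l'', d1, d2, ?_, e1, mem_SF.2 ⟨R, hR, e2⟩⟩
      rintro rfl
      exact hne (e1.trans e2.symm)
    · rintro ⟨l, l', l'', d1, d2, hne, e1, h2⟩
      obtain ⟨R, hR, e2⟩ := mem_SF.1 h2
      refine ⟨R, hR, ?_, l, (mem_lf (hD S hS)).2 ⟨l', d1, e1⟩, (mem_lf (hD R hR)).2 ⟨l'', d2, e2⟩⟩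
      rw [e1, e2]
      exact sq_partner d1 d2 hne
  obtain ⟨a, b, c, dQ, dR, hbc, eQ, hR⟩ := (hPP Q hQ).1 h
  have hQ' : TFC.sq x a y b ∈ SF D := mem_SF.2 ⟨Q, hQ, eQ⟩
  have st := case2Y (SF_isSq hD) (SF_conf hD hc) hQ' hR dQ dR hbc
    (fun S => ∃ l l' l'', Dist4 x l y l' ∧ Dist4 x l y l'' ∧ l' ≠ l'' ∧
      S = TFC.sq x l y l' ∧ TFC.sq x l y l'' ∈ SF D) (fun _ => Iff.rfl) (lvs n D x y).toFinset (by
      intro v
      rw [List.mem_toFinset, mem_lvs]
      constructor
      · rintro ⟨_, S, hS, h1, h2⟩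
        obtain ⟨l', ⟨g1, g2, g3, g4, g5, g6⟩, e1⟩ := (mem_lf (hD S hS)).1 h2
        refine ⟨⟨sqs S, mem_SF.2 ⟨S, hS, rfl⟩, (hPP S hS).1 h1, s(x, v), ?_, Sym2.mem_mk_right _ _⟩, g1.symm, g4⟩
        rw [e1]; simp [TFC.sq]
      · rintro ⟨⟨S', hS', h1, e, he, hv⟩, hvx, hvy⟩
        obtain ⟨S, hS, rfl⟩ := mem_SF.1 hS'
        refine ⟨hn S hS v (mem_crn he hv), S, hS, (hPP S hS).2 h1, ?_⟩
        obtain ⟨l, l', l'', d1, d2, hne, e1, h2⟩ := h1
        rw [mem_lf (hD S hS)]
        rw [e1] at he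
        have hvl : v = l ∨ v = l' := leaf_of he hv hvx hvy
        rcases hvl with rfl | rfl
        · exact ⟨l', d1, e1⟩
        · obtain ⟨d3, e3⟩ := Clus_sq_leaf d1
          exact ⟨l, d3, e1.trans e3⟩)
  have st' : StepY (SF D) (sqs Q) (cluF (true, x, y, lvs n D x y)) := by
    rw [eQ]; exact st
  refine ⟨⟨lvs_nodup _ _ _ _, fun _ => ⟨dQ.2.1, ?_, ?_, ?_⟩, by simp⟩, st'⟩
  · intro hx
    obtain ⟨_, S, hS, _, h2⟩ := mem_lvs.1 hx
    obtain ⟨l', g, _⟩ := (mem_lf (hD S hS)).1 h2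
    exact g.1 rfl
  · intro hx
    obtain ⟨_, S, hS, _, h2⟩ := mem_lvs.1 hx
    obtain ⟨l', g, _⟩ := (mem_lf (hD S hS)).1 h2
    exact g.2.2.2.1 rfl
  · obtain ⟨_, _, _, hv, _⟩ := st'
    have h4 : 2 ≤ #(lvs n D x y).toFinset := hv.2.2.2
    rwa [List.toFinset_card_of_nodup (lvs_nodup _ _ _ _)] at h4

theorem clOf_step {Q : Sq4} (hQ : Q ∈ D) :
    ClOK (clOf n D Q) ∧ StepY (SF D) (sqs Q) (cluF (clOf n D Q)) := by
  have hsq := SF_isSq hD
  have hcf := SF_conf hD hc
  have dQ := hD Q hQ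
  have oQ : Clus_On (sqs Q) {Q.1, Q.2.1, Q.2.2.1, Q.2.2.2} := ⟨_, _, _, _, dQ, rfl, rfl⟩
  obtain ⟨h1, h2, h3, h4, h5, h6⟩ := id dQ
  unfold clOf
  cases hA : D.any (fun R => sameV Q R && !eqS Q R) with
  | true =>
    simp only [cond_true]
    rw [List.any_eq_true] at hA
    obtain ⟨R, hR, hA⟩ := hA
    rw [Bool.and_eq_true, sameV_iff, Bool.not_eq_true', ← Bool.not_eq_true, eqS_iff] at hA
    obtain ⟨g1, g2⟩ := hA
    have oR' : Clus_On (sqs R) {R.1, R.2.1, R.2.2.1, R.2.2.2} := ⟨_, _, _, _, hD R hR, rfl, rfl⟩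
    have eX : ({R.1, R.2.1, R.2.2.1, R.2.2.2} : Finset ℕ) = {Q.1, Q.2.1, Q.2.2.1, Q.2.2.2} := by
      apply Finset.eq_of_subset_of_card_le
      · intro v hv
        have := g1 v (by simpa [crn] using hv)
        simpa [crn] using this
      · rw [Clus_card oR', Clus_card oQ]
    have oR : Clus_On (sqs R) {Q.1, Q.2.1, Q.2.2.1, Q.2.2.2} := by rw [← eX]; exact oR'
    have st := case1Y hsq hcf (mem_SF.2 ⟨Q, hQ, rfl⟩) (mem_SF.2 ⟨R, hR, rfl⟩) g2 oQ oR
    refine ⟨⟨?_, by simp, fun _ => rfl⟩, ?_⟩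
    · simp [crn, h1, h2, h3, h4, h5, h6]
    · have e : cluF (false, 0, 0, crn Q) = Clu.k4 {Q.1, Q.2.1, Q.2.2.1, Q.2.2.2} := by
        simp [cluF, crn]
      rw [e]; exact st
  | false =>
    simp only [cond_false]
    cases hB : ptn D Q.1 Q.2.2.1 Q with
    | true => exact caseB hD hn hc hQ hB
    | false =>
      simp only [cond_false]
      cases hB' : ptn D Q.2.1 Q.2.2.2 Q with
      | true => exact caseB hD hn hc hQ hB'
      | false =>
        simp only [cond_false]
        have st := case3Y (D := SF D) dQ (mem_SF.2 ⟨Q, hQ, rfl⟩) (by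
          intro S hS hne e he heQ
          obtain ⟨R, hR, rfl⟩ := mem_SF.1 hS
          have heQ' : e ∈ sqs Q := heQ
          have hne' : sqs R ≠ sqs Q := hne
          -- adjacent common edges
          have adj : ∀ u v w, u ≠ w → s(u, v) ∈ sqs Q → s(v, w) ∈ sqs Q → s(u, v) ∈ sqs R →
              s(v, w) ∈ sqs R → False := by
            intro u v w huw q1 q2 r1 r2
            have oR : Clus_On (sqs R) {R.1, R.2.1, R.2.2.1, R.2.2.2} := ⟨_, _, _, _, hD R hR, rfl, rfl⟩
            obtain ⟨t, d1, e1, -⟩ := Clus_adj2 oQ q1 q2 huw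
            obtain ⟨t', d2, e2, -⟩ := Clus_adj2 oR r1 r2 huw
            have hp : ptn D u w Q = true := ptn_iff.2 ⟨R, hR, fun h => hne' h.symm, v,
              (mem_lf (hD Q hQ)).2 ⟨t, d1, e1⟩, (mem_lf (hD R hR)).2 ⟨t', d2, e2⟩⟩
            have hm : v ∈ lf u w Q := (mem_lf (hD Q hQ)).2 ⟨t, d1, e1⟩
            rcases lf_pos hm with (⟨rfl, rfl⟩ | ⟨rfl, rfl⟩) | (⟨rfl, rfl⟩ | ⟨rfl, rfl⟩)
            · rw [hB] at hp; cases hp
            · rw [ptn_symm, hB] at hp; cases hp
            · rw [hB'] at hp; cases hp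
            · rw [ptn_symm, hB'] at hp; cases hp
          have oR : Clus_On (sqs R) {R.1, R.2.1, R.2.2.1, R.2.2.2} := ⟨_, _, _, _, hD R hR, rfl, rfl⟩
          obtain ⟨e', he1, he2, he3⟩ := Clus_second (hcf _ (mem_SF.2 ⟨Q, hQ, rfl⟩) _ (mem_SF.2 ⟨R, hR, rfl⟩)
            (fun h => hne' h.symm)) heQ' he
          induction e using Sym2.ind with
          | _ u v =>
            obtain ⟨w, t, hF⟩ := Clus_adj oQ heQ'
            obtain ⟨⟨k1, k2, k3, k4, k5, k6⟩, eQ, eX⟩ := id hF
            rw [eQ] at he1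
            simp only [TFC.sq, mem_insert, mem_singleton] at he1
            rcases he1 with rfl | rfl | rfl | rfl
            · exact absurd rfl he3
            · exact adj u v w k2 heQ' (by rw [eQ]; simp [TFC.sq]) he he2
            · obtain ⟨c, d, ⟨g1, g2, g3, g4, g5, g6⟩, eR, eX'⟩ := Clus_adj oR he
              have he2' := he2
              rw [eR] at he2'
              simp only [TFC.sq, mem_insert, mem_singleton, Sym2.eq_iff] at he2'
              have hcd : (w = c ∧ t = d) ∨ (w = d ∧ t = c) := by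
                clear hD hn hc hsq hcf h1 h2 h3 h4 h5 h6 g1 g2 g3 g4 g5 g6
                rcases he2' with (⟨e1, e2⟩ | ⟨e1, e2⟩) | (⟨e1, e2⟩ | ⟨e1, e2⟩) | (⟨e1, e2⟩ | ⟨e1, e2⟩) |
                  (⟨e1, e2⟩ | ⟨e1, e2⟩)
                · exact absurd e1.symm k2
                · exact absurd e1.symm k4
                · exact absurd e1.symm k4
                · exact absurd e2.symm k5
                · exact Or.inl ⟨e1, e2⟩
                · exact Or.inr ⟨e1, e2⟩
                · exact absurd e2.symm k3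
                · exact absurd e1.symm k2
              have hXX : ({R.1, R.2.1, R.2.2.1, R.2.2.2} : Finset ℕ) = {Q.1, Q.2.1, Q.2.2.1, Q.2.2.2} := by
                rw [eX, eX']
                rcases hcd with ⟨rfl, rfl⟩ | ⟨rfl, rfl⟩
                · rfl
                · exact swap_set _ _ _ _
              have hsV : sameV Q R = true := by
                rw [sameV_iff]
                intro z hz
                have hz' : z ∈ ({R.1, R.2.1, R.2.2.1, R.2.2.2} : Finset ℕ) := by simpa [crn] using hz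
                rw [hXX] at hz'
                simpa [crn] using hz'
              have hA' : D.any (fun R => sameV Q R && !eqS Q R) = true := by
                rw [List.any_eq_true]
                refine ⟨R, hR, ?_⟩
                rw [Bool.and_eq_true, Bool.not_eq_true', ← Bool.not_eq_true, eqS_iff]
                exact ⟨hsV, fun h => hne' h.symm⟩
              rw [hA] at hA'
              cases hA'
            · exact adj t u v k5.symm (by rw [eQ]; simp [TFC.sq]) heQ' he2 he)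
        refine ⟨⟨?_, fun _ => ⟨h2, ?_, ?_, le_rfl⟩, by simp⟩, ?_⟩
        · simp [h5]
        · simp [h1, h3]
        · simp [h4.symm, h6]
        · have e : cluF (true, Q.1, Q.2.2.1, [Q.2.1, Q.2.2.2]) = Clu.k2 Q.1 Q.2.2.1 {Q.2.1, Q.2.2.2} := by
            simp [cluF]
          rw [e]; exact st

end

/-! ### all clusters -/

/-- a bound for the corners -/
def bnd (D : List Sq4) : ℕ := (D.flatMap crn).foldl (fun s b => s + b) 0 + 1

theorem foldl_add_eq (l : List ℕ) (a : ℕ) : l.foldl (fun s b => s + b) a = a + l.sum := by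
  induction l generalizing a with
  | nil => simp
  | cons b l ih => rw [List.foldl_cons, ih, List.sum_cons]; omega

theorem lt_bnd {D : List Sq4} {q : Sq4} (hq : q ∈ D) {v : ℕ} (hv : v ∈ crn q) : v < bnd D := by
  unfold bnd
  rw [foldl_add_eq]
  have h1 : v ∈ D.flatMap crn := List.mem_flatMap.2 ⟨q, hq, hv⟩
  have h2 := List.single_le_sum (l := D.flatMap crn) (fun _ _ => Nat.zero_le _) v h1
  omega

/-! ### polynomial time -/

section
variable {ι : Type} [DEnc ι]

theorem pt_eqS {S R : ι → Sq4} (hS : PT S) (hR : PT R) : PT (fun x => eqS (S x) (R x)) :=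
  PT.band (pt_sqIn (pt_sqE hR) hS) (pt_sqIn (pt_sqE hS) hR)

theorem pt_crn {Q : ι → Sq4} (hq : PT Q) : PT (fun x => crn (Q x)) := by
  have h1 := PT.p1 hq
  have h2 := PT.p1 (PT.p2 hq)
  have h3 := PT.p1 (PT.p2 (PT.p2 hq))
  have h4 := PT.p2 (PT.p2 (PT.p2 hq))
  exact PT.cons h1 (PT.cons h2 (PT.cons h3 (PT.cons h4 (PT.const []))))

theorem pt_sameV {Q R : ι → Sq4} (hQ : PT Q) (hR : PT R) : PT (fun x => sameV (Q x) (R x)) :=
  PT.all (pt_crn hR) (p := fun y : ι × ℕ => (crn (Q y.1)).any fun u => decide (u = y.2))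
    (PT.any (pt_crn (hQ.comp PT.fst)) (p := fun z : (ι × ℕ) × ℕ => decide (z.2 = z.1.2))
      (PT.neq PT.snd (PT.snd.comp PT.fst)))

theorem pt_lf {a b : ι → ℕ} {S : ι → Sq4} (ha : PT a) (hb : PT b) (hS : PT S) :
    PT (fun x => lf (a x) (b x) (S x)) := by
  have h1 := PT.p1 hS
  have h2 := PT.p1 (PT.p2 hS)
  have h3 := PT.p1 (PT.p2 (PT.p2 hS))
  have h4 := PT.p2 (PT.p2 (PT.p2 hS))
  exact PT.cond (PT.bor (PT.band (PT.neq h1 ha) (PT.neq h3 hb)) (PT.band (PT.neq h1 hb) (PT.neq h3 ha)))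
    (PT.cons h2 (PT.cons h4 (PT.const [])))
    (PT.cond (PT.bor (PT.band (PT.neq h2 ha) (PT.neq h4 hb)) (PT.band (PT.neq h2 hb) (PT.neq h4 ha)))
      (PT.cons h1 (PT.cons h3 (PT.const []))) (PT.const []))

theorem pt_ptn {D : ι → List Sq4} {a b : ι → ℕ} {S : ι → Sq4} (hD : PT D) (ha : PT a) (hb : PT b)
    (hS : PT S) : PT (fun x => ptn (D x) (a x) (b x) (S x)) :=
  PT.any hD (p := fun y : ι × Sq4 => (!eqS (S y.1) y.2) &&
      ((lf (a y.1) (b y.1) (S y.1)).any fun l => (lf (a y.1) (b y.1) y.2).any fun m => decide (l = m)))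
    (PT.band (PT.bnot (pt_eqS (hS.comp PT.fst) PT.snd))
      (PT.any (pt_lf (ha.comp PT.fst) (hb.comp PT.fst) (hS.comp PT.fst))
        (p := fun z : (ι × Sq4) × ℕ => (lf (a z.1.1) (b z.1.1) z.1.2).any fun m => decide (z.2 = m))
        (PT.any (pt_lf (ha.comp (PT.fst.comp PT.fst)) (hb.comp (PT.fst.comp PT.fst)) (PT.snd.comp PT.fst))
          (p := fun w : ((ι × Sq4) × ℕ) × ℕ => decide (w.1.2 = w.2))
          (PT.neq (PT.snd.comp PT.fst) PT.snd))))

theorem pt_lvs {n : ι → ℕ} {D : ι → List Sq4} {a b : ι → ℕ} (hn : PT n) (hD : PT D) (ha : PT a)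
    (hb : PT b) : PT (fun x => lvs (n x) (D x) (a x) (b x)) :=
  PT.filter (PT.range hn)
    (p := fun y : ι × ℕ => ((D y.1).filter fun S => ptn (D y.1) (a y.1) (b y.1) S).any
      fun S => (lf (a y.1) (b y.1) S).any fun m => decide (m = y.2))
    (PT.any
      (PT.filter (hD.comp PT.fst) (p := fun z : (ι × ℕ) × Sq4 => ptn (D z.1.1) (a z.1.1) (b z.1.1) z.2)
        (pt_ptn (hD.comp (PT.fst.comp PT.fst)) (ha.comp (PT.fst.comp PT.fst)) (hb.comp (PT.fst.comp PT.fst))
          PT.snd))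
      (p := fun z : (ι × ℕ) × Sq4 => (lf (a z.1.1) (b z.1.1) z.2).any fun m => decide (m = z.1.2))
      (PT.any (pt_lf (ha.comp (PT.fst.comp PT.fst)) (hb.comp (PT.fst.comp PT.fst)) PT.snd)
        (p := fun w : ((ι × ℕ) × Sq4) × ℕ => decide (w.2 = w.1.1.2))
        (PT.neq PT.snd (PT.snd.comp (PT.fst.comp PT.fst)))))

theorem pt_bnd {D : ι → List Sq4} (hD : PT D) : PT (fun x => bnd (D x)) := by
  have hl : PT (fun x => (D x).flatMap crn) := PT.flatMap hD (g := fun y : ι × Sq4 => crn y.2) (pt_crn PT.snd)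
  refine PT.nadd ?_ (PT.const 1)
  refine PT.foldl (g := fun z : ι × ℕ × ℕ => z.2.1 + z.2.2) hl (PT.const 0) (PT.nadd PT.snd.p1 PT.snd.p2)
    ⟨fun x => tsize ((D x).flatMap crn), hl.size, ?_⟩
  intro x l₁ l₂ h
  have h1 : ∀ (l : List ℕ), tsize l.sum ≤ tsize l := by
    intro l
    induction l with
    | nil => simp
    | cons b l ih =>
      simp only [List.sum_cons, tsize_cons, tsize_nat] at ih ⊢
      omega
  have h2 : tsize l₁ ≤ tsize ((D x).flatMap crn) := by
    rw [← h]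
    have := tsize_append l₁ l₂
    have := tsize_pos l₂
    omega
  have h3 : l₁.foldl (fun s b => s + b) 0 = l₁.sum := by rw [foldl_add_eq]; omega
  beta_reduce
  rw [h3]
  exact (h1 l₁).trans h2

end

end Pool.Agent.PF4

end

section -- file PF4/PcA

/-!
# Pieces of clusters: at most four edges, the vectors used by the digon lemma, the choice rule

`psi P c` is the choice of relaxation of the cluster `c` when `P v` says that the deficit port of `v` is known and the
surplus port of `v` is unknown. `psi_moves`: every additional vector of the relaxed piece falls under one of the three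
cases of the digon lemma, with exact vectors from the list `mvs`.
-/

set_option autoImplicit false

namespace Pool.Agent.PF4

open Finset Pool.Agent.TFC Pool.Agent.Lib.helper60 Pool.Agent.PF4.LD

/-! ### at most four edges -/

theorem card4_k2 {x y : ℕ} {L : Finset ℕ} {z : Finset (Sym2 ℕ)} (hz : z ⊆ (Clu.k2 x y L).edges) (hM : M2 z) :
    #z ≤ 4 := by
  have h : z ⊆ z.filter (fun e => x ∈ e) ∪ z.filter (fun e => y ∈ e) := by
    intro e he
    have h1 := hz he
    simp only [Clu.edges, Finset.mem_union, Finset.mem_image] at h1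
    rw [Finset.mem_union, Finset.mem_filter, Finset.mem_filter]
    rcases h1 with ⟨l, _, rfl⟩ | ⟨l, _, rfl⟩
    · exact Or.inl ⟨he, Sym2.mem_mk_left _ _⟩
    · exact Or.inr ⟨he, Sym2.mem_mk_left _ _⟩
  have h1 := Finset.card_le_card h
  have h2 := Finset.card_union_le (z.filter (fun e => x ∈ e)) (z.filter (fun e => y ∈ e))
  have h3 := hM.le x
  have h4 := hM.le y
  unfold dg at h3 h4
  omega

/-! ### exact and relaxed pieces -/

theorem pcS_exP (c : Cl) : pcS (exP c) = JS (fs (clE c)) none4 := by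
  ext x
  simp [pcS, exP]

theorem pcS_rxP (c : Cl) (ch : ℕ × ℕ) (x : ℕ → ℤ) :
    x ∈ pcS (rxP c ch) ↔ x ∈ pcS (exP c) ∨ ∃ d ∈ digs c ch, x = kvec d := by
  rw [pcS_exP]
  simp only [pcS, rxP, Set.mem_ofPred_eq, true_and]
  exact or_comm

/-! ### small exact vectors -/

theorem kv_nil : kvec [] = 0 := by
  funext v
  simp [kvec]

theorem kv_cons (a : ℕ) (k : List ℕ) : kvec (a :: k) = ev a + kvec k := by
  funext v
  simp only [kvec, List.count_cons, Pi.add_apply, TFC.ev_apply]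
  by_cases h : a = v
  · subst h
    simp
    ring
  · simp [h, Ne.symm h]

/-! ### the choice rule -/

/-- remove `a` once -/
def delK (a : ℕ) (k : List ℕ) : List ℕ :=
  (k.filter fun v => !decide (v = a)) ++ (k.filter fun v => decide (v = a)).tail

theorem headD_memK {L : List ℕ} (h : L ≠ []) (a : ℕ) : L.headD a ∈ L := by
  cases L with
  | nil => exact absurd rfl h
  | cons b L => simp

theorem count_delK (a v : ℕ) (k : List ℕ) : (delK a k).count v = k.count v - if v = a then 1 else 0 := by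
  unfold delK
  rw [List.count_append]
  by_cases hv : v = a
  · subst hv
    rw [if_pos rfl, List.count_eq_zero_of_not_mem (by simp), zero_add]
    have h1 : (k.filter fun u => decide (u = v)) = List.replicate (k.count v) v := by
      rw [List.eq_replicate_iff]
      refine ⟨?_, ?_⟩
      · rw [List.count_eq_length_filter]
        congr 1
      · intro u hu
        simpa using (List.mem_filter.1 hu).2
    rw [h1, List.tail_replicate, List.count_replicate_self]
  · rw [if_neg hv, Nat.sub_zero]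
    have h1 : (k.filter fun u => !decide (u = a)).count v = k.count v := by
      rw [List.count_filter (by simpa using hv)]
    have h2 : ((k.filter fun u => decide (u = a)).tail).count v = 0 := by
      refine List.count_eq_zero_of_not_mem fun h => ?_
      have := (List.mem_filter.1 (List.mem_of_mem_tail h)).2
      exact hv (by simpa using this)
    rw [h1, h2, add_zero]

theorem kv_del {a : ℕ} {k : List ℕ} (h : a ∈ k) : kvec (delK a k) = kvec k - ev a := by
  funext v
  simp only [kvec, Pi.sub_apply, TFC.ev_apply, count_delK]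
  by_cases hv : v = a
  · subst hv
    have := List.count_pos_iff.2 h
    simp only [if_true]
    omega
  · simp [hv]

theorem mem_delK {a b : ℕ} {k : List ℕ} (h : b ∈ k) (hab : b ≠ a ∨ 2 ≤ k.count b) : b ∈ delK a k := by
  rw [← List.count_pos_iff, count_delK]
  have := List.count_pos_iff.2 h
  split_ifs with h1
  · rcases hab with h2 | h2
    · exact absurd h1 h2
    · omega
  · omega

theorem kv4 (a b : ℕ) : kvec [a, a, b, b] = (2 : ℤ) • ev a + (2 : ℤ) • ev b := by
  rw [kv_cons, kv_cons, kv_cons, kv_cons, kv_nil]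
  module

theorem kv2 (a : ℕ) : kvec [a, a] = (2 : ℤ) • ev a := by
  rw [kv_cons, kv_cons, kv_nil]
  module

/-! ### polynomial time -/

section pt

variable {ι : Type} [DEnc ι]

theorem pt_delK {a : ι → ℕ} {k : ι → List ℕ} (ha : PT a) (hk : PT k) : PT (fun x => delK (a x) (k x)) := by
  unfold delK
  exact PT.append
    (PT.filter hk (p := fun y : ι × ℕ => !decide (y.2 = a y.1)) (PT.bnot (PT.neq PT.snd (ha.comp PT.fst))))
    (PT.tail (PT.filter hk (p := fun y : ι × ℕ => decide (y.2 = a y.1)) (PT.neq PT.snd (ha.comp PT.fst))))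

end pt

end Pool.Agent.PF4

end

section -- file P34/PcA3

/-!
# Pieces of clusters (triangles and squares): at most four edges, the vectors used by the digon lemma, the choice rule

`psi3 P c` is the choice of relaxation of the cluster `c` when `P v` says that the deficit port of `v` is known and the
surplus port of `v` is unknown. `psi3_moves`: every additional vector of the relaxed piece falls under one of the three
cases of the digon lemma, with exact vectors from the list `mvs3`.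
-/

set_option autoImplicit false

namespace Pool.Agent.P34

open Finset Pool.Agent.TFC Pool.Agent.Lib.helper60 Pool.Agent.PF4 Pool.Agent.PF4.LD

/-! ### at most four edges -/

theorem card4_hub {x y : ℕ} {L : Finset ℕ} {z : Finset (Sym2 ℕ)} (hz : z ⊆ (Clu3.k11 x y L).edges) (hM : M2 z) :
    #z ≤ 4 := by
  have h : z ⊆ z.filter (fun e => x ∈ e) ∪ z.filter (fun e => y ∈ e) := by
    intro e he
    have h1 := hz he
    rw [Finset.mem_union, Finset.mem_filter, Finset.mem_filter]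
    rcases Finset.mem_insert.1 h1 with rfl | h1
    · exact Or.inl ⟨he, Sym2.mem_mk_left _ _⟩
    simp only [Clu.edges, Finset.mem_union, Finset.mem_image] at h1
    rcases h1 with ⟨l, _, rfl⟩ | ⟨l, _, rfl⟩
    · exact Or.inl ⟨he, Sym2.mem_mk_left _ _⟩
    · exact Or.inr ⟨he, Sym2.mem_mk_left _ _⟩
  have h1 := Finset.card_le_card h
  have h2 := Finset.card_union_le (z.filter (fun e => x ∈ e)) (z.filter (fun e => y ∈ e))
  have h3 := hM.le x
  have h4 := hM.le y
  unfold dg at h3 h4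
  omega

theorem card43_clu {c : Cl3} (h : Cl3OK c) {z : Finset (Sym2 ℕ)} (hz : z ⊆ fs (clE3 c)) (hM : M2 z)
    (hG : Gd noZ z) : #z ≤ 4 := by
  rw [fs_clE3] at hz
  obtain ⟨b, x, y, L⟩ := c
  unfold cluF3 at hz
  by_cases h0 : b = 0
  · have h4 := h.k4 h0
    have hn := h.nd
    simp only at h4 hn
    rw [if_pos h0] at hz
    exact (R4_card_le (by rw [List.toFinset_card_of_nodup hn]; exact h4) hz hM
      ((gd_noZ_iff hM.nl).1 hG).1).trans (by norm_num)
  · rw [if_neg h0] at hz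
    by_cases h1 : b = 1
    · rw [if_pos h1] at hz
      exact card4_k2 hz hM
    · rw [if_neg h1] at hz
      exact card4_hub hz hM

theorem card43_exP3 {c : Cl3} (h : Cl3OK c) : Card43 (exP3 c) := fun _ _ hz hM hG => card43_clu h hz hM hG

theorem card43_rxP3 {c : Cl3} (h : Cl3OK c) (ch : ℕ × ℕ) : Card43 (rxP3 c ch) :=
  fun _ _ hz hM hG => card43_clu h hz hM hG

/-! ### exact and relaxed pieces -/

theorem pcS3_exP3 (c : Cl3) : pcS3 (exP3 c) = JS3 (fs (clE3 c)) noZ := by
  ext x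
  simp [pcS3, exP3]

theorem pcS3_rxP3 (c : Cl3) (ch : ℕ × ℕ) (x : ℕ → ℤ) :
    x ∈ pcS3 (rxP3 c ch) ↔ x ∈ pcS3 (exP3 c) ∨ ∃ d ∈ digs3 c ch, x = kvec d := by
  rw [pcS3_exP3]
  simp only [pcS3, rxP3, Set.mem_ofPred_eq, true_and]
  exact or_comm

theorem exP3_sub_rxP3 (c : Cl3) (ch : ℕ × ℕ) : pcS3 (exP3 c) ⊆ pcS3 (rxP3 c ch) :=
  fun _ hx => (pcS3_rxP3 c ch _).2 (Or.inl hx)

/-- a vector of the relaxed piece that is not exact is one of the additional vectors -/
theorem pmem3_digs3 {c : Cl3} (h : Cl3OK c) {ch : ℕ × ℕ} {k : List ℕ} (hk : pmem3 (rxP3 c ch) k = true)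
    (hk' : pmem3 (exP3 c) k = false) : ∃ d ∈ digs3 c ch, kvec k = kvec d := by
  rcases (pcS3_rxP3 c ch _).1 (pmem3_sound hk) with h1 | h1
  · rw [pmem3_complete (card43_exP3 h) h1] at hk'
    cases hk'
  · exact h1

theorem j3_zero (c : Cl3) : (0 : ℕ → ℤ) ∈ pcS3 (exP3 c) := by
  rw [pcS3_exP3]
  exact js_zero

theorem j3_edge {c : Cl3} {u v : ℕ} (huv : u ≠ v) (h : s(u, v) ∈ fs (clE3 c)) : ev u + ev v ∈ pcS3 (exP3 c) := by
  rw [pcS3_exP3]
  exact js_edge huv h

theorem j3_path {c : Cl3} {u v w : ℕ} (huv : u ≠ v) (hvw : v ≠ w) (huw : u ≠ w) (h : s(u, v) ∈ fs (clE3 c))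
    (h' : s(v, w) ∈ fs (clE3 c)) : ev u + (2 : ℤ) • ev v + ev w ∈ pcS3 (exP3 c) := by
  rw [pcS3_exP3]
  exact js_path2 huv hvw huw h h'

theorem j3_path3 {c : Cl3} {u v w t : ℕ} (h4 : Dist4 u v w t) (h : s(u, v) ∈ fs (clE3 c))
    (h' : s(v, w) ∈ fs (clE3 c)) (h'' : s(w, t) ∈ fs (clE3 c)) :
    ev u + (2 : ℤ) • ev v + (2 : ℤ) • ev w + ev t ∈ pcS3 (exP3 c) := by
  rw [pcS3_exP3]
  exact js_path3 h4 h h' h''

/-! ### the choice rule -/

/-- the vertices of the cluster -/
def clV3 (c : Cl3) : List ℕ := bif decide (c.1 = 0) then c.2.2.2 else c.2.1 :: c.2.2.1 :: c.2.2.2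

/-- the choice of the relaxation; `P v`: the deficit port of `v` is known, the surplus port is unknown -/
def psi3 (P : ℕ → Bool) (c : Cl3) : ℕ × ℕ :=
  bif decide (c.1 = 0) then (0, (c.2.2.2.filter P).headD (c.2.2.2.headD 0))
  else bif decide (c.1 = 1) then
    (bif P c.2.2.1 then (c.2.1, c.2.2.2.headD 0)
     else bif P c.2.1 then (c.2.2.1, c.2.2.2.headD 0)
     else (c.2.1, (c.2.2.2.filter P).headD (c.2.2.2.headD 0)))
  else
    (bif P c.2.2.1 then (c.2.1, c.2.1)
     else bif P c.2.1 then (c.2.2.1, c.2.2.1)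
     else (c.2.1, (c.2.2.2.filter P).headD c.2.1))

/-- the exact vectors needed to replace the additional vector `d` -/
def mvs3 (c : Cl3) (d : List ℕ) : List (List ℕ) :=
  ((clV3 c).flatMap fun a => (clV3 c).flatMap fun b =>
    [b :: delK a d, delK b (delK a d), delK b (delK a (delK b (delK a d)))]).filter fun k => pmem3 (exP3 c) k

theorem psi3_ok (P : ℕ → Bool) {c : Cl3} (h : Cl3OK c) : Ch3OK c (psi3 P c) := by
  obtain ⟨b, x, y, L⟩ := c
  have key : L ≠ [] → ∀ f : ℕ, (L.filter P).headD f ∈ L ∨ (L.filter P).headD f = f := by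
    intro _ f
    by_cases hf : L.filter P = []
    · right; rw [hf]; rfl
    · exact Or.inl (List.mem_of_mem_filter (headD_memK hf _))
  have hne : L ≠ [] := by
    rintro rfl
    by_cases h0 : b = 0
    · have := h.k4 h0
      simp at this
    · have := (h.k2 h0).2.2.2
      simp at this
  have h0 := headD_memK hne 0
  have key2 : (L.filter P).headD (L.headD 0) ∈ L := by
    rcases key hne (L.headD 0) with h | h
    · exact h
    · rw [h]; exact h0
  have key3 : (L.filter P).headD x = x ∨ (L.filter P).headD x ∈ L := (key hne x).symm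
  unfold psi3
  refine ⟨?_, ?_, ?_, ?_⟩
  · intro hb
    simp only at hb
    subst hb
    simpa using key2
  · intro hb
    simp only at hb
    simp only [hb, decide_false, cond_false]
    cases P y <;> cases P x <;> by_cases h1 : b = 1 <;> simp [h1]
  · intro hb
    simp only at hb
    subst hb
    simp only [one_ne_zero, decide_false, cond_false, decide_true, cond_true]
    cases P y <;> cases P x
    · simpa using key2
    · simpa using h0
    · simpa using h0
    · simpa using h0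
  · intro hb
    simp only at hb
    subst hb
    simp only [OfNat.ofNat_ne_zero, OfNat.ofNat_ne_one, decide_false, cond_false]
    cases P y <;> cases P x
    · simpa using key3
    · simp
    · simp
    · simp

/-- edges at the centres -/
theorem c3_edge {b x y w l : ℕ} {L : List ℕ} (hb : b ≠ 0) (hw : w = x ∨ w = y) (hl : l ∈ L) :
    s(w, l) ∈ fs (clE3 (b, x, y, L)) := by
  rw [mem_fs]
  refine ⟨(w, l), ?_, rfl⟩
  simp only [clE3, hb, decide_false, cond_false, List.mem_append, List.mem_map]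
  rcases hw with rfl | rfl
  · exact Or.inr (Or.inl ⟨l, hl, rfl⟩)
  · exact Or.inr (Or.inr ⟨l, hl, rfl⟩)

/-- the edge of the centres -/
theorem c3_hub {b x y : ℕ} {L : List ℕ} (hb : b ≠ 0) (hb' : b ≠ 1) : s(x, y) ∈ fs (clE3 (b, x, y, L)) := by
  rw [mem_fs]
  refine ⟨(x, y), ?_, rfl⟩
  simp [clE3, hubE, hb, hb']

/-- edges of `K4` -/
theorem c3_k4 {x y u v : ℕ} {L : List ℕ} (hu : u ∈ L) (hv : v ∈ L) (h : u ≠ v) :
    s(u, v) ∈ fs (clE3 (0, x, y, L)) := by
  rw [fs_clE3]
  show s(u, v) ∈ (Clu.k4 L.toFinset).edges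
  rw [R4_mem_edges]
  exact ⟨by simpa using hu, by simpa using hv, h⟩

/-- the three cases of the digon lemma -/
inductive Mv3 (P : ℕ → Bool) (c : Cl3) (d : List ℕ) : Prop
  | plus (a b : ℕ) (ha : a ∈ clV3 c) (hb : b ∈ clV3 c) (hab : a ≠ b) (hP : P b = true) (k : List ℕ) (hk : k ∈ mvs3 c d)
      (e : kvec k = kvec d - ev a + ev b) : Mv3 P c d
  | digon (a b : ℕ) (ha : a ∈ clV3 c) (hb : b ∈ clV3 c) (hab : a ≠ b) (hPa : P a = false) (hPb : P b = false)
      (k k' : List ℕ) (hk : k ∈ mvs3 c d) (hk' : k' ∈ mvs3 c d) (e : kvec k = kvec d - ev a - ev b)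
      (e' : kvec k' = kvec d - (2 : ℤ) • ev a - (2 : ℤ) • ev b) : Mv3 P c d
  | sq (b : ℕ) (hb : b ∈ clV3 c) (hP : P b = false) (k : List ℕ) (hk : k ∈ mvs3 c d)
      (e : kvec k = kvec d - (2 : ℤ) • ev b) : Mv3 P c d

theorem mem_mvs3 {c : Cl3} (h : Cl3OK c) {d k : List ℕ} {a b : ℕ} (ha : a ∈ clV3 c) (hb : b ∈ clV3 c)
    (hk : k = b :: delK a d ∨ k = delK b (delK a d) ∨ k = delK b (delK a (delK b (delK a d))))
    (hm : kvec k ∈ pcS3 (exP3 c)) : k ∈ mvs3 c d := by
  unfold mvs3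
  rw [List.mem_filter]
  refine ⟨List.mem_flatMap.2 ⟨a, ha, List.mem_flatMap.2 ⟨b, hb, ?_⟩⟩, pmem3_complete (card43_exP3 h) hm⟩
  simp only [List.mem_cons, List.not_mem_nil, or_false]
  exact hk

theorem mvs3_sound {c : Cl3} {d k : List ℕ} (hk : k ∈ mvs3 c d) : kvec k ∈ pcS3 (exP3 c) := by
  unfold mvs3 at hk
  exact pmem3_sound (List.mem_filter.1 hk).2

theorem Mv3.mkPlus {P : ℕ → Bool} {c : Cl3} (h : Cl3OK c) {d : List ℕ} {a b : ℕ} (ha : a ∈ clV3 c) (hb : b ∈ clV3 c)
    (hab : a ≠ b) (hP : P b = true) (had : a ∈ d) (hm : kvec d - ev a + ev b ∈ pcS3 (exP3 c)) : Mv3 P c d := by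
  have e : kvec (b :: delK a d) = kvec d - ev a + ev b := by
    rw [kv_cons, kv_del had]
    abel
  exact Mv3.plus a b ha hb hab hP _ (mem_mvs3 h ha hb (Or.inl rfl) (by rw [e]; exact hm)) e

theorem Mv3.mkDigon {P : ℕ → Bool} {c : Cl3} (h : Cl3OK c) {d : List ℕ} {a b : ℕ} (ha : a ∈ clV3 c) (hb : b ∈ clV3 c)
    (hab : a ≠ b) (hPa : P a = false) (hPb : P b = false) (had : d = [a, a, b, b])
    (he : s(a, b) ∈ fs (clE3 c)) : Mv3 P c d := by
  subst had
  have ve : kvec [a, a, b, b] = (2 : ℤ) • ev a + (2 : ℤ) • ev b := by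
    rw [kv_cons, kv_cons, kv_cons, kv_cons, kv_nil]
    module
  have m1 : b ∈ delK a [a, a, b, b] := mem_delK (by simp) (Or.inl hab.symm)
  have e1 : kvec (delK b (delK a [a, a, b, b])) = kvec [a, a, b, b] - ev a - ev b := by
    rw [kv_del m1, kv_del (by simp)]
  have m2 : a ∈ delK b (delK a [a, a, b, b]) := by
    refine mem_delK (mem_delK (by simp) (Or.inr ?_)) (Or.inl hab)
    simp [hab.symm]
  have m3 : b ∈ delK a (delK b (delK a [a, a, b, b])) := by
    refine mem_delK (mem_delK m1 (Or.inr ?_)) (Or.inl hab.symm)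
    rw [count_delK, if_neg hab.symm]
    simp [hab]
  have e2 : kvec (delK b (delK a (delK b (delK a [a, a, b, b])))) =
      kvec [a, a, b, b] - (2 : ℤ) • ev a - (2 : ℤ) • ev b := by
    rw [kv_del m3, kv_del m2, e1]
    module
  refine Mv3.digon a b ha hb hab hPa hPb _ _ (mem_mvs3 h ha hb (Or.inr (Or.inl rfl)) ?_)
    (mem_mvs3 h ha hb (Or.inr (Or.inr rfl)) ?_) e1 e2
  · rw [e1, ve]
    have := j3_edge hab he
    convert this using 1
    module
  · rw [e2, ve]
    have := j3_zero c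
    convert this using 1
    module

theorem Mv3.mkSq {P : ℕ → Bool} {c : Cl3} (h : Cl3OK c) {b : ℕ} (hb : b ∈ clV3 c) (hP : P b = false) :
    Mv3 P c [b, b] := by
  have e : kvec (delK b (delK b [b, b])) = kvec [b, b] - (2 : ℤ) • ev b := by
    rw [kv_del (mem_delK (by simp) (Or.inr (by simp))), kv_del (by simp)]
    module
  refine Mv3.sq b hb hP _ (mem_mvs3 h hb hb (Or.inr (Or.inl rfl)) ?_) e
  rw [e, kv2]
  have := j3_zero c
  convert this using 1
  module

theorem kv6 (a b l : ℕ) : kvec [a, a, b, b, l, l] = (2 : ℤ) • ev a + (2 : ℤ) • ev b + (2 : ℤ) • ev l := by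
  rw [kv_cons, kv_cons, kv_cons, kv_cons, kv_cons, kv_cons, kv_nil]
  module

theorem mem_ltf {a l : ℕ} {L : List ℕ} : l ∈ ltf a L ↔ l ∈ L ∧ l ≠ a := by
  simp [ltf]

/-- the list without one of its four elements -/
theorem ltf_four {L : List ℕ} (hn : L.Nodup) (h4 : L.length = 4) {v : ℕ} (hv : v ∈ L) :
    ∃ a b d, ltf v L = [a, b, d] ∧ Dist4 a b d v ∧ a ∈ L ∧ b ∈ L ∧ d ∈ L := by
  have h1 : (ltf v L).length = 3 := by
    have h2 : ltf v L = L.erase v := by
      rw [hn.erase_eq_filter]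
      unfold ltf
      refine List.filter_congr fun l _ => ?_
      rw [Bool.eq_iff_iff]
      simp
    rw [h2, List.length_erase_of_mem hv, h4]
  have hn' : (ltf v L).Nodup := hn.filter _
  obtain ⟨a, b, d, h⟩ := List.length_eq_three.1 h1
  have ha := mem_ltf.1 (show a ∈ ltf v L by rw [h]; simp)
  have hb := mem_ltf.1 (show b ∈ ltf v L by rw [h]; simp)
  have hd := mem_ltf.1 (show d ∈ ltf v L by rw [h]; simp)
  rw [h] at hn'
  simp only [List.nodup_cons, List.mem_cons, List.not_mem_nil, or_false, not_or, not_false_eq_true,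
    List.nodup_nil, and_true] at hn'
  exact ⟨a, b, d, h, ⟨hn'.1.1, hn'.1.2, ha.2, hn'.2, hb.2, hd.2⟩, ha.1, hb.1, hd.1⟩

/-- **Every additional vector falls under one of the three cases of the digon lemma** -/
theorem psi3_moves (P : ℕ → Bool) {c : Cl3} (h : Cl3OK c) {d : List ℕ} (hd : d ∈ digs3 c (psi3 P c)) : Mv3 P c d := by
  have hok := psi3_ok P h
  obtain ⟨b, x, y, L⟩ := c
  by_cases h0 : b = 0
  · -- `K4`
    subst h0
    have hn := h.nd
    have h4 := h.k4 rfl
    have hvL := hok.k4 rfl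
    simp only at hn h4 hvL
    have hps : (psi3 P (0, x, y, L)).2 = (L.filter P).headD (L.headD 0) := by simp [psi3]
    obtain ⟨v, hv⟩ : ∃ v, v = (psi3 P (0, x, y, L)).2 := ⟨_, rfl⟩
    rw [← hv] at hvL hps
    obtain ⟨a, b, e, hl, ⟨ab, ae, av, be, bv, ev'⟩, haL, hbL, heL⟩ := ltf_four hn h4 hvL
    have mL : ∀ m ∈ L, m ∈ clV3 (0, x, y, L) := fun m hm => by simpa [clV3] using hm
    simp only [digs3, decide_true, cond_true] at hd
    rw [← hv, hl] at hd
    simp only [List.tail_cons, List.headD_cons, List.mem_cons, List.not_mem_nil, or_false] at hd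
    by_cases hf : L.filter P = []
    · -- no vertex is `PLUS`
      have hPl : ∀ l ∈ L, P l = false := by
        intro l hl
        by_contra hh
        rw [Bool.not_eq_false] at hh
        have : l ∈ L.filter P := List.mem_filter.2 ⟨hl, hh⟩
        rw [hf] at this
        simp at this
      rcases hd with rfl | rfl | rfl
      · exact Mv3.mkSq h (mL b hbL) (hPl b hbL)
      · exact Mv3.mkSq h (mL e heL) (hPl e heL)
      · exact Mv3.mkDigon h (mL b hbL) (mL e heL) be (hPl b hbL) (hPl e heL) rfl (c3_k4 hbL heL be)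
    · have hPv : P v = true := by
        rw [hps]
        exact (List.mem_filter.1 (headD_memK hf _)).2
      rcases hd with rfl | rfl | rfl
      · refine Mv3.mkPlus h (mL b hbL) (mL v hvL) bv hPv (by simp) ?_
        rw [kv2]
        have := j3_edge (c := (0, x, y, L)) bv (c3_k4 hbL hvL bv)
        convert this using 1
        module
      · refine Mv3.mkPlus h (mL e heL) (mL v hvL) ev' hPv (by simp) ?_
        rw [kv2]
        have := j3_edge (c := (0, x, y, L)) ev' (c3_k4 heL hvL ev')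
        convert this using 1
        module
      · refine Mv3.mkPlus h (mL b hbL) (mL v hvL) bv hPv (by simp) ?_
        rw [kv4]
        have := j3_path (c := (0, x, y, L)) be ev' bv (c3_k4 hbL heL be) (c3_k4 heL hvL ev')
        convert this using 1
        module
  · obtain ⟨hxy, hxL, hyL, h2⟩ := h.k2 h0
    simp only at hxy hxL hyL h2
    have mx : x ∈ clV3 (b, x, y, L) := by simp [clV3, h0]
    have my : y ∈ clV3 (b, x, y, L) := by simp [clV3, h0]
    have mL : ∀ m ∈ L, m ∈ clV3 (b, x, y, L) := fun m hm => by simp [clV3, h0, hm]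
    -- the path `w l w'`
    have hpath : ∀ w w' l : ℕ, l ∈ L → (w = x ∨ w = y) → (w' = x ∨ w' = y) → w ≠ w' → P w' = true →
        w ∈ clV3 (b, x, y, L) → w' ∈ clV3 (b, x, y, L) → Mv3 P (b, x, y, L) [w, w, l, l] := by
      intro w w' l hl hw hw' hww hP m1 m2
      have hcen : ∀ w, (w = x ∨ w = y) → l ≠ w := by
        rintro w (rfl | rfl) rfl
        · exact hxL hl
        · exact hyL hl
      have hlw := hcen w hw
      have hlw' := hcen w' hw'
      refine Mv3.mkPlus h m1 m2 hww hP (by simp) ?_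
      rw [kv4]
      have := j3_path (c := (b, x, y, L)) (u := w) (v := l) (w := w') hlw.symm hlw' hww (c3_edge h0 hw hl)
        (by rw [Sym2.eq_swap]; exact c3_edge h0 hw' hl)
      convert this using 1
      module
    -- the path `l w m`
    have hpath2 : ∀ l m : ℕ, l ∈ L → m ∈ L → l ≠ m → P m = true → Mv3 P (b, x, y, L) [x, x, l, l] := by
      intro l m hl hm hlm hP
      have hlx : l ≠ x := fun e => hxL (e ▸ hl)
      have hmx : m ≠ x := fun e => hxL (e ▸ hm)
      refine Mv3.mkPlus h (mL l hl) (mL m hm) hlm hP (by simp) ?_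
      rw [kv4]
      have := j3_path (c := (b, x, y, L)) (u := l) (v := x) (w := m) hlx hmx.symm hlm
        (by rw [Sym2.eq_swap]; exact c3_edge h0 (Or.inl rfl) hl) (c3_edge h0 (Or.inl rfl) hm)
      convert this using 1
      module
    have hdig : ∀ l ∈ L, P x = false → P l = false → Mv3 P (b, x, y, L) [x, x, l, l] := by
      intro l hl hPx hPl
      have hlx : l ≠ x := fun e => hxL (e ▸ hl)
      exact Mv3.mkDigon h mx (mL l hl) hlx.symm hPx hPl rfl (c3_edge h0 (Or.inl rfl) hl)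
    have hfil : L.filter P = [] → ∀ l ∈ L, P l = false := by
      intro hf l hl
      by_contra hh
      rw [Bool.not_eq_false] at hh
      have : l ∈ L.filter P := List.mem_filter.2 ⟨hl, hh⟩
      rw [hf] at this
      simp at this
    by_cases h1 : b = 1
    · subst h1
      cases hy : P y with
      | true =>
        have e : psi3 P (1, x, y, L) = (x, L.headD 0) := by simp [psi3, hy]
        rw [e] at hd
        simp only [digs3, one_ne_zero, decide_false, cond_false, decide_true, cond_true, List.mem_map, mem_ltf] at hd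
        obtain ⟨l, ⟨hl, hlc⟩, rfl⟩ := hd
        exact hpath x y l hl (Or.inl rfl) (Or.inr rfl) hxy hy mx my
      | false =>
        cases hx : P x with
        | true =>
          have e : psi3 P (1, x, y, L) = (y, L.headD 0) := by simp [psi3, hy, hx]
          rw [e] at hd
          simp only [digs3, one_ne_zero, decide_false, cond_false, decide_true, cond_true, List.mem_map,
            mem_ltf] at hd
          obtain ⟨l, ⟨hl, hlc⟩, rfl⟩ := hd
          exact hpath y x l hl (Or.inr rfl) (Or.inl rfl) hxy.symm hx my mx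
        | false =>
          have e : psi3 P (1, x, y, L) = (x, (L.filter P).headD (L.headD 0)) := by simp [psi3, hy, hx]
          rw [e] at hd
          simp only [digs3, one_ne_zero, decide_false, cond_false, decide_true, cond_true, List.mem_map,
            mem_ltf] at hd
          obtain ⟨l, ⟨hl, hlc⟩, rfl⟩ := hd
          by_cases hf : L.filter P = []
          · exact hdig l hl hx (hfil hf l hl)
          · have hm := headD_memK hf (L.headD 0)
            rw [List.mem_filter] at hm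
            exact hpath2 l _ hl hm.1 hlc hm.2
    · have hne : ∀ m, m ∈ L → m ≠ x := by
        rintro m hm rfl
        exact hxL hm
      cases hy : P y with
      | true =>
        have e : psi3 P (b, x, y, L) = (x, x) := by simp [psi3, hy, h0, h1]
        rw [e] at hd
        simp only [digs3, h0, h1, decide_false, cond_false, decide_true, cond_true, List.mem_map] at hd
        obtain ⟨l, hl, rfl⟩ := hd
        exact hpath x y l hl (Or.inl rfl) (Or.inr rfl) hxy hy mx my
      | false =>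
        cases hx : P x with
        | true =>
          have e : psi3 P (b, x, y, L) = (y, y) := by simp [psi3, hy, hx, h0, h1]
          rw [e] at hd
          simp only [digs3, h0, h1, decide_false, cond_false, decide_true, cond_true, List.mem_map] at hd
          obtain ⟨l, hl, rfl⟩ := hd
          exact hpath y x l hl (Or.inr rfl) (Or.inl rfl) hxy.symm hx my mx
        | false =>
          by_cases hf : L.filter P = []
          · have e : psi3 P (b, x, y, L) = (x, x) := by simp [psi3, hy, hx, h0, h1, hf]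
            rw [e] at hd
            simp only [digs3, h0, h1, decide_false, cond_false, decide_true, cond_true, List.mem_map] at hd
            obtain ⟨l, hl, rfl⟩ := hd
            exact hdig l hl hx (hfil hf l hl)
          · have hm := headD_memK hf x
            obtain ⟨m, hm'⟩ : ∃ m, m = (L.filter P).headD x := ⟨_, rfl⟩
            have e : psi3 P (b, x, y, L) = (x, m) := by simp [psi3, hy, hx, h0, h1, hm']
            rw [← hm', List.mem_filter] at hm
            have hmx := hne m hm.1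
            have hmy : m ≠ y := fun e => hyL (e ▸ hm.1)
            rw [e] at hd
            simp only [digs3, h0, h1, hmx, oth, decide_false, cond_false, if_true, List.mem_append, List.mem_cons,
              List.mem_map, mem_ltf] at hd
            rcases hd with ⟨l, ⟨hl, hlm⟩, rfl⟩ | rfl | ⟨l, ⟨hl, hlm⟩, rfl⟩
            · exact hpath2 l m hl hm.1 hlm hm.2
            · refine Mv3.mkPlus h my (mL m hm.1) hmy.symm hm.2 (by simp) ?_
              rw [kv4]
              have := j3_path (c := (b, x, y, L)) (u := y) (v := x) (w := m) hxy.symm hmx.symm hmy.symm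
                (by rw [Sym2.eq_swap]; exact c3_hub h0 h1) (c3_edge h0 (Or.inl rfl) hm.1)
              convert this using 1
              module
            · have hlx := hne l hl
              have hly : l ≠ y := fun e => hyL (e ▸ hl)
              refine Mv3.mkPlus h (mL l hl) (mL m hm.1) hlm hm.2 (by simp) ?_
              rw [kv6]
              have := j3_path3 (c := (b, x, y, L)) (u := l) (v := x) (w := y) (t := m)
                ⟨hlx, hly, hlm, hxy, hmx.symm, hmy.symm⟩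
                (by rw [Sym2.eq_swap]; exact c3_edge h0 (Or.inl rfl) hl) (c3_hub h0 h1)
                (c3_edge h0 (Or.inr rfl) hm.1)
              convert this using 1
              module

/-- **The digon lemma for the choice rule** -/
theorem psi3_lemD {I : ℕ → Prop} {H : ℕ → (ℕ → ℤ) → Prop} {o : ℕ → ℤ} {t k : ℕ} {Fm Fp : ℕ → Prop}
    (F : Facts I H o t k Fm Fp) {P : ℕ → Bool} (hP : ∀ v, P v = true ↔ Fm v ∧ ¬ Fp v) {c : Cl3} (h : Cl3OK c)
    (hI : ∀ v ∈ clV3 c, I v ∧ v ≠ t) {d : List ℕ} (hd : d ∈ digs3 c (psi3 P c))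
    (hk : ∀ m ∈ mvs3 c d, H k (o - kvec d + kvec m)) : ∃ z, Gv o t Fm Fp z ∧ H (k + 3) z := by
  have hP0 : ∀ v, P v = false → Fm v → Fp v := by
    intro v hv hm
    by_contra hp
    rw [(hP v).2 ⟨hm, hp⟩] at hv
    cases hv
  rcases psi3_moves P h hd with ⟨a, b, ha, hb, hab, hPb, m, hm, e⟩ |
    ⟨a, b, ha, hb, hab, hPa, hPb, m, m', hm, hm', e, e'⟩ | ⟨b, hb, hPb, m, hm, e⟩
  · have h1 := hk m hm
    rw [e] at h1
    have e2 : o - kvec d + (kvec d - ev a + ev b) = o - ev a + ev b := by abel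
    rw [e2] at h1
    exact lemD_plus F ((hP b).1 hPb).1 ((hP b).1 hPb).2 (hI a ha).1 (hI a ha).2 hab h1
  · have h1 := hk m hm
    have h2 := hk m' hm'
    rw [e] at h1
    rw [e'] at h2
    have e2 : o - kvec d + (kvec d - ev a - ev b) = o - ev a - ev b := by abel
    have e3 : o - kvec d + (kvec d - (2 : ℤ) • ev a - (2 : ℤ) • ev b) = o - (2 : ℤ) • ev a - (2 : ℤ) • ev b := by
      abel
    rw [e2] at h1
    rw [e3] at h2
    exact lemD_digon F (hI a ha).1 (hI b hb).1 (hI a ha).2 (hI b hb).2 hab (hP0 a hPa) (hP0 b hPb) h1 h2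
  · have h1 := hk m hm
    rw [e] at h1
    have e2 : o - kvec d + (kvec d - (2 : ℤ) • ev b) = o - (2 : ℤ) • ev b := by abel
    rw [e2] at h1
    exact lemD_sq F (hI b hb).2 (hP0 b hPb) h1

/-! ### polynomial time -/

section pt

variable {ι : Type} [DEnc ι]

theorem pt_clV3 {c : ι → Cl3} (hc : PT c) : PT (fun x => clV3 (c x)) := by
  have hL := PT.p2 (PT.p2 (PT.p2 hc))
  have hx := PT.p1 (PT.p2 hc)
  have hy := PT.p1 (PT.p2 (PT.p2 hc))
  unfold clV3
  exact PT.cond (PT.neq (PT.p1 hc) (PT.const 0)) hL (PT.cons hx (PT.cons hy hL))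

theorem pt_mvs3 {c : ι → Cl3} {d : ι → List ℕ} (hc : PT c) (hd : PT d) : PT (fun x => mvs3 (c x) (d x)) := by
  have hV := pt_clV3 hc
  unfold mvs3
  refine PT.filter (p := fun y : ι × List ℕ => pmem3 (exP3 (c y.1)) y.2) ?_
    (pt_pmem3 (pt_exP3 (hc.comp PT.fst)) PT.snd)
  refine PT.flatMap hV (g := fun y : ι × ℕ => (clV3 (c y.1)).flatMap fun b =>
    [b :: delK y.2 (d y.1), delK b (delK y.2 (d y.1)), delK b (delK y.2 (delK b (delK y.2 (d y.1))))]) ?_
  refine PT.flatMap (hV.comp PT.fst) (g := fun z : (ι × ℕ) × ℕ =>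
    [z.2 :: delK z.1.2 (d z.1.1), delK z.2 (delK z.1.2 (d z.1.1)),
      delK z.2 (delK z.1.2 (delK z.2 (delK z.1.2 (d z.1.1))))]) ?_
  have h1 : PT (fun z : (ι × ℕ) × ℕ => delK z.1.2 (d z.1.1)) := pt_delK PT.fst.p2 (hd.comp PT.fst.p1)
  have h2 : PT (fun z : (ι × ℕ) × ℕ => delK z.2 (delK z.1.2 (d z.1.1))) := pt_delK PT.snd h1
  have h3 : PT (fun z : (ι × ℕ) × ℕ => delK z.1.2 (delK z.2 (delK z.1.2 (d z.1.1)))) := pt_delK PT.fst.p2 h2
  exact PT.cons (PT.cons PT.snd h1) (PT.cons h2 (PT.cons (pt_delK PT.snd h3) (PT.const [])))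

theorem pt_psi3 {P : ι × ℕ → Bool} {c : ι → Cl3} (hP : PT P) (hc : PT c) :
    PT (fun x => psi3 (fun v => P (x, v)) (c x)) := by
  have hL := PT.p2 (PT.p2 (PT.p2 hc))
  have hx := PT.p1 (PT.p2 hc)
  have hy := PT.p1 (PT.p2 (PT.p2 hc))
  have h0 := PT.headD hL (PT.const 0)
  have hPx := hP.comp (PT.pair PT.id hx)
  have hPy := hP.comp (PT.pair PT.id hy)
  unfold psi3
  refine PT.cond (PT.neq (PT.p1 hc) (PT.const 0)) (PT.pair (PT.const 0) (PT.headD (PT.filter hL hP) h0)) ?_
  refine PT.cond (PT.neq (PT.p1 hc) (PT.const 1)) ?_ ?_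
  · exact PT.cond hPy (PT.pair hx h0)
      (PT.cond hPx (PT.pair hy h0) (PT.pair hx (PT.headD (PT.filter hL hP) h0)))
  · exact PT.cond hPy (PT.pair hx hx)
      (PT.cond hPx (PT.pair hy hy) (PT.pair hx (PT.headD (PT.filter hL hP) hx)))

end pt

end Pool.Agent.P34

end
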