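import Pool.Agent.PFN.M03
import Pool.Agent.PFN.M05

section -- file PF4/XRes

/-!
Resolution: two squares of a minimal blocking family do not share exactly one edge.
-/

set_option autoImplicit false
set_option linter.unusedSectionVars false
set_option linter.unusedSimpArgs false
set_option linter.unusedTactic false
set_option linter.unreachableTactic false

namespace Pool.Agent.PF4.XF

open Finset Pool.Agent.TFC Pool.Agent.TFC.CE

namespace Rs

/-- the sum of the degrees is even -/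
theorem par_dv {n : ℕ} {K : Finset (Sym2 ℕ)} (hK : NoLoop K) (hn : ∀ e ∈ K, ∀ v ∈ e, v < n) :
    Even (∑ v ∈ Finset.range (n + 1), dv K v) := by
  rw [dv_eq_sum hK]
  have h : ∑ v ∈ Finset.range (n + 1), (∑ e ∈ K, esum e) v = ∑ _e ∈ K, (2 : ℤ) := by
    simp only [Finset.sum_apply]
    rw [sum_comm]
    refine sum_congr rfl fun e he => ?_
    induction e using Sym2.ind with
    | _ a b =>
      have ha : a < n + 1 := (hn _ he a (by simp)).trans (Nat.lt_succ_self n)
      have hb : b < n + 1 := (hn _ he b (by simp)).trans (Nat.lt_succ_self n)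
      simp only [esum_mk, Pi.add_apply, sum_add_distrib, ev_apply]
      rw [sum_ite_eq', sum_ite_eq', if_pos (mem_range.2 ha), if_pos (mem_range.2 hb)]
      norm_num
  rw [h, sum_const, nsmul_eq_mul]
  exact ⟨(#K : ℤ), by ring⟩

theorem dv_split {L : Finset (Sym2 ℕ)} (hL : NoLoop L) (H : Finset (Sym2 ℕ)) (v : ℕ) :
    dv (L \ H) v + dv (L ∩ H) v = dv L v := by
  have h1 := dv_union (hL.mono (sdiff_subset (s := L) (t := H))) (hL.mono (inter_subset_left (s₁ := L) (s₂ := H)))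
    (disjoint_sdiff_inter L H)
  rw [sdiff_union_inter] at h1
  exact (congrFun h1 v).symm

theorem dg_zero {K : Finset (Sym2 ℕ)} {v : ℕ} (h : ∀ e ∈ K, v ∉ e) : dg K v = 0 := by
  unfold dg
  rw [card_eq_zero, filter_eq_empty_iff]
  exact fun e he => h e he

theorem FitK.le {X : XD} {O : Finset (Sym2 ℕ)} {k : ℕ → ℤ} (h : FitK X O k) {v : ℕ} (hv : v < X.n) :
    dv O v ≤ 2 - k v := by
  by_cases ht : v ∈ X.T
  · rw [h.t v ht]; linarith
  · have := (h.f v hv ht).2
    linarith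

section
variable {X : XD} {P : ℕ → Finset (Sym2 ℕ) → Prop} {D : Finset (Finset (Sym2 ℕ))} {j m : ℕ}
  {L1 L2 Z1 Z2 H : Finset (Sym2 ℕ)}

end

/-- exchange in few coordinates -/
theorem pull_st {n : ℕ} {f : Fin n → ℕ} (hf : Function.Injective f) (b : ℕ → ℤ) {A B : (ℕ → ℤ) → Prop}
    (hA : ∀ x, A x → ∀ y, A y → ∀ (i : Fin n) (ε : ℤ), (ε = 1 ∨ ε = -1) → 0 < ε * (y (f i) - x (f i)) →
      ∃ z, B z ∧ Two x y z (f i) ε)
    {k l : Fin n → ℤ} (hk : A (b - put f k)) (hl : A (b - put f l)) (i : Fin n) (ε : ℤ)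
    (hε : ε = 1 ∨ ε = -1) (hpos : 0 < ε * (l i - k i)) :
    ∃ (j : Fin n) (δ : ℤ), (δ = 1 ∨ δ = -1) ∧ 0 < δ * (l j - (k + Pi.single i ε : Fin n → ℤ) j) ∧
      B (b - put f (k + Pi.single i ε + Pi.single j δ)) := by
  have h1 : 0 < (-ε) * ((b - put f l : ℕ → ℤ) (f i) - (b - put f k : ℕ → ℤ) (f i)) := by
    simp only [Pi.sub_apply, put_apply hf]
    have : (-ε) * (b (f i) - l i - (b (f i) - k i)) = ε * (l i - k i) := by ring
    rw [this]
    exact hpos
  obtain ⟨z, hz, j, δ, hδ, hj, hm⟩ := hA _ hk _ hl i (-ε) (by omega) h1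
  have hr : ∃ j', f j' = j := by
    by_contra hne
    push Not at hne
    simp only [Pi.add_apply, Pi.sub_apply, put_of_not l hne, put_of_not k hne,
      Pi.single_eq_of_ne (fun e : j = f i => hne i e.symm)] at hj
    simp at hj
  obtain ⟨j', rfl⟩ := hr
  have e1 : (b - put f k + Pi.single (f i) (-ε) : ℕ → ℤ) = b - put f (k + Pi.single i ε) := by
    rw [put_add, put_single, Pi.single_neg]; abel
  refine ⟨j', -δ, by omega, ?_, ?_⟩
  · rw [e1] at hj
    simp only [Pi.sub_apply, put_apply hf] at hj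
    have e2 : δ * (b (f j') - l j' - (b (f j') - (k + Pi.single i ε : Fin n → ℤ) j')) =
        -δ * (l j' - (k + Pi.single i ε : Fin n → ℤ) j') := by ring
    rw [e2] at hj
    exact hj
  · rw [e1] at hm
    rw [put_add, put_single]
    have e3 : b - (put f (k + Pi.single i ε) + (Pi.single (f j') (-δ) : ℕ → ℤ)) =
        b - put f (k + Pi.single i ε) + Pi.single (f j') δ := by
      rw [Pi.single_neg]; abel
    rw [e3, ← hm]
    exact hz

/-- staged jump sets -/
def SJ (A B : Set (Fin 4 → ℤ)) : Prop := ∀ a ∈ A, ∀ b ∈ A, ∀ (i : Fin 4) (ε : ℤ), (ε = 1 ∨ ε = -1) →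
  0 < ε * (b i - a i) → ∃ (j : Fin 4) (δ : ℤ), (δ = 1 ∨ δ = -1) ∧
    0 < δ * (b j - (a + Pi.single i ε : Fin 4 → ℤ) j) ∧ a + Pi.single i ε + Pi.single j δ ∈ B

lemma SJ.step {A B : Set (Fin 4 → ℤ)} (hP : SJ A B) {a b : Fin 4 → ℤ} (ha : a ∈ A) (hb : b ∈ A)
    (i : Fin 4) (ε : ℤ) (hε : ε = 1 ∨ ε = -1) (h : 0 < ε * (b i - a i)) (c : Fin 4 → ℤ)
    (hc : c = a + Pi.single i ε) :
    ∃ j : Fin 4, (c j < b j ∧ c + Pi.single j 1 ∈ B) ∨ (b j < c j ∧ c + Pi.single j (-1) ∈ B) := by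
  obtain ⟨j, δ, hδ, hj, hm⟩ := hP a ha b hb i ε hε h
  rw [← hc] at hj hm
  refine ⟨j, ?_⟩
  rcases hδ with rfl | rfl
  · exact Or.inl ⟨by linarith, hm⟩
  · exact Or.inr ⟨by linarith, hm⟩

theorem four_st {P : ℕ → Set (Fin 4 → ℤ)} (hm : ∀ t, P t ⊆ P (t + 1)) (hJ : ∀ t, SJ (P t) (P (t + 1)))
    (h1 : ![2, 2, 0, 0] ∈ P 0) (h2 : ![0, 0, 2, 2] ∈ P 0) :
    ![1, 1, 0, 0] ∈ P 3 ∨ ![1, 2, 0, 1] ∈ P 3 ∨ ![0, 0, 0, 0] ∈ P 3 ∨ ![0, 1, 0, 1] ∈ P 3 ∨
    ![2, 1, 1, 0] ∈ P 3 ∨ ![1, 1, 2, 2] ∈ P 3 ∨ ![1, 0, 2, 1] ∈ P 3 ∨ ![1, 1, 1, 1] ∈ P 3 ∨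
    ![1, 0, 1, 0] ∈ P 3 := by
  have M2' : P 2 ⊆ P 3 := hm 2
  have M1' : P 1 ⊆ P 3 := (hm 1).trans M2'
  have M3' : P 3 ⊆ P 3 := le_rfl
  have a1 := hm 0 h1
  have a2 := hm 0 h2
  have b1 := hm 1 a1
  by_contra hno
  simp only [not_or] at hno
  obtain ⟨g1, g2, g3, g4, g5, g6, g7, g8, g9⟩ := hno
  have s1 : ![0, 2, 0, 0] ∈ P 1 ∨ ![1, 2, 1, 0] ∈ P 1 := by
    obtain ⟨j, h⟩ := (hJ 0).step h1 h2 0 (-1) (Or.inr rfl) (by decide) ![1, 2, 0, 0] (by decide)
    fin_cases j
    · rcases h with ⟨h, -⟩ | ⟨-, h⟩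
      · exact absurd h (by decide)
      · exact Or.inl (by convert h using 1; decide)
    · rcases h with ⟨h, -⟩ | ⟨-, h⟩
      · exact absurd h (by decide)
      · exact absurd (M1' (by convert h using 1; decide)) g1
    · rcases h with ⟨-, h⟩ | ⟨h, -⟩
      · exact Or.inr (by convert h using 1; decide)
      · exact absurd h (by decide)
    · rcases h with ⟨-, h⟩ | ⟨h, -⟩
      · exact absurd (M1' (by convert h using 1; decide)) g2
      · exact absurd h (by decide)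
  rcases s1 with k1 | k1
  · have s2 : ![0, 1, 1, 0] ∈ P 2 := by
      obtain ⟨j, h⟩ := (hJ 1).step k1 a2 1 (-1) (Or.inr rfl) (by decide) ![0, 1, 0, 0] (by decide)
      fin_cases j
      · rcases h with ⟨h, -⟩ | ⟨h, -⟩
        · exact absurd h (by decide)
        · exact absurd h (by decide)
      · rcases h with ⟨h, -⟩ | ⟨-, h⟩
        · exact absurd h (by decide)
        · exact absurd (M2' (by convert h using 1; decide)) g3
      · rcases h with ⟨-, h⟩ | ⟨h, -⟩
        · convert h using 1; decide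
        · exact absurd h (by decide)
      · rcases h with ⟨-, h⟩ | ⟨h, -⟩
        · exact absurd (M2' (by convert h using 1; decide)) g4
        · exact absurd h (by decide)
    obtain ⟨j, h⟩ := (hJ 2).step b1 s2 1 (-1) (Or.inr rfl) (by decide) ![2, 1, 0, 0] (by decide)
    fin_cases j
    · rcases h with ⟨h, -⟩ | ⟨-, h⟩
      · exact absurd h (by decide)
      · exact absurd (M3' (by convert h using 1; decide)) g1
    · rcases h with ⟨h, -⟩ | ⟨h, -⟩
      · exact absurd h (by decide)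
      · exact absurd h (by decide)
    · rcases h with ⟨-, h⟩ | ⟨h, -⟩
      · exact absurd (M3' (by convert h using 1; decide)) g5
      · exact absurd h (by decide)
    · rcases h with ⟨h, -⟩ | ⟨h, -⟩
      · exact absurd h (by decide)
      · exact absurd h (by decide)
  · have s2 : ![1, 0, 1, 2] ∈ P 2 := by
      obtain ⟨j, h⟩ := (hJ 1).step a2 k1 0 1 (Or.inl rfl) (by decide) ![1, 0, 2, 2] (by decide)
      fin_cases j
      · rcases h with ⟨h, -⟩ | ⟨h, -⟩
        · exact absurd h (by decide)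
        · exact absurd h (by decide)
      · rcases h with ⟨-, h⟩ | ⟨h, -⟩
        · exact absurd (M2' (by convert h using 1; decide)) g6
        · exact absurd h (by decide)
      · rcases h with ⟨h, -⟩ | ⟨-, h⟩
        · exact absurd h (by decide)
        · convert h using 1; decide
      · rcases h with ⟨h, -⟩ | ⟨-, h⟩
        · exact absurd h (by decide)
        · exact absurd (M2' (by convert h using 1; decide)) g7
    obtain ⟨j, h⟩ := (hJ 2).step s2 (hm 1 k1) 3 (-1) (Or.inr rfl) (by decide) ![1, 0, 1, 1] (by decide)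
    fin_cases j
    · rcases h with ⟨h, -⟩ | ⟨h, -⟩
      · exact absurd h (by decide)
      · exact absurd h (by decide)
    · rcases h with ⟨-, h⟩ | ⟨h, -⟩
      · exact absurd (M3' (by convert h using 1; decide)) g8
      · exact absurd h (by decide)
    · rcases h with ⟨h, -⟩ | ⟨h, -⟩
      · exact absurd h (by decide)
      · exact absurd h (by decide)
    · rcases h with ⟨h, -⟩ | ⟨-, h⟩
      · exact absurd h (by decide)
      · exact absurd (M3' (by convert h using 1; decide)) g9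


section six

variable {X : XD} {P : ℕ → Finset (Sym2 ℕ) → Prop} {D : Finset (Finset (Sym2 ℕ))} {j m : ℕ}
  {L1 L2 : Finset (Sym2 ℕ)} {x y p q r t : ℕ}

end six

section five

variable {X : XD} {P : ℕ → Finset (Sym2 ℕ) → Prop} {D : Finset (Finset (Sym2 ℕ))} {j m : ℕ}
  {L1 L2 : Finset (Sym2 ℕ)} {x y p q r : ℕ}

end five

end Rs

end Pool.Agent.PF4.XF

end
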