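import Pool.Agent.PFN.M04
import Pool.Agent.PFN.M06
import Pool.Agent.PFN.M07
import Pool.Agent.PFN.M11
import Pool.Agent.PFN.M13

section -- file PF4/Asm

/-!
The final assembly: 2F({4}) is in P if there are functions `solver` and `xf` as in `SX`.
-/

set_option autoImplicit false

namespace Pool.Agent.PF4

open Finset Pool.Agent.TFC Pool.Agent.Lib.helper60 TF4

section
variable {n : ℕ}

theorem ncard_adj {F : SimpleGraph (Fin n)} {z : Finset (Sym2 ℕ)}
    (h : ∀ u v : Fin n, F.Adj u v ↔ s(u.val, v.val) ∈ z) (hz : ∀ e ∈ z, ∀ v ∈ e, v < n) (v : Fin n) :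
    {u | F.Adj v u}.ncard = dg z v.val := by
  have hinj : Function.Injective (fun u : Fin n => s(v.val, u.val)) := fun a b hab =>
    Fin.ext (Sym2.congr_right.mp hab)
  rw [← Set.ncard_image_of_injective _ hinj]
  have he : (fun u : Fin n => s(v.val, u.val)) '' {u | F.Adj v u} =
      ((z.filter (fun e => v.val ∈ e) : Finset (Sym2 ℕ)) : Set (Sym2 ℕ)) := by
    ext e
    simp only [Set.mem_image, Set.mem_ofPred_eq, coe_filter]
    constructor
    · rintro ⟨u, hu, rfl⟩
      exact ⟨(h v u).mp hu, Sym2.mem_mk_left _ _⟩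
    · rintro ⟨he, hv⟩
      obtain ⟨u, rfl⟩ := hv
      have hu : u < n := hz _ he u (Sym2.mem_mk_right _ _)
      exact ⟨⟨u, hu⟩, (h v ⟨u, hu⟩).mpr he, rfl⟩
  rw [he, Set.ncard_coe_finset]
  rfl

variable {G : SimpleGraph (Fin n)} {E : List (ℕ × ℕ)}

theorem insWF_of (hE : E.Nodup) (h1 : ∀ e ∈ E, e.1 < e.2 ∧ e.2 < n) : InsWF (n, E) := by
  refine ⟨?_, ?_, ?_⟩
  · show (E.map fe).Nodup
    refine hE.map_on ?_
    rintro ⟨a, b⟩ he ⟨a', b'⟩ hf h
    have k1 := h1 _ he
    have k2 := h1 _ hf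
    simp only at k1 k2
    unfold fe at h
    simp only [Sym2.eq_iff] at h
    rcases h with ⟨rfl, rfl⟩ | ⟨rfl, rfl⟩
    · rfl
    · omega
  · intro e he
    obtain ⟨f, hf, rfl⟩ := mem_fs.1 he
    have := h1 f hf
    unfold fe
    rw [Sym2.mk_isDiag_iff]
    omega
  · intro e he
    have := h1 e he
    exact ⟨by show e.1 < n; omega, this.2⟩

theorem mem_fs_E (h1 : ∀ e ∈ E, e.1 < e.2 ∧ e.2 < n)
    (h2 : ∀ u v : Fin n, u < v → (G.Adj u v ↔ (u.val, v.val) ∈ E)) (u v : Fin n) :
    s(u.val, v.val) ∈ fs E ↔ G.Adj u v := by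
  have key : ∀ u v : Fin n, u < v → (s(u.val, v.val) ∈ fs E ↔ G.Adj u v) := by
    intro u v huv
    rw [h2 u v huv, mem_fs]
    constructor
    · rintro ⟨⟨a, b⟩, he, h⟩
      have k := h1 _ he
      simp only at k
      unfold fe at h
      simp only [Sym2.eq_iff] at h
      have huv' : u.val < v.val := huv
      rcases h with ⟨rfl, rfl⟩ | ⟨rfl, rfl⟩
      · exact he
      · omega
    · intro h
      exact ⟨_, h, rfl⟩
  rcases lt_trichotomy u v with h | h | h
  · exact key u v h
  · subst h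
    constructor
    · intro h
      obtain ⟨f, hf, h⟩ := mem_fs.1 h
      have k := h1 f hf
      unfold fe at h
      simp only [Sym2.eq_iff] at h
      omega
    · intro h; exact absurd h (G.irrefl)
  · rw [Sym2.eq_swap, key v u h]
    exact ⟨fun h => h.symm, fun h => h.symm⟩

end

end Pool.Agent.PF4

end

section -- file PF4/SX2

/-!
# 2F({4}) is in P, given `solver` and `xf1`

The interface `SX2` of the two missing functions (dead-list form), only for demands with the values `0` and `2`: a vertex `v` of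
demand `1` is replaced by a vertex of demand `2` with a pendant edge.
-/

set_option autoImplicit false

namespace Pool.Agent.PF4

open Finset Pool.Agent.TFC Pool.Agent.Lib.helper60

/-- the demand is `0` or `2` everywhere -/
def Ev (x : Ins) (g : List ℕ) : Prop := ∀ u < x.1, g.getD u 0 = 0 ∨ g.getD u 0 = 2

/-! ### the pendant edge -/

/-- the vertex of demand 1 (`n` if there is none) -/
def pv (n : ℕ) (g : List ℕ) : ℕ := ((List.range n).filter (fun u => decide (g.getD u 0 = 1))).headD n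

/-- the instance with a pendant edge at `v` -/
def padX (x : Ins) (v : ℕ) : Ins := (x.1 + 1, (v, x.1) :: x.2)

/-- the demand with the pendant edge at `v` -/
def padG (n : ℕ) (g : List ℕ) (v : ℕ) : List ℕ :=
  (List.range (n + 1)).map (fun u => if u = v then 2 else g.getD u 0)

/-- use the pendant edge if possible -/
def padM (v n : ℕ) (M : List Ed) : List Ed := if degL M v ≤ 1 then (v, n) :: M else M

/-- the table with the pendant edge -/
def padW (v n : ℕ) (W : List (ℕ × List Ed)) : List (ℕ × List Ed) := W.map (fun p => (p.1, padM v n p.2))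

theorem pv_none {n : ℕ} {g : List ℕ} (h : pv n g = n) : ∀ u < n, g.getD u 0 ≠ 1 := by
  intro u hu h1
  have hm : u ∈ (List.range n).filter (fun u => decide (g.getD u 0 = 1)) :=
    List.mem_filter.2 ⟨List.mem_range.2 hu, by simpa using h1⟩
  unfold pv at h
  cases hc : (List.range n).filter (fun u => decide (g.getD u 0 = 1)) with
  | nil => rw [hc] at hm; simp at hm
  | cons a l =>
    rw [hc] at h
    have ha : a ∈ (List.range n).filter (fun u => decide (g.getD u 0 = 1)) := by
      rw [hc]; exact List.mem_cons_self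
    have := List.mem_range.1 (List.mem_filter.1 ha).1
    simp only [List.headD_cons] at h
    omega

theorem pv_some {n : ℕ} {g : List ℕ} (h : pv n g ≠ n) : pv n g < n ∧ g.getD (pv n g) 0 = 1 := by
  unfold pv at h ⊢
  cases hc : (List.range n).filter (fun u => decide (g.getD u 0 = 1)) with
  | nil => rw [hc] at h; exact absurd rfl h
  | cons a l =>
    have ha : a ∈ (List.range n).filter (fun u => decide (g.getD u 0 = 1)) := by
      rw [hc]; exact List.mem_cons_self
    obtain ⟨h1, h2⟩ := List.mem_filter.1 ha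
    exact ⟨List.mem_range.1 h1, of_decide_eq_true h2⟩

section pend

variable {x : Ins} {v : ℕ}

theorem pend_notMem (hx : InsWF x) {M : List Ed} (hM : fs M ⊆ fs x.2) : s(v, x.1) ∉ fs M := by
  intro h
  exact absurd (hx.vlt (hM h) (Sym2.mem_mk_right _ _)) (lt_irrefl _)

theorem padX_wf (hx : InsWF x) (hv : v < x.1) : InsWF (padX x v) := by
  refine ⟨?_, ?_, ?_⟩
  · show (((v, x.1) :: x.2).map fe).Nodup
    rw [List.map_cons, List.nodup_cons]
    refine ⟨fun h => pend_notMem (v := v) hx (Finset.Subset.refl _) ?_, hx.wf⟩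
    rw [fs, List.mem_toFinset]
    exact h
  · show NoLoop (fs ((v, x.1) :: x.2))
    rw [fs_cons]
    exact hx.nl.insert (by omega)
  · intro e he
    rcases List.mem_cons.1 he with rfl | he
    · exact ⟨by show v < x.1 + 1; omega, by show x.1 < x.1 + 1; omega⟩
    · have := hx.lt e he
      exact ⟨by show e.1 < x.1 + 1; omega, by show e.2 < x.1 + 1; omega⟩

theorem fs_padX : fs (padX x v).2 = insert s(v, x.1) (fs x.2) := fs_cons _ _

theorem fs_padM (M : List Ed) : fs (padM v x.1 M) = if degL M v ≤ 1 then insert s(v, x.1) (fs M) else fs M := by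
  unfold padM
  split_ifs
  · rw [fs_cons]; rfl
  · rfl

theorem dg_out (hx : InsWF x) {M : List Ed} (hM : fs M ⊆ fs x.2) : dg (fs M) x.1 = 0 := by
  unfold dg
  rw [Finset.card_eq_zero, Finset.filter_eq_empty_iff]
  intro e he h
  exact absurd (hx.vlt (hM he) h) (lt_irrefl _)

theorem padM_wf (hx : InsWF x) {M : List Ed} (hM : MG x M) : WF (padM v x.1 M) := by
  unfold padM
  split_ifs
  · show (((v, x.1) :: M).map fe).Nodup
    rw [List.map_cons, List.nodup_cons]
    refine ⟨fun h => pend_notMem (v := v) hx hM.sub ?_, hM.wf⟩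
    rw [fs, List.mem_toFinset]
    exact h
  · exact hM.wf

theorem padM_dg (hx : InsWF x) {M : List Ed} (hM : MG x M) (u : ℕ) :
    dg (fs (padM v x.1 M)) u = dg (fs M) u + (if degL M v ≤ 1 then (if u ∈ s(v, x.1) then 1 else 0) else 0) := by
  rw [fs_padM]
  split_ifs with h1 h2
  · have := dg_insert (pend_notMem (v := v) hx hM.sub) u
    rw [if_pos h2] at this
    exact this
  · have := dg_insert (pend_notMem (v := v) hx hM.sub) u
    rw [if_neg h2] at this
    exact this
  · rfl

theorem padM_deg (hx : InsWF x) (hv : v < x.1) {M : List Ed} (hM : MG x M) :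
    (∀ u < x.1, u ≠ v → degL (padM v x.1 M) u = degL M u) ∧ 1 ≤ degL (padM v x.1 M) v ∧
      (1 ≤ degL M v → 2 ≤ degL (padM v x.1 M) v) := by
  have hd : ∀ u, degL (padM v x.1 M) u =
      degL M u + (if degL M v ≤ 1 then (if u ∈ s(v, x.1) then 1 else 0) else 0) := by
    intro u
    rw [degL_eq (padM_wf hx hM), padM_dg hx hM, ← degL_eq hM.wf]
  refine ⟨fun u hu huv => ?_, ?_, fun h => ?_⟩
  · rw [hd u, if_neg (c := u ∈ s(v, x.1))]
    · split_ifs <;> rfl
    · intro h
      rcases Sym2.mem_iff.1 h with h | h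
      · exact huv h
      · omega
  · rw [hd v, if_pos (c := v ∈ s(v, x.1)) (Sym2.mem_mk_left _ _)]
    split_ifs <;> omega
  · rw [hd v, if_pos (c := v ∈ s(v, x.1)) (Sym2.mem_mk_left _ _)]
    split_ifs <;> omega

theorem padM_mg (hx : InsWF x) (hv : v < x.1) {M : List Ed} (hM : MG x M) :
    MG (padX x v) (padM v x.1 M) := by
  refine ⟨padM_wf hx hM, ⟨?_, ?_⟩, ?_⟩
  · rw [fs_padM]
    split_ifs
    · exact hM.m2.nl.insert (by omega)
    · exact hM.m2.nl
  · intro u
    rw [padM_dg hx hM]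
    have h2 := hM.m2.le u
    split_ifs with h3 h4
    · rcases Sym2.mem_iff.1 h4 with rfl | rfl
      · rw [degL_eq hM.wf] at h3; omega
      · rw [dg_out hx hM.sub]; omega
    · omega
    · omega
  · rw [fs_padM]
    show _ ⊆ fs ((v, x.1) :: x.2)
    rw [fs_cons]
    split_ifs
    · exact Finset.insert_subset_insert _ hM.sub
    · exact hM.sub.trans (Finset.subset_insert _ _)

theorem padG_getD (n : ℕ) (g : List ℕ) (v u : ℕ) (hu : u < n + 1) :
    (padG n g v).getD u 0 = if u = v then 2 else g.getD u 0 := by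
  unfold padG
  rw [getD_map_range, if_pos hu]

end pend

end Pool.Agent.PF4

end

section -- file PF4/XW

/-!
From a world with stages to a world without stages: a closed stage is a jump set.
-/

set_option autoImplicit false

namespace Pool.Agent.PF4.XF

open Finset Pool.Agent.TFC Pool.Agent.PF4

/-- **one world at one cluster (or at a union of clusters), without stages**: `J` is a jump set -/
structure WJ (n : ℕ) (T V2 : Finset ℕ) (C ER PL : Finset (Sym2 ℕ)) (DC : Finset (Finset (Sym2 ℕ)))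
    (J : (ℕ → ℤ) → Prop) : Prop where
  jb : XC.JB J
  rg : ∀ k, J k → ∀ v < n, 0 ≤ k v ∧ k v ≤ 2
  off : ∀ k, J k → ∀ v < n, v ∉ V2 → k v = 0
  tok : ∀ k, J k → k n = 0 ∨ k n = 1
  up : ∀ k, J k → ∀ v, n < v → k v = 0
  par : ∀ k, J k → Even (∑ v ∈ Finset.range (n + 1), k v)
  /-- at a free vertex the demand may be lowered, the parity token is changed accordingly -/
  dn : ∀ k k', J k → (∀ v < n, v ∈ T → k' v = k v) → (∀ v < n, v ∉ T → 0 ≤ k' v ∧ k' v ≤ k v) →
    (k' n = 0 ∨ k' n = 1) → Even (∑ v ∈ Finset.range (n + 1), k' v) → (∀ v, n < v → k' v = 0) → J k'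
  /-- there is no completion without square of `D` -/
  blk : ∀ k, J k → ∀ K ⊆ C ∪ ER, M2 K → (∀ Z ∈ DC, ¬ Z ⊆ K) →
    (∀ e ∈ K, e ∉ C → e ∈ PL ∨ ∃ y ∈ e, 1 ≤ dg (K ∩ C) y) → dv K ≠ k

theorem World.up' {n : ℕ} {T V2 : Finset ℕ} {C ER PL : Finset (Sym2 ℕ)} {DC : Finset (Finset (Sym2 ℕ))}
    {m : ℕ} {H : ℕ → (ℕ → ℤ) → Prop} (h : World n T V2 C ER PL DC m H) {s t : ℕ} (hst : s ≤ t)
    {k : ℕ → ℤ} (hk : H s k) : H t k := by
  induction t, hst using Nat.le_induction with
  | base => exact hk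
  | succ t _ ih => exact h.mono _ _ ih

/-- **a closed stage** -/
theorem World.toWJ {n : ℕ} {T V2 : Finset ℕ} {C ER PL : Finset (Sym2 ℕ)} {DC : Finset (Finset (Sym2 ℕ))}
    {m : ℕ} {H : ℕ → (ℕ → ℤ) → Prop} (h : World n T V2 C ER PL DC m H) (hV : ∀ v ∈ V2, v < n)
    (hm : 3 ^ (#V2 + 1) ≤ m) :
    ∃ t ≤ m, (∀ k, H 0 k → H t k) ∧ WJ n T V2 C ER PL DC (H t) := by
  have G : LD.Gr (fun i => i ∈ V2 ∨ i = n) H :=
    ⟨h.mono, fun k x y i ε hi hx hy hε h1 => h.ex k x y i ε hx hy hi hε h1⟩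
  have hn : n ∉ V2 := fun hc => lt_irrefl _ (hV n hc)
  have hc : #(insert n V2) = #V2 + 1 := Finset.card_insert_of_notMem hn
  obtain ⟨t, _, ht, hJ⟩ := XC.closed_stage G (insert n V2)
    (by
      intro v hv
      rcases Finset.mem_insert.1 hv with h1 | h1
      · exact Or.inr h1
      · exact Or.inl h1)
    (by
      intro k z hz v hv
      rw [Finset.mem_insert, not_or] at hv
      rcases Nat.lt_trichotomy v n with h1 | h1 | h1
      · exact h.off k z hz v h1 hv.2
      · exact absurd h1 hv.1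
      · exact h.up k z hz v h1)
    (by
      intro k z hz v hv
      rcases Finset.mem_insert.1 hv with h1 | h1
      · subst h1
        have := h.tok k z hz
        omega
      · exact h.rg k z hz v (hV v h1)) 0
  rw [hc] at ht
  have htm : t ≤ m := by omega
  refine ⟨t, htm, fun k hk => h.up' (Nat.zero_le t) hk, ?_⟩
  exact ⟨hJ, h.rg t, h.off t, h.tok t, h.up t, h.par t, h.dn t, h.blk t htm⟩

end Pool.Agent.PF4.XF

end

section -- file PF4/XOW

/-!
The interface between the algorithm (pool, minimal blocking family) and the theorem on two conflicting squares: everything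
that is known in one world (`OW`), and the statement of the theorem for two worlds (`XfStatement`).
-/

set_option autoImplicit false

namespace Pool.Agent.PF4.XF

open Finset Pool.Agent.TFC Pool.Agent.PF4

/-- reachable from `S` in at most `k` steps -/
def Rch (E : Finset (Sym2 ℕ)) (S : Finset ℕ) : ℕ → ℕ → Prop
  | 0, v => v ∈ S
  | k + 1, v => Rch E S k v ∨ ∃ u, Rch E S k u ∧ s(u, v) ∈ E

/-- the corners of a square -/
def cr (Q : Sq4) : Finset ℕ := {Q.1, Q.2.1, Q.2.2.1, Q.2.2.2}

section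
variable {X : XD} {P : ℕ → Finset (Sym2 ℕ) → Prop} {D : Finset (Finset (Sym2 ℕ))} {j m : ℕ} {S : Finset ℕ}
  {M : ℕ → Finset (Sym2 ℕ)}

end

end Pool.Agent.PF4.XF

end

section -- file PF4/XCl

/-!
The clusters of a minimal blocking family.
-/

set_option autoImplicit false

namespace Pool.Agent.PF4.XF

open Finset Pool.Agent.TFC Pool.Agent.PF4

/-- edges of a `K4` cluster -/
theorem mem_k4 {X : Finset ℕ} {a b : ℕ} : s(a, b) ∈ (Clu.k4 X).edges ↔ a ∈ X ∧ b ∈ X ∧ a ≠ b :=
  R4_mem_edges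

/-- edges of a `K2` cluster -/
theorem mem_k2 {u v : ℕ} {L : Finset ℕ} {a b : ℕ} : s(a, b) ∈ (Clu.k2 u v L).edges ↔
    ((a = u ∨ a = v) ∧ b ∈ L) ∨ ((b = u ∨ b = v) ∧ a ∈ L) := by
  simp only [Clu.edges, mem_union, mem_image, Sym2.eq_iff]
  constructor
  · rintro (⟨l, hl, (⟨rfl, rfl⟩ | ⟨rfl, rfl⟩)⟩ | ⟨l, hl, (⟨rfl, rfl⟩ | ⟨rfl, rfl⟩)⟩)
    · exact Or.inl ⟨Or.inl rfl, hl⟩
    · exact Or.inr ⟨Or.inl rfl, hl⟩
    · exact Or.inl ⟨Or.inr rfl, hl⟩
    · exact Or.inr ⟨Or.inr rfl, hl⟩
  · rintro (⟨rfl | rfl, h⟩ | ⟨rfl | rfl, h⟩)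
    · exact Or.inl ⟨b, h, Or.inl ⟨rfl, rfl⟩⟩
    · exact Or.inr ⟨b, h, Or.inl ⟨rfl, rfl⟩⟩
    · exact Or.inl ⟨a, h, Or.inr ⟨rfl, rfl⟩⟩
    · exact Or.inr ⟨a, h, Or.inr ⟨rfl, rfl⟩⟩

/-- a square in a cluster: the shape of the cluster -/
theorem shape {c : Clu ℕ} (hc : c.Valid) {x y q p : ℕ} (h4 : Dist4 x y q p)
    (hs : TFC.sq x y q p ⊆ c.edges) :
    c = Clu.k4 {x, y, q, p} ∨
    (∃ L, (c = Clu.k2 x q L ∨ c = Clu.k2 q x L) ∧ y ∈ L ∧ p ∈ L ∧ x ∉ L ∧ q ∉ L) ∨
    (∃ L, (c = Clu.k2 y p L ∨ c = Clu.k2 p y L) ∧ x ∈ L ∧ q ∈ L ∧ y ∉ L ∧ p ∉ L) := by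
  obtain ⟨xy, xq, xp, yq, yp, qp⟩ := h4
  have e1 : s(x, y) ∈ c.edges := hs (by simp [TFC.sq])
  have e2 : s(y, q) ∈ c.edges := hs (by simp [TFC.sq])
  have e3 : s(q, p) ∈ c.edges := hs (by simp [TFC.sq])
  have e4 : s(p, x) ∈ c.edges := hs (by simp [TFC.sq])
  cases c with
  | k4 X =>
    left
    rw [mem_k4] at e1 e3
    have h4 : #X = 4 := hc
    have h1 : ({x, y, q, p} : Finset ℕ) ⊆ X := by
      intro v hv
      simp only [mem_insert, mem_singleton] at hv
      rcases hv with rfl | rfl | rfl | rfl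
      · exact e1.1
      · exact e1.2.1
      · exact e3.1
      · exact e3.2.1
    have h2 : #({x, y, q, p} : Finset ℕ) = 4 := by
      rw [card_insert_of_notMem (by simp [xy, xq, xp]), card_insert_of_notMem (by simp [yq, yp]),
        card_insert_of_notMem (by simp [qp]), card_singleton]
    rw [eq_of_subset_of_card_le h1 (by rw [h4, h2])]
  | k2 u v L =>
    right
    obtain ⟨uv, uL, vL, _⟩ : u ≠ v ∧ u ∉ L ∧ v ∉ L ∧ 2 ≤ #L := hc
    rw [mem_k2] at e1 e2 e3 e4
    have cl : ∀ a, (a = u ∨ a = v) → a ∉ L := by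
      rintro a (rfl | rfl)
      · exact uL
      · exact vL
    rcases e1 with ⟨hx, hy⟩ | ⟨hy, hx⟩
    · left
      have hq : q = u ∨ q = v := by
        rcases e2 with ⟨h, _⟩ | ⟨h, _⟩
        · exact absurd hy (cl y h)
        · exact h
      have hp : p ∈ L := by
        rcases e3 with ⟨_, h⟩ | ⟨_, h⟩
        · exact h
        · exact absurd h (cl q hq)
      refine ⟨L, ?_, hy, hp, cl x hx, cl q hq⟩
      rcases hx with rfl | rfl <;> rcases hq with rfl | rfl
      · exact absurd rfl xq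
      · exact Or.inl rfl
      · exact Or.inr rfl
      · exact absurd rfl xq
    · right
      have hp : p = u ∨ p = v := by
        rcases e4 with ⟨h, _⟩ | ⟨h, _⟩
        · exact h
        · exact absurd hx (cl x h)
      have hq : q ∈ L := by
        rcases e3 with ⟨_, h⟩ | ⟨_, h⟩
        · exact absurd h (cl p hp)
        · exact h
      refine ⟨L, ?_, hx, hq, cl y hy, cl p hp⟩
      rcases hy with rfl | rfl <;> rcases hp with rfl | rfl
      · exact absurd rfl yp
      · exact Or.inl rfl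
      · exact Or.inr rfl
      · exact absurd rfl yp

section
variable {D : Finset (Finset (Sym2 ℕ))} {CL : List (Clu ℕ)}

/-- two vertices of a cluster: all edges of the cluster have an end which is the first vertex or adjacent to it -/
theorem near_edge {c : Clu ℕ} (hc : c.Valid) {e f : Sym2 ℕ} (he : e ∈ c.edges) {a : ℕ} (ha : a ∈ e)
    (hf : f ∈ c.edges) : ∃ w ∈ f, w = a ∨ s(a, w) ∈ c.edges := by
  obtain ⟨b, rfl⟩ := ha
  induction f using Sym2.ind with
  | _ u v =>
  cases c with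
  | k4 X =>
    rw [mem_k4] at he hf
    by_cases h : u = a
    · exact ⟨u, by simp, Or.inl h⟩
    · exact ⟨u, by simp, Or.inr (mem_k4.2 ⟨he.1, hf.1, fun h' => h h'.symm⟩)⟩
  | k2 x y L =>
    obtain ⟨xy, xL, yL, _⟩ : x ≠ y ∧ x ∉ L ∧ y ∉ L ∧ 2 ≤ #L := hc
    rw [mem_k2] at he hf
    rcases he with ⟨ha, hb⟩ | ⟨hb, ha⟩
    · -- `a` is a centre
      rcases hf with ⟨_, hv⟩ | ⟨_, hu⟩
      · exact ⟨v, by simp, Or.inr (mem_k2.2 (Or.inl ⟨ha, hv⟩))⟩
      · exact ⟨u, by simp, Or.inr (mem_k2.2 (Or.inl ⟨ha, hu⟩))⟩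
    · -- `a` is a leaf
      rcases hf with ⟨hu, _⟩ | ⟨hv, _⟩
      · exact ⟨u, by simp, Or.inr (mem_k2.2 (Or.inr ⟨hu, ha⟩))⟩
      · exact ⟨v, by simp, Or.inr (mem_k2.2 (Or.inr ⟨hv, ha⟩))⟩

theorem Rch.mono {E : Finset (Sym2 ℕ)} {S : Finset ℕ} {r s : ℕ} (h : r ≤ s) {v : ℕ} (hv : Rch E S r v) :
    Rch E S s v := by
  induction s, h using Nat.le_induction with
  | base => exact hv
  | succ s _ ih => exact Or.inl ih

theorem Rch.step {E : Finset (Sym2 ℕ)} {S : Finset ℕ} {r : ℕ} {u v : ℕ} (hu : Rch E S r u) (h : s(u, v) ∈ E) :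
    Rch E S (r + 1) v := Or.inr ⟨u, hu, h⟩

end

section
variable {X : XD} {P : ℕ → Finset (Sym2 ℕ) → Prop} {D : Finset (Finset (Sym2 ℕ))} {j m : ℕ} {S : Finset ℕ}
  {M : ℕ → Finset (Sym2 ℕ)} {CL : List (Clu ℕ)}

end

end Pool.Agent.PF4.XF

end

section -- file PF4/XT

/-!
# The phi frame

Allowed families of edge sets (`A c K`: the part `K` in the cluster `c` is allowed), the jump set of the differences
`dv K - k` (`K` allowed, `k` a demand vector of the world), the types of the vertices and the inequality `1 ≤ ph d`.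

Signs as on paper: `mi v` = the unit `-e_v` is a fact, `pl v` = the unit `+e_v` is a fact; type X: `mi` only, type Y: `pl`
only, type Z: both, type N: none. `ph d = sum_Y d - sum_X d + #{v in Z : d v odd}`.
-/

set_option autoImplicit false

namespace Pool.Agent.PF4.XT

open Finset Pool.Agent.TFC Pool.Agent.PF4 Pool.Agent.PF4.LD Pool.Agent.PF4.XC Pool.Agent.PF4.XF

/-! ### the form -/

open Classical in
/-- contribution of one vertex -/
noncomputable def con (p m : Prop) (a : ℤ) : ℤ := if p then (if m then a % 2 else a) else (if m then -a else 0)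

/-- the form -/
noncomputable def ph (V : Finset ℕ) (pl mi : ℕ → Prop) (d : ℕ → ℤ) : ℤ := ∑ v ∈ V, con (pl v) (mi v) (d v)

theorem con_zero (p m : Prop) : con p m 0 = 0 := by
  unfold con; split_ifs <;> rfl

theorem con_X {p m : Prop} (hp : ¬ p) (hm : m) (a : ℤ) : con p m a = -a := by
  unfold con; rw [if_neg hp, if_pos hm]

theorem con_Y {p m : Prop} (hp : p) (hm : ¬ m) (a : ℤ) : con p m a = a := by
  unfold con; rw [if_pos hp, if_neg hm]

theorem con_Z {p m : Prop} (hp : p) (hm : m) (a : ℤ) : con p m a = a % 2 := by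
  unfold con; rw [if_pos hp, if_pos hm]

theorem con_N {p m : Prop} (hp : ¬ p) (hm : ¬ m) (a : ℤ) : con p m a = 0 := by
  unfold con; rw [if_neg hp, if_neg hm]

theorem con_one (p m : Prop) : con p m 1 ≤ 1 := by
  unfold con; split_ifs <;> norm_num

theorem con_one_eq {p m : Prop} (h : 0 < con p m 1) : p := by
  by_contra hp
  unfold con at h
  rw [if_neg hp] at h
  split_ifs at h <;> norm_num at h

theorem con_neg_one (p m : Prop) : con p m (-1) ≤ 1 := by
  unfold con; split_ifs <;> norm_num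

theorem con_neg_eq {p m : Prop} (h : 0 < con p m (-1)) : m := by
  by_contra hm
  unfold con at h
  split_ifs at h <;> norm_num at h

theorem ph_zero (V : Finset ℕ) (pl mi : ℕ → Prop) : ph V pl mi 0 = 0 := by
  unfold ph
  refine Finset.sum_eq_zero fun v _ => ?_
  rw [Pi.zero_apply, con_zero]

/-- the form of a vector that vanishes off `S` -/
theorem ph_supp {V : Finset ℕ} {pl mi : ℕ → Prop} {S : Finset ℕ} (hS : S ⊆ V) {d : ℕ → ℤ}
    (h : ∀ v ∈ V, v ∉ S → d v = 0) : ph V pl mi d = ∑ v ∈ S, con (pl v) (mi v) (d v) := by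
  unfold ph
  symm
  refine Finset.sum_subset hS fun v hv hvS => ?_
  rw [h v hv hvS, con_zero]

/-- add a multiple of a unit vector at a vertex where the vector is zero -/
theorem ph_add {V : Finset ℕ} {pl mi : ℕ → Prop} {v : ℕ} (hv : v ∈ V) {d : ℕ → ℤ} (hd : d v = 0) (c : ℤ) :
    ph V pl mi (d + Pi.single v c) = ph V pl mi d + con (pl v) (mi v) c := by
  unfold ph
  have h := RG.sum_upd hv (fun u a => con (pl u) (mi u) a) d c
  rw [h, hd, con_zero, zero_add, sub_zero]

/-- at most two vertices -/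
theorem ph_two {V : Finset ℕ} {pl mi : ℕ → Prop} {u v : ℕ} (hu : u ∈ V) (hv : v ∈ V) (huv : u ≠ v) (a b : ℤ) :
    ph V pl mi (Pi.single u a + Pi.single v b) = con (pl u) (mi u) a + con (pl v) (mi v) b := by
  rw [ph_add hv (by rw [sgl, if_neg huv.symm])]
  have h := ph_add (pl := pl) (mi := mi) hu (d := 0) rfl a
  rw [zero_add, ph_zero, zero_add] at h
  rw [h]

theorem ph_one {V : Finset ℕ} {pl mi : ℕ → Prop} {u : ℕ} (hu : u ∈ V) (a : ℤ) :
    ph V pl mi (Pi.single u a) = con (pl u) (mi u) a := by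
  have h := ph_add (pl := pl) (mi := mi) hu (d := 0) rfl a
  rwa [zero_add, ph_zero, zero_add] at h

/-! ### degree vectors -/

theorem dv_union {O K : Finset (Sym2 ℕ)} (h : Disjoint O K) : dv (O ∪ K) = dv O + dv K := by
  funext v
  rw [Pi.add_apply, dv, dv, dv, dg_union h]
  push_cast
  rfl

theorem dv_sdiff {L A : Finset (Sym2 ℕ)} (h : A ⊆ L) : dv (L \ A) = dv L - dv A := by
  have h1 := dv_union (O := L \ A) (K := A) Finset.sdiff_disjoint
  rw [Finset.sdiff_union_of_subset h] at h1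
  rw [h1, add_sub_cancel_right]

/-- remove `A`, add `B` -/
theorem dv_swap {L A B : Finset (Sym2 ℕ)} (hA : A ⊆ L) (hB : Disjoint B L) :
    dv ((L \ A) ∪ B) = dv L - dv A + dv B := by
  rw [dv_union (hB.mono_right Finset.sdiff_subset).symm, dv_sdiff hA]

theorem dv_empty : dv (∅ : Finset (Sym2 ℕ)) = 0 := by
  funext v
  simp [dv, dg]

theorem dv_single {e : Sym2 ℕ} : dv ({e} : Finset (Sym2 ℕ)) = fun v => if v ∈ e then 1 else 0 := by
  funext v
  rw [dv, dg, Finset.filter_singleton]
  split_ifs <;> simp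

theorem dv_pair {u v : ℕ} (h : u ≠ v) : dv ({s(u, v)} : Finset (Sym2 ℕ)) = Pi.single u 1 + Pi.single v 1 := by
  rw [dv_single]
  funext w
  rw [Pi.add_apply, sgl, sgl]
  by_cases h1 : w = u
  · have h2 : ¬ w = v := by rw [h1]; exact h
    rw [if_pos (Sym2.mem_iff.2 (Or.inl h1)), if_pos h1, if_neg h2]
    rfl
  · by_cases h2 : w = v
    · rw [if_pos (Sym2.mem_iff.2 (Or.inr h2)), if_neg h1, if_pos h2]
      rfl
    · rw [if_neg (by rw [Sym2.mem_iff]; tauto), if_neg h1, if_neg h2]
      rfl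

theorem dv_insert {e : Sym2 ℕ} {L : Finset (Sym2 ℕ)} (h : e ∉ L) : dv (insert e L) = dv L + dv {e} := by
  rw [Finset.insert_eq, Finset.union_comm, dv_union (Finset.disjoint_singleton_right.2 h)]

/-- the vertices of an edge set -/
def vs (E : Finset (Sym2 ℕ)) : Finset ℕ := E.biUnion Sym2.toFinset

theorem mem_vs {E : Finset (Sym2 ℕ)} {v : ℕ} : v ∈ vs E ↔ ∃ e ∈ E, v ∈ e := by
  simp [vs]

theorem dv_off {E K : Finset (Sym2 ℕ)} (hK : K ⊆ E) {v : ℕ} (hv : v ∉ vs E) : dv K v = 0 := by
  rw [dv, Nat.cast_eq_zero, dg, Finset.card_eq_zero, Finset.filter_eq_empty_iff]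
  intro e he hve
  exact hv (mem_vs.2 ⟨e, hK he, hve⟩)

/-! ### allowed families -/

theorem jb_iff {A B : (ℕ → ℤ) → Prop} (h : ∀ x, A x ↔ B x) (hA : JB A) : JB B := by
  have : A = B := funext fun x => propext (h x)
  rwa [← this]

theorem jb_of_jump {J : Set (ℕ → ℤ)} (h : Jump J) : JB (fun x => x ∈ J) := by
  intro x y i ε hx hy hε hp
  obtain ⟨j, δ, h1, h2, h3⟩ := h x hx y hy i ε hε hp
  exact ⟨_, h3, j, δ, h1, h2, rfl⟩

/-- the vectors of the edge sets in `E` with the property `A` -/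
def Vc (E : Finset (Sym2 ℕ)) (A : Finset (Sym2 ℕ) → Prop) (b : ℕ → ℤ) : Prop := ∃ K ⊆ E, A K ∧ b = dv K

theorem Vc.off {E : Finset (Sym2 ℕ)} {A : Finset (Sym2 ℕ) → Prop} {b : ℕ → ℤ} (h : Vc E A b) {v : ℕ}
    (hv : v ∉ vs E) : b v = 0 := by
  obtain ⟨K, hK, _, rfl⟩ := h
  exact dv_off hK hv

/-- two disjoint regions -/
theorem jb_union {E E' : Finset (Sym2 ℕ)} (hd : Disjoint E E') {A A' : Finset (Sym2 ℕ) → Prop} (h : JB (Vc E A))
    (h' : JB (Vc E' A')) : JB (Vc (E ∪ E') fun K => A (K ∩ E) ∧ A' (K ∩ E')) := by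
  refine jb_iff (fun x => ?_) (h.add (S := vs E') h' fun b hb v hv => hb.off hv)
  constructor
  · rintro ⟨_, _, ⟨K, hK, hA, rfl⟩, ⟨K', hK', hA', rfl⟩, rfl⟩
    have e1 : (K ∪ K') ∩ E = K := by
      rw [Finset.union_inter_distrib_right, Finset.inter_eq_left.2 hK,
        Finset.disjoint_iff_inter_eq_empty.1 (hd.mono_right hK').symm, Finset.union_empty]
    have e2 : (K ∪ K') ∩ E' = K' := by
      rw [Finset.union_inter_distrib_right, Finset.inter_eq_left.2 hK',
        Finset.disjoint_iff_inter_eq_empty.1 (hd.mono_left hK), Finset.empty_union]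
    refine ⟨K ∪ K', Finset.union_subset_union hK hK', ⟨by rw [e1]; exact hA, by rw [e2]; exact hA'⟩, ?_⟩
    rw [dv_union (hd.mono hK hK')]
  · rintro ⟨K, hK, ⟨hA, hA'⟩, rfl⟩
    refine ⟨dv (K ∩ E), dv (K ∩ E'), ⟨_, Finset.inter_subset_right, hA, rfl⟩,
      ⟨_, Finset.inter_subset_right, hA', rfl⟩, ?_⟩
    rw [← dv_union (hd.mono Finset.inter_subset_right Finset.inter_subset_right),
      ← Finset.inter_union_distrib_left, Finset.inter_eq_left.2 hK]

/-- one plain edge -/
theorem jb_edge {e : Sym2 ℕ} (he : ¬ e.IsDiag) : JB (Vc {e} fun _ => True) := by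
  induction e using Sym2.ind with
  | _ u v =>
  have huv : u ≠ v := by simpa using he
  refine jb_iff (fun x => ?_) (jb_of_jump (jump_Un {u} {v}))
  constructor
  · rintro (rfl | ⟨s, hs, t, ht, rfl⟩)
    · exact ⟨∅, Finset.empty_subset _, trivial, dv_empty.symm⟩
    · rw [Finset.mem_singleton] at hs ht
      subst hs ht
      exact ⟨{s(s, t)}, le_rfl, trivial, (dv_pair huv).symm⟩
  · rintro ⟨K, hK, _, rfl⟩
    rcases Finset.subset_singleton_iff.1 hK with rfl | rfl
    · exact Or.inl dv_empty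
    · exact Or.inr ⟨u, by simp, v, by simp, dv_pair huv⟩

/-- plain edges -/
theorem jb_plain (PL : Finset (Sym2 ℕ)) (h : NoLoop PL) : JB (Vc PL fun _ => True) := by
  induction PL using Finset.induction_on with
  | empty =>
    rintro _ _ i ε ⟨K, hK, _, rfl⟩ ⟨K', hK', _, rfl⟩ _ hp
    rw [Finset.subset_empty.1 hK, Finset.subset_empty.1 hK', sub_self, mul_zero] at hp
    exact absurd hp (lt_irrefl 0)
  | insert e PL he ih =>
    have h1 := ih fun f hf => h f (Finset.mem_insert_of_mem hf)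
    have h2 := jb_edge (h e (Finset.mem_insert_self _ _))
    refine jb_iff (fun x => ?_) (jb_union (Finset.disjoint_singleton_left.2 he) h2 h1)
    rw [← Finset.insert_eq]
    constructor
    · rintro ⟨K, hK, _, hx⟩
      exact ⟨K, hK, trivial, hx⟩
    · rintro ⟨K, hK, _, hx⟩
      exact ⟨K, hK, ⟨trivial, trivial⟩, hx⟩

/-- a good family of edge sets in `E` -/
structure PcA (D : Finset (Finset (Sym2 ℕ))) (A : Finset (Sym2 ℕ) → Prop) (E : Finset (Sym2 ℕ)) : Prop where
  jb : JB (Vc E A)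
  rl : ∀ K ⊆ E, A K → (∀ v, dg K v ≤ 2) → ∀ Z ∈ D, ¬ Z ⊆ K

/-- the capped family: 2-matchings without square of `D` -/
def Acap (D : Finset (Finset (Sym2 ℕ))) (K : Finset (Sym2 ℕ)) : Prop := M2 K ∧ ∀ Z ∈ D, ¬ Z ⊆ K

theorem sq_rot (a b c d : ℕ) : TFC.sq a b c d = TFC.sq b c d a := by
  ext e
  simp only [TFC.sq, Finset.mem_insert, Finset.mem_singleton]
  tauto

theorem sq_ref (a b c d : ℕ) : TFC.sq a b c d = TFC.sq d c b a := by
  ext e
  simp only [TFC.sq, Finset.mem_insert, Finset.mem_singleton]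
  rw [Sym2.eq_swap (a := a) (b := b), Sym2.eq_swap (a := b) (b := c), Sym2.eq_swap (a := c) (b := d),
    Sym2.eq_swap (a := d) (b := a)]
  clear * -
  tauto

/-! ### the differences -/

/-- the differences -/
def Df (J B : (ℕ → ℤ) → Prop) (d : ℕ → ℤ) : Prop := ∃ k b, J k ∧ B b ∧ d = b - k

/-- the unit `-e_v` is a fact -/
def Mi (J B : (ℕ → ℤ) → Prop) (n v : ℕ) : Prop := Df J B (Pi.single v (-1) + Pi.single n (-1))

/-- the unit `+e_v` is a fact -/
def Pls (J B : (ℕ → ℤ) → Prop) (n v : ℕ) : Prop := Df J B (Pi.single v 1 + Pi.single n (-1))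

theorem jb_Df {J B : (ℕ → ℤ) → Prop} {S : Finset ℕ} (hJ : JB J) (hB : JB B)
    (hS : ∀ b, B b → ∀ v, v ∉ S → b v = 0) : JB (Df J B) := by
  refine jb_iff (fun x => ?_) (hJ.neg.add hB hS)
  constructor
  · rintro ⟨a, b, ha, hb, rfl⟩
    exact ⟨-a, b, ha, hb, by rw [sub_neg_eq_add, add_comm]⟩
  · rintro ⟨k, b, hk, hb, rfl⟩
    exact ⟨-k, b, by show J (- -k); rw [neg_neg]; exact hk, hb, by rw [sub_eq_neg_add]⟩

/-- **the inequality for the differences** -/
theorem df_ph {J B : (ℕ → ℤ) → Prop} {n : ℕ} {V : Finset ℕ} (hJ : JB (Df J B)) (hn : n ∉ V)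
    (hoff : ∀ x, Df J B x → ∀ v, v ∉ V → v ≠ n → x v = 0) (h0 : ¬ Df J B 0)
    (hne : ∃ v ∈ V, Pls J B n v ∨ Mi J B n v) {d : ℕ → ℤ} (hd : Df J B d) (hdn : d n = 0 ∨ d n = -1) :
    1 ≤ ph V (Pls J B n) (Mi J B n) d := by
  have e1 : ∀ v, RG.Fa (fun z => Df J B (-z)) n v 1 ↔ Mi J B n v := by
    intro v
    show Df J B (-(Pi.single v 1 + Pi.single n 1)) ↔ _
    rw [neg_add, ← Pi.single_neg, ← Pi.single_neg]
    rfl
  have e2 : ∀ v, RG.Fa (fun z => Df J B (-z)) n v (-1) ↔ Pls J B n v := by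
    intro v
    show Df J B (-(Pi.single v (-1) + Pi.single n 1)) ↔ _
    rw [neg_add, ← Pi.single_neg, ← Pi.single_neg, neg_neg]
    rfl
  have h := RG.rgc (J := fun z => Df J B (-z)) (z := n) (S := V) hJ.neg hn
    (fun x hx v hv hvn => by
      have := hoff _ hx v hv hvn
      rw [Pi.neg_apply] at this
      omega)
    (by rw [neg_zero]; exact h0)
    (by
      obtain ⟨v, hv, h | h⟩ := hne
      · exact ⟨v, hv, -1, Or.inr rfl, (e2 v).2 h⟩
      · exact ⟨v, hv, 1, Or.inl rfl, (e1 v).2 h⟩)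
    (d := -d) (by show Df J B (- -d); rw [neg_neg]; exact hd)
    (by rw [Pi.neg_apply]; omega)
  refine h.trans (le_of_eq ?_)
  unfold RG.phi ph
  refine Finset.sum_congr rfl fun v _ => ?_
  unfold RG.wt con
  rw [Pi.neg_apply]
  by_cases hm : Mi J B n v
  · rw [if_pos ((e1 v).2 hm), if_pos hm]
    by_cases hp : Pls J B n v
    · rw [if_pos ((e2 v).2 hp), if_pos hp]
      omega
    · rw [if_neg (fun h => hp ((e2 v).1 h)), if_neg hp, if_pos hm]
  · rw [if_neg (fun h => hm ((e1 v).1 h)), if_neg hm]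
    by_cases hp : Pls J B n v
    · rw [if_pos ((e2 v).2 hp), if_pos hp, neg_neg]
    · rw [if_neg (fun h => hp ((e2 v).1 h)), if_neg hp, if_neg hm]

section
variable {n : ℕ} {T V2 : Finset ℕ} {C ER PL : Finset (Sym2 ℕ)} {DC : Finset (Finset (Sym2 ℕ))}
  {J B : (ℕ → ℤ) → Prop}

/-- **the inequality in a world** -/
theorem wj_ph (h : WJ n T V2 C ER PL DC J) (hV : ∀ v ∈ V2, v < n) (hB : JB B)
    (hoff : ∀ b, B b → ∀ v, v ∉ V2 → b v = 0)
    (hr : ∀ b, B b → (∀ v, b v ≤ 2) → ∃ K ⊆ C ∪ ER, M2 K ∧ (∀ Z ∈ DC, ¬ Z ⊆ K) ∧ (∀ e ∈ K, e ∉ C → e ∈ PL) ∧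
      dv K = b)
    (hne : ∃ v ∈ V2, Pls J B n v ∨ Mi J B n v) {k b : ℕ → ℤ} (hk : J k) (hb : B b) :
    1 ≤ ph V2 (Pls J B n) (Mi J B n) (b - k) := by
  have hnV : n ∉ V2 := fun hc => lt_irrefl _ (hV n hc)
  refine df_ph (jb_Df h.jb hB hoff) hnV ?_ ?_ hne ⟨k, b, hk, hb, rfl⟩ ?_
  · rintro _ ⟨k, b, hk, hb, rfl⟩ v hv hvn
    rw [Pi.sub_apply, hoff b hb v hv]
    rcases Nat.lt_trichotomy v n with h1 | h1 | h1
    · rw [h.off k hk v h1 hv]; rfl
    · exact absurd h1 hvn
    · rw [h.up k hk v h1]; rfl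
  · rintro ⟨k, b, hk, hb, h0⟩
    have hkb : b = k := by
      have : b - k = 0 := h0.symm
      exact sub_eq_zero.1 this
    subst hkb
    obtain ⟨K, h1, h2, h3, h4, h5⟩ := hr b hb (by
      intro v
      rcases Nat.lt_trichotomy v n with h1 | h1 | h1
      · exact (h.rg b hk v h1).2
      · subst h1
        rcases h.tok b hk with h2 | h2 <;> omega
      · rw [h.up b hk v h1]; norm_num)
    exact h.blk b hk K h1 h2 h3 (fun e he hC => Or.inl (h4 e he hC)) h5
  · rw [Pi.sub_apply, hoff b hb n hnV]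
    rcases h.tok k hk with h1 | h1 <;> rw [h1]
    · left; rfl
    · right; rfl

/-- free vertices have no deficit fact -/
theorem wj_free (h : WJ n T V2 C ER PL DC J) (hV : ∀ v ∈ V2, v < n)
    (hoff : ∀ b, B b → ∀ v, v ∉ V2 → b v = 0) (hnn : ∀ b, B b → ∀ v, 0 ≤ b v) (h0 : ¬ Df J B 0) {v : ℕ}
    (hv : v ∉ T) (hvn : v < n) : ¬ Mi J B n v := by
  rintro ⟨k, b, hk, hb, he⟩
  have hnV : n ∉ V2 := fun hc => lt_irrefl _ (hV n hc)
  have h1 : ∀ w, b w = k w - (if w = v then 1 else 0) - (if w = n then 1 else 0) := by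
    intro w
    have := congrFun he w
    rw [Pi.add_apply, sgl, sgl, Pi.sub_apply] at this
    split_ifs at this ⊢ <;> omega
  apply h0
  refine ⟨b, b, ?_, hb, by rw [sub_self]⟩
  have h2 : (∑ w ∈ Finset.range (n + 1), b w) = (∑ w ∈ Finset.range (n + 1), k w) - 2 := by
    simp only [h1, Finset.sum_sub_distrib]
    rw [Finset.sum_ite_eq' (Finset.range (n + 1)) v fun _ => (1 : ℤ),
      Finset.sum_ite_eq' (Finset.range (n + 1)) n fun _ => (1 : ℤ), if_pos (Finset.mem_range.2 (by omega)),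
      if_pos (Finset.mem_range.2 (by omega))]
    ring
  refine h.dn k b hk ?_ ?_ ?_ ?_ ?_
  · intro w hw hwT
    rw [h1, if_neg (fun e => hv (by rw [← e]; exact hwT)), if_neg (by omega)]
    ring
  · intro w hw _
    refine ⟨hnn b hb w, ?_⟩
    rw [h1]
    split_ifs <;> omega
  · left
    exact hoff b hb n hnV
  · rw [h2]
    have := h.par k hk
    obtain ⟨r, hr⟩ := this
    exact ⟨r - 1, by rw [hr]; ring⟩
  · intro w hw
    rw [h1, h.up k hk w hw, if_neg (by omega), if_neg (by omega)]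
    rfl

end

/-! ### one world, in terms of the form -/

open Classical in
/-! ### modified edge sets -/

section
variable {X : XD} {P : ℕ → Finset (Sym2 ℕ) → Prop} {D : Finset (Finset (Sym2 ℕ))} {j : ℕ} {S : Finset ℕ}
  {M : ℕ → Finset (Sym2 ℕ)} {A : Clu ℕ → Finset (Sym2 ℕ) → Prop} {CL U : List (Clu ℕ)} {PL : Finset (Sym2 ℕ)}
  {pl mi : ℕ → Prop}

end

end Pool.Agent.PF4.XT

end

section -- file PF4/XUK

/-!
The square-free edge sets inside `K2(a, b; L)`, without bound on the degrees: their degree vectors form a jump set.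
-/

set_option autoImplicit false

namespace Pool.Agent.PF4.XU

open Finset Pool.Agent.TFC Pool.Agent.PF4

/-- the degree vectors of the square-free edge sets inside `K2(a, b; L)` -/
structure UJ (a b : ℕ) (L : Finset ℕ) (x : ℕ → ℤ) : Prop where
  off : ∀ v, v ≠ a → v ≠ b → v ∉ L → x v = 0
  rg : ∀ l ∈ L, 0 ≤ x l ∧ x l ≤ 2
  one : ∀ l ∈ L, ∀ l' ∈ L, x l = 2 → x l' = 2 → l = l'
  na : 0 ≤ x a
  nb : 0 ≤ x b
  dbl : ∀ l ∈ L, x l = 2 → 1 ≤ x a ∧ 1 ≤ x b
  sum : x a + x b = ∑ l ∈ L, x l

theorem UJ.swap {a b : ℕ} {L : Finset ℕ} {x : ℕ → ℤ} (h : UJ a b L x) : UJ b a L x :=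
  ⟨fun v h1 h2 h3 => h.off v h2 h1 h3, h.rg, h.one, h.nb, h.na, fun l hl h2 => (h.dbl l hl h2).symm,
    by rw [add_comm]; exact h.sum⟩

theorem pos_ex {S : Finset ℕ} {f : ℕ → ℤ} (h : 0 < ∑ l ∈ S, f l) : ∃ l ∈ S, 0 < f l := by
  by_contra hc
  push Not at hc
  exact absurd h (not_lt.2 (Finset.sum_nonpos hc))

theorem neg_ex {S : Finset ℕ} {f : ℕ → ℤ} (h : ∑ l ∈ S, f l < 0) : ∃ l ∈ S, f l < 0 := by
  by_contra hc
  push Not at hc
  exact absurd h (not_lt.2 (Finset.sum_nonneg hc))

theorem sum_single (L : Finset ℕ) (i : ℕ) (ε : ℤ) :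
    ∑ l ∈ L, (Pi.single i ε : ℕ → ℤ) l = if i ∈ L then ε else 0 := by
  simp only [Pi.single_apply]
  rw [Finset.sum_ite_eq' L i]

section
variable {a b : ℕ} {L : Finset ℕ} {x y : ℕ → ℤ}

/-- the vector after two steps -/
theorem stp_apply (x : ℕ → ℤ) (i j : ℕ) (ε δ : ℤ) (v : ℕ) :
    (x + Pi.single i ε + Pi.single j δ : ℕ → ℤ) v = x v + (if v = i then ε else 0) + (if v = j then δ else 0) := by
  simp only [Pi.add_apply, Pi.single_apply]

theorem stp_sum (x : ℕ → ℤ) (L : Finset ℕ) (i j : ℕ) (ε δ : ℤ) :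
    ∑ l ∈ L, (x + Pi.single i ε + Pi.single j δ : ℕ → ℤ) l =
      ∑ l ∈ L, x l + (if i ∈ L then ε else 0) + (if j ∈ L then δ else 0) := by
  simp only [Pi.add_apply, Finset.sum_add_distrib, sum_single]

/-- the goal of an exchange -/
def Goal (a b : ℕ) (L : Finset ℕ) (x y : ℕ → ℤ) (i : ℕ) (ε : ℤ) : Prop := ∃ z, UJ a b L z ∧ Two x y z i ε

theorem mk_goal {i j : ℕ} {ε δ : ℤ} (hij : i ≠ j) (hδ : δ = 1 ∨ δ = -1) (h : 0 < δ * (y j - x j))
    (hz : UJ a b L (x + Pi.single i ε + Pi.single j δ)) : Goal a b L x y i ε := by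
  refine ⟨_, hz, j, δ, hδ, ?_, rfl⟩
  rw [Pi.add_apply, Pi.single_apply, if_neg (Ne.symm hij), add_zero]
  exact h

theorem sum_diff (hx : UJ a b L x) (hy : UJ a b L y) :
    ∑ l ∈ L, (y l - x l) = (y a - x a) + (y b - x b) := by
  rw [Finset.sum_sub_distrib, ← hx.sum, ← hy.sum]
  ring

theorem sum_erase1 {f : ℕ → ℤ} {l : ℕ} (hl : l ∈ L) : ∑ v ∈ L.erase l, f v = ∑ v ∈ L, f v - f l := by
  rw [← Finset.add_sum_erase L f hl]
  ring

theorem sum_erase2 {f : ℕ → ℤ} {l l' : ℕ} (hl : l ∈ L) (hl' : l' ∈ L) (h : l ≠ l') :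
    ∑ v ∈ (L.erase l).erase l', f v = ∑ v ∈ L, f v - f l - f l' := by
  rw [sum_erase1 (Finset.mem_erase.2 ⟨Ne.symm h, hl'⟩), sum_erase1 hl]

/-- steps at two leaves: `l` up, `l'` down -/
theorem up_dn (ha : a ∉ L) (hb : b ∉ L) (hx : UJ a b L x) {l l' : ℕ} (hl : l ∈ L) (hl' : l' ∈ L) (hne : l ≠ l')
    (h1 : x l ≤ 1) (h2 : 1 ≤ x l') (h3 : x l = 1 → 1 ≤ x a ∧ 1 ≤ x b ∧ ∀ m ∈ L, x m = 2 → m = l') :
    UJ a b L (x + Pi.single l 1 + Pi.single l' (-1)) := by
  have hal : a ≠ l := fun e => ha (e ▸ hl)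
  have hal' : a ≠ l' := fun e => ha (e ▸ hl')
  have hbl : b ≠ l := fun e => hb (e ▸ hl)
  have hbl' : b ≠ l' := fun e => hb (e ▸ hl')
  refine ⟨?_, ?_, ?_, ?_, ?_, ?_, ?_⟩
  · intro v g1 g2 g3
    rw [stp_apply, if_neg (fun e : v = l => g3 (by rw [e]; exact hl)),
      if_neg (fun e : v = l' => g3 (by rw [e]; exact hl')), hx.off v g1 g2 g3]
    rfl
  · intro m hm
    rw [stp_apply]
    have := hx.rg m hm
    by_cases e1 : m = l
    · subst e1; rw [if_pos rfl, if_neg hne]; omega
    · by_cases e2 : m = l'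
      · subst e2; rw [if_neg e1, if_pos rfl]; omega
      · rw [if_neg e1, if_neg e2]; omega
  · intro m hm m' hm' g g'
    rw [stp_apply] at g g'
    have r1 := hx.rg m hm
    have r2 := hx.rg m' hm'
    have o := hx.one m hm m' hm'
    by_cases e1 : m = l
    · by_cases e1' : m' = l
      · rw [e1, e1']
      · rw [if_pos e1] at g
        rw [if_neg e1'] at g'
        subst e1
        rw [if_neg hne] at g
        have := (h3 (by omega)).2.2 m' hm'
        by_cases e2' : m' = l'
        · rw [if_pos e2'] at g'; omega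
        · rw [if_neg e2'] at g'
          exact absurd (this (by omega)) e2'
    · rw [if_neg e1] at g
      by_cases e1' : m' = l
      · rw [if_pos e1'] at g'
        subst e1'
        rw [if_neg hne] at g'
        have := (h3 (by omega)).2.2 m hm
        by_cases e2 : m = l'
        · rw [if_pos e2] at g; omega
        · rw [if_neg e2] at g
          exact absurd (this (by omega)) e2
      · rw [if_neg e1'] at g'
        by_cases e2 : m = l'
        · rw [if_pos e2] at g; omega
        · by_cases e2' : m' = l'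
          · rw [if_pos e2'] at g'; omega
          · rw [if_neg e2] at g
            rw [if_neg e2'] at g'
            exact o (by omega) (by omega)
  · rw [stp_apply, if_neg hal, if_neg hal']
    have := hx.na
    omega
  · rw [stp_apply, if_neg hbl, if_neg hbl']
    have := hx.nb
    omega
  · intro m hm g
    rw [stp_apply] at g
    rw [stp_apply, stp_apply, if_neg hal, if_neg hal', if_neg hbl, if_neg hbl']
    have r := hx.rg m hm
    have d := hx.dbl m hm
    by_cases e1 : m = l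
    · rw [if_pos e1] at g
      subst e1
      rw [if_neg hne] at g
      have := h3 (by omega)
      omega
    · rw [if_neg e1] at g
      by_cases e2 : m = l'
      · rw [if_pos e2] at g; omega
      · rw [if_neg e2] at g; omega
  · rw [stp_sum, if_pos hl, if_pos hl', stp_apply, stp_apply, if_neg hal, if_neg hal', if_neg hbl, if_neg hbl',
      ← hx.sum]
    ring

/-- one hub and one leaf up -/
theorem hub_up (hab : a ≠ b) (ha : a ∉ L) (hb : b ∉ L) (hx : UJ a b L x) {l : ℕ} (hl : l ∈ L) (h1 : x l ≤ 1)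
    (h3 : x l = 1 → 1 ≤ x b ∧ ∀ m ∈ L, x m ≠ 2) : UJ a b L (x + Pi.single a 1 + Pi.single l 1) := by
  have hal : a ≠ l := fun e => ha (e ▸ hl)
  have hbl : b ≠ l := fun e => hb (e ▸ hl)
  have hLa : ∀ m ∈ L, m ≠ a := fun m hm e => ha (e ▸ hm)
  refine ⟨?_, ?_, ?_, ?_, ?_, ?_, ?_⟩
  · intro v g1 g2 g3
    rw [stp_apply, if_neg g1, if_neg (fun e : v = l => g3 (by rw [e]; exact hl)), hx.off v g1 g2 g3]
    rfl
  · intro m hm
    rw [stp_apply, if_neg (hLa m hm)]
    have := hx.rg m hm
    by_cases e1 : m = l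
    · subst e1; rw [if_pos rfl]; omega
    · rw [if_neg e1]; omega
  · intro m hm m' hm' g g'
    rw [stp_apply, if_neg (hLa m hm)] at g
    rw [stp_apply, if_neg (hLa m' hm')] at g'
    have o := hx.one m hm m' hm'
    by_cases e1 : m = l
    · by_cases e1' : m' = l
      · rw [e1, e1']
      · rw [if_pos e1] at g
        rw [if_neg e1'] at g'
        subst e1
        exact absurd (by omega) ((h3 (by omega)).2 m' hm')
    · rw [if_neg e1] at g
      by_cases e1' : m' = l
      · rw [if_pos e1'] at g'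
        subst e1'
        exact absurd (by omega) ((h3 (by omega)).2 m hm)
      · rw [if_neg e1'] at g'
        exact o (by omega) (by omega)
  · rw [stp_apply, if_pos rfl, if_neg hal]
    have := hx.na
    omega
  · rw [stp_apply, if_neg hab.symm, if_neg hbl]
    have := hx.nb
    omega
  · intro m hm g
    rw [stp_apply, if_neg (hLa m hm)] at g
    rw [stp_apply, stp_apply, if_pos rfl, if_neg hal, if_neg hab.symm, if_neg hbl]
    have r := hx.rg m hm
    have d := hx.dbl m hm
    have n1 := hx.na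
    by_cases e1 : m = l
    · rw [if_pos e1] at g
      subst e1
      have := (h3 (by omega)).1
      omega
    · rw [if_neg e1] at g; omega
  · rw [stp_sum, if_neg ha, if_pos hl, stp_apply, stp_apply, if_pos rfl, if_neg hal, if_neg hab.symm, if_neg hbl,
      ← hx.sum]
    ring

/-- one hub and one leaf down -/
theorem hub_dn (hab : a ≠ b) (ha : a ∉ L) (hb : b ∉ L) (hx : UJ a b L x) {l : ℕ} (hl : l ∈ L) (h1 : 1 ≤ x l)
    (h2 : 1 ≤ x a) (h3 : ∀ m ∈ L, m ≠ l → x m = 2 → 2 ≤ x a) : UJ a b L (x + Pi.single a (-1) + Pi.single l (-1)) := by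
  have hal : a ≠ l := fun e => ha (e ▸ hl)
  have hbl : b ≠ l := fun e => hb (e ▸ hl)
  have hLa : ∀ m ∈ L, m ≠ a := fun m hm e => ha (e ▸ hm)
  refine ⟨?_, ?_, ?_, ?_, ?_, ?_, ?_⟩
  · intro v g1 g2 g3
    rw [stp_apply, if_neg g1, if_neg (fun e : v = l => g3 (by rw [e]; exact hl)), hx.off v g1 g2 g3]
    rfl
  · intro m hm
    rw [stp_apply, if_neg (hLa m hm)]
    have := hx.rg m hm
    by_cases e1 : m = l
    · subst e1; rw [if_pos rfl]; omega
    · rw [if_neg e1]; omega
  · intro m hm m' hm' g g'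
    rw [stp_apply, if_neg (hLa m hm)] at g
    rw [stp_apply, if_neg (hLa m' hm')] at g'
    have r1 := hx.rg m hm
    have r2 := hx.rg m' hm'
    have o := hx.one m hm m' hm'
    by_cases e1 : m = l
    · rw [if_pos e1] at g; omega
    · by_cases e1' : m' = l
      · rw [if_pos e1'] at g'; omega
      · rw [if_neg e1] at g
        rw [if_neg e1'] at g'
        exact o (by omega) (by omega)
  · rw [stp_apply, if_pos rfl, if_neg hal]
    omega
  · rw [stp_apply, if_neg hab.symm, if_neg hbl]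
    have := hx.nb
    omega
  · intro m hm g
    rw [stp_apply, if_neg (hLa m hm)] at g
    rw [stp_apply, stp_apply, if_pos rfl, if_neg hal, if_neg hab.symm, if_neg hbl]
    have r := hx.rg m hm
    have d := hx.dbl m hm
    by_cases e1 : m = l
    · rw [if_pos e1] at g; omega
    · rw [if_neg e1] at g
      have := h3 m hm e1 (by omega)
      omega
  · rw [stp_sum, if_neg ha, if_pos hl, stp_apply, stp_apply, if_pos rfl, if_neg hal, if_neg hab.symm, if_neg hbl,
      ← hx.sum]
    ring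

/-- `a` up, `b` down -/
theorem hub_hub (hab : a ≠ b) (ha : a ∉ L) (hb : b ∉ L) (hx : UJ a b L x) (h2 : 1 ≤ x b)
    (h3 : ∀ m ∈ L, x m = 2 → 2 ≤ x b) : UJ a b L (x + Pi.single a 1 + Pi.single b (-1)) := by
  have hLa : ∀ m ∈ L, m ≠ a := fun m hm e => ha (e ▸ hm)
  have hLb : ∀ m ∈ L, m ≠ b := fun m hm e => hb (e ▸ hm)
  refine ⟨?_, ?_, ?_, ?_, ?_, ?_, ?_⟩
  · intro v g1 g2 g3
    rw [stp_apply, if_neg g1, if_neg g2, hx.off v g1 g2 g3]
    rfl
  · intro m hm
    rw [stp_apply, if_neg (hLa m hm), if_neg (hLb m hm)]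
    have := hx.rg m hm
    omega
  · intro m hm m' hm' g g'
    rw [stp_apply, if_neg (hLa m hm), if_neg (hLb m hm)] at g
    rw [stp_apply, if_neg (hLa m' hm'), if_neg (hLb m' hm')] at g'
    exact hx.one m hm m' hm' (by omega) (by omega)
  · rw [stp_apply, if_pos rfl, if_neg hab]
    have := hx.na
    omega
  · rw [stp_apply, if_neg hab.symm, if_pos rfl]
    omega
  · intro m hm g
    rw [stp_apply, if_neg (hLa m hm), if_neg (hLb m hm)] at g
    rw [stp_apply, stp_apply, if_pos rfl, if_neg hab, if_neg hab.symm, if_pos rfl]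
    have d := hx.na
    have := h3 m hm (by omega)
    omega
  · rw [stp_sum, if_neg ha, if_neg hb, stp_apply, stp_apply, if_pos rfl, if_neg hab, if_neg hab.symm, if_pos rfl,
      ← hx.sum]
    ring

theorem goal_swap {i : ℕ} {ε : ℤ} (h : Goal b a L x y i ε) : Goal a b L x y i ε := by
  obtain ⟨z, h1, h2⟩ := h
  exact ⟨z, h1.swap, h2⟩

/-- a leaf goes up -/
theorem leaf_up (hab : a ≠ b) (ha : a ∉ L) (hb : b ∉ L) (hx : UJ a b L x) (hy : UJ a b L y) {l : ℕ} (hl : l ∈ L)
    (h : x l < y l) : Goal a b L x y l 1 := by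
  have hal : a ≠ l := fun e => ha (e ▸ hl)
  have hbl : b ≠ l := fun e => hb (e ▸ hl)
  have rx := hx.rg l hl
  have ry := hy.rg l hl
  have comm : ∀ (i j : ℕ) (ε δ : ℤ), (x + Pi.single i ε + Pi.single j δ : ℕ → ℤ) = x + Pi.single j δ + Pi.single i ε :=
    fun i j ε δ => by abel
  -- the three candidates
  have cA : x a < y a → (x l = 1 → 1 ≤ x b ∧ ∀ m ∈ L, x m ≠ 2) → Goal a b L x y l 1 := fun g1 g2 =>
    mk_goal hal.symm (Or.inl rfl) (by omega) (by rw [comm]; exact hub_up hab ha hb hx hl (by omega) g2)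
  have cB : x b < y b → (x l = 1 → 1 ≤ x a ∧ ∀ m ∈ L, x m ≠ 2) → Goal a b L x y l 1 := fun g1 g2 =>
    mk_goal hbl.symm (Or.inl rfl) (by omega)
      (by rw [comm]; exact (hub_up hab.symm hb ha hx.swap hl (by omega) g2).swap)
  have cC : ∀ l' ∈ L, y l' < x l' → (x l = 1 → 1 ≤ x a ∧ 1 ≤ x b ∧ ∀ m ∈ L, x m = 2 → m = l') →
      Goal a b L x y l 1 := fun l' hl' g1 g2 =>
    mk_goal (by rintro rfl; omega) (Or.inr rfl) (by omega)
      (up_dn ha hb hx hl hl' (by rintro rfl; omega) (by omega) (by have := hy.rg l' hl'; omega) g2)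
  have hex : x a < y a ∨ x b < y b ∨ ∃ l' ∈ L, y l' < x l' := by
    by_contra hc
    push Not at hc
    obtain ⟨h1, h2, h3⟩ := hc
    have h4 : 0 < ∑ l ∈ L, (y l - x l) :=
      Finset.sum_pos' (fun m hm => by have := h3 m hm; omega) ⟨l, hl, by omega⟩
    rw [sum_diff hx hy] at h4
    omega
  by_cases h1 : x l = 1
  · have dy := hy.dbl l hl (by omega)
    by_cases h2 : ∃ m ∈ L, x m = 2
    · obtain ⟨m, hm, hm2⟩ := h2
      have hml : m ≠ l := by rintro rfl; omega
      have hy2 : y m < x m := by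
        have := hy.rg m hm
        have := hy.one m hm l hl
        by_contra hc
        exact hml (this (by omega) (by omega))
      have dx := hx.dbl m hm hm2
      exact cC m hm hy2 fun _ => ⟨dx.1, dx.2, fun m' hm' g => hx.one m' hm' m hm g hm2⟩
    · push Not at h2
      have hs := hx.sum
      have hs2 : x l ≤ ∑ l ∈ L, x l := Finset.single_le_sum (fun m hm => (hx.rg m hm).1) hl
      have n1 := hx.na
      have n2 := hx.nb
      by_cases h3 : x a = 0
      · exact cA (by omega) fun _ => ⟨by omega, h2⟩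
      · by_cases h4 : x b = 0
        · exact cB (by omega) fun _ => ⟨by omega, h2⟩
        · rcases hex with h5 | h5 | ⟨l', hl', h5⟩
          · exact cA h5 fun _ => ⟨by omega, h2⟩
          · exact cB h5 fun _ => ⟨by omega, h2⟩
          · exact cC l' hl' h5 fun _ => ⟨by omega, by omega, fun m hm g => absurd g (h2 m hm)⟩
  · rcases hex with h5 | h5 | ⟨l', hl', h5⟩
    · exact cA h5 fun g => absurd g h1
    · exact cB h5 fun g => absurd g h1
    · exact cC l' hl' h5 fun g => absurd g h1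

/-- a leaf goes down -/
theorem leaf_dn (hab : a ≠ b) (ha : a ∉ L) (hb : b ∉ L) (hx : UJ a b L x) (hy : UJ a b L y) {l : ℕ} (hl : l ∈ L)
    (h : y l < x l) : Goal a b L x y l (-1) := by
  have hal : a ≠ l := fun e => ha (e ▸ hl)
  have hbl : b ≠ l := fun e => hb (e ▸ hl)
  have rx := hx.rg l hl
  have ry := hy.rg l hl
  have n1 := hx.na
  have n2 := hx.nb
  have n3 := hy.na
  have n4 := hy.nb
  have comm : ∀ (i j : ℕ) (ε δ : ℤ), (x + Pi.single i ε + Pi.single j δ : ℕ → ℤ) = x + Pi.single j δ + Pi.single i ε :=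
    fun i j ε δ => by abel
  -- the three candidates
  have cA : y a < x a → (∀ m ∈ L, m ≠ l → x m = 2 → 2 ≤ x a) → Goal a b L x y l (-1) := fun g1 g2 =>
    mk_goal hal.symm (Or.inr rfl) (by omega) (by rw [comm]; exact hub_dn hab ha hb hx hl (by omega) (by omega) g2)
  have cB : y b < x b → (∀ m ∈ L, m ≠ l → x m = 2 → 2 ≤ x b) → Goal a b L x y l (-1) := fun g1 g2 =>
    mk_goal hbl.symm (Or.inr rfl) (by omega)
      (by rw [comm]; exact (hub_dn hab.symm hb ha hx.swap hl (by omega) (by omega) g2).swap)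
  have cC : ∀ l' ∈ L, x l' < y l' → (x l' = 1 → 1 ≤ x a ∧ 1 ≤ x b ∧ ∀ m ∈ L, x m = 2 → m = l) →
      Goal a b L x y l (-1) := fun l' hl' g1 g2 =>
    mk_goal (j := l') (by rintro rfl; omega) (Or.inl rfl) (by omega)
      (by
        rw [comm]
        exact up_dn ha hb hx hl' hl (by rintro rfl; omega) (by have := hy.rg l' hl'; omega) (by omega) g2)
  -- a leaf from 0 up
  have c0 : (∃ l' ∈ L, x l' = 0 ∧ 0 < y l') → Goal a b L x y l (-1) := by
    rintro ⟨l', hl', g1, g2⟩
    exact cC l' hl' (by omega) fun g => by omega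
  have hsd := sum_diff hx hy
  by_cases h2 : ∃ m ∈ L, m ≠ l ∧ x m = 2
  · obtain ⟨m, hm, hml, hm2⟩ := h2
    have dx := hx.dbl m hm hm2
    have hxl : x l ≤ 1 := by
      by_contra hc
      exact hml (hx.one m hm l hl hm2 (by omega))
    have honly : ∀ m' ∈ L, m' ≠ m → x m' ≤ 1 := by
      intro m' hm' hne
      have := hx.rg m' hm'
      by_contra hc
      exact hne (hx.one m' hm' m hm (by omega) hm2)
    by_cases hA : y a < x a ∧ 2 ≤ x a
    · exact cA hA.1 fun _ _ _ _ => hA.2
    · by_cases hB : y b < x b ∧ 2 ≤ x b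
      · exact cB hB.1 fun _ _ _ _ => hB.2
      · apply c0
        -- the sum of the differences of the other leaves
        have he := sum_erase2 (f := fun v => y v - x v) hl hm (Ne.symm hml)
        rw [hsd] at he
        have hs1 : x a + x b = ∑ v ∈ L, x v := hx.sum
        have hs2 : x l + x m ≤ ∑ v ∈ L, x v := by
          have := sum_erase2 (f := x) hl hm (Ne.symm hml)
          have h5 : 0 ≤ ∑ v ∈ (L.erase l).erase m, x v :=
            Finset.sum_nonneg fun v hv => (hx.rg v (Finset.mem_of_mem_erase (Finset.mem_of_mem_erase hv))).1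
          omega
        have hym := hy.rg m hm
        by_cases hy2 : y m = 2
        · -- then `y` has its double at `m`
          have dy := hy.dbl m hm hy2
          have h6 : 0 < ∑ v ∈ (L.erase l).erase m, (y v - x v) := by rw [he]; omega
          obtain ⟨l', hl', h7⟩ := pos_ex h6
          rw [Finset.mem_erase, Finset.mem_erase] at hl'
          have r1 := hx.rg l' hl'.2.2
          have r2 := hy.rg l' hl'.2.2
          have : y l' ≠ 2 := fun e => hl'.1 (hy.one l' hl'.2.2 m hm e hy2)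
          exact ⟨l', hl'.2.2, by omega, by omega⟩
        · by_cases h8 : ∃ m' ∈ L, y m' = 2
          · obtain ⟨m', hm', hy2'⟩ := h8
            have dy := hy.dbl m' hm' hy2'
            have hmm' : m ≠ m' := by rintro rfl; exact hy2 hy2'
            have h6 : 1 ≤ ∑ v ∈ (L.erase l).erase m, (y v - x v) := by rw [he]; omega
            -- two units up outside
            by_cases h9 : ∃ l' ∈ (L.erase l).erase m, l' ≠ m' ∧ 0 < y l' - x l'
            · obtain ⟨l', hl', hne, h7⟩ := h9
              rw [Finset.mem_erase, Finset.mem_erase] at hl'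
              have r1 := hx.rg l' hl'.2.2
              have r2 := hy.rg l' hl'.2.2
              have : y l' ≠ 2 := fun e => hne (hy.one l' hl'.2.2 m' hm' e hy2')
              exact ⟨l', hl'.2.2, by omega, by omega⟩
            · push Not at h9
              have r1 := hx.rg m' hm'
              have r3 := honly m' hm' (Ne.symm hmm')
              by_cases h10 : x m' = 0
              · exact ⟨m', hm', h10, by omega⟩
              · exfalso
                have h11 : ∑ v ∈ (L.erase l).erase m, (y v - x v) ≤ 1 := by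
                  by_cases h12 : m' ∈ (L.erase l).erase m
                  · rw [← Finset.add_sum_erase _ _ h12]
                    have : ∑ v ∈ ((L.erase l).erase m).erase m', (y v - x v) ≤ 0 :=
                      Finset.sum_nonpos fun v hv =>
                        h9 v (Finset.mem_of_mem_erase hv) (Finset.ne_of_mem_erase hv)
                    omega
                  · have : ∑ v ∈ (L.erase l).erase m, (y v - x v) ≤ 0 :=
                      Finset.sum_nonpos fun v hv => h9 v hv (by rintro rfl; exact h12 hv)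
                    omega
                omega
          · push Not at h8
            have h6 : 0 < ∑ v ∈ (L.erase l).erase m, (y v - x v) := by rw [he]; omega
            obtain ⟨l', hl', h7⟩ := pos_ex h6
            rw [Finset.mem_erase, Finset.mem_erase] at hl'
            have r1 := hx.rg l' hl'.2.2
            have r2 := hy.rg l' hl'.2.2
            have := h8 l' hl'.2.2
            exact ⟨l', hl'.2.2, by omega, by omega⟩
  · push Not at h2
    have h2' : ∀ m ∈ L, m ≠ l → x m = 2 → False := fun m hm hne e => h2 m hm hne e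
    by_cases hA : y a < x a
    · exact cA hA fun m hm hne e => (h2' m hm hne e).elim
    · by_cases hB : y b < x b
      · exact cB hB fun m hm hne e => (h2' m hm hne e).elim
      · have he := sum_erase1 (f := fun v => y v - x v) hl
        rw [hsd] at he
        have h6 : 0 < ∑ v ∈ L.erase l, (y v - x v) := by rw [he]; omega
        obtain ⟨l', hl', h7⟩ := pos_ex h6
        rw [Finset.mem_erase] at hl'
        have r1 := hx.rg l' hl'.2
        have r2 := hy.rg l' hl'.2
        by_cases h8 : 1 ≤ x a ∧ 1 ≤ x b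
        · refine cC l' hl'.2 (by omega) fun _ => ⟨h8.1, h8.2, fun m hm e => ?_⟩
          by_contra hc
          exact h2' m hm hc e
        · by_cases h9 : x l' = 0
          · exact c0 ⟨l', hl'.2, h9, by omega⟩
          · -- `y` has its double at `l'`
            have dy := hy.dbl l' hl'.2 (by omega)
            have he2 := sum_erase2 (f := fun v => y v - x v) hl hl'.2 (Ne.symm hl'.1)
            rw [hsd] at he2
            have h10 : 0 < ∑ v ∈ (L.erase l).erase l', (y v - x v) := by rw [he2]; omega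
            obtain ⟨l'', hl'', h11⟩ := pos_ex h10
            rw [Finset.mem_erase, Finset.mem_erase] at hl''
            have r3 := hx.rg l'' hl''.2.2
            have r4 := hy.rg l'' hl''.2.2
            have : y l'' ≠ 2 := fun e => hl''.1 (hy.one l'' hl''.2.2 l' hl'.2 e (by omega))
            exact c0 ⟨l'', hl''.2.2, by omega, by omega⟩

/-- a hub goes up -/
theorem a_up (hab : a ≠ b) (ha : a ∉ L) (hb : b ∉ L) (hx : UJ a b L x) (hy : UJ a b L y) (h : x a < y a) :
    Goal a b L x y a 1 := by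
  have n1 := hx.na
  have n2 := hx.nb
  have n3 := hy.na
  have n4 := hy.nb
  have hsd := sum_diff hx hy
  have cB : y b < x b → (∀ m ∈ L, x m = 2 → 2 ≤ x b) → Goal a b L x y a 1 := fun g1 g2 =>
    mk_goal hab (Or.inr rfl) (by omega) (hub_hub hab ha hb hx (by omega) g2)
  have cC : ∀ l ∈ L, x l < y l → (x l = 1 → 1 ≤ x b ∧ ∀ m ∈ L, x m ≠ 2) → Goal a b L x y a 1 := fun l hl g1 g2 =>
    mk_goal (fun e => ha (e ▸ hl)) (Or.inl rfl) (by omega)
      (hub_up hab ha hb hx hl (by have := hy.rg l hl; omega) g2)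
  have c0 : (∃ l' ∈ L, x l' = 0 ∧ 0 < y l') → Goal a b L x y a 1 := by
    rintro ⟨l', hl', g1, g2⟩
    exact cC l' hl' (by omega) fun g => by omega
  by_cases h2 : ∃ m ∈ L, x m = 2
  · obtain ⟨m, hm, hm2⟩ := h2
    have dx := hx.dbl m hm hm2
    have honly : ∀ m' ∈ L, m' ≠ m → x m' ≤ 1 := by
      intro m' hm' hne
      have := hx.rg m' hm'
      by_contra hc
      exact hne (hx.one m' hm' m hm (by omega) hm2)
    by_cases hB : y b < x b ∧ 2 ≤ x b
    · exact cB hB.1 fun _ _ _ => hB.2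
    · apply c0
      have he := sum_erase1 (f := fun v => y v - x v) hm
      rw [hsd] at he
      have hym := hy.rg m hm
      by_cases hy2 : y m = 2
      · have dy := hy.dbl m hm hy2
        have h6 : 0 < ∑ v ∈ L.erase m, (y v - x v) := by rw [he]; omega
        obtain ⟨l', hl', h7⟩ := pos_ex h6
        rw [Finset.mem_erase] at hl'
        have r1 := hx.rg l' hl'.2
        have r2 := hy.rg l' hl'.2
        have : y l' ≠ 2 := fun e => hl'.1 (hy.one l' hl'.2 m hm e hy2)
        exact ⟨l', hl'.2, by omega, by omega⟩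
      · by_cases h8 : ∃ m' ∈ L, y m' = 2
        · obtain ⟨m', hm', hy2'⟩ := h8
          have dy := hy.dbl m' hm' hy2'
          have hmm' : m ≠ m' := by rintro rfl; exact hy2 hy2'
          have r1 := hx.rg m' hm'
          have r3 := honly m' hm' (Ne.symm hmm')
          by_cases h10 : x m' = 0
          · exact ⟨m', hm', h10, by omega⟩
          · have he2 := sum_erase2 (f := fun v => y v - x v) hm hm' hmm'
            rw [hsd] at he2
            have h6 : 0 < ∑ v ∈ (L.erase m).erase m', (y v - x v) := by rw [he2]; omega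
            obtain ⟨l', hl', h7⟩ := pos_ex h6
            rw [Finset.mem_erase, Finset.mem_erase] at hl'
            have r1 := hx.rg l' hl'.2.2
            have r2 := hy.rg l' hl'.2.2
            have : y l' ≠ 2 := fun e => hl'.1 (hy.one l' hl'.2.2 m' hm' e hy2')
            exact ⟨l', hl'.2.2, by omega, by omega⟩
        · push Not at h8
          have h6 : 0 < ∑ v ∈ L.erase m, (y v - x v) := by rw [he]; omega
          obtain ⟨l', hl', h7⟩ := pos_ex h6
          rw [Finset.mem_erase] at hl'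
          have r1 := hx.rg l' hl'.2
          have r2 := hy.rg l' hl'.2
          have := h8 l' hl'.2
          exact ⟨l', hl'.2, by omega, by omega⟩
  · push Not at h2
    by_cases hB : y b < x b
    · exact cB hB fun m hm e => absurd e (h2 m hm)
    · have h6 : 0 < ∑ v ∈ L, (y v - x v) := by rw [hsd]; omega
      obtain ⟨l', hl', h7⟩ := pos_ex h6
      have r1 := hx.rg l' hl'
      have r2 := hy.rg l' hl'
      by_cases h8 : 1 ≤ x b
      · exact cC l' hl' (by omega) fun _ => ⟨h8, h2⟩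
      · by_cases h9 : x l' = 0
        · exact c0 ⟨l', hl', h9, by omega⟩
        · have dy := hy.dbl l' hl' (by have := h2 l' hl'; omega)
          have he := sum_erase1 (f := fun v => y v - x v) hl'
          rw [hsd] at he
          have h10 : 0 < ∑ v ∈ L.erase l', (y v - x v) := by rw [he]; omega
          obtain ⟨l'', hl'', h11⟩ := pos_ex h10
          rw [Finset.mem_erase] at hl''
          have r3 := hx.rg l'' hl''.2
          have r4 := hy.rg l'' hl''.2
          have : y l'' ≠ 2 := fun e => hl''.1 (hy.one l'' hl''.2 l' hl' e (by have := h2 l' hl'; omega))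
          exact c0 ⟨l'', hl''.2, by omega, by omega⟩

/-- a hub goes down -/
theorem a_dn (hab : a ≠ b) (ha : a ∉ L) (hb : b ∉ L) (hx : UJ a b L x) (hy : UJ a b L y) (h : y a < x a) :
    Goal a b L x y a (-1) := by
  have n1 := hx.na
  have n2 := hx.nb
  have n3 := hy.na
  have n4 := hy.nb
  have hsd := sum_diff hx hy
  have comm : ∀ (i j : ℕ) (ε δ : ℤ), (x + Pi.single i ε + Pi.single j δ : ℕ → ℤ) = x + Pi.single j δ + Pi.single i ε :=
    fun i j ε δ => by abel
  have cB : x b < y b → (∀ m ∈ L, x m = 2 → 2 ≤ x a) → Goal a b L x y a (-1) := fun g1 g2 =>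
    mk_goal hab (Or.inl rfl) (by omega) (by
      rw [comm]
      exact (hub_hub hab.symm hb ha hx.swap (by omega) g2).swap)
  have cC : ∀ l ∈ L, y l < x l → (∀ m ∈ L, m ≠ l → x m = 2 → 2 ≤ x a) → Goal a b L x y a (-1) := fun l hl g1 g2 =>
    mk_goal (fun e => ha (e ▸ hl)) (Or.inr rfl) (by omega)
      (hub_dn hab ha hb hx hl (by have := hy.rg l hl; omega) (by omega) g2)
  by_cases h2 : (∃ m ∈ L, x m = 2) ∧ x a = 1
  · obtain ⟨⟨m, hm, hm2⟩, h3⟩ := h2
    have hy2 : y m < x m := by
      have := hy.rg m hm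
      have := hy.dbl m hm
      by_contra hc
      have := this (by omega)
      omega
    refine cC m hm hy2 fun m' hm' hne e => ?_
    exact absurd (hx.one m' hm' m hm e hm2) hne
  · have h3 : ∀ m ∈ L, x m = 2 → 2 ≤ x a := by
      intro m hm e
      have := hx.dbl m hm e
      by_contra hc
      exact h2 ⟨⟨m, hm, e⟩, by omega⟩
    by_cases hB : x b < y b
    · exact cB hB h3
    · have h6 : ∑ v ∈ L, (y v - x v) < 0 := by rw [hsd]; omega
      obtain ⟨l', hl', h7⟩ := neg_ex h6
      exact cC l' hl' (by omega) fun m hm _ e => h3 m hm e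

/-- **the degree vectors of the square-free edge sets of `K2(a, b; L)` form a jump set** -/
theorem jb_UJ (hab : a ≠ b) (ha : a ∉ L) (hb : b ∉ L) : XC.JB (UJ a b L) := by
  intro x y i ε hx hy hε h
  show Goal a b L x y i ε
  by_cases h1 : i = a
  · subst h1
    rcases hε with rfl | rfl
    · exact a_up hab ha hb hx hy (by omega)
    · exact a_dn hab ha hb hx hy (by omega)
  · by_cases h2 : i = b
    · subst h2
      rcases hε with rfl | rfl
      · exact goal_swap (a_up hab.symm hb ha hx.swap hy.swap (by omega))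
      · exact goal_swap (a_dn hab.symm hb ha hx.swap hy.swap (by omega))
    · by_cases h3 : i ∈ L
      · rcases hε with rfl | rfl
        · exact leaf_up hab ha hb hx hy h3 (by omega)
        · exact leaf_dn hab ha hb hx hy h3 (by omega)
      · rw [hx.off i h1 h2 h3, hy.off i h1 h2 h3] at h
        simp at h

end

/-! ### edge sets of `K2(a, b; L)` -/

/-- the edges from `a` to `P` and from `b` to `Q` -/
def tw (a b : ℕ) (P Q : Finset ℕ) : Finset (Sym2 ℕ) := P.image (fun l => s(a, l)) ∪ Q.image (fun l => s(b, l))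

theorem mem_tw {a b u v : ℕ} {P Q : Finset ℕ} : s(u, v) ∈ tw a b P Q ↔
    (u = a ∧ v ∈ P) ∨ (v = a ∧ u ∈ P) ∨ (u = b ∧ v ∈ Q) ∨ (v = b ∧ u ∈ Q) := by
  simp only [tw, Finset.mem_union, Finset.mem_image, Sym2.eq_iff]
  constructor
  · rintro (⟨l, hl, ⟨rfl, rfl⟩ | ⟨rfl, rfl⟩⟩ | ⟨l, hl, ⟨rfl, rfl⟩ | ⟨rfl, rfl⟩⟩)
    · exact Or.inl ⟨rfl, hl⟩
    · exact Or.inr (Or.inl ⟨rfl, hl⟩)
    · exact Or.inr (Or.inr (Or.inl ⟨rfl, hl⟩))
    · exact Or.inr (Or.inr (Or.inr ⟨rfl, hl⟩))
  · rintro (⟨rfl, h⟩ | ⟨rfl, h⟩ | ⟨rfl, h⟩ | ⟨rfl, h⟩)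
    · exact Or.inl ⟨v, h, Or.inl ⟨rfl, rfl⟩⟩
    · exact Or.inl ⟨u, h, Or.inr ⟨rfl, rfl⟩⟩
    · exact Or.inr ⟨v, h, Or.inl ⟨rfl, rfl⟩⟩
    · exact Or.inr ⟨u, h, Or.inr ⟨rfl, rfl⟩⟩

section
variable {a b : ℕ} {L P Q : Finset ℕ}

theorem tw_sub (hP : P ⊆ L) (hQ : Q ⊆ L) : tw a b P Q ⊆ (Clu.k2 a b L).edges :=
  Finset.union_subset_union (Finset.image_subset_image hP) (Finset.image_subset_image hQ)

theorem tw_of {K : Finset (Sym2 ℕ)} (hK : K ⊆ (Clu.k2 a b L).edges) (hab : a ≠ b) (ha : a ∉ L) (hb : b ∉ L) :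
    K = tw a b (L.filter fun l => s(a, l) ∈ K) (L.filter fun l => s(b, l) ∈ K) := by
  ext e
  induction e using Sym2.ind with
  | _ u v =>
    rw [mem_tw]
    simp only [Finset.mem_filter]
    constructor
    · intro h
      have h1 := hK h
      simp only [Clu.edges, Finset.mem_union, Finset.mem_image, Sym2.eq_iff] at h1
      rcases h1 with ⟨l, hl, ⟨rfl, rfl⟩ | ⟨rfl, rfl⟩⟩ | ⟨l, hl, ⟨rfl, rfl⟩ | ⟨rfl, rfl⟩⟩
      · exact Or.inl ⟨rfl, hl, h⟩
      · exact Or.inr (Or.inl ⟨rfl, hl, by rw [Sym2.eq_swap]; exact h⟩)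
      · exact Or.inr (Or.inr (Or.inl ⟨rfl, hl, h⟩))
      · exact Or.inr (Or.inr (Or.inr ⟨rfl, hl, by rw [Sym2.eq_swap]; exact h⟩))
    · rintro (⟨rfl, _, h⟩ | ⟨rfl, _, h⟩ | ⟨rfl, _, h⟩ | ⟨rfl, _, h⟩)
      · exact h
      · rw [Sym2.eq_swap]; exact h
      · exact h
      · rw [Sym2.eq_swap]; exact h

theorem dv_star {w : ℕ} {A : Finset ℕ} (hw : w ∉ A) (v : ℕ) :
    dv (A.image fun l => s(w, l)) v = (if v ∈ A then 1 else 0) + if v = w then (#A : ℤ) else 0 := by
  induction A using Finset.induction_on with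
  | empty => simp [dv, dg]
  | insert c A hc ih =>
    rw [Finset.mem_insert, not_or] at hw
    have h2 : s(w, c) ∉ A.image fun l => s(w, l) := by
      rw [Finset.mem_image]
      rintro ⟨l, hl, h⟩
      rw [Sym2.eq_iff] at h
      rcases h with ⟨_, h⟩ | ⟨h, _⟩
      · exact hc (h ▸ hl)
      · exact hw.1 h
    rw [Finset.image_insert, dv_insert hw.1 h2, Pi.add_apply, Pi.add_apply, ih hw.2, TFC.ev_apply, TFC.ev_apply,
      Finset.card_insert_of_notMem hc]
    by_cases h3 : v = w
    · subst h3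
      simp [hw.1, hw.2]
    · by_cases h5 : v = c
      · subst h5
        simp [h3, hc]
      · simp [h3, h5]

theorem dv_tw (hab : a ≠ b) (ha : a ∉ L) (hb : b ∉ L) (hP : P ⊆ L) (hQ : Q ⊆ L) (v : ℕ) :
    dv (tw a b P Q) v = (if v ∈ P then 1 else 0) + (if v ∈ Q then 1 else 0) +
      ((if v = a then (#P : ℤ) else 0) + if v = b then (#Q : ℤ) else 0) := by
  have h1 : a ∉ P := fun h => ha (hP h)
  have h2 : b ∉ Q := fun h => hb (hQ h)
  have hd : Disjoint (P.image fun l => s(a, l)) (Q.image fun l => s(b, l)) := by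
    rw [Finset.disjoint_left]
    intro e he he'
    obtain ⟨l, hl, rfl⟩ := Finset.mem_image.1 he
    obtain ⟨m, hm, h⟩ := Finset.mem_image.1 he'
    rw [Sym2.eq_iff] at h
    rcases h with ⟨h, _⟩ | ⟨h, h'⟩
    · exact hab h.symm
    · exact ha (h' ▸ hQ hm)
  have e1 : dv (tw a b P Q) v = dv (P.image fun l => s(a, l)) v + dv (Q.image fun l => s(b, l)) v := by
    unfold tw dv dg
    rw [Finset.filter_union, Finset.card_union_of_disjoint (Finset.disjoint_filter_filter hd)]
    push_cast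
    rfl
  rw [e1, dv_star h1, dv_star h2]
  ring

/-- a square in `tw` -/
theorem tw_sq (hab : a ≠ b) (ha : a ∉ L) (hb : b ∉ L) (hP : P ⊆ L) (hQ : Q ⊆ L) {Z : Finset (Sym2 ℕ)}
    (hZ : IsSq Z) (h : Z ⊆ tw a b P Q) : 2 ≤ #(P ∩ Q) := by
  obtain ⟨c, d, e, f, ⟨n1, n2, n3, n4, n5, n6⟩, rfl⟩ := hZ
  have m1 : s(c, d) ∈ tw a b P Q := h (by simp [TFC.sq])
  have m2 : s(d, e) ∈ tw a b P Q := h (by simp [TFC.sq])
  have m3 : s(e, f) ∈ tw a b P Q := h (by simp [TFC.sq])
  have m4 : s(f, c) ∈ tw a b P Q := h (by simp [TFC.sq])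
  rw [mem_tw] at m1 m2 m3 m4
  have two : ∀ l l' : ℕ, l ≠ l' → l ∈ P → l ∈ Q → l' ∈ P → l' ∈ Q → 2 ≤ #(P ∩ Q) := by
    intro l l' hne h1 h2 h3 h4
    have hs : ({l, l'} : Finset ℕ) ⊆ P ∩ Q := by
      intro v hv
      rw [Finset.mem_insert, Finset.mem_singleton] at hv
      rcases hv with rfl | rfl
      · exact Finset.mem_inter.2 ⟨h1, h2⟩
      · exact Finset.mem_inter.2 ⟨h3, h4⟩
    rw [← Finset.card_pair hne]
    exact Finset.card_le_card hs
  have nP : ∀ l ∈ P, l ≠ a ∧ l ≠ b := fun l hl => ⟨fun e => ha (e ▸ hP hl), fun e => hb (e ▸ hP hl)⟩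
  have nQ : ∀ l ∈ Q, l ≠ a ∧ l ≠ b := fun l hl => ⟨fun e => ha (e ▸ hQ hl), fun e => hb (e ▸ hQ hl)⟩
  -- `c` is a hub or `d` is a hub
  by_cases hc : c = a ∨ c = b
  · -- `d, f` are leaves, `e` is the other hub
    have hd : d ≠ a ∧ d ≠ b ∧ (c = a → d ∈ P) ∧ (c = b → d ∈ Q) := by
      rcases m1 with ⟨g1, g2⟩ | ⟨g1, g2⟩ | ⟨g1, g2⟩ | ⟨g1, g2⟩
      · exact ⟨(nP d g2).1, (nP d g2).2, fun _ => g2, fun g => absurd (g1.symm.trans g) hab⟩
      · exact absurd hc (not_or.2 (nP c g2))
      · exact ⟨(nQ d g2).1, (nQ d g2).2, fun g => absurd (g.symm.trans g1) hab, fun _ => g2⟩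
      · exact absurd hc (not_or.2 (nQ c g2))
    have hf : f ≠ a ∧ f ≠ b ∧ (c = a → f ∈ P) ∧ (c = b → f ∈ Q) := by
      rcases m4 with ⟨g1, g2⟩ | ⟨g1, g2⟩ | ⟨g1, g2⟩ | ⟨g1, g2⟩
      · exact absurd hc (not_or.2 (nP c g2))
      · exact ⟨(nP f g2).1, (nP f g2).2, fun _ => g2, fun g => absurd (g1.symm.trans g) hab⟩
      · exact absurd hc (not_or.2 (nQ c g2))
      · exact ⟨(nQ f g2).1, (nQ f g2).2, fun g => absurd (g.symm.trans g1) hab, fun _ => g2⟩
    have he : (e = a → d ∈ P ∧ f ∈ P) ∧ (e = b → d ∈ Q ∧ f ∈ Q) ∧ (e = a ∨ e = b) := by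
      rcases m2 with ⟨g1, g2⟩ | ⟨g1, g2⟩ | ⟨g1, g2⟩ | ⟨g1, g2⟩
      · exact absurd g1 hd.1
      · rcases m3 with ⟨k1, k2⟩ | ⟨k1, k2⟩ | ⟨k1, k2⟩ | ⟨k1, k2⟩
        · exact ⟨fun _ => ⟨g2, k2⟩, fun g => absurd (g1.symm.trans g) hab, Or.inl g1⟩
        · exact absurd k1 hf.1
        · exact absurd (g1.symm.trans k1) hab
        · exact absurd k1 hf.2.1
      · exact absurd g1 hd.2.1
      · rcases m3 with ⟨k1, k2⟩ | ⟨k1, k2⟩ | ⟨k1, k2⟩ | ⟨k1, k2⟩
        · exact absurd (k1.symm.trans g1) hab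
        · exact absurd k1 hf.1
        · exact ⟨fun g => absurd (g.symm.trans g1) hab, fun _ => ⟨g2, k2⟩, Or.inr g1⟩
        · exact absurd k1 hf.2.1
    rcases hc with hc | hc
    · have heb : e = b := by
        rcases he.2.2 with g | g
        · exact absurd (hc.trans g.symm) n2
        · exact g
      exact two d f n5 (hd.2.2.1 hc) (he.2.1 heb).1 (hf.2.2.1 hc) (he.2.1 heb).2
    · have hea : e = a := by
        rcases he.2.2 with g | g
        · exact g
        · exact absurd (hc.trans g.symm) n2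
      exact two d f n5 (he.1 hea).1 (hd.2.2.2 hc) (he.1 hea).2 (hf.2.2.2 hc)
  · -- `c, e` are leaves, `d, f` are the hubs
    rw [not_or] at hc
    have hd : (d = a ∧ c ∈ P) ∨ (d = b ∧ c ∈ Q) := by
      rcases m1 with ⟨g1, _⟩ | ⟨g1, g2⟩ | ⟨g1, _⟩ | ⟨g1, g2⟩
      · exact absurd g1 hc.1
      · exact Or.inl ⟨g1, g2⟩
      · exact absurd g1 hc.2
      · exact Or.inr ⟨g1, g2⟩
    have hf : (f = a ∧ c ∈ P) ∨ (f = b ∧ c ∈ Q) := by
      rcases m4 with ⟨g1, g2⟩ | ⟨g1, _⟩ | ⟨g1, g2⟩ | ⟨g1, _⟩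
      · exact Or.inl ⟨g1, g2⟩
      · exact absurd g1 hc.1
      · exact Or.inr ⟨g1, g2⟩
      · exact absurd g1 hc.2
    have hed : (d = a → e ∈ P) ∧ (d = b → e ∈ Q) := by
      rcases m2 with ⟨g1, g2⟩ | ⟨g1, g2⟩ | ⟨g1, g2⟩ | ⟨g1, g2⟩
      · exact ⟨fun _ => g2, fun g => absurd (g1.symm.trans g) hab⟩
      · rcases hd with ⟨k, _⟩ | ⟨k, _⟩
        · exact absurd (k.trans g1.symm) n4
        · exact absurd k (nP d g2).2
      · exact ⟨fun g => absurd (g.symm.trans g1) hab, fun _ => g2⟩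
      · rcases hd with ⟨k, _⟩ | ⟨k, _⟩
        · exact absurd k (nQ d g2).1
        · exact absurd (k.trans g1.symm) n4
    have hef : (f = a → e ∈ P) ∧ (f = b → e ∈ Q) := by
      rcases m3 with ⟨g1, g2⟩ | ⟨g1, g2⟩ | ⟨g1, g2⟩ | ⟨g1, g2⟩
      · rcases hf with ⟨k, _⟩ | ⟨k, _⟩
        · exact absurd (g1.trans k.symm) n6
        · exact absurd k (nP f g2).2
      · exact ⟨fun _ => g2, fun g => absurd (g1.symm.trans g) hab⟩
      · rcases hf with ⟨k, _⟩ | ⟨k, _⟩
        · exact absurd k (nQ f g2).1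
        · exact absurd (g1.trans k.symm) n6
      · exact ⟨fun g => absurd (g.symm.trans g1) hab, fun _ => g2⟩
    rcases hd with ⟨k1, k2⟩ | ⟨k1, k2⟩ <;> rcases hf with ⟨k3, k4⟩ | ⟨k3, k4⟩
    · exact absurd (k1.trans k3.symm) n5
    · exact two c e n2 k2 k4 (hed.1 k1) (hef.2 k3)
    · exact two c e n2 k4 k2 (hef.1 k3) (hed.2 k1)
    · exact absurd (k1.trans k3.symm) n5

/-- two common leaves give a square -/
theorem sq_tw (hab : a ≠ b) (ha : a ∉ L) (hb : b ∉ L) (hP : P ⊆ L) (h : 2 ≤ #(P ∩ Q)) :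
    ∃ Z, IsSq Z ∧ Z ⊆ tw a b P Q := by
  obtain ⟨l, hl, l', hl', hne⟩ := Finset.one_lt_card.1 (show 1 < #(P ∩ Q) by omega)
  rw [Finset.mem_inter] at hl hl'
  have n1 : a ≠ l := fun e => ha (e ▸ hP hl.1)
  have n2 : a ≠ l' := fun e => ha (e ▸ hP hl'.1)
  have n3 : b ≠ l := fun e => hb (e ▸ hP hl.1)
  have n4 : b ≠ l' := fun e => hb (e ▸ hP hl'.1)
  refine ⟨TFC.sq a l b l', ⟨a, l, b, l', ⟨n1, hab, n2, n3.symm, hne, n4⟩, rfl⟩, ?_⟩
  intro e he
  simp only [TFC.sq, Finset.mem_insert, Finset.mem_singleton] at he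
  rcases he with rfl | rfl | rfl | rfl
  · exact mem_tw.2 (Or.inl ⟨rfl, hl.1⟩)
  · exact mem_tw.2 (Or.inr (Or.inr (Or.inr ⟨rfl, hl.2⟩)))
  · exact mem_tw.2 (Or.inr (Or.inr (Or.inl ⟨rfl, hl'.2⟩)))
  · exact mem_tw.2 (Or.inr (Or.inl ⟨rfl, hl'.1⟩))

theorem tw_free (hab : a ≠ b) (ha : a ∉ L) (hb : b ∉ L) (hP : P ⊆ L) (hQ : Q ⊆ L) :
    (∀ Z, IsSq Z → ¬ Z ⊆ tw a b P Q) ↔ #(P ∩ Q) ≤ 1 := by
  constructor
  · intro h
    by_contra hc
    obtain ⟨Z, h1, h2⟩ := sq_tw (Q := Q) hab ha hb hP (by omega)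
    exact h Z h1 h2
  · intro h Z h1 h2
    have := tw_sq hab ha hb hP hQ h1 h2
    omega

theorem ind_sum {A : Finset ℕ} (hA : A ⊆ L) : ∑ l ∈ L, (if l ∈ A then (1 : ℤ) else 0) = #A := by
  rw [Finset.sum_ite_mem, Finset.inter_eq_right.2 hA, Finset.sum_const, nsmul_eq_mul, mul_one]

/-- the description of the degree vectors -/
theorem UJ_iff (hab : a ≠ b) (ha : a ∉ L) (hb : b ∉ L) (x : ℕ → ℤ) :
    UJ a b L x ↔ ∃ P ⊆ L, ∃ Q ⊆ L, #(P ∩ Q) ≤ 1 ∧ x = dv (tw a b P Q) := by
  constructor
  · intro h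
    obtain ⟨I, hI⟩ : ∃ I, I = L.filter fun l => x l = 2 := ⟨_, rfl⟩
    obtain ⟨S, hS⟩ : ∃ S, S = L.filter fun l => x l = 1 := ⟨_, rfl⟩
    have mI : ∀ l, l ∈ I ↔ l ∈ L ∧ x l = 2 := fun l => by rw [hI, Finset.mem_filter]
    have mS : ∀ l, l ∈ S ↔ l ∈ L ∧ x l = 1 := fun l => by rw [hS, Finset.mem_filter]
    have hI1 : #I ≤ 1 := Finset.card_le_one.2 fun l hl l' hl' =>
      h.one l ((mI l).1 hl).1 l' ((mI l').1 hl').1 ((mI l).1 hl).2 ((mI l').1 hl').2
    have hIa : (#I : ℤ) ≤ x a ∧ (#I : ℤ) ≤ x b := by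
      rcases Finset.eq_empty_or_nonempty I with h0 | ⟨l, hl⟩
      · rw [h0]
        exact ⟨by simpa using h.na, by simpa using h.nb⟩
      · have := h.dbl l ((mI l).1 hl).1 ((mI l).1 hl).2
        constructor
        · have : (#I : ℤ) ≤ 1 := by exact_mod_cast hI1
          omega
        · have : (#I : ℤ) ≤ 1 := by exact_mod_cast hI1
          omega
    have hsum : ∑ l ∈ L, x l = 2 * #I + #S := by
      have e1 : ∀ l ∈ L, x l = 2 * (if l ∈ I then (1 : ℤ) else 0) + (if l ∈ S then (1 : ℤ) else 0) := by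
        intro l hl
        have r := h.rg l hl
        by_cases g1 : x l = 2
        · have g2 : l ∈ I := (mI l).2 ⟨hl, g1⟩
          have g3 : l ∉ S := fun g => by have := ((mS l).1 g).2; omega
          rw [if_pos g2, if_neg g3, g1]
          norm_num
        · have g2 : l ∉ I := fun g => g1 ((mI l).1 g).2
          rw [if_neg g2]
          by_cases g3 : x l = 1
          · rw [if_pos ((mS l).2 ⟨hl, g3⟩), g3]
            norm_num
          · rw [if_neg fun g => g3 ((mS l).1 g).2]
            omega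
      rw [Finset.sum_congr rfl e1, Finset.sum_add_distrib, ← Finset.mul_sum,
        ind_sum (hI ▸ Finset.filter_subset _ _), ind_sum (hS ▸ Finset.filter_subset _ _)]
    obtain ⟨A, hA1, hA2⟩ : ∃ A ⊆ S, #A = (x a - #I).toNat := by
      refine Finset.exists_subset_card_eq ?_
      have := h.sum
      have := hIa
      omega
    have dI : Disjoint I S := by
      rw [Finset.disjoint_left]
      intro l h1 h2
      have := ((mI l).1 h1).2
      have := ((mS l).1 h2).2
      omega
    have dA : Disjoint I A := dI.mono_right hA1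
    have dB : Disjoint I (S \ A) := dI.mono_right Finset.sdiff_subset
    have hIL : I ⊆ L := hI ▸ Finset.filter_subset _ _
    have hSL : S ⊆ L := hS ▸ Finset.filter_subset _ _
    have hPL : I ∪ A ⊆ L := Finset.union_subset hIL (hA1.trans hSL)
    have hQL : I ∪ (S \ A) ⊆ L := Finset.union_subset hIL (Finset.sdiff_subset.trans hSL)
    refine ⟨I ∪ A, hPL, I ∪ (S \ A), hQL, ?_, ?_⟩
    · have : (I ∪ A) ∩ (I ∪ (S \ A)) ⊆ I := by
        intro l hl
        rw [Finset.mem_inter, Finset.mem_union, Finset.mem_union, Finset.mem_sdiff] at hl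
        rcases hl with ⟨g | g, g' | g'⟩
        · exact g
        · exact g
        · exact g'
        · exact absurd g g'.2
      exact (Finset.card_le_card this).trans hI1
    · funext v
      rw [dv_tw hab ha hb hPL hQL]
      have cP : #(I ∪ A) = #I + #A := Finset.card_union_of_disjoint dA
      have cQ : #(I ∪ (S \ A)) = #I + (#S - #A) := by
        rw [Finset.card_union_of_disjoint dB, Finset.card_sdiff_of_subset hA1]
      have cAS := Finset.card_le_card hA1
      have hs := h.sum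
      by_cases e1 : v = a
      · subst e1
        rw [if_neg fun g => ha (hPL g), if_neg fun g => ha (hQL g), if_pos rfl, if_neg hab, cP]
        push_cast
        have := hIa
        omega
      · by_cases e2 : v = b
        · subst e2
          rw [if_neg fun g => hb (hPL g), if_neg fun g => hb (hQL g), if_neg e1, if_pos rfl, cQ]
          have := hIa
          push_cast
          omega
        · rw [if_neg e1, if_neg e2]
          by_cases e3 : v ∈ L
          · have r := h.rg v e3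
            by_cases g1 : v ∈ I
            · have := ((mI v).1 g1).2
              rw [if_pos (Finset.mem_union_left _ g1), if_pos (Finset.mem_union_left _ g1), this]
              norm_num
            · have g1' : x v ≠ 2 := fun g => g1 ((mI v).2 ⟨e3, g⟩)
              by_cases g2 : v ∈ S
              · have := ((mS v).1 g2).2
                by_cases g3 : v ∈ A
                · have g4 : v ∉ I ∪ (S \ A) := by
                    rw [Finset.mem_union, Finset.mem_sdiff]
                    rintro (g | g)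
                    · exact g1 g
                    · exact g.2 g3
                  rw [if_pos (Finset.mem_union_right _ g3), if_neg g4, this]
                  norm_num
                · have g4 : v ∉ I ∪ A := by
                    rw [Finset.mem_union]
                    rintro (g | g)
                    · exact g1 g
                    · exact g3 g
                  rw [if_neg g4, if_pos (Finset.mem_union_right _ (Finset.mem_sdiff.2 ⟨g2, g3⟩)), this]
                  norm_num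
              · have g2' : x v ≠ 1 := fun g => g2 ((mS v).2 ⟨e3, g⟩)
                have g4 : v ∉ I ∪ A := by
                  rw [Finset.mem_union]
                  rintro (g | g)
                  · exact g1 g
                  · exact g2 (hA1 g)
                have g5 : v ∉ I ∪ (S \ A) := by
                  rw [Finset.mem_union, Finset.mem_sdiff]
                  rintro (g | g)
                  · exact g1 g
                  · exact g2 g.1
                rw [if_neg g4, if_neg g5]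
                omega
          · rw [if_neg fun g => e3 (hPL g), if_neg fun g => e3 (hQL g), h.off v e1 e2 e3]
            rfl
  · rintro ⟨P, hP, Q, hQ, hc, rfl⟩
    have nP : ∀ l ∈ L, l ≠ a ∧ l ≠ b := fun l hl => ⟨fun e => ha (e ▸ hl), fun e => hb (e ▸ hl)⟩
    have key : ∀ l ∈ L, dv (tw a b P Q) l = (if l ∈ P then 1 else 0) + (if l ∈ Q then 1 else 0) := by
      intro l hl
      rw [dv_tw hab ha hb hP hQ, if_neg (nP l hl).1, if_neg (nP l hl).2]
      simp
    have ka : dv (tw a b P Q) a = #P := by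
      rw [dv_tw hab ha hb hP hQ, if_neg fun g => ha (hP g), if_neg fun g => ha (hQ g), if_pos rfl, if_neg hab]
      simp
    have kb : dv (tw a b P Q) b = #Q := by
      rw [dv_tw hab ha hb hP hQ, if_neg fun g => hb (hP g), if_neg fun g => hb (hQ g), if_neg hab.symm, if_pos rfl]
      simp
    have both : ∀ l ∈ L, dv (tw a b P Q) l = 2 → l ∈ P ∩ Q := by
      intro l hl h2
      rw [key l hl] at h2
      rw [Finset.mem_inter]
      by_cases g1 : l ∈ P
      · by_cases g2 : l ∈ Q
        · exact ⟨g1, g2⟩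
        · rw [if_pos g1, if_neg g2] at h2
          norm_num at h2
      · by_cases g2 : l ∈ Q
        · rw [if_neg g1, if_pos g2] at h2
          norm_num at h2
        · rw [if_neg g1, if_neg g2] at h2
          norm_num at h2
    refine ⟨?_, ?_, ?_, ?_, ?_, ?_, ?_⟩
    · intro v g1 g2 g3
      rw [dv_tw hab ha hb hP hQ, if_neg fun g => g3 (hP g), if_neg fun g => g3 (hQ g), if_neg g1, if_neg g2]
      rfl
    · intro l hl
      rw [key l hl]
      split_ifs <;> norm_num
    · intro l hl l' hl' g g'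
      exact Finset.card_le_one.1 hc l (both l hl g) l' (both l' hl' g')
    · rw [ka]; exact Int.natCast_nonneg _
    · rw [kb]; exact Int.natCast_nonneg _
    · intro l hl g
      have h3 := Finset.mem_inter.1 (both l hl g)
      rw [ka, kb]
      have h4 : 0 < #P := Finset.card_pos.2 ⟨l, h3.1⟩
      have h5 : 0 < #Q := Finset.card_pos.2 ⟨l, h3.2⟩
      omega
    · rw [ka, kb, Finset.sum_congr rfl key, Finset.sum_add_distrib, ind_sum hP, ind_sum hQ]

/-- **the square-free edge sets of a cluster `K2(a, b; L)` (no bound on the degrees) form a jump set** -/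
theorem jb_k2 (hv : (Clu.k2 a b L).Valid) :
    XC.JB (fun x => ∃ K ⊆ (Clu.k2 a b L).edges, (∀ Z, IsSq Z → ¬ Z ⊆ K) ∧ x = dv K) := by
  obtain ⟨hab, ha, hb, -⟩ := hv
  have e : (fun x => ∃ K ⊆ (Clu.k2 a b L).edges, (∀ Z, IsSq Z → ¬ Z ⊆ K) ∧ x = dv K) = UJ a b L := by
    funext x
    rw [UJ_iff hab ha hb]
    apply propext
    constructor
    · rintro ⟨K, hK, h1, rfl⟩
      have h2 := tw_of hK hab ha hb
      rw [h2] at h1
      exact ⟨_, Finset.filter_subset _ _, _, Finset.filter_subset _ _,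
        (tw_free hab ha hb (Finset.filter_subset _ _) (Finset.filter_subset _ _)).1 h1, by rw [← h2]⟩
    · rintro ⟨P, hP, Q, hQ, hc, rfl⟩
      exact ⟨_, tw_sub hP hQ, (tw_free hab ha hb hP hQ).2 hc, rfl⟩
  rw [e]
  exact jb_UJ hab ha hb

end

end Pool.Agent.PF4.XU

end

section -- file PF4/XUV

/-!
# The square-free family of a K2 cluster in the phi frame
-/

set_option autoImplicit false

namespace Pool.Agent.PF4.XU

open Finset Pool.Agent.TFC Pool.Agent.PF4 Pool.Agent.PF4.LD Pool.Agent.PF4.XC Pool.Agent.PF4.XT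

/-- without loops, square-free means without a square as a subset -/
theorem sqFree_iff {K : Finset (Sym2 ℕ)} (hK : ∀ e ∈ K, ¬ e.IsDiag) :
    TFC.SqFree K ↔ ∀ Z, IsSq Z → ¬ Z ⊆ K := by
  constructor
  · rintro h Z ⟨a, b, c, d, h4, rfl⟩ hs
    obtain ⟨hab, hac, had, hbc, hbd, hcd⟩ := h4
    exact h a b c d ⟨hac, hbd, hs (by simp [TFC.sq]), hs (by simp [TFC.sq]), hs (by simp [TFC.sq]),
      hs (by simp [TFC.sq])⟩
  · intro h a b c d hs
    have hl : ∀ u v : ℕ, s(u, v) ∈ K → u ≠ v := by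
      intro u v huv he
      exact hK _ huv (by simpa using he)
    refine h (TFC.sq a b c d) ⟨a, b, c, d, ⟨hl a b hs.ab, hs.ac, ?_, hl b c hs.bc, hs.bd, hl c d hs.cd⟩, rfl⟩ ?_
    · exact fun he => hl d a hs.da he.symm
    · intro e he
      simp only [TFC.sq, Finset.mem_insert, Finset.mem_singleton] at he
      rcases he with rfl | rfl | rfl | rfl
      · exact hs.ab
      · exact hs.bc
      · exact hs.cd
      · exact hs.da

end Pool.Agent.PF4.XU

end

section -- file PF4/XSh

/-!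
The phi frame: `K4` clusters, shapes of the `K2` clusters, the elementary lemmas `L1` - `L5`.
-/

set_option autoImplicit false

namespace Pool.Agent.PF4.XT

open Finset Pool.Agent.TFC Pool.Agent.PF4 Pool.Agent.PF4.LD Pool.Agent.PF4.XC Pool.Agent.PF4.XF

/-! ### contributions -/

theorem con_neg_two_le (p m : Prop) : con p m (-2) ≤ 2 := by
  unfold con; split_ifs <;> norm_num

theorem con_two_le (p m : Prop) : con p m 2 ≤ 2 := by
  unfold con; split_ifs <;> norm_num

theorem con_neg_two {p m : Prop} (h : 1 ≤ con p m (-2)) : m ∧ ¬ p := by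
  unfold con at h
  split_ifs at h with h1 h2 h2
  · norm_num at h
  · norm_num at h
  · exact ⟨h2, h1⟩
  · norm_num at h

theorem con_two {p m : Prop} (h : -1 ≤ con p m 2) : ¬ (m ∧ ¬ p) := by
  rintro ⟨h1, h2⟩
  rw [con_X h2 h1] at h
  norm_num at h

theorem con_two_pos {p m : Prop} (h : 1 ≤ con p m 2) : p ∧ ¬ m := by
  unfold con at h
  split_ifs at h with h1 h2 h2
  · norm_num at h
  · exact ⟨h1, h2⟩
  · norm_num at h
  · norm_num at h

theorem con_one_X {p m : Prop} (h : 0 ≤ con p m 1) : ¬ (m ∧ ¬ p) := by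
  rintro ⟨h1, h2⟩
  rw [con_X h2 h1] at h
  norm_num at h

theorem con_neg_one_Y {p m : Prop} (h : 0 ≤ con p m (-1)) : ¬ (p ∧ ¬ m) := by
  rintro ⟨h1, h2⟩
  rw [con_Y h1 h2] at h
  norm_num at h

theorem con_neg_one_free {p m : Prop} (h : ¬ m) : con p m (-1) ≤ 0 := by
  by_contra hc
  exact h (con_neg_eq (p := p) (by omega))

/-! ### evaluation -/

/-- one more edge removed -/
theorem ph_sub_edge {V : Finset ℕ} {pl mi : ℕ → Prop} {a b : ℕ} (ha : a ∈ V) (hb : b ∈ V) (hab : a ≠ b) :
    ph V pl mi (-dv {s(a, b)}) = con (pl a) (mi a) (-1) + con (pl b) (mi b) (-1) := by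
  rw [dv_pair hab, neg_add, ← Pi.single_neg, ← Pi.single_neg, ph_two ha hb hab]

/-! ### replacing the part in one cluster -/

section
variable {X : XD} {P : ℕ → Finset (Sym2 ℕ) → Prop} {D : Finset (Finset (Sym2 ℕ))} {j : ℕ} {S : Finset ℕ}
  {M : ℕ → Finset (Sym2 ℕ)} {A : Clu ℕ → Finset (Sym2 ℕ) → Prop} {CL U : List (Clu ℕ)} {PL : Finset (Sym2 ℕ)}
  {pl mi : ℕ → Prop}

/-! ### allowed sets -/

/-- no square at all -/
def NSq (K : Finset (Sym2 ℕ)) : Prop := ∀ Z, IsSq Z → ¬ Z ⊆ K

theorem nsq_small {K : Finset (Sym2 ℕ)} (h : #K < 4) : NSq K := by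
  rintro Z ⟨a, b, c, d, h4, rfl⟩ hs
  have := Finset.card_le_card hs
  rw [R4_card_sq h4] at this
  omega

theorem nsq_good {K : Finset (Sym2 ℕ)} (hK : NoLoop K) : NSq K ↔ Good none4 K := by
  constructor
  · intro h a b c d hs
    exact h _ ⟨a, b, c, d, hs.dist4 hK, rfl⟩ (R4_sq_sub hs)
  · rintro h Z ⟨a, b, c, d, ⟨_, hac, _, _, hbd, _⟩, rfl⟩ hs
    exact h a b c d ⟨hac, hbd, hs (by simp [TFC.sq]), hs (by simp [TFC.sq]), hs (by simp [TFC.sq]),
      hs (by simp [TFC.sq])⟩

/-! ### `K4` clusters -/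

theorem k4_dv_sq {Y : Finset ℕ} (hY : #Y = 4) {K Z : Finset (Sym2 ℕ)} (hK : K ⊆ (Clu.k4 Y).edges) (hM : M2 K)
    (hZ : IsSq Z) (hs : Z ⊆ K) : dv K = R4_tx Y := by
  obtain ⟨a, b, c, d, ⟨_, hac, _, _, hbd, _⟩, rfl⟩ := hZ
  exact R4_dv_sq hY hK hM (a := a) (b := b) (c := c) (d := d) ⟨hac, hbd, hs (by simp [TFC.sq]),
    hs (by simp [TFC.sq]), hs (by simp [TFC.sq]), hs (by simp [TFC.sq])⟩

theorem ev_single (v : ℕ) : (ev v : ℕ → ℤ) = Pi.single v 1 := rfl

theorem k4_le {Y : Finset ℕ} (hY : #Y = 4) (hD : ∀ Z', IsSq Z' → Z' ⊆ (Clu.k4 Y).edges → Z' ∈ D)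
    {K : Finset (Sym2 ℕ)} (hK : K ⊆ (Clu.k4 Y).edges) (hc : Acap D K) : #K ≤ 3 := by
  refine R4_card_le hY hK hc.1 ((nsq_good hc.1.nl).1 fun Z hZ hs => ?_)
  exact hc.2 Z (hD Z hZ (hs.trans hK)) hs

end

end Pool.Agent.PF4.XT

end

section -- file PF4/X5B

/-!
Replacing the part of a witness in a cluster; the types of the leaves of a cluster with a square which is not in the family;
the corners of a `K4` cluster.
-/

set_option autoImplicit false

namespace Pool.Agent.PF4.XT

open Finset Pool.Agent.TFC Pool.Agent.PF4 Pool.Agent.PF4.XF Pool.Agent.PF4.XU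

/-- the degree vector of a square -/
theorem dv_sq {a b c d : ℕ} (h : Dist4 a b c d) :
    dv (TFC.sq a b c d) = ev a + ev a + ev b + ev b + ev c + ev c + ev d + ev d := by
  obtain ⟨ab, ac, ad, bc, bd, cd⟩ := h
  have n1 : s(c, d) ∉ ({s(d, a)} : Finset (Sym2 ℕ)) := by
    simp only [mem_singleton, Sym2.eq_iff]
    rintro (⟨h1, _⟩ | ⟨h1, _⟩)
    · exact cd h1
    · exact ac h1.symm
  have n2 : s(b, c) ∉ ({s(c, d), s(d, a)} : Finset (Sym2 ℕ)) := by
    simp only [mem_insert, mem_singleton, Sym2.eq_iff]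
    rintro ((⟨h1, _⟩ | ⟨h1, _⟩) | (⟨h1, _⟩ | ⟨h1, _⟩))
    · exact bc h1
    · exact bd h1
    · exact bd h1
    · exact ab h1.symm
  have n3 : s(a, b) ∉ ({s(b, c), s(c, d), s(d, a)} : Finset (Sym2 ℕ)) := by
    simp only [mem_insert, mem_singleton, Sym2.eq_iff]
    rintro ((⟨h1, _⟩ | ⟨h1, _⟩) | (⟨h1, _⟩ | ⟨h1, _⟩) | (⟨h1, _⟩ | ⟨_, h1⟩))
    · exact ab h1
    · exact ac h1
    · exact ac h1
    · exact ad h1
    · exact ad h1
    · exact bd h1
  rw [TFC.sq, TFC.dv_insert ab n3, TFC.dv_insert bc n2, TFC.dv_insert cd n1, XT.dv_pair (Ne.symm ad)]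
  show ev d + ev a + ev c + ev d + ev b + ev c + ev a + ev b = _
  abel

/-- a square, written from one of its corners -/
theorem sq_at {Z : Finset (Sym2 ℕ)} (hZ : IsSq Z) {e : Sym2 ℕ} (he : e ∈ Z) {v : ℕ} (hv : v ∈ e) :
    ∃ a b c, Dist4 v a b c ∧ Z = TFC.sq v a b c := by
  obtain ⟨x, y, q, p, h4, rfl⟩ := hZ
  obtain ⟨xy, xq, xp, yq, yp, qp⟩ := h4
  have hc : v = x ∨ v = y ∨ v = q ∨ v = p := by
    simp only [TFC.sq, mem_insert, mem_singleton] at he
    rcases he with rfl | rfl | rfl | rfl <;> rw [Sym2.mem_iff] at hv <;> tauto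
  rcases hc with rfl | rfl | rfl | rfl
  · exact ⟨y, q, p, ⟨xy, xq, xp, yq, yp, qp⟩, rfl⟩
  · exact ⟨q, p, x, ⟨yq, yp, Ne.symm xy, qp, Ne.symm xq, Ne.symm xp⟩, sq_rot _ _ _ _⟩
  · exact ⟨p, x, y, ⟨qp, Ne.symm xq, Ne.symm yq, Ne.symm xp, Ne.symm yp, xy⟩, by rw [sq_rot, sq_rot]⟩
  · exact ⟨x, y, q, ⟨Ne.symm xp, Ne.symm yp, Ne.symm qp, xy, xq, yq⟩, by rw [sq_rot, sq_rot, sq_rot]⟩

section
variable {X : XD} {P : ℕ → Finset (Sym2 ℕ) → Prop} {D : Finset (Finset (Sym2 ℕ))} {j : ℕ} {S : Finset ℕ}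
  {M : ℕ → Finset (Sym2 ℕ)} {A : Clu ℕ → Finset (Sym2 ℕ) → Prop} {CL U : List (Clu ℕ)} {PL : Finset (Sym2 ℕ)}
  {pl mi : ℕ → Prop}

/-! ### clusters with two hubs -/

/-- the square with two given leaves -/
theorem sq_tw {u v b c : ℕ} : TFC.sq u b v c = tw u v {b, c} {b, c} := by
  ext e
  induction e using Sym2.ind with
  | _ p q =>
    rw [mem_tw]
    simp only [TFC.sq, mem_insert, mem_singleton, Sym2.eq_iff]
    tauto

end

end Pool.Agent.PF4.XT

end

section -- file PF4/XSh2

/-!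
The phi frame: the elementary lemmas `L1` - `L5` and the shapes of the `K2` clusters.
-/

set_option autoImplicit false

namespace Pool.Agent.PF4.XT

open Finset Pool.Agent.TFC Pool.Agent.PF4 Pool.Agent.PF4.LD Pool.Agent.PF4.XC Pool.Agent.PF4.XF Pool.Agent.PF4.XU

/-! ### adding an edge to a square-free set -/

section
variable {X : XD} {P : ℕ → Finset (Sym2 ℕ) → Prop} {D : Finset (Finset (Sym2 ℕ))} {j : ℕ} {S : Finset ℕ}
  {M : ℕ → Finset (Sym2 ℕ)} {A : Clu ℕ → Finset (Sym2 ℕ) → Prop} {CL U : List (Clu ℕ)} {PL : Finset (Sym2 ℕ)}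
  {pl mi : ℕ → Prop}

/-! ### L3, L4, L5: near covers -/

/-- three different vertices -/
theorem ph_three {V : Finset ℕ} {pl mi : ℕ → Prop} {u v w : ℕ} (hu : u ∈ V) (hv : v ∈ V) (hw : w ∈ V) (huv : u ≠ v)
    (huw : u ≠ w) (hvw : v ≠ w) (a b c : ℤ) : ph V pl mi (Pi.single u a + Pi.single v b + Pi.single w c) =
      con (pl u) (mi u) a + con (pl v) (mi v) b + con (pl w) (mi w) c := by
  rw [ph_add hw (by rw [Pi.add_apply, sgl, sgl, if_neg huw.symm, if_neg hvw.symm]; rfl), ph_two hu hv huv]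

/-! ### witnesses: the part in the cluster of the square is replaced -/

/-! ### shapes of the `K2` clusters (capped frame) -/

end

end Pool.Agent.PF4.XT

end

section -- file PF4/XL4

/-!
Local moves in a `K4`.
-/

set_option autoImplicit false

namespace Pool.Agent.PF4.XT

open Finset Pool.Agent.TFC Pool.Agent.PF4 Pool.Agent.PF4.LD Pool.Agent.PF4.XC Pool.Agent.PF4.XF Pool.Agent.PF4.XU

theorem l4_m2_insert {K : Finset (Sym2 ℕ)} (hK : M2 K) {u v : ℕ} (huv : u ≠ v) (hu : dg K u ≤ 1) (hv : dg K v ≤ 1) :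
    M2 (insert s(u, v) K) := by
  refine ⟨hK.nl.insert huv, fun w => ?_⟩
  by_cases he : s(u, v) ∈ K
  · rw [Finset.insert_eq_of_mem he]
    exact hK.le w
  · rw [dg_insert he]
    have hw := hK.le w
    split_ifs with h1
    · rcases Sym2.mem_iff.1 h1 with rfl | rfl <;> omega
    · omega

theorem l4_off {K : Finset (Sym2 ℕ)} {u : ℕ} (h : dg K u = 0) : ∀ e ∈ K, u ∉ e := by
  rw [dg, Finset.card_eq_zero, Finset.filter_eq_empty_iff] at h
  exact fun e he => h he

theorem l4_erase {K : Finset (Sym2 ℕ)} {a b : ℕ} (hab : a ≠ b) (h : s(a, b) ∈ K) :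
    dv (K.erase s(a, b)) = dv K + Pi.single a (-1) + Pi.single b (-1) := by
  rw [TFC.dv_erase hab h, Pi.single_neg, Pi.single_neg]
  show dv K - Pi.single a 1 - Pi.single b 1 = _
  abel

theorem l4_insert {K : Finset (Sym2 ℕ)} {a b : ℕ} (hab : a ≠ b) (h : s(a, b) ∉ K) :
    dv (insert s(a, b) K) = dv K + Pi.single a 1 + Pi.single b 1 := TFC.dv_insert hab h

/-- an edge set in a `K4` without edge at `u` has at most three edges, so it is square-free -/
theorem l4_nsq {Y : Finset ℕ} (hY : #Y = 4) {K : Finset (Sym2 ℕ)} (hK : K ⊆ (Clu.k4 Y).edges) {u : ℕ} (hu : u ∈ Y)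
    (h : ∀ e ∈ K, u ∉ e) : NSq K := by
  rintro Z ⟨a, b, c, d, ⟨n1, n2, n3, n4, n5, n6⟩, rfl⟩ hs
  have ha := (mem_k4.1 (hK (hs (by simp [TFC.sq] : s(a, b) ∈ TFC.sq a b c d)))).1
  have hb := (mem_k4.1 (hK (hs (by simp [TFC.sq] : s(a, b) ∈ TFC.sq a b c d)))).2.1
  have hc := (mem_k4.1 (hK (hs (by simp [TFC.sq] : s(c, d) ∈ TFC.sq a b c d)))).1
  have hd := (mem_k4.1 (hK (hs (by simp [TFC.sq] : s(c, d) ∈ TFC.sq a b c d)))).2.1
  have h4 : #({a, b, c, d} : Finset ℕ) = 4 := by
    rw [Finset.card_insert_of_notMem (by simp [n1, n2, n3]), Finset.card_insert_of_notMem (by simp [n4, n5]),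
      Finset.card_insert_of_notMem (by simp [n6]), Finset.card_singleton]
  have h5 : ({a, b, c, d} : Finset ℕ) ⊆ Y := by
    intro w hw
    simp only [Finset.mem_insert, Finset.mem_singleton] at hw
    rcases hw with rfl | rfl | rfl | rfl <;> assumption
  have h6 : u ∈ ({a, b, c, d} : Finset ℕ) := by
    rw [Finset.eq_of_subset_of_card_le h5 (by omega)]
    exact hu
  simp only [Finset.mem_insert, Finset.mem_singleton] at h6
  rcases h6 with rfl | rfl | rfl | rfl
  · exact h _ (hs (by simp [TFC.sq] : s(u, b) ∈ TFC.sq u b c d)) (by simp)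
  · exact h _ (hs (by simp [TFC.sq] : s(a, u) ∈ TFC.sq a u c d)) (by simp)
  · exact h _ (hs (by simp [TFC.sq] : s(u, d) ∈ TFC.sq a b u d)) (by simp)
  · exact h _ (hs (by simp [TFC.sq] : s(c, u) ∈ TFC.sq a b c u)) (by simp)

end Pool.Agent.PF4.XT

end

section -- file PF4/XB1

/-!
The constant-size part of the pool for `xf1`: the edges `EL` (the object, the near covers of the corners, the two squares), the
edges `EnL` near the corners (distance at most 4), the edges `E2L` at the ends of those, the vertices `V2L`; bounds for the lengths; all sublists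
(`subl`) and all demand lists (`asg`) of a list of constant length, polynomial time.
-/

set_option autoImplicit false

namespace Pool.Agent.PF4.XF

open Finset Pool.Agent.TFC Pool.Agent.Lib.helper60

/-! ### lists without duplicates -/

/-- remove duplicates -/
def nub (l : List ℕ) : List ℕ := l.foldl (fun s a => bif EDM.memN s a then s else a :: s) []

theorem nub_aux (l : List ℕ) : ∀ s : List ℕ, s.Nodup →
    (l.foldl (fun s a => bif EDM.memN s a then s else a :: s) s).Nodup ∧
    (∀ v, v ∈ l.foldl (fun s a => bif EDM.memN s a then s else a :: s) s ↔ v ∈ s ∨ v ∈ l) ∧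
    (l.foldl (fun s a => bif EDM.memN s a then s else a :: s) s).length ≤ s.length + l.length := by
  induction l with
  | nil => intro s hs; exact ⟨hs, by simp, by simp⟩
  | cons a l ih =>
    intro s hs
    rw [List.foldl_cons]
    cases h : EDM.memN s a with
    | true =>
      rw [EDM.memN_iff] at h
      rw [cond_true]
      obtain ⟨h1, h2, h3⟩ := ih s hs
      refine ⟨h1, ?_, ?_⟩
      · intro v
        rw [h2, List.mem_cons]
        constructor
        · rintro (h4 | h4)
          · exact Or.inl h4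
          · exact Or.inr (Or.inr h4)
        · rintro (h4 | h4 | h4)
          · exact Or.inl h4
          · rw [h4]; exact Or.inl h
          · exact Or.inr h4
      · rw [List.length_cons]; omega
    | false =>
      rw [EDM.memN_false] at h
      rw [cond_false]
      obtain ⟨h1, h2, h3⟩ := ih (a :: s) (List.nodup_cons.2 ⟨h, hs⟩)
      refine ⟨h1, ?_, ?_⟩
      · intro v
        rw [h2, List.mem_cons, List.mem_cons]
        tauto
      · rw [List.length_cons] at h3 ⊢; omega

theorem nub_nodup (l : List ℕ) : (nub l).Nodup := (nub_aux l [] List.nodup_nil).1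

theorem mem_nub {l : List ℕ} {v : ℕ} : v ∈ nub l ↔ v ∈ l := by
  have := (nub_aux l [] List.nodup_nil).2.1 v
  simpa [nub] using this

theorem nub_length (l : List ℕ) : (nub l).length ≤ l.length := by
  have := (nub_aux l [] List.nodup_nil).2.2
  simpa [nub] using this

/-! ### all sublists and all demand lists -/

/-- all sublists of a list of length at most `c` -/
def subl {α : Type} : ℕ → List α → List (List α)
  | 0, _ => [[]]
  | _ + 1, [] => [[]]
  | c + 1, a :: l => subl c l ++ (subl c l).map fun s => a :: s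

theorem mem_subl {α : Type} {c : ℕ} {l s : List α} (h : s ∈ subl c l) : s.Sublist l := by
  induction c generalizing l s with
  | zero =>
    simp only [subl, List.mem_singleton] at h
    subst h
    exact List.nil_sublist _
  | succ c ih =>
    cases l with
    | nil =>
      simp only [subl, List.mem_singleton] at h
      subst h
      exact List.Sublist.refl _
    | cons a l =>
      simp only [subl, List.mem_append, List.mem_map] at h
      rcases h with h | ⟨t, ht, rfl⟩
      · exact (ih h).cons a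
      · exact (ih ht).cons_cons a

theorem subl_mem {α : Type} {c : ℕ} {l s : List α} (hl : l.length ≤ c) (h : s.Sublist l) :
    s ∈ subl c l := by
  induction c generalizing l s with
  | zero =>
    have : l = [] := List.length_eq_zero_iff.1 (Nat.le_zero.1 hl)
    subst this
    rw [List.sublist_nil.1 h]
    exact List.mem_singleton.2 rfl
  | succ c ih =>
    cases l with
    | nil =>
      rw [List.sublist_nil.1 h]
      exact List.mem_singleton.2 rfl
    | cons a l =>
      rw [List.length_cons] at hl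
      simp only [subl, List.mem_append, List.mem_map]
      cases h with
      | cons _ h => exact Or.inl (ih (by omega) h)
      | cons_cons _ h => exact Or.inr ⟨_, ih (by omega) h, rfl⟩

/-- every set of edges of `l` is the set of a sublist without repetition -/
theorem exists_sub {l : List Ed} (H : Finset (Sym2 ℕ)) (hH : H ⊆ fs l) :
    ∃ s : List Ed, s.Sublist l ∧ WF s ∧ fs s = H := by
  induction l generalizing H with
  | nil =>
    rw [fs_nil, Finset.subset_empty] at hH
    subst hH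
    exact ⟨[], List.Sublist.refl _, WF.nil, rfl⟩
  | cons a l ih =>
    rw [fs_cons] at hH
    by_cases ha : fe a ∈ H
    · have h1 : H.erase (fe a) ⊆ fs l := by
        intro e he
        rw [Finset.mem_erase] at he
        exact (Finset.mem_insert.1 (hH he.2)).resolve_left he.1
      obtain ⟨s, h2, h3, h4⟩ := ih _ h1
      refine ⟨a :: s, h2.cons_cons a, ?_, ?_⟩
      · show ((a :: s).map fe).Nodup
        rw [List.map_cons, List.nodup_cons]
        refine ⟨fun h => ?_, h3⟩
        have h5 : fe a ∈ fs s := by rw [fs, List.mem_toFinset]; exact h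
        rw [h4] at h5
        simp at h5
      · rw [fs_cons, h4, Finset.insert_erase ha]
    · have h1 : H ⊆ fs l := by
        intro e he
        refine (Finset.mem_insert.1 (hH he)).resolve_left ?_
        rintro rfl
        exact ha he
      obtain ⟨s, h2, h3, h4⟩ := ih _ h1
      exact ⟨s, h2.cons a, h3, h4⟩

/-- all sets of edges of a list of length at most `c` -/
theorem subl_full {c : ℕ} {l : List Ed} (hl : l.length ≤ c) (H : Finset (Sym2 ℕ)) (hH : H ⊆ fs l) :
    ∃ s ∈ subl c l, WF s ∧ fs s = H := by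
  obtain ⟨s, h1, h2, h3⟩ := exists_sub H hH
  exact ⟨s, subl_mem hl h1, h2, h3⟩

theorem fs_subl {c : ℕ} {l s : List Ed} (h : s ∈ subl c l) : fs s ⊆ fs l := by
  intro e he
  obtain ⟨f, hf, rfl⟩ := mem_fs.1 he
  exact fe_mem_fs ((mem_subl h).subset hf)

/-- all lists with multiplicities 0, 1, 2 of the members of a list of length at most `c` -/
def asg : ℕ → List ℕ → List (List ℕ)
  | 0, _ => [[]]
  | _ + 1, [] => [[]]
  | c + 1, a :: V => asg c V ++ (((asg c V).map fun s => a :: s) ++ ((asg c V).map fun s => a :: a :: s))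

theorem mem_asg {c : ℕ} {V k : List ℕ} (hV : V.Nodup) (h : k ∈ asg c V) (v : ℕ) :
    k.count v ≤ 2 ∧ (v ∉ V → k.count v = 0) := by
  induction c generalizing V k with
  | zero =>
    simp only [asg, List.mem_singleton] at h
    subst h
    simp
  | succ c ih =>
    cases V with
    | nil =>
      simp only [asg, List.mem_singleton] at h
      subst h
      simp
    | cons a V =>
      rw [List.nodup_cons] at hV
      simp only [asg, List.mem_append, List.mem_map] at h
      rcases h with h | ⟨s, hs, rfl⟩ | ⟨s, hs, rfl⟩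
      · obtain ⟨h1, h2⟩ := ih hV.2 h
        exact ⟨h1, fun hv => h2 fun h3 => hv (List.mem_cons_of_mem _ h3)⟩
      · obtain ⟨h1, h2⟩ := ih hV.2 hs
        rw [List.count_cons]
        by_cases hav : a = v
        · subst hav
          have := h2 hV.1
          refine ⟨?_, fun hv => absurd List.mem_cons_self hv⟩
          simp; omega
        · have e : (a == v) = false := by simpa using hav
          rw [e]
          refine ⟨by simpa using h1, fun hv => ?_⟩
          have := h2 fun h3 => hv (List.mem_cons_of_mem _ h3)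
          simpa using this
      · obtain ⟨h1, h2⟩ := ih hV.2 hs
        rw [List.count_cons, List.count_cons]
        by_cases hav : a = v
        · subst hav
          have := h2 hV.1
          refine ⟨?_, fun hv => absurd List.mem_cons_self hv⟩
          simp; omega
        · have e : (a == v) = false := by simpa using hav
          rw [e]
          refine ⟨by simpa using h1, fun hv => ?_⟩
          have := h2 fun h3 => hv (List.mem_cons_of_mem _ h3)
          simpa using this

/-- all demands with values 0, 1, 2 on `V` -/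
theorem asg_full {c : ℕ} {V : List ℕ} (hV : V.Nodup) (hc : V.length ≤ c) (k : ℕ → ℕ)
    (hk : ∀ v ∈ V, k v ≤ 2) :
    ∃ s ∈ asg c V, (∀ v ∈ V, s.count v = k v) ∧ ∀ v, v ∉ V → s.count v = 0 := by
  induction c generalizing V with
  | zero =>
    have : V = [] := List.length_eq_zero_iff.1 (Nat.le_zero.1 hc)
    subst this
    exact ⟨[], List.mem_singleton.2 rfl, by simp, by simp⟩
  | succ c ih =>
    cases V with
    | nil => exact ⟨[], List.mem_singleton.2 rfl, by simp, by simp⟩
    | cons a V =>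
      rw [List.nodup_cons] at hV
      rw [List.length_cons] at hc
      obtain ⟨s, hs, h1, h2⟩ := ih hV.2 (by omega) fun v hv => hk v (List.mem_cons_of_mem _ hv)
      have ha := h2 a hV.1
      have hka := hk a List.mem_cons_self
      have key : ∀ t : List ℕ, t ∈ asg (c + 1) (a :: V) → t.count a = k a →
          (∀ v, v ≠ a → t.count v = s.count v) →
          ∃ s ∈ asg (c + 1) (a :: V), (∀ v ∈ a :: V, s.count v = k v) ∧
            ∀ v, v ∉ a :: V → s.count v = 0 := by
        intro t ht h3 h4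
        refine ⟨t, ht, ?_, ?_⟩
        · intro v hv
          by_cases hva : v = a
          · rw [hva]; exact h3
          · rw [h4 v hva]
            exact h1 v ((List.mem_cons.1 hv).resolve_left hva)
        · intro v hv
          rw [List.mem_cons, not_or] at hv
          rw [h4 v hv.1]
          exact h2 v hv.2
      have hne : ∀ v, v ≠ a → (a == v) = false := fun v hv => by simpa using Ne.symm hv
      rcases Nat.lt_or_ge (k a) 1 with h | h
      · exact key s (List.mem_append_left _ hs) (by omega) fun v _ => rfl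
      · rcases Nat.lt_or_ge (k a) 2 with h' | h'
        · refine key (a :: s) (List.mem_append_right _ (List.mem_append_left _
            (List.mem_map.2 ⟨s, hs, rfl⟩))) ?_ fun v hv => ?_
          · rw [List.count_cons_self]; omega
          · rw [List.count_cons, hne v hv]; simp
        · refine key (a :: a :: s) (List.mem_append_right _ (List.mem_append_right _
            (List.mem_map.2 ⟨s, hs, rfl⟩))) ?_ fun v hv => ?_
          · rw [List.count_cons_self, List.count_cons_self]; omega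
          · rw [List.count_cons, List.count_cons, hne v hv]; simp

/-! ### the edges -/

/-- the object stored for `w` -/
def lookW (W : List (ℕ × List Ed)) (w : ℕ) : List Ed :=
  ((W.filter fun p => decide (p.1 = w)).map fun p => p.2).headD []

/-- the edges of `l` with an end in `S` -/
def touch (l : List Ed) (S : List ℕ) : List Ed := l.filter fun e => S.any fun v => inc v e

/-- the ends of a list of edges -/
def flat2 (l : List Ed) : List ℕ := l.flatMap fun e => [e.1, e.2]

/-- bounds for the lengths -/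
def cS : ℕ → ℕ
  | 0 => 12
  | r + 1 => cS r + 2 * (38 * cS r)
def cEn : ℕ := 38 * cS 4
def cS1 : ℕ := cS 5
def cE2 : ℕ := 38 * cS1
def cV2 : ℕ := 12 + 2 * cE2

theorem inc_iff {v : ℕ} {e : Ed} : inc v e = true ↔ v ∈ fe e := by
  simp only [inc, fe, Bool.or_eq_true, decide_eq_true_eq, Sym2.mem_iff]
  constructor
  · rintro (h | h)
    · exact Or.inl h.symm
    · exact Or.inr h.symm
  · rintro (h | h)
    · exact Or.inl h.symm
    · exact Or.inr h.symm

theorem mem_touch {l : List Ed} {S : List ℕ} {e : Sym2 ℕ} :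
    e ∈ fs (touch l S) ↔ e ∈ fs l ∧ ∃ v ∈ S, v ∈ e := by
  rw [mem_fs, mem_fs]
  constructor
  · rintro ⟨f, hf, rfl⟩
    rw [touch, List.mem_filter, List.any_eq_true] at hf
    obtain ⟨h1, v, hv, h2⟩ := hf
    exact ⟨⟨f, h1, rfl⟩, v, hv, inc_iff.1 h2⟩
  · rintro ⟨⟨f, hf, rfl⟩, v, hv, h⟩
    refine ⟨f, ?_, rfl⟩
    rw [touch, List.mem_filter, List.any_eq_true]
    exact ⟨hf, v, hv, inc_iff.2 h⟩

theorem touch_length (l : List Ed) (S : List ℕ) {d : ℕ} (hd : ∀ v, degL l v ≤ d) :
    (touch l S).length ≤ d * S.length := by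
  induction S with
  | nil => simp [touch]
  | cons a S ih =>
    have h1 : (touch l (a :: S)).length ≤ degL l a + (touch l S).length := by
      unfold touch degL
      clear ih hd
      induction l with
      | nil => simp
      | cons e l ih =>
        rw [List.filter_cons, List.filter_cons, List.filter_cons]
        simp only [List.any_cons, Bool.or_eq_true] at ih ⊢
        by_cases h1 : inc a e = true
        · rw [if_pos (Or.inl h1), if_pos h1, List.length_cons, List.length_cons]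
          split_ifs
          · rw [List.length_cons]; omega
          · omega
        · by_cases h2 : (S.any fun v => inc v e) = true
          · rw [if_pos (Or.inr h2), if_neg h1, if_pos h2, List.length_cons, List.length_cons]
            omega
          · rw [if_neg (by rintro (h | h); exacts [h1 h, h2 h]), if_neg h1, if_neg h2]
            exact ih
    have h2 := hd a
    rw [List.length_cons, Nat.mul_succ]
    omega

theorem degL_append (l m : List Ed) (v : ℕ) : degL (l ++ m) v = degL l v + degL m v := by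
  simp [degL]

theorem degL_le_length (l : List Ed) (v : ℕ) : degL l v ≤ l.length := List.length_filter_le _ _

theorem degL_flatMap {α : Type} (L : List α) (F : α → List Ed) {d : ℕ} (v : ℕ)
    (h : ∀ a ∈ L, degL (F a) v ≤ d) : degL (L.flatMap F) v ≤ d * L.length := by
  induction L with
  | nil => simp [degL]
  | cons a L ih =>
    rw [List.flatMap_cons, degL_append, List.length_cons, Nat.mul_succ]
    have h1 := ih fun b hb => h b (List.mem_cons_of_mem _ hb)
    have h2 := h a List.mem_cons_self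
    omega

theorem mg_nil {x : Ins} : MG x [] := by
  have h0 : ∀ v, dg (fs ([] : List Ed)) v = 0 := by intro v; rw [fs_nil]; rfl
  refine ⟨WF.nil, ⟨?_, ?_⟩, ?_⟩
  · intro e he; rw [fs_nil] at he; simp at he
  · intro v; rw [h0]; omega
  · rw [fs_nil]; exact Finset.empty_subset _

theorem lookW_mg {x : Ins} {W : List (ℕ × List Ed)} (h : ∀ p ∈ W, MG x p.2) (w : ℕ) :
    MG x (lookW W w) := by
  unfold lookW
  cases hc : (W.filter fun p => decide (p.1 = w)) with
  | nil => exact mg_nil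
  | cons p l =>
    have : p ∈ W.filter fun p => decide (p.1 = w) := by rw [hc]; exact List.mem_cons_self
    exact h p (List.mem_of_mem_filter this)

theorem mg_degL_le {x : Ins} {M : List Ed} (h : MG x M) (v : ℕ) : degL M v ≤ 2 := by
  rw [degL_eq h.wf]
  exact h.m2.le v

variable {x : Ins} {F : List Ed} {W : List (ℕ × List Ed)} {Q R B : Sq4}

theorem flat2_length (l : List Ed) : (flat2 l).length = 2 * l.length := by
  induction l with
  | nil => rfl
  | cons e l ih =>
    unfold flat2 at ih ⊢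
    rw [List.flatMap_cons, List.length_append, ih, List.length_cons]
    simp only [List.length_cons, List.length_nil]
    omega

theorem mem_flat2 {l : List Ed} {v : ℕ} : v ∈ flat2 l ↔ ∃ e ∈ fs l, v ∈ e := by
  unfold flat2
  rw [List.mem_flatMap]
  constructor
  · rintro ⟨e, he, hv⟩
    refine ⟨fe e, fe_mem_fs he, ?_⟩
    simpa [fe] using hv
  · rintro ⟨e, he, hv⟩
    obtain ⟨f, hf, rfl⟩ := mem_fs.1 he
    exact ⟨f, hf, by simpa [fe] using hv⟩

theorem fe_mem_self (e : Sym2 ℕ) : ∃ v, v ∈ e := by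
  induction e using Sym2.ind with
  | _ a b => exact ⟨a, Sym2.mem_mk_left _ _⟩

/-! ### polynomial time -/

section pt

variable {ι : Type} [DEnc ι]

theorem nub_tsize (l : List ℕ) : ∀ s : List ℕ,
    tsize (l.foldl (fun s a => bif EDM.memN s a then s else a :: s) s) ≤ tsize s + tsize l := by
  induction l with
  | nil => intro s; simp
  | cons a l ih =>
    intro s
    rw [List.foldl_cons, tsize_cons]
    refine (ih _).trans ?_
    cases EDM.memN s a with
    | true => rw [cond_true]; omega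
    | false => rw [cond_false, tsize_cons]; omega

theorem pt_nub {l : ι → List ℕ} (hl : PT l) : PT (fun x => nub (l x)) := by
  refine PT.foldl (init := fun _ => ([] : List ℕ))
    (g := fun y : ι × List ℕ × ℕ => bif EDM.memN y.2.1 y.2.2 then y.2.1 else y.2.2 :: y.2.1)
    hl (PT.const []) ?_ ⟨fun x => 1 + tsize (l x), (PB.const 1).add hl.size, ?_⟩
  · exact PT.cond (PT.any PT.snd.p1 (p := fun z : (ι × List ℕ × ℕ) × ℕ => decide (z.2 = z.1.2.2))
      (PT.neq PT.snd PT.fst.p2.p2)) PT.snd.p1 (PT.cons PT.snd.p2 PT.snd.p1)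
  · intro x l₁ l₂ h
    refine (nub_tsize l₁ []).trans ?_
    have := tsize_append l₁ l₂
    rw [h] at this
    have := tsize_pos l₂
    rw [tsize_nil]
    show _ ≤ 1 + tsize (l x)
    omega

theorem pt_subl {α : Type} [DEnc α] (c : ℕ) : ∀ {ι : Type} [DEnc ι] {l : ι → List α}, PT l →
    PT (fun x => subl c (l x)) := by
  induction c with
  | zero => intro ι _ l _; exact PT.const [[]]
  | succ c ih =>
    intro ι _ l hl
    have h1 : PT (fun y : ι × α × List α => subl c y.2.2 ++ (subl c y.2.2).map fun s => y.2.1 :: s) :=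
      PT.append (ih PT.snd.p2) (PT.map (ih PT.snd.p2)
        (g := fun z : (ι × α × List α) × List α => z.1.2.1 :: z.2) (PT.cons PT.fst.p2.p1 PT.snd))
    refine (PT.listCases hl (PT.const [[]]) h1).congr fun x => ?_
    cases l x <;> rfl

theorem pt_asg (c : ℕ) : ∀ {ι : Type} [DEnc ι] {l : ι → List ℕ}, PT l → PT (fun x => asg c (l x)) := by
  induction c with
  | zero => intro ι _ l _; exact PT.const [[]]
  | succ c ih =>
    intro ι _ l hl
    have h1 : PT (fun y : ι × ℕ × List ℕ => asg c y.2.2 ++ (((asg c y.2.2).map fun s => y.2.1 :: s) ++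
        ((asg c y.2.2).map fun s => y.2.1 :: y.2.1 :: s))) :=
      PT.append (ih PT.snd.p2) (PT.append (PT.map (ih PT.snd.p2)
        (g := fun z : (ι × ℕ × List ℕ) × List ℕ => z.1.2.1 :: z.2) (PT.cons PT.fst.p2.p1 PT.snd))
        (PT.map (ih PT.snd.p2)
        (g := fun z : (ι × ℕ × List ℕ) × List ℕ => z.1.2.1 :: z.1.2.1 :: z.2)
          (PT.cons PT.fst.p2.p1 (PT.cons PT.fst.p2.p1 PT.snd))))
    refine (PT.listCases hl (PT.const [[]]) h1).congr fun x => ?_
    cases l x <;> rfl

theorem pt_lookW {W : ι → List (ℕ × List Ed)} {w : ι → ℕ} (hW : PT W) (hw : PT w) :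
    PT (fun x => lookW (W x) (w x)) :=
  PT.headD (PT.map (PT.filter hW (p := fun y : ι × (ℕ × List Ed) => decide (y.2.1 = w y.1))
    (PT.neq PT.snd.p1 (hw.comp PT.fst))) (g := fun y : ι × (ℕ × List Ed) => y.2.2) PT.snd.p2)
    (PT.const [])

variable {G : ι → Ins} {F : ι → List Ed} {W : ι → List (ℕ × List Ed)} {Q R B : ι → Sq4}

theorem pt_inc {v : ι → ℕ} {e : ι → Ed} (hv : PT v) (he : PT e) : PT (fun x => inc (v x) (e x)) :=
  PT.bor (PT.neq he.p1 hv) (PT.neq he.p2 hv)

theorem pt_touch {l : ι → List Ed} {S : ι → List ℕ} (hl : PT l) (hS : PT S) :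
    PT (fun x => touch (l x) (S x)) :=
  PT.filter hl (p := fun y : ι × Ed => (S y.1).any fun v => inc v y.2)
    (PT.any (hS.comp PT.fst) (p := fun z : (ι × Ed) × ℕ => inc z.2 z.1.2) (pt_inc PT.snd PT.fst.p2))

theorem pt_flat2 {l : ι → List Ed} (hl : PT l) : PT (fun x => flat2 (l x)) :=
  PT.flatMap hl (g := fun y : ι × Ed => [y.2.1, y.2.2])
    (PT.cons PT.snd.p1 (PT.cons PT.snd.p2 (PT.const [])))

end pt

attribute [irreducible] cS cEn cS1 cE2 cV2

end Pool.Agent.PF4.XF

end

section -- file PF4/XB2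

/-!
The pool for `xf1`.
-/

set_option autoImplicit false

namespace Pool.Agent.PF4.XF

open Finset Pool.Agent.TFC Pool.Agent.PF4 Pool.Agent.Lib.helper60

/-! ### demand lists -/

/-- the parity token of a demand list -/
def tkL (kk : List ℕ) : ℕ := bif decide (kk.length % 2 = 0) then 0 else 1

/-- coordinate `i` of a demand list -/
def vlL (n : ℕ) (kk : List ℕ) (i : ℕ) : ℕ :=
  bif decide (i < n) then cnt kk i else (bif decide (i = n) then tkL kk else 0)

/-- the vector of a demand list -/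
def kvL (n : ℕ) (kk : List ℕ) : ℕ → ℤ := fun v => (vlL n kk v : ℤ)

/-- the fit test -/
def fitB (n : ℕ) (g : List ℕ) (L : List Ed) (kk : List ℕ) : Bool :=
  (List.range n).all fun v =>
    bif frB g v then decide (cnt kk v + degL L v ≤ 2) else decide (cnt kk v + degL L v = 2)

/-- the direction test (`up`: the degree at `i` goes up, the demand goes down) -/
def dirB (n : ℕ) (kk kk' : List ℕ) (i : ℕ) (up : Bool) : Bool :=
  bif up then decide (vlL n kk' i < vlL n kk i) else decide (vlL n kk i < vlL n kk' i)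

theorem tkL_eq (kk : List ℕ) : tkL kk = kk.length % 2 := by
  unfold tkL
  rcases Nat.mod_two_eq_zero_or_one kk.length with h | h
  · rw [h]; rfl
  · rw [h]; rfl

theorem vlL_lt {n : ℕ} {kk : List ℕ} {i : ℕ} (h : i < n) : vlL n kk i = cnt kk i := by
  unfold vlL
  rw [decide_eq_true h, cond_true]

theorem vlL_n {n : ℕ} {kk : List ℕ} : vlL n kk n = kk.length % 2 := by
  unfold vlL
  rw [decide_eq_false (lt_irrefl n), cond_false, decide_eq_true rfl, cond_true, tkL_eq]

theorem vlL_gt {n : ℕ} {kk : List ℕ} {i : ℕ} (h : n < i) : vlL n kk i = 0 := by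
  unfold vlL
  rw [decide_eq_false (show ¬ i < n by omega), cond_false, decide_eq_false (show ¬ i = n by omega), cond_false]

theorem fitB_iff {n : ℕ} {g : List ℕ} {L : List Ed} {kk : List ℕ} : fitB n g L kk = true ↔
    (∀ v < n, frB g v = true → cnt kk v + degL L v ≤ 2) ∧
    (∀ v < n, frB g v = false → cnt kk v + degL L v = 2) := by
  unfold fitB
  rw [List.all_eq_true]
  constructor
  · intro h
    constructor
    · intro v hv hf
      have := h v (List.mem_range.2 hv)
      rw [hf, cond_true, decide_eq_true_eq] at this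
      exact this
    · intro v hv hf
      have := h v (List.mem_range.2 hv)
      rw [hf, cond_false, decide_eq_true_eq] at this
      exact this
  · rintro ⟨h1, h2⟩ v hv
    rw [List.mem_range] at hv
    cases hf : frB g v with
    | true => rw [cond_true, decide_eq_true_eq]; exact h1 v hv hf
    | false => rw [cond_false, decide_eq_true_eq]; exact h2 v hv hf

theorem dirB_iff {n : ℕ} {kk kk' : List ℕ} {i : ℕ} {up : Bool} : dirB n kk kk' i up = true ↔
    0 < (- sgn up) * (kvL n kk' i - kvL n kk i) := by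
  unfold dirB kvL sgn
  cases up with
  | true =>
    simp only [cond_true, decide_eq_true_eq]
    constructor <;> intro h <;> omega
  | false =>
    simp only [cond_false, decide_eq_true_eq]
    constructor <;> intro h <;> omega

section
variable {x : Ins} {g : List ℕ} {X : XD}

/-- a demand list which passes the test fits -/
theorem fit_of_fitB (hn : X.n = x.1) (hT : ∀ v < x.1, (v ∈ X.T ↔ frB g v = false)) (hTn : ∀ v ∈ X.T, v < X.n)
    {c : ℕ} {V : List ℕ} (hV : V.Nodup) (hVX : V.toFinset = X.V2) (hVn : ∀ v ∈ X.V2, v < X.n) {L : List Ed}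
    (hL : WF L) {kk : List ℕ} (hk : kk ∈ asg c V) (h : fitB x.1 g L kk = true) :
    FitK X (fs L) (kvL x.1 kk) := by
  rw [fitB_iff] at h
  obtain ⟨h1, h2⟩ := h
  have hoff : ∀ v, v ∉ X.V2 → cnt kk v = 0 := by
    intro v hv
    rw [cnt_eq]
    refine (mem_asg hV hk v).2 ?_
    rw [← List.mem_toFinset, hVX]
    exact hv
  have hin : ∀ v ∈ kk, v < x.1 := by
    intro v hv
    by_contra hc
    have h3 : v ∉ X.V2 := fun h4 => hc (hn ▸ hVn v h4)
    have h5 := hoff v h3
    have h6 := cnt_pos.2 hv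
    omega
  refine ⟨?_, ?_, ?_, ?_, ?_, ?_⟩
  · intro v hv
    have hvn : v < x.1 := hn ▸ hTn v hv
    have h3 := h2 v hvn ((hT v hvn).1 hv)
    unfold kvL
    rw [vlL_lt hvn, dv_apply, ← degL_eq hL]
    omega
  · intro v hv hv2
    rw [hn] at hv
    have hf : frB g v = true := by
      cases hf : frB g v with
      | true => rfl
      | false => exact absurd ((hT v hv).2 hf) hv2
    have h3 := h1 v hv hf
    unfold kvL
    rw [vlL_lt hv, dv_apply, ← degL_eq hL]
    omega
  · intro v hv hv2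
    rw [hn] at hv
    unfold kvL
    rw [vlL_lt hv, hoff v hv2]
    rfl
  · unfold kvL
    rw [hn, vlL_n]
    rcases Nat.mod_two_eq_zero_or_one kk.length with h | h <;> rw [h] <;> simp
  · rw [hn, Finset.sum_range_succ]
    have e1 : ∑ v ∈ Finset.range x.1, kvL x.1 kk v = (kk.length : ℤ) := by
      rw [length_eq_sum_cnt kk x.1 hin, Nat.cast_sum]
      refine Finset.sum_congr rfl fun v hv => ?_
      unfold kvL
      rw [vlL_lt (Finset.mem_range.1 hv)]
    rw [e1]
    unfold kvL
    rw [vlL_n]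
    exact ⟨(kk.length + kk.length % 2 : ℕ) / 2, by omega⟩
  · intro v hv
    rw [hn] at hv
    unfold kvL
    rw [vlL_gt hv]
    rfl

/-- every fitting vector comes from a demand list -/
theorem exists_asg (hn : X.n = x.1) (hT : ∀ v < x.1, (v ∈ X.T ↔ frB g v = false)) {c : ℕ} {V : List ℕ}
    (hV : V.Nodup) (hc : V.length ≤ c) (hVX : V.toFinset = X.V2) (hVn : ∀ v ∈ X.V2, v < X.n) {L : List Ed}
    (hL : WF L) (hm : M2 (fs L)) {k : ℕ → ℤ} (hk : FitK X (fs L) k) :
    ∃ kk ∈ asg c V, kvL x.1 kk = k ∧ fitB x.1 g L kk = true ∧ ∀ v < x.1, (cnt kk v : ℤ) = k v := by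
  have hpos : ∀ v < x.1, 0 ≤ k v ∧ k v ≤ 2 := by
    intro v hv
    have h3 := hm.le v
    by_cases hvT : v ∈ X.T
    · have h1 := hk.t v hvT
      rw [dv_apply] at h1
      omega
    · have h1 := hk.f v (by rw [hn]; exact hv) hvT
      rw [dv_apply] at h1
      omega
  have hVlt : ∀ v ∈ V, v < x.1 := fun v hv => by
    rw [← hn]; exact hVn v (hVX ▸ List.mem_toFinset.2 hv)
  obtain ⟨kk, hkk, h1, h2⟩ := asg_full hV hc (fun v => (k v).toNat) (by
    intro v hv
    have := hpos v (hVlt v hv)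
    omega)
  have hcnt : ∀ v < x.1, (cnt kk v : ℤ) = k v := by
    intro v hv
    rw [cnt_eq]
    have h3 := hpos v hv
    by_cases hvV : v ∈ V
    · rw [h1 v hvV]
      omega
    · rw [h2 v hvV]
      have : v ∉ X.V2 := fun h4 => hvV (List.mem_toFinset.1 (hVX ▸ h4))
      rw [hk.off v (by rw [hn]; exact hv) this]
      rfl
  have hin : ∀ v ∈ kk, v < x.1 := by
    intro v hv
    by_contra hc
    have h3 : v ∉ V := fun h4 => hc (hVlt v h4)
    have h5 := h2 v h3
    have h6 := cnt_pos.2 hv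
    rw [cnt_eq] at h6
    omega
  have hpar := hk.par
  rw [hn, Finset.sum_range_succ] at hpar
  have e1 : ∑ v ∈ Finset.range x.1, k v = (kk.length : ℤ) := by
    rw [length_eq_sum_cnt kk x.1 hin, Nat.cast_sum]
    exact Finset.sum_congr rfl fun v hv => (hcnt v (Finset.mem_range.1 hv)).symm
  rw [e1] at hpar
  have htok := hk.tok
  rw [hn] at htok
  have en : ((kk.length % 2 : ℕ) : ℤ) = k x.1 := by
    obtain ⟨c, hc⟩ := hpar
    rcases htok with h | h <;> rw [h] at hc ⊢ <;> omega
  refine ⟨kk, hkk, ?_, ?_, hcnt⟩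
  · funext v
    unfold kvL
    rcases lt_trichotomy v x.1 with h | h | h
    · rw [vlL_lt h]; exact hcnt v h
    · subst h
      rw [vlL_n]; exact en
    · rw [vlL_gt h, hk.up v (by rw [hn]; exact h)]
      rfl
  · rw [fitB_iff]
    constructor
    · intro v hv hf
      have hvT : v ∉ X.T := fun h => by
        rw [hT v hv, hf] at h; cases h
      have h3 := (hk.f v (by rw [hn]; exact hv) hvT).2
      rw [dv_apply, ← degL_eq hL] at h3
      have h4 := hcnt v hv
      omega
    · intro v hv hf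
      have h3 := hk.t v ((hT v hv).2 hf)
      rw [dv_apply, ← degL_eq hL] at h3
      have h4 := hcnt v hv
      omega

end

/-! ### one round -/

/-- the test for an exchange -/
def exB (n : ℕ) (g : List ℕ) (L : List Ed) (kk : List ℕ) (L' : List Ed) (kk' : List ℕ) (i : ℕ)
    (up : Bool) : Bool := fitB n g L kk && (fitB n g L' kk' && dirB n kk kk' i up)

/-- all deletions -/
def dL (Sb P : List (List Ed)) : List (List Ed) := P.flatMap fun L => Sb.map fun H => rest L H

theorem mem_cond {α : Type} {b : Bool} {a z : α} : z ∈ (bif b then [a] else []) ↔ b = true ∧ z = a := by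
  cases b with
  | true => rw [cond_true, List.mem_singleton]; simp
  | false => rw [cond_false]; simp

theorem mem_dL {Sb P : List (List Ed)} {z : List Ed} : z ∈ dL Sb P ↔ ∃ L ∈ P, ∃ H ∈ Sb, z = rest L H := by
  unfold dL
  constructor
  · intro h
    obtain ⟨L, hL, h⟩ := List.mem_flatMap.1 h
    obtain ⟨H, hH, rfl⟩ := List.mem_map.1 h
    exact ⟨L, hL, H, hH, rfl⟩
  · rintro ⟨L, hL, H, hH, rfl⟩
    exact List.mem_flatMap.2 ⟨L, hL, List.mem_map.2 ⟨H, hH, rfl⟩⟩

/-! ### squares -/

theorem opp_aux {a b c d p q r : ℕ} (h : Dist4 a b c d) (h' : Dist4 a p q r)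
    (e : TFC.sq a p q r = TFC.sq a b c d) : q = c := by
  obtain ⟨h1, h2, h3, h4, h5, h6⟩ := h
  obtain ⟨g1, g2, g3, g4, g5, g6⟩ := h'
  have e1 : s(a, p) ∈ TFC.sq a b c d := by rw [← e]; simp [TFC.sq]
  have e2 : s(p, q) ∈ TFC.sq a b c d := by rw [← e]; simp [TFC.sq]
  simp only [TFC.sq, Finset.mem_insert, Finset.mem_singleton, Sym2.eq_iff] at e1 e2
  omega

theorem opp_of {a b c d p q r s : ℕ} (h : Dist4 a b c d) (h' : Dist4 p q r s)
    (e : TFC.sq p q r s = TFC.sq a b c d) :
    (p = a ∧ r = c) ∨ (p = c ∧ r = a) ∨ (q = a ∧ s = c) ∨ (q = c ∧ s = a) := by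
  have ha : a = p ∨ a = q ∨ a = r ∨ a = s := by
    have e1 : s(a, b) ∈ TFC.sq p q r s := by rw [e]; simp [TFC.sq]
    simp only [TFC.sq, Finset.mem_insert, Finset.mem_singleton, Sym2.eq_iff] at e1
    omega
  have h0 := h'
  obtain ⟨g1, g2, g3, g4, g5, g6⟩ := h'
  rcases ha with rfl | rfl | rfl | rfl
  · have := opp_aux h h0 e
    exact Or.inl ⟨rfl, this⟩
  · rw [← sq_rot'] at e
    have := opp_aux h (show Dist4 a r s p from ⟨g4, g5, Ne.symm g1, g6, Ne.symm g2, Ne.symm g3⟩) e
    exact Or.inr (Or.inr (Or.inl ⟨rfl, this⟩))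
  · rw [← sq_rot', ← sq_rot'] at e
    have := opp_aux h (show Dist4 a s p q from ⟨g6, Ne.symm g2, Ne.symm g4, Ne.symm g3, Ne.symm g5, g1⟩) e
    exact Or.inr (Or.inl ⟨this, rfl⟩)
  · rw [← sq_rot', ← sq_rot', ← sq_rot'] at e
    have := opp_aux h (show Dist4 a p q r from ⟨Ne.symm g3, Ne.symm g5, Ne.symm g6, g1, g2, g4⟩) e
    exact Or.inr (Or.inr (Or.inr ⟨this, rfl⟩))

/-- the square `q` has two opposite corners in `T` -/
theorem Hs_iff {T : Finset ℕ} {q : Sq4} (h : SqOK q) :
    Hs T (sqs q) ↔ (q.1 ∈ T ∧ q.2.2.1 ∈ T) ∨ (q.2.1 ∈ T ∧ q.2.2.2 ∈ T) := by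
  obtain ⟨p, q, r, s⟩ := q
  have h0 : Dist4 p q r s := h
  constructor
  · rintro ⟨a, b, c, d, h1, h2, h3, h4⟩
    have e : TFC.sq p q r s = TFC.sq a b c d := h2
    rcases opp_of h1 h0 e with ⟨rfl, rfl⟩ | ⟨rfl, rfl⟩ | ⟨rfl, rfl⟩ | ⟨rfl, rfl⟩
    · exact Or.inl ⟨h3, h4⟩
    · exact Or.inl ⟨h4, h3⟩
    · exact Or.inr ⟨h3, h4⟩
    · exact Or.inr ⟨h4, h3⟩
  · rintro (⟨h3, h4⟩ | ⟨h3, h4⟩)
    · exact ⟨p, q, r, s, h0, rfl, h3, h4⟩
    · obtain ⟨g1, g2, g3, g4, g5, g6⟩ := h0
      exact ⟨q, r, s, p, ⟨g4, g5, Ne.symm g1, g6, Ne.symm g2, Ne.symm g3⟩, (sq_rot' p q r s).symm, h3, h4⟩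

section
variable {x : Ins} {g : List ℕ} {F : List Ed} {W : List (ℕ × List Ed)} {Q R B : Sq4}

end

end Pool.Agent.PF4.XF

end

section -- file PF4/XP4

/-!
# All frames of one world

`Fr D F`: the clusters in `F` (two centres) with the uncapped square-free family, the other clusters with the capped family.
`WA`: one world with all frames at once; the clusters `U` and the plain edges `PL` do not depend on the frame, the types do.

Letters: `Q = sq x y q p` (edges `xy, yq, qp, px`), `R = sq x y s r` (edges `xy, ys, sr, rx`), `Z = sq r s b a`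
(edges `rs, sb, ba, ar`).
-/

set_option autoImplicit false

namespace Pool.Agent.PF4.XT

open Finset Pool.Agent.TFC Pool.Agent.PF4 Pool.Agent.PF4.LD Pool.Agent.PF4.XC Pool.Agent.PF4.XF

open Classical in
/-- the clusters in `F` uncapped and square-free, the others capped -/
noncomputable def Fr (D : Finset (Finset (Sym2 ℕ))) (F : Clu ℕ → Prop) (c : Clu ℕ) : Finset (Sym2 ℕ) → Prop :=
  if F c then TFC.SqFree else Acap D

theorem Fr_pos {D : Finset (Finset (Sym2 ℕ))} {F : Clu ℕ → Prop} {c : Clu ℕ} (h : F c) : Fr D F c = TFC.SqFree :=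
  if_pos h

theorem Fr_neg {D : Finset (Finset (Sym2 ℕ))} {F : Clu ℕ → Prop} {c : Clu ℕ} (h : ¬ F c) : Fr D F c = Acap D :=
  if_neg h

theorem Fr_of {D : Finset (Finset (Sym2 ℕ))} {F : Clu ℕ → Prop} {c : Clu ℕ} {K : Finset (Sym2 ℕ)}
    (h : F c → TFC.SqFree K) (h' : ¬ F c → Acap D K) : Fr D F c K := by
  by_cases hc : F c
  · rw [Fr_pos hc]; exact h hc
  · rw [Fr_neg hc]; exact h' hc

/-- a path with three edges `u e f v` -/
def P3 (K : Finset (Sym2 ℕ)) (u e f v : ℕ) : Prop := Dist4 u e f v ∧ s(u, e) ∈ K ∧ s(e, f) ∈ K ∧ s(f, v) ∈ K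

section
variable {X : XD} {P : ℕ → Finset (Sym2 ℕ) → Prop} {D : Finset (Finset (Sym2 ℕ))} {j m : ℕ} {S : Finset ℕ}
  {M : ℕ → Finset (Sym2 ℕ)} {CL U : List (Clu ℕ)} {PL : Finset (Sym2 ℕ)}

/-- no loop, no square as a subset: square-free -/
theorem sqFree_of {K : Finset (Sym2 ℕ)} (hK : NoLoop K) (h : ∀ Z, IsSq Z → ¬ Z ⊆ K) : TFC.SqFree K :=
  (XU.sqFree_iff hK).2 h

end

/-! ### the pieces of pattern p4 (statements) -/

end Pool.Agent.PF4.XT

end

section -- file PF4/XB3

/-!
The pool for `xf1` is a staged pool.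
-/

set_option autoImplicit false

namespace Pool.Agent.PF4.XF

open Finset Pool.Agent.TFC Pool.Agent.PF4 Pool.Agent.Lib.helper60

/-- a member of the pool -/
structure PM (X : XD) (l : List Ed) : Prop where
  wf : WF l
  m2 : M2 (fs l)
  sub : fs l ⊆ X.E

/-- demands 0 and 2 -/
def Ev2 (x : Ins) (g : List ℕ) : Prop := ∀ u < x.1, g.getD u 0 = 0 ∨ g.getD u 0 = 2

section
variable {x : Ins} {g : List ℕ} {F : List Ed} {W : List (ℕ × List Ed)} {Q R B : Sq4}

theorem PM.rest {X : XD} {l : List Ed} (h : PM X l) (H : List Ed) : PM X (rest l H) := by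
  have : fs (PF4.rest l H) ⊆ fs l := by rw [fs_rest]; exact Finset.sdiff_subset
  exact ⟨h.wf.rest H, h.m2.mono this, this.trans h.sub⟩

end

end Pool.Agent.PF4.XF

end

section -- file PF4/XB4

/-!
The pool for `xf1` is computed in polynomial time.
-/

set_option autoImplicit false

namespace Pool.Agent.PF4.XF

open Finset Pool.Agent.TFC Pool.Agent.PF4 Pool.Agent.Lib.helper60

section
variable {ι : Type} [DEnc ι]

theorem pt_tkL {kk : ι → List ℕ} (hk : PT kk) : PT (fun y => tkL (kk y)) :=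
  PT.cond (pt_even (PT.length hk)) (PT.const 0) (PT.const 1)

theorem pt_vlL {n : ι → ℕ} {kk : ι → List ℕ} {i : ι → ℕ} (hn : PT n) (hk : PT kk) (hi : PT i) :
    PT (fun y => vlL (n y) (kk y) (i y)) :=
  PT.cond (PT.nlt hi hn) (pt_cnt' hk hi) (PT.cond (PT.neq hi hn) (pt_tkL hk) (PT.const 0))

theorem pt_fitB {n : ι → ℕ} {g : ι → List ℕ} {L : ι → List Ed} {kk : ι → List ℕ} (hn : PT n) (hg : PT g)
    (hL : PT L) (hk : PT kk) : PT (fun y => fitB (n y) (g y) (L y) (kk y)) := by
  have h1 : PT (fun z : ι × ℕ => cnt (kk z.1) z.2 + degL (L z.1) z.2) :=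
    PT.nadd (pt_cnt' (hk.comp PT.fst) PT.snd) (pt_degL (hL.comp PT.fst) PT.snd)
  exact PT.all (PT.range hn) (p := fun z : ι × ℕ => bif frB (g z.1) z.2 then
      decide (cnt (kk z.1) z.2 + degL (L z.1) z.2 ≤ 2) else decide (cnt (kk z.1) z.2 + degL (L z.1) z.2 = 2))
    (PT.cond (pt_frB (hg.comp PT.fst) PT.snd) (PT.nle h1 (PT.const 2)) (PT.neq h1 (PT.const 2)))

theorem pt_dirB {n : ι → ℕ} {kk kk' : ι → List ℕ} {i : ι → ℕ} {up : ι → Bool} (hn : PT n) (hk : PT kk)
    (hk' : PT kk') (hi : PT i) (hu : PT up) : PT (fun y => dirB (n y) (kk y) (kk' y) (i y) (up y)) :=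
  PT.cond hu (PT.nlt (pt_vlL hn hk' hi) (pt_vlL hn hk hi)) (PT.nlt (pt_vlL hn hk hi) (pt_vlL hn hk' hi))

/-- the arguments of one exchange -/
abbrev XArg := (Ins × List ℕ) × (List Ed × List Ed) × (List ℕ × List ℕ) × ℕ × Bool

theorem pt_dL {Sb P : ι → List (List Ed)} (hS : PT Sb) (hP : PT P) : PT (fun y => dL (Sb y) (P y)) :=
  PT.flatMap hP (g := fun z : ι × List Ed => (Sb z.1).map fun H => rest z.2 H)
    (PT.map (hS.comp PT.fst) (g := fun z : (ι × List Ed) × List Ed => rest z.1.2 z.2)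
      (pt_rest (PT.snd.comp PT.fst) PT.snd))

end

end Pool.Agent.PF4.XF

end

section -- file PF4/XH

/-!
`xf1` from the theorem on two conflicting squares.
-/

set_option autoImplicit false

namespace Pool.Agent.PF4.XF

open Finset Pool.Agent.TFC Pool.Agent.PF4 Pool.Agent.Lib.helper60

/-- the same tuple -/
def eqS (q r : Sq4) : Bool :=
  decide (q.1 = r.1) && (decide (q.2.1 = r.2.1) && (decide (q.2.2.1 = r.2.2.1) && decide (q.2.2.2 = r.2.2.2)))

theorem eqS_iff {q r : Sq4} : eqS q r = true ↔ q = r := by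
  obtain ⟨a, b, c, d⟩ := q
  obtain ⟨a', b', c', d'⟩ := r
  simp only [eqS, Bool.and_eq_true, decide_eq_true_eq, Prod.mk.injEq]

/-- the arguments of `xf1` -/
abbrev XIn := Ins × List ℕ × List (ℕ × List Ed) × List Ed × Sq4 × Sq4

/-- all 4-tuples of vertices -/
def all4 (n : ℕ) : List Sq4 :=
  prodL (List.range n) (prodL (List.range n) (prodL (List.range n) (List.range n)))

theorem mem_all4 {n : ℕ} {B : Sq4} :
    B ∈ all4 n ↔ B.1 < n ∧ B.2.1 < n ∧ B.2.2.1 < n ∧ B.2.2.2 < n := by
  unfold all4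
  rw [mem_prodL, mem_prodL, mem_prodL]
  simp only [List.mem_range]

theorem pt_eqS {ι : Type} [DEnc ι] {q r : ι → Sq4} (hq : PT q) (hr : PT r) : PT (fun y => eqS (q y) (r y)) :=
  PT.band (PT.neq hq.p1 hr.p1) (PT.band (PT.neq hq.p2.p1 hr.p2.p1)
    (PT.band (PT.neq hq.p2.p2.p1 hr.p2.p2.p1) (PT.neq hq.p2.p2.p2 hr.p2.p2.p2)))

section
variable {x : Ins} {g : List ℕ} {W : List (ℕ × List Ed)} {v : ℕ} {F : List Ed} {Q R B : Sq4}

/-- the stored object of a vertex -/
theorem lookW_or (W : List (ℕ × List Ed)) (w : ℕ) : lookW W w = [] ∨ (w, lookW W w) ∈ W := by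
  unfold lookW
  cases hc : (W.filter fun p => decide (p.1 = w)) with
  | nil => exact Or.inl rfl
  | cons p l =>
    right
    have h1 : p ∈ W.filter fun p => decide (p.1 = w) := by rw [hc]; exact List.mem_cons_self
    obtain ⟨h2, h3⟩ := List.mem_filter.1 h1
    rw [decide_eq_true_eq] at h3
    show (w, p.2) ∈ W
    rw [← h3]
    exact h2

theorem lookW_mem {W : List (ℕ × List Ed)} {w : ℕ} (h : w ∈ W.map Prod.fst) : (w, lookW W w) ∈ W := by
  obtain ⟨p, hp, rfl⟩ := List.mem_map.1 h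
  unfold lookW
  cases hc : (W.filter fun q => decide (q.1 = p.1)) with
  | nil =>
    exfalso
    have h1 : p ∈ W.filter fun q => decide (q.1 = p.1) := List.mem_filter.2 ⟨hp, by simp⟩
    rw [hc] at h1
    cases h1
  | cons q l =>
    have h1 : q ∈ W.filter fun q => decide (q.1 = p.1) := by rw [hc]; exact List.mem_cons_self
    obtain ⟨h2, h3⟩ := List.mem_filter.1 h1
    rw [decide_eq_true_eq] at h3
    show (p.1, q.2) ∈ W
    rw [← h3]
    exact h2

theorem big_pow (c : ℕ) : ∃ m, ∀ a ≤ c, 3 ^ (a + 1) + 20 ≤ m :=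
  ⟨3 ^ (c + 1) + 20, fun _ h =>
    Nat.add_le_add_right (Nat.pow_le_pow_right (by omega) (Nat.add_le_add_right h 1)) 20⟩

end

end Pool.Agent.PF4.XF

end
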