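import Pool.Agent.PFN.M10
import Pool.Agent.PFN.M12
import Pool.Agent.PFN.M14

section -- file PF4/Cfg

/-!
# Covers and configurations

The pieces of the solver for a list `C` of edge-disjoint clusters: the clusters, the plain edges, the slack units `{v, n}`
(`2 - g v` for each vertex `v < n`) and `n` loops at the slack vertex `n`. `cfgM` turns a 2-matching into a list of vectors,
one for each piece; `decM` turns a list of vectors of the exact pieces into a 2-matching.
-/

set_option autoImplicit false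

namespace Pool.Agent.PF4

open Finset Pool.Agent.TFC Pool.Agent.Lib.helper60

/-! ### the pieces -/

/-- the plain edges -/
def plE (x : Ins) (C : List Cl) : List Ed := rest x.2 (C.flatMap clE)

/-- piece of a plain edge -/
def edP (e : Ed) : Pc := (true, [e], [])

/-- the piece `{0, e_u + e_v}` -/
def unP (u v : ℕ) : Pc := (true, [], [[u, v]])

/-- the slack units -/
def slJ (n : ℕ) (g : List ℕ) : List (ℕ × ℕ) :=
  (List.range n).flatMap fun v => (List.range (2 - g.getD v 0)).map fun j => (v, j)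

/-- the total -/
def ttl (ks : List (List ℕ)) (v : ℕ) : ℕ := (ks.map fun k => k.count v).sum

/-- number of the slack units used by `M` -/
def hsl (x : Ins) (g : List ℕ) (M : List Ed) : ℕ :=
  ((slJ x.1 g).filter fun p => decide (p.2 < 2 - degL M p.1)).length

/-! ### totals -/

theorem ttl_append (k l : List (List ℕ)) (v : ℕ) : ttl (k ++ l) v = ttl k v + ttl l v := by
  simp [ttl]

theorem ttl_cons (k : List ℕ) (l : List (List ℕ)) (v : ℕ) : ttl (k :: l) v = k.count v + ttl l v := by
  simp [ttl]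

theorem norm_append (S T M : List Ed) : norm (S ++ T) M = norm S M ++ norm T M := by
  simp [norm]

theorem fs_norm_sub (U M : List Ed) : fs (norm U M) ⊆ fs M := by
  rw [fs_norm]; exact Finset.inter_subset_right

theorem ttl_plain {M : List Ed} (hM : NoLoop (fs M)) (l : List Ed) (v : ℕ) :
    ttl (l.map fun e => ends2 (bif hasE M e then [e] else [])) v = degL (norm l M) v := by
  induction l with
  | nil => rfl
  | cons e l ih =>
    rw [List.map_cons, ttl_cons, ih]
    cases h : hasE M e with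
    | true =>
      have h1 : norm (e :: l) M = [e] ++ norm l M := by simp [norm, h]
      rw [h1, degL_append, cond_true, count_ends2]
      refine hM.mono ?_
      intro y hy
      rw [mem_fs] at hy
      obtain ⟨f, hf, rfl⟩ := hy
      rw [List.mem_singleton] at hf
      subst hf
      exact (hasE_iff _ _).1 h
    | false =>
      have h1 : norm (e :: l) M = norm l M := by simp [norm, h]
      rw [h1, cond_false]
      simp [ends2]

theorem degL_out {x : Ins} (hx : InsWF x) {M : List Ed} (hM : MG x M) {v : ℕ} (hv : x.1 ≤ v) : degL M v = 0 := by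
  rw [degL_eq hM.wf, dg, Finset.card_eq_zero, Finset.filter_eq_empty_iff]
  intro e he h
  have he := hM.sub he
  have := hx.vlt he h
  omega

theorem sumL (n : ℕ) (f : ℕ → ℕ) : ((List.range n).map f).sum = ∑ i ∈ Finset.range n, f i := rfl

theorem sum_count {n : ℕ} (l : List ℕ) (h : ∀ a ∈ l, a < n) :
    ((List.range n).map fun v => l.count v).sum = l.length := by
  rw [sumL]
  induction l with
  | nil => simp
  | cons a l ih =>
    have h1 := ih fun b hb => h b (List.mem_cons_of_mem _ hb)
    simp only [List.count_cons, Finset.sum_add_distrib, h1, List.length_cons]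
    congr 1
    have h2 : ∀ i, (if (a == i) = true then 1 else 0) = if a = i then 1 else 0 := by
      intro i; simp
    simp only [h2]
    rw [Finset.sum_ite_eq, if_pos (Finset.mem_range.2 (h a List.mem_cons_self))]

theorem len_ends2 (M : List Ed) : (ends2 M).length = 2 * M.length := by
  induction M with
  | nil => rfl
  | cons e M ih =>
    have h : ends2 (e :: M) = [e.1, e.2] ++ ends2 M := rfl
    rw [h, List.length_append, ih, List.length_cons]
    simp
    omega

theorem hand {x : Ins} (hx : InsWF x) {M : List Ed} (hM : MG x M) :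
    ((List.range x.1).map fun v => degL M v).sum = 2 * M.length := by
  rw [← len_ends2, ← sum_count (n := x.1) (ends2 M)]
  · congr 1
    refine List.map_congr_left ?_
    intro v _
    exact (count_ends2 hM.m2.nl v).symm
  · intro a ha
    obtain ⟨e, he, hae⟩ := mem_ends2.1 ha
    exact hx.vlt (hM.sub he) hae

/-! ### slack units -/

theorem mem_slJ {n : ℕ} {g : List ℕ} {p : ℕ × ℕ} : p ∈ slJ n g ↔ p.1 < n ∧ p.2 < 2 - g.getD p.1 0 := by
  obtain ⟨a, b⟩ := p
  simp only [slJ, List.mem_flatMap, List.mem_range, List.mem_map, Prod.mk.injEq]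
  constructor
  · rintro ⟨v, hv, j, hj, rfl, rfl⟩
    exact ⟨hv, hj⟩
  · rintro ⟨h1, h2⟩
    exact ⟨a, h1, b, h2, rfl, rfl⟩

/-- a sum over the slack units -/
theorem sum_slJ (n : ℕ) (g : List ℕ) (f : ℕ × ℕ → ℕ) :
    ((slJ n g).map f).sum = ∑ v ∈ Finset.range n, ∑ j ∈ Finset.range (2 - g.getD v 0), f (v, j) := by
  rw [slJ, List.map_flatMap, List.flatMap_def, List.sum_flatten, List.map_map, sumL]
  refine Finset.sum_congr rfl fun v _ => ?_
  simp only [Function.comp, List.map_map]
  rfl

theorem card_lt (a b : ℕ) : (∑ j ∈ Finset.range a, if j < b then 1 else 0) = min a b := by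
  induction a with
  | zero => simp
  | succ a ih =>
    rw [Finset.sum_range_succ, ih]
    split_ifs with h
    · omega
    · omega

theorem length_filter_sum {α : Type} (l : List α) (p : α → Bool) :
    (l.filter p).length = (l.map fun a => if p a = true then 1 else 0).sum := by
  induction l with
  | nil => rfl
  | cons a l ih =>
    rw [List.filter_cons, List.map_cons, List.sum_cons, ← ih]
    split_ifs
    · rw [List.length_cons]; omega
    · omega

theorem hsl_eq (x : Ins) (g : List ℕ) (M : List Ed) :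
    hsl x g M = ∑ v ∈ Finset.range x.1, min (2 - g.getD v 0) (2 - degL M v) := by
  rw [hsl, length_filter_sum, sum_slJ]
  refine Finset.sum_congr rfl fun v _ => ?_
  rw [← card_lt]
  simp

theorem ttl_slack (x : Ins) (g : List ℕ) (M : List Ed) (v : ℕ) :
    ttl ((slJ x.1 g).map fun p => bif decide (p.2 < 2 - degL M p.1) then [p.1, x.1] else []) v =
      if v < x.1 then min (2 - g.getD v 0) (2 - degL M v) else if v = x.1 then hsl x g M else 0 := by
  rw [ttl, List.map_map, sum_slJ]
  have h1 : ∀ u ∈ Finset.range x.1, (∑ j ∈ Finset.range (2 - g.getD u 0),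
      ((fun k => k.count v) ∘ fun p : ℕ × ℕ => bif decide (p.2 < 2 - degL M p.1) then [p.1, x.1] else []) (u, j)) =
      (if u = v then min (2 - g.getD u 0) (2 - degL M u) else 0) +
        (if v = x.1 then min (2 - g.getD u 0) (2 - degL M u) else 0) := by
    intro u hu
    rw [Finset.mem_range] at hu
    rw [← card_lt]
    have h2 : ∀ j, ((fun k => k.count v) ∘ fun p : ℕ × ℕ => bif decide (p.2 < 2 - degL M p.1) then [p.1, x.1]
        else []) (u, j) = (if u = v then (if j < 2 - degL M u then 1 else 0) else 0) +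
        (if v = x.1 then (if j < 2 - degL M u then 1 else 0) else 0) := by
      intro j
      simp only [Function.comp]
      by_cases h3 : j < 2 - degL M u
      · simp only [h3, decide_true, cond_true, List.count_cons, List.count_nil, beq_iff_eq, if_true]
        by_cases h4 : u = v
        · have h5 : x.1 ≠ v := by omega
          simp [h4, h5, Ne.symm h5]
        · by_cases h5 : x.1 = v
          · simp [h4, h5]
          · simp [h4, h5, Ne.symm h5]
      · simp only [h3, decide_false, cond_false, List.count_nil, if_false, ite_self]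
    simp only [h2, Finset.sum_add_distrib]
    congr 1
    · split_ifs
      · rfl
      · simp
    · split_ifs
      · rfl
      · simp
  rw [Finset.sum_congr rfl h1, Finset.sum_add_distrib, Finset.sum_ite_eq', hsl_eq]
  by_cases h3 : v < x.1
  · have h4 : v ≠ x.1 := by omega
    rw [if_pos (Finset.mem_range.2 h3), if_pos h3]
    simp [h4]
  · rw [if_neg (by simpa using h3), if_neg h3, zero_add]
    by_cases h4 : v = x.1
    · simp [h4]
    · simp [h4]

theorem ttl_loops (n h ρ v : ℕ) :
    ttl ((List.range n).map fun j => bif decide (h + 2 * j + 2 + ρ ≤ 2 * n) then [n, n] else []) v =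
      if v = n then 2 * min n ((2 * n - ρ - h) / 2) else 0 := by
  rw [ttl, List.map_map, sumL]
  have h1 : ∀ j, ((fun k => k.count v) ∘ fun j => bif decide (h + 2 * j + 2 + ρ ≤ 2 * n) then [n, n] else []) j =
      if v = n then (if j < (2 * n - ρ - h) / 2 then 1 else 0) * 2 else 0 := by
    intro j
    simp only [Function.comp]
    by_cases h2 : h + 2 * j + 2 + ρ ≤ 2 * n
    · have h3 : j < (2 * n - ρ - h) / 2 := by omega
      simp only [h2, decide_true, cond_true, h3, if_true, List.count_cons, List.count_nil, beq_iff_eq]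
      by_cases h4 : v = n
      · simp [h4]
      · simp [h4, Ne.symm h4]
    · have h3 : ¬ j < (2 * n - ρ - h) / 2 := by omega
      simp only [h2, decide_false, cond_false, h3, if_false, List.count_nil, zero_mul, ite_self]
  simp only [h1]
  split_ifs
  · rw [← Finset.sum_mul, card_lt, mul_comm]
  · simp

theorem deg_le {x : Ins} {M : List Ed} (hM : MG x M) (v : ℕ) : degL M v ≤ 2 := by
  rw [degL_eq hM.wf]; exact hM.m2.le v

theorem par_cover {x : Ins} (hx : InsWF x) {g : List ℕ} {M : List Ed} (hM : MG x M)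
    (hc : Cov x.1 g (degL M)) : hsl x g M + 2 * M.length = 2 * x.1 := by
  rw [hsl_eq, ← hand hx hM, sumL, ← Finset.sum_add_distrib]
  have h1 : ∀ v ∈ Finset.range x.1, min (2 - g.getD v 0) (2 - degL M v) + degL M v = 2 := by
    intro v hv
    have h2 := hc v (Finset.mem_range.1 hv)
    have h3 := deg_le hM v
    omega
  rw [Finset.sum_congr rfl h1, Finset.sum_const, Finset.card_range, smul_eq_mul, mul_comm]

theorem par_near {x : Ins} (hx : InsWF x) {g : List ℕ} {M : List Ed} (hM : MG x M) {w : ℕ} (hw : w < x.1)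
    (hg : g.getD w 0 ≤ 2)
    (hc : ∀ u < x.1, g.getD u 0 ≤ degL M u + (if u = w then 1 else 0)) (hd : degL M w + 1 = g.getD w 0) :
    hsl x g M + 2 * M.length + 1 = 2 * x.1 := by
  have h1 : ∀ v ∈ Finset.range x.1, min (2 - g.getD v 0) (2 - degL M v) + degL M v + (if v = w then 1 else 0) = 2 := by
    intro v hv
    have h2 := hc v (Finset.mem_range.1 hv)
    have h3 := deg_le hM v
    split_ifs at h2 ⊢ with h
    · subst h; omega
    · omega
  have h2 := Finset.sum_congr rfl h1
  rw [Finset.sum_add_distrib, Finset.sum_add_distrib, Finset.sum_const, Finset.card_range, smul_eq_mul,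
    Finset.sum_ite_eq', if_pos (Finset.mem_range.2 hw), ← hsl_eq, ← sumL, hand hx hM] at h2
  omega

/-! ### the configuration of a 2-matching -/

/-- the target: `2` at the vertices, `2 n - ρ` at the slack vertex -/
def tgt (n ρ v : ℕ) : ℕ := if v < n then 2 else if v = n then 2 * n - ρ else 0

theorem forall2_map {α β γ : Type} {R : β → γ → Prop} {f : α → β} {h : α → γ} (l : List α)
    (hl : ∀ a ∈ l, R (f a) (h a)) : List.Forall₂ R (l.map f) (l.map h) := by
  induction l with
  | nil => exact List.Forall₂.nil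
  | cons a l ih =>
    exact List.Forall₂.cons (hl a List.mem_cons_self) (ih fun b hb => hl b (List.mem_cons_of_mem _ hb))

theorem forall2_append {β γ : Type} {R : β → γ → Prop} {a a' : List β} {b b' : List γ}
    (h : List.Forall₂ R a b) (h' : List.Forall₂ R a' b') : List.Forall₂ R (a ++ a') (b ++ b') := by
  induction h with
  | nil => exact h'
  | cons h1 _ ih => exact List.Forall₂.cons h1 ih

/-! ### the 2-matching of a configuration -/

theorem range_zip {α : Type} (d : α) (F : α → List ℕ → List Ed) {R : α → List ℕ → Prop} {l : List α}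
    {ks : List (List ℕ)} (h : List.Forall₂ R l ks) (r : List (List ℕ)) :
    ((List.range l.length).flatMap fun i => F (l.getD i d) ((ks ++ r).getD i [])) =
      (List.zipWith F l ks).flatten := by
  induction h with
  | nil => rfl
  | @cons a k l ks h1 h2 ih =>
    rw [List.length_cons, List.range_succ_eq_map, List.flatMap_cons, List.flatMap_map]
    have e : (List.zipWith F (a :: l) (k :: ks)).flatten = F a k ++ (List.zipWith F l ks).flatten := rfl
    rw [e, ← ih]
    rfl

theorem forall2_split {α β : Type} {R : α → β → Prop} {a b : List α} {ks : List β}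
    (h : List.Forall₂ R (a ++ b) ks) : ∃ k1 k2, ks = k1 ++ k2 ∧ List.Forall₂ R a k1 ∧ List.Forall₂ R b k2 := by
  induction a generalizing ks with
  | nil => exact ⟨[], ks, rfl, List.Forall₂.nil, h⟩
  | cons x a ih =>
    cases h with
    | cons h1 h2 =>
      obtain ⟨k1, k2, rfl, h3, h4⟩ := ih h2
      exact ⟨_ :: k1, k2, rfl, List.Forall₂.cons h1 h3, h4⟩

end Pool.Agent.PF4

end

section -- file P34/Cfg3

/-!
# Covers and configurations (triangles and squares)

The pieces of the solver for a list `C` of edge-disjoint clusters: the clusters, the plain edges, the slack units `{v, n}`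
(`2 - g v` for each vertex `v < n`) and `n` loops at the slack vertex `n`. `cfgM3` turns a 2-matching into a list of vectors,
one for each piece; `decM3` turns a list of vectors of the exact pieces into a 2-matching.
-/

set_option autoImplicit false

namespace Pool.Agent.P34

open Finset Pool.Agent.TFC Pool.Agent.PF4 Pool.Agent.Lib.helper60

/-! ### the pieces -/

/-- the plain edges -/
def plE3 (x : Ins) (C : List Cl3) : List Ed := rest x.2 (C.flatMap clE3)

/-- all pieces; `φ` gives the pieces of the clusters -/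
def pcs3 (φ : Cl3 → Pc) (x : Ins) (g : List ℕ) (C : List Cl3) : List Pc :=
  (C.map φ ++ (plE3 x C).map edP) ++ ((slJ x.1 g).map (fun p => unP p.1 x.1) ++
    (List.range x.1).map fun _ => unP x.1 x.1)

/-- the configuration of the 2-matching `M` -/
def cfgM3 (x : Ins) (g : List ℕ) (C : List Cl3) (M : List Ed) (ρ : ℕ) : List (List ℕ) :=
  (C.map (fun c => ends2 (norm (clE3 c) M)) ++
    (plE3 x C).map (fun e => ends2 (bif hasE M e then [e] else []))) ++
  ((slJ x.1 g).map (fun p => bif decide (p.2 < 2 - degL M p.1) then [p.1, x.1] else []) ++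
    (List.range x.1).map fun j => bif decide (hsl x g M + 2 * j + 2 + ρ ≤ 2 * x.1) then [x.1, x.1] else [])

/-- a 2-matching inside the piece with the vector `k` -/
def rlz3 (p : Pc) (k : List ℕ) : List Ed :=
  findD (fun S => okS3 S && eqK k (ends2 S)) (subs p.2.1 4) []

/-- the 2-matching of a configuration -/
def decM3 (x : Ins) (C : List Cl3) (ks : List (List ℕ)) : List Ed :=
  (List.range (C.map exP3 ++ (plE3 x C).map edP).length).flatMap fun i =>
    rlz3 ((C.map exP3 ++ (plE3 x C).map edP).getD i (false, [], [])) (ks.getD i [])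

/-- the clusters -/
structure ClsOK3 (x : Ins) (C : List Cl3) : Prop where
  ok : ∀ c ∈ C, Cl3OK c
  dj : C.Pairwise fun c c' => Disjoint (fs (clE3 c)) (fs (clE3 c'))
  sub : ∀ c ∈ C, fs (clE3 c) ⊆ fs x.2
  c4 : ∀ c ∈ C, Card43 (exP3 c)

/-! ### totals -/

theorem ttl_norm3 {M : List Ed} (hM : NoLoop (fs M)) (C : List Cl3) (v : ℕ) :
    ttl (C.map fun c => ends2 (norm (clE3 c) M)) v = degL (norm (C.flatMap clE3) M) v := by
  induction C with
  | nil => rfl
  | cons c C ih =>
    rw [List.map_cons, ttl_cons, ih, List.flatMap_cons, norm_append, degL_append,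
      count_ends2 (hM.mono (fs_norm_sub _ _))]

theorem fs_flat3 (x : Ins) (C : List Cl3) (hC : ∀ c ∈ C, fs (clE3 c) ⊆ fs x.2) :
    fs (C.flatMap clE3 ++ plE3 x C) = fs x.2 := by
  have h : fs (C.flatMap clE3) ⊆ fs x.2 := by
    intro y hy
    rw [mem_fs] at hy
    obtain ⟨e, he, rfl⟩ := hy
    obtain ⟨c, hc, he⟩ := List.mem_flatMap.1 he
    exact hC c hc (fe_mem_fs he)
  rw [plE3, fs_append, fs_rest, Finset.union_sdiff_of_subset h]

theorem wf_flat3 {x : Ins} {C : List Cl3} (hx : WF x.2) (hC : ∀ c ∈ C, Cl3OK c)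
    (hd : C.Pairwise fun c c' => Disjoint (fs (clE3 c)) (fs (clE3 c'))) : WF (C.flatMap clE3 ++ plE3 x C) := by
  have h1 : WF (C.flatMap clE3) := by
    clear hx
    induction C with
    | nil => exact WF.nil
    | cons c C ih =>
      rw [List.pairwise_cons] at hd
      rw [List.flatMap_cons]
      show ((clE3 c ++ C.flatMap clE3).map fe).Nodup
      rw [List.map_append, List.nodup_append']
      refine ⟨wf_clE3 (hC c List.mem_cons_self), ih (fun c hc => hC c (List.mem_cons_of_mem _ hc)) hd.2, ?_⟩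
      intro y h1 h2
      obtain ⟨f, hf, hfy⟩ := List.mem_map.1 h2
      obtain ⟨c', hc', hf'⟩ := List.mem_flatMap.1 hf
      have h3 := hd.1 c' hc'
      rw [Finset.disjoint_left] at h3
      refine h3 (a := y) ?_ ?_
      · rw [fs, List.mem_toFinset]; exact h1
      · rw [← hfy]; exact fe_mem_fs hf'
  exact h1.uni hx

/-- the edges of `M` are split between the clusters and the plain edges -/
theorem ttl_edges3 {x : Ins} (hx : InsWF x) {C : List Cl3} (hC : ClsOK3 x C) {M : List Ed} (hM : MG x M) (v : ℕ) :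
    ttl (C.map (fun c => ends2 (norm (clE3 c) M)) ++
      (plE3 x C).map (fun e => ends2 (bif hasE M e then [e] else []))) v = degL M v := by
  rw [ttl_append, ttl_norm3 hM.m2.nl, ttl_plain hM.m2.nl, ← degL_append, ← norm_append]
  have h1 := fs_flat3 x C hC.sub
  have h2 := wf_flat3 hx.wf hC.ok hC.dj
  rw [degL_eq (h2.norm M), degL_eq hM.wf, fs_norm, h1, Finset.inter_eq_right.2 hM.sub]

theorem totR3 (x : Ins) (g : List ℕ) (C : List Cl3) (M : List Ed) (ρ v : ℕ) :
    ttl (cfgM3 x g C M ρ) v =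
      ttl (C.map (fun c => ends2 (norm (clE3 c) M)) ++
        (plE3 x C).map (fun e => ends2 (bif hasE M e then [e] else []))) v +
      ((if v < x.1 then min (2 - g.getD v 0) (2 - degL M v) else if v = x.1 then hsl x g M else 0) +
       (if v = x.1 then 2 * min x.1 ((2 * x.1 - ρ - hsl x g M) / 2) else 0)) := by
  rw [cfgM3, ttl_append]
  congr 1
  rw [ttl_append, ttl_slack, ttl_loops]

/-- a cover gives a configuration with the target total -/
theorem ttl_cover3 {x : Ins} (hx : InsWF x) {C : List Cl3} (hC : ClsOK3 x C) {g : List ℕ} {M : List Ed}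
    (hM : MG x M) (hc : Cov x.1 g (degL M)) (v : ℕ) : ttl (cfgM3 x g C M 0) v = tgt x.1 0 v := by
  rw [totR3, ttl_edges3 hx hC hM, tgt]
  have h1 := par_cover hx hM hc
  have h2 := deg_le hM v
  by_cases hv : v < x.1
  · have h3 := hc v hv
    have h4 : v ≠ x.1 := by omega
    rw [if_pos hv, if_pos hv, if_neg h4]
    omega
  · rw [if_neg hv, if_neg hv, degL_out hx hM (by omega)]
    by_cases h4 : v = x.1
    · rw [if_pos h4, if_pos h4, if_pos h4]
      omega
    · rw [if_neg h4, if_neg h4, if_neg h4]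

/-- a near cover gives a configuration whose total is the near target minus a unit vector -/
theorem ttl_near3 {x : Ins} (hx : InsWF x) {C : List Cl3} (hC : ClsOK3 x C) {g : List ℕ} {M : List Ed}
    (hM : MG x M) {w : ℕ} (hw : w < x.1) (hg : g.getD w 0 ≤ 2)
    (hc : ∀ u < x.1, g.getD u 0 ≤ degL M u + (if u = w then 1 else 0)) (hd : degL M w + 1 = g.getD w 0) (v : ℕ) :
    ttl (cfgM3 x g C M 1) v + (if v = w then 1 else 0) = tgt x.1 1 v := by
  rw [totR3, ttl_edges3 hx hC hM, tgt]
  have h1 := par_near hx hM hw hg hc hd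
  have h2 := deg_le hM v
  by_cases hv : v < x.1
  · have h3 := hc v hv
    have h4 : v ≠ x.1 := by omega
    rw [if_pos hv, if_pos hv, if_neg h4]
    by_cases h5 : v = w
    · subst h5
      rw [if_pos rfl] at h3 ⊢
      omega
    · rw [if_neg h5] at h3 ⊢
      omega
  · have h5 : v ≠ w := by omega
    rw [if_neg hv, if_neg hv, degL_out hx hM (by omega), if_neg h5]
    by_cases h4 : v = x.1
    · rw [if_pos h4, if_pos h4, if_pos h4]
      omega
    · rw [if_neg h4, if_neg h4, if_neg h4]

theorem pmem3_unP {u v : ℕ} {k : List ℕ} (h : pmem3 (unP u v) k = true) : kvec k = kvec [] ∨ kvec k = kvec [u, v] := by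
  rcases pmem3_sound h with ⟨l, hl, e⟩ | ⟨_, z, hz, _, _, e⟩
  · rw [unP, List.mem_singleton] at hl
    rw [hl] at e
    exact Or.inr e
  · have : z = ∅ := Finset.subset_empty.1 hz
    left
    rw [e, this]
    funext v
    simp [dv, dg, kvec]

theorem pmem3_unP_nil (u v : ℕ) : pmem3 (unP u v) [] = true := by
  unfold pmem3
  rw [Bool.or_eq_true, Bool.and_eq_true, List.any_eq_true]
  refine Or.inr ⟨rfl, ?_⟩
  rw [List.any_eq_true]
  exact ⟨[], mem_subs.2 ⟨by simp, by simp⟩, by decide⟩

theorem pmem3_unP_one (u v : ℕ) : pmem3 (unP u v) [u, v] = true := by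
  unfold pmem3
  rw [Bool.or_eq_true, List.any_eq_true]
  exact Or.inl ⟨[u, v], List.mem_singleton.2 rfl, (eqK_iff _ _).2 rfl⟩

theorem VM3.free {x : Ins} {M : List Ed} (hx : InsWF x) (h : VM3 x M) : Gd noZ (fs M) :=
  fun _ hZ hs => (h.no hx hZ hs).elim

/-- the configuration of a 2-matching without short cycles is exact -/
theorem cfgM3_exact {x : Ins} (hx : InsWF x) {C : List Cl3} (hC : ClsOK3 x C) (g : List ℕ) {M : List Ed}
    (hM : VM3 x M) (ρ : ℕ) :
    List.Forall₂ (fun p k => pmem3 p k = true) (pcs3 exP3 x g C) (cfgM3 x g C M ρ) := by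
  have hg := hM.free hx
  refine forall2_append (forall2_append ?_ ?_) (forall2_append ?_ ?_)
  · refine forall2_map C fun c hc => pmem3_complete (hC.c4 c hc) (Or.inr ⟨rfl, fs (norm (clE3 c) M), ?_, ?_, ?_, ?_⟩)
    · rw [fs_norm]; exact Finset.inter_subset_left
    · exact hM.1.m2.mono (fs_norm_sub _ _)
    · exact hg.mono (fs_norm_sub _ _)
    · exact kvec_ends2 ((wf_clE3 (hC.ok c hc)).norm M) (hM.1.m2.nl.mono (fs_norm_sub _ _))
  · refine forall2_map (plE3 x C) fun e he => ?_
    have hne : e.1 ≠ e.2 := by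
      intro h
      have h1 : fe e ∈ fs (plE3 x C) := fe_mem_fs he
      rw [plE3, fs_rest, Finset.mem_sdiff] at h1
      refine hx.nl _ h1.1 ?_
      rw [fe, h]
      exact Sym2.mk_isDiag_iff.2 rfl
    unfold pmem3
    rw [Bool.or_eq_true, Bool.and_eq_true, List.any_eq_true]
    refine Or.inr ⟨rfl, ?_⟩
    rw [List.any_eq_true]
    refine ⟨bif hasE M e then [e] else [], mem_subs.2 ⟨?_, ?_⟩, ?_⟩
    · cases hasE M e <;> simp
    · cases hasE M e <;> simp [edP]
    · rw [Bool.and_eq_true, okS3_iff]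
      refine ⟨⟨?_, ?_, ?_⟩, (eqK_iff _ _).2 rfl⟩
      · cases hasE M e
        · exact WF.nil
        · exact WF.single e
      · refine hM.1.m2.mono ?_
        cases h : hasE M e
        · simp [fs_nil]
        · intro y hy
          obtain ⟨f, hf, rfl⟩ := mem_fs.1 hy
          rw [cond_true, List.mem_singleton] at hf
          subst hf
          exact (hasE_iff _ _).1 h
      · refine hg.mono ?_
        cases h : hasE M e
        · simp [fs_nil]
        · intro y hy
          obtain ⟨f, hf, rfl⟩ := mem_fs.1 hy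
          rw [cond_true, List.mem_singleton] at hf
          subst hf
          exact (hasE_iff _ _).1 h
  · refine forall2_map (slJ x.1 g) fun p _ => ?_
    cases decide (p.2 < 2 - degL M p.1)
    · exact pmem3_unP_nil _ _
    · exact pmem3_unP_one _ _
  · refine forall2_map (List.range x.1) fun j _ => ?_
    cases decide (hsl x g M + 2 * j + 2 + ρ ≤ 2 * x.1)
    · exact pmem3_unP_nil _ _
    · exact pmem3_unP_one _ _

/-! ### the 2-matching of a configuration -/

theorem rlz3_spec {p : Pc} {k : List ℕ} (hX : p.2.2 = []) (h : pmem3 p k = true) :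
    WF (rlz3 p k) ∧ M2 (fs (rlz3 p k)) ∧ Gd noZ (fs (rlz3 p k)) ∧ fs (rlz3 p k) ⊆ fs p.2.1 ∧
      ∀ v, degL (rlz3 p k) v = k.count v := by
  unfold pmem3 at h
  rw [hX, List.any_nil, Bool.false_or, Bool.and_eq_true, List.any_eq_true] at h
  obtain ⟨h1, h2⟩ := findD_spec (fun S => okS3 S && eqK k (ends2 S)) (subs p.2.1 4) [] h.2
  change rlz3 p k ∈ subs p.2.1 4 at h1
  change (okS3 (rlz3 p k) && eqK k (ends2 (rlz3 p k))) = true at h2
  rw [Bool.and_eq_true, okS3_iff, eqK_iff] at h2
  refine ⟨h2.1.1, h2.1.2.1, h2.1.2.2, ?_, ?_⟩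
  · intro y hy
    obtain ⟨e, he, rfl⟩ := mem_fs.1 hy
    exact fe_mem_fs ((mem_subs.1 h1).2 e he)
  · intro v
    rw [← count_ends2 h2.1.2.1.nl]
    have := congrFun h2.2 v
    unfold kvec at this
    exact_mod_cast this.symm

/-- gluing -/
theorem glue3 {α : Type} (A : α → Finset (Sym2 ℕ)) (F : α → List ℕ → List Ed) {l : List α} {ks : List (List ℕ)}
    (h : List.Forall₂ (fun a k => WF (F a k) ∧ Gd noZ (fs (F a k)) ∧ fs (F a k) ⊆ A a ∧
      ∀ v, degL (F a k) v = k.count v) l ks)
    (hd : l.Pairwise fun a b => Disjoint (A a) (A b)) :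
    WF (List.zipWith F l ks).flatten ∧ (∀ y ∈ fs (List.zipWith F l ks).flatten, ∃ a ∈ l, y ∈ A a) ∧
      (∀ v, degL (List.zipWith F l ks).flatten v = ttl ks v) ∧
      ∀ a ∈ l, Gd noZ (fs (List.zipWith F l ks).flatten ∩ A a) := by
  induction h with
  | nil => exact ⟨WF.nil, by simp [fs_nil], fun v => rfl, by simp⟩
  | @cons a k l ks h1 h2 ih =>
    rw [List.pairwise_cons] at hd
    obtain ⟨i1, i2, i3, i4⟩ := ih hd.2
    have e : (List.zipWith F (a :: l) (k :: ks)).flatten = F a k ++ (List.zipWith F l ks).flatten := rfl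
    have hdis : Disjoint (fs (F a k)) (fs (List.zipWith F l ks).flatten) := by
      rw [Finset.disjoint_left]
      intro y hy hy'
      obtain ⟨b, hb, hyb⟩ := i2 y hy'
      exact Finset.disjoint_left.1 (hd.1 b hb) (h1.2.2.1 hy) hyb
    rw [e]
    refine ⟨?_, ?_, ?_, ?_⟩
    · show ((F a k ++ (List.zipWith F l ks).flatten).map fe).Nodup
      rw [List.map_append, List.nodup_append']
      refine ⟨h1.1, i1, ?_⟩
      intro y h3 h4
      have h5 := Finset.disjoint_left.1 hdis
      refine h5 (a := y) ?_ ?_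
      · rw [fs, List.mem_toFinset]; exact h3
      · rw [fs, List.mem_toFinset]; exact h4
    · intro y hy
      rw [fs_append, Finset.mem_union] at hy
      rcases hy with hy | hy
      · exact ⟨a, List.mem_cons_self, h1.2.2.1 hy⟩
      · obtain ⟨b, hb, hyb⟩ := i2 y hy
        exact ⟨b, List.mem_cons_of_mem _ hb, hyb⟩
    · intro v
      rw [degL_append, h1.2.2.2 v, i3 v, ttl_cons]
    · intro b hb
      rcases List.mem_cons.1 hb with rfl | hb
      · have h5 : fs (F b k ++ (List.zipWith F l ks).flatten) ∩ A b = fs (F b k) := by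
          rw [fs_append, Finset.union_inter_distrib_right, Finset.inter_eq_left.2 h1.2.2.1]
          have h6 : fs (List.zipWith F l ks).flatten ∩ A b = ∅ := by
            rw [← Finset.disjoint_iff_inter_eq_empty, Finset.disjoint_left]
            intro y hy hyb
            obtain ⟨c, hc, hyc⟩ := i2 y hy
            exact Finset.disjoint_left.1 (hd.1 c hc) hyb hyc
          rw [h6, Finset.union_empty]
        rw [h5]
        exact h1.2.1
      · have h5 : fs (F a k ++ (List.zipWith F l ks).flatten) ∩ A b = fs (List.zipWith F l ks).flatten ∩ A b := by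
          rw [fs_append, Finset.union_inter_distrib_right]
          have h6 : fs (F a k) ∩ A b = ∅ := by
            rw [← Finset.disjoint_iff_inter_eq_empty]
            exact (hd.1 b hb).mono_left h1.2.2.1
          rw [h6, Finset.empty_union]
        rw [h5]
        exact i4 b hb

/-- the edge pieces -/
def eps3 (x : Ins) (C : List Cl3) : List Pc := C.map exP3 ++ (plE3 x C).map edP

theorem eps3_pure {x : Ins} {C : List Cl3} {p : Pc} (hp : p ∈ eps3 x C) : p.2.2 = [] ∧ p.1 = true := by
  rcases List.mem_append.1 hp with h | h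
  · obtain ⟨c, _, rfl⟩ := List.mem_map.1 h
    exact ⟨rfl, rfl⟩
  · obtain ⟨c, _, rfl⟩ := List.mem_map.1 h
    exact ⟨rfl, rfl⟩

theorem eps3_disj {x : Ins} (hx : InsWF x) {C : List Cl3} (hC : ClsOK3 x C) :
    (eps3 x C).Pairwise fun a b => Disjoint (fs a.2.1) (fs b.2.1) := by
  rw [eps3, List.pairwise_append]
  refine ⟨?_, ?_, ?_⟩
  · rw [List.pairwise_map]
    exact hC.dj
  · rw [List.pairwise_map]
    have h : WF (plE3 x C) := hx.wf.rest _
    have h2 : (plE3 x C).Pairwise fun a b => fe a ≠ fe b := by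
      have h3 : ((plE3 x C).map fe).Pairwise (· ≠ ·) := h
      rwa [List.pairwise_map] at h3
    refine h2.imp ?_
    intro a b hab
    show Disjoint (fs [a]) (fs [b])
    rw [fs_cons, fs_cons, fs_nil]
    simpa using hab
  · intro p hp q hq
    obtain ⟨c, hc, rfl⟩ := List.mem_map.1 hp
    obtain ⟨e, he, rfl⟩ := List.mem_map.1 hq
    show Disjoint (fs (clE3 c)) (fs [e])
    rw [fs_cons, fs_nil]
    rw [Finset.disjoint_left]
    intro y hy hy'
    have hy2 : y = fe e := by simpa using hy'
    subst hy2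
    have h1 : fe e ∈ fs (plE3 x C) := fe_mem_fs he
    rw [plE3, fs_rest, Finset.mem_sdiff] at h1
    apply h1.2
    obtain ⟨f, hf, hfe⟩ := mem_fs.1 hy
    exact mem_fs.2 ⟨f, List.mem_flatMap.2 ⟨c, hc, hf⟩, hfe⟩

/-- the slack pieces contribute at most `2 - g v` at `v` -/
theorem ttl_un_le3 {n : ℕ} {g : List ℕ} {v : ℕ} (hv : v < n) {k2 : List (List ℕ)}
    (h : List.Forall₂ (fun p k => pmem3 p k = true) ((slJ n g).map (fun p => unP p.1 n) ++
      (List.range n).map fun _ => unP n n) k2) : ttl k2 v ≤ 2 - g.getD v 0 := by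
  obtain ⟨k3, k4, rfl, h3, h4⟩ := forall2_split h
  have h5 : ttl k4 v = 0 := by
    clear h3 h
    rw [List.forall₂_map_left_iff] at h4
    generalize List.range n = l at h4
    induction h4 with
    | nil => rfl
    | cons h1 _ ih =>
      rw [ttl_cons, ih]
      have h6 : ∀ k : List ℕ, pmem3 (unP n n) k = true → k.count v = 0 := by
        intro k hk
        rcases pmem3_unP hk with e | e
        · have := congrFun e v
          unfold kvec at this
          simpa using this
        · have := congrFun e v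
          unfold kvec at this
          have hne : n ≠ v := by omega
          simpa [hne] using this
      rw [h6 _ h1]
  have h6 : ∀ (l : List (ℕ × ℕ)) (ks : List (List ℕ)),
      List.Forall₂ (fun p k => pmem3 p k = true) (l.map (fun p => unP p.1 n)) ks →
      ttl ks v ≤ (l.map fun p => if p.1 = v then 1 else 0).sum := by
    intro l
    induction l with
    | nil =>
      intro ks hks
      cases hks
      exact Nat.zero_le _
    | cons p l ih =>
      intro ks hks
      cases hks with
      | @cons _ kk _ _ h7 h8 =>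
        rw [ttl_cons, List.map_cons, List.sum_cons]
        refine Nat.add_le_add ?_ (ih _ h8)
        rcases pmem3_unP h7 with e | e
        · have := congrFun e v
          unfold kvec at this
          simp only [List.count_nil, Nat.cast_zero] at this
          have h9 : List.count v kk = 0 := by exact_mod_cast this
          rw [h9]
          exact Nat.zero_le _
        · have := congrFun e v
          unfold kvec at this
          have hne : n ≠ v := by omega
          have h9 : List.count v kk = List.count v [p.1, n] := by exact_mod_cast this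
          rw [h9]
          by_cases h10 : p.1 = v
          · simp [h10, hne]
          · simp [h10, hne]
  rw [ttl_append, h5, add_zero]
  refine (h6 _ _ h3).trans (le_of_eq ?_)
  rw [sum_slJ]
  have h7 : ∀ u ∈ Finset.range n, (∑ j ∈ Finset.range (2 - g.getD u 0),
      (fun p : ℕ × ℕ => if p.1 = v then 1 else 0) (u, j)) = if u = v then 2 - g.getD u 0 else 0 := by
    intro u _
    simp only
    split_ifs <;> simp
  rw [Finset.sum_congr rfl h7, Finset.sum_ite_eq', if_pos (Finset.mem_range.2 hv)]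

/-- **An exact configuration gives a cover.** -/
theorem decM3_spec {x : Ins} (hx : InsWF x) {C : List Cl3} (hC : ClsOK3 x C) {g : List ℕ}
    (hg : ∀ v, g.getD v 0 ≤ 2) {ks : List (List ℕ)}
    (h : List.Forall₂ (fun p k => pmem3 p k = true) (pcs3 exP3 x g C) ks) (ht : ∀ v < x.1, ttl ks v = 2) :
    MG x (decM3 x C ks) ∧ Cov x.1 g (degL (decM3 x C ks)) ∧
      ∀ q : Sq4, CyOK q → (∃ c ∈ C, cys q ⊆ fs (clE3 c)) → cyIn (decM3 x C ks) q = false := by
  obtain ⟨k1, k2, rfl, h1, h2⟩ := forall2_split h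
  have e : decM3 x C (k1 ++ k2) = (List.zipWith rlz3 (eps3 x C) k1).flatten := range_zip _ rlz3 h1 k2
  have h3 : List.Forall₂ (fun (a : Pc) k => WF (rlz3 a k) ∧ Gd noZ (fs (rlz3 a k)) ∧ fs (rlz3 a k) ⊆ fs a.2.1 ∧
      ∀ v, degL (rlz3 a k) v = k.count v) (eps3 x C) k1 := by
    have h4 : ∀ (l : List Pc) (ks : List (List ℕ)), (∀ p ∈ l, p.2.2 = []) →
        List.Forall₂ (fun p k => pmem3 p k = true) l ks →
        List.Forall₂ (fun (a : Pc) k => WF (rlz3 a k) ∧ Gd noZ (fs (rlz3 a k)) ∧ fs (rlz3 a k) ⊆ fs a.2.1 ∧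
          ∀ v, degL (rlz3 a k) v = k.count v) l ks := by
      intro l ks hl hks
      induction hks with
      | nil => exact List.Forall₂.nil
      | cons h5 _ ih =>
        obtain ⟨i1, _, i3, i4, i5⟩ := rlz3_spec (hl _ List.mem_cons_self) h5
        exact List.Forall₂.cons ⟨i1, i3, i4, i5⟩ (ih fun p hp => hl p (List.mem_cons_of_mem _ hp))
    exact h4 _ _ (fun p hp => (eps3_pure hp).1) h1
  obtain ⟨g1, g2, g3, g4⟩ := glue3 (fun p : Pc => fs p.2.1) rlz3 h3 (eps3_disj hx hC)
  rw [e]
  set M := (List.zipWith rlz3 (eps3 x C) k1).flatten with hM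
  have hsub : fs M ⊆ fs x.2 := by
    intro y hy
    obtain ⟨p, hp, hyp⟩ := g2 y hy
    rcases List.mem_append.1 hp with hp | hp
    · obtain ⟨c, hc, rfl⟩ := List.mem_map.1 hp
      exact hC.sub c hc hyp
    · obtain ⟨f, hf, rfl⟩ := List.mem_map.1 hp
      have h5 : fe f ∈ fs (plE3 x C) := fe_mem_fs hf
      rw [plE3, fs_rest, Finset.mem_sdiff] at h5
      have h6 : y ∈ fs [f] := hyp
      rw [fs_cons, fs_nil] at h6
      have h7 : y = fe f := by simpa using h6
      rw [h7]
      exact h5.1
  have hdeg : ∀ v < x.1, degL M v ≤ 2 ∧ g.getD v 0 ≤ degL M v := by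
    intro v hv
    have h5 := ht v hv
    rw [ttl_append, ← g3 v] at h5
    have h6 := ttl_un_le3 hv h2
    have h7 := hg v
    omega
  have hMG : MG x M := by
    refine ⟨g1, ⟨hx.nl.mono hsub, fun v => ?_⟩, hsub⟩
    by_cases hv : v < x.1
    · rw [← degL_eq g1]
      exact (hdeg v hv).1
    · have : dg (fs M) v = 0 := by
        rw [dg, Finset.card_eq_zero, Finset.filter_eq_empty_iff]
        intro y hy hvy
        exact hv (hx.vlt (hsub hy) hvy)
      omega
  refine ⟨hMG, fun v hv => (hdeg v hv).2, ?_⟩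
  rintro q hq ⟨c, hc, hqc⟩
  rw [← Bool.not_eq_true, cyIn_iff]
  intro hs
  have hp : exP3 c ∈ eps3 x C := List.mem_append_left _ (List.mem_map_of_mem hc)
  exact g4 _ hp (cys q) hq.sh (Finset.subset_inter hs hqc)

end Pool.Agent.P34

end

section -- file PF4/GadT

/-!
2-factors without 4-cycles in polynomial time: the matching gadget with degree intervals in terms of the sums
of units `sumU`.
-/

set_option autoImplicit false

namespace Pool.Agent.PF4.Gd

open Finset Pool.Agent.TFC
open scoped Pointwise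

/-- the unit of a pair of lists -/
def tf (u : List ℕ × List ℕ) : Finset ℕ × Finset ℕ := (u.1.toFinset, u.2.toFinset)

theorem ev_apply (s v : ℕ) : (ev s : ℕ → ℤ) v = if s = v then 1 else 0 := by
  simp only [ev, Pi.single_apply, eq_comm]

theorem chU_Un {n : ℕ} {u : List ℕ × List ℕ} {c : List (ℕ × ℕ)} (h : ChU n u c) :
    (fun v => (useU c v : ℤ)) ∈ Un (tf u).1 (tf u).2 := by
  rcases h with rfl | ⟨s, hs, t, ht, _, _, rfl⟩
  · left
    funext v
    simp [useU_nil]
  · right
    refine ⟨s, by simpa [tf] using hs, t, by simpa [tf] using ht, ?_⟩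
    funext v
    rw [useU_single, Pi.add_apply, ev_apply, ev_apply]
    push_cast
    rfl

/-- the degree vector of a choice list is a sum of units -/
theorem ch_sumU {n : ℕ} {us : List (List ℕ × List ℕ)} {C : List (List (ℕ × ℕ))}
    (h : List.Forall₂ (ChU n) us C) : (fun v => (use C v : ℤ)) ∈ sumU (us.map tf) := by
  induction h with
  | nil =>
    simp only [List.map_nil, sumU, Set.mem_singleton_iff]
    funext v
    simp [use_nil]
  | @cons u c us C h1 _ ih =>
    rw [List.map_cons, sumU, Set.mem_add]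
    refine ⟨_, chU_Un h1, _, ih, ?_⟩
    funext v
    rw [Pi.add_apply, use_cons]
    push_cast
    rfl

/-- every sum of units is the degree vector of a choice list -/
theorem sumU_ch {n : ℕ} {us : List (List ℕ × List ℕ)}
    (hn : ∀ u ∈ us, (∀ s ∈ u.1, s < n) ∧ ∀ t ∈ u.2, t < n) {x : ℕ → ℤ} (hx : x ∈ sumU (us.map tf)) :
    ∃ C, List.Forall₂ (ChU n) us C ∧ ∀ v, x v = use C v := by
  induction us generalizing x with
  | nil =>
    simp only [List.map_nil, sumU, Set.mem_singleton_iff] at hx
    subst hx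
    exact ⟨[], List.Forall₂.nil, fun v => by simp [use_nil]⟩
  | cons u us ih =>
    rw [List.map_cons, sumU, Set.mem_add] at hx
    obtain ⟨a, ha, b, hb, rfl⟩ := hx
    obtain ⟨C, hC, hb'⟩ := ih (fun w hw => hn w (List.mem_cons_of_mem _ hw)) hb
    have hu := hn u List.mem_cons_self
    rcases ha with rfl | ⟨s, hs, t, ht, rfl⟩
    · refine ⟨[] :: C, List.Forall₂.cons (Or.inl rfl) hC, fun v => ?_⟩
      rw [use_cons, useU_nil, Pi.add_apply, hb']
      simp
    · have hs' : s ∈ u.1 := by simpa [tf] using hs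
      have ht' : t ∈ u.2 := by simpa [tf] using ht
      refine ⟨[(s, t)] :: C,
        List.Forall₂.cons (Or.inr ⟨s, hs', t, ht', hu.1 s hs', hu.2 t ht', rfl⟩) hC, fun v => ?_⟩
      rw [use_cons, useU_single, Pi.add_apply, Pi.add_apply, ev_apply, ev_apply, hb']
      push_cast
      rfl

end Pool.Agent.PF4.Gd

end

section -- file PF4/PcK2

/-!
# Pieces: jump sets, the units of the relaxed `K2`, and the pieces of the solver as `PcOK`
-/

set_option autoImplicit false

namespace Pool.Agent.PF4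

open Finset Pool.Agent.TFC Pool.Agent.Lib.helper60
open scoped Pointwise

/-! ### sums of units -/

theorem sumU_perm {us vs : List (Finset ℕ × Finset ℕ)} (h : us.Perm vs) : sumU us = sumU vs := by
  induction h with
  | nil => rfl
  | cons u _ ih =>
    show Un u.1 u.2 + sumU _ = Un u.1 u.2 + sumU _
    rw [ih]
  | swap u v l =>
    show Un v.1 v.2 + (Un u.1 u.2 + sumU l) = Un u.1 u.2 + (Un v.1 v.2 + sumU l)
    exact add_left_comm _ _ _
  | trans _ _ ih1 ih2 => rw [ih1, ih2]

theorem zero_mem_sumU (us : List (Finset ℕ × Finset ℕ)) : (0 : ℕ → ℤ) ∈ sumU us := by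
  induction us with
  | nil => rfl
  | cons u us ih =>
    have := Set.add_mem_add (show (0 : ℕ → ℤ) ∈ Un u.1 u.2 from Or.inl rfl) ih
    rwa [add_zero] at this

theorem one_mem_sumU {us : List (Finset ℕ × Finset ℕ)} {u : Finset ℕ × Finset ℕ} (hu : u ∈ us) {x : ℕ → ℤ}
    (hx : x ∈ Un u.1 u.2) : x ∈ sumU us := by
  induction us with
  | nil => cases hu
  | cons v us ih =>
    rcases List.mem_cons.1 hu with rfl | hu
    · have := Set.add_mem_add hx (zero_mem_sumU us)
      rwa [add_zero] at this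
    · have := Set.add_mem_add (show (0 : ℕ → ℤ) ∈ Un v.1 v.2 from Or.inl rfl) (ih hu)
      rwa [zero_add] at this

/-! ### the relaxed `K2` is the sum of its units, cut at 2 -/

theorem rxU_k2 {x y w w' c : ℕ} {L : List ℕ} (hn : L.Nodup) (hw : (w = x ∧ w' = y) ∨ (w = y ∧ w' = x))
    (hxy : x ≠ y) : sumU ((rxU (true, x, y, L) (w, c)).map Gd.tf) = sumU (CC.k2 w w' c L.toFinset).units := by
  have e : (rxU (true, x, y, L) (w, c)).map Gd.tf = ((L.filter fun l => !decide (l = c)).map fun l =>
      (({l} : Finset ℕ), ({x, y} : Finset ℕ))) ++ [(({w} : Finset ℕ), L.toFinset), (({w'} : Finset ℕ), ({c} : Finset ℕ))] := by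
    have e2 : (if w = x then y else x) = w' := by
      rcases hw with ⟨rfl, rfl⟩ | ⟨rfl, rfl⟩
      · simp
      · simp [hxy.symm]
    simp only [rxU, cond_true, List.map_append, List.map_map, List.map_cons, List.map_nil, Gd.tf, e2]
    congr 1
    refine List.map_congr_left fun l _ => ?_
    simp [Gd.tf]
  have e3 : ({w, w'} : Finset ℕ) = {x, y} := by
    rcases hw with ⟨rfl, rfl⟩ | ⟨rfl, rfl⟩
    · rfl
    · exact Finset.pair_comm _ _
  rw [e, CC.units, e3]
  refine sumU_perm (List.Perm.append_right _ (List.Perm.map _ ?_))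
  refine (List.perm_ext_iff_of_nodup (hn.filter _) (Finset.nodup_toList _)).2 fun l => ?_
  simp only [List.mem_filter, Bool.not_eq_true', decide_eq_false_iff_not, Finset.mem_toList, Finset.mem_erase,
    List.mem_toFinset]
  exact and_comm

theorem JS_le2 {E : Finset (Sym2 ℕ)} {al : ℕ → ℕ → ℕ → ℕ → Prop} {x : ℕ → ℤ} (h : x ∈ JS E al) (v : ℕ) : x v ≤ 2 := by
  obtain ⟨z, _, hz, _, rfl⟩ := h
  rw [dv_apply]
  exact_mod_cast hz.le v

/-- the relaxed piece of `K2(x,y;L)` -/
theorem rxP_k2 {x y : ℕ} {L : List ℕ} (h : ClOK (true, x, y, L)) {ch : ℕ × ℕ} (hc : ChOK (true, x, y, L) ch) :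
    pcS (rxP (true, x, y, L) ch) = {z | z ∈ sumU ((rxU (true, x, y, L) ch).map Gd.tf) ∧ ∀ v, z v ≤ 2} := by
  obtain ⟨w, c⟩ := ch
  obtain ⟨hw, hcL⟩ := hc rfl
  obtain ⟨hxy, hxL, hyL, h2⟩ := h.k2 rfl
  have hn := h.nd
  simp only at hw hcL hxy hxL hyL h2 hn
  obtain ⟨w', hww⟩ : ∃ w', (w = x ∧ w' = y) ∨ (w = y ∧ w' = x) := by
    rcases hw with rfl | rfl
    · exact ⟨y, Or.inl ⟨rfl, rfl⟩⟩
    · exact ⟨x, Or.inr ⟨rfl, rfl⟩⟩
  have hv : (CC.k2 w w' c L.toFinset).Valid := by
    have h2' : 2 ≤ #L.toFinset := by rw [List.toFinset_card_of_nodup hn]; exact h2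
    rcases hww with ⟨rfl, rfl⟩ | ⟨rfl, rfl⟩
    · exact ⟨hxy, by simpa using hxL, by simpa using hyL, h2', by simpa using hcL⟩
    · exact ⟨hxy.symm, by simpa using hyL, by simpa using hxL, h2', by simpa using hcL⟩
  have he : (CC.k2 w w' c L.toFinset).clu.edges = fs (clE (true, x, y, L)) := by
    rw [fs_clE]
    show (Clu.k2 w w' L.toFinset).edges = (Clu.k2 x y L.toFinset).edges
    rcases hww with ⟨rfl, rfl⟩ | ⟨rfl, rfl⟩
    · rfl
    · simp only [Clu.edges]
      exact Finset.union_comm _ _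
  rw [rxU_k2 hn hww hxy]
  ext z
  rw [pcS_rxP, pcS_exP, ← he]
  constructor
  · rintro (hz | ⟨d, hd, rfl⟩)
    · exact ⟨JS_subset_units_k2 hv hz, JS_le2 hz⟩
    · simp only [digs, cond_true, List.mem_map, List.mem_filter, Bool.not_eq_true', decide_eq_false_iff_not] at hd
      obtain ⟨l, ⟨hl, hlc⟩, rfl⟩ := hd
      have hlw : l ≠ w := by
        rintro rfl
        rcases hww with ⟨rfl, _⟩ | ⟨rfl, _⟩
        · exact hxL hl
        · exact hyL hl
      rw [kv4]
      refine ⟨?_, ?_⟩
      · rw [CC.units, sumU_append]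
        have h1 : (ev l + ev w : ℕ → ℤ) ∈ sumU (((L.toFinset.erase c).toList.map fun l =>
            (({l} : Finset ℕ), ({w, w'} : Finset ℕ)))) := by
          refine one_mem_sumU (u := ({l}, {w, w'})) (List.mem_map.2 ⟨l, ?_, rfl⟩)
            (Or.inr ⟨l, Finset.mem_singleton_self _, w, Finset.mem_insert_self _ _, rfl⟩)
          rw [Finset.mem_toList, Finset.mem_erase, List.mem_toFinset]
          exact ⟨hlc, hl⟩
        have h3 : (ev w + ev l : ℕ → ℤ) ∈ sumU [(({w} : Finset ℕ), L.toFinset), (({w'} : Finset ℕ), ({c} : Finset ℕ))] :=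
          one_mem_sumU (u := ({w}, L.toFinset)) (by simp)
            (Or.inr ⟨w, Finset.mem_singleton_self _, l, by simpa using hl, rfl⟩)
        have := Set.add_mem_add h1 h3
        convert this using 1
        funext v
        simp only [Pi.add_apply, Pi.smul_apply, smul_eq_mul]
        ring
      · intro v
        simp only [Pi.add_apply, Pi.smul_apply, smul_eq_mul, TFC.ev_apply]
        split_ifs <;> first | (exfalso; omega) | norm_num
  · rintro ⟨hz, hz2⟩
    rcases units_k2_le hv hz hz2 with h3 | ⟨l, hl, hlc, rfl⟩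
    · exact Or.inl h3
    · right
      refine ⟨[w, w, l, l], ?_, ?_⟩
      · simp only [digs, cond_true, List.mem_map, List.mem_filter, Bool.not_eq_true', decide_eq_false_iff_not]
        exact ⟨l, ⟨by simpa using hl, hlc⟩, rfl⟩
      · rw [kv4]
        funext v
        simp

/-! ### jump sets -/

theorem pcS_pair (u v : ℕ) : pcS (true, [], [[u, v]]) = Un {u} {v} := by
  ext x
  simp only [pcS, List.mem_singleton, exists_eq_left, true_and, Set.mem_ofPred_eq]
  constructor
  · rintro (rfl | ⟨z, hz, _, _, rfl⟩)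
    · right
      refine ⟨u, Finset.mem_singleton_self _, v, Finset.mem_singleton_self _, ?_⟩
      rw [kv_cons, kv_cons, kv_nil, add_zero]
    · left
      have : z = ∅ := by
        rw [fs_nil] at hz
        exact Finset.subset_empty.1 hz
      rw [this, Unit_dv0]
  · rintro (rfl | ⟨s, hs, t, ht, rfl⟩)
    · right
      refine ⟨∅, Finset.empty_subset _, ⟨by intro e he; simp at he, fun w => by simp [dg]⟩, ?_, Unit_dv0.symm⟩
      intro a b c d h
      have := h.ab
      simp at this
    · left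
      rw [Finset.mem_singleton] at hs ht
      subst hs ht
      rw [kv_cons, kv_cons, kv_nil, add_zero]

theorem jump_pair (u v : ℕ) : Jump (pcS (true, [], [[u, v]])) := by
  rw [pcS_pair]
  exact jump_Un _ _

theorem pcS_alt (u v : ℕ) : pcS (false, [], [[u], [v]]) = {ev u, ev v} := by
  ext x
  simp only [pcS, List.mem_cons, List.not_mem_nil, or_false, exists_eq_or_imp, exists_eq_left, Bool.false_eq_true,
    false_and, Set.mem_ofPred_eq, Set.mem_insert_iff, Set.mem_singleton_iff, kv_cons, kv_nil, add_zero]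

theorem jump_alt (u v : ℕ) : Jump (pcS (false, [], [[u], [v]])) := by
  rw [pcS_alt]
  have key : ∀ a b : ℕ, ∀ (i : ℕ) (ε : ℤ), (ε = 1 ∨ ε = -1) → 0 < ε * ((ev b : ℕ → ℤ) i - (ev a : ℕ → ℤ) i) →
      ∃ (j : ℕ) (δ : ℤ), (δ = 1 ∨ δ = -1) ∧ 0 < δ * ((ev b : ℕ → ℤ) j - (ev a + Pi.single i ε : ℕ → ℤ) j) ∧
        ev a + Pi.single i ε + Pi.single j δ = (ev b : ℕ → ℤ) := by
    intro a b i ε hε hpos
    have hab : a ≠ b := by
      rintro rfl
      simp at hpos
    simp only [TFC.ev_apply] at hpos
    by_cases hib : i = b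
    · subst hib
      have hε1 : ε = 1 := by
        rcases hε with rfl | rfl
        · rfl
        · rw [if_pos rfl, if_neg hab.symm] at hpos
          norm_num at hpos
      subst hε1
      refine ⟨a, -1, Or.inr rfl, ?_, ?_⟩
      · rw [Pi.add_apply, TFC.ev_apply, TFC.ev_apply, if_neg hab, if_pos rfl, Pi.single_eq_of_ne hab]
        norm_num
      · rw [single_neg_one, single_one]
        abel
    · rw [if_neg hib] at hpos
      have hia : i = a := by
        by_contra hia
        rw [if_neg hia] at hpos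
        simp at hpos
      subst hia
      have hε1 : ε = -1 := by
        rcases hε with rfl | rfl
        · rw [if_pos rfl] at hpos
          norm_num at hpos
        · rfl
      subst hε1
      refine ⟨b, 1, Or.inl rfl, ?_, ?_⟩
      · rw [Pi.add_apply, TFC.ev_apply, TFC.ev_apply, if_pos rfl, if_neg hab.symm, Pi.single_eq_of_ne hab.symm]
        norm_num
      · rw [single_neg_one, single_one]
        abel
  rintro x (rfl | rfl) y (rfl | rfl) i ε hε hpos
  · simp at hpos
  · obtain ⟨j, δ, h1, h2, h3⟩ := key _ _ i ε hε hpos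
    exact ⟨j, δ, h1, h2, by rw [h3]; exact Or.inr rfl⟩
  · obtain ⟨j, δ, h1, h2, h3⟩ := key _ _ i ε hε hpos
    exact ⟨j, δ, h1, h2, by rw [h3]; exact Or.inl rfl⟩
  · simp at hpos

/-! ### the pieces as `PcOK` -/

theorem vec_kvec (k : List ℕ) : vec k = kvec k := by
  funext v
  rw [vec, kvec, cnt_eq]

theorem eqK_perm {k l : List ℕ} (h : eqK k l = true) : k.Perm l := by
  rw [eqK_iff] at h
  rw [List.perm_iff_count]
  intro v
  have := congrFun h v
  unfold kvec at this
  exact_mod_cast this

theorem length_ends2 (S : List Ed) : (ends2 S).length = 2 * S.length := by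
  induction S with
  | nil => rfl
  | cons e S ih =>
    have : ends2 (e :: S) = [e.1, e.2] ++ ends2 S := rfl
    rw [this, List.length_append, ih, List.length_cons]
    simp only [List.length_cons, List.length_nil]
    omega

/-- bounds for the additional vectors and the edges -/
structure PcB (m : ℕ) (p : Pc) : Prop where
  len : ∀ l ∈ p.2.2, l.length ≤ 8
  ent : ∀ l ∈ p.2.2, ∀ v ∈ l, v ≤ m
  edg : ∀ e ∈ p.2.1, e.1 ≤ m ∧ e.2 ≤ m

end Pool.Agent.PF4

end

section -- file P34/PcK3

/-!
# Pieces (triangles and squares): the relaxed pieces are sums of units cut at 2, and the pieces of the solver as `PcOK`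
-/

set_option autoImplicit false

namespace Pool.Agent.P34

open Finset Pool.Agent.TFC Pool.Agent.Lib.helper60 Pool.Agent.PF4
open scoped Pointwise

theorem JS3_le2 {E : Finset (Sym2 ℕ)} {al : Finset (Sym2 ℕ) → Prop} {x : ℕ → ℤ} (h : x ∈ JS3 E al) (v : ℕ) :
    x v ≤ 2 := by
  obtain ⟨z, _, hz, _, rfl⟩ := h
  rw [dv_apply]
  exact_mod_cast hz.le v

/-- the sum of the units of the relaxed piece, cut at 2 -/
def cutU (c : Cl3) (ch : ℕ × ℕ) : Set (ℕ → ℤ) := {z | z ∈ sumU ((rxU3 c ch).map Gd.tf) ∧ ∀ v, z v ≤ 2}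

/-! ### `K4` -/

theorem dist4_le2 {b d : ℕ} (h : b ≠ d) (v : ℕ) : ((2 : ℤ) • ev b + (2 : ℤ) • ev d : ℕ → ℤ) v ≤ 2 := by
  simp only [Pi.add_apply, Pi.smul_apply, smul_eq_mul, TFC.ev_apply]
  split_ifs <;> first | (exfalso; omega) | norm_num

theorem two_le2 (b v : ℕ) : ((2 : ℤ) • ev b : ℕ → ℤ) v ≤ 2 := by
  simp only [Pi.smul_apply, smul_eq_mul, TFC.ev_apply]
  split_ifs <;> norm_num

theorem rxP3_k4 {x y : ℕ} {L : List ℕ} (h : Cl3OK (0, x, y, L)) {ch : ℕ × ℕ} (hc : Ch3OK (0, x, y, L) ch) :
    pcS3 (rxP3 (0, x, y, L) ch) = cutU (0, x, y, L) ch := by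
  obtain ⟨w, v⟩ := ch
  have hn := h.nd
  have h4 := h.k4 rfl
  have hvL := hc.k4 rfl
  simp only at hn h4 hvL
  obtain ⟨a, b, d, hl, hD, haL, hbL, hdL⟩ := ltf_four hn h4 hvL
  obtain ⟨ab, ad, av, bd, bv, dv'⟩ := id hD
  have hX : L.toFinset = {a, b, d, v} := by
    symm
    refine Finset.eq_of_subset_of_card_le ?_ ?_
    · intro e he
      simp only [Finset.mem_insert, Finset.mem_singleton] at he
      rw [List.mem_toFinset]
      rcases he with rfl | rfl | rfl | rfl
      · exact haL
      · exact hbL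
      · exact hdL
      · exact hvL
    · rw [List.toFinset_card_of_nodup hn, h4, card_insert_of_notMem (by simp [ab, ad, av]),
        card_insert_of_notMem (by simp [bd, bv]), card_insert_of_notMem (by simp [dv']), card_singleton]
  have hU : (rxU3 (0, x, y, L) (w, v)).map Gd.tf = ur a b d v := by
    simp only [rxU3, decide_true, cond_true, hl, List.headD_cons, List.tail_cons, List.map_cons, List.map_nil,
      Gd.tf, ur]
    simp
  have hE : fs (clE3 (0, x, y, L)) = (Clu3.k4 {a, b, d, v}).edges := by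
    rw [fs_clE3]
    simp [cluF3, hX]
  have hdg : digs3 (0, x, y, L) (w, v) = [[b, b], [d, d], [b, b, d, d]] := by
    simp [digs3, hl]
  have m1 := mem_ur (a := a) (b := b) (c := d) (v := v) 0 2 0
  have m2 := mem_ur (a := a) (b := b) (c := d) (v := v) 0 0 3
  have m3 := mem_ur (a := a) (b := b) (c := d) (v := v) 0 2 3
  have e1 : (2 : ℤ) • ev b ∈ sumU (ur a b d v) := by
    convert m1 using 1
    simp [q4, w1, w2, w3]
  have e2 : (2 : ℤ) • ev d ∈ sumU (ur a b d v) := by
    convert m2 using 1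
    simp [q4, w1, w2, w3]
  have e3 : (2 : ℤ) • ev b + (2 : ℤ) • ev d ∈ sumU (ur a b d v) := by
    convert m3 using 1
    simp [q4, w1, w2, w3]
  ext z
  rw [pcS3_rxP3, pcS3_exP3, hE, cutU, hU, hdg]
  constructor
  · rintro (hz | ⟨k, hk, rfl⟩)
    · exact ⟨JS3_subset_ur hD hz, JS3_le2 hz⟩
    · simp only [List.mem_cons, List.not_mem_nil, or_false] at hk
      rcases hk with rfl | rfl | rfl
      · rw [kv2]; exact ⟨e1, two_le2 b⟩
      · rw [kv2]; exact ⟨e2, two_le2 d⟩
      · rw [kv4]; exact ⟨e3, dist4_le2 bd⟩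
  · rintro ⟨hz, hz2⟩
    rcases ur_le hD hz hz2 with h | rfl | rfl | rfl
    · exact Or.inl h
    · exact Or.inr ⟨[b, b], by simp, (kv2 b).symm⟩
    · exact Or.inr ⟨[d, d], by simp, (kv2 d).symm⟩
    · exact Or.inr ⟨[b, b, d, d], by simp, (kv4 b d).symm⟩

/-! ### `K2` -/

theorem rxP3_k2 {x y : ℕ} {L : List ℕ} (h : Cl3OK (1, x, y, L)) {ch : ℕ × ℕ} (hc : Ch3OK (1, x, y, L) ch) :
    pcS3 (rxP3 (1, x, y, L) ch) = cutU (1, x, y, L) ch := by
  have h1 := h.k2 (by simp)
  have h2 := h.k2' rfl
  have hn := h.nd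
  have hw := hc.w (by simp)
  have hcL := hc.k2 rfl
  simp only at h1 h2 hn hw hcL
  have ho : ClOK (true, x, y, L) := ⟨hn, fun _ => ⟨h1.1, h1.2.1, h1.2.2.1, h2⟩, fun h => by cases h⟩
  have key := rxP_k2 (ch := ch) ho (fun _ => ⟨hw, hcL⟩)
  have hU : rxU3 (1, x, y, L) ch = rxU (true, x, y, L) ch := by
    simp [rxU3, rxU, oth, ltf]
  have hdg : digs3 (1, x, y, L) ch = digs (true, x, y, L) ch := by
    simp [digs3, digs, ltf]
  have hE : JS3 (fs (clE3 (1, x, y, L))) noZ = JS (fs (clE (true, x, y, L))) none4 := by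
    rw [fs_clE3, fs_clE]
    simp only [cluF3, one_ne_zero, if_false, if_true, cluF, cond_true]
    exact JS3_k2 (by simpa using h1.2.1) (by simpa using h1.2.2.1)
  have e : pcS3 (rxP3 (1, x, y, L) ch) = pcS (rxP (true, x, y, L) ch) := by
    ext z
    rw [pcS3_rxP3, pcS3_exP3, pcS_rxP, pcS_exP, hE, hdg]
  rw [e, key, cutU, hU]

/-! ### `K11` -/

theorem k11_swap (x y : ℕ) (L : Finset ℕ) : (Clu3.k11 y x L).edges = (Clu3.k11 x y L).edges := by
  simp only [Clu3.edges, Clu.edges]
  rw [Sym2.eq_swap, Finset.union_comm]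

theorem perm_leaf (f : ℕ → Finset ℕ × Finset ℕ) {L : List ℕ} (hn : L.Nodup) (S : Finset ℕ)
    (hS : ∀ l, l ∈ L ↔ l ∈ S) : (L.map f).Perm (S.toList.map f) := by
  refine List.Perm.map _ ((List.perm_ext_iff_of_nodup hn (Finset.nodup_toList _)).2 fun l => ?_)
  rw [Finset.mem_toList]
  exact hS l

/-- the centre `w` and the other centre -/
theorem oth_cases {b x y w : ℕ} {L : List ℕ} (hxy : x ≠ y) (hw : w = x ∨ w = y) :
    (w = x ∧ oth (b, x, y, L) w = y) ∨ (w = y ∧ oth (b, x, y, L) w = x) := by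
  rcases hw with rfl | rfl
  · exact Or.inl ⟨rfl, by simp [oth]⟩
  · exact Or.inr ⟨rfl, by simp [oth, hxy.symm]⟩

theorem rxU3_b {b x y w : ℕ} {L : List ℕ} (h0 : b ≠ 0) (h1 : b ≠ 1) (hxy : x ≠ y) (hw : w = x ∨ w = y)
    (hn : L.Nodup) : sumU ((rxU3 (b, x, y, L) (w, w)).map Gd.tf) = sumU (ub w (oth (b, x, y, L) w) L.toFinset) := by
  obtain ⟨w', hw'⟩ : ∃ w', w' = oth (b, x, y, L) w := ⟨_, rfl⟩
  have hww : ({w, w'} : Finset ℕ) = {x, y} := by
    rcases oth_cases (b := b) (L := L) hxy hw with ⟨h2, h3⟩ | ⟨h2, h3⟩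
    · rw [hw', h3, h2]
    · rw [hw', h3, h2]
      exact Finset.pair_comm _ _
  have e : (rxU3 (b, x, y, L) (w, w)).map Gd.tf = (L.map fun l => (({l} : Finset ℕ), ({w, w'} : Finset ℕ))) ++
      [(({w} : Finset ℕ), insert w' L.toFinset)] := by
    simp only [rxU3, h0, h1, decide_false, cond_false, decide_true, cond_true, List.map_append, List.map_map,
      List.map_cons, List.map_nil, ← hw', hww]
    congr 1
    · refine List.map_congr_left fun l _ => ?_
      simp [Gd.tf]
    · simp [Gd.tf]
  rw [e, ← hw', ub]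
  exact sumU_perm (List.Perm.append_right _ (perm_leaf _ hn _ fun l => by simp))

theorem rxU3_c {b x y w m : ℕ} {L : List ℕ} (h0 : b ≠ 0) (h1 : b ≠ 1) (hxy : x ≠ y) (hw : w = x ∨ w = y)
    (hmw : m ≠ w) (hn : L.Nodup) :
    sumU ((rxU3 (b, x, y, L) (w, m)).map Gd.tf) = sumU (uc w (oth (b, x, y, L) w) m L.toFinset) := by
  obtain ⟨w', hw'⟩ : ∃ w', w' = oth (b, x, y, L) w := ⟨_, rfl⟩
  have hww : ({w, w'} : Finset ℕ) = {x, y} := by
    rcases oth_cases (b := b) (L := L) hxy hw with ⟨h2, h3⟩ | ⟨h2, h3⟩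
    · rw [hw', h3, h2]
    · rw [hw', h3, h2]
      exact Finset.pair_comm _ _
  have e : (rxU3 (b, x, y, L) (w, m)).map Gd.tf =
      ((ltf m L).map fun l => (({l} : Finset ℕ), ({w, w'} : Finset ℕ))) ++
      [(({w} : Finset ℕ), insert w' L.toFinset), (({w'} : Finset ℕ), ({m, w} : Finset ℕ))] := by
    simp only [rxU3, h0, h1, hmw, decide_false, cond_false, List.map_append, List.map_map,
      List.map_cons, List.map_nil, ← hw', hww]
    congr 1
    · refine List.map_congr_left fun l _ => ?_
      simp [Gd.tf]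
    · simp [Gd.tf]
  rw [e, ← hw', uc]
  refine sumU_perm (List.Perm.append_right _ (perm_leaf _ (hn.filter _) _ fun l => ?_))
  have h := mem_ltf (a := m) (l := l) (L := L)
  unfold ltf at h
  rw [h, Finset.mem_erase, List.mem_toFinset]
  exact and_comm

theorem rxP3_k11 {b x y : ℕ} {L : List ℕ} (h0 : b ≠ 0) (h1 : b ≠ 1) (h : Cl3OK (b, x, y, L)) {ch : ℕ × ℕ}
    (hc : Ch3OK (b, x, y, L) ch) : pcS3 (rxP3 (b, x, y, L) ch) = cutU (b, x, y, L) ch := by
  obtain ⟨w, m⟩ := ch
  have hb : b = 2 := by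
    have := h.kd
    simp only at this
    omega
  obtain ⟨hxy, hxL, hyL, _⟩ := h.k2 h0
  have hn := h.nd
  have hw := hc.w h0
  have hm := hc.k11 hb
  simp only at hxy hxL hyL hn hw hm
  obtain ⟨w', hw'⟩ : ∃ w', w' = oth (b, x, y, L) w := ⟨_, rfl⟩
  have hoc := oth_cases (b := b) (L := L) hxy hw
  rw [← hw'] at hoc
  have hww : w ≠ w' := by
    rcases hoc with ⟨rfl, rfl⟩ | ⟨rfl, rfl⟩
    · exact hxy
    · exact hxy.symm
  have hwL : w ∉ L.toFinset := by
    rcases hoc with ⟨rfl, rfl⟩ | ⟨rfl, rfl⟩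
    · simpa using hxL
    · simpa using hyL
  have hwL' : w' ∉ L.toFinset := by
    rcases hoc with ⟨rfl, rfl⟩ | ⟨rfl, rfl⟩
    · simpa using hyL
    · simpa using hxL
  have hE : fs (clE3 (b, x, y, L)) = (Clu3.k11 w w' L.toFinset).edges := by
    rw [fs_clE3]
    simp only [cluF3, h0, h1, if_false]
    rcases hoc with ⟨rfl, rfl⟩ | ⟨rfl, rfl⟩
    · rfl
    · exact k11_swap _ _ _
  have leafne : ∀ l ∈ L, l ≠ w ∧ l ≠ w' := by
    intro l hl
    exact ⟨fun e => hwL (by simpa using e ▸ hl), fun e => hwL' (by simpa using e ▸ hl)⟩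
  by_cases hmw : m = w
  · subst hmw
    have hdg : digs3 (b, x, y, L) (m, m) = L.map fun l => [m, m, l, l] := by
      simp [digs3, h0, h1]
    ext z
    rw [pcS3_rxP3, pcS3_exP3, hE, cutU, hdg]
    rw [Set.mem_ofPred_eq, rxU3_b h0 h1 hxy hw hn, ← hw']
    constructor
    · rintro (hz | ⟨k, hk, rfl⟩)
      · exact ⟨JS3_subset_ub hww hwL hwL' hz, JS3_le2 hz⟩
      · obtain ⟨l, hl, rfl⟩ := List.mem_map.1 hk
        rw [kv4, ← xK_one (w' := w')]
        refine ⟨mem_ub (by simpa using hl) (by simp) (by simp) (Or.inr ⟨l, by simp [hl], rfl⟩), ?_⟩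
        rw [xK_one]
        exact dist4_le2 (leafne l hl).1.symm
    · rintro ⟨hz, hz2⟩
      rcases ub_le hww hwL hwL' hz hz2 with h | ⟨l, hl, rfl⟩
      · exact Or.inl h
      · exact Or.inr ⟨[m, m, l, l], List.mem_map.2 ⟨l, by simpa using hl, rfl⟩, (kv4 m l).symm⟩
  · have hmL : m ∈ L := hm.resolve_left hmw
    have hdg : digs3 (b, x, y, L) (w, m) = ((ltf m L).map fun l => [w, w, l, l]) ++ ([w, w, w', w'] ::
        ((ltf m L).map fun l => [w, w, w', w', l, l])) := by
      simp [digs3, h0, h1, hmw, ← hw']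
    ext z
    rw [pcS3_rxP3, pcS3_exP3, hE, cutU, hdg]
    rw [Set.mem_ofPred_eq, rxU3_c h0 h1 hxy hw hmw hn, ← hw']
    constructor
    · rintro (hz | ⟨k, hk, rfl⟩)
      · exact ⟨JS3_subset_uc hww hwL hwL' (by simpa using hmL) hz, JS3_le2 hz⟩
      · simp only [List.mem_append, List.mem_cons, List.mem_map, mem_ltf] at hk
        rcases hk with ⟨l, ⟨hl, hlm⟩, rfl⟩ | rfl | ⟨l, ⟨hl, hlm⟩, rfl⟩
        · have hx := mem_uc (x := w) (y := w') (c := m) (L := L.toFinset) (P := {l}) (Q := ∅) (u1 := ev w + ev l)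
            (u2 := 0) (by simp [hl, hlm]) (by simp) (by simp) (Or.inr ⟨l, by simp [hl], rfl⟩) (Or.inl rfl)
          rw [add_zero, xK_one] at hx
          rw [kv4]
          exact ⟨hx, dist4_le2 (leafne l hl).1.symm⟩
        · have hx := mem_uc (x := w) (y := w') (c := m) (L := L.toFinset) (P := ∅) (Q := ∅) (u1 := ev w + ev w')
            (u2 := ev w' + ev w) (by simp) (by simp) (by simp) (Or.inr ⟨w', by simp, rfl⟩) (Or.inr (Or.inr rfl))
          have e : xK w w' ∅ ∅ + (ev w + ev w') + (ev w' + ev w) = (2 : ℤ) • ev w + (2 : ℤ) • ev w' := by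
            rw [xK_nil]
            module
          rw [e] at hx
          rw [kv4]
          exact ⟨hx, dist4_le2 hww⟩
        · have hx := mem_uc (x := w) (y := w') (c := m) (L := L.toFinset) (P := ∅) (Q := {l}) (u1 := ev w + ev l)
            (u2 := ev w' + ev w) (by simp) (by simp [hl, hlm]) (by simp) (Or.inr ⟨l, by simp [hl], rfl⟩)
            (Or.inr (Or.inr rfl))
          have e : xK w w' ∅ {l} + (ev w + ev l) + (ev w' + ev w) =
              (2 : ℤ) • ev w + (2 : ℤ) • ev w' + (2 : ℤ) • ev l := by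
            rw [xK_eraseB (mem_singleton_self l), erase_singleton, xK_nil]
            module
          rw [e] at hx
          rw [kv6]
          refine ⟨hx, fun v => ?_⟩
          have := leafne l hl
          simp only [Pi.add_apply, Pi.smul_apply, smul_eq_mul, TFC.ev_apply]
          split_ifs <;> first | (exfalso; omega) | norm_num
    · rintro ⟨hz, hz2⟩
      rcases uc_le hww hwL hwL' (by simpa using hmL) hz hz2 with h | ⟨l, hl, hlm, rfl⟩ | rfl | ⟨l, hl, hlm, rfl⟩
      · exact Or.inl h
      · refine Or.inr ⟨[w, w, l, l], ?_, (kv4 w l).symm⟩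
        rw [List.mem_append]
        exact Or.inl (List.mem_map.2 ⟨l, mem_ltf.2 ⟨by simpa using hl, hlm⟩, rfl⟩)
      · refine Or.inr ⟨[w, w, w', w'], ?_, (kv4 w w').symm⟩
        simp
      · refine Or.inr ⟨[w, w, w', w', l, l], ?_, (kv6 w w' l).symm⟩
        rw [List.mem_append, List.mem_cons]
        exact Or.inr (Or.inr (List.mem_map.2 ⟨l, mem_ltf.2 ⟨by simpa using hl, hlm⟩, rfl⟩))

/-- **the relaxed piece is the sum of its units, cut at 2** -/
theorem rxP3_eq {c : Cl3} (h : Cl3OK c) {ch : ℕ × ℕ} (hc : Ch3OK c ch) :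
    pcS3 (rxP3 c ch) = {z | z ∈ sumU ((rxU3 c ch).map Gd.tf) ∧ ∀ v, z v ≤ 2} := by
  obtain ⟨b, x, y, L⟩ := c
  by_cases h0 : b = 0
  · subst h0
    exact rxP3_k4 h hc
  · by_cases h1 : b = 1
    · subst h1
      exact rxP3_k2 h hc
    · exact rxP3_k11 h0 h1 h hc

/-! ### jump sets -/

theorem pcS3_plain (E : List Ed) : pcS3 (true, E, []) = JS3 (fs E) noZ := by
  ext x
  simp [pcS3]

theorem jump3_plain (E : List Ed) : Jump (pcS3 (true, E, [])) := by
  rw [pcS3_plain]
  exact jump_JS3 _

theorem jump_exP3 (c : Cl3) : Jump (pcS3 (exP3 c)) := jump3_plain (clE3 c)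

theorem jump_rxP3 {c : Cl3} (h : Cl3OK c) {ch : ℕ × ℕ} (hc : Ch3OK c ch) : Jump (pcS3 (rxP3 c ch)) := by
  rw [rxP3_eq h hc]
  exact jump_sumU_box _

/-- pieces without edges: nothing changes -/
theorem pcS3_nil (b : Bool) (X : List (List ℕ)) : pcS3 (b, [], X) = pcS (b, [], X) := by
  have hJ : JS3 (fs ([] : List Ed)) noZ = JS (fs []) none4 := by
    ext x
    constructor
    · rintro ⟨z, hz, hM, hg, rfl⟩
      exact ⟨z, hz, hM, ((gd_noZ_iff hM.nl).1 hg).1, rfl⟩
    · rintro ⟨z, hz, hM, hg, rfl⟩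
      refine ⟨z, hz, hM, (gd_noZ_iff hM.nl).2 ⟨hg, ?_⟩, rfl⟩
      intro a b c h
      have := hz h
      rw [fs_nil] at this
      exact absurd this (Finset.notMem_empty _)
  ext x
  show ((∃ k ∈ X, x = kvec k) ∨ (b = true ∧ x ∈ JS3 (fs ([] : List Ed)) noZ)) ↔
    ((∃ k ∈ X, x = kvec k) ∨ (b = true ∧ x ∈ JS (fs ([] : List Ed)) none4))
  rw [hJ]

theorem jump3_pair (u v : ℕ) : Jump (pcS3 (true, [], [[u, v]])) := by
  rw [pcS3_nil]
  exact jump_pair u v

theorem jump3_alt (u v : ℕ) : Jump (pcS3 (false, [], [[u], [v]])) := by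
  rw [pcS3_nil]
  exact jump_alt u v

/-! ### the pieces as `PcOK` -/

theorem pcok3 {m : ℕ} {p : Pc} (hb : PcB m p) (hc : Card43 p) (hJ : Jump (pcS3 p)) : PcOK pmem3 m p := by
  have key : ∀ k, pmem3 p k = true → ∃ l, k.Perm l ∧ l.length ≤ 8 ∧ ∀ v ∈ l, v ≤ m := by
    intro k hk
    unfold pmem3 at hk
    rw [Bool.or_eq_true, Bool.and_eq_true, List.any_eq_true, List.any_eq_true] at hk
    rcases hk with ⟨l, hl, h1⟩ | ⟨_, S, hS, h1⟩
    · exact ⟨l, eqK_perm h1, hb.len l hl, hb.ent l hl⟩
    · rw [Bool.and_eq_true] at h1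
      obtain ⟨h2, h3⟩ := mem_subs.1 hS
      refine ⟨ends2 S, eqK_perm h1.2, by rw [length_ends2]; omega, ?_⟩
      intro v hv
      simp only [ends2, List.mem_flatMap, List.mem_cons, List.not_mem_nil, or_false] at hv
      obtain ⟨e, he, rfl | rfl⟩ := hv
      · exact (hb.edg e (h3 e he)).1
      · exact (hb.edg e (h3 e he)).2
  refine PcOK.of hJ (fun k => ?_) ?_ ?_
  · rw [vec_kvec]
    exact pmem3_iff hc k
  · intro k hk
    obtain ⟨l, h1, h2, _⟩ := key k hk
    rw [h1.length_eq]
    exact h2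
  · intro k hk v hv
    obtain ⟨l, h1, _, h2⟩ := key k hk
    exact h2 v (h1.mem_iff.1 hv)

/-- all entries of the cluster are at most `m` -/
def Cl3B (m : ℕ) (c : Cl3) : Prop := (∀ l ∈ c.2.2.2, l ≤ m) ∧ (c.1 ≠ 0 → c.2.1 ≤ m ∧ c.2.2.1 ≤ m)

theorem clE3_le {m : ℕ} {c : Cl3} (h : Cl3B m c) : ∀ e ∈ clE3 c, e.1 ≤ m ∧ e.2 ≤ m := by
  obtain ⟨b, x, y, L⟩ := c
  obtain ⟨h1, h2⟩ := h
  simp only at h1 h2
  intro e he
  by_cases h0 : b = 0
  · simp only [clE3, h0, decide_true, cond_true, prs, List.mem_filter, mem_prd] at he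
    exact ⟨h1 _ he.1.1, h1 _ he.1.2⟩
  · obtain ⟨h3, h4⟩ := h2 h0
    simp only [clE3, h0, decide_false, cond_false, List.mem_append, List.mem_map] at he
    rcases he with he | ⟨l, hl, rfl⟩ | ⟨l, hl, rfl⟩
    · unfold hubE at he
      by_cases h5 : b = 1
      · simp [h5] at he
      · simp only [h5, decide_false, cond_false, List.mem_singleton] at he
        rw [he]
        exact ⟨h3, h4⟩
    · exact ⟨h3, h1 l hl⟩
    · exact ⟨h4, h1 l hl⟩

theorem pcb_exP3 {m : ℕ} {c : Cl3} (h : Cl3B m c) : PcB m (exP3 c) :=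
  ⟨by simp [exP3], by simp [exP3], clE3_le h⟩

theorem pcb_rxP3 {m : ℕ} {c : Cl3} (h : Cl3B m c) (ho : Cl3OK c) {ch : ℕ × ℕ} (hc : Ch3OK c ch) :
    PcB m (rxP3 c ch) := by
  have key : ∀ d ∈ digs3 c ch, d.length ≤ 8 ∧ ∀ v ∈ d, v ≤ m := by
    obtain ⟨b, x, y, L⟩ := c
    obtain ⟨w, r⟩ := ch
    obtain ⟨h1, h2⟩ := h
    simp only at h1 h2
    intro d hd
    by_cases h0 : b = 0
    · subst h0
      have hn := ho.nd
      have h4 := ho.k4 rfl
      have hvL := hc.k4 rfl
      simp only at hn h4 hvL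
      obtain ⟨a, b, e, hl, -, haL, hbL, heL⟩ := ltf_four hn h4 hvL
      simp only [digs3, decide_true, cond_true, hl, List.tail_cons, List.headD_cons, List.mem_cons,
        List.not_mem_nil, or_false] at hd
      have hb := h1 b hbL
      have he := h1 e heL
      rcases hd with rfl | rfl | rfl
      · exact ⟨by simp, by simpa using hb⟩
      · exact ⟨by simp, by simpa using he⟩
      · exact ⟨by simp, by simpa using ⟨hb, he⟩⟩
    · obtain ⟨h3, h4⟩ := h2 h0
      have hw : w ≤ m := by
        rcases hc.w h0 with e | e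
        · simp only at e
          rw [e]; exact h3
        · simp only at e
          rw [e]; exact h4
      have hw' : oth (b, x, y, L) w ≤ m := by
        unfold oth
        split_ifs
        · exact h4
        · exact h3
      have k4 : ∀ l ∈ L, ([w, w, l, l] : List ℕ).length ≤ 8 ∧ ∀ v ∈ [w, w, l, l], v ≤ m := by
        intro l hl
        exact ⟨by simp, by simpa using ⟨hw, h1 l hl⟩⟩
      by_cases h5 : b = 1
      · subst h5
        simp only [digs3, one_ne_zero, decide_false, cond_false, decide_true, cond_true, List.mem_map,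
          mem_ltf] at hd
        obtain ⟨l, hl, rfl⟩ := hd
        exact k4 l hl.1
      · by_cases h6 : r = w
        · simp only [digs3, h0, h5, h6, decide_false, cond_false, decide_true, cond_true, List.mem_map] at hd
          obtain ⟨l, hl, rfl⟩ := hd
          exact k4 l hl
        · simp only [digs3, h0, h5, h6, decide_false, cond_false, List.mem_append, List.mem_cons, List.mem_map,
            mem_ltf] at hd
          rcases hd with ⟨l, hl, rfl⟩ | rfl | ⟨l, hl, rfl⟩
          · exact k4 l hl.1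
          · exact ⟨by simp, by simpa using ⟨hw, hw'⟩⟩
          · exact ⟨by simp, by simpa using ⟨hw, hw', h1 l hl.1⟩⟩
  exact ⟨fun l hl => (key l hl).1, fun l hl => (key l hl).2, clE3_le h⟩

theorem pcok_exP3 {m : ℕ} {c : Cl3} (h : Cl3B m c) (ho : Cl3OK c) : PcOK pmem3 m (exP3 c) :=
  pcok3 (pcb_exP3 h) (card43_exP3 ho) (jump_exP3 c)

theorem pcok_rxP3 {m : ℕ} {c : Cl3} (h : Cl3B m c) (ho : Cl3OK c) {ch : ℕ × ℕ} (hc : Ch3OK c ch) :
    PcOK pmem3 m (rxP3 c ch) :=
  pcok3 (pcb_rxP3 h ho hc) (card43_rxP3 ho ch) (jump_rxP3 ho hc)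

theorem card43_nil (X : List (List ℕ)) : Card43 (true, [], X) := by
  intro _ z hz _ _
  have : z = ∅ := Finset.subset_empty.1 hz
  rw [this]
  simp

theorem card43_edge (e : Ed) (X : List (List ℕ)) : Card43 (true, [e], X) := by
  intro _ z hz _ _
  have h1 := Finset.card_le_card hz
  have h2 : #(fs [e]) ≤ 1 := by
    rw [fs_cons, fs_nil]
    exact (Finset.card_insert_le _ _).trans (by simp)
  simp only at h1
  omega

theorem pcok3_edge {m : ℕ} {e : Ed} (h1 : e.1 ≤ m) (h2 : e.2 ≤ m) : PcOK pmem3 m (true, [e], []) :=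
  pcok3 ⟨by simp, by simp, by simpa using ⟨h1, h2⟩⟩ (card43_edge e []) (jump3_plain [e])

theorem pcok3_pair {m u v : ℕ} (h1 : u ≤ m) (h2 : v ≤ m) : PcOK pmem3 m (true, [], [[u, v]]) :=
  pcok3 ⟨by simp, by simpa using ⟨h1, h2⟩, by simp⟩ (card43_nil _) (jump3_pair u v)

theorem pcok3_alt {m u v : ℕ} (h1 : u ≤ m) (h2 : v ≤ m) : PcOK pmem3 m (false, [], [[u], [v]]) :=
  pcok3 ⟨by simp, by simpa using ⟨h1, h2⟩, by simp⟩ (fun h => by cases h) (jump3_alt u v)

end Pool.Agent.P34

end

section -- file PF4/CapD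

/-!
2-factors without 4-cycles in polynomial time: correctness of the round gadget.
-/

set_option autoImplicit false

namespace Pool.Agent.PF4.Gd

open Finset

theorem capB_get {n J : ℕ} (τ : List ℕ) {x : ℕ} (hx : x < capN n J) :
    (capB n τ J).getD x 0 = if x < n then τ.getD x 0 + 1 else if x < c0 n then 1 else 2 := by
  unfold capB
  rw [List.getD_eq_getElem _ _ (by simpa using hx)]
  rw [List.getElem_map, List.getElem_range]
  by_cases h1 : x < n
  · rw [if_pos h1, decide_eq_true h1, cond_true]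
  · rw [if_neg h1, decide_eq_false h1, cond_false]
    by_cases h2 : x < c0 n
    · rw [if_pos h2, decide_eq_true h2, cond_true]
    · rw [if_neg h2, decide_eq_false h2, cond_false]

theorem md_lt {n y : ℕ} (hn : 0 < n) : md n y < n := by
  rw [md_eq hn]; exact Nat.mod_lt _ hn

/-- the token -/
theorem tok_ch {N n : ℕ} {Um Up : List ℕ} {c : List (ℕ × ℕ)} (h : ChU N (tok n Um Up) c)
    (h2 : useU c (2 * n) = 1) : ∃ s, c = [(s, 2 * n)] ∧ ((s ∈ Um ∧ s < n) ∨
      ∃ v₀ ∈ Up, v₀ < n ∧ s = n + v₀) := by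
  rcases h with rfl | ⟨s, hs, t, ht, _, _, rfl⟩
  · simp [useU_nil] at h2
  · simp only [tok, List.mem_singleton, List.mem_append, List.mem_filter, List.mem_map,
      decide_eq_true_eq] at hs ht
    subst ht
    refine ⟨s, rfl, ?_⟩
    rcases hs with hs | ⟨v, ⟨hv, hv'⟩, rfl⟩
    · exact Or.inl hs
    · exact Or.inr ⟨v, hv, hv', rfl⟩

/-- what a choice of the round gadget looks like -/
theorem cap_fwd {n : ℕ} {τ : List ℕ} {ps : List (List (List ℕ × List ℕ))} {Um Up : List ℕ}
    {C : List (List (ℕ × ℕ))}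
    (h : Ch (capN n ps.length) (capU n ps Um Up) (capB n τ ps.length) (capB n τ ps.length) C) :
    ∃ (C0 R : List (List (ℕ × ℕ))) (s : ℕ) (D : List (List (List (ℕ × ℕ)))) (φ : ℕ → ℕ),
      C = C0 ++ (R ++ [[(s, 2 * n)]]) ∧
      (R ++ [[(s, 2 * n)]]).length = n * ps.length + (n * ps.length + (n * ps.length +
        (n * ps.length + (n + 1)))) ∧
      List.Forall₂ (List.Forall₂ (ChU n)) ps D ∧
      (∀ j < ps.length, ∀ v < n, use C0 (c0 n + n * j + v) = use (D.getD j []) v ∧
        use (D.getD j []) v ≤ 2) ∧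
      ((s ∈ Um ∧ s < n) ∨ ∃ v₀ ∈ Up, v₀ < n ∧ s = n + v₀) ∧
      (∀ v < n, φ v + (if s = n + v then 1 else 0) = 1) ∧
      ∀ v < n, ∑ j ∈ range ps.length, use (D.getD j []) v + φ v + (if s = v then 1 else 0) =
        τ.getD v 0 + 1 := by
  have hb : ∀ x < capN n ps.length, use C x =
      if x < n then τ.getD x 0 + 1 else if x < c0 n then 1 else 2 := by
    intro x hx
    rw [← capB_get τ hx]
    exact le_antisymm (h.hi x hx) (h.lo x hx)
  have hN : capN n ps.length = c0 n + n * ps.length + n * ps.length := rfl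
  have hc0 : c0 n = 2 * n + 1 := rfl
  rw [hN] at hb
  obtain ⟨C0, T0, e0, g0, r0⟩ := f2_split h.ch
  obtain ⟨C1, T1, e1, g1, r1⟩ := f2_split r0
  obtain ⟨C2, T2, e2, g2, r2⟩ := f2_split r1
  obtain ⟨C3, T3, e3, g3, r3⟩ := f2_split r2
  obtain ⟨C4, T4, e4, g4, r4⟩ := f2_split r3
  obtain ⟨C5, C6, e5, g5, g6⟩ := f2_split r4
  obtain ⟨D, hD, u0, z0⟩ := pcU_fwd g0
  obtain ⟨χ1, k1, u1⟩ := sU_use g1
  obtain ⟨χ2, k2, u2⟩ := sU_use g2
  obtain ⟨ψ1, k3, u3⟩ := sU_use g3
  obtain ⟨ψ2, k4, u4⟩ := sU_use g4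
  obtain ⟨φ, k5, u5⟩ := sU_use g5
  obtain ⟨c6, e6, g7⟩ : ∃ c6, C6 = [c6] ∧ ChU (capN n ps.length) (tok n Um Up) c6 := by
    cases g6 with
    | cons a b =>
      cases b
      exact ⟨_, rfl, a⟩
  have hu : ∀ x, use C x = use C0 x +
      (sX (n * ps.length) (fun y => c0 n + y) (fun y => c0 n + n * ps.length + y) χ1 x +
      (sX (n * ps.length) (fun y => c0 n + y) (fun y => c0 n + n * ps.length + y) χ2 x +
      (sX (n * ps.length) (fun y => c0 n + n * ps.length + y) (fun y => md n y) ψ1 x +
      (sX (n * ps.length) (fun y => c0 n + n * ps.length + y) (fun y => md n y) ψ2 x +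
      (sX n (fun v => v) (fun v => n + v) φ x + useU c6 x))))) := by
    intro x
    rw [e0, e1, e2, e3, e4, e5, e6, use_append, use_append, use_append, use_append, use_append,
      use_append, u1, u2, u3, u4, u5, use_cons, use_nil]
    rfl
  generalize hM : n * ps.length = M at *
  -- the value at `2 * n`
  have q0 := hb (2 * n) (by omega)
  rw [if_neg (by omega), if_pos (by omega), hu, z0 _ (Or.inl (by omega)),
    sX_zero (fun i _ => ⟨by omega, by omega⟩), sX_zero (fun i _ => ⟨by omega, by omega⟩),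
    sX_zero (fun i hi => ⟨by omega, by
      have hn : 0 < n := by
        rcases Nat.eq_zero_or_pos n with h0 | h0
        · rw [h0, zero_mul] at hM; omega
        · exact h0
      have := md_lt (y := i) hn
      omega⟩),
    sX_zero (fun i hi => ⟨by omega, by
      have hn : 0 < n := by
        rcases Nat.eq_zero_or_pos n with h0 | h0
        · rw [h0, zero_mul] at hM; omega
        · exact h0
      have := md_lt (y := i) hn
      omega⟩),
    sX_zero (fun i hi => ⟨by omega, by omega⟩)] at q0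
  obtain ⟨s, rfl, hs⟩ := tok_ch g7 (by omega)
  have hs2 : s < 2 * n := by
    rcases hs with hs | ⟨v₀, _, hv, rfl⟩ <;> omega
  -- the values at the slots
  have q1 : ∀ y < M, use C0 (c0 n + y) + χ1 y + χ2 y = 2 := by
    intro y hy
    have hn : 0 < n := by
      rcases Nat.eq_zero_or_pos n with h0 | h0
      · rw [h0, zero_mul] at hM; omega
      · exact h0
    have q := hb (c0 n + y) (by omega)
    rw [if_neg (by omega), if_neg (by omega), hu,
      sX_one (y := y) hy (fun i _ => by omega) (fun i _ => by omega),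
      sX_one (y := y) hy (fun i _ => by omega) (fun i _ => by omega),
      sX_zero (fun i _ => ⟨by omega, by have := md_lt (y := i) hn; omega⟩),
      sX_zero (fun i _ => ⟨by omega, by have := md_lt (y := i) hn; omega⟩),
      sX_zero (fun i _ => ⟨by omega, by omega⟩),
      useU_single, if_neg (by omega), if_neg (by omega)] at q
    omega
  have q2 : ∀ y < M, χ1 y + χ2 y + ψ1 y + ψ2 y = 2 := by
    intro y hy
    have hn : 0 < n := by
      rcases Nat.eq_zero_or_pos n with h0 | h0
      · rw [h0, zero_mul] at hM; omega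
      · exact h0
    have q := hb (c0 n + M + y) (by omega)
    rw [if_neg (by omega), if_neg (by omega), hu, z0 _ (Or.inr (by omega)),
      sX_two (y := y) hy (fun i _ => by omega) (fun i _ => by omega),
      sX_two (y := y) hy (fun i _ => by omega) (fun i _ => by omega),
      sX_one (y := y) hy (fun i _ => by omega) (fun i _ => by have := md_lt (y := i) hn; omega),
      sX_one (y := y) hy (fun i _ => by omega) (fun i _ => by have := md_lt (y := i) hn; omega),
      sX_zero (fun i _ => ⟨by omega, by omega⟩),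
      useU_single, if_neg (by omega), if_neg (by omega)] at q
    omega
  have q3 : ∀ y < M, use C0 (c0 n + y) = ψ1 y + ψ2 y := by
    intro y hy
    have a1 := q1 y hy
    have a2 := q2 y hy
    omega
  have q4 : ∀ j < ps.length, ∀ v < n, n * j + v < M := by
    intro j hj v hv
    rw [← hM]
    exact lin_lt_swap hv hj
  refine ⟨C0, C1 ++ (C2 ++ (C3 ++ (C4 ++ C5))), s, D, φ, ?_, ?_, hD, ?_, hs, ?_, ?_⟩
  · rw [e0, e1, e2, e3, e4, e5, e6]
    simp only [List.append_assoc]
  · have l1 := g1.length_eq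
    have l2 := g2.length_eq
    have l3 := g3.length_eq
    have l4 := g4.length_eq
    have l5 := g5.length_eq
    rw [sU_length] at l1 l2 l3 l4 l5
    simp only [List.length_append, List.length_singleton]
    omega
  · intro j hj v hv
    have a1 := u0 j hj v hv
    refine ⟨a1, ?_⟩
    have hy := q4 j hj v hv
    have a2 := q3 (n * j + v) hy
    rw [← add_assoc] at a2
    rw [← a1, a2]
    have := k3 _ hy
    have := k4 _ hy
    omega
  · intro v hv
    have q := hb (n + v) (by omega)
    rw [if_neg (by omega), if_pos (by omega), hu, z0 _ (Or.inl (by omega)),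
      sX_zero (fun i _ => ⟨by omega, by omega⟩), sX_zero (fun i _ => ⟨by omega, by omega⟩),
      sX_zero (fun i _ => ⟨by omega, by have := md_lt (n := n) (y := i) (by omega); omega⟩),
      sX_zero (fun i _ => ⟨by omega, by have := md_lt (n := n) (y := i) (by omega); omega⟩),
      sX_two (y := v) hv (fun i _ => by omega) (fun i _ => by omega),
      useU_single, if_neg (show ¬ 2 * n = n + v by omega)] at q
    omega
  · intro v hv
    have q := hb v (by omega)
    rw [if_pos hv, hu, z0 _ (Or.inl (by omega)),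
      sX_zero (fun i _ => ⟨by omega, by omega⟩), sX_zero (fun i _ => ⟨by omega, by omega⟩),
      sX_g (fun i _ => by omega), sX_g (fun i _ => by omega),
      sX_one (y := v) hv (fun i _ => by omega) (fun i _ => by omega),
      useU_single, if_neg (show ¬ 2 * n = v by omega)] at q
    rw [← hM, sum_blocks n _ v hv, sum_blocks n _ v hv] at q
    have e : ∑ j ∈ range ps.length, use (D.getD j []) v =
        ∑ j ∈ range ps.length, ψ1 (n * j + v) + ∑ j ∈ range ps.length, ψ2 (n * j + v) := by
      rw [← Finset.sum_add_distrib]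
      refine Finset.sum_congr rfl fun j hj => ?_
      have hj := Finset.mem_range.1 hj
      rw [← u0 j hj v hv, add_assoc, q3 _ (q4 j hj v hv)]
    rw [e]
    omega

theorem range_sum_getD {β : Type*} (F : β → ℕ) (d : β) (l : List β) {J : ℕ} (hJ : l.length = J) :
    (l.map F).sum = ∑ j ∈ range J, F (l.getD j d) := by
  subst hJ
  rw [← sum_getD F d l, Finset.sum_range]

/-- the output of the round gadget is a configuration at an unknown port -/
theorem cap_ok {n : ℕ} {τ : List ℕ} {ps : List (List (List ℕ × List ℕ))} {Um Up : List ℕ}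
    (h : capF n τ ps Um Up = true) :
    Cfg n τ ps Um Up (capS n τ ps Um Up) (capP n τ ps Um Up) := by
  have h1 := sel_ok h
  change Ch _ _ _ _ (capC n τ ps Um Up) at h1
  obtain ⟨C0, R, s, D, φ, e1, e2, hD, hu, hs, hφ, hv⟩ := cap_fwd h1
  have eD : capD n τ ps Um Up = C0.reverse := by
    unfold capD
    rw [e1, List.reverse_append, List.drop_left' (by rw [List.length_reverse, e2])]
  have eP : capP n τ ps Um Up = s := by
    unfold capP
    rw [e1, ← List.append_assoc, List.reverse_append]
    rfl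
  have hDl : D.length = ps.length := hD.length_eq.symm
  have hcnt : ∀ j < ps.length, ∀ v,
      (blk n (c0 n + n * j) (vec (capD n τ ps Um Up))).count v = use (D.getD j []) v ∧
        use (D.getD j []) v ≤ 2 := by
    intro j hj v
    rw [count_blk, eD, count_vec, use_reverse]
    by_cases hv : v < n
    · rw [if_pos hv]; exact hu j hj v hv
    · rw [if_neg hv]
      have h2 := (List.forall₂_iff_get.1 hD).2 j hj (by rwa [hDl])
      rw [List.getD_eq_getElem _ _ (by rwa [hDl])]
      simp only [List.get_eq_getElem] at h2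
      have := use_zero h2 (not_lt.1 hv)
      omega
  have hsum : ∀ v, ((capS n τ ps Um Up).map fun k => k.count v).sum =
      ∑ j ∈ range ps.length, use (D.getD j []) v := by
    intro v
    unfold capS
    rw [List.map_map, list_sum_range]
    refine Finset.sum_congr rfl fun j hj => ?_
    exact (hcnt j (Finset.mem_range.1 hj) v).1
  refine ⟨?_, ?_⟩
  · rw [List.forall₂_iff_get]
    refine ⟨by simp [capS], ?_⟩
    intro j hj hj'
    have h2 := (List.forall₂_iff_get.1 hD).2 j hj (by rwa [hDl])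
    refine ⟨D.getD j [], ?_, ?_⟩
    · rw [List.getD_eq_getElem _ _ (by rwa [hDl])]
      simpa using h2
    · intro v
      have h3 := hcnt j hj v
      simp only [capS, List.get_eq_getElem, List.getElem_map, List.getElem_range]
      exact ⟨h3.1, by rw [h3.1]; exact h3.2⟩
  · rw [eP]
    rcases hs with ⟨hs, hs'⟩ | ⟨v₀, hv₀, hv₀', rfl⟩
    · left
      refine ⟨hs, hs', ?_⟩
      intro v hv'
      have a1 := hφ v hv'
      have a2 := hv v hv'
      rw [hsum]
      rw [if_neg (by omega)] at a1
      omega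
    · right
      refine ⟨v₀, hv₀, hv₀', rfl, ?_⟩
      intro v hv'
      have a1 := hφ v hv'
      have a2 := hv v hv'
      rw [hsum]
      rw [if_neg (by omega)] at a2
      have e : (n + v₀ = n + v) ↔ v₀ = v := by omega
      simp only [e] at a1
      omega

/-- choices for the pieces -/
theorem pv_choices {n : ℕ} {ps : List (List (List ℕ × List ℕ))} {ks : List (List ℕ)}
    (h : List.Forall₂ (PV n) ps ks) :
    ∃ D : List (List (List (ℕ × ℕ))), List.Forall₂ (List.Forall₂ (ChU n)) ps D ∧
      (∀ j < ps.length, ∀ v, use (D.getD j []) v ≤ 2) ∧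
      ∀ v, (ks.map fun k => k.count v).sum = ∑ j ∈ range ps.length, use (D.getD j []) v := by
  have h1 : ∃ D : List (List (List (ℕ × ℕ))), List.Forall₂ (List.Forall₂ (ChU n)) ps D ∧
      List.Forall₂ (fun (k : List ℕ) d => ∀ v, k.count v = use d v ∧ k.count v ≤ 2) ks D := by
    induction h with
    | nil => exact ⟨[], List.Forall₂.nil, List.Forall₂.nil⟩
    | cons a _ ih =>
      obtain ⟨D, h1, h2⟩ := ih
      obtain ⟨d, h3, h4⟩ := a
      exact ⟨d :: D, List.Forall₂.cons h3 h1, List.Forall₂.cons h4 h2⟩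
  obtain ⟨D, h1, h2⟩ := h1
  have hDl : D.length = ps.length := h1.length_eq.symm
  refine ⟨D, h1, ?_, ?_⟩
  · intro j hj v
    have h3 := (List.forall₂_iff_get.1 h2).2 j (by rw [h2.length_eq, hDl]; exact hj) (by rwa [hDl]) v
    rw [List.getD_eq_getElem _ _ (by rwa [hDl])]
    simp only [List.get_eq_getElem] at h3
    omega
  · intro v
    rw [← range_sum_getD (fun d => use d v) [] D hDl]
    have h3 : ∀ {ks : List (List ℕ)} {D : List (List (List (ℕ × ℕ)))},
        List.Forall₂ (fun (k : List ℕ) d => ∀ v, k.count v = use d v ∧ k.count v ≤ 2) ks D →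
        (ks.map fun k => k.count v).sum = (D.map fun d => use d v).sum := by
      intro ks D h
      induction h with
      | nil => rfl
      | cons a _ ih => rw [List.map_cons, List.map_cons, List.sum_cons, List.sum_cons, ih, (a v).1]
    exact h3 h2

/-- if there is a configuration at an unknown port, the round gadget is feasible -/
theorem cap_of {n : ℕ} {τ : List ℕ} {ps : List (List (List ℕ × List ℕ))} {Um Up : List ℕ}
    {ks : List (List ℕ)} {s : ℕ} (h : Cfg n τ ps Um Up ks s) : capF n τ ps Um Up = true := by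
  obtain ⟨D, hD, hD2, hsum⟩ := pv_choices h.pv
  have hN : capN n ps.length = c0 n + n * ps.length + n * ps.length := rfl
  have hc0 : c0 n = 2 * n + 1 := rfl
  -- the values of the port
  obtain ⟨hs, hs2, φ, hφ1, hφ2, hφ⟩ : ((s ∈ Um ∧ s < n) ∨ ∃ v₀ ∈ Up, v₀ < n ∧ s = n + v₀) ∧
      s < 2 * n ∧ ∃ φ : ℕ → ℕ, (∀ v, φ v ≤ 1) ∧ (∀ v < n, φ v + (if s = n + v then 1 else 0) = 1) ∧
      ∀ v < n, ∑ j ∈ range ps.length, use (D.getD j []) v + φ v + (if s = v then 1 else 0) =
        τ.getD v 0 + 1 := by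
    rcases h.port with ⟨h1, h2, h3⟩ | ⟨v₀, h1, h2, rfl, h3⟩
    · refine ⟨Or.inl ⟨h1, h2⟩, by omega, fun _ => 1, fun _ => le_rfl, ?_, ?_⟩
      · intro v hv
        rw [if_neg (by omega)]
      · intro v hv
        have := h3 v hv
        rw [hsum] at this
        dsimp only
        omega
    · refine ⟨Or.inr ⟨v₀, h1, h2, rfl⟩, by omega, fun v => if v₀ = v then 0 else 1, ?_, ?_, ?_⟩
      · intro v; dsimp only; split_ifs <;> omega
      · intro v hv
        have e : (n + v₀ = n + v) ↔ v₀ = v := by omega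
        simp only [e]
        split_ifs <;> rfl
      · intro v hv
        have := h3 v hv
        rw [hsum] at this
        rw [if_neg (show ¬ n + v₀ = v by omega), this]
        dsimp only
        split_ifs <;> omega
  -- the slots
  set κ : ℕ → ℕ := fun y => use (D.getD (y / n) []) (y % n) with hκ
  have hκ2 : ∀ y < n * ps.length, κ y ≤ 2 := by
    intro y hy
    exact hD2 _ (Nat.div_lt_of_lt_mul hy) _
  obtain ⟨C0, g0, u0, z0⟩ := pcU_bwd (N := capN n ps.length) (o := c0 n) (by rw [hN]; omega) hD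
  obtain ⟨C1, g1, u1⟩ := sU_mk (N := capN n ps.length) (m := n * ps.length)
    (f := fun y => c0 n + y) (g := fun y => c0 n + n * ps.length + y)
    (fun i hi => by rw [hN]; omega) (fun i hi => by rw [hN]; omega)
    (fun y => if κ y ≤ 1 then 1 else 0) (fun i _ => by split_ifs <;> omega)
  obtain ⟨C2, g2, u2⟩ := sU_mk (N := capN n ps.length) (m := n * ps.length)
    (f := fun y => c0 n + y) (g := fun y => c0 n + n * ps.length + y)
    (fun i hi => by rw [hN]; omega) (fun i hi => by rw [hN]; omega)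
    (fun y => if κ y = 0 then 1 else 0) (fun i _ => by split_ifs <;> omega)
  have hmd : ∀ i < n * ps.length, md n i < n := by
    intro i hi
    refine md_lt ?_
    rcases Nat.eq_zero_or_pos n with h0 | h0
    · rw [h0, zero_mul] at hi; omega
    · exact h0
  obtain ⟨C3, g3, u3⟩ := sU_mk (N := capN n ps.length) (m := n * ps.length)
    (f := fun y => c0 n + n * ps.length + y) (g := fun y => md n y)
    (fun i hi => by rw [hN]; omega) (fun i hi => by have := hmd i hi; rw [hN]; omega)
    (fun y => if 1 ≤ κ y then 1 else 0) (fun i _ => by split_ifs <;> omega)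
  obtain ⟨C4, g4, u4⟩ := sU_mk (N := capN n ps.length) (m := n * ps.length)
    (f := fun y => c0 n + n * ps.length + y) (g := fun y => md n y)
    (fun i hi => by rw [hN]; omega) (fun i hi => by have := hmd i hi; rw [hN]; omega)
    (fun y => if 2 ≤ κ y then 1 else 0) (fun i _ => by split_ifs <;> omega)
  obtain ⟨C5, g5, u5⟩ := sU_mk (N := capN n ps.length) (m := n) (f := fun v => v) (g := fun v => n + v)
    (fun i hi => by rw [hN]; omega) (fun i hi => by rw [hN]; omega) φ (fun i _ => hφ1 i)
  have g6 : ChU (capN n ps.length) (tok n Um Up) [(s, 2 * n)] := by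
    refine Or.inr ⟨s, ?_, 2 * n, by simp [tok], by rw [hN]; omega, by rw [hN]; omega, rfl⟩
    simp only [tok, List.mem_append, List.mem_filter, List.mem_map, decide_eq_true_eq]
    rcases hs with hs | ⟨v₀, h1, h2, rfl⟩
    · exact Or.inl hs
    · exact Or.inr ⟨v₀, ⟨h1, h2⟩, rfl⟩
  unfold capF
  rw [feas_iff]
  refine ⟨C0 ++ (C1 ++ (C2 ++ (C3 ++ (C4 ++ (C5 ++ [[(s, 2 * n)]]))))), ?_⟩
  have hu : ∀ x < capN n ps.length, use (C0 ++ (C1 ++ (C2 ++ (C3 ++ (C4 ++ (C5 ++ [[(s, 2 * n)]])))))) x =
      if x < n then τ.getD x 0 + 1 else if x < c0 n then 1 else 2 := by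
    intro x hx
    rw [use_append, use_append, use_append, use_append, use_append, use_append, u1, u2, u3, u4, u5,
      use_cons, use_nil, useU_single]
    rw [hN] at hx
    by_cases hx1 : x < n
    · rw [if_pos hx1, z0 _ (Or.inl (by omega)),
        sX_zero (fun i _ => ⟨by omega, by omega⟩), sX_zero (fun i _ => ⟨by omega, by omega⟩),
        sX_g (fun i _ => by omega), sX_g (fun i _ => by omega),
        sX_one (y := x) hx1 (fun i _ => by omega) (fun i _ => by omega),
        if_neg (show ¬ 2 * n = x by omega), sum_blocks n _ x hx1, sum_blocks n _ x hx1]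
      have e : ∑ j ∈ range ps.length, use (D.getD j []) x =
          ∑ j ∈ range ps.length, (if 1 ≤ κ (n * j + x) then 1 else 0) +
          ∑ j ∈ range ps.length, (if 2 ≤ κ (n * j + x) then 1 else 0) := by
        rw [← Finset.sum_add_distrib]
        refine Finset.sum_congr rfl fun j hj => ?_
        have hn : 0 < n := by omega
        have e1 : (n * j + x) / n = j := by rw [Nat.mul_add_div hn, Nat.div_eq_of_lt hx1, add_zero]
        have e2 : (n * j + x) % n = x := by rw [Nat.mul_add_mod, Nat.mod_eq_of_lt hx1]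
        have h2 := hD2 j (Finset.mem_range.1 hj) x
        have e3 : κ (n * j + x) = use (D.getD j []) x := by rw [hκ]; dsimp only; rw [e1, e2]
        rw [e3]
        split_ifs <;> omega
      have := hφ x hx1
      rw [e] at this
      omega
    · rw [if_neg hx1]
      by_cases hx2 : x < 2 * n
      · obtain ⟨v, rfl⟩ : ∃ v, x = n + v := ⟨x - n, by omega⟩
        rw [if_pos (show n + v < c0 n by omega), z0 _ (Or.inl (by omega)),
          sX_zero (fun i _ => ⟨by omega, by omega⟩), sX_zero (fun i _ => ⟨by omega, by omega⟩),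
          sX_zero (fun i hi => ⟨by omega, by have := hmd i hi; omega⟩),
          sX_zero (fun i hi => ⟨by omega, by have := hmd i hi; omega⟩),
          sX_two (y := v) (by omega) (fun i _ => by omega) (fun i _ => by omega),
          if_neg (show ¬ 2 * n = n + v by omega)]
        have := hφ2 v (by omega)
        omega
      · by_cases hx3 : x = 2 * n
        · rw [if_pos (show x < c0 n by omega), z0 _ (Or.inl (by omega)),
            sX_zero (fun i _ => ⟨by omega, by omega⟩), sX_zero (fun i _ => ⟨by omega, by omega⟩),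
            sX_zero (fun i hi => ⟨by omega, by have := hmd i hi; omega⟩),
            sX_zero (fun i hi => ⟨by omega, by have := hmd i hi; omega⟩),
            sX_zero (fun i _ => ⟨by omega, by omega⟩), if_neg (show ¬ s = x by omega),
            if_pos (show 2 * n = x by omega)]
        · rw [if_neg (show ¬ x < c0 n by omega), if_neg (show ¬ s = x by omega),
            if_neg (show ¬ 2 * n = x by omega)]
          by_cases hx4 : x < c0 n + n * ps.length
          · obtain ⟨y, rfl⟩ : ∃ y, x = c0 n + y := ⟨x - c0 n, by omega⟩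
            have hy : y < n * ps.length := by omega
            have hn : 0 < n := lt_of_le_of_lt (Nat.zero_le _) (hmd y hy)
            have a1 : use C0 (c0 n + y) = κ y := by
              have := u0 (y / n) (Nat.div_lt_of_lt_mul hy) (y % n) (Nat.mod_lt _ hn)
              rw [add_assoc, Nat.div_add_mod] at this
              exact this
            rw [a1, sX_one (y := y) hy (fun i _ => by omega) (fun i _ => by omega),
              sX_one (y := y) hy (fun i _ => by omega) (fun i _ => by omega),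
              sX_zero (fun i hi => ⟨by omega, by have := hmd i hi; omega⟩),
              sX_zero (fun i hi => ⟨by omega, by have := hmd i hi; omega⟩),
              sX_zero (fun i _ => ⟨by omega, by omega⟩)]
            have := hκ2 y hy
            split_ifs <;> omega
          · obtain ⟨y, rfl⟩ : ∃ y, x = c0 n + n * ps.length + y :=
              ⟨x - (c0 n + n * ps.length), by omega⟩
            have hy : y < n * ps.length := by omega
            rw [z0 _ (Or.inr (by omega)),
              sX_two (y := y) hy (fun i _ => by omega) (fun i _ => by omega),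
              sX_two (y := y) hy (fun i _ => by omega) (fun i _ => by omega),
              sX_one (y := y) hy (fun i _ => by omega) (fun i hi => by have := hmd i hi; omega),
              sX_one (y := y) hy (fun i _ => by omega) (fun i hi => by have := hmd i hi; omega),
              sX_zero (fun i _ => ⟨by omega, by omega⟩)]
            have := hκ2 y hy
            split_ifs <;> omega
  refine ⟨?_, ?_, ?_⟩
  · exact List.rel_append g0 (List.rel_append g1 (List.rel_append g2 (List.rel_append g3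
      (List.rel_append g4 (List.rel_append g5 (List.Forall₂.cons g6 List.Forall₂.nil))))))
  · intro x hx
    rw [hu x hx, capB_get τ hx]
  · intro x hx
    rw [hu x hx, capB_get τ hx]

end Pool.Agent.PF4.Gd

end

section -- file PF4/PcB

/-!
Pieces: the bridge between the vectors of a list of units (`PV`) and the sums of units cut at 2.
-/

set_option autoImplicit false

namespace Pool.Agent.PF4.Gd

open Finset Pool.Agent.TFC

/-- all entries of the units are below `n` -/
def UB (n : ℕ) (us : List (List ℕ × List ℕ)) : Prop :=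
  ∀ u ∈ us, (∀ s ∈ u.1, s < n) ∧ ∀ t ∈ u.2, t < n

theorem pv_sumU {n : ℕ} {us : List (List ℕ × List ℕ)} (h : UB n us) (k : List ℕ) :
    PV n us k ↔ kvec k ∈ sumU (us.map tf) ∧ ∀ v, kvec k v ≤ 2 := by
  constructor
  · rintro ⟨C, hC, hk⟩
    have e : kvec k = fun v => (use C v : ℤ) := by
      funext v
      rw [kvec, (hk v).1]
    refine ⟨?_, ?_⟩
    · rw [e]; exact ch_sumU hC
    · intro v
      have := (hk v).2
      rw [kvec]
      exact_mod_cast this
  · rintro ⟨h1, h2⟩
    obtain ⟨C, hC, hk⟩ := sumU_ch h h1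
    refine ⟨C, hC, fun v => ⟨?_, ?_⟩⟩
    · have := hk v
      rw [kvec] at this
      exact_mod_cast this
    · have := h2 v
      rw [kvec] at this
      exact_mod_cast this

theorem kvec_nil : kvec [] = 0 := by
  funext v; simp [kvec]

theorem kvec_cons (a : ℕ) (l : List ℕ) : kvec (a :: l) = ev a + kvec l := by
  funext v
  simp only [kvec, List.count_cons, Pi.add_apply, ev, Pi.single_apply, beq_iff_eq]
  by_cases h : a = v
  · subst h; simp; ring
  · rw [if_neg h, if_neg (fun e => h e.symm)]; simp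

end Pool.Agent.PF4.Gd

end

section -- file PF4/PcR

/-!
Pieces: the clusters with two centres, the simple pieces, and the summary for all clusters.
-/

set_option autoImplicit false
set_option linter.unusedSimpArgs false

namespace Pool.Agent.PF4.Gd

open Finset Pool.Agent.TFC
open scoped Pointwise

/-! ### sums of units -/

theorem sumU_list (us : List (Finset ℕ × Finset ℕ)) : sumU us = (us.map fun u => Un u.1 u.2).sum := by
  induction us with
  | nil => rfl
  | cons u us ih => rw [List.map_cons, List.sum_cons, ← ih]; rfl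

/-! ### two centres -/

/-! ### all clusters -/

/-! ### the simple pieces -/

theorem JS_empty (x : ℕ → ℤ) : x ∈ JS (∅ : Finset (Sym2 ℕ)) none4 ↔ x = 0 := by
  constructor
  · rintro ⟨z, hz, _, _, rfl⟩
    rw [Finset.subset_empty.1 hz, Plain_dv_empty]
  · rintro rfl
    refine ⟨∅, le_rfl, ⟨fun e he => by simp at he, fun v => by simp [dg]⟩,
      fun a b c d h => by simpa using h.ab, Plain_dv_empty.symm⟩

/-- slack, loop, minus token: nothing or `[u, v]` -/
theorem pcS_two (u v : ℕ) : pcS (true, [], [[u, v]]) = Un ({u} : Finset ℕ) {v} := by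
  ext x
  show ((∃ k ∈ [[u, v]], x = kvec k) ∨ (true = true ∧ x ∈ JS (fs []) none4)) ↔ _
  rw [fs_nil, JS_empty]
  have e : kvec [u, v] = ev u + ev v := by rw [kvec_cons, kvec_cons, kvec_nil, add_zero]
  constructor
  · rintro (⟨k, hk, rfl⟩ | ⟨_, rfl⟩)
    · rw [List.mem_singleton] at hk
      subst hk
      exact Or.inr ⟨u, by simp, v, by simp, e⟩
    · exact Or.inl rfl
  · rintro (rfl | ⟨s, hs, t, ht, rfl⟩)
    · exact Or.inr ⟨rfl, rfl⟩
    · rw [Finset.mem_singleton] at hs ht
      subst hs ht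
      exact Or.inl ⟨_, List.mem_singleton.2 rfl, e.symm⟩

end Pool.Agent.PF4.Gd

end

section -- file PF4/SolD

/-!
# The functions of the solver for conflict-free families

Instance `(x, g, W, C)`: graph, demand, near covers, clusters. `n = x.1` is the slack vertex, `n + 1` the token coordinate.
Ports: `s = v ≤ n` (total = target minus `e_v`), `s = n + 1 + v` (total = target plus `e_v`); the goal is `n + 1 + n`.
-/

set_option autoImplicit false

namespace Pool.Agent.PF4.SV

open Finset Pool.Agent.TFC Pool.Agent.Lib.helper60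

/-- instance of the solver -/
abbrev SI : Type := Ins × List ℕ × List (ℕ × List Ed) × List Cl

/-- the port is known -/
def kno (F : Fct (List (List ℕ))) (s : ℕ) : Bool := F.any fun p => decide (p.1 = s)

/-- the unknown minus ports -/
def uMi (n : ℕ) (F : Fct (List (List ℕ))) : List ℕ := (List.range (n + 1)).filter fun v => !kno F v

/-- the vertices of the unknown plus ports -/
def uPl (n : ℕ) (F : Fct (List (List ℕ))) : List ℕ := (List.range (n + 1)).filter fun v => !kno F (n + 1 + v)

/-- the minus port is known, the plus port is unknown -/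
def plu (n : ℕ) (F : Fct (List (List ℕ))) (v : ℕ) : Bool := kno F v && !kno F (n + 1 + v)

/-- the target -/
def tgL (n : ℕ) : List ℕ := (List.range (n + 1)).map fun v => if v < n then 2 else 2 * n - 1

/-- the total of `ks` is at the port `s` -/
def AtP (n : ℕ) (ks : List (List ℕ)) (s : ℕ) : Prop :=
  ∀ v < n + 1, ttl ks v + (if s = v then 1 else 0) = tgt n 1 v + (if s = n + 1 + v then 1 else 0)

/-- the token pieces -/
def tkP (n : ℕ) (F : Fct (List (List ℕ))) : List Pc :=
  ((uMi n F).map fun v => unP v (n + 1)) ++ (uPl n F).map fun v => (false, [], [[v], [n + 1]])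

/-- the token vectors for the port `s`; `s = 2 * (n + 1)` for no port -/
def tkS (n : ℕ) (F : Fct (List (List ℕ))) (s : ℕ) : List (List ℕ) :=
  ((uMi n F).map fun v => bif decide (v = s) then [v, n + 1] else []) ++
    (uPl n F).map fun v => bif decide (n + 1 + v = s) then [n + 1] else [v]

/-- forget the token pieces -/
def realS (m : ℕ) (z : List (List ℕ)) : List (List ℕ) := (List.range m).map fun q => z.getD q []

/-- the total is at the port -/
def tstS (n : ℕ) (q : ℕ × List (List ℕ)) : Bool :=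
  (List.range (n + 1)).all fun v =>
    decide (cT q.2 v + (if q.1 = v then 1 else 0) = (tgL n).getD v 0 + (if q.1 = n + 1 + v then 1 else 0))

/-- the unknown ports -/
def uPo (n : ℕ) (F : Fct (List (List ℕ))) : List ℕ := uMi n F ++ (uPl n F).map fun v => n + 1 + v

end Pool.Agent.PF4.SV

end

section -- file P34/SolD3

/-!
# The functions of the solver for families of triangles and squares with the star condition

Instance `(x, g, W, C)`: graph, demand, near covers, clusters. `n = x.1` is the slack vertex, `n + 1` the token coordinate.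
Ports: `s = v ≤ n` (total = target minus `e_v`), `s = n + 1 + v` (total = target plus `e_v`); the goal is `n + 1 + n`.
-/

set_option autoImplicit false

namespace Pool.Agent.P34.SV

open Finset Pool.Agent.TFC Pool.Agent.PF4 Pool.Agent.Lib.helper60
open Pool.Agent.PF4.SV (kno uMi uPl plu tgL AtP tkP tkS realS tstS uPo)

/-- instance of the solver -/
abbrev SI : Type := Ins × List ℕ × List (ℕ × List Ed) × List Cl3

/-- the units of the relaxed pieces -/
def rlU (y : SI) (F : Fct (List (List ℕ))) : List (List (List ℕ × List ℕ)) :=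
  ((y.2.2.2.map fun c => rxU3 c (psi3 (plu y.1.1 F) c)) ++ (plE3 y.1 y.2.2.2).map fun e => [([e.1], [e.2])]) ++
  (((slJ y.1.1 y.2.1).map fun p => [([p.1], [y.1.1])]) ++ (List.range y.1.1).map fun _ => [([y.1.1], [y.1.1])])

/-- one matching call -/
def relaxS (w : SI × Fct (List (List ℕ))) : Bool × ℕ × List (List ℕ) :=
  (Gd.capF (w.1.1.1 + 1) (tgL w.1.1.1) (rlU w.1 w.2) (uMi w.1.1.1 w.2) (uPl w.1.1.1 w.2),
    Gd.capP (w.1.1.1 + 1) (tgL w.1.1.1) (rlU w.1 w.2) (uMi w.1.1.1 w.2) (uPl w.1.1.1 w.2),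
    Gd.capS (w.1.1.1 + 1) (tgL w.1.1.1) (rlU w.1 w.2) (uMi w.1.1.1 w.2) (uPl w.1.1.1 w.2))

/-- the relaxed pieces, relative to the facts -/
def rlP (y : SI) (F : Fct (List (List ℕ))) : List Pc :=
  pcs3 (fun c => rxP3 c (psi3 (plu y.1.1 F) c)) y.1 y.2.1 y.2.2.2

/-- the exact pieces -/
def xcP (y : SI) : List Pc := pcs3 exP3 y.1 y.2.1 y.2.2.2

/-- relaxed configuration at an unknown port -/
structure GoodS (y : SI) (F : Fct (List (List ℕ))) (r : ℕ × List (List ℕ)) : Prop where
  lt : r.1 < 2 * (y.1.1 + 1)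
  unk : kno F r.1 = false
  mem : List.Forall₂ (fun p k => pmem3 p k = true) (rlP y F) r.2
  at_ : AtP y.1.1 r.2 r.1

/-- exact configuration at a port different from the goal -/
structure FactS (y : SI) (s : ℕ) (ks : List (List ℕ)) : Prop where
  lt : s < 2 * y.1.1 + 1
  mem : List.Forall₂ (fun p k => pmem3 p k = true) (xcP y) ks
  at_ : AtP y.1.1 ks s

/-- exact configuration with the full target -/
structure SolS (y : SI) (ks : List (List ℕ)) : Prop where
  mem : List.Forall₂ (fun p k => pmem3 p k = true) (xcP y) ks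
  at_ : ∀ v < y.1.1 + 1, ttl ks v = tgt y.1.1 0 v

/-- well-formed instance -/
structure WfS (y : SI) : Prop where
  x : InsWF y.1
  c : ClsOK3 y.1 y.2.2.2
  g : ∀ v, y.2.1.getD v 0 ≤ 2
  w : ∀ p ∈ y.2.2.1, p.1 < y.1.1 ∧ VM3 y.1 p.2 ∧
    (∀ u < y.1.1, y.2.1.getD u 0 ≤ degL p.2 u + (if u = p.1 then 1 else 0)) ∧ degL p.2 p.1 + 1 = y.2.1.getD p.1 0
  nod : (y.2.2.1.map Prod.fst).Nodup
  ne : y.2.2.1 ≠ []

/-- the vector of the `j`-th cluster is not exact -/
def nx (C : List Cl3) (ks : List (List ℕ)) (j : ℕ) : Bool :=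
  !pmem3 (exP3 (C.getD j (0, 0, 0, []))) (ks.getD j [])

/-- number of the violated clusters -/
def muS (C : List Cl3) (ks : List (List ℕ)) : ℕ := ((List.range C.length).filter fun j => nx C ks j).length

/-- the first violated cluster -/
def fstV (C : List Cl3) (ks : List (List ℕ)) : ℕ := ((List.range C.length).filter fun j => nx C ks j).headD 0

/-- the pieces of the clusters in the world of the reduction step: cluster `i` becomes exact, violated clusters stay relaxed -/
def wcl (P : ℕ → Bool) (C : List Cl3) (ks : List (List ℕ)) (i : ℕ) : List Pc :=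
  (List.range C.length).map fun j =>
    bif !decide (j = i) && nx C ks j then
      rxP3 (C.getD j (0, 0, 0, [])) (psi3 P (C.getD j (0, 0, 0, [])))
    else exP3 (C.getD j (0, 0, 0, []))

/-- the pieces of the world -/
def wPc (y : SI) (F : Fct (List (List ℕ))) (ks : List (List ℕ)) : List Pc :=
  ((wcl (plu y.1.1 F) y.2.2.2 ks (fstV y.2.2.2 ks) ++ (plE3 y.1 y.2.2.2).map edP) ++
    ((slJ y.1.1 y.2.1).map (fun p => unP p.1 y.1.1) ++ (List.range y.1.1).map fun _ => unP y.1.1 y.1.1)) ++
  tkP y.1.1 F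

/-- the additional vector of the first violated cluster -/
def dgV (y : SI) (F : Fct (List (List ℕ))) (ks : List (List ℕ)) : List ℕ :=
  findD (fun d => eqK (ks.getD (fstV y.2.2.2 ks) []) d)
    (digs3 (y.2.2.2.getD (fstV y.2.2.2 ks) (0, 0, 0, []))
      (psi3 (plu y.1.1 F) (y.2.2.2.getD (fstV y.2.2.2 ks) (0, 0, 0, [])))) []

/-- the states at the start of the pool -/
def stS (y : SI) (F : Fct (List (List ℕ))) (r : ℕ × List (List ℕ)) : List (List (List ℕ)) :=
  ((mvs3 (y.2.2.2.getD (fstV y.2.2.2 r.2) (0, 0, 0, [])) (dgV y F r.2)).map fun m =>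
    setL r.2 (fstV y.2.2.2 r.2) m ++ tkS y.1.1 F r.1) ++
  F.map fun p => p.2 ++ tkS y.1.1 F (2 * (y.1.1 + 1))

/-- the pool -/
def poS (y : SI) (F : Fct (List (List ℕ))) (r : ℕ × List (List ℕ)) : List (List (List ℕ)) :=
  poolS pmem3 (false, [], []) (wPc y F r.2) (y.1.1 + 1) (List.range (y.1.1 + 2)) (stS y F r) 3

/-- the reduction step -/
def redS (w : SI × Fct (List (List ℕ)) × ℕ × List (List ℕ)) : ℕ × List (List ℕ) :=
  findD (tstS w.1.1.1) ((poS w.1 w.2.1 w.2.2).flatMap fun z => (uPo w.1.1.1 w.2.1).map fun s =>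
    (s, realS w.2.2.2.length z)) (0, [])

/-- the facts at the start -/
def initS (y : SI) : Fct (List (List ℕ)) := y.2.2.1.map fun p => (p.1, cfgM3 y.1 y.2.1 y.2.2.2 p.2 1)

end Pool.Agent.P34.SV

end

section -- file PF4/SolI

/-!
# The solver: facts at the start, sizes, polynomial time
-/

set_option autoImplicit false

namespace Pool.Agent.PF4.SV

open Finset Pool.Agent.TFC Pool.Agent.Lib.helper60

/-! ### the facts at the start -/

/-! ### the last step -/

theorem forall2_getD {α β : Type} {R : α → β → Prop} {l : List α} {m : List β} (h : List.Forall₂ R l m)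
    {j : ℕ} (hj : j < l.length) (a : α) (b : β) : R (l.getD j a) (m.getD j b) := by
  induction h generalizing j with
  | nil => simp at hj
  | cons h1 _ ih =>
    cases j with
    | zero => exact h1
    | succ j => exact ih (by simpa using hj)

theorem kno_iff {F : Fct (List (List ℕ))} {s : ℕ} : kno F s = true ↔ s ∈ F.map Prod.fst := by
  simp [kno, List.any_eq_true]

/-! ### sizes -/

theorem getD_mem {α : Type} {l : List α} {q : ℕ} (hq : q < l.length) (d : α) : l.getD q d ∈ l := by
  rw [List.getD_eq_getElem?_getD, List.getElem?_eq_getElem hq]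
  exact List.getElem_mem hq

/-! ### polynomial time -/

section pt

variable {ι : Type} [DEnc ι]

theorem pt_slJ {n : ι → ℕ} {g : ι → List ℕ} (hn : PT n) (hg : PT g) : PT (fun i => slJ (n i) (g i)) :=
  PT.flatMap (PT.range hn) (g := fun y : ι × ℕ => (List.range (2 - (g y.1).getD y.2 0)).map fun j => (y.2, j))
    (PT.map (PT.range (PT.nsub (PT.const 2) (PT.getD (hg.comp PT.fst) PT.snd (PT.const 0))))
      (g := fun z : (ι × ℕ) × ℕ => (z.1.2, z.2)) (PT.pair PT.fst.p2 PT.snd))

theorem pt_unP {u v : ι → ℕ} (hu : PT u) (hv : PT v) : PT (fun i => unP (u i) (v i)) :=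
  PT.pair (PT.const true) (PT.pair (PT.const []) (PT.cons (PT.cons hu (PT.cons hv (PT.const []))) (PT.const [])))

theorem pt_edP {e : ι → Ed} (he : PT e) : PT (fun i => edP (e i)) :=
  PT.pair (PT.const true) (PT.pair (PT.cons he (PT.const [])) (PT.const []))

theorem pt_hsl {x : ι → Ins} {g : ι → List ℕ} {M : ι → List Ed} (hx : PT x) (hg : PT g) (hM : PT M) :
    PT (fun i => hsl (x i) (g i) (M i)) :=
  PT.length (PT.filter (pt_slJ (PT.p1 hx) hg) (p := fun y : ι × (ℕ × ℕ) => decide (y.2.2 < 2 - degL (M y.1) y.2.1))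
    (PT.nlt PT.snd.p2 (PT.nsub (PT.const 2) (pt_degL (hM.comp PT.fst) PT.snd.p1))))

end pt

end Pool.Agent.PF4.SV

end

section -- file PF4/SolZ

/-!
# The solver for conflict-free families of squares
-/

set_option autoImplicit false

namespace Pool.Agent.PF4.SV

open Finset Pool.Agent.TFC Pool.Agent.Lib.helper60

/-- the near cover at `p.1` is a cover -/
def cvB (x : Ins) (g : List ℕ) (p : ℕ × List Ed) : Bool :=
  (List.range x.1).all fun u => decide (g.getD u 0 ≤ degL p.2 u)

end Pool.Agent.PF4.SV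

end

section -- file PF4/SolR

/-!
# The relaxation of the solver for conflict-free families
-/

set_option autoImplicit false

namespace Pool.Agent.PF4.SV

open Finset Pool.Agent.TFC Pool.Agent.Lib.helper60
open scoped Pointwise

/-! ### vertices of clusters -/

/-! ### pieces and units -/

theorem UB_one {n u v : ℕ} (hu : u < n) (hv : v < n) : Gd.UB n [([u], [v])] := by
  intro w hw
  rw [List.mem_singleton] at hw
  subst hw
  refine ⟨fun s hs => ?_, fun s hs => ?_⟩
  · rw [List.mem_singleton.1 hs]; exact hu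
  · rw [List.mem_singleton.1 hs]; exact hv

theorem sumU_one (u v : ℕ) (x : ℕ → ℤ) :
    x ∈ sumU (([([u], [v])] : List (List ℕ × List ℕ)).map Gd.tf) ↔ x = 0 ∨ x = ev u + ev v := by
  have e : sumU (([([u], [v])] : List (List ℕ × List ℕ)).map Gd.tf) = Un ({u} : Finset ℕ) {v} := by
    rw [Gd.sumU_list]
    simp only [Gd.tf, List.map_cons, List.map_nil, List.sum_cons, List.sum_nil, add_zero, List.toFinset_cons,
      List.toFinset_nil, insert_empty_eq]
  rw [e]
  constructor
  · rintro (h | ⟨s, hs, t, ht, h⟩)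
    · exact Or.inl h
    · rw [Finset.mem_singleton] at hs ht
      subst hs ht
      exact Or.inr h
  · rintro (h | h)
    · exact Or.inl h
    · exact Or.inr ⟨u, by simp, v, by simp, h⟩

theorem kvec_two_le (u v : ℕ) {k : List ℕ} (h : kvec k = 0 ∨ kvec k = ev u + ev v) (w : ℕ) : kvec k w ≤ 2 := by
  rcases h with h | h <;> rw [h]
  · simp
  · rw [Pi.add_apply, TFC.ev_apply, TFC.ev_apply]
    split_ifs <;> norm_num

theorem JS_one {e : Ed} (he : e.1 ≠ e.2) (x : ℕ → ℤ) :
    x ∈ JS (fs [e]) none4 ↔ x = 0 ∨ x = ev e.1 + ev e.2 := by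
  have e1 : dv ({fe e} : Finset (Sym2 ℕ)) = ev e.1 + ev e.2 := Unit_dv1 he
  have hnl : ∀ f ∈ ({fe e} : Finset (Sym2 ℕ)), ¬ f.IsDiag := by
    intro f hf
    rw [Finset.mem_singleton] at hf
    subst hf
    simpa [fe] using he
  constructor
  · rintro ⟨z, hz, _, _, rfl⟩
    rw [fs_cons, fs_nil] at hz
    have hz' : z ⊆ {fe e} := by simpa using hz
    rcases Finset.subset_singleton_iff.1 hz' with h | h
    · left
      rw [h, Plain_dv_empty]
    · right
      rw [h, e1]
  · rintro (rfl | rfl)
    · refine ⟨∅, Finset.empty_subset _, ⟨fun f hf => by simp at hf, fun v => by simp [dg]⟩,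
        fun a b c d h => by simpa using h.ab, Plain_dv_empty.symm⟩
    · refine ⟨{fe e}, by rw [fs_cons]; simp, M2.of_dv hnl ?_, R4_good hnl (by rw [card_singleton]; norm_num), e1.symm⟩
      intro v
      rw [e1, Pi.add_apply, TFC.ev_apply, TFC.ev_apply]
      split_ifs <;> norm_num

/-! ### coordinates above the slack vertex -/

theorem use_high {n : ℕ} {us : List (List ℕ × List ℕ)} {C : List (List (ℕ × ℕ))}
    (h : List.Forall₂ (Gd.ChU n) us C) {v : ℕ} (hv : n ≤ v) : Gd.use C v = 0 := by
  induction h with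
  | nil => rfl
  | @cons u c us C h1 _ ih =>
    have e : Gd.use (c :: C) v = Gd.useU c v + Gd.use C v := by
      simp [Gd.use]
    rw [e, ih, add_zero]
    rcases h1 with rfl | ⟨s, _, t, _, hs, ht, rfl⟩
    · rfl
    · have h2 : s ≠ v := by omega
      have h3 : t ≠ v := by omega
      simp [Gd.useU, h2, h3]

theorem pv_high {n : ℕ} {us : List (List (List ℕ × List ℕ))} {ks : List (List ℕ)}
    (h : List.Forall₂ (Gd.PV n) us ks) {v : ℕ} (hv : n ≤ v) : ttl ks v = 0 := by
  induction h with
  | nil => rfl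
  | cons h1 _ ih =>
    obtain ⟨C, hC, hk⟩ := h1
    rw [ttl_cons, ih, (hk v).1, use_high hC hv]

/-! ### ports -/

theorem mem_uMi {n : ℕ} {F : Fct (List (List ℕ))} {v : ℕ} : v ∈ uMi n F ↔ v < n + 1 ∧ kno F v = false := by
  rw [uMi, List.mem_filter, List.mem_range, Bool.not_eq_true']

theorem mem_uPl {n : ℕ} {F : Fct (List (List ℕ))} {v : ℕ} :
    v ∈ uPl n F ↔ v < n + 1 ∧ kno F (n + 1 + v) = false := by
  rw [uPl, List.mem_filter, List.mem_range, Bool.not_eq_true']

theorem tgL_getD {n v : ℕ} (hv : v < n + 1) : (tgL n).getD v 0 = tgt n 1 v := by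
  have h : (tgL n).getD v 0 = if v < n then 2 else 2 * n - 1 := by
    rw [tgL, List.getD_eq_getElem?_getD, List.getElem?_map, List.getElem?_range hv]
    rfl
  rw [h, tgt]
  by_cases h1 : v < n
  · rw [if_pos h1, if_pos h1]
  · have h2 : v = n := by omega
    rw [if_neg h1, if_neg h1, if_pos h2]

/-! ### polynomial time -/

section pt

variable {ι : Type} [DEnc ι]

theorem pt_kno {F : ι → Fct (List (List ℕ))} {s : ι → ℕ} (hF : PT F) (hs : PT s) : PT (fun x => kno (F x) (s x)) :=
  PT.any hF (p := fun y : ι × (ℕ × List (List ℕ)) => decide (y.2.1 = s y.1)) (PT.neq PT.snd.p1 (hs.comp PT.fst))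

theorem pt_uMi {n : ι → ℕ} {F : ι → Fct (List (List ℕ))} (hn : PT n) (hF : PT F) :
    PT (fun x => uMi (n x) (F x)) :=
  PT.filter (PT.range (PT.nsucc hn)) (p := fun y : ι × ℕ => !kno (F y.1) y.2)
    (PT.bnot (pt_kno (hF.comp PT.fst) PT.snd))

theorem pt_uPl {n : ι → ℕ} {F : ι → Fct (List (List ℕ))} (hn : PT n) (hF : PT F) :
    PT (fun x => uPl (n x) (F x)) :=
  PT.filter (PT.range (PT.nsucc hn)) (p := fun y : ι × ℕ => !kno (F y.1) (n y.1 + 1 + y.2))
    (PT.bnot (pt_kno (hF.comp PT.fst) (PT.nadd (PT.nsucc (hn.comp PT.fst)) PT.snd)))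

theorem pt_plu {n v : ι → ℕ} {F : ι → Fct (List (List ℕ))} (hn : PT n) (hF : PT F) (hv : PT v) :
    PT (fun x => plu (n x) (F x) (v x)) :=
  PT.band (pt_kno hF hv) (PT.bnot (pt_kno hF (PT.nadd (PT.nsucc hn) hv)))

theorem pt_tgL {n : ι → ℕ} (hn : PT n) : PT (fun x => tgL (n x)) := by
  have h : ∀ x : ι, tgL (n x) =
      (List.range (n x + 1)).map fun v => bif decide (v < n x) then 2 else 2 * n x - 1 := by
    intro x
    unfold tgL
    refine List.map_congr_left fun v _ => ?_
    by_cases h1 : v < n x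
    · simp [h1]
    · simp [h1]
  refine PT.congr (PT.map (PT.range (PT.nsucc hn))
    (g := fun y : ι × ℕ => bif decide (y.2 < n y.1) then 2 else 2 * n y.1 - 1)
    (PT.cond (PT.nlt PT.snd (hn.comp PT.fst)) (PT.const 2)
      (PT.nsub (PT.nmul (PT.const 2) (hn.comp PT.fst)) (PT.const 1)))) fun x => (h x).symm

end pt

end Pool.Agent.PF4.SV

end

section -- file PF4/Red

/-!
# The reduction step of the solver

An instance is `(n, Cs, Ot, tau)`: clusters `Cs`, other pieces `Ot`, all on the vertices `0, ..., n`, and a target `tau`.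
A state is a list of vectors, one for each piece of `Cs ++ Ot`. Ports are pairs `(v, b)`, `v ≤ n`: the total of the state is
`tau - e_v` (`b = false`) or `tau + e_v` (`b = true`). A fact is an exact state at a port. A relaxed object is a state at an
unknown port whose parts at the clusters are legal for the relaxed pieces. `red` lowers the number of the clusters with a part
that is not exact: a pool of states with one token piece for each unknown port.
-/

set_option autoImplicit false

namespace Pool.Agent.PF4.Rd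

open Finset Pool.Agent.TFC Pool.Agent.Lib.helper60 Pool.Agent.PF4.LD

/-- state -/
abbrev St : Type := List (List ℕ)

/-- instance -/
abbrev Dt : Type := ℕ × List Cl × List Pc × List ℕ

/-! ### states -/

section
variable {P : Type} {mem : P → List ℕ → Bool} {d : P}

theorem leg_nil : Leg mem d [] [] := ⟨rfl, fun _ hq => absurd hq (Nat.not_lt_zero _)⟩

theorem leg_cons {p : P} {Ps : List P} {k : List ℕ} {s : St} (h : mem p k = true) (hs : Leg mem d Ps s) :
    Leg mem d (p :: Ps) (k :: s) := by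
  refine ⟨by simp [hs.len], ?_⟩
  intro q hq
  cases q with
  | zero => simpa using h
  | succ q =>
    rw [List.getD_cons_succ, List.getD_cons_succ]
    exact hs.mem q (by simpa using hq)

theorem leg_uncons {p : P} {Ps : List P} {s : St} (h : Leg mem d (p :: Ps) s) :
    ∃ k s', s = k :: s' ∧ mem p k = true ∧ Leg mem d Ps s' := by
  cases s with
  | nil => have := h.len; simp at this
  | cons k s =>
    refine ⟨k, s, rfl, ?_, ?_⟩
    · have := h.mem 0 (by simp)
      simpa using this
    · refine ⟨by simpa using h.len, ?_⟩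
      intro q hq
      have := h.mem (q + 1) (by simpa using hq)
      rwa [List.getD_cons_succ, List.getD_cons_succ] at this

theorem leg_append {Ps Qs : List P} {s t : St} (h : Leg mem d Ps s) (h' : Leg mem d Qs t) :
    Leg mem d (Ps ++ Qs) (s ++ t) := by
  induction Ps generalizing s with
  | nil =>
    have : s = [] := List.length_eq_zero_iff.1 h.len
    subst this
    simpa using h'
  | cons p Ps ih =>
    obtain ⟨k, s', rfl, h1, h2⟩ := leg_uncons h
    exact leg_cons h1 (ih h2)

theorem leg_split {Ps Qs : List P} {s : St} (h : Leg mem d (Ps ++ Qs) s) :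
    ∃ a b, s = a ++ b ∧ Leg mem d Ps a ∧ Leg mem d Qs b := by
  induction Ps generalizing s with
  | nil => exact ⟨[], s, rfl, leg_nil, by simpa using h⟩
  | cons p Ps ih =>
    obtain ⟨k, s', rfl, h1, h2⟩ := leg_uncons h
    obtain ⟨a, b, rfl, h3, h4⟩ := ih h2
    exact ⟨k :: a, b, rfl, leg_cons h1 h3, h4⟩

theorem leg_map {α : Type} {U : List α} {f : α → P} {g : α → List ℕ} (h : ∀ u ∈ U, mem (f u) (g u) = true) :
    Leg mem d (U.map f) (U.map g) := by
  induction U with
  | nil => exact leg_nil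
  | cons u U ih =>
    exact leg_cons (h u List.mem_cons_self) (ih fun v hv => h v (List.mem_cons_of_mem _ hv))

end

theorem totS_append (a b : St) : totS (a ++ b) = totS a + totS b := by
  funext v
  unfold totS vec
  rw [List.flatten_append, cnt_append]
  push_cast
  rfl

theorem totS_cons (k : List ℕ) (s : St) : totS (k :: s) = kvec k + totS s := by
  have h := totS_append [k] s
  rw [List.singleton_append] at h
  rw [h]
  congr 1
  funext v
  unfold totS
  rw [← vec_kvec]
  simp

/-- the first `N` entries -/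
def tk (N : ℕ) (s : St) : St := (List.range N).map fun i => s.getD i []

theorem tk_append {a b : St} : tk a.length (a ++ b) = a := by
  refine List.ext_getElem (by simp [tk]) ?_
  intro i h1 h2
  simp only [tk, List.getElem_map, List.getElem_range]
  rw [List.getD_append _ _ _ _ h2, List.getD_eq_getElem _ _ h2]

/-! ### ports and tokens -/

/-- code of a port -/
def code (u : ℕ × Bool) : ℕ := 2 * u.1 + bif u.2 then 1 else 0

theorem code_inj {u w : ℕ × Bool} (h : code u = code w) : u = w := by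
  obtain ⟨u, a⟩ := u
  obtain ⟨w, b⟩ := w
  unfold code at h
  cases a <;> cases b <;> simp only [cond_true, cond_false] at h
  · have : u = w := by omega
    rw [this]
  · omega
  · omega
  · have : u = w := by omega
    rw [this]

/-- the vector of a port -/
def pv (u : ℕ × Bool) : ℕ → ℤ := bif u.2 then ev u.1 else - ev u.1

/-- token piece -/
def tkP (t : ℕ) (u : ℕ × Bool) : Pc := bif u.2 then (false, [], [[u.1], [t]]) else (true, [], [[u.1, t]])

/-- token not used -/
def un (u : ℕ × Bool) : List ℕ := bif u.2 then [u.1] else []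

/-- token used -/
def us (t : ℕ) (u : ℕ × Bool) : List ℕ := bif u.2 then [t] else [u.1, t]

theorem eqK_refl (k : List ℕ) : eqK k k = true := (eqK_iff k k).2 rfl

theorem kvec_us (t : ℕ) (u : ℕ × Bool) : kvec (us t u) = kvec (un u) + ev t - pv u := by
  obtain ⟨u, b⟩ := u
  cases b with
  | true =>
    simp only [us, un, pv, cond_true]
    rw [kv_cons, kv_cons, kv_nil]
    abel
  | false =>
    simp only [us, un, pv, cond_false]
    rw [kv_cons, kv_cons, kv_nil]
    abel

/-- the total of the tokens, none used -/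
def base (U : List (ℕ × Bool)) : ℕ → ℤ := totS (U.map un)

theorem base_cons (u : ℕ × Bool) (U : List (ℕ × Bool)) : base (u :: U) = kvec (un u) + base U := by
  unfold base
  rw [List.map_cons, totS_cons]

theorem un_top {n : ℕ} {u : ℕ × Bool} (h : u.1 ≤ n) : kvec (un u) (n + 1) = 0 := by
  obtain ⟨u, b⟩ := u
  simp only at h
  cases b with
  | true =>
    simp only [un, cond_true]
    rw [kv_cons, kv_nil, add_zero, TFC.ev_apply, if_neg (by omega)]
  | false =>
    simp only [un, cond_false]
    rw [kv_nil]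
    rfl

theorem pv_top {n : ℕ} {u : ℕ × Bool} (h : u.1 ≤ n) : pv u (n + 1) = 0 := by
  obtain ⟨u, b⟩ := u
  simp only at h
  cases b with
  | true =>
    simp only [pv, cond_true]
    rw [TFC.ev_apply, if_neg (by omega)]
  | false =>
    simp only [pv, cond_false]
    rw [Pi.neg_apply, TFC.ev_apply, if_neg (by omega), neg_zero]

theorem base_top {n : ℕ} {U : List (ℕ × Bool)} (h : ∀ u ∈ U, u.1 ≤ n) : base U (n + 1) = 0 := by
  induction U with
  | nil => rfl
  | cons u U ih =>
    rw [base_cons, Pi.add_apply, un_top (h u List.mem_cons_self), ih fun w hw => h w (List.mem_cons_of_mem _ hw),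
      add_zero]

/-- the total with one token used -/
theorem tot_one {n : ℕ} {U : List (ℕ × Bool)} (hn : U.Nodup) {w : ℕ × Bool} (hw : w ∈ U) :
    totS (U.map fun u => bif decide (code u = code w) then us (n + 1) u else un u) = base U + ev (n + 1) - pv w := by
  induction U with
  | nil => cases hw
  | cons u U ih =>
    rw [List.nodup_cons] at hn
    rw [List.map_cons, totS_cons, base_cons]
    rcases List.mem_cons.1 hw with rfl | hw
    · have h1 : (U.map fun u => bif decide (code u = code w) then us (n + 1) u else un u) = U.map un := by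
        refine List.map_congr_left ?_
        intro u hu
        have : code u ≠ code w := fun h => hn.1 (by rw [← code_inj h]; exact hu)
        rw [decide_eq_false this, cond_false]
      rw [h1, decide_eq_true rfl, cond_true, kvec_us]
      show _ + base U = _
      abel
    · have : code u ≠ code w := fun h => hn.1 (by rw [code_inj h]; exact hw)
      rw [decide_eq_false this, cond_false, ih hn.2 hw]
      abel

/-! ### the reduction step -/

/-- the port is known -/
def kn (F : Fct St) (p : ℕ) : Bool := F.any fun f => decide (f.1 = p)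

/-- unknown ports -/
def unk (n : ℕ) (F : Fct St) : List (ℕ × Bool) :=
  ((List.range (n + 1)).flatMap fun v => [(v, false), (v, true)]).filter fun u => !kn F (code u)

/-! ### the specification -/

section spec
variable {x : Dt} {F : Fct St} {ks : St} {q : ℕ}

theorem length_filter_lt {α : Type} {p p' : α → Bool} {l : List α} (h : ∀ a ∈ l, p' a = true → p a = true)
    {b : α} (hb : b ∈ l) (h1 : p b = true) (h2 : p' b = false) : (l.filter p').length < (l.filter p).length := by
  have e : l.filter p' = (l.filter p).filter p' := by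
    rw [List.filter_filter]
    refine List.filter_congr ?_
    intro a ha
    cases ha' : p' a with
    | true => rw [h a ha ha']; rfl
    | false => rfl
  rw [e, List.length_filter_lt_length_iff_exists]
  exact ⟨b, List.mem_filter.2 ⟨hb, h1⟩, by rw [h2]; simp⟩

theorem totS_set {s : St} (hq : q < s.length) (k : List ℕ) :
    totS (setL s q k) = totS s + (kvec k - kvec (s.getD q [])) := by
  funext v
  rw [totS_setL hq, ← vec_kvec, ← vec_kvec]
  rfl

theorem pv_zero {u : ℕ × Bool} {n v : ℕ} (h : u.1 ≤ n) (hv : n < v) : pv u v = 0 := by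
  obtain ⟨u, b⟩ := u
  simp only at h
  cases b with
  | true =>
    simp only [pv, cond_true]
    rw [TFC.ev_apply, if_neg (by omega)]
  | false =>
    simp only [pv, cond_false]
    rw [Pi.neg_apply, TFC.ev_apply, if_neg (by omega), neg_zero]

end spec

/-! ### polynomial time -/

section pt
variable {ι : Type} [DEnc ι]

theorem pt_tk {N : ι → ℕ} {s : ι → St} (hN : PT N) (hs : PT s) : PT (fun x => tk (N x) (s x)) :=
  PT.map (PT.range hN) (g := fun y : ι × ℕ => (s y.1).getD y.2 [])
    (PT.getD (hs.comp PT.fst) PT.snd (PT.const []))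

section
variable {n : ι → ℕ} {Cs : ι → List Cl} {Ot : ι → List Pc} {tau : ι → List ℕ} {F : ι → Fct St} {ks : ι → St}
  {p q : ι → ℕ}

end

end pt

end Pool.Agent.PF4.Rd

end

section -- file P34/Red3

/-!
# Token pieces and legal states (triangles and squares)

The lemmas on the token pieces and on legal states of `PF4/Red.lean`, for the membership test `pmem3`.
-/

set_option autoImplicit false

namespace Pool.Agent.P34.R3

open Finset Pool.Agent.TFC Pool.Agent.Lib.helper60 Pool.Agent.PF4 Pool.Agent.PF4.Rd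

/-- default cluster -/
abbrev e0 : Cl3 := (0, 0, 0, [])

theorem map_getD {α : Type} (f : Cl3 → α) (Cs : List Cl3) :
    Cs.map f = (List.range Cs.length).map fun i => f (Cs.getD i e0) := by
  refine List.ext_getElem (by simp) ?_
  intro i h1 h2
  simp only [List.getElem_map, List.getElem_range]
  rw [List.getD_eq_getElem _ _ (by simpa using h1)]

theorem getD_memCl {Cs : List Cl3} {i : ℕ} (hi : i < Cs.length) : Cs.getD i e0 ∈ Cs := by
  rw [List.getD_eq_getElem _ _ hi]
  exact List.getElem_mem hi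

/-- entries of a legal state -/
theorem totS_zero {m : ℕ} {d : Pc} {Ps : List Pc} {s : St} (hs : Leg pmem3 d Ps s) (hP : ∀ p ∈ Ps, PcOK pmem3 m p)
    {v : ℕ} (hv : m < v) : totS s v = 0 := by
  induction Ps generalizing s with
  | nil =>
    have : s = [] := List.length_eq_zero_iff.1 hs.len
    subst this
    rfl
  | cons p Ps ih =>
    obtain ⟨k, s', rfl, h1, h2⟩ := leg_uncons hs
    rw [totS_cons, Pi.add_apply, ih h2 fun q hq => hP q (List.mem_cons_of_mem _ hq), add_zero]
    have h3 : v ∉ k := fun h => by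
      have := (hP p List.mem_cons_self).le k h1 v h
      omega
    unfold kvec
    rw [List.count_eq_zero_of_not_mem h3]
    rfl

theorem mono {p : Pc} {m m' : ℕ} (h : PcOK pmem3 m p) (hm : m ≤ m') : PcOK pmem3 m' p :=
  ⟨h.len, fun k hk v hv => (h.le k hk v hv).trans hm, h.jump⟩

theorem pmem3_nil (E : List Ed) (X : List (List ℕ)) : pmem3 (true, E, X) [] = true := by
  unfold pmem3
  rw [Bool.or_eq_true]
  right
  rw [Bool.and_eq_true]
  refine ⟨rfl, ?_⟩
  rw [List.any_eq_true]
  exact ⟨[], mem_subs.2 ⟨Nat.zero_le _, by simp⟩, by decide⟩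

theorem pmem3_ext {z : Bool} {E : List Ed} {X : List (List ℕ)} {k : List ℕ} (h : k ∈ X) :
    pmem3 (z, E, X) k = true := by
  unfold pmem3
  rw [Bool.or_eq_true]
  left
  rw [List.any_eq_true]
  exact ⟨k, h, eqK_refl k⟩

theorem pmem3_un (t : ℕ) (u : ℕ × Bool) : pmem3 (tkP t u) (un u) = true := by
  obtain ⟨u, b⟩ := u
  cases b with
  | true => exact pmem3_ext (by simp [un])
  | false => exact pmem3_nil _ _

theorem pmem3_us (t : ℕ) (u : ℕ × Bool) : pmem3 (tkP t u) (us t u) = true := by
  obtain ⟨u, b⟩ := u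
  cases b with
  | true => exact pmem3_ext (by simp [us])
  | false => exact pmem3_ext (by simp [us])

theorem tkP_cases {t : ℕ} {u : ℕ × Bool} {k : List ℕ} (h : pmem3 (tkP t u) k = true) :
    kvec k = kvec (un u) ∨ kvec k = kvec (us t u) := by
  have h1 := pmem3_sound h
  obtain ⟨u, b⟩ := u
  cases b with
  | true =>
    simp only [tkP, cond_true, pcS3_nil, pcS_alt, Set.mem_insert_iff, Set.mem_singleton_iff] at h1
    simp only [us, un, cond_true]
    rw [kv_cons, kv_nil, kv_cons, kv_nil, add_zero, add_zero]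
    exact h1
  | false =>
    simp only [tkP, cond_false, pcS3_nil, pcS_pair] at h1
    simp only [us, un, cond_false]
    rw [kv_nil, kv_cons, kv_cons, kv_nil, add_zero]
    rcases h1 with h1 | ⟨s, hs, w, hw, h1⟩
    · exact Or.inl h1
    · rw [Finset.mem_singleton] at hs hw
      subst hs hw
      exact Or.inr h1

theorem pcok_tkP {n : ℕ} {u : ℕ × Bool} (h : u.1 ≤ n) : PcOK pmem3 (n + 1) (tkP (n + 1) u) := by
  obtain ⟨u, b⟩ := u
  simp only at h
  cases b with
  | true => exact pcok3_alt (by omega) (le_refl _)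
  | false => exact pcok3_pair (by omega) (le_refl _)

/-- the tokens of a legal state -/
theorem tok_cases {n : ℕ} {d : Pc} {U : List (ℕ × Bool)} (hU : ∀ u ∈ U, u.1 ≤ n) {s : St}
    (hs : Leg pmem3 d (U.map (tkP (n + 1))) s) :
    totS s = base U ∨ (∃ u ∈ U, totS s = base U + ev (n + 1) - pv u) ∨ 2 ≤ totS s (n + 1) := by
  induction U generalizing s with
  | nil =>
    have : s = [] := List.length_eq_zero_iff.1 hs.len
    subst this
    exact Or.inl rfl
  | cons u U ih =>
    rw [List.map_cons] at hs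
    obtain ⟨k, s', rfl, h1, h2⟩ := leg_uncons hs
    have hu := hU u List.mem_cons_self
    have hU' : ∀ w ∈ U, w.1 ≤ n := fun w hw => hU w (List.mem_cons_of_mem _ hw)
    have e0 := un_top hu
    have e1 := pv_top hu
    have e2 := base_top hU'
    have e3 : (ev (n + 1) : ℕ → ℤ) (n + 1) = 1 := by rw [TFC.ev_apply, if_pos rfl]
    have e4 := congrFun (kvec_us (n + 1) u) (n + 1)
    rw [Pi.sub_apply, Pi.add_apply, e0, e1, e3] at e4
    rw [totS_cons, base_cons]
    rcases ih hU' h2 with h3 | ⟨w, hw, h3⟩ | h3 <;> rcases tkP_cases h1 with h4 | h4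
    · left
      rw [h3, h4]
    · right; left
      refine ⟨u, List.mem_cons_self, ?_⟩
      rw [h3, h4, kvec_us]
      abel
    · right; left
      refine ⟨w, List.mem_cons_of_mem _ hw, ?_⟩
      rw [h3, h4]
      abel
    · right; right
      have e5 := pv_top (hU' w hw)
      rw [Pi.add_apply, h3, h4, e4, Pi.sub_apply, Pi.add_apply, e2, e3, e5]
      norm_num
    · right; right
      rw [Pi.add_apply, h4, e0]
      omega
    · right; right
      rw [Pi.add_apply, h4, e4]
      omega

theorem pmem3_exP_rxP {c : Cl3} {ch : ℕ × ℕ} {k : List ℕ} (h : pmem3 (exP3 c) k = true) :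
    pmem3 (rxP3 c ch) k = true := by
  unfold pmem3 exP3 at h
  unfold pmem3 rxP3
  rw [Bool.or_eq_true] at h ⊢
  rcases h with h | h
  · simp at h
  · exact Or.inr h

end Pool.Agent.P34.R3

end

section -- file PF4/SolRd

/-!
# The reduction step of the solver for conflict-free families: specification and polynomial time of `redS`
-/

set_option autoImplicit false

namespace Pool.Agent.PF4.SVR

open Finset Pool.Agent.TFC Pool.Agent.Lib.helper60 Pool.Agent.PF4.LD Pool.Agent.PF4.SV

/-- state -/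
abbrev St : Type := List (List ℕ)

/-! ### generalities -/

theorem ttl_cT (ks : St) (v : ℕ) : cT ks v = ttl ks v := by
  induction ks with
  | nil => rfl
  | cons k ks ih =>
    rw [ttl_cons, ← ih]
    unfold cT
    rw [List.flatten_cons, cnt_append, cnt_eq]

/-! ### the world -/

/-- the pieces that are not clusters -/
def Ot (y : SV.SI) : List Pc :=
  (plE y.1 y.2.2.2).map edP ++
    ((slJ y.1.1 y.2.1).map (fun p => unP p.1 y.1.1) ++ (List.range y.1.1).map fun _ => unP y.1.1 y.1.1)

/-- unknown ports -/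
def unk (n : ℕ) (F : Fct St) : List (ℕ × Bool) := (uMi n F).map (fun v => (v, false)) ++ (uPl n F).map fun v => (v, true)

/-- code of a port -/
def cd (n : ℕ) (u : ℕ × Bool) : ℕ := bif u.2 then n + 1 + u.1 else u.1

theorem cd_inj {n : ℕ} {u w : ℕ × Bool} (hu : u.1 ≤ n) (hw : w.1 ≤ n) (h : cd n u = cd n w) : u = w := by
  obtain ⟨u, a⟩ := u
  obtain ⟨w, b⟩ := w
  simp only at hu hw
  unfold cd at h
  cases a <;> cases b <;> simp only [cond_true, cond_false] at h
  · rw [h]
  · omega
  · omega
  · have : u = w := by omega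
    rw [this]

theorem mem_unk {n : ℕ} {F : Fct St} {u : ℕ × Bool} : u ∈ unk n F ↔ u.1 ≤ n ∧ kno F (cd n u) = false := by
  obtain ⟨u, b⟩ := u
  simp only [unk, List.mem_append, List.mem_map, Prod.mk.injEq]
  cases b with
  | true =>
    simp only [cd, cond_true, and_false, Bool.false_eq_true, exists_false, and_true, exists_eq_right, false_or,
      uPl, List.mem_filter, List.mem_range, Bool.not_eq_true']
    rw [Nat.lt_succ_iff]
  | false =>
    simp only [cd, cond_false, and_true, exists_eq_right, Bool.true_eq_false, and_false, exists_false, or_false,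
      uMi, List.mem_filter, List.mem_range, Bool.not_eq_true']
    rw [Nat.lt_succ_iff]

theorem nodup_unk (n : ℕ) (F : Fct St) : (unk n F).Nodup := by
  unfold unk
  rw [List.nodup_append']
  refine ⟨?_, ?_, ?_⟩
  · refine List.Nodup.map ?_ (List.nodup_range.filter _)
    intro a b h
    simpa using h
  · refine List.Nodup.map ?_ (List.nodup_range.filter _)
    intro a b h
    simpa using h
  · rw [List.disjoint_left]
    intro u h h'
    obtain ⟨a, _, rfl⟩ := List.mem_map.1 h
    obtain ⟨b, _, h⟩ := List.mem_map.1 h'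
    simp at h

theorem tkP_eq (n : ℕ) (F : Fct St) : tkP n F = (unk n F).map (Rd.tkP (n + 1)) := by
  unfold tkP unk
  rw [List.map_append, List.map_map, List.map_map]
  rfl

theorem tkS_eq (n : ℕ) (F : Fct St) (s : ℕ) :
    tkS n F s = (unk n F).map fun u => bif decide (cd n u = s) then Rd.us (n + 1) u else Rd.un u := by
  unfold tkS unk
  rw [List.map_append, List.map_map, List.map_map]
  rfl

theorem cd_lt {n : ℕ} {u : ℕ × Bool} (h : u.1 ≤ n) : cd n u < 2 * (n + 1) := by
  obtain ⟨u, b⟩ := u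
  simp only at h
  unfold cd
  cases b <;> simp <;> omega

/-- every port has a code -/
theorem cd_surj {n s : ℕ} (h : s < 2 * (n + 1)) : ∃ u : ℕ × Bool, u.1 ≤ n ∧ cd n u = s := by
  by_cases hs : s ≤ n
  · exact ⟨(s, false), hs, rfl⟩
  · refine ⟨(s - (n + 1), true), by simp only; omega, ?_⟩
    unfold cd
    simp only [cond_true]
    omega

theorem tkS_none (n : ℕ) (F : Fct St) : tkS n F (2 * (n + 1)) = (unk n F).map Rd.un := by
  rw [tkS_eq]
  refine List.map_congr_left ?_
  intro u hu
  have h1 := cd_lt (mem_unk.1 hu).1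
  rw [decide_eq_false (by omega), cond_false]

theorem tot_tok {n : ℕ} {F : Fct St} {w : ℕ × Bool} (hw : w ∈ unk n F) :
    totS (tkS n F (cd n w)) = Rd.base (unk n F) + ev (n + 1) - Rd.pv w := by
  rw [tkS_eq, ← Rd.tot_one (nodup_unk n F) hw]
  congr 1
  refine List.map_congr_left ?_
  intro u hu
  by_cases h : u = w
  · subst h
    rw [decide_eq_true rfl, decide_eq_true rfl]
  · rw [decide_eq_false fun h' => h (cd_inj (mem_unk.1 hu).1 (mem_unk.1 hw).1 h'),
      decide_eq_false fun h' => h (Rd.code_inj h')]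

/-- the target as a vector -/
def T (n : ℕ) : ℕ → ℤ := fun v => (tgt n 1 v : ℤ)

theorem T_zero {n v : ℕ} (h : n < v) : T n v = 0 := by
  unfold T tgt
  rw [if_neg (by omega), if_neg (by omega)]
  rfl

theorem at_iff {n : ℕ} {s : St} {u : ℕ × Bool} (hu : u.1 ≤ n) (hs : ∀ v, n < v → totS s v = 0) :
    AtP n s (cd n u) ↔ totS s = T n + Rd.pv u := by
  have key : ∀ v, v < n + 1 → ((ttl s v + (if cd n u = v then 1 else 0) =
      tgt n 1 v + (if cd n u = n + 1 + v then 1 else 0)) ↔ totS s v = T n v + Rd.pv u v) := by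
    intro v hv
    rw [totS_apply, ttl_cT]
    unfold T Rd.pv cd
    obtain ⟨u, b⟩ := u
    simp only at hu
    cases b with
    | true =>
      simp only [cond_true]
      rw [if_neg (by omega), TFC.ev_apply]
      by_cases h : v = u
      · subst h
        rw [if_pos rfl, if_pos rfl]
        omega
      · rw [if_neg (by omega), if_neg h]
        omega
    | false =>
      simp only [cond_false, Pi.neg_apply]
      rw [if_neg (by omega : ¬ u = n + 1 + v), TFC.ev_apply]
      by_cases h : v = u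
      · subst h
        rw [if_pos rfl, if_pos rfl]
        omega
      · rw [if_neg (Ne.symm h), if_neg h]
        omega
  constructor
  · intro h
    funext v
    by_cases hv : v < n + 1
    · exact (key v hv).1 (h v hv)
    · rw [hs v (by omega), Pi.add_apply, T_zero (by omega), Rd.pv_zero hu (by omega)]
      rfl
  · intro h v hv
    exact (key v hv).2 (congrFun h v)

theorem tgL_at {n v : ℕ} (hv : v < n + 1) : (tgL n).getD v 0 = tgt n 1 v := by
  have h : (tgL n).getD v 0 = if v < n then 2 else 2 * n - 1 := by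
    rw [tgL, List.getD_eq_getElem?_getD, List.getElem?_map, List.getElem?_range hv]
    rfl
  rw [h, tgt]
  by_cases h1 : v < n
  · rw [if_pos h1, if_pos h1]
  · have h2 : v = n := by omega
    rw [if_neg h1, if_neg h1, if_pos h2]

theorem tst_iff {n s : ℕ} {ks : St} : tstS n (s, ks) = true ↔ AtP n ks s := by
  unfold tstS AtP
  rw [List.all_eq_true]
  constructor
  · intro h v hv
    have h1 := h v (List.mem_range.2 hv)
    rw [decide_eq_true_eq, tgL_at hv, ttl_cT] at h1
    exact h1
  · intro h v hv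
    rw [List.mem_range] at hv
    rw [decide_eq_true_eq, tgL_at hv, ttl_cT]
    exact h v hv

/-! ### legality -/

section
variable {y : SV.SI} {F : Fct St}

theorem real_append {a b : St} : realS a.length (a ++ b) = a := Rd.tk_append

theorem mem_uPo {n s : ℕ} : s ∈ uPo n F ↔ ∃ u ∈ unk n F, cd n u = s := by
  simp only [uPo, List.mem_append, List.mem_map, unk]
  constructor
  · rintro (h | ⟨v, hv, rfl⟩)
    · exact ⟨(s, false), Or.inl ⟨s, h, rfl⟩, rfl⟩
    · exact ⟨(v, true), Or.inr ⟨v, hv, rfl⟩, rfl⟩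
  · rintro ⟨u, ⟨v, hv, rfl⟩ | ⟨v, hv, rfl⟩, h⟩
    · left
      rw [← h]
      exact hv
    · right
      exact ⟨v, hv, h⟩

end

/-! ### polynomial time -/

section pt
variable {ι : Type} [DEnc ι]

theorem pt_kn {F : ι → Fct St} {s : ι → ℕ} (hF : PT F) (hs : PT s) : PT (fun x => kno (F x) (s x)) :=
  PT.any hF (p := fun y : ι × (ℕ × St) => decide (y.2.1 = s y.1)) (PT.neq PT.snd.p1 (hs.comp PT.fst))

theorem pt_mi {n : ι → ℕ} {F : ι → Fct St} (hn : PT n) (hF : PT F) : PT (fun x => uMi (n x) (F x)) :=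
  PT.filter (PT.range (PT.nsucc hn)) (p := fun y : ι × ℕ => !kno (F y.1) y.2)
    (PT.bnot (pt_kn (hF.comp PT.fst) PT.snd))

theorem pt_pl {n : ι → ℕ} {F : ι → Fct St} (hn : PT n) (hF : PT F) : PT (fun x => uPl (n x) (F x)) :=
  PT.filter (PT.range (PT.nsucc hn)) (p := fun y : ι × ℕ => !kno (F y.1) (n y.1 + 1 + y.2))
    (PT.bnot (pt_kn (hF.comp PT.fst) (PT.nadd (PT.nsucc (hn.comp PT.fst)) PT.snd)))

theorem pt_plv {n v : ι → ℕ} {F : ι → Fct St} (hn : PT n) (hF : PT F) (hv : PT v) :
    PT (fun x => plu (n x) (F x) (v x)) :=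
  PT.band (pt_kn hF hv) (PT.bnot (pt_kn hF (PT.nadd (PT.nsucc hn) hv)))

theorem pt_tgt {n : ι → ℕ} (hn : PT n) : PT (fun x => tgL (n x)) := by
  have h : ∀ x : ι, tgL (n x) =
      (List.range (n x + 1)).map fun v => bif decide (v < n x) then 2 else 2 * n x - 1 := by
    intro x
    unfold tgL
    refine List.map_congr_left fun v _ => ?_
    by_cases h1 : v < n x
    · simp [h1]
    · simp [h1]
  refine PT.congr (PT.map (PT.range (PT.nsucc hn))
    (g := fun y : ι × ℕ => bif decide (y.2 < n y.1) then 2 else 2 * n y.1 - 1)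
    (PT.cond (PT.nlt PT.snd (hn.comp PT.fst)) (PT.const 2)
      (PT.nsub (PT.nmul (PT.const 2) (hn.comp PT.fst)) (PT.const 1)))) fun x => (h x).symm

theorem pt_tkv {n : ι → ℕ} {F : ι → Fct St} (hn : PT n) (hF : PT F) : PT (fun x => tkP (n x) (F x)) := by
  refine PT.append ?_ ?_
  · exact PT.map (pt_mi hn hF) (g := fun y : ι × ℕ => unP y.2 (n y.1 + 1))
      (pt_unP PT.snd (PT.nsucc (hn.comp PT.fst)))
  · refine PT.map (pt_pl hn hF) (g := fun y : ι × ℕ => ((false, [], [[y.2], [n y.1 + 1]]) : Pc)) ?_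
    exact PT.pair (PT.const false) (PT.pair (PT.const []) (PT.cons (PT.cons PT.snd (PT.const []))
      (PT.cons (PT.cons (PT.nsucc (hn.comp PT.fst)) (PT.const [])) (PT.const []))))

theorem pt_tks {n s : ι → ℕ} {F : ι → Fct St} (hn : PT n) (hF : PT F) (hs : PT s) :
    PT (fun x => tkS (n x) (F x) (s x)) := by
  refine PT.append ?_ ?_
  · exact PT.map (pt_mi hn hF) (g := fun y : ι × ℕ => bif decide (y.2 = s y.1) then [y.2, n y.1 + 1] else [])
      (PT.cond (PT.neq PT.snd (hs.comp PT.fst)) (PT.cons PT.snd (PT.cons (PT.nsucc (hn.comp PT.fst)) (PT.const [])))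
        (PT.const []))
  · exact PT.map (pt_pl hn hF) (g := fun y : ι × ℕ =>
        bif decide (n y.1 + 1 + y.2 = s y.1) then [n y.1 + 1] else [y.2])
      (PT.cond (PT.neq (PT.nadd (PT.nsucc (hn.comp PT.fst)) PT.snd) (hs.comp PT.fst))
        (PT.cons (PT.nsucc (hn.comp PT.fst)) (PT.const [])) (PT.cons PT.snd (PT.const [])))

section
variable {y : ι → SV.SI} {F : ι → Fct St} {ks : ι → St}

variable {r : ι → ℕ × St}

end

theorem pt_one' {v w : ι → ℕ} (hv : PT v) (hw : PT w) : PT (fun x => if v x = w x then 1 else 0) := by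
  refine PT.congr (PT.cond (PT.neq hv hw) (PT.const 1) (PT.const 0)) fun x => ?_
  by_cases h : v x = w x <;> simp [h]

theorem pt_tst {n : ι → ℕ} {q : ι → ℕ × St} (hn : PT n) (hq : PT q) : PT (fun x => tstS (n x) (q x)) := by
  refine PT.all (PT.range (PT.nsucc hn)) (p := fun z : ι × ℕ =>
    decide (cT (q z.1).2 z.2 + (if (q z.1).1 = z.2 then 1 else 0) =
      (tgL (n z.1)).getD z.2 0 + (if (q z.1).1 = n z.1 + 1 + z.2 then 1 else 0))) ?_
  have h1 : PT (fun z : ι × ℕ => (q z.1).1) := PT.p1 (hq.comp PT.fst)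
  have h2 : PT (fun z : ι × ℕ => (q z.1).2) := PT.p2 (hq.comp PT.fst)
  have h3 : PT (fun z : ι × ℕ => n z.1) := hn.comp PT.fst
  exact PT.neq (PT.nadd (pt_cT h2 PT.snd) (pt_one' h1 PT.snd))
    (PT.nadd (PT.getD (pt_tgt h3) PT.snd (PT.const 0)) (pt_one' h1 (PT.nadd (PT.nsucc h3) PT.snd)))

theorem pt_uPo {n : ι → ℕ} {F : ι → Fct St} (hn : PT n) (hF : PT F) : PT (fun x => uPo (n x) (F x)) :=
  PT.append (pt_mi hn hF) (PT.map (pt_pl hn hF) (g := fun z : ι × ℕ => n z.1 + 1 + z.2)
    (PT.nadd (PT.nsucc (hn.comp PT.fst)) PT.snd))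

end pt

end Pool.Agent.PF4.SVR

end

section -- file P34/SolRd3

/-!
# The reduction step of the solver for conflict-free families: specification and polynomial time of `redS`
-/

set_option autoImplicit false

namespace Pool.Agent.P34.SVR

open Finset Pool.Agent.TFC Pool.Agent.Lib.helper60 Pool.Agent.PF4 Pool.Agent.PF4.LD Pool.Agent.P34.SV
open Pool.Agent.PF4.SV (kno uMi uPl plu tgL AtP tkP tkS realS tstS uPo)
open Pool.Agent.PF4.SVR (unk cd cd_inj mem_unk nodup_unk tkP_eq tkS_eq cd_lt cd_surj tkS_none tot_tok T T_zero at_iff tgL_at tst_iff ttl_cT real_append mem_uPo pt_kn pt_mi pt_pl pt_plv pt_tgt pt_tkv pt_tks pt_tst pt_uPo)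

/-- state -/
abbrev St : Type := List (List ℕ)

/-- default piece -/
abbrev dP : Pc := (false, [], [])

/-- default cluster -/
abbrev dC : Cl3 := (0, 0, 0, [])

/-! ### generalities -/

theorem fa_iff {P : List Pc} {ks : St} : List.Forall₂ (fun p k => pmem3 p k = true) P ks ↔ Leg pmem3 dP P ks := by
  constructor
  · exact fun h => ⟨h.length_eq.symm, fun _ hq => PF4.SV.forall2_getD h hq _ _⟩
  · intro h
    induction P generalizing ks with
    | nil =>
      have : ks = [] := List.length_eq_zero_iff.1 h.len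
      subst this
      exact List.Forall₂.nil
    | cons p P ih =>
      obtain ⟨k, s', rfl, h1, h2⟩ := Rd.leg_uncons h
      exact List.Forall₂.cons h1 (ih h2)

theorem leg_iff {g : ℕ → Pc} {N : ℕ} {Ot : List Pc} {s : St} :
    Leg pmem3 dP ((List.range N).map g ++ Ot) s ↔ s.length = N + Ot.length ∧
      (∀ i < N, pmem3 (g i) (s.getD i []) = true) ∧
        ∀ j < Ot.length, pmem3 (Ot.getD j dP) (s.getD (N + j) []) = true := by
  constructor
  · intro h
    refine ⟨by rw [h.len]; simp, ?_, ?_⟩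
    · intro i hi
      have h1 := h.mem i (by simp; omega)
      rwa [List.getD_append _ _ _ _ (by simpa using hi), List.getD_eq_getElem _ _ (by simpa using hi),
        List.getElem_map, List.getElem_range] at h1
    · intro j hj
      have h1 := h.mem (N + j) (by simp; omega)
      rwa [List.getD_append_right _ _ _ _ (by simp), List.length_map, List.length_range,
        Nat.add_sub_cancel_left] at h1
  · rintro ⟨h1, h2, h3⟩
    refine ⟨by rw [h1]; simp, ?_⟩
    intro q hq
    rw [List.length_append, List.length_map, List.length_range] at hq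
    by_cases hN : q < N
    · rw [List.getD_append _ _ _ _ (by simpa using hN), List.getD_eq_getElem _ _ (by simpa using hN),
        List.getElem_map, List.getElem_range]
      exact h2 q hN
    · rw [List.getD_append_right _ _ _ _ (by simpa using hN), List.length_map, List.length_range]
      have h4 := h3 (q - N) (by omega)
      rwa [show N + (q - N) = q by omega] at h4

/-! ### the world -/

/-- the pieces that are not clusters -/
def Ot (y : SI) : List Pc :=
  (plE3 y.1 y.2.2.2).map edP ++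
    ((slJ y.1.1 y.2.1).map (fun p => unP p.1 y.1.1) ++ (List.range y.1.1).map fun _ => unP y.1.1 y.1.1)

/-- relaxed cluster -/
def gr (y : SI) (F : Fct St) (j : ℕ) : Pc := rxP3 (y.2.2.2.getD j dC) (psi3 (plu y.1.1 F) (y.2.2.2.getD j dC))

/-- exact cluster -/
def gx (y : SI) (j : ℕ) : Pc := exP3 (y.2.2.2.getD j dC)

/-- cluster in the world -/
def gw (y : SI) (F : Fct St) (ks : St) (q j : ℕ) : Pc :=
  bif !decide (j = q) && nx y.2.2.2 ks j then gr y F j else gx y j

theorem rlP_eq (y : SI) (F : Fct St) : rlP y F = (List.range y.2.2.2.length).map (gr y F) ++ Ot y := by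
  unfold rlP pcs3 Ot
  rw [List.append_assoc, R3.map_getD]
  rfl

theorem xcP_eq (y : SI) : xcP y = (List.range y.2.2.2.length).map (gx y) ++ Ot y := by
  unfold xcP pcs3 Ot
  rw [List.append_assoc, R3.map_getD]
  rfl

theorem wPc_eq (y : SI) (F : Fct St) (ks : St) :
    wPc y F ks = ((List.range y.2.2.2.length).map (gw y F ks (fstV y.2.2.2 ks)) ++ Ot y) ++ tkP y.1.1 F := by
  unfold wPc Ot
  rw [List.append_assoc ((List.range y.2.2.2.length).map (gw y F ks (fstV y.2.2.2 ks)))]
  rw [← List.append_assoc ((List.range y.2.2.2.length).map (gw y F ks (fstV y.2.2.2 ks))),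
    ← List.append_assoc ((List.range y.2.2.2.length).map (gw y F ks (fstV y.2.2.2 ks)))]
  rfl

/-- the choice depends on the vertices of the cluster only -/
theorem psi_congr {P Q : ℕ → Bool} {c : Cl3} (h : ∀ v ∈ clV3 c, P v = Q v) : psi3 P c = psi3 Q c := by
  unfold psi3
  unfold clV3 at h
  by_cases hc : c.1 = 0
  · rw [decide_eq_true hc, cond_true] at h
    have h3 : c.2.2.2.filter P = c.2.2.2.filter Q := List.filter_congr fun v hv => h v hv
    rw [decide_eq_true hc, cond_true, cond_true, h3]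
  · rw [decide_eq_false hc, cond_false] at h
    have h1 := h c.2.1 (by simp)
    have h2 := h c.2.2.1 (by simp)
    have h3 : c.2.2.2.filter P = c.2.2.2.filter Q :=
      List.filter_congr fun v hv => h v (List.mem_cons_of_mem _ (List.mem_cons_of_mem _ hv))
    rw [decide_eq_false hc, cond_false, cond_false, h1, h2, h3]

/-! ### legality -/

section
variable {y : SI} {F : Fct St}

theorem clB_n (hy : WfS y) {c : Cl3} (hc : c ∈ y.2.2.2) : Cl3B y.1.1 c := by
  have ho := hy.c.ok c hc
  have hs := hy.c.sub c hc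
  have key : ∀ a b, s(a, b) ∈ fs (clE3 c) → a ≤ y.1.1 ∧ b ≤ y.1.1 := fun a b h =>
    ⟨(hy.x.vlt (hs h) (Sym2.mem_mk_left _ _)).le, (hy.x.vlt (hs h) (Sym2.mem_mk_right _ _)).le⟩
  obtain ⟨b, x, z, L⟩ := c
  by_cases h0 : b = 0
  · subst h0
    have h4 := ho.k4 rfl
    have hn := ho.nd
    simp only at h4 hn
    refine ⟨fun v hv => ?_, fun h => absurd rfl h⟩
    simp only at hv
    obtain ⟨u, hu, huv⟩ : ∃ u ∈ L, u ≠ v := by
      by_contra hcon
      push Not at hcon
      have h5 : L.toFinset ⊆ {v} := by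
        intro u hu
        rw [Finset.mem_singleton]
        exact hcon u (List.mem_toFinset.1 hu)
      have h6 := Finset.card_le_card h5
      rw [List.toFinset_card_of_nodup hn, Finset.card_singleton] at h6
      omega
    exact (key u v (c3_k4 hu hv huv)).2
  · obtain ⟨-, -, -, h4⟩ := ho.k2 h0
    simp only at h4
    obtain ⟨l0, hl0⟩ : ∃ l, l ∈ L := by
      cases L with
      | nil => simp at h4
      | cons a L => exact ⟨a, List.mem_cons_self⟩
    exact ⟨fun v hv => (key x v (c3_edge h0 (Or.inl rfl) hv)).2,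
      fun _ => ⟨(key x l0 (c3_edge h0 (Or.inl rfl) hl0)).1, (key z l0 (c3_edge h0 (Or.inr rfl) hl0)).1⟩⟩

theorem ok_Ot (hy : WfS y) : ∀ p ∈ Ot y, PcOK pmem3 y.1.1 p := by
  intro p hp
  rcases List.mem_append.1 hp with hp | hp
  · obtain ⟨e, he, rfl⟩ := List.mem_map.1 hp
    have h1 : fe e ∈ fs (plE3 y.1 y.2.2.2) := fe_mem_fs he
    rw [plE3, fs_rest, Finset.mem_sdiff] at h1
    have h2 := hy.x.vlt h1.1 (v := e.1) (by rw [fe]; exact Sym2.mem_mk_left _ _)
    have h3 := hy.x.vlt h1.1 (v := e.2) (by rw [fe]; exact Sym2.mem_mk_right _ _)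
    exact pcok3_edge (by omega) (by omega)
  · rcases List.mem_append.1 hp with hp | hp
    · obtain ⟨q, hq, rfl⟩ := List.mem_map.1 hp
      have := (mem_slJ.1 hq).1
      exact pcok3_pair (by omega) (by omega)
    · obtain ⟨q, hq, rfl⟩ := List.mem_map.1 hp
      exact pcok3_pair (by omega) (by omega)

theorem ok_gx (hy : WfS y) {j : ℕ} (hj : j < y.2.2.2.length) : PcOK pmem3 y.1.1 (gx y j) :=
  pcok_exP3 (clB_n hy (R3.getD_memCl hj)) (hy.c.ok _ (R3.getD_memCl hj))

theorem ok_gr (hy : WfS y) {j : ℕ} (hj : j < y.2.2.2.length) : PcOK pmem3 y.1.1 (gr y F j) :=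
  pcok_rxP3 (clB_n hy (R3.getD_memCl hj)) (hy.c.ok _ (R3.getD_memCl hj))
    (psi3_ok _ (hy.c.ok _ (R3.getD_memCl hj)))

theorem ok_real (hy : WfS y) (ks : St) (q : ℕ) :
    ∀ p ∈ (List.range y.2.2.2.length).map (gw y F ks q) ++ Ot y, PcOK pmem3 y.1.1 p := by
  intro p hp
  rw [List.mem_append, List.mem_map] at hp
  rcases hp with ⟨j, hj, rfl⟩ | hp
  · unfold gw
    cases !decide (j = q) && nx y.2.2.2 ks j with
    | true => exact ok_gr hy (List.mem_range.1 hj)
    | false => exact ok_gx hy (List.mem_range.1 hj)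
  · exact ok_Ot hy p hp

theorem ok_world (hy : WfS y) (ks : St) :
    ∀ i < (wPc y F ks).length, PcOK pmem3 (y.1.1 + 1) ((wPc y F ks).getD i dP) := by
  intro i hi
  rw [List.getD_eq_getElem _ _ hi]
  have hp := List.getElem_mem hi
  generalize (wPc y F ks)[i] = p at hp
  rw [wPc_eq, tkP_eq] at hp
  rcases List.mem_append.1 hp with hp | hp
  · exact R3.mono (ok_real hy ks _ p hp) (Nat.le_succ _)
  · obtain ⟨u, hu, rfl⟩ := List.mem_map.1 hp
    exact R3.pcok_tkP (mem_unk.1 hu).1

theorem gx_of_nx {ks : St} {j : ℕ} (h : nx y.2.2.2 ks j = false) : pmem3 (gx y j) (ks.getD j []) = true := by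
  unfold nx at h
  rw [Bool.not_eq_false'] at h
  exact h

theorem nx_of_gx {ks : St} {j : ℕ} (h : pmem3 (gx y j) (ks.getD j []) = true) : nx y.2.2.2 ks j = false := by
  unfold nx
  rw [Bool.not_eq_false']
  exact h

theorem leg_set {ks : St} {q : ℕ} (h : Leg pmem3 dP (rlP y F) ks) (hq : q < y.2.2.2.length) {m : List ℕ}
    (hm : pmem3 (gx y q) m = true) :
    Leg pmem3 dP ((List.range y.2.2.2.length).map (gw y F ks q) ++ Ot y) (setL ks q m) := by
  rw [rlP_eq] at h
  obtain ⟨h1, h2, h3⟩ := leg_iff.1 h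
  refine leg_iff.2 ⟨by rw [setL_length]; exact h1, ?_, ?_⟩
  · intro i hi
    rw [setL_getD _ _ _ (by omega)]
    unfold gw
    by_cases hiq : i = q
    · subst hiq
      rw [if_pos rfl, decide_eq_true rfl, Bool.not_true, Bool.false_and, cond_false]
      exact hm
    · rw [if_neg hiq, decide_eq_false hiq, Bool.not_false, Bool.true_and]
      cases he : nx y.2.2.2 ks i with
      | true => exact h2 i hi
      | false => exact gx_of_nx he
  · intro j hj
    rw [setL_getD _ _ _ (by omega), if_neg (by omega)]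
    exact h3 j hj

theorem leg_ex {ks ks' : St} {q : ℕ} (h : Leg pmem3 dP (xcP y) ks) :
    Leg pmem3 dP ((List.range y.2.2.2.length).map (gw y F ks' q) ++ Ot y) ks := by
  rw [xcP_eq] at h
  obtain ⟨h1, h2, h3⟩ := leg_iff.1 h
  refine leg_iff.2 ⟨h1, ?_, h3⟩
  intro i hi
  have h4 := h2 i hi
  unfold gw
  cases !decide (i = q) && nx y.2.2.2 ks' i with
  | true => exact R3.pmem3_exP_rxP h4
  | false => exact h4

theorem leg_back {ks a : St} {q : ℕ}
    (h : Leg pmem3 dP ((List.range y.2.2.2.length).map (gw y F ks q) ++ Ot y) a) : Leg pmem3 dP (rlP y F) a := by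
  rw [rlP_eq]
  obtain ⟨h1, h2, h3⟩ := leg_iff.1 h
  refine leg_iff.2 ⟨h1, ?_, h3⟩
  intro i hi
  have h4 := h2 i hi
  unfold gw at h4
  cases he : !decide (i = q) && nx y.2.2.2 ks i with
  | true => rw [he] at h4; exact h4
  | false => rw [he] at h4; exact R3.pmem3_exP_rxP h4

theorem mu_lt {ks a : St} {q : ℕ} (hq : q < y.2.2.2.length) (hq' : nx y.2.2.2 ks q = true)
    (h : Leg pmem3 dP ((List.range y.2.2.2.length).map (gw y F ks q) ++ Ot y) a) :
    muS y.2.2.2 a < muS y.2.2.2 ks := by
  obtain ⟨h1, h2, h3⟩ := leg_iff.1 h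
  refine Rd.length_filter_lt ?_ (List.mem_range.2 hq) hq' ?_
  · intro i hi hi'
    have h4 := h2 i (List.mem_range.1 hi)
    unfold gw at h4
    cases he : nx y.2.2.2 ks i with
    | true => rfl
    | false =>
      rw [he, Bool.and_false, cond_false] at h4
      rw [nx_of_gx h4] at hi'
      cases hi'
  · have h4 := h2 q hq
    unfold gw at h4
    rw [decide_eq_true rfl, Bool.not_true, Bool.false_and, cond_false] at h4
    exact nx_of_gx h4

/-- the states at the start of the pool are legal -/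
theorem st_leg (hy : WfS y) (hF : ∀ p ∈ F, FactS y p.1 p.2) {r : ℕ × St} (hr : GoodS y F r)
    (hq : fstV y.2.2.2 r.2 < y.2.2.2.length) : ∀ s ∈ stS y F r, Leg pmem3 dP (wPc y F r.2) s := by
  intro s hs
  rw [wPc_eq, tkP_eq]
  unfold stS at hs
  have hT : ∀ t, Leg pmem3 dP ((unk y.1.1 F).map (Rd.tkP (y.1.1 + 1))) (tkS y.1.1 F t) := by
    intro t
    rw [tkS_eq]
    refine Rd.leg_map ?_
    intro u _
    cases decide (cd y.1.1 u = t) with
    | true => exact R3.pmem3_us _ _
    | false => exact R3.pmem3_un _ _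
  rcases List.mem_append.1 hs with hs | hs
  · obtain ⟨m, hm, rfl⟩ := List.mem_map.1 hs
    refine Rd.leg_append (leg_set (fa_iff.1 hr.mem) hq ?_) (hT _)
    exact pmem3_complete (card43_exP3 (hy.c.ok _ (R3.getD_memCl hq))) (mvs3_sound hm)
  · obtain ⟨f, hf, rfl⟩ := List.mem_map.1 hs
    exact Rd.leg_append (leg_ex (fa_iff.1 (hF f hf).mem)) (hT _)

/-- **the pool contains a state at an unknown port** -/
theorem pool_good (hy : WfS y) (hF : ∀ p ∈ F, FactS y p.1 p.2) (hne : F ≠ []) {r : ℕ × St} (hr : GoodS y F r)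
    (hq : fstV y.2.2.2 r.2 < y.2.2.2.length) (hq' : nx y.2.2.2 r.2 (fstV y.2.2.2 r.2) = true) :
    ∃ a b, a ++ b ∈ poS y F r ∧ a.length = r.2.length ∧ ∃ u ∈ unk y.1.1 F, totS a = T y.1.1 + Rd.pv u := by
  have hW := ok_world hy (F := F) r.2
  have hS := st_leg hy hF hr hq
  have hrleg := fa_iff.1 hr.mem
  have hrlen : r.2.length = y.2.2.2.length + (Ot y).length := by
    have := hrleg
    rw [rlP_eq] at this
    exact (leg_iff.1 this).1
  obtain ⟨n, hn⟩ : ∃ n, n = y.1.1 := ⟨_, rfl⟩
  obtain ⟨u0, hu0, hcd0⟩ := cd_surj hr.lt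
  rw [← hn] at hu0 hcd0
  obtain ⟨U, hU⟩ : ∃ U, U = unk n F := ⟨_, rfl⟩
  have hUn : ∀ u ∈ U, u.1 ≤ n := fun u hu => by rw [hU] at hu; exact (mem_unk.1 hu).1
  have hu0U : u0 ∈ unk n F := mem_unk.2 ⟨hu0, by rw [hcd0]; exact hr.unk⟩
  obtain ⟨q, hqe⟩ : ∃ q, q = fstV y.2.2.2 r.2 := ⟨_, rfl⟩
  rw [← hqe] at hq hq'
  have hqC := R3.getD_memCl hq
  obtain ⟨c, hc⟩ : ∃ c, c = y.2.2.2.getD q dC := ⟨_, rfl⟩
  have hcC : c ∈ y.2.2.2 := by rw [hc]; exact hqC
  have hcok := hy.c.ok c hcC
  have hcb := clB_n hy hcC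
  -- the totals of the real parts
  have z_real : ∀ a, Leg pmem3 dP ((List.range y.2.2.2.length).map (gw y F r.2 q) ++ Ot y) a →
      ∀ v, n < v → totS a v = 0 := fun a ha v hv => R3.totS_zero ha (ok_real hy r.2 q) (by rw [← hn]; exact hv)
  have z_rl : ∀ a, Leg pmem3 dP (rlP y F) a → ∀ v, n < v → totS a v = 0 := by
    intro a ha v hv
    rw [rlP_eq] at ha
    refine R3.totS_zero (m := y.1.1) ha ?_ (by rw [← hn]; exact hv)
    intro p hp
    rw [List.mem_append, List.mem_map] at hp
    rcases hp with ⟨j, hj, rfl⟩ | hp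
    · exact ok_gr hy (List.mem_range.1 hj)
    · exact ok_Ot hy p hp
  have z_xc : ∀ a, Leg pmem3 dP (xcP y) a → ∀ v, n < v → totS a v = 0 := fun a ha v hv =>
    z_real a (leg_ex ha) v hv
  have htot : totS r.2 = T n + Rd.pv u0 := by
    refine (at_iff hu0 (z_rl _ hrleg)).1 ?_
    rw [hcd0, hn]
    exact hr.at_
  obtain ⟨o, ho⟩ : ∃ o, o = T n + Rd.base U + ev (n + 1) := ⟨_, rfl⟩
  -- the additional vector
  have hkq : pmem3 (rxP3 c (psi3 (plu n F) c)) (r.2.getD q []) = true := by
    have := hrleg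
    rw [rlP_eq] at this
    have h2 := (leg_iff.1 this).2.1 q hq
    unfold gr at h2
    rw [← hc, ← hn] at h2
    exact h2
  have hkq' : pmem3 (exP3 c) (r.2.getD q []) = false := by
    unfold nx at hq'
    rw [Bool.not_eq_true'] at hq'
    rw [hc]
    exact hq'
  obtain ⟨d, hd, hdk⟩ := pmem3_digs3 hcok hkq hkq'
  have hfd := findD_spec (fun d => eqK (r.2.getD q []) d) (digs3 c (psi3 (plu n F) c)) [] ⟨d, hd, (eqK_iff _ _).2 hdk⟩
  have hdv : dgV y F r.2 = findD (fun d => eqK (r.2.getD q []) d) (digs3 c (psi3 (plu n F) c)) [] := by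
    unfold dgV
    rw [← hqe, ← hc, ← hn]
  rw [← hdv] at hfd
  have hdk : kvec (r.2.getD q []) = kvec (dgV y F r.2) := (eqK_iff _ _).1 hfd.2
  -- the graded family
  obtain ⟨H, hH⟩ : ∃ H : ℕ → (ℕ → ℤ) → Prop, H = fun k z =>
    ∃ s ∈ poolS pmem3 dP (wPc y F r.2) (y.1.1 + 1) (List.range (y.1.1 + 2)) (stS y F r) k, totS s = z := ⟨_, rfl⟩
  have gr' : Gr (fun v => v ∈ List.range (n + 2)) H := by
    rw [hH, hn]
    refine ⟨?_, ?_⟩
    · rintro k z ⟨s, hs, rfl⟩
      exact ⟨s, poolS_mono (Nat.le_succ k) s hs, rfl⟩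
    · rintro k z w i ε hi ⟨s, hs, rfl⟩ ⟨s', hs', rfl⟩ hε hpos
      obtain ⟨s'', h4, h5⟩ := poolS_jump hW hS hs hs' hi hε hpos
      exact ⟨totS s'', ⟨s'', h4, rfl⟩, h5⟩
  have hfact : ∀ f ∈ F, ∃ u : ℕ × Bool, u.1 ≤ n ∧ f.1 = cd n u ∧ H 0 (o - ev (n + 1) + Rd.pv u) := by
    intro f hf
    have hff := hF f hf
    obtain ⟨u, g1, g2⟩ := cd_surj (n := n) (s := f.1) (by rw [hn]; have := hff.lt; omega)
    refine ⟨u, g1, g2.symm, ?_⟩
    rw [hH]
    refine ⟨f.2 ++ tkS y.1.1 F (2 * (y.1.1 + 1)), ?_, ?_⟩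
    · show _ ∈ stS y F r
      exact List.mem_append_right _ (List.mem_map.2 ⟨f, hf, rfl⟩)
    · have hfl := fa_iff.1 hff.mem
      have e1 : totS f.2 = T n + Rd.pv u := by
        refine (at_iff g1 (z_xc _ hfl)).1 ?_
        rw [g2, hn]
        exact hff.at_
      rw [Rd.totS_append, tkS_none, e1, ho, ← hn, ← hU]
      show T n + Rd.pv u + Rd.base U = _
      abel
  have FA : Facts (fun v => v ∈ List.range (n + 2)) H o (n + 1) 0 (fun v => v ≤ n ∧ kno F v = true)
      (fun v => v ≤ n ∧ kno F (n + 1 + v) = true) := by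
    have kk : ∀ s, kno F s = true → ∃ f ∈ F, f.1 = s := by
      intro s hs
      simpa [kno, List.any_eq_true] using hs
    refine ⟨gr', List.mem_range.2 (by omega), ?_, ?_, ?_⟩
    · rintro v ⟨hv, hk⟩
      obtain ⟨f, hf, hfv⟩ := kk v hk
      obtain ⟨u, g1, g2, g3⟩ := hfact f hf
      have e : u = (v, false) := cd_inj g1 hv (by rw [← g2, hfv]; rfl)
      subst e
      refine ⟨by omega, List.mem_range.2 (by omega), ?_⟩
      have e1 : o - ev (n + 1) + Rd.pv (v, false) = o - ev (n + 1) - ev v := by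
        simp only [Rd.pv, cond_false]
        abel
      rwa [e1] at g3
    · rintro v ⟨hv, hk⟩
      obtain ⟨f, hf, hfv⟩ := kk _ hk
      obtain ⟨u, g1, g2, g3⟩ := hfact f hf
      have e : u = (v, true) := cd_inj g1 hv (by rw [← g2, hfv]; rfl)
      subst e
      exact ⟨by omega, List.mem_range.2 (by omega), g3⟩
    · obtain ⟨f, hf⟩ := List.exists_mem_of_ne_nil F hne
      obtain ⟨⟨v, b⟩, g1, g2, _⟩ := hfact f hf
      have kf : kno F f.1 = true := by
        simp only [kno, List.any_eq_true, decide_eq_true_eq]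
        exact ⟨f, hf, rfl⟩
      cases b with
      | true => exact Or.inr ⟨v, g1, by rw [g2] at kf; exact kf⟩
      | false => exact Or.inl ⟨v, g1, by rw [g2] at kf; exact kf⟩
  -- the rule for the vertices of the cluster
  have hkn : ∀ v, plu n F v = true ↔ kno F v = true ∧ ¬ kno F (n + 1 + v) = true := by
    intro v
    simp [plu]
  have hVn : ∀ v ∈ clV3 c, v ≤ n := by
    intro v hv
    rw [hn]
    unfold clV3 at hv
    by_cases hc1 : c.1 = 0
    · rw [decide_eq_true hc1, cond_true] at hv
      exact hcb.1 v hv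
    · rw [decide_eq_false hc1, cond_false, List.mem_cons, List.mem_cons] at hv
      obtain ⟨b1, b2⟩ := hcb.2 hc1
      rcases hv with rfl | rfl | hv
      · exact b1
      · exact b2
      · exact hcb.1 v hv
  have hpsi : psi3 (plu n F) c = psi3 (fun v => decide (v ≤ n) && plu n F v) c := psi_congr fun v hv => by
    rw [decide_eq_true (hVn v hv), Bool.true_and]
  have hP : ∀ v, (decide (v ≤ n) && plu n F v) = true ↔ (v ≤ n ∧ kno F v = true) ∧ ¬ (v ≤ n ∧ kno F (n + 1 + v) = true) := by
    intro v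
    rw [Bool.and_eq_true, decide_eq_true_eq, hkn]
    tauto
  have hI : ∀ v ∈ clV3 c, v ∈ List.range (n + 2) ∧ v ≠ n + 1 := by
    intro v hv
    have := hVn v hv
    exact ⟨List.mem_range.2 (by omega), by omega⟩
  have hqs : q < r.2.length := by omega
  have hk : ∀ m ∈ mvs3 c (dgV y F r.2), H 0 (o - kvec (dgV y F r.2) + kvec m) := by
    intro m hm
    rw [hH]
    refine ⟨setL r.2 (fstV y.2.2.2 r.2) m ++ tkS y.1.1 F r.1, ?_, ?_⟩
    · show _ ∈ stS y F r
      refine List.mem_append_left _ (List.mem_map.2 ⟨m, ?_, rfl⟩)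
      rw [← hqe, ← hc]
      exact hm
    · rw [Rd.totS_append, ← hqe, Rd.totS_set hqs, ← hn, ← hcd0, tot_tok hu0U, htot, hdk, ho, ← hU]
      abel
  have hd' := hfd.1
  rw [hpsi] at hd'
  obtain ⟨z, hz, hz3⟩ := psi3_lemD FA hP hcok hI hd' hk
  rw [hH] at hz3
  obtain ⟨s, hs, hsz⟩ := hz3
  have hleg' := poolS_leg hW hS _ s hs
  rw [wPc_eq, tkP_eq, ← hqe, ← hn, ← hU] at hleg'
  obtain ⟨a, b, rfl, ha, hb⟩ := Rd.leg_split hleg'
  have hlen : a.length = r.2.length := by rw [ha.len, hrlen]; simp
  have ha0 := z_real a ha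
  refine ⟨a, b, hs, hlen, ?_⟩
  rw [← hn, ← hU]
  rw [Rd.totS_append] at hsz
  have t0 := ha0 (n + 1) (by omega)
  have t1 : (ev (n + 1) : ℕ → ℤ) (n + 1) = 1 := by rw [TFC.ev_apply, if_pos rfl]
  have t2 : T n (n + 1) = 0 := T_zero (by omega)
  have t3 := Rd.base_top hUn
  have t4 : o (n + 1) = 1 := by
    rw [ho, Pi.add_apply, Pi.add_apply, t1, t2, t3]
    rfl
  have tb := congrFun hsz (n + 1)
  rw [Pi.add_apply, t0, zero_add] at tb
  have unkI : ∀ w : ℕ × Bool, w.1 ≤ n → kno F (cd n w) = false → w ∈ U := fun w h1 h2 => by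
    rw [hU]
    exact mem_unk.2 ⟨h1, h2⟩
  rcases hz with rfl | ⟨v, hv, hvF, rfl⟩ | ⟨v, hv, hvF, rfl⟩
  · rw [t4] at tb
    rcases R3.tok_cases hUn hb with h4 | ⟨u, hu, h4⟩ | h4
    · rw [h4, t3] at tb
      omega
    · refine ⟨u, hu, ?_⟩
      rw [h4, ho] at hsz
      have e : totS a = totS a + (Rd.base U + ev (n + 1) - Rd.pv u) - (Rd.base U + ev (n + 1) - Rd.pv u) := by abel
      rw [e, hsz]
      abel
    · omega
  · have e1 : (ev v : ℕ → ℤ) (n + 1) = 0 := by rw [TFC.ev_apply, if_neg (Ne.symm hv)]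
    rw [Pi.sub_apply, Pi.sub_apply, t4, t1, e1] at tb
    rcases R3.tok_cases hUn hb with h4 | ⟨u, hu, h4⟩ | h4
    · have e : totS a = T n + Rd.pv (v, false) := by
        have e2 : totS a = totS a + Rd.base U - Rd.base U := by abel
        rw [e2, ← h4, hsz, ho, h4]
        simp only [Rd.pv, cond_false]
        abel
      have hvn : v ≤ n := by
        by_contra hh
        have e3 := congrFun e v
        have e4 := vec_nonneg a.flatten v
        rw [Pi.add_apply, T_zero (by omega)] at e3
        simp only [Rd.pv, cond_false, Pi.neg_apply] at e3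
        rw [TFC.ev_apply, if_pos rfl] at e3
        unfold totS at e3
        omega
      refine ⟨(v, false), unkI _ hvn ?_, e⟩
      rw [← Bool.not_eq_true]
      exact fun h => hvF ⟨hvn, h⟩
    · rw [h4, Pi.sub_apply, Pi.add_apply, t3, t1, Rd.pv_top (hUn u hu)] at tb
      omega
    · omega
  · have e1 : (ev v : ℕ → ℤ) (n + 1) = 0 := by rw [TFC.ev_apply, if_neg (Ne.symm hv)]
    rw [Pi.add_apply, Pi.sub_apply, t4, t1, e1] at tb
    rcases R3.tok_cases hUn hb with h4 | ⟨u, hu, h4⟩ | h4
    · have e : totS a = T n + Rd.pv (v, true) := by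
        have e2 : totS a = totS a + Rd.base U - Rd.base U := by abel
        rw [e2, ← h4, hsz, ho, h4]
        simp only [Rd.pv, cond_true]
        abel
      have hvn : v ≤ n := by
        by_contra hh
        have e3 := congrFun e v
        rw [Pi.add_apply, T_zero (by omega), ha0 v (by omega)] at e3
        simp only [Rd.pv, cond_true] at e3
        rw [TFC.ev_apply, if_pos rfl] at e3
        omega
      refine ⟨(v, true), unkI _ hvn ?_, e⟩
      rw [← Bool.not_eq_true]
      exact fun h => hvF ⟨hvn, h⟩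
    · rw [h4, Pi.sub_apply, Pi.add_apply, t3, t1, Rd.pv_top (hUn u hu)] at tb
      omega
    · omega

/-- **specification of the reduction step** -/
theorem red_spec (hy : WfS y) (hF : ∀ p ∈ F, FactS y p.1 p.2) (hne : F ≠ []) {r : ℕ × St} (hr : GoodS y F r)
    (hm : 0 < muS y.2.2.2 r.2) :
    GoodS y F (redS (y, F, r)) ∧ muS y.2.2.2 (redS (y, F, r)).2 < muS y.2.2.2 r.2 := by
  obtain ⟨q, hqe⟩ : ∃ q, q = fstV y.2.2.2 r.2 := ⟨_, rfl⟩
  have hqm : q ∈ (List.range y.2.2.2.length).filter fun j => nx y.2.2.2 r.2 j := by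
    unfold muS at hm
    rw [hqe]
    unfold fstV
    cases hl : (List.range y.2.2.2.length).filter fun j => nx y.2.2.2 r.2 j with
    | nil => rw [hl] at hm; simp at hm
    | cons b t => simp
  obtain ⟨hq, hq'⟩ := List.mem_filter.1 hqm
  rw [List.mem_range] at hq
  rw [hqe] at hq hq'
  obtain ⟨a, b, hab, hlen, u, hu, htot⟩ := pool_good hy hF hne hr hq hq'
  have hW := ok_world hy (F := F) r.2
  have hS := st_leg hy hF hr hq
  have hrlen : r.2.length = y.2.2.2.length + (Ot y).length := by
    have := fa_iff.1 hr.mem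
    rw [rlP_eq] at this
    exact (leg_iff.1 this).1
  have real : ∀ s ∈ poS y F r, Leg pmem3 dP ((List.range y.2.2.2.length).map (gw y F r.2 (fstV y.2.2.2 r.2)) ++ Ot y)
      (realS r.2.length s) := by
    intro s hs
    have hleg' := poolS_leg hW hS _ s hs
    rw [wPc_eq] at hleg'
    obtain ⟨a, b, rfl, ha, hb⟩ := Rd.leg_split hleg'
    have h1 : r.2.length = a.length := by rw [ha.len, hrlen]; simp
    rw [h1, real_append]
    exact ha
  have zero : ∀ s ∈ poS y F r, ∀ v, y.1.1 < v → totS (realS r.2.length s) v = 0 := fun s hs v hv =>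
    R3.totS_zero (real s hs) (ok_real hy r.2 _) hv
  have h1 : ∃ c ∈ (poS y F r).flatMap fun z => (uPo y.1.1 F).map fun s => (s, realS r.2.length z),
      tstS y.1.1 c = true := by
    refine ⟨(cd y.1.1 u, realS r.2.length (a ++ b)), ?_, ?_⟩
    · rw [List.mem_flatMap]
      exact ⟨a ++ b, hab, List.mem_map.2 ⟨cd y.1.1 u, mem_uPo.2 ⟨u, hu, rfl⟩, rfl⟩⟩
    · rw [tst_iff, at_iff (mem_unk.1 hu).1 (zero _ hab), ← hlen, real_append]
      exact htot
  obtain ⟨h2, h3⟩ := findD_spec _ _ ((0, []) : ℕ × St) h1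
  have hred : findD (tstS y.1.1) ((poS y F r).flatMap fun z => (uPo y.1.1 F).map fun s => (s, realS r.2.length z))
      (0, []) = redS (y, F, r) := rfl
  rw [hred] at h2 h3
  generalize redS (y, F, r) = c at h2 h3
  obtain ⟨z, hz, hc⟩ := List.mem_flatMap.1 h2
  obtain ⟨s, hs, rfl⟩ := List.mem_map.1 hc
  obtain ⟨w, hw, rfl⟩ := mem_uPo.1 hs
  obtain ⟨hw1, hw2⟩ := mem_unk.1 hw
  refine ⟨⟨cd_lt hw1, hw2, fa_iff.2 (leg_back (real z hz)), tst_iff.1 h3⟩, ?_⟩
  exact mu_lt hq hq' (real z hz)

end

/-! ### polynomial time -/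

section pt
variable {ι : Type} [DEnc ι]

theorem pt_nx {C : ι → List Cl3} {ks : ι → List (List ℕ)} {j : ι → ℕ} (hC : PT C) (hk : PT ks) (hj : PT j) :
    PT (fun i => nx (C i) (ks i) (j i)) :=
  PT.bnot (pt_pmem3 (pt_exP3 (PT.getD hC hj (PT.const (0, 0, 0, [])))) (PT.getD hk hj (PT.const [])))

theorem pt_plE3 {x : ι → Ins} {C : ι → List Cl3} (hx : PT x) (hC : PT C) : PT (fun i => plE3 (x i) (C i)) :=
  pt_rest (PT.p2 hx) (PT.flatMap hC (g := fun y : ι × Cl3 => clE3 y.2) (pt_clE3 PT.snd))

theorem pt_psiv {c : ι → Cl3} {n : ι → ℕ} {F : ι → Fct St} (hc : PT c) (hn : PT n) (hF : PT F) :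
    PT (fun x => psi3 (plu (n x) (F x)) (c x)) :=
  pt_psi3 (P := fun z : ι × ℕ => plu (n z.1) (F z.1) z.2) (pt_plv (hn.comp PT.fst) (hF.comp PT.fst) PT.snd) hc

theorem pt_fst {C : ι → List Cl3} {ks : ι → St} (hC : PT C) (hk : PT ks) : PT (fun x => fstV (C x) (ks x)) :=
  PT.headD (PT.filter (PT.range (PT.length hC)) (p := fun y : ι × ℕ => nx (C y.1) (ks y.1) y.2)
    (pt_nx (hC.comp PT.fst) (hk.comp PT.fst) PT.snd)) (PT.const 0)

section
variable {y : ι → SI} {F : ι → Fct St} {ks : ι → St}

theorem pt_wcl (hy : PT y) (hF : PT F) (hk : PT ks) :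
    PT (fun x => wcl (plu (y x).1.1 (F x)) (y x).2.2.2 (ks x) (fstV (y x).2.2.2 (ks x))) := by
  have hn : PT (fun x => (y x).1.1) := PT.p1 (PT.p1 hy)
  have hC : PT (fun x => (y x).2.2.2) := PT.p2 (PT.p2 (PT.p2 hy))
  have hf := pt_fst hC hk
  refine PT.map (PT.range (PT.length hC)) (g := fun z : ι × ℕ =>
    bif !decide (z.2 = fstV (y z.1).2.2.2 (ks z.1)) && nx (y z.1).2.2.2 (ks z.1) z.2 then
      rxP3 ((y z.1).2.2.2.getD z.2 (0, 0, 0, []))
        (psi3 (plu (y z.1).1.1 (F z.1)) ((y z.1).2.2.2.getD z.2 (0, 0, 0, [])))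
    else exP3 ((y z.1).2.2.2.getD z.2 (0, 0, 0, []))) ?_
  have hc : PT (fun z : ι × ℕ => (y z.1).2.2.2.getD z.2 (0, 0, 0, [])) :=
    PT.getD (hC.comp PT.fst) PT.snd (PT.const (0, 0, 0, []))
  exact PT.cond (PT.band (PT.bnot (PT.neq PT.snd (hf.comp PT.fst))) (pt_nx (hC.comp PT.fst) (hk.comp PT.fst) PT.snd))
    (pt_rxP3 hc (pt_psiv hc (hn.comp PT.fst) (hF.comp PT.fst))) (pt_exP3 hc)

theorem pt_wPc (hy : PT y) (hF : PT F) (hk : PT ks) : PT (fun x => wPc (y x) (F x) (ks x)) := by
  have hx : PT (fun x => (y x).1) := PT.p1 hy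
  have hn : PT (fun x => (y x).1.1) := PT.p1 hx
  have hg : PT (fun x => (y x).2.1) := PT.p1 (PT.p2 hy)
  have hC : PT (fun x => (y x).2.2.2) := PT.p2 (PT.p2 (PT.p2 hy))
  refine PT.append (PT.append (PT.append (pt_wcl hy hF hk) ?_) (PT.append ?_ ?_)) (pt_tkv hn hF)
  · exact PT.map (pt_plE3 hx hC) (g := fun z : ι × Ed => edP z.2) (PF4.SV.pt_edP PT.snd)
  · exact PT.map (PF4.SV.pt_slJ hn hg) (g := fun z : ι × (ℕ × ℕ) => unP z.2.1 (y z.1).1.1)
      (PF4.SV.pt_unP PT.snd.p1 (hn.comp PT.fst))
  · exact PT.map (PT.range hn) (g := fun z : ι × ℕ => unP (y z.1).1.1 (y z.1).1.1)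
      (PF4.SV.pt_unP (hn.comp PT.fst) (hn.comp PT.fst))

theorem pt_dgV (hy : PT y) (hF : PT F) (hk : PT ks) : PT (fun x => dgV (y x) (F x) (ks x)) := by
  have hn : PT (fun x => (y x).1.1) := PT.p1 (PT.p1 hy)
  have hC : PT (fun x => (y x).2.2.2) := PT.p2 (PT.p2 (PT.p2 hy))
  have hf := pt_fst hC hk
  have hc : PT (fun x => (y x).2.2.2.getD (fstV (y x).2.2.2 (ks x)) (0, 0, 0, [])) :=
    PT.getD hC hf (PT.const (0, 0, 0, []))
  have hkq : PT (fun x => (ks x).getD (fstV (y x).2.2.2 (ks x)) []) := PT.getD hk hf (PT.const [])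
  exact pt_findD (p := fun z : ι × List ℕ => eqK ((ks z.1).getD (fstV (y z.1).2.2.2 (ks z.1)) []) z.2)
    (pt_eqK (hkq.comp PT.fst) PT.snd) (pt_digs3 hc (pt_psiv hc hn hF)) (PT.const [])

variable {r : ι → ℕ × St}

theorem pt_stS (hy : PT y) (hF : PT F) (hr : PT r) : PT (fun x => stS (y x) (F x) (r x)) := by
  have hn : PT (fun x => (y x).1.1) := PT.p1 (PT.p1 hy)
  have hC : PT (fun x => (y x).2.2.2) := PT.p2 (PT.p2 (PT.p2 hy))
  have hk : PT (fun x => (r x).2) := PT.p2 hr
  have hf := pt_fst hC hk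
  have hc : PT (fun x => (y x).2.2.2.getD (fstV (y x).2.2.2 (r x).2) (0, 0, 0, [])) :=
    PT.getD hC hf (PT.const (0, 0, 0, []))
  refine PT.append ?_ ?_
  · refine PT.map (pt_mvs3 hc (pt_dgV hy hF hk)) (g := fun z : ι × List ℕ =>
      setL (r z.1).2 (fstV (y z.1).2.2.2 (r z.1).2) z.2 ++ tkS (y z.1).1.1 (F z.1) (r z.1).1) ?_
    exact PT.append (pt_setL (hk.comp PT.fst) (hf.comp PT.fst) PT.snd)
      (pt_tks (hn.comp PT.fst) (hF.comp PT.fst) (PT.p1 (hr.comp PT.fst)))
  · refine PT.map hF (g := fun z : ι × (ℕ × St) => z.2.2 ++ tkS (y z.1).1.1 (F z.1) (2 * ((y z.1).1.1 + 1))) ?_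
    exact PT.append PT.snd.p2 (pt_tks (hn.comp PT.fst) (hF.comp PT.fst)
      (PT.nmul (PT.const 2) (PT.nsucc (hn.comp PT.fst))))

theorem pt_poS (hy : PT y) (hF : PT F) (hr : PT r) : PT (fun x => poS (y x) (F x) (r x)) := by
  have hn : PT (fun x => (y x).1.1) := PT.p1 (PT.p1 hy)
  exact pt_poolS (mem := pmem3) (pt_pmem3 PT.fst PT.snd) (false, [], []) (pt_wPc hy hF (PT.p2 hr)) (PT.nsucc hn)
    (PT.range (PT.nadd hn (PT.const 2))) (pt_stS hy hF hr) 3

end

theorem pt_redS : PT redS := by
  have hy : PT (fun w : SI × Fct St × ℕ × St => w.1) := PT.fst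
  have hF : PT (fun w : SI × Fct St × ℕ × St => w.2.1) := PT.snd.p1
  have hr : PT (fun w : SI × Fct St × ℕ × St => w.2.2) := PT.snd.p2
  have hn : PT (fun w : SI × Fct St × ℕ × St => w.1.1.1) := PT.p1 (PT.p1 hy)
  have hk : PT (fun w : SI × Fct St × ℕ × St => w.2.2.2) := PT.p2 hr
  refine pt_findD (p := fun z : (SI × Fct St × ℕ × St) × (ℕ × St) => tstS z.1.1.1.1 z.2)
    (pt_tst (hn.comp PT.fst) PT.snd) ?_ (PT.const (0, []))
  refine PT.flatMap (pt_poS hy hF hr) (g := fun z : (SI × Fct St × ℕ × St) × St =>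
    (uPo z.1.1.1.1 z.1.2.1).map fun s => (s, realS z.1.2.2.2.length z.2)) ?_
  refine PT.map (pt_uPo (hn.comp PT.fst) (hF.comp PT.fst)) (g := fun z : ((SI × Fct St × ℕ × St) × St) × ℕ =>
    (z.2, realS z.1.1.2.2.2.length z.1.2)) ?_
  have e0 : PT (fun z : ((SI × Fct St × ℕ × St) × St) × ℕ => z.1.1) := PT.fst.comp PT.fst
  have e1 : PT (fun z : ((SI × Fct St × ℕ × St) × St) × ℕ => z.1.1.2.2.2.length) := PT.length (hk.comp e0)
  exact PT.pair PT.snd (Rd.pt_tk e1 PT.fst.p2)

end pt

end Pool.Agent.P34.SVR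

end
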