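import Pool.Agent.PFN.M09
import Pool.Agent.PFN.M13

section -- file P34/Res3

/-!
Resolution for short cycles: two members of a minimal blocking family share exactly one edge only if they are triangles
and the union square is in the family.
-/

set_option autoImplicit false
set_option linter.unusedSectionVars false
set_option linter.unusedSimpArgs false
set_option linter.unusedTactic false
set_option linter.unreachableTactic false

namespace Pool.Agent.P34

open Finset Pool.Agent.TFC Pool.Agent.TFC.CE Pool.Agent.PF4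
open Pool.Agent.PF4.XF (XD FitK Cv)
open Pool.Agent.PF4.XF.Rs (par_dv dv_split dg_zero pull_st SJ four_st)

namespace Rs

/-- a vector of distinct entries is injective -/
theorem injv {α : Type*} {n : ℕ} {f : Fin n → α} (h : (List.ofFn f).Nodup) : Function.Injective f :=
  List.nodup_ofFn.1 h

theorem fit_base {X : XD3} (hX : X.OK) {L H : Finset (Sym2 ℕ)} (hM : M2 L) (hE : L ⊆ X.E) (hC : Cv X.toXD L)
    (hH : H ⊆ X.E2) : FitK X.toXD (L \ H) (dv (L ∩ H)) := by
  have hs := dv_split hM.nl H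
  have hz : ∀ v, X.n ≤ v → dv (L ∩ H) v = 0 := by
    intro v hv
    rw [dv_apply, dg_zero]
    · rfl
    · intro e he hve
      have := hX.lt e (hE (mem_inter.1 he).1) v hve
      omega
  refine ⟨?_, ?_, ?_, Or.inl (hz _ le_rfl), par_dv (hM.nl.mono inter_subset_left) ?_, fun v hv => hz v hv.le⟩
  · intro v hv
    have h1 := hs v
    have h2 := hC v hv
    rw [dv_apply L v, h2] at h1
    push_cast at h1
    linarith
  · intro v _ _
    have h1 := hs v
    have h2 := hM.le v
    rw [dv_apply L v] at h1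
    refine ⟨by rw [dv_apply]; exact Nat.cast_nonneg _, ?_⟩
    have h3 : (dg L v : ℤ) ≤ 2 := by exact_mod_cast h2
    linarith
  · intro v _ hv
    rw [dv_apply, dg_zero]
    · rfl
    · intro e he hve
      exact hv (hX.ev e (hH (mem_inter.1 he).2) v hve)
  · intro e he v hv
    exact hX.lt e (hE (mem_inter.1 he).1) v hv

/-- the data of a conflict -/
structure Ctx (X : XD3) (P : ℕ → Finset (Sym2 ℕ) → Prop) (D : Finset (Finset (Sym2 ℕ))) (j m : ℕ)
    (L1 L2 Z1 Z2 : Finset (Sym2 ℕ)) : Prop where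
  hX : X.OK
  hP : XP3 X P
  hD : Blk3 X P D j m
  hm : 10 ≤ m
  z1 : Z1 ∈ D
  z2 : Z2 ∈ D
  p1 : P j L1
  p2 : P j L2
  c1 : Cv X.toXD L1
  c2 : Cv X.toXD L2
  s1 : Z1 ⊆ L1
  s2 : Z2 ⊆ L2
  w1 : ∀ Y ∈ D, Y ⊆ L1 → Y = Z1
  w2 : ∀ Y ∈ D, Y ⊆ L2 → Y = Z2

/-- there is an outer part with demand vector `k` -/
def Out (X : XD3) (P : ℕ → Finset (Sym2 ℕ) → Prop) (L1 L2 H : Finset (Sym2 ℕ)) (t : ℕ) (k : ℕ → ℤ) : Prop :=
  ∃ O, P t O ∧ FitK X.toXD O k ∧ Disjoint O H ∧ O ⊆ L1 ∪ L2 ∧
    ∀ Y, IsSh Y → Y ⊆ O → Y ⊆ L1 \ H ∨ Y ⊆ L2 \ H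

section
variable {X : XD3} {P : ℕ → Finset (Sym2 ℕ) → Prop} {D : Finset (Finset (Sym2 ℕ))} {j m : ℕ}
  {L1 L2 Z1 Z2 H : Finset (Sym2 ℕ)}

theorem Out.mono (hP : XP3 X P) {s t : ℕ} (h : s ≤ t) {k : ℕ → ℤ} (hk : Out X P L1 L2 H s k) :
    Out X P L1 L2 H t k := by
  obtain ⟨O, h1, h2⟩ := hk
  exact ⟨O, hP.mono' h h1, h2⟩

theorem Out.ex (hP : XP3 X P) {t : ℕ} {k k' : ℕ → ℤ} (h : Out X P L1 L2 H t k)
    (h' : Out X P L1 L2 H t k') (i : ℕ) (ε : ℤ) (hi : i ∈ X.V2 ∨ i = X.n) (hε : ε = 1 ∨ ε = -1)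
    (h0 : 0 < ε * (k' i - k i)) : ∃ k'', Out X P L1 L2 H (t + 1) k'' ∧ Two k k' k'' i ε := by
  obtain ⟨O, h1, h2, h3, h5, h4⟩ := h
  obtain ⟨O', h1', h2', h3', h5', h4'⟩ := h'
  obtain ⟨O'', k'', g1, g2, g3, g4, g5⟩ := hP.ex t O O' k k' h1 h1' h2 h2' i ε hi hε h0
  refine ⟨k'', ⟨O'', g1, g2, ?_, g3.trans (union_subset h5 h5'), ?_⟩, g5⟩
  · exact (disjoint_union_left.2 ⟨h3, h3'⟩).mono_left g3
  · intro Y hY hYO
    rcases g4 Y hY hYO with h | h
    · exact h4 Y hY h
    · exact h4' Y hY h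

theorem Ctx.hH (C : Ctx X P D j m L1 L2 Z1 Z2) : Z1 ∪ Z2 ⊆ X.E2 :=
  union_subset (C.hD.hs _ C.z1).2.1 (C.hD.hs _ C.z2).2.1

theorem Ctx.out1 (C : Ctx X P D j m L1 L2 Z1 Z2) :
    Out X P L1 L2 (Z1 ∪ Z2) (j + 1) (dv (L1 ∩ (Z1 ∪ Z2))) :=
  ⟨L1 \ (Z1 ∪ Z2), C.hP.del j L1 _ C.p1 C.hH, fit_base C.hX (C.hP.m2 j _ C.p1).1 (C.hP.m2 j _ C.p1).2 C.c1 C.hH,
    sdiff_disjoint, sdiff_subset.trans subset_union_left, fun _ _ h => Or.inl h⟩

theorem Ctx.out2 (C : Ctx X P D j m L1 L2 Z1 Z2) :
    Out X P L1 L2 (Z1 ∪ Z2) (j + 1) (dv (L2 ∩ (Z1 ∪ Z2))) :=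
  ⟨L2 \ (Z1 ∪ Z2), C.hP.del j L2 _ C.p2 C.hH, fit_base C.hX (C.hP.m2 j _ C.p2).1 (C.hP.m2 j _ C.p2).2 C.c2 C.hH,
    sdiff_disjoint, sdiff_subset.trans subset_union_right, fun _ _ h => Or.inr h⟩

/-- a completion all of whose new short cycles are near contains a member of the family which is new -/
theorem Ctx.complete' (C : Ctx X P D j m L1 L2 Z1 Z2) {t : ℕ} (ht : t < j + m) {O K : Finset (Sym2 ℕ)}
    {k : ℕ → ℤ} (hO : P t O) (hk : FitK X.toXD O k) (hd : Disjoint O (Z1 ∪ Z2))
    (hsq : ∀ Y, IsSh Y → Y ⊆ O → Y ⊆ L1 \ (Z1 ∪ Z2) ∨ Y ⊆ L2 \ (Z1 ∪ Z2)) (hK : K ⊆ Z1 ∪ Z2)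
    (hdv : dv K = k) (hno : M2 (O ∪ K) → ∀ Z, IsSh Z → Z ⊆ O ∪ K → Z ⊆ O ∨ ∃ v ∈ X.VN, Vx Z v) :
    M2 (O ∪ K) ∧ ∃ Y ∈ D, Y ⊆ O ∪ K ∧ ¬ Y ⊆ O := by
  have hKE : K ⊆ X.E2 := hK.trans C.hH
  have hOE : O ⊆ X.E := (C.hP.m2 t O hO).2
  have hUE : O ∪ K ⊆ X.E := union_subset hOE (hKE.trans C.hX.e2)
  have hdis : Disjoint O K := hd.mono_right hK
  have hU : ∀ v, dv (O ∪ K) v = dv O v + k v := by
    intro v
    rw [dv_union (C.hX.nl.mono hOE) (C.hX.nl.mono (hKE.trans C.hX.e2)) hdis, Pi.add_apply, hdv]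
  have hM : M2 (O ∪ K) := by
    refine M2.of_dv (C.hX.nl.mono hUE) fun v => ?_
    by_cases hv : v < X.n
    · rw [hU v]
      have := PF4.XF.Rs.FitK.le hk hv
      linarith
    · rw [dv_apply, dg_zero]
      · norm_num
      · intro e he hve
        exact hv (C.hX.lt e (hUE he) v hve)
  have hC : Cv X.toXD (O ∪ K) := by
    intro v hv
    have h1 := hU v
    rw [hk.t v hv, dv_apply] at h1
    have h2 : (dg (O ∪ K) v : ℤ) = 2 := by linarith
    exact_mod_cast h2
  have hPU : P (t + 1) (O ∪ K) := C.hP.add t O K hO hKE hM fun Y hY hYU => hno hM Y hY.sh hYU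
  obtain ⟨Y, hYD, hYU⟩ := C.hD.blk (t + 1) (by omega) _ hPU hC
  refine ⟨hM, Y, hYD, hYU, fun hYO => ?_⟩
  have hYs := (C.hD.hs Y hYD).1.sh
  have hYn : ∃ e, e ∈ Y := by
    rcases hYs with ⟨a, b, c, _, rfl⟩ | ⟨a, b, c, d, _, rfl⟩
    · exact ⟨s(a, b), by simp [tri]⟩
    · exact ⟨s(a, b), by simp [TFC.sq]⟩
  obtain ⟨e, he⟩ := hYn
  rcases hsq Y hYs hYO with h | h
  · have h1 := C.w1 Y hYD (h.trans sdiff_subset)
    have h2 := (mem_sdiff.1 (h he)).2
    rw [h1] at he
    exact h2 (mem_union_left _ he)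
  · have h1 := C.w2 Y hYD (h.trans sdiff_subset)
    have h2 := (mem_sdiff.1 (h he)).2
    rw [h1] at he
    exact h2 (mem_union_right _ he)

/-- a completion without new short cycles is impossible -/
theorem Ctx.complete (C : Ctx X P D j m L1 L2 Z1 Z2) {t : ℕ} (ht : t < j + m) {O K : Finset (Sym2 ℕ)}
    {k : ℕ → ℤ} (hO : P t O) (hk : FitK X.toXD O k) (hd : Disjoint O (Z1 ∪ Z2))
    (hsq : ∀ Y, IsSh Y → Y ⊆ O → Y ⊆ L1 \ (Z1 ∪ Z2) ∨ Y ⊆ L2 \ (Z1 ∪ Z2)) (hK : K ⊆ Z1 ∪ Z2)
    (hdv : dv K = k) (hno : M2 (O ∪ K) → ∀ Z, IsSh Z → Z ⊆ O ∪ K → ∀ e ∈ Z, e ∉ K) : False := by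
  have key : M2 (O ∪ K) → ∀ Z, IsSh Z → Z ⊆ O ∪ K → Z ⊆ O := fun hM Z hZ hs e he =>
    (mem_union.1 (hs he)).resolve_right (hno hM Z hZ hs e he)
  obtain ⟨hM, Y, hYD, h1, h2⟩ := C.complete' ht hO hk hd hsq hK hdv fun hM Z hZ hs => Or.inl (key hM Z hZ hs)
  exact h2 (key hM Y (C.hD.hs Y hYD).1.sh h1)

end

/-- the data, six vertices -/
structure Dat6 (X : XD3) (P : ℕ → Finset (Sym2 ℕ) → Prop) (D : Finset (Finset (Sym2 ℕ))) (j m : ℕ)
    (L1 L2 : Finset (Sym2 ℕ)) (x y p q r t : ℕ) : Prop where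
  ctx : Ctx X P D j m L1 L2 (TFC.sq x y q p) (TFC.sq x y r t)
  six : Six x y p q r t

section six

variable {X : XD3} {P : ℕ → Finset (Sym2 ℕ) → Prop} {D : Finset (Finset (Sym2 ℕ))} {j m : ℕ}
  {L1 L2 : Finset (Sym2 ℕ)} {x y p q r t : ℕ}

/-- the demand vector: degree 2 at all six vertices -/
def bas6 (x y p q r t : ℕ) : ℕ → ℤ := fun v => 2 * ev x v + 2 * ev y v + 2 * ev p v + 2 * ev q v +
  2 * ev r v + 2 * ev t v

/-- outer part with given degrees at `p, q, r, t` -/
def O6 (X : XD3) (P : ℕ → Finset (Sym2 ℕ) → Prop) (L1 L2 : Finset (Sym2 ℕ)) (x y p q r t : ℕ) (s : ℕ)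
    (k : Fin 4 → ℤ) : Prop :=
  Out X P L1 L2 (TFC.sq x y q p ∪ TFC.sq x y r t) s (bas6 x y p q r t - put ![p, q, r, t] k)

theorem dem6 (k : Fin 4 → ℤ) (v : ℕ) : (bas6 x y p q r t - put ![p, q, r, t] k) v =
    2 * ev x v + 2 * ev y v + (2 - k 0) * ev p v +
      (2 - k 1) * ev q v + (2 - k 2) * ev r v + (2 - k 3) * ev t v := by
  rw [Pi.sub_apply, put4, bas6]
  simp
  ring

/-- completion for a given outer part -/
lemma completeO (D : Dat6 X P D j m L1 L2 x y p q r t) {k : Fin 4 → ℤ} {s : ℕ} (hs : s ≤ j + 4)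
    {O : Finset (Sym2 ℕ)} (hO : P s O) (hk : FitK X.toXD O (bas6 x y p q r t - put ![p, q, r, t] k))
    (hd : Disjoint O (TFC.sq x y q p ∪ TFC.sq x y r t))
    (hsq : ∀ Y, IsSh Y → Y ⊆ O → Y ⊆ L1 \ (TFC.sq x y q p ∪ TFC.sq x y r t) ∨
      Y ⊆ L2 \ (TFC.sq x y q p ∪ TFC.sq x y r t))
    (l : List (Sym2 ℕ)) (hn : l.Nodup) (hl : ∀ e ∈ l, ¬ e.IsDiag)
    (hlH : ∀ e ∈ l, e ∈ TFC.sq x y q p ∪ TFC.sq x y r t)
    (hsum : ∀ v, (l.map esum).sum v = 2 * ev x v + 2 * ev y v + (2 - k 0) * ev p v +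
      (2 - k 1) * ev q v + (2 - k 2) * ev r v + (2 - k 3) * ev t v)
    (hno : M2 (O ∪ l.toFinset) → ∀ Z, IsSh Z → Z ⊆ O ∪ l.toFinset → ∀ e ∈ Z, e ∉ l.toFinset) :
    False := by
  have := D.ctx.hm
  refine D.ctx.complete (t := s) (by omega) hO hk hd hsq (K := l.toFinset) ?_ ?_ hno
  · intro e he
    exact hlH e (List.mem_toFinset.mp he)
  · funext v
    rw [dv_list hn hl, hsum v, dem6]

lemma complete (D : Dat6 X P D j m L1 L2 x y p q r t) {k : Fin 4 → ℤ} {s : ℕ} (hs : s ≤ j + 4)
    (h : O6 X P L1 L2 x y p q r t s k)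
    (l : List (Sym2 ℕ)) (hn : l.Nodup) (hl : ∀ e ∈ l, ¬ e.IsDiag)
    (hlH : ∀ e ∈ l, e ∈ TFC.sq x y q p ∪ TFC.sq x y r t)
    (hsum : ∀ v, (l.map esum).sum v = 2 * ev x v + 2 * ev y v + (2 - k 0) * ev p v +
      (2 - k 1) * ev q v + (2 - k 2) * ev r v + (2 - k 3) * ev t v)
    (hno : ∀ O, Disjoint O (TFC.sq x y q p ∪ TFC.sq x y r t) → M2 (O ∪ l.toFinset) →
      ∀ Z, IsSh Z → Z ⊆ O ∪ l.toFinset → ∀ e ∈ Z, e ∉ l.toFinset) :
    False := by
  obtain ⟨O, hO, hk, hd, -, hsq⟩ := h
  exact completeO D hs hO hk hd hsq l hn hl hlH hsum (hno O hd)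

/-- completion by a connected set with at least five vertices -/
lemma complete5 (D : Dat6 X P D j m L1 L2 x y p q r t) {k : Fin 4 → ℤ} {s : ℕ} (hs : s ≤ j + 4)
    (h : O6 X P L1 L2 x y p q r t s k)
    (l : List (Sym2 ℕ)) (hn : l.Nodup) (hl : ∀ e ∈ l, ¬ e.IsDiag)
    (hlH : ∀ e ∈ l, e ∈ TFC.sq x y q p ∪ TFC.sq x y r t)
    (hsum : ∀ v, (l.map esum).sum v = 2 * ev x v + 2 * ev y v + (2 - k 0) * ev p v +
      (2 - k 1) * ev q v + (2 - k 2) * ev r v + (2 - k 3) * ev t v)
    (v : Fin 5 → ℕ) (hv : Function.Injective v) (h01 : s(v 0, v 1) ∈ l) (h12 : s(v 1, v 2) ∈ l)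
    (h23 : s(v 2, v 3) ∈ l) (h34 : s(v 3, v 4) ∈ l) (hcov : ∀ e ∈ l, ∃ i, v i ∈ e) :
    False := by
  refine complete D hs h l hn hl hlH hsum fun O _ hM => ?_
  have hm : ∀ {e}, e ∈ l → e ∈ O ∪ l.toFinset := fun he =>
    mem_union_right _ (List.mem_toFinset.mpr he)
  intro Z hZ hs
  exact fin5s hM hv (hm h01) (hm h12) (hm h23) (hm h34) (fun e he => hcov e (List.mem_toFinset.mp he)) hZ hs

lemma c1100 (D : Dat6 X P D j m L1 L2 x y p q r t) {s : ℕ} (hs : s ≤ j + 4)
    (h : O6 X P L1 L2 x y p q r t s ![1, 1, 0, 0]) : False := by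
  have s6 := D.six
  refine complete5 D hs h [s(p, x), s(t, x), s(r, t), s(y, r), s(y, q)] ?_ ?_ ?_ ?_ ![p, x, t, r, y] ?_ ?_ ?_ ?_ ?_ ?_
  · simp [Sym2.eq_iff, s6.all]
  · simp [Sym2.eq_iff, s6.all]
  · intro e he
    simp only [List.mem_cons, List.not_mem_nil, or_false] at he
    rcases he with he | he | he | he | he <;> subst he <;> simp [TFC.sq]
  · intro v
    simp
    ring
  · (refine injv ?_; simp [s6.all])
  · simp [Sym2.eq_iff, s6.all]
  · simp [Sym2.eq_iff, s6.all]
  · simp [Sym2.eq_iff, s6.all]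
  · simp [Sym2.eq_iff, s6.all]
  · intro e he
    simp only [List.mem_cons, List.not_mem_nil, or_false] at he
    rcases he with he | he | he | he | he <;> subst he <;>
      first | (refine ⟨0, ?_⟩; simp; done) | (refine ⟨1, ?_⟩; simp; done) | (refine ⟨2, ?_⟩; simp; done) |
        (refine ⟨3, ?_⟩; simp; done) | (refine ⟨4, ?_⟩; simp; done)

lemma c0011 (D : Dat6 X P D j m L1 L2 x y p q r t) {s : ℕ} (hs : s ≤ j + 4)
    (h : O6 X P L1 L2 x y p q r t s ![0, 0, 1, 1]) : False := by
  have s6 := D.six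
  refine complete5 D hs h [s(t, x), s(p, x), s(q, p), s(y, q), s(y, r)] ?_ ?_ ?_ ?_ ![t, x, p, q, y] ?_ ?_ ?_ ?_ ?_ ?_
  · simp [Sym2.eq_iff, s6.all]
  · simp [Sym2.eq_iff, s6.all]
  · intro e he
    simp only [List.mem_cons, List.not_mem_nil, or_false] at he
    rcases he with he | he | he | he | he <;> subst he <;> simp [TFC.sq]
  · intro v
    simp
    ring
  · (refine injv ?_; simp [s6.all])
  · simp [Sym2.eq_iff, s6.all]
  · simp [Sym2.eq_iff, s6.all]
  · simp [Sym2.eq_iff, s6.all]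
  · simp [Sym2.eq_iff, s6.all]
  · intro e he
    simp only [List.mem_cons, List.not_mem_nil, or_false] at he
    rcases he with he | he | he | he | he <;> subst he <;>
      first | (refine ⟨0, ?_⟩; simp; done) | (refine ⟨1, ?_⟩; simp; done) | (refine ⟨2, ?_⟩; simp; done) |
        (refine ⟨3, ?_⟩; simp; done) | (refine ⟨4, ?_⟩; simp; done)

lemma c0000 (D : Dat6 X P D j m L1 L2 x y p q r t) {s : ℕ} (hs : s ≤ j + 4)
    (h : O6 X P L1 L2 x y p q r t s ![0, 0, 0, 0]) : False := by
  have s6 := D.six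
  refine complete5 D hs h [s(p, x), s(t, x), s(r, t), s(y, r), s(y, q), s(q, p)] ?_ ?_ ?_ ?_ ![p, x, t, r, y] ?_ ?_ ?_ ?_ ?_ ?_
  · simp [Sym2.eq_iff, s6.all]
  · simp [Sym2.eq_iff, s6.all]
  · intro e he
    simp only [List.mem_cons, List.not_mem_nil, or_false] at he
    rcases he with he | he | he | he | he | he <;> subst he <;> simp [TFC.sq]
  · intro v
    simp
    ring
  · (refine injv ?_; simp [s6.all])
  · simp [Sym2.eq_iff, s6.all]
  · simp [Sym2.eq_iff, s6.all]
  · simp [Sym2.eq_iff, s6.all]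
  · simp [Sym2.eq_iff, s6.all]
  · intro e he
    simp only [List.mem_cons, List.not_mem_nil, or_false] at he
    rcases he with he | he | he | he | he | he <;> subst he <;>
      first | (refine ⟨0, ?_⟩; simp; done) | (refine ⟨1, ?_⟩; simp; done) | (refine ⟨2, ?_⟩; simp; done) |
        (refine ⟨3, ?_⟩; simp; done) | (refine ⟨4, ?_⟩; simp; done)

lemma c1201 (D : Dat6 X P D j m L1 L2 x y p q r t) {s : ℕ} (hs : s ≤ j + 4)
    (h : O6 X P L1 L2 x y p q r t s ![1, 2, 0, 1]) : False := by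
  have s6 := D.six
  refine complete5 D hs h [s(r, t), s(y, r), s(x, y), s(p, x)] ?_ ?_ ?_ ?_ ![t, r, y, x, p] ?_ ?_ ?_ ?_ ?_ ?_
  · simp [Sym2.eq_iff, s6.all]
  · simp [Sym2.eq_iff, s6.all]
  · intro e he
    simp only [List.mem_cons, List.not_mem_nil, or_false] at he
    rcases he with he | he | he | he <;> subst he <;> simp [TFC.sq]
  · intro v
    simp
    ring
  · (refine injv ?_; simp [s6.all])
  · simp [Sym2.eq_iff, s6.all]
  · simp [Sym2.eq_iff, s6.all]
  · simp [Sym2.eq_iff, s6.all]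
  · simp [Sym2.eq_iff, s6.all]
  · intro e he
    simp only [List.mem_cons, List.not_mem_nil, or_false] at he
    rcases he with he | he | he | he <;> subst he <;>
      first | (refine ⟨0, ?_⟩; simp; done) | (refine ⟨1, ?_⟩; simp; done) | (refine ⟨2, ?_⟩; simp; done) |
        (refine ⟨3, ?_⟩; simp; done) | (refine ⟨4, ?_⟩; simp; done)

lemma c2110 (D : Dat6 X P D j m L1 L2 x y p q r t) {s : ℕ} (hs : s ≤ j + 4)
    (h : O6 X P L1 L2 x y p q r t s ![2, 1, 1, 0]) : False := by
  have s6 := D.six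
  refine complete5 D hs h [s(r, t), s(t, x), s(x, y), s(y, q)] ?_ ?_ ?_ ?_ ![r, t, x, y, q] ?_ ?_ ?_ ?_ ?_ ?_
  · simp [Sym2.eq_iff, s6.all]
  · simp [Sym2.eq_iff, s6.all]
  · intro e he
    simp only [List.mem_cons, List.not_mem_nil, or_false] at he
    rcases he with he | he | he | he <;> subst he <;> simp [TFC.sq]
  · intro v
    simp
    ring
  · (refine injv ?_; simp [s6.all])
  · simp [Sym2.eq_iff, s6.all]
  · simp [Sym2.eq_iff, s6.all]
  · simp [Sym2.eq_iff, s6.all]
  · simp [Sym2.eq_iff, s6.all]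
  · intro e he
    simp only [List.mem_cons, List.not_mem_nil, or_false] at he
    rcases he with he | he | he | he <;> subst he <;>
      first | (refine ⟨0, ?_⟩; simp; done) | (refine ⟨1, ?_⟩; simp; done) | (refine ⟨2, ?_⟩; simp; done) |
        (refine ⟨3, ?_⟩; simp; done) | (refine ⟨4, ?_⟩; simp; done)

lemma c1021 (D : Dat6 X P D j m L1 L2 x y p q r t) {s : ℕ} (hs : s ≤ j + 4)
    (h : O6 X P L1 L2 x y p q r t s ![1, 0, 2, 1]) : False := by
  have s6 := D.six
  refine complete5 D hs h [s(q, p), s(y, q), s(x, y), s(t, x)] ?_ ?_ ?_ ?_ ![p, q, y, x, t] ?_ ?_ ?_ ?_ ?_ ?_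
  · simp [Sym2.eq_iff, s6.all]
  · simp [Sym2.eq_iff, s6.all]
  · intro e he
    simp only [List.mem_cons, List.not_mem_nil, or_false] at he
    rcases he with he | he | he | he <;> subst he <;> simp [TFC.sq]
  · intro v
    simp
    ring
  · (refine injv ?_; simp [s6.all])
  · simp [Sym2.eq_iff, s6.all]
  · simp [Sym2.eq_iff, s6.all]
  · simp [Sym2.eq_iff, s6.all]
  · simp [Sym2.eq_iff, s6.all]
  · intro e he
    simp only [List.mem_cons, List.not_mem_nil, or_false] at he
    rcases he with he | he | he | he <;> subst he <;>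
      first | (refine ⟨0, ?_⟩; simp; done) | (refine ⟨1, ?_⟩; simp; done) | (refine ⟨2, ?_⟩; simp; done) |
        (refine ⟨3, ?_⟩; simp; done) | (refine ⟨4, ?_⟩; simp; done)

lemma c0101 (D : Dat6 X P D j m L1 L2 x y p q r t) {s : ℕ} (hs : s ≤ j + 4)
    (h : O6 X P L1 L2 x y p q r t s ![0, 1, 0, 1]) : False := by
  have s6 := D.six
  refine complete5 D hs h [s(q, p), s(p, x), s(x, y), s(y, r), s(r, t)] ?_ ?_ ?_ ?_ ![q, p, x, y, r] ?_ ?_ ?_ ?_ ?_ ?_
  · simp [Sym2.eq_iff, s6.all]
  · simp [Sym2.eq_iff, s6.all]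
  · intro e he
    simp only [List.mem_cons, List.not_mem_nil, or_false] at he
    rcases he with he | he | he | he | he <;> subst he <;> simp [TFC.sq]
  · intro v
    simp
    ring
  · (refine injv ?_; simp [s6.all])
  · simp [Sym2.eq_iff, s6.all]
  · simp [Sym2.eq_iff, s6.all]
  · simp [Sym2.eq_iff, s6.all]
  · simp [Sym2.eq_iff, s6.all]
  · intro e he
    simp only [List.mem_cons, List.not_mem_nil, or_false] at he
    rcases he with he | he | he | he | he <;> subst he <;>
      first | (refine ⟨0, ?_⟩; simp; done) | (refine ⟨1, ?_⟩; simp; done) | (refine ⟨2, ?_⟩; simp; done) |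
        (refine ⟨3, ?_⟩; simp; done) | (refine ⟨4, ?_⟩; simp; done)

lemma c1010 (D : Dat6 X P D j m L1 L2 x y p q r t) {s : ℕ} (hs : s ≤ j + 4)
    (h : O6 X P L1 L2 x y p q r t s ![1, 0, 1, 0]) : False := by
  have s6 := D.six
  refine complete5 D hs h [s(q, p), s(y, q), s(x, y), s(t, x), s(r, t)] ?_ ?_ ?_ ?_ ![p, q, y, x, t] ?_ ?_ ?_ ?_ ?_ ?_
  · simp [Sym2.eq_iff, s6.all]
  · simp [Sym2.eq_iff, s6.all]
  · intro e he
    simp only [List.mem_cons, List.not_mem_nil, or_false] at he
    rcases he with he | he | he | he | he <;> subst he <;> simp [TFC.sq]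
  · intro v
    simp
    ring
  · (refine injv ?_; simp [s6.all])
  · simp [Sym2.eq_iff, s6.all]
  · simp [Sym2.eq_iff, s6.all]
  · simp [Sym2.eq_iff, s6.all]
  · simp [Sym2.eq_iff, s6.all]
  · intro e he
    simp only [List.mem_cons, List.not_mem_nil, or_false] at he
    rcases he with he | he | he | he | he <;> subst he <;>
      first | (refine ⟨0, ?_⟩; simp; done) | (refine ⟨1, ?_⟩; simp; done) | (refine ⟨2, ?_⟩; simp; done) |
        (refine ⟨3, ?_⟩; simp; done) | (refine ⟨4, ?_⟩; simp; done)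

lemma c1122 (D : Dat6 X P D j m L1 L2 x y p q r t) {s : ℕ} (hs : s ≤ j + 4)
    (h : O6 X P L1 L2 x y p q r t s ![1, 1, 2, 2]) : False := by
  have s6 := D.six
  refine complete D hs h [s(p, x), s(x, y), s(y, q)] ?_ ?_ ?_ ?_ ?_
  · simp [Sym2.eq_iff, s6.all]
  · simp [Sym2.eq_iff, s6.all]
  · intro e he
    simp only [List.mem_cons, List.not_mem_nil, or_false] at he
    rcases he with he | he | he <;> subst he <;> simp [TFC.sq]
  · intro v
    simp
    ring
  · intro O hO hM Z hZ hsZ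
    refine fin4s hM (v := ![p, x, y, q]) ?_ ?_ ?_ ?_ ?_ ?_ hZ hsZ
    · (refine injv ?_; simp [s6.all])
    · simp [Sym2.eq_iff, s6.all]
    · simp [Sym2.eq_iff, s6.all]
    · simp [Sym2.eq_iff, s6.all]
    · intro h1
      rcases mem_union.mp h1 with h1 | h1
      · refine disjoint_left.mp hO h1 ?_
        simp [TFC.sq]
      · revert h1
        simp [Sym2.eq_iff, s6.all]
    · intro e he
      rw [List.mem_toFinset] at he
      simp only [List.mem_cons, List.not_mem_nil, or_false] at he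
      rcases he with he | he | he <;> subst he <;>
        first | (refine ⟨0, ?_⟩; simp; done) | (refine ⟨1, ?_⟩; simp; done) | (refine ⟨2, ?_⟩; simp; done) |
          (refine ⟨3, ?_⟩; simp; done)

lemma c1111 (D : Dat6 X P D j m L1 L2 x y p q r t) {s : ℕ} (hs : s ≤ j + 4)
    (h : O6 X P L1 L2 x y p q r t s ![1, 1, 1, 1]) : False := by
  have s6 := D.six
  obtain ⟨O, hO, hk, hd, hOL, hsq⟩ := h
  have hOH : ∀ e ∈ O, e ∉ TFC.sq x y q p ∪ TFC.sq x y r t := fun e he => disjoint_left.mp hd he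
  have hlt : ∀ e ∈ TFC.sq x y q p, ∀ v ∈ e, v < X.n := fun e he v hv =>
    D.ctx.hX.lt e (D.ctx.hX.e2 (D.ctx.hH (mem_union_left _ he))) v hv
  have m1 := (D.ctx.hP.m2 j _ D.ctx.p1).1
  have m2 := (D.ctx.hP.m2 j _ D.ctx.p2).1
  have q2 : s(y, q) ∈ L1 := D.ctx.s1 (by simp [TFC.sq])
  have q3 : s(q, p) ∈ L1 := D.ctx.s1 (by simp [TFC.sq])
  have q4 : s(p, x) ∈ L1 := D.ctx.s1 (by simp [TFC.sq])
  have r2 : s(y, r) ∈ L2 := D.ctx.s2 (by simp [TFC.sq])
  have r3 : s(r, t) ∈ L2 := D.ctx.s2 (by simp [TFC.sq])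
  have r4 : s(t, x) ∈ L2 := D.ctx.s2 (by simp [TFC.sq])
  -- no outer edges `pt`, `qr`
  have hptO : s(p, t) ∉ O := by
    intro h
    rcases mem_union.1 (hOL h) with h | h
    · rcases nbr_two (m1.le p) (msw q3) q4 s6.xq.symm h with h | h
      · exact s6.qt h.symm
      · exact s6.xt h.symm
    · rcases nbr_two (m2.le t) (msw r3) r4 s6.xr.symm (msw h) with h | h
      · exact s6.pr h
      · exact s6.xp h.symm
  have hqrO : s(q, r) ∉ O := by
    intro h
    rcases mem_union.1 (hOL h) with h | h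
    · rcases nbr_two (m1.le q) (msw q2) q3 s6.yp h with h | h
      · exact s6.yr h.symm
      · exact s6.pr h.symm
    · rcases nbr_two (m2.le r) (msw r2) r3 s6.yt (msw h) with h | h
      · exact s6.yq h.symm
      · exact s6.qt h
  -- no edge of the outer part at `x` or `y`
  have hx : ∀ m, s(x, m) ∉ O := by
    intro m hm
    have h1 := PF4.XF.Rs.FitK.le hk (hlt s(x, y) (by simp [TFC.sq]) x (by simp))
    rw [dem6] at h1
    have h2 : 0 < dg O x := by
      rw [dg, card_pos]
      exact ⟨_, mem_filter.mpr ⟨hm, by simp⟩⟩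
    simp [dv_apply, ev_apply, s6.xy, s6.xp, s6.xq, s6.xr, s6.xt, s6.xy.symm, s6.xp.symm, s6.xq.symm,
      s6.xr.symm, s6.xt.symm] at h1
    omega
  have hy : ∀ m, s(y, m) ∉ O := by
    intro m hm
    have h1 := PF4.XF.Rs.FitK.le hk (hlt s(x, y) (by simp [TFC.sq]) y (by simp))
    rw [dem6] at h1
    have h2 : 0 < dg O y := by
      rw [dg, card_pos]
      exact ⟨_, mem_filter.mpr ⟨hm, by simp⟩⟩
    simp [dv_apply, ev_apply, s6.xy, s6.yp, s6.yq, s6.yr, s6.yt, s6.xy.symm, s6.yp.symm, s6.yq.symm,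
      s6.yr.symm, s6.yt.symm] at h1
    omega
  -- the second completion
  have second : ∀ m, (s(p, m) ∈ O ∧ s(t, m) ∈ O) ∨ (s(q, m) ∈ O ∧ s(r, m) ∈ O) →
      False := by
    intro m hm
    refine completeO (k := ![1, 1, 1, 1]) D hs hO hk hd hsq [s(t, x), s(x, y), s(y, r), s(q, p)] ?_ ?_ ?_ ?_ ?_
    · simp [Sym2.eq_iff, s6.all]
    · simp [Sym2.eq_iff, s6.all]
    · intro e he
      simp only [List.mem_cons, List.not_mem_nil, or_false] at he
      rcases he with he | he | he | he <;> subst he <;> simp [TFC.sq]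
    · intro v
      simp
      ring
    · intro hM Z hZ hsZ e heZ hab
      rw [List.mem_toFinset] at hab
      have f4 := fin4s hM (v := ![t, x, y, r]) (P := {s(t, x), s(x, y), s(y, r)}) (by (refine injv ?_; simp [s6.all]))
        (by simp [Sym2.eq_iff, s6.all]) (by simp [Sym2.eq_iff, s6.all]) (by simp [Sym2.eq_iff, s6.all]) (by
          intro h1
          rcases mem_union.mp h1 with h1 | h1
          · refine hOH _ h1 ?_
            simp [TFC.sq]
          · revert h1
            simp [Sym2.eq_iff, s6.all]) (by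
          intro e he
          simp only [mem_insert, mem_singleton] at he
          rcases he with he | he | he <;> subst he <;>
            first | (refine ⟨0, ?_⟩; simp; done) | (refine ⟨1, ?_⟩; simp; done) | (refine ⟨2, ?_⟩; simp; done)) hZ hsZ e heZ
      have hab2 : e = s(q, p) := by
        simp only [List.mem_cons, List.not_mem_nil, or_false] at hab
        simp only [mem_insert, mem_singleton, not_or] at f4
        tauto
      rcases hm with ⟨h1, h2⟩ | ⟨h1, h2⟩
      · have mx : m ≠ x := by rintro rfl; exact hx p (msw h1)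
        have mp : m ≠ p := by rintro rfl; exact (hM.nl.mono subset_union_left).ne h1 rfl
        have mt : m ≠ t := by rintro rfl; exact (hM.nl.mono subset_union_left).ne h2 rfl
        have mq : m ≠ q := by rintro rfl; exact hOH _ h1 (by simp [TFC.sq])
        refine fin5s hM (v := ![q, p, m, t, x]) (P := {s(q, p)}) ?_ ?_ ?_ ?_ ?_ ?_ hZ hsZ e heZ ?_
        · refine injv ?_
          simp [mx, mp, mt, mq, mx.symm, mp.symm, mt.symm, mq.symm, s6.all]
        · simp [Sym2.eq_iff, s6.all]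
        · exact mem_union_left _ h1
        · exact mem_union_left _ (msw h2)
        · simp [Sym2.eq_iff, s6.all]
        · intro e he
          rw [mem_singleton] at he
          subst he
          exact ⟨0, by simp⟩
        · rw [hab2]; simp
      · have my : m ≠ y := by rintro rfl; exact hy q (msw h1)
        have mq : m ≠ q := by rintro rfl; exact (hM.nl.mono subset_union_left).ne h1 rfl
        have mr : m ≠ r := by rintro rfl; exact (hM.nl.mono subset_union_left).ne h2 rfl
        have mp : m ≠ p := by rintro rfl; exact hOH _ h1 (by simp [TFC.sq])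
        refine fin5s hM (v := ![p, q, m, r, y]) (P := {s(q, p)}) ?_ ?_ ?_ ?_ ?_ ?_ hZ hsZ e heZ ?_
        · refine injv ?_
          simp [my, mp, mr, mq, my.symm, mp.symm, mr.symm, mq.symm, s6.all]
        · simp [Sym2.eq_iff, s6.all]
        · exact mem_union_left _ h1
        · exact mem_union_left _ (msw h2)
        · simp [Sym2.eq_iff, s6.all]
        · intro e he
          rw [mem_singleton] at he
          subst he
          exact ⟨0, by simp⟩
        · rw [hab2]; simp
  by_cases hsec : ∃ m, (s(p, m) ∈ O ∧ s(t, m) ∈ O) ∨ (s(q, m) ∈ O ∧ s(r, m) ∈ O)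
  · obtain ⟨m, hm⟩ := hsec
    exact second m hm
  · refine completeO (k := ![1, 1, 1, 1]) D hs hO hk hd hsq [s(t, x), s(p, x), s(y, r), s(y, q)] ?_ ?_ ?_ ?_ ?_
    · simp [Sym2.eq_iff, s6.all]
    · simp [Sym2.eq_iff, s6.all]
    · intro e he
      simp only [List.mem_cons, List.not_mem_nil, or_false] at he
      rcases he with he | he | he | he <;> subst he <;> simp [TFC.sq]
    · intro v
      simp
      ring
    · intro hM Z hZ hsZ e heZ hab
      rw [List.mem_toFinset] at hab
      -- no short cycle contains `x`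
      have nx : ¬ Vx Z x := by
        intro hxm
        rcases sh_opp hM hZ hsZ (u := x) (v := p) (w := t) hxm (by simp [Sym2.eq_iff, s6.all]) (by simp [Sym2.eq_iff, s6.all]) s6.pt with h1 | ⟨m, hmx, h1, h2⟩
        · refine hptO ((mem_union.mp h1).resolve_right fun h3 => ?_)
          revert h3
          simp [Sym2.eq_iff, s6.all]
        · refine hsec ⟨m, Or.inl ⟨?_, ?_⟩⟩
          · refine (mem_union.mp h1).resolve_right fun h3 => ?_
            revert h3
            simp [Sym2.eq_iff, s6.all]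
            exact hmx
          · refine (mem_union.mp h2).resolve_right fun h3 => ?_
            revert h3
            simp [Sym2.eq_iff, s6.all]
            exact hmx
      have ny : ¬ Vx Z y := by
        intro hym
        rcases sh_opp hM hZ hsZ (u := y) (v := q) (w := r) hym (by simp [Sym2.eq_iff, s6.all]) (by simp [Sym2.eq_iff, s6.all]) s6.qr with h1 | ⟨m, hmy, h1, h2⟩
        · refine hqrO ((mem_union.mp h1).resolve_right fun h3 => ?_)
          revert h3
          simp [Sym2.eq_iff, s6.all]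
        · refine hsec ⟨m, Or.inr ⟨?_, ?_⟩⟩
          · refine (mem_union.mp h1).resolve_right fun h3 => ?_
            revert h3
            simp [Sym2.eq_iff, s6.all]
            exact hmy
          · refine (mem_union.mp h2).resolve_right fun h3 => ?_
            revert h3
            simp [Sym2.eq_iff, s6.all]
            exact hmy
      simp only [List.mem_cons, List.not_mem_nil, or_false] at hab
      rcases hab with rfl | rfl | rfl | rfl
      · exact nx (vx_mk' heZ)
      · exact nx (vx_mk' heZ)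
      · exact ny (vx_mk heZ)
      · exact ny (vx_mk heZ)

lemma interF (D : Dat6 X P D j m L1 L2 x y p q r t) {e : Sym2 ℕ} (h1 : e ∈ L1)
    (h2 : e ∈ TFC.sq x y q p ∪ TFC.sq x y r t) : e ∈ TFC.sq x y q p ∨ e = s(r, t) := by
  have s6 := D.six
  have hM := (D.ctx.hP.m2 j _ D.ctx.p1).1
  have q1 : s(x, y) ∈ L1 := D.ctx.s1 (by simp [TFC.sq])
  have q2 : s(y, q) ∈ L1 := D.ctx.s1 (by simp [TFC.sq])
  have q4 : s(p, x) ∈ L1 := D.ctx.s1 (by simp [TFC.sq])
  rcases mem_union.mp h2 with h2 | h2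
  · exact Or.inl h2
  · simp only [TFC.sq, mem_insert, mem_singleton] at h2
    rcases h2 with rfl | rfl | rfl | rfl
    · left; simp [TFC.sq]
    · exfalso
      rcases nbr_two (hM.le y) (msw q1) q2 s6.xq h1 with h | h
      · exact s6.xr h.symm
      · exact s6.qr h.symm
    · right; rfl
    · exfalso
      rcases nbr_two (hM.le x) q1 (msw q4) s6.yp (msw h1) with h | h
      · exact s6.yt h.symm
      · exact s6.pt h.symm

lemma interN (D : Dat6 X P D j m L1 L2 x y p q r t) {e : Sym2 ℕ} (h1 : e ∈ L2)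
    (h2 : e ∈ TFC.sq x y q p ∪ TFC.sq x y r t) : e ∈ TFC.sq x y r t ∨ e = s(q, p) := by
  have s6 := D.six
  have hM := (D.ctx.hP.m2 j _ D.ctx.p2).1
  have q1 : s(x, y) ∈ L2 := D.ctx.s2 (by simp [TFC.sq])
  have q2 : s(y, r) ∈ L2 := D.ctx.s2 (by simp [TFC.sq])
  have q4 : s(t, x) ∈ L2 := D.ctx.s2 (by simp [TFC.sq])
  rcases mem_union.mp h2 with h2 | h2
  · simp only [TFC.sq, mem_insert, mem_singleton] at h2
    rcases h2 with rfl | rfl | rfl | rfl
    · left; simp [TFC.sq]
    · exfalso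
      rcases nbr_two (hM.le y) (msw q1) q2 s6.xr h1 with h | h
      · exact s6.xq h.symm
      · exact s6.qr h
    · right; rfl
    · exfalso
      rcases nbr_two (hM.le x) q1 (msw q4) s6.yt (msw h1) with h | h
      · exact s6.yp h.symm
      · exact s6.pt h
  · exact Or.inl h2

lemma outerF1 (D : Dat6 X P D j m L1 L2 x y p q r t) (h : s(r, t) ∈ L1) :
    O6 X P L1 L2 x y p q r t (j + 1) ![0, 0, 1, 1] := by
  have s6 := D.six
  have hd : Dist4 x y q p := ⟨s6.xy, s6.xq, s6.xp, s6.yq, s6.yp, s6.pq.symm⟩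
  have hrt : s(r, t) ∉ TFC.sq x y q p := by
    simp [TFC.sq, Sym2.eq_iff, s6.xr.symm, s6.xt.symm, s6.yr.symm, s6.yt.symm, s6.pr.symm, s6.pt.symm,
      s6.qr.symm, s6.qt.symm]
  have e : L1 ∩ (TFC.sq x y q p ∪ TFC.sq x y r t) = insert s(r, t) (TFC.sq x y q p) := by
    ext e
    simp only [mem_inter]
    constructor
    · rintro ⟨h1, h2⟩
      rcases interF D h1 h2 with h3 | h3
      · exact mem_insert_of_mem h3
      · rw [h3]; exact mem_insert_self _ _
    · intro h3
      rcases mem_insert.mp h3 with rfl | h3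
      · exact ⟨h, mem_union_right _ (by simp [TFC.sq])⟩
      · exact ⟨D.ctx.s1 h3, mem_union_left _ h3⟩
  have ho := D.ctx.out1
  rw [e] at ho
  unfold O6
  convert ho using 1
  funext v
  rw [dem6, dv_insert s6.rt hrt, Pi.add_apply, Pi.add_apply, dv_sq hd]
  simp
  ring

lemma outerF2 (D : Dat6 X P D j m L1 L2 x y p q r t) (h : s(r, t) ∉ L1) :
    O6 X P L1 L2 x y p q r t (j + 1) ![0, 0, 2, 2] := by
  have s6 := D.six
  have hd : Dist4 x y q p := ⟨s6.xy, s6.xq, s6.xp, s6.yq, s6.yp, s6.pq.symm⟩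
  have e : L1 ∩ (TFC.sq x y q p ∪ TFC.sq x y r t) = TFC.sq x y q p := by
    ext e
    simp only [mem_inter]
    constructor
    · rintro ⟨h1, h2⟩
      rcases interF D h1 h2 with h3 | h3
      · exact h3
      · rw [h3] at h1; exact absurd h1 h
    · intro h3
      exact ⟨D.ctx.s1 h3, mem_union_left _ h3⟩
  have ho := D.ctx.out1
  rw [e] at ho
  unfold O6
  convert ho using 1
  funext v
  rw [dem6, dv_sq hd]
  simp
  ring

lemma outerN1 (D : Dat6 X P D j m L1 L2 x y p q r t) (h : s(q, p) ∈ L2) :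
    O6 X P L1 L2 x y p q r t (j + 1) ![1, 1, 0, 0] := by
  have s6 := D.six
  have hd : Dist4 x y r t := ⟨s6.xy, s6.xr, s6.xt, s6.yr, s6.yt, s6.rt⟩
  have hrt : s(q, p) ∉ TFC.sq x y r t := by
    simp [TFC.sq, Sym2.eq_iff, s6.xq.symm, s6.xp.symm, s6.yq.symm, s6.yp.symm, s6.pr, s6.pt,
      s6.qr, s6.qt]
  have e : L2 ∩ (TFC.sq x y q p ∪ TFC.sq x y r t) = insert s(q, p) (TFC.sq x y r t) := by
    ext e
    simp only [mem_inter]
    constructor
    · rintro ⟨h1, h2⟩
      rcases interN D h1 h2 with h3 | h3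
      · exact mem_insert_of_mem h3
      · rw [h3]; exact mem_insert_self _ _
    · intro h3
      rcases mem_insert.mp h3 with rfl | h3
      · exact ⟨h, mem_union_left _ (by simp [TFC.sq])⟩
      · exact ⟨D.ctx.s2 h3, mem_union_right _ h3⟩
  have ho := D.ctx.out2
  rw [e] at ho
  unfold O6
  convert ho using 1
  funext v
  rw [dem6, dv_insert s6.pq.symm hrt, Pi.add_apply, Pi.add_apply, dv_sq hd]
  simp
  ring

lemma outerN2 (D : Dat6 X P D j m L1 L2 x y p q r t) (h : s(q, p) ∉ L2) :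
    O6 X P L1 L2 x y p q r t (j + 1) ![2, 2, 0, 0] := by
  have s6 := D.six
  have hd : Dist4 x y r t := ⟨s6.xy, s6.xr, s6.xt, s6.yr, s6.yt, s6.rt⟩
  have e : L2 ∩ (TFC.sq x y q p ∪ TFC.sq x y r t) = TFC.sq x y r t := by
    ext e
    simp only [mem_inter]
    constructor
    · rintro ⟨h1, h2⟩
      rcases interN D h1 h2 with h3 | h3
      · exact h3
      · rw [h3] at h1; exact absurd h1 h
    · intro h3
      exact ⟨D.ctx.s2 h3, mem_union_right _ h3⟩
  have ho := D.ctx.out2
  rw [e] at ho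
  unfold O6
  convert ho using 1
  funext v
  rw [dem6, dv_sq hd]
  simp

/-- **resolution, six vertices** -/
theorem ce6 (D : Dat6 X P D j m L1 L2 x y p q r t) : False := by
  have s6 := D.six
  by_cases h1 : s(r, t) ∈ L1
  · exact c0011 D (by omega) (outerF1 D h1)
  by_cases h2 : s(q, p) ∈ L2
  · exact c1100 D (by omega) (outerN1 D h2)
  have hf : Function.Injective ![p, q, r, t] := by (refine injv ?_; simp [s6.all])
  have hV : ∀ i, ![p, q, r, t] i ∈ X.V2 := by
    have hv : ∀ e ∈ TFC.sq x y q p ∪ TFC.sq x y r t, ∀ v ∈ e, v ∈ X.V2 := fun e he v hv =>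
      D.ctx.hX.ev e (D.ctx.hH he) v hv
    intro i
    fin_cases i
    · exact hv s(q, p) (by simp [TFC.sq]) p (by simp)
    · exact hv s(q, p) (by simp [TFC.sq]) q (by simp)
    · exact hv s(r, t) (by simp [TFC.sq]) r (by simp)
    · exact hv s(r, t) (by simp [TFC.sq]) t (by simp)
  have h := four_st (P := fun s => {k | O6 X P L1 L2 x y p q r t (j + 1 + s) k})
    (fun s k hk => Out.mono D.ctx.hP (by omega) hk)
    (by
      intro s k hk l hl i ε hε hpos
      exact pull_st hf (bas6 x y p q r t)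
        (A := fun k => Out X P L1 L2 (TFC.sq x y q p ∪ TFC.sq x y r t) (j + 1 + s) k)
        (B := fun k => Out X P L1 L2 (TFC.sq x y q p ∪ TFC.sq x y r t) (j + 1 + (s + 1)) k)
        (fun a ha b hb i' ε' hε' h0 => Out.ex D.ctx.hP ha hb _ ε' (Or.inl (hV i')) hε' h0)
        hk hl i ε hε hpos)
    (outerN2 D h2) (outerF2 D h1)
  rcases h with h | h | h | h | h | h | h | h | h
  · exact c1100 D (by omega) h
  · exact c1201 D (by omega) h
  · exact c0000 D (by omega) h
  · exact c0101 D (by omega) h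
  · exact c2110 D (by omega) h
  · exact c1122 D (by omega) h
  · exact c1021 D (by omega) h
  · exact c1111 D (by omega) h
  · exact c1010 D (by omega) h

end six

section five

variable {X : XD3} {P : ℕ → Finset (Sym2 ℕ) → Prop} {D : Finset (Finset (Sym2 ℕ))} {j m : ℕ}
  {L1 L2 : Finset (Sym2 ℕ)} {x y p q r : ℕ}

/-- **resolution, two squares on five vertices** -/
theorem ce5 (C : Ctx X P D j m L1 L2 (TFC.sq x y q p) (TFC.sq x y r q))
    (s5 : Five x y p q r) : False := by
  have hm := C.hm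
  have hdQ : Dist4 x y q p := ⟨s5.xy, s5.xq, s5.xp, s5.yq, s5.yp, s5.pq.symm⟩
  have hdR : Dist4 x y r q := ⟨s5.xy, s5.xr, s5.xq, s5.yr, s5.yq, s5.qr.symm⟩
  have m1 := (C.hP.m2 j _ C.p1).1
  have m2 := (C.hP.m2 j _ C.p2).1
  have f1 : s(x, y) ∈ L1 := C.s1 (by simp [TFC.sq])
  have f2 : s(y, q) ∈ L1 := C.s1 (by simp [TFC.sq])
  have f3 : s(q, p) ∈ L1 := C.s1 (by simp [TFC.sq])
  have f4 : s(p, x) ∈ L1 := C.s1 (by simp [TFC.sq])
  have n1 : s(x, y) ∈ L2 := C.s2 (by simp [TFC.sq])
  have n2 : s(y, r) ∈ L2 := C.s2 (by simp [TFC.sq])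
  have n3 : s(r, q) ∈ L2 := C.s2 (by simp [TFC.sq])
  have n4 : s(q, x) ∈ L2 := C.s2 (by simp [TFC.sq])
  set H := TFC.sq x y q p ∪ TFC.sq x y r q with hH
  have eF : L1 ∩ H = TFC.sq x y q p := by
    ext e
    simp only [mem_inter]
    constructor
    · rintro ⟨h1, h3⟩
      rcases mem_union.mp h3 with h3 | h3
      · exact h3
      · simp only [TFC.sq, mem_insert, mem_singleton] at h3
        rcases h3 with rfl | rfl | rfl | rfl
        · simp [TFC.sq]
        · exfalso
          rcases nbr_two (m1.le y) (msw f1) f2 s5.xq h1 with h | h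
          · exact s5.xr h.symm
          · exact s5.qr h.symm
        · exfalso
          rcases nbr_two (m1.le q) (msw f2) f3 s5.yp (msw h1) with h | h
          · exact s5.yr h.symm
          · exact s5.pr h.symm
        · exfalso
          rcases nbr_two (m1.le x) f1 (msw f4) s5.yp (msw h1) with h | h
          · exact s5.yq h.symm
          · exact s5.pq h.symm
    · intro h3
      exact ⟨C.s1 h3, mem_union_left _ h3⟩
  have eN : L2 ∩ H = TFC.sq x y r q := by
    ext e
    simp only [mem_inter]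
    constructor
    · rintro ⟨h1, h3⟩
      rcases mem_union.mp h3 with h3 | h3
      · simp only [TFC.sq, mem_insert, mem_singleton] at h3
        rcases h3 with rfl | rfl | rfl | rfl
        · simp [TFC.sq]
        · exfalso
          rcases nbr_two (m2.le y) (msw n1) n2 s5.xr h1 with h | h
          · exact s5.xq h.symm
          · exact s5.qr h
        · exfalso
          rcases nbr_two (m2.le q) (msw n3) n4 s5.xr.symm h1 with h | h
          · exact s5.pr h
          · exact s5.xp h.symm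
        · exfalso
          rcases nbr_two (m2.le x) n1 (msw n4) s5.yq (msw h1) with h | h
          · exact s5.yp h.symm
          · exact s5.pq h
      · exact h3
    · intro h3
      exact ⟨C.s2 h3, mem_union_right _ h3⟩
  let base : ℕ → ℤ := fun v => 2 * ev x v + 2 * ev y v + 2 * ev q v + 2 * ev p v + 2 * ev r v
  have hf : Function.Injective ![p, r] := by
    refine injv ?_
    simp [s5.all]
  have hV : ∀ i, ![p, r] i ∈ X.V2 := by
    have hv : ∀ e ∈ H, ∀ v ∈ e, v ∈ X.V2 := fun e he v hv => C.hX.ev e (C.hH he) v hv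
    intro i
    fin_cases i
    · exact hv s(q, p) (by simp [hH, TFC.sq]) p (by simp)
    · exact hv s(y, r) (by simp [hH, TFC.sq]) r (by simp)
  have o1 : Out X P L1 L2 H (j + 1) (base - put ![p, r] ![0, 2]) := by
    have ho := C.out1
    rw [← hH, eF] at ho
    convert ho using 1
    funext v
    rw [dv_sq hdQ, Pi.sub_apply, put2]
    simp [base]
  have o2 : Out X P L1 L2 H (j + 1) (base - put ![p, r] ![2, 0]) := by
    have ho := C.out2
    rw [← hH, eN] at ho
    convert ho using 1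
    funext v
    rw [dv_sq hdR, Pi.sub_apply, put2]
    simp [base]
    ring
  obtain ⟨i, δ, hδ, hpos, hmem⟩ := pull_st hf base
    (A := fun k => Out X P L1 L2 H (j + 1) k) (B := fun k => Out X P L1 L2 H (j + 1 + 1) k)
    (fun a ha b hb i' ε' hε' h0 => Out.ex C.hP ha hb _ ε' (Or.inl (hV i')) hε' h0)
    o2 o1 0 (-1) (Or.inr rfl) (by simp)
  fin_cases i
  · -- (0,0): a 5-cycle
    have hδ1 : δ = -1 := by
      rcases hδ with h | h
      · subst h
        simp at hpos
      · exact h
    subst hδ1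
    have e00 : (![2, 0] + Pi.single 0 (-1) + Pi.single (0 : Fin 2) (-1 : ℤ) : Fin 2 → ℤ) = ![0, 0] := by
      funext i
      fin_cases i <;> simp [Matrix.vecHead, Matrix.vecTail]
    have hmem' : Out X P L1 L2 H (j + 1 + 1) (base - put ![p, r] ![0, 0]) := by
      rw [← e00]; exact hmem
    obtain ⟨O, hO, hk, hd, -, hsq⟩ := hmem'
    refine C.complete (t := j + 1 + 1) (by omega) hO hk hd hsq
      (K := [s(p, q), s(q, r), s(r, y), s(y, x), s(x, p)].toFinset) ?_ ?_ ?_
    · intro e he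
      rw [List.mem_toFinset] at he
      simp only [List.mem_cons, List.not_mem_nil, or_false] at he
      rcases he with he | he | he | he | he <;> subst he <;> rw [Sym2.eq_swap] <;> simp [TFC.sq]
    · funext v
      rw [dv_list, Pi.sub_apply, put2]
      · simp [base]
        ring
      · simp [Sym2.eq_iff, s5.all]
      · simp [Sym2.eq_iff, s5.all]
    · intro hM Z hZ hsZ
      refine fin5s hM (v := ![p, q, r, y, x]) ?_ ?_ ?_ ?_ ?_ ?_ hZ hsZ
      · refine injv ?_
        simp [s5.all]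
      · simp
      · simp
      · simp
      · simp
      · intro e he
        rw [List.mem_toFinset] at he
        simp only [List.mem_cons, List.not_mem_nil, or_false] at he
        rcases he with he | he | he | he | he <;> subst he <;>
          first | (refine ⟨0, ?_⟩; simp; done) | (refine ⟨1, ?_⟩; simp; done) | (refine ⟨2, ?_⟩; simp; done) |
            (refine ⟨3, ?_⟩; simp; done) | (refine ⟨4, ?_⟩; simp; done)
  · -- (1,1): a path
    have hδ1 : δ = 1 := by
      rcases hδ with h | h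
      · exact h
      · subst h
        simp at hpos
    subst hδ1
    have e11 : (![2, 0] + Pi.single 0 (-1) + Pi.single (1 : Fin 2) (1 : ℤ) : Fin 2 → ℤ) = ![1, 1] := by
      funext i
      fin_cases i <;> simp [Matrix.vecHead, Matrix.vecTail]
    have hmem' : Out X P L1 L2 H (j + 1 + 1) (base - put ![p, r] ![1, 1]) := by
      rw [← e11]; exact hmem
    obtain ⟨O, hO, hk, hd, -, hsq⟩ := hmem'
    refine C.complete (t := j + 1 + 1) (by omega) hO hk hd hsq
      (K := [s(p, x), s(x, y), s(y, q), s(q, r)].toFinset) ?_ ?_ ?_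
    · intro e he
      rw [List.mem_toFinset] at he
      simp only [List.mem_cons, List.not_mem_nil, or_false] at he
      rcases he with he | he | he | he <;> subst he <;> simp [TFC.sq]
    · funext v
      rw [dv_list, Pi.sub_apply, put2]
      · simp [base]
        ring
      · simp [Sym2.eq_iff, s5.all]
      · simp [Sym2.eq_iff, s5.all]
    · intro hM Z hZ hsZ
      refine fin5s hM (v := ![p, x, y, q, r]) ?_ ?_ ?_ ?_ ?_ ?_ hZ hsZ
      · refine injv ?_
        simp [s5.all]
      · simp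
      · simp
      · simp
      · simp
      · intro e he
        rw [List.mem_toFinset] at he
        simp only [List.mem_cons, List.not_mem_nil, or_false] at he
        rcases he with he | he | he | he <;> subst he <;>
          first | (refine ⟨0, ?_⟩; simp; done) | (refine ⟨1, ?_⟩; simp; done) | (refine ⟨2, ?_⟩; simp; done) |
            (refine ⟨3, ?_⟩; simp; done) | (refine ⟨4, ?_⟩; simp; done)

end five

section tsq

variable {X : XD3} {P : ℕ → Finset (Sym2 ℕ) → Prop} {D : Finset (Finset (Sym2 ℕ))} {j m : ℕ}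
  {L1 L2 : Finset (Sym2 ℕ)} {x y p r t : ℕ}

theorem put3 (f : Fin 3 → ℕ) (k : Fin 3 → ℤ) (v : ℕ) :
    put f k v = k 0 * ev (f 0) v + k 1 * ev (f 1) v + k 2 * ev (f 2) v := by
  have h : ∀ i, (if f i = v then k i else 0) = k i * ev (f i) v := by
    intro i
    rw [ev_apply]
    by_cases hv : f i = v
    · simp [hv]
    · rw [if_neg hv, if_neg (fun h => hv h.symm)]; simp
  simp only [put, h, Fin.sum_univ_three]

theorem dv_tri {a b c : ℕ} (h : Dist3 a b c) (v : ℕ) :
    dv (tri a b c) v = 2 * ev a v + 2 * ev b v + 2 * ev c v := by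
  obtain ⟨hab, hac, hbc⟩ := h
  have e : tri a b c = [s(a, b), s(b, c), s(c, a)].toFinset := by
    simp [tri]
  rw [e, dv_list]
  · simp
    ring
  · simp [Sym2.eq_iff, hab, hac, hbc, hab.symm, hac.symm, hbc.symm]
  · simp [hab, hbc, hac.symm]

/-- **resolution, triangle and square** -/
theorem cets (C : Ctx X P D j m L1 L2 (tri x y p) (TFC.sq x y r t)) (s5 : Five x y p r t) : False := by
  have hm := C.hm
  have hdQ : Dist3 x y p := ⟨s5.xy, s5.xp, s5.yp⟩
  have hdR : Dist4 x y r t := ⟨s5.xy, s5.xq, s5.xr, s5.yq, s5.yr, s5.qr⟩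
  have m1 := (C.hP.m2 j _ C.p1).1
  have m2 := (C.hP.m2 j _ C.p2).1
  have f1 : s(x, y) ∈ L1 := C.s1 (by simp [tri])
  have f2 : s(y, p) ∈ L1 := C.s1 (by simp [tri])
  have f3 : s(p, x) ∈ L1 := C.s1 (by simp [tri])
  have n1 : s(x, y) ∈ L2 := C.s2 (by simp [TFC.sq])
  have n2 : s(y, r) ∈ L2 := C.s2 (by simp [TFC.sq])
  have n3 : s(r, t) ∈ L2 := C.s2 (by simp [TFC.sq])
  have n4 : s(t, x) ∈ L2 := C.s2 (by simp [TFC.sq])
  set H := tri x y p ∪ TFC.sq x y r t with hH
  have hrt : s(r, t) ∉ tri x y p := by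
    simp [tri, Sym2.eq_iff, s5.all]
  have eF : ∀ e, e ∈ L1 ∩ H → e ∈ tri x y p ∨ e = s(r, t) := by
    intro e he
    obtain ⟨h1, h3⟩ := mem_inter.1 he
    rcases mem_union.mp h3 with h3 | h3
    · exact Or.inl h3
    · simp only [TFC.sq, mem_insert, mem_singleton] at h3
      rcases h3 with rfl | rfl | rfl | rfl
      · left; simp [tri]
      · exfalso
        rcases nbr_two (m1.le y) (msw f1) f2 s5.xp h1 with h | h
        · exact s5.xq h.symm
        · exact s5.pq h.symm
      · right; rfl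
      · exfalso
        rcases nbr_two (m1.le x) f1 (msw f3) s5.yp (msw h1) with h | h
        · exact s5.yr h.symm
        · exact s5.pr h.symm
  have eN : L2 ∩ H = TFC.sq x y r t := by
    ext e
    simp only [mem_inter]
    constructor
    · rintro ⟨h1, h3⟩
      rcases mem_union.mp h3 with h3 | h3
      · simp only [tri, mem_insert, mem_singleton] at h3
        rcases h3 with rfl | rfl | rfl
        · simp [TFC.sq]
        · exfalso
          rcases nbr_two (m2.le y) (msw n1) n2 s5.xq h1 with h | h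
          · exact s5.xp h.symm
          · exact s5.pq h
        · exfalso
          rcases nbr_two (m2.le x) n1 (msw n4) s5.yr (msw h1) with h | h
          · exact s5.yp h.symm
          · exact s5.pr h
      · exact h3
    · intro h3
      exact ⟨C.s2 h3, mem_union_right _ h3⟩
  let base : ℕ → ℤ := fun v => 2 * ev x v + 2 * ev y v + 2 * ev p v + 2 * ev r v + 2 * ev t v
  have hf : Function.Injective ![p, r, t] := by
    refine injv ?_
    simp [s5.all]
  have hV : ∀ i, ![p, r, t] i ∈ X.V2 := by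
    have hv : ∀ e ∈ H, ∀ v ∈ e, v ∈ X.V2 := fun e he v hv => C.hX.ev e (C.hH he) v hv
    intro i
    fin_cases i
    · exact hv s(y, p) (by simp [hH, tri]) p (by simp)
    · exact hv s(y, r) (by simp [hH, TFC.sq]) r (by simp)
    · exact hv s(r, t) (by simp [hH, TFC.sq]) t (by simp)
  have o1 : ∃ b : ℤ, 1 ≤ b ∧ Out X P L1 L2 H (j + 1) (base - put ![p, r, t] ![0, b, b]) := by
    have ho := C.out1
    rw [← hH] at ho
    by_cases h : s(r, t) ∈ L1
    · refine ⟨1, le_rfl, ?_⟩
      have e : L1 ∩ H = insert s(r, t) (tri x y p) := by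
        ext e
        constructor
        · intro he
          rcases eF e he with h3 | h3
          · exact mem_insert_of_mem h3
          · rw [h3]; exact mem_insert_self _ _
        · intro h3
          rcases mem_insert.mp h3 with rfl | h3
          · exact mem_inter.2 ⟨h, mem_union_right _ (by simp [TFC.sq])⟩
          · exact mem_inter.2 ⟨C.s1 h3, mem_union_left _ h3⟩
      rw [e] at ho
      convert ho using 1
      funext v
      rw [dv_insert s5.qr hrt, Pi.add_apply, Pi.add_apply, dv_tri hdQ, Pi.sub_apply, put3]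
      simp [base]
      ring
    · refine ⟨2, by norm_num, ?_⟩
      have e : L1 ∩ H = tri x y p := by
        ext e
        constructor
        · intro he
          rcases eF e he with h3 | h3
          · exact h3
          · rw [h3] at he; exact absurd (mem_inter.1 he).1 h
        · intro h3
          exact mem_inter.2 ⟨C.s1 h3, mem_union_left _ h3⟩
      rw [e] at ho
      convert ho using 1
      funext v
      rw [dv_tri hdQ, Pi.sub_apply, put3]
      simp [base]
  obtain ⟨b, hb, o1⟩ := o1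
  have o2 : Out X P L1 L2 H (j + 1) (base - put ![p, r, t] ![2, 0, 0]) := by
    have ho := C.out2
    rw [← hH, eN] at ho
    convert ho using 1
    funext v
    rw [dv_sq hdR, Pi.sub_apply, put3]
    simp [base]
    ring
  have comp : ∀ (k : Fin 3 → ℤ), Out X P L1 L2 H (j + 1 + 1) (base - put ![p, r, t] k) →
      ∀ (l : List (Sym2 ℕ)) (_ : l.Nodup) (_ : ∀ e ∈ l, ¬ e.IsDiag) (_ : ∀ e ∈ l, e ∈ H)
      (_ : ∀ v, (l.map esum).sum v = 2 * ev x v + 2 * ev y v + (2 - k 0) * ev p v +
        (2 - k 1) * ev r v + (2 - k 2) * ev t v)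
      (v : Fin 5 → ℕ) (_ : Function.Injective v) (_ : s(v 0, v 1) ∈ l) (_ : s(v 1, v 2) ∈ l)
      (_ : s(v 2, v 3) ∈ l) (_ : s(v 3, v 4) ∈ l) (_ : ∀ e ∈ l, ∃ i, v i ∈ e), False := by
    intro k hout l hn hl hlH hsum v hv h01 h12 h23 h34 hcov
    obtain ⟨O, hO, hk, hd, -, hsq⟩ := hout
    refine C.complete (t := j + 1 + 1) (by omega) hO hk hd hsq (K := l.toFinset) ?_ ?_ ?_
    · intro e he
      exact hlH e (List.mem_toFinset.1 he)
    · funext u
      rw [dv_list hn hl, hsum u, Pi.sub_apply, put3]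
      simp [base]
      ring
    · intro hM Z hZ hsZ
      have hmm : ∀ {e}, e ∈ l → e ∈ O ∪ l.toFinset := fun he =>
        mem_union_right _ (List.mem_toFinset.mpr he)
      exact fin5s hM hv (hmm h01) (hmm h12) (hmm h23) (hmm h34)
        (fun e he => hcov e (List.mem_toFinset.mp he)) hZ hsZ
  obtain ⟨i, δ, hδ, hpos, hmem⟩ := pull_st hf base
    (A := fun k => Out X P L1 L2 H (j + 1) k) (B := fun k => Out X P L1 L2 H (j + 1 + 1) k)
    (fun a ha b hb i' ε' hε' h0 => Out.ex C.hP ha hb _ ε' (Or.inl (hV i')) hε' h0)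
    o2 o1 0 (-1) (Or.inr rfl) (by simp)
  fin_cases i
  · -- (0,0,0): a 5-cycle
    have hδ1 : δ = -1 := by
      rcases hδ with h | h
      · subst h
        simp at hpos
      · exact h
    subst hδ1
    have e0 : (![2, 0, 0] + Pi.single 0 (-1) + Pi.single (0 : Fin 3) (-1 : ℤ) : Fin 3 → ℤ) = ![0, 0, 0] := by
      funext i
      fin_cases i <;> simp [Matrix.vecHead, Matrix.vecTail]
    have hmem' : Out X P L1 L2 H (j + 1 + 1) (base - put ![p, r, t] ![0, 0, 0]) := by
      rw [← e0]; exact hmem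
    refine comp _ hmem' [s(p, x), s(x, t), s(t, r), s(r, y), s(y, p)] ?_ ?_ ?_ ?_ ![p, x, t, r, y] ?_ ?_ ?_ ?_ ?_ ?_
    · simp [Sym2.eq_iff, s5.all]
    · simp [Sym2.eq_iff, s5.all]
    · intro e he
      simp only [List.mem_cons, List.not_mem_nil, or_false] at he
      rcases he with he | he | he | he | he <;> subst he <;>
        first | (simp [hH, tri, TFC.sq]; done) | (rw [Sym2.eq_swap]; simp [hH, tri, TFC.sq]; done)
    · intro v
      simp
      ring
    · (refine injv ?_; simp [s5.all])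
    · simp
    · simp
    · simp
    · simp
    · intro e he
      simp only [List.mem_cons, List.not_mem_nil, or_false] at he
      rcases he with he | he | he | he | he <;> subst he <;>
        first | (refine ⟨0, ?_⟩; simp; done) | (refine ⟨1, ?_⟩; simp; done) | (refine ⟨2, ?_⟩; simp; done) |
          (refine ⟨3, ?_⟩; simp; done) | (refine ⟨4, ?_⟩; simp; done)
  · -- (1,1,0)
    have hδ1 : δ = 1 := by
      rcases hδ with h | h
      · exact h
      · subst h
        simp at hpos
        linarith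
    subst hδ1
    have e0 : (![2, 0, 0] + Pi.single 0 (-1) + Pi.single (1 : Fin 3) (1 : ℤ) : Fin 3 → ℤ) = ![1, 1, 0] := by
      funext i
      fin_cases i <;> simp [Matrix.vecHead, Matrix.vecTail]
    have hmem' : Out X P L1 L2 H (j + 1 + 1) (base - put ![p, r, t] ![1, 1, 0]) := by
      rw [← e0]; exact hmem
    refine comp _ hmem' [s(r, t), s(t, x), s(x, y), s(y, p)] ?_ ?_ ?_ ?_ ![r, t, x, y, p] ?_ ?_ ?_ ?_ ?_ ?_
    · simp [Sym2.eq_iff, s5.all]
    · simp [Sym2.eq_iff, s5.all]
    · intro e he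
      simp only [List.mem_cons, List.not_mem_nil, or_false] at he
      rcases he with he | he | he | he <;> subst he <;>
        first | (simp [hH, tri, TFC.sq]; done) | (rw [Sym2.eq_swap]; simp [hH, tri, TFC.sq]; done)
    · intro v
      simp
      ring
    · (refine injv ?_; simp [s5.all])
    · simp
    · simp
    · simp
    · simp
    · intro e he
      simp only [List.mem_cons, List.not_mem_nil, or_false] at he
      rcases he with he | he | he | he <;> subst he <;>
        first | (refine ⟨0, ?_⟩; simp; done) | (refine ⟨1, ?_⟩; simp; done) | (refine ⟨2, ?_⟩; simp; done) |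
          (refine ⟨3, ?_⟩; simp; done) | (refine ⟨4, ?_⟩; simp; done)
  · -- (1,0,1)
    have hδ1 : δ = 1 := by
      rcases hδ with h | h
      · exact h
      · subst h
        simp at hpos
        linarith
    subst hδ1
    have e0 : (![2, 0, 0] + Pi.single 0 (-1) + Pi.single (2 : Fin 3) (1 : ℤ) : Fin 3 → ℤ) = ![1, 0, 1] := by
      funext i
      fin_cases i <;> simp [Matrix.vecHead, Matrix.vecTail]
    have hmem' : Out X P L1 L2 H (j + 1 + 1) (base - put ![p, r, t] ![1, 0, 1]) := by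
      rw [← e0]; exact hmem
    refine comp _ hmem' [s(t, r), s(r, y), s(y, x), s(x, p)] ?_ ?_ ?_ ?_ ![t, r, y, x, p] ?_ ?_ ?_ ?_ ?_ ?_
    · simp [Sym2.eq_iff, s5.all]
    · simp [Sym2.eq_iff, s5.all]
    · intro e he
      simp only [List.mem_cons, List.not_mem_nil, or_false] at he
      rcases he with he | he | he | he <;> subst he <;>
        first | (simp [hH, tri, TFC.sq]; done) | (rw [Sym2.eq_swap]; simp [hH, tri, TFC.sq]; done)
    · intro v
      simp
      ring
    · (refine injv ?_; simp [s5.all])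
    · simp
    · simp
    · simp
    · simp
    · intro e he
      simp only [List.mem_cons, List.not_mem_nil, or_false] at he
      rcases he with he | he | he | he <;> subst he <;>
        first | (refine ⟨0, ?_⟩; simp; done) | (refine ⟨1, ?_⟩; simp; done) | (refine ⟨2, ?_⟩; simp; done) |
          (refine ⟨3, ?_⟩; simp; done) | (refine ⟨4, ?_⟩; simp; done)

end tsq

section ttri

variable {X : XD3} {P : ℕ → Finset (Sym2 ℕ) → Prop} {D : Finset (Finset (Sym2 ℕ))} {j m : ℕ}
  {L1 L2 : Finset (Sym2 ℕ)} {x y p r : ℕ}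

/-- **resolution, two triangles**: the union square is in the family -/
theorem cett (C : Ctx X P D j m L1 L2 (tri x y p) (tri x y r)) (s4 : Dist4 x y p r) :
    TFC.sq x p y r ∈ D := by
  have hm := C.hm
  obtain ⟨xy, xp, xr, yp, yr, pr⟩ := s4
  have all4 : (x ≠ y ∧ x ≠ p ∧ x ≠ r ∧ y ≠ p ∧ y ≠ r ∧ p ≠ r) ∧
      (y ≠ x ∧ p ≠ x ∧ r ≠ x ∧ p ≠ y ∧ r ≠ y ∧ r ≠ p) :=
    ⟨⟨xy, xp, xr, yp, yr, pr⟩, ⟨xy.symm, xp.symm, xr.symm, yp.symm, yr.symm, pr.symm⟩⟩
  have hdQ : Dist3 x y p := ⟨xy, xp, yp⟩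
  have hdR : Dist3 x y r := ⟨xy, xr, yr⟩
  have m1 := (C.hP.m2 j _ C.p1).1
  have m2 := (C.hP.m2 j _ C.p2).1
  have f1 : s(x, y) ∈ L1 := C.s1 (by simp [tri])
  have f2 : s(y, p) ∈ L1 := C.s1 (by simp [tri])
  have f3 : s(p, x) ∈ L1 := C.s1 (by simp [tri])
  have n1 : s(x, y) ∈ L2 := C.s2 (by simp [tri])
  have n2 : s(y, r) ∈ L2 := C.s2 (by simp [tri])
  have n3 : s(r, x) ∈ L2 := C.s2 (by simp [tri])
  set H := tri x y p ∪ tri x y r with hH
  have eF : L1 ∩ H = tri x y p := by
    ext e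
    simp only [mem_inter]
    constructor
    · rintro ⟨h1, h3⟩
      rcases mem_union.mp h3 with h3 | h3
      · exact h3
      · simp only [tri, mem_insert, mem_singleton] at h3
        rcases h3 with rfl | rfl | rfl
        · simp [tri]
        · exfalso
          rcases nbr_two (m1.le y) (msw f1) f2 xp h1 with h | h
          · exact xr h.symm
          · exact pr h.symm
        · exfalso
          rcases nbr_two (m1.le x) f1 (msw f3) yp (msw h1) with h | h
          · exact yr h.symm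
          · exact pr h.symm
    · intro h3
      exact ⟨C.s1 h3, mem_union_left _ h3⟩
  have eN : L2 ∩ H = tri x y r := by
    ext e
    simp only [mem_inter]
    constructor
    · rintro ⟨h1, h3⟩
      rcases mem_union.mp h3 with h3 | h3
      · simp only [tri, mem_insert, mem_singleton] at h3
        rcases h3 with rfl | rfl | rfl
        · simp [tri]
        · exfalso
          rcases nbr_two (m2.le y) (msw n1) n2 xr h1 with h | h
          · exact xp h.symm
          · exact pr h
        · exfalso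
          rcases nbr_two (m2.le x) n1 (msw n3) yr (msw h1) with h | h
          · exact yp h.symm
          · exact pr h
      · exact h3
    · intro h3
      exact ⟨C.s2 h3, mem_union_right _ h3⟩
  let base : ℕ → ℤ := fun v => 2 * ev x v + 2 * ev y v + 2 * ev p v + 2 * ev r v
  have hf : Function.Injective ![p, r] := by
    refine injv ?_
    simp [all4]
  have hV : ∀ i, ![p, r] i ∈ X.V2 := by
    have hv : ∀ e ∈ H, ∀ v ∈ e, v ∈ X.V2 := fun e he v hv => C.hX.ev e (C.hH he) v hv
    intro i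
    fin_cases i
    · exact hv s(y, p) (by simp [hH, tri]) p (by simp)
    · exact hv s(y, r) (by simp [hH, tri]) r (by simp)
  have o1 : Out X P L1 L2 H (j + 1) (base - put ![p, r] ![0, 2]) := by
    have ho := C.out1
    rw [← hH, eF] at ho
    convert ho using 1
    funext v
    rw [dv_tri hdQ, Pi.sub_apply, put2]
    simp [base]
  have o2 : Out X P L1 L2 H (j + 1) (base - put ![p, r] ![2, 0]) := by
    have ho := C.out2
    rw [← hH, eN] at ho
    convert ho using 1
    funext v
    rw [dv_tri hdR, Pi.sub_apply, put2]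
    simp [base]
    ring
  obtain ⟨i, δ, hδ, hpos, hmem⟩ := pull_st hf base
    (A := fun k => Out X P L1 L2 H (j + 1) k) (B := fun k => Out X P L1 L2 H (j + 1 + 1) k)
    (fun a ha b hb i' ε' hε' h0 => Out.ex C.hP ha hb _ ε' (Or.inl (hV i')) hε' h0)
    o2 o1 0 (-1) (Or.inr rfl) (by simp)
  fin_cases i
  · -- (0,0): the square
    have hδ1 : δ = -1 := by
      rcases hδ with h | h
      · subst h
        simp at hpos
      · exact h
    subst hδ1
    have e00 : (![2, 0] + Pi.single 0 (-1) + Pi.single (0 : Fin 2) (-1 : ℤ) : Fin 2 → ℤ) = ![0, 0] := by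
      funext i
      fin_cases i <;> simp [Matrix.vecHead, Matrix.vecTail]
    have hmem' : Out X P L1 L2 H (j + 1 + 1) (base - put ![p, r] ![0, 0]) := by
      rw [← e00]; exact hmem
    obtain ⟨O, hO, hk, hd, -, hsq⟩ := hmem'
    have dS : Dist4 x p y r := ⟨xp, xy, xr, yp.symm, pr, yr⟩
    -- the vertices of a short cycle through an edge of the square
    have allv : ∀ Z, M2 (O ∪ TFC.sq x p y r) → IsSh Z → Z ⊆ O ∪ TFC.sq x p y r → ¬ Z ⊆ O →
        TFC.sq x p y r ⊆ Z := by
      intro Z hM hZ hs hn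
      obtain ⟨e, he1, he2⟩ := not_subset.1 hn
      have heK := (mem_union.1 (hs he1)).resolve_left he2
      have c1 : s(x, p) ∈ O ∪ TFC.sq x p y r := mem_union_right _ (by simp [TFC.sq])
      have c2 : s(p, y) ∈ O ∪ TFC.sq x p y r := mem_union_right _ (by simp [TFC.sq])
      have c3 : s(y, r) ∈ O ∪ TFC.sq x p y r := mem_union_right _ (by simp [TFC.sq])
      have c4 : s(r, x) ∈ O ∪ TFC.sq x p y r := mem_union_right _ (by simp [TFC.sq])
      have cl := fun u w => sh_closed hM hZ hs (u := u) (w := w)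
      have k1 : Vx Z x → s(x, p) ∈ Z := fun h => cl x p h c1
      have k2 : Vx Z p → s(p, y) ∈ Z := fun h => cl p y h c2
      have k3 : Vx Z y → s(y, r) ∈ Z := fun h => cl y r h c3
      have k4 : Vx Z r → s(r, x) ∈ Z := fun h => cl r x h c4
      have hall : ∀ v, (v = x ∨ v = p ∨ v = y ∨ v = r) → Vx Z v → TFC.sq x p y r ⊆ Z := by
        rintro v (rfl | rfl | rfl | rfl) hv
        · have h1 := k1 hv
          have h2 := k2 (vx_mk' h1)
          have h3 := k3 (vx_mk' h2)
          have h4 := k4 (vx_mk' h3)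
          exact sq_sub.2 ⟨h1, h2, h3, h4⟩
        · have h2 := k2 hv
          have h3 := k3 (vx_mk' h2)
          have h4 := k4 (vx_mk' h3)
          have h1 := k1 (vx_mk' h4)
          exact sq_sub.2 ⟨h1, h2, h3, h4⟩
        · have h3 := k3 hv
          have h4 := k4 (vx_mk' h3)
          have h1 := k1 (vx_mk' h4)
          have h2 := k2 (vx_mk' h1)
          exact sq_sub.2 ⟨h1, h2, h3, h4⟩
        · have h4 := k4 hv
          have h1 := k1 (vx_mk' h4)
          have h2 := k2 (vx_mk' h1)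
          have h3 := k3 (vx_mk' h2)
          exact sq_sub.2 ⟨h1, h2, h3, h4⟩
      simp only [TFC.sq, mem_insert, mem_singleton] at heK
      rcases heK with rfl | rfl | rfl | rfl
      · exact hall x (by simp) (vx_mk he1)
      · exact hall p (by simp) (vx_mk he1)
      · exact hall y (by simp) (vx_mk he1)
      · exact hall r (by simp) (vx_mk he1)
    obtain ⟨hM, Y, hYD, hYs, hYO⟩ := C.complete' (t := j + 1 + 1) (by omega) hO hk hd hsq
      (K := TFC.sq x p y r) (by
        intro e he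
        simp only [TFC.sq, mem_insert, mem_singleton] at he
        rcases he with rfl | rfl | rfl | rfl
        · rw [Sym2.eq_swap]; simp [tri]
        · rw [Sym2.eq_swap]; simp [tri]
        · simp [tri]
        · simp [tri])
      (by
        funext v
        rw [dv_sq dS, Pi.sub_apply, put2]
        simp [base]
        ring)
      (by
        intro hM Z hZ hs
        by_cases hn : Z ⊆ O
        · exact Or.inl hn
        · right
          have hall := allv Z hM hZ hs hn
          obtain ⟨v, hv, hvv⟩ := (C.hD.hs _ C.z1).2.2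
          refine ⟨v, hv, ?_⟩
          rw [sq_sub] at hall
          rcases tri_vx hvv with rfl | rfl | rfl
          · exact vx_mk hall.1
          · exact vx_mk' hall.2.1
          · exact vx_mk' hall.1)
    have hYsh := (C.hD.hs Y hYD).1.sh
    have h1 := allv Y hM hYsh hYs hYO
    have h2 : TFC.sq x p y r = Y := by
      refine eq_of_subset_of_card_le h1 ?_
      rw [R4_card_sq dS]
      rcases sh_card hYsh with h | h <;> omega
    rw [h2]
    exact hYD
  · -- (1,1): a path
    exfalso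
    have hδ1 : δ = 1 := by
      rcases hδ with h | h
      · exact h
      · subst h
        simp at hpos
    subst hδ1
    have e11 : (![2, 0] + Pi.single 0 (-1) + Pi.single (1 : Fin 2) (1 : ℤ) : Fin 2 → ℤ) = ![1, 1] := by
      funext i
      fin_cases i <;> simp [Matrix.vecHead, Matrix.vecTail]
    have hmem' : Out X P L1 L2 H (j + 1 + 1) (base - put ![p, r] ![1, 1]) := by
      rw [← e11]; exact hmem
    obtain ⟨O, hO, hk, hd, hOL, hsq⟩ := hmem'
    have hprO : s(p, r) ∉ O := by
      intro h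
      rcases mem_union.1 (hOL h) with h | h
      · rcases nbr_two (m1.le p) (msw f2) f3 xy.symm h with h | h
        · exact yr h.symm
        · exact xr h.symm
      · rcases nbr_two (m2.le r) (msw n2) n3 xy.symm (msw h) with h | h
        · exact yp h.symm
        · exact xp h.symm
    refine C.complete (t := j + 1 + 1) (by omega) hO hk hd hsq
      (K := [s(p, x), s(x, y), s(y, r)].toFinset) ?_ ?_ ?_
    · intro e he
      rw [List.mem_toFinset] at he
      simp only [List.mem_cons, List.not_mem_nil, or_false] at he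
      rcases he with he | he | he <;> subst he <;> simp [tri]
    · funext v
      rw [dv_list, Pi.sub_apply, put2]
      · simp [base]
        ring
      · simp [Sym2.eq_iff, all4]
      · simp [Sym2.eq_iff, all4]
    · intro hM Z hZ hsZ
      refine fin4s hM (v := ![p, x, y, r]) ?_ ?_ ?_ ?_ ?_ ?_ hZ hsZ
      · refine injv ?_
        simp [all4]
      · simp
      · simp
      · simp
      · intro h1
        rcases mem_union.mp h1 with h1 | h1
        · exact hprO h1
        · revert h1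
          simp [Sym2.eq_iff, all4]
      · intro e he
        rw [List.mem_toFinset] at he
        simp only [List.mem_cons, List.not_mem_nil, or_false] at he
        rcases he with he | he | he <;> subst he <;>
          first | (refine ⟨0, ?_⟩; simp; done) | (refine ⟨1, ?_⟩; simp; done) | (refine ⟨2, ?_⟩; simp; done) |
            (refine ⟨3, ?_⟩; simp; done)

end ttri

end Rs

/-- **condition (*)**: two members of the family which share exactly one edge are triangles, and the union square is in the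
family -/
def Star (D : Finset (Finset (Sym2 ℕ))) : Prop :=
  ∀ Z ∈ D, ∀ Z' ∈ D, Z ≠ Z' → #(Z ∩ Z') = 1 →
    ∃ x y p r, Dist4 x y p r ∧ Z = tri x y p ∧ Z' = tri x y r ∧ TFC.sq x p y r ∈ D

/-- the same square, read in the other direction -/
theorem sqflip (a b c d : ℕ) : TFC.sq a b c d = TFC.sq b a d c := by
  ext e
  simp only [TFC.sq, Finset.mem_insert, Finset.mem_singleton]
  rw [Sym2.eq_swap (a := b) (b := a), Sym2.eq_swap (a := a) (b := d), Sym2.eq_swap (a := d) (b := c),
    Sym2.eq_swap (a := c) (b := b)]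
  tauto

/-- **resolution** -/
theorem res3 {X : XD3} {P : ℕ → Finset (Sym2 ℕ) → Prop} {D : Finset (Finset (Sym2 ℕ))} {j m : ℕ}
    (hX : X.OK) (hP : XP3 X P) (hD : Blk3 X P D j m) (hm : 10 ≤ m) : Star D := by
  intro Q hQD R hRD hne h1
  obtain ⟨L1, p1, c1, s1, w1⟩ := hD.wit Q hQD
  obtain ⟨L2, p2, c2, s2, w2⟩ := hD.wit R hRD
  have hQ := (hD.hs Q hQD).1.sh
  have hR := (hD.hs R hRD).1.sh
  obtain ⟨e, he⟩ := card_eq_one.mp h1
  induction e using Sym2.ind with
  | _ x y =>
  have hmem : ∀ e', e' ∈ Q → e' ∈ R → e' = s(x, y) := by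
    intro e' h h'
    have : e' ∈ Q ∩ R := mem_inter.mpr ⟨h, h'⟩
    rw [he, mem_singleton] at this
    exact this
  have hxy : s(x, y) ∈ Q ∩ R := by rw [he]; exact mem_singleton_self _
  have C : Rs.Ctx X P D j m L1 L2 Q R := ⟨hX, hP, hD, hm, hQD, hRD, p1, p2, c1, c2, s1, s2, w1, w2⟩
  have C' : Rs.Ctx X P D j m L2 L1 R Q := ⟨hX, hP, hD, hm, hRD, hQD, p2, p1, c2, c1, s2, s1, w2, w1⟩
  rcases isSh_first hQ (mem_inter.mp hxy).1 with ⟨p, ⟨xy, xp, yp⟩, rfl⟩ | ⟨q, p, ⟨xy, xq, xp, yq, yp, qp⟩, rfl⟩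
  · rcases isSh_first hR (mem_inter.mp hxy).2 with ⟨r, ⟨-, xr, yr⟩, rfl⟩ | ⟨r, t, ⟨-, xr, xt, yr, yt, rt⟩, rfl⟩
    · -- two triangles
      have pr : p ≠ r := fun h => hne (by rw [h])
      exact ⟨x, y, p, r, ⟨xy, xp, xr, yp, yr, pr⟩, rfl, rfl, Rs.cett C ⟨xy, xp, xr, yp, yr, pr⟩⟩
    · -- triangle and square
      exfalso
      have pr : p ≠ r := by
        rintro rfl
        have := hmem s(y, p) (by simp [tri]) (by simp [TFC.sq])
        rw [Sym2.eq_iff] at this
        rcases this with ⟨h1, -⟩ | ⟨-, h2⟩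
        · exact xy h1.symm
        · exact xp h2.symm
      have pt : p ≠ t := by
        rintro rfl
        have := hmem s(p, x) (by simp [tri]) (by simp [TFC.sq])
        rw [Sym2.eq_iff] at this
        rcases this with ⟨h1, -⟩ | ⟨h2, -⟩
        · exact xp h1.symm
        · exact yp h2.symm
      exact Rs.cets C ⟨xy, xp, xr, xt, yp, yr, yt, pr, pt, rt⟩
  · rcases isSh_first hR (mem_inter.mp hxy).2 with ⟨r, ⟨-, xr, yr⟩, rfl⟩ | ⟨r, t, ⟨-, xr, xt, yr, yt, rt⟩, rfl⟩
    · -- square and triangle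
      exfalso
      have qr : r ≠ q := by
        rintro rfl
        have := hmem s(y, r) (by simp [TFC.sq]) (by simp [tri])
        rw [Sym2.eq_iff] at this
        rcases this with ⟨h1, -⟩ | ⟨-, h2⟩
        · exact xy h1.symm
        · exact xr h2.symm
      have pr : r ≠ p := by
        rintro rfl
        have := hmem s(r, x) (by simp [TFC.sq]) (by simp [tri])
        rw [Sym2.eq_iff] at this
        rcases this with ⟨h1, -⟩ | ⟨h2, -⟩
        · exact xr h1.symm
        · exact yr h2.symm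
      exact Rs.cets C' ⟨xy, xr, xq, xp, yr, yq, yp, qr, pr, qp⟩
    · -- two squares
      exfalso
      have hqr : q ≠ r := by
        rintro rfl
        have := hmem s(y, q) (by simp [TFC.sq]) (by simp [TFC.sq])
        rw [Sym2.eq_iff] at this
        rcases this with ⟨h1, -⟩ | ⟨-, h2⟩
        · exact xy h1.symm
        · exact xq h2.symm
      have hpt : p ≠ t := by
        rintro rfl
        have := hmem s(p, x) (by simp [TFC.sq]) (by simp [TFC.sq])
        rw [Sym2.eq_iff] at this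
        rcases this with ⟨h1, -⟩ | ⟨h2, -⟩
        · exact xp h1.symm
        · exact yp h2.symm
      by_cases hqt : q = t
      · subst hqt
        have hpr : p ≠ r := by
          rintro rfl
          have := hmem s(q, p) (by simp [TFC.sq]) (by simp [TFC.sq])
          rw [Sym2.eq_iff] at this
          rcases this with ⟨h1, -⟩ | ⟨h2, -⟩
          · exact xq h1.symm
          · exact yq h2.symm
        exact Rs.ce5 C ⟨xy, xp, xq, xr, yp, yq, yr, qp.symm, hpr, hqr⟩
      by_cases hpr : p = r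
      · subst hpr
        have e1 : TFC.sq x y q p = TFC.sq y x p q := sqflip x y q p
        have e2 : TFC.sq x y p t = TFC.sq y x t p := sqflip x y p t
        rw [e1, e2] at C
        exact Rs.ce5 C ⟨xy.symm, yq, yp, yt, xq, xp, xt, qp, hqt, hpt⟩
      · exact Rs.ce6 ⟨C, ⟨xy, xp, xq, xr, xt, yp, yq, yr, yt, qp.symm, hpr, hpt, hqr, hqt, rt⟩⟩

end Pool.Agent.P34

end
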