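import Pool.Agent.PFN.M14
import Pool.Agent.PFN.M16

section -- file P34/XE3

/-!
Triangles and squares: from the staged pool and the minimal blocking family to the worlds at the clusters.
-/

set_option autoImplicit false

namespace Pool.Agent.P34

open Finset Pool.Agent.TFC Pool.Agent.PF4
open Pool.Agent.PF4.XF (XD FitK Cv World WJ Av NC Rch dg_union dg_real dg_off fit_union sum_dv fit_cover fit_near)

/-- the data for triangles and squares are data for squares -/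
theorem XD3.OK.toOK {X : XD3} (h : X.OK) : X.toXD.OK := by
  refine ⟨h.lt, h.nl, h.e1, h.e2, h.tn, h.vn, h.ev, ?_⟩
  rintro Z ⟨a, b, c, d, h4, hZ, ha, hc⟩ hs ⟨e, he, hen⟩
  refine h.near Z (Or.inr ⟨a, b, c, d, h4, hZ, ha, hc⟩) hs ?_
  induction e using Sym2.ind with
  | _ u v => exact ⟨u, h.nv _ hen u (by simp), s(u, v), he, by simp⟩

section
variable {X : XD3} {P : ℕ → Finset (Sym2 ℕ) → Prop} {D : Finset (Finset (Sym2 ℕ))} {j m : ℕ}

/-- **the world at a union of clusters** -/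
theorem world3_of (hX : X.OK) (hP : XP3 X P) (hD : Blk3 X P D j m) {C ER PL : Finset (Sym2 ℕ)}
    (hC : ∀ Z ∈ D, Z ⊆ C ∨ Disjoint Z C) (hCn : C ⊆ X.En) (hER : ER ⊆ X.En)
    (hPL : ∀ e ∈ PL, ∀ Z ∈ D, e ∉ Z) (hm : 2 ≤ m) :
    World X.n X.T X.V2 C ER PL (D.filter fun Z => Z ⊆ C) (m - 2) (Av X.toXD P D (j + 1) (C ∪ ER)) := by
  refine ⟨?_, ?_, ?_, ?_, ?_, ?_, ?_, ?_, ?_⟩
  · rintro t k ⟨O, h1, h2, h3, h4⟩
    exact ⟨O, hP.mono _ _ h1, h2, h3, h4⟩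
  · rintro t k ⟨O, h1, h2, h3, h4⟩ v hv
    have h5 := (hP.m2 _ _ h1).1.le v
    by_cases hT : v ∈ X.T
    · have h6 := h4.t v hT
      rw [dv_apply] at h6
      omega
    · have h6 := h4.f v hv hT
      rw [dv_apply] at h6
      omega
  · rintro t k ⟨O, h1, h2, h3, h4⟩ v hv hv2
    exact h4.off v hv hv2
  · rintro t k ⟨O, h1, h2, h3, h4⟩
    exact h4.tok
  · rintro t k ⟨O, h1, h2, h3, h4⟩ v hv
    exact h4.up v hv
  · rintro t k ⟨O, h1, h2, h3, h4⟩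
    exact h4.par
  · rintro t k k' ⟨O, h1, h2, h3, h4⟩ g1 g2 g3 g4 g5
    refine ⟨O, h1, h2, h3, ⟨?_, ?_, ?_, g3, g4, g5⟩⟩
    · intro v hv
      rw [g1 v (hX.tn v hv) hv]
      exact h4.t v hv
    · intro v hv hT
      exact ⟨(g2 v hv hT).1, (g2 v hv hT).2.trans (h4.f v hv hT).2⟩
    · intro v hv hv2
      have h5 := h4.off v hv hv2
      by_cases hT : v ∈ X.T
      · rw [g1 v hv hT]; exact h5
      · have := g2 v hv hT
        omega
  · rintro t k k' i ε ⟨O, h1, h2, h3, h4⟩ ⟨O', h1', h2', h3', h4'⟩ hi hε h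
    obtain ⟨L, k'', g1, g2, g3, g4, g5⟩ := hP.ex _ O O' k k' h1 h1' h4 h4' i ε hi hε h
    refine ⟨k'', ⟨L, g1, ?_, ?_, g2⟩, g5⟩
    · exact Finset.disjoint_of_subset_left g3 (Finset.disjoint_union_left.2 ⟨h2, h2'⟩)
    · intro Z hZ hs
      rcases g4 Z (hD.hs Z hZ).1.sh hs with h | h
      · exact h3 Z hZ h
      · exact h3' Z hZ h
  · rintro t ht k ⟨O, h1, h2, h3, h4⟩ K hK hKm hKD hKa he
    have hKn : K ⊆ X.En := hK.trans (Finset.union_subset hCn hER)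
    have hKE : K ⊆ X.E := hKn.trans (hX.e1.trans hX.e2)
    have hdis : Disjoint O K := Finset.disjoint_of_subset_right hK h2
    obtain ⟨g1, g2⟩ := fit_union hX.toOK (hP.m2 _ _ h1).1 (hP.m2 _ _ h1).2 hKm hKE hdis h4 he
    have g3 := hP.add _ O K h1 (hKn.trans hX.e1) g1 (by
      intro Z _ hs
      by_cases h : Z ⊆ O
      · exact Or.inl h
      · right
        obtain ⟨e, he1, he2⟩ := Finset.not_subset.1 h
        rcases Finset.mem_union.1 (hs he1) with h5 | h5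
        · exact absurd h5 he2
        · induction e using Sym2.ind with
          | _ u v => exact ⟨u, hX.nv _ (hKn h5) u (by simp), s(u, v), he1, by simp⟩)
    obtain ⟨Z, hZ, hs⟩ := hD.blk (j + 1 + t + 1) (by omega) _ g3 g2
    rcases hC Z hZ with h | h
    · apply hKD Z (Finset.mem_filter.2 ⟨hZ, h⟩)
      intro e he1
      rcases Finset.mem_union.1 (hs he1) with h5 | h5
      · exact absurd (Finset.mem_union_left _ (h he1)) (Finset.disjoint_left.1 h2 h5)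
      · exact h5
    · obtain ⟨e, he1, he2⟩ := Finset.not_subset.1 (h3 Z hZ)
      have h5 : e ∈ K := by
        rcases Finset.mem_union.1 (hs he1) with h5 | h5
        · exact absurd h5 he2
        · exact h5
      have h6 : e ∉ C := Finset.disjoint_left.1 h he1
      rcases hKa e h5 h6 with h7 | ⟨y, hy, h7⟩
      · exact hPL e h7 Z hZ he1
      · rw [dg, Nat.succ_le_iff, Finset.card_pos] at h7
        obtain ⟨f, hf⟩ := h7
        obtain ⟨hf1, hf2⟩ := Finset.mem_filter.1 hf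
        obtain ⟨hf3, hf4⟩ := Finset.mem_inter.1 hf1
        obtain ⟨w, rfl⟩ := hf2
        have h8 := sh_closed g1 (hD.hs Z hZ).1.sh hs ⟨e, he1, hy⟩ (Finset.mem_union_right _ hf3)
        exact Finset.disjoint_left.1 h h8 hf4

/-- availability of the outer part of a member of the pool -/
theorem av3_of (hP : XP3 X P) {C : Finset (Sym2 ℕ)} (hC : C ⊆ X.E2) {L : Finset (Sym2 ℕ)} (hL : P j L)
    (hD : ∀ Z ∈ D, Z ⊆ L → ¬ Disjoint Z C) {k : ℕ → ℤ} (hk : FitK X.toXD (L \ C) k) :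
    Av X.toXD P D (j + 1) C 0 k := by
  refine ⟨L \ C, hP.del _ _ _ hL hC, Finset.sdiff_disjoint, ?_, hk⟩
  intro Z hZ hs
  exact hD Z hZ (hs.trans Finset.sdiff_subset) (Finset.disjoint_of_subset_left hs Finset.sdiff_disjoint)

end

/-- **everything that is known in one world**: the pool `P`, the minimal blocking family `D` (minimal at stage `j`, blocking
until stage `j + m`), the near covers `M w` of the vertices `w` of `S` (the corners of the two short cycles) -/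
structure OW3 (X : XD3) (P : ℕ → Finset (Sym2 ℕ) → Prop) (D : Finset (Finset (Sym2 ℕ))) (j m : ℕ)
    (S : Finset ℕ) (M : ℕ → Finset (Sym2 ℕ)) : Prop where
  ok : X.OK
  xp : XP3 X P
  blk : Blk3 X P D j m
  mb : 3 ^ (#X.V2 + 1) + 20 ≤ m
  /-- all edges with an end at distance at most 4 from `S` are near edges -/
  rch : ∀ v, Rch X.E S 4 v → ∀ e ∈ X.E, v ∈ e → e ∈ X.En
  sv : ∀ v ∈ S, v ∈ X.V2
  nc : ∀ w ∈ S, w ∈ X.T → NC X.toXD w (M w) ∧ P j (M w) ∧ ∀ Z, Hs3 X.T Z → ¬ Z ⊆ M w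

section
variable {X : XD3} {P : ℕ → Finset (Sym2 ℕ) → Prop} {D : Finset (Finset (Sym2 ℕ))} {j m : ℕ} {S : Finset ℕ}
  {M : ℕ → Finset (Sym2 ℕ)}

theorem OW3.cE (h : OW3 X P D j m S M) {C : Finset (Sym2 ℕ)} (hC : C ⊆ X.En) : C ⊆ X.E2 := hC.trans h.ok.e1

/-- **the world at a union of clusters**: a jump set `J` which contains the vectors of the covers whose members of `D` meet
`C ∪ ER`, and the vectors of the near covers -/
theorem OW3.world (h : OW3 X P D j m S M) {C ER PL : Finset (Sym2 ℕ)} (hC : ∀ Z ∈ D, Z ⊆ C ∨ Disjoint Z C)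
    (hCn : C ⊆ X.En) (hER : ER ⊆ X.En) (hPL : ∀ e ∈ PL, ∀ Z ∈ D, e ∉ Z) :
    ∃ J : (ℕ → ℤ) → Prop, WJ X.n X.T X.V2 C ER PL (D.filter fun Z => Z ⊆ C) J ∧
      (∀ L, P j L → Cv X.toXD L → (∀ Z ∈ D, Z ⊆ L → ¬ Disjoint Z (C ∪ ER)) → J (dv (L ∩ (C ∪ ER)))) ∧
      (∀ w ∈ S, w ∈ X.T → J (dv (M w ∩ (C ∪ ER)) + ev w + ev X.n)) := by
  have hCE : C ∪ ER ⊆ X.E2 := h.cE (Finset.union_subset hCn hER)
  have hm := h.mb
  obtain ⟨c, hc⟩ : ∃ c, c = 3 ^ (#X.V2 + 1) := ⟨_, rfl⟩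
  rw [← hc] at hm
  obtain ⟨t, _, hJ0, hJ⟩ := (world3_of h.ok h.xp h.blk hC hCn hER hPL (show 2 ≤ m by omega)).toWJ h.ok.vn
    (by rw [← hc]; omega)
  refine ⟨_, hJ, ?_, ?_⟩
  · intro L hL hc hD
    exact hJ0 _ (av3_of h.xp hCE hL hD
      (fit_cover h.ok.toOK (h.xp.m2 _ _ hL).1 (h.xp.m2 _ _ hL).2 hc hCE))
  · intro w hw hT
    obtain ⟨h1, h2, h3⟩ := h.nc w hw hT
    exact hJ0 _ (av3_of h.xp hCE h2 (fun Z hZ hs => absurd hs (h3 Z (h.blk.hs Z hZ).1))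
      (fit_near h.ok.toOK h1 hT (h.sv w hw) hCE))

end

end Pool.Agent.P34

end

section -- file P34/XCl3

/-!
The clusters of a minimal blocking family of triangles and squares.
-/

set_option autoImplicit false

namespace Pool.Agent.P34

open Finset Pool.Agent.TFC Pool.Agent.PF4
open Pool.Agent.PF4.XF (XD FitK Cv World WJ Av NC Rch mem_k4 mem_k2)

theorem mem3_k4 {X : Finset ℕ} {a b : ℕ} : s(a, b) ∈ (Clu3.k4 X).edges ↔ a ∈ X ∧ b ∈ X ∧ a ≠ b := mem_k4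

theorem mem3_k2 {u v : ℕ} {L : Finset ℕ} {a b : ℕ} : s(a, b) ∈ (Clu3.k2 u v L).edges ↔
    ((a = u ∨ a = v) ∧ b ∈ L) ∨ ((b = u ∨ b = v) ∧ a ∈ L) := mem_k2

theorem mem3_k11 {u v : ℕ} {L : Finset ℕ} {a b : ℕ} : s(a, b) ∈ (Clu3.k11 u v L).edges ↔
    ((a = u ∧ b = v) ∨ (a = v ∧ b = u)) ∨ ((a = u ∨ a = v) ∧ b ∈ L) ∨ ((b = u ∨ b = v) ∧ a ∈ L) := by
  rw [Clu3.edges, mem_insert, mem_k2, Sym2.eq_iff]

/-- a cluster with centres `u`, `v` and leaves `L` -/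
def Hub (c : Clu3 ℕ) (u v : ℕ) (L : Finset ℕ) : Prop :=
  c = Clu3.k2 u v L ∨ c = Clu3.k2 v u L ∨ c = Clu3.k11 u v L ∨ c = Clu3.k11 v u L

/-- a cluster `K_{1,1,m}` with centres `u`, `v` and leaves `L` -/
def Hub1 (c : Clu3 ℕ) (u v : ℕ) (L : Finset ℕ) : Prop := c = Clu3.k11 u v L ∨ c = Clu3.k11 v u L

/-- a square in `K_{1,1,m}` does not contain the edge of the centres -/
theorem k11_sq {u v : ℕ} {L : Finset ℕ} (uv : u ≠ v) (uL : u ∉ L) (vL : v ∉ L) {x y q p : ℕ}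
    (h4 : Dist4 x y q p) (hs : TFC.sq x y q p ⊆ (Clu3.k11 u v L).edges) : s(x, y) ≠ s(u, v) := by
  intro h
  obtain ⟨xy, xq, xp, yq, yp, qp⟩ := h4
  have e2 : s(y, q) ∈ (Clu3.k11 u v L).edges := hs (by simp [TFC.sq])
  have e3 : s(q, p) ∈ (Clu3.k11 u v L).edges := hs (by simp [TFC.sq])
  have e4 : s(p, x) ∈ (Clu3.k11 u v L).edges := hs (by simp [TFC.sq])
  rw [mem3_k11] at e2 e3 e4
  have hq : q ∈ L := by
    rw [Sym2.eq_iff] at h
    rcases h with ⟨rfl, rfl⟩ | ⟨rfl, rfl⟩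
    · rcases e2 with (⟨h1, h2⟩ | ⟨h1, h2⟩) | (⟨_, h2⟩ | ⟨_, h2⟩)
      · exact absurd h1 xy.symm
      · exact absurd h2.symm xq
      · exact h2
      · exact absurd h2 vL
    · rcases e2 with (⟨h1, h2⟩ | ⟨h1, h2⟩) | (⟨_, h2⟩ | ⟨_, h2⟩)
      · exact absurd h2.symm xq
      · exact absurd h1 xy.symm
      · exact h2
      · exact absurd h2 uL
  have hp : p ∈ L := by
    rw [Sym2.eq_iff] at h
    rcases h with ⟨rfl, rfl⟩ | ⟨rfl, rfl⟩
    · rcases e4 with (⟨h1, h2⟩ | ⟨h1, h2⟩) | (⟨h1, h2⟩ | ⟨_, h2⟩)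
      · exact absurd h1.symm xp
      · exact absurd h1.symm yp
      · exact absurd h2 uL
      · exact h2
    · rcases e4 with (⟨h1, h2⟩ | ⟨h1, h2⟩) | (⟨h1, h2⟩ | ⟨_, h2⟩)
      · exact absurd h1.symm yp
      · exact absurd h1.symm xp
      · exact absurd h2 vL
      · exact h2
  rcases e3 with (⟨rfl, _⟩ | ⟨rfl, _⟩) | (⟨rfl | rfl, _⟩ | ⟨rfl | rfl, _⟩)
  · exact uL hq
  · exact vL hq
  · exact uL hq
  · exact vL hq
  · exact uL hp
  · exact vL hp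

/-- a square in a cluster: the shape of the cluster -/
theorem shape3_sq {c : Clu3 ℕ} (hc : c.Valid) {x y q p : ℕ} (h4 : Dist4 x y q p)
    (hs : TFC.sq x y q p ⊆ c.edges) :
    c = Clu3.k4 {x, y, q, p} ∨
    (∃ L, Hub c x q L ∧ y ∈ L ∧ p ∈ L ∧ x ∉ L ∧ q ∉ L) ∨
    (∃ L, Hub c y p L ∧ x ∈ L ∧ q ∈ L ∧ y ∉ L ∧ p ∉ L) := by
  cases c with
  | k4 X =>
    left
    rcases XF.shape (c := Clu.k4 X) hc h4 hs with h | ⟨L, h | h, _⟩ | ⟨L, h | h, _⟩
    · rw [Clu.k4.injEq] at h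
      rw [h]
    all_goals exact absurd h (by simp)
  | k2 u v L =>
    right
    rcases XF.shape (c := Clu.k2 u v L) hc h4 hs with h | ⟨L', h | h, h'⟩ | ⟨L', h | h, h'⟩
    · exact absurd h (by simp)
    · rw [Clu.k2.injEq] at h
      obtain ⟨rfl, rfl, rfl⟩ := h
      exact Or.inl ⟨L, Or.inl rfl, h'⟩
    · rw [Clu.k2.injEq] at h
      obtain ⟨rfl, rfl, rfl⟩ := h
      exact Or.inl ⟨L, Or.inr (Or.inl rfl), h'⟩
    · rw [Clu.k2.injEq] at h
      obtain ⟨rfl, rfl, rfl⟩ := h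
      exact Or.inr ⟨L, Or.inl rfl, h'⟩
    · rw [Clu.k2.injEq] at h
      obtain ⟨rfl, rfl, rfl⟩ := h
      exact Or.inr ⟨L, Or.inr (Or.inl rfl), h'⟩
  | k11 u v L =>
    right
    obtain ⟨uv, uL, vL, _⟩ : u ≠ v ∧ u ∉ L ∧ v ∉ L ∧ 1 ≤ #L := hc
    obtain ⟨xy, xq, xp, yq, yp, qp⟩ := id h4
    have n1 := k11_sq uv uL vL h4 hs
    have n2 := k11_sq uv uL vL (x := y) (y := q) (q := p) (p := x) ⟨yq, yp, xy.symm, qp, xq.symm, xp.symm⟩
      (by
        intro e he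
        apply hs
        simp only [TFC.sq, mem_insert, mem_singleton] at he ⊢
        tauto)
    have n3 := k11_sq uv uL vL (x := q) (y := p) (q := x) (p := y) ⟨qp, xq.symm, yq.symm, xp.symm, yp.symm, xy⟩
      (by
        intro e he
        apply hs
        simp only [TFC.sq, mem_insert, mem_singleton] at he ⊢
        tauto)
    have n4 := k11_sq uv uL vL (x := p) (y := x) (q := y) (p := q) ⟨xp.symm, yp.symm, qp.symm, xy, xq, yq⟩
      (by
        intro e he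
        apply hs
        simp only [TFC.sq, mem_insert, mem_singleton] at he ⊢
        tauto)
    have hs' : TFC.sq x y q p ⊆ (Clu.k2 u v L).edges := by
      intro e he
      have h1 := hs he
      rw [Clu3.edges, mem_insert] at h1
      refine h1.resolve_left fun h => ?_
      simp only [TFC.sq, mem_insert, mem_singleton] at he
      rcases he with rfl | rfl | rfl | rfl
      · exact n1 h
      · exact n2 h
      · exact n3 h
      · exact n4 h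
    have hL : 2 ≤ #L := by
      rw [TFC.sq] at hs'
      have e1 : s(x, y) ∈ (Clu.k2 u v L).edges := hs' (by simp)
      have e2 : s(y, q) ∈ (Clu.k2 u v L).edges := hs' (by simp)
      have e3 : s(q, p) ∈ (Clu.k2 u v L).edges := hs' (by simp)
      have e4 : s(p, x) ∈ (Clu.k2 u v L).edges := hs' (by simp)
      rw [mem_k2] at e1 e2 e3 e4
      have cl : ∀ a, (a = u ∨ a = v) → a ∉ L := by
        rintro a (rfl | rfl)
        · exact uL
        · exact vL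
      rcases e1 with ⟨hx, hy⟩ | ⟨hy, hx⟩
      · have hp : p ∈ L := by
          rcases e4 with ⟨_, h⟩ | ⟨_, h⟩
          · exact absurd h (cl x hx)
          · exact h
        exact one_lt_card.2 ⟨y, hy, p, hp, yp⟩
      · have hq : q ∈ L := by
          rcases e2 with ⟨_, h⟩ | ⟨_, h⟩
          · exact h
          · exact absurd h (cl y hy)
        exact one_lt_card.2 ⟨x, hx, q, hq, xq⟩
    rcases XF.shape (c := Clu.k2 u v L) ⟨uv, uL, vL, hL⟩ h4 hs' with h | ⟨L', h | h, h'⟩ | ⟨L', h | h, h'⟩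
    · exact absurd h (by simp)
    · rw [Clu.k2.injEq] at h
      obtain ⟨rfl, rfl, rfl⟩ := h
      exact Or.inl ⟨L, Or.inr (Or.inr (Or.inl rfl)), h'⟩
    · rw [Clu.k2.injEq] at h
      obtain ⟨rfl, rfl, rfl⟩ := h
      exact Or.inl ⟨L, Or.inr (Or.inr (Or.inr rfl)), h'⟩
    · rw [Clu.k2.injEq] at h
      obtain ⟨rfl, rfl, rfl⟩ := h
      exact Or.inr ⟨L, Or.inr (Or.inr (Or.inl rfl)), h'⟩
    · rw [Clu.k2.injEq] at h
      obtain ⟨rfl, rfl, rfl⟩ := h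
      exact Or.inr ⟨L, Or.inr (Or.inr (Or.inr rfl)), h'⟩

/-- a triangle in a cluster: the shape of the cluster -/
theorem shape3_tri {c : Clu3 ℕ} (hc : c.Valid) {x y p : ℕ} (h3 : Dist3 x y p) (hs : tri x y p ⊆ c.edges) :
    (∃ X, c = Clu3.k4 X ∧ #X = 4 ∧ x ∈ X ∧ y ∈ X ∧ p ∈ X) ∨
    (∃ L, Hub1 c x y L ∧ p ∈ L ∧ x ∉ L ∧ y ∉ L) ∨
    (∃ L, Hub1 c y p L ∧ x ∈ L ∧ y ∉ L ∧ p ∉ L) ∨
    (∃ L, Hub1 c p x L ∧ y ∈ L ∧ p ∉ L ∧ x ∉ L) := by
  obtain ⟨xy, xp, yp⟩ := h3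
  obtain ⟨e1, e2, e3⟩ := tri_sub.1 hs
  cases c with
  | k4 X =>
    left
    rw [mem3_k4] at e1 e2
    exact ⟨X, rfl, hc, e1.1, e1.2.1, e2.2.1⟩
  | k2 u v L =>
    exfalso
    obtain ⟨uv, uL, vL, _⟩ : u ≠ v ∧ u ∉ L ∧ v ∉ L ∧ 2 ≤ #L := hc
    rw [mem3_k2] at e1 e2 e3
    have cl : ∀ a, (a = u ∨ a = v) → a ∉ L := by
      rintro a (rfl | rfl)
      · exact uL
      · exact vL
    rcases e1 with ⟨hx, hy⟩ | ⟨hy, hx⟩
    · rcases e2 with ⟨h1, h2⟩ | ⟨h1, h2⟩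
      · exact cl y h1 hy
      · rcases e3 with ⟨h3, h4⟩ | ⟨h3, h4⟩
        · exact cl x hx h4
        · exact cl p h1 h4
    · rcases e2 with ⟨h1, h2⟩ | ⟨h1, h2⟩
      · rcases e3 with ⟨h3, h4⟩ | ⟨h3, h4⟩
        · exact cl p h3 h2
        · exact cl x h3 hx
      · exact cl y hy h2
  | k11 u v L =>
    right
    obtain ⟨uv, uL, vL, _⟩ : u ≠ v ∧ u ∉ L ∧ v ∉ L ∧ 1 ≤ #L := hc
    rw [mem3_k11] at e1 e2 e3
    have cl : ∀ a, (a = u ∨ a = v) → a ∉ L := by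
      rintro a (rfl | rfl)
      · exact uL
      · exact vL
    rcases e1 with (⟨rfl, rfl⟩ | ⟨rfl, rfl⟩) | (⟨hx, hy⟩ | ⟨hy, hx⟩)
    · left
      refine ⟨L, Or.inl rfl, ?_, uL, vL⟩
      rcases e2 with (⟨h1, _⟩ | ⟨_, h1⟩) | (⟨_, h1⟩ | ⟨_, h1⟩)
      · exact absurd h1 xy.symm
      · exact absurd h1.symm xp
      · exact h1
      · exact absurd h1 vL
    · left
      refine ⟨L, Or.inr rfl, ?_, vL, uL⟩
      rcases e2 with (⟨_, h1⟩ | ⟨h1, _⟩) | (⟨_, h1⟩ | ⟨_, h1⟩)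
      · exact absurd h1.symm xp
      · exact absurd h1 xy.symm
      · exact h1
      · exact absurd h1 uL
    · -- `x` centre, `y` leaf
      right; right
      have hp : p = u ∨ p = v := by
        rcases e2 with (⟨h1, _⟩ | ⟨h1, _⟩) | (⟨h1, _⟩ | ⟨h1, _⟩)
        · exact absurd hy (cl y (Or.inl h1))
        · exact absurd hy (cl y (Or.inr h1))
        · exact absurd hy (cl y h1)
        · exact h1
      refine ⟨L, ?_, hy, cl p hp, cl x hx⟩
      rcases hx with rfl | rfl <;> rcases hp with rfl | rfl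
      · exact absurd rfl xp
      · exact Or.inr rfl
      · exact Or.inl rfl
      · exact absurd rfl xp
    · -- `y` centre, `x` leaf
      right; left
      have hp : p = u ∨ p = v := by
        rcases e3 with (⟨_, h1⟩ | ⟨_, h1⟩) | (⟨h1, _⟩ | ⟨h1, _⟩)
        · exact absurd hx (cl x (Or.inr h1))
        · exact absurd hx (cl x (Or.inl h1))
        · exact h1
        · exact absurd hx (cl x h1)
      refine ⟨L, ?_, hx, cl y hy, cl p hp⟩
      rcases hy with rfl | rfl <;> rcases hp with rfl | rfl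
      · exact absurd rfl yp
      · exact Or.inl rfl
      · exact Or.inr rfl
      · exact absurd rfl yp

/-- the clusters of a family of triangles and squares -/
structure Cls3 (D : Finset (Finset (Sym2 ℕ))) (CL : List (Clu3 ℕ)) : Prop where
  val : ∀ c ∈ CL, c.Valid
  dj : CL.Pairwise fun c c' => Disjoint c.edges c'.edges
  sub : ∀ c ∈ CL, c.edges ⊆ D.biUnion id
  cov : ∀ Z ∈ D, ∃ c ∈ CL, Z ⊆ c.edges

/-- **the clusters of a minimal blocking family** -/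
theorem cls3_of {X : XD3} {P : ℕ → Finset (Sym2 ℕ) → Prop} {D : Finset (Finset (Sym2 ℕ))} {j m : ℕ}
    (hX : X.OK) (hP : XP3 X P) (hD : Blk3 X P D j m) (hm : 10 ≤ m) : ∃ CL, Cls3 D CL := by
  obtain ⟨C, h1, h2, h3, h4⟩ := clusters3 D (fun Z hZ => (hD.hs Z hZ).1.sh) (res3 hX hP hD hm)
  exact ⟨C, h1, h2, h3, h4⟩

/-- the edges of several clusters -/
def Ucl3 : List (Clu3 ℕ) → Finset (Sym2 ℕ)
  | [] => ∅
  | c :: S => c.edges ∪ Ucl3 S

theorem mem_Ucl3 {e : Sym2 ℕ} : ∀ {S : List (Clu3 ℕ)}, e ∈ Ucl3 S ↔ ∃ c ∈ S, e ∈ c.edges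
  | [] => by simp [Ucl3]
  | c :: S => by
    rw [Ucl3, mem_union, mem_Ucl3]
    simp

section
variable {D : Finset (Finset (Sym2 ℕ))} {CL : List (Clu3 ℕ)}

/-- clusters with a common edge are equal -/
theorem Cls3.eq (h : Cls3 D CL) {c c' : Clu3 ℕ} (hc : c ∈ CL) (hc' : c' ∈ CL) {e : Sym2 ℕ}
    (he : e ∈ c.edges) (he' : e ∈ c'.edges) : c = c' := by
  by_contra hne
  have : Std.Symm (fun c c' : Clu3 ℕ => Disjoint c.edges c'.edges) := ⟨fun _ _ h => h.symm⟩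
  have h1 := h.dj.forall hc hc' hne
  exact Finset.disjoint_left.1 h1 he he'

/-- a square of the family and a cluster -/
theorem Cls3.whole (h : Cls3 D CL) {c : Clu3 ℕ} (hc : c ∈ CL) {Z : Finset (Sym2 ℕ)} (hZ : Z ∈ D) :
    Z ⊆ c.edges ∨ Disjoint Z c.edges := by
  obtain ⟨c', hc', hs⟩ := h.cov Z hZ
  by_cases he : c = c'
  · subst he; exact Or.inl hs
  · right
    rw [Finset.disjoint_left]
    intro e h1 h2
    exact he (h.eq hc hc' h2 (hs h1))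

/-- a square of the family and a union of clusters -/
theorem Cls3.wholeU (h : Cls3 D CL) {S : List (Clu3 ℕ)} (hS : ∀ c ∈ S, c ∈ CL) {Z : Finset (Sym2 ℕ)} (hZ : Z ∈ D) :
    Z ⊆ Ucl3 S ∨ Disjoint Z (Ucl3 S) := by
  obtain ⟨c', hc', hs⟩ := h.cov Z hZ
  by_cases he : c' ∈ S
  · left
    intro e h1
    exact mem_Ucl3.2 ⟨c', he, hs h1⟩
  · right
    rw [Finset.disjoint_left]
    intro e h1 h2
    obtain ⟨c, hc, h3⟩ := mem_Ucl3.1 h2
    have := h.eq (hS c hc) hc' h3 (hs h1)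
    subst this
    exact he hc

/-- an edge is in a cluster iff it is in a square of the family -/
theorem Cls3.edge (h : Cls3 D CL) {e : Sym2 ℕ} : (∃ c ∈ CL, e ∈ c.edges) ↔ ∃ Z ∈ D, e ∈ Z := by
  constructor
  · rintro ⟨c, hc, he⟩
    have := h.sub c hc he
    rw [mem_biUnion] at this
    exact this
  · rintro ⟨Z, hZ, he⟩
    obtain ⟨c, hc, hs⟩ := h.cov Z hZ
    exact ⟨c, hc, hs he⟩

/-- every edge of a cluster lies in a square of the family inside the cluster -/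
theorem Cls3.edge_sq (h : Cls3 D CL) {c : Clu3 ℕ} (hc : c ∈ CL) {f : Sym2 ℕ} (hf : f ∈ c.edges) :
    ∃ Z ∈ D, f ∈ Z ∧ Z ⊆ c.edges := by
  obtain ⟨Z, hZ, hfZ⟩ := h.edge.1 ⟨c, hc, hf⟩
  refine ⟨Z, hZ, hfZ, (h.whole hc hZ).resolve_right fun hd => ?_⟩
  exact Finset.disjoint_left.1 hd hfZ hf

/-- two vertices of a cluster: all edges of the cluster have an end which is the first vertex or adjacent to it -/
theorem near3_edge {c : Clu3 ℕ} (hc : c.Valid) {e f : Sym2 ℕ} (he : e ∈ c.edges) {a : ℕ} (ha : a ∈ e)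
    (hf : f ∈ c.edges) : ∃ w ∈ f, w = a ∨ s(a, w) ∈ c.edges := by
  cases c with
  | k4 X => exact XF.near_edge (c := Clu.k4 X) hc he ha hf
  | k2 x y L => exact XF.near_edge (c := Clu.k2 x y L) hc he ha hf
  | k11 x y L =>
    obtain ⟨b, rfl⟩ := ha
    induction f using Sym2.ind with
    | _ u v =>
    obtain ⟨xy, xL, yL, _⟩ : x ≠ y ∧ x ∉ L ∧ y ∉ L ∧ 1 ≤ #L := hc
    rw [mem3_k11] at he hf
    have hcen : ∀ w, (w = x ∨ w = y) → ∀ z, (z = x ∨ z = y) → w = z ∨ s(z, w) ∈ (Clu3.k11 x y L).edges := by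
      rintro w (rfl | rfl) z (rfl | rfl)
      · exact Or.inl rfl
      · exact Or.inr (mem3_k11.2 (Or.inl (Or.inr ⟨rfl, rfl⟩)))
      · exact Or.inr (mem3_k11.2 (Or.inl (Or.inl ⟨rfl, rfl⟩)))
      · exact Or.inl rfl
    have ha' : (a = x ∨ a = y) ∨ a ∈ L := by tauto
    -- an end of `f` is a centre
    have hf' : ∃ w ∈ s(u, v), w = x ∨ w = y := by
      rcases hf with (⟨h1, h2⟩ | ⟨h1, h2⟩) | (⟨h1, h2⟩ | ⟨h1, h2⟩)
      · exact ⟨u, by simp, Or.inl h1⟩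
      · exact ⟨u, by simp, Or.inr h1⟩
      · exact ⟨u, by simp, h1⟩
      · exact ⟨v, by simp, h1⟩
    obtain ⟨w, hw, hwc⟩ := hf'
    refine ⟨w, hw, ?_⟩
    rcases ha' with ha' | ha'
    · exact hcen w hwc a ha'
    · exact Or.inr (mem3_k11.2 (Or.inr (Or.inr ⟨hwc, ha'⟩)))

end

section
variable {X : XD3} {P : ℕ → Finset (Sym2 ℕ) → Prop} {D : Finset (Finset (Sym2 ℕ))} {j m : ℕ} {S : Finset ℕ}
  {M : ℕ → Finset (Sym2 ℕ)} {CL : List (Clu3 ℕ)}

theorem OW3.ten (h : OW3 X P D j m S M) : 10 ≤ m :=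
  le_trans (by norm_num) (le_trans (Nat.le_add_left 20 _) h.mb)

/-- the clusters -/
theorem OW3.cls (h : OW3 X P D j m S M) : ∃ CL, Cls3 D CL :=
  cls3_of h.ok h.xp h.blk (h.ten)

theorem OW3.sqE (h : OW3 X P D j m S M) {Z : Finset (Sym2 ℕ)} (hZ : Z ∈ D) : Z ⊆ X.E :=
  (h.blk.hs Z hZ).2.1.trans h.ok.e2

theorem OW3.ish (h : OW3 X P D j m S M) {Z : Finset (Sym2 ℕ)} (hZ : Z ∈ D) : IsSh Z :=
  (h.blk.hs Z hZ).1.sh

theorem OW3.clE (h : OW3 X P D j m S M) (hc : Cls3 D CL) {c : Clu3 ℕ} (hcC : c ∈ CL) : c.edges ⊆ X.E := by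
  intro f hf
  have := hc.sub c hcC hf
  rw [mem_biUnion] at this
  obtain ⟨Z, hZ, hfZ⟩ := this
  exact h.sqE hZ hfZ

/-- a cluster with a vertex near `S` is in `En` -/
theorem OW3.near (h : OW3 X P D j m S M) (hc : Cls3 D CL) {c : Clu3 ℕ} (hcC : c ∈ CL) {e : Sym2 ℕ}
    (he : e ∈ c.edges) {a : ℕ} (ha : a ∈ e) (haS : Rch X.E S 3 a) : c.edges ⊆ X.En := by
  have hcE := h.clE hc hcC
  intro f hf
  obtain ⟨w, hw, h1⟩ := near3_edge (hc.val c hcC) he ha hf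
  refine h.rch w ?_ f (hcE hf) hw
  rcases h1 with rfl | h1
  · exact XF.Rch.mono (by omega) haS
  · exact XF.Rch.step haS (hcE h1)

/-- the witness of a square of `D`: a cover in the pool, whose only square of `D` is `Z` -/
theorem OW3.wit (h : OW3 X P D j m S M) {Z : Finset (Sym2 ℕ)} (hZ : Z ∈ D) :
    ∃ L, P j L ∧ Cv X.toXD L ∧ M2 L ∧ L ⊆ X.E ∧ Z ⊆ L ∧ ∀ Z' ∈ D, Z' ⊆ L → Z' = Z := by
  obtain ⟨L, h1, h2, h3, h4⟩ := h.blk.wit Z hZ
  exact ⟨L, h1, h2, (h.xp.m2 _ _ h1).1, (h.xp.m2 _ _ h1).2, h3, h4⟩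

/-- **the world at a union of clusters**, with the vectors of the witnesses of all squares in it -/
theorem OW3.world' (h : OW3 X P D j m S M) (hc : Cls3 D CL) {U : List (Clu3 ℕ)} (hU : ∀ c ∈ U, c ∈ CL)
    (hUn : ∀ c ∈ U, c.edges ⊆ X.En) {ER PL : Finset (Sym2 ℕ)} (hER : ER ⊆ X.En)
    (hPL : ∀ e ∈ PL, ∀ Z ∈ D, e ∉ Z) :
    ∃ J : (ℕ → ℤ) → Prop, WJ X.n X.T X.V2 (Ucl3 U) ER PL (D.filter fun Z => Z ⊆ Ucl3 U) J ∧
      (∀ L Z, Z ∈ D → P j L → Cv X.toXD L → (∀ Z' ∈ D, Z' ⊆ L → Z' = Z) → ¬ Disjoint Z (Ucl3 U ∪ ER) →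
        J (dv (L ∩ (Ucl3 U ∪ ER)))) ∧
      (∀ w ∈ S, w ∈ X.T → J (dv (M w ∩ (Ucl3 U ∪ ER)) + ev w + ev X.n)) := by
  obtain ⟨J, h1, h2, h3⟩ := h.world (C := Ucl3 U) (ER := ER) (PL := PL) (fun Z hZ => hc.wholeU hU hZ)
    (by
      intro e he
      obtain ⟨c, hcU, hec⟩ := mem_Ucl3.1 he
      exact hUn c hcU hec) hER hPL
  refine ⟨J, h1, ?_, h3⟩
  intro L Z hZ hL hcv hu hd
  refine h2 L hL hcv fun Z' hZ' hs => ?_
  rw [hu Z' hZ' hs]
  exact hd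

end

end Pool.Agent.P34

end
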