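import Pool.Agent.PFN.M10
import Pool.Agent.PFN.M17

section -- file PF4/XG

/-!
The theorem on two conflicting squares: the statements of the pattern theorems (`Pat`) and the case split
`Pat → XfStatement`.

NOTATION (six vertices): the common edge is `x y`; `Q = sq x y q p` (edges `xy, yq, qp, px`) is in `D₁`,
`R = sq x y r s` (edges `xy, yr, rs, sx`) is in `D₂`. So `y` is adjacent to `q` (in `Q`) and to `r` (in `R`),
`x` is adjacent to `p` (in `Q`) and to `s` (in `R`).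
Five vertices: `Q = sq x y q p` (edges `xy, yq, qp, px`), `R = sq x y r q` (edges `xy, yr, rq, qx`).
-/

set_option autoImplicit false

namespace Pool.Agent.PF4.XF

open Finset Pool.Agent.TFC Pool.Agent.PF4

theorem sq_ref (x y q p : ℕ) : sq x y q p = sq y x p q := by
  ext e; simp only [TFC.sq, mem_insert, mem_singleton]
  rw [Sym2.eq_swap (a := y) (b := x), Sym2.eq_swap (a := x) (b := p), Sym2.eq_swap (a := p) (b := q),
    Sym2.eq_swap (a := q) (b := y)]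
  clear * -
  tauto

theorem sq_rot (x y q p : ℕ) : sq x y q p = sq y q p x := by
  ext e; simp only [TFC.sq, mem_insert, mem_singleton]; tauto

theorem d4rot {x y q p : ℕ} (h : Dist4 x y q p) : Dist4 y q p x := by
  obtain ⟨h1, h2, h3, h4, h5, h6⟩ := h
  exact ⟨h4, h5, h1.symm, h6, h2.symm, h3.symm⟩

theorem d4ref {x y q p : ℕ} (h : Dist4 x y q p) : Dist4 y x p q := by
  obtain ⟨h1, h2, h3, h4, h5, h6⟩ := h
  exact ⟨h1.symm, h5, h4, h3, h2, h6.symm⟩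

theorem fs_rot (a b c d : ℕ) : ({a, b, c, d} : Finset ℕ) = {b, c, d, a} := by
  ext v; simp only [mem_insert, mem_singleton]; tauto

theorem fs_ref (a b c d : ℕ) : ({a, b, c, d} : Finset ℕ) = {b, a, d, c} := by
  ext v; simp only [mem_insert, mem_singleton]; tauto

/-- a square, read from one of its edges -/
theorem sq_at {a b c d : ℕ} (h : Dist4 a b c d) {e : Sym2 ℕ} (he : e ∈ sq a b c d) :
    ∃ x y q p, Dist4 x y q p ∧ e = s(x, y) ∧ sq a b c d = sq x y q p ∧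
      ({a, b, c, d} : Finset ℕ) = {x, y, q, p} := by
  simp only [TFC.sq, mem_insert, mem_singleton] at he
  rcases he with rfl | rfl | rfl | rfl
  · exact ⟨a, b, c, d, h, rfl, rfl, rfl⟩
  · exact ⟨b, c, d, a, d4rot h, rfl, sq_rot .., fs_rot ..⟩
  · exact ⟨c, d, a, b, d4rot (d4rot h), rfl, by rw [sq_rot, sq_rot], by rw [fs_rot, fs_rot]⟩
  · exact ⟨d, a, b, c, d4rot (d4rot (d4rot h)), rfl, by rw [sq_rot, sq_rot, sq_rot],
      by rw [fs_rot, fs_rot, fs_rot]⟩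

theorem sq_at' {a b c d : ℕ} (h : Dist4 a b c d) {x y : ℕ} (he : s(x, y) ∈ sq a b c d) :
    ∃ r s, Dist4 x y r s ∧ sq a b c d = sq x y r s ∧ ({a, b, c, d} : Finset ℕ) = {x, y, r, s} := by
  obtain ⟨x', y', q, p, h1, h2, h3, h4⟩ := sq_at h he
  rw [Sym2.eq_iff] at h2
  rcases h2 with ⟨rfl, rfl⟩ | ⟨rfl, rfl⟩
  · exact ⟨q, p, h1, h3, h4⟩
  · exact ⟨p, q, d4ref h1, by rw [h3, sq_ref], by rw [h4, fs_ref]⟩

/-- **normal form** of two squares with exactly one common edge -/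
theorem normal_form {Q R : Sq4} (hQ : SqOK Q) (hR : SqOK R) (h : #(sqs Q ∩ sqs R) = 1) :
    (∃ x y q p r s, [x, y, q, p, r, s].Nodup ∧ sqs Q = sq x y q p ∧ sqs R = sq x y r s ∧
      cr Q = {x, y, q, p} ∧ cr R = {x, y, r, s}) ∨
    (∃ x y q p r, [x, y, q, p, r].Nodup ∧ sqs Q = sq x y q p ∧ sqs R = sq x y r q ∧
      cr Q = {x, y, q, p} ∧ cr R = {x, y, r, q}) := by
  obtain ⟨e, he⟩ := card_eq_one.1 h
  have hu : ∀ f, f ∈ sqs Q → f ∈ sqs R → f = e := fun f h1 h2 => by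
    have : f ∈ sqs Q ∩ sqs R := mem_inter.2 ⟨h1, h2⟩
    rw [he] at this; exact mem_singleton.1 this
  have hm : e ∈ sqs Q ∩ sqs R := by rw [he]; exact mem_singleton_self e
  obtain ⟨hm1, hm2⟩ := mem_inter.1 hm
  obtain ⟨x, y, q, p, d1, rfl, e1, c1⟩ := sq_at hQ hm1
  obtain ⟨r, s, d2, e2, c2⟩ := sq_at' hR hm2
  have e1' : sqs Q = sq x y q p := e1
  have e2' : sqs R = sq x y r s := e2
  rw [e1', e2'] at hu
  obtain ⟨a1, a2, a3, a4, a5, a6⟩ := d1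
  obtain ⟨-, b2, b3, b4, b5, b6⟩ := d2
  have hqr : q ≠ r := by
    rintro rfl
    have := hu s(y, q) (by simp [TFC.sq]) (by simp [TFC.sq])
    rw [Sym2.eq_iff] at this
    rcases this with ⟨h1, h2⟩ | ⟨h1, h2⟩
    · exact a1 h1.symm
    · exact a2 h2.symm
  have hps : p ≠ s := by
    rintro rfl
    have := hu s(p, x) (by simp [TFC.sq]) (by simp [TFC.sq])
    rw [Sym2.eq_iff] at this
    rcases this with ⟨h1, h2⟩ | ⟨h1, h2⟩
    · exact a3 h1.symm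
    · exact a5 h1.symm
  by_cases hqs : q = s
  · right
    subst hqs
    have hpr : p ≠ r := by
      rintro rfl
      have := hu s(q, p) (by simp [TFC.sq]) (by simp [TFC.sq])
      rw [Sym2.eq_iff] at this
      rcases this with ⟨h1, h2⟩ | ⟨h1, h2⟩
      · exact a2 h1.symm
      · exact a4 h1.symm
    refine ⟨x, y, q, p, r, ?_, e1', e2', c1, c2⟩
    simp only [List.nodup_cons, List.mem_cons, List.not_mem_nil, or_false, not_or, List.nodup_nil, and_true,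
      not_false_eq_true]
    exact ⟨⟨a1, a2, a3, b2⟩, ⟨a4, a5, b4⟩, ⟨a6, hqr⟩, hpr⟩
  · by_cases hpr : p = r
    · right
      subst hpr
      refine ⟨y, x, p, q, s, ?_, by rw [e1', sq_ref], by rw [e2', sq_ref], ?_, ?_⟩
      · simp only [List.nodup_cons, List.mem_cons, List.not_mem_nil, or_false, not_or, List.nodup_nil, and_true,
          not_false_eq_true]
        exact ⟨⟨a1.symm, a5, a4, b5⟩, ⟨a3, a2, b3⟩, ⟨a6.symm, hps⟩, hqs⟩
      · rw [show cr Q = _ from c1, fs_ref]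
      · rw [show cr R = _ from c2, fs_ref]
    · left
      refine ⟨x, y, q, p, r, s, ?_, e1', e2', c1, c2⟩
      simp only [List.nodup_cons, List.mem_cons, List.not_mem_nil, or_false, not_or, List.nodup_nil, and_true,
        not_false_eq_true]
      exact ⟨⟨a1, a2, a3, b2, b3⟩, ⟨a4, a5, b4, b5⟩, ⟨a6, hqr, hqs⟩, ⟨hpr, hps⟩, b6⟩

/-- opposite corners of a square -/
theorem opp_eq {x y q p c d : ℕ} (hd : Dist4 x y q p) (h4 : Dist4 x y c d) (he : sq x y q p = sq x y c d) :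
    c = q ∧ d = p := by
  obtain ⟨d1, d2, d3, d4, d5, d6⟩ := hd
  obtain ⟨g1, g2, g3, g4, g5, g6⟩ := h4
  have h1 : s(y, c) ∈ sq x y q p := by rw [he]; simp [TFC.sq]
  have h2 : s(d, x) ∈ sq x y q p := by rw [he]; simp [TFC.sq]
  simp only [TFC.sq, mem_insert, mem_singleton, Sym2.eq_iff] at h1 h2
  constructor
  · omega
  · omega

/-- harmful squares: a pair of opposite corners in `T` -/
theorem hs_opp {T : Finset ℕ} {x y q p : ℕ} (hd : Dist4 x y q p) (h : Hs T (sq x y q p)) :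
    (x ∈ T ∧ q ∈ T) ∨ (y ∈ T ∧ p ∈ T) := by
  obtain ⟨a, b, c, d, h4, he, ha, hc⟩ := h
  have hab : s(a, b) ∈ sq x y q p := by rw [he]; simp [TFC.sq]
  simp only [TFC.sq, mem_insert, mem_singleton, Sym2.eq_iff] at hab
  rcases hab with (⟨rfl, rfl⟩ | ⟨rfl, rfl⟩) | (⟨rfl, rfl⟩ | ⟨rfl, rfl⟩) | (⟨rfl, rfl⟩ | ⟨rfl, rfl⟩) |
      (⟨rfl, rfl⟩ | ⟨rfl, rfl⟩)
  · obtain ⟨rfl, rfl⟩ := opp_eq hd h4 he
    exact Or.inl ⟨ha, hc⟩
  · rw [sq_ref] at he
    obtain ⟨rfl, rfl⟩ := opp_eq (d4ref hd) h4 he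
    exact Or.inr ⟨ha, hc⟩
  · rw [sq_rot] at he
    obtain ⟨rfl, rfl⟩ := opp_eq (d4rot hd) h4 he
    exact Or.inr ⟨ha, hc⟩
  · rw [sq_rot, sq_ref] at he
    obtain ⟨rfl, rfl⟩ := opp_eq (d4ref (d4rot hd)) h4 he
    exact Or.inl ⟨hc, ha⟩
  · rw [sq_rot, sq_rot] at he
    obtain ⟨rfl, rfl⟩ := opp_eq (d4rot (d4rot hd)) h4 he
    exact Or.inl ⟨hc, ha⟩
  · rw [sq_rot, sq_rot, sq_ref] at he
    obtain ⟨rfl, rfl⟩ := opp_eq (d4ref (d4rot (d4rot hd))) h4 he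
    exact Or.inr ⟨hc, ha⟩
  · rw [sq_rot, sq_rot, sq_rot] at he
    obtain ⟨rfl, rfl⟩ := opp_eq (d4rot (d4rot (d4rot hd))) h4 he
    exact Or.inr ⟨hc, ha⟩
  · rw [sq_rot, sq_rot, sq_rot, sq_ref] at he
    obtain ⟨rfl, rfl⟩ := opp_eq (d4ref (d4rot (d4rot (d4rot hd)))) h4 he
    exact Or.inl ⟨ha, hc⟩

theorem nodup6 {x y q p r s : ℕ} : [x, y, q, p, r, s].Nodup ↔ (x ≠ y ∧ x ≠ q ∧ x ≠ p ∧ x ≠ r ∧ x ≠ s) ∧
    (y ≠ q ∧ y ≠ p ∧ y ≠ r ∧ y ≠ s) ∧ (q ≠ p ∧ q ≠ r ∧ q ≠ s) ∧ (p ≠ r ∧ p ≠ s) ∧ r ≠ s := by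
  simp only [List.nodup_cons, List.mem_cons, List.not_mem_nil, or_false, not_or, List.nodup_nil, and_true,
    not_false_eq_true, ne_eq]

/-- exchange of the two sides -/
theorem nd_side {x y q p r s : ℕ} (h : [x, y, q, p, r, s].Nodup) : [y, x, p, q, s, r].Nodup := by
  rw [nodup6] at h ⊢
  obtain ⟨⟨a1, a2, a3, a4, a5⟩, ⟨b1, b2, b3, b4⟩, ⟨c1, c2, c3⟩, ⟨d1, d2⟩, e1⟩ := h
  exact ⟨⟨a1.symm, b2, b1, b4, b3⟩, ⟨a3, a2, a5, a4⟩, ⟨c1.symm, d2, d1⟩, ⟨c3, c2⟩, e1.symm⟩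

/-- exchange of the two worlds -/
theorem nd_world {x y q p r s : ℕ} (h : [x, y, q, p, r, s].Nodup) : [x, y, r, s, q, p].Nodup := by
  rw [nodup6] at h ⊢
  obtain ⟨⟨a1, a2, a3, a4, a5⟩, ⟨b1, b2, b3, b4⟩, ⟨c1, c2, c3⟩, ⟨d1, d2⟩, e1⟩ := h
  exact ⟨⟨a1, a4, a5, a2, a3⟩, ⟨b3, b4, b1, b2⟩, ⟨e1, c2.symm, d1.symm⟩, ⟨c3.symm, d2.symm⟩, c1⟩

end Pool.Agent.PF4.XF

end

section -- file P34/YB1

/-!
The constant-size part of the pool for `xf1` (short cycles): the set `cor3` of the vertices of the two short cycles and of up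
to eight further vertices, the edges `EL3` (the object, the near covers of these vertices, all edges of the graph between
them), the near edges `EnL3` (distance at most 4), the near vertices (distance at most 5), the edges `E2L3` at distance at most
6, the vertices `V2L3`.
-/

set_option autoImplicit false

namespace Pool.Agent.P34

open Finset Pool.Agent.TFC Pool.Agent.PF4 Pool.Agent.Lib.helper60
open Pool.Agent.PF4.XF (XD FitK Cv nub nub_nodup mem_nub nub_length pt_nub subl mem_subl subl_mem subl_full fs_subl asg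
  mem_asg asg_full lookW touch flat2 mem_touch touch_length degL_le_length degL_flatMap mg_nil lookW_mg mg_degL_le
  flat2_length mem_flat2 fe_mem_self pt_subl pt_asg pt_lookW pt_inc pt_touch pt_flat2 Rch)

/-- the vertices of the two short cycles and eight further vertices -/
def cor3 (Q R : Sq4) (B : Sq4 × Sq4) : List ℕ :=
  [Q.1, Q.2.1, Q.2.2.1, Q.2.2.2, R.1, R.2.1, R.2.2.1, R.2.2.2, B.1.1, B.1.2.1, B.1.2.2.1, B.1.2.2.2,
    B.2.1, B.2.2.1, B.2.2.2.1, B.2.2.2.2]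

/-- membership in a list of vertices -/
def memV (l : List ℕ) (v : ℕ) : Bool := l.any fun u => decide (u = v)

theorem memV_iff {l : List ℕ} {v : ℕ} : memV l v = true ↔ v ∈ l := by
  unfold memV
  rw [List.any_eq_true]
  constructor
  · rintro ⟨u, hu, h⟩
    rw [decide_eq_true_eq] at h
    rw [← h]; exact hu
  · intro h
    exact ⟨v, h, by simp⟩

/-- the edges of the graph between the vertices of a list -/
def btw (l : List Ed) (S : List ℕ) : List Ed := l.filter fun e => memV S e.1 && memV S e.2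

/-- the edges of the object, of the near covers, and the edges of the graph between the vertices `cor3` -/
def EL3 (x : Ins) (F : List Ed) (W : List (ℕ × List Ed)) (Q R : Sq4) (B : Sq4 × Sq4) : List Ed :=
  F ++ (((cor3 Q R B).flatMap fun w => lookW W w) ++ btw x.2 (cor3 Q R B))

/-- the vertices at distance at most `r` -/
def SL3 (x : Ins) (F : List Ed) (W : List (ℕ × List Ed)) (Q R : Sq4) (B : Sq4 × Sq4) : ℕ → List ℕ
  | 0 => cor3 Q R B
  | r + 1 => SL3 x F W Q R B r ++ flat2 (touch (EL3 x F W Q R B) (SL3 x F W Q R B r))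

/-- the near edges -/
def EnL3 (x : Ins) (F : List Ed) (W : List (ℕ × List Ed)) (Q R : Sq4) (B : Sq4 × Sq4) : List Ed :=
  touch (EL3 x F W Q R B) (SL3 x F W Q R B 4)

/-- the near vertices -/
def VNL3 (x : Ins) (F : List Ed) (W : List (ℕ × List Ed)) (Q R : Sq4) (B : Sq4 × Sq4) : List ℕ := SL3 x F W Q R B 5

/-- the edges which may be deleted and added -/
def E2L3 (x : Ins) (F : List Ed) (W : List (ℕ × List Ed)) (Q R : Sq4) (B : Sq4 × Sq4) : List Ed :=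
  touch (EL3 x F W Q R B) (SL3 x F W Q R B 6)

/-- their ends -/
def V2L3 (x : Ins) (F : List Ed) (W : List (ℕ × List Ed)) (Q R : Sq4) (B : Sq4 × Sq4) : List ℕ :=
  nub (cor3 Q R B ++ flat2 (E2L3 x F W Q R B))

/-- bounds for the lengths -/
def dS3 : ℕ → ℕ
  | 0 => 16
  | r + 1 => dS3 r + 2 * (50 * dS3 r)
def dE23 : ℕ := 50 * dS3 6
def dV23 : ℕ := 16 + 2 * dE23

/-- validity of the input lists -/
structure B13 (x : Ins) (F : List Ed) (W : List (ℕ × List Ed)) (Q R : Sq4) (B : Sq4 × Sq4) : Prop where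
  wf : InsWF x
  f : MG x F
  w : ∀ p ∈ W, MG x p.2
  q : CyOK Q ∧ cys Q ⊆ fs x.2
  r : CyOK R ∧ cys R ⊆ fs x.2
  b1 : B.1.1 < x.1 ∧ B.1.2.1 < x.1 ∧ B.1.2.2.1 < x.1 ∧ B.1.2.2.2 < x.1
  b2 : B.2.1 < x.1 ∧ B.2.2.1 < x.1 ∧ B.2.2.2.1 < x.1 ∧ B.2.2.2.2 < x.1

theorem mem_btw {l : List Ed} {S : List ℕ} {e : Sym2 ℕ} : e ∈ fs (btw l S) ↔ e ∈ fs l ∧ ∀ v ∈ e, v ∈ S := by
  rw [mem_fs, mem_fs]
  constructor
  · rintro ⟨f, hf, rfl⟩
    rw [btw, List.mem_filter, Bool.and_eq_true, memV_iff, memV_iff] at hf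
    refine ⟨⟨f, hf.1, rfl⟩, ?_⟩
    intro v hv
    rcases Sym2.mem_iff.1 hv with rfl | rfl
    · exact hf.2.1
    · exact hf.2.2
  · rintro ⟨⟨f, hf, rfl⟩, h⟩
    refine ⟨f, ?_, rfl⟩
    rw [btw, List.mem_filter, Bool.and_eq_true, memV_iff, memV_iff]
    exact ⟨hf, h _ (Sym2.mem_mk_left _ _), h _ (Sym2.mem_mk_right _ _)⟩

theorem WF_btw {l : List Ed} (h : WF l) (S : List ℕ) : WF (btw l S) := h.filter _

theorem degL_btw {l : List Ed} (h : WF l) (S : List ℕ) (v : ℕ) : degL (btw l S) v ≤ S.length := by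
  classical
  rw [degL_eq (WF_btw h S)]
  unfold dg
  have h1 : ((fs (btw l S)).filter fun e => v ∈ e) ⊆ S.toFinset.image fun u => s(v, u) := by
    intro e he
    obtain ⟨h2, h3⟩ := Finset.mem_filter.1 he
    obtain ⟨_, h4⟩ := mem_btw.1 h2
    obtain ⟨u, rfl⟩ := Sym2.mem_iff_exists.1 h3
    exact Finset.mem_image.2 ⟨u, List.mem_toFinset.2 (h4 u (Sym2.mem_mk_right _ _)), rfl⟩
  exact (Finset.card_le_card h1).trans (Finset.card_image_le.trans (List.toFinset_card_le _))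

variable {x : Ins} {F : List Ed} {W : List (ℕ × List Ed)} {Q R : Sq4} {B : Sq4 × Sq4}

theorem B13.deg (h : B13 x F W Q R B) (v : ℕ) : degL (EL3 x F W Q R B) v ≤ 50 := by
  unfold EL3
  rw [XF.degL_append, XF.degL_append]
  have h1 := mg_degL_le h.f v
  have h2 := degL_flatMap (cor3 Q R B) (fun w => lookW W w) (d := 2) v fun w _ =>
    mg_degL_le (lookW_mg h.w w) v
  have h3 := degL_btw h.wf.wf (cor3 Q R B) v
  have e1 : (cor3 Q R B).length = 16 := rfl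
  omega

theorem B13.lSL (h : B13 x F W Q R B) (r : ℕ) : (SL3 x F W Q R B r).length ≤ dS3 r := by
  induction r with
  | zero => exact le_refl 16
  | succ r ih =>
    have h1 := touch_length (EL3 x F W Q R B) (SL3 x F W Q R B r) h.deg
    have h2 : 50 * (SL3 x F W Q R B r).length ≤ 50 * dS3 r := Nat.mul_le_mul_left _ ih
    show (SL3 x F W Q R B r ++ flat2 (touch (EL3 x F W Q R B) (SL3 x F W Q R B r))).length ≤
      dS3 r + 2 * (50 * dS3 r)
    rw [List.length_append, flat2_length]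
    omega

theorem B13.lE2 (h : B13 x F W Q R B) : (E2L3 x F W Q R B).length ≤ dE23 :=
  (touch_length _ _ h.deg).trans (Nat.mul_le_mul_left _ (h.lSL 6))

theorem B13.lV2 (h : B13 x F W Q R B) : (V2L3 x F W Q R B).length ≤ dV23 := by
  unfold V2L3
  refine (nub_length _).trans ?_
  rw [List.length_append, flat2_length]
  exact Nat.add_le_add (le_refl 16) (Nat.mul_le_mul_left _ h.lE2)

/-- the data of one call -/
def xd3 (x : Ins) (g : List ℕ) (F : List Ed) (W : List (ℕ × List Ed)) (Q R : Sq4) (B : Sq4 × Sq4) : XD3 where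
  n := x.1
  E := fs (EL3 x F W Q R B)
  T := T3 x.1 g
  En := fs (EnL3 x F W Q R B)
  E2 := fs (E2L3 x F W Q R B)
  V2 := (V2L3 x F W Q R B).toFinset
  VN := (VNL3 x F W Q R B).toFinset

theorem mem_EL3 {e : Sym2 ℕ} : e ∈ fs (EL3 x F W Q R B) ↔
    e ∈ fs F ∨ (∃ w ∈ cor3 Q R B, e ∈ fs (lookW W w)) ∨ (e ∈ fs x.2 ∧ ∀ v ∈ e, v ∈ cor3 Q R B) := by
  unfold EL3
  rw [fs_append, fs_append, Finset.mem_union, Finset.mem_union, mem_btw]
  refine or_congr Iff.rfl (or_congr ?_ Iff.rfl)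
  simp only [mem_fs, List.mem_flatMap]
  constructor
  · rintro ⟨f, ⟨w, hw, hf⟩, rfl⟩
    exact ⟨w, hw, f, hf, rfl⟩
  · rintro ⟨w, hw, f, hf, rfl⟩
    exact ⟨f, ⟨w, hw, hf⟩, rfl⟩

theorem B13.sub (h : B13 x F W Q R B) : fs (EL3 x F W Q R B) ⊆ fs x.2 := by
  intro e he
  rcases mem_EL3.1 he with he | ⟨w, _, he⟩ | he
  · exact h.f.sub he
  · exact (lookW_mg h.w w).sub he
  · exact he.1

theorem mem_SL3_succ {v r : ℕ} : v ∈ SL3 x F W Q R B (r + 1) ↔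
    v ∈ SL3 x F W Q R B r ∨ ∃ e ∈ fs (touch (EL3 x F W Q R B) (SL3 x F W Q R B r)), v ∈ e := by
  show v ∈ SL3 x F W Q R B r ++ flat2 (touch (EL3 x F W Q R B) (SL3 x F W Q R B r)) ↔ _
  rw [List.mem_append, mem_flat2]

theorem SL3_mono {r s : ℕ} (h : r ≤ s) {v : ℕ} (hv : v ∈ SL3 x F W Q R B r) : v ∈ SL3 x F W Q R B s := by
  induction s, h using Nat.le_induction with
  | base => exact hv
  | succ s _ ih => exact mem_SL3_succ.2 (Or.inl ih)

theorem SL3_step {r : ℕ} {v w : ℕ} (hv : v ∈ SL3 x F W Q R B r) (he : s(v, w) ∈ fs (EL3 x F W Q R B)) :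
    w ∈ SL3 x F W Q R B (r + 1) :=
  mem_SL3_succ.2 (Or.inr ⟨s(v, w), mem_touch.2 ⟨he, v, hv, Sym2.mem_mk_left _ _⟩, Sym2.mem_mk_right _ _⟩)

theorem mem_En3 {e : Sym2 ℕ} : e ∈ fs (EnL3 x F W Q R B) ↔
    e ∈ fs (EL3 x F W Q R B) ∧ ∃ v ∈ SL3 x F W Q R B 4, v ∈ e := mem_touch

theorem mem_E23 {e : Sym2 ℕ} : e ∈ fs (E2L3 x F W Q R B) ↔
    e ∈ fs (EL3 x F W Q R B) ∧ ∃ v ∈ SL3 x F W Q R B 6, v ∈ e := mem_touch

theorem mem_V23 {v : ℕ} : v ∈ V2L3 x F W Q R B ↔ v ∈ cor3 Q R B ∨ ∃ e ∈ fs (E2L3 x F W Q R B), v ∈ e := by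
  unfold V2L3
  rw [mem_nub, List.mem_append, mem_flat2]

/-- the ends of the edges of a short cycle -/
theorem cy_ends {q : Sq4} (h : CyOK q) {e : Sym2 ℕ} (he : e ∈ cys q) {v : ℕ} (hv : v ∈ e) :
    v = q.1 ∨ v = q.2.1 ∨ v = q.2.2.1 ∨ v = q.2.2.2 := by
  obtain ⟨a, b, c, d⟩ := q
  rcases h with ⟨h0, _⟩ | h
  · have h0' : d = a := h0
    subst h0'
    rw [cys_tri] at he
    simp only [tri, Finset.mem_insert, Finset.mem_singleton] at he
    rcases he with rfl | rfl | rfl <;> rw [Sym2.mem_iff] at hv <;> rcases hv with rfl | rfl <;> simp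
  · rw [cys_sq h.2.2.1.symm] at he
    simp only [TFC.sq, Finset.mem_insert, Finset.mem_singleton] at he
    rcases he with rfl | rfl | rfl | rfl <;> rw [Sym2.mem_iff] at hv <;> rcases hv with rfl | rfl <;> simp

/-- the vertices of a short cycle of the graph are real -/
theorem cy_lt (hx : InsWF x) {q : Sq4} (h : CyOK q) (hs : cys q ⊆ fs x.2) :
    q.1 < x.1 ∧ q.2.1 < x.1 ∧ q.2.2.1 < x.1 ∧ q.2.2.2 < x.1 := by
  obtain ⟨a, b, c, d⟩ := q
  rcases h with ⟨h0, _⟩ | h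
  · have h0' : d = a := h0
    subst h0'
    rw [cys_tri, tri_sub] at hs
    exact ⟨hx.vlt hs.1 (Sym2.mem_mk_left _ _), hx.vlt hs.1 (Sym2.mem_mk_right _ _),
      hx.vlt hs.2.1 (Sym2.mem_mk_right _ _), hx.vlt hs.1 (Sym2.mem_mk_left _ _)⟩
  · rw [cys_sq h.2.2.1.symm, sq_sub] at hs
    exact ⟨hx.vlt hs.1 (Sym2.mem_mk_left _ _), hx.vlt hs.1 (Sym2.mem_mk_right _ _),
      hx.vlt hs.2.1 (Sym2.mem_mk_right _ _), hx.vlt hs.2.2.1 (Sym2.mem_mk_right _ _)⟩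

/-- the vertices `cor3` are real vertices -/
theorem B13.cor_lt (h : B13 x F W Q R B) : ∀ v ∈ cor3 Q R B, v < x.1 := by
  intro v hv
  obtain ⟨q1, q2, q3, q4⟩ := cy_lt h.wf h.q.1 h.q.2
  obtain ⟨r1, r2, r3, r4⟩ := cy_lt h.wf h.r.1 h.r.2
  obtain ⟨a1, a2, a3, a4⟩ := h.b1
  obtain ⟨b1, b2, b3, b4⟩ := h.b2
  simp only [cor3, List.mem_cons, List.not_mem_nil, or_false] at hv
  rcases hv with rfl | rfl | rfl | rfl | rfl | rfl | rfl | rfl | rfl | rfl | rfl | rfl | rfl | rfl | rfl | rfl <;>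
    assumption

/-- every edge of a short cycle has an end which is a given vertex of the cycle or adjacent to it in the cycle -/
theorem sh_near {Z : Finset (Sym2 ℕ)} (hZ : IsSh Z) {q : ℕ} (hq : Vx Z q) {f : Sym2 ℕ} (hf : f ∈ Z) :
    ∃ v ∈ f, v = q ∨ s(q, v) ∈ Z := by
  obtain ⟨e, he, hqe⟩ := hq
  obtain ⟨u, rfl⟩ := Sym2.mem_iff_exists.1 hqe
  rcases isSh_first hZ he with ⟨c, hc, rfl⟩ | ⟨c, d, hcd, rfl⟩
  · simp only [tri, Finset.mem_insert, Finset.mem_singleton] at hf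
    rcases hf with rfl | rfl | rfl
    · exact ⟨q, by simp, Or.inl rfl⟩
    · exact ⟨u, by simp, Or.inr he⟩
    · exact ⟨q, by simp, Or.inl rfl⟩
  · simp only [TFC.sq, Finset.mem_insert, Finset.mem_singleton] at hf
    rcases hf with rfl | rfl | rfl | rfl
    · exact ⟨q, by simp, Or.inl rfl⟩
    · exact ⟨u, by simp, Or.inr he⟩
    · refine ⟨d, by simp, Or.inr ?_⟩
      rw [Sym2.eq_swap]
      simp [TFC.sq]
    · exact ⟨q, by simp, Or.inl rfl⟩

/-- the data are well-formed -/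
theorem B13.ok (h : B13 x F W Q R B) (g : List ℕ) : (xd3 x g F W Q R B).OK where
  lt := fun e he v hv => h.wf.vlt (h.sub he) hv
  nl := h.wf.nl.mono h.sub
  e1 := by
    intro e he
    obtain ⟨h1, v, hv, h2⟩ := mem_En3.1 he
    exact mem_E23.2 ⟨h1, v, SL3_mono (by omega) hv, h2⟩
  e2 := by
    intro e he
    exact (mem_E23.1 he).1
  tn := by
    intro v hv
    exact (mem_T3.1 hv).1
  vn := by
    intro v hv
    have hv' : v ∈ (V2L3 x F W Q R B).toFinset := hv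
    rw [List.mem_toFinset, mem_V23] at hv'
    rcases hv' with hv' | ⟨e, he, hv⟩
    · exact h.cor_lt v hv'
    exact h.wf.vlt (h.sub (mem_E23.1 he).1) hv
  ev := by
    intro e he v hv
    show v ∈ (V2L3 x F W Q R B).toFinset
    rw [List.mem_toFinset, mem_V23]
    exact Or.inr ⟨e, he, hv⟩
  nv := by
    intro e he v hv
    show v ∈ (VNL3 x F W Q R B).toFinset
    rw [List.mem_toFinset]
    obtain ⟨h1, u, hu, h2⟩ := mem_En3.1 he
    exact mem_SL3_succ.2 (Or.inr ⟨e, mem_touch.2 ⟨h1, u, hu, h2⟩, hv⟩)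
  near := by
    rintro Z hZ hs ⟨q, hq, hqZ⟩ f hf
    have hq' : q ∈ SL3 x F W Q R B 5 := List.mem_toFinset.1 hq
    obtain ⟨v, hv, hvq⟩ := sh_near hZ.sh hqZ hf
    refine mem_E23.2 ⟨hs hf, v, ?_, hv⟩
    rcases hvq with rfl | hvq
    · exact SL3_mono (by omega) hq'
    · exact SL3_step hq' (hs hvq)

/-! ### polynomial time -/

section pt

variable {ι : Type} [DEnc ι]

theorem pt_cor3 {Q R : ι → Sq4} {B : ι → Sq4 × Sq4} (hQ : PT Q) (hR : PT R) (hB : PT B) :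
    PT (fun x => cor3 (Q x) (R x) (B x)) := by
  have h1 := hB.p1
  have h2 := hB.p2
  exact PT.cons hQ.p1 (PT.cons hQ.p2.p1 (PT.cons hQ.p2.p2.p1 (PT.cons hQ.p2.p2.p2 (PT.cons hR.p1
    (PT.cons hR.p2.p1 (PT.cons hR.p2.p2.p1 (PT.cons hR.p2.p2.p2 (PT.cons h1.p1
    (PT.cons h1.p2.p1 (PT.cons h1.p2.p2.p1 (PT.cons h1.p2.p2.p2 (PT.cons h2.p1
    (PT.cons h2.p2.p1 (PT.cons h2.p2.p2.p1 (PT.cons h2.p2.p2.p2 (PT.const []))))))))))))))))

theorem pt_memV {l : ι → List ℕ} {v : ι → ℕ} (hl : PT l) (hv : PT v) : PT (fun x => memV (l x) (v x)) :=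
  PT.any hl (p := fun z : ι × ℕ => decide (z.2 = v z.1)) (PT.neq PT.snd (hv.comp PT.fst))

theorem pt_btw {l : ι → List Ed} {S : ι → List ℕ} (hl : PT l) (hS : PT S) : PT (fun x => btw (l x) (S x)) :=
  PT.filter (p := fun z : ι × Ed => memV (S z.1) z.2.1 && memV (S z.1) z.2.2) hl
    (PT.band (pt_memV (hS.comp PT.fst) PT.snd.p1) (pt_memV (hS.comp PT.fst) PT.snd.p2))

variable {G : ι → Ins} {F : ι → List Ed} {W : ι → List (ℕ × List Ed)} {Q R : ι → Sq4} {B : ι → Sq4 × Sq4}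

theorem pt_EL3 (hG : PT G) (hF : PT F) (hW : PT W) (hQ : PT Q) (hR : PT R) (hB : PT B) :
    PT (fun x => EL3 (G x) (F x) (W x) (Q x) (R x) (B x)) :=
  PT.append hF (PT.append (PT.flatMap (pt_cor3 hQ hR hB) (g := fun y : ι × ℕ => lookW (W y.1) y.2)
    (pt_lookW (hW.comp PT.fst) PT.snd)) (pt_btw (PT.p2 hG) (pt_cor3 hQ hR hB)))

theorem pt_SL3 (hG : PT G) (hF : PT F) (hW : PT W) (hQ : PT Q) (hR : PT R) (hB : PT B) :
    ∀ r, PT (fun x => SL3 (G x) (F x) (W x) (Q x) (R x) (B x) r)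
  | 0 => pt_cor3 hQ hR hB
  | r + 1 => PT.append (pt_SL3 hG hF hW hQ hR hB r)
      (pt_flat2 (pt_touch (pt_EL3 hG hF hW hQ hR hB) (pt_SL3 hG hF hW hQ hR hB r)))

theorem pt_E2L3 (hG : PT G) (hF : PT F) (hW : PT W) (hQ : PT Q) (hR : PT R) (hB : PT B) :
    PT (fun x => E2L3 (G x) (F x) (W x) (Q x) (R x) (B x)) :=
  pt_touch (pt_EL3 hG hF hW hQ hR hB) (pt_SL3 hG hF hW hQ hR hB 6)

theorem pt_VNL3 (hG : PT G) (hF : PT F) (hW : PT W) (hQ : PT Q) (hR : PT R) (hB : PT B) :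
    PT (fun x => VNL3 (G x) (F x) (W x) (Q x) (R x) (B x)) := pt_SL3 hG hF hW hQ hR hB 5

theorem pt_V2L3 (hG : PT G) (hF : PT F) (hW : PT W) (hQ : PT Q) (hR : PT R) (hB : PT B) :
    PT (fun x => V2L3 (G x) (F x) (W x) (Q x) (R x) (B x)) :=
  pt_nub (PT.append (pt_cor3 hQ hR hB) (pt_flat2 (pt_E2L3 hG hF hW hQ hR hB)))

end pt

attribute [irreducible] dS3 dE23 dV23

end Pool.Agent.P34

end

section -- file P34/YB2

/-!
The pool for `xf1` (short cycles): one round, and the pool is a staged pool.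
-/

set_option autoImplicit false

namespace Pool.Agent.P34

open Finset Pool.Agent.TFC Pool.Agent.PF4 Pool.Agent.Lib.helper60
open Pool.Agent.PF4.XF (XD FitK Cv subl mem_subl subl_mem subl_full fs_subl asg mem_asg asg_full lookW lookW_mg exB fitB
  fitB_iff dirB dirB_iff kvL vlL vlL_lt dL mem_dL mem_cond fit_of_fitB exists_asg PM Ev2 Rch cr nub_nodup)

/-! ### one round -/

/-- all exchanges -/
def xL3 (x : Ins) (g : List ℕ) (I : List ℕ) (As : List (List ℕ)) (P : List (List Ed)) : List (List Ed) :=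
  P.flatMap fun L => P.flatMap fun L' => As.flatMap fun kk => As.flatMap fun kk' => I.flatMap fun i =>
    [true, false].flatMap fun up =>
      bif exB x.1 g L kk L' kk' i up then [exW3 x g L kk L' kk' i up] else []

/-- does the short cycle meet the list of vertices -/
def meetV (N : List ℕ) (q : Sq4) : Bool :=
  memV N q.1 || (memV N q.2.1 || (memV N q.2.2.1 || memV N q.2.2.2))

/-- the test for an addition -/
def aOK3 (x : Ins) (g : List ℕ) (N : List ℕ) (L M : List Ed) : Bool :=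
  ((List.range x.1).all fun v => decide (degL M v ≤ 2)) &&
    ((cyG x).all fun q => !(harm3 g q && cyIn M q) || (cyIn L q || meetV N q))

/-- all additions -/
def aL3 (x : Ins) (g : List ℕ) (N : List ℕ) (Sb P : List (List Ed)) : List (List Ed) :=
  P.flatMap fun L => Sb.flatMap fun K =>
    bif aOK3 x g N L (nrm x (L ++ K)) then [nrm x (L ++ K)] else []

/-- one round -/
def rX3 (x : Ins) (g : List ℕ) (N : List ℕ) (I : List ℕ) (As : List (List ℕ)) (Sb P : List (List Ed)) :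
    List (List Ed) := P ++ (dL Sb P ++ (aL3 x g N Sb P ++ xL3 x g I As P))

/-- the start -/
def stX3 (F : List Ed) (W : List (ℕ × List Ed)) (Q R : Sq4) (B : Sq4 × Sq4) : List (List Ed) :=
  F :: (cor3 Q R B).map fun w => lookW W w

/-- **the pool** -/
def poolX3 (x : Ins) (g : List ℕ) (F : List Ed) (W : List (ℕ × List Ed)) (Q R : Sq4) (B : Sq4 × Sq4) :
    ℕ → List (List Ed)
  | 0 => stX3 F W Q R B
  | t + 1 => rX3 x g (VNL3 x F W Q R B) (x.1 :: V2L3 x F W Q R B) (asg dV23 (V2L3 x F W Q R B))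
      (subl dE23 (E2L3 x F W Q R B)) (poolX3 x g F W Q R B t)

theorem mem_xL3 {x : Ins} {g I : List ℕ} {As : List (List ℕ)} {P : List (List Ed)} {z : List Ed} :
    z ∈ xL3 x g I As P ↔ ∃ L ∈ P, ∃ L' ∈ P, ∃ kk ∈ As, ∃ kk' ∈ As, ∃ i ∈ I, ∃ up : Bool,
      exB x.1 g L kk L' kk' i up = true ∧ z = exW3 x g L kk L' kk' i up := by
  unfold xL3
  constructor
  · intro h
    obtain ⟨L, hL, h⟩ := List.mem_flatMap.1 h
    obtain ⟨L', hL', h⟩ := List.mem_flatMap.1 h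
    obtain ⟨kk, hkk, h⟩ := List.mem_flatMap.1 h
    obtain ⟨kk', hkk', h⟩ := List.mem_flatMap.1 h
    obtain ⟨i, hi, h⟩ := List.mem_flatMap.1 h
    obtain ⟨up, hup, h⟩ := List.mem_flatMap.1 h
    exact ⟨L, hL, L', hL', kk, hkk, kk', hkk', i, hi, up, mem_cond.1 h⟩
  · rintro ⟨L, hL, L', hL', kk, hkk, kk', hkk', i, hi, up, h⟩
    refine List.mem_flatMap.2 ⟨L, hL, List.mem_flatMap.2 ⟨L', hL', List.mem_flatMap.2 ⟨kk, hkk,
      List.mem_flatMap.2 ⟨kk', hkk', List.mem_flatMap.2 ⟨i, hi, List.mem_flatMap.2 ⟨up, ?_,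
        mem_cond.2 h⟩⟩⟩⟩⟩⟩
    cases up <;> simp

theorem mem_aL3 {x : Ins} {g : List ℕ} {N : List ℕ} {Sb P : List (List Ed)} {z : List Ed} :
    z ∈ aL3 x g N Sb P ↔ ∃ L ∈ P, ∃ K ∈ Sb, aOK3 x g N L (nrm x (L ++ K)) = true ∧ z = nrm x (L ++ K) := by
  unfold aL3
  constructor
  · intro h
    obtain ⟨L, hL, h⟩ := List.mem_flatMap.1 h
    obtain ⟨K, hK, h⟩ := List.mem_flatMap.1 h
    exact ⟨L, hL, K, hK, mem_cond.1 h⟩
  · rintro ⟨L, hL, K, hK, h⟩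
    exact List.mem_flatMap.2 ⟨L, hL, List.mem_flatMap.2 ⟨K, hK, mem_cond.2 h⟩⟩

theorem mem_rX3 {x : Ins} {g : List ℕ} {N : List ℕ} {I : List ℕ} {As : List (List ℕ)}
    {Sb P : List (List Ed)} {z : List Ed} :
    z ∈ rX3 x g N I As Sb P ↔ z ∈ P ∨ z ∈ dL Sb P ∨ z ∈ aL3 x g N Sb P ∨ z ∈ xL3 x g I As P := by
  unfold rX3
  rw [List.mem_append, List.mem_append, List.mem_append]

theorem or4_iff {a b c d : Prop} : ((¬ a ∨ ¬ b) ∨ c ∨ d) ↔ (a → b → c ∨ d) := by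
  constructor
  · rintro ((h | h) | h) ha hb
    · exact absurd ha h
    · exact absurd hb h
    · exact h
  · intro h
    by_cases ha : a
    · by_cases hb : b
      · exact Or.inr (h ha hb)
      · exact Or.inl (Or.inr hb)
    · exact Or.inl (Or.inl ha)

/-- the vertices of a 4-tuple -/
theorem vx_cys {q : Sq4} (h : CyOK q) {v : ℕ} : Vx (cys q) v ↔ v = q.1 ∨ v = q.2.1 ∨ v = q.2.2.1 ∨ v = q.2.2.2 := by
  constructor
  · rintro ⟨e, he, hv⟩
    exact cy_ends h he hv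
  · obtain ⟨a, b, c, d⟩ := q
    rcases h with ⟨h0, h⟩ | h
    · have h0' : d = a := h0
      subst h0'
      rw [cys_tri]
      rintro (h1 | h1 | h1 | h1)
      · exact ⟨s(d, b), by simp [tri], by simp only at h1; rw [h1]; simp⟩
      · exact ⟨s(d, b), by simp [tri], by simp only at h1; rw [h1]; simp⟩
      · exact ⟨s(b, c), by simp [tri], by simp only at h1; rw [h1]; simp⟩
      · exact ⟨s(d, b), by simp [tri], by simp only at h1; rw [h1]; simp⟩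
    · rw [cys_sq h.2.2.1.symm]
      rintro (h1 | h1 | h1 | h1)
      · exact ⟨s(a, b), by simp [TFC.sq], by simp only at h1; rw [h1]; simp⟩
      · exact ⟨s(a, b), by simp [TFC.sq], by simp only at h1; rw [h1]; simp⟩
      · exact ⟨s(b, c), by simp [TFC.sq], by simp only at h1; rw [h1]; simp⟩
      · exact ⟨s(c, d), by simp [TFC.sq], by simp only at h1; rw [h1]; simp⟩

theorem meetV_iff {N : List ℕ} {q : Sq4} (h : CyOK q) : meetV N q = true ↔ ∃ v ∈ N, Vx (cys q) v := by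
  unfold meetV
  rw [Bool.or_eq_true, Bool.or_eq_true, Bool.or_eq_true, memV_iff, memV_iff, memV_iff, memV_iff]
  constructor
  · rintro (h1 | h1 | h1 | h1)
    · exact ⟨_, h1, (vx_cys h).2 (Or.inl rfl)⟩
    · exact ⟨_, h1, (vx_cys h).2 (Or.inr (Or.inl rfl))⟩
    · exact ⟨_, h1, (vx_cys h).2 (Or.inr (Or.inr (Or.inl rfl)))⟩
    · exact ⟨_, h1, (vx_cys h).2 (Or.inr (Or.inr (Or.inr rfl)))⟩
  · rintro ⟨v, hv, h1⟩
    rcases (vx_cys h).1 h1 with rfl | rfl | rfl | rfl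
    · exact Or.inl hv
    · exact Or.inr (Or.inl hv)
    · exact Or.inr (Or.inr (Or.inl hv))
    · exact Or.inr (Or.inr (Or.inr hv))

section
variable {x : Ins} {g : List ℕ} {F : List Ed} {W : List (ℕ × List Ed)} {Q R : Sq4} {B : Sq4 × Sq4}

theorem T3_fr {n v : ℕ} (hv : v < n) : v ∈ T3 n g ↔ frB g v = false := by
  rw [mem_T3]
  unfold frB
  rw [decide_eq_false_iff_not]
  constructor
  · rintro ⟨_, h⟩; omega
  · intro h; exact ⟨hv, by omega⟩

/-- harmful short cycles of the graph -/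
theorem harm3_G (hx : InsWF x) {q : Sq4} (hq : q ∈ cyG x) : harm3 g q = true ↔ Hs3 (T3 x.1 g) (cys q) := by
  refine harm3_iff (cyG_ok q hq) ?_
  rintro v ⟨e, he, hv⟩
  exact hx.vlt (cyG_sub hq he) hv

/-- a harmful short cycle of the graph has a canonical form -/
theorem Hs3_full (hx : InsWF x) {Z : Finset (Sym2 ℕ)} (h : Hs3 (T3 x.1 g) Z) (hZ : Z ⊆ fs x.2) :
    ∃ q ∈ cyG x, cys q = Z ∧ harm3 g q = true := by
  obtain ⟨q, hq, e⟩ := cyG_full hx h.sh hZ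
  refine ⟨q, hq, e, ?_⟩
  rw [harm3_G hx hq, e]
  exact h

theorem B13.rel (h : B13 x F W Q R B) (g : List ℕ) : XRel x g (xd3 x g F W Q R B).toXD where
  n := rfl
  e := h.sub
  t := fun _ hv => T3_fr hv
  tl := fun _ hv => (mem_T3.1 hv).1

theorem B13.v2 (_h : B13 x F W Q R B) : (V2L3 x F W Q R B).toFinset = (xd3 x g F W Q R B).V2 := rfl

theorem B13.v2n (_h : B13 x F W Q R B) : (V2L3 x F W Q R B).Nodup := nub_nodup _

theorem B13.m2_of (h : B13 x F W Q R B) {M : List Ed} (hM : fs M ⊆ fs x.2) (hw : WF M)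
    (hd : ∀ v < x.1, degL M v ≤ 2) : M2 (fs M) := by
  refine ⟨h.wf.nl.mono hM, ?_⟩
  intro v
  by_cases hv : v < x.1
  · rw [← degL_eq hw]; exact hd v hv
  · have : dg (fs M) v = 0 := by
      rw [dg, Finset.card_eq_zero, Finset.filter_eq_empty_iff]
      intro e he hve
      exact hv (h.wf.vlt (hM he) hve)
    omega

/-- what the test `aOK3` says -/
theorem aOK3_iff {L M : List Ed} : aOK3 x g (VNL3 x F W Q R B) L M = true ↔
    (∀ v < x.1, degL M v ≤ 2) ∧ ∀ q ∈ cyG x, harm3 g q = true → cys q ⊆ fs M →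
      cys q ⊆ fs L ∨ ∃ v ∈ (xd3 x g F W Q R B).VN, Vx (cys q) v := by
  unfold aOK3
  rw [Bool.and_eq_true, List.all_eq_true, List.all_eq_true]
  refine and_congr ?_ ?_
  · constructor
    · intro h1 v hv
      have := h1 v (List.mem_range.2 hv)
      rw [decide_eq_true_eq] at this
      exact this
    · intro h1 v hv
      rw [decide_eq_true_eq]
      exact h1 v (List.mem_range.1 hv)
  · refine forall₂_congr fun q hq => ?_
    rw [Bool.or_eq_true, Bool.or_eq_true, Bool.not_eq_true', Bool.and_eq_false_iff, meetV_iff (cyG_ok q hq),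
      ← Bool.not_eq_true, ← Bool.not_eq_true, cyIn_iff, cyIn_iff]
    have e1 : (∃ v ∈ VNL3 x F W Q R B, Vx (cys q) v) ↔ ∃ v ∈ (xd3 x g F W Q R B).VN, Vx (cys q) v := by
      constructor
      · rintro ⟨v, hv, h⟩
        exact ⟨v, List.mem_toFinset.2 hv, h⟩
      · rintro ⟨v, hv, h⟩
        exact ⟨v, List.mem_toFinset.1 hv, h⟩
    rw [e1]
    exact or4_iff

theorem B13.add_sub (h : B13 x F W Q R B) {L K : List Ed} (hL : PM (xd3 x g F W Q R B).toXD L)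
    (hK : fs K ⊆ (xd3 x g F W Q R B).E2) : fs (nrm x (L ++ K)) = fs L ∪ fs K ∧
      fs (nrm x (L ++ K)) ⊆ (xd3 x g F W Q R B).E ∧ WF (nrm x (L ++ K)) := by
  have h1 : fs (L ++ K) ⊆ (xd3 x g F W Q R B).E := by
    rw [fs_append]
    exact Finset.union_subset hL.sub (hK.trans (h.ok g).e2)
  have h2 : fs (nrm x (L ++ K)) = fs (L ++ K) := fs_nrm (h1.trans h.sub)
  refine ⟨by rw [h2, fs_append], by rw [h2]; exact h1, h.wf.wf.norm _⟩

theorem B13.pm_add (h : B13 x F W Q R B) {L K : List Ed} (hL : PM (xd3 x g F W Q R B).toXD L)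
    (hK : fs K ⊆ (xd3 x g F W Q R B).E2) (ha : aOK3 x g (VNL3 x F W Q R B) L (nrm x (L ++ K)) = true) :
    PM (xd3 x g F W Q R B).toXD (nrm x (L ++ K)) := by
  obtain ⟨h1, h2, h3⟩ := h.add_sub hL hK
  exact ⟨h3, h.m2_of (h2.trans h.sub) h3 (aOK3_iff.1 ha).1, h2⟩

/-- the arguments of an exchange -/
theorem B13.pa (h : B13 x F W Q R B) {L : List Ed} (hL : PM (xd3 x g F W Q R B).toXD L)
    {kk : List ℕ} (hk : kk ∈ asg dV23 (V2L3 x F W Q R B)) (hf : fitB x.1 g L kk = true) :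
    PA x g (xd3 x g F W Q R B).toXD L kk (kvL x.1 kk) where
  wf := hL.wf
  m2 := hL.m2
  sub := hL.sub
  fit := fit_of_fitB (X := (xd3 x g F W Q R B).toXD) rfl (fun v hv => T3_fr hv) (h.ok g).tn h.v2n h.v2
    (h.ok g).vn hL.wf hk hf
  kk := by
    intro v hv
    unfold kvL
    rw [vlL_lt hv]

theorem B13.i_le (h : B13 x F W Q R B) {i : ℕ} (hi : i ∈ x.1 :: V2L3 x F W Q R B) : i ≤ x.1 := by
  rcases List.mem_cons.1 hi with rfl | hi
  · exact le_rfl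
  · have : i ∈ (xd3 x [] F W Q R B).V2 := List.mem_toFinset.2 hi
    exact le_of_lt ((h.ok []).vn i this)

/-- the result of an exchange -/
theorem B13.ex_res (h : B13 x F W Q R B) {L L' : List Ed} (hL : PM (xd3 x g F W Q R B).toXD L)
    (hL' : PM (xd3 x g F W Q R B).toXD L') {kk kk' : List ℕ} (hk : kk ∈ asg dV23 (V2L3 x F W Q R B))
    (hk' : kk' ∈ asg dV23 (V2L3 x F W Q R B)) {i : ℕ} (hi : i ∈ x.1 :: V2L3 x F W Q R B) {up : Bool}
    (hb : exB x.1 g L kk L' kk' i up = true) :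
    PM (xd3 x g F W Q R B).toXD (exW3 x g L kk L' kk' i up) ∧ ∃ k'',
      FitK (xd3 x g F W Q R B).toXD (fs (exW3 x g L kk L' kk' i up)) k'' ∧
      fs (exW3 x g L kk L' kk' i up) ⊆ fs L ∪ fs L' ∧
      (∀ Z, IsSh Z → Z ⊆ fs (exW3 x g L kk L' kk' i up) → Z ⊆ fs L ∨ Z ⊆ fs L') ∧
      Two (kvL x.1 kk) (kvL x.1 kk') k'' i (- sgn up) := by
  unfold exB at hb
  rw [Bool.and_eq_true, Bool.and_eq_true] at hb
  obtain ⟨b1, b2, b3⟩ := hb
  obtain ⟨k'', h1, h2, h3, h4, h5⟩ := exW3_spec h.wf (h.rel g) (h.pa hL hk b1) (h.pa hL' hk' b2)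
    (h.i_le hi) (dirB_iff.1 b3)
  exact ⟨⟨h1.1, h1.2, h3.trans (Finset.union_subset hL.sub hL'.sub)⟩, k'', h2, h3, h4, h5⟩

theorem B13.pm_start (h : B13 x F W Q R B) : ∀ l ∈ stX3 F W Q R B, PM (xd3 x g F W Q R B).toXD l := by
  intro l hl
  rcases List.mem_cons.1 hl with rfl | hl
  · exact ⟨h.f.wf, h.f.m2, fun e he => mem_EL3.2 (Or.inl he)⟩
  · obtain ⟨w, hw, rfl⟩ := List.mem_map.1 hl
    have := lookW_mg h.w w
    exact ⟨this.wf, this.m2, fun e he => mem_EL3.2 (Or.inr (Or.inl ⟨w, hw, he⟩))⟩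

theorem B13.pm (h : B13 x F W Q R B) (g : List ℕ) (t : ℕ) :
    ∀ l ∈ poolX3 x g F W Q R B t, PM (xd3 x g F W Q R B).toXD l := by
  induction t with
  | zero => exact h.pm_start
  | succ t ih =>
    intro l hl
    rcases mem_rX3.1 hl with hl | hl | hl | hl
    · exact ih l hl
    · obtain ⟨L, hL, H, _, rfl⟩ := mem_dL.1 hl
      exact (ih L hL).rest H
    · obtain ⟨L, hL, K, hK, ha, rfl⟩ := mem_aL3.1 hl
      exact h.pm_add (ih L hL) (fs_subl hK) ha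
    · obtain ⟨L, hL, L', hL', kk, hkk, kk', hkk', i, hi, up, hb, rfl⟩ := mem_xL3.1 hl
      exact (h.ex_res (ih L hL) (ih L' hL') hkk hkk' hi hb).1

/-- the pool as a family of finite sets -/
def PX3 (x : Ins) (g : List ℕ) (F : List Ed) (W : List (ℕ × List Ed)) (Q R : Sq4) (B : Sq4 × Sq4) (t : ℕ)
    (L : Finset (Sym2 ℕ)) : Prop := ∃ l ∈ poolX3 x g F W Q R B t, fs l = L

/-- **the pool is a staged pool** -/
theorem B13.xp (h : B13 x F W Q R B) (g : List ℕ) : XP3 (xd3 x g F W Q R B) (PX3 x g F W Q R B) where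
  mono := by
    rintro t _ ⟨l, hl, rfl⟩
    exact ⟨l, mem_rX3.2 (Or.inl hl), rfl⟩
  m2 := by
    rintro t _ ⟨l, hl, rfl⟩
    exact ⟨(h.pm g t l hl).m2, (h.pm g t l hl).sub⟩
  del := by
    rintro t _ H ⟨l, hl, rfl⟩ hH
    obtain ⟨s, h1, _, h3⟩ := subl_full h.lE2 H hH
    exact ⟨rest l s, mem_rX3.2 (Or.inr (Or.inl (mem_dL.2 ⟨l, hl, s, h1, rfl⟩))), by rw [fs_rest, h3]⟩
  add := by
    rintro t _ K ⟨l, hl, rfl⟩ hK hm hq
    obtain ⟨s, h1, _, h3⟩ := subl_full h.lE2 K hK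
    have hpm := h.pm g t l hl
    obtain ⟨a1, a2, a3⟩ := h.add_sub hpm (K := s) (by rw [h3]; exact hK)
    rw [h3] at a1
    refine ⟨nrm x (l ++ s), mem_rX3.2 (Or.inr (Or.inr (Or.inl (mem_aL3.2 ⟨l, hl, s, h1, ?_, rfl⟩)))), a1⟩
    rw [aOK3_iff]
    constructor
    · intro v _
      rw [degL_eq a3, a1]
      exact hm.le v
    · intro q hqG hh hs
      rw [a1] at hs
      exact hq (cys q) ((harm3_G h.wf hqG).1 hh) hs
  ex := by
    rintro t _ _ k k' ⟨l, hl, rfl⟩ ⟨l', hl', rfl⟩ hk hk' i ε hi hε hd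
    have hpm := h.pm g t l hl
    have hpm' := h.pm g t l' hl'
    obtain ⟨kk, a1, a2, a3, _⟩ := exists_asg (X := (xd3 x g F W Q R B).toXD) (c := dV23) rfl
      (fun v hv => T3_fr hv) h.v2n h.lV2 h.v2 (h.ok g).vn hpm.wf hpm.m2 hk
    obtain ⟨kk', b1, b2, b3, _⟩ := exists_asg (X := (xd3 x g F W Q R B).toXD) (c := dV23) rfl
      (fun v hv => T3_fr hv) h.v2n h.lV2 h.v2 (h.ok g).vn hpm'.wf hpm'.m2 hk'
    have hi' : i ∈ x.1 :: V2L3 x F W Q R B := by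
      rcases hi with hi | hi
      · exact List.mem_cons_of_mem _ (List.mem_toFinset.1 hi)
      · rw [hi]; exact List.mem_cons_self
    have key : ∀ up : Bool, - sgn up = ε → ∃ L'' k'', PX3 x g F W Q R B (t + 1) L'' ∧
        FitK (xd3 x g F W Q R B).toXD L'' k'' ∧ L'' ⊆ fs l ∪ fs l' ∧
        (∀ Z, IsSh Z → Z ⊆ L'' → Z ⊆ fs l ∨ Z ⊆ fs l') ∧ Two k k' k'' i ε := by
      rintro up rfl
      have hb : exB x.1 g l kk l' kk' i up = true := by
        unfold exB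
        rw [Bool.and_eq_true, Bool.and_eq_true, dirB_iff, a2, b2]
        exact ⟨a3, b3, hd⟩
      obtain ⟨_, k'', c2, c3, c4, c5⟩ := h.ex_res hpm hpm' a1 b1 hi' hb
      rw [a2, b2] at c5
      exact ⟨_, k'', ⟨_, mem_rX3.2 (Or.inr (Or.inr (Or.inr (mem_xL3.2
        ⟨l, hl, l', hl', kk, a1, kk', b1, i, hi', up, hb, rfl⟩)))), rfl⟩, c2, c3, c4, c5⟩
    rcases hε with rfl | rfl
    · exact key false (by simp [sgn])
    · exact key true (by simp [sgn])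

/-- **the harmful short cycles of the members of the pool** -/
theorem B13.inv (h : B13 x F W Q R B) (g : List ℕ)
    (hw : ∀ w ∈ cor3 Q R B, ∀ q ∈ cyG x, cyIn (lookW W w) q = false) (t : ℕ) (L Z : Finset (Sym2 ℕ))
    (hL : PX3 x g F W Q R B t L) (hZ : Hs3 (xd3 x g F W Q R B).T Z) (hs : Z ⊆ L) :
    (Z ⊆ fs F ∧ Z ≠ cys Q) ∨ ∃ v ∈ (xd3 x g F W Q R B).VN, Vx Z v := by
  -- the corner `Q.1` is a near vertex
  have hQn : ∃ v ∈ (xd3 x g F W Q R B).VN, Vx (cys Q) v := by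
    refine ⟨Q.1, ?_, (vx_cys h.q.1).2 (Or.inl rfl)⟩
    show Q.1 ∈ (VNL3 x F W Q R B).toFinset
    rw [List.mem_toFinset]
    exact SL3_mono (Nat.zero_le 5) (by show Q.1 ∈ cor3 Q R B; simp [cor3])
  have full := fun {Z : Finset (Sym2 ℕ)} (h1 : Hs3 (xd3 x g F W Q R B).T Z) (h2 : Z ⊆ fs x.2) =>
    Hs3_full (g := g) h.wf h1 h2
  induction t generalizing L Z with
  | zero =>
    obtain ⟨l, hl, rfl⟩ := hL
    rcases List.mem_cons.1 hl with rfl | hl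
    · by_cases hZQ : Z = cys Q
      · right
        rw [hZQ]; exact hQn
      · exact Or.inl ⟨hs, hZQ⟩
    · obtain ⟨w, hw', rfl⟩ := List.mem_map.1 hl
      obtain ⟨q, hq, e, _⟩ := full hZ (hs.trans (lookW_mg h.w w).sub)
      have h1 := hw w hw' q hq
      rw [← Bool.not_eq_true, cyIn_iff, e] at h1
      exact absurd hs h1
  | succ t ih =>
    obtain ⟨l, hl, rfl⟩ := hL
    rcases mem_rX3.1 hl with hl | hl | hl | hl
    · exact ih _ Z ⟨l, hl, rfl⟩ hZ hs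
    · obtain ⟨L, hL, H, _, rfl⟩ := mem_dL.1 hl
      refine ih _ Z ⟨L, hL, rfl⟩ hZ (hs.trans ?_)
      rw [fs_rest]; exact Finset.sdiff_subset
    · obtain ⟨L, hL, K, hK, ha, rfl⟩ := mem_aL3.1 hl
      have hpm := h.pm g t L hL
      obtain ⟨a1, a2, _⟩ := h.add_sub hpm (K := K) (fs_subl hK)
      obtain ⟨q, hq, e, hh⟩ := full hZ (hs.trans (a2.trans h.sub))
      rcases (aOK3_iff.1 ha).2 q hq hh (by rw [e]; exact hs) with h1 | h1
      · rw [e] at h1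
        exact ih _ Z ⟨L, hL, rfl⟩ hZ h1
      · rw [e] at h1
        exact Or.inr h1
    · obtain ⟨L, hL, L', hL', kk, hkk, kk', hkk', i, hi, up, hb, rfl⟩ := mem_xL3.1 hl
      obtain ⟨_, k'', _, _, c4, _⟩ := h.ex_res (h.pm g t L hL) (h.pm g t L' hL') hkk hkk' hi hb
      rcases c4 Z hZ.sh hs with h1 | h1
      · exact ih _ Z ⟨L, hL, rfl⟩ hZ h1
      · exact ih _ Z ⟨L', hL', rfl⟩ hZ h1

/-- the set of the vertices of the two short cycles and of the further vertices -/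
def S3 (Q R : Sq4) (B : Sq4 × Sq4) : Finset ℕ := cr Q ∪ cr R ∪ (cr B.1 ∪ cr B.2)

theorem mem_S3 {Q R : Sq4} {B : Sq4 × Sq4} {v : ℕ} : v ∈ S3 Q R B ↔ v ∈ cor3 Q R B := by
  unfold S3
  rw [Finset.mem_union, Finset.mem_union, Finset.mem_union]
  simp only [cr, Finset.mem_insert, Finset.mem_singleton]
  simp only [cor3, List.mem_cons, List.not_mem_nil, or_false]
  tauto

/-- every edge with an end at distance at most 4 is a near edge -/
theorem B13.rch (_h : B13 x F W Q R B) (v : ℕ) (hv : Rch (xd3 x g F W Q R B).E (S3 Q R B) 4 v) :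
    ∀ e ∈ (xd3 x g F W Q R B).E, v ∈ e → e ∈ (xd3 x g F W Q R B).En := by
  have key : ∀ k v, Rch (xd3 x g F W Q R B).E (S3 Q R B) k v → v ∈ SL3 x F W Q R B k := by
    intro k
    induction k with
    | zero =>
      intro v hv
      have hv' : v ∈ S3 Q R B := hv
      exact mem_S3.1 hv'
    | succ k ih =>
      rintro v (hv | ⟨u, hu, he⟩)
      · exact SL3_mono (Nat.le_succ k) (ih v hv)
      · exact SL3_step (ih u hu) he
  intro e he hve
  exact mem_En3.2 ⟨he, v, key 4 v hv, hve⟩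

theorem B13.sv (_h : B13 x F W Q R B) : ∀ v ∈ S3 Q R B, v ∈ (xd3 x g F W Q R B).V2 := by
  intro v hv
  exact List.mem_toFinset.2 (mem_V23.2 (Or.inl (mem_S3.1 hv)))

/-- all edges of the graph between these vertices -/
theorem B13.btw (_h : B13 x F W Q R B) {e : Sym2 ℕ} (he : e ∈ fs x.2) (hv : ∀ v ∈ e, v ∈ S3 Q R B) :
    e ∈ (xd3 x g F W Q R B).E := mem_EL3.2 (Or.inr (Or.inr ⟨he, fun v h => mem_S3.1 (hv v h)⟩))

end

end Pool.Agent.P34

end

section -- file P34/YB4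

/-!
The pool for `xf1` (short cycles) is computed in polynomial time.
-/

set_option autoImplicit false

namespace Pool.Agent.P34

open Finset Pool.Agent.TFC Pool.Agent.PF4 Pool.Agent.Lib.helper60
open Pool.Agent.PF4.XF (fitB dirB exB pt_fitB pt_dirB XArg lookW pt_lookW pt_dL pt_subl pt_asg)

/-- one exchange -/
def x13 (a : XArg) : List (List Ed) :=
  bif exB a.1.1.1 a.1.2 a.2.1.1 a.2.2.1.1 a.2.1.2 a.2.2.1.2 a.2.2.2.1 a.2.2.2.2 then
    [exW3 a.1.1 a.1.2 a.2.1.1 a.2.2.1.1 a.2.1.2 a.2.2.1.2 a.2.2.2.1 a.2.2.2.2] else []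

theorem pt_x13 : PT x13 := by
  have hx : PT (fun a : XArg => a.1.1) := PT.p1 PT.fst
  have hg : PT (fun a : XArg => a.1.2) := PT.p2 PT.fst
  have hL : PT (fun a : XArg => a.2.1.1) := PT.p1 (PT.p1 PT.snd)
  have hL' : PT (fun a : XArg => a.2.1.2) := PT.p2 (PT.p1 PT.snd)
  have hk : PT (fun a : XArg => a.2.2.1.1) := PT.p1 (PT.p1 (PT.p2 PT.snd))
  have hk' : PT (fun a : XArg => a.2.2.1.2) := PT.p2 (PT.p1 (PT.p2 PT.snd))
  have hi : PT (fun a : XArg => a.2.2.2.1) := PT.p1 (PT.p2 (PT.p2 PT.snd))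
  have hu : PT (fun a : XArg => a.2.2.2.2) := PT.p2 (PT.p2 (PT.p2 PT.snd))
  exact PT.cond (PT.band (pt_fitB (PT.p1 hx) hg hL hk) (PT.band (pt_fitB (PT.p1 hx) hg hL' hk')
      (pt_dirB (PT.p1 hx) hk hk' hi hu)))
    (PT.cons (pt_exW3 hx hg hL hk hL' hk' hi hu) (PT.const [])) (PT.const [])

section
variable {ι : Type} [DEnc ι]

theorem pt_xL3 {x : ι → Ins} {g I : ι → List ℕ} {As : ι → List (List ℕ)} {P : ι → List (List Ed)}
    (hx : PT x) (hg : PT g) (hI : PT I) (hA : PT As) (hP : PT P) :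
    PT (fun y => xL3 (x y) (g y) (I y) (As y) (P y)) := by
  -- the contexts
  have c6 : PT (fun z : (((((ι × List Ed) × List Ed) × List ℕ) × List ℕ) × ℕ) × Bool =>
      x13 ((x z.1.1.1.1.1.1, g z.1.1.1.1.1.1), (z.1.1.1.1.1.2, z.1.1.1.1.2), (z.1.1.1.2, z.1.1.2), z.1.2, z.2)) := by
    have p1 : PT (fun z : (((((ι × List Ed) × List Ed) × List ℕ) × List ℕ) × ℕ) × Bool => z.1) := PT.fst
    have p2 : PT (fun z : (((((ι × List Ed) × List Ed) × List ℕ) × List ℕ) × ℕ) × Bool => z.1.1) := PT.p1 p1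
    have p3 : PT (fun z : (((((ι × List Ed) × List Ed) × List ℕ) × List ℕ) × ℕ) × Bool => z.1.1.1) := PT.p1 p2
    have p4 : PT (fun z : (((((ι × List Ed) × List Ed) × List ℕ) × List ℕ) × ℕ) × Bool => z.1.1.1.1) := PT.p1 p3
    have p5 : PT (fun z : (((((ι × List Ed) × List Ed) × List ℕ) × List ℕ) × ℕ) × Bool => z.1.1.1.1.1) :=
      PT.p1 p4
    have p6 : PT (fun z : (((((ι × List Ed) × List Ed) × List ℕ) × List ℕ) × ℕ) × Bool => z.1.1.1.1.1.1) :=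
      PT.p1 p5
    exact pt_x13.comp (PT.pair (PT.pair (hx.comp p6) (hg.comp p6)) (PT.pair (PT.pair (PT.p2 p5) (PT.p2 p4))
      (PT.pair (PT.pair (PT.p2 p3) (PT.p2 p2)) (PT.pair (PT.p2 p1) PT.snd))))
  have c5 : PT (fun z : ((((ι × List Ed) × List Ed) × List ℕ) × List ℕ) × ℕ =>
      [true, false].flatMap fun up => x13 ((x z.1.1.1.1.1, g z.1.1.1.1.1),
        (z.1.1.1.1.2, z.1.1.1.2), (z.1.1.2, z.1.2), z.2, up)) :=
    PT.flatMap (PT.const [true, false]) c6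
  have c4 : PT (fun z : (((ι × List Ed) × List Ed) × List ℕ) × List ℕ =>
      (I z.1.1.1.1).flatMap fun i => [true, false].flatMap fun up => x13 ((x z.1.1.1.1, g z.1.1.1.1),
        (z.1.1.1.2, z.1.1.2), (z.1.2, z.2), i, up)) :=
    PT.flatMap (hI.comp (PT.p1 (PT.p1 (PT.p1 PT.fst)))) c5
  have c3 : PT (fun z : ((ι × List Ed) × List Ed) × List ℕ =>
      (As z.1.1.1).flatMap fun kk' => (I z.1.1.1).flatMap fun i => [true, false].flatMap fun up =>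
        x13 ((x z.1.1.1, g z.1.1.1), (z.1.1.2, z.1.2), (z.2, kk'), i, up)) :=
    PT.flatMap (hA.comp (PT.p1 (PT.p1 PT.fst))) c4
  have c2 : PT (fun z : (ι × List Ed) × List Ed =>
      (As z.1.1).flatMap fun kk => (As z.1.1).flatMap fun kk' => (I z.1.1).flatMap fun i =>
        [true, false].flatMap fun up =>
          x13 ((x z.1.1, g z.1.1), (z.1.2, z.2), (kk, kk'), i, up)) :=
    PT.flatMap (hA.comp (PT.p1 PT.fst)) c3
  have c1 : PT (fun z : ι × List Ed =>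
      (P z.1).flatMap fun L' => (As z.1).flatMap fun kk => (As z.1).flatMap fun kk' =>
        (I z.1).flatMap fun i => [true, false].flatMap fun up =>
          x13 ((x z.1, g z.1), (z.2, L'), (kk, kk'), i, up)) :=
    PT.flatMap (hP.comp PT.fst) c2
  exact PT.flatMap hP c1

theorem pt_meetV {N : ι → List ℕ} {q : ι → Sq4} (hN : PT N) (hq : PT q) :
    PT (fun y => meetV (N y) (q y)) :=
  PT.bor (pt_memV hN hq.p1) (PT.bor (pt_memV hN hq.p2.p1) (PT.bor (pt_memV hN hq.p2.p2.p1)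
    (pt_memV hN hq.p2.p2.p2)))

theorem pt_aOK3 {x : ι → Ins} {g : ι → List ℕ} {N : ι → List ℕ} {L M : ι → List Ed} (hx : PT x) (hg : PT g)
    (hN : PT N) (hL : PT L) (hM : PT M) : PT (fun y => aOK3 (x y) (g y) (N y) (L y) (M y)) := by
  have h1 : PT (fun y => (List.range (x y).1).all fun v => decide (degL (M y) v ≤ 2)) :=
    PT.all (PT.range (PT.p1 hx)) (p := fun z : ι × ℕ => decide (degL (M z.1) z.2 ≤ 2))
      (PT.nle (pt_degL (hM.comp PT.fst) PT.snd) (PT.const 2))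
  have h2 : PT (fun y => (cyG (x y)).all fun q => !(harm3 (g y) q && cyIn (M y) q) ||
      (cyIn (L y) q || meetV (N y) q)) :=
    PT.all (pt_cyG hx) (p := fun z : ι × Sq4 => !(harm3 (g z.1) z.2 && cyIn (M z.1) z.2) ||
      (cyIn (L z.1) z.2 || meetV (N z.1) z.2))
      (PT.bor (PT.bnot (PT.band (pt_harm3 (hg.comp PT.fst) PT.snd) (pt_cyIn (hM.comp PT.fst) PT.snd)))
        (PT.bor (pt_cyIn (hL.comp PT.fst) PT.snd) (pt_meetV (hN.comp PT.fst) PT.snd)))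
  exact PT.band h1 h2

theorem pt_aL3 {x : ι → Ins} {g : ι → List ℕ} {N : ι → List ℕ} {Sb P : ι → List (List Ed)} (hx : PT x)
    (hg : PT g) (hN : PT N) (hS : PT Sb) (hP : PT P) :
    PT (fun y => aL3 (x y) (g y) (N y) (Sb y) (P y)) := by
  have a0 : PT (fun z : (ι × List Ed) × List Ed => z.1.1) := PT.p1 PT.fst
  have a1 : PT (fun z : (ι × List Ed) × List Ed => z.1.2) := PT.p2 PT.fst
  have hM : PT (fun z : (ι × List Ed) × List Ed => nrm (x z.1.1) (z.1.2 ++ z.2)) :=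
    pt_nrm (hx.comp a0) (PT.append a1 PT.snd)
  have h2 : PT (fun z : (ι × List Ed) × List Ed =>
      bif aOK3 (x z.1.1) (g z.1.1) (N z.1.1) z.1.2 (nrm (x z.1.1) (z.1.2 ++ z.2)) then
        [nrm (x z.1.1) (z.1.2 ++ z.2)] else []) :=
    PT.cond (pt_aOK3 (hx.comp a0) (hg.comp a0) (hN.comp a0) a1 hM) (PT.cons hM (PT.const [])) (PT.const [])
  have h1 : PT (fun z : ι × List Ed => (Sb z.1).flatMap fun K =>
      bif aOK3 (x z.1) (g z.1) (N z.1) z.2 (nrm (x z.1) (z.2 ++ K)) then [nrm (x z.1) (z.2 ++ K)] else []) :=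
    PT.flatMap (hS.comp PT.fst) h2
  exact PT.flatMap hP h1

theorem pt_rX3 {x : ι → Ins} {g : ι → List ℕ} {N : ι → List ℕ} {I : ι → List ℕ} {As : ι → List (List ℕ)}
    {Sb P : ι → List (List Ed)} (hx : PT x) (hg : PT g) (hN : PT N) (hI : PT I) (hA : PT As) (hS : PT Sb)
    (hP : PT P) : PT (fun y => rX3 (x y) (g y) (N y) (I y) (As y) (Sb y) (P y)) :=
  PT.append hP (PT.append (pt_dL hS hP) (PT.append (pt_aL3 hx hg hN hS hP) (pt_xL3 hx hg hI hA hP)))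

theorem pt_stX3 {F : ι → List Ed} {W : ι → List (ℕ × List Ed)} {Q R : ι → Sq4} {B : ι → Sq4 × Sq4} (hF : PT F)
    (hW : PT W) (hQ : PT Q) (hR : PT R) (hB : PT B) : PT (fun y => stX3 (F y) (W y) (Q y) (R y) (B y)) :=
  PT.cons hF (PT.map (pt_cor3 hQ hR hB) (g := fun z : ι × ℕ => lookW (W z.1) z.2)
    (pt_lookW (hW.comp PT.fst) PT.snd))

/-- **the pool is computed in polynomial time** -/
theorem pt_poolX3 {x : ι → Ins} {g : ι → List ℕ} {F : ι → List Ed} {W : ι → List (ℕ × List Ed)}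
    {Q R : ι → Sq4} {B : ι → Sq4 × Sq4} (hx : PT x) (hg : PT g) (hF : PT F) (hW : PT W) (hQ : PT Q) (hR : PT R)
    (hB : PT B) (t : ℕ) : PT (fun y => poolX3 (x y) (g y) (F y) (W y) (Q y) (R y) (B y) t) := by
  induction t with
  | zero => exact pt_stX3 hF hW hQ hR hB
  | succ t ih =>
    exact pt_rX3 hx hg (pt_VNL3 hx hF hW hQ hR hB) (PT.cons (PT.p1 hx) (pt_V2L3 hx hF hW hQ hR hB))
      (pt_asg dV23 (pt_V2L3 hx hF hW hQ hR hB)) (pt_subl dE23 (pt_E2L3 hx hF hW hQ hR hB)) ih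

end

end Pool.Agent.P34

end

section -- file P34/YH

/-!
`xf1` for short cycles, from the theorem on two conflicting short cycles (`XfStatement3`).
-/

set_option autoImplicit false

namespace Pool.Agent.P34

open Finset Pool.Agent.TFC Pool.Agent.PF4 Pool.Agent.Lib.helper60
open Pool.Agent.PF4.XF (XD FitK Cv NC cr lookW lookW_mg lookW_mem lookW_or eqS eqS_iff XIn all4 mem_all4 pt_eqS)

/-- the union square of two triangles with a common edge: the edges which are in exactly one of the two short cycles -/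
def uS (Q R : Sq4) : Finset (Sym2 ℕ) := (cys Q \ cys R) ∪ (cys R \ cys Q)

/-- is `q` the union square -/
def usB (Q R q : Sq4) : Bool :=
  ((cyE q).all fun e => (hasE (cyE Q) e && !hasE (cyE R) e) || (hasE (cyE R) e && !hasE (cyE Q) e)) &&
    (((cyE Q).all fun e => hasE (cyE R) e || hasE (cyE q) e) &&
      ((cyE R).all fun e => hasE (cyE Q) e || hasE (cyE q) e))

theorem all_cyE {q : Sq4} {p : Sym2 ℕ → Prop} : (∀ e ∈ cyE q, p (fe e)) ↔ ∀ e ∈ cys q, p e := by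
  constructor
  · intro h e he
    rw [← fs_cyE] at he
    obtain ⟨f, hf, rfl⟩ := mem_fs.1 he
    exact h f hf
  · intro h e he
    apply h
    rw [← fs_cyE]
    exact fe_mem_fs he

theorem usB_iff {Q R q : Sq4} : usB Q R q = true ↔ cys q = uS Q R := by
  have hh : ∀ (p : Sq4) (e : Ed), hasE (cyE p) e = true ↔ fe e ∈ cys p := by
    intro p e
    rw [hasE_iff, fs_cyE]
  unfold usB
  rw [Bool.and_eq_true, Bool.and_eq_true, List.all_eq_true, List.all_eq_true, List.all_eq_true]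
  have h1 : (∀ e ∈ cyE q, ((hasE (cyE Q) e && !hasE (cyE R) e) || (hasE (cyE R) e && !hasE (cyE Q) e)) = true) ↔
      ∀ e ∈ cys q, (e ∈ cys Q ∧ e ∉ cys R) ∨ (e ∈ cys R ∧ e ∉ cys Q) := by
    rw [← all_cyE (p := fun e => (e ∈ cys Q ∧ e ∉ cys R) ∨ (e ∈ cys R ∧ e ∉ cys Q))]
    refine forall₂_congr fun e _ => ?_
    rw [Bool.or_eq_true, Bool.and_eq_true, Bool.and_eq_true, Bool.not_eq_true', Bool.not_eq_true',
      ← Bool.not_eq_true, ← Bool.not_eq_true, hh, hh]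
  have h2 : (∀ e ∈ cyE Q, (hasE (cyE R) e || hasE (cyE q) e) = true) ↔ ∀ e ∈ cys Q, e ∈ cys R ∨ e ∈ cys q := by
    rw [← all_cyE (p := fun e => e ∈ cys R ∨ e ∈ cys q)]
    refine forall₂_congr fun e _ => ?_
    rw [Bool.or_eq_true, hh, hh]
  have h3 : (∀ e ∈ cyE R, (hasE (cyE Q) e || hasE (cyE q) e) = true) ↔ ∀ e ∈ cys R, e ∈ cys Q ∨ e ∈ cys q := by
    rw [← all_cyE (p := fun e => e ∈ cys Q ∨ e ∈ cys q)]
    refine forall₂_congr fun e _ => ?_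
    rw [Bool.or_eq_true, hh, hh]
  rw [h1, h2, h3]
  constructor
  · rintro ⟨k1, k2, k3⟩
    ext e
    unfold uS
    rw [Finset.mem_union, Finset.mem_sdiff, Finset.mem_sdiff]
    constructor
    · intro he; exact k1 e he
    · rintro (⟨h4, h5⟩ | ⟨h4, h5⟩)
      · exact (k2 e h4).resolve_left h5
      · exact (k3 e h4).resolve_left h5
  · intro h
    rw [h]
    unfold uS
    refine ⟨?_, ?_, ?_⟩
    · intro e he
      rw [Finset.mem_union, Finset.mem_sdiff, Finset.mem_sdiff] at he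
      exact he
    · intro e he
      rw [Finset.mem_union, Finset.mem_sdiff, Finset.mem_sdiff]
      by_cases hc : e ∈ cys R
      · exact Or.inl hc
      · exact Or.inr (Or.inl ⟨he, hc⟩)
    · intro e he
      rw [Finset.mem_union, Finset.mem_sdiff, Finset.mem_sdiff]
      by_cases hc : e ∈ cys Q
      · exact Or.inl hc
      · exact Or.inr (Or.inr ⟨he, hc⟩)

theorem uS_comm (Q R : Sq4) : uS Q R = uS R Q := by
  unfold uS
  rw [Finset.union_comm]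

/-- the short cycles which the result may contain: those of `F` other than `Q`, and the union square of `Q` and `R` if both
are triangles -/
def Alw (F : List Ed) (Q R : Sq4) (Z : Finset (Sym2 ℕ)) : Prop :=
  (Z ⊆ fs F ∧ Z ≠ cys Q) ∨ (isT Q = true ∧ isT R = true ∧ Z = uS Q R)

/-- the test -/
def okX3 (x : Ins) (g : List ℕ) (F : List Ed) (Q R : Sq4) (l : List Ed) : Bool :=
  ((List.range x.1).all fun v => decide (g.getD v 0 ≤ degL l v)) &&
    ((cyG x).all fun q => !(harm3 g q && cyIn l q) || ((cyIn F q && !eqS q Q) || (isT Q && (isT R && usB Q R q))))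

theorem okX3_iff {x : Ins} {g : List ℕ} {F : List Ed} {Q R : Sq4} {l : List Ed} (hQ : Q ∈ cyG x) :
    okX3 x g F Q R l = true ↔
      Cov x.1 g (degL l) ∧ ∀ q ∈ cyG x, harm3 g q = true → cyIn l q = true → Alw F Q R (cys q) := by
  unfold okX3 Cov
  rw [Bool.and_eq_true, List.all_eq_true, List.all_eq_true]
  refine and_congr ?_ ?_
  · constructor
    · intro h v hv
      have := h v (List.mem_range.2 hv)
      rw [decide_eq_true_eq] at this
      exact this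
    · intro h v hv
      rw [decide_eq_true_eq]
      exact h v (List.mem_range.1 hv)
  · refine forall₂_congr fun q hq => ?_
    have e1 : ((cyIn F q && !eqS q Q) || (isT Q && (isT R && usB Q R q))) = true ↔ Alw F Q R (cys q) := by
      unfold Alw
      rw [Bool.or_eq_true, Bool.and_eq_true, Bool.and_eq_true, Bool.and_eq_true, usB_iff, cyIn_iff,
        Bool.not_eq_true', ← Bool.not_eq_true, eqS_iff]
      refine or_congr (and_congr Iff.rfl ?_) Iff.rfl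
      refine not_congr ⟨fun h => by rw [h], fun h => cyG_inj hq hQ h⟩
    rw [← e1]
    cases harm3 g q <;> cases cyIn l q <;>
      cases ((cyIn F q && !eqS q Q) || (isT Q && (isT R && usB Q R q))) <;> simp

/-- the members of the pool which pass the test -/
def xfP3 (K : ℕ) (y : XIn × (Sq4 × Sq4)) : List (List Ed) :=
  (poolX3 y.1.1 y.1.2.1 y.1.2.2.2.1 y.1.2.2.1 y.1.2.2.2.2.1 y.1.2.2.2.2.2 y.2 K).filter
    fun l => okX3 y.1.1 y.1.2.1 y.1.2.2.2.1 y.1.2.2.2.2.1 y.1.2.2.2.2.2 l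

/-- the members of all pools which pass the test -/
def xfA3 (K : ℕ) (y : XIn) : List (List Ed) := (prodL (all4 y.1.1) (all4 y.1.1)).flatMap fun B => xfP3 K (y, B)

/-- **the function**: `K` = number of rounds -/
def xfK3 (K : ℕ) (y : XIn) : Bool × List Ed := (!decide ((xfA3 K y).length = 0), (xfA3 K y).headD [])

section
variable {ι : Type} [DEnc ι]

theorem pt_usB {Q R q : ι → Sq4} (hQ : PT Q) (hR : PT R) (hq : PT q) : PT (fun y => usB (Q y) (R y) (q y)) := by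
  have k : ∀ {p : ι → Sq4}, PT p → PT (fun z : ι × Ed => hasE (cyE (p z.1)) z.2) := fun hp =>
    pt_hasE (pt_cyE (hp.comp PT.fst)) PT.snd
  exact PT.band
    (PT.all (pt_cyE hq) (p := fun z : ι × Ed => (hasE (cyE (Q z.1)) z.2 && !hasE (cyE (R z.1)) z.2) ||
        (hasE (cyE (R z.1)) z.2 && !hasE (cyE (Q z.1)) z.2))
      (PT.bor (PT.band (k hQ) (PT.bnot (k hR))) (PT.band (k hR) (PT.bnot (k hQ)))))
    (PT.band
      (PT.all (pt_cyE hQ) (p := fun z : ι × Ed => hasE (cyE (R z.1)) z.2 || hasE (cyE (q z.1)) z.2)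
        (PT.bor (k hR) (k hq)))
      (PT.all (pt_cyE hR) (p := fun z : ι × Ed => hasE (cyE (Q z.1)) z.2 || hasE (cyE (q z.1)) z.2)
        (PT.bor (k hQ) (k hq))))

theorem pt_okX3 {x : ι → Ins} {g : ι → List ℕ} {F : ι → List Ed} {Q R : ι → Sq4}
    {l : ι → List Ed} (hx : PT x) (hg : PT g) (hF : PT F) (hQ : PT Q) (hR : PT R) (hl : PT l) :
    PT (fun y => okX3 (x y) (g y) (F y) (Q y) (R y) (l y)) := by
  have h1 : PT (fun y => (List.range (x y).1).all fun v => decide ((g y).getD v 0 ≤ degL (l y) v)) :=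
    PT.all (PT.range (PT.p1 hx)) (p := fun z : ι × ℕ => decide ((g z.1).getD z.2 0 ≤ degL (l z.1) z.2))
      (PT.nle (PT.getD (hg.comp PT.fst) PT.snd (PT.const 0)) (pt_degL (hl.comp PT.fst) PT.snd))
  have h2 : PT (fun y => (cyG (x y)).all fun q => !(harm3 (g y) q && cyIn (l y) q) ||
      ((cyIn (F y) q && !eqS q (Q y)) || (isT (Q y) && (isT (R y) && usB (Q y) (R y) q)))) :=
    PT.all (pt_cyG hx) (p := fun z : ι × Sq4 => !(harm3 (g z.1) z.2 && cyIn (l z.1) z.2) ||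
      ((cyIn (F z.1) z.2 && !eqS z.2 (Q z.1)) || (isT (Q z.1) && (isT (R z.1) && usB (Q z.1) (R z.1) z.2))))
      (PT.bor (PT.bnot (PT.band (pt_harm3 (hg.comp PT.fst) PT.snd) (pt_cyIn (hl.comp PT.fst) PT.snd)))
        (PT.bor (PT.band (pt_cyIn (hF.comp PT.fst) PT.snd) (PT.bnot (pt_eqS PT.snd (hQ.comp PT.fst))))
          (PT.band (pt_isT (hQ.comp PT.fst)) (PT.band (pt_isT (hR.comp PT.fst))
            (pt_usB (hQ.comp PT.fst) (hR.comp PT.fst) PT.snd)))))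
  exact PT.band h1 h2

end

theorem pt_xfK3 (K : ℕ) : PT (xfK3 K) := by
  have hx : PT (fun y : XIn × (Sq4 × Sq4) => y.1.1) := PT.p1 PT.fst
  have hg : PT (fun y : XIn × (Sq4 × Sq4) => y.1.2.1) := PT.p1 (PT.p2 PT.fst)
  have hW : PT (fun y : XIn × (Sq4 × Sq4) => y.1.2.2.1) := PT.p1 (PT.p2 (PT.p2 PT.fst))
  have hF : PT (fun y : XIn × (Sq4 × Sq4) => y.1.2.2.2.1) := PT.p1 (PT.p2 (PT.p2 (PT.p2 PT.fst)))
  have hQ : PT (fun y : XIn × (Sq4 × Sq4) => y.1.2.2.2.2.1) := PT.p1 (PT.p2 (PT.p2 (PT.p2 (PT.p2 PT.fst))))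
  have hR : PT (fun y : XIn × (Sq4 × Sq4) => y.1.2.2.2.2.2) := PT.p2 (PT.p2 (PT.p2 (PT.p2 (PT.p2 PT.fst))))
  have hP : PT (xfP3 K) :=
    PT.filter (pt_poolX3 hx hg hF hW hQ hR PT.snd K)
      (p := fun z : (XIn × (Sq4 × Sq4)) × List Ed =>
        okX3 z.1.1.1 z.1.1.2.1 z.1.1.2.2.2.1 z.1.1.2.2.2.2.1 z.1.1.2.2.2.2.2 z.2)
      (pt_okX3 (hx.comp PT.fst) (hg.comp PT.fst) (hF.comp PT.fst) (hQ.comp PT.fst) (hR.comp PT.fst) PT.snd)
  have hn : PT (fun y : XIn => List.range y.1.1) := PT.range (PT.p1 PT.fst)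
  have h4 : PT (fun y : XIn => all4 y.1.1) := pt_prodL hn (pt_prodL hn (pt_prodL hn hn))
  have hA : PT (xfA3 K) := PT.flatMap (pt_prodL h4 h4) (g := fun z : XIn × (Sq4 × Sq4) => xfP3 K (z.1, z.2))
    (hP.comp (PT.pair PT.fst PT.snd))
  exact PT.pair (PT.bnot (PT.isZero (PT.length hA))) (PT.headD hA (PT.const []))

theorem xfK3_true {K : ℕ} {y : XIn} (h : (xfK3 K y).1 = true) :
    ∃ B ∈ prodL (all4 y.1.1) (all4 y.1.1), (xfK3 K y).2 ∈ xfP3 K (y, B) := by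
  have h1 : (xfK3 K y).2 ∈ xfA3 K y := by
    unfold xfK3 at h ⊢
    simp only [Bool.not_eq_true', decide_eq_false_iff_not] at h ⊢
    cases hc : xfA3 K y with
    | nil => rw [hc] at h; simp at h
    | cons a l => exact List.mem_cons_self
  exact List.mem_flatMap.1 h1

theorem xfK3_false {K : ℕ} {y : XIn} (h : (xfK3 K y).1 = false) : ∀ B ∈ prodL (all4 y.1.1) (all4 y.1.1),
    ∀ l ∈ poolX3 y.1 y.2.1 y.2.2.2.1 y.2.2.1 y.2.2.2.2.1 y.2.2.2.2.2 B K,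
      okX3 y.1 y.2.1 y.2.2.2.1 y.2.2.2.2.1 y.2.2.2.2.2 l = false := by
  unfold xfK3 at h
  simp only [Bool.not_eq_false', decide_eq_true_eq] at h
  intro B hB l hl
  by_contra hc
  rw [Bool.not_eq_false] at hc
  have : l ∈ xfA3 K y := List.mem_flatMap.2 ⟨B, hB, List.mem_filter.2 ⟨hl, hc⟩⟩
  rw [List.length_eq_zero_iff.1 h] at this
  cases this

section
variable {x : Ins} {g : List ℕ} {W : List (ℕ × List Ed)} {v : ℕ} {F : List Ed} {Q R : Sq4} {B : Sq4 × Sq4}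

theorem b13_of (hx : InsWF x) (hD : Da3 x g W v) (hF : MG x F) (hQ : Q ∈ cyG x) (hR : R ∈ cyG x)
    (hB : B ∈ prodL (all4 x.1) (all4 x.1)) : B13 x F W Q R B where
  wf := hx
  f := hF
  w := fun p hp => (hD.tab p hp).2.1.1
  q := ⟨cyG_ok Q hQ, cyG_sub hQ⟩
  r := ⟨cyG_ok R hR, cyG_sub hR⟩
  b1 := mem_all4.1 (mem_prodL.1 hB).1
  b2 := mem_all4.1 (mem_prodL.1 hB).2

/-- no short cycle in the stored objects -/
theorem lookW_cy (hD : Da3 x g W v) (w : ℕ) : ∀ q ∈ cyG x, cyIn (lookW W w) q = false := by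
  intro q hq
  rcases lookW_or W w with h | h
  · rw [h]
    rfl
  · exact (hD.tab _ h).2.1.2 q hq

theorem poolX3_mono {s t : ℕ} (hst : s ≤ t) {l : List Ed} (hl : l ∈ poolX3 x g F W Q R B s) :
    l ∈ poolX3 x g F W Q R B t := by
  induction t, hst using Nat.le_induction with
  | base => exact hl
  | succ t _ ih => exact mem_rX3.2 (Or.inl ih)

theorem big_choose3 (m c : ℕ) : ∃ K, ∀ a ≤ c, m * (a.choose 3 + a.choose 4 + 1) ≤ K :=
  ⟨m * (c.choose 3 + c.choose 4 + 1), fun _ h =>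
    Nat.mul_le_mul_left _ (Nat.add_le_add_right (Nat.add_le_add (Nat.choose_le_choose 3 h)
      (Nat.choose_le_choose 4 h)) 1)⟩

/-- **the failure of `xf1` in one world** -/
theorem fail_ow3 {K m : ℕ} (hx : InsWF x) (hD : Da3 x g W v) (hg : Ev x g) (hF : MG x F)
    (hc : Cov x.1 g (degL F)) (hQ : Q ∈ clS3 x g F) (hR : R ∈ cyG x)
    (hB4 : B ∈ prodL (all4 x.1) (all4 x.1)) (hm : ∀ a ≤ dV23, 3 ^ (a + 1) + 20 ≤ m)
    (hK : ∀ a ≤ dE23, m * (a.choose 3 + a.choose 4 + 1) ≤ K) (h : (xfK3 K (x, g, W, F, Q, R)).1 = false) :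
    ∃ (D : Finset (Finset (Sym2 ℕ))) (j : ℕ),
      OW3 (xd3 x g F W Q R B) (PX3 x g F W Q R B) D j m (S3 Q R B) (fun w => fs (lookW W w)) ∧
        cys Q ∈ D ∧ (isT Q = true → isT R = true → uS Q R ∉ D) := by
  obtain ⟨hQG, hQh, hQF⟩ := mem_clS3.1 hQ
  have hB : B13 x F W Q R B := b13_of hx hD hF hQG hR hB4
  have hno := xfK3_false h B hB4
  simp only at hno
  -- a member of the pool of stage at most `K` which is a cover contains a forbidden short cycle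
  have hbad : ∀ l ∈ poolX3 x g F W Q R B K, Cov x.1 g (degL l) →
      ∃ q ∈ cyG x, harm3 g q = true ∧ cys q ⊆ fs l ∧ ¬ Alw F Q R (cys q) := by
    intro l hl hcl
    have h1 := hno l hl
    rw [← Bool.not_eq_true, okX3_iff hQG] at h1
    push Not at h1
    obtain ⟨q, hq, h2, h3, h4⟩ := h1 hcl
    exact ⟨q, hq, h2, (cyIn_iff _ _).1 h3, h4⟩
  have hCv : ∀ l : List Ed, WF l → M2 (fs l) → Cv (xd3 x g F W Q R B).toXD (fs l) → Cov x.1 g (degL l) := by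
    intro l hw _ hcl u hu
    rcases hg u hu with h1 | h1
    · rw [h1]; exact Nat.zero_le _
    · rw [h1, degL_eq hw, hcl u (mem_T3.2 ⟨hu, by omega⟩)]
  -- the minimal blocking family
  have hE2 : #(xd3 x g F W Q R B).E2 ≤ dE23 := by
    show #(fs (E2L3 x F W Q R B)) ≤ dE23
    refine le_trans ?_ hB.lE2
    refine (List.toFinset_card_le _).trans ?_
    rw [List.length_map]
  have hV2 : #(xd3 x g F W Q R B).V2 ≤ dV23 := (List.toFinset_card_le _).trans hB.lV2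
  obtain ⟨D, j, hjm, hblk, hDA⟩ := XP3.exists_blk (hB.ok g) (hB.xp g)
    (Alw F Q R) (K := K) (m := m)
    (hK _ hE2)
    (by
      intro t L Z hL hZ hs
      rcases hB.inv g (fun w _ => lookW_cy hD w) t L Z hL hZ hs with h1 | h1
      · exact Or.inl (Or.inl h1)
      · exact Or.inr h1)
    (by
      rintro _ ⟨l, hl, rfl⟩ hcl
      have hpm := hB.pm g K l hl
      obtain ⟨q, hq, h2, h3, h4⟩ := hbad l hl (hCv l hpm.wf hpm.m2 hcl)
      exact ⟨cys q, (harm3_G hx hq).1 h2, h3, h4⟩)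
  refine ⟨D, j, ⟨hB.ok g, hB.xp g, hblk, hm _ hV2, hB.rch, hB.sv, ?_⟩, ?_, ?_⟩
  · -- the near covers
    intro w hw hwT
    obtain ⟨hwn, hw2'⟩ := mem_T3.1 hwT
    have hw2 : g.getD w 0 = 2 := by
      rcases hg w hwn with h1 | h1 <;> omega
    have hwW : (w, lookW W w) ∈ W := lookW_mem ((hD.sup w hwn).1 (by omega))
    obtain ⟨_, ⟨hMG, hsq⟩, hdeg⟩ := hD.tab _ hwW
    have hst : lookW W w ∈ poolX3 x g F W Q R B 0 :=
      List.mem_cons_of_mem _ (List.mem_map.2 ⟨w, mem_S3.1 hw, rfl⟩)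
    have hsqf : ∀ Z, Hs3 (xd3 x g F W Q R B).T Z → ¬ Z ⊆ fs (lookW W w) := by
      intro Z hZ hs
      obtain ⟨q, hq, e, _⟩ := Hs3_full (g := g) hx hZ (hs.trans hMG.sub)
      have h1 := hsq q hq
      rw [← Bool.not_eq_true, cyIn_iff, e] at h1
      exact h1 hs
    have hdg : ∀ u, degL (lookW W w) u = dg (fs (lookW W w)) u := fun u => degL_eq hMG.wf u
    have hle : ∀ u, dg (fs (lookW W w)) u ≤ 2 := hMG.m2.le
    have htwo : ∀ u ∈ (xd3 x g F W Q R B).T, u ≠ w → dg (fs (lookW W w)) u = 2 := by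
      intro u hu huw
      obtain ⟨hun, hu2⟩ := mem_T3.1 hu
      have h1 := hdeg u hun
      have h3 : g.getD u 0 = 2 := by
        rcases hg u hun with h4 | h4 <;> omega
      rw [h3, if_neg huw, hdg] at h1
      have h2 := hle u
      omega
    refine ⟨⟨hMG.m2, ?_, ?_, htwo⟩, ⟨_, poolX3_mono (Nat.zero_le j) hst, rfl⟩, hsqf⟩
    · intro e he
      exact mem_EL3.2 (Or.inr (Or.inl ⟨w, mem_S3.1 hw, he⟩))
    · have h1 := hdeg w hwn
      rw [hw2, if_pos rfl, hdg] at h1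
      have h2 := hle w
      by_contra hne
      have h3 : dg (fs (lookW W w)) w = 2 := by omega
      have hcov : Cov x.1 g (degL (lookW W w)) := by
        refine hCv _ hMG.wf hMG.m2 ?_
        intro u hu
        by_cases huw : u = w
        · rw [huw]; exact h3
        · exact htwo u hu huw
      obtain ⟨q, hq, _, h5, _⟩ := hbad _ (poolX3_mono (Nat.zero_le K) hst) hcov
      have h6 := hsq q hq
      rw [← Bool.not_eq_true, cyIn_iff] at h6
      exact h6 h5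
  · -- the short cycle `Q`
    have hFP : PX3 x g F W Q R B 0 (fs F) := ⟨F, List.mem_cons_self, rfl⟩
    have hFc : Cv (xd3 x g F W Q R B).toXD (fs F) := by
      intro u hu
      obtain ⟨hun, hu2⟩ := mem_T3.1 hu
      have h1 := hc u hun
      rw [degL_eq hF.wf] at h1
      have h2 := hF.m2.le u
      omega
    obtain ⟨Z, hZ, hs⟩ := hblk.blk 0 (Nat.zero_le _) _ hFP hFc
    have h1 := hDA Z hZ
    have h2 : Z = cys Q := by
      by_contra hne
      exact h1 (Or.inl ⟨hs, hne⟩)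
    rw [← h2]
    exact hZ
  · intro h1 h2 h3
    exact hDA _ h3 (Or.inr ⟨h1, h2, rfl⟩)

end

/-! ### the worlds -/

/-- one world which contains `Q` in its blocking family, with near covers at the vertices of `S`, and with all edges of the
graph `G` between vertices of `S`; if `Q` and `R` are triangles, their union square is not in the blocking family -/
def WB3 (n : ℕ) (T : Finset ℕ) (G : Finset (Sym2 ℕ)) (M : ℕ → Finset (Sym2 ℕ)) (S : Finset ℕ) (Q R : Sq4) : Prop :=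
  ∃ (X : XD3) (P : ℕ → Finset (Sym2 ℕ) → Prop) (D : Finset (Finset (Sym2 ℕ))) (j m : ℕ),
    OW3 X P D j m S M ∧ X.n = n ∧ X.T = T ∧ X.E ⊆ G ∧ cys Q ∈ D ∧ (∀ e ∈ G, (∀ v ∈ e, v ∈ S) → e ∈ X.E) ∧
      (isT Q = true → isT R = true → uS Q R ∉ D)

/-- **the theorem on two conflicting short cycles** -/
def XfStatement3 : Prop :=
  ∀ (n : ℕ) (T : Finset ℕ) (G : Finset (Sym2 ℕ)) (M : ℕ → Finset (Sym2 ℕ)) (Q R : Sq4), CyOK Q → CyOK R →
    cys Q ⊆ G → cys R ⊆ G → #(cys Q ∩ cys R) = 1 → (∀ v ∈ cr Q ∪ cr R, v < n) →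
    (∀ S : Finset ℕ, cr Q ∪ cr R ⊆ S → #(S \ (cr Q ∪ cr R)) ≤ 8 → (∀ v ∈ S, v < n) →
      WB3 n T G M S Q R ∧ WB3 n T G M S R Q) → False

/-- eight vertices as a pair of 4-tuples -/
theorem exists_B (T : Finset ℕ) (h : #T ≤ 8) (a : ℕ) :
    ∃ B : Sq4 × Sq4, (∀ v ∈ T, v ∈ cr B.1 ∪ cr B.2) ∧ ∀ v ∈ cr B.1 ∪ cr B.2, v ∈ T ∨ v = a := by
  obtain ⟨l, hl⟩ : ∃ l : List ℕ, l = T.toList := ⟨_, rfl⟩
  have h1 : l.length ≤ 8 := by rw [hl, Finset.length_toList]; exact h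
  have h2 : ∀ v, v ∈ l ↔ v ∈ T := fun v => by rw [hl, Finset.mem_toList]
  refine ⟨((l.getD 0 a, l.getD 1 a, l.getD 2 a, l.getD 3 a), (l.getD 4 a, l.getD 5 a, l.getD 6 a, l.getD 7 a)),
    ?_, ?_⟩
  · intro v hv
    rw [← h2] at hv
    obtain ⟨i, hi, rfl⟩ := List.mem_iff_getElem.1 hv
    have e1 : l[i] = l.getD i a := by
      rw [List.getD_eq_getElem?_getD, List.getElem?_eq_getElem hi]; rfl
    rw [e1]
    rw [Finset.mem_union]
    simp only [cr, Finset.mem_insert, Finset.mem_singleton]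
    have h3 : i < 8 := by omega
    interval_cases i <;> simp
  · intro v hv
    have key : ∀ i, l.getD i a ∈ T ∨ l.getD i a = a := by
      intro i
      by_cases hi : i < l.length
      · left
        rw [← h2, List.getD_eq_getElem?_getD, List.getElem?_eq_getElem hi]
        exact List.getElem_mem hi
      · right
        rw [List.getD_eq_getElem?_getD, List.getElem?_eq_none (by omega)]; rfl
    rw [Finset.mem_union] at hv
    simp only [cr, Finset.mem_insert, Finset.mem_singleton] at hv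
    rcases hv with (rfl | rfl | rfl | rfl) | (rfl | rfl | rfl | rfl) <;> exact key _

/-- all worlds of one call -/
theorem fail_wb3 {K m : ℕ} {x : Ins} {g : List ℕ} {W : List (ℕ × List Ed)} {v : ℕ} {F : List Ed} {Q R : Sq4}
    (hx : InsWF x) (hD : Da3 x g W v) (hg : Ev x g) (hF : MG x F) (hc : Cov x.1 g (degL F))
    (hQ : Q ∈ clS3 x g F) (hR : R ∈ cyG x) (hm : ∀ a ≤ dV23, 3 ^ (a + 1) + 20 ≤ m)
    (hK : ∀ a ≤ dE23, m * (a.choose 3 + a.choose 4 + 1) ≤ K) (h : (xfK3 K (x, g, W, F, Q, R)).1 = false)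
    (S : Finset ℕ) (hS : cr Q ∪ cr R ⊆ S) (hS8 : #(S \ (cr Q ∪ cr R)) ≤ 8) (hSn : ∀ v ∈ S, v < x.1) :
    WB3 x.1 (T3 x.1 g) (fs x.2) (fun w => fs (lookW W w)) S Q R := by
  obtain ⟨B, hB1, hB2⟩ := exists_B _ hS8 Q.1
  have hQ1 : Q.1 ∈ cr Q ∪ cr R := Finset.mem_union_left _ (by simp [cr])
  have hSB : S3 Q R B = S := by
    ext u
    unfold S3
    rw [Finset.mem_union]
    constructor
    · rintro (h1 | h1)
      · exact hS h1
      · rcases hB2 u h1 with h2 | h2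
        · exact (Finset.mem_sdiff.1 h2).1
        · rw [h2]; exact hS hQ1
    · intro h1
      by_cases h2 : u ∈ cr Q ∪ cr R
      · exact Or.inl h2
      · exact Or.inr (hB1 u (Finset.mem_sdiff.2 ⟨h1, h2⟩))
  have hlt : ∀ u ∈ cr B.1 ∪ cr B.2, u < x.1 := by
    intro u hu
    apply hSn
    rw [← hSB]
    exact Finset.mem_union_right _ hu
  have hB4 : B ∈ prodL (all4 x.1) (all4 x.1) := by
    refine mem_prodL.2 ⟨mem_all4.2 ⟨?_, ?_, ?_, ?_⟩, mem_all4.2 ⟨?_, ?_, ?_, ?_⟩⟩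
    all_goals
      apply hlt
      rw [Finset.mem_union]
      simp [cr]
  obtain ⟨D, j, w, q, u⟩ := fail_ow3 hx hD hg hF hc hQ hR hB4 hm hK h
  have hBB := b13_of hx hD hF (mem_clS3.1 hQ).1 hR hB4
  rw [hSB] at w
  exact ⟨_, _, D, j, m, w, rfl, rfl, hBB.sub, q, fun e he hv => hBB.btw he (by rw [hSB]; exact hv), u⟩

/-- **`xf1` exists, given the theorem on two conflicting short cycles** -/
theorem xf13_exists (hX : XfStatement3) : ∃ xf1 : XIn → Bool × List Ed, PT xf1 ∧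
    (∀ x g W v N Q R, InsWF x → Da3 x g W v → Ev x g → MG x N → Cov x.1 g (degL N) →
      Q ∈ clS3 x g N → R ∈ cyG x → (xf1 (x, g, W, N, Q, R)).1 = true →
      MG x (xf1 (x, g, W, N, Q, R)).2 ∧ Cov x.1 g (degL (xf1 (x, g, W, N, Q, R)).2) ∧
        ∀ Z ∈ clS3 x g (xf1 (x, g, W, N, Q, R)).2,
          (Z ∈ clS3 x g N ∧ Z ≠ Q) ∨ (isT Q = true ∧ isT R = true ∧ cys Z = uS Q R)) ∧
    (∀ x g W v F N Q R, InsWF x → Da3 x g W v → Ev x g → MG x F → Cov x.1 g (degL F) →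
      MG x N → Cov x.1 g (degL N) → Q ∈ clS3 x g F → R ∈ clS3 x g N → conf3 Q R = true →
      (xf1 (x, g, W, F, Q, R)).1 = true ∨ (xf1 (x, g, W, N, R, Q)).1 = true) := by
  obtain ⟨m, hm⟩ := XF.big_pow dV23
  obtain ⟨K, hK⟩ := big_choose3 m dE23
  refine ⟨xfK3 K, pt_xfK3 K, ?_, ?_⟩
  · intro x g W v N Q R hx hD hg hN _ hQ hR h
    have hQG : Q ∈ cyG x := (mem_clS3.1 hQ).1
    obtain ⟨B, hB4, h0⟩ := xfK3_true h
    have hB : B13 x N W Q R B := b13_of hx hD hN hQG hR hB4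
    obtain ⟨h1, h2⟩ := List.mem_filter.1 h0
    rw [okX3_iff hQG] at h2
    have hpm := hB.pm g K _ h1
    refine ⟨⟨hpm.wf, hpm.m2, hpm.sub.trans hB.sub⟩, h2.1, ?_⟩
    intro Z hZ
    obtain ⟨hZG, hZh, hZs⟩ := mem_clS3.1 hZ
    rcases h2.2 Z hZG hZh ((cyIn_iff _ _).2 hZs) with ⟨h3, h4⟩ | h3
    · exact Or.inl ⟨mem_clS3.2 ⟨hZG, hZh, h3⟩, fun h5 => h4 (by rw [h5])⟩
    · exact Or.inr h3
  · intro x g W v F N Q R hx hD hg hF hFc hN hNc hQ hR hQR
    by_contra hcon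
    rw [not_or, Bool.not_eq_true, Bool.not_eq_true] at hcon
    obtain ⟨c1, c2⟩ := hcon
    have hQG : Q ∈ cyG x := (mem_clS3.1 hQ).1
    have hRG : R ∈ cyG x := (mem_clS3.1 hR).1
    have hlt : ∀ v ∈ cr Q ∪ cr R, v < x.1 := by
      intro u hu
      have key : ∀ q ∈ cyG x, ∀ u ∈ cr q, u < x.1 := by
        intro q hq u hu
        obtain ⟨⟨h1, h2, h3, h4⟩, _⟩ := mem_cyG.1 hq
        simp only [cr, Finset.mem_insert, Finset.mem_singleton] at hu
        rcases hu with rfl | rfl | rfl | rfl <;> assumption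
      rcases Finset.mem_union.1 hu with h | h
      · exact key Q hQG u h
      · exact key R hRG u h
    refine hX x.1 (T3 x.1 g) (fs x.2) (fun w => fs (lookW W w)) Q R (cyG_ok Q hQG) (cyG_ok R hRG) (cyG_sub hQG) (cyG_sub hRG)
      ((conf3_iff (cyG_ok Q hQG)).1 hQR) hlt ?_
    intro S hS hS8 hSn
    have hS' : cr R ∪ cr Q ⊆ S := by rw [Finset.union_comm]; exact hS
    have hS8' : #(S \ (cr R ∪ cr Q)) ≤ 8 := by rw [Finset.union_comm]; exact hS8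
    exact ⟨fail_wb3 hx hD hg hF hFc hQ hRG hm hK c1 S hS hS8 hSn,
      fail_wb3 hx hD hg hN hNc hR hQG hm hK c2 S hS' hS8' hSn⟩

end Pool.Agent.P34

end

section -- file P34/YG

/-!
Two conflicting short cycles: the worlds in terms of edge sets (`W3`), the normal forms (square / square with six or five
vertices, triangle / square, triangle / triangle), and the reduction of `XfStatement3` to them.
-/

set_option autoImplicit false

namespace Pool.Agent.P34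

open Finset Pool.Agent.TFC Pool.Agent.PF4 Pool.Agent.Lib.helper60
open Pool.Agent.PF4.XF (cr)

/-- one world: `Q` is in the blocking family, near covers at the vertices of `S`, all edges of `G` between vertices of `S`; if
`Q` and `R` are triangles, the union square is not in the blocking family -/
def WW (n : ℕ) (T : Finset ℕ) (G : Finset (Sym2 ℕ)) (M : ℕ → Finset (Sym2 ℕ)) (S : Finset ℕ)
    (Q R : Finset (Sym2 ℕ)) : Prop :=
  ∃ (X : XD3) (P : ℕ → Finset (Sym2 ℕ) → Prop) (D : Finset (Finset (Sym2 ℕ))) (j m : ℕ),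
    OW3 X P D j m S M ∧ X.n = n ∧ X.T = T ∧ X.E ⊆ G ∧ Q ∈ D ∧ (∀ e ∈ G, (∀ v ∈ e, v ∈ S) → e ∈ X.E) ∧
      (IsTri Q → IsTri R → (Q \ R) ∪ (R \ Q) ∉ D)

/-- both worlds, for every set `S` which contains the vertices `V` and at most eight further vertices -/
structure BW3 (n : ℕ) (T : Finset ℕ) (G : Finset (Sym2 ℕ)) (M : ℕ → Finset (Sym2 ℕ)) (V : Finset ℕ)
    (Q R : Finset (Sym2 ℕ)) : Prop where
  lt : ∀ v ∈ V, v < n
  q : Q ⊆ G
  r : R ⊆ G
  w1 : ∀ S : Finset ℕ, V ⊆ S → #(S \ V) ≤ 8 → (∀ v ∈ S, v < n) → WW n T G M S Q R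
  w2 : ∀ S : Finset ℕ, V ⊆ S → #(S \ V) ≤ 8 → (∀ v ∈ S, v < n) → WW n T G M S R Q

theorem BW3.swap {n : ℕ} {T : Finset ℕ} {G : Finset (Sym2 ℕ)} {M : ℕ → Finset (Sym2 ℕ)} {V : Finset ℕ}
    {Q R : Finset (Sym2 ℕ)} (h : BW3 n T G M V Q R) : BW3 n T G M V R Q := ⟨h.lt, h.r, h.q, h.w2, h.w1⟩

/-- both short cycles are harmful -/
theorem BW3.hs {n : ℕ} {T : Finset ℕ} {G : Finset (Sym2 ℕ)} {M : ℕ → Finset (Sym2 ℕ)} {V : Finset ℕ}
    {Q R : Finset (Sym2 ℕ)} (h : BW3 n T G M V Q R) : Hs3 T Q := by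
  obtain ⟨X, P, D, j, m, h1, _, h3, _, h5, _⟩ := h.w1 V (Finset.Subset.refl _) (by simp) h.lt
  rw [← h3]
  exact (h1.blk.hs _ h5).1

/-- a pattern theorem: two squares, six vertices -/
def PtS6 (c : Finset ℕ → ℕ → ℕ → ℕ → ℕ → ℕ → ℕ → Prop) : Prop :=
  ∀ (n : ℕ) (T : Finset ℕ) (G : Finset (Sym2 ℕ)) (M : ℕ → Finset (Sym2 ℕ)) (x y q p r s : ℕ),
    [x, y, q, p, r, s].Nodup → BW3 n T G M {x, y, q, p, r, s} (TFC.sq x y q p) (TFC.sq x y r s) →
    c T x y q p r s → False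

/-- the pattern theorem: two squares, five vertices -/
def PtS5 : Prop :=
  ∀ (n : ℕ) (T : Finset ℕ) (G : Finset (Sym2 ℕ)) (M : ℕ → Finset (Sym2 ℕ)) (x y q p r : ℕ),
    [x, y, q, p, r].Nodup → BW3 n T G M {x, y, q, p, r} (TFC.sq x y q p) (TFC.sq x y r q) → False

/-- the pattern theorem: a triangle and a square -/
def PtTS : Prop :=
  ∀ (n : ℕ) (T : Finset ℕ) (G : Finset (Sym2 ℕ)) (M : ℕ → Finset (Sym2 ℕ)) (x y c r s : ℕ),
    [x, y, c, r, s].Nodup → BW3 n T G M {x, y, c, r, s} (tri x y c) (TFC.sq x y r s) → False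

/-- the pattern theorem: two triangles -/
def PtTT : Prop :=
  ∀ (n : ℕ) (T : Finset ℕ) (G : Finset (Sym2 ℕ)) (M : ℕ → Finset (Sym2 ℕ)) (x y p r : ℕ),
    [x, y, p, r].Nodup → BW3 n T G M {x, y, p, r} (tri x y p) (tri x y r) → False

/-! ### normal forms -/

theorem cr_tri {q : Sq4} (h : q.2.2.2 = q.1) : cr q = {q.1, q.2.1, q.2.2.1} := by
  ext v
  simp only [cr, Finset.mem_insert, Finset.mem_singleton, h]
  tauto

/-- a triangle, read from one of its edges -/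
theorem tri_at {a b c : ℕ} (h : Dist3 a b c) {x y : ℕ} (he : s(x, y) ∈ tri a b c) :
    ∃ z, Dist3 x y z ∧ tri a b c = tri x y z ∧ ({a, b, c} : Finset ℕ) = {x, y, z} := by
  obtain ⟨h1, h2, h3⟩ := h
  simp only [tri, Finset.mem_insert, Finset.mem_singleton, Sym2.eq_iff] at he
  rcases he with (⟨rfl, rfl⟩ | ⟨rfl, rfl⟩) | (⟨rfl, rfl⟩ | ⟨rfl, rfl⟩) | (⟨rfl, rfl⟩ | ⟨rfl, rfl⟩)
  · exact ⟨c, ⟨h1, h2, h3⟩, rfl, rfl⟩
  · exact ⟨c, ⟨h1.symm, h3, h2⟩, tri_ref _ _ _, by ext v; simp only [mem_insert, mem_singleton]; tauto⟩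
  · exact ⟨a, ⟨h3, h1.symm, h2.symm⟩, tri_rot _ _ _, by ext v; simp only [mem_insert, mem_singleton]; tauto⟩
  · exact ⟨a, ⟨h3.symm, h2.symm, h1.symm⟩, tri_rev _ _ _, by ext v; simp only [mem_insert, mem_singleton]; tauto⟩
  · exact ⟨b, ⟨h2.symm, h3.symm, h1⟩, tri_rot2 _ _ _, by ext v; simp only [mem_insert, mem_singleton]; tauto⟩
  · exact ⟨b, ⟨h2, h1, h3.symm⟩, tri_ref2 _ _ _, by ext v; simp only [mem_insert, mem_singleton]; tauto⟩

/-- the triangle of a 4-tuple -/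
theorem CyOK.tri {q : Sq4} (h : CyOK q) (ht : q.2.2.2 = q.1) :
    Dist3 q.1 q.2.1 q.2.2.1 ∧ cys q = P34.tri q.1 q.2.1 q.2.2.1 ∧ cr q = {q.1, q.2.1, q.2.2.1} := by
  refine ⟨?_, ?_, cr_tri ht⟩
  · rcases h with h | h
    · exact h.2
    · exact absurd ht.symm h.2.2.1
  · obtain ⟨a, b, c, d⟩ := q
    have ht' : d = a := ht
    subst ht'
    exact cys_tri _ _ _

/-- the square of a 4-tuple -/
theorem CyOK.sq {q : Sq4} (h : CyOK q) (ht : q.2.2.2 ≠ q.1) : SqOK q ∧ cys q = sqs q := by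
  obtain ⟨a, b, c, d⟩ := q
  rcases h with h | h
  · exact absurd h.1 ht
  · exact ⟨h, cys_sq ht⟩

/-- the common edge -/
theorem one_edge {Q R : Finset (Sym2 ℕ)} (h : #(Q ∩ R) = 1) :
    ∃ x y, s(x, y) ∈ Q ∧ s(x, y) ∈ R ∧ ∀ f, f ∈ Q → f ∈ R → f = s(x, y) := by
  obtain ⟨e, he⟩ := card_eq_one.1 h
  have hm : e ∈ Q ∩ R := by rw [he]; exact mem_singleton_self e
  induction e using Sym2.ind with
  | _ x y =>
    refine ⟨x, y, (mem_inter.1 hm).1, (mem_inter.1 hm).2, fun f h1 h2 => ?_⟩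
    have h3 : f ∈ Q ∩ R := mem_inter.2 ⟨h1, h2⟩
    rw [he] at h3
    exact mem_singleton.1 h3

/-- **normal form, triangle and square** -/
theorem nf_ts {Q R : Sq4} (hQ : CyOK Q) (hR : CyOK R) (h : #(cys Q ∩ cys R) = 1) (tQ : Q.2.2.2 = Q.1)
    (tR : R.2.2.2 ≠ R.1) : ∃ x y c r s, [x, y, c, r, s].Nodup ∧ cys Q = tri x y c ∧ cys R = TFC.sq x y r s ∧
      cr Q ∪ cr R = {x, y, c, r, s} := by
  obtain ⟨d1, e1, c1⟩ := hQ.tri tQ
  obtain ⟨d2, e2⟩ := hR.sq tR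
  obtain ⟨x, y, m1, m2, hu⟩ := one_edge h
  rw [e1] at m1 hu
  rw [e2] at m2 hu
  obtain ⟨c, d3, e3, c3⟩ := tri_at d1 m1
  obtain ⟨r, s, d4, e4, c4⟩ := XF.sq_at' (show Dist4 R.1 R.2.1 R.2.2.1 R.2.2.2 from d2) m2
  rw [e3] at e1 hu
  have e4' : sqs R = TFC.sq x y r s := e4
  rw [e4'] at e2 hu
  obtain ⟨a1, a2, a3⟩ := d3
  obtain ⟨-, b2, b3, b4, b5, b6⟩ := d4
  have hcr : c ≠ r := by
    rintro rfl
    have := hu s(y, c) (by simp [tri]) (by simp [TFC.sq])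
    rw [Sym2.eq_iff] at this
    rcases this with ⟨h1, h2⟩ | ⟨h1, h2⟩
    · exact a1 h1.symm
    · exact a2 h2.symm
  have hcs : c ≠ s := by
    rintro rfl
    have := hu s(c, x) (by simp [tri]) (by simp [TFC.sq])
    rw [Sym2.eq_iff] at this
    rcases this with ⟨h1, h2⟩ | ⟨h1, h2⟩
    · exact a2 h1.symm
    · exact a3 h1.symm
  refine ⟨x, y, c, r, s, ?_, e1, e2, ?_⟩
  · simp only [List.nodup_cons, List.mem_cons, List.not_mem_nil, or_false, not_or, List.nodup_nil, and_true,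
      not_false_eq_true]
    exact ⟨⟨a1, a2, b2, b3⟩, ⟨a3, b4, b5⟩, ⟨hcr, hcs⟩, b6⟩
  · have c4' : cr R = {x, y, r, s} := c4
    rw [c1, c3, c4']
    ext v; simp only [mem_union, mem_insert, mem_singleton]; tauto

/-- **normal form, two triangles** -/
theorem nf_tt {Q R : Sq4} (hQ : CyOK Q) (hR : CyOK R) (h : #(cys Q ∩ cys R) = 1) (tQ : Q.2.2.2 = Q.1)
    (tR : R.2.2.2 = R.1) : ∃ x y p r, [x, y, p, r].Nodup ∧ cys Q = tri x y p ∧ cys R = tri x y r ∧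
      cr Q ∪ cr R = {x, y, p, r} := by
  obtain ⟨d1, e1, c1⟩ := hQ.tri tQ
  obtain ⟨d2, e2, c2⟩ := hR.tri tR
  obtain ⟨x, y, m1, m2, hu⟩ := one_edge h
  rw [e1] at m1 hu
  rw [e2] at m2 hu
  obtain ⟨p, d3, e3, c3⟩ := tri_at d1 m1
  obtain ⟨r, d4, e4, c4⟩ := tri_at d2 m2
  rw [e3] at e1 hu
  rw [e4] at e2 hu
  obtain ⟨a1, a2, a3⟩ := d3
  obtain ⟨-, b2, b3⟩ := d4
  have hpr : p ≠ r := by
    rintro rfl
    have := hu s(y, p) (by simp [tri]) (by simp [tri])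
    rw [Sym2.eq_iff] at this
    rcases this with ⟨h1, h2⟩ | ⟨h1, h2⟩
    · exact a1 h1.symm
    · exact a2 h2.symm
  refine ⟨x, y, p, r, ?_, e1, e2, ?_⟩
  · simp only [List.nodup_cons, List.mem_cons, List.not_mem_nil, or_false, not_or, List.nodup_nil, and_true,
      not_false_eq_true]
    exact ⟨⟨a1, a2, b2⟩, ⟨a3, b3⟩, hpr⟩
  · rw [c1, c3, c2, c4]
    ext v; simp only [mem_union, mem_insert, mem_singleton]; tauto

theorem set6 (x y q p r s : ℕ) : ({x, y, q, p} : Finset ℕ) ∪ {x, y, r, s} = {x, y, q, p, r, s} := by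
  ext v; simp only [mem_union, mem_insert, mem_singleton]; tauto

theorem set5 (x y q p r : ℕ) : ({x, y, q, p} : Finset ℕ) ∪ {x, y, r, q} = {x, y, q, p, r} := by
  ext v; simp only [mem_union, mem_insert, mem_singleton]; tauto

/-- **normal form, two squares** -/
theorem nf_ss {Q R : Sq4} (hQ : CyOK Q) (hR : CyOK R) (h : #(cys Q ∩ cys R) = 1) (tQ : Q.2.2.2 ≠ Q.1)
    (tR : R.2.2.2 ≠ R.1) :
    (∃ x y q p r s, [x, y, q, p, r, s].Nodup ∧ cys Q = TFC.sq x y q p ∧ cys R = TFC.sq x y r s ∧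
      cr Q ∪ cr R = {x, y, q, p, r, s}) ∨
    (∃ x y q p r, [x, y, q, p, r].Nodup ∧ cys Q = TFC.sq x y q p ∧ cys R = TFC.sq x y r q ∧
      cr Q ∪ cr R = {x, y, q, p, r}) := by
  obtain ⟨d1, e1⟩ := hQ.sq tQ
  obtain ⟨d2, e2⟩ := hR.sq tR
  rw [e1, e2] at h
  rcases XF.normal_form d1 d2 h with ⟨x, y, q, p, r, s, h1, h2, h3, h4, h5⟩ | ⟨x, y, q, p, r, h1, h2, h3, h4, h5⟩
  · refine Or.inl ⟨x, y, q, p, r, s, h1, e1.trans h2, e2.trans h3, ?_⟩
    rw [h4, h5, set6]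
  · refine Or.inr ⟨x, y, q, p, r, h1, e1.trans h2, e2.trans h3, ?_⟩
    rw [h4, h5, set5]

theorem isT_of_tri {q : Sq4} (h : CyOK q) (ht : IsTri (cys q)) : isT q = true := by
  rw [isT_iff]
  by_contra hc
  obtain ⟨d, e⟩ := h.sq hc
  exact tri_not_sq ht ⟨_, _, _, _, d, e⟩

/-- one world as edge sets -/
theorem wb3_ww {n : ℕ} {T : Finset ℕ} {G : Finset (Sym2 ℕ)} {M : ℕ → Finset (Sym2 ℕ)} {S : Finset ℕ} {Q R : Sq4}
    (hQ : CyOK Q) (hR : CyOK R) (h : WB3 n T G M S Q R) : WW n T G M S (cys Q) (cys R) := by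
  obtain ⟨X, P, D, j, m, h1, h2, h3, h4, h5, h6, h7⟩ := h
  exact ⟨X, P, D, j, m, h1, h2, h3, h4, h5, h6, fun a b => h7 (isT_of_tri hQ a) (isT_of_tri hR b)⟩

/-- **the theorem on two conflicting short cycles, from the four kinds of pairs** -/
theorem xf3_of (h6 : PtS6 fun _ _ _ _ _ _ _ => True) (h5 : PtS5) (hts : PtTS) (htt : PtTT) : XfStatement3 := by
  intro n T G M Q R hQ hR gQ gR h1 hlt hW
  have hb : BW3 n T G M (cr Q ∪ cr R) (cys Q) (cys R) :=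
    ⟨hlt, gQ, gR, fun S s1 s2 s3 => wb3_ww hQ hR (hW S s1 s2 s3).1,
      fun S s1 s2 s3 => wb3_ww hR hQ (hW S s1 s2 s3).2⟩
  by_cases tQ : Q.2.2.2 = Q.1
  · by_cases tR : R.2.2.2 = R.1
    · obtain ⟨x, y, p, r, n1, e1, e2, e3⟩ := nf_tt hQ hR h1 tQ tR
      rw [e1, e2, e3] at hb
      exact htt n T G M x y p r n1 hb
    · obtain ⟨x, y, c, r, s, n1, e1, e2, e3⟩ := nf_ts hQ hR h1 tQ tR
      rw [e1, e2, e3] at hb
      exact hts n T G M x y c r s n1 hb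
  · by_cases tR : R.2.2.2 = R.1
    · have hb' := hb.swap
      rw [Finset.inter_comm] at h1
      obtain ⟨x, y, c, r, s, n1, e1, e2, e3⟩ := nf_ts hR hQ h1 tR tQ
      rw [e1, e2, Finset.union_comm, e3] at hb'
      exact hts n T G M x y c r s n1 hb'
    · rcases nf_ss hQ hR h1 tQ tR with ⟨x, y, q, p, r, s, n1, e1, e2, e3⟩ | ⟨x, y, q, p, r, n1, e1, e2, e3⟩
      · rw [e1, e2, e3] at hb
        exact h6 n T G M x y q p r s n1 hb trivial
      · rw [e1, e2, e3] at hb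
        exact h5 n T G M x y q p r n1 hb

end Pool.Agent.P34

end

section -- file P34/YG2

/-!
Two conflicting squares with six vertices: the case split into the patterns (`Pat3`), and the forms with two worlds.
-/

set_option autoImplicit false

namespace Pool.Agent.P34

open Finset Pool.Agent.TFC Pool.Agent.PF4
open Pool.Agent.PF4.XF (sq_ref d4ref d4rot)

/-! ### the forms with two worlds -/

/-- both worlds with near covers at the vertices of `V` -/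
theorem BW3.two {n : ℕ} {T : Finset ℕ} {G : Finset (Sym2 ℕ)} {M : ℕ → Finset (Sym2 ℕ)} {V : Finset ℕ}
    {Q R : Finset (Sym2 ℕ)} (h : BW3 n T G M V Q R) :
    ∃ (X₁ X₂ : XD3) (P₁ P₂ : ℕ → Finset (Sym2 ℕ) → Prop) (D₁ D₂ : Finset (Finset (Sym2 ℕ))) (j₁ m₁ j₂ m₂ : ℕ),
      OW3 X₁ P₁ D₁ j₁ m₁ V M ∧ OW3 X₂ P₂ D₂ j₂ m₂ V M ∧ X₁.n = X₂.n ∧ X₁.T = T ∧ X₂.T = T ∧ Q ∈ D₁ ∧ R ∈ D₂ ∧
      (∀ e ∈ G, (∀ v ∈ e, v ∈ V) → e ∈ X₁.E) ∧ (∀ e ∈ G, (∀ v ∈ e, v ∈ V) → e ∈ X₂.E) ∧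
      (IsTri Q → IsTri R → (Q \ R) ∪ (R \ Q) ∉ D₁) ∧ (IsTri R → IsTri Q → (R \ Q) ∪ (Q \ R) ∉ D₂) := by
  obtain ⟨X₁, P₁, D₁, j₁, m₁, w1, n1, t1, _, q1, e1, u1⟩ := h.w1 V (Finset.Subset.refl _) (by simp) h.lt
  obtain ⟨X₂, P₂, D₂, j₂, m₂, w2, n2, t2, _, q2, e2, u2⟩ := h.w2 V (Finset.Subset.refl _) (by simp) h.lt
  exact ⟨X₁, X₂, P₁, P₂, D₁, D₂, j₁, m₁, j₂, m₂, w1, w2, n1.trans n2.symm, t1, t2, q1, q2, e1, e2, u1, u2⟩

theorem sq_ends {x y q p : ℕ} {e : Sym2 ℕ} (he : e ∈ TFC.sq x y q p) {v : ℕ} (hv : v ∈ e) :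
    v = x ∨ v = y ∨ v = q ∨ v = p := by
  simp only [TFC.sq, Finset.mem_insert, Finset.mem_singleton] at he
  rcases he with rfl | rfl | rfl | rfl <;> rw [Sym2.mem_iff] at hv <;> rcases hv with rfl | rfl <;> simp

theorem tri_ends {x y z : ℕ} {e : Sym2 ℕ} (he : e ∈ tri x y z) {v : ℕ} (hv : v ∈ e) : v = x ∨ v = y ∨ v = z :=
  tri_vx ⟨e, he, hv⟩

/-- a pattern theorem with two worlds: two squares, six vertices -/
def Pt36 (c : Finset ℕ → ℕ → ℕ → ℕ → ℕ → ℕ → ℕ → Prop) : Prop :=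
  ∀ (X₁ X₂ : XD3) (P₁ P₂ : ℕ → Finset (Sym2 ℕ) → Prop) (D₁ D₂ : Finset (Finset (Sym2 ℕ))) (j₁ m₁ j₂ m₂ : ℕ)
    (S : Finset ℕ) (M : ℕ → Finset (Sym2 ℕ)),
    OW3 X₁ P₁ D₁ j₁ m₁ S M → OW3 X₂ P₂ D₂ j₂ m₂ S M → X₁.n = X₂.n → X₁.T = X₂.T →
    ∀ x y q p r s : ℕ, [x, y, q, p, r, s].Nodup → x ∈ S → y ∈ S → q ∈ S → p ∈ S → r ∈ S → s ∈ S →
      TFC.sq x y q p ∈ D₁ → TFC.sq x y r s ∈ D₂ → TFC.sq x y r s ⊆ X₁.E → TFC.sq x y q p ⊆ X₂.E →
      c X₁.T x y q p r s → False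

/-- two squares, five vertices -/
def Pt35 : Prop :=
  ∀ (X₁ X₂ : XD3) (P₁ P₂ : ℕ → Finset (Sym2 ℕ) → Prop) (D₁ D₂ : Finset (Finset (Sym2 ℕ))) (j₁ m₁ j₂ m₂ : ℕ)
    (S : Finset ℕ) (M : ℕ → Finset (Sym2 ℕ)),
    OW3 X₁ P₁ D₁ j₁ m₁ S M → OW3 X₂ P₂ D₂ j₂ m₂ S M → X₁.n = X₂.n → X₁.T = X₂.T →
    ∀ x y q p r : ℕ, [x, y, q, p, r].Nodup → x ∈ S → y ∈ S → q ∈ S → p ∈ S → r ∈ S →
      TFC.sq x y q p ∈ D₁ → TFC.sq x y r q ∈ D₂ → TFC.sq x y r q ⊆ X₁.E → TFC.sq x y q p ⊆ X₂.E → False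

/-- a triangle and a square -/
def Pt3TS : Prop :=
  ∀ (X₁ X₂ : XD3) (P₁ P₂ : ℕ → Finset (Sym2 ℕ) → Prop) (D₁ D₂ : Finset (Finset (Sym2 ℕ))) (j₁ m₁ j₂ m₂ : ℕ)
    (S : Finset ℕ) (M : ℕ → Finset (Sym2 ℕ)),
    OW3 X₁ P₁ D₁ j₁ m₁ S M → OW3 X₂ P₂ D₂ j₂ m₂ S M → X₁.n = X₂.n → X₁.T = X₂.T →
    ∀ x y c r s : ℕ, [x, y, c, r, s].Nodup → x ∈ S → y ∈ S → c ∈ S → r ∈ S → s ∈ S →
      tri x y c ∈ D₁ → TFC.sq x y r s ∈ D₂ → TFC.sq x y r s ⊆ X₁.E → tri x y c ⊆ X₂.E → False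

/-- two triangles -/
def Pt3TT : Prop :=
  ∀ (X₁ X₂ : XD3) (P₁ P₂ : ℕ → Finset (Sym2 ℕ) → Prop) (D₁ D₂ : Finset (Finset (Sym2 ℕ))) (j₁ m₁ j₂ m₂ : ℕ)
    (S : Finset ℕ) (M : ℕ → Finset (Sym2 ℕ)),
    OW3 X₁ P₁ D₁ j₁ m₁ S M → OW3 X₂ P₂ D₂ j₂ m₂ S M → X₁.n = X₂.n → X₁.T = X₂.T →
    ∀ x y p r : ℕ, [x, y, p, r].Nodup → x ∈ S → y ∈ S → p ∈ S → r ∈ S →
      tri x y p ∈ D₁ → tri x y r ∈ D₂ → tri x y r ⊆ X₁.E → tri x y p ⊆ X₂.E →
      TFC.sq x p y r ∉ D₁ → TFC.sq x p y r ∉ D₂ → False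

theorem Pt36.to {c : Finset ℕ → ℕ → ℕ → ℕ → ℕ → ℕ → ℕ → Prop} (h : Pt36 c) : PtS6 c := by
  intro n T G M x y q p r s hd hb hc
  obtain ⟨X₁, X₂, P₁, P₂, D₁, D₂, j₁, m₁, j₂, m₂, w1, w2, en, t1, t2, q1, q2, e1, e2, _, _⟩ := hb.two
  refine h X₁ X₂ P₁ P₂ D₁ D₂ j₁ m₁ j₂ m₂ _ M w1 w2 en (t1.trans t2.symm) x y q p r s hd (by simp) (by simp)
    (by simp) (by simp) (by simp) (by simp) q1 q2 (fun e he => e1 e (hb.r he) fun v hv => ?_)
    (fun e he => e2 e (hb.q he) fun v hv => ?_) (by rw [t1]; exact hc)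
  · rcases sq_ends he hv with rfl | rfl | rfl | rfl <;> simp
  · rcases sq_ends he hv with rfl | rfl | rfl | rfl <;> simp

theorem Pt35.to (h : Pt35) : PtS5 := by
  intro n T G M x y q p r hd hb
  obtain ⟨X₁, X₂, P₁, P₂, D₁, D₂, j₁, m₁, j₂, m₂, w1, w2, en, t1, t2, q1, q2, e1, e2, _, _⟩ := hb.two
  refine h X₁ X₂ P₁ P₂ D₁ D₂ j₁ m₁ j₂ m₂ _ M w1 w2 en (t1.trans t2.symm) x y q p r hd (by simp) (by simp)
    (by simp) (by simp) (by simp) q1 q2 (fun e he => e1 e (hb.r he) fun v hv => ?_)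
    (fun e he => e2 e (hb.q he) fun v hv => ?_)
  · rcases sq_ends he hv with rfl | rfl | rfl | rfl <;> simp
  · rcases sq_ends he hv with rfl | rfl | rfl | rfl <;> simp

theorem Pt3TS.to (h : Pt3TS) : PtTS := by
  intro n T G M x y c r s hd hb
  obtain ⟨X₁, X₂, P₁, P₂, D₁, D₂, j₁, m₁, j₂, m₂, w1, w2, en, t1, t2, q1, q2, e1, e2, _, _⟩ := hb.two
  refine h X₁ X₂ P₁ P₂ D₁ D₂ j₁ m₁ j₂ m₂ _ M w1 w2 en (t1.trans t2.symm) x y c r s hd (by simp) (by simp)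
    (by simp) (by simp) (by simp) q1 q2 (fun e he => e1 e (hb.r he) fun v hv => ?_)
    (fun e he => e2 e (hb.q he) fun v hv => ?_)
  · rcases sq_ends he hv with rfl | rfl | rfl | rfl <;> simp
  · rcases tri_ends he hv with rfl | rfl | rfl <;> simp

theorem nodup4 {x y p r : ℕ} : [x, y, p, r].Nodup ↔ (x ≠ y ∧ x ≠ p ∧ x ≠ r) ∧ (y ≠ p ∧ y ≠ r) ∧ p ≠ r := by
  simp only [List.nodup_cons, List.mem_cons, List.not_mem_nil, or_false, not_or, List.nodup_nil, and_true,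
    not_false_eq_true, ne_eq]

/-- the union square of two triangles with the common edge `x y` -/
theorem tri_sdiff {x y p r : ℕ} (h : [x, y, p, r].Nodup) :
    (tri x y p \ tri x y r) ∪ (tri x y r \ tri x y p) = TFC.sq x p y r := by
  obtain ⟨⟨h1, h2, h3⟩, ⟨h4, h5⟩, h6⟩ := nodup4.1 h
  ext e
  rw [Finset.mem_union, Finset.mem_sdiff, Finset.mem_sdiff]
  simp only [tri, TFC.sq, Finset.mem_insert, Finset.mem_singleton]
  constructor
  · rintro (⟨rfl | rfl | rfl, hn⟩ | ⟨rfl | rfl | rfl, hn⟩)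
    · exact absurd (Or.inl rfl) hn
    · exact Or.inr (Or.inl Sym2.eq_swap)
    · exact Or.inl Sym2.eq_swap
    · exact absurd (Or.inl rfl) hn
    · exact Or.inr (Or.inr (Or.inl rfl))
    · exact Or.inr (Or.inr (Or.inr rfl))
  · rintro (rfl | rfl | rfl | rfl)
    · refine Or.inl ⟨Or.inr (Or.inr Sym2.eq_swap), ?_⟩
      simp only [Sym2.eq_iff]
      tauto
    · refine Or.inl ⟨Or.inr (Or.inl Sym2.eq_swap), ?_⟩
      simp only [Sym2.eq_iff]
      tauto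
    · refine Or.inr ⟨Or.inr (Or.inl rfl), ?_⟩
      simp only [Sym2.eq_iff]
      tauto
    · refine Or.inr ⟨Or.inr (Or.inr rfl), ?_⟩
      simp only [Sym2.eq_iff]
      tauto

theorem Pt3TT.to (h : Pt3TT) : PtTT := by
  intro n T G M x y p r hd hb
  obtain ⟨X₁, X₂, P₁, P₂, D₁, D₂, j₁, m₁, j₂, m₂, w1, w2, en, t1, t2, q1, q2, e1, e2, u1, u2⟩ := hb.two
  obtain ⟨⟨h1, h2, h3⟩, ⟨h4, h5⟩, h6⟩ := nodup4.1 hd
  have tq : IsTri (tri x y p) := ⟨_, _, _, ⟨h1, h2, h4⟩, rfl⟩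
  have tr : IsTri (tri x y r) := ⟨_, _, _, ⟨h1, h3, h5⟩, rfl⟩
  have k1 := u1 tq tr
  have k2 := u2 tr tq
  rw [Finset.union_comm, tri_sdiff hd] at k2
  rw [tri_sdiff hd] at k1
  refine h X₁ X₂ P₁ P₂ D₁ D₂ j₁ m₁ j₂ m₂ _ M w1 w2 en (t1.trans t2.symm) x y p r hd (by simp) (by simp)
    (by simp) (by simp) q1 q2 (fun e he => e1 e (hb.r he) fun v hv => ?_)
    (fun e he => e2 e (hb.q he) fun v hv => ?_) k1 k2
  · rcases tri_ends he hv with rfl | rfl | rfl <;> simp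
  · rcases tri_ends he hv with rfl | rfl | rfl <;> simp

/-! ### two squares with six vertices: symmetries and the patterns -/

/-- both worlds of two squares with six vertices -/
def BS (n : ℕ) (T : Finset ℕ) (G : Finset (Sym2 ℕ)) (M : ℕ → Finset (Sym2 ℕ)) (x y q p r s : ℕ) : Prop :=
  [x, y, q, p, r, s].Nodup ∧ BW3 n T G M {x, y, q, p, r, s} (TFC.sq x y q p) (TFC.sq x y r s)

theorem set6_world (x y q p r s : ℕ) : ({x, y, q, p, r, s} : Finset ℕ) = {x, y, r, s, q, p} := by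
  ext v; simp only [mem_insert, mem_singleton]; tauto

theorem set6_side (x y q p r s : ℕ) : ({x, y, q, p, r, s} : Finset ℕ) = {y, x, p, q, s, r} := by
  ext v; simp only [mem_insert, mem_singleton]; tauto

section
variable {n : ℕ} {T : Finset ℕ} {G : Finset (Sym2 ℕ)} {M : ℕ → Finset (Sym2 ℕ)} {x y q p r s : ℕ}

theorem BS.world (h : BS n T G M x y q p r s) : BS n T G M x y r s q p := by
  refine ⟨XF.nd_world h.1, ?_⟩
  rw [← set6_world]
  exact h.2.swap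

theorem BS.side (h : BS n T G M x y q p r s) : BS n T G M y x p q s r := by
  refine ⟨XF.nd_side h.1, ?_⟩
  rw [← set6_side, ← sq_ref x y q p, ← sq_ref x y r s]
  exact h.2

/-- harmful squares: a pair of opposite corners in `T` -/
theorem hs3_opp (hd : Dist4 x y q p) (h : Hs3 T (TFC.sq x y q p)) : (x ∈ T ∧ q ∈ T) ∨ (y ∈ T ∧ p ∈ T) := by
  rcases h with ⟨a, b, c, h1, h2, _⟩ | ⟨a, b, c, d, h1, h2, h3, h4⟩
  · exact absurd ⟨x, y, q, p, hd, rfl⟩ (fun h' : IsSq (TFC.sq x y q p) => tri_not_sq (by rw [h2]; exact ⟨a, b, c, h1, rfl⟩) h')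
  · exact XF.hs_opp hd ⟨a, b, c, d, h1, h2, h3, h4⟩

theorem BS.hs1 (h : BS n T G M x y q p r s) : (x ∈ T ∧ q ∈ T) ∨ (y ∈ T ∧ p ∈ T) := by
  obtain ⟨⟨a1, a2, a3, a4, a5⟩, ⟨b1, b2, b3, b4⟩, ⟨c1, c2, c3⟩, ⟨d1, d2⟩, f1⟩ := XF.nodup6.1 h.1
  exact hs3_opp ⟨a1, a2, a3, b1, b2, c1⟩ h.2.hs

end

/-- the patterns of two squares with six vertices -/
structure Pat3 : Prop where
  /-- a free common vertex -/
  p1 : PtS6 fun T _ y _ _ _ _ => y ∉ T
  /-- two free corners, both adjacent to `x` -/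
  p2 : PtS6 fun T x y q p r s => x ∈ T ∧ y ∈ T ∧ q ∈ T ∧ r ∈ T ∧ p ∉ T ∧ s ∉ T
  /-- two free corners, `p` adjacent to `x`, `r` adjacent to `y` -/
  p3 : PtS6 fun T x y q p r s => x ∈ T ∧ y ∈ T ∧ q ∈ T ∧ s ∈ T ∧ p ∉ T ∧ r ∉ T
  /-- all corners of `R` have demand 2, `p` is free (then `q` has demand 2) -/
  p4a : PtS6 fun T x y q p r s => x ∈ T ∧ y ∈ T ∧ r ∈ T ∧ s ∈ T ∧ q ∈ T ∧ p ∉ T
  /-- all six corners have demand 2 -/
  p4b : PtS6 fun T x y q p r s => x ∈ T ∧ y ∈ T ∧ r ∈ T ∧ s ∈ T ∧ q ∈ T ∧ p ∈ T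

/-- **two squares with six vertices, from the patterns** -/
theorem s6_of_pat (hP : Pat3) : PtS6 fun _ _ _ _ _ _ _ => True := by
  intro n T G M x y q p r s hd hb' _
  have hb : BS n T G M x y q p r s := ⟨hd, hb'⟩
  have e1 : ∀ {x y q p r s : ℕ}, BS n T G M x y q p r s → y ∉ T → False :=
    fun h hy => hP.p1 _ _ _ _ _ _ _ _ _ _ h.1 h.2 hy
  have e2 : ∀ {x y q p r s : ℕ}, BS n T G M x y q p r s →
      (x ∈ T ∧ y ∈ T ∧ q ∈ T ∧ r ∈ T ∧ p ∉ T ∧ s ∉ T) → False :=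
    fun h hy => hP.p2 _ _ _ _ _ _ _ _ _ _ h.1 h.2 hy
  have e3 : ∀ {x y q p r s : ℕ}, BS n T G M x y q p r s →
      (x ∈ T ∧ y ∈ T ∧ q ∈ T ∧ s ∈ T ∧ p ∉ T ∧ r ∉ T) → False :=
    fun h hy => hP.p3 _ _ _ _ _ _ _ _ _ _ h.1 h.2 hy
  have e4 : ∀ {x y q p r s : ℕ}, BS n T G M x y q p r s →
      (x ∈ T ∧ y ∈ T ∧ r ∈ T ∧ s ∈ T ∧ q ∈ T ∧ p ∉ T) → False :=
    fun h hy => hP.p4a _ _ _ _ _ _ _ _ _ _ h.1 h.2 hy
  have e5 : ∀ {x y q p r s : ℕ}, BS n T G M x y q p r s →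
      (x ∈ T ∧ y ∈ T ∧ r ∈ T ∧ s ∈ T ∧ q ∈ T ∧ p ∈ T) → False :=
    fun h hy => hP.p4b _ _ _ _ _ _ _ _ _ _ h.1 h.2 hy
  have o1 := hb.hs1
  have o2 := hb.world.hs1
  by_cases hy : y ∈ T
  swap
  · exact e1 hb hy
  by_cases hx : x ∈ T
  swap
  · exact e1 hb.side hx
  have key : ∀ x y q p r s : ℕ, BS n T G M x y q p r s → x ∈ T → y ∈ T → (q ∈ T ∨ p ∈ T) → r ∈ T → s ∈ T →
      False := by
    intro x y q p r s hb hx hy hqp hr hs
    by_cases hp : p ∈ T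
    · by_cases hq : q ∈ T
      · exact e5 hb ⟨hx, hy, hr, hs, hq, hp⟩
      · exact e4 hb.side ⟨hy, hx, hs, hr, hp, hq⟩
    · exact e4 hb ⟨hx, hy, hr, hs, hqp.resolve_right hp, hp⟩
  have hqp : q ∈ T ∨ p ∈ T := by
    rcases o1 with h | h
    · exact Or.inl h.2
    · exact Or.inr h.2
  have hrs : r ∈ T ∨ s ∈ T := by
    rcases o2 with h | h
    · exact Or.inl h.2
    · exact Or.inr h.2
  by_cases hR2 : r ∈ T ∧ s ∈ T
  · exact key _ _ _ _ _ _ hb hx hy hqp hR2.1 hR2.2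
  by_cases hQ2 : q ∈ T ∧ p ∈ T
  · exact key _ _ _ _ _ _ hb.world hx hy hrs hQ2.1 hQ2.2
  by_cases hq : q ∈ T
  · have hp : p ∉ T := fun h => hQ2 ⟨hq, h⟩
    by_cases hr : r ∈ T
    · exact e2 hb ⟨hx, hy, hq, hr, hp, fun h => hR2 ⟨hr, h⟩⟩
    · exact e3 hb ⟨hx, hy, hq, hrs.resolve_left hr, hp, hr⟩
  · have hp : p ∈ T := hqp.resolve_left hq
    by_cases hs : s ∈ T
    · exact e2 hb.side ⟨hy, hx, hp, hs, hq, fun h => hR2 ⟨h, hs⟩⟩
    · exact e3 hb.side ⟨hy, hx, hp, hrs.resolve_right hs, hq, hs⟩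

/-- **the theorem on two conflicting short cycles, from the patterns** -/
theorem xf3_of_pat (hP : Pat3) (h5 : PtS5) (hts : PtTS) (htt : PtTT) : XfStatement3 :=
  xf3_of (s6_of_pat hP) h5 hts htt

end Pool.Agent.P34

end
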