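import Pool.Agent.PFN.M12
import Pool.Agent.PFN.M18

section -- file P34/Clu3

/-!
The clusters of a list of triangles and squares with the star condition, as a polynomial-time function `clusters3L`.
-/

set_option autoImplicit false
set_option linter.unusedSimpArgs false
set_option linter.unusedVariables false

namespace Pool.Agent.P34

open Finset Pool.Agent.TFC Pool.Agent.PF4 Pool.Agent.Lib.helper60

/-! ### one cluster -/

/-- the squares of the list -/
def sqL (D : List Sq4) : List Sq4 := D.filter fun q => !isT q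

/-- the triangles of the list -/
def trL (D : List Sq4) : List Sq4 := D.filter fun q => isT q

/-- the triangle `a b c` belongs to the list -/
def hasT (D : List Sq4) (a b c : ℕ) : Bool := D.any fun T => isT T && cyIn (cyE T) (a, b, c, a)

/-- the cluster with centres `x`, `y` and leaves `L` -/
def k2o (D : List Sq4) (x y : ℕ) (L : List ℕ) : Cl3 :=
  (bif L.any (fun l => hasT D x y l) then 2 else 1, x, y, L)

/-- the cluster of `Q` -/
def clOf3 (n : ℕ) (D : List Sq4) (Q : Sq4) : Cl3 :=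
  bif isT Q then (2, Q.1, Q.2.1, [Q.2.2.1])
  else bif (sqL D).any (fun R => sameV Q R && !eqS Q R) then (0, 0, 0, crn Q)
  else bif ptn (sqL D) Q.1 Q.2.2.1 Q then k2o D Q.1 Q.2.2.1 (lvs n (sqL D) Q.1 Q.2.2.1)
  else bif ptn (sqL D) Q.2.1 Q.2.2.2 Q then k2o D Q.2.1 Q.2.2.2 (lvs n (sqL D) Q.2.1 Q.2.2.2)
  else bif hasT D Q.2.1 Q.2.2.2 Q.1 || hasT D Q.2.1 Q.2.2.2 Q.2.2.1 then (2, Q.2.1, Q.2.2.2, [Q.1, Q.2.2.1])
  else k2o D Q.1 Q.2.2.1 [Q.2.1, Q.2.2.2]

/-- the family of the edge sets of the list -/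
def CF (D : List Sq4) : Finset (Finset (Sym2 ℕ)) := (D.map cys).toFinset

theorem mem_CF {D : List Sq4} {S : Finset (Sym2 ℕ)} : S ∈ CF D ↔ ∃ q ∈ D, cys q = S := by
  simp [CF]

theorem CF_sh {D : List Sq4} (hD : ∀ q ∈ D, CyOK q) : ∀ S ∈ CF D, IsSh S := by
  intro S hS
  obtain ⟨q, hq, rfl⟩ := mem_CF.1 hS
  exact (hD q hq).sh

theorem mem_sqL {D : List Sq4} {q : Sq4} : q ∈ sqL D ↔ q ∈ D ∧ isT q = false := by
  simp [sqL, List.mem_filter]

theorem ok_sq {q : Sq4} (h : CyOK q) (ht : isT q = false) : SqOK q := by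
  have h1 : q.2.2.2 ≠ q.1 := by
    intro h
    rw [isT_iff.2 h] at ht
    cases ht
  rcases h with ⟨h, _⟩ | h
  · exact absurd h h1
  · exact h

theorem cys_sqs {q : Sq4} (ht : isT q = false) : cys q = sqs q := by
  have h1 : q.2.2.2 ≠ q.1 := by
    intro h
    rw [isT_iff.2 h] at ht
    cases ht
  obtain ⟨a, b, c, d⟩ := q
  exact cys_sq h1

theorem ok_tri {q : Sq4} (h : CyOK q) (ht : isT q = true) :
    Dist3 q.1 q.2.1 q.2.2.1 ∧ cys q = tri q.1 q.2.1 q.2.2.1 := by
  have h1 := isT_iff.1 ht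
  obtain ⟨a, b, c, d⟩ := q
  simp only at h1
  subst h1
  rcases h with ⟨_, h⟩ | h
  · exact ⟨h, cys_tri _ _ _⟩
  · exact absurd rfl h.2.2.1

theorem isTri_of {q : Sq4} (h : CyOK q) (ht : isT q = true) : IsTri (cys q) := by
  obtain ⟨h1, h2⟩ := ok_tri h ht
  exact ⟨_, _, _, h1, h2⟩

theorem isSq_of {q : Sq4} (h : CyOK q) (ht : isT q = false) : IsSq (cys q) := by
  rw [cys_sqs ht]
  exact ⟨_, _, _, _, ok_sq h ht, rfl⟩

theorem SF_sqL {D : List Sq4} (hD : ∀ q ∈ D, CyOK q) (S : Finset (Sym2 ℕ)) :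
    S ∈ SF (sqL D) ↔ S ∈ CF D ∧ IsSq S := by
  rw [mem_SF, mem_CF]
  constructor
  · rintro ⟨q, hq, rfl⟩
    obtain ⟨h1, h2⟩ := mem_sqL.1 hq
    exact ⟨⟨q, h1, cys_sqs h2⟩, ⟨_, _, _, _, ok_sq (hD q h1) h2, rfl⟩⟩
  · rintro ⟨⟨q, hq, rfl⟩, hs⟩
    cases ht : isT q with
    | true => exact absurd hs fun h => tri_not_sq (isTri_of (hD q hq) ht) h
    | false => exact ⟨q, mem_sqL.2 ⟨hq, ht⟩, (cys_sqs ht).symm⟩

theorem hasT_iff {D : List Sq4} (hD : ∀ q ∈ D, CyOK q) {a b c : ℕ} (h : Dist3 a b c) :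
    hasT D a b c = true ↔ tri a b c ∈ CF D := by
  unfold hasT
  rw [List.any_eq_true, mem_CF]
  constructor
  · rintro ⟨T, hT, h1⟩
    rw [Bool.and_eq_true, cyIn_iff, fs_cyE, cys_tri] at h1
    refine ⟨T, hT, (Finset.eq_of_subset_of_card_le h1.2 ?_).symm⟩
    obtain ⟨h2, h3⟩ := ok_tri (hD T hT) h1.1
    rw [h3, card_tri h2, card_tri h]
  · rintro ⟨T, hT, h1⟩
    refine ⟨T, hT, ?_⟩
    rw [Bool.and_eq_true, cyIn_iff, fs_cyE, cys_tri, h1]
    refine ⟨?_, Finset.Subset.refl _⟩
    cases ht : isT T with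
    | true => rfl
    | false =>
      exfalso
      have := isSq_of (hD T hT) ht
      rw [h1] at this
      exact tri_not_sq ⟨_, _, _, h, rfl⟩ this

theorem SF_isSq' {D : List Sq4} (hD : ∀ q ∈ D, CyOK q) : ∀ q ∈ sqL D, SqOK q := by
  intro q hq
  obtain ⟨h1, h2⟩ := mem_sqL.1 hq
  exact ok_sq (hD q h1) h2

theorem sq_conf {D : List Sq4} (hD : ∀ q ∈ D, CyOK q) (hst : StarV (CF D)) :
    ∀ Q ∈ sqL D, ∀ R ∈ sqL D, conf Q R = false := by
  intro Q hQ R hR
  obtain ⟨h1, h2⟩ := mem_sqL.1 hQ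
  obtain ⟨h3, h4⟩ := mem_sqL.1 hR
  rw [← Bool.not_eq_true]
  intro h
  have h5 := (conf_iff (ok_sq (hD Q h1) h2)).1 h
  rw [← cys_sqs h2, ← cys_sqs h4] at h5
  by_cases he : cys Q = cys R
  · rw [he, inter_self, cys_sqs h4] at h5
    have := card_sqV (ok_sq (hD R h3) h4)
    have h6 : #(sqs R) = 4 := this
    omega
  · exact star_hc hst (mem_CF.2 ⟨Q, h1, rfl⟩) (mem_CF.2 ⟨R, h3, rfl⟩) (isSq_of (hD R h3) h4) he h5

/-- the cluster with given centres -/
theorem k2o_step {D : List Sq4} (hD : ∀ q ∈ D, CyOK q) {Q : Finset (Sym2 ℕ)} {x y : ℕ} {L : List ℕ}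
    (hL : ClOK (true, x, y, L))
    (h : ((∃ l ∈ L.toFinset, tri x y l ∈ CF D) → Step3Y (CF D) Q (.k11 x y L.toFinset)) ∧
      ((¬ ∃ l ∈ L.toFinset, tri x y l ∈ CF D) → Step3Y (CF D) Q (.k2 x y L.toFinset))) :
    Cl3OK (k2o D x y L) ∧ Step3Y (CF D) Q (cluF3 (k2o D x y L)) := by
  obtain ⟨hxy, hx, hy, h2⟩ := hL.k2 rfl
  have hn := hL.nd
  simp only at hxy hx hy h2 hn
  have key : L.any (fun l => hasT D x y l) = true ↔ ∃ l ∈ L.toFinset, tri x y l ∈ CF D := by
    rw [List.any_eq_true]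
    constructor
    · rintro ⟨l, hl, h1⟩
      exact ⟨l, by simpa using hl, (hasT_iff hD ⟨hxy, fun h => hx (h ▸ hl), fun h => hy (h ▸ hl)⟩).1 h1⟩
    · rintro ⟨l, hl, h1⟩
      have hl' : l ∈ L := by simpa using hl
      exact ⟨l, hl', (hasT_iff hD ⟨hxy, fun h => hx (h ▸ hl'), fun h => hy (h ▸ hl')⟩).2 h1⟩
  unfold k2o
  cases hc : L.any (fun l => hasT D x y l) with
  | true =>
    simp only [cond_true]
    refine ⟨⟨le_rfl, hn, fun _ => ⟨hxy, hx, hy, ?_⟩, by simp, by simp⟩, ?_⟩
    · simp only; omega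
    · simpa [cluF3] using h.1 (key.1 hc)
  | false =>
    simp only [cond_false]
    refine ⟨⟨by simp, hn, fun _ => ⟨hxy, hx, hy, ?_⟩, fun _ => h2, by simp⟩, ?_⟩
    · simp only; omega
    · have := h.2 fun hh => by
        rw [key.2 hh] at hc
        cases hc
      simpa [cluF3] using this

section
variable {n : ℕ} {D : List Sq4} (hD : ∀ q ∈ D, CyOK q) (hn : ∀ q ∈ D, ∀ v ∈ crn q, v < n)
  (hst : StarV (CF D))
include hD hn hst

theorem caseB3 {Q : Sq4} (hQ : Q ∈ sqL D) {x y : ℕ} (h : ptn (sqL D) x y Q = true) :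
    Cl3OK (k2o D x y (lvs n (sqL D) x y)) ∧ Step3Y (CF D) (cys Q) (cluF3 (k2o D x y (lvs n (sqL D) x y))) := by
  have hDS := SF_isSq' hD
  have hc := sq_conf hD hst
  obtain ⟨h1, h2⟩ := caseB (n := n) hDS (fun q hq => hn q (mem_sqL.1 hq).1) hc hQ h
  refine k2o_step hD h1 ?_
  have e : sqs Q = cys Q := (cys_sqs (mem_sqL.1 hQ).2).symm
  rw [e] at h2
  refine k2Y (CF_sh hD) hst (SF_sqL hD) h2 (starT hst ?_)
  intro l hl
  rw [List.mem_toFinset] at hl
  obtain ⟨_, S, hS, hp, hl'⟩ := mem_lvs.1 hl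
  obtain ⟨l', d, eS⟩ := (mem_lf (hDS S hS)).1 hl'
  have inD : ∀ R ∈ sqL D, sqs R ∈ CF D := fun R hR =>
    mem_CF.2 ⟨R, (mem_sqL.1 hR).1, cys_sqs (mem_sqL.1 hR).2⟩
  refine ⟨l', d, by rw [← eS]; exact inD S hS, ?_⟩
  obtain ⟨R, hR, hne, m, hm, hm'⟩ := ptn_iff.1 hp
  obtain ⟨m', d1, e1⟩ := (mem_lf (hDS S hS)).1 hm
  obtain ⟨m'', d2, e2⟩ := (mem_lf (hDS R hR)).1 hm'
  -- `m` is `l` or `l'`
  have hml : m = l ∨ m = l' := by
    have : s(x, m) ∈ TFC.sq x l y l' := by rw [← eS, e1]; simp [TFC.sq]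
    exact leaf_of this (Sym2.mem_mk_right _ _) d1.1.symm d1.2.2.2.1
  refine ⟨m, m', m'', ?_, d2, ?_, by rw [← e2]; exact inD R hR⟩
  · have h' : s(x, m') ∈ TFC.sq x l y l' := by
      rw [← eS, e1, TFC.sq, Sym2.eq_swap (a := x) (b := m')]; simp
    have hml' : m' = l ∨ m' = l' := leaf_of h' (Sym2.mem_mk_right _ _) d1.2.2.1.symm d1.2.2.2.2.2.symm
    have hne' : m ≠ m' := d1.2.2.2.2.1
    rcases hml with rfl | rfl <;> rcases hml' with rfl | rfl
    · exact absurd rfl hne'
    · exact Or.inl ⟨rfl, rfl⟩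
    · exact Or.inr ⟨rfl, rfl⟩
    · exact absurd rfl hne'
  · rintro rfl
    exact hne (e1.trans e2.symm)

theorem clOf3_sq {Q : Sq4} (hQ : Q ∈ D) (ht : isT Q = false) :
    Cl3OK (clOf3 n D Q) ∧ Step3Y (CF D) (cys Q) (cluF3 (clOf3 n D Q)) := by
  have hDS := SF_isSq' hD
  have hc := sq_conf hD hst
  have hQS : Q ∈ sqL D := mem_sqL.2 ⟨hQ, ht⟩
  have dQ := ok_sq (hD Q hQ) ht
  obtain ⟨h1, h2, h3, h4, h5, h6⟩ := id dQ
  obtain ⟨g1, g2⟩ := clOf_step (n := n) hDS (fun q hq => hn q (mem_sqL.1 hq).1) hc hQS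
  have eQ : sqs Q = cys Q := (cys_sqs ht).symm
  rw [eQ] at g2
  unfold clOf3
  unfold clOf at g1 g2
  rw [ht]
  simp only [cond_false]
  cases hA : (sqL D).any (fun R => sameV Q R && !eqS Q R) with
  | true =>
    rw [hA] at g1 g2
    simp only [cond_true] at g1 g2 ⊢
    refine ⟨⟨by simp, g1.nd, by simp, by simp, fun _ => g1.k4 rfl⟩, ?_⟩
    exact k4Y (CF_sh hD) hst (SF_sqL hD) g2
  | false =>
    rw [hA] at g1 g2
    simp only [cond_false] at g1 g2 ⊢
    cases hB : ptn (sqL D) Q.1 Q.2.2.1 Q with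
    | true => exact caseB3 hD hn hst hQS hB
    | false =>
      rw [hB] at g1 g2
      simp only [cond_false] at g1 g2 ⊢
      cases hB' : ptn (sqL D) Q.2.1 Q.2.2.2 Q with
      | true => exact caseB3 hD hn hst hQS hB'
      | false =>
        rw [hB'] at g1 g2
        simp only [cond_false] at g1 g2 ⊢
        have eS : cys Q = TFC.sq Q.1 Q.2.1 Q.2.2.1 Q.2.2.2 := cys_sqs ht
        have hQC : TFC.sq Q.1 Q.2.1 Q.2.2.1 Q.2.2.2 ∈ CF D := by rw [← eS]; exact mem_CF.2 ⟨Q, hQ, rfl⟩
        -- the square is isolated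
        have hiso : ∀ R ∈ CF D, IsSq R → R ≠ TFC.sq Q.1 Q.2.1 Q.2.2.1 Q.2.2.2 → ∀ e ∈ R,
            e ∉ TFC.sq Q.1 Q.2.1 Q.2.2.1 Q.2.2.2 := by
          intro R hR hs hne e he he'
          obtain ⟨D', a1, a2, a3, a4, a5, a6⟩ := g2
          have ek : (cluF (true, Q.1, Q.2.2.1, [Q.2.1, Q.2.2.2])).edges = TFC.sq Q.1 Q.2.1 Q.2.2.1 Q.2.2.2 := by
            have : cluF (true, Q.1, Q.2.2.1, [Q.2.1, Q.2.2.2]) = Clu.k2 Q.1 Q.2.2.1 {Q.2.1, Q.2.2.2} := by
              simp [cluF]
            rw [this, k2_sq]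
          rw [ek] at a4 a5 a6
          by_cases hRD : R ∈ D'
          · apply hne
            refine Finset.eq_of_subset_of_card_le (a4 R hRD) ?_
            obtain ⟨p, q, r, s, d, rfl⟩ := hs
            rw [card_sqV d, card_sqV dQ]
          · exact a6 R ((SF_sqL hD R).2 ⟨hR, hs⟩) hRD e he he'
        have d1 : Dist4 Q.2.1 Q.2.2.1 Q.2.2.2 Q.1 := ⟨h4, h5, h1.symm, h6, h2.symm, h3.symm⟩
        have r1 : TFC.sq Q.1 Q.2.1 Q.2.2.1 Q.2.2.2 = TFC.sq Q.2.1 Q.2.2.1 Q.2.2.2 Q.1 :=
          (Clus_rot ⟨dQ, rfl, rfl⟩).2.1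
        have t1 : Dist3 Q.2.1 Q.2.2.2 Q.1 := ⟨h5, h1.symm, h3.symm⟩
        have t2 : Dist3 Q.2.1 Q.2.2.2 Q.2.2.1 := ⟨h5, h4, h6.symm⟩
        cases hch : (hasT D Q.2.1 Q.2.2.2 Q.1 || hasT D Q.2.1 Q.2.2.2 Q.2.2.1) with
        | true =>
          simp only [cond_true]
          rw [Bool.or_eq_true, hasT_iff hD t1, hasT_iff hD t2] at hch
          have hno : ¬ (tri Q.1 Q.2.2.1 Q.2.1 ∈ CF D ∨ tri Q.1 Q.2.2.1 Q.2.2.2 ∈ CF D) := fun hh =>
            chords hst dQ hiso hh hch
          push Not at hno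
          have st := isoY (CF_sh hD) hst d1 (by rw [← r1]; exact hQC) (by rw [← r1]; exact hiso)
            (by rw [tri_ref]; exact hno.1) (by rw [tri_ref]; exact hno.2)
          refine ⟨⟨le_rfl, ?_, fun _ => ⟨h5, ?_, ?_, by simp⟩, by simp, by simp⟩, ?_⟩
          · simp [h2]
          · simp [h1.symm, h4]
          · simp [h3.symm, h6.symm]
          · have e : cluF3 (2, Q.2.1, Q.2.2.2, [Q.1, Q.2.2.1]) = Clu3.k11 Q.2.1 Q.2.2.2 {Q.2.2.1, Q.1} := by
              simp [cluF3, Finset.pair_comm]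
            rw [e, eS, r1]
            refine st.1 ?_
            rcases hch with hh | hh
            · exact ⟨_, by simp, hh⟩
            · exact ⟨_, by simp, hh⟩
        | false =>
          simp only [cond_false]
          rw [← Bool.not_eq_true, Bool.or_eq_true, hasT_iff hD t1, hasT_iff hD t2] at hch
          push Not at hch
          have st := isoY (CF_sh hD) hst dQ hQC hiso hch.1 hch.2
          rw [← eS] at st
          refine k2o_step hD g1 ?_
          have e : ([Q.2.1, Q.2.2.2] : List ℕ).toFinset = {Q.2.1, Q.2.2.2} := by simp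
          rw [e]
          exact st

end

theorem clOf3_tri {n : ℕ} {D : List Sq4} (hD : ∀ q ∈ D, CyOK q) (hst : StarV (CF D))
    (hT : ∀ q ∈ D, isT q = true) {Q : Sq4} (hQ : Q ∈ D) :
    Cl3OK (clOf3 n D Q) ∧ Step3Y (CF D) (cys Q) (cluF3 (clOf3 n D Q)) := by
  obtain ⟨⟨h1, h2, h3⟩, h4⟩ := ok_tri (hD Q hQ) (hT Q hQ)
  unfold clOf3
  rw [hT Q hQ]
  simp only [cond_true]
  refine ⟨⟨le_rfl, by simp, fun _ => ⟨h1, by simp [h2], by simp [h3], by simp⟩, by simp, by simp⟩, ?_⟩
  have e : cluF3 (2, Q.1, Q.2.1, [Q.2.2.1]) = Clu3.k11 Q.1 Q.2.1 {Q.2.2.1} := by simp [cluF3]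
  rw [e, h4]
  refine triY ?_ hst ⟨h1, h2, h3⟩ (by rw [← h4]; exact mem_CF.2 ⟨Q, hQ, rfl⟩)
  intro S hS
  obtain ⟨q, hq, rfl⟩ := mem_CF.1 hS
  exact isTri_of (hD q hq) (hT q hq)

/-! ### all clusters -/

/-- the members which are in no cluster of `out` -/
def remD3 (D : List Sq4) (out : List Cl3) : List Sq4 :=
  D.filter fun S => !out.any fun c => cyIn (clE3 c) S

/-- one step -/
def cstep3 (n : ℕ) (D : List Sq4) (out : List Cl3) (Q : Sq4) : List Cl3 :=
  bif out.any (fun c => cyIn (clE3 c) Q) then out else clOf3 n (remD3 D out) Q :: out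

/-- the clusters of the list `D` with corners less than `n`: first the squares, then the triangles -/
def clus3 (n : ℕ) (D : List Sq4) : List Cl3 := (sqL D ++ trL D).foldl (cstep3 n D) []

theorem mem_remD3 {D : List Sq4} {out : List Cl3} {S : Sq4} :
    S ∈ remD3 D out ↔ S ∈ D ∧ ∀ c ∈ out, ¬ cys S ⊆ fs (clE3 c) := by
  unfold remD3
  rw [List.mem_filter, Bool.not_eq_true', ← Bool.not_eq_true, List.any_eq_true]
  simp only [cyIn_iff, not_exists, not_and]

/-- the invariant of the loop: the members of `D1` are treated -/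
structure CInv3 (D D1 : List Sq4) (out : List Cl3) : Prop where
  ok : ∀ c ∈ out, Cl3OK c
  pw : out.Pairwise fun c c' => Disjoint (fs (clE3 c)) (fs (clE3 c'))
  sub : ∀ c ∈ out, ∀ e ∈ fs (clE3 c), ∃ Q ∈ D, e ∈ cys Q ∧ cys Q ⊆ fs (clE3 c)
  cov : ∀ Q ∈ D1, ∃ c ∈ out, cys Q ⊆ fs (clE3 c)
  dis : ∀ Q ∈ D, ∀ c ∈ out, cys Q ⊆ fs (clE3 c) ∨ Disjoint (cys Q) (fs (clE3 c))

theorem CInv3.star {D D1 : List Sq4} {out : List Cl3} (h : CInv3 D D1 out) (hst : StarV (CF D)) :
    StarV (CF (remD3 D out)) := by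
  intro Z hZ Z' hZ' hne h1
  obtain ⟨q, hq, rfl⟩ := mem_CF.1 hZ
  obtain ⟨q', hq', rfl⟩ := mem_CF.1 hZ'
  obtain ⟨g1, g2⟩ := mem_remD3.1 hq
  obtain ⟨g3, g4⟩ := mem_remD3.1 hq'
  obtain ⟨x, y, p, r, h4, e1, e2, hS⟩ := hst _ (mem_CF.2 ⟨q, g1, rfl⟩) _ (mem_CF.2 ⟨q', g3, rfl⟩) hne h1
  refine ⟨x, y, p, r, h4, e1, e2, ?_⟩
  obtain ⟨S, hSD, eS⟩ := mem_CF.1 hS
  refine mem_CF.2 ⟨S, mem_remD3.2 ⟨hSD, fun c hc hsub => ?_⟩, eS⟩
  rcases h.dis q g1 c hc with hh | hh
  · exact g2 c hc hh
  · refine disjoint_left.1 hh (show s(y, p) ∈ cys q by rw [e1]; simp [tri]) (hsub ?_)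
    rw [eS, Sym2.eq_swap]
    simp [TFC.sq]

theorem cstep3_inv {n : ℕ} {D D1 : List Sq4} (hD : ∀ q ∈ D, CyOK q) (hn : ∀ q ∈ D, ∀ v ∈ crn q, v < n)
    (hst : StarV (CF D)) {out : List Cl3} (h : CInv3 D D1 out) {Q : Sq4} (hQ : Q ∈ D)
    (hT : isT Q = true → ∀ S ∈ D, isT S = false → S ∈ D1) :
    CInv3 D (Q :: D1) (cstep3 n D out Q) := by
  unfold cstep3
  cases h1 : out.any (fun c => cyIn (clE3 c) Q) with
  | true =>
    simp only [cond_true]
    refine ⟨h.ok, h.pw, h.sub, ?_, h.dis⟩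
    intro R hR
    rcases List.mem_cons.1 hR with rfl | hR
    · obtain ⟨c, hc, h2⟩ := List.any_eq_true.1 h1
      exact ⟨c, hc, (cyIn_iff _ _).1 h2⟩
    · exact h.cov R hR
  | false =>
    simp only [cond_false]
    have hQr : Q ∈ remD3 D out := by
      rw [remD3, List.mem_filter, h1]
      exact ⟨hQ, rfl⟩
    have hs : ∀ q ∈ remD3 D out, q ∈ D := fun q hq => (mem_remD3.1 hq).1
    have hD' : ∀ q ∈ remD3 D out, CyOK q := fun q hq => hD q (hs q hq)
    have hst' := h.star hst
    have step : Cl3OK (clOf3 n (remD3 D out) Q) ∧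
        Step3Y (CF (remD3 D out)) (cys Q) (cluF3 (clOf3 n (remD3 D out) Q)) := by
      cases ht : isT Q with
      | true =>
        refine clOf3_tri hD' hst' ?_ hQr
        intro q hq
        cases hq' : isT q with
        | true => rfl
        | false =>
          exfalso
          obtain ⟨c, hc, h2⟩ := h.cov q (hT ht q (hs q hq) hq')
          exact (mem_remD3.1 hq).2 c hc h2
      | false => exact clOf3_sq hD' (fun q hq => hn q (hs q hq)) hst' hQr ht
    obtain ⟨k1, D', k2, k3, k4, k5, k6, k7⟩ := step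
    rw [← fs_clE3] at k5 k6 k7
    set c := clOf3 n (remD3 D out) Q with hcdef
    -- every edge of `c` is in a remaining member
    have k8 : ∀ e ∈ fs (clE3 c), ∃ R ∈ remD3 D out, e ∈ cys R ∧ cys R ⊆ fs (clE3 c) := by
      intro e he
      obtain ⟨S, hS, h2⟩ := mem_biUnion.1 (k6 he)
      obtain ⟨R, hR, rfl⟩ := mem_CF.1 (k2 hS)
      exact ⟨R, hR, h2, k5 _ hS⟩
    -- the remaining members are disjoint from the old clusters
    have k9 : ∀ R ∈ remD3 D out, ∀ c' ∈ out, Disjoint (cys R) (fs (clE3 c')) := by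
      intro R hR c' hc'
      obtain ⟨h2, h3⟩ := mem_remD3.1 hR
      rcases h.dis R h2 c' hc' with h4 | h4
      · exact absurd h4 (h3 c' hc')
      · exact h4
    have k10 : ∀ c' ∈ out, Disjoint (fs (clE3 c)) (fs (clE3 c')) := by
      intro c' hc'
      rw [disjoint_left]
      intro e he he'
      obtain ⟨R, hR, h2, _⟩ := k8 e he
      exact disjoint_left.1 (k9 R hR c' hc') h2 he'
    refine ⟨?_, ?_, ?_, ?_, ?_⟩
    · intro c' hc'
      rcases List.mem_cons.1 hc' with rfl | hc'
      · exact k1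
      · exact h.ok c' hc'
    · exact List.pairwise_cons.2 ⟨k10, h.pw⟩
    · intro c' hc'
      rcases List.mem_cons.1 hc' with rfl | hc'
      · intro e he
        obtain ⟨R, hR, h2, h3⟩ := k8 e he
        exact ⟨R, hs R hR, h2, h3⟩
      · exact h.sub c' hc'
    · intro R hR
      rcases List.mem_cons.1 hR with rfl | hR
      · exact ⟨c, List.mem_cons_self, k5 _ k3⟩
      · obtain ⟨c', hc', h2⟩ := h.cov R hR
        exact ⟨c', List.mem_cons_of_mem _ hc', h2⟩
    · intro R hR c' hc'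
      rcases List.mem_cons.1 hc' with rfl | hc'
      · by_cases h2 : R ∈ remD3 D out
        · by_cases h3 : cys R ∈ D'
          · exact Or.inl (k5 _ h3)
          · refine Or.inr ?_
            rw [disjoint_left]
            exact k7 _ (mem_CF.2 ⟨R, h2, rfl⟩) h3
        · -- in an old cluster
          have h3 : ∃ c' ∈ out, cys R ⊆ fs (clE3 c') := by
            by_contra hcon
            push Not at hcon
            exact h2 (mem_remD3.2 ⟨hR, hcon⟩)
          obtain ⟨c', hc', h4⟩ := h3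
          exact Or.inr ((k10 c' hc').symm.mono_left h4)
      · exact h.dis R hR c' hc'

theorem clus3_inv {n : ℕ} {D : List Sq4} (hD : ∀ q ∈ D, CyOK q) (hn : ∀ q ∈ D, ∀ v ∈ crn q, v < n)
    (hst : StarV (CF D)) : ∀ (l D1 : List Sq4) (out : List Cl3), CInv3 D D1 out →
    (∀ q ∈ l, q ∈ D) → ((∀ q ∈ l, isT q = false) ∨ ∀ S ∈ D, isT S = false → S ∈ D1) →
    CInv3 D (l.reverse ++ D1) (l.foldl (cstep3 n D) out) := by
  intro l
  induction l with
  | nil => intro D1 out h _ _; exact h
  | cons q l ih =>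
    intro D1 out h hl hT
    have h1 := ih (q :: D1) (cstep3 n D out q) (cstep3_inv hD hn hst h (hl q List.mem_cons_self) (by
        intro ht
        rcases hT with hT | hT
        · rw [hT q List.mem_cons_self] at ht
          cases ht
        · exact hT))
      (fun r hr => hl r (List.mem_cons_of_mem _ hr))
      (by
        rcases hT with hT | hT
        · exact Or.inl fun r hr => hT r (List.mem_cons_of_mem _ hr)
        · exact Or.inr fun S hS hs => List.mem_cons_of_mem _ (hT S hS hs))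
    rw [List.foldl_cons, List.reverse_cons, List.append_assoc]
    exact h1

/-- **Specification of `clus3`.** -/
theorem clus3_spec {n : ℕ} {D : List Sq4} (hD : ∀ q ∈ D, CyOK q) (hn : ∀ q ∈ D, ∀ v ∈ crn q, v < n)
    (hst : StarV (CF D)) :
    (∀ c ∈ clus3 n D, Cl3OK c) ∧
    ((clus3 n D).Pairwise fun c c' => Disjoint (fs (clE3 c)) (fs (clE3 c'))) ∧
    (∀ c ∈ clus3 n D, ∀ e ∈ fs (clE3 c), ∃ Q ∈ D, e ∈ cys Q ∧ cys Q ⊆ fs (clE3 c)) ∧
    (∀ Q ∈ D, ∃ c ∈ clus3 n D, cys Q ⊆ fs (clE3 c)) ∧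
    (∀ Q ∈ D, ∀ c ∈ clus3 n D, cys Q ⊆ fs (clE3 c) ∨ Disjoint (cys Q) (fs (clE3 c))) := by
  have h0 := clus3_inv hD hn hst (sqL D) [] [] ⟨by simp, List.Pairwise.nil, by simp, by simp, by simp⟩
    (fun q hq => (mem_sqL.1 hq).1) (Or.inl fun q hq => (mem_sqL.1 hq).2)
  have h := clus3_inv hD hn hst (trL D) _ _ h0 (fun q hq => (List.mem_filter.1 hq).1)
    (Or.inr fun S hS hs => by simpa using mem_sqL.2 ⟨hS, hs⟩)
  rw [← List.foldl_append] at h
  refine ⟨h.ok, h.pw, h.sub, ?_, h.dis⟩
  intro Q hQ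
  refine h.cov Q ?_
  cases ht : isT Q with
  | true =>
    refine List.mem_append_left _ (List.mem_reverse.2 ?_)
    rw [trL, List.mem_filter]
    exact ⟨hQ, ht⟩
  | false =>
    refine List.mem_append_right _ ?_
    simpa using mem_sqL.2 ⟨hQ, ht⟩

/-- **The clusters of a list of short cycles.** -/
def clusters3L (D : List Sq4) : List Cl3 := clus3 (bnd D) D

/-- **Specification of `clusters3L`.** -/
theorem clusters3L_spec {D : List Sq4} (hD : ∀ q ∈ D, CyOK q) (hst : StarV (CF D)) :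
    (∀ c ∈ clusters3L D, Cl3OK c) ∧
    ((clusters3L D).Pairwise fun c c' => Disjoint (fs (clE3 c)) (fs (clE3 c'))) ∧
    (∀ c ∈ clusters3L D, ∀ e ∈ fs (clE3 c), ∃ Q ∈ D, e ∈ cys Q ∧ cys Q ⊆ fs (clE3 c)) ∧
    (∀ Q ∈ D, ∃ c ∈ clusters3L D, cys Q ⊆ fs (clE3 c)) ∧
    (∀ Q ∈ D, ∀ c ∈ clusters3L D, cys Q ⊆ fs (clE3 c) ∨ Disjoint (cys Q) (fs (clE3 c))) :=
  clus3_spec hD (fun _ hq _ hv => lt_bnd hq hv) hst

/-- the list form of the star condition: the square around the common edge of two triangles is in the list -/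
theorem starV_of {D : List Sq4} (hD : ∀ q ∈ D, CyOK q)
    (h : ∀ Q ∈ D, ∀ R ∈ D, conf3 Q R = true → isT Q = true ∧ isT R = true ∧
      ∃ S ∈ D, cys S = (cys Q ∪ cys R) \ (cys Q ∩ cys R)) : StarV (CF D) := by
  intro Z hZ Z' hZ' hne h1
  obtain ⟨Q, hQ, rfl⟩ := mem_CF.1 hZ
  obtain ⟨R, hR, rfl⟩ := mem_CF.1 hZ'
  have hc : conf3 Q R = true := by
    rw [conf3, com3_eq (hD Q hQ), h1]
    rfl
  obtain ⟨t1, t2, S, hS, eS⟩ := h Q hQ R hR hc
  obtain ⟨e, he⟩ := card_eq_one.1 h1
  have hm : e ∈ cys Q ∩ cys R := by rw [he]; exact mem_singleton_self _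
  rw [mem_inter] at hm
  induction e using Sym2.ind with
  | _ x y =>
    obtain ⟨p, ⟨h1, h2, h3⟩, e1⟩ := isTri_first (isTri_of (hD Q hQ) t1) hm.1
    obtain ⟨r, ⟨_, h4, h5⟩, e2⟩ := isTri_first (isTri_of (hD R hR) t2) hm.2
    have hpr : p ≠ r := by
      rintro rfl
      exact hne (e1.trans e2.symm)
    refine ⟨x, y, p, r, ⟨h1, h2, h4, h3, h5, hpr⟩, e1, e2, mem_CF.2 ⟨S, hS, ?_⟩⟩
    rw [eS, he, e1, e2]
    ext f
    simp only [tri, TFC.sq, mem_sdiff, mem_union, mem_insert, mem_singleton]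
    have a1 : s(y, p) ≠ s(x, y) := by rw [Ne, Sym2.eq_iff]; tauto
    have a2 : s(p, x) ≠ s(x, y) := by rw [Ne, Sym2.eq_iff]; tauto
    have a3 : s(y, r) ≠ s(x, y) := by rw [Ne, Sym2.eq_iff]; tauto
    have a4 : s(r, x) ≠ s(x, y) := by rw [Ne, Sym2.eq_iff]; tauto
    rw [Sym2.eq_swap (a := x) (b := p), Sym2.eq_swap (a := p) (b := y)]
    constructor
    · rintro ⟨(rfl | rfl | rfl) | (rfl | rfl | rfl), g⟩ <;> simp_all
    · rintro (rfl | rfl | rfl | rfl)
      · exact ⟨by simp, a2⟩
      · exact ⟨by simp, a1⟩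
      · exact ⟨by simp, a3⟩
      · exact ⟨by simp, a4⟩

/-! ### polynomial time -/

section
variable {ι : Type} [DEnc ι]

theorem pt_sqL {D : ι → List Sq4} (hD : PT D) : PT (fun x => sqL (D x)) :=
  PT.filter hD (p := fun y : ι × Sq4 => !isT y.2) (PT.bnot (pt_isT PT.snd))

theorem pt_trL {D : ι → List Sq4} (hD : PT D) : PT (fun x => trL (D x)) :=
  PT.filter hD (p := fun y : ι × Sq4 => isT y.2) (pt_isT PT.snd)

theorem pt_hasT {D : ι → List Sq4} {a b c : ι → ℕ} (hD : PT D) (ha : PT a) (hb : PT b) (hc : PT c) :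
    PT (fun x => hasT (D x) (a x) (b x) (c x)) :=
  PT.any hD (p := fun y : ι × Sq4 => isT y.2 && cyIn (cyE y.2) (a y.1, b y.1, c y.1, a y.1))
    (PT.band (pt_isT PT.snd) (pt_cyIn (pt_cyE PT.snd) (PT.pair (ha.comp PT.fst) (PT.pair (hb.comp PT.fst)
      (PT.pair (hc.comp PT.fst) (ha.comp PT.fst))))))

theorem pt_k2o {D : ι → List Sq4} {a b : ι → ℕ} {L : ι → List ℕ} (hD : PT D) (ha : PT a) (hb : PT b)
    (hL : PT L) : PT (fun x => k2o (D x) (a x) (b x) (L x)) :=
  PT.pair (PT.cond (PT.any hL (p := fun y : ι × ℕ => hasT (D y.1) (a y.1) (b y.1) y.2)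
    (pt_hasT (hD.comp PT.fst) (ha.comp PT.fst) (hb.comp PT.fst) PT.snd)) (PT.const 2) (PT.const 1))
    (PT.pair ha (PT.pair hb hL))

theorem pt_clOf3 {n : ι → ℕ} {D : ι → List Sq4} {Q : ι → Sq4} (hn : PT n) (hD : PT D) (hQ : PT Q) :
    PT (fun x => clOf3 (n x) (D x) (Q x)) := by
  have h1 := PT.p1 hQ
  have h2 := PT.p1 (PT.p2 hQ)
  have h3 := PT.p1 (PT.p2 (PT.p2 hQ))
  have h4 := PT.p2 (PT.p2 (PT.p2 hQ))
  have hS := pt_sqL hD
  refine PT.cond (pt_isT hQ) (PT.pair (PT.const 2) (PT.pair h1 (PT.pair h2 (PT.cons h3 (PT.const []))))) ?_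
  refine PT.cond ?_ (PT.pair (PT.const 0) (PT.pair (PT.const 0) (PT.pair (PT.const 0) (pt_crn hQ))))
    (PT.cond (pt_ptn hS h1 h3 hQ) (pt_k2o hD h1 h3 (pt_lvs hn hS h1 h3))
      (PT.cond (pt_ptn hS h2 h4 hQ) (pt_k2o hD h2 h4 (pt_lvs hn hS h2 h4))
        (PT.cond (PT.bor (pt_hasT hD h2 h4 h1) (pt_hasT hD h2 h4 h3))
          (PT.pair (PT.const 2) (PT.pair h2 (PT.pair h4 (PT.cons h1 (PT.cons h3 (PT.const []))))))
          (pt_k2o hD h1 h3 (PT.cons h2 (PT.cons h4 (PT.const [])))))))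
  exact PT.any hS (p := fun y : ι × Sq4 => sameV (Q y.1) y.2 && !eqS (Q y.1) y.2)
    (PT.band (pt_sameV (hQ.comp PT.fst) PT.snd) (PT.bnot (pt_eqS (hQ.comp PT.fst) PT.snd)))

theorem pt_remD3 {D : ι → List Sq4} {out : ι → List Cl3} (hD : PT D) (ho : PT out) :
    PT (fun x => remD3 (D x) (out x)) :=
  PT.filter hD (p := fun y : ι × Sq4 => !(out y.1).any fun c => cyIn (clE3 c) y.2)
    (PT.bnot (PT.any (ho.comp PT.fst) (p := fun z : (ι × Sq4) × Cl3 => cyIn (clE3 z.2) z.1.2)
      (pt_cyIn (pt_clE3 PT.snd) (PT.snd.comp PT.fst))))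

theorem pt_cstep3 {n : ι → ℕ} {D : ι → List Sq4} {out : ι → List Cl3} {Q : ι → Sq4} (hn : PT n)
    (hD : PT D) (ho : PT out) (hQ : PT Q) : PT (fun x => cstep3 (n x) (D x) (out x) (Q x)) :=
  PT.cond (PT.any ho (p := fun z : ι × Cl3 => cyIn (clE3 z.2) (Q z.1)) (pt_cyIn (pt_clE3 PT.snd) (hQ.comp PT.fst)))
    ho (PT.cons (pt_clOf3 hn (pt_remD3 hD ho) hQ) ho)

theorem pt_clus3 {n : ι → ℕ} {D : ι → List Sq4} (hn : PT n) (hD : PT D) :
    PT (fun x => clus3 (n x) (D x)) := by
  -- size of one cluster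
  have hcl : PT (fun y : ℕ × List Sq4 × Sq4 => clOf3 y.1 y.2.1 y.2.2) :=
    pt_clOf3 PT.fst PT.snd.p1 PT.snd.p2
  obtain ⟨P, hP⟩ := hcl.size
  have hL : PT (fun x => sqL (D x) ++ trL (D x)) := PT.append (pt_sqL hD) (pt_trL hD)
  let K : ι → ℕ := fun x => P.eval (tsize (n x) + (tsize (D x) + tsize (D x) + 1) + 1)
  have hK : PB K := by
    have h1 : PB (fun x => tsize (n x) + (tsize (D x) + tsize (D x) + 1) + 1) :=
      ((hn.size.add ((hD.size.add hD.size).add (PB.const 1))).add (PB.const 1))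
    obtain ⟨Q, hQ⟩ := h1
    exact ⟨P.comp Q, fun a => by rw [Polynomial.eval_comp]; exact evalMono P (hQ a)⟩
  have hsz : ∀ (x : ι) (out : List Cl3) (l : List Sq4), (∀ q ∈ l, q ∈ D x) →
      tsize (l.foldl (cstep3 (n x) (D x)) out) ≤ tsize out + l.length * (K x + 1) := by
    intro x out l
    induction l generalizing out with
    | nil => intro _; simp
    | cons q l ih =>
      intro hl
      have h1 := ih (cstep3 (n x) (D x) out q) (fun r hr => hl r (List.mem_cons_of_mem _ hr))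
      have h2 : tsize (cstep3 (n x) (D x) out q) ≤ tsize out + (K x + 1) := by
        unfold cstep3
        cases out.any (fun c => cyIn (clE3 c) q) with
        | true => simp only [cond_true]; omega
        | false =>
          simp only [cond_false, tsize_cons]
          have h3 := hP (n x, remD3 (D x) out, q)
          have h4 : tsize (n x, remD3 (D x) out, q) ≤ tsize (n x) + (tsize (D x) + tsize (D x) + 1) + 1 := by
            have h5 := tsize_filter_le (D x) fun S => !out.any fun c => cyIn (clE3 c) S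
            have h6 := tsize_mem_lt (hl q List.mem_cons_self)
            have h7 : tsize (remD3 (D x) out) ≤ tsize (D x) := h5
            simp only [tsize_pair]
            omega
          have h5 := h3.trans (evalMono P h4)
          have h6 : tsize (clOf3 (n x) (remD3 (D x) out) q) ≤ K x := h5
          omega
      have e : (q :: l).length * (K x + 1) = l.length * (K x + 1) + (K x + 1) := by
        rw [List.length_cons]; ring
      rw [List.foldl_cons, e]
      omega
  refine PT.foldl (g := fun z : ι × List Cl3 × Sq4 => cstep3 (n z.1) (D z.1) z.2.1 z.2.2) hL (PT.const [])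
    (pt_cstep3 (hn.comp PT.fst) (hD.comp PT.fst) PT.snd.p1 PT.snd.p2)
    ⟨fun x => tsize ([] : List Cl3) + tsize (sqL (D x) ++ trL (D x)) * (K x + 1),
      (PB.const _).add (hL.size.mul (hK.add (PB.const 1))), ?_⟩
  intro x l₁ l₂ h
  have h1 := hsz x [] l₁ (fun q hq => by
    have : q ∈ sqL (D x) ++ trL (D x) := by rw [← h]; exact List.mem_append_left _ hq
    rcases List.mem_append.1 this with h' | h'
    · exact (List.mem_filter.1 h').1
    · exact (List.mem_filter.1 h').1)
  refine h1.trans ?_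
  have h2 : l₁.length ≤ tsize (sqL (D x) ++ trL (D x)) := by
    have := length_lt_tsize (sqL (D x) ++ trL (D x))
    rw [← h] at this ⊢
    simp only [List.length_append] at this
    omega
  have := Nat.mul_le_mul_right (K x + 1) h2
  beta_reduce
  omega

theorem pt_clusters3L {D : ι → List Sq4} (hD : PT D) : PT (fun x => clusters3L (D x)) := pt_clus3 (pt_bnd hD) hD

end

end Pool.Agent.P34

end

section -- file P34/Def34

/-!
# 2F({3,4}): the language, and the parsing of the input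

`inP_of34`: if `dec n E` decides, in polynomial time, whether the graph with the vertices `0, ..., n - 1` and the edges
`E` (pairs `(u, v)` with `u < v < n`, without repetition) has a 2-factor without cycles of length 3 and 4, then 2F({3,4}) is
in P.
-/

set_option autoImplicit false
set_option linter.unusedSimpArgs false

namespace Pool.Agent.P34

open TF4 Pool.Agent.PF4 Pool.Agent.Lib.helper60

/-- `F` is a 2-factor of `G` without cycles of length 3 and without cycles of length 4 -/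
structure IsFac34 {V : Type} (G F : SimpleGraph V) : Prop where
  le : F ≤ G
  two : ∀ v, {u | F.Adj v u}.ncard = 2
  free3 : ∀ a b c, F.Adj a b → F.Adj b c → F.Adj c a → False
  free4 : ∀ a b c d, F.Adj a b → F.Adj b c → F.Adj c d → F.Adj d a → a = c ∨ b = d

/-- 2F({3,4}) as a language: adjacency matrices of the graphs with a 2-factor all of whose cycles have length at least 5 -/
def TwoF34 : Set (List Bool) :=
  {w | ∃ (n : ℕ) (G : SimpleGraph (Fin n)), w = code G ∧ ∃ F, IsFac34 G F}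

theorem code34_iff (w : List Bool) : w ∈ TwoF34 ↔
    matB (side w) w = true ∧ ∃ F, IsFac34 (gr (side w) w) F := by
  constructor
  · rintro ⟨n, G, rfl, F, hF⟩
    obtain ⟨h1, h2⟩ := matB_code G
    rw [side_eq h1]
    refine ⟨h1, ?_⟩
    rw [h2]
    exact ⟨F, hF⟩
  · rintro ⟨h1, F, hF⟩
    exact ⟨side w, gr (side w) w, (code_gr h1).symm, F, hF⟩

/-- **The frame of the polynomial algorithm.** -/
theorem inP_of34 {dec : ℕ → List (ℕ × ℕ) → Bool} (hpt : PT (fun x : ℕ × List (ℕ × ℕ) => dec x.1 x.2))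
    (h : ∀ (n : ℕ) (G : SimpleGraph (Fin n)) (E : List (ℕ × ℕ)), E.Nodup → (∀ e ∈ E, e.1 < e.2 ∧ e.2 < n) →
      (∀ u v : Fin n, u < v → (G.Adj u v ↔ (u.val, v.val) ∈ E)) → (dec n E = true ↔ ∃ F, IsFac34 G F)) :
    InP TwoF34 := by
  refine ⟨fun w => matB (side w) w && dec (side w) (edg (side w) w), ?_, ?_⟩
  · refine PT.decider (F := fun w => matB (side w) w && dec (side w) (edg (side w) w)) ?_ (fun _ => rfl)
    refine PT.band (pt_matB (pt_side PT.id) PT.id) ?_
    exact hpt.comp (PT.pair (pt_side PT.id) (pt_edg (pt_side PT.id) PT.id))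
  · intro w
    rw [code34_iff, Bool.and_eq_true]
    refine and_congr_right fun hw => ?_
    rw [h (side w) (gr (side w) w) _ (nodup_edg _ _)]
    · rintro ⟨u, v⟩ he
      obtain ⟨h1, h2, _⟩ := mem_edg.1 he
      exact ⟨h1, h2⟩
    · intro u v huv
      rw [mem_edg]
      simp only [matB, Bool.and_eq_true, decide_eq_true_eq, List.all_eq_true, List.mem_range,
        Bool.not_eq_true'] at hw
      constructor
      · intro hadj
        exact ⟨huv, v.2, hadj.1⟩
      · rintro ⟨_, _, h3⟩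
        refine ⟨h3, ?_, ne_of_lt huv⟩
        rw [← (hw.2 u.val u.2).2 v.val v.2]
        exact h3

end Pool.Agent.P34

end

section -- file P34/Inner3

/-!
# The inner loop, dead-list form, for short cycles (triangles and squares)

The family for which the solver is called: a maximal conflict-free family of squares which are not dead, then greedily the
triangles which are not dead and which are in conflict only with triangles, the union square being in the family. A cycle `Z` of a
clause which is not dead is in conflict with a member `R` of the family: one of them is a square, or the union square is dead.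
-/

set_option autoImplicit false
set_option linter.unusedSectionVars false

namespace Pool.Agent.P34

open Pool.Agent.PF4 Pool.Agent.Lib.helper60

section grt

variable {κ : Type} [DecidableEq κ]

/-- one step of the greedy selection of triangles -/
def grts (conf : κ → κ → Bool) (tri : κ → Bool) (us : κ → κ → κ) (D : List κ) (q : κ) : List κ :=
  bif D.all (fun R => !conf q R || (tri R && D.any (fun S => decide (S = us q R)))) then q :: D else D

/-- the structure of the family of the solver -/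
def StarL (conf : κ → κ → Bool) (tri : κ → Bool) (us : κ → κ → κ) (D : List κ) : Prop :=
  ∀ q ∈ D, ∀ r ∈ D, conf q r = true → tri q = true ∧ tri r = true ∧ us q r ∈ D

theorem grt_aux (conf : κ → κ → Bool) (tri : κ → Bool) (us : κ → κ → κ) (S : κ → Prop)
    (hself : ∀ q, S q → conf q q = false)
    (hsymm : ∀ q r, S q → S r → conf q r = conf r q)
    (usymm : ∀ q r, us q r = us r q)
    (ust : ∀ q r, S q → S r → tri q = true → tri r = true → conf q r = true → tri (us q r) = false) :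
    ∀ (l D : List κ), l.Nodup → D.Nodup → (∀ q ∈ l, S q ∧ tri q = true) → (∀ q ∈ D, S q) →
    (∀ q ∈ l, q ∉ D) → StarL conf tri us D →
    (l.foldl (grts conf tri us) D).Nodup ∧ (∀ q ∈ D, q ∈ l.foldl (grts conf tri us) D) ∧
    (∀ q ∈ l.foldl (grts conf tri us) D, q ∈ D ∨ q ∈ l) ∧
    StarL conf tri us (l.foldl (grts conf tri us) D) ∧
    (∀ q ∈ l, q ∈ l.foldl (grts conf tri us) D ∨ ∃ r ∈ l.foldl (grts conf tri us) D, conf q r = true ∧
      (tri r = false ∨ us q r ∉ l.foldl (grts conf tri us) D)) := by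
  intro l
  induction l with
  | nil =>
    intro D _ hD _ _ _ hf
    exact ⟨hD, fun q hq => hq, fun q hq => Or.inl hq, hf, fun q hq => by simp at hq⟩
  | cons a l ih =>
    intro D hl hD hSl hSD hdis hf
    rw [List.foldl_cons]
    obtain ⟨hal, hl'⟩ := List.nodup_cons.1 hl
    have hSa := hSl a List.mem_cons_self
    cases hc : D.all (fun R => !conf a R || (tri R && D.any (fun S => decide (S = us a R)))) with
    | false =>
      have e : grts conf tri us D a = D := by unfold grts; rw [hc]; rfl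
      rw [e]
      obtain ⟨i1, i2, i3, i4, i5⟩ := ih D hl' hD (fun q hq => hSl q (List.mem_cons_of_mem _ hq)) hSD
        (fun q hq => hdis q (List.mem_cons_of_mem _ hq)) hf
      refine ⟨i1, i2, fun q hq => (i3 q hq).imp_right (List.mem_cons_of_mem _), i4, ?_⟩
      intro q hq
      rcases List.mem_cons.1 hq with rfl | hq
      · rw [List.all_eq_false] at hc
        obtain ⟨r, hr, hr2⟩ := hc
        rw [Bool.not_eq_true, Bool.or_eq_false_iff, Bool.not_eq_false', Bool.and_eq_false_iff] at hr2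
        obtain ⟨hr3, hr4⟩ := hr2
        refine Or.inr ⟨r, i2 r hr, hr3, ?_⟩
        by_cases ht : tri r = false
        · exact Or.inl ht
        · right
          rw [Bool.not_eq_false] at ht
          intro hin
          rcases hr4 with h | h
          · rw [ht] at h; simp at h
          · rcases i3 _ hin with h1 | h1
            · rw [List.any_eq_false] at h
              exact h _ h1 (by simp)
            · have h2 := (hSl _ (List.mem_cons_of_mem _ h1)).2
              rw [ust q r hSa.1 (hSD r hr) hSa.2 ht hr3] at h2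
              simp at h2
      · exact i5 q hq
    | true =>
      have e : grts conf tri us D a = a :: D := by unfold grts; rw [hc]; rfl
      rw [e]
      have hc' : ∀ r ∈ D, conf a r = true → tri r = true ∧ us a r ∈ D := by
        intro r hr hcr
        rw [List.all_eq_true] at hc
        have := hc r hr
        rw [hcr, Bool.not_true, Bool.false_or, Bool.and_eq_true, List.any_eq_true] at this
        obtain ⟨h1, s, h2, h3⟩ := this
        rw [decide_eq_true_eq] at h3
        exact ⟨h1, h3 ▸ h2⟩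
      obtain ⟨i1, i2, i3, i4, i5⟩ := ih (a :: D) hl'
        (List.nodup_cons.2 ⟨hdis a List.mem_cons_self, hD⟩)
        (fun q hq => hSl q (List.mem_cons_of_mem _ hq))
        (fun q hq => by
          rcases List.mem_cons.1 hq with rfl | hq
          · exact hSa.1
          · exact hSD q hq)
        (fun q hq h => by
          rcases List.mem_cons.1 h with rfl | h
          · exact hal hq
          · exact hdis q (List.mem_cons_of_mem _ hq) h)
        (by
          intro q hq r hr hqr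
          rcases List.mem_cons.1 hq with e1 | h1 <;> rcases List.mem_cons.1 hr with e2 | h2
          · rw [e1, e2, hself a hSa.1] at hqr; simp at hqr
          · rw [e1] at hqr ⊢
            obtain ⟨k1, k2⟩ := hc' r h2 hqr
            exact ⟨hSa.2, k1, List.mem_cons_of_mem _ k2⟩
          · rw [e2] at hqr ⊢
            rw [hsymm q a (hSD q h1) hSa.1] at hqr
            obtain ⟨k1, k2⟩ := hc' q h1 hqr
            refine ⟨k1, hSa.2, List.mem_cons_of_mem _ ?_⟩
            rw [usymm]; exact k2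
          · obtain ⟨k1, k2, k3⟩ := hf q h1 r h2 hqr
            exact ⟨k1, k2, List.mem_cons_of_mem _ k3⟩)
      refine ⟨i1, fun q hq => i2 q (List.mem_cons_of_mem _ hq), ?_, i4, ?_⟩
      · intro q hq
        rcases i3 q hq with h | h
        · rcases List.mem_cons.1 h with rfl | h
          · exact Or.inr List.mem_cons_self
          · exact Or.inl h
        · exact Or.inr (List.mem_cons_of_mem _ h)
      · intro q hq
        rcases List.mem_cons.1 hq with rfl | hq
        · exact Or.inl (i2 q List.mem_cons_self)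
        · exact i5 q hq

theorem grt_size [DEnc κ] (conf : κ → κ → Bool) (tri : κ → Bool) (us : κ → κ → κ) : ∀ (l D : List κ),
    tsize (l.foldl (grts conf tri us) D) ≤ tsize D + tsize l := by
  intro l
  induction l with
  | nil => intro D; simp
  | cons a l ih =>
    intro D
    rw [List.foldl_cons]
    refine (ih _).trans ?_
    unfold grts
    cases D.all (fun R => !conf a R || (tri R && D.any (fun S => decide (S = us a R)))) with
    | true => simp only [cond_true, tsize_cons]; omega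
    | false => simp only [cond_false, tsize_cons]; omega

end grt

/-- the interface of the inner loop in dead-list form -/
structure In3Api (ι O κ : Type) [DEnc ι] [DEnc O] [DEnc κ] [DecidableEq κ] where
  /-- number of vertices -/
  nv : ι → ℕ
  /-- degree of a vertex in an object -/
  deg : ι → O → ℕ → ℕ
  /-- 2-matchings -/
  m2 : ι → O → Prop
  /-- well-formed instances -/
  wf : ι → Prop
  /-- the list of the short cycles -/
  sqs : ι → List κ
  /-- the cycle is contained in the object -/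
  has : ι → O → κ → Bool
  /-- the cycle is harmful -/
  opp : ι → List ℕ → κ → Bool
  /-- the two cycles share exactly one edge -/
  conf : κ → κ → Bool
  /-- the cycle is a triangle -/
  tri : κ → Bool
  /-- the union square of two triangles -/
  us : ι → κ → κ → κ
  /-- the empty object -/
  emp : O
  /-- a dummy cycle -/
  k0 : κ
  /-- `exch (x, M, L, v)`: the two-step exchange from `M` towards `L` with first step `+ e_v` -/
  exch : ι × O × O × ℕ → O
  /-- `solver (x, g, W, DD)` -/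
  solver : ι × List ℕ × List (ℕ × O) × List κ → Bool × O
  /-- `xf1 (x, g, W, N, Q, R)` -/
  xf1 : ι × List ℕ × List (ℕ × O) × O × κ × κ → Bool × O
  /-- `brk (x, g, N)` -/
  brk : ι × List ℕ × O → O
  /-- bound of the sizes of the objects -/
  B : ι → ℕ
  pt_nv : PT nv
  pt_deg : PT (fun y : ι × O × ℕ => deg y.1 y.2.1 y.2.2)
  pt_sqs : PT sqs
  pt_has : PT (fun y : ι × O × κ => has y.1 y.2.1 y.2.2)
  pt_opp : PT (fun y : ι × List ℕ × κ => opp y.1 y.2.1 y.2.2)
  pt_conf : PT (fun y : κ × κ => conf y.1 y.2)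
  pt_tri : PT tri
  pt_us : PT (fun y : ι × κ × κ => us y.1 y.2.1 y.2.2)
  pt_eq : PT (fun y : κ × κ => decide (y.1 = y.2))
  pt_exch : PT exch
  pt_solver : PT solver
  pt_xf1 : PT xf1
  pt_brk : PT brk
  pb : PB B
  size_exch : ∀ y, tsize (exch y) ≤ B y.1
  size_solver : ∀ y, tsize (solver y).2 ≤ B y.1
  size_xf1 : ∀ y, tsize (xf1 y).2 ≤ B y.1
  sqs_nodup : ∀ x, wf x → (sqs x).Nodup
  conf_self : ∀ x Q, wf x → Q ∈ sqs x → conf Q Q = false
  conf_symm : ∀ x Q R, wf x → Q ∈ sqs x → R ∈ sqs x → conf Q R = conf R Q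
  us_symm : ∀ x Q R, us x Q R = us x R Q
  us_spec : ∀ x g Q R, wf x → Q ∈ sqs x → R ∈ sqs x → tri Q = true → tri R = true → conf Q R = true →
    opp x g Q = true → opp x g R = true →
    us x Q R ∈ sqs x ∧ tri (us x Q R) = false ∧ opp x g (us x Q R) = true
  us_cross : ∀ x Q R S, wf x → Q ∈ sqs x → R ∈ sqs x → S ∈ sqs x → tri Q = true → tri R = true →
    conf Q R = true → conf (us x Q R) S = true → conf R S = false → conf Q S = true
  emp_valid : ∀ x, wf x → m2 x emp ∧ ∀ Q ∈ sqs x, has x emp Q = false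
  exch_spec : ∀ x M L v, wf x → (m2 x M ∧ ∀ Q ∈ sqs x, has x M Q = false) →
    (m2 x L ∧ ∀ Q ∈ sqs x, has x L Q = false) → v < nv x → deg x M v < deg x L v →
    (m2 x (exch (x, M, L, v)) ∧ ∀ Q ∈ sqs x, has x (exch (x, M, L, v)) Q = false) ∧
      ((∀ u < nv x, deg x M u + (if u = v then 1 else 0) ≤ deg x (exch (x, M, L, v)) u) ∨
        ∃ j < nv x, j ≠ v ∧ deg x L j < deg x M j ∧ ∀ u < nv x,
          deg x M u + (if u = v then 1 else 0) =
            deg x (exch (x, M, L, v)) u + (if u = j then 1 else 0))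
  solver_spec : ∀ x g W v DD, wf x →
    Dat nv deg (fun x M => m2 x M ∧ ∀ Q ∈ sqs x, has x M Q = false) x g W v →
    (∀ u < nv x, g.getD u 0 = 0 ∨ g.getD u 0 = 2) →
    DD.Nodup → (∀ Q ∈ DD, Q ∈ sqs x ∧ opp x g Q = true) →
    StarL conf tri (us x) DD →
    ((solver (x, g, W, DD)).1 = true →
      m2 x (solver (x, g, W, DD)).2 ∧ Cov (nv x) g (deg x (solver (x, g, W, DD)).2) ∧
      ∀ Q ∈ DD, has x (solver (x, g, W, DD)).2 Q = false) ∧
    ((solver (x, g, W, DD)).1 = false →
      ¬ ∃ L, (m2 x L ∧ ∀ Q ∈ sqs x, has x L Q = false) ∧ Cov (nv x) g (deg x L))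
  xf1_spec : ∀ x g W v N Q R, wf x →
    Dat nv deg (fun x M => m2 x M ∧ ∀ Q ∈ sqs x, has x M Q = false) x g W v →
    (∀ u < nv x, g.getD u 0 = 0 ∨ g.getD u 0 = 2) →
    m2 x N → Cov (nv x) g (deg x N) →
    Q ∈ (sqs x).filter (fun Q => opp x g Q && has x N Q) →
    R ∈ sqs x → opp x g R = true → conf Q R = true →
    (xf1 (x, g, W, N, Q, R)).1 = true →
    m2 x (xf1 (x, g, W, N, Q, R)).2 ∧ Cov (nv x) g (deg x (xf1 (x, g, W, N, Q, R)).2) ∧
      ∀ Z ∈ (sqs x).filter (fun Q' => opp x g Q' && has x (xf1 (x, g, W, N, Q, R)).2 Q'),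
          (Z ∈ (sqs x).filter (fun Q => opp x g Q && has x N Q) ∧ Z ≠ Q) ∨
            (tri Q = true ∧ tri R = true ∧ Z = us x Q R)
  xf1_alt : ∀ x g W v F N Q R, wf x →
    Dat nv deg (fun x M => m2 x M ∧ ∀ Q ∈ sqs x, has x M Q = false) x g W v →
    (∀ u < nv x, g.getD u 0 = 0 ∨ g.getD u 0 = 2) →
    m2 x F → Cov (nv x) g (deg x F) → m2 x N → Cov (nv x) g (deg x N) →
    Q ∈ (sqs x).filter (fun Q => opp x g Q && has x F Q) →
    R ∈ (sqs x).filter (fun Q => opp x g Q && has x N Q) → conf Q R = true →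
    (xf1 (x, g, W, F, Q, R)).1 = true ∨ (xf1 (x, g, W, N, R, Q)).1 = true
  brk_spec : ∀ x g N, wf x → g.length = nv x → (∀ u < nv x, g.getD u 0 ≤ 2) → m2 x N →
    Cov (nv x) g (deg x N) → (sqs x).filter (fun Q => opp x g Q && has x N Q) = [] →
    (m2 x (brk (x, g, N)) ∧ ∀ Q ∈ sqs x, has x (brk (x, g, N)) Q = false) ∧
      Cov (nv x) g (deg x (brk (x, g, N)))

namespace In3Api

variable {ι O κ : Type} [DEnc ι] [DEnc O] [DEnc κ] [DecidableEq κ] (A : In3Api ι O κ)

/-- 2-matching without short cycle -/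
def valid (x : ι) (M : O) : Prop := A.m2 x M ∧ ∀ Q ∈ A.sqs x, A.has x M Q = false

/-- the clause of `N` -/
def cl (x : ι) (g : List ℕ) (N : O) : List κ := (A.sqs x).filter (fun Q => A.opp x g Q && A.has x N Q)

/-- dead cycles with their certificates -/
abbrev Dd (O κ : Type) : Type := List (κ × κ × O)

/-- the candidates: harmful cycles that are not dead -/
def cand (x : ι) (g : List ℕ) (dead : Dd O κ) : List κ :=
  (A.sqs x).filter (fun q => A.opp x g q && !dead.any (fun t => decide (t.1 = q)))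

/-- the family for which the solver is called -/
def dd (x : ι) (g : List ℕ) (dead : Dd O κ) : List κ :=
  ((A.cand x g dead).filter (fun q => A.tri q)).foldl (grts A.conf A.tri (A.us x))
    (grd A.conf ((A.cand x g dead).filter (fun q => !A.tri q)))

/-- the members of the family which are in conflict with `Z` (one is a square, or the union square is dead) -/
def rs (x : ι) (g : List ℕ) (dead : Dd O κ) (Z : κ) : List κ :=
  (A.dd x g dead).filter fun R => A.conf Z R && (!(A.tri Z && A.tri R) ||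
    dead.any (fun t => decide (t.1 = A.us x Z R)))

/-- weight of a clause -/
def wt (l : List κ) : ℕ := l.length + (l.filter (fun q => A.tri q)).length

/-- data of the inner problem -/
abbrev Cx (ι O : Type) : Type := ι × List ℕ × List (ℕ × O)

/-- state: data, dead cycles, mode (0: call the solver, 1: treat `N`, 2: found, 3: none), `N` -/
abbrev Is (ι O κ : Type) : Type := Cx ι O × Dd O κ × ℕ × O

/-- one round -/
def istep (s : Is ι O κ) : Is ι O κ :=
  let x := s.1.1
  let g := s.1.2.1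
  let W := s.1.2.2
  let dead := s.2.1
  let N := s.2.2.2
  if s.2.2.1 = 0 then
    let r := A.solver (x, g, W, A.dd x g dead)
    bif r.1 then ((x, g, W), dead, 1, r.2) else ((x, g, W), dead, 3, N)
  else if s.2.2.1 = 1 then
    if (A.cl x g N).length = 0 then ((x, g, W), dead, 2, N)
    else
      let Z := (A.cl x g N).headD A.k0
      let T := dead.filter (fun t => decide (t.1 = Z))
      if T.length = 0 then
        let R := (A.rs x g dead Z).headD A.k0
        let r := A.xf1 (x, g, W, N, Z, R)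
        bif r.1 then ((x, g, W), dead, 1, r.2) else ((x, g, W), (R, Z, N) :: dead, 0, N)
      else ((x, g, W), dead, 1, (A.xf1 (x, g, W, N, Z, (T.headD (A.k0, A.k0, N)).2.1)).2)
  else s

/-- number of rounds -/
def rounds (x : ι) : ℕ :=
  (A.sqs x).length * (2 * (A.sqs x).length + 3) + 2 * (A.sqs x).length + 3

/-- the inner algorithm -/
def inner (y : Cx ι O) : Bool × O :=
  let s := (A.istep)^[A.rounds y.1] (y, [], 0, A.emp)
  if s.2.2.1 = 2 then (true, A.brk (s.1.1, s.1.2.1, s.2.2.2)) else (false, A.emp)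

/-! ### correctness -/

theorem mem_cand {x : ι} {g : List ℕ} {dead : Dd O κ} {q : κ} :
    q ∈ A.cand x g dead ↔ q ∈ A.sqs x ∧ A.opp x g q = true ∧ q ∉ dead.map Prod.fst := by
  unfold cand
  rw [List.mem_filter, Bool.and_eq_true, Bool.not_eq_true', List.any_eq_false]
  constructor
  · rintro ⟨h1, h2, h3⟩
    refine ⟨h1, h2, fun h => ?_⟩
    obtain ⟨t, ht, rfl⟩ := List.mem_map.1 h
    exact h3 t ht (by simp)
  · rintro ⟨h1, h2, h3⟩
    refine ⟨h1, h2, fun t ht h => h3 ?_⟩
    rw [decide_eq_true_eq] at h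
    exact List.mem_map.2 ⟨t, ht, h⟩

theorem any_dead {dead : Dd O κ} {q : κ} :
    dead.any (fun t => decide (t.1 = q)) = true ↔ q ∈ dead.map Prod.fst := by
  rw [List.any_eq_true, List.mem_map]
  constructor
  · rintro ⟨t, ht, h⟩
    exact ⟨t, ht, of_decide_eq_true h⟩
  · rintro ⟨t, ht, h⟩
    exact ⟨t, ht, decide_eq_true h⟩

theorem dd_spec {x : ι} (hx : A.wf x) (g : List ℕ) (dead : Dd O κ) :
    (A.dd x g dead).Nodup ∧ (∀ q ∈ A.dd x g dead, q ∈ A.cand x g dead) ∧
    StarL A.conf A.tri (A.us x) (A.dd x g dead) ∧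
    (∀ q ∈ A.cand x g dead, q ∈ A.dd x g dead ∨ ∃ r ∈ A.rs x g dead q, A.conf q r = true) := by
  set C := A.cand x g dead with hC
  have hCn : C.Nodup := (A.sqs_nodup x hx).filter _
  have hmem : ∀ q ∈ C, q ∈ A.sqs x ∧ A.opp x g q = true ∧ q ∉ dead.map Prod.fst := fun q hq =>
    A.mem_cand.1 hq
  have hself : ∀ q, q ∈ C → A.conf q q = false := fun q hq => A.conf_self x q hx (hmem q hq).1
  have hsymm : ∀ q r, q ∈ C → r ∈ C → A.conf q r = A.conf r q := fun q r hq hr =>
    A.conf_symm x q r hx (hmem q hq).1 (hmem r hr).1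
  have hust : ∀ q r, q ∈ C → r ∈ C → A.tri q = true → A.tri r = true → A.conf q r = true →
      A.us x q r ∈ A.sqs x ∧ A.tri (A.us x q r) = false ∧ A.opp x g (A.us x q r) = true :=
    fun q r hq hr h1 h2 h3 => A.us_spec x g q r hx (hmem q hq).1 (hmem r hr).1 h1 h2 h3
      (hmem q hq).2.1 (hmem r hr).2.1
  obtain ⟨s1, s2, s3, s4⟩ := grd_spec A.conf (l := C.filter (fun q => !A.tri q)) (hCn.filter _)
    (fun q hq => hself q (List.mem_of_mem_filter hq))
    (fun q hq r hr => hsymm q r (List.mem_of_mem_filter hq) (List.mem_of_mem_filter hr))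
  set D0 := grd A.conf (C.filter (fun q => !A.tri q)) with hD0
  have s2' : ∀ q ∈ D0, q ∈ C ∧ A.tri q = false := by
    intro q hq
    obtain ⟨h1, h2⟩ := List.mem_filter.1 (s2 q hq)
    rw [Bool.not_eq_true'] at h2
    exact ⟨h1, h2⟩
  obtain ⟨t1, t2, t3, t4, t5⟩ := grt_aux A.conf A.tri (A.us x) (fun q => q ∈ C) hself hsymm
    (A.us_symm x) (fun q r h1 h2 h3 h4 h5 => (hust q r h1 h2 h3 h4 h5).2.1)
    (C.filter (fun q => A.tri q)) D0 (hCn.filter _) s1
    (fun q hq => List.mem_filter.1 hq) (fun q hq => (s2' q hq).1)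
    (fun q hq h => by
      have h1 := (List.mem_filter.1 hq).2
      rw [(s2' q h).2] at h1
      simp at h1)
    (fun q hq r hr h => by rw [s3 q hq r hr] at h; simp at h)
  have hdd : (C.filter (fun q => A.tri q)).foldl (grts A.conf A.tri (A.us x)) D0 = A.dd x g dead := rfl
  rw [hdd] at t1 t2 t3 t4 t5
  have t3' : ∀ q ∈ A.dd x g dead, q ∈ C := by
    intro q hq
    rcases t3 q hq with h | h
    · exact (s2' q h).1
    · exact List.mem_of_mem_filter h
  -- the squares of the family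
  have t6 : ∀ q ∈ A.dd x g dead, A.tri q = false → q ∈ D0 := by
    intro q hq ht
    rcases t3 q hq with h | h
    · exact h
    · have := (List.mem_filter.1 h).2
      rw [ht] at this
      simp at this
  have hard : ∀ q r, r ∈ A.dd x g dead → A.conf q r = true → (A.tri q = false ∨ A.tri r = false) →
      ∃ r ∈ A.rs x g dead q, A.conf q r = true := by
    intro q r hr hc h
    refine ⟨r, List.mem_filter.2 ⟨hr, ?_⟩, hc⟩
    rw [hc, Bool.true_and]
    rcases h with h | h <;> simp [h]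
  refine ⟨t1, t3', t4, ?_⟩
  intro q hq
  cases ht : A.tri q with
  | false =>
    rcases s4 q (List.mem_filter.2 ⟨hq, by rw [ht]; rfl⟩) with h | ⟨r, hr, hc⟩
    · exact Or.inl (t2 q h)
    · exact Or.inr (hard q r (t2 r hr) hc (Or.inl ht))
  | true =>
    rcases t5 q (List.mem_filter.2 ⟨hq, ht⟩) with h | ⟨r, hr, hc, hn⟩
    · exact Or.inl h
    · right
      cases htr : A.tri r with
      | false => exact hard q r hr hc (Or.inr htr)
      | true =>
        have hn' := hn.resolve_left (by rw [htr]; simp)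
        obtain ⟨u1, u2, u3⟩ := hust q r hq (t3' r hr) ht htr hc
        by_cases hd : A.us x q r ∈ dead.map Prod.fst
        · refine ⟨r, List.mem_filter.2 ⟨hr, ?_⟩, hc⟩
          rw [hc, Bool.true_and, any_dead.2 hd, Bool.or_true]
        · have hSc : A.us x q r ∈ C := A.mem_cand.2 ⟨u1, u3, hd⟩
          rcases s4 _ (List.mem_filter.2 ⟨hSc, by rw [u2]; rfl⟩) with h | ⟨s, hs, hc2⟩
          · exact absurd (t2 _ h) hn'
          · have hs' := t2 s hs
            have hts := (s2' s hs).2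
            have hrs : A.conf r s = false := by
              cases h : A.conf r s with
              | false => rfl
              | true =>
                have := (t4 r hr s hs' h).2.1
                rw [hts] at this
                simp at this
            exact hard q s hs' (A.us_cross x q r s hx (hmem q hq).1 (hmem r (t3' r hr)).1
              (hmem s (t3' s hs')).1 ht htr hc hc2 hrs) (Or.inr hts)

theorem mem_cl {x : ι} {g : List ℕ} {N : O} {Q : κ} :
    Q ∈ A.cl x g N ↔ Q ∈ A.sqs x ∧ A.opp x g Q = true ∧ A.has x N Q = true := by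
  unfold cl
  rw [List.mem_filter, Bool.and_eq_true]

theorem cl_nodup {x : ι} (hx : A.wf x) (g : List ℕ) (N : O) : (A.cl x g N).Nodup :=
  (A.sqs_nodup x hx).filter _

/-- the invariant of the inner loop -/
structure IInv (x : ι) (g : List ℕ) (W : List (ℕ × O)) (k : ℕ) (s : Is ι O κ) : Prop where
  e : s.1 = (x, g, W)
  dead : ∀ t ∈ s.2.1, t.1 ∈ A.sqs x ∧ A.opp x g t.1 = true ∧ A.m2 x t.2.2 ∧
    Cov (A.nv x) g (A.deg x t.2.2) ∧
    t.2.1 ∈ A.cl x g t.2.2 ∧ A.conf t.2.1 t.1 = true ∧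
    (A.xf1 (x, g, W, t.2.2, t.2.1, t.1)).1 = false
  sdead : ∀ t ∈ s.2.1, A.tri t.2.1 = true → A.tri t.1 = true → A.us x t.2.1 t.1 ∈ s.2.1.map Prod.fst
  nod : (s.2.1.map Prod.fst).Nodup
  m0 : s.2.2.1 = 0 → k + (((A.sqs x).length - s.2.1.length) * (2 * (A.sqs x).length + 3) +
    (2 * (A.sqs x).length + 2)) < A.rounds x
  m1 : s.2.2.1 = 1 → (k + (((A.sqs x).length - s.2.1.length) * (2 * (A.sqs x).length + 3) +
    (A.wt (A.cl x g s.2.2.2) + 1)) < A.rounds x) ∧
    A.m2 x s.2.2.2 ∧ Cov (A.nv x) g (A.deg x s.2.2.2) ∧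
    ∀ Q ∈ A.cl x g s.2.2.2, Q ∉ A.dd x g s.2.1
  m2 : s.2.2.1 = 2 → A.m2 x s.2.2.2 ∧ Cov (A.nv x) g (A.deg x s.2.2.2) ∧ A.cl x g s.2.2.2 = []
  m3 : s.2.2.1 = 3 → ¬ ∃ L, A.valid x L ∧ Cov (A.nv x) g (A.deg x L)
  md : s.2.2.1 ≤ 3

theorem wt_le (l : List κ) : A.wt l ≤ 2 * l.length := by
  unfold wt
  have := List.length_filter_le (fun q => A.tri q) l
  omega

theorem cl_shrink {x : ι} (hx : A.wf x) {g : List ℕ} {L N : O} {Q S : κ} (hQ : Q ∈ A.cl x g N)
    (hS : A.tri S = false)
    (h : ∀ Z ∈ A.cl x g L, (Z ∈ A.cl x g N ∧ Z ≠ Q) ∨ (A.tri Q = true ∧ Z = S)) :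
    A.wt (A.cl x g L) + 1 ≤ A.wt (A.cl x g N) := by
  have nL := A.cl_nodup hx g L
  have nN := A.cl_nodup hx g N
  unfold wt
  cases ht : A.tri Q with
  | false =>
    have h' : ∀ Z ∈ A.cl x g L, Z ∈ A.cl x g N ∧ Z ≠ Q := by
      intro Z hZ
      rcases h Z hZ with h | ⟨h, _⟩
      · exact h
      · rw [ht] at h; simp at h
    have h5 : (Q :: A.cl x g L).Nodup :=
      List.nodup_cons.2 ⟨fun h1 => (h' _ h1).2 rfl, nL⟩
    have h6 := (h5.subperm fun Z hZ => by
      rcases List.mem_cons.1 hZ with rfl | hZ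
      · exact hQ
      · exact (h' Z hZ).1).length_le
    have h7 := ((nL.filter (fun q => A.tri q)).subperm (l₂ := (A.cl x g N).filter (fun q => A.tri q)) (by
      intro Z hZ
      obtain ⟨z1, z2⟩ := List.mem_filter.1 hZ
      exact List.mem_filter.2 ⟨(h' Z z1).1, z2⟩)).length_le
    rw [List.length_cons] at h6
    omega
  | true =>
    have h5 : ((A.cl x g L).erase S).Nodup := nL.erase _
    have h6 : (Q :: (A.cl x g L).erase S).Nodup := by
      refine List.nodup_cons.2 ⟨fun h1 => ?_, h5⟩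
      have h2 := List.mem_of_mem_erase h1
      rcases h Q h2 with h3 | h3
      · exact h3.2 rfl
      · rw [h3.2] at ht
        rw [ht] at hS
        simp at hS
    have h7 := (h6.subperm (l₂ := A.cl x g N) fun Z hZ => by
      rcases List.mem_cons.1 hZ with rfl | hZ
      · exact hQ
      · have h2 := List.mem_of_mem_erase hZ
        rcases h Z h2 with h3 | h3
        · exact h3.1
        · exfalso
          rw [h3.2] at hZ
          exact (nL.mem_erase_iff.1 hZ).1 rfl).length_le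
    have h8 : (A.cl x g L).length ≤ ((A.cl x g L).erase S).length + 1 := by
      by_cases hm : S ∈ A.cl x g L
      · rw [List.length_erase_of_mem hm]; omega
      · rw [List.erase_of_not_mem hm]; omega
    have h9 : (Q :: (A.cl x g L).filter (fun q => A.tri q)).Nodup := by
      refine List.nodup_cons.2 ⟨fun h1 => ?_, nL.filter _⟩
      obtain ⟨h2, _⟩ := List.mem_filter.1 h1
      rcases h Q h2 with h3 | h3
      · exact h3.2 rfl
      · rw [h3.2] at ht
        rw [ht] at hS
        simp at hS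
    have h10 := (h9.subperm (l₂ := (A.cl x g N).filter (fun q => A.tri q)) fun Z hZ => by
      rcases List.mem_cons.1 hZ with rfl | hZ
      · exact List.mem_filter.2 ⟨hQ, ht⟩
      · obtain ⟨z1, z2⟩ := List.mem_filter.1 hZ
        rcases h Z z1 with h3 | h3
        · exact List.mem_filter.2 ⟨h3.1, z2⟩
        · exfalso
          rw [h3.2, hS] at z2
          simp at z2).length_le
    rw [List.length_cons] at h7 h10
    omega

theorem iinv_step {x : ι} {g : List ℕ} {W : List (ℕ × O)} {v k : ℕ} {s : Is ι O κ} (hx : A.wf x)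
    (hd : Dat A.nv A.deg A.valid x g W v) (h01 : ∀ u < A.nv x, g.getD u 0 = 0 ∨ g.getD u 0 = 2)
    (h : A.IInv x g W k s) :
    A.IInv x g W (k + 1) (A.istep s) := by
  obtain ⟨⟨x', g', W'⟩, dead, m, N⟩ := s
  obtain ⟨e, hdead, sdead, nod, m0, m1, m2, m3, md⟩ := h
  simp only [Prod.mk.injEq] at e hdead sdead nod m0 m1 m2 m3 md
  obtain ⟨rfl, rfl, rfl⟩ := e
  unfold istep
  simp only
  obtain ⟨dd1, dd2, dd3, dd4⟩ := A.dd_spec hx g' dead
  by_cases h0 : m = 0
  · rw [if_pos h0]
    have key := A.solver_spec x' g' W' v (A.dd x' g' dead) hx hd h01 dd1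
      (fun Q hQ => ⟨(A.mem_cand.1 (dd2 Q hQ)).1, (A.mem_cand.1 (dd2 Q hQ)).2.1⟩) dd3
    generalize A.solver (x', g', W', A.dd x' g' dead) = r at key ⊢
    obtain ⟨r1, L⟩ := r
    have hm0 := m0 h0
    cases r1 with
    | false =>
      refine ⟨rfl, hdead, sdead, nod, ?_, ?_, ?_, fun _ => key.2 rfl, by simp⟩
      · intro h; simp at h
      · intro h; simp at h
      · intro h; simp at h
    | true =>
      obtain ⟨k1, k2, k3⟩ := key.1 rfl
      refine ⟨rfl, hdead, sdead, nod, ?_, ?_, ?_, ?_, by simp⟩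
      · intro h; simp at h
      · intro _
        refine ⟨?_, k1, k2, ?_⟩
        · have h2 : (A.cl x' g' L).length ≤ (A.sqs x').length := List.length_filter_le _ _
          have h3 := A.wt_le (A.cl x' g' L)
          simp only [cond_true]
          omega
        · intro Q hQ hQ'
          have h3 := k3 Q hQ'
          have h4 := (A.mem_cl.1 hQ).2.2
          simp only [cond_true] at h4
          simp only at h3
          rw [h4] at h3
          simp at h3
      · intro h; simp at h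
      · intro h; simp at h
  · rw [if_neg h0]
    by_cases h1 : m = 1
    · rw [if_pos h1]
      obtain ⟨hb, n1, n2, n3⟩ := m1 h1
      by_cases hc : (A.cl x' g' N).length = 0
      · rw [if_pos hc]
        refine ⟨rfl, hdead, sdead, nod, ?_, ?_, ?_, ?_, by simp⟩
        · intro h; simp at h
        · intro h; simp at h
        · intro _
          exact ⟨n1, n2, List.length_eq_zero_iff.1 hc⟩
        · intro h; simp at h
      · rw [if_neg hc]
        obtain ⟨Z, hZ1, hZ⟩ : ∃ Z, (A.cl x' g' N).headD A.k0 = Z ∧ Z ∈ A.cl x' g' N := by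
          cases hcc : A.cl x' g' N with
          | nil => rw [hcc] at hc; exact absurd rfl hc
          | cons a l => exact ⟨a, rfl, List.mem_cons_self⟩
        rw [hZ1]
        obtain ⟨z1, z2, z3⟩ := A.mem_cl.1 hZ
        by_cases hT : (dead.filter (fun t => decide (t.1 = Z))).length = 0
        · rw [if_pos hT]
          have hZc : Z ∈ A.cand x' g' dead := by
            refine A.mem_cand.2 ⟨z1, z2, fun h => ?_⟩
            obtain ⟨t, ht, rfl⟩ := List.mem_map.1 h
            have : t ∈ dead.filter (fun t' => decide (t'.1 = t.1)) :=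
              List.mem_filter.2 ⟨ht, by simp⟩
            rw [List.length_eq_zero_iff.1 hT] at this
            simp at this
          obtain ⟨R, hR1, hR⟩ : ∃ R, (A.rs x' g' dead Z).headD A.k0 = R ∧ R ∈ A.rs x' g' dead Z := by
            rcases dd4 Z hZc with h | ⟨r, hr, hr2⟩
            · exact absurd h (n3 Z hZ)
            · cases hcc : A.rs x' g' dead Z with
              | nil => rw [hcc] at hr; simp at hr
              | cons a l => exact ⟨a, rfl, List.mem_cons_self⟩
          rw [hR1]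
          obtain ⟨hRd, hR2⟩ := List.mem_filter.1 hR
          rw [Bool.and_eq_true, Bool.or_eq_true, Bool.not_eq_true', any_dead] at hR2
          obtain ⟨hRc, hRs⟩ := hR2
          have hRs' : A.tri Z = true → A.tri R = true → A.us x' Z R ∈ dead.map Prod.fst := by
            intro h1 h2
            rcases hRs with h | h
            · rw [h1, h2] at h; simp at h
            · exact h
          obtain ⟨r1, r2, r3⟩ := A.mem_cand.1 (dd2 R hRd)
          have key := A.xf1_spec x' g' W' v N Z R hx hd h01 n1 n2 hZ r1 r2 hRc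
          cases hr : (A.xf1 (x', g', W', N, Z, R)).1 with
          | true =>
            obtain ⟨k1, k2, k3⟩ := key hr
            have hsh : A.wt (A.cl x' g' (A.xf1 (x', g', W', N, Z, R)).2) + 1 ≤ A.wt (A.cl x' g' N) := by
              by_cases hT : A.tri Z = true ∧ A.tri R = true
              · refine A.cl_shrink hx (S := A.us x' Z R) hZ
                  (A.us_spec x' g' Z R hx z1 r1 hT.1 hT.2 hRc z2 r2).2.1 ?_
                intro Y hY
                rcases k3 Y hY with h | ⟨h, _, h2⟩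
                · exact Or.inl h
                · exact Or.inr ⟨h, h2⟩
              · by_cases hS : ∃ S, A.tri S = false
                · obtain ⟨S, hS⟩ := hS
                  refine A.cl_shrink hx (S := S) hZ hS ?_
                  intro Y hY
                  rcases k3 Y hY with h | ⟨h, h2, _⟩
                  · exact Or.inl h
                  · exact absurd ⟨h, h2⟩ hT
                · -- all cycles are triangles: impossible
                  exfalso
                  apply hT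
                  push Not at hS
                  have e1 := hS Z
                  have e2 := hS R
                  simp only [ne_eq, Bool.not_eq_false] at e1 e2
                  exact ⟨e1, e2⟩
            refine ⟨rfl, hdead, sdead, nod, ?_, ?_, ?_, ?_, by simp⟩
            · intro h; simp at h
            · intro _
              refine ⟨?_, k1, k2, fun Q hQ => ?_⟩
              · simp only [cond_true]
                omega
              · rcases k3 Q hQ with h | ⟨h, h2, h3⟩
                · exact n3 Q h.1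
                · intro hc2
                  have h4 := (A.mem_cand.1 (dd2 Q hc2)).2.2
                  rw [h3] at h4
                  exact h4 (hRs' h h2)
            · intro h; simp at h
            · intro h; simp at h
          | false =>
            have hnod' : (((R, Z, N) :: dead).map Prod.fst).Nodup := by
              rw [List.map_cons, List.nodup_cons]
              exact ⟨r3, nod⟩
            have hdead' : ∀ t ∈ (R, Z, N) :: dead, t.1 ∈ A.sqs x' ∧ A.opp x' g' t.1 = true ∧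
                A.m2 x' t.2.2 ∧ Cov (A.nv x') g' (A.deg x' t.2.2) ∧
                t.2.1 ∈ A.cl x' g' t.2.2 ∧ A.conf t.2.1 t.1 = true ∧
                (A.xf1 (x', g', W', t.2.2, t.2.1, t.1)).1 = false := by
              intro t ht
              rcases List.mem_cons.1 ht with rfl | ht
              · exact ⟨r1, r2, n1, n2, hZ, hRc, hr⟩
              · exact hdead t ht
            have sdead' : ∀ t ∈ (R, Z, N) :: dead, A.tri t.2.1 = true → A.tri t.1 = true →
                A.us x' t.2.1 t.1 ∈ ((R, Z, N) :: dead).map Prod.fst := by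
              intro t ht h1 h2
              rw [List.map_cons]
              apply List.mem_cons_of_mem
              rcases List.mem_cons.1 ht with rfl | ht
              · exact hRs' h1 h2
              · exact sdead t ht h1 h2
            refine ⟨rfl, hdead', sdead', hnod', ?_, ?_, ?_, ?_, by simp⟩
            · intro _
              have h3 : (((R, Z, N) :: dead).map Prod.fst).length ≤ (A.sqs x').length :=
                (hnod'.subperm fun q hq => by
                  obtain ⟨t, ht, rfl⟩ := List.mem_map.1 hq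
                  exact (hdead' t ht).1).length_le
              rw [List.length_map, List.length_cons] at h3
              simp only [cond_false, List.length_cons]
              have h5 : (A.sqs x').length - dead.length =
                  ((A.sqs x').length - (dead.length + 1)) + 1 := by omega
              rw [h5, Nat.add_mul] at hb
              omega
            · intro h; simp at h
            · intro h; simp at h
            · intro h; simp at h
        · rw [if_neg hT]
          obtain ⟨t, ht1, ht, htZ⟩ : ∃ t, (dead.filter (fun t => decide (t.1 = Z))).headD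
              (A.k0, A.k0, N) = t ∧ t ∈ dead ∧ t.1 = Z := by
            cases hcc : dead.filter (fun t => decide (t.1 = Z)) with
            | nil => rw [hcc] at hT; exact absurd rfl hT
            | cons a l =>
              have : a ∈ dead.filter (fun t => decide (t.1 = Z)) := by
                rw [hcc]; exact List.mem_cons_self
              obtain ⟨a1, a2⟩ := List.mem_filter.1 this
              exact ⟨a, rfl, a1, of_decide_eq_true a2⟩
          rw [ht1]
          subst htZ
          obtain ⟨t1, t2, t3, t4, t5, t6, t7⟩ := hdead t ht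
          have hts := A.mem_cl.1 t5
          have halt := A.xf1_alt x' g' W' v t.2.2 N t.2.1 t.1 hx hd h01 t3 t4 n1 n2 t5 hZ t6
          rw [t7] at halt
          have hr : (A.xf1 (x', g', W', N, t.1, t.2.1)).1 = true := by
            rcases halt with h | h
            · simp at h
            · exact h
          have t6' : A.conf t.1 t.2.1 = true := by
            rw [A.conf_symm x' _ _ hx t1 hts.1]; exact t6
          obtain ⟨k1, k2, k3⟩ := A.xf1_spec x' g' W' v N t.1 t.2.1 hx hd h01 n1 n2 hZ hts.1 hts.2.1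
            t6' hr
          have hsh : A.wt (A.cl x' g' (A.xf1 (x', g', W', N, t.1, t.2.1)).2) + 1 ≤ A.wt (A.cl x' g' N) := by
            by_cases hT : A.tri t.1 = true ∧ A.tri t.2.1 = true
            · refine A.cl_shrink hx (S := A.us x' t.1 t.2.1) hZ
                (A.us_spec x' g' t.1 t.2.1 hx t1 hts.1 hT.1 hT.2 t6' t2 hts.2.1).2.1 ?_
              intro Y hY
              rcases k3 Y hY with h | ⟨h, _, h2⟩
              · exact Or.inl h
              · exact Or.inr ⟨h, h2⟩
            · by_cases hS : ∃ S, A.tri S = false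
              · obtain ⟨S, hS⟩ := hS
                refine A.cl_shrink hx (S := S) hZ hS ?_
                intro Y hY
                rcases k3 Y hY with h | ⟨h, h2, _⟩
                · exact Or.inl h
                · exact absurd ⟨h, h2⟩ hT
              · exfalso
                apply hT
                push Not at hS
                have e1 := hS t.1
                have e2 := hS t.2.1
                simp only [ne_eq, Bool.not_eq_false] at e1 e2
                exact ⟨e1, e2⟩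
          refine ⟨rfl, hdead, sdead, nod, ?_, ?_, ?_, ?_, by simp⟩
          · intro h; simp at h
          · intro _
            refine ⟨?_, k1, k2, fun Q hQ => ?_⟩
            · simp only
              omega
            · rcases k3 Q hQ with h | ⟨h, h2, h3⟩
              · exact n3 Q h.1
              · intro hc2
                have h4 := (A.mem_cand.1 (dd2 Q hc2)).2.2
                rw [h3, A.us_symm] at h4
                exact h4 (sdead t ht h2 h)
          · intro h; simp at h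
          · intro h; simp at h
    · rw [if_neg h1]
      exact ⟨rfl, hdead, sdead, nod, fun h => absurd h h0, fun h => absurd h h1, m2, m3, md⟩

theorem iinv_iter {x : ι} {g : List ℕ} {W : List (ℕ × O)} {v : ℕ} (hx : A.wf x)
    (hd : Dat A.nv A.deg A.valid x g W v) (h01 : ∀ u < A.nv x, g.getD u 0 = 0 ∨ g.getD u 0 = 2)
    (k : ℕ) :
    A.IInv x g W k ((A.istep)^[k] ((x, g, W), [], 0, A.emp)) := by
  induction k with
  | zero =>
    refine ⟨rfl, ?_, ?_, ?_, ?_, ?_, ?_, ?_, by simp⟩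
    · intro N hN; simp at hN
    · intro N hN; simp at hN
    · simp
    · intro _
      simp only [Function.iterate_zero, id_eq, List.length_nil, rounds, Nat.sub_zero]
      omega
    · intro h; simp at h
    · intro h; simp at h
    · intro h; simp at h
  | succ k ih =>
    rw [Function.iterate_succ_apply']
    exact A.iinv_step hx hd h01 ih

theorem inner_spec {x : ι} {g : List ℕ} {W : List (ℕ × O)} {v : ℕ} (hx : A.wf x)
    (hd : Dat A.nv A.deg A.valid x g W v) (h01 : ∀ u < A.nv x, g.getD u 0 = 0 ∨ g.getD u 0 = 2) :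
    ((A.inner (x, g, W)).1 = true → A.valid x (A.inner (x, g, W)).2 ∧
      Cov (A.nv x) g (A.deg x (A.inner (x, g, W)).2)) ∧
    ((A.inner (x, g, W)).1 = false → ¬ ∃ L, A.valid x L ∧ Cov (A.nv x) g (A.deg x L)) := by
  have h := A.iinv_iter hx hd h01 (A.rounds x)
  unfold inner
  simp only
  generalize (A.istep)^[A.rounds x] ((x, g, W), [], 0, A.emp) = s at h ⊢
  obtain ⟨⟨x', g', W'⟩, P, m, N⟩ := s
  obtain ⟨e, _, _, _, m0, m1, m2, m3, md⟩ := h
  simp only [Prod.mk.injEq] at e m0 m1 m2 m3 md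
  obtain ⟨rfl, rfl, rfl⟩ := e
  have h0 : m ≠ 0 := fun h => by have := m0 h; omega
  have h1 : m ≠ 1 := fun h => by have := (m1 h).1; omega
  by_cases h2 : m = 2
  · rw [if_pos h2]
    obtain ⟨n1, n2, n3⟩ := m2 h2
    refine ⟨fun _ => ?_, fun h => by simp at h⟩
    refine A.brk_spec x' g' N hx hd.len ?_ n1 n2 n3
    intro u hu
    by_cases huv : u = v
    · rw [huv]; exact hd.two
    · rcases hd.off u hu huv with h | h <;> omega
  · rw [if_neg h2]
    refine ⟨fun h => by simp at h, fun _ => m3 (by omega)⟩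

/-! ### polynomial time -/

section pt

variable {τ : Type} [DEnc τ]

theorem pt_cl {x : τ → ι} {g : τ → List ℕ} {N : τ → O} (hx : PT x) (hg : PT g) (hN : PT N) :
    PT (fun y => A.cl (x y) (g y) (N y)) := by
  unfold cl
  refine PT.filter (p := fun z : τ × κ => A.opp (x z.1) (g z.1) z.2 && A.has (x z.1) (N z.1) z.2)
    (A.pt_sqs.comp hx) ?_
  exact PT.band (A.pt_opp.comp (PT.pair (hx.comp PT.fst) (PT.pair (hg.comp PT.fst) PT.snd)))
    (A.pt_has.comp (PT.pair (hx.comp PT.fst) (PT.pair (hN.comp PT.fst) PT.snd)))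

theorem pt_grd {l : τ → List κ} (hl : PT l) : PT (fun y => grd A.conf (l y)) := by
  have h := PT.foldl (l := l) (init := fun _ : τ => ([] : List κ))
    (g := fun z : τ × List κ × κ => grds A.conf z.2.1 z.2.2) hl (PT.const []) ?_
    ⟨fun y => 1 + tsize (l y), (PB.const 1).add hl.size, ?_⟩
  · exact h
  · unfold grds
    refine PT.cond ?_ PT.snd.p1 (PT.cons PT.snd.p2 PT.snd.p1)
    exact PT.any (p := fun w : (τ × List κ × κ) × κ => A.conf w.1.2.2 w.2) PT.snd.p1
      (A.pt_conf.comp (PT.pair PT.fst.p2.p2 PT.snd))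
  · intro y l₁ l₂ h
    have h1 := grd_size A.conf l₁ ([] : List κ)
    have h2 := tsize_append l₁ l₂
    have h3 := tsize_pos l₂
    rw [h] at h2
    rw [tsize_nil] at h1
    beta_reduce
    refine h1.trans ?_
    omega

theorem pt_grt {x : τ → ι} {l D : τ → List κ} (hx : PT x) (hl : PT l) (hD : PT D) :
    PT (fun y => (l y).foldl (grts A.conf A.tri (A.us (x y))) (D y)) := by
  have h := PT.foldl (l := l) (init := D)
    (g := fun z : τ × List κ × κ => grts A.conf A.tri (A.us (x z.1)) z.2.1 z.2.2) hl hD ?_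
    ⟨fun y => tsize (D y) + tsize (l y), hD.size.add hl.size, ?_⟩
  · exact h
  · unfold grts
    refine PT.cond ?_ (PT.cons PT.snd.p2 PT.snd.p1) PT.snd.p1
    refine PT.all (p := fun w : (τ × List κ × κ) × κ => !A.conf w.1.2.2 w.2 || (A.tri w.2 &&
      w.1.2.1.any (fun S => decide (S = A.us (x w.1.1) w.1.2.2 w.2)))) PT.snd.p1 ?_
    refine PT.bor (PT.bnot (A.pt_conf.comp (PT.pair PT.fst.p2.p2 PT.snd)))
      (PT.band (A.pt_tri.comp PT.snd) ?_)
    refine PT.any (p := fun v : ((τ × List κ × κ) × κ) × κ =>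
      decide (v.2 = A.us (x v.1.1.1) v.1.1.2.2 v.1.2)) PT.fst.p2.p1 ?_
    have q0 : PT (fun v : ((τ × List κ × κ) × κ) × κ => v.1) := PT.fst
    have q1 : PT (fun v : ((τ × List κ × κ) × κ) × κ => v.1.1) := PT.p1 q0
    exact A.pt_eq.comp (PT.pair PT.snd (A.pt_us.comp (PT.pair (hx.comp (PT.p1 q1))
      (PT.pair (PT.p2 (PT.p2 q1)) (PT.p2 q0)))))
  · intro y l₁ l₂ h
    have h1 := grt_size A.conf A.tri (A.us (x y)) l₁ (D y)
    have h2 := tsize_append l₁ l₂
    have h3 := tsize_pos l₂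
    rw [h] at h2
    beta_reduce
    refine h1.trans ?_
    omega

theorem pt_cand {x : τ → ι} {g : τ → List ℕ} {dead : τ → Dd O κ} (hx : PT x) (hg : PT g)
    (hdead : PT dead) : PT (fun y => A.cand (x y) (g y) (dead y)) := by
  unfold cand
  refine PT.filter (p := fun z : τ × κ => A.opp (x z.1) (g z.1) z.2 &&
    !(dead z.1).any (fun t => decide (t.1 = z.2))) (A.pt_sqs.comp hx) ?_
  refine PT.band (A.pt_opp.comp (PT.pair (hx.comp PT.fst) (PT.pair (hg.comp PT.fst) PT.snd)))
    (PT.bnot ?_)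
  exact PT.any (p := fun w : (τ × κ) × (κ × κ × O) => decide (w.2.1 = w.1.2)) (hdead.comp PT.fst)
    (A.pt_eq.comp (PT.pair PT.snd.p1 (PT.fst.p2)))

theorem pt_dd {x : τ → ι} {g : τ → List ℕ} {dead : τ → Dd O κ} (hx : PT x) (hg : PT g)
    (hdead : PT dead) : PT (fun y => A.dd (x y) (g y) (dead y)) := by
  unfold dd
  have hc := A.pt_cand hx hg hdead
  exact A.pt_grt hx (PT.filter (p := fun z : τ × κ => A.tri z.2) hc (A.pt_tri.comp PT.snd))
    (A.pt_grd (PT.filter (p := fun z : τ × κ => !A.tri z.2) hc (PT.bnot (A.pt_tri.comp PT.snd))))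

theorem pt_rs {x : τ → ι} {g : τ → List ℕ} {dead : τ → Dd O κ} {Z : τ → κ} (hx : PT x) (hg : PT g)
    (hdead : PT dead) (hZ : PT Z) : PT (fun y => A.rs (x y) (g y) (dead y) (Z y)) := by
  unfold rs
  refine PT.filter (p := fun z : τ × κ => A.conf (Z z.1) z.2 && (!(A.tri (Z z.1) && A.tri z.2) ||
    (dead z.1).any (fun t => decide (t.1 = A.us (x z.1) (Z z.1) z.2)))) (A.pt_dd hx hg hdead) ?_
  have hZ' : PT (fun z : τ × κ => Z z.1) := hZ.comp PT.fst
  refine PT.band (A.pt_conf.comp (PT.pair hZ' PT.snd)) (PT.bor (PT.bnot (PT.band (A.pt_tri.comp hZ')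
    (A.pt_tri.comp PT.snd))) ?_)
  have q0 : PT (fun w : (τ × κ) × (κ × κ × O) => w.1) := PT.fst
  exact PT.any (p := fun w : (τ × κ) × (κ × κ × O) => decide (w.2.1 = A.us (x w.1.1) (Z w.1.1) w.1.2))
    (hdead.comp PT.fst) (A.pt_eq.comp (PT.pair PT.snd.p1 (A.pt_us.comp (PT.pair (hx.comp (PT.p1 q0))
      (PT.pair (hZ.comp (PT.p1 q0)) (PT.p2 q0))))))

end pt

theorem pt_istep : PT A.istep := by
  unfold istep
  have x : PT (fun s : Is ι O κ => s.1.1) := PT.fst.p1
  have g : PT (fun s : Is ι O κ => s.1.2.1) := PT.fst.p2.p1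
  have W : PT (fun s : Is ι O κ => s.1.2.2) := PT.fst.p2.p2
  have P : PT (fun s : Is ι O κ => s.2.1) := PT.snd.p1
  have m : PT (fun s : Is ι O κ => s.2.2.1) := PT.snd.p2.p1
  have N : PT (fun s : Is ι O κ => s.2.2.2) := PT.snd.p2.p2
  have D : PT (fun s : Is ι O κ => (s.1.1, s.1.2.1, s.1.2.2)) := PT.pair x (PT.pair g W)
  have d := A.pt_dd x g P
  have r := A.pt_solver.comp (PT.pair x (PT.pair g (PT.pair W d)))
  have cN := A.pt_cl x g N
  have Z := PT.headD cN (PT.const A.k0)
  have T := PT.filter (p := fun z : Is ι O κ × (κ × κ × O) => decide (z.2.1 =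
    (A.cl z.1.1.1 z.1.1.2.1 z.1.2.2.2).headD A.k0)) P
    (A.pt_eq.comp (PT.pair PT.snd.p1 (Z.comp PT.fst)))
  have R := PT.headD (A.pt_rs x g P Z) (PT.const A.k0)
  have r1 := A.pt_xf1.comp (PT.pair x (PT.pair g (PT.pair W (PT.pair N (PT.pair Z R)))))
  have r2 := A.pt_xf1.comp (PT.pair x (PT.pair g (PT.pair W (PT.pair N (PT.pair Z
    (PT.headD T (PT.pair (PT.const A.k0) (PT.pair (PT.const A.k0) N))).p2.p1)))))
  refine PT.ite (PT.neq m (PT.const 0)) (PT.cond r.p1 ?_ ?_) (PT.ite (PT.neq m (PT.const 1))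
    (PT.ite (PT.neq (PT.length cN) (PT.const 0)) ?_ (PT.ite (PT.neq (PT.length T) (PT.const 0))
      (PT.cond r1.p1 ?_ ?_) ?_)) PT.id)
  · exact PT.pair D (PT.pair P (PT.pair (PT.const 1) r.p2))
  · exact PT.pair D (PT.pair P (PT.pair (PT.const 3) N))
  · exact PT.pair D (PT.pair P (PT.pair (PT.const 2) N))
  · exact PT.pair D (PT.pair P (PT.pair (PT.const 1) r1.p2))
  · exact PT.pair D (PT.pair (PT.cons (PT.pair R (PT.pair Z N)) P) (PT.pair (PT.const 0) N))
  · exact PT.pair D (PT.pair P (PT.pair (PT.const 1) r2.p2))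

/-- bound of the sizes of the entries of the dead list -/
def ub (x : ι) : ℕ := (tsize A.emp + A.B x) + 3 * (tsize (A.sqs x) + 1 + tsize A.k0) + 2

theorem dd_size (x : ι) (g : List ℕ) (dead : Dd O κ) :
    tsize (A.dd x g dead) ≤ 2 * tsize (A.sqs x) + 1 := by
  unfold dd
  refine (grt_size A.conf A.tri (A.us x) _ _).trans ?_
  have h1 : tsize (grd A.conf ((A.cand x g dead).filter (fun q => !A.tri q))) ≤ 1 + tsize (A.sqs x) := by
    refine (grd_size A.conf _ []).trans ?_
    rw [tsize_nil]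
    exact Nat.add_le_add_left ((tsize_filter' _ _).trans (tsize_filter' _ _)) _
  have h2 : tsize ((A.cand x g dead).filter (fun q => A.tri q)) ≤ tsize (A.sqs x) :=
    (tsize_filter' _ _).trans (tsize_filter' _ _)
  omega

theorem isz_iter (y : Cx ι O) (k : ℕ) :
    ((A.istep)^[k] (y, [], 0, A.emp)).1 = y ∧
      ((A.istep)^[k] (y, [], 0, A.emp)).2.1.length ≤ k ∧
      (∀ t ∈ ((A.istep)^[k] (y, [], 0, A.emp)).2.1, tsize t ≤ A.ub y.1) ∧
      ((A.istep)^[k] (y, [], 0, A.emp)).2.2.1 ≤ 3 ∧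
      tsize ((A.istep)^[k] (y, [], 0, A.emp)).2.2.2 ≤ tsize A.emp + A.B y.1 := by
  induction k with
  | zero =>
    refine ⟨rfl, le_rfl, ?_, by simp, by simp⟩
    intro N hN; simp at hN
  | succ k ih =>
    rw [Function.iterate_succ_apply']
    generalize (A.istep)^[k] (y, [], 0, A.emp) = s at ih ⊢
    obtain ⟨⟨x, g, W⟩, P, m, N⟩ := s
    obtain ⟨e, h1, h2, h3, h4⟩ := ih
    simp only at e h1 h2 h3 h4
    subst e
    unfold istep
    simp only at h2 h4 ⊢
    split_ifs
    · have hS := A.size_solver (x, g, W, A.dd x g P)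
      simp only at hS
      cases (A.solver (x, g, W, A.dd x g P)).1 with
      | true => exact ⟨rfl, by simp only [cond_true]; omega, h2, by simp, by
          simp only [cond_true]; omega⟩
      | false => exact ⟨rfl, by simp only [cond_false]; omega, h2, by simp, h4⟩
    · exact ⟨rfl, by simp only; omega, h2, by simp, h4⟩
    · have hX := A.size_xf1 (x, g, W, N, (A.cl x g N).headD A.k0,
        (A.rs x g P ((A.cl x g N).headD A.k0)).headD A.k0)
      simp only at hX
      cases (A.xf1 (x, g, W, N, (A.cl x g N).headD A.k0,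
        (A.rs x g P ((A.cl x g N).headD A.k0)).headD A.k0)).1 with
      | true => exact ⟨rfl, by simp only [cond_true]; omega, h2, by simp,
          hX.trans (Nat.le_add_left _ _)⟩
      | false =>
        refine ⟨rfl, by simp only [cond_false, List.length_cons]; omega, ?_, by simp, h4⟩
        intro t ht
        rcases List.mem_cons.1 ht with rfl | ht
        · have e1 : tsize ((A.cl x g N).headD A.k0) ≤ tsize (A.sqs x) + tsize A.k0 :=
            (tsize_headD _ _).trans (Nat.add_le_add_right (tsize_filter' _ _) _)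
          have e2 : tsize ((A.rs x g P ((A.cl x g N).headD A.k0)).headD A.k0) ≤
              2 * tsize (A.sqs x) + 1 + tsize A.k0 := by
            refine (tsize_headD _ _).trans (Nat.add_le_add_right ((tsize_filter' _ _).trans ?_) _)
            exact A.dd_size x g P
          simp only [tsize_pair]
          unfold ub
          omega
        · exact h2 t ht
    · have hX := A.size_xf1 (x, g, W, N, (A.cl x g N).headD A.k0,
        ((P.filter (fun t => decide (t.1 = (A.cl x g N).headD A.k0))).headD (A.k0, A.k0, N)).2.1)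
      exact ⟨rfl, by simp only; omega, h2, by simp, hX.trans (Nat.le_add_left _ _)⟩
    · exact ⟨rfl, by simp only; omega, h2, h3, h4⟩

theorem pt_inner : PT A.inner := by
  have hr : PT (fun y : Cx ι O => A.rounds y.1) := by
    unfold rounds
    have l : PT (fun y : Cx ι O => (A.sqs y.1).length) := PT.length (A.pt_sqs.comp PT.fst)
    have l2 := PT.nmul (PT.const 2) l
    exact PT.nadd (PT.nadd (PT.nmul l (PT.nadd l2 (PT.const 3))) l2) (PT.const 3)
  have hrb : PB (fun y : Cx ι O => A.rounds y.1) :=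
    hr.size.of_le fun y => by simp only [tsize_nat]; omega
  have hB0 : PB (fun y : Cx ι O => tsize A.emp + A.B y.1) :=
    (PB.const _).add (A.pb.comp PT.fst.size)
  have hB : PB (fun y : Cx ι O => A.ub y.1) := by
    unfold ub
    exact (hB0.add ((PB.const 3).mul ((((A.pt_sqs.comp PT.fst).size).add (PB.const 1)).add
      (PB.const _)))).add (PB.const 2)
  have h := PT.iterateNat (count := fun y : Cx ι O => A.rounds y.1)
    (init := fun y : Cx ι O => (y, ([] : Dd O κ), 0, A.emp)) hr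
    (PT.pair PT.id (PT.const ([], 0, A.emp))) A.pt_istep
    ⟨fun y => tsize y + (A.rounds y.1 * (A.ub y.1 + 1) + 1) +
      (tsize A.emp + A.B y.1) + 20, ?_, ?_⟩
  · unfold inner
    have m := h.p2.p2.p1
    have N := h.p2.p2.p2
    refine PT.ite (PT.neq m (PT.const 2)) (PT.pair (PT.const true) ?_) (PT.const (false, A.emp))
    exact A.pt_brk.comp (PT.pair h.p1.p1 (PT.pair h.p1.p2.p1 N))
  · exact ((PB.tsize.add ((hrb.mul (hB.add (PB.const 1))).add (PB.const 1))).add hB0).add
      (PB.const 20)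
  · intro y k hk
    obtain ⟨e, h1, h2, h3, h4⟩ := A.isz_iter y k
    generalize (A.istep)^[k] (y, ([] : Dd O κ), 0, A.emp) = s at *
    obtain ⟨y', P, m, N⟩ := s
    simp only at e h1 h2 h3 h4
    subst e
    have h5 := tsize_le_of_forall h2
    have h6 : P.length * (A.ub y'.1 + 1) ≤ A.rounds y'.1 * (A.ub y'.1 + 1) :=
      Nat.mul_le_mul_right _ (by omega)
    have h7 : tsize (y', P, m, N) = tsize y' + (tsize P + ((2 * m + 1) + tsize N + 1) + 1) + 1 := by
      simp only [tsize_pair, tsize_nat]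
    rw [h7]
    show _ ≤ tsize y' + (A.rounds y'.1 * (A.ub y'.1 + 1) + 1) + (tsize A.emp + A.B y'.1) + 20
    omega

end In3Api

end Pool.Agent.P34

end

section -- file P34/Us3

/-!
The union square of two triangles with exactly one common edge, as a member of the list of the short cycles of the graph.
-/

set_option autoImplicit false
set_option linter.unusedSimpArgs false
set_option linter.unusedVariables false

namespace Pool.Agent.P34

open Finset Pool.Agent.TFC Pool.Agent.PF4 Pool.Agent.Lib.helper60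

/-- the union square of two triangles with exactly one common edge -/
def us (x : Ins) (q r : Sq4) : Sq4 := findD (fun s => usB q r s) (cyG x) (0, 0, 0, 0)

theorem us_symm (x : Ins) (q r : Sq4) : us x q r = us x r q := by
  unfold us
  congr 1
  funext s
  rw [Bool.eq_iff_iff, usB_iff, usB_iff, uS_comm]

theorem pt_us {ι : Type} [DEnc ι] {x : ι → Ins} {q r : ι → Sq4} (hx : PT x) (hq : PT q) (hr : PT r) :
    PT (fun y => us (x y) (q y) (r y)) :=
  pt_findD (p := fun z : ι × Sq4 => usB (q z.1) (r z.1) z.2)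
    (pt_usB (hq.comp PT.fst) (hr.comp PT.fst) PT.snd) (pt_cyG hx) (PT.const _)

/-! ### counting -/

lemma sy_ne {a b c d : ℕ} (h : a ≠ c ∨ b ≠ d) (h' : a ≠ d ∨ b ≠ c) : s(a, b) ≠ s(c, d) := by
  intro h1
  rw [Sym2.eq_iff] at h1
  rcases h1 with ⟨rfl, rfl⟩ | ⟨rfl, rfl⟩
  · rcases h with h | h <;> exact h rfl
  · rcases h' with h | h <;> exact h rfl

/-- the edges of two triangles with one common edge are different -/
lemma ne5 {a b c d : ℕ} (h : Dist4 a b c d) : (s(a, b) ≠ s(a, c) ∧ s(a, b) ≠ s(b, c) ∧ s(a, b) ≠ s(a, d) ∧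
    s(a, b) ≠ s(b, d)) ∧ (s(a, c) ≠ s(b, c) ∧ s(a, c) ≠ s(a, d) ∧ s(a, c) ≠ s(b, d)) ∧
    (s(b, c) ≠ s(a, d) ∧ s(b, c) ≠ s(b, d)) ∧ s(a, d) ≠ s(b, d) := by
  obtain ⟨ab, ac, ad, bc, bd, cd⟩ := h
  exact ⟨⟨sy_ne (Or.inr bc) (Or.inl ac), sy_ne (Or.inl ab) (Or.inl ac), sy_ne (Or.inr bd) (Or.inl ad),
    sy_ne (Or.inl ab) (Or.inl ad)⟩, ⟨sy_ne (Or.inl ab) (Or.inl ac), sy_ne (Or.inr cd) (Or.inl ad),
    sy_ne (Or.inl ab) (Or.inl ad)⟩, ⟨sy_ne (Or.inr cd) (Or.inl bd), sy_ne (Or.inr cd) (Or.inl bd)⟩,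
    sy_ne (Or.inl ab) (Or.inl ad)⟩

lemma mem_tri3 {a b c : ℕ} {f : Sym2 ℕ} : f ∈ tri a b c ↔ f = s(a, b) ∨ f = s(a, c) ∨ f = s(b, c) := by
  rw [Sym2.eq_swap (a := a) (b := c)]
  simp only [tri, mem_insert, mem_singleton]
  tauto

lemma mem_sq4 {a b c d : ℕ} {f : Sym2 ℕ} :
    f ∈ TFC.sq a c b d ↔ f = s(a, c) ∨ f = s(b, c) ∨ f = s(a, d) ∨ f = s(b, d) := by
  rw [Sym2.eq_swap (a := b) (b := c), Sym2.eq_swap (a := a) (b := d)]
  simp only [TFC.sq, mem_insert, mem_singleton]
  tauto

/-- the symmetric difference of two triangles with one common edge -/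
lemma tri_sd {a b c d : ℕ} (h : Dist4 a b c d) :
    (tri a b c \ tri a b d) ∪ (tri a b d \ tri a b c) = TFC.sq a c b d := by
  obtain ⟨⟨n1, n2, n3, n4⟩, ⟨o1, o2, o3⟩, ⟨o4, o5⟩, o6⟩ := ne5 h
  ext f
  rw [mem_union, mem_sdiff, mem_sdiff, mem_tri3, mem_tri3, mem_sq4]
  constructor
  · rintro (⟨h1, h2⟩ | ⟨h1, h2⟩)
    · rcases h1 with h1 | h1 | h1
      · exact absurd (Or.inl h1) h2
      · exact Or.inl h1
      · exact Or.inr (Or.inl h1)
    · rcases h1 with h1 | h1 | h1
      · exact absurd (Or.inl h1) h2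
      · exact Or.inr (Or.inr (Or.inl h1))
      · exact Or.inr (Or.inr (Or.inr h1))
  · intro h
    rcases h with rfl | rfl | rfl | rfl
    · refine Or.inl ⟨Or.inr (Or.inl rfl), ?_⟩
      rintro (h | h | h)
      · exact n1 h.symm
      · exact o2 h
      · exact o3 h
    · refine Or.inl ⟨Or.inr (Or.inr rfl), ?_⟩
      rintro (h | h | h)
      · exact n2 h.symm
      · exact o4 h
      · exact o5 h
    · refine Or.inr ⟨Or.inr (Or.inl rfl), ?_⟩
      rintro (h | h | h)
      · exact n3 h.symm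
      · exact o2 h.symm
      · exact o4 h.symm
    · refine Or.inr ⟨Or.inr (Or.inr rfl), ?_⟩
      rintro (h | h | h)
      · exact n4 h.symm
      · exact o3 h.symm
      · exact o5 h.symm

/-- indicator -/
def ind (S : Finset (Sym2 ℕ)) (e : Sym2 ℕ) : ℕ := if e ∈ S then 1 else 0

lemma ind_le (S : Finset (Sym2 ℕ)) (e : Sym2 ℕ) : ind S e ≤ 1 := by
  unfold ind; split_ifs <;> omega

lemma card_ins_inter {e : Sym2 ℕ} {A S : Finset (Sym2 ℕ)} (h : e ∉ A) :
    #(insert e A ∩ S) = ind S e + #(A ∩ S) := by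
  unfold ind
  by_cases he : e ∈ S
  · rw [if_pos he, Finset.insert_inter_of_mem he, Finset.card_insert_of_notMem, add_comm]
    exact fun hc => h (Finset.mem_inter.1 hc).1
  · rw [if_neg he, Finset.insert_inter_of_notMem he, zero_add]

lemma card_sing_inter {e : Sym2 ℕ} {S : Finset (Sym2 ℕ)} : #({e} ∩ S) = ind S e := by
  have := card_ins_inter (e := e) (A := ∅) (S := S) (by simp)
  simpa using this

lemma card_tri_inter {a b c : ℕ} (h : Dist3 a b c) (S : Finset (Sym2 ℕ)) :
    #(tri a b c ∩ S) = ind S s(a, b) + (ind S s(b, c) + ind S s(c, a)) := by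
  obtain ⟨ab, ac, bc⟩ := h
  unfold tri
  rw [card_ins_inter, card_ins_inter, card_sing_inter]
  · rw [mem_singleton]; exact sy_ne (Or.inl bc) (Or.inl ab.symm)
  · rw [mem_insert, mem_singleton, not_or]
    exact ⟨sy_ne (Or.inl ab) (Or.inl ac), sy_ne (Or.inl ac) (Or.inr bc)⟩

lemma card_sq_inter {a b c d : ℕ} (h : Dist4 a b c d) (S : Finset (Sym2 ℕ)) :
    #(TFC.sq a b c d ∩ S) = ind S s(a, b) + (ind S s(b, c) + (ind S s(c, d) + ind S s(d, a))) := by
  obtain ⟨ab, ac, ad, bc, bd, cd⟩ := h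
  unfold TFC.sq
  rw [card_ins_inter, card_ins_inter, card_ins_inter, card_sing_inter]
  · rw [mem_singleton]; exact sy_ne (Or.inl cd) (Or.inl ac.symm)
  · rw [mem_insert, mem_singleton, not_or]
    exact ⟨sy_ne (Or.inl bc) (Or.inl bd), sy_ne (Or.inl bd) (Or.inl ab.symm)⟩
  · rw [mem_insert, mem_insert, mem_singleton, not_or, not_or]
    exact ⟨sy_ne (Or.inl ab) (Or.inl ac), sy_ne (Or.inl ac) (Or.inl ad), sy_ne (Or.inl ad) (Or.inr bd)⟩

lemma card_tri_eq {a b c : ℕ} (h : Dist3 a b c) : #(tri a b c) = 3 := by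
  have := card_tri_inter h (tri a b c)
  rw [inter_self] at this
  rw [this]
  unfold ind
  simp [tri]

theorem conf3_self {q : Sq4} (h : CyOK q) : conf3 q q = false := by
  rw [← Bool.not_eq_true, conf3_iff h, Finset.inter_self]
  rcases sh_card h.sh with h1 | h1 <;> omega

theorem isT_of {q : Sq4} (h : CyOK q) (hs : IsSq (cys q)) : isT q = false := by
  cases ht : isT q with
  | false => rfl
  | true => exact absurd hs fun h' => tri_not_sq (isTri_of h ht) h'

/-! ### the union square -/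

/-- two triangles with exactly one common edge -/
theorem conf_tri {q r : Sq4} (hq : CyOK q) (hr : CyOK r) (tq : isT q = true) (tr : isT r = true)
    (h : conf3 q r = true) : ∃ a b c d, Dist4 a b c d ∧ cys q = tri a b c ∧ cys r = tri a b d := by
  rw [conf3_iff hq] at h
  obtain ⟨e, he⟩ := Finset.card_eq_one.1 h
  have he1 : e ∈ cys q ∩ cys r := by rw [he]; exact Finset.mem_singleton_self _
  obtain ⟨e1, e2⟩ := Finset.mem_inter.1 he1
  induction e using Sym2.ind with
  | _ a b =>
    obtain ⟨c, hc, ec⟩ := isTri_first (isTri_of hq tq) e1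
    obtain ⟨d, hd, ed⟩ := isTri_first (isTri_of hr tr) e2
    refine ⟨a, b, c, d, ?_, ec, ed⟩
    have hcd : c ≠ d := by
      rintro rfl
      rw [ec, ed, Finset.inter_self, card_tri_eq hc] at h
      omega
    exact ⟨hc.1, hc.2.1, hd.2.1, hc.2.2, hd.2.2, hcd⟩

theorem us_spec {x : Ins} (hx : InsWF x) {q r : Sq4} (hq : q ∈ cyG x) (hr : r ∈ cyG x) {a b c d : ℕ}
    (hd : Dist4 a b c d) (eq : cys q = tri a b c) (er : cys r = tri a b d) :
    us x q r ∈ cyG x ∧ isT (us x q r) = false ∧ cys (us x q r) = TFC.sq a c b d ∧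
      cys (us x q r) = uS q r := by
  have hd' := hd
  obtain ⟨ab, ac, ad, bc, bd, cd⟩ := hd'
  have hsq : Dist4 a c b d := ⟨ac, ab, ad, bc.symm, cd, bd⟩
  have s1 := tri_sub.1 (eq ▸ cyG_sub hq)
  have s2 := tri_sub.1 (er ▸ cyG_sub hr)
  have hin : TFC.sq a c b d ⊆ fs x.2 := sq_sub.2 ⟨msw s1.2.2, msw s1.2.1, s2.2.1, s2.2.2⟩
  have hU : uS q r = TFC.sq a c b d := by
    unfold uS
    rw [eq, er]
    exact tri_sd hd
  obtain ⟨s, hs, _, e⟩ := cyG_sq hx hsq hin
  obtain ⟨h1, h2⟩ := findD_spec (fun s => usB q r s) (cyG x) (0, 0, 0, 0) ⟨s, hs, usB_iff.2 (e.trans hU.symm)⟩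
  have hdef : findD (fun s => usB q r s) (cyG x) (0, 0, 0, 0) = us x q r := rfl
  rw [hdef] at h1 h2
  rw [usB_iff] at h2
  refine ⟨h1, isT_of (cyG_ok _ h1) ⟨a, c, b, d, hsq, h2.trans hU⟩, h2.trans hU, h2⟩

/-- harmful triangles have a harmful union square -/
theorem us_hs3 {T : Finset ℕ} {a b c d : ℕ} (hd : Dist4 a b c d) (h1 : Hs3 T (tri a b c))
    (h2 : Hs3 T (tri a b d)) : Hs3 T (TFC.sq a c b d) := by
  have key : ∀ {a b c : ℕ}, Dist3 a b c → Hs3 T (tri a b c) → (a ∈ T ∧ b ∈ T) ∨ (a ∈ T ∧ c ∈ T) ∨ (b ∈ T ∧ c ∈ T) := by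
    intro a b c hd h
    rcases h with ⟨p, q, r, k, e, g1, g2⟩ | ⟨p, q, r, t, k, e, -⟩
    · have v1 := tri_vx (show Vx (tri a b c) p by rw [e]; exact vx_mk (b := q) (by simp [tri]))
      have v2 := tri_vx (show Vx (tri a b c) q by rw [e]; exact vx_mk (b := r) (by simp [tri]))
      have k1 := k.1
      rcases v1 with rfl | rfl | rfl <;> rcases v2 with rfl | rfl | rfl <;> tauto
    · exact absurd ⟨_, _, _, _, k, rfl⟩ (fun h' : IsSq (TFC.sq p q r t) =>
        tri_not_sq (Z := tri a b c) ⟨_, _, _, hd, rfl⟩ (by rw [e]; exact h'))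
  obtain ⟨ab, ac, ad, bc, bd, cd⟩ := hd
  have k1 := key ⟨ab, ac, bc⟩ h1
  have k2 := key ⟨ab, ad, bd⟩ h2
  by_cases hab : a ∈ T ∧ b ∈ T
  · exact Or.inr ⟨a, c, b, d, ⟨ac, ab, ad, bc.symm, cd, bd⟩, rfl, hab.1, hab.2⟩
  · have hcd : c ∈ T ∧ d ∈ T := by tauto
    refine Or.inr ⟨c, b, d, a, ⟨bc.symm, cd, ac.symm, bd, ab.symm, ad.symm⟩, ?_, hcd.1, hcd.2⟩
    ext e; simp only [TFC.sq, Finset.mem_insert, Finset.mem_singleton]; tauto

theorem cyG_lt {x : Ins} (hx : InsWF x) {q : Sq4} (hq : q ∈ cyG x) : ∀ v, Vx (cys q) v → v < x.1 := by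
  rintro v ⟨e, he, hv⟩
  exact hx.vlt (cyG_sub hq he) hv

theorem us_ok {x : Ins} (hx : InsWF x) {g : List ℕ} {q r : Sq4} (hq : q ∈ cyG x) (hr : r ∈ cyG x)
    (tq : isT q = true) (tr : isT r = true) (h : conf3 q r = true) :
    us x q r ∈ cyG x ∧ isT (us x q r) = false ∧
      (harm3 g q = true → harm3 g r = true → harm3 g (us x q r) = true) := by
  obtain ⟨a, b, c, d, hd, eq, er⟩ := conf_tri (cyG_ok q hq) (cyG_ok r hr) tq tr h
  obtain ⟨h1, h2, h3, _⟩ := us_spec hx hq hr hd eq er
  refine ⟨h1, h2, ?_⟩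
  rw [harm3_iff (cyG_ok q hq) (cyG_lt hx hq), harm3_iff (cyG_ok r hr) (cyG_lt hx hr),
    harm3_iff (cyG_ok _ h1) (cyG_lt hx h1), h3, eq, er]
  exact us_hs3 hd

/-- crossing: a short cycle which meets the union square in exactly one edge -/
theorem us_cross {x : Ins} (hx : InsWF x) {q r s : Sq4} (hq : q ∈ cyG x) (hr : r ∈ cyG x) (hs : s ∈ cyG x)
    (tq : isT q = true) (tr : isT r = true) (h : conf3 q r = true) (h1 : conf3 (us x q r) s = true)
    (h2 : conf3 r s = false) : conf3 q s = true := by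
  obtain ⟨a, b, c, d, hd, eq, er⟩ := conf_tri (cyG_ok q hq) (cyG_ok r hr) tq tr h
  obtain ⟨u1, u2, u3, _⟩ := us_spec hx hq hr hd eq er
  rw [conf3_iff (cyG_ok _ u1), u3] at h1
  rw [← Bool.not_eq_true, conf3_iff (cyG_ok _ hr), er] at h2
  rw [conf3_iff (cyG_ok _ hq), eq]
  obtain ⟨ab, ac, ad, bc, bd, cd⟩ := hd
  rw [card_sq_inter ⟨ac, ab, ad, bc.symm, cd, bd⟩] at h1
  rw [card_tri_inter ⟨ab, ad, bd⟩] at h2
  rw [card_tri_inter ⟨ab, ac, bc⟩]
  rw [Sym2.eq_swap (a := a) (b := c), Sym2.eq_swap (a := c) (b := b)] at h1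
  have k1 := ind_le (cys s) s(a, b)
  have k2 := ind_le (cys s) s(c, a)
  have k3 := ind_le (cys s) s(b, c)
  have k4 := ind_le (cys s) s(b, d)
  have k5 := ind_le (cys s) s(d, a)
  generalize ind (cys s) s(a, b) = x1 at *
  generalize ind (cys s) s(c, a) = x2 at *
  generalize ind (cys s) s(b, c) = x3 at *
  generalize ind (cys s) s(b, d) = x4 at *
  generalize ind (cys s) s(d, a) = x5 at *
  omega

/-- the list form of the structure of the family gives the set form -/
theorem starL_starV {x : Ins} (hx : InsWF x) {D : List Sq4} (hD : ∀ q ∈ D, q ∈ cyG x)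
    (h : ∀ q ∈ D, ∀ r ∈ D, conf3 q r = true → isT q = true ∧ isT r = true ∧ us x q r ∈ D) :
    StarV (CF D) := by
  refine starV_of (fun q hq => cyG_ok q (hD q hq)) ?_
  intro q hq r hr hc
  obtain ⟨t1, t2, t3⟩ := h q hq r hr hc
  refine ⟨t1, t2, us x q r, t3, ?_⟩
  obtain ⟨a, b, c, d, hd, eq, er⟩ := conf_tri (cyG_ok q (hD q hq)) (cyG_ok r (hD r hr)) t1 t2 hc
  obtain ⟨_, _, _, u4⟩ := us_spec hx (hD q hq) (hD r hr) hd eq er
  rw [u4]
  unfold uS
  ext e
  simp only [mem_union, mem_sdiff, mem_inter]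
  tauto

end Pool.Agent.P34

end

section -- file P34/SX3

/-!
# 2F({3,4}) is in P, given `solver` and `xf1`

The interface `SX3` of the two missing functions (dead-list form), only for demands with the values `0` and `2`: a vertex `v` of
demand `1` is replaced by a vertex of demand `2` with a pendant edge.
-/

set_option autoImplicit false
set_option linter.unusedSectionVars false
set_option linter.unusedVariables false

namespace Pool.Agent.P34

open Finset Pool.Agent.TFC Pool.Agent.PF4 Pool.Agent.Lib.helper60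

/-- the interface of the solver and of the function which removes a short cycle from a clause -/
structure SX3 where
  /-- `solver (x, g, W, D)`: find a `g`-cover without member of `D` -/
  solver : Ins × List ℕ × List (ℕ × List Ed) × List Sq4 → Bool × List Ed
  /-- `xf1 (x, g, W, N, Q, R)`: find a `g`-cover whose clause is in the clause of `N` and does not contain `Q` (if `Q` and `R`
  are triangles, it may contain their union square) -/
  xf1 : Ins × List ℕ × List (ℕ × List Ed) × List Ed × Sq4 × Sq4 → Bool × List Ed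
  pt_solver : PT solver
  pt_xf1 : PT xf1
  solver_spec : ∀ x g W v D, InsWF x → Da3 x g W v → Ev x g → D.Nodup →
    (∀ Q ∈ D, Q ∈ cyG x ∧ harm3 g Q = true) → StarV (CF D) →
    ((solver (x, g, W, D)).1 = true →
      MG x (solver (x, g, W, D)).2 ∧ Cov x.1 g (degL (solver (x, g, W, D)).2) ∧
      ∀ Q ∈ D, cyIn (solver (x, g, W, D)).2 Q = false) ∧
    ((solver (x, g, W, D)).1 = false → ¬ ∃ L, VM3 x L ∧ Cov x.1 g (degL L))
  xf1_spec : ∀ x g W v N Q R, InsWF x → Da3 x g W v → Ev x g → MG x N → Cov x.1 g (degL N) →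
    Q ∈ clS3 x g N → R ∈ cyG x → (xf1 (x, g, W, N, Q, R)).1 = true →
    MG x (xf1 (x, g, W, N, Q, R)).2 ∧ Cov x.1 g (degL (xf1 (x, g, W, N, Q, R)).2) ∧
      ∀ Z ∈ clS3 x g (xf1 (x, g, W, N, Q, R)).2,
        (Z ∈ clS3 x g N ∧ Z ≠ Q) ∨ (isT Q = true ∧ isT R = true ∧ cys Z = uS Q R)
  xf1_alt : ∀ x g W v F N Q R, InsWF x → Da3 x g W v → Ev x g → MG x F → Cov x.1 g (degL F) →
    MG x N → Cov x.1 g (degL N) → Q ∈ clS3 x g F → R ∈ clS3 x g N → conf3 Q R = true →
    (xf1 (x, g, W, F, Q, R)).1 = true ∨ (xf1 (x, g, W, N, R, Q)).1 = true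

/-- the interface of the inner loop -/
def SX3.toIn (A : SX3) : In3Api Ins (List Ed) Sq4 where
  nv := fun x => x.1
  deg := fun _ M u => degL M u
  m2 := MG
  wf := InsWF
  sqs := cyG
  has := fun _ M q => cyIn M q
  opp := fun _ g q => harm3 g q
  conf := conf3
  tri := isT
  us := us
  emp := []
  k0 := (0, 0, 0, 0)
  exch := exV3
  solver := fun y => ((A.solver y).1, nrm y.1 (A.solver y).2)
  xf1 := fun y => ((A.xf1 y).1, nrm y.1 (A.xf1 y).2)
  brk := fun y => brk3 y.2.1 (cyG y.1) y.2.2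
  B := fun x => tsize x
  pt_nv := PT.fst
  pt_deg := pt_degL PT.snd.p1 PT.snd.p2
  pt_sqs := pt_cyG PT.id
  pt_has := pt_cyIn PT.snd.p1 PT.snd.p2
  pt_opp := pt_harm3 PT.snd.p1 PT.snd.p2
  pt_conf := pt_conf3 PT.fst PT.snd
  pt_tri := pt_isT PT.id
  pt_us := pt_us PT.fst PT.snd.p1 PT.snd.p2
  pt_eq := by
    have h : PT (fun y : Sq4 × Sq4 => decide (y.1.1 = y.2.1) && (decide (y.1.2.1 = y.2.2.1) &&
        (decide (y.1.2.2.1 = y.2.2.2.1) && decide (y.1.2.2.2 = y.2.2.2.2)))) :=
      PT.band (PT.neq PT.fst.p1 PT.snd.p1) (PT.band (PT.neq PT.fst.p2.p1 PT.snd.p2.p1)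
        (PT.band (PT.neq PT.fst.p2.p2.p1 PT.snd.p2.p2.p1) (PT.neq PT.fst.p2.p2.p2 PT.snd.p2.p2.p2)))
    refine h.congr ?_
    rintro ⟨⟨a, b, c, d⟩, ⟨a', b', c', d'⟩⟩
    simp only [Prod.mk.injEq, Bool.decide_and]
  pt_exch := pt_exV3
  pt_solver := PT.pair (PT.p1 A.pt_solver) (pt_nrm PT.fst (PT.p2 A.pt_solver))
  pt_xf1 := PT.pair (PT.p1 A.pt_xf1) (pt_nrm PT.fst (PT.p2 A.pt_xf1))
  pt_brk := pt_brk3 PT.snd.p1 (pt_cyG PT.fst) PT.snd.p2
  pb := PB.tsize
  size_exch := fun y => tsize_nrm y.1 _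
  size_solver := fun y => tsize_nrm y.1 _
  size_xf1 := fun y => tsize_nrm y.1 _
  sqs_nodup := fun x _ => cyG_nodup x
  conf_self := fun x Q _ hQ => conf3_self (cyG_ok Q hQ)
  conf_symm := fun _ _ _ _ hQ hR => conf3_symm (cyG_ok _ hQ) (cyG_ok _ hR)
  us_symm := us_symm
  us_spec := by
    intro x g Q R hx hQ hR tQ tR hc h1 h2
    obtain ⟨k1, k2, k3⟩ := us_ok hx (g := g) hQ hR tQ tR hc
    exact ⟨k1, k2, k3 h1 h2⟩
  us_cross := fun x Q R S hx hQ hR hS tQ tR hc h1 h2 => us_cross hx hQ hR hS tQ tR hc h1 h2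
  emp_valid := by
    intro x _
    have h0 : ∀ v, dg (fs ([] : List Ed)) v = 0 := by intro v; rw [fs_nil]; rfl
    refine ⟨⟨WF.nil, ⟨?_, ?_⟩, ?_⟩, fun q _ => rfl⟩
    · intro e he; rw [fs_nil] at he; simp at he
    · intro v; rw [h0]; omega
    · rw [fs_nil]; exact Finset.empty_subset _
  exch_spec := fun x M L v hx hM hL _ h => exV3_spec hx hM hL h
  solver_spec := by
    intro x g W v D hx hd h01 hn hD hc
    obtain ⟨h1, h2⟩ := A.solver_spec x g W v D hx hd h01 hn hD
      (starL_starV hx (fun q hq => (hD q hq).1) hc)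
    refine ⟨fun h => ?_, h2⟩
    obtain ⟨k1, k2, k3⟩ := h1 h
    refine ⟨k1.nrm hx, cov_nrm k1 hx k2, ?_⟩
    intro q hq
    have := k3 q hq
    rw [← cyIn_nrm k1] at this
    exact this
  xf1_spec := by
    intro x g W v N Q R hx hd h01 hN hNc hQ hR1 hR2 hc ht
    obtain ⟨k1, k2, k3⟩ := A.xf1_spec x g W v N Q R hx hd h01 hN hNc hQ hR1 ht
    refine ⟨k1.nrm hx, cov_nrm k1 hx k2, ?_⟩
    have e := clS3_nrm k1 g
    unfold clS3 at e k3
    rw [e]
    intro Z hZ
    rcases k3 Z hZ with h | ⟨h3, h4, h5⟩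
    · exact Or.inl h
    · refine Or.inr ⟨h3, h4, ?_⟩
      have hQG : Q ∈ cyG x := List.mem_of_mem_filter hQ
      have hZG : Z ∈ cyG x := List.mem_of_mem_filter hZ
      obtain ⟨a, b, c, d, hd4, eq, er⟩ := conf_tri (cyG_ok Q hQG) (cyG_ok R hR1) h3 h4 hc
      obtain ⟨u1, _, _, u4⟩ := us_spec hx hQG hR1 hd4 eq er
      exact cyG_inj hZG u1 (h5.trans u4.symm)
  xf1_alt := fun x g W v F N Q R hx hd h01 f1 f2 n1 n2 hQ hR hc =>
    A.xf1_alt x g W v F N Q R hx hd h01 f1 f2 n1 n2 hQ hR hc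
  brk_spec := by
    intro x g N hx _ _ hN hc hcl
    obtain ⟨h1, h2, h3, h4⟩ := brk3_spec g x.1 (cyG x) N cyG_ok (fun q hq hh hs => by
      have : q ∈ (cyG x).filter (fun Q => harm3 g Q && cyIn N Q) := by
        rw [List.mem_filter, hh, (cyIn_iff N q).2 hs]
        exact ⟨hq, rfl⟩
      rw [hcl] at this
      cases this) hN.wf hc
    refine ⟨⟨⟨h1, hN.m2.mono h2, h2.trans hN.sub⟩, fun q hq => ?_⟩, h3⟩
    have := h4 q hq
    rwa [← cyIn_iff, Bool.not_eq_true] at this

/-! ### the pendant edge -/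

/-- no short cycle -/
def ShFree (z : Finset (Sym2 ℕ)) : Prop := ∀ Z, IsSh Z → ¬ Z ⊆ z

/-- a valid 2-matching has no short cycles -/
theorem vm3_iff {x : Ins} (hx : InsWF x) {M : List Ed} : VM3 x M ↔ MG x M ∧ ShFree (fs M) := by
  constructor
  · intro h
    exact ⟨h.1, fun Z hZ => h.no hx hZ⟩
  · rintro ⟨h1, h2⟩
    refine ⟨h1, fun q hq => ?_⟩
    rw [← Bool.not_eq_true, cyIn_iff]
    exact h2 _ (cyG_ok q hq).sh

section pend

variable {x : Ins} {v : ℕ}

theorem shFree_pend (hx : InsWF x) (hv : v < x.1) {z : Finset (Sym2 ℕ)} (hz : z ⊆ insert s(v, x.1) (fs x.2))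
    (h : ShFree (z.erase s(v, x.1))) : ShFree z := by
  intro Z hZ hs
  refine h Z hZ fun e he => Finset.mem_erase.2 ⟨?_, hs he⟩
  rintro rfl
  -- the new vertex has a second neighbour
  have he' : s(x.1, v) ∈ Z := msw he
  obtain ⟨w, hw, h1⟩ := sh_two hZ he'
  rcases Finset.mem_insert.1 (hz (hs h1)) with h2 | h2
  · rcases Sym2.eq_iff.1 h2 with ⟨h3, h4⟩ | ⟨_, h4⟩
    · omega
    · exact hw h4
  · have := hx.vlt h2 (Sym2.mem_mk_left _ _)
    omega

theorem padM_vm3 (hx : InsWF x) (hv : v < x.1) {M : List Ed} (hM : VM3 x M) :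
    VM3 (padX x v) (padM v x.1 M) := by
  have h1 := (vm3_iff hx).1 hM
  refine (vm3_iff (padX_wf hx hv)).2 ⟨padM_mg hx hv hM.1, ?_⟩
  have hsub : fs (padM v x.1 M) ⊆ insert s(v, x.1) (fs x.2) := by
    rw [← fs_padX]
    exact (padM_mg hx hv hM.1).sub
  refine shFree_pend hx hv hsub ?_
  have e : (fs (padM v x.1 M)).erase s(v, x.1) = fs M := by
    rw [fs_padM]
    split_ifs
    · rw [Finset.erase_insert (pend_notMem hx hM.1.sub)]
    · rw [Finset.erase_eq_of_notMem (pend_notMem hx hM.1.sub)]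
  rw [e]
  exact h1.2

/-- back to the instance without the pendant edge -/
theorem back3 (hx : InsWF x) (hv : v < x.1) {L : List Ed} (hL : VM3 (padX x v) L) :
    VM3 x (nrm x L) ∧ ∀ u < x.1, degL L u ≤ degL (nrm x L) u + (if u = v then 1 else 0) := by
  have h1 := (vm3_iff (padX_wf hx hv)).1 hL
  have e : fs (nrm x L) = fs x.2 ∩ fs L := fs_norm _ _
  have hsub : fs (nrm x L) ⊆ fs L := by rw [e]; exact Finset.inter_subset_right
  have hwf : WF (nrm x L) := hx.wf.norm _
  refine ⟨(vm3_iff hx).2 ⟨⟨hwf, h1.1.m2.mono hsub, by rw [e]; exact Finset.inter_subset_left⟩, ?_⟩, ?_⟩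
  · intro Z hZ hs
    exact h1.2 Z hZ (hs.trans hsub)
  · intro u hu
    rw [degL_eq h1.1.wf, degL_eq hwf]
    have h2 : fs L ⊆ insert s(v, x.1) (fs (nrm x L)) := by
      intro f hf
      have hf' := h1.1.sub hf
      rw [fs_padX] at hf'
      rcases Finset.mem_insert.1 hf' with h3 | h3
      · rw [h3]; exact Finset.mem_insert_self _ _
      · refine Finset.mem_insert_of_mem ?_
        rw [e, Finset.mem_inter]
        exact ⟨h3, hf⟩
    have h3 := dg_mono h2 u
    have h4 : s(v, x.1) ∉ fs (nrm x L) := pend_notMem hx (by rw [e]; exact Finset.inter_subset_left)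
    have h5 := dg_insert h4 u
    by_cases huv : u = v
    · subst huv
      rw [if_pos (Sym2.mem_mk_left _ _)] at h5
      rw [if_pos rfl]
      omega
    · rw [if_neg (by
        intro h
        rcases Sym2.mem_iff.1 h with h | h
        · exact huv h
        · omega)] at h5
      rw [if_neg huv]
      omega

theorem pad_dat3 (hx : InsWF x) {g : List ℕ} {W : List (ℕ × List Ed)} (hd : Da3 x g W v)
    (h1 : g.getD v 0 = 1) :
    Da3 (padX x v) (padG x.1 g v) (padW v x.1 W) v ∧ Ev (padX x v) (padG x.1 g v) := by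
  have hv : v < x.1 := hd.lt
  have hn : g.getD x.1 0 = 0 := List.getD_eq_default _ _ hd.len.le
  have key : ∀ u < x.1 + 1, u ≠ v → g.getD u 0 = 0 ∨ g.getD u 0 = 2 := by
    intro u hu huv
    by_cases h : u = x.1
    · rw [h, hn]; exact Or.inl rfl
    · exact hd.off u (by show u < x.1; omega) huv
  have hmap : (padW v x.1 W).map Prod.fst = W.map Prod.fst := by
    unfold padW
    rw [List.map_map]
    rfl
  refine ⟨⟨?_, ?_, ?_, ?_, ?_, ?_, ?_, ?_⟩, ?_⟩
  · show (padG x.1 g v).length = x.1 + 1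
    simp [padG]
  · show v < x.1 + 1
    omega
  · rw [padG_getD _ _ _ _ (by omega), if_pos rfl]; omega
  · rw [padG_getD _ _ _ _ (by omega), if_pos rfl]
  · intro u hu huv
    rw [padG_getD _ _ _ _ hu, if_neg huv]
    exact key u hu huv
  · intro p hp
    obtain ⟨q, hq, rfl⟩ := List.mem_map.1 hp
    obtain ⟨k1, k2, k3⟩ := hd.tab q hq
    have k1' : q.1 < x.1 := k1
    have hdeg := padM_deg (v := v) hx hv k2.1
    refine ⟨by show q.1 < x.1 + 1; omega, padM_vm3 hx hv k2, ?_⟩
    intro u hu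
    rw [padG_getD _ _ _ _ hu]
    show _ ≤ degL (padM v x.1 q.2) u + (if u = q.1 then 1 else 0)
    by_cases huv : u = v
    · subst huv
      rw [if_pos rfl]
      by_cases huq : u = q.1
      · rw [if_pos huq]
        have := hdeg.2.1
        omega
      · rw [if_neg huq]
        have k4 : g.getD u 0 ≤ degL q.2 u + (if u = q.1 then 1 else 0) := k3 u hv
        rw [if_neg huq, h1] at k4
        have := hdeg.2.2 (by omega)
        omega
    · rw [if_neg huv]
      by_cases h : u = x.1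
      · rw [h, hn]; exact Nat.zero_le _
      · have hu' : u < x.1 := by
          have : u < x.1 + 1 := hu
          omega
        have k4 : g.getD u 0 ≤ degL q.2 u + (if u = q.1 then 1 else 0) := k3 u hu'
        rw [hdeg.1 u hu' huv]
        exact k4
  · intro w hw
    rw [hmap, padG_getD _ _ _ _ hw]
    by_cases hwv : w = v
    · subst hwv
      rw [if_pos rfl]
      constructor
      · intro _
        exact (hd.sup w hv).1 (by rw [h1])
      · intro _
        omega
    · rw [if_neg hwv]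
      by_cases h : w = x.1
      · rw [h, hn]
        constructor
        · intro h2; omega
        · intro h2
          obtain ⟨p, hp, h3⟩ := List.mem_map.1 h2
          have : p.1 < x.1 := (hd.tab p hp).1
          omega
      · exact hd.sup w (by
          have : w < x.1 + 1 := hw
          show w < x.1
          omega)
  · rw [hmap]; exact hd.nod
  · intro u hu
    rw [padG_getD _ _ _ _ hu]
    split_ifs with huv
    · exact Or.inr rfl
    · exact key u hu huv

end pend

/-- the inner algorithm for all demands -/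
def SX3.innerP (A : SX3) (y : Ins × List ℕ × List (ℕ × List Ed)) : Bool × List Ed :=
  if pv y.1.1 y.2.1 = y.1.1 then A.toIn.inner y
  else
    ((A.toIn.inner (padX y.1 (pv y.1.1 y.2.1), padG y.1.1 y.2.1 (pv y.1.1 y.2.1),
      padW (pv y.1.1 y.2.1) y.1.1 y.2.2)).1,
    nrm y.1 (A.toIn.inner (padX y.1 (pv y.1.1 y.2.1), padG y.1.1 y.2.1 (pv y.1.1 y.2.1),
      padW (pv y.1.1 y.2.1) y.1.1 y.2.2)).2)

theorem SX3.innerP_spec (A : SX3) {x : Ins} {g : List ℕ} {W : List (ℕ × List Ed)} {v : ℕ}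
    (hx : InsWF x) (hd : Da3 x g W v) :
    ((A.innerP (x, g, W)).1 = true → VM3 x (A.innerP (x, g, W)).2 ∧
      Cov x.1 g (degL (A.innerP (x, g, W)).2)) ∧
    ((A.innerP (x, g, W)).1 = false → ¬ ∃ L, VM3 x L ∧ Cov x.1 g (degL L)) := by
  unfold SX3.innerP
  simp only
  by_cases h : pv x.1 g = x.1
  · rw [if_pos h]
    have h1 := pv_none h
    refine A.toIn.inner_spec (x := x) (g := g) (W := W) (v := v) hx hd ?_
    intro u hu
    by_cases huv : u = v
    · have k1 := hd.one
      have k2 := hd.two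
      have k3 := h1 u hu
      subst huv
      omega
    · exact hd.off u hu huv
  · rw [if_neg h]
    obtain ⟨p1, p2⟩ := pv_some h
    have hpv : pv x.1 g = v := by
      by_contra hne
      rcases hd.off _ p1 hne with h3 | h3 <;> omega
    rw [hpv] at p1 p2 ⊢
    obtain ⟨hd', hev⟩ := pad_dat3 hx hd p2
    obtain ⟨k1, k2⟩ := A.toIn.inner_spec (x := padX x v) (g := padG x.1 g v) (W := padW v x.1 W) (v := v)
      (padX_wf hx p1) hd' hev
    refine ⟨fun h3 => ?_, fun h3 => ?_⟩
    · obtain ⟨k3, k4⟩ := k1 h3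
      have k3' : VM3 (padX x v) (A.toIn.inner (padX x v, padG x.1 g v, padW v x.1 W)).2 := k3
      obtain ⟨b1, b2⟩ := back3 hx p1 k3'
      refine ⟨b1, fun u hu => ?_⟩
      have k5 : (padG x.1 g v).getD u 0 ≤
          degL (A.toIn.inner (padX x v, padG x.1 g v, padW v x.1 W)).2 u :=
        k4 u (by show u < x.1 + 1; omega)
      rw [padG_getD _ _ _ _ (by omega)] at k5
      have k6 := b2 u hu
      show _ ≤ degL (nrm x (A.toIn.inner (padX x v, padG x.1 g v, padW v x.1 W)).2) u
      by_cases huv : u = v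
      · rw [if_pos huv] at k5 k6
        rw [huv, p2]
        rw [huv] at k5 k6
        omega
      · rw [if_neg huv] at k5 k6
        omega
    · rintro ⟨L, hL, hc⟩
      refine k2 h3 ⟨padM v x.1 L, padM_vm3 hx p1 hL, fun u hu => ?_⟩
      have hdeg := padM_deg (v := v) hx p1 hL.1
      have hu' : u < x.1 + 1 := hu
      rw [padG_getD _ _ _ _ hu']
      show _ ≤ degL (padM v x.1 L) u
      by_cases huv : u = v
      · rw [if_pos huv, huv]
        have := hc v p1
        rw [p2] at this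
        exact hdeg.2.2 this
      · rw [if_neg huv]
        by_cases h4 : u = x.1
        · rw [h4, List.getD_eq_default _ _ hd.len.le]; exact Nat.zero_le _
        · rw [hdeg.1 u (by omega) huv]
          exact hc u (by omega)

theorem SX3.pt_innerP (A : SX3) : PT A.innerP := by
  unfold SX3.innerP
  have x : PT (fun y : Ins × List ℕ × List (ℕ × List Ed) => y.1) := PT.fst
  have n : PT (fun y : Ins × List ℕ × List (ℕ × List Ed) => y.1.1) := PT.fst.p1
  have g : PT (fun y : Ins × List ℕ × List (ℕ × List Ed) => y.2.1) := PT.snd.p1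
  have W : PT (fun y : Ins × List ℕ × List (ℕ × List Ed) => y.2.2) := PT.snd.p2
  have v : PT (fun y : Ins × List ℕ × List (ℕ × List Ed) => pv y.1.1 y.2.1) := by
    unfold pv
    exact PT.headD (PT.filter (p := fun z : (Ins × List ℕ × List (ℕ × List Ed)) × ℕ =>
      decide (z.1.2.1.getD z.2 0 = 1)) (PT.range n)
      (PT.neq (PT.getD (g.comp PT.fst) PT.snd (PT.const 0)) (PT.const 1))) n
  have r : PT (fun y : Ins × List ℕ × List (ℕ × List Ed) =>
      A.toIn.inner (padX y.1 (pv y.1.1 y.2.1), padG y.1.1 y.2.1 (pv y.1.1 y.2.1),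
        padW (pv y.1.1 y.2.1) y.1.1 y.2.2)) := by
    refine A.toIn.pt_inner.comp (PT.pair ?_ (PT.pair ?_ ?_))
    · exact PT.pair (PT.nsucc n) (PT.cons (PT.pair v n) PT.fst.p2)
    · unfold padG
      refine PT.map (g := fun z : (Ins × List ℕ × List (ℕ × List Ed)) × ℕ =>
        if z.2 = pv z.1.1.1 z.1.2.1 then 2 else z.1.2.1.getD z.2 0) (PT.range (PT.nsucc n)) ?_
      exact PT.ite (PT.neq PT.snd (v.comp PT.fst)) (PT.const 2)
        (PT.getD (g.comp PT.fst) PT.snd (PT.const 0))
    · unfold padW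
      refine PT.map (g := fun z : (Ins × List ℕ × List (ℕ × List Ed)) × (ℕ × List Ed) =>
        (z.2.1, padM (pv z.1.1.1 z.1.2.1) z.1.1.1 z.2.2)) W ?_
      refine PT.pair PT.snd.p1 ?_
      unfold padM
      exact PT.ite (PT.nle (pt_degL PT.snd.p2 (v.comp PT.fst)) (PT.const 1))
        (PT.cons (PT.pair (v.comp PT.fst) (n.comp PT.fst)) PT.snd.p2) PT.snd.p2
  exact PT.ite (PT.neq v n) A.toIn.pt_inner (PT.pair r.p1 (pt_nrm x r.p2))

/-- the interface of the outer loop -/
def SX3.toOut (A : SX3) : OutApi Ins (List Ed) where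
  nv := fun x => x.1
  deg := fun _ M u => degL M u
  valid := VM3
  wf := InsWF
  emp := []
  exch := exV3
  inner := A.innerP
  B := fun x => tsize x
  pt_nv := PT.fst
  pt_deg := pt_degL PT.snd.p1 PT.snd.p2
  pt_exch := pt_exV3
  pt_inner := A.pt_innerP
  pb := PB.tsize
  size_exch := fun y => tsize_nrm y.1 _
  emp_valid := A.toIn.emp_valid
  exch_spec := fun x M L v hx hM hL _ h => exV3_spec hx hM hL h
  inner_spec := fun x g W v hx hd => A.innerP_spec hx hd

/-! ### the graph -/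

section
variable {n : ℕ} {G : SimpleGraph (Fin n)} {E : List (ℕ × ℕ)}

theorem fac_nat34 (hE : E.Nodup) (h1 : ∀ e ∈ E, e.1 < e.2 ∧ e.2 < n)
    (h2 : ∀ u v : Fin n, u < v → (G.Adj u v ↔ (u.val, v.val) ∈ E)) :
    (∃ L, VM3 (n, E) L ∧ ∀ u < n, 2 ≤ degL L u) ↔ ∃ F, IsFac34 G F := by
  have hx := insWF_of hE h1
  constructor
  · rintro ⟨L, hL, hd⟩
    have hnl : NoLoop (fs L) := hL.1.m2.nl
    have hlt : ∀ e ∈ fs L, ∀ v ∈ e, v < n := fun e he v hv => hx.vlt (hL.1.sub he) hv
    have hfree := ((vm3_iff hx).1 hL).2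
    let F : SimpleGraph (Fin n) :=
      { Adj := fun u v => s(u.val, v.val) ∈ fs L
        symm := ⟨fun u v h => msw h⟩
        loopless := ⟨fun u h => hnl _ h (by simp)⟩ }
    have hF : ∀ u v : Fin n, F.Adj u v ↔ s(u.val, v.val) ∈ fs L := fun _ _ => Iff.rfl
    refine ⟨F, ?_, ?_, ?_, ?_⟩
    · intro u v h
      exact (mem_fs_E h1 h2 u v).1 (hL.1.sub h)
    · intro v
      rw [ncard_adj hF hlt v]
      have k1 := hd v.val v.2
      rw [degL_eq hL.1.wf] at k1
      exact le_antisymm (hL.1.m2.le _) k1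
    · intro a b c e1 e2 e3
      refine hfree (tri a.val b.val c.val) (Or.inl ⟨_, _, _, ⟨?_, ?_, ?_⟩, rfl⟩) (tri_sub.2 ⟨e1, e2, e3⟩)
      · exact fun h => e1.ne (Fin.ext h)
      · exact fun h => e3.ne (Fin.ext h.symm)
      · exact fun h => e2.ne (Fin.ext h)
    · intro a b c d e1 e2 e3 e4
      by_contra hc
      push Not at hc
      refine hfree (TFC.sq a.val b.val c.val d.val) (Or.inr ⟨_, _, _, _, ⟨?_, ?_, ?_, ?_, ?_, ?_⟩, rfl⟩)
        (sq_sub.2 ⟨e1, e2, e3, e4⟩)
      · exact fun h => e1.ne (Fin.ext h)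
      · exact fun h => hc.1 (Fin.ext h)
      · exact fun h => e4.ne (Fin.ext h.symm)
      · exact fun h => e2.ne (Fin.ext h)
      · exact fun h => hc.2 (Fin.ext h)
      · exact fun h => e3.ne (Fin.ext h)
  · rintro ⟨F, hF⟩
    classical
    let L : List Ed := E.filter fun e => decide (∃ (h : e.1 < n) (h' : e.2 < n), F.Adj ⟨e.1, h⟩ ⟨e.2, h'⟩)
    have hmem : ∀ u v : Fin n, F.Adj u v ↔ s(u.val, v.val) ∈ fs L := by
      intro u v
      constructor
      · intro h
        obtain ⟨e, he, h3⟩ := mem_fs.1 ((mem_fs_E h1 h2 u v).2 (hF.le h))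
        refine mem_fs.2 ⟨e, ?_, h3⟩
        simp only [L, List.mem_filter, decide_eq_true_eq]
        refine ⟨he, ?_⟩
        obtain ⟨a, b⟩ := e
        unfold fe at h3
        simp only [Sym2.eq_iff] at h3
        rcases h3 with ⟨rfl, rfl⟩ | ⟨rfl, rfl⟩
        · exact ⟨u.2, v.2, h⟩
        · exact ⟨v.2, u.2, h.symm⟩
      · intro h
        obtain ⟨e, he, h3⟩ := mem_fs.1 h
        simp only [L, List.mem_filter, decide_eq_true_eq] at he
        obtain ⟨_, k1, k2, k3⟩ := he
        obtain ⟨a, b⟩ := e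
        unfold fe at h3
        simp only [Sym2.eq_iff] at h3
        rcases h3 with ⟨rfl, rfl⟩ | ⟨rfl, rfl⟩
        · exact k3
        · exact k3.symm
    have hsub : fs L ⊆ fs E := by
      intro e he
      obtain ⟨f, hf, rfl⟩ := mem_fs.1 he
      exact fe_mem_fs (List.mem_filter.1 hf).1
    have hlt : ∀ e ∈ fs L, ∀ v ∈ e, v < n := fun e he v hv => hx.vlt (hsub he) hv
    have hwf : WF L := WF.filter hx.wf _
    have hdeg : ∀ v : Fin n, dg (fs L) v.val = 2 := by
      intro v
      rw [← ncard_adj hmem hlt v]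
      exact hF.two v
    have hmg : MG (n, E) L := by
      refine ⟨hwf, ⟨fun e he => hx.nl e (hsub he), ?_⟩, hsub⟩
      intro v
      by_cases hv : v < n
      · exact (hdeg ⟨v, hv⟩).le
      · have : dg (fs L) v = 0 := by
          rw [dg, Finset.card_eq_zero, Finset.filter_eq_empty_iff]
          intro e he hv'
          exact hv (hlt e he v hv')
        omega
    refine ⟨L, (vm3_iff hx).2 ⟨hmg, ?_⟩, ?_⟩
    · intro Z hZ hs
      rcases hZ with ⟨a, b, c, _, rfl⟩ | ⟨a, b, c, d, hd4, rfl⟩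
      · obtain ⟨e1, e2, e3⟩ := tri_sub.1 hs
        have ha := hlt _ e1 a (Sym2.mem_mk_left _ _)
        have hb := hlt _ e1 b (Sym2.mem_mk_right _ _)
        have hc := hlt _ e2 c (Sym2.mem_mk_right _ _)
        exact hF.free3 ⟨a, ha⟩ ⟨b, hb⟩ ⟨c, hc⟩ ((hmem _ _).2 e1) ((hmem _ _).2 e2) ((hmem _ _).2 e3)
      · obtain ⟨e1, e2, e3, e4⟩ := sq_sub.1 hs
        have ha := hlt _ e1 a (Sym2.mem_mk_left _ _)
        have hb := hlt _ e1 b (Sym2.mem_mk_right _ _)
        have hc := hlt _ e2 c (Sym2.mem_mk_right _ _)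
        have hd := hlt _ e3 d (Sym2.mem_mk_right _ _)
        rcases hF.free4 ⟨a, ha⟩ ⟨b, hb⟩ ⟨c, hc⟩ ⟨d, hd⟩ ((hmem _ _).2 e1) ((hmem _ _).2 e2)
          ((hmem _ _).2 e3) ((hmem _ _).2 e4) with h | h
        · exact hd4.2.1 (Fin.mk.inj h)
        · exact hd4.2.2.2.2.1 (Fin.mk.inj h)
    · intro u hu
      rw [degL_eq hwf]
      exact (hdeg ⟨u, hu⟩).ge

end

/-- **2F({3,4}) is in P**, given `solver` and `xf1` for demands in `{0, 2}`. -/
theorem inP_of_SX3 (A : SX3) : InP TwoF34 := by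
  refine inP_of34 (dec := fun n E => (A.toOut.alg (n, E)).1) (PT.p1 A.toOut.pt_alg) ?_
  intro n G E hE g1 g2
  have hx : InsWF (n, E) := insWF_of hE g1
  rw [← fac_nat34 hE g1 g2]
  obtain ⟨k1, k2⟩ := A.toOut.alg_spec (x := (n, E)) hx
  constructor
  · intro h
    exact ⟨_, k1 h⟩
  · intro h
    cases h3 : (A.toOut.alg (n, E)).1 with
    | true => rfl
    | false => exact absurd h (k2 h3)

end Pool.Agent.P34

end
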