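import Pool.Agent.PFN.M08
import Pool.Agent.PFN.M17

section -- file P34/XU3

/-!
The edge sets without short cycle inside `K_{1,1,m}`, without bound on the degrees: their degree vectors form a jump set.

The edge of the centres is a virtual leaf `h` of `K2(a, b; L ∪ {h})` with the degree 0 or 2.
-/

set_option autoImplicit false

namespace Pool.Agent.P34

open Finset Pool.Agent.TFC Pool.Agent.PF4 Pool.Agent.PF4.LD Pool.Agent.PF4.XC Pool.Agent.PF4.XU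

/-- **a coordinate with the values 0 and 2 is forgotten** -/
theorem jb_drop {B : (ℕ → ℤ) → Prop} {h : ℕ} (hB : JB B) :
    JB (fun z => z h = 0 ∧ (B z ∨ B (z + Pi.single h 2))) := by
  rintro x y i ε ⟨hx0, hx⟩ ⟨hy0, hy⟩ hε hpos
  -- lifts
  have lift : ∀ z : ℕ → ℤ, z h = 0 → (B z ∨ B (z + Pi.single h 2)) →
      ∃ c : ℤ, (c = 0 ∨ c = 2) ∧ B (z + Pi.single h c) := by
    intro z _ hz
    rcases hz with hz | hz
    · exact ⟨0, Or.inl rfl, by rw [Pi.single_zero, add_zero]; exact hz⟩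
    · exact ⟨2, Or.inr rfl, hz⟩
  obtain ⟨c, hc, hxc⟩ := lift x hx0 hx
  obtain ⟨d, hd, hyd⟩ := lift y hy0 hy
  have back : ∀ z : ℕ → ℤ, z h = 0 → ∀ c : ℤ, (c = 0 ∨ c = 2) → B (z + Pi.single h c) →
      z h = 0 ∧ (B z ∨ B (z + Pi.single h 2)) := by
    intro z hz c hc hzc
    refine ⟨hz, ?_⟩
    rcases hc with rfl | rfl
    · rw [Pi.single_zero, add_zero] at hzc
      exact Or.inl hzc
    · exact Or.inr hzc
  have hih : i ≠ h := by
    rintro rfl
    rw [hx0, hy0] at hpos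
    simp at hpos
  have e1 : ∀ (z : ℕ → ℤ) (c : ℤ) (v : ℕ), v ≠ h → (z + Pi.single h c : ℕ → ℤ) v = z v := by
    intro z c v hv
    rw [Pi.add_apply, sgl, if_neg hv, add_zero]
  obtain ⟨z1, hz1, j, δ, hδ, hj, rfl⟩ := hB _ _ i ε hxc hyd hε (by rw [e1 _ _ _ hih, e1 _ _ _ hih]; exact hpos)
  by_cases hjh : j = h
  · subst hjh
    have h1 : (x + Pi.single j c + Pi.single i ε : ℕ → ℤ) j = c := by
      simp only [Pi.add_apply, sgl, if_true, if_neg (Ne.symm hih), hx0]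
      ring
    have h2 : (y + Pi.single j d : ℕ → ℤ) j = d := by
      simp only [Pi.add_apply, sgl, if_true, hy0]
      ring
    rw [h1, h2] at hj
    have h3 : c + δ + δ = d := by
      rcases hc with rfl | rfl <;> rcases hd with rfl | rfl <;> rcases hδ with rfl | rfl <;> omega
    have h4 : (x + Pi.single j c + Pi.single i ε + Pi.single j δ : ℕ → ℤ) j = c + δ := by
      rw [Pi.add_apply, h1, sgl, if_pos rfl]
    obtain ⟨z2, hz2, j', δ', hδ', hj', rfl⟩ := hB _ _ j δ hz1 hyd hδ (by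
      rw [h4, h2]
      rcases hδ with rfl | rfl <;> omega)
    have h5 : (x + Pi.single j c + Pi.single i ε + Pi.single j δ + Pi.single j δ : ℕ → ℤ) j = d := by
      rw [Pi.add_apply, h4, sgl, if_pos rfl, h3]
    have hj'h : j' ≠ j := by
      rintro rfl
      rw [h5, h2] at hj'
      simp at hj'
    have e2 : (x + Pi.single j c + Pi.single i ε + Pi.single j δ + Pi.single j δ : ℕ → ℤ) j' =
        (x + Pi.single i ε : ℕ → ℤ) j' := by
      simp only [Pi.add_apply, sgl, if_neg hj'h]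
      ring
    rw [e2, e1 _ _ _ hj'h] at hj'
    refine ⟨x + Pi.single i ε + Pi.single j' δ', back _ ?_ d hd ?_, j', δ', hδ', hj', rfl⟩
    · simp only [Pi.add_apply, sgl, if_neg (Ne.symm hih), if_neg (Ne.symm hj'h), hx0]
      ring
    · convert hz2 using 1
      funext v
      simp only [Pi.add_apply, sgl]
      by_cases hv : v = j
      · simp only [hv, if_true, if_neg (Ne.symm hih), if_neg (Ne.symm hj'h), hx0]
        omega
      · simp only [if_neg hv]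
        ring
  · have e2 : (x + Pi.single h c + Pi.single i ε : ℕ → ℤ) j = (x + Pi.single i ε : ℕ → ℤ) j := by
      simp only [Pi.add_apply, sgl, if_neg hjh]
      ring
    rw [e2, e1 _ _ _ hjh] at hj
    refine ⟨x + Pi.single i ε + Pi.single j δ, back _ ?_ c hc ?_, j, δ, hδ, hj, rfl⟩
    · simp only [Pi.add_apply, sgl, if_neg (Ne.symm hih), if_neg (Ne.symm hjh), hx0]
      ring
    · convert hz1 using 1
      abel

/-- no short cycle at all -/
def NSh (K : Finset (Sym2 ℕ)) : Prop := ∀ Z, IsSh Z → ¬ Z ⊆ K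

theorem NSh.mono {K K' : Finset (Sym2 ℕ)} (h : NSh K) (hK : K' ⊆ K) : NSh K' := fun Z hZ hs => h Z hZ (hs.trans hK)

section
variable {a b : ℕ} {L P Q : Finset ℕ}

/-- no short cycle in a subset of `K_{1,1,m}` -/
theorem nsh_k11 (hv : (Clu3.k11 a b L).Valid) {K : Finset (Sym2 ℕ)} (hK : K ⊆ (Clu3.k11 a b L).edges)
    (h3 : ∀ l ∈ L, s(a, b) ∈ K → s(a, l) ∈ K → s(b, l) ∈ K → False)
    (h4 : ∀ l ∈ L, ∀ l' ∈ L, l ≠ l' → s(a, l) ∈ K → s(b, l) ∈ K → s(a, l') ∈ K → s(b, l') ∈ K → False) :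
    NSh K := by
  have sw : ∀ {u v : ℕ}, s(u, v) ∈ K → s(v, u) ∈ K := fun h => by rwa [Sym2.eq_swap]
  rintro Z (⟨x, y, p, hd, rfl⟩ | ⟨x, y, q, p, hd, rfl⟩) hs
  · have t := tri_sub.1 hs
    have key : ∀ x y p : ℕ, (∃ L', Hub1 (Clu3.k11 a b L) x y L' ∧ p ∈ L' ∧ x ∉ L' ∧ y ∉ L') → s(x, y) ∈ K →
        s(y, p) ∈ K → s(p, x) ∈ K → False := by
      rintro x y p ⟨L', h1 | h1, h2, _, _⟩ e1 e2 e3
      · rw [Clu3.k11.injEq] at h1
        obtain ⟨rfl, rfl, rfl⟩ := h1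
        exact h3 p h2 e1 (sw e3) e2
      · rw [Clu3.k11.injEq] at h1
        obtain ⟨rfl, rfl, rfl⟩ := h1
        exact h3 p h2 (sw e1) e2 (sw e3)
    rcases shape3_tri hv hd (hs.trans hK) with ⟨_, h1, _⟩ | h1 | ⟨L', h1, h2, h3', h4'⟩ | ⟨L', h1, h2, h3', h4'⟩
    · exact absurd h1 (by simp)
    · exact key x y p h1 t.1 t.2.1 t.2.2
    · exact key y p x ⟨L', h1, h2, h3', h4'⟩ t.2.1 t.2.2 t.1
    · exact key p x y ⟨L', h1, h2, h3', h4'⟩ t.2.2 t.1 t.2.1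
  · have t := P34.sq_sub.1 hs
    have key : ∀ x y q p : ℕ, y ≠ p → (∃ L', Hub (Clu3.k11 a b L) x q L' ∧ y ∈ L' ∧ p ∈ L' ∧ x ∉ L' ∧ q ∉ L') →
        s(x, y) ∈ K → s(y, q) ∈ K → s(q, p) ∈ K → s(p, x) ∈ K → False := by
      rintro x y q p hyp ⟨L', h1 | h1 | h1 | h1, h2, h2', _, _⟩ e1 e2 e3 e4
      · exact absurd h1 (by simp)
      · exact absurd h1 (by simp)
      · rw [Clu3.k11.injEq] at h1
        obtain ⟨rfl, rfl, rfl⟩ := h1
        exact h4 y h2 p h2' hyp e1 (sw e2) (sw e4) e3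
      · rw [Clu3.k11.injEq] at h1
        obtain ⟨rfl, rfl, rfl⟩ := h1
        exact h4 y h2 p h2' hyp (sw e2) e1 e3 (sw e4)
    rcases shape3_sq hv hd (hs.trans hK) with h1 | h1 | ⟨L', h1, h2, h3', h4'⟩
    · exact absurd h1 (by simp)
    · exact key x y q p hd.2.2.2.2.1 h1 t.1 t.2.1 t.2.2.1 t.2.2.2
    · exact key y q p x hd.2.1.symm ⟨L', h1, h3', h2, h4'.1, h4'.2⟩ t.2.1 t.2.2.1 t.2.2.2 t.1

theorem tw_mono {L : Finset ℕ} (hP : P ⊆ L) (hQ : Q ⊆ L) : tw a b P Q ⊆ (Clu3.k11 a b L).edges :=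
  (tw_sub hP hQ).trans (Finset.subset_insert _ _)

/-- **the edge sets without short cycle of a cluster `K_{1,1,m}` (no bound on the degrees) form a jump set** -/
theorem jb_k11 (hv : (Clu3.k11 a b L).Valid) : JB (XT.Vc (Clu3.k11 a b L).edges NSh) := by
  obtain ⟨hab, ha, hb, hL1⟩ : a ≠ b ∧ a ∉ L ∧ b ∉ L ∧ 1 ≤ #L := hv
  obtain ⟨h, hh⟩ := Infinite.exists_notMem_finset (insert a (insert b L))
  rw [Finset.mem_insert, Finset.mem_insert, not_or, not_or] at hh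
  obtain ⟨hha, hhb, hhL⟩ := hh
  have ha' : a ∉ insert h L := by
    rw [Finset.mem_insert, not_or]
    exact ⟨fun e => hha e.symm, ha⟩
  have hb' : b ∉ insert h L := by
    rw [Finset.mem_insert, not_or]
    exact ⟨fun e => hhb e.symm, hb⟩
  have base := jb_drop (h := h) (jb_UJ hab ha' hb')
  refine XT.jb_iff (fun x => ?_) base
  have hne : ∀ l ∈ L, l ≠ a ∧ l ≠ b ∧ l ≠ h := fun l hl => ⟨fun e => ha (e ▸ hl), fun e => hb (e ▸ hl),
    fun e => hhL (e ▸ hl)⟩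
  -- the vector of the extended set
  have ext : ∀ (P Q : Finset ℕ), P ⊆ L → Q ⊆ L → ∀ (K : Finset (Sym2 ℕ)), K = tw a b P Q → s(a, b) ∉ K →
      (dv (insert s(a, b) K) + Pi.single h 2 : ℕ → ℤ) = dv (tw a b (insert h P) (insert h Q)) := by
    intro P Q hP hQ K hK hn
    have hP' : insert h P ⊆ insert h L := Finset.insert_subset_insert h hP
    have hQ' : insert h Q ⊆ insert h L := Finset.insert_subset_insert h hQ
    funext v
    rw [XT.dv_insert hn, Pi.add_apply, Pi.add_apply, XT.dv_pair hab, dv_tw hab ha' hb' hP' hQ', hK,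
      dv_tw hab ha hb hP hQ, Pi.add_apply, sgl, sgl, sgl, Finset.card_insert_of_notMem fun g => hhL (hP g),
      Finset.card_insert_of_notMem fun g => hhL (hQ g)]
    have haP : a ∉ P := fun g => ha (hP g)
    have haQ : a ∉ Q := fun g => ha (hQ g)
    have hbP : b ∉ P := fun g => hb (hP g)
    have hbQ : b ∉ Q := fun g => hb (hQ g)
    have hhP : h ∉ P := fun g => hhL (hP g)
    have hhQ : h ∉ Q := fun g => hhL (hQ g)
    by_cases e1 : v = a
    · subst e1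
      simp only [Finset.mem_insert, haP, haQ, hab, Ne.symm hha, if_true, if_false, or_false]
      push_cast
      ring
    · by_cases e2 : v = b
      · subst e2
        simp only [Finset.mem_insert, hbP, hbQ, Ne.symm hab, Ne.symm hhb, if_true, if_false, or_false]
        push_cast
        ring
      · by_cases e3 : v = h
        · subst e3
          simp only [Finset.mem_insert, hhP, hhQ, e1, e2, if_true, if_false, true_or]
          ring
        · simp only [Finset.mem_insert, e1, e2, e3, if_false, false_or]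
          ring
  have ma : ∀ (P Q : Finset ℕ), P ⊆ L → Q ⊆ L → ∀ l ∈ L, s(a, l) ∈ tw a b P Q → l ∈ P := by
    intro P Q hP hQ l hl h1
    rcases mem_tw.1 h1 with ⟨_, g⟩ | ⟨g, _⟩ | ⟨g, _⟩ | ⟨g, _⟩
    · exact g
    · exact absurd g (hne l hl).1
    · exact absurd g hab
    · exact absurd g (hne l hl).2.1
  have mb : ∀ (P Q : Finset ℕ), P ⊆ L → Q ⊆ L → ∀ l ∈ L, s(b, l) ∈ tw a b P Q → l ∈ Q := by
    intro P Q hP hQ l hl h1
    rcases mem_tw.1 h1 with ⟨g, _⟩ | ⟨g, _⟩ | ⟨_, g⟩ | ⟨g, _⟩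
    · exact absurd g hab.symm
    · exact absurd g (hne l hl).1
    · exact g
    · exact absurd g (hne l hl).2.1
  have mab : ∀ (P Q : Finset ℕ), P ⊆ L → Q ⊆ L → s(a, b) ∉ tw a b P Q := by
    intro P Q hP hQ h1
    rcases mem_tw.1 h1 with ⟨_, g⟩ | ⟨g, _⟩ | ⟨g, _⟩ | ⟨_, g⟩
    · exact hb (hP g)
    · exact hab g.symm
    · exact hab g
    · exact ha (hQ g)
  constructor
  · rintro ⟨hx0, hx | hx⟩
    · rw [UJ_iff hab ha' hb'] at hx
      obtain ⟨P, hP, Q, hQ, hc, rfl⟩ := hx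
      rw [dv_tw hab ha' hb' hP hQ, if_neg hha, if_neg hhb] at hx0
      have hhP : h ∉ P := fun g => by
        rw [if_pos g] at hx0
        split_ifs at hx0 <;> norm_num at hx0
      have hhQ : h ∉ Q := fun g => by
        rw [if_pos g] at hx0
        split_ifs at hx0 <;> norm_num at hx0
      have hP' : P ⊆ L := fun l hl => (Finset.mem_insert.1 (hP hl)).resolve_left fun e => hhP (e ▸ hl)
      have hQ' : Q ⊆ L := fun l hl => (Finset.mem_insert.1 (hQ hl)).resolve_left fun e => hhQ (e ▸ hl)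
      refine ⟨tw a b P Q, tw_mono hP' hQ', nsh_k11 ⟨hab, ha, hb, hL1⟩ (tw_mono hP' hQ')
        (fun l hl h1 _ _ => mab P Q hP' hQ' h1) (fun l hl l' hl' hll h1 h2 h3 h4 => ?_), rfl⟩
      exact hll (Finset.card_le_one.1 hc l (Finset.mem_inter.2 ⟨ma P Q hP' hQ' l hl h1, mb P Q hP' hQ' l hl h2⟩) l'
        (Finset.mem_inter.2 ⟨ma P Q hP' hQ' l' hl' h3, mb P Q hP' hQ' l' hl' h4⟩))
    · rw [UJ_iff hab ha' hb'] at hx
      obtain ⟨P, hP, Q, hQ, hc, hx2⟩ := hx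
      have h2 := congrFun hx2 h
      rw [dv_tw hab ha' hb' hP hQ, if_neg hha, if_neg hhb, Pi.add_apply, sgl, if_pos rfl, hx0] at h2
      have hhP : h ∈ P := by
        by_contra g
        rw [if_neg g] at h2
        split_ifs at h2 <;> norm_num at h2
      have hhQ : h ∈ Q := by
        by_contra g
        rw [if_neg g, if_pos hhP] at h2
        norm_num at h2
      have hP' : P.erase h ⊆ L := fun l hl =>
        (Finset.mem_insert.1 (hP (Finset.mem_of_mem_erase hl))).resolve_left (Finset.ne_of_mem_erase hl)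
      have hQ' : Q.erase h ⊆ L := fun l hl =>
        (Finset.mem_insert.1 (hQ (Finset.mem_of_mem_erase hl))).resolve_left (Finset.ne_of_mem_erase hl)
      have hdis : ∀ l ∈ L, l ∈ P.erase h → l ∈ Q.erase h → False := by
        intro l hl g1 g2
        exact (hne l hl).2.2 (Finset.card_le_one.1 hc l
          (Finset.mem_inter.2 ⟨Finset.mem_of_mem_erase g1, Finset.mem_of_mem_erase g2⟩) h
          (Finset.mem_inter.2 ⟨hhP, hhQ⟩))
      have hmem : ∀ u v, s(u, v) ∈ insert s(a, b) (tw a b (P.erase h) (Q.erase h)) →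
          s(u, v) = s(a, b) ∨ s(u, v) ∈ tw a b (P.erase h) (Q.erase h) := fun u v h1 => Finset.mem_insert.1 h1
      have hal : ∀ l ∈ L, s(a, l) ∈ insert s(a, b) (tw a b (P.erase h) (Q.erase h)) → l ∈ P.erase h := by
        intro l hl h1
        rcases hmem a l h1 with h1 | h1
        · exact absurd (Sym2.congr_right.1 h1) (hne l hl).2.1
        · exact ma _ _ hP' hQ' l hl h1
      have hbl : ∀ l ∈ L, s(b, l) ∈ insert s(a, b) (tw a b (P.erase h) (Q.erase h)) → l ∈ Q.erase h := by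
        intro l hl h1
        rcases hmem b l h1 with h1 | h1
        · rw [Sym2.eq_iff] at h1
          rcases h1 with ⟨g, _⟩ | ⟨_, g⟩
          · exact absurd g hab.symm
          · exact absurd g (hne l hl).1
        · exact mb _ _ hP' hQ' l hl h1
      have hsub : insert s(a, b) (tw a b (P.erase h) (Q.erase h)) ⊆ (Clu3.k11 a b L).edges :=
        Finset.insert_subset (Finset.mem_insert_self _ _) (tw_mono hP' hQ')
      refine ⟨insert s(a, b) (tw a b (P.erase h) (Q.erase h)), hsub, nsh_k11 ⟨hab, ha, hb, hL1⟩ hsub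
        (fun l hl _ h1 h2 => hdis l hl (hal l hl h1) (hbl l hl h2))
        (fun l hl l' hl' hll h1 h2 h3 h4 => hdis l hl (hal l hl h1) (hbl l hl h2)), ?_⟩
      have h3 := ext _ _ hP' hQ' _ rfl (mab _ _ hP' hQ')
      rw [Finset.insert_erase hhP, Finset.insert_erase hhQ, ← hx2] at h3
      exact (add_right_cancel h3).symm
  · rintro ⟨K, hK, hn, rfl⟩
    have hnl : NoLoop (Clu3.k11 a b L).edges := by
      intro e he
      induction e using Sym2.ind with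
      | _ u v =>
      rw [Sym2.mk_isDiag_iff]
      rintro rfl
      rcases mem3_k11.1 he with (⟨h1, h2⟩ | ⟨h1, h2⟩) | (⟨h1 | h1, h2⟩ | ⟨h1 | h1, h2⟩)
      · exact hab (h1.symm.trans h2)
      · exact hab (h2.symm.trans h1)
      · exact ha (h1 ▸ h2)
      · exact hb (h1 ▸ h2)
      · exact ha (h1 ▸ h2)
      · exact hb (h1 ▸ h2)
    have hvs : h ∉ XT.vs (Clu3.k11 a b L).edges := by
      intro hc
      obtain ⟨e, he, hhe⟩ := XT.mem_vs.1 hc
      obtain ⟨w, rfl⟩ := hhe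
      rcases mem3_k11.1 he with (⟨h1, _⟩ | ⟨h1, _⟩) | (⟨h1 | h1, _⟩ | ⟨_, h1⟩)
      · exact hha h1
      · exact hhb h1
      · exact hha h1
      · exact hhb h1
      · exact hhL h1
    have hh0 : dv K h = 0 := XT.dv_off hK hvs
    refine ⟨hh0, ?_⟩
    by_cases hab' : s(a, b) ∈ K
    · right
      have hK0 : K.erase s(a, b) ⊆ (Clu.k2 a b L).edges := fun e he =>
        (Finset.mem_insert.1 (hK (Finset.mem_of_mem_erase he))).resolve_left (Finset.ne_of_mem_erase he)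
      have h1 := tw_of hK0 hab ha hb
      have h2 := ext _ _ (Finset.filter_subset _ _) (Finset.filter_subset _ _) _ h1
        (Finset.notMem_erase _ _)
      rw [Finset.insert_erase hab'] at h2
      rw [UJ_iff hab ha' hb']
      refine ⟨_, Finset.insert_subset_insert h (Finset.filter_subset _ _), _,
        Finset.insert_subset_insert h (Finset.filter_subset _ _), ?_, h2⟩
      rw [← Finset.insert_inter_distrib]
      refine Finset.card_le_one.2 fun l hl l' hl' => ?_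
      have key : ∀ l ∈ insert h ((L.filter fun l => s(a, l) ∈ K.erase s(a, b)) ∩
          L.filter fun l => s(b, l) ∈ K.erase s(a, b)), l = h := by
        intro l hl
        rcases Finset.mem_insert.1 hl with g | g
        · exact g
        · exfalso
          rw [Finset.mem_inter, Finset.mem_filter, Finset.mem_filter] at g
          refine hn (tri a b l) (Or.inl ⟨a, b, l, ⟨hab, Ne.symm (hne l g.1.1).1, Ne.symm (hne l g.1.1).2.1⟩, rfl⟩) ?_
          rw [tri_sub]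
          exact ⟨hab', Finset.mem_of_mem_erase g.2.2, by rw [Sym2.eq_swap]; exact Finset.mem_of_mem_erase g.1.2⟩
      rw [key l hl, key l' hl']
    · left
      have hK0 : K ⊆ (Clu.k2 a b L).edges := fun e he =>
        (Finset.mem_insert.1 (hK he)).resolve_left fun e1 => hab' (e1 ▸ he)
      have h1 := tw_of hK0 hab ha hb
      rw [UJ_iff hab ha' hb']
      refine ⟨_, (Finset.filter_subset _ _).trans (Finset.subset_insert _ _), _,
        (Finset.filter_subset _ _).trans (Finset.subset_insert _ _), ?_, congrArg dv h1⟩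
      refine (tw_free hab ha hb (Finset.filter_subset _ _) (Finset.filter_subset _ _)).1 fun Z hZ hs => ?_
      rw [← h1] at hs
      exact hn Z (Or.inr hZ) hs

end

/-- **the family without short cycles of `K_{1,1,m}` is good** -/
theorem pca3_k11 {D : Finset (Finset (Sym2 ℕ))} (hD : ∀ Z ∈ D, IsSh Z) {a b : ℕ} {L : Finset ℕ}
    (hv : (Clu3.k11 a b L).Valid) : XT.PcA D NSh (Clu3.k11 a b L).edges where
  jb := jb_k11 hv
  rl := fun _ _ hs _ Z hZ => hs Z (hD Z hZ)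

/-- in `K2(a, b; L)` a short cycle is a square -/
theorem k2_no_tri {a b : ℕ} {L : Finset ℕ} (hv : (Clu3.k2 a b L).Valid) {Z : Finset (Sym2 ℕ)} (hZ : IsTri Z)
    (hs : Z ⊆ (Clu3.k2 a b L).edges) : False := by
  obtain ⟨x, y, p, hd, rfl⟩ := hZ
  rcases shape3_tri hv hd hs with ⟨_, h1, _⟩ | ⟨_, h1 | h1, _⟩ | ⟨_, h1 | h1, _⟩ | ⟨_, h1 | h1, _⟩ <;>
    exact absurd h1 (by simp)

/-- **the family without short cycles of `K2(a, b; L)` is good** -/
theorem pca3_k2 {D : Finset (Finset (Sym2 ℕ))} (hD : ∀ Z ∈ D, IsSh Z) {a b : ℕ} {L : Finset ℕ}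
    (hv : (Clu3.k2 a b L).Valid) : XT.PcA D NSh (Clu3.k2 a b L).edges where
  jb := by
    refine XT.jb_iff (fun x => ?_) (jb_k2 (a := a) (b := b) (L := L) hv)
    constructor
    · rintro ⟨K, hK, hs, rfl⟩
      refine ⟨K, hK, ?_, rfl⟩
      rintro Z (hZ | hZ) hZK
      · exact k2_no_tri hv hZ (hZK.trans hK)
      · exact hs Z hZ hZK
    · rintro ⟨K, hK, hs, rfl⟩
      exact ⟨K, hK, fun Z hZ hZK => hs Z (Or.inr hZ) hZK, rfl⟩
  rl := fun _ _ hs _ Z hZ => hs Z (hD Z hZ)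

end Pool.Agent.P34

end

section -- file P34/XT3

/-!
# The phi frame for triangles and squares

Port of `PF4/XT.lean`: clusters `Clu3`, worlds `OW3`. The form `ph`, the types, `Vc`, `PcA`, `wj_ph` etc. are those of `XT`.
-/

set_option autoImplicit false

namespace Pool.Agent.P34

open Finset Pool.Agent.TFC Pool.Agent.PF4 Pool.Agent.PF4.LD Pool.Agent.PF4.XC Pool.Agent.PF4.XT
open Pool.Agent.PF4.XF (XD FitK Cv World WJ Av NC Rch dg_off)

/-- the family at a list of clusters and plain edges -/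
def AU3 (A : Clu3 ℕ → Finset (Sym2 ℕ) → Prop) (U : List (Clu3 ℕ)) (PL K : Finset (Sym2 ℕ)) : Prop :=
  K ⊆ Ucl3 U ∪ PL ∧ ∀ c ∈ U, A c (K ∩ c.edges)

theorem jb_AU3 {A : Clu3 ℕ → Finset (Sym2 ℕ) → Prop} {U : List (Clu3 ℕ)} {PL : Finset (Sym2 ℕ)}
    (hA : ∀ c ∈ U, JB (Vc c.edges (A c))) (hU : U.Pairwise fun c c' => Disjoint c.edges c'.edges)
    (hPL : ∀ c ∈ U, Disjoint c.edges PL) (hn : NoLoop PL) : JB (fun b => ∃ K, AU3 A U PL K ∧ b = dv K) := by
  induction U with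
  | nil =>
    refine jb_iff (fun x => ?_) (jb_plain PL hn)
    constructor
    · rintro ⟨K, hK, _, rfl⟩
      exact ⟨K, ⟨by simpa [Ucl3] using hK, by simp⟩, rfl⟩
    · rintro ⟨K, ⟨hK, _⟩, rfl⟩
      exact ⟨K, by simpa [Ucl3] using hK, trivial, rfl⟩
  | cons c U ih =>
    rw [List.pairwise_cons] at hU
    have h1 := ih (fun c hc => hA c (List.mem_cons_of_mem _ hc)) hU.2
      (fun c hc => hPL c (List.mem_cons_of_mem _ hc))
    have hd : Disjoint c.edges (Ucl3 U ∪ PL) := by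
      rw [Finset.disjoint_union_right]
      refine ⟨?_, hPL c List.mem_cons_self⟩
      rw [Finset.disjoint_left]
      intro e he he'
      obtain ⟨c', hc', he'⟩ := mem_Ucl3.1 he'
      exact Finset.disjoint_left.1 (hU.1 c' hc') he he'
    have h1' : JB (Vc (Ucl3 U ∪ PL) fun K => ∀ c ∈ U, A c (K ∩ c.edges)) := by
      refine jb_iff (fun x => ?_) h1
      constructor
      · rintro ⟨K, ⟨hK, hc⟩, rfl⟩
        exact ⟨K, hK, hc, rfl⟩
      · rintro ⟨K, hK, hc, rfl⟩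
        exact ⟨K, ⟨hK, hc⟩, rfl⟩
    refine jb_iff (fun x => ?_) (jb_union hd (hA c List.mem_cons_self) h1')
    have hin : ∀ (K : Finset (Sym2 ℕ)), ∀ c' ∈ U, (K ∩ (Ucl3 U ∪ PL)) ∩ c'.edges = K ∩ c'.edges := by
      intro K c' hc'
      rw [Finset.inter_assoc]
      congr 1
      rw [Finset.inter_eq_right]
      intro e he
      exact Finset.mem_union_left _ (mem_Ucl3.2 ⟨c', hc', he⟩)
    constructor
    · rintro ⟨K, hK, ⟨h2, h3⟩, rfl⟩
      refine ⟨K, ⟨by rw [Ucl3, Finset.union_assoc]; exact hK, ?_⟩, rfl⟩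
      intro c' hc'
      rcases List.mem_cons.1 hc' with rfl | hc'
      · exact h2
      · rw [← hin K c' hc']
        exact h3 c' hc'
    · rintro ⟨K, ⟨hK, h2⟩, rfl⟩
      refine ⟨K, by rw [Ucl3, Finset.union_assoc] at hK; exact hK, ⟨h2 c List.mem_cons_self, ?_⟩, rfl⟩
      intro c' hc'
      rw [hin K c' hc']
      exact h2 c' (List.mem_cons_of_mem _ hc')

/-- an edge of a short cycle -/
theorem sh_edge {Z : Finset (Sym2 ℕ)} (h : IsSh Z) : ∃ a b, s(a, b) ∈ Z := by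
  rcases h with ⟨a, b, c, _, rfl⟩ | ⟨a, b, c, d, _, rfl⟩
  · exact ⟨a, b, by simp [tri]⟩
  · exact ⟨a, b, by simp [TFC.sq]⟩

/-- the capped family -/
theorem pca3_cap {D : Finset (Finset (Sym2 ℕ))} (hD : ∀ Z ∈ D, IsSh Z) (E : Finset (Sym2 ℕ)) : PcA D (Acap D) E where
  jb := by
    refine jb_iff (fun x => ?_) (jb_of_jump (jump_JS3 (al := fun Z => Z ∉ D) E))
    constructor
    · rintro ⟨K, hK, h1, h2, rfl⟩
      exact ⟨K, hK, ⟨h1, fun Z hZ hs => h2 Z (hD Z hZ) hs hZ⟩, rfl⟩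
    · rintro ⟨K, hK, ⟨h1, h2⟩, rfl⟩
      exact ⟨K, hK, h1, fun Z _ hs hZ => h2 Z hZ hs, rfl⟩
  rl := fun _ _ h _ => h.2

/-! ### one world, in terms of the form -/

/-- **what is known in one world**: `W` the region (all clusters in `En` and all edges of `En` in no member of `D`), `PL` the
plain edges, `U` the clusters, `A` the allowed families, `pl`, `mi` the facts -/
structure PW3 (X : XD3) (P : ℕ → Finset (Sym2 ℕ) → Prop) (D : Finset (Finset (Sym2 ℕ))) (j : ℕ) (S : Finset ℕ)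
    (M : ℕ → Finset (Sym2 ℕ)) (A : Clu3 ℕ → Finset (Sym2 ℕ) → Prop) (CL U : List (Clu3 ℕ))
    (PL : Finset (Sym2 ℕ)) (pl mi : ℕ → Prop) : Prop where
  ok : X.OK
  sv : ∀ v ∈ S, v ∈ X.V2
  ish : ∀ Z ∈ D, IsSh Z
  dE : ∀ Z ∈ D, Z ⊆ X.E
  w2 : Ucl3 U ∪ PL ⊆ X.E2
  cls : Cls3 D CL
  uc : ∀ c, c ∈ U ↔ c ∈ CL ∧ c.edges ⊆ X.En
  pm : ∀ e, e ∈ PL ↔ e ∈ X.En ∧ ∀ Z ∈ D, e ∉ Z
  rch : ∀ v, Rch X.E S 3 v → ∀ e ∈ X.E, v ∈ e → e ∈ Ucl3 U ∪ PL
  free : ∀ v < X.n, v ∉ X.T → ¬ mi v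
  /-- near covers -/
  nc : ∀ w ∈ S, w ∈ X.T → ∀ K, AU3 A U PL K →
    1 ≤ ph X.V2 pl mi (dv K - dv (M w ∩ (Ucl3 U ∪ PL)) - Pi.single w 1)
  mi' : ∀ w ∈ S, w ∈ X.T → AU3 A U PL (M w ∩ (Ucl3 U ∪ PL)) → mi w
  /-- the witnesses exist (they do not depend on the families `A`) -/
  witE : ∀ Z ∈ D, ∃ L, P j L ∧ Cv X.toXD L ∧ M2 L ∧ L ⊆ X.E ∧ Z ⊆ L ∧ ∀ Z' ∈ D, Z' ⊆ L → Z' = Z
  /-- witnesses -/
  witA : ∀ Z ∈ D, Z ⊆ Ucl3 U → ∀ L, P j L → Cv X.toXD L → (∀ Z' ∈ D, Z' ⊆ L → Z' = Z) → ∀ K, AU3 A U PL K →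
    1 ≤ ph X.V2 pl mi (dv K - dv (L ∩ (Ucl3 U ∪ PL)))

theorem ucl3_sub_En {X : XD3} {U : List (Clu3 ℕ)} (h : ∀ c ∈ U, c.edges ⊆ X.En) : Ucl3 U ⊆ X.En := by
  intro e he
  obtain ⟨c, hc, hec⟩ := mem_Ucl3.1 he
  exact h c hc hec

open Classical in
/-- **the phi frame for one world** -/
theorem OW3.pw {X : XD3} {P : ℕ → Finset (Sym2 ℕ) → Prop} {D : Finset (Finset (Sym2 ℕ))} {j m : ℕ} {S : Finset ℕ}
    {M : ℕ → Finset (Sym2 ℕ)} (h : OW3 X P D j m S M) {CL : List (Clu3 ℕ)} (hc : Cls3 D CL)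
    {A : Clu3 ℕ → Finset (Sym2 ℕ) → Prop} (hA : ∀ c ∈ CL, c.edges ⊆ X.En → PcA D (A c) c.edges)
    (hS : ∃ w ∈ S, w ∈ X.T ∧ ∀ c ∈ CL, c.edges ⊆ X.En → A c (M w ∩ c.edges)) :
    ∃ (U : List (Clu3 ℕ)) (PL : Finset (Sym2 ℕ)) (pl mi : ℕ → Prop), PW3 X P D j S M A CL U PL pl mi := by
  obtain ⟨U, hUdef⟩ : ∃ U, U = CL.filter fun c => decide (c.edges ⊆ X.En) := ⟨_, rfl⟩
  obtain ⟨PL, hPLdef⟩ : ∃ PL, PL = X.En.filter fun e => ∀ Z ∈ D, e ∉ Z := ⟨_, rfl⟩
  have uc : ∀ c, c ∈ U ↔ c ∈ CL ∧ c.edges ⊆ X.En := by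
    intro c
    rw [hUdef, List.mem_filter, decide_eq_true_eq]
  have pm : ∀ e, e ∈ PL ↔ e ∈ X.En ∧ ∀ Z ∈ D, e ∉ Z := by
    intro e
    rw [hPLdef, Finset.mem_filter]
  have hUn : Ucl3 U ⊆ X.En := ucl3_sub_En fun c hc => ((uc c).1 hc).2
  have hPn : PL ⊆ X.En := fun e he => ((pm e).1 he).1
  have hWn : Ucl3 U ∪ PL ⊆ X.En := Finset.union_subset hUn hPn
  have hEn : X.En ⊆ X.E := h.ok.e1.trans h.ok.e2
  obtain ⟨J, hJ, h2, h3⟩ := h.world' hc (U := U) (fun c hc => ((uc c).1 hc).1) (fun c hc => ((uc c).1 hc).2)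
    (ER := PL) (PL := PL) hPn (fun e he => ((pm e).1 he).2)
  -- allowed vectors
  have hUp : U.Pairwise fun c c' => Disjoint c.edges c'.edges := by
    rw [hUdef]
    exact hc.dj.filter _
  have hUP : ∀ c ∈ U, Disjoint c.edges PL := by
    intro c hcU
    rw [Finset.disjoint_left]
    intro e he he'
    obtain ⟨Z, hZ, heZ⟩ := hc.edge.1 ⟨c, ((uc c).1 hcU).1, he⟩
    exact ((pm e).1 he').2 Z hZ heZ
  have hnl : NoLoop (Ucl3 U ∪ PL) := fun e he => h.ok.nl e (hEn (hWn he))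
  have hjb : JB (fun b => ∃ K, AU3 A U PL K ∧ b = dv K) :=
    jb_AU3 (fun c hcU => (hA c ((uc c).1 hcU).1 ((uc c).1 hcU).2).jb) hUp hUP
      fun e he => hnl e (Finset.mem_union_right _ he)
  have hoff : ∀ b, (∃ K, AU3 A U PL K ∧ b = dv K) → ∀ v, v ∉ X.V2 → b v = 0 := by
    rintro _ ⟨K, hK, rfl⟩ v hv
    rw [dv, dg_off h.ok.toOK (hK.1.trans (hWn.trans h.ok.e1)) hv]
    rfl
  have hnn : ∀ b, (∃ K, AU3 A U PL K ∧ b = dv K) → ∀ v, 0 ≤ b v := by
    rintro _ ⟨K, hK, rfl⟩ v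
    exact Nat.cast_nonneg _
  have hr : ∀ b, (∃ K, AU3 A U PL K ∧ b = dv K) → (∀ v, b v ≤ 2) → ∃ K ⊆ Ucl3 U ∪ PL, M2 K ∧
      (∀ Z ∈ D.filter (fun Z => Z ⊆ Ucl3 U), ¬ Z ⊆ K) ∧ (∀ e ∈ K, e ∉ Ucl3 U → e ∈ PL) ∧ dv K = b := by
    rintro _ ⟨K, hK, rfl⟩ h2
    have hdg : ∀ v, dg K v ≤ 2 := by
      intro v
      have := h2 v
      rw [dv] at this
      exact_mod_cast this
    refine ⟨K, hK.1, ⟨fun e he => hnl e (hK.1 he), hdg⟩, ?_, ?_, rfl⟩
    · intro Z hZ hs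
      rw [Finset.mem_filter] at hZ
      obtain ⟨c, hcC, hZc⟩ := hc.cov Z hZ.1
      have hcU : c ∈ U := by
        obtain ⟨a, b, he⟩ := sh_edge (h.ish hZ.1)
        obtain ⟨c'', hc'', he''⟩ := mem_Ucl3.1 (hZ.2 he)
        rw [hc.eq hcC ((uc c'').1 hc'').1 (hZc he) he'']
        exact hc''
      refine (hA c hcC ((uc c).1 hcU).2).rl (K ∩ c.edges) Finset.inter_subset_right (hK.2 c hcU) ?_ Z hZ.1
        (Finset.subset_inter hs hZc)
      intro v
      refine le_trans ?_ (hdg v)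
      exact Finset.card_le_card (Finset.filter_subset_filter _ Finset.inter_subset_left)
    · intro e he heU
      rcases Finset.mem_union.1 (hK.1 he) with h1 | h1
      · exact absurd h1 heU
      · exact h1
  -- restriction to the clusters
  have hcap : ∀ (L : Finset (Sym2 ℕ)), (∀ c ∈ CL, c.edges ⊆ X.En → A c (L ∩ c.edges)) →
      AU3 A U PL (L ∩ (Ucl3 U ∪ PL)) := by
    intro L hL
    refine ⟨Finset.inter_subset_right, fun c hcU => ?_⟩
    have e : L ∩ (Ucl3 U ∪ PL) ∩ c.edges = L ∩ c.edges := by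
      rw [Finset.inter_assoc]
      congr 1
      rw [Finset.inter_eq_right]
      intro e he
      exact Finset.mem_union_left _ (mem_Ucl3.2 ⟨c, hcU, he⟩)
    rw [e]
    exact hL c ((uc c).1 hcU).1 ((uc c).1 hcU).2
  have hmi : ∀ w ∈ S, w ∈ X.T → AU3 A U PL (M w ∩ (Ucl3 U ∪ PL)) →
      Mi J (fun b => ∃ K, AU3 A U PL K ∧ b = dv K) X.n w := by
    intro w hw hwT hAU
    refine ⟨_, _, h3 w hw hwT, ⟨_, hAU, rfl⟩, ?_⟩
    rw [Pi.single_neg, Pi.single_neg]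
    show _ = dv (M w ∩ (Ucl3 U ∪ PL)) - (dv (M w ∩ (Ucl3 U ∪ PL)) + Pi.single w 1 + Pi.single X.n 1)
    abel
  have hne : ∃ v ∈ X.V2, Pls J (fun b => ∃ K, AU3 A U PL K ∧ b = dv K) X.n v ∨
      Mi J (fun b => ∃ K, AU3 A U PL K ∧ b = dv K) X.n v := by
    obtain ⟨w, hw, hwT, hwA⟩ := hS
    exact ⟨w, h.sv w hw, Or.inr (hmi w hw hwT (hcap _ hwA))⟩
  have h0 : ¬ Df J (fun b => ∃ K, AU3 A U PL K ∧ b = dv K) 0 := by
    rintro ⟨k, b, hk, hb, h0⟩
    have := wj_ph hJ h.ok.vn hjb hoff hr hne hk hb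
    rw [← h0, ph_zero] at this
    omega
  refine ⟨U, PL, Pls J (fun b => ∃ K, AU3 A U PL K ∧ b = dv K) X.n,
    Mi J (fun b => ∃ K, AU3 A U PL K ∧ b = dv K) X.n, h.ok, h.sv, fun Z hZ => h.ish hZ, fun Z hZ => h.sqE hZ,
    hWn.trans h.ok.e1, hc, uc, pm, ?_, ?_, ?_, hmi, ?_, ?_⟩
  · intro v hv e heE hve
    have heN : e ∈ X.En := h.rch v (Rch.mono (by omega) hv) e heE hve
    by_cases h1 : ∃ Z ∈ D, e ∈ Z
    · obtain ⟨c, hcC, hec⟩ := hc.edge.2 h1
      exact Finset.mem_union_left _ (mem_Ucl3.2 ⟨c, (uc c).2 ⟨hcC, h.near hc hcC hec hve hv⟩, hec⟩)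
    · push Not at h1
      exact Finset.mem_union_right _ ((pm e).2 ⟨heN, h1⟩)
  · intro v hvn hvT
    exact wj_free hJ h.ok.vn hoff hnn h0 hvT hvn
  · intro w hw hwT K hK
    have h4 := wj_ph hJ h.ok.vn hjb hoff hr hne (h3 w hw hwT) ⟨K, hK, rfl⟩
    have e : ph X.V2 (Pls J (fun b => ∃ K, AU3 A U PL K ∧ b = dv K) X.n)
        (Mi J (fun b => ∃ K, AU3 A U PL K ∧ b = dv K) X.n)
        (dv K - (dv (M w ∩ (Ucl3 U ∪ PL)) + ev w + ev X.n)) =
        ph X.V2 (Pls J (fun b => ∃ K, AU3 A U PL K ∧ b = dv K) X.n)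
        (Mi J (fun b => ∃ K, AU3 A U PL K ∧ b = dv K) X.n)
        (dv K - dv (M w ∩ (Ucl3 U ∪ PL)) - Pi.single w 1) := by
      unfold ph
      refine Finset.sum_congr rfl fun v hv => ?_
      congr 1
      have hvn : v ≠ X.n := fun hc => lt_irrefl _ (hc ▸ h.ok.vn v hv)
      rw [Pi.sub_apply, Pi.sub_apply, Pi.sub_apply, Pi.add_apply, Pi.add_apply, TFC.ev_apply, TFC.ev_apply, sgl,
        if_neg hvn]
      ring
    rw [← e]
    exact h4
  · intro Z hZ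
    exact h.wit hZ
  · intro Z hZ hZU L h4 h5 h9 K hK
    refine wj_ph hJ h.ok.vn hjb hoff hr hne (h2 L Z hZ h4 h5 h9 ?_) ⟨K, hK, rfl⟩
    rw [Finset.not_disjoint_iff]
    obtain ⟨a, b, he⟩ := sh_edge (h.ish hZ)
    exact ⟨_, he, Finset.mem_union_left _ (hZU he)⟩

/-! ### modified edge sets -/

/-- all families are closed under subsets -/
def Dwn3 (A : Clu3 ℕ → Finset (Sym2 ℕ) → Prop) : Prop := ∀ c K K', K' ⊆ K → A c K → A c K'

theorem AU3.mono {A : Clu3 ℕ → Finset (Sym2 ℕ) → Prop} (hD : Dwn3 A) {U : List (Clu3 ℕ)} {PL K K' : Finset (Sym2 ℕ)}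
    (h : AU3 A U PL K) (hK : K' ⊆ K) : AU3 A U PL K' :=
  ⟨hK.trans h.1, fun c hc => hD c _ _ (Finset.inter_subset_inter hK le_rfl) (h.2 c hc)⟩

section
variable {X : XD3} {P : ℕ → Finset (Sym2 ℕ) → Prop} {D : Finset (Finset (Sym2 ℕ))} {j : ℕ} {S : Finset ℕ}
  {M : ℕ → Finset (Sym2 ℕ)} {A : Clu3 ℕ → Finset (Sym2 ℕ) → Prop} {CL U : List (Clu3 ℕ)} {PL : Finset (Sym2 ℕ)}
  {pl mi : ℕ → Prop}

theorem PW3.plain (h : PW3 X P D j S M A CL U PL pl mi) {c : Clu3 ℕ} (hc : c ∈ U) : Disjoint PL c.edges := by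
  rw [Finset.disjoint_left]
  intro e he hec
  obtain ⟨Z, hZ, heZ⟩ := h.cls.edge.1 ⟨c, ((h.uc c).1 hc).1, hec⟩
  exact ((h.pm e).1 he).2 Z hZ heZ

/-- add plain edges -/
theorem PW3.addp (h : PW3 X P D j S M A CL U PL pl mi) {K B : Finset (Sym2 ℕ)} (hK : AU3 A U PL K) (hB : B ⊆ PL) :
    AU3 A U PL (K ∪ B) := by
  refine ⟨Finset.union_subset hK.1 (hB.trans Finset.subset_union_right), fun c hc => ?_⟩
  have e : (K ∪ B) ∩ c.edges = K ∩ c.edges := by
    rw [Finset.union_inter_distrib_right,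
      Finset.disjoint_iff_inter_eq_empty.1 ((h.plain hc).mono_left hB), Finset.union_empty]
  rw [e]
  exact hK.2 c hc

/-- add an edge of a cluster -/
theorem PW3.addc (h : PW3 X P D j S M A CL U PL pl mi) {K : Finset (Sym2 ℕ)} (hK : AU3 A U PL K) {c : Clu3 ℕ}
    (hc : c ∈ U) {e : Sym2 ℕ} (he : e ∈ c.edges) (hA : A c (insert e (K ∩ c.edges))) : AU3 A U PL (insert e K) := by
  refine ⟨Finset.insert_subset (Finset.mem_union_left _ (mem_Ucl3.2 ⟨c, hc, he⟩)) hK.1, fun c' hc' => ?_⟩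
  by_cases hcc : c' = c
  · subst hcc
    rw [Finset.insert_inter_of_mem he]
    exact hA
  · have hne : e ∉ c'.edges := fun h' => hcc (h.cls.eq ((h.uc c').1 hc').1 ((h.uc c).1 hc).1 h' he)
    rw [Finset.insert_inter_of_notMem hne]
    exact hK.2 c' hc'

/-- near cover, modified: remove `R`, add `B` -/
theorem PW3.nc_swap (h : PW3 X P D j S M A CL U PL pl mi) {w : ℕ} (hw : w ∈ S) (hT : w ∈ X.T)
    {R B : Finset (Sym2 ℕ)} (hR : R ⊆ M w) (hRW : R ⊆ Ucl3 U ∪ PL) (hB : Disjoint B (M w ∩ (Ucl3 U ∪ PL)))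
    (hA : AU3 A U PL (((M w ∩ (Ucl3 U ∪ PL)) \ R) ∪ B)) :
    1 ≤ ph X.V2 pl mi (dv B - dv R - Pi.single w 1) := by
  have h1 := h.nc w hw hT _ hA
  rw [dv_swap (Finset.subset_inter hR hRW) hB] at h1
  have e : dv (M w ∩ (Ucl3 U ∪ PL)) - dv R + dv B - dv (M w ∩ (Ucl3 U ∪ PL)) - Pi.single w 1 =
      dv B - dv R - Pi.single w 1 := by abel
  rwa [e] at h1

end

end Pool.Agent.P34

end

section -- file P34/XSh

/-!
The phi frame for triangles and squares: short cycles in clusters, replacing the part in one cluster.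
-/

set_option autoImplicit false

namespace Pool.Agent.P34

open Finset Pool.Agent.TFC Pool.Agent.PF4 Pool.Agent.PF4.LD Pool.Agent.PF4.XC Pool.Agent.PF4.XT
open Pool.Agent.PF4.XF (XD FitK Cv World WJ Av NC Rch dg_off mem_k4 mem_k2)

/-! ### short cycles -/

theorem IsSh.ne {Z : Finset (Sym2 ℕ)} (h : IsSh Z) : ∃ e, e ∈ Z := by
  obtain ⟨a, b, h1⟩ := sh_edge h
  exact ⟨_, h1⟩

theorem tri_m2 {a b c : ℕ} (h : Dist3 a b c) : M2 (tri a b c) := by
  obtain ⟨ab, ac, bc⟩ := h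
  refine ⟨?_, fun v => ?_⟩
  · intro e he
    simp only [tri, mem_insert, mem_singleton] at he
    rcases he with rfl | rfl | rfl
    · simpa using ab
    · simpa using bc
    · simpa using ac.symm
  · have h1 : ∃ e ∈ tri a b c, v ∉ e := by
      by_cases h1 : v = a
      · subst h1
        exact ⟨s(b, c), by simp [tri], by rw [Sym2.mem_iff]; tauto⟩
      · by_cases h2 : v = b
        · subst h2
          exact ⟨s(c, a), by simp [tri], by rw [Sym2.mem_iff]; tauto⟩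
        · exact ⟨s(a, b), by simp [tri], by rw [Sym2.mem_iff]; tauto⟩
    obtain ⟨e, he, hv⟩ := h1
    have h2 : (tri a b c).filter (fun e => v ∈ e) ⊆ (tri a b c).erase e := by
      intro f hf
      rw [mem_filter] at hf
      refine mem_erase.2 ⟨?_, hf.1⟩
      rintro rfl
      exact hv hf.2
    have h3 := card_le_card h2
    rw [card_erase_of_mem he, card_tri ⟨ab, ac, bc⟩] at h3
    exact h3

theorem IsSh.m2 {Z : Finset (Sym2 ℕ)} (h : IsSh Z) : M2 Z := by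
  rcases h with ⟨a, b, c, h, rfl⟩ | ⟨a, b, c, d, h, rfl⟩
  · exact tri_m2 h
  · exact Unit_sq_M2 h

theorem IsSh.card_ge {Z : Finset (Sym2 ℕ)} (h : IsSh Z) : 3 ≤ #Z := by
  rcases sh_card h with h | h <;> omega

/-- the degree vector of a triangle -/
theorem dv_tri {a b c : ℕ} (h : Dist3 a b c) : dv (tri a b c) = ev a + ev a + ev b + ev b + ev c + ev c := by
  obtain ⟨ab, ac, bc⟩ := h
  have n1 : s(b, c) ∉ ({s(c, a)} : Finset (Sym2 ℕ)) := by
    simp only [mem_singleton, Sym2.eq_iff]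
    rintro (⟨h1, _⟩ | ⟨h1, _⟩)
    · exact bc h1
    · exact ab h1.symm
  have n2 : s(a, b) ∉ ({s(b, c), s(c, a)} : Finset (Sym2 ℕ)) := by
    simp only [mem_insert, mem_singleton, Sym2.eq_iff]
    rintro ((⟨h1, _⟩ | ⟨h1, _⟩) | (⟨h1, _⟩ | ⟨_, h1⟩))
    · exact ab h1
    · exact ac h1
    · exact ac h1
    · exact bc h1
  rw [tri, TFC.dv_insert ab n2, TFC.dv_insert bc n1, XT.dv_pair (Ne.symm ac)]
  show ev c + ev a + ev b + ev c + ev a + ev b = _
  abel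

/-- a short cycle in a 2-matching is closed -/
theorem shc {M : Finset (Sym2 ℕ)} (hM : M2 M) {Z : Finset (Sym2 ℕ)} (hZ : IsSh Z) (hs : Z ⊆ M) {e f : Sym2 ℕ}
    {v : ℕ} (he : e ∈ Z) (hv : v ∈ e) (hf : f ∈ M) (hvf : v ∈ f) : f ∈ Z := by
  obtain ⟨w, rfl⟩ := hvf
  exact sh_closed hM hZ hs ⟨e, he, hv⟩ hf

/-- no short cycle is properly contained in another one -/
theorem sh_sub_eq {Z Z' : Finset (Sym2 ℕ)} (hZ' : IsSh Z') (hZ : IsSh Z) (hs : Z' ⊆ Z) : Z' = Z := by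
  rcases hZ' with ⟨a, b, c, h, rfl⟩ | ⟨a, b, c, d, h, rfl⟩
  · rcases hZ with ⟨a', b', c', h', rfl⟩ | ⟨a', b', c', d', h', rfl⟩
    · exact eq_of_subset_of_card_le hs (by rw [card_tri h, card_tri h'])
    · exfalso
      obtain ⟨q, p, h4, he⟩ := isSq_first ⟨a', b', c', d', h', rfl⟩ (hs (by simp [tri] : s(a, b) ∈ tri a b c))
      rw [he] at hs
      obtain ⟨ab, ac, bc⟩ := h
      obtain ⟨n1, n2, n3, n4, n5, n6⟩ := h4
      have e1 := hs (by simp [tri] : s(b, c) ∈ tri a b c)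
      have e2 := hs (by simp [tri] : s(c, a) ∈ tri a b c)
      simp only [TFC.sq, mem_insert, mem_singleton, Sym2.eq_iff] at e1 e2
      rcases e1 with (⟨h1, _⟩ | ⟨_, h1⟩) | (⟨_, h1⟩ | ⟨h1, _⟩) | (⟨h1, _⟩ | ⟨h1, _⟩) | (⟨h1, _⟩ | ⟨h1, _⟩)
      · exact n1 h1.symm
      · exact ac h1.symm
      · subst h1
        rcases e2 with (⟨g, _⟩ | ⟨g, _⟩) | (⟨g, _⟩ | ⟨_, g⟩) | (⟨_, g⟩ | ⟨_, g⟩) | (⟨g, _⟩ | ⟨g, _⟩)
        · exact ac g.symm
        · exact bc g.symm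
        · exact bc g.symm
        · exact ab g
        · exact n3 g
        · exact ac g
        · exact n6 g
        · exact ac g.symm
      · exact n4 h1
      · exact n4 h1
      · exact n5 h1
      · exact n5 h1
      · exact n1 h1.symm
  · have h1 := card_le_card hs
    rw [card_sqV h] at h1
    have h2 : #Z ≤ 4 := by rcases sh_card hZ with h | h <;> omega
    exact eq_of_subset_of_card_le hs (by rw [card_sqV h]; exact h2)

/-- a proper part of a short cycle contains no short cycle -/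
theorem nsh_ssub {Z K : Finset (Sym2 ℕ)} (hZ : IsSh Z) (hK : K ⊆ Z) (hne : K ≠ Z) : NSh K := by
  intro Z' hZ' hs
  have h1 := sh_sub_eq hZ' hZ (hs.trans hK)
  rw [h1] at hs
  exact hne (Finset.Subset.antisymm hK hs)

theorem nsh_small {K : Finset (Sym2 ℕ)} (h : #K < 3) : NSh K := by
  intro Z hZ hs
  have h1 := card_le_card hs
  have h2 := hZ.card_ge
  omega

/-- every edge of a cluster meets every short cycle of the cluster -/
theorem cl3_touch {c : Clu3 ℕ} (hc : c.Valid) {Z : Finset (Sym2 ℕ)} (hZ : IsSh Z) (hs : Z ⊆ c.edges) {e : Sym2 ℕ}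
    (he : e ∈ c.edges) : ∃ f ∈ Z, ∃ v, v ∈ e ∧ v ∈ f := by
  rcases hZ with ⟨x, y, p, h3, rfl⟩ | ⟨x, y, q, p, h4, rfl⟩
  · have k : ∀ v, v ∈ e → (v = x ∨ v = y ∨ v = p) → ∃ f ∈ tri x y p, ∃ v, v ∈ e ∧ v ∈ f := by
      rintro v hv (rfl | rfl | rfl)
      · exact ⟨s(v, y), by simp [tri], v, hv, by simp⟩
      · exact ⟨s(v, p), by simp [tri], v, hv, by simp⟩
      · exact ⟨s(v, x), by simp [tri], v, hv, by simp⟩
    induction e using Sym2.ind with
    | _ a b =>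
    have h11 : ∀ (u v : ℕ) (L : Finset ℕ), Hub1 c u v L → (u = x ∨ u = y ∨ u = p) → (v = x ∨ v = y ∨ v = p) →
        ∃ f ∈ tri x y p, ∃ v, v ∈ s(a, b) ∧ v ∈ f := by
      rintro u v L (rfl | rfl) hu hv
      · rw [mem3_k11] at he
        rcases he with (⟨h1, _⟩ | ⟨h1, _⟩) | (⟨h1 | h1, _⟩ | ⟨h1 | h1, _⟩)
        · exact k a (by simp) (h1 ▸ hu)
        · exact k a (by simp) (h1 ▸ hv)
        · exact k a (by simp) (h1 ▸ hu)
        · exact k a (by simp) (h1 ▸ hv)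
        · exact k b (by simp) (h1 ▸ hu)
        · exact k b (by simp) (h1 ▸ hv)
      · rw [mem3_k11] at he
        rcases he with (⟨h1, _⟩ | ⟨h1, _⟩) | (⟨h1 | h1, _⟩ | ⟨h1 | h1, _⟩)
        · exact k a (by simp) (h1 ▸ hv)
        · exact k a (by simp) (h1 ▸ hu)
        · exact k a (by simp) (h1 ▸ hv)
        · exact k a (by simp) (h1 ▸ hu)
        · exact k b (by simp) (h1 ▸ hv)
        · exact k b (by simp) (h1 ▸ hu)
    rcases shape3_tri hc h3 hs with ⟨Y, rfl, hY, hx, hy, hp⟩ | ⟨L, h1, _⟩ | ⟨L, h1, _⟩ | ⟨L, h1, _⟩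
    · obtain ⟨xy, xp, yp⟩ := h3
      rw [mem3_k4] at he
      obtain ⟨ha, hb, hab⟩ := he
      by_contra hn
      have ha' : ¬ (a = x ∨ a = y ∨ a = p) := fun h => hn (k a (by simp) h)
      have hb' : ¬ (b = x ∨ b = y ∨ b = p) := fun h => hn (k b (by simp) h)
      push Not at ha' hb'
      have h5 : ({a, b, x, y, p} : Finset ℕ) ⊆ Y := by
        intro w hw
        simp only [mem_insert, mem_singleton] at hw
        rcases hw with rfl | rfl | rfl | rfl | rfl <;> assumption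
      have h6 := card_le_card h5
      rw [card_insert_of_notMem (by simp [hab, ha'.1, ha'.2.1, ha'.2.2]),
        card_insert_of_notMem (by simp [hb'.1, hb'.2.1, hb'.2.2]), card_insert_of_notMem (by simp [xy, xp]),
        card_pair yp] at h6
      omega
    · exact h11 x y L h1 (Or.inl rfl) (Or.inr (Or.inl rfl))
    · exact h11 y p L h1 (Or.inr (Or.inl rfl)) (Or.inr (Or.inr rfl))
    · exact h11 p x L h1 (Or.inr (Or.inr rfl)) (Or.inl rfl)
  · have k : ∀ v, v ∈ e → (v = x ∨ v = y ∨ v = q ∨ v = p) → ∃ f ∈ TFC.sq x y q p, ∃ v, v ∈ e ∧ v ∈ f := by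
      rintro v hv (rfl | rfl | rfl | rfl)
      · exact ⟨s(v, y), by simp [TFC.sq], v, hv, by simp⟩
      · exact ⟨s(v, q), by simp [TFC.sq], v, hv, by simp⟩
      · exact ⟨s(v, p), by simp [TFC.sq], v, hv, by simp⟩
      · exact ⟨s(v, x), by simp [TFC.sq], v, hv, by simp⟩
    induction e using Sym2.ind with
    | _ a b =>
    have hub : ∀ (u v : ℕ) (L : Finset ℕ), Hub c u v L → (u = x ∨ u = y ∨ u = q ∨ u = p) →
        (v = x ∨ v = y ∨ v = q ∨ v = p) → ∃ f ∈ TFC.sq x y q p, ∃ v, v ∈ s(a, b) ∧ v ∈ f := by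
      rintro u v L (rfl | rfl | rfl | rfl) hu hv
      · rw [mem3_k2] at he
        rcases he with ⟨h1 | h1, _⟩ | ⟨h1 | h1, _⟩
        · exact k a (by simp) (h1 ▸ hu)
        · exact k a (by simp) (h1 ▸ hv)
        · exact k b (by simp) (h1 ▸ hu)
        · exact k b (by simp) (h1 ▸ hv)
      · rw [mem3_k2] at he
        rcases he with ⟨h1 | h1, _⟩ | ⟨h1 | h1, _⟩
        · exact k a (by simp) (h1 ▸ hv)
        · exact k a (by simp) (h1 ▸ hu)
        · exact k b (by simp) (h1 ▸ hv)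
        · exact k b (by simp) (h1 ▸ hu)
      · rw [mem3_k11] at he
        rcases he with (⟨h1, _⟩ | ⟨h1, _⟩) | (⟨h1 | h1, _⟩ | ⟨h1 | h1, _⟩)
        · exact k a (by simp) (h1 ▸ hu)
        · exact k a (by simp) (h1 ▸ hv)
        · exact k a (by simp) (h1 ▸ hu)
        · exact k a (by simp) (h1 ▸ hv)
        · exact k b (by simp) (h1 ▸ hu)
        · exact k b (by simp) (h1 ▸ hv)
      · rw [mem3_k11] at he
        rcases he with (⟨h1, _⟩ | ⟨h1, _⟩) | (⟨h1 | h1, _⟩ | ⟨h1 | h1, _⟩)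
        · exact k a (by simp) (h1 ▸ hv)
        · exact k a (by simp) (h1 ▸ hu)
        · exact k a (by simp) (h1 ▸ hv)
        · exact k a (by simp) (h1 ▸ hu)
        · exact k b (by simp) (h1 ▸ hv)
        · exact k b (by simp) (h1 ▸ hu)
    rcases shape3_sq hc h4 hs with rfl | ⟨L, h1, _⟩ | ⟨L, h1, _⟩
    · rw [mem3_k4] at he
      have h1 := he.1
      simp only [mem_insert, mem_singleton] at h1
      exact k a (by simp) h1
    · exact hub x q L h1 (Or.inl rfl) (Or.inr (Or.inr (Or.inl rfl)))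
    · exact hub y p L h1 (Or.inr (Or.inl rfl)) (Or.inr (Or.inr (Or.inr rfl)))

/-- the part in the cluster of a 2-matching which contains a short cycle of the cluster is this cycle -/
theorem inter_eq3 {c : Clu3 ℕ} (hc : c.Valid) {Z L : Finset (Sym2 ℕ)} (hZ : IsSh Z) (hs : Z ⊆ c.edges) (hL : M2 L)
    (hZL : Z ⊆ L) : L ∩ c.edges = Z := by
  refine Finset.Subset.antisymm ?_ (Finset.subset_inter hZL hs)
  intro e he
  obtain ⟨h1, h2⟩ := mem_inter.1 he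
  obtain ⟨f, hf, v, hve, hvf⟩ := cl3_touch hc hZ hs h2
  exact shc hL hZ hZL hf hvf h1 hve

/-! ### replacing the part in one cluster -/

section
variable {X : XD3} {P : ℕ → Finset (Sym2 ℕ) → Prop} {D : Finset (Finset (Sym2 ℕ))} {j : ℕ} {S : Finset ℕ}
  {M : ℕ → Finset (Sym2 ℕ)} {A : Clu3 ℕ → Finset (Sym2 ℕ) → Prop} {CL U : List (Clu3 ℕ)} {PL : Finset (Sym2 ℕ)}
  {pl mi : ℕ → Prop}

theorem PW3.cW (_ : PW3 X P D j S M A CL U PL pl mi) {c : Clu3 ℕ} (hc : c ∈ U) : c.edges ⊆ Ucl3 U ∪ PL :=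
  fun _ he => Finset.mem_union_left _ (mem_Ucl3.2 ⟨c, hc, he⟩)

theorem PW3.cU (_ : PW3 X P D j S M A CL U PL pl mi) {c : Clu3 ℕ} (hc : c ∈ U) : c.edges ⊆ Ucl3 U :=
  fun _ he => mem_Ucl3.2 ⟨c, hc, he⟩

theorem PW3.interW (h : PW3 X P D j S M A CL U PL pl mi) {c : Clu3 ℕ} (hc : c ∈ U) (L : Finset (Sym2 ℕ)) :
    L ∩ (Ucl3 U ∪ PL) ∩ c.edges = L ∩ c.edges := by
  rw [Finset.inter_assoc]
  congr 1
  rw [Finset.inter_eq_right]
  exact h.cW hc

theorem PW3.val (h : PW3 X P D j S M A CL U PL pl mi) {c : Clu3 ℕ} (hc : c ∈ U) : c.Valid :=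
  h.cls.val c ((h.uc c).1 hc).1

theorem PW3.eqc (h : PW3 X P D j S M A CL U PL pl mi) {c c' : Clu3 ℕ} (hc : c ∈ U) (hc' : c' ∈ U) {e : Sym2 ℕ}
    (he : e ∈ c.edges) (he' : e ∈ c'.edges) : c = c' :=
  h.cls.eq ((h.uc c).1 hc).1 ((h.uc c').1 hc').1 he he'

theorem PW3.djc (h : PW3 X P D j S M A CL U PL pl mi) {c c' : Clu3 ℕ} (hc : c ∈ U) (hc' : c' ∈ U) (hne : c ≠ c') :
    Disjoint c.edges c'.edges := by
  rw [Finset.disjoint_left]
  intro e he he'
  exact hne (h.eqc hc hc' he he')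

theorem PW3.nl (h : PW3 X P D j S M A CL U PL pl mi) {K : Finset (Sym2 ℕ)} (hK : K ⊆ Ucl3 U ∪ PL) : NoLoop K :=
  fun e he => h.ok.nl e (h.ok.e2 (h.w2 (hK he)))

theorem PW3.ne (h : PW3 X P D j S M A CL U PL pl mi) {a b : ℕ} (he : s(a, b) ∈ Ucl3 U ∪ PL) : a ≠ b := by
  have := h.nl le_rfl _ he
  simpa using this

theorem PW3.v2 (h : PW3 X P D j S M A CL U PL pl mi) {e : Sym2 ℕ} (he : e ∈ Ucl3 U ∪ PL) {v : ℕ} (hv : v ∈ e) :
    v ∈ X.V2 := by
  by_contra hc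
  have h1 := dg_off h.ok.toOK h.w2 hc
  rw [dg, Finset.card_eq_zero, Finset.filter_eq_empty_iff] at h1
  exact h1 he hv

/-- a member of `D` with an edge in a cluster of the region -/
theorem PW3.clz (h : PW3 X P D j S M A CL U PL pl mi) {Z : Finset (Sym2 ℕ)} (hZ : Z ∈ D) {c : Clu3 ℕ} (hc : c ∈ U)
    {e : Sym2 ℕ} (he : e ∈ Z) (hec : e ∈ c.edges) : Z ⊆ c.edges :=
  (h.cls.whole ((h.uc c).1 hc).1 hZ).resolve_right fun hd => Finset.disjoint_left.1 hd he hec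

/-- every edge of a cluster of the region is in a member of `D` in this cluster -/
theorem PW3.edz (h : PW3 X P D j S M A CL U PL pl mi) {c : Clu3 ℕ} (hc : c ∈ U) {e : Sym2 ℕ} (he : e ∈ c.edges) :
    ∃ Z ∈ D, e ∈ Z ∧ Z ⊆ c.edges := h.cls.edge_sq ((h.uc c).1 hc).1 he

/-- replace the part in the cluster `c` by `F` -/
theorem PW3.rep (h : PW3 X P D j S M A CL U PL pl mi) {c : Clu3 ℕ} (hc : c ∈ U) {K0 F : Finset (Sym2 ℕ)}
    (hK : K0 ⊆ Ucl3 U ∪ PL) (hA : ∀ c' ∈ U, c' ≠ c → A c' (K0 ∩ c'.edges)) (hF : F ⊆ c.edges) (hAF : A c F) :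
    AU3 A U PL ((K0 \ c.edges) ∪ F) ∧ dv ((K0 \ c.edges) ∪ F) = dv K0 - dv (K0 ∩ c.edges) + dv F := by
  have hd : Disjoint (K0 \ c.edges) F := Finset.disjoint_of_subset_right hF Finset.sdiff_disjoint
  refine ⟨⟨Finset.union_subset (Finset.sdiff_subset.trans hK) (hF.trans (h.cW hc)), fun c' hc' => ?_⟩, ?_⟩
  · by_cases hcc : c' = c
    · subst hcc
      have e : (K0 \ c'.edges ∪ F) ∩ c'.edges = F := by
        rw [Finset.union_inter_distrib_right, Finset.inter_eq_left.2 hF,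
          Finset.disjoint_iff_inter_eq_empty.1 Finset.sdiff_disjoint, Finset.empty_union]
      rw [e]
      exact hAF
    · have hdc : Disjoint c.edges c'.edges := by
        rw [Finset.disjoint_left]
        intro e he he'
        exact hcc (h.eqc hc' hc he' he)
      have e : (K0 \ c.edges ∪ F) ∩ c'.edges = K0 ∩ c'.edges := by
        rw [Finset.union_inter_distrib_right, Finset.disjoint_iff_inter_eq_empty.1 (hdc.mono_left hF),
          Finset.union_empty]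
        ext e
        simp only [Finset.mem_inter, Finset.mem_sdiff]
        refine ⟨fun h1 => ⟨h1.1.1, h1.2⟩, fun h1 => ⟨⟨h1.1, fun h2 => ?_⟩, h1.2⟩⟩
        exact Finset.disjoint_left.1 hdc h2 h1.2
      rw [e]
      exact hA c' hc' hcc
  · rw [XT.dv_union hd]
    congr 1
    have e : K0 \ c.edges = K0 \ (K0 ∩ c.edges) := by
      ext e
      simp only [Finset.mem_inter, Finset.mem_sdiff]
      tauto
    rw [e, dv_sdiff Finset.inter_subset_left]

/-- `L` is allowed outside of the cluster `c` -/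
def Out3 (A : Clu3 ℕ → Finset (Sym2 ℕ) → Prop) (U : List (Clu3 ℕ)) (c : Clu3 ℕ) (L : Finset (Sym2 ℕ)) : Prop :=
  ∀ c' ∈ U, c' ≠ c → A c' (L ∩ c'.edges)

/-- **near cover with the part in one cluster replaced** -/
theorem PW3.nc_rep (h : PW3 X P D j S M A CL U PL pl mi) {w : ℕ} (hw : w ∈ S) (hT : w ∈ X.T) {c : Clu3 ℕ}
    (hc : c ∈ U) (hA : Out3 A U c (M w)) {F : Finset (Sym2 ℕ)} (hF : F ⊆ c.edges) (hAF : A c F) :
    1 ≤ ph X.V2 pl mi (dv F - dv (M w ∩ c.edges) - Pi.single w 1) := by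
  obtain ⟨h1, h2⟩ := h.rep hc (K0 := M w ∩ (Ucl3 U ∪ PL)) Finset.inter_subset_right
    (fun c' hc' hne => by rw [h.interW hc']; exact hA c' hc' hne) hF hAF
  have h3 := h.nc w hw hT _ h1
  rw [h2, h.interW hc] at h3
  have e : dv (M w ∩ (Ucl3 U ∪ PL)) - dv (M w ∩ c.edges) + dv F - dv (M w ∩ (Ucl3 U ∪ PL)) - Pi.single w 1 =
      dv F - dv (M w ∩ c.edges) - Pi.single w 1 := by abel
  rwa [e] at h3

/-- what a witness of `Z` is -/
structure Wt3 (X : XD3) (P : ℕ → Finset (Sym2 ℕ) → Prop) (D : Finset (Finset (Sym2 ℕ))) (j : ℕ)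
    (Z L : Finset (Sym2 ℕ)) : Prop where
  mem : P j L
  cov : Cv X.toXD L
  m2 : M2 L
  sub : L ⊆ X.E
  sh : Z ⊆ L
  uni : ∀ Z' ∈ D, Z' ⊆ L → Z' = Z

theorem PW3.wt (h : PW3 X P D j S M A CL U PL pl mi) {Z : Finset (Sym2 ℕ)} (hZ : Z ∈ D) : ∃ L, Wt3 X P D j Z L := by
  obtain ⟨L, h1, h2, h3, h4, h5, h6⟩ := h.witE Z hZ
  exact ⟨L, h1, h2, h3, h4, h5, h6⟩

end

/-! ### allowed sets -/

/-- all 2-matchings of the cluster without short cycle are allowed (true in every frame) -/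
def AM3 (A : Clu3 ℕ → Finset (Sym2 ℕ) → Prop) (c : Clu3 ℕ) : Prop := ∀ K ⊆ c.edges, M2 K → NSh K → A c K

/-- capped frame at the cluster `c`: all 2-matchings without member of `D` are allowed -/
def ACp3 (D : Finset (Finset (Sym2 ℕ))) (A : Clu3 ℕ → Finset (Sym2 ℕ) → Prop) (c : Clu3 ℕ) : Prop :=
  ∀ K ⊆ c.edges, Acap D K → A c K

/-- uncapped frame without short cycles at the cluster `c` -/
def ASf3 (A : Clu3 ℕ → Finset (Sym2 ℕ) → Prop) (c : Clu3 ℕ) : Prop := ∀ K ⊆ c.edges, NSh K → A c K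

theorem ASf3.am {A : Clu3 ℕ → Finset (Sym2 ℕ) → Prop} {c : Clu3 ℕ} (h : ASf3 A c) : AM3 A c :=
  fun K hK _ hs => h K hK hs

theorem ACp3.am {D : Finset (Finset (Sym2 ℕ))} {A : Clu3 ℕ → Finset (Sym2 ℕ) → Prop} {c : Clu3 ℕ}
    (hD : ∀ Z ∈ D, IsSh Z) (h : ACp3 D A c) : AM3 A c :=
  fun K hK hm hs => h K hK ⟨hm, fun Z hZ => hs Z (hD Z hZ)⟩

end Pool.Agent.P34

end

section -- file P34/XSh2

/-!
The phi frame for triangles and squares: the elementary lemmas `L1` - `L5`.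
-/

set_option autoImplicit false

namespace Pool.Agent.P34

open Finset Pool.Agent.TFC Pool.Agent.PF4 Pool.Agent.PF4.LD Pool.Agent.PF4.XC Pool.Agent.PF4.XT
open Pool.Agent.PF4.XF (XD FitK Cv World WJ Av NC Rch dg_off mem_k4 mem_k2)

/-! ### adding an edge to a set without short cycles -/

/-- `u` and `v` are joined by a path of `K` with two or three edges -/
def Pth (K : Finset (Sym2 ℕ)) (u v : ℕ) : Prop :=
  (∃ a, Dist3 u a v ∧ s(u, a) ∈ K ∧ s(a, v) ∈ K) ∨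
    ∃ a b, Dist4 u a b v ∧ s(u, a) ∈ K ∧ s(a, b) ∈ K ∧ s(b, v) ∈ K

theorem Pth.symm {K : Finset (Sym2 ℕ)} {u v : ℕ} (h : Pth K u v) : Pth K v u := by
  rcases h with ⟨a, ⟨n1, n2, n3⟩, h2, h3⟩ | ⟨a, b, ⟨n1, n2, n3, n4, n5, n6⟩, h2, h3, h4⟩
  · exact Or.inl ⟨a, ⟨n3.symm, n2.symm, n1.symm⟩, by rwa [Sym2.eq_swap], by rwa [Sym2.eq_swap]⟩
  · exact Or.inr ⟨b, a, ⟨n6.symm, n5.symm, n3.symm, n4.symm, n2.symm, n1.symm⟩, by rwa [Sym2.eq_swap],
      by rwa [Sym2.eq_swap], by rwa [Sym2.eq_swap]⟩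

/-- the first edge of the path -/
theorem Pth.fst {K : Finset (Sym2 ℕ)} {u v : ℕ} (h : Pth K u v) : ∃ a, a ≠ v ∧ s(u, a) ∈ K := by
  rcases h with ⟨a, h1, h2, _⟩ | ⟨a, _, h1, h2, _⟩
  · exact ⟨a, h1.2.2, h2⟩
  · exact ⟨a, h1.2.2.2.2.1, h2⟩

/-- **an edge which cannot be added to a set without short cycles: there is a 2-path or a 3-path between its ends** -/
theorem nsh_insert {K : Finset (Sym2 ℕ)} (hK : NSh K) {u v : ℕ} (h : ¬ NSh (insert s(u, v) K)) : Pth K u v := by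
  unfold NSh at h
  push Not at h
  obtain ⟨Z, h1, h2⟩ := h
  have h3 : s(u, v) ∈ Z := by
    by_contra hc
    refine hK Z h1 fun e he => ?_
    rcases Finset.mem_insert.1 (h2 he) with rfl | h4
    · exact absurd he hc
    · exact h4
  rcases isSh_first h1 h3 with ⟨c, hd, rfl⟩ | ⟨q, p, hd, rfl⟩
  · obtain ⟨e1, e2⟩ := tri_mem hd h2
    obtain ⟨n1, n2, n3⟩ := hd
    exact Or.inl ⟨c, ⟨n2, n1, n3.symm⟩, by rwa [Sym2.eq_swap], by rwa [Sym2.eq_swap]⟩
  · obtain ⟨e1, e2, e3⟩ := sq_mem hd h2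
    obtain ⟨n1, n2, n3, n4, n5, n6⟩ := hd
    exact Or.inr ⟨p, q, ⟨n3, n2, n1, n6.symm, n5.symm, n4.symm⟩, by rwa [Sym2.eq_swap], by rwa [Sym2.eq_swap],
      by rwa [Sym2.eq_swap]⟩

/-- an edge at a vertex without another edge of `K` can be added -/
theorem nsh_pendant {K : Finset (Sym2 ℕ)} (hK : NSh K) {u v : ℕ} (h : ∀ a, s(u, a) ∈ K → a = v) :
    NSh (insert s(u, v) K) := by
  by_contra hc
  obtain ⟨a, h1, h2⟩ := (nsh_insert hK hc).fst
  exact h1 (h a h2)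

/-- inserting an edge with a free end: still without short cycles -/
theorem nsh_pendant' {K : Finset (Sym2 ℕ)} (hK : NSh K) {u v : ℕ} (h : ∀ e ∈ K, u ∉ e) : NSh (insert s(u, v) K) :=
  nsh_pendant hK fun a ha => absurd (by simp) (h _ ha)

section
variable {X : XD3} {P : ℕ → Finset (Sym2 ℕ) → Prop} {D : Finset (Finset (Sym2 ℕ))} {j : ℕ} {S : Finset ℕ}
  {M : ℕ → Finset (Sym2 ℕ)} {A : Clu3 ℕ → Finset (Sym2 ℕ) → Prop} {CL U : List (Clu3 ℕ)} {PL : Finset (Sym2 ℕ)}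
  {pl mi : ℕ → Prop}

/-- the edge `e` can be added to `K` -/
def Addb3 (A : Clu3 ℕ → Finset (Sym2 ℕ) → Prop) (U : List (Clu3 ℕ)) (PL K : Finset (Sym2 ℕ)) (e : Sym2 ℕ) : Prop :=
  e ∈ PL ∨ ∃ c ∈ U, e ∈ c.edges ∧ A c (insert e (K ∩ c.edges))

theorem PW3.addb (h : PW3 X P D j S M A CL U PL pl mi) {K : Finset (Sym2 ℕ)} (hK : AU3 A U PL K) {e : Sym2 ℕ}
    (ha : Addb3 A U PL K e) : AU3 A U PL (insert e K) := by
  rcases ha with h1 | ⟨c, hc, h1, h2⟩
  · rw [Finset.insert_eq, Finset.union_comm]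
    exact h.addp hK (Finset.singleton_subset_iff.2 h1)
  · exact h.addc hK hc h1 h2

/-- remove plain edges -/
theorem PW3.remp (h : PW3 X P D j S M A CL U PL pl mi) {K R : Finset (Sym2 ℕ)} (hK : AU3 A U PL K) (hR : R ⊆ PL) :
    AU3 A U PL (K \ R) := by
  refine ⟨Finset.sdiff_subset.trans hK.1, fun c hc => ?_⟩
  have e : (K \ R) ∩ c.edges = K ∩ c.edges := by
    ext e
    simp only [Finset.mem_inter, Finset.mem_sdiff]
    refine ⟨fun h1 => ⟨h1.1.1, h1.2⟩, fun h1 => ⟨⟨h1.1, fun h2 => ?_⟩, h1.2⟩⟩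
    exact Finset.disjoint_left.1 (h.plain hc) (hR h2) h1.2
  rw [e]
  exact hK.2 c hc

theorem Addb3.inter (h : PW3 X P D j S M A CL U PL pl mi) {K : Finset (Sym2 ℕ)} {e : Sym2 ℕ}
    (ha : Addb3 A U PL K e) : Addb3 A U PL (K ∩ (Ucl3 U ∪ PL)) e := by
  rcases ha with h1 | ⟨c, hc, h1, h2⟩
  · exact Or.inl h1
  · exact Or.inr ⟨c, hc, h1, by rw [h.interW hc]; exact h2⟩

theorem Addb3.mem {A : Clu3 ℕ → Finset (Sym2 ℕ) → Prop} {U : List (Clu3 ℕ)} {PL K : Finset (Sym2 ℕ)} {e : Sym2 ℕ}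
    (ha : Addb3 A U PL K e) : e ∈ Ucl3 U ∪ PL := by
  rcases ha with h1 | ⟨c, hc, h1, _⟩
  · exact Finset.mem_union_right _ h1
  · exact Finset.mem_union_left _ (mem_Ucl3.2 ⟨c, hc, h1⟩)

/-! ### L3, L4, L5: near covers -/

/-- **L3** general: an edge is added to a near cover -/
theorem PW3.L3 (h : PW3 X P D j S M A CL U PL pl mi) {w : ℕ} (hw : w ∈ S) (hT : w ∈ X.T)
    (hM : AU3 A U PL (M w ∩ (Ucl3 U ∪ PL))) {e : Sym2 ℕ} (he : e ∉ M w) (ha : Addb3 A U PL (M w) e) :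
    1 ≤ ph X.V2 pl mi (dv {e} - Pi.single w 1) := by
  have h1 := h.nc w hw hT _ (h.addb hM (ha.inter h))
  rw [XT.dv_insert (fun hc => he (Finset.mem_of_mem_inter_left hc))] at h1
  have e1 : dv (M w ∩ (Ucl3 U ∪ PL)) + dv {e} - dv (M w ∩ (Ucl3 U ∪ PL)) - Pi.single w 1 = dv {e} - Pi.single w 1 := by
    abel
  rwa [e1] at h1

/-- **L3** at `w` -/
theorem PW3.L3w (h : PW3 X P D j S M A CL U PL pl mi) {w z : ℕ} (hw : w ∈ S) (hT : w ∈ X.T)
    (hM : AU3 A U PL (M w ∩ (Ucl3 U ∪ PL))) (he : s(w, z) ∉ M w) (ha : Addb3 A U PL (M w) s(w, z)) :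
    1 ≤ con (pl z) (mi z) 1 := by
  have h1 := h.L3 hw hT hM he ha
  have hz := h.v2 ha.mem (v := z) (by simp)
  rw [dv_pair (h.ne ha.mem)] at h1
  have e : (Pi.single w 1 + Pi.single z 1 - Pi.single w 1 : ℕ → ℤ) = Pi.single z 1 := by abel
  rwa [e, ph_one hz] at h1

/-- **L3** at `w`: an addable edge leads to a vertex with `pl` -/
theorem PW3.L3p (h : PW3 X P D j S M A CL U PL pl mi) {w z : ℕ} (hw : w ∈ S) (hT : w ∈ X.T)
    (hM : AU3 A U PL (M w ∩ (Ucl3 U ∪ PL))) (he : s(w, z) ∉ M w) (ha : Addb3 A U PL (M w) s(w, z)) : pl z :=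
  con_one_eq (m := mi z) (by have := h.L3w hw hT hM he ha; omega)

/-- **L4** general: an edge is removed from a near cover -/
theorem PW3.L4 (h : PW3 X P D j S M A CL U PL pl mi) (hD : Dwn3 A) {w : ℕ} (hw : w ∈ S) (hT : w ∈ X.T)
    (hM : AU3 A U PL (M w ∩ (Ucl3 U ∪ PL))) {e : Sym2 ℕ} (he : e ∈ M w) (heW : e ∈ Ucl3 U ∪ PL) :
    1 ≤ ph X.V2 pl mi (-dv {e} - Pi.single w 1) := by
  have h1 := h.nc_swap hw hT (R := {e}) (B := ∅) (Finset.singleton_subset_iff.2 he)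
    (Finset.singleton_subset_iff.2 heW) (Finset.disjoint_empty_left _)
    (by rw [Finset.union_empty]; exact hM.mono hD Finset.sdiff_subset)
  rwa [dv_empty, zero_sub] at h1

/-- **L4** at `w` -/
theorem PW3.L4w (h : PW3 X P D j S M A CL U PL pl mi) (hD : Dwn3 A) {w z : ℕ} (hw : w ∈ S) (hT : w ∈ X.T)
    (hM : AU3 A U PL (M w ∩ (Ucl3 U ∪ PL))) (he : s(w, z) ∈ M w) (heW : s(w, z) ∈ Ucl3 U ∪ PL) :
    1 ≤ con (pl w) (mi w) (-2) + con (pl z) (mi z) (-1) := by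
  have h1 := h.L4 hD hw hT hM he heW
  have hne := h.ne heW
  rw [dv_pair hne] at h1
  have e : (-(Pi.single w 1 + Pi.single z 1) - Pi.single w 1 : ℕ → ℤ) = Pi.single w (-2) + Pi.single z (-1) := by
    funext v
    simp only [Pi.sub_apply, Pi.add_apply, Pi.neg_apply, sgl]
    split_ifs <;> ring
  rwa [e, ph_two (h.sv w hw) (h.v2 heW (by simp)) hne] at h1

/-- the edge `e` lies only in clusters with the uncapped short-cycle-free family, in which `K` is short-cycle-free -/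
def Free3 (A : Clu3 ℕ → Finset (Sym2 ℕ) → Prop) (U : List (Clu3 ℕ)) (K : Finset (Sym2 ℕ)) (e : Sym2 ℕ) : Prop :=
  ∀ c ∈ U, e ∈ c.edges → ASf3 A c ∧ NSh (K ∩ c.edges)

/-- **the block lemma**: an edge of the region can be added to `K`, or there is a 2-path or a 3-path of `K` between its ends
in its cluster -/
theorem PW3.block (_ : PW3 X P D j S M A CL U PL pl mi) {K : Finset (Sym2 ℕ)} {u v : ℕ} (he : s(u, v) ∈ Ucl3 U ∪ PL)
    (hf : Free3 A U K s(u, v)) : Addb3 A U PL K s(u, v) ∨ ∃ c ∈ U, s(u, v) ∈ c.edges ∧ Pth (K ∩ c.edges) u v := by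
  rcases Finset.mem_union.1 he with h1 | h1
  · obtain ⟨c, hc, hec⟩ := mem_Ucl3.1 h1
    obtain ⟨hA, hs⟩ := hf c hc hec
    by_cases h2 : NSh (insert s(u, v) (K ∩ c.edges))
    · exact Or.inl (Or.inr ⟨c, hc, hec, hA _ (Finset.insert_subset hec Finset.inter_subset_right) h2⟩)
    · exact Or.inr ⟨c, hc, hec, nsh_insert hs h2⟩
  · exact Or.inl (Or.inl h1)

/-- **L5**: an edge from `w` to a vertex without `pl` is in the near cover, or its ends are joined by a 2-path or a 3-path of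
the near cover in its cluster -/
theorem PW3.L5 (h : PW3 X P D j S M A CL U PL pl mi) {w z : ℕ} (hw : w ∈ S) (hT : w ∈ X.T)
    (hM : AU3 A U PL (M w ∩ (Ucl3 U ∪ PL))) (he : s(w, z) ∈ Ucl3 U ∪ PL) (hf : Free3 A U (M w) s(w, z))
    (hz : ¬ pl z) : s(w, z) ∈ M w ∨ ∃ c ∈ U, s(w, z) ∈ c.edges ∧ Pth (M w ∩ c.edges) w z := by
  by_cases h1 : s(w, z) ∈ M w
  · exact Or.inl h1
  · rcases h.block he hf with h2 | h2
    · exact absurd (h.L3p hw hT hM h1 h2) hz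
    · exact Or.inr h2

/-! ### witnesses: the part in the cluster of the member is replaced -/

theorem PW3.wz_au (h : PW3 X P D j S M A CL U PL pl mi) {Z L : Finset (Sym2 ℕ)} (hZ : Z ∈ D) (hL : Wt3 X P D j Z L)
    {c : Clu3 ℕ} (hc : c ∈ U) (hZc : Z ⊆ c.edges) (hA : Out3 A U c L) {F : Finset (Sym2 ℕ)} (hF : F ⊆ c.edges)
    (hAF : A c F) : AU3 A U PL (((L ∩ (Ucl3 U ∪ PL)) \ c.edges) ∪ F) ∧
      dv (((L ∩ (Ucl3 U ∪ PL)) \ c.edges) ∪ F) = dv (L ∩ (Ucl3 U ∪ PL)) - dv Z + dv F := by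
  obtain ⟨h1, h2⟩ := h.rep hc (K0 := L ∩ (Ucl3 U ∪ PL)) Finset.inter_subset_right
    (fun c' hc' hne => by rw [h.interW hc']; exact hA c' hc' hne) hF hAF
  refine ⟨h1, ?_⟩
  rw [h2, h.interW hc, inter_eq3 (h.val hc) (h.ish Z hZ) hZc hL.m2 hL.sh]

/-- **the part of the witness in the cluster of its square is replaced by `F`** -/
theorem PW3.wz (h : PW3 X P D j S M A CL U PL pl mi) {Z L : Finset (Sym2 ℕ)} (hZ : Z ∈ D) (hL : Wt3 X P D j Z L)
    {c : Clu3 ℕ} (hc : c ∈ U) (hZc : Z ⊆ c.edges) (hA : Out3 A U c L) {F : Finset (Sym2 ℕ)} (hF : F ⊆ c.edges)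
    (hAF : A c F) : 1 ≤ ph X.V2 pl mi (dv F - dv Z) := by
  obtain ⟨h1, h2⟩ := h.wz_au hZ hL hc hZc hA hF hAF
  have h3 := h.witA Z hZ (fun e he => mem_Ucl3.2 ⟨c, hc, hZc he⟩) L hL.mem hL.cov hL.uni _ h1
  rw [h2] at h3
  have e : dv (L ∩ (Ucl3 U ∪ PL)) - dv Z + dv F - dv (L ∩ (Ucl3 U ∪ PL)) = dv F - dv Z := by abel
  rwa [e] at h3

/-- **the part of the witness in the cluster of its square is replaced, and an edge outside of this cluster is added** -/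
theorem PW3.wz_add (h : PW3 X P D j S M A CL U PL pl mi) {Z L : Finset (Sym2 ℕ)} (hZ : Z ∈ D) (hL : Wt3 X P D j Z L)
    {c : Clu3 ℕ} (hc : c ∈ U) (hZc : Z ⊆ c.edges) (hA : Out3 A U c L) {F : Finset (Sym2 ℕ)} (hF : F ⊆ c.edges)
    (hAF : A c F) {e : Sym2 ℕ} (hec : e ∉ c.edges) (heL : e ∉ L) (ha : Addb3 A U PL L e) :
    1 ≤ ph X.V2 pl mi (dv F - dv Z + dv {e}) := by
  obtain ⟨h1, h2⟩ := h.wz_au hZ hL hc hZc hA hF hAF
  have h4 : AU3 A U PL (insert e (((L ∩ (Ucl3 U ∪ PL)) \ c.edges) ∪ F)) := by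
    refine h.addb h1 ?_
    rcases ha with h5 | ⟨c2, hc2, h5, h6⟩
    · exact Or.inl h5
    · refine Or.inr ⟨c2, hc2, h5, ?_⟩
      have hne : Disjoint c.edges c2.edges := by
        rw [Finset.disjoint_left]
        intro f hf hf2
        rw [h.eqc hc hc2 hf hf2] at hec
        exact hec h5
      have e1 : ((L ∩ (Ucl3 U ∪ PL)) \ c.edges ∪ F) ∩ c2.edges = L ∩ c2.edges := by
        rw [Finset.union_inter_distrib_right, Finset.disjoint_iff_inter_eq_empty.1 (hne.mono_left hF),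
          Finset.union_empty, ← h.interW hc2 L]
        ext f
        simp only [Finset.mem_inter, Finset.mem_sdiff]
        refine ⟨fun h1 => ⟨h1.1.1, h1.2⟩, fun h1 => ⟨⟨h1.1, fun h2 => ?_⟩, h1.2⟩⟩
        exact Finset.disjoint_left.1 hne h2 h1.2
      rw [e1]
      exact h6
  have heF : e ∉ ((L ∩ (Ucl3 U ∪ PL)) \ c.edges) ∪ F := by
    rw [Finset.mem_union, not_or]
    exact ⟨fun hc => heL (Finset.mem_inter.1 (Finset.mem_sdiff.1 hc).1).1, fun hc => hec (hF hc)⟩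
  have h3 := h.witA Z hZ (fun e he => mem_Ucl3.2 ⟨c, hc, hZc he⟩) L hL.mem hL.cov hL.uni _ h4
  rw [XT.dv_insert heF, h2] at h3
  have e : dv (L ∩ (Ucl3 U ∪ PL)) - dv Z + dv F + dv {e} - dv (L ∩ (Ucl3 U ∪ PL)) = dv F - dv Z + dv {e} := by abel
  rwa [e] at h3

/-- a proper part of a short cycle is allowed -/
theorem am3_sub {A : Clu3 ℕ → Finset (Sym2 ℕ) → Prop} {c : Clu3 ℕ} (hAc : AM3 A c) {Z : Finset (Sym2 ℕ)}
    (hZ : IsSh Z) (hZc : Z ⊆ c.edges) {R : Finset (Sym2 ℕ)} (hR : R ⊆ Z) (hne : R.Nonempty) : A c (Z \ R) := by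
  refine hAc _ (Finset.sdiff_subset.trans hZc) (hZ.m2.mono Finset.sdiff_subset)
    (nsh_ssub hZ Finset.sdiff_subset fun hc => ?_)
  obtain ⟨e, he⟩ := hne
  have h1 := hR he
  rw [← hc] at h1
  exact (Finset.mem_sdiff.1 h1).2 he

/-- removing a part of the member -/
theorem PW3.wz_rem (h : PW3 X P D j S M A CL U PL pl mi) {Z L : Finset (Sym2 ℕ)} (hZ : Z ∈ D) (hL : Wt3 X P D j Z L)
    {c : Clu3 ℕ} (hc : c ∈ U) (hZc : Z ⊆ c.edges) (hAc : AM3 A c) (hA : Out3 A U c L) {R : Finset (Sym2 ℕ)}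
    (hR : R ⊆ Z) (hne : R.Nonempty) : 1 ≤ ph X.V2 pl mi (-dv R) := by
  have h1 := h.wz hZ hL hc hZc hA (F := Z \ R) (Finset.sdiff_subset.trans hZc)
    (am3_sub hAc (h.ish Z hZ) hZc hR hne)
  rw [dv_sdiff hR] at h1
  have e : dv Z - dv R - dv Z = -dv R := by abel
  rwa [e] at h1

/-- **L1**: an edge of the member -/
theorem PW3.L1e (h : PW3 X P D j S M A CL U PL pl mi) {Z L : Finset (Sym2 ℕ)} (hZ : Z ∈ D) (hL : Wt3 X P D j Z L)
    {c : Clu3 ℕ} (hc : c ∈ U) (hZc : Z ⊆ c.edges) (hAc : AM3 A c) (hA : Out3 A U c L) {a b : ℕ} (he : s(a, b) ∈ Z) :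
    1 ≤ con (pl a) (mi a) (-1) + con (pl b) (mi b) (-1) := by
  have hW := h.cW hc (hZc he)
  have h1 := h.wz_rem hZ hL hc hZc hAc hA (R := {s(a, b)}) (Finset.singleton_subset_iff.2 he) (by simp)
  rwa [ph_sub_edge (h.v2 hW (by simp)) (h.v2 hW (by simp)) (h.ne hW)] at h1

/-- **L1**: corners are not of type Y -/
theorem PW3.L1Y (h : PW3 X P D j S M A CL U PL pl mi) {Z L : Finset (Sym2 ℕ)} (hZ : Z ∈ D) (hL : Wt3 X P D j Z L)
    {c : Clu3 ℕ} (hc : c ∈ U) (hZc : Z ⊆ c.edges) (hAc : AM3 A c) (hA : Out3 A U c L) {a b : ℕ} (he : s(a, b) ∈ Z) :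
    ¬ (pl a ∧ ¬ mi a) := by
  have h1 := h.L1e hZ hL hc hZc hAc hA he
  have h2 := con_neg_one (pl b) (mi b)
  exact con_neg_one_Y (by omega)

/-- **L1**: some corner is of type X -/
theorem PW3.L1x (h : PW3 X P D j S M A CL U PL pl mi) {Z L : Finset (Sym2 ℕ)} (hZ : Z ∈ D) (hL : Wt3 X P D j Z L)
    {c : Clu3 ℕ} (hc : c ∈ U) (hZc : Z ⊆ c.edges) (hAc : AM3 A c) (hA : Out3 A U c L) :
    ∃ v, (∃ e ∈ Z, v ∈ e) ∧ mi v ∧ ¬ pl v := by
  have k : ∀ u v, s(u, v) ∈ Z → u ∈ X.V2 := fun u v he => h.v2 (h.cW hc (hZc he)) (by simp)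
  have h1 := h.wz_rem hZ hL hc hZc hAc hA (R := Z) le_rfl (h.ish Z hZ).ne
  by_contra hn
  push Not at hn
  have k2 : ∀ v, (∃ e ∈ Z, v ∈ e) → con (pl v) (mi v) (-2) ≤ 0 := by
    intro v hv
    by_contra hc
    obtain ⟨h5, h6⟩ := con_neg_two (p := pl v) (m := mi v) (by omega)
    exact h6 (hn v hv h5)
  rcases h.ish Z hZ with ⟨x, y, p, h3, rfl⟩ | ⟨x, y, q, p, h4, rfl⟩
  · have e : (-dv (tri x y p) : ℕ → ℤ) = Pi.single x (-2) + Pi.single y (-2) + Pi.single p (-2) := by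
      rw [dv_tri h3]
      funext v
      simp only [Pi.neg_apply, Pi.add_apply, sgl, ev_apply]
      split_ifs <;> ring
    obtain ⟨n1, n2, n3⟩ := h3
    rw [e, ph_three (k x y (by simp [tri])) (k y p (by simp [tri])) (k p x (by simp [tri])) n1 n2 n3] at h1
    have := k2 x ⟨s(x, y), by simp [tri], by simp⟩
    have := k2 y ⟨s(x, y), by simp [tri], by simp⟩
    have := k2 p ⟨s(y, p), by simp [tri], by simp⟩
    omega
  · have vx := k x y (by simp [TFC.sq])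
    have vy := k y q (by simp [TFC.sq])
    have vq := k q p (by simp [TFC.sq])
    have vp := k p x (by simp [TFC.sq])
    have e : (-dv (TFC.sq x y q p) : ℕ → ℤ) =
        Pi.single x (-2) + Pi.single y (-2) + Pi.single q (-2) + Pi.single p (-2) := by
      rw [dv_sq h4]
      funext v
      simp only [Pi.neg_apply, Pi.add_apply, sgl, ev_apply]
      split_ifs <;> ring
    obtain ⟨n1, n2, n3, n4, n5, n6⟩ := h4
    rw [e, ph_add vp (by simp only [Pi.add_apply, sgl, if_neg n3.symm, if_neg n5.symm, if_neg n6.symm]; rfl),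
      ph_three vx vy vq n1 n2 n4] at h1
    have := k2 x ⟨s(x, y), by simp [TFC.sq], by simp⟩
    have := k2 y ⟨s(x, y), by simp [TFC.sq], by simp⟩
    have := k2 q ⟨s(q, p), by simp [TFC.sq], by simp⟩
    have := k2 p ⟨s(q, p), by simp [TFC.sq], by simp⟩
    omega

/-- **L2** with a given addability -/
theorem PW3.L2' (h : PW3 X P D j S M A CL U PL pl mi) {Z L : Finset (Sym2 ℕ)} (hZ : Z ∈ D) (hL : Wt3 X P D j Z L)
    {c : Clu3 ℕ} (hc : c ∈ U) (hZc : Z ⊆ c.edges) (hAc : AM3 A c) (hA : Out3 A U c L) {v v' z : ℕ}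
    (he : s(v, v') ∈ Z) (hzc : s(v, z) ∉ c.edges) (ha : Addb3 A U PL L s(v, z)) :
    1 ≤ con (pl v') (mi v') (-1) + con (pl z) (mi z) 1 := by
  have hW := h.cW hc (hZc he)
  have hzL : s(v, z) ∉ L := fun hz =>
    hzc (hZc (shc hL.m2 (h.ish Z hZ) hL.sh he (v := v) (by simp) hz (by simp)))
  have h1 := h.wz_add hZ hL hc hZc hA (F := Z \ {s(v, v')}) (Finset.sdiff_subset.trans hZc)
    (am3_sub hAc (h.ish Z hZ) hZc (Finset.singleton_subset_iff.2 he) (by simp)) hzc hzL ha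
  have hne : v' ≠ z := by
    rintro rfl
    exact hzc (hZc he)
  rw [dv_sdiff (Finset.singleton_subset_iff.2 he), dv_pair (h.ne hW), dv_pair (h.ne ha.mem)] at h1
  have e : (dv Z - (Pi.single v 1 + Pi.single v' 1) - dv Z + (Pi.single v 1 + Pi.single z 1) : ℕ → ℤ) =
      Pi.single v' (-1) + Pi.single z 1 := by
    rw [Pi.single_neg]
    abel
  rwa [e, ph_two (h.v2 hW (by simp)) (h.v2 ha.mem (by simp)) hne] at h1

/-- the edge `vz` can be added to the witness if its cluster is uncapped and without short cycles there -/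
theorem PW3.addL (h : PW3 X P D j S M A CL U PL pl mi) {Z L : Finset (Sym2 ℕ)} (hZ : Z ∈ D) (hL : Wt3 X P D j Z L)
    {c : Clu3 ℕ} (hc : c ∈ U) (hZc : Z ⊆ c.edges) {v v' z : ℕ} (he : s(v, v') ∈ Z) (hz : s(v, z) ∈ Ucl3 U ∪ PL)
    (hzc : s(v, z) ∉ c.edges) (hf : Free3 A U L s(v, z)) : Addb3 A U PL L s(v, z) := by
  rcases h.block hz hf with h1 | ⟨c2, hc2, h2, h3⟩
  · exact h1
  · exfalso
    obtain ⟨a, _, h4⟩ := h3.fst
    rw [Finset.mem_inter] at h4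
    have h6 := hZc (shc hL.m2 (h.ish Z hZ) hL.sh he (v := v) (by simp) h4.1 (by simp))
    exact hzc (h.eqc hc hc2 h6 h4.2 ▸ h2)

/-- **L2**: `v` a corner of the member `Z` of `D` with neighbour `v'`, `vz` an edge outside of the cluster of `Z` -/
theorem PW3.L2 (h : PW3 X P D j S M A CL U PL pl mi) {Z L : Finset (Sym2 ℕ)} (hZ : Z ∈ D) (hL : Wt3 X P D j Z L)
    {c : Clu3 ℕ} (hc : c ∈ U) (hZc : Z ⊆ c.edges) (hAc : AM3 A c) (hA : Out3 A U c L) {v v' z : ℕ}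
    (he : s(v, v') ∈ Z) (hz : s(v, z) ∈ Ucl3 U ∪ PL) (hzc : s(v, z) ∉ c.edges) (hf : Free3 A U L s(v, z)) :
    1 ≤ con (pl v') (mi v') (-1) + con (pl z) (mi z) 1 :=
  h.L2' hZ hL hc hZc hAc hA he hzc (h.addL hZ hL hc hZc he hz hzc hf)

/-- **L2**: `z` is not of type X -/
theorem PW3.L2X (h : PW3 X P D j S M A CL U PL pl mi) {Z L : Finset (Sym2 ℕ)} (hZ : Z ∈ D) (hL : Wt3 X P D j Z L)
    {c : Clu3 ℕ} (hc : c ∈ U) (hZc : Z ⊆ c.edges) (hAc : AM3 A c) (hA : Out3 A U c L) {v v' z : ℕ}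
    (he : s(v, v') ∈ Z) (hz : s(v, z) ∈ Ucl3 U ∪ PL) (hzc : s(v, z) ∉ c.edges) (hf : Free3 A U L s(v, z)) :
    ¬ (mi z ∧ ¬ pl z) := by
  have h1 := h.L2 hZ hL hc hZc hAc hA he hz hzc hf
  have h2 := con_neg_one (pl v') (mi v')
  exact con_one_X (by omega)

end

end Pool.Agent.P34

end

section -- file P34/XM

/-!
Changing the parts in several clusters at once, and adding plain edges.
-/

set_option autoImplicit false

namespace Pool.Agent.P34

open Finset Pool.Agent.TFC Pool.Agent.PF4 Pool.Agent.PF4.LD Pool.Agent.PF4.XC Pool.Agent.PF4.XT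
open Pool.Agent.PF4.XF (XD FitK Cv World WJ Av NC Rch dg_off mem_k4 mem_k2)

section
variable {X : XD3} {P : ℕ → Finset (Sym2 ℕ) → Prop} {D : Finset (Finset (Sym2 ℕ))} {j : ℕ} {S : Finset ℕ}
  {M : ℕ → Finset (Sym2 ℕ)} {A : Clu3 ℕ → Finset (Sym2 ℕ) → Prop} {CL U : List (Clu3 ℕ)} {PL : Finset (Sym2 ℕ)}
  {pl mi : ℕ → Prop}

/-- the change of the degree vector -/
noncomputable def dch3 (L : Finset (Sym2 ℕ)) (cs : List (Clu3 ℕ × Finset (Sym2 ℕ))) : ℕ → ℤ :=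
  (cs.map fun t => dv t.2 - dv (L ∩ t.1.edges)).sum

theorem dch3_nil (L : Finset (Sym2 ℕ)) : dch3 L [] = 0 := rfl

theorem dch3_cons (L : Finset (Sym2 ℕ)) (t : Clu3 ℕ × Finset (Sym2 ℕ)) (cs : List (Clu3 ℕ × Finset (Sym2 ℕ))) :
    dch3 L (t :: cs) = dv t.2 - dv (L ∩ t.1.edges) + dch3 L cs := by
  simp [dch3]

/-- **change the parts in the clusters of a list** -/
theorem PW3.multi0 (h : PW3 X P D j S M A CL U PL pl mi) {K0 : Finset (Sym2 ℕ)} (hK : K0 ⊆ Ucl3 U ∪ PL) :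
    ∀ cs : List (Clu3 ℕ × Finset (Sym2 ℕ)), (cs.map Prod.fst).Nodup → (∀ t ∈ cs, t.1 ∈ U ∧ t.2 ⊆ t.1.edges) →
    ∃ K ⊆ Ucl3 U ∪ PL, (∀ c ∈ U, c ∉ cs.map Prod.fst → K ∩ c.edges = K0 ∩ c.edges) ∧
      (∀ t ∈ cs, K ∩ t.1.edges = t.2) ∧ K ∩ PL = K0 ∩ PL ∧ dv K = dv K0 + dch3 K0 cs := by
  intro cs
  induction cs with
  | nil =>
    intro _ _
    exact ⟨K0, hK, fun c _ _ => rfl, by simp, rfl, by rw [dch3_nil, add_zero]⟩
  | cons t cs ih =>
    intro hn hs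
    rw [List.map_cons, List.nodup_cons] at hn
    obtain ⟨K, h1, h2, h3, h4, h5⟩ := ih hn.2 fun t ht => hs t (List.mem_cons_of_mem _ ht)
    obtain ⟨htU, htE⟩ := hs t List.mem_cons_self
    have h6 : K ∩ t.1.edges = K0 ∩ t.1.edges := h2 t.1 htU hn.1
    have hd : Disjoint (K \ t.1.edges) t.2 := Finset.disjoint_of_subset_right htE Finset.sdiff_disjoint
    have hoff : ∀ c ∈ U, c ≠ t.1 → ((K \ t.1.edges) ∪ t.2) ∩ c.edges = K ∩ c.edges := by
      intro c hc hne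
      have hdc := h.djc htU hc (Ne.symm hne)
      rw [Finset.union_inter_distrib_right, Finset.disjoint_iff_inter_eq_empty.1 (hdc.mono_left htE),
        Finset.union_empty]
      ext e
      simp only [Finset.mem_inter, Finset.mem_sdiff]
      refine ⟨fun g => ⟨g.1.1, g.2⟩, fun g => ⟨⟨g.1, fun g2 => ?_⟩, g.2⟩⟩
      exact Finset.disjoint_left.1 hdc g2 g.2
    refine ⟨(K \ t.1.edges) ∪ t.2, Finset.union_subset (Finset.sdiff_subset.trans h1) (htE.trans (h.cW htU)),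
      ?_, ?_, ?_, ?_⟩
    · intro c hc hcn
      rw [List.map_cons, List.mem_cons, not_or] at hcn
      rw [hoff c hc hcn.1, h2 c hc hcn.2]
    · intro t' ht'
      rcases List.mem_cons.1 ht' with rfl | ht'
      · rw [Finset.union_inter_distrib_right, Finset.inter_eq_left.2 htE,
          Finset.disjoint_iff_inter_eq_empty.1 Finset.sdiff_disjoint, Finset.empty_union]
      · rw [hoff t'.1 (hs t' (List.mem_cons_of_mem _ ht')).1 ?_, h3 t' ht']
        rintro heq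
        exact hn.1 (List.mem_map.2 ⟨t', ht', heq⟩)
    · have hp := h.plain htU
      rw [← h4]
      ext e
      simp only [Finset.mem_inter, Finset.mem_union, Finset.mem_sdiff]
      constructor
      · rintro ⟨g | g, g2⟩
        · exact ⟨g.1, g2⟩
        · exact absurd (htE g) (Finset.disjoint_left.1 hp g2)
      · rintro ⟨g, g2⟩
        exact ⟨Or.inl ⟨g, Finset.disjoint_left.1 hp g2⟩, g2⟩
    · have e : K \ t.1.edges = K \ (K ∩ t.1.edges) := by
        ext e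
        simp only [Finset.mem_inter, Finset.mem_sdiff]
        tauto
      rw [dv_union hd, e, dv_sdiff Finset.inter_subset_left, h5, dch3_cons, h6]
      abel

/-! ### adding an edge inside a cluster -/

/-- inserting an edge with a free end and an end of degree at most one: still a 2-matching -/
theorem m2_insert3 {K : Finset (Sym2 ℕ)} (hK : M2 K) {u v : ℕ} (huv : u ≠ v) (hu : dg K u ≤ 1) (hv : dg K v ≤ 1) :
    M2 (insert s(u, v) K) := by
  refine ⟨hK.nl.insert huv, fun w => ?_⟩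
  by_cases he : s(u, v) ∈ K
  · rw [Finset.insert_eq_of_mem he]
    exact hK.le w
  · rw [dg_insert he]
    have hw := hK.le w
    split_ifs with h1
    · rcases Sym2.mem_iff.1 h1 with rfl | rfl <;> omega
    · omega

theorem dg_zero3 {K : Finset (Sym2 ℕ)} {u : ℕ} (h : ∀ e ∈ K, u ∉ e) : dg K u = 0 := by
  rw [dg, Finset.card_eq_zero, Finset.filter_eq_empty_iff]
  exact fun e he => h e he

/-- full degree: no other edges -/
theorem sat_of_dg3 {L K : Finset (Sym2 ℕ)} (hL : M2 L) (hK : K ⊆ L) {v : ℕ} (h : dg K v = 2) :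
    ∀ e ∈ L, v ∈ e → e ∈ K := by
  intro e he hv
  have h1 : K.filter (fun e => v ∈ e) ⊆ L.filter fun e => v ∈ e := Finset.filter_subset_filter _ hK
  have h2 : K.filter (fun e => v ∈ e) = L.filter fun e => v ∈ e :=
    Finset.eq_of_subset_of_card_le h1 (by have := hL.le v; unfold dg at this h; omega)
  have h3 : e ∈ L.filter fun e => v ∈ e := Finset.mem_filter.2 ⟨he, hv⟩
  rw [← h2] at h3
  exact (Finset.mem_filter.1 h3).1

end

end Pool.Agent.P34

end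

section -- file P34/XP3

/-!
# All frames of one world (triangles and squares)

`Fr3 D F`: the clusters in `F` (K2 or K11) with the uncapped family without short cycles, the other clusters with the capped
family. `WA3`: one world with all frames at once; the clusters `U` and the plain edges `PL` do not depend on the frame, the
types do.
-/

set_option autoImplicit false

namespace Pool.Agent.P34

open Finset Pool.Agent.TFC Pool.Agent.PF4 Pool.Agent.PF4.LD Pool.Agent.PF4.XC Pool.Agent.PF4.XT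
open Pool.Agent.PF4.XF (XD FitK Cv World WJ Av NC Rch dg_off)

/-- a cluster with two centres (K2 or K11) -/
def Hb (c : Clu3 ℕ) : Prop := ∃ a b L, c = Clu3.k2 a b L ∨ c = Clu3.k11 a b L

theorem Hb.not_k4 {Y : Finset ℕ} : ¬ Hb (Clu3.k4 Y) := by
  rintro ⟨_, _, _, h | h⟩
  · exact absurd h (by simp)
  · exact absurd h (by simp)

theorem k4_or_hb (c : Clu3 ℕ) : (∃ Y, c = Clu3.k4 Y) ∨ Hb c := by
  cases c with
  | k4 Y => exact Or.inl ⟨Y, rfl⟩
  | k2 a b L => exact Or.inr ⟨a, b, L, Or.inl rfl⟩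
  | k11 a b L => exact Or.inr ⟨a, b, L, Or.inr rfl⟩

theorem Hub.hb {c : Clu3 ℕ} {u v : ℕ} {L : Finset ℕ} (h : Hub c u v L) : Hb c := by
  rcases h with h | h | h | h
  · exact ⟨_, _, _, Or.inl h⟩
  · exact ⟨_, _, _, Or.inl h⟩
  · exact ⟨_, _, _, Or.inr h⟩
  · exact ⟨_, _, _, Or.inr h⟩

theorem Hub1.hub {c : Clu3 ℕ} {u v : ℕ} {L : Finset ℕ} (h : Hub1 c u v L) : Hub c u v L := by
  rcases h with h | h
  · exact Or.inr (Or.inr (Or.inl h))
  · exact Or.inr (Or.inr (Or.inr h))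

open Classical in
/-- the clusters in `F` uncapped and without short cycles, the others capped -/
noncomputable def Fr3 (D : Finset (Finset (Sym2 ℕ))) (F : Clu3 ℕ → Prop) (c : Clu3 ℕ) : Finset (Sym2 ℕ) → Prop :=
  if F c then NSh else Acap D

theorem Fr3_pos {D : Finset (Finset (Sym2 ℕ))} {F : Clu3 ℕ → Prop} {c : Clu3 ℕ} (h : F c) : Fr3 D F c = NSh :=
  if_pos h

theorem Fr3_neg {D : Finset (Finset (Sym2 ℕ))} {F : Clu3 ℕ → Prop} {c : Clu3 ℕ} (h : ¬ F c) : Fr3 D F c = Acap D :=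
  if_neg h

theorem Fr3_of {D : Finset (Finset (Sym2 ℕ))} {F : Clu3 ℕ → Prop} {c : Clu3 ℕ} {K : Finset (Sym2 ℕ)}
    (h : F c → NSh K) (h' : ¬ F c → Acap D K) : Fr3 D F c K := by
  by_cases hc : F c
  · rw [Fr3_pos hc]; exact h hc
  · rw [Fr3_neg hc]; exact h' hc

/-- **one world, all frames** -/
structure WA3 (X : XD3) (P : ℕ → Finset (Sym2 ℕ) → Prop) (D : Finset (Finset (Sym2 ℕ))) (j m : ℕ) (S : Finset ℕ)
    (M : ℕ → Finset (Sym2 ℕ)) (CL U : List (Clu3 ℕ)) (PL : Finset (Sym2 ℕ)) : Prop where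
  ow : OW3 X P D j m S M
  cls : Cls3 D CL
  /-- every set `F` of clusters with two centres is a frame -/
  fr : ∀ F : Clu3 ℕ → Prop, (∀ c, F c → Hb c) →
    ∃ pl mi, PW3 X P D j S M (Fr3 D F) CL U PL pl mi ∧ ∀ w ∈ S, w ∈ X.T → mi w
  /-- near covers have no short cycle in a cluster with two centres -/
  msf : ∀ w ∈ S, w ∈ X.T → ∀ c ∈ CL, Hb c → NSh (M w ∩ c.edges)
  mcap : ∀ w ∈ S, w ∈ X.T → ∀ c ∈ CL, Acap D (M w ∩ c.edges)

/-! ### harmful short cycles -/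

theorem hs3_tri {T : Finset ℕ} {a b c : ℕ} (hd : Dist3 a b c) :
    Hs3 T (tri a b c) ↔ (a ∈ T ∧ b ∈ T) ∨ (b ∈ T ∧ c ∈ T) ∨ (a ∈ T ∧ c ∈ T) := by
  constructor
  · rintro (⟨a', b', c', hd', he, ha, hb⟩ | ⟨a', b', c', d', hd', he, _⟩)
    · have hv : ∀ v, v = a' ∨ v = b' ∨ v = c' → v = a ∨ v = b ∨ v = c := by
        intro v hv
        refine tri_vx ?_
        rw [he]
        rcases hv with rfl | rfl | rfl
        · exact vx_mk (b := b') (by simp [tri])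
        · exact vx_mk (b := c') (by simp [tri])
        · exact vx_mk (b := a') (by simp [tri])
      have h1 := hv a' (Or.inl rfl)
      have h2 := hv b' (Or.inr (Or.inl rfl))
      have hab := hd'.1
      rcases h1 with rfl | rfl | rfl <;> rcases h2 with rfl | rfl | rfl <;>
        first
          | exact absurd rfl hab
          | tauto
    · exact absurd (show IsSq (tri a b c) from ⟨_, _, _, _, hd', he⟩) fun h =>
        tri_not_sq ⟨a, b, c, hd, rfl⟩ h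
  · obtain ⟨ab, ac, bc⟩ := hd
    rintro (⟨ha, hb⟩ | ⟨hb, hc⟩ | ⟨ha, hc⟩)
    · exact Or.inl ⟨a, b, c, ⟨ab, ac, bc⟩, rfl, ha, hb⟩
    · exact Or.inl ⟨b, c, a, ⟨bc, ab.symm, ac.symm⟩, tri_rot a b c, hb, hc⟩
    · exact Or.inl ⟨a, c, b, ⟨ac, ab, bc.symm⟩, tri_ref2 a b c, ha, hc⟩

theorem hs3_sq {T : Finset ℕ} {a b c d : ℕ} (h4 : Dist4 a b c d) :
    Hs3 T (TFC.sq a b c d) ↔ (a ∈ T ∧ c ∈ T) ∨ (b ∈ T ∧ d ∈ T) := by
  have h := XF.Hs_iff (T := T) (q := (a, b, c, d)) h4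
  have h' : XF.Hs T (TFC.sq a b c d) ↔ (a ∈ T ∧ c ∈ T) ∨ (b ∈ T ∧ d ∈ T) := h
  rw [← h']
  constructor
  · rintro (⟨a', b', c', hd', he, _⟩ | h1)
    · exact absurd (show IsSq (TFC.sq a b c d) from ⟨_, _, _, _, h4, rfl⟩) fun h =>
        tri_not_sq ⟨a', b', c', hd', he⟩ h
    · exact h1
  · exact Or.inr

section
variable {X : XD3} {P : ℕ → Finset (Sym2 ℕ) → Prop} {D : Finset (Finset (Sym2 ℕ))} {j m : ℕ} {S : Finset ℕ}
  {M : ℕ → Finset (Sym2 ℕ)} {CL U : List (Clu3 ℕ)} {PL : Finset (Sym2 ℕ)}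

/-- a leaf of a cluster is in `T`, or both centres are -/
theorem leaf_T (h : OW3 X P D j m S M) (hc : Cls3 D CL) {c : Clu3 ℕ} (hcC : c ∈ CL) {u v : ℕ} {L : Finset ℕ}
    (hH : c = Clu3.k2 u v L ∨ c = Clu3.k11 u v L) {l : ℕ} (hl : l ∈ L) : (u ∈ X.T ∧ v ∈ X.T) ∨ l ∈ X.T := by
  have hv := hc.val c hcC
  have hD : u ≠ v ∧ u ∉ L ∧ v ∉ L := by
    rcases hH with rfl | rfl
    · exact ⟨hv.1, hv.2.1, hv.2.2.1⟩
    · exact ⟨hv.1, hv.2.1, hv.2.2.1⟩
  obtain ⟨uv, uL, vL⟩ := hD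
  have he : s(u, l) ∈ c.edges := by
    rcases hH with rfl | rfl
    · exact mem3_k2.2 (Or.inl ⟨Or.inl rfl, hl⟩)
    · exact mem3_k11.2 (Or.inr (Or.inl ⟨Or.inl rfl, hl⟩))
  have ul : u ≠ l := fun e => uL (e ▸ hl)
  have vl : v ≠ l := fun e => vL (e ▸ hl)
  obtain ⟨Z, hZ, heZ, hsub⟩ := hc.edge_sq hcC he
  rcases isSh_first (h.ish hZ) heZ with ⟨t, hd, rfl⟩ | ⟨q, p, hd, rfl⟩
  · -- a triangle `u l t`: `t = v`
    have ht : t = v := by
      rcases hH with rfl | rfl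
      · exact (k2_no_tri hv ⟨_, _, _, hd, rfl⟩ hsub).elim
      · have h1 := hsub (tri_sub.1 (Finset.Subset.refl (tri u l t))).2.1
        rcases mem3_k11.1 h1 with (⟨g, _⟩ | ⟨g, _⟩) | (⟨g | g, _⟩ | ⟨g | g, _⟩)
        · exact absurd g.symm ul
        · exact absurd g.symm vl
        · exact absurd g.symm ul
        · exact absurd g.symm vl
        · exact absurd g.symm hd.2.1
        · exact g
    subst ht
    rcases (hs3_tri hd).1 (h.blk.hs _ hZ).1 with h1 | h1 | h1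
    · exact Or.inr h1.2
    · exact Or.inr h1.1
    · exact Or.inl h1
  · -- a square `u l q p`: `q = v`
    have hq : q = v := by
      have h1 := hsub (P34.sq_sub.1 (Finset.Subset.refl (TFC.sq u l q p))).2.1
      rcases hH with rfl | rfl
      · rcases mem3_k2.1 h1 with ⟨g | g, _⟩ | ⟨g | g, _⟩
        · exact absurd g.symm ul
        · exact absurd g.symm vl
        · exact absurd g.symm hd.2.1
        · exact g
      · rcases mem3_k11.1 h1 with (⟨g, _⟩ | ⟨g, _⟩) | (⟨g | g, _⟩ | ⟨g | g, _⟩)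
        · exact absurd g.symm ul
        · exact absurd g.symm vl
        · exact absurd g.symm ul
        · exact absurd g.symm vl
        · exact absurd g.symm hd.2.1
        · exact g
    subst hq
    rcases (hs3_sq hd).1 (h.blk.hs _ hZ).1 with h1 | h1
    · exact Or.inl h1
    · exact Or.inr h1.1

/-- a centre of a `K11` cluster is in `T` -/
theorem centre_T (h : OW3 X P D j m S M) (hc : Cls3 D CL) {u v : ℕ} {L : Finset ℕ} (hcC : Clu3.k11 u v L ∈ CL) :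
    u ∈ X.T ∨ v ∈ X.T := by
  have hv := hc.val _ hcC
  obtain ⟨uv, uL, vL, _⟩ : u ≠ v ∧ u ∉ L ∧ v ∉ L ∧ 1 ≤ #L := hv
  obtain ⟨Z, hZ, heZ, hsub⟩ := hc.edge_sq hcC (f := s(u, v)) (Finset.mem_insert_self _ _)
  rcases isSh_first (h.ish hZ) heZ with ⟨t, hd, rfl⟩ | ⟨q, p, hd, rfl⟩
  · rcases (hs3_tri hd).1 (h.blk.hs _ hZ).1 with h1 | h1 | h1
    · exact Or.inl h1.1
    · exact Or.inr h1.1
    · exact Or.inl h1.1
  · exact absurd rfl (k11_sq uv uL vL hd hsub)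

/-- **every short cycle inside a cluster with two centres is harmful** -/
theorem hs3_hub (h : OW3 X P D j m S M) (hc : Cls3 D CL) {c : Clu3 ℕ} (hcC : c ∈ CL) (hb : Hb c)
    {Z : Finset (Sym2 ℕ)} (hZ : IsSh Z) (hs : Z ⊆ c.edges) : Hs3 X.T Z := by
  have hv := hc.val c hcC
  obtain ⟨u, v, L, hH⟩ := hb
  have hleaf : ∀ l ∈ L, (u ∈ X.T ∧ v ∈ X.T) ∨ l ∈ X.T := fun l hl => leaf_T h hc hcC hH hl
  rcases hZ with ⟨x, y, p, hd, rfl⟩ | ⟨x, y, q, p, hd, rfl⟩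
  · -- a triangle
    have key : ∀ x y p : ℕ, Dist3 x y p → (∃ L', Hub1 c x y L' ∧ p ∈ L') → Hs3 X.T (tri x y p) := by
      rintro x y p hd ⟨L', h1, h2⟩
      rw [hs3_tri hd]
      have h3 : (x ∈ X.T ∧ y ∈ X.T) ∨ p ∈ X.T := by
        rcases h1 with h1 | h1
        · exact leaf_T h hc hcC (Or.inr h1) h2
        · exact (leaf_T h hc hcC (Or.inr h1) h2).imp (fun g => g.symm) id
      have h4 : x ∈ X.T ∨ y ∈ X.T := by
        rcases h1 with h1 | h1
        · exact centre_T h hc (h1 ▸ hcC)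
        · exact (centre_T h hc (h1 ▸ hcC)).symm
      tauto
    rcases shape3_tri hv hd hs with ⟨Y, h1, _⟩ | ⟨L', h1, h2, _⟩ | ⟨L', h1, h2, _⟩ | ⟨L', h1, h2, _⟩
    · rcases hH with h2 | h2 <;> rw [h1] at h2 <;> exact absurd h2 (by simp)
    · exact key x y p hd ⟨L', h1, h2⟩
    · rw [tri_rot x y p]
      exact key y p x (dist3_of hd).1 ⟨L', h1, h2⟩
    · rw [tri_rot2 x y p]
      exact key p x y ⟨hd.2.1.symm, hd.2.2.symm, hd.1⟩ ⟨L', h1, h2⟩
  · -- a square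
    have key : ∀ x y q p : ℕ, (∃ L', Hub c x q L' ∧ y ∈ L' ∧ p ∈ L') →
        (x ∈ X.T ∧ q ∈ X.T) ∨ (y ∈ X.T ∧ p ∈ X.T) := by
      rintro x y q p ⟨L', h1, h2, h3⟩
      have h4 : ∀ l ∈ L', (x ∈ X.T ∧ q ∈ X.T) ∨ l ∈ X.T := by
        intro l hl
        rcases h1 with h1 | h1 | h1 | h1
        · exact leaf_T h hc hcC (Or.inl h1) hl
        · exact (leaf_T h hc hcC (Or.inl h1) hl).imp (fun g => g.symm) id
        · exact leaf_T h hc hcC (Or.inr h1) hl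
        · exact (leaf_T h hc hcC (Or.inr h1) hl).imp (fun g => g.symm) id
      have := h4 y h2
      have := h4 p h3
      tauto
    rw [hs3_sq hd]
    rcases shape3_sq hv hd hs with h1 | ⟨L', h1, h2, h3, _⟩ | ⟨L', h1, h2, h3, _⟩
    · rcases hH with h2 | h2 <;> rw [h1] at h2 <;> exact absurd h2 (by simp)
    · exact key x y q p ⟨L', h1, h2, h3⟩
    · have := key y x p q ⟨L', h1, h2, h3⟩
      tauto

theorem AU3_congr {A : Clu3 ℕ → Finset (Sym2 ℕ) → Prop} {U U' : List (Clu3 ℕ)} (hU : ∀ c, c ∈ U ↔ c ∈ U')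
    {PL K : Finset (Sym2 ℕ)} : AU3 A U PL K ↔ AU3 A U' PL K := by
  have e : Ucl3 U = Ucl3 U' := by
    ext f
    rw [mem_Ucl3, mem_Ucl3]
    constructor
    · rintro ⟨c, hc, h⟩; exact ⟨c, (hU c).1 hc, h⟩
    · rintro ⟨c, hc, h⟩; exact ⟨c, (hU c).2 hc, h⟩
  unfold AU3
  rw [e]
  constructor
  · rintro ⟨h1, h2⟩; exact ⟨h1, fun c hc => h2 c ((hU c).2 hc)⟩
  · rintro ⟨h1, h2⟩; exact ⟨h1, fun c hc => h2 c ((hU c).1 hc)⟩

/-- the clusters and plain edges are determined -/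
theorem PW3.congr {A : Clu3 ℕ → Finset (Sym2 ℕ) → Prop} {pl mi : ℕ → Prop} {U' : List (Clu3 ℕ)}
    (h : PW3 X P D j S M A CL U PL pl mi) (hU : ∀ c, c ∈ U ↔ c ∈ U') : PW3 X P D j S M A CL U' PL pl mi := by
  have e : Ucl3 U' = Ucl3 U := by
    ext f
    rw [mem_Ucl3, mem_Ucl3]
    constructor
    · rintro ⟨c, hc, h⟩; exact ⟨c, (hU c).2 hc, h⟩
    · rintro ⟨c, hc, h⟩; exact ⟨c, (hU c).1 hc, h⟩
  refine ⟨h.ok, h.sv, h.ish, h.dE, by rw [e]; exact h.w2, h.cls, fun c => by rw [← hU]; exact h.uc c, h.pm,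
    fun v hv f hf hvf => by rw [e]; exact h.rch v hv f hf hvf, h.free, ?_, ?_, h.witE, ?_⟩
  · intro w hw hT K hK
    rw [e]
    exact h.nc w hw hT K ((AU3_congr hU).2 hK)
  · intro w hw hT hK
    rw [e] at hK
    exact h.mi' w hw hT ((AU3_congr hU).2 hK)
  · intro Z hZ hZU L h1 h2 h3 K hK
    rw [e] at hZU ⊢
    exact h.witA Z hZ hZU L h1 h2 h3 K ((AU3_congr hU).2 hK)

theorem msf3_of (h : OW3 X P D j m S M) (hc : Cls3 D CL) {w : ℕ} (hw : w ∈ S) (hT : w ∈ X.T) {c : Clu3 ℕ}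
    (hcC : c ∈ CL) (h2 : Hb c) : NSh (M w ∩ c.edges) := by
  obtain ⟨h3, _, h5⟩ := h.nc w hw hT
  intro Z hZ hs
  exact h5 Z (hs3_hub h hc hcC h2 hZ (hs.trans Finset.inter_subset_right)) (hs.trans Finset.inter_subset_left)

theorem mcap3_of (h : OW3 X P D j m S M) {w : ℕ} (hw : w ∈ S) (hT : w ∈ X.T) (c : Clu3 ℕ) :
    Acap D (M w ∩ c.edges) := by
  obtain ⟨h3, _, h5⟩ := h.nc w hw hT
  refine ⟨⟨fun e he => h3.m2.nl e (Finset.mem_inter.1 he).1, fun v => ?_⟩, fun Z hZ hs => ?_⟩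
  · exact le_trans (Finset.card_le_card (Finset.filter_subset_filter _ Finset.inter_subset_left)) (h3.m2.le v)
  · exact h5 Z (h.blk.hs Z hZ).1 (hs.trans Finset.inter_subset_left)

/-- every family of the frame is good -/
theorem pca_fr3 (h : OW3 X P D j m S M) (hc : Cls3 D CL) {F : Clu3 ℕ → Prop} (hF : ∀ c, F c → Hb c) {c : Clu3 ℕ}
    (hcC : c ∈ CL) : PcA D (Fr3 D F c) c.edges := by
  by_cases hf : F c
  · rw [Fr3_pos hf]
    obtain ⟨a, b, L, rfl | rfl⟩ := hF c hf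
    · exact pca3_k2 (fun Z hZ => h.ish hZ) (hc.val _ hcC)
    · exact pca3_k11 (fun Z hZ => h.ish hZ) (hc.val _ hcC)
  · rw [Fr3_neg hf]
    exact pca3_cap (fun Z hZ => h.ish hZ) _

theorem fr3_near (h : OW3 X P D j m S M) (hc : Cls3 D CL) {F : Clu3 ℕ → Prop} (hF : ∀ c, F c → Hb c) {w : ℕ}
    (hw : w ∈ S) (hT : w ∈ X.T) {c : Clu3 ℕ} (hcC : c ∈ CL) : Fr3 D F c (M w ∩ c.edges) :=
  Fr3_of (fun hf => msf3_of h hc hw hT hcC (hF c hf)) fun _ => mcap3_of h hw hT c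

theorem interW3 {c : Clu3 ℕ} (hc : c ∈ U) (L : Finset (Sym2 ℕ)) :
    L ∩ (Ucl3 U ∪ PL) ∩ c.edges = L ∩ c.edges := by
  rw [Finset.inter_assoc]
  congr 1
  rw [Finset.inter_eq_right]
  exact fun _ he => Finset.mem_union_left _ (mem_Ucl3.2 ⟨c, hc, he⟩)

/-- **one world with all frames** -/
theorem wa3_of (h : OW3 X P D j m S M) (hS : ∃ w ∈ S, w ∈ X.T) :
    ∃ CL U PL, WA3 X P D j m S M CL U PL := by
  obtain ⟨CL, hc⟩ := h.cls
  obtain ⟨w, hw, hT⟩ := hS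
  have hall : ∀ F : Clu3 ℕ → Prop, (∀ c, F c → Hb c) → ∃ U PL pl mi, PW3 X P D j S M (Fr3 D F) CL U PL pl mi := by
    intro F hF
    exact h.pw hc (fun c hcC _ => pca_fr3 h hc hF hcC) ⟨w, hw, hT, fun c hcC _ => fr3_near h hc hF hw hT hcC⟩
  obtain ⟨U, PL, pl0, mi0, h0⟩ := hall (fun _ => False) fun _ h => h.elim
  refine ⟨CL, U, PL, h, hc, ?_, fun w hw hT c hcC h2 => msf3_of h hc hw hT hcC h2,
    fun w hw hT c _ => mcap3_of h hw hT c⟩
  intro F hF
  obtain ⟨U', PL', pl, mi, h1⟩ := hall F hF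
  have hU : ∀ c, c ∈ U' ↔ c ∈ U := fun c => by rw [h1.uc, h0.uc]
  have hPL : PL' = PL := by
    ext e
    rw [h1.pm, h0.pm]
  subst hPL
  have h2 := h1.congr hU
  refine ⟨pl, mi, h2, fun w hw hT => h2.mi' w hw hT ⟨Finset.inter_subset_right, fun c hcU => ?_⟩⟩
  rw [interW3 hcU]
  exact fr3_near h hc hF hw hT ((h2.uc c).1 hcU).1

end

end Pool.Agent.P34

end
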