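import Pool.Agent.PFN.M20

section -- file P34/XK4

/-!
The phi frame for triangles and squares: the `K4` clusters.

In a frame which is capped at the cluster: all three squares are in `D`; the triangle without `d` is in `D` iff `d` is not of
type X; no corner has type Y, at most one corner is free, some corner has type X.
-/

set_option autoImplicit false

namespace Pool.Agent.P34

open Finset Pool.Agent.TFC Pool.Agent.PF4 Pool.Agent.PF4.LD Pool.Agent.PF4.XC Pool.Agent.PF4.XT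
open Pool.Agent.PF4.XF (XD FitK Cv World WJ Av NC Rch dg_off mem_k4 mem_k2)

/-! ### paths with three edges -/

/-- the path `a b c d` -/
def hp (a b c d : ℕ) : Finset (Sym2 ℕ) := {s(a, b), s(b, c), s(c, d)}

theorem hp_sub_sq (a b c d : ℕ) : hp a b c d ⊆ TFC.sq a b c d := by
  intro e he
  simp only [hp, TFC.sq, mem_insert, mem_singleton] at he ⊢
  tauto

theorem hp_m2 {a b c d : ℕ} (h : Dist4 a b c d) : M2 (hp a b c d) := (Unit_sq_M2 h).mono (hp_sub_sq a b c d)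

theorem hp_nsh {a b c d : ℕ} (h : Dist4 a b c d) : NSh (hp a b c d) := by
  refine nsh_ssub (Or.inr ⟨a, b, c, d, h, rfl⟩) (hp_sub_sq a b c d) fun hc => ?_
  have h1 : #(hp a b c d) ≤ 3 := card_le_three
  rw [hc, card_sqV h] at h1
  omega

theorem hp_dv {a b c d : ℕ} (h : Dist4 a b c d) :
    dv (hp a b c d) = ev a + ev b + ev b + ev c + ev c + ev d := by
  obtain ⟨n1, n2, n3, n4, n5, n6⟩ := h
  have m1 : s(b, c) ∉ ({s(c, d)} : Finset (Sym2 ℕ)) := by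
    simp only [mem_singleton, Sym2.eq_iff]
    rintro (⟨h1, _⟩ | ⟨h1, _⟩)
    · exact n4 h1
    · exact n5 h1
  have m2 : s(a, b) ∉ ({s(b, c), s(c, d)} : Finset (Sym2 ℕ)) := by
    simp only [mem_insert, mem_singleton, Sym2.eq_iff]
    rintro ((⟨h1, _⟩ | ⟨h1, _⟩) | (⟨h1, _⟩ | ⟨h1, _⟩))
    · exact n1 h1
    · exact n2 h1
    · exact n2 h1
    · exact n3 h1
  rw [hp, TFC.dv_insert n1 m2, TFC.dv_insert n4 m1, XT.dv_pair n6]
  show ev c + ev d + ev b + ev c + ev a + ev b = _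
  abel

theorem hp_edges {Y : Finset ℕ} {a b c d : ℕ} (h : Dist4 a b c d) (ha : a ∈ Y) (hb : b ∈ Y) (hc : c ∈ Y)
    (hd : d ∈ Y) : hp a b c d ⊆ (Clu3.k4 Y).edges := by
  obtain ⟨n1, n2, n3, n4, n5, n6⟩ := h
  intro e he
  simp only [hp, mem_insert, mem_singleton] at he
  rcases he with rfl | rfl | rfl
  · exact mem3_k4.2 ⟨ha, hb, n1⟩
  · exact mem3_k4.2 ⟨hb, hc, n4⟩
  · exact mem3_k4.2 ⟨hc, hd, n6⟩

theorem tri_edges {Y : Finset ℕ} {a b c : ℕ} (h : Dist3 a b c) (ha : a ∈ Y) (hb : b ∈ Y) (hc : c ∈ Y) :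
    tri a b c ⊆ (Clu3.k4 Y).edges := by
  obtain ⟨n1, n2, n3⟩ := h
  intro e he
  simp only [tri, mem_insert, mem_singleton] at he
  rcases he with rfl | rfl | rfl
  · exact mem3_k4.2 ⟨ha, hb, n1⟩
  · exact mem3_k4.2 ⟨hb, hc, n3⟩
  · exact mem3_k4.2 ⟨hc, ha, n2.symm⟩

theorem sq_edges {Y : Finset ℕ} {a b c d : ℕ} (h : Dist4 a b c d) (ha : a ∈ Y) (hb : b ∈ Y) (hc : c ∈ Y)
    (hd : d ∈ Y) : TFC.sq a b c d ⊆ (Clu3.k4 Y).edges := by
  obtain ⟨n1, n2, n3, n4, n5, n6⟩ := h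
  intro e he
  simp only [TFC.sq, mem_insert, mem_singleton] at he
  rcases he with rfl | rfl | rfl | rfl
  · exact mem3_k4.2 ⟨ha, hb, n1⟩
  · exact mem3_k4.2 ⟨hb, hc, n4⟩
  · exact mem3_k4.2 ⟨hc, hd, n6⟩
  · exact mem3_k4.2 ⟨hd, ha, n3.symm⟩

/-- four distinct elements of a set with four elements -/
theorem four_eq {Y : Finset ℕ} (hY : #Y = 4) {a b c d : ℕ} (h : Dist4 a b c d) (ha : a ∈ Y) (hb : b ∈ Y)
    (hc : c ∈ Y) (hd : d ∈ Y) : Y = {a, b, c, d} := by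
  obtain ⟨n1, n2, n3, n4, n5, n6⟩ := h
  symm
  refine eq_of_subset_of_card_le ?_ ?_
  · intro w hw
    simp only [mem_insert, mem_singleton] at hw
    rcases hw with rfl | rfl | rfl | rfl <;> assumption
  · rw [hY, card_insert_of_notMem (by simp [n1, n2, n3]), card_insert_of_notMem (by simp [n4, n5]),
      card_insert_of_notMem (by simp [n6]), card_singleton]

/-- the fourth vertex -/
theorem fourth {Y : Finset ℕ} (hY : #Y = 4) {a b c : ℕ} (h : Dist3 a b c) (ha : a ∈ Y) (hb : b ∈ Y)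
    (hc : c ∈ Y) : ∃ d ∈ Y, Dist4 a b c d := by
  obtain ⟨n1, n2, n3⟩ := h
  have h1 : 0 < #(((Y.erase a).erase b).erase c) := by
    rw [card_erase_of_mem (mem_erase.2 ⟨n3.symm, mem_erase.2 ⟨n2.symm, hc⟩⟩),
      card_erase_of_mem (mem_erase.2 ⟨n1.symm, hb⟩), card_erase_of_mem ha, hY]
    norm_num
  obtain ⟨d, hd⟩ := card_pos.1 h1
  simp only [mem_erase] at hd
  exact ⟨d, hd.2.2.2, n1, n2, hd.2.2.1.symm, n3, hd.2.1.symm, hd.1.symm⟩

/-- two further vertices -/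
theorem two_more {Y : Finset ℕ} (hY : #Y = 4) {a b : ℕ} (h : a ≠ b) (ha : a ∈ Y) (hb : b ∈ Y) :
    ∃ c ∈ Y, ∃ d ∈ Y, Dist4 a c d b := by
  have h1 : 0 < #((Y.erase a).erase b) := by
    rw [card_erase_of_mem (mem_erase.2 ⟨h.symm, hb⟩), card_erase_of_mem ha, hY]
    norm_num
  obtain ⟨c, hc⟩ := card_pos.1 h1
  simp only [mem_erase] at hc
  obtain ⟨d, hd, n1, n2, n3, n4, n5, n6⟩ := fourth hY (a := a) (b := b) (c := c) ⟨h, hc.2.1.symm, hc.1.symm⟩ ha hb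
    hc.2.2
  exact ⟨c, hc.2.2, d, hd, n2, n3, n1, n6, n4.symm, n5.symm⟩

section
variable {X : XD3} {P : ℕ → Finset (Sym2 ℕ) → Prop} {D : Finset (Finset (Sym2 ℕ))} {j : ℕ} {S : Finset ℕ}
  {M : ℕ → Finset (Sym2 ℕ)} {A : Clu3 ℕ → Finset (Sym2 ℕ) → Prop} {CL U : List (Clu3 ℕ)} {PL : Finset (Sym2 ℕ)}
  {pl mi : ℕ → Prop}

/-- every member of `D` in the cluster `c` has a witness which is allowed outside of `c` -/
def GdC (X : XD3) (P : ℕ → Finset (Sym2 ℕ) → Prop) (D : Finset (Finset (Sym2 ℕ))) (j : ℕ)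
    (A : Clu3 ℕ → Finset (Sym2 ℕ) → Prop) (U : List (Clu3 ℕ)) (c : Clu3 ℕ) : Prop :=
  ∀ Z ∈ D, Z ⊆ c.edges → ∃ L, Wt3 X P D j Z L ∧ Out3 A U c L

/-- if all other clusters are capped, all witnesses are allowed outside -/
theorem PW3.gdc (h : PW3 X P D j S M A CL U PL pl mi) {c : Clu3 ℕ} (hc : c ∈ U)
    (hA : ∀ c' ∈ U, c' ≠ c → ACp3 D A c') : GdC X P D j A U c := by
  intro Z hZ hZc
  obtain ⟨L, hL⟩ := h.wt hZ
  refine ⟨L, hL, fun c' hc' hne => hA c' hc' hne _ Finset.inter_subset_right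
    ⟨hL.m2.mono Finset.inter_subset_left, fun Z' hZ' hs => ?_⟩⟩
  have h1 := hL.uni Z' hZ' (hs.trans Finset.inter_subset_left)
  subst h1
  obtain ⟨e, he⟩ := (h.ish Z' hZ').ne
  exact hne (h.eqc hc' hc (Finset.mem_inter.1 (hs he)).2 (hZc he))

/-- **replace a member of `D` by another allowed set in the same cluster** -/
theorem PW3.repl (h : PW3 X P D j S M A CL U PL pl mi) {c : Clu3 ℕ} (hc : c ∈ U) (hO : GdC X P D j A U c)
    {Z : Finset (Sym2 ℕ)} (hZ : Z ∈ D) (hZc : Z ⊆ c.edges) {F : Finset (Sym2 ℕ)} (hF : F ⊆ c.edges)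
    (hAF : A c F) : 1 ≤ ph X.V2 pl mi (dv F - dv Z) := by
  obtain ⟨L, hL, hout⟩ := hO Z hZ hZc
  exact h.wz hZ hL hc hZc hout hF hAF

/-- a vertex of a cluster has not type Y -/
theorem PW3.cnY (h : PW3 X P D j S M A CL U PL pl mi) {c : Clu3 ℕ} (hc : c ∈ U) (hO : GdC X P D j A U c)
    (hAc : AM3 A c) {a b : ℕ} (he : s(a, b) ∈ c.edges) : ¬ (pl a ∧ ¬ mi a) := by
  obtain ⟨Z, hZ, heZ, hZc⟩ := h.edz hc he
  obtain ⟨L, hL, hout⟩ := hO Z hZ hZc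
  exact h.L1Y hZ hL hc hZc hAc hout heZ

/-- a short cycle of the cluster which is not in `D` is allowed in the capped frame -/
theorem acap_sh (hD : ∀ Z ∈ D, IsSh Z) {Z : Finset (Sym2 ℕ)} (hZ : IsSh Z) (hn : Z ∉ D) : Acap D Z := by
  refine ⟨hZ.m2, fun Z' hZ' hs => hn ?_⟩
  rw [← sh_sub_eq (hD Z' hZ') hZ hs]
  exact hZ'

/-- in the capped frame: a short cycle which is not in `D` -/
theorem PW3.repl_sh (h : PW3 X P D j S M A CL U PL pl mi) {c : Clu3 ℕ} (hc : c ∈ U) (hO : GdC X P D j A U c)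
    (hAc : ACp3 D A c) {Z : Finset (Sym2 ℕ)} (hZ : Z ∈ D) (hZc : Z ⊆ c.edges) {Z' : Finset (Sym2 ℕ)}
    (hZ' : IsSh Z') (hZc' : Z' ⊆ c.edges) (hn : Z' ∉ D) : 1 ≤ ph X.V2 pl mi (dv Z' - dv Z) :=
  h.repl hc hO hZ hZc hZc' (hAc _ hZc' (acap_sh h.ish hZ' hn))

theorem PW3.yV (h : PW3 X P D j S M A CL U PL pl mi) {Y : Finset ℕ} (hY : Clu3.k4 Y ∈ U) {v : ℕ} (hv : v ∈ Y) :
    v ∈ X.V2 := by
  have h4 : #Y = 4 := h.val hY
  obtain ⟨w, hw, hne⟩ := Finset.exists_mem_ne (by omega : 1 < #Y) v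
  have he : s(v, w) ∈ (Clu3.k4 Y).edges := mem3_k4.2 ⟨hv, hw, hne.symm⟩
  exact h.v2 (h.cW hY he) (by simp)

/-- **all squares of a `K4` cluster are in `D`** -/
theorem PW3.k4sq (h : PW3 X P D j S M A CL U PL pl mi) {Y : Finset ℕ} (hY : Clu3.k4 Y ∈ U)
    (hO : GdC X P D j A U (Clu3.k4 Y)) (hAK : ACp3 D A (Clu3.k4 Y)) {x y q p : ℕ} (h4 : Dist4 x y q p) (hx : x ∈ Y)
    (hy : y ∈ Y) (hq : q ∈ Y) (hp' : p ∈ Y) : TFC.sq x y q p ∈ D := by
  by_contra hn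
  have hc4 : #Y = 4 := h.val hY
  have hs := sq_edges h4 hx hy hq hp'
  have hsh : IsSh (TFC.sq x y q p) := Or.inr ⟨x, y, q, p, h4, rfl⟩
  have hdv : dv (TFC.sq x y q p) = R4_tx Y := k4_dv_sq hc4 hs hsh.m2 ⟨x, y, q, p, h4, rfl⟩ le_rfl
  obtain ⟨Z, hZ, _, hZc⟩ := h.edz hY (mem3_k4.2 ⟨hx, hy, h4.1⟩)
  have h1 := h.repl_sh hY hO hAK hZ hZc hsh hs hn
  rcases h.ish Z hZ with ⟨a, b, c, h3, rfl⟩ | hq'
  · have e1 := mem3_k4.1 (hZc (by simp [tri] : s(a, b) ∈ tri a b c))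
    have e2 := mem3_k4.1 (hZc (by simp [tri] : s(b, c) ∈ tri a b c))
    obtain ⟨d, hd, hd4⟩ := fourth hc4 h3 e1.1 e1.2.1 e2.2.1
    have e : dv (TFC.sq x y q p) - dv (tri a b c) = Pi.single d 2 := by
      rw [hdv, dv_tri h3, four_eq hc4 hd4 e1.1 e1.2.1 e2.2.1 hd, R4_tx4 _ _ _ _ hd4.1 hd4.2.1 hd4.2.2.1
        hd4.2.2.2.1 hd4.2.2.2.2.1 hd4.2.2.2.2.2]
      funext v
      simp only [Pi.sub_apply, Pi.add_apply, Pi.smul_apply, ev_apply, sgl]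
      split_ifs <;> simp
    rw [e, ph_one (h.yV hY hd)] at h1
    exact h.cnY hY hO (hAK.am h.ish) (a := d) (b := a) (mem3_k4.2 ⟨hd, e1.1, hd4.2.2.1.symm⟩) (con_two_pos h1)
  · have e : dv Z = R4_tx Y := k4_dv_sq hc4 hZc (IsSh.m2 (Or.inr hq')) hq' le_rfl
    rw [hdv, e, sub_self, ph_zero] at h1
    norm_num at h1

/-- **the triangle without `d` is in `D` iff `d` is not of type X** -/
theorem PW3.k4tri (h : PW3 X P D j S M A CL U PL pl mi) {Y : Finset ℕ} (hY : Clu3.k4 Y ∈ U)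
    (hO : GdC X P D j A U (Clu3.k4 Y)) (hAK : ACp3 D A (Clu3.k4 Y)) {a b c d : ℕ} (h4 : Dist4 a b c d) (ha : a ∈ Y)
    (hb : b ∈ Y) (hc : c ∈ Y) (hd : d ∈ Y) : tri a b c ∈ D ↔ ¬ (mi d ∧ ¬ pl d) := by
  have hc4 : #Y = 4 := h.val hY
  have h3 : Dist3 a b c := ⟨h4.1, h4.2.1, h4.2.2.2.1⟩
  constructor
  · rintro hD ⟨h5, h6⟩
    -- the path `a c d b`
    have h4' : Dist4 a c d b := ⟨h4.2.1, h4.2.2.1, h4.1, h4.2.2.2.2.2, h4.2.2.2.1.symm, h4.2.2.2.2.1.symm⟩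
    have h1 := h.repl hY hO hD (tri_edges h3 ha hb hc) (hp_edges h4' ha hc hd hb)
      (hAK.am h.ish _ (hp_edges h4' ha hc hd hb) (hp_m2 h4') (hp_nsh h4'))
    have e : dv (hp a c d b) - dv (tri a b c) = Pi.single a (-1) + Pi.single b (-1) + Pi.single d 2 := by
      rw [hp_dv h4', dv_tri h3]
      funext v
      simp only [Pi.sub_apply, Pi.add_apply, ev_apply, sgl]
      split_ifs <;> simp
    rw [e, ph_three (h.yV hY ha) (h.yV hY hb) (h.yV hY hd) h4.1 h4.2.2.1 h4.2.2.2.2.1, con_X h6 h5] at h1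
    have := con_neg_one (pl a) (mi a)
    have := con_neg_one (pl b) (mi b)
    omega
  · intro hX
    by_contra hn
    have h1 := h.repl_sh hY hO hAK (h.k4sq hY hO hAK h4 ha hb hc hd) (sq_edges h4 ha hb hc hd)
      (Or.inl ⟨a, b, c, h3, rfl⟩) (tri_edges h3 ha hb hc) hn
    have e : dv (tri a b c) - dv (TFC.sq a b c d) = Pi.single d (-2) := by
      rw [dv_sq h4, dv_tri h3]
      funext v
      simp only [Pi.sub_apply, Pi.add_apply, ev_apply, sgl]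
      split_ifs <;> simp
    rw [e, ph_one (h.yV hY hd)] at h1
    exact hX (con_neg_two h1)

end

end Pool.Agent.P34

end

section -- file P34/XHub

/-!
The phi frame for triangles and squares: the clusters with two centres, `K2` and `K_{1,1,m}`, and their shapes.
-/

set_option autoImplicit false

namespace Pool.Agent.P34

open Finset Pool.Agent.TFC Pool.Agent.PF4 Pool.Agent.PF4.LD Pool.Agent.PF4.XC Pool.Agent.PF4.XT
open Pool.Agent.PF4.XF (XD FitK Cv World WJ Av NC Rch dg_off mem_k4 mem_k2)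
open Pool.Agent.PF4.XU (tw mem_tw tw_sub tw_free dv_tw)

/-! ### clusters with two centres -/

theorem Hub.symm {c : Clu3 ℕ} {u v : ℕ} {L : Finset ℕ} (h : Hub c u v L) : Hub c v u L := by
  rcases h with h | h | h | h
  · exact Or.inr (Or.inl h)
  · exact Or.inl h
  · exact Or.inr (Or.inr (Or.inr h))
  · exact Or.inr (Or.inr (Or.inl h))

theorem Hub1.symm {c : Clu3 ℕ} {u v : ℕ} {L : Finset ℕ} (h : Hub1 c u v L) : Hub1 c v u L := Or.symm h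

theorem Hub.dat {c : Clu3 ℕ} {u v : ℕ} {L : Finset ℕ} (h : Hub c u v L) (hv : c.Valid) :
    u ≠ v ∧ u ∉ L ∧ v ∉ L ∧ 1 ≤ #L := by
  rcases h with rfl | rfl | rfl | rfl
  · obtain ⟨h1, h2, h3, h4⟩ : u ≠ v ∧ u ∉ L ∧ v ∉ L ∧ 2 ≤ #L := hv
    exact ⟨h1, h2, h3, by omega⟩
  · obtain ⟨h1, h2, h3, h4⟩ : v ≠ u ∧ v ∉ L ∧ u ∉ L ∧ 2 ≤ #L := hv
    exact ⟨h1.symm, h3, h2, by omega⟩
  · exact hv
  · obtain ⟨h1, h2, h3, h4⟩ : v ≠ u ∧ v ∉ L ∧ u ∉ L ∧ 1 ≤ #L := hv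
    exact ⟨h1.symm, h3, h2, h4⟩

theorem Hub.sub {c : Clu3 ℕ} {u v : ℕ} {L : Finset ℕ} (h : Hub c u v L) : (Clu.k2 u v L).edges ⊆ c.edges := by
  intro e he
  induction e using Sym2.ind with
  | _ a b =>
  rw [mem_k2] at he
  rcases h with rfl | rfl | rfl | rfl
  · rw [mem3_k2]; tauto
  · rw [mem3_k2]; tauto
  · rw [mem3_k11]; tauto
  · rw [mem3_k11]; tauto

theorem Hub.sup {c : Clu3 ℕ} {u v : ℕ} {L : Finset ℕ} (h : Hub c u v L) : c.edges ⊆ (Clu3.k11 u v L).edges := by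
  intro e he
  induction e using Sym2.ind with
  | _ a b =>
  rw [mem3_k11]
  rcases h with rfl | rfl | rfl | rfl
  · rw [mem3_k2] at he; tauto
  · rw [mem3_k2] at he; tauto
  · rw [mem3_k11] at he; tauto
  · rw [mem3_k11] at he; tauto

theorem Hub1.mem {c : Clu3 ℕ} {u v : ℕ} {L : Finset ℕ} (h : Hub1 c u v L) : s(u, v) ∈ c.edges := by
  rcases h with rfl | rfl
  · exact mem3_k11.2 (Or.inl (Or.inl ⟨rfl, rfl⟩))
  · exact mem3_k11.2 (Or.inl (Or.inr ⟨rfl, rfl⟩))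

theorem Hub.inj {c : Clu3 ℕ} {u v x q : ℕ} {L L' : Finset ℕ} (h : Hub c u v L) (h' : Hub c x q L') :
    L' = L ∧ ((x = u ∧ q = v) ∨ (x = v ∧ q = u)) := by
  rcases h with rfl | rfl | rfl | rfl <;> rcases h' with h' | h' | h' | h' <;>
    first
      | (rw [Clu3.k2.injEq] at h'; obtain ⟨rfl, rfl, rfl⟩ := h'; exact ⟨rfl, by tauto⟩)
      | (rw [Clu3.k11.injEq] at h'; obtain ⟨rfl, rfl, rfl⟩ := h'; exact ⟨rfl, by tauto⟩)
      | exact absurd h' (by simp)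

/-- the square with the centres `u`, `v`, read in the other order -/
theorem sq_swp3 (u v a d : ℕ) : TFC.sq u a v d = TFC.sq u d v a := by rw [sq_ref, sq_rot, sq_rot, sq_rot]

theorem sq_swp3' (u v a d : ℕ) : TFC.sq u a v d = TFC.sq v a u d := by rw [sq_ref, sq_rot]

/-- **the short cycles of a cluster with two centres** -/
theorem Hub.sh {c : Clu3 ℕ} {u v : ℕ} {L : Finset ℕ} (h : Hub c u v L) (hv : c.Valid) {Z : Finset (Sym2 ℕ)}
    (hZ : IsSh Z) (hs : Z ⊆ c.edges) :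
    (Hub1 c u v L ∧ ∃ l ∈ L, Z = tri u v l) ∨ ∃ a ∈ L, ∃ b ∈ L, a ≠ b ∧ Z = TFC.sq u a v b := by
  have k4 : ∀ Y, c ≠ Clu3.k4 Y := by
    rintro Y rfl
    rcases h with h | h | h | h <;> exact absurd h (by simp)
  rcases hZ with ⟨x, y, p, h3, rfl⟩ | ⟨x, y, q, p, h4, rfl⟩
  · left
    have key : ∀ x y p : ℕ, ∀ L', Hub1 c x y L' → p ∈ L' → Hub1 c u v L ∧ ∃ l ∈ L, tri x y p = tri u v l := by
      intro x y p L' h1 h2
      obtain ⟨rfl, ⟨rfl, rfl⟩ | ⟨rfl, rfl⟩⟩ := h.inj h1.hub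
      · exact ⟨h1, p, h2, rfl⟩
      · exact ⟨h1.symm, p, h2, tri_ref _ _ _⟩
    rcases shape3_tri hv h3 hs with ⟨Y, h1, _⟩ | ⟨L', h1, h2, _⟩ | ⟨L', h1, h2, _⟩ | ⟨L', h1, h2, _⟩
    · exact absurd h1 (k4 Y)
    · exact key x y p L' h1 h2
    · rw [tri_rot x y p]
      exact key y p x L' h1 h2
    · rw [tri_rot2 x y p]
      exact key p x y L' h1 h2
  · right
    have key : ∀ x y q p : ℕ, y ≠ p → ∀ L', Hub c x q L' → y ∈ L' → p ∈ L' →
        ∃ a ∈ L, ∃ b ∈ L, a ≠ b ∧ TFC.sq x y q p = TFC.sq u a v b := by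
      intro x y q p hyp L' h1 h2 h3
      obtain ⟨rfl, ⟨rfl, rfl⟩ | ⟨rfl, rfl⟩⟩ := h.inj h1
      · exact ⟨y, h2, p, h3, hyp, rfl⟩
      · exact ⟨y, h2, p, h3, hyp, by rw [sq_swp3']⟩
    rcases shape3_sq hv h4 hs with h1 | ⟨L', h1, h2, h3, _⟩ | ⟨L', h1, h2, h3, _⟩
    · exact absurd h1 (k4 _)
    · exact key x y q p h4.2.2.2.2.1 L' h1 h2 h3
    · rw [sq_rot x y q p]
      exact key y q p x h4.2.1.symm L' h1 h3 h2

/-! ### edge sets -/

section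
variable {u v : ℕ} {L P Q : Finset ℕ}

theorem tw_m2 (uv : u ≠ v) (uL : u ∉ L) (vL : v ∉ L) (hP : P ⊆ L) (hQ : Q ⊆ L) (h1 : #P ≤ 2) (h2 : #Q ≤ 2) :
    M2 (tw u v P Q) := by
  have hn : NoLoop (tw u v P Q) := by
    intro e he
    induction e using Sym2.ind with
    | _ a b =>
    rw [Sym2.mk_isDiag_iff]
    rintro rfl
    rcases mem_tw.1 he with ⟨rfl, h⟩ | ⟨rfl, h⟩ | ⟨rfl, h⟩ | ⟨rfl, h⟩
    · exact uL (hP h)
    · exact uL (hP h)
    · exact vL (hQ h)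
    · exact vL (hQ h)
  refine M2.of_dv hn fun w => ?_
  rw [dv_tw uv uL vL hP hQ]
  have w1 : w = u → w ∉ P ∧ w ∉ Q := fun e => ⟨fun g => uL (e ▸ hP g), fun g => uL (e ▸ hQ g)⟩
  have w2 : w = v → w ∉ P ∧ w ∉ Q := fun e => ⟨fun g => vL (e ▸ hP g), fun g => vL (e ▸ hQ g)⟩
  by_cases e1 : w = u
  · obtain ⟨g1, g2⟩ := w1 e1
    have e2 : w ≠ v := by rw [e1]; exact uv
    rw [if_neg g1, if_neg g2, if_pos e1, if_neg e2]
    push_cast
    omega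
  · by_cases e2 : w = v
    · obtain ⟨g1, g2⟩ := w2 e2
      rw [if_neg g1, if_neg g2, if_neg e1, if_pos e2]
      push_cast
      omega
    · rw [if_neg e1, if_neg e2]
      split_ifs <;> norm_num

/-- an edge set in `K2(u, v; L)` with at most one common leaf has no short cycle -/
theorem nsh_tw (uv : u ≠ v) (uL : u ∉ L) (vL : v ∉ L) (hP : P ⊆ L) (hQ : Q ⊆ L) (hc : #(P ∩ Q) ≤ 1) :
    NSh (tw u v P Q) := by
  rintro Z (⟨a, b, c, ⟨ab, ac, bc⟩, rfl⟩ | hZ) hs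
  · obtain ⟨e1, e2, e3⟩ := tri_sub.1 hs
    have k : ∀ w, (w = u ∨ w = v) → w ∉ P ∧ w ∉ Q := by
      rintro w (rfl | rfl)
      · exact ⟨fun g => uL (hP g), fun g => uL (hQ g)⟩
      · exact ⟨fun g => vL (hP g), fun g => vL (hQ g)⟩
    have m : ∀ w z, s(w, z) ∈ tw u v P Q → ((w = u ∨ w = v) ∧ ¬ (z = u ∨ z = v)) ∨
        (¬ (w = u ∨ w = v) ∧ (z = u ∨ z = v)) := by
      intro w z hwz
      rcases mem_tw.1 hwz with ⟨h1, h2⟩ | ⟨h1, h2⟩ | ⟨h1, h2⟩ | ⟨h1, h2⟩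
      · exact Or.inl ⟨Or.inl h1, fun g => (k z g).1 h2⟩
      · exact Or.inr ⟨fun g => (k w g).1 h2, Or.inl h1⟩
      · exact Or.inl ⟨Or.inr h1, fun g => (k z g).2 h2⟩
      · exact Or.inr ⟨fun g => (k w g).2 h2, Or.inr h1⟩
    have := m a b e1
    have := m b c e2
    have := m c a e3
    tauto
  · exact (tw_free uv uL vL hP hQ).2 hc Z hZ hs

theorem pair_sub {a b : ℕ} (ha : a ∈ L) (hb : b ∈ L) : ({a, b} : Finset ℕ) ⊆ L := by
  intro w hw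
  simp only [mem_insert, mem_singleton] at hw
  rcases hw with rfl | rfl <;> assumption

theorem sq_hub (uv : u ≠ v) (uL : u ∉ L) (vL : v ∉ L) {a b : ℕ} (ha : a ∈ L) (hb : b ∈ L) (hab : a ≠ b) :
    Dist4 u a v b := ⟨fun e => uL (e ▸ ha), uv, fun e => uL (e ▸ hb), fun e => vL (e ▸ ha), hab,
  fun e => vL (e ▸ hb)⟩

theorem tri_hub (uv : u ≠ v) (uL : u ∉ L) (vL : v ∉ L) {a : ℕ} (ha : a ∈ L) : Dist3 u v a :=
  ⟨uv, fun e => uL (e ▸ ha), fun e => vL (e ▸ ha)⟩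

end

theorem Hub.sq_sub {c : Clu3 ℕ} {u v : ℕ} {L : Finset ℕ} (h : Hub c u v L) {a b : ℕ} (ha : a ∈ L) (hb : b ∈ L) :
    TFC.sq u a v b ⊆ c.edges := by
  rw [sq_tw]
  exact (tw_sub (pair_sub ha hb) (pair_sub ha hb)).trans h.sub

theorem Hub1.tri_sub {c : Clu3 ℕ} {u v : ℕ} {L : Finset ℕ} (h : Hub1 c u v L) {a : ℕ} (ha : a ∈ L) :
    tri u v a ⊆ c.edges := by
  rw [P34.tri_sub]
  refine ⟨h.mem, h.hub.sub (mem_k2.2 (Or.inl ⟨Or.inr rfl, ha⟩)), h.hub.sub (mem_k2.2 (Or.inr ⟨Or.inl rfl, ha⟩))⟩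

/-! ### the types of the leaves -/

section
variable {X : XD3} {P : ℕ → Finset (Sym2 ℕ) → Prop} {D : Finset (Finset (Sym2 ℕ))} {j : ℕ} {S : Finset ℕ}
  {M : ℕ → Finset (Sym2 ℕ)} {A : Clu3 ℕ → Finset (Sym2 ℕ) → Prop} {CL U : List (Clu3 ℕ)} {PL : Finset (Sym2 ℕ)}
  {pl mi : ℕ → Prop}

/-- every leaf is in a triangle or in a square of the family -/
theorem PW3.par (h : PW3 X P D j S M A CL U PL pl mi) {c : Clu3 ℕ} (hc : c ∈ U) {u v : ℕ} {L : Finset ℕ}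
    (hh : Hub c u v L) : ∀ b ∈ L, (Hub1 c u v L ∧ tri u v b ∈ D) ∨ ∃ l ∈ L, l ≠ b ∧ TFC.sq u b v l ∈ D := by
  intro b hb
  obtain ⟨uv, uL, vL, _⟩ := hh.dat (h.val hc)
  obtain ⟨Z, hZ, he, hs⟩ := h.edz hc (hh.sub (mem_k2.2 (Or.inl ⟨Or.inl rfl, hb⟩) : s(u, b) ∈ (Clu.k2 u v L).edges))
  rcases hh.sh (h.val hc) (h.ish Z hZ) hs with ⟨h1, l, hl, rfl⟩ | ⟨a, ha, l, hl, hal, rfl⟩
  · left
    have : l = b := by
      simp only [tri, mem_insert, mem_singleton, Sym2.eq_iff] at he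
      rcases he with (⟨_, g⟩ | ⟨g, _⟩) | (⟨g, _⟩ | ⟨g, _⟩) | (⟨_, g⟩ | ⟨_, g⟩)
      · exact absurd (g ▸ hb) vL
      · exact absurd g uv
      · exact absurd g uv
      · exact absurd (g ▸ hl) uL
      · exact absurd (g ▸ hb) uL
      · exact g.symm
    subst this
    exact ⟨h1, hZ⟩
  · right
    simp only [TFC.sq, mem_insert, mem_singleton, Sym2.eq_iff] at he
    have : b = a ∨ b = l := by
      rcases he with (⟨_, g⟩ | ⟨g, _⟩) | (⟨g, _⟩ | ⟨g, _⟩) | (⟨g, _⟩ | ⟨g, _⟩) | (⟨g, _⟩ | ⟨_, g⟩)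
      · exact Or.inl g
      · exact absurd (g ▸ ha) uL
      · exact absurd (g ▸ ha) uL
      · exact absurd g uv
      · exact absurd g uv
      · exact absurd (g ▸ hl) uL
      · exact absurd (g ▸ hl) uL
      · exact Or.inr g
    rcases this with rfl | rfl
    · exact ⟨l, hl, hal.symm, hZ⟩
    · exact ⟨a, ha, hal, by rw [sq_swp3]; exact hZ⟩

/-- in a `K11` cluster some triangle is in the family -/
theorem PW3.exT (h : PW3 X P D j S M A CL U PL pl mi) {c : Clu3 ℕ} (hc : c ∈ U) {u v : ℕ} {L : Finset ℕ}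
    (hh : Hub1 c u v L) : ∃ l ∈ L, tri u v l ∈ D := by
  obtain ⟨uv, uL, vL, _⟩ := hh.hub.dat (h.val hc)
  obtain ⟨Z, hZ, he, hs⟩ := h.edz hc hh.mem
  rcases hh.hub.sh (h.val hc) (h.ish Z hZ) hs with ⟨_, l, hl, rfl⟩ | ⟨a, ha, l, hl, hal, rfl⟩
  · exact ⟨l, hl, hZ⟩
  · simp only [TFC.sq, mem_insert, mem_singleton, Sym2.eq_iff] at he
    rcases he with (⟨_, g⟩ | ⟨g, _⟩) | (⟨g, _⟩ | ⟨_, g⟩) | (⟨g, _⟩ | ⟨g, _⟩) | (⟨g, _⟩ | ⟨_, g⟩)
    · exact absurd (g ▸ ha) vL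
    · exact absurd (g ▸ ha) uL
    · exact absurd (g ▸ ha) uL
    · exact absurd (g ▸ ha) vL
    · exact absurd g uv
    · exact absurd (g ▸ hl) uL
    · exact absurd (g ▸ hl) uL
    · exact absurd (g ▸ hl) vL

theorem PW3.hV (h : PW3 X P D j S M A CL U PL pl mi) {c : Clu3 ℕ} (hc : c ∈ U) {u v : ℕ} {L : Finset ℕ}
    (hh : Hub c u v L) {w : ℕ} (hw : w = u ∨ w = v ∨ w ∈ L) : w ∈ X.V2 := by
  obtain ⟨_, _, _, h1⟩ := hh.dat (h.val hc)
  obtain ⟨l, hl⟩ := card_pos.1 (by omega : 0 < #L)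
  have k : ∀ a ∈ L, s(u, a) ∈ c.edges ∧ s(v, a) ∈ c.edges := fun a ha =>
    ⟨hh.sub (mem_k2.2 (Or.inl ⟨Or.inl rfl, ha⟩)), hh.sub (mem_k2.2 (Or.inl ⟨Or.inr rfl, ha⟩))⟩
  rcases hw with rfl | rfl | hw
  · exact h.v2 (h.cW hc (k l hl).1) (by simp)
  · exact h.v2 (h.cW hc (k l hl).2) (by simp)
  · exact h.v2 (h.cW hc (k w hw).1) (by simp)

/-- a leaf has not type Y -/
theorem PW3.leafY (h : PW3 X P D j S M A CL U PL pl mi) {c : Clu3 ℕ} (hc : c ∈ U) {u v : ℕ} {L : Finset ℕ}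
    (hh : Hub c u v L) (hO : GdC X P D j A U c) (hAc : AM3 A c) {b : ℕ} (hb : b ∈ L) : ¬ (pl b ∧ ¬ mi b) :=
  h.cnY hc hO hAc (hh.sub (mem_k2.2 (Or.inr ⟨Or.inl rfl, hb⟩) : s(b, u) ∈ (Clu.k2 u v L).edges))

/-- **leaf exchange**: `u c v l` in the family, `b` another leaf -/
theorem PW3.leaf (h : PW3 X P D j S M A CL U PL pl mi) {c : Clu3 ℕ} (hc : c ∈ U) {u v : ℕ} {L : Finset ℕ}
    (hh : Hub c u v L) (hO : GdC X P D j A U c) (hAc : AM3 A c) {b d l : ℕ} (hb : b ∈ L) (hd : d ∈ L) (hl : l ∈ L)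
    (bd : b ≠ d) (bl : b ≠ l) (dl : d ≠ l) (hD : TFC.sq u d v l ∈ D) :
    1 ≤ con (pl d) (mi d) (-1) + con (pl b) (mi b) 1 := by
  obtain ⟨uv, uL, vL, _⟩ := hh.dat (h.val hc)
  have s1 := pair_sub hb hl
  have s2 := pair_sub hd hl
  have c1 : #({b, l} : Finset ℕ) = 2 := card_pair bl
  have c2 : #({d, l} : Finset ℕ) = 2 := card_pair dl
  have h1 := h.repl hc hO hD (hh.sq_sub hd hl) ((tw_sub s1 s2).trans hh.sub)
    (hAc _ ((tw_sub s1 s2).trans hh.sub) (tw_m2 uv uL vL s1 s2 (by omega) (by omega)) (nsh_tw uv uL vL s1 s2 (by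
      rw [card_le_one]
      intro a ha b' hb'
      simp only [mem_inter, mem_insert, mem_singleton] at ha hb'
      rcases ha with ⟨rfl | rfl, h1 | h1⟩ <;> rcases hb' with ⟨rfl | rfl, h2 | h2⟩ <;> simp_all)))
  have d1 := fun w => dv_tw uv uL vL s1 s2 w
  have d2 := fun w => dv_tw uv uL vL s2 s2 w
  rw [c1, c2] at d1
  rw [c2] at d2
  simp only [mem_insert, mem_singleton] at d1 d2
  have e : dv (tw u v {b, l} {d, l}) - dv (TFC.sq u d v l) = Pi.single d (-1) + Pi.single b 1 := by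
    rw [sq_tw]
    funext w
    rw [Pi.sub_apply, d1, d2, Pi.add_apply, Pi.single_apply, Pi.single_apply]
    by_cases e1 : w = b <;> by_cases e2 : w = d <;> by_cases e3 : w = l <;> simp_all
  rwa [e, ph_two (h.hV hc hh (Or.inr (Or.inr hd))) (h.hV hc hh (Or.inr (Or.inr hb))) bd.symm] at h1

/-- a leaf which is missing in a square of the family does not have type X -/
theorem PW3.leaf_nX (h : PW3 X P D j S M A CL U PL pl mi) {c : Clu3 ℕ} (hc : c ∈ U) {u v : ℕ} {L : Finset ℕ}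
    (hh : Hub c u v L) (hO : GdC X P D j A U c) (hAc : AM3 A c) {b d l : ℕ} (hb : b ∈ L) (hd : d ∈ L) (hl : l ∈ L)
    (bd : b ≠ d) (bl : b ≠ l) (dl : d ≠ l) (hD : TFC.sq u d v l ∈ D) : ¬ (mi b ∧ ¬ pl b) := by
  have h1 := h.leaf hc hh hO hAc hb hd hl bd bl dl hD
  have h2 := con_neg_one (pl d) (mi d)
  exact con_one_X (by omega)

/-- **the leaf of a triangle of the family**, `b` another leaf -/
theorem PW3.leafT (h : PW3 X P D j S M A CL U PL pl mi) {c : Clu3 ℕ} (hc : c ∈ U) {u v : ℕ} {L : Finset ℕ}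
    (hh : Hub1 c u v L) (hO : GdC X P D j A U c) (hAc : AM3 A c) {b l : ℕ} (hb : b ∈ L) (hl : l ∈ L)
    (bl : b ≠ l) (hD : tri u v l ∈ D) :
    1 ≤ con (pl v) (mi v) (-1) + con (pl l) (mi l) (-1) + con (pl b) (mi b) 2 := by
  obtain ⟨uv, uL, vL, _⟩ := hh.hub.dat (h.val hc)
  have s1 := pair_sub hb hl
  have s2 : ({b} : Finset ℕ) ⊆ L := singleton_subset_iff.2 hb
  have c1 : #({b, l} : Finset ℕ) = 2 := card_pair bl
  have h1 := h.repl hc hO hD (hh.tri_sub hl) ((tw_sub s1 s2).trans hh.hub.sub)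
    (hAc _ ((tw_sub s1 s2).trans hh.hub.sub) (tw_m2 uv uL vL s1 s2 (by omega) (by simp))
      (nsh_tw uv uL vL s1 s2 ((card_le_card inter_subset_right).trans (by simp))))
  have d1 := fun w => dv_tw uv uL vL s1 s2 w
  rw [c1] at d1
  simp only [mem_insert, mem_singleton, card_singleton] at d1
  have h3 := tri_hub uv uL vL hl
  have hbv : b ≠ v := fun e => vL (e ▸ hb)
  have hbu : b ≠ u := fun e => uL (e ▸ hb)
  have hlv : l ≠ v := fun e => vL (e ▸ hl)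
  have hlu : l ≠ u := fun e => uL (e ▸ hl)
  have e : dv (tw u v {b, l} {b}) - dv (tri u v l) = Pi.single v (-1) + Pi.single l (-1) + Pi.single b 2 := by
    rw [dv_tri h3]
    funext w
    rw [Pi.sub_apply, d1]
    simp only [Pi.add_apply, ev_apply, sgl]
    by_cases e1 : w = b
    · subst e1
      simp [hbv, hbu, bl]
    · by_cases e2 : w = v
      · subst e2
        simp [hbv.symm, hlv.symm, uv.symm]
      · by_cases e3 : w = l
        · subst e3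
          simp [hlv, hlu, bl.symm]
        · by_cases e4 : w = u
          · subst e4
            simp [hbu.symm, hlu.symm, uv]
          · simp [e1, e2, e3, e4]
  rwa [e, ph_three (h.hV hc hh.hub (Or.inr (Or.inl rfl))) (h.hV hc hh.hub (Or.inr (Or.inr hl)))
    (h.hV hc hh.hub (Or.inr (Or.inr hb))) hlv.symm hbv.symm bl.symm] at h1

/-- **`u v l` in the family: the other leaves do not have type X** -/
theorem PW3.leafT_nX (h : PW3 X P D j S M A CL U PL pl mi) {c : Clu3 ℕ} (hc : c ∈ U) {u v : ℕ} {L : Finset ℕ}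
    (hh : Hub1 c u v L) (hO : GdC X P D j A U c) (hAc : AM3 A c) {b l : ℕ} (hb : b ∈ L) (hl : l ∈ L)
    (bl : b ≠ l) (hD : tri u v l ∈ D) : ¬ (mi b ∧ ¬ pl b) := by
  rintro ⟨h5, h6⟩
  have h1 := h.leafT hc hh hO hAc hb hl bl hD
  rw [con_X h6 h5] at h1
  have := con_neg_one (pl v) (mi v)
  have := con_neg_one (pl l) (mi l)
  omega

/-! ### the capped frame: the shapes -/

theorem con_two_nY {p m : Prop} (h : ¬ (p ∧ ¬ m)) : con p m 2 ≤ 0 := by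
  by_contra hc
  exact h (con_two_pos (by omega))

/-- **`e`, `k` in the family, `d`, `k` not**: `e` has type X, `d` has not -/
theorem PW3.rep2 (h : PW3 X P D j S M A CL U PL pl mi) {c : Clu3 ℕ} (hc : c ∈ U) {u v : ℕ} {L : Finset ℕ}
    (hh : Hub c u v L) (hO : GdC X P D j A U c) (hAc : ACp3 D A c) {e d k : ℕ} (he : e ∈ L) (hd : d ∈ L)
    (hk : k ∈ L) (ed : e ≠ d) (ek : e ≠ k) (dk : d ≠ k) (h1 : TFC.sq u e v k ∈ D) (h2 : TFC.sq u d v k ∉ D) :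
    (mi e ∧ ¬ pl e) ∧ ¬ (mi d ∧ ¬ pl d) := by
  obtain ⟨uv, uL, vL, _⟩ := hh.dat (h.val hc)
  have d1 := sq_hub uv uL vL he hk ek
  have d2 := sq_hub uv uL vL hd hk dk
  have h3 := h.repl_sh hc hO hAc h1 (hh.sq_sub he hk) (Or.inr ⟨_, _, _, _, d2, rfl⟩) (hh.sq_sub hd hk) h2
  have e1 : dv (TFC.sq u d v k) - dv (TFC.sq u e v k) = Pi.single e (-2) + Pi.single d 2 := by
    rw [dv_sq d1, dv_sq d2]
    funext w
    simp only [Pi.sub_apply, Pi.add_apply, ev_apply, sgl]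
    split_ifs <;> simp
  rw [e1, ph_two (h.hV hc hh (Or.inr (Or.inr he))) (h.hV hc hh (Or.inr (Or.inr hd))) ed] at h3
  have h4 := con_two_nY (h.leafY hc hh hO (hAc.am h.ish) hd)
  have h5 := con_neg_two_le (pl e) (mi e)
  exact ⟨con_neg_two (by omega), con_two (by omega)⟩

/-- **`u v l` in the family, `u v b` not**: `l` has type X, `b` has not -/
theorem PW3.rep3 (h : PW3 X P D j S M A CL U PL pl mi) {c : Clu3 ℕ} (hc : c ∈ U) {u v : ℕ} {L : Finset ℕ}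
    (hh : Hub1 c u v L) (hO : GdC X P D j A U c) (hAc : ACp3 D A c) {l b : ℕ} (hl : l ∈ L) (hb : b ∈ L)
    (h1 : tri u v l ∈ D) (h2 : tri u v b ∉ D) : (mi l ∧ ¬ pl l) ∧ ¬ (mi b ∧ ¬ pl b) := by
  obtain ⟨uv, uL, vL, _⟩ := hh.hub.dat (h.val hc)
  have lb : l ≠ b := by
    rintro rfl
    exact h2 h1
  have d1 := tri_hub uv uL vL hl
  have d2 := tri_hub uv uL vL hb
  have h3 := h.repl_sh hc hO hAc h1 (hh.tri_sub hl) (Or.inl ⟨_, _, _, d2, rfl⟩) (hh.tri_sub hb) h2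
  have e1 : dv (tri u v b) - dv (tri u v l) = Pi.single l (-2) + Pi.single b 2 := by
    rw [dv_tri d1, dv_tri d2]
    funext w
    simp only [Pi.sub_apply, Pi.add_apply, ev_apply, sgl]
    split_ifs <;> simp
  rw [e1, ph_two (h.hV hc hh.hub (Or.inr (Or.inr hl))) (h.hV hc hh.hub (Or.inr (Or.inr hb))) lb] at h3
  have h4 := con_two_nY (h.leafY hc hh.hub hO (hAc.am h.ish) hb)
  have h5 := con_neg_two_le (pl l) (mi l)
  exact ⟨con_neg_two (by omega), con_two (by omega)⟩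

/-- **`u v l` in the family: all squares with the leaf `l` are in the family** -/
theorem PW3.tri_sq' (h : PW3 X P D j S M A CL U PL pl mi) {c : Clu3 ℕ} (hc : c ∈ U) {u v : ℕ} {L : Finset ℕ}
    (hh : Hub1 c u v L) (hO : GdC X P D j A U c) (hAc : ACp3 D A c) {l b : ℕ} (hl : l ∈ L) (hb : b ∈ L)
    (lb : l ≠ b) (h1 : tri u v l ∈ D) : TFC.sq u l v b ∈ D := by
  by_contra h2
  obtain ⟨uv, uL, vL, _⟩ := hh.hub.dat (h.val hc)
  have d1 := tri_hub uv uL vL hl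
  have d2 := sq_hub uv uL vL hl hb lb
  have h3 := h.repl_sh hc hO hAc h1 (hh.tri_sub hl) (Or.inr ⟨_, _, _, _, d2, rfl⟩) (hh.hub.sq_sub hl hb) h2
  have e1 : dv (TFC.sq u l v b) - dv (tri u v l) = Pi.single b 2 := by
    rw [dv_tri d1, dv_sq d2]
    funext w
    simp only [Pi.sub_apply, Pi.add_apply, ev_apply, sgl]
    split_ifs <;> simp
  rw [e1, ph_one (h.hV hc hh.hub (Or.inr (Or.inr hb)))] at h3
  have h4 := con_two_nY (h.leafY hc hh.hub hO (hAc.am h.ish) hb)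
  omega

/-- **a leaf of type X**: it is the centre of the star -/
theorem PW3.star_X (h : PW3 X P D j S M A CL U PL pl mi) {c : Clu3 ℕ} (hc : c ∈ U) {u v : ℕ} {L : Finset ℕ}
    (hh : Hub c u v L) (hO : GdC X P D j A U c) (hAm : AM3 A c) {e : ℕ} (he : e ∈ L) (hX : mi e ∧ ¬ pl e) :
    (∀ b ∈ L, b ≠ e → TFC.sq u e v b ∈ D) ∧ (∀ b ∈ L, b ≠ e → tri u v b ∉ D) ∧
      (∀ b ∈ L, ∀ d ∈ L, b ≠ e → d ≠ e → b ≠ d → TFC.sq u b v d ∉ D) ∧ (Hub1 c u v L → tri u v e ∈ D) ∧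
      (Hub1 c u v L ∨ 3 ≤ #L → ∀ b ∈ L, b ≠ e → ¬ (mi b ∧ ¬ pl b)) := by
  have h1 : ∀ b ∈ L, ∀ d ∈ L, b ≠ e → d ≠ e → b ≠ d → TFC.sq u b v d ∉ D := by
    intro b hb d hd be de bd hD
    exact h.leaf_nX hc hh hO hAm he hb hd be.symm de.symm bd hD hX
  have h0 : ∀ b ∈ L, b ≠ e → Hub1 c u v L → tri u v b ∉ D := fun b hb be hh1 hD =>
    h.leafT_nX hc hh1 hO hAm he hb be.symm hD hX
  have h0' : ∀ b ∈ L, b ≠ e → tri u v b ∉ D := by
    intro b hb be hD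
    obtain ⟨uv, uL, vL, _⟩ := hh.dat (h.val hc)
    -- the triangle is inside the cluster
    have h2 : s(u, b) ∈ tri u v b := by simp [tri, Sym2.eq_swap]
    have h3 := h.clz hD hc h2 (hh.sub (mem_k2.2 (Or.inl ⟨Or.inl rfl, hb⟩)))
    rcases hh.sh (h.val hc) (h.ish _ hD) h3 with ⟨h4, _⟩ | ⟨a, ha, l, hl, hal, h4⟩
    · exact h0 b hb be h4 hD
    · exact tri_not_sq ⟨u, v, b, tri_hub uv uL vL hb, rfl⟩ ⟨u, a, v, l, sq_hub uv uL vL ha hl hal, h4⟩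
  have h2 : ∀ b ∈ L, b ≠ e → TFC.sq u e v b ∈ D := by
    intro b hb be
    rcases h.par hc hh b hb with ⟨_, hD⟩ | ⟨l, hl, hlb, hD⟩
    · exact absurd hD (h0' b hb be)
    · by_cases hle : l = e
      · subst hle
        rw [sq_swp3]
        exact hD
      · exact absurd hD (h1 b hb l hl be hle hlb.symm)
  have h3 : Hub1 c u v L → tri u v e ∈ D := by
    intro hh1
    obtain ⟨l, hl, hD⟩ := h.exT hc hh1
    by_cases hle : l = e
    · exact hle ▸ hD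
    · exact absurd hD (h0' l hl hle)
  refine ⟨h2, h0', h1, h3, fun h4 b hb be => ?_⟩
  rcases h4 with h4 | h4
  · exact h.leafT_nX hc h4 hO hAm hb he be (h3 h4)
  · have h5 : 0 < #((L.erase e).erase b) := by
      rw [card_erase_of_mem (mem_erase.2 ⟨be, hb⟩), card_erase_of_mem he]
      omega
    obtain ⟨l, hl⟩ := card_pos.1 h5
    simp only [mem_erase] at hl
    exact h.leaf_nX hc hh hO hAm hb he hl.2.2 be hl.1.symm hl.2.1.symm (h2 l hl.2.2 hl.2.1)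

/-- the shape of a cluster with two centres: a star -/
structure Star3 (D : Finset (Finset (Sym2 ℕ))) (u v : ℕ) (L : Finset ℕ) (e : ℕ) : Prop where
  mem : e ∈ L
  sq : ∀ b ∈ L, b ≠ e → TFC.sq u e v b ∈ D
  nsq : ∀ b ∈ L, ∀ d ∈ L, b ≠ e → d ≠ e → b ≠ d → TFC.sq u b v d ∉ D
  ntri : ∀ b ∈ L, b ≠ e → tri u v b ∉ D

/-- **the shape of a `K2` cluster**: complete, or a star with centre of type X -/
theorem PW3.shape2 (h : PW3 X P D j S M A CL U PL pl mi) {c : Clu3 ℕ} (hc : c ∈ U) {u v : ℕ} {L : Finset ℕ}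
    (hh : c = Clu3.k2 u v L) (hO : GdC X P D j A U c) (hAc : ACp3 D A c) :
    (∀ b ∈ L, ∀ d ∈ L, b ≠ d → TFC.sq u b v d ∈ D) ∨ ∃ e, Star3 D u v L e ∧ (mi e ∧ ¬ pl e) ∧ 3 ≤ #L ∧
      ∀ b ∈ L, b ≠ e → ¬ (mi b ∧ ¬ pl b) := by
  have hh' : Hub c u v L := Or.inl hh
  have hAm := hAc.am h.ish
  have n1 : ¬ Hub1 c u v L := by
    rw [hh]
    rintro (g | g) <;> exact absurd g (by simp)
  have par : ∀ b ∈ L, ∃ l ∈ L, l ≠ b ∧ TFC.sq u b v l ∈ D := fun b hb =>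
    (h.par hc hh' b hb).resolve_left fun g => n1 g.1
  by_cases hcpl : ∀ b ∈ L, ∀ d ∈ L, b ≠ d → TFC.sq u b v d ∈ D
  · exact Or.inl hcpl
  · right
    push Not at hcpl
    obtain ⟨b, hb, d, hd, hbd, hD⟩ := hcpl
    obtain ⟨e, he, heb, hbe⟩ := par b hb
    have hed : e ≠ d := by
      rintro rfl
      exact hD hbe
    have hX : mi e ∧ ¬ pl e := (h.rep2 hc hh' hO hAc he hd hb hed heb hbd.symm (by rw [sq_swp3]; exact hbe)
      (by rw [sq_swp3]; exact hD)).1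
    have h3 : 3 ≤ #L := by
      have h5 : ({e, b, d} : Finset ℕ) ⊆ L := by
        intro w hw
        simp only [mem_insert, mem_singleton] at hw
        rcases hw with rfl | rfl | rfl <;> assumption
      have h6 := card_le_card h5
      rw [card_insert_of_notMem (by simp [heb, hed]), card_pair hbd] at h6
      exact h6
    obtain ⟨g1, g2, g3, _, g5⟩ := h.star_X hc hh' hO hAm he hX
    exact ⟨e, ⟨he, g1, g3, g2⟩, hX, h3, g5 (Or.inr h3)⟩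

/-- **the shape of a `K11` cluster**: complete, or a star with centre of type X -/
theorem PW3.shape11 (h : PW3 X P D j S M A CL U PL pl mi) {c : Clu3 ℕ} (hc : c ∈ U) {u v : ℕ} {L : Finset ℕ}
    (hh : Hub1 c u v L) (hO : GdC X P D j A U c) (hAc : ACp3 D A c) :
    ((∀ b ∈ L, tri u v b ∈ D) ∧ (∀ b ∈ L, ∀ d ∈ L, b ≠ d → TFC.sq u b v d ∈ D) ∧
      (2 ≤ #L → ∀ b ∈ L, ¬ (mi b ∧ ¬ pl b))) ∨ ∃ e, Star3 D u v L e ∧ tri u v e ∈ D ∧ (mi e ∧ ¬ pl e) ∧ 2 ≤ #L ∧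
      ∀ b ∈ L, b ≠ e → ¬ (mi b ∧ ¬ pl b) := by
  have hAm := hAc.am h.ish
  by_cases hT : ∀ b ∈ L, tri u v b ∈ D
  · left
    refine ⟨hT, fun b hb d hd bd => h.tri_sq' hc hh hO hAc hb hd bd (hT b hb), fun h2 b hb => ?_⟩
    obtain ⟨l, hl, hlb⟩ := exists_mem_ne (by omega : 1 < #L) b
    exact h.leafT_nX hc hh hO hAm hb hl hlb.symm (hT l hl)
  · right
    push Not at hT
    obtain ⟨b, hb, hbD⟩ := hT
    obtain ⟨e, he, heD⟩ := h.exT hc hh
    have heb : e ≠ b := by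
      rintro rfl
      exact hbD heD
    have hX := (h.rep3 hc hh hO hAc he hb heD hbD).1
    obtain ⟨g1, g2, g3, _, g5⟩ := h.star_X hc hh.hub hO hAm he hX
    refine ⟨e, ⟨he, g1, g3, g2⟩, heD, hX, ?_, g5 (Or.inl hh)⟩
    exact one_lt_card.2 ⟨e, he, b, hb, heb⟩

end

end Pool.Agent.P34

end

section -- file P34/XA3

/-!
Adapters: the lemmas of `XSh`, `XSh2`, `XK4`, `XHub` in the frames `Fr3 D F` of one world `WA3`.
-/

set_option autoImplicit false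

namespace Pool.Agent.P34

open Finset Pool.Agent.TFC Pool.Agent.PF4 Pool.Agent.PF4.LD Pool.Agent.PF4.XC Pool.Agent.PF4.XT
open Pool.Agent.PF4.XF (XD FitK Cv World WJ Av NC Rch dg_off mem_k4 mem_k2)

theorem Acap.mono3 {D : Finset (Finset (Sym2 ℕ))} {K K' : Finset (Sym2 ℕ)} (h : Acap D K) (hK : K' ⊆ K) :
    Acap D K' := ⟨h.1.mono hK, fun Z hZ hs => h.2 Z hZ (hs.trans hK)⟩

/-- all frames are closed under subsets -/
theorem fr3_dwn (D : Finset (Finset (Sym2 ℕ))) (F : Clu3 ℕ → Prop) : Dwn3 (Fr3 D F) := by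
  intro c K K' hK h
  by_cases hF : F c
  · rw [Fr3_pos hF] at h ⊢
    exact h.mono hK
  · rw [Fr3_neg hF] at h ⊢
    exact Acap.mono3 h hK

theorem fr3_asf {D : Finset (Finset (Sym2 ℕ))} {F : Clu3 ℕ → Prop} {c : Clu3 ℕ} (hF : F c) : ASf3 (Fr3 D F) c := by
  intro K _ hs
  rw [Fr3_pos hF]
  exact hs

theorem fr3_acp {D : Finset (Finset (Sym2 ℕ))} {F : Clu3 ℕ → Prop} {c : Clu3 ℕ} (hF : ¬ F c) :
    ACp3 D (Fr3 D F) c := by
  intro K _ hs
  rw [Fr3_neg hF]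
  exact hs

section
variable {X : XD3} {P : ℕ → Finset (Sym2 ℕ) → Prop} {D : Finset (Finset (Sym2 ℕ))} {j m : ℕ} {S : Finset ℕ}
  {M : ℕ → Finset (Sym2 ℕ)} {F : Clu3 ℕ → Prop} {CL U : List (Clu3 ℕ)} {PL : Finset (Sym2 ℕ)}
  {pl mi : ℕ → Prop}

theorem PW3.fr_am (h : PW3 X P D j S M (Fr3 D F) CL U PL pl mi) (c : Clu3 ℕ) : AM3 (Fr3 D F) c := by
  by_cases hF : F c
  · exact (fr3_asf hF).am
  · exact (fr3_acp hF).am h.ish

/-- a witness of `Z`, outside of the cluster of `Z`: allowed if it has no short cycle in the uncapped clusters -/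
theorem PW3.fr_out (h : PW3 X P D j S M (Fr3 D F) CL U PL pl mi) {Z L : Finset (Sym2 ℕ)} (hZ : Z ∈ D)
    (hL : Wt3 X P D j Z L) {c : Clu3 ℕ} (hc : c ∈ U) (hZc : Z ⊆ c.edges)
    (hs : ∀ c' ∈ U, c' ≠ c → F c' → NSh (L ∩ c'.edges)) : Out3 (Fr3 D F) U c L := by
  intro c' hc' hne
  refine Fr3_of (fun hF => hs c' hc' hne hF) fun _ => ⟨hL.m2.mono Finset.inter_subset_left, fun Z' h1 h2 => hne ?_⟩
  have h3 := hL.uni Z' h1 (h2.trans Finset.inter_subset_left)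
  subst h3
  obtain ⟨e, he⟩ := (h.ish Z' hZ).ne
  exact h.eqc hc' hc (Finset.mem_inter.1 (h2 he)).2 (hZc he)

/-- `GdC` in a frame all of whose other clusters are capped -/
theorem PW3.fr_gdc (h : PW3 X P D j S M (Fr3 D F) CL U PL pl mi) {c : Clu3 ℕ} (hc : c ∈ U)
    (hF : ∀ c' ∈ U, c' ≠ c → ¬ F c') : GdC X P D j (Fr3 D F) U c :=
  h.gdc hc fun c' hc' hne => fr3_acp (hF c' hc' hne)

/-- near covers are allowed in all frames -/
theorem WA3.fr_M (w0 : WA3 X P D j m S M CL U PL) (h : PW3 X P D j S M (Fr3 D F) CL U PL pl mi)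
    (hF : ∀ c, F c → Hb c) {w : ℕ} (hw : w ∈ S) (hT : w ∈ X.T) : AU3 (Fr3 D F) U PL (M w ∩ (Ucl3 U ∪ PL)) := by
  refine ⟨Finset.inter_subset_right, fun c hc => ?_⟩
  rw [h.interW hc]
  have hcC := ((h.uc c).1 hc).1
  exact Fr3_of (fun hf => w0.msf w hw hT c hcC (hF c hf)) fun _ => w0.mcap w hw hT c hcC

theorem WA3.fr_Mc (w0 : WA3 X P D j m S M CL U PL) (h : PW3 X P D j S M (Fr3 D F) CL U PL pl mi)
    (hF : ∀ c, F c → Hb c) {w : ℕ} (hw : w ∈ S) (hT : w ∈ X.T) (c : Clu3 ℕ) : Out3 (Fr3 D F) U c (M w) := by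
  intro c' hc' _
  have h1 := (w0.fr_M h hF hw hT).2 c' hc'
  rwa [h.interW hc'] at h1

/-- an edge all of whose clusters are uncapped -/
theorem WA3.fr_free (w0 : WA3 X P D j m S M CL U PL) (h : PW3 X P D j S M (Fr3 D F) CL U PL pl mi)
    (hF : ∀ c, F c → Hb c) {w : ℕ} (hw : w ∈ S) (hT : w ∈ X.T) {e : Sym2 ℕ}
    (he : ∀ c ∈ U, e ∈ c.edges → F c) : Free3 (Fr3 D F) U (M w) e :=
  fun c hc hec => ⟨fr3_asf (he c hc hec), w0.msf w hw hT c ((h.uc c).1 hc).1 (hF c (he c hc hec))⟩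

/-- an edge all of whose clusters are uncapped, for a witness without short cycles there -/
theorem PW3.fr_freeL (_ : PW3 X P D j S M (Fr3 D F) CL U PL pl mi) {L : Finset (Sym2 ℕ)} {e : Sym2 ℕ}
    (he : ∀ c ∈ U, e ∈ c.edges → F c ∧ NSh (L ∩ c.edges)) : Free3 (Fr3 D F) U L e :=
  fun c hc hec => ⟨fr3_asf (he c hc hec).1, (he c hc hec).2⟩

/-! ### one world: frame independent facts -/

/-- the all-capped frame -/
theorem WA3.cap (w0 : WA3 X P D j m S M CL U PL) : ∃ pl mi,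
    PW3 X P D j S M (Fr3 D fun _ => False) CL U PL pl mi ∧ ∀ w ∈ S, w ∈ X.T → mi w := w0.fr _ fun _ h => h.elim

/-- **all squares of a `K4` cluster are in `D`** -/
theorem WA3.k4sq (w0 : WA3 X P D j m S M CL U PL) {Y : Finset ℕ} (hY : Clu3.k4 Y ∈ U) {x y q p : ℕ}
    (h4 : Dist4 x y q p) (hx : x ∈ Y) (hy : y ∈ Y) (hq : q ∈ Y) (hp : p ∈ Y) : TFC.sq x y q p ∈ D := by
  obtain ⟨pl, mi, h, _⟩ := w0.cap
  exact h.k4sq hY (h.fr_gdc hY fun _ _ _ hf => hf) (fr3_acp fun hf => hf) h4 hx hy hq hp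

end

end Pool.Agent.P34

end
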