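import Pool.Agent.PFN.M20

section -- file PF4/XTg

/-!
# Toggling edges in the phi frame

`tg K e` = the symmetric difference of `K` and `{e}`. All modifications of the part of a near cover in a world are sequences
of toggles; only the parity matters at a vertex of type Z, nothing matters at a vertex of type N.
-/

set_option autoImplicit false

namespace Pool.Agent.PF4.XTg

open Finset Pool.Agent.TFC Pool.Agent.PF4 Pool.Agent.PF4.LD Pool.Agent.PF4.XC Pool.Agent.PF4.XF Pool.Agent.PF4.XT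

/-- toggle one edge -/
def tg (K : Finset (Sym2 ℕ)) (e : Sym2 ℕ) : Finset (Sym2 ℕ) := symmDiff K {e}

theorem mem_tg {K : Finset (Sym2 ℕ)} {e f : Sym2 ℕ} : f ∈ tg K e ↔ (f ∈ K ∧ f ≠ e) ∨ (f ∉ K ∧ f = e) := by
  rw [tg, Finset.mem_symmDiff, Finset.mem_singleton]
  tauto

theorem mem_tg_ne {K : Finset (Sym2 ℕ)} {e f : Sym2 ℕ} (h : f ≠ e) : f ∈ tg K e ↔ f ∈ K := by
  rw [mem_tg]
  tauto

theorem mem_tg_self {K : Finset (Sym2 ℕ)} {e : Sym2 ℕ} : e ∈ tg K e ↔ e ∉ K := by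
  rw [mem_tg]
  tauto

/-- the sign of a toggle -/
def sg (K : Finset (Sym2 ℕ)) (e : Sym2 ℕ) : ℤ := if e ∈ K then -1 else 1

theorem sg_or (K : Finset (Sym2 ℕ)) (e : Sym2 ℕ) : sg K e = 1 ∨ sg K e = -1 := by
  unfold sg
  split_ifs
  · exact Or.inr rfl
  · exact Or.inl rfl

theorem sg_mem {K : Finset (Sym2 ℕ)} {e : Sym2 ℕ} (h : e ∈ K) : sg K e = -1 := if_pos h

theorem sg_not {K : Finset (Sym2 ℕ)} {e : Sym2 ℕ} (h : e ∉ K) : sg K e = 1 := if_neg h

theorem sg_tg {K : Finset (Sym2 ℕ)} {e f : Sym2 ℕ} (h : f ≠ e) : sg (tg K e) f = sg K f := by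
  unfold sg
  simp only [mem_tg_ne h]

/-- incidence -/
def inc (e : Sym2 ℕ) (v : ℕ) : ℤ := if v ∈ e then 1 else 0

theorem inc_mk (a b v : ℕ) : inc s(a, b) v = if v = a ∨ v = b then 1 else 0 := by
  unfold inc
  simp only [Sym2.mem_iff]

theorem dv_tg (K : Finset (Sym2 ℕ)) (e : Sym2 ℕ) (v : ℕ) : dv (tg K e) v = dv K v + sg K e * inc e v := by
  by_cases h : e ∈ K
  · have e1 : tg K e = K \ {e} := by
      ext f
      rw [mem_tg, Finset.mem_sdiff, Finset.mem_singleton]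
      constructor
      · rintro (h1 | ⟨h1, rfl⟩)
        · exact h1
        · exact absurd h h1
      · exact Or.inl
    rw [e1, dv_sdiff (Finset.singleton_subset_iff.2 h), Pi.sub_apply, dv_single, sg_mem h]
    unfold inc
    ring
  · have e1 : tg K e = K ∪ {e} := by
      ext f
      rw [mem_tg, Finset.mem_union, Finset.mem_singleton]
      constructor
      · rintro (h1 | h1)
        · exact Or.inl h1.1
        · exact Or.inr h1.2
      · rintro (h1 | rfl)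
        · exact Or.inl ⟨h1, fun h2 => h (h2 ▸ h1)⟩
        · exact Or.inr ⟨h, rfl⟩
    rw [e1, dv_union (Finset.disjoint_singleton_right.2 h), Pi.add_apply, dv_single, sg_not h]
    unfold inc
    ring

/-- a sequence of toggles -/
def tgs (K : Finset (Sym2 ℕ)) : List (Sym2 ℕ) → Finset (Sym2 ℕ)
  | [] => K
  | e :: l => tgs (tg K e) l

/-- the total change -/
def chg (K : Finset (Sym2 ℕ)) : List (Sym2 ℕ) → ℕ → ℤ
  | [], _ => 0
  | e :: l, v => sg K e * inc e v + chg K l v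

theorem chg_tg {K : Finset (Sym2 ℕ)} {e : Sym2 ℕ} (v : ℕ) : ∀ {l : List (Sym2 ℕ)}, e ∉ l → chg (tg K e) l v = chg K l v
  | [], _ => rfl
  | f :: l, h => by
    rw [List.mem_cons, not_or] at h
    rw [chg, chg, sg_tg (Ne.symm h.1), chg_tg v h.2]

theorem dv_tgs (v : ℕ) : ∀ {l : List (Sym2 ℕ)} {K : Finset (Sym2 ℕ)}, l.Nodup → dv (tgs K l) v = dv K v + chg K l v
  | [], K, _ => by rw [tgs, chg, add_zero]
  | e :: l, K, h => by
    rw [List.nodup_cons] at h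
    rw [tgs, dv_tgs v h.2, dv_tg, chg_tg v h.1, chg]
    ring

theorem mem_tgs_not {f : Sym2 ℕ} : ∀ {l : List (Sym2 ℕ)} {K : Finset (Sym2 ℕ)}, f ∉ l → (f ∈ tgs K l ↔ f ∈ K)
  | [], K, _ => Iff.rfl
  | e :: l, K, h => by
    rw [List.mem_cons, not_or] at h
    rw [tgs, mem_tgs_not h.2, mem_tg_ne h.1]

theorem mem_tgs {f : Sym2 ℕ} : ∀ {l : List (Sym2 ℕ)} {K : Finset (Sym2 ℕ)}, l.Nodup → f ∈ l → (f ∈ tgs K l ↔ f ∉ K)
  | [], K, _, h => absurd h (List.not_mem_nil)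
  | e :: l, K, hn, h => by
    rw [List.nodup_cons] at hn
    rw [tgs]
    rcases List.mem_cons.1 h with rfl | h
    · rw [mem_tgs_not hn.1, mem_tg_self]
    · have hne : f ≠ e := fun h1 => hn.1 (h1 ▸ h)
      rw [mem_tgs hn.2 h, mem_tg_ne hne]

theorem ph_le {V : Finset ℕ} {pl mi : ℕ → Prop} {d : ℕ → ℤ} (h : ∀ v ∈ V, con (pl v) (mi v) (d v) ≤ 0) :
    ph V pl mi d ≤ 0 := Finset.sum_nonpos h

theorem con_even {p m : Prop} {a : ℤ} (hp : p) (hm : m) (h : a % 2 = 0) : con p m a ≤ 0 := by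
  rw [con_Z hp hm, h]

theorem con_free {p m : Prop} {a : ℤ} (hp : ¬ p) (hm : ¬ m) : con p m a ≤ 0 := by
  rw [con_N hp hm]

/-- a vertex which is not X, an even nonpositive value -/
theorem con_nX {p m : Prop} {a : ℤ} (h : m → p) (h0 : a ≤ 0) (h2 : a % 2 = 0) : con p m a ≤ 0 := by
  by_cases hp : p
  · by_cases hm : m
    · exact con_even hp hm h2
    · rw [con_Y hp hm]; exact h0
  · exact con_free hp fun hm => hp (h hm)

theorem con_X_nonneg {p m : Prop} {a : ℤ} (hp : ¬ p) (hm : m) (h : 0 ≤ a) : con p m a ≤ 0 := by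
  rw [con_X hp hm]
  omega

section
variable {X : XD} {P : ℕ → Finset (Sym2 ℕ) → Prop} {D : Finset (Finset (Sym2 ℕ))} {j : ℕ} {S : Finset ℕ}
  {M : ℕ → Finset (Sym2 ℕ)} {A : Clu ℕ → Finset (Sym2 ℕ) → Prop} {CL U : List (Clu ℕ)} {PL : Finset (Sym2 ℕ)}
  {pl mi : ℕ → Prop}

end

/-! ### squares of `K2` clusters -/

end Pool.Agent.PF4.XTg

end

section -- file P34/XTg3

/-!
# Toggling edges in the phi frame, triangles and squares

Port of `PF4/XTg.lean` to `PW3`: all modifications of the part of a near cover or a witness are sequences of toggles.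
-/

set_option autoImplicit false

namespace Pool.Agent.P34

open Finset Pool.Agent.TFC Pool.Agent.PF4 Pool.Agent.PF4.LD Pool.Agent.PF4.XC Pool.Agent.PF4.XT Pool.Agent.PF4.XTg
open Pool.Agent.PF4.XF (XD FitK Cv World WJ Av NC Rch dg_off)

theorem tgs_sub {K W : Finset (Sym2 ℕ)} (hK : K ⊆ W) : ∀ {l : List (Sym2 ℕ)}, (∀ e ∈ l, e ∈ W) → tgs K l ⊆ W := by
  intro l
  induction l generalizing K with
  | nil => exact fun _ => hK
  | cons e l ih =>
    intro h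
    rw [tgs]
    refine ih ?_ fun f hf => h f (List.mem_cons_of_mem _ hf)
    intro f hf
    rcases mem_tg.1 hf with h1 | h1
    · exact hK h1.1
    · rw [h1.2]; exact h e List.mem_cons_self

section
variable {X : XD3} {P : ℕ → Finset (Sym2 ℕ) → Prop} {D : Finset (Finset (Sym2 ℕ))} {j : ℕ} {S : Finset ℕ}
  {M : ℕ → Finset (Sym2 ℕ)} {A : Clu3 ℕ → Finset (Sym2 ℕ) → Prop} {CL U : List (Clu3 ℕ)} {PL : Finset (Sym2 ℕ)}
  {pl mi : ℕ → Prop}

/-- toggle a plain edge -/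
theorem pw3_tgp (h : PW3 X P D j S M A CL U PL pl mi) {K : Finset (Sym2 ℕ)} (hK : AU3 A U PL K) {e : Sym2 ℕ}
    (he : e ∈ PL) : AU3 A U PL (tg K e) := by
  refine ⟨fun f hf => ?_, fun c hc => ?_⟩
  · rcases mem_tg.1 hf with h1 | h1
    · exact hK.1 h1.1
    · rw [h1.2]
      exact Finset.mem_union_right _ he
  · have e1 : tg K e ∩ c.edges = K ∩ c.edges := by
      ext f
      simp only [Finset.mem_inter]
      constructor
      · rintro ⟨h1, h2⟩
        have h4 : f ≠ e := fun h3 => Finset.disjoint_left.1 (h.plain hc) he (by rw [← h3]; exact h2)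
        exact ⟨(mem_tg_ne h4).1 h1, h2⟩
      · rintro ⟨h1, h2⟩
        have h4 : f ≠ e := fun h3 => Finset.disjoint_left.1 (h.plain hc) he (by rw [← h3]; exact h2)
        exact ⟨(mem_tg_ne h4).2 h1, h2⟩
    rw [e1]
    exact hK.2 c hc

end

/-! ### short cycles in clusters with two centres -/

end Pool.Agent.P34

end

section -- file PF4/XV

/-!
# Tools for the frames `Fr D F`

`PW.base`: a witness without some edges of its square is allowed; `PW.ins`: an edge with an isolated end is added;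
`PW.ev`: the evaluation.
-/

set_option autoImplicit false

namespace Pool.Agent.PF4.XT

open Finset Pool.Agent.TFC Pool.Agent.PF4 Pool.Agent.PF4.LD Pool.Agent.PF4.XC Pool.Agent.PF4.XF

/-! ### one cluster -/

theorem fr_nsq {D : Finset (Finset (Sym2 ℕ))} (hD : ∀ Z ∈ D, IsSq Z) {F : Clu ℕ → Prop} {c : Clu ℕ}
    {K : Finset (Sym2 ℕ)} (hl : NoLoop K) (hs : NSq K) (hm : ¬ F c → M2 K) : Fr D F c K :=
  Fr_of (fun _ => sqFree_of hl hs) fun h => ⟨hm h, fun Z hZ => hs Z (hD Z hZ)⟩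

/-- a new edge with an isolated end -/
theorem fr_ins {D : Finset (Finset (Sym2 ℕ))} (hD : ∀ Z ∈ D, IsSq Z) {F : Clu ℕ → Prop} {c : Clu ℕ}
    {K : Finset (Sym2 ℕ)} {u v : ℕ} (huv : u ≠ v) (hK : Fr D F c K) (hl : NoLoop K)
    (hu : ∀ a, s(u, a) ∈ K → a = v) (hv : F c ∨ dg K v ≤ 1) : Fr D F c (insert s(u, v) K) := by
  by_cases he : s(u, v) ∈ K
  · rw [Finset.insert_eq_of_mem he]; exact hK
  have hl' : NoLoop (insert s(u, v) K) := by
    intro f hf
    rcases Finset.mem_insert.1 hf with rfl | hf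
    · simpa using huv
    · exact hl f hf
  have hu0 : dg K u = 0 := by
    rw [dg, Finset.card_eq_zero, Finset.filter_eq_empty_iff]
    rintro f hf ⟨a, rfl⟩
    rw [hu a hf] at hf
    exact he hf
  -- a square through the new edge has a second edge at `u`
  have key : ∀ Z, IsSq Z → Z ⊆ insert s(u, v) K → Z ⊆ K := by
    intro Z hZ hs
    by_cases h1 : s(u, v) ∈ Z
    · exfalso
      obtain ⟨a, b, c', ⟨n1, n2, n3, n4, n5, n6⟩, rfl⟩ := sq_at hZ h1 (v := u) (by simp)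
      have g : ∀ w, s(u, w) ∈ TFC.sq u a b c' → w = v := by
        intro w hw
        rcases Finset.mem_insert.1 (hs hw) with h2 | h2
        · exact Sym2.congr_right.1 h2
        · exact hu w h2
      have h2 := g a (by simp [TFC.sq])
      have h3 := g c' (by rw [TFC.sq, Sym2.eq_swap (a := u) (b := c')]; simp)
      exact n5 (h2.trans h3.symm)
    · intro f hf
      rcases Finset.mem_insert.1 (hs hf) with rfl | h2
      · exact absurd hf h1
      · exact h2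
  refine Fr_of (fun hf => ?_) fun hf => ?_
  · rw [Fr_pos hf] at hK
    exact sqFree_of hl' fun Z hZ hs => (XU.sqFree_iff hl).1 hK Z hZ (key Z hZ hs)
  · rw [Fr_neg hf] at hK
    obtain ⟨h1, h2⟩ := hK
    refine ⟨⟨hl', fun w => ?_⟩, fun Z hZ hs => h2 Z hZ (key Z (hD Z hZ) hs)⟩
    rw [dg_insert he]
    have h3 := h1.le w
    have h4 := hv.resolve_left hf
    by_cases hw : w ∈ s(u, v)
    · rw [if_pos hw]
      rcases Sym2.mem_iff.1 hw with rfl | rfl
      · omega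
      · omega
    · rw [if_neg hw]; omega

/-- all edges but one at `v` -/
theorem dgLe1 {L C : Finset (Sym2 ℕ)} (hL : M2 L) {e : Sym2 ℕ} {v : ℕ} (he : e ∈ L) (hv : v ∈ e) (hC : e ∉ C) :
    dg (L ∩ C) v ≤ 1 := by
  have h1 := dg_erase he v
  rw [if_pos hv] at h1
  have h2 := hL.le v
  have h3 : dg (L ∩ C) v ≤ dg (L.erase e) v := dg_mono (fun f hf => by
    rw [Finset.mem_inter] at hf
    rw [Finset.mem_erase]
    exact ⟨fun h => hC (h ▸ hf.2), hf.1⟩) v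
  omega

theorem dgLe1' {L K C : Finset (Sym2 ℕ)} (hL : M2 L) (hK : K ⊆ L) {e : Sym2 ℕ} {v : ℕ} (he : e ∈ L) (hv : v ∈ e)
    (heK : e ∉ K) : dg (K ∩ C) v ≤ 1 := by
  have h1 := dg_erase he v
  rw [if_pos hv] at h1
  have h2 := hL.le v
  have h3 : dg (K ∩ C) v ≤ dg (L.erase e) v := dg_mono (fun f hf => by
    rw [Finset.mem_inter] at hf
    rw [Finset.mem_erase]
    exact ⟨fun h => heK (h ▸ hf.1), hK hf.1⟩) v
  omega

theorem dgZero {K : Finset (Sym2 ℕ)} {v : ℕ} (h : ∀ e ∈ K, v ∉ e) : dg K v = 0 := by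
  rw [dg, Finset.card_eq_zero, Finset.filter_eq_empty_iff]
  exact fun e he => h e he

section
variable {X : XD} {P : ℕ → Finset (Sym2 ℕ) → Prop} {D : Finset (Finset (Sym2 ℕ))} {j : ℕ} {S : Finset ℕ}
  {M : ℕ → Finset (Sym2 ℕ)} {A : Clu ℕ → Finset (Sym2 ℕ) → Prop} {F : Clu ℕ → Prop} {CL U : List (Clu ℕ)}
  {PL : Finset (Sym2 ℕ)} {pl mi : ℕ → Prop}

theorem dg_ins_off {K : Finset (Sym2 ℕ)} {e : Sym2 ℕ} {C : Finset (Sym2 ℕ)} {v : ℕ} (hv : v ∉ e) :
    dg (insert e K ∩ C) v ≤ dg (K ∩ C) v := by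
  unfold dg
  refine Finset.card_le_card fun f hf => ?_
  simp only [Finset.mem_filter, Finset.mem_inter, Finset.mem_insert] at hf ⊢
  obtain ⟨⟨h1 | h1, h2⟩, h3⟩ := hf
  · rw [h1] at h3; exact absurd h3 hv
  · exact ⟨⟨h1, h2⟩, h3⟩

theorem sq_vert {x y q p v : ℕ} {g : Sym2 ℕ} (hg : g ∈ TFC.sq x y q p) (hv : v ∈ g) :
    v = x ∨ v = y ∨ v = q ∨ v = p := by
  simp only [TFC.sq, Finset.mem_insert, Finset.mem_singleton] at hg
  rcases hg with rfl | rfl | rfl | rfl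
  · rcases Sym2.mem_iff.1 hv with h | h
    · exact Or.inl h
    · exact Or.inr (Or.inl h)
  · rcases Sym2.mem_iff.1 hv with h | h
    · exact Or.inr (Or.inl h)
    · exact Or.inr (Or.inr (Or.inl h))
  · rcases Sym2.mem_iff.1 hv with h | h
    · exact Or.inr (Or.inr (Or.inl h))
    · exact Or.inr (Or.inr (Or.inr h))
  · rcases Sym2.mem_iff.1 hv with h | h
    · exact Or.inr (Or.inr (Or.inr h))
    · exact Or.inl h

theorem nd6 {x y q p r s : ℕ} (nd : [x, y, q, p, r, s].Nodup) :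
    (x ≠ y ∧ x ≠ q ∧ x ≠ p ∧ x ≠ r ∧ x ≠ s) ∧ (y ≠ q ∧ y ≠ p ∧ y ≠ r ∧ y ≠ s) ∧ (q ≠ p ∧ q ≠ r ∧ q ≠ s) ∧
      (p ≠ r ∧ p ≠ s) ∧ r ≠ s := by
  simpa [List.nodup_cons] using nd

theorem dg_ins_off' {K : Finset (Sym2 ℕ)} {e : Sym2 ℕ} {v : ℕ} (hv : v ∉ e) : dg (insert e K) v ≤ dg K v := by
  unfold dg
  refine Finset.card_le_card fun f hf => ?_
  simp only [Finset.mem_filter, Finset.mem_insert] at hf ⊢
  obtain ⟨h1 | h1, h3⟩ := hf
  · rw [h1] at h3; exact absurd h3 hv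
  · exact ⟨h1, h3⟩

theorem dg_ins_le {K : Finset (Sym2 ℕ)} {e : Sym2 ℕ} {v : ℕ} : dg (insert e K) v ≤ dg K v + 1 := by
  by_cases he : e ∈ K
  · rw [Finset.insert_eq_of_mem he]; omega
  · rw [dg_insert he]; split_ifs <;> omega

theorem dg_single_le {e : Sym2 ℕ} (v : ℕ) : dg ({e} : Finset (Sym2 ℕ)) v ≤ 1 :=
  (Finset.card_le_card (Finset.filter_subset _ _)).trans (by simp)

/-- **a path with four edges** -/
theorem pth4 {D : Finset (Finset (Sym2 ℕ))} (hD : ∀ Z ∈ D, IsSq Z) {F : Clu ℕ → Prop} {c : Clu ℕ}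
    {v u e w b : ℕ} (nd : [v, u, e, w, b].Nodup) :
    Fr D F c {s(v, u), s(u, e), s(e, w), s(w, b)} ∧ dv ({s(v, u), s(u, e), s(e, w), s(w, b)} : Finset (Sym2 ℕ)) =
      Pi.single v 1 + (Pi.single u 1 + Pi.single u 1) + (Pi.single e 1 + Pi.single e 1) +
        (Pi.single w 1 + Pi.single w 1) + Pi.single b 1 := by
  obtain ⟨⟨vu, ve, vw, vb⟩, ⟨ue, uw, ub⟩, ⟨ew, eb⟩, wb⟩ : (v ≠ u ∧ v ≠ e ∧ v ≠ w ∧ v ≠ b) ∧
      (u ≠ e ∧ u ≠ w ∧ u ≠ b) ∧ (e ≠ w ∧ e ≠ b) ∧ w ≠ b := by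
    simpa [List.nodup_cons] using nd
  have n1 : v ∉ s(u, e) := by simp [vu, ve]
  have n2 : v ∉ s(e, w) := by simp [ve, vw]
  have n3 : v ∉ s(w, b) := by simp [vw, vb]
  have n4 : u ∉ s(e, w) := by simp [ue, uw]
  have n5 : u ∉ s(w, b) := by simp [uw, ub]
  have n6 : e ∉ s(w, b) := by simp [ew, eb]
  have l1 : NoLoop ({s(w, b)} : Finset (Sym2 ℕ)) := by
    intro f hf; rw [Finset.mem_singleton.1 hf]; simpa using wb
  have l2 : NoLoop ({s(e, w), s(w, b)} : Finset (Sym2 ℕ)) := by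
    intro f hf
    rcases Finset.mem_insert.1 hf with rfl | hf
    · simpa using ew
    · exact l1 f hf
  have l3 : NoLoop ({s(u, e), s(e, w), s(w, b)} : Finset (Sym2 ℕ)) := by
    intro f hf
    rcases Finset.mem_insert.1 hf with rfl | hf
    · simpa using ue
    · exact l2 f hf
  have k1 : Fr D F c ({s(w, b)} : Finset (Sym2 ℕ)) := by
    refine fr_nsq hD l1 (nsq_small (by simp)) fun _ => ⟨l1, fun x => (dg_single_le x).trans (by norm_num)⟩
  have d0 : ∀ x, dg ({s(w, b)} : Finset (Sym2 ℕ)) x ≤ 1 := fun x => dg_single_le x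
  have z1 : dg ({s(w, b)} : Finset (Sym2 ℕ)) e = 0 := dgZero fun f hf => by rw [Finset.mem_singleton.1 hf]; exact n6
  have k2 : Fr D F c ({s(e, w), s(w, b)} : Finset (Sym2 ℕ)) := by
    refine fr_ins hD ew k1 l1 (fun a ha => ?_) (Or.inr (d0 w))
    exfalso
    rw [Finset.mem_singleton] at ha
    exact n6 (by rw [← ha]; simp)
  have z2 : dg ({s(e, w), s(w, b)} : Finset (Sym2 ℕ)) e ≤ 1 := by
    have h1 : dg ({s(e, w), s(w, b)} : Finset (Sym2 ℕ)) e ≤ dg ({s(w, b)} : Finset (Sym2 ℕ)) e + 1 := dg_ins_le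
    omega
  have k3 : Fr D F c ({s(u, e), s(e, w), s(w, b)} : Finset (Sym2 ℕ)) := by
    refine fr_ins hD ue k2 l2 (fun a ha => ?_) (Or.inr z2)
    exfalso
    rcases Finset.mem_insert.1 ha with ha | ha
    · exact n4 (by rw [← ha]; simp)
    · rw [Finset.mem_singleton] at ha
      exact n5 (by rw [← ha]; simp)
  have z3 : dg ({s(u, e), s(e, w), s(w, b)} : Finset (Sym2 ℕ)) u ≤ 1 := by
    have h1 : dg ({s(u, e), s(e, w), s(w, b)} : Finset (Sym2 ℕ)) u ≤
      dg ({s(e, w), s(w, b)} : Finset (Sym2 ℕ)) u + 1 := dg_ins_le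
    have h2 : dg ({s(e, w), s(w, b)} : Finset (Sym2 ℕ)) u ≤ dg ({s(w, b)} : Finset (Sym2 ℕ)) u := dg_ins_off' n4
    have h3 : dg ({s(w, b)} : Finset (Sym2 ℕ)) u = 0 := dgZero fun f hf => by
      rw [Finset.mem_singleton.1 hf]; exact n5
    omega
  have k4 : Fr D F c ({s(v, u), s(u, e), s(e, w), s(w, b)} : Finset (Sym2 ℕ)) := by
    refine fr_ins hD vu k3 l3 (fun a ha => ?_) (Or.inr z3)
    exfalso
    rcases Finset.mem_insert.1 ha with ha | ha
    · exact n1 (by rw [← ha]; simp)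
    · rcases Finset.mem_insert.1 ha with ha | ha
      · exact n2 (by rw [← ha]; simp)
      · rw [Finset.mem_singleton] at ha
        exact n3 (by rw [← ha]; simp)
  refine ⟨k4, ?_⟩
  have m3 : s(e, w) ∉ ({s(w, b)} : Finset (Sym2 ℕ)) := fun h => n6 (by rw [← Finset.mem_singleton.1 h]; simp)
  have m2 : s(u, e) ∉ ({s(e, w), s(w, b)} : Finset (Sym2 ℕ)) := fun h => by
    rcases Finset.mem_insert.1 h with h | h
    · exact n4 (by rw [← h]; simp)
    · exact n5 (by rw [← Finset.mem_singleton.1 h]; simp)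
  have m1 : s(v, u) ∉ ({s(u, e), s(e, w), s(w, b)} : Finset (Sym2 ℕ)) := fun h => by
    rcases Finset.mem_insert.1 h with h | h
    · exact n1 (by rw [← h]; simp)
    · rcases Finset.mem_insert.1 h with h | h
      · exact n2 (by rw [← h]; simp)
      · exact n3 (by rw [← Finset.mem_singleton.1 h]; simp)
  rw [XT.dv_insert m1, XT.dv_insert m2, XT.dv_insert m3, dv_pair vu, dv_pair ue, dv_pair ew, dv_pair wb]
  abel

/-- four different vertices -/
theorem ph_four {V : Finset ℕ} {pl mi : ℕ → Prop} {u v w x : ℕ} (hu : u ∈ V) (hv : v ∈ V) (hw : w ∈ V) (hx : x ∈ V)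
    (huv : u ≠ v) (huw : u ≠ w) (hux : u ≠ x) (hvw : v ≠ w) (hvx : v ≠ x) (hwx : w ≠ x) (a b c d : ℤ) :
    ph V pl mi (Pi.single u a + Pi.single v b + Pi.single w c + Pi.single x d) =
      con (pl u) (mi u) a + con (pl v) (mi v) b + con (pl w) (mi w) c + con (pl x) (mi x) d := by
  rw [ph_add hx (by
    rw [Pi.add_apply, Pi.add_apply, sgl, sgl, sgl, if_neg hux.symm, if_neg hvx.symm, if_neg hwx.symm]; rfl),
    ph_three hu hv hw huv huw hvw]

end

end Pool.Agent.PF4.XT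

end

section -- file PF4/XV0

/-!
# Pattern p4, STEP 0

`PW.lemE`: a witness is square-free in every other cluster (with two centres) at a corner which is not of type X.
-/

set_option autoImplicit false

namespace Pool.Agent.PF4.XT

open Finset Pool.Agent.TFC Pool.Agent.PF4 Pool.Agent.PF4.LD Pool.Agent.PF4.XC Pool.Agent.PF4.XF

section
variable {X : XD} {P : ℕ → Finset (Sym2 ℕ) → Prop} {D : Finset (Finset (Sym2 ℕ))} {j : ℕ} {S : Finset ℕ}
  {M : ℕ → Finset (Sym2 ℕ)} {F : Clu ℕ → Prop} {CL U : List (Clu ℕ)} {PL : Finset (Sym2 ℕ)} {pl mi : ℕ → Prop}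

theorem both_pl {p q m n : Prop} (h : 1 ≤ con p m 1 + con q n 1) (hm : m) (hn : n) : p ∧ q := by
  have h1 := con_one p m
  have h2 := con_one q n
  constructor
  · by_contra hp
    have h3 : con p m 1 = -1 := con_X hp hm 1
    omega
  · by_contra hp
    have h3 : con q n 1 = -1 := con_X hp hn 1
    omega

end

/-! ### the configuration `V0` -/

section
variable {X : XD} {P : ℕ → Finset (Sym2 ℕ) → Prop} {D : Finset (Finset (Sym2 ℕ))} {j m : ℕ} {S : Finset ℕ}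
  {M : ℕ → Finset (Sym2 ℕ)} {CL U : List (Clu ℕ)} {PL : Finset (Sym2 ℕ)} {x y q p r s a b : ℕ}
  {c1 c2 : Clu ℕ} {L1 L2 : Finset (Sym2 ℕ)}

theorem nd8 {x y q p r s a b : ℕ} (nd : [x, y, q, p, r, s, a, b].Nodup) :
    (x ≠ y ∧ x ≠ q ∧ x ≠ p ∧ x ≠ r ∧ x ≠ s ∧ x ≠ a ∧ x ≠ b) ∧ (y ≠ q ∧ y ≠ p ∧ y ≠ r ∧ y ≠ s ∧ y ≠ a ∧ y ≠ b) ∧
      (q ≠ p ∧ q ≠ r ∧ q ≠ s ∧ q ≠ a ∧ q ≠ b) ∧ (p ≠ r ∧ p ≠ s ∧ p ≠ a ∧ p ≠ b) ∧ (r ≠ s ∧ r ≠ a ∧ r ≠ b) ∧
      (s ≠ a ∧ s ≠ b) ∧ a ≠ b := by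
  simpa [List.nodup_cons] using nd

end

end Pool.Agent.PF4.XT

end

section -- file P34/XV

/-!
# Tools for the frames `Fr3 D F`

Port of `PF4/XV.lean`: `PW3.base`: a witness without some edges of its short cycle is allowed; `PW3.ins`: an edge with an
isolated end is added; `PW3.ev`: the evaluation.
-/

set_option autoImplicit false

namespace Pool.Agent.P34

open Finset Pool.Agent.TFC Pool.Agent.PF4 Pool.Agent.PF4.LD Pool.Agent.PF4.XC Pool.Agent.PF4.XT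
open Pool.Agent.PF4.XF (XD FitK Cv World WJ Av NC Rch dg_off mem_k4 mem_k2)

/-! ### one cluster -/

theorem fr3_nsh {D : Finset (Finset (Sym2 ℕ))} (hD : ∀ Z ∈ D, IsSh Z) {F : Clu3 ℕ → Prop} {c : Clu3 ℕ}
    {K : Finset (Sym2 ℕ)} (hs : NSh K) (hm : ¬ F c → M2 K) : Fr3 D F c K :=
  Fr3_of (fun _ => hs) fun h => ⟨hm h, fun Z hZ => hs Z (hD Z hZ)⟩

/-- a short cycle in `K + uv`, `u` isolated in `K`, is a short cycle in `K` -/
theorem sh_ins {K : Finset (Sym2 ℕ)} {u v : ℕ} (hu : ∀ a, s(u, a) ∈ K → a = v) {Z : Finset (Sym2 ℕ)} (hZ : IsSh Z)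
    (hs : Z ⊆ insert s(u, v) K) : Z ⊆ K := by
  have h1 : s(u, v) ∉ Z := by
    intro h1
    obtain ⟨w, hw, hw2⟩ := sh_two hZ h1
    rcases Finset.mem_insert.1 (hs hw2) with h2 | h2
    · exact hw (Sym2.congr_right.1 h2)
    · exact hw (hu w h2)
  intro f hf
  rcases Finset.mem_insert.1 (hs hf) with rfl | h2
  · exact absurd hf h1
  · exact h2

/-- a new edge with an isolated end -/
theorem fr3_ins {D : Finset (Finset (Sym2 ℕ))} (hD : ∀ Z ∈ D, IsSh Z) {F : Clu3 ℕ → Prop} {c : Clu3 ℕ}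
    {K : Finset (Sym2 ℕ)} {u v : ℕ} (huv : u ≠ v) (hK : Fr3 D F c K) (hu : ∀ a, s(u, a) ∈ K → a = v)
    (hv : F c ∨ dg K v ≤ 1) : Fr3 D F c (insert s(u, v) K) := by
  by_cases he : s(u, v) ∈ K
  · rw [Finset.insert_eq_of_mem he]; exact hK
  have hu0 : dg K u = 0 := by
    rw [dg, Finset.card_eq_zero, Finset.filter_eq_empty_iff]
    rintro f hf ⟨a, rfl⟩
    rw [hu a hf] at hf
    exact he hf
  refine Fr3_of (fun hf => ?_) fun hf => ?_
  · rw [Fr3_pos hf] at hK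
    exact fun Z hZ hs => hK Z hZ (sh_ins hu hZ hs)
  · rw [Fr3_neg hf] at hK
    obtain ⟨h1, h2⟩ := hK
    refine ⟨⟨fun f hf => ?_, fun w => ?_⟩, fun Z hZ hs => h2 Z hZ (sh_ins hu (hD Z hZ) hs)⟩
    · rcases Finset.mem_insert.1 hf with rfl | hf
      · simpa using huv
      · exact h1.nl f hf
    · rw [dg_insert he]
      have h3 := h1.le w
      have h4 := hv.resolve_left hf
      by_cases hw : w ∈ s(u, v)
      · rw [if_pos hw]
        rcases Sym2.mem_iff.1 hw with rfl | rfl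
        · omega
        · omega
      · rw [if_neg hw]; omega

theorem Fr3_mono {D : Finset (Finset (Sym2 ℕ))} (F : Clu3 ℕ → Prop) : Dwn3 (Fr3 D F) := by
  intro c K K' hK h
  by_cases hc : F c
  · rw [Fr3_pos hc] at h ⊢
    exact h.mono hK
  · rw [Fr3_neg hc] at h ⊢
    exact ⟨h.1.mono hK, fun Z hZ hs => h.2 Z hZ (hs.trans hK)⟩

section
variable {X : XD3} {P : ℕ → Finset (Sym2 ℕ) → Prop} {D : Finset (Finset (Sym2 ℕ))} {j : ℕ} {S : Finset ℕ}
  {M : ℕ → Finset (Sym2 ℕ)} {A : Clu3 ℕ → Finset (Sym2 ℕ) → Prop} {F : Clu3 ℕ → Prop} {CL U : List (Clu3 ℕ)}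
  {PL : Finset (Sym2 ℕ)} {pl mi : ℕ → Prop}

/-- **evaluation of a changed witness** -/
theorem PW3.ev (h : PW3 X P D j S M A CL U PL pl mi) {Z L : Finset (Sym2 ℕ)} (hZ : Z ∈ D) (hL : Wt3 X P D j Z L)
    {c : Clu3 ℕ} (hc : c ∈ U) (hZc : Z ⊆ c.edges) {K : Finset (Sym2 ℕ)} (hK : AU3 A U PL K) {d : ℕ → ℤ}
    (hd : dv K = dv (L ∩ (Ucl3 U ∪ PL)) + d) : 1 ≤ ph X.V2 pl mi d := by
  have h1 := h.witA Z hZ (fun e he => mem_Ucl3.2 ⟨c, hc, hZc he⟩) L hL.mem hL.cov hL.uni K hK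
  rw [hd, add_sub_cancel_left] at h1
  exact h1

/-- **a witness without some edges of its short cycle** -/
theorem PW3.base (h : PW3 X P D j S M (Fr3 D F) CL U PL pl mi) {Z L : Finset (Sym2 ℕ)} (hZ : Z ∈ D)
    (hL : Wt3 X P D j Z L) {c : Clu3 ℕ} (hc : c ∈ U) (hZc : Z ⊆ c.edges)
    (hF : ∀ c' ∈ U, F c' → c' ≠ c → NSh (L ∩ c'.edges)) {R : Finset (Sym2 ℕ)} (hR : R ⊆ Z) (hne : R.Nonempty) :
    AU3 (Fr3 D F) U PL ((L ∩ (Ucl3 U ∪ PL)) \ R) := by
  refine ⟨Finset.sdiff_subset.trans Finset.inter_subset_right, fun c' hc' => ?_⟩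
  have e : (L ∩ (Ucl3 U ∪ PL)) \ R ∩ c'.edges = (L ∩ c'.edges) \ R := by
    rw [← h.interW hc' L]
    ext f
    simp only [Finset.mem_inter, Finset.mem_sdiff]
    tauto
  rw [e]
  have hm : M2 ((L ∩ c'.edges) \ R) := hL.m2.mono (Finset.sdiff_subset.trans Finset.inter_subset_left)
  by_cases hcc : c' = c
  · subst hcc
    refine fr3_nsh h.ish ?_ fun _ => hm
    rw [inter_eq3 (h.val hc) (h.ish Z hZ) hZc hL.m2 hL.sh]
    refine nsh_ssub (h.ish Z hZ) Finset.sdiff_subset fun hc => ?_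
    obtain ⟨e, he⟩ := hne
    have h1 := hR he
    rw [← hc] at h1
    exact (Finset.mem_sdiff.1 h1).2 he
  · refine Fr3_of (fun hf => ?_) fun hf => ⟨hm, fun Z' hZ' hs => ?_⟩
    · exact (hF c' hc' hf hcc).mono Finset.sdiff_subset
    · have h1 := hs.trans (Finset.sdiff_subset.trans Finset.inter_subset_left)
      have h2 := hs.trans (Finset.sdiff_subset.trans Finset.inter_subset_right)
      rw [hL.uni Z' hZ' h1] at h2
      obtain ⟨e, he⟩ := (h.ish Z hZ).ne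
      exact hcc (h.eqc hc' hc (h2 he) (hZc he))

/-- **an edge with an isolated end is added** (isolated in the cluster of the edge) -/
theorem PW3.ins (h : PW3 X P D j S M (Fr3 D F) CL U PL pl mi) {K : Finset (Sym2 ℕ)} (hK : AU3 (Fr3 D F) U PL K)
    {u v : ℕ} (he : s(u, v) ∈ Ucl3 U ∪ PL)
    (hc : ∀ c ∈ U, s(u, v) ∈ c.edges →
      ((∀ a, s(u, a) ∈ K → s(u, a) ∈ c.edges → a = v) ∧ (F c ∨ dg (K ∩ c.edges) v ≤ 1)) ∨
      ((∀ a, s(v, a) ∈ K → s(v, a) ∈ c.edges → a = u) ∧ (F c ∨ dg (K ∩ c.edges) u ≤ 1))) :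
    AU3 (Fr3 D F) U PL (insert s(u, v) K) := by
  have huv := h.ne he
  rcases Finset.mem_union.1 he with h1 | h1
  · obtain ⟨c, hcU, hec⟩ := mem_Ucl3.1 h1
    refine h.addc hK hcU hec ?_
    rcases hc c hcU hec with ⟨h2, h3⟩ | ⟨h2, h3⟩
    · refine fr3_ins h.ish huv (hK.2 c hcU) (fun a ha => ?_) h3
      rw [Finset.mem_inter] at ha
      exact h2 a ha.1 ha.2
    · rw [Sym2.eq_swap]
      refine fr3_ins h.ish huv.symm (hK.2 c hcU) (fun a ha => ?_) h3
      rw [Finset.mem_inter] at ha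
      exact h2 a ha.1 ha.2
  · have := h.addp hK (Finset.singleton_subset_iff.2 h1)
    rwa [Finset.union_comm, ← Finset.insert_eq] at this

/-- the part of a changed set in a cluster -/
theorem PW3.dgK (h : PW3 X P D j S M A CL U PL pl mi) {L R : Finset (Sym2 ℕ)} {c : Clu3 ℕ} (hc : c ∈ U) (v : ℕ) :
    dg (((L ∩ (Ucl3 U ∪ PL)) \ R) ∩ c.edges) v ≤ dg (L ∩ c.edges) v := by
  refine dg_mono ?_ v
  rw [← h.interW hc L]
  exact Finset.inter_subset_inter_right Finset.sdiff_subset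

/-- edges of a witness at a corner of its short cycle -/
theorem Wt3.at (hL : ∀ Z ∈ D, IsSh Z) {Z L : Finset (Sym2 ℕ)} (hZ : Z ∈ D) (hW : Wt3 X P D j Z L) {e f : Sym2 ℕ}
    {v : ℕ} (he : e ∈ Z) (hv : v ∈ e) (hf : f ∈ L) (hvf : v ∈ f) : f ∈ Z :=
  shc hW.m2 (hL Z hZ) hW.sh he hv hf hvf

/-- only the clusters in `F` have to be checked -/
theorem PW3.out (h : PW3 X P D j S M (Fr3 D F) CL U PL pl mi) {Z L : Finset (Sym2 ℕ)} (hZ : Z ∈ D)
    (hL : Wt3 X P D j Z L) {c : Clu3 ℕ} (hc : c ∈ U) (hZc : Z ⊆ c.edges)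
    (hF : ∀ c' ∈ U, F c' → c' ≠ c → NSh (L ∩ c'.edges)) : Out3 (Fr3 D F) U c L := by
  intro c' hc' hcc
  refine Fr3_of (fun hf => hF c' hc' hf hcc) fun hf => ⟨hL.m2.mono Finset.inter_subset_left,
    fun Z' hZ' hs => ?_⟩
  have h1 := hs.trans Finset.inter_subset_left
  have h2 := hs.trans Finset.inter_subset_right
  rw [hL.uni Z' hZ' h1] at h2
  obtain ⟨e, he⟩ := (h.ish Z hZ).ne
  exact hcc (h.eqc hc' hc (h2 he) (hZc he))

theorem fr3_am3 {D : Finset (Finset (Sym2 ℕ))} (hD : ∀ Z ∈ D, IsSh Z) (F : Clu3 ℕ → Prop) (c : Clu3 ℕ) :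
    AM3 (Fr3 D F) c := fun _ _ hm hs => fr3_nsh hD hs fun _ => hm

end

/-- **a path with four edges** -/
theorem pth4_3 {D : Finset (Finset (Sym2 ℕ))} (hD : ∀ Z ∈ D, IsSh Z) {F : Clu3 ℕ → Prop} {c : Clu3 ℕ}
    {v u e w b : ℕ} (nd : [v, u, e, w, b].Nodup) :
    Fr3 D F c {s(v, u), s(u, e), s(e, w), s(w, b)} ∧ dv ({s(v, u), s(u, e), s(e, w), s(w, b)} : Finset (Sym2 ℕ)) =
      Pi.single v 1 + (Pi.single u 1 + Pi.single u 1) + (Pi.single e 1 + Pi.single e 1) +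
        (Pi.single w 1 + Pi.single w 1) + Pi.single b 1 := by
  obtain ⟨⟨vu, ve, vw, vb⟩, ⟨ue, uw, ub⟩, ⟨ew, eb⟩, wb⟩ : (v ≠ u ∧ v ≠ e ∧ v ≠ w ∧ v ≠ b) ∧
      (u ≠ e ∧ u ≠ w ∧ u ≠ b) ∧ (e ≠ w ∧ e ≠ b) ∧ w ≠ b := by
    simpa [List.nodup_cons] using nd
  have n1 : v ∉ s(u, e) := by simp [vu, ve]
  have n2 : v ∉ s(e, w) := by simp [ve, vw]
  have n3 : v ∉ s(w, b) := by simp [vw, vb]
  have n4 : u ∉ s(e, w) := by simp [ue, uw]
  have n5 : u ∉ s(w, b) := by simp [uw, ub]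
  have n6 : e ∉ s(w, b) := by simp [ew, eb]
  have l1 : NoLoop ({s(w, b)} : Finset (Sym2 ℕ)) := by
    intro f hf; rw [Finset.mem_singleton.1 hf]; simpa using wb
  have k1 : Fr3 D F c ({s(w, b)} : Finset (Sym2 ℕ)) :=
    fr3_nsh hD (nsh_small (by simp)) fun _ => ⟨l1, fun x => (dg_single_le x).trans (by norm_num)⟩
  have d0 : ∀ x, dg ({s(w, b)} : Finset (Sym2 ℕ)) x ≤ 1 := fun x => dg_single_le x
  have z1 : dg ({s(w, b)} : Finset (Sym2 ℕ)) e = 0 := dgZero fun f hf => by rw [Finset.mem_singleton.1 hf]; exact n6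
  have k2 : Fr3 D F c ({s(e, w), s(w, b)} : Finset (Sym2 ℕ)) := by
    refine fr3_ins hD ew k1 (fun a ha => ?_) (Or.inr (d0 w))
    exfalso
    rw [Finset.mem_singleton] at ha
    exact n6 (by rw [← ha]; simp)
  have z2 : dg ({s(e, w), s(w, b)} : Finset (Sym2 ℕ)) e ≤ 1 := by
    have h1 : dg ({s(e, w), s(w, b)} : Finset (Sym2 ℕ)) e ≤ dg ({s(w, b)} : Finset (Sym2 ℕ)) e + 1 := dg_ins_le
    omega
  have k3 : Fr3 D F c ({s(u, e), s(e, w), s(w, b)} : Finset (Sym2 ℕ)) := by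
    refine fr3_ins hD ue k2 (fun a ha => ?_) (Or.inr z2)
    exfalso
    rcases Finset.mem_insert.1 ha with ha | ha
    · exact n4 (by rw [← ha]; simp)
    · rw [Finset.mem_singleton] at ha
      exact n5 (by rw [← ha]; simp)
  have z3 : dg ({s(u, e), s(e, w), s(w, b)} : Finset (Sym2 ℕ)) u ≤ 1 := by
    have h1 : dg ({s(u, e), s(e, w), s(w, b)} : Finset (Sym2 ℕ)) u ≤
      dg ({s(e, w), s(w, b)} : Finset (Sym2 ℕ)) u + 1 := dg_ins_le
    have h2 : dg ({s(e, w), s(w, b)} : Finset (Sym2 ℕ)) u ≤ dg ({s(w, b)} : Finset (Sym2 ℕ)) u := dg_ins_off' n4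
    have h3 : dg ({s(w, b)} : Finset (Sym2 ℕ)) u = 0 := dgZero fun f hf => by
      rw [Finset.mem_singleton.1 hf]; exact n5
    omega
  have k4 : Fr3 D F c ({s(v, u), s(u, e), s(e, w), s(w, b)} : Finset (Sym2 ℕ)) := by
    refine fr3_ins hD vu k3 (fun a ha => ?_) (Or.inr z3)
    exfalso
    rcases Finset.mem_insert.1 ha with ha | ha
    · exact n1 (by rw [← ha]; simp)
    · rcases Finset.mem_insert.1 ha with ha | ha
      · exact n2 (by rw [← ha]; simp)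
      · rw [Finset.mem_singleton] at ha
        exact n3 (by rw [← ha]; simp)
  exact ⟨k4, (pth4 (D := ∅) (fun Z hZ => absurd hZ (Finset.notMem_empty _)) (F := fun _ => True)
    (c := Clu.k4 ∅) nd).2⟩

end Pool.Agent.P34

end

section -- file PF4/XVX

/-!
Lemma (V): a star with the capped family, hub `r` with a near cover: the other two corners of a square outside `D` are not
both of type X.
-/

set_option autoImplicit false

namespace Pool.Agent.PF4.XT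

open Finset Pool.Agent.TFC Pool.Agent.PF4 Pool.Agent.PF4.LD Pool.Agent.PF4.XC Pool.Agent.PF4.XF

theorem con_neg_le (p m : Prop) {k : ℤ} (h : 0 ≤ k) : con p m (-k) ≤ k := by
  unfold con; split_ifs <;> omega

section
variable {X : XD} {P : ℕ → Finset (Sym2 ℕ) → Prop} {D : Finset (Finset (Sym2 ℕ))} {j : ℕ} {S : Finset ℕ}
  {M : ℕ → Finset (Sym2 ℕ)} {A : Clu ℕ → Finset (Sym2 ℕ) → Prop} {CL U : List (Clu ℕ)} {PL : Finset (Sym2 ℕ)}
  {pl mi : ℕ → Prop}

end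

end Pool.Agent.PF4.XT

end

section -- file P34/VX3

/-!
Lemma (V) for triangles and squares: a cluster with two centres, capped family, one centre `w` with a near cover: the two
leaves of a square outside `D` are not both of type X.
-/

set_option autoImplicit false

namespace Pool.Agent.P34

open Finset Pool.Agent.TFC Pool.Agent.PF4 Pool.Agent.PF4.LD Pool.Agent.PF4.XC Pool.Agent.PF4.XT
open Pool.Agent.PF4.XF (XD FitK Cv World WJ Av NC Rch dg_off mem_k4 mem_k2)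

/-- the leaves and the centres of a cluster with two centres -/
theorem leaf_sum {u v : ℕ} {Lf : Finset ℕ} (uv : u ≠ v) (uL : u ∉ Lf) (vL : v ∉ Lf) {K : Finset (Sym2 ℕ)}
    (hK : K ⊆ (Clu3.k11 u v Lf).edges) : ∑ l ∈ Lf, dv K l ≤ dv K u + dv K v := by
  obtain ⟨K0, hK0⟩ : ∃ K0, K0 = K.erase s(u, v) := ⟨_, rfl⟩
  have h0 : K0 ⊆ (Clu.k2 u v Lf).edges := by
    intro e he
    rw [hK0, Finset.mem_erase] at he
    have h1 := hK he.2
    rw [Clu3.edges, Finset.mem_insert] at h1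
    exact h1.resolve_left he.1
  have hs : K0 ⊆ K := by rw [hK0]; exact Finset.erase_subset _ _
  have hsum : ∑ l ∈ Lf, dv K0 l = dv K0 u + dv K0 v := by
    have e := XU.tw_of h0 uv uL vL
    obtain ⟨P', hP'⟩ : ∃ P', P' = Lf.filter fun l => s(u, l) ∈ K0 := ⟨_, rfl⟩
    obtain ⟨Q', hQ'⟩ : ∃ Q', Q' = Lf.filter fun l => s(v, l) ∈ K0 := ⟨_, rfl⟩
    rw [← hP', ← hQ'] at e
    have hP1 : P' ⊆ Lf := by rw [hP']; exact Finset.filter_subset _ _
    have hQ1 : Q' ⊆ Lf := by rw [hQ']; exact Finset.filter_subset _ _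
    rw [e]
    simp only [XU.dv_tw uv uL vL hP1 hQ1, Finset.sum_add_distrib]
    rw [XU.ind_sum hP1, XU.ind_sum hQ1, if_neg (fun e => uL (hP1 e)), if_neg (fun e => uL (hQ1 e)),
      if_neg (fun e => vL (hP1 e)), if_neg (fun e => vL (hQ1 e)), if_neg uv, if_neg uv.symm,
      Finset.sum_ite_eq' Lf u, Finset.sum_ite_eq' Lf v, if_neg uL, if_neg vL]
    simp
  have hmono : ∀ x, dv K0 x ≤ dv K x := by
    intro x
    show ((dg K0 x : ℕ) : ℤ) ≤ ((dg K x : ℕ) : ℤ)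
    exact_mod_cast dg_mono hs x
  have hleaf : ∀ l ∈ Lf, dv K l = dv K0 l := by
    intro l hl
    have h1 : dg K l = dg K0 l := by
      rw [dg, dg, hK0]
      congr 1
      ext e
      simp only [Finset.mem_filter, Finset.mem_erase]
      refine ⟨fun h => ⟨⟨fun hc => ?_, h.1⟩, h.2⟩, fun h => ⟨h.1.2, h.2⟩⟩
      have h2 := h.2
      rw [hc] at h2
      rcases Sym2.mem_iff.1 h2 with rfl | rfl
      · exact uL hl
      · exact vL hl
    show ((dg K l : ℕ) : ℤ) = ((dg K0 l : ℕ) : ℤ)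
    rw [h1]
  rw [Finset.sum_congr rfl hleaf, hsum]
  have := hmono u
  have := hmono v
  omega

section
variable {X : XD3} {P : ℕ → Finset (Sym2 ℕ) → Prop} {D : Finset (Finset (Sym2 ℕ))} {j : ℕ} {S : Finset ℕ}
  {M : ℕ → Finset (Sym2 ℕ)} {A : Clu3 ℕ → Finset (Sym2 ℕ) → Prop} {CL U : List (Clu3 ℕ)} {PL : Finset (Sym2 ℕ)}
  {pl mi : ℕ → Prop}

/-- both versions at once: `w` is one of the two hubs -/
theorem PW3.vx_gen (h : PW3 X P D j S M A CL U PL pl mi) {c : Clu3 ℕ} {u v : ℕ} {Lf : Finset ℕ}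
    (hH : c = Clu3.k2 u v Lf ∨ c = Clu3.k11 u v Lf) (hc : c ∈ U)
    (hA : ACp3 D A c) {w : ℕ} (hw : w = u ∨ w = v) (hO : Out3 A U c (M w)) (hr : w ∈ S)
    (hT : w ∈ X.T) (hM : M2 (M w)) (h1 : dg (M w) w ≤ 1) {a b : ℕ} (ha : a ∈ Lf) (hb : b ∈ Lf) (hab : a ≠ b)
    (hD : TFC.sq u a v b ∉ D) : ¬ ((mi a ∧ ¬ pl a) ∧ (mi b ∧ ¬ pl b)) := by
  rintro ⟨⟨ma, pa⟩, ⟨mb, pb⟩⟩
  have hval := h.val hc
  obtain ⟨uv, uL, vL⟩ : u ≠ v ∧ u ∉ Lf ∧ v ∉ Lf := by
    rcases hH with rfl | rfl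
    · exact ⟨hval.1, hval.2.1, hval.2.2.1⟩
    · exact ⟨hval.1, hval.2.1, hval.2.2.1⟩
  have hk2c : (Clu3.k2 u v Lf).edges ⊆ c.edges := by
    rcases hH with rfl | rfl
    · exact le_rfl
    · exact Finset.subset_insert _ _
  have hck11 : c.edges ⊆ (Clu3.k11 u v Lf).edges := by
    rcases hH with rfl | rfl
    · exact Finset.subset_insert _ _
    · exact le_rfl
  have hP : ({a, b} : Finset ℕ) ⊆ Lf := by
    intro x hx
    rw [Finset.mem_insert, Finset.mem_singleton] at hx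
    rcases hx with rfl | rfl
    · exact ha
    · exact hb
  -- the square
  obtain ⟨F, hF⟩ : ∃ F, F = TFC.sq u a v b := ⟨_, rfl⟩
  have hFt : F = XU.tw u v {a, b} {a, b} := by rw [hF, sq_tw]
  have hFc : F ⊆ c.edges := by rw [hFt]; exact (XU.tw_sub hP hP).trans hk2c
  have h4 : Dist4 u a v b := ⟨fun e => uL (e ▸ ha), uv, fun e => uL (e ▸ hb), fun e => vL (e ▸ ha), hab,
    fun e => vL (e ▸ hb)⟩
  have hFs : IsSq F := ⟨u, a, v, b, h4, hF⟩
  have hcard : #({a, b} : Finset ℕ) = 2 := by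
    rw [Finset.card_insert_of_notMem (by rw [Finset.mem_singleton]; exact hab), Finset.card_singleton]
  have hdF : ∀ x, dv F x = 2 * (if x ∈ ({a, b} : Finset ℕ) then 1 else 0) +
      ((if x = u then 2 else 0) + if x = v then 2 else 0) := by
    intro x
    rw [hFt, XU.dv_tw uv uL vL hP hP, hcard]
    push_cast
    ring
  have hFm : M2 F := IsSh.m2 (Or.inr hFs)
  have hFa : Acap D F := by
    refine ⟨hFm, fun Z hZ hs => hD ?_⟩
    rw [← hF, ← sh_sub_eq (h.ish Z hZ) (Or.inr hFs) hs]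
    exact hZ
  have key := h.nc_rep hr hT hc hO hFc (hA F hFc hFa)
  -- the part of the near cover
  obtain ⟨K, hK⟩ : ∃ K, K = M w ∩ c.edges := ⟨_, rfl⟩
  rw [← hK] at key
  have hKc : K ⊆ c.edges := by rw [hK]; exact Finset.inter_subset_right
  have hKM : K ⊆ M w := by rw [hK]; exact Finset.inter_subset_left
  have hK2 : ∀ x, 0 ≤ dv K x ∧ dv K x ≤ 2 := by
    intro x
    refine ⟨Nat.cast_nonneg _, ?_⟩
    have h5 : dg K x ≤ 2 := (Finset.card_le_card (Finset.filter_subset_filter _ hKM)).trans (hM.2 x)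
    show ((dg K x : ℕ) : ℤ) ≤ 2
    exact_mod_cast h5
  have hKw : dv K w ≤ 1 := by
    have h5 : dg K w ≤ 1 := (Finset.card_le_card (Finset.filter_subset_filter _ hKM)).trans h1
    show ((dg K w : ℕ) : ℤ) ≤ 1
    exact_mod_cast h5
  have hKsum : ∑ l ∈ Lf, dv K l ≤ dv K u + dv K v := leaf_sum uv uL vL (hKc.trans hck11)
  -- support
  obtain ⟨d, hd⟩ : ∃ d, d = dv F - dv K - Pi.single w 1 := ⟨_, rfl⟩
  rw [← hd] at key
  have hdv : ∀ x, d x = dv F x - dv K x - (if x = w then 1 else 0) := by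
    intro x
    rw [hd, Pi.sub_apply, Pi.sub_apply, sgl]
  have hSV : insert u (insert v Lf) ⊆ X.V2 := by
    intro x hx
    rw [Finset.mem_insert, Finset.mem_insert] at hx
    have e1 : s(u, a) ∈ c.edges := hk2c (mem3_k2.2 (Or.inl ⟨Or.inl rfl, ha⟩))
    have e2 : s(v, a) ∈ c.edges := hk2c (mem3_k2.2 (Or.inl ⟨Or.inr rfl, ha⟩))
    rcases hx with rfl | rfl | hx
    · exact h.v2 (h.cW hc e1) (by simp)
    · exact h.v2 (h.cW hc e2) (by simp)
    · have e3 : s(u, x) ∈ c.edges := hk2c (mem3_k2.2 (Or.inl ⟨Or.inl rfl, hx⟩))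
      exact h.v2 (h.cW hc e3) (by simp)
  have hoff : ∀ x ∈ X.V2, x ∉ insert u (insert v Lf) → d x = 0 := by
    intro x _ hx
    rw [Finset.mem_insert, Finset.mem_insert, not_or, not_or] at hx
    obtain ⟨x1, x2, x3⟩ := hx
    have hxw : x ≠ w := by
      rcases hw with rfl | rfl
      · exact x1
      · exact x2
    have hvs : x ∉ vs c.edges := by
      intro hm
      obtain ⟨e, he, hxe⟩ := mem_vs.1 hm
      obtain ⟨y, rfl⟩ := hxe
      rcases mem3_k11.1 (hck11 he) with (⟨h5, _⟩ | ⟨h5, _⟩) | (⟨h5 | h5, _⟩ | ⟨_, h5⟩)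
      · exact x1 h5
      · exact x2 h5
      · exact x1 h5
      · exact x2 h5
      · exact x3 h5
    rw [hdv, dv_off hFc hvs, dv_off hKc hvs, if_neg hxw]
    ring
  rw [ph_supp hSV hoff, Finset.sum_insert (by rw [Finset.mem_insert, not_or]; exact ⟨uv, uL⟩),
    Finset.sum_insert vL] at key
  -- leaves
  have hleaf : ∑ l ∈ Lf, con (pl l) (mi l) (d l) ≤ ∑ l ∈ Lf, (dv K l - 2 * (if l ∈ ({a, b} : Finset ℕ) then 1 else 0)) := by
    refine Finset.sum_le_sum fun l hl => ?_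
    have l1 : l ≠ u := fun e => uL (e ▸ hl)
    have l2 : l ≠ v := fun e => vL (e ▸ hl)
    have l3 : l ≠ w := by
      rcases hw with rfl | rfl
      · exact l1
      · exact l2
    rw [hdv, hdF, if_neg l1, if_neg l2, if_neg l3]
    by_cases h5 : l ∈ ({a, b} : Finset ℕ)
    · rw [if_pos h5]
      have h6 : mi l ∧ ¬ pl l := by
        rw [Finset.mem_insert, Finset.mem_singleton] at h5
        rcases h5 with rfl | rfl
        · exact ⟨ma, pa⟩
        · exact ⟨mb, pb⟩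
      rw [con_X h6.2 h6.1]
      omega
    · rw [if_neg h5]
      have h7 := con_neg_le (pl l) (mi l) (hK2 l).1
      rw [show 2 * (0 : ℤ) + (0 + 0) - dv K l - 0 = -dv K l by ring]
      omega
  rw [Finset.sum_sub_distrib, ← Finset.mul_sum, XU.ind_sum hP, hcard] at hleaf
  -- hubs
  have hub : ∀ x, x = u ∨ x = v → x = w → con (pl x) (mi x) (d x) ≤ 1 - dv K x := by
    intro x hx hxw
    have hFx : dv F x = 2 := by
      rw [hdF]
      rcases hx with rfl | rfl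
      · rw [if_neg (fun e => uL (hP e)), if_pos rfl, if_neg uv]; ring
      · rw [if_neg (fun e => vL (hP e)), if_neg uv.symm, if_pos rfl]; ring
    rw [hdv, hFx, if_pos hxw]
    have h5 : dv K x ≤ 1 := by rw [hxw]; exact hKw
    have h6 := (hK2 x).1
    rcases (show dv K x = 0 ∨ dv K x = 1 by omega) with h7 | h7
    · rw [h7]
      have := con_one (pl x) (mi x)
      norm_num
      exact this
    · rw [h7]
      norm_num
      rw [con_zero]
  have hub2 : ∀ x, x = u ∨ x = v → x ≠ w → con (pl x) (mi x) (d x) ≤ 2 - dv K x := by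
    intro x hx hxw
    have hFx : dv F x = 2 := by
      rw [hdF]
      rcases hx with rfl | rfl
      · rw [if_neg (fun e => uL (hP e)), if_pos rfl, if_neg uv]; ring
      · rw [if_neg (fun e => vL (hP e)), if_neg uv.symm, if_pos rfl]; ring
    rw [hdv, hFx, if_neg hxw]
    obtain ⟨h5, h6⟩ := hK2 x
    rcases (show dv K x = 0 ∨ dv K x = 1 ∨ dv K x = 2 by omega) with h7 | h7 | h7
    · rw [h7]
      have := con_two_le (pl x) (mi x)
      norm_num
      exact this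
    · rw [h7]
      have := con_one (pl x) (mi x)
      norm_num
      exact this
    · rw [h7]
      norm_num
      rw [con_zero]
  rcases hw with hw | hw
  · have h5 := hub u (Or.inl rfl) hw.symm
    have h6 := hub2 v (Or.inr rfl) (fun e => uv (hw.symm.trans e.symm))
    push_cast at hleaf
    omega
  · have h5 := hub v (Or.inr rfl) hw.symm
    have h6 := hub2 u (Or.inl rfl) (fun e => uv (e.trans hw))
    push_cast at hleaf
    omega

/-- **(V)**: cluster with the centres `r`, `g` in any order -/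
theorem PW3.vx (h : PW3 X P D j S M A CL U PL pl mi) {c : Clu3 ℕ} {r g : ℕ} {Lf : Finset ℕ} (hH : Hub c r g Lf)
    (hc : c ∈ U) (hA : ACp3 D A c) (hO : Out3 A U c (M r)) (hr : r ∈ S) (hT : r ∈ X.T)
    (hM : M2 (M r)) (h1 : dg (M r) r ≤ 1) {a b : ℕ} (ha : a ∈ Lf) (hb : b ∈ Lf) (hab : a ≠ b)
    (hD : TFC.sq r a g b ∉ D) : ¬ ((mi a ∧ ¬ pl a) ∧ (mi b ∧ ¬ pl b)) := by
  have e : TFC.sq g a r b = TFC.sq r a g b := by
    rw [sq_rot g a r b, sq_rot a r b g, sq_ref r b g a, sq_rot a g b r, sq_rot g b r a, sq_rot b r a g]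
  rcases hH with hH | hH | hH | hH
  · exact h.vx_gen (Or.inl hH) hc hA (Or.inl rfl) hO hr hT hM h1 ha hb hab hD
  · exact h.vx_gen (Or.inl hH) hc hA (Or.inr rfl) hO hr hT hM h1 ha hb hab (by rw [e]; exact hD)
  · exact h.vx_gen (Or.inr hH) hc hA (Or.inl rfl) hO hr hT hM h1 ha hb hab hD
  · exact h.vx_gen (Or.inr hH) hc hA (Or.inr rfl) hO hr hT hM h1 ha hb hab (by rw [e]; exact hD)

end

end Pool.Agent.P34

end
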