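import Pool.Agent.PFN.M21
import Pool.Agent.PFN.M22

section -- file P34/LemK

/-!
Lemma K: an edge `uv` of a member `Z` of `D`, a vertex `g` outside of `Z` with a near cover: not both `ug` and `vg` are
edges, unless both are in the cluster of `Z`.
-/

set_option autoImplicit false

namespace Pool.Agent.P34

open Finset Pool.Agent.TFC Pool.Agent.PF4 Pool.Agent.PF4.LD Pool.Agent.PF4.XC Pool.Agent.PF4.XT
open Pool.Agent.PF4.XF (XD FitK Cv World WJ Av NC Rch dg_off mem_k4 mem_k2)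

/-! ### shapes -/

theorem Hub.mem {c : Clu3 ℕ} {u v : ℕ} {L : Finset ℕ} (h : Hub c u v L) {l : ℕ} (hl : l ∈ L) :
    s(u, l) ∈ c.edges ∧ s(v, l) ∈ c.edges := by
  rcases h with rfl | rfl | rfl | rfl
  · exact ⟨mem3_k2.2 (Or.inl ⟨Or.inl rfl, hl⟩), mem3_k2.2 (Or.inl ⟨Or.inr rfl, hl⟩)⟩
  · exact ⟨mem3_k2.2 (Or.inl ⟨Or.inr rfl, hl⟩), mem3_k2.2 (Or.inl ⟨Or.inl rfl, hl⟩)⟩
  · exact ⟨mem3_k11.2 (Or.inr (Or.inl ⟨Or.inl rfl, hl⟩)), mem3_k11.2 (Or.inr (Or.inl ⟨Or.inr rfl, hl⟩))⟩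
  · exact ⟨mem3_k11.2 (Or.inr (Or.inl ⟨Or.inr rfl, hl⟩)), mem3_k11.2 (Or.inr (Or.inl ⟨Or.inl rfl, hl⟩))⟩

theorem Hub.dist {c : Clu3 ℕ} {u v : ℕ} {L : Finset ℕ} (h : Hub c u v L) (hv : c.Valid) :
    u ≠ v ∧ u ∉ L ∧ v ∉ L := by
  rcases h with rfl | rfl | rfl | rfl
  · exact ⟨hv.1, hv.2.1, hv.2.2.1⟩
  · exact ⟨hv.1.symm, hv.2.2.1, hv.2.1⟩
  · exact ⟨hv.1, hv.2.1, hv.2.2.1⟩
  · exact ⟨hv.1.symm, hv.2.2.1, hv.2.1⟩

/-- an edge of a cluster with two centres at a vertex which is not a centre -/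
theorem Hub.nb {c : Clu3 ℕ} {x y : ℕ} {L : Finset ℕ} (h : Hub c x y L) {u g : ℕ} (he : s(u, g) ∈ c.edges)
    (ux : u ≠ x) (uy : u ≠ y) : u ∈ L ∧ (g = x ∨ g = y) := by
  rcases h with rfl | rfl | rfl | rfl
  · rcases mem3_k2.1 he with ⟨g1 | g1, _⟩ | ⟨g1, g2⟩
    · exact absurd g1 ux
    · exact absurd g1 uy
    · exact ⟨g2, g1⟩
  · rcases mem3_k2.1 he with ⟨g1 | g1, _⟩ | ⟨g1, g2⟩
    · exact absurd g1 uy
    · exact absurd g1 ux
    · exact ⟨g2, g1.symm⟩
  · rcases mem3_k11.1 he with (⟨g1, _⟩ | ⟨g1, _⟩) | (⟨g1 | g1, _⟩ | ⟨g1, g2⟩)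
    · exact absurd g1 ux
    · exact absurd g1 uy
    · exact absurd g1 ux
    · exact absurd g1 uy
    · exact ⟨g2, g1⟩
  · rcases mem3_k11.1 he with (⟨g1, _⟩ | ⟨g1, _⟩) | (⟨g1 | g1, _⟩ | ⟨g1, g2⟩)
    · exact absurd g1 uy
    · exact absurd g1 ux
    · exact absurd g1 uy
    · exact absurd g1 ux
    · exact ⟨g2, g1.symm⟩

/-- a short cycle of a cluster with two centres which avoids `u`; `g` is a neighbour of `u` in the cluster -/
theorem hub_sh {c : Clu3 ℕ} (hv : c.Valid) (hb : Hb c) {K : Finset (Sym2 ℕ)} (hK : IsSh K) (hs : K ⊆ c.edges)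
    {u g : ℕ} (he : s(u, g) ∈ c.edges) (iso : ∀ a, s(u, a) ∉ K) :
    ∃ h Lf a, Hub c g h Lf ∧ u ∈ Lf ∧ g ≠ h ∧ g ∉ Lf ∧ h ∉ Lf ∧ a ∈ Lf ∧ a ≠ u ∧
      (K = tri g a h ∨ ∃ b ∈ Lf, b ≠ u ∧ a ≠ b ∧ K = TFC.sq g a h b) := by
  have iso' : ∀ a, s(a, u) ∉ K := fun a h => iso a (by rwa [Sym2.eq_swap])
  -- triangles
  have T : ∀ x y p : ℕ, ∀ L', Hub c x y L' → p ∈ L' → K = tri x y p →
      ∃ h Lf a, Hub c g h Lf ∧ u ∈ Lf ∧ g ≠ h ∧ g ∉ Lf ∧ h ∉ Lf ∧ a ∈ Lf ∧ a ≠ u ∧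
      (K = tri g a h ∨ ∃ b ∈ Lf, b ≠ u ∧ a ≠ b ∧ K = TFC.sq g a h b) := by
    intro x y p L' hH hp hE
    have e1 : s(x, y) ∈ K := by rw [hE]; simp [tri]
    have e2 : s(y, p) ∈ K := by rw [hE]; simp [tri]
    have ux : u ≠ x := by rintro rfl; exact iso _ e1
    have uy : u ≠ y := by rintro rfl; exact iso _ e2
    have up : p ≠ u := by rintro rfl; exact iso' _ e2
    obtain ⟨h1, h2⟩ := hH.nb he ux uy
    obtain ⟨d1, d2, d3⟩ := hH.dist hv
    rcases h2 with rfl | rfl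
    · exact ⟨y, L', p, hH, h1, d1, d2, d3, hp, up, Or.inl (by rw [hE, tri_ref2])⟩
    · exact ⟨x, L', p, hH.symm, h1, d1.symm, d3, d2, hp, up, Or.inl (by rw [hE, tri_rot])⟩
  have Q : ∀ x y q p : ℕ, ∀ L', Hub c x q L' → y ∈ L' → p ∈ L' → y ≠ p → K = TFC.sq x y q p →
      ∃ h Lf a, Hub c g h Lf ∧ u ∈ Lf ∧ g ≠ h ∧ g ∉ Lf ∧ h ∉ Lf ∧ a ∈ Lf ∧ a ≠ u ∧
      (K = tri g a h ∨ ∃ b ∈ Lf, b ≠ u ∧ a ≠ b ∧ K = TFC.sq g a h b) := by
    intro x y q p L' hH hy hp hyp hE
    have e1 : s(x, y) ∈ K := by rw [hE]; simp [TFC.sq]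
    have e2 : s(y, q) ∈ K := by rw [hE]; simp [TFC.sq]
    have e3 : s(q, p) ∈ K := by rw [hE]; simp [TFC.sq]
    have ux : u ≠ x := by rintro rfl; exact iso _ e1
    have uq : u ≠ q := by rintro rfl; exact iso _ e3
    have up : p ≠ u := by rintro rfl; exact iso' _ e3
    have uy : y ≠ u := by rintro rfl; exact iso' _ e1
    obtain ⟨h1, h2⟩ := hH.nb he ux uq
    obtain ⟨d1, d2, d3⟩ := hH.dist hv
    rcases h2 with rfl | rfl
    · exact ⟨q, L', y, hH, h1, d1, d2, d3, hy, uy, Or.inr ⟨p, hp, up, hyp, hE⟩⟩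
    · exact ⟨x, L', p, hH.symm, h1, d1.symm, d3, d2, hp, up, Or.inr ⟨y, hy, uy, hyp.symm, by
        rw [hE, XT.sq_rot, XT.sq_rot]⟩⟩
  rcases hK with ⟨x, y, p, hd, rfl⟩ | ⟨x, y, q, p, hd, rfl⟩
  · rcases shape3_tri hv hd hs with ⟨Y, h1, _⟩ | ⟨L', h1, h2, _⟩ | ⟨L', h1, h2, _⟩ | ⟨L', h1, h2, _⟩
    · rw [h1] at hb; exact absurd hb Hb.not_k4
    · exact T x y p L' h1.hub h2 rfl
    · exact T y p x L' h1.hub h2 (tri_rot x y p)
    · exact T p x y L' h1.hub h2 (tri_rot2 x y p)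
  · rcases shape3_sq hv hd hs with h1 | ⟨L', h1, h2, h3, _⟩ | ⟨L', h1, h2, h3, _⟩
    · rw [h1] at hb; exact absurd hb Hb.not_k4
    · exact Q x y q p L' h1 h2 h3 hd.2.2.2.2.1 rfl
    · exact Q y q p x L' h1 h3 h2 hd.2.1.symm (XT.sq_rot x y q p)

/-- **a path with three edges** -/
theorem pth3_3 {D : Finset (Finset (Sym2 ℕ))} (hD : ∀ Z ∈ D, IsSh Z) {F : Clu3 ℕ → Prop} {c : Clu3 ℕ}
    {v u e w : ℕ} (nd : [v, u, e, w].Nodup) :
    Fr3 D F c {s(v, u), s(u, e), s(e, w)} ∧ dv ({s(v, u), s(u, e), s(e, w)} : Finset (Sym2 ℕ)) =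
      Pi.single v 1 + (Pi.single u 1 + Pi.single u 1) + (Pi.single e 1 + Pi.single e 1) + Pi.single w 1 := by
  obtain ⟨⟨vu, ve, vw⟩, ⟨ue, uw⟩, ew⟩ : (v ≠ u ∧ v ≠ e ∧ v ≠ w) ∧ (u ≠ e ∧ u ≠ w) ∧ e ≠ w := by
    simpa [List.nodup_cons] using nd
  have n1 : v ∉ s(u, e) := by simp [vu, ve]
  have n2 : v ∉ s(e, w) := by simp [ve, vw]
  have n4 : u ∉ s(e, w) := by simp [ue, uw]
  have l1 : NoLoop ({s(e, w)} : Finset (Sym2 ℕ)) := by
    intro f hf; rw [Finset.mem_singleton.1 hf]; simpa using ew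
  have k1 : Fr3 D F c ({s(e, w)} : Finset (Sym2 ℕ)) :=
    fr3_nsh hD (nsh_small (by simp)) fun _ => ⟨l1, fun x => (dg_single_le x).trans (by norm_num)⟩
  have k2 : Fr3 D F c ({s(u, e), s(e, w)} : Finset (Sym2 ℕ)) := by
    refine fr3_ins hD ue k1 (fun a ha => ?_) (Or.inr (dg_single_le e))
    exfalso
    rw [Finset.mem_singleton] at ha
    exact n4 (by rw [← ha]; simp)
  have z2 : dg ({s(u, e), s(e, w)} : Finset (Sym2 ℕ)) u ≤ 1 := by
    have h1 : dg ({s(u, e), s(e, w)} : Finset (Sym2 ℕ)) u ≤ dg ({s(e, w)} : Finset (Sym2 ℕ)) u + 1 := dg_ins_le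
    have h3 : dg ({s(e, w)} : Finset (Sym2 ℕ)) u = 0 := dgZero fun f hf => by
      rw [Finset.mem_singleton.1 hf]; exact n4
    omega
  have k3 : Fr3 D F c ({s(v, u), s(u, e), s(e, w)} : Finset (Sym2 ℕ)) := by
    refine fr3_ins hD vu k2 (fun a ha => ?_) (Or.inr z2)
    exfalso
    rcases Finset.mem_insert.1 ha with ha | ha
    · exact n1 (by rw [← ha]; simp)
    · rw [Finset.mem_singleton] at ha
      exact n2 (by rw [← ha]; simp)
  refine ⟨k3, ?_⟩
  have m1 : s(u, e) ∉ ({s(e, w)} : Finset (Sym2 ℕ)) := by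
    rw [Finset.mem_singleton]
    intro h; exact n4 (by rw [← h]; simp)
  have m2 : s(v, u) ∉ ({s(u, e), s(e, w)} : Finset (Sym2 ℕ)) := by
    rw [Finset.mem_insert, Finset.mem_singleton, not_or]
    exact ⟨fun h => n1 (by rw [← h]; simp), fun h => n2 (by rw [← h]; simp)⟩
  rw [XT.dv_insert m2, XT.dv_insert m1, dv_pair vu, dv_pair ue, dv_pair ew]
  abel

/-- the four vertices of a `K4` -/
theorem k4_four {Y : Finset ℕ} (hY : #Y = 4) {u g : ℕ} (hu : u ∈ Y) (hg : g ∈ Y) (hne : u ≠ g) :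
    ∃ k k', Dist4 u g k k' ∧ Y = {u, g, k, k'} := by
  have h1 : #((Y.erase u).erase g) = 2 := by
    rw [Finset.card_erase_of_mem (Finset.mem_erase.2 ⟨hne.symm, hg⟩), Finset.card_erase_of_mem hu, hY]
  obtain ⟨k, k', hkk, he⟩ := Finset.card_eq_two.1 h1
  have hk : k ∈ (Y.erase u).erase g := by rw [he]; simp
  have hk' : k' ∈ (Y.erase u).erase g := by rw [he]; simp
  rw [Finset.mem_erase, Finset.mem_erase] at hk hk'
  refine ⟨k, k', ⟨hne, hk.2.1.symm, hk'.2.1.symm, hk.1.symm, hk'.1.symm, hkk⟩, ?_⟩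
  ext x
  simp only [Finset.mem_insert, Finset.mem_singleton]
  constructor
  · intro hx
    by_cases h2 : x = u
    · exact Or.inl h2
    by_cases h3 : x = g
    · exact Or.inr (Or.inl h3)
    have h4 : x ∈ (Y.erase u).erase g := Finset.mem_erase.2 ⟨h3, Finset.mem_erase.2 ⟨h2, hx⟩⟩
    rw [he, Finset.mem_insert, Finset.mem_singleton] at h4
    tauto
  · rintro (rfl | rfl | rfl | rfl)
    · exact hu
    · exact hg
    · exact hk.2.2
    · exact hk'.2.2

/-! ### one attach -/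

/-- a term which is not bad -/
def NX (V : Finset ℕ) (pl mi : ℕ → Prop) (g : ℕ) (β : ℕ → ℤ) : Prop :=
  β = 0 ∨ ∃ b, b ≠ g ∧ b ∈ V ∧ ¬ (mi b ∧ ¬ pl b) ∧ β = Pi.single b (-2)

theorem NX.le {V : Finset ℕ} {pl mi : ℕ → Prop} {g : ℕ} {β : ℕ → ℤ} (h : NX V pl mi g β) : ph V pl mi β ≤ 0 := by
  rcases h with rfl | ⟨b, _, hb, hX, rfl⟩
  · rw [ph_zero]
  · rw [ph_one hb]
    by_contra hc
    obtain ⟨h1, h2⟩ := con_neg_two (p := pl b) (m := mi b) (by omega)
    exact hX ⟨h1, h2⟩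

section
variable {X : XD3} {P : ℕ → Finset (Sym2 ℕ) → Prop} {D : Finset (Finset (Sym2 ℕ))} {j : ℕ} {S : Finset ℕ}
  {M : ℕ → Finset (Sym2 ℕ)} {A : Clu3 ℕ → Finset (Sym2 ℕ) → Prop} {F : Clu3 ℕ → Prop} {CL U : List (Clu3 ℕ)}
  {PL : Finset (Sym2 ℕ)} {pl mi : ℕ → Prop}

/-- `K'` and `K` agree outside of the cluster of `e` -/
def Off3 (U : List (Clu3 ℕ)) (K K' : Finset (Sym2 ℕ)) (e : Sym2 ℕ) : Prop :=
  ∀ f, f ≠ e → (∀ c ∈ U, e ∈ c.edges → f ∉ c.edges) → (f ∈ K' ↔ f ∈ K)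

theorem PW3.stepc (h : PW3 X P D j S M A CL U PL pl mi) {K : Finset (Sym2 ℕ)} (hK : AU3 A U PL K) {e : Sym2 ℕ}
    {c : Clu3 ℕ} (hc : c ∈ U) (he : e ∈ c.edges) {K' : Finset (Sym2 ℕ)} (hs : K' ⊆ c.edges) (hA : A c K') :
    ∃ K2, AU3 A U PL K2 ∧ Off3 U K K2 e ∧ dv K2 = dv K - dv (K ∩ c.edges) + dv K' := by
  obtain ⟨h1, h2⟩ := h.rep hc hK.1 (fun c' hc' _ => hK.2 c' hc') hs hA
  refine ⟨_, h1, fun f _ hf => ?_, h2⟩
  have h3 := hf c hc he
  rw [Finset.mem_union, Finset.mem_sdiff]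
  constructor
  · rintro (h4 | h4)
    · exact h4.1
    · exact absurd (hs h4) h3
  · exact fun h4 => Or.inl ⟨h4, h3⟩

theorem PW3.stepp (h : PW3 X P D j S M A CL U PL pl mi) {K : Finset (Sym2 ℕ)} (hK : AU3 A U PL K) {u g : ℕ}
    (he : s(u, g) ∈ PL) (hn : s(u, g) ∉ K) :
    ∃ K2, AU3 A U PL K2 ∧ Off3 U K K2 s(u, g) ∧ dv K2 = dv K + (Pi.single u 1 + Pi.single g 1) := by
  refine ⟨insert s(u, g) K, h.addb hK (Or.inl he), fun f hf _ => ?_, ?_⟩
  · rw [Finset.mem_insert]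
    exact ⟨fun h1 => h1.resolve_left hf, Or.inr⟩
  · rw [XT.dv_insert hn, dv_pair (h.ne (Finset.mem_union_right _ he))]

/-- **one attach in a cluster** -/
theorem PW3.att1 (h : PW3 X P D j S M (Fr3 D F) CL U PL pl mi) {c : Clu3 ℕ} (hc : c ∈ U) {K : Finset (Sym2 ℕ)}
    (hKc : K ⊆ c.edges) (hKa : Acap D K) (hF : F c ↔ Hb c ∧ NSh K) {u g : ℕ} (he : s(u, g) ∈ c.edges)
    (iso : ∀ a, s(u, a) ∉ K) (hS : g ∈ S) (hT : g ∈ X.T) (hM : M2 (M g)) (h1 : dg (M g) g ≤ 1)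
    (hO : ∀ c' ∈ U, Fr3 D F c' (M g ∩ c'.edges)) :
    ∃ K' ⊆ c.edges, Fr3 D F c K' ∧ ∃ t : ℕ → ℤ, dv K' = dv K + (Pi.single u 1 + t) ∧
      (t = Pi.single g 1 ∨ (dg K g = 2 ∧ ∃ β, NX X.V2 pl mi g β ∧ t = -Pi.single g 1 + β)) := by
  have hval := h.val hc
  have hug : u ≠ g := h.ne (h.cW hc he)
  have hn : s(u, g) ∉ K := iso g
  have iso' : ∀ a, s(a, u) ∉ K := fun a h => iso a (by rwa [Sym2.eq_swap])
  have hadd : ∀ hf : F c ∨ dg K g ≤ 1, Fr3 D F c (insert s(u, g) K) := fun hf =>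
    fr3_ins h.ish hug (Fr3_of (fun g1 => (hF.1 g1).2) fun _ => hKa) (fun a ha => absurd ha (iso a)) hf
  have hdone : (F c ∨ dg K g ≤ 1) → ∃ K' ⊆ c.edges, Fr3 D F c K' ∧ ∃ t : ℕ → ℤ, dv K' = dv K + (Pi.single u 1 + t) ∧
      (t = Pi.single g 1 ∨ (dg K g = 2 ∧ ∃ β, NX X.V2 pl mi g β ∧ t = -Pi.single g 1 + β)) := by
    intro hf
    refine ⟨_, Finset.insert_subset he hKc, hadd hf, Pi.single g 1, ?_, Or.inl rfl⟩
    rw [XT.dv_insert hn, dv_pair hug]
  by_cases hfc : F c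
  · exact hdone (Or.inl hfc)
  by_cases hdg : dg K g ≤ 1
  · exact hdone (Or.inr hdg)
  have hdg2 : dg K g = 2 := by have := hKa.1.le g; omega
  rcases k4_or_hb c with ⟨Y, rfl⟩ | hb
  · -- a `K4`
    have hY : #Y = 4 := hval
    rw [mem3_k4] at he
    obtain ⟨k, k', hd, hYe⟩ := k4_four hY he.1 he.2.1 hug
    obtain ⟨n1, n2, n3, n4, n5, n6⟩ := id hd
    have hmem : ∀ e ∈ K, e = s(g, k) ∨ e = s(g, k') ∨ e = s(k, k') := by
      intro e hab'
      have h2 := hKc hab'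
      induction e using Sym2.inductionOn with
      | hf a b =>
        rw [mem3_k4, hYe] at h2
        obtain ⟨ha, hb, hab⟩ := h2
        have ha' : a ≠ u := fun h5 => iso b (h5 ▸ hab')
        have hb' : b ≠ u := fun h5 => iso' a (h5 ▸ hab')
        simp only [Finset.mem_insert, Finset.mem_singleton] at ha hb
        rcases ha with rfl | rfl | rfl | rfl
        · exact absurd rfl ha'
        · rcases hb with rfl | rfl | rfl | rfl
          · exact absurd rfl hb'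
          · exact absurd rfl hab
          · exact Or.inl rfl
          · exact Or.inr (Or.inl rfl)
        · rcases hb with rfl | rfl | rfl | rfl
          · exact absurd rfl hb'
          · exact Or.inl Sym2.eq_swap
          · exact absurd rfl hab
          · exact Or.inr (Or.inr rfl)
        · rcases hb with rfl | rfl | rfl | rfl
          · exact absurd rfl hb'
          · exact Or.inr (Or.inl Sym2.eq_swap)
          · exact Or.inr (Or.inr Sym2.eq_swap)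
          · exact absurd rfl hab
    have hkk : s(g, k) ∈ K ∧ s(g, k') ∈ K := by
      have h2 : (K.filter fun e => g ∈ e) ⊆ {s(g, k), s(g, k')} := by
        intro e he
        rw [Finset.mem_filter] at he
        rcases hmem e he.1 with rfl | rfl | rfl
        · simp
        · simp
        · exfalso
          rcases Sym2.mem_iff.1 he.2 with h3 | h3
          · exact n4 h3
          · exact n5 h3
      have hne : s(g, k) ≠ s(g, k') := fun h3 => n6 (Sym2.congr_right.1 h3)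
      have h3 : (K.filter fun e => g ∈ e) = {s(g, k), s(g, k')} := by
        refine Finset.eq_of_subset_of_card_le h2 ?_
        rw [Finset.card_insert_of_notMem (by rw [Finset.mem_singleton]; exact hne), Finset.card_singleton]
        have : dg K g = #(K.filter fun e => g ∈ e) := by rw [dg]
        omega
      constructor
      · have : s(g, k) ∈ (K.filter fun e => g ∈ e) := by rw [h3]; simp
        exact (Finset.mem_filter.1 this).1
      · have : s(g, k') ∈ (K.filter fun e => g ∈ e) := by rw [h3]; simp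
        exact (Finset.mem_filter.1 this).1
    have hin : ∀ {a b : ℕ}, a ∈ ({u, g, k, k'} : Finset ℕ) → b ∈ ({u, g, k, k'} : Finset ℕ) → a ≠ b →
        s(a, b) ∈ (Clu3.k4 Y).edges := by
      intro a b ha hb hab
      rw [mem3_k4, hYe]
      exact ⟨ha, hb, hab⟩
    by_cases hkk' : s(k, k') ∈ K
    · -- triangle `g k k'` -> path `u k k' g`
      have hKe : K = tri g k k' := by
        ext e
        simp only [tri, Finset.mem_insert, Finset.mem_singleton]
        constructor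
        · intro he
          rcases hmem e he with rfl | rfl | rfl
          · exact Or.inl rfl
          · exact Or.inr (Or.inr Sym2.eq_swap)
          · exact Or.inr (Or.inl rfl)
        · rintro (rfl | rfl | rfl)
          · exact hkk.1
          · exact hkk'
          · rw [Sym2.eq_swap]; exact hkk.2
      obtain ⟨p1, p2⟩ := pth3_3 h.ish (F := F) (c := Clu3.k4 Y) (v := u) (u := k) (e := k') (w := g)
        (by simp [List.nodup_cons, n1, n2, n3, n4.symm, n5.symm, n6])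
      refine ⟨_, ?_, p1, -Pi.single g 1 + 0, ?_, Or.inr ⟨hdg2, 0, Or.inl rfl, rfl⟩⟩
      · intro e he
        simp only [Finset.mem_insert, Finset.mem_singleton] at he
        rcases he with rfl | rfl | rfl
        · exact hin (by simp) (by simp) n2
        · exact hin (by simp) (by simp) n6
        · exact hin (by simp) (by simp) n5.symm
      · rw [p2, hKe, dv_tri ⟨n4, n5, n6⟩]
        funext v
        simp only [Pi.add_apply, Pi.neg_apply, Pi.zero_apply, sgl, ev_apply]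
        split_ifs <;> ring
    · -- `gk, gk'` -> `gk, uk'`
      have hKe : K = {s(g, k), s(g, k')} := by
        ext e
        simp only [Finset.mem_insert, Finset.mem_singleton]
        constructor
        · intro he
          rcases hmem e he with rfl | rfl | rfl
          · exact Or.inl rfl
          · exact Or.inr rfl
          · exact absurd he hkk'
        · rintro (rfl | rfl)
          · exact hkk.1
          · exact hkk.2
      have hne : s(g, k) ∉ ({s(u, k')} : Finset (Sym2 ℕ)) := by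
        rw [Finset.mem_singleton, Sym2.eq_iff]
        rintro (⟨g1, _⟩ | ⟨g1, _⟩)
        · exact n1 g1.symm
        · exact n5 g1
      have hne2 : s(g, k) ∉ ({s(g, k')} : Finset (Sym2 ℕ)) := by
        rw [Finset.mem_singleton]
        exact fun h3 => n6 (Sym2.congr_right.1 h3)
      have k1 : Fr3 D F (Clu3.k4 Y) ({s(u, k')} : Finset (Sym2 ℕ)) := by
        refine fr3_nsh h.ish (nsh_small (by simp)) fun _ => ⟨?_, fun x => (dg_single_le x).trans (by norm_num)⟩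
        intro f hf; rw [Finset.mem_singleton.1 hf]; simpa using n3
      have k2 : Fr3 D F (Clu3.k4 Y) ({s(g, k), s(u, k')} : Finset (Sym2 ℕ)) := by
        refine fr3_ins h.ish n4 k1 (fun a ha => ?_) (Or.inr (dg_single_le k))
        exfalso
        rw [Finset.mem_singleton, Sym2.eq_iff] at ha
        rcases ha with ⟨g1, _⟩ | ⟨g1, _⟩
        · exact n1 g1.symm
        · exact n5 g1
      refine ⟨{s(g, k), s(u, k')}, ?_, k2, -Pi.single g 1 + 0, ?_, Or.inr ⟨hdg2, 0, Or.inl rfl, rfl⟩⟩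
      · intro e he
        simp only [Finset.mem_insert, Finset.mem_singleton] at he
        rcases he with rfl | rfl
        · exact hin (by simp) (by simp) n4
        · exact hin (by simp) (by simp) n3
      · rw [XT.dv_insert hne, dv_pair n3, dv_pair n4, hKe, XT.dv_insert hne2, dv_pair n4, dv_pair n5]
        funext v
        simp only [Pi.add_apply, Pi.neg_apply, Pi.zero_apply, sgl]
        split_ifs <;> ring
  · -- a cluster with two centres
    have hns : ¬ NSh K := fun h2 => hfc (hF.2 ⟨hb, h2⟩)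
    have hKs : IsSh K := by
      unfold NSh at hns
      push Not at hns
      obtain ⟨Z', h2, h3⟩ := hns
      have h4 := inter_eq3 hval h2 (h3.trans hKc) hKa.1 h3
      rw [Finset.inter_eq_left.2 hKc] at h4
      rw [h4]; exact h2
    obtain ⟨r, Lf, a, hH, hu, d1, d2, d3, ha, hau, hsh⟩ := hub_sh hval hb hKs hKc he iso
    have hur : u ≠ r := fun e => d3 (e ▸ hu)
    have hga : g ≠ a := fun e => d2 (e ▸ ha)
    have har : a ≠ r := fun e => d3 (e ▸ ha)
    have mv : ∀ a ∈ Lf, a ≠ u → g ≠ a → a ≠ r → ({s(g, a), s(a, r), s(r, u)} : Finset (Sym2 ℕ)) ⊆ c.edges ∧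
        Fr3 D F c ({s(g, a), s(a, r), s(r, u)} : Finset (Sym2 ℕ)) ∧
        dv ({s(g, a), s(a, r), s(r, u)} : Finset (Sym2 ℕ)) = Pi.single g 1 + (Pi.single a 1 + Pi.single a 1) +
          (Pi.single r 1 + Pi.single r 1) + Pi.single u 1 := by
      intro a ha hau hga har
      obtain ⟨p1, p2⟩ := pth3_3 h.ish (F := F) (c := c) (v := g) (u := a) (e := r) (w := u)
        (by simp [List.nodup_cons, hga, d1, hug.symm, har, hau, hur.symm])
      refine ⟨?_, p1, p2⟩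
      intro e he
      simp only [Finset.mem_insert, Finset.mem_singleton] at he
      rcases he with rfl | rfl | rfl
      · exact (hH.mem ha).1
      · rw [Sym2.eq_swap]; exact (hH.mem ha).2
      · exact (hH.mem hu).2
    rcases hsh with hsh | ⟨b, hb', hbu, hab, hsh⟩
    · obtain ⟨m1, m2, m3⟩ := mv a ha hau hga har
      refine ⟨_, m1, m2, -Pi.single g 1 + 0, ?_, Or.inr ⟨hdg2, 0, Or.inl rfl, rfl⟩⟩
      rw [m3, hsh, dv_tri ⟨hga, d1, har⟩]
      funext v
      simp only [Pi.add_apply, Pi.neg_apply, Pi.zero_apply, sgl, ev_apply]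
      split_ifs <;> ring
    · have hgb : g ≠ b := fun e => d2 (e ▸ hb')
      have hbr : b ≠ r := fun e => d3 (e ▸ hb')
      have h4 : Dist4 g a r b := ⟨hga, d1, hgb, har, hab, hbr.symm⟩
      have hnD : TFC.sq g a r b ∉ D := by
        intro h5
        exact hKa.2 _ h5 (by rw [hsh])
      have hvx := h.vx hH hc (fun K' _ h6 => by rw [Fr3_neg hfc]; exact h6) (fun c' hc' _ => hO c' hc') hS hT hM h1
        ha hb' hab hnD
      have hva : a ∈ X.V2 := h.v2 (h.cW hc (hH.mem ha).1) (by simp)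
      have hvb : b ∈ X.V2 := h.v2 (h.cW hc (hH.mem hb').1) (by simp)
      by_cases hX : mi b ∧ ¬ pl b
      · -- drop `a`
        have hXa : ¬ (mi a ∧ ¬ pl a) := fun h6 => hvx ⟨h6, hX⟩
        obtain ⟨m1, m2, m3⟩ := mv b hb' hbu hgb hbr
        refine ⟨_, m1, m2, -Pi.single g 1 + Pi.single a (-2), ?_,
          Or.inr ⟨hdg2, _, Or.inr ⟨a, hga.symm, hva, hXa, rfl⟩, rfl⟩⟩
        rw [m3, hsh, dv_sq h4]
        funext v
        simp only [Pi.add_apply, Pi.neg_apply, sgl, ev_apply]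
        split_ifs <;> ring
      · obtain ⟨m1, m2, m3⟩ := mv a ha hau hga har
        refine ⟨_, m1, m2, -Pi.single g 1 + Pi.single b (-2), ?_,
          Or.inr ⟨hdg2, _, Or.inr ⟨b, hgb.symm, hvb, hX, rfl⟩, rfl⟩⟩
        rw [m3, hsh, dv_sq h4]
        funext v
        simp only [Pi.add_apply, Pi.neg_apply, sgl, ev_apply]
        split_ifs <;> ring

/-- **two attaches in one cluster** -/
theorem PW3.att2 (h : PW3 X P D j S M (Fr3 D F) CL U PL pl mi) {c : Clu3 ℕ} (hc : c ∈ U) {K : Finset (Sym2 ℕ)}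
    (hKc : K ⊆ c.edges) (hKa : Acap D K) (hF : F c ↔ Hb c ∧ NSh K) {u v g : ℕ} (he : s(u, g) ∈ c.edges)
    (he' : s(v, g) ∈ c.edges) (huv : u ≠ v) (hno : s(u, v) ∉ c.edges)
    (iso : ∀ a, s(u, a) ∉ K) (isov : ∀ a, s(v, a) ∉ K) (hS : g ∈ S) (hT : g ∈ X.T) (hM : M2 (M g))
    (h1 : dg (M g) g ≤ 1) (hO : ∀ c' ∈ U, Fr3 D F c' (M g ∩ c'.edges)) :
    ∃ K' ⊆ c.edges, Fr3 D F c K' ∧ ∃ t : ℕ → ℤ, dv K' = dv K + (Pi.single u 1 + Pi.single v 1 + t) ∧
      (t = Pi.single g 2 ∨ NX X.V2 pl mi g t) := by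
  have hval := h.val hc
  have hug : u ≠ g := h.ne (h.cW hc he)
  have hvg : v ≠ g := h.ne (h.cW hc he')
  have hb : Hb c := by
    rcases k4_or_hb c with ⟨Y, rfl⟩ | hb
    · rw [mem3_k4] at he he' hno
      exact absurd ⟨he.1, he'.1, huv⟩ hno
    · exact hb
  by_cases hfc : F c
  · have h2 : Fr3 D F c (insert s(v, g) K) :=
      fr3_ins h.ish hvg (Fr3_of (fun g1 => (hF.1 g1).2) fun _ => hKa) (fun a ha => absurd ha (isov a)) (Or.inl hfc)
    have h3 : Fr3 D F c (insert s(u, g) (insert s(v, g) K)) := by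
      refine fr3_ins h.ish hug h2 (fun a ha => ?_) (Or.inl hfc)
      rcases Finset.mem_insert.1 ha with ha | ha
      · rw [Sym2.eq_iff] at ha
        rcases ha with ⟨g1, _⟩ | ⟨g1, _⟩
        · exact absurd g1 huv
        · exact absurd g1 hug
      · exact absurd ha (iso a)
    have hn : s(u, g) ∉ insert s(v, g) K := by
      rw [Finset.mem_insert, not_or, Sym2.eq_iff]
      refine ⟨?_, iso g⟩
      rintro (⟨g1, _⟩ | ⟨g1, _⟩)
      · exact huv g1
      · exact hug g1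
    refine ⟨_, Finset.insert_subset he (Finset.insert_subset he' hKc), h3, Pi.single g 2, ?_, Or.inl rfl⟩
    rw [XT.dv_insert hn, dv_pair hug, XT.dv_insert (isov g), dv_pair hvg]
    funext x
    simp only [Pi.add_apply, sgl]
    split_ifs <;> ring
  · have hns : ¬ NSh K := fun h2 => hfc (hF.2 ⟨hb, h2⟩)
    have hKs : IsSh K := by
      unfold NSh at hns
      push Not at hns
      obtain ⟨Z', h2, h3⟩ := hns
      have h4 := inter_eq3 hval h2 (h3.trans hKc) hKa.1 h3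
      rw [Finset.inter_eq_left.2 hKc] at h4
      rw [h4]; exact h2
    obtain ⟨r, Lf, a, hH, hu, d1, d2, d3, ha, hau, hsh⟩ := hub_sh hval hb hKs hKc he iso
    have isov' : ∀ a, s(a, v) ∉ K := fun a h => isov a (by rwa [Sym2.eq_swap])
    have har' : s(a, r) ∈ K := by
      rcases hsh with rfl | ⟨b, _, _, _, rfl⟩
      · simp [tri]
      · simp [TFC.sq]
    have hvr : v ≠ r := fun h5 => isov' a (by rw [h5]; exact har')
    have hva : v ≠ a := fun h5 => isov r (by rw [h5]; exact har')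
    obtain ⟨hvL, _⟩ := hH.nb he' hvg hvr
    have hur : u ≠ r := fun e => d3 (e ▸ hu)
    have hga : g ≠ a := fun e => d2 (e ▸ ha)
    have har : a ≠ r := fun e => d3 (e ▸ ha)
    have mv : ∀ a ∈ Lf, a ≠ u → v ≠ a → g ≠ a → a ≠ r →
        ({s(u, g), s(g, a), s(a, r), s(r, v)} : Finset (Sym2 ℕ)) ⊆ c.edges ∧
        Fr3 D F c ({s(u, g), s(g, a), s(a, r), s(r, v)} : Finset (Sym2 ℕ)) ∧
        dv ({s(u, g), s(g, a), s(a, r), s(r, v)} : Finset (Sym2 ℕ)) = Pi.single u 1 +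
          (Pi.single g 1 + Pi.single g 1) + (Pi.single a 1 + Pi.single a 1) +
          (Pi.single r 1 + Pi.single r 1) + Pi.single v 1 := by
      intro a ha hau hva hga har
      obtain ⟨p1, p2⟩ := pth4_3 h.ish (F := F) (c := c) (v := u) (u := g) (e := a) (w := r) (b := v)
        (by simp [List.nodup_cons, hga, d1, hug, har, hau.symm, hur, huv, hvg.symm, hva.symm, hvr.symm])
      refine ⟨?_, p1, p2⟩
      intro e he2
      simp only [Finset.mem_insert, Finset.mem_singleton] at he2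
      rcases he2 with rfl | rfl | rfl | rfl
      · exact he
      · exact (hH.mem ha).1
      · rw [Sym2.eq_swap]; exact (hH.mem ha).2
      · exact (hH.mem hvL).2
    rcases hsh with hsh | ⟨b, hb', hbu, hab, hsh⟩
    · obtain ⟨m1, m2, m3⟩ := mv a ha hau hva hga har
      refine ⟨_, m1, m2, 0, ?_, Or.inr (Or.inl rfl)⟩
      rw [m3, hsh, dv_tri ⟨hga, d1, har⟩]
      funext x
      simp only [Pi.add_apply, Pi.zero_apply, sgl, ev_apply]
      split_ifs <;> ring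
    · have hgb : g ≠ b := fun e => d2 (e ▸ hb')
      have hbr : b ≠ r := fun e => d3 (e ▸ hb')
      have hvb' : v ≠ b := fun h5 => isov r (by rw [h5, hsh, Sym2.eq_swap]; simp [TFC.sq])
      have h4 : Dist4 g a r b := ⟨hga, d1, hgb, har, hab, hbr.symm⟩
      have hnD : TFC.sq g a r b ∉ D := by
        intro h5
        exact hKa.2 _ h5 (by rw [hsh])
      have hvx := h.vx hH hc (fun K' _ h6 => by rw [Fr3_neg hfc]; exact h6) (fun c' hc' _ => hO c' hc') hS hT hM h1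
        ha hb' hab hnD
      have hva2 : a ∈ X.V2 := h.v2 (h.cW hc (hH.mem ha).1) (by simp)
      have hvb2 : b ∈ X.V2 := h.v2 (h.cW hc (hH.mem hb').1) (by simp)
      by_cases hX : mi b ∧ ¬ pl b
      · -- drop `a`
        have hXa : ¬ (mi a ∧ ¬ pl a) := fun h6 => hvx ⟨h6, hX⟩
        obtain ⟨m1, m2, m3⟩ := mv b hb' hbu hvb' hgb hbr
        refine ⟨_, m1, m2, Pi.single a (-2), ?_, Or.inr (Or.inr ⟨a, hga.symm, hva2, hXa, rfl⟩)⟩
        rw [m3, hsh, dv_sq h4]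
        funext x
        simp only [Pi.add_apply, sgl, ev_apply]
        split_ifs <;> ring
      · obtain ⟨m1, m2, m3⟩ := mv a ha hau hva hga har
        refine ⟨_, m1, m2, Pi.single b (-2), ?_, Or.inr (Or.inr ⟨b, hgb.symm, hvb2, hX, rfl⟩)⟩
        rw [m3, hsh, dv_sq h4]
        funext x
        simp only [Pi.add_apply, sgl, ev_apply]
        split_ifs <;> ring

/-- **LEMMA K** -/
theorem WA3.lemK {m : ℕ} (h : WA3 X P D j m S M CL U PL) {Z : Finset (Sym2 ℕ)} (hZ : Z ∈ D) {c : Clu3 ℕ}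
    (hc : c ∈ U) (hZc : Z ⊆ c.edges) {u v g : ℕ} (he : s(u, v) ∈ Z) (hg : ∀ e ∈ Z, g ∉ e) (hS : g ∈ S)
    (hT : g ∈ X.T) (hu : s(u, g) ∈ X.E) (hv : s(v, g) ∈ X.E) : s(u, g) ∈ c.edges ∧ s(v, g) ∈ c.edges := by
  by_contra hcon
  -- the frame
  obtain ⟨_, _, h0, _⟩ := h.fr (fun _ => False) fun _ h => h.elim
  obtain ⟨L, hL⟩ := h0.wt hZ
  obtain ⟨F, hFdef⟩ : ∃ F : Clu3 ℕ → Prop, F = fun c => Hb c ∧ NSh (L ∩ c.edges) := ⟨_, rfl⟩
  have hFi : ∀ c', F c' ↔ Hb c' ∧ NSh (L ∩ c'.edges) := fun c' => by rw [hFdef]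
  obtain ⟨pl, mi, h1, hmi⟩ := h.fr F fun c' hf => ((hFi c').1 hf).1
  have hZU : Z ⊆ Ucl3 U := hZc.trans (h1.cU hc)
  obtain ⟨hnc, _, _⟩ := h.ow.nc g hS hT
  have hMd : dg (M g) g ≤ 1 := hnc.one.le
  have hMO : ∀ c' ∈ U, Fr3 D F c' (M g ∩ c'.edges) := fun c' hc' =>
    fr3_near h.ow h.cls (fun c' hf => ((hFi c').1 hf).1) hS hT ((h1.uc c').1 hc').1
  -- the edges
  have hgR : Rch X.E S 3 g := Or.inl (Or.inl (Or.inl hS))
  have huW : s(u, g) ∈ Ucl3 U ∪ PL := h1.rch g hgR _ hu (by simp)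
  have hvW : s(v, g) ∈ Ucl3 U ∪ PL := h1.rch g hgR _ hv (by simp)
  have huv : u ≠ v := h1.ne (h1.cW hc (hZc he))
  have hug : u ≠ g := h1.ne huW
  have hvg : v ≠ g := h1.ne hvW
  obtain ⟨K0, hK0⟩ : ∃ K0, K0 = (L ∩ (Ucl3 U ∪ PL)) \ {s(u, v)} := ⟨_, rfl⟩
  have hA0 : AU3 (Fr3 D F) U PL K0 := by
    rw [hK0]
    exact h1.base hZ hL hc hZc (fun c' _ hf _ => ((hFi c').1 hf).2) (Finset.singleton_subset_iff.2 he) (by simp)
  have hK0L : K0 ⊆ L := by
    rw [hK0]; exact Finset.sdiff_subset.trans Finset.inter_subset_left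
  have hd0 : dv K0 = dv (L ∩ (Ucl3 U ∪ PL)) - (Pi.single u 1 + Pi.single v 1) := by
    rw [hK0, dv_sdiff (Finset.singleton_subset_iff.2 (Finset.mem_inter.2 ⟨hL.sh he, h1.cW hc (hZc he)⟩)),
      dv_pair huv]
  have hK0c : K0 ∩ c.edges ⊆ Z \ {s(u, v)} := by
    intro f hf
    rw [hK0, Finset.mem_inter, Finset.mem_sdiff, Finset.mem_inter] at hf
    rw [Finset.mem_sdiff]
    refine ⟨?_, hf.1.2⟩
    rw [← inter_eq3 (h1.val hc) (h1.ish Z hZ) hZc hL.m2 hL.sh]
    exact Finset.mem_inter.2 ⟨hf.1.1.1, hf.2⟩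
  have hK0o : ∀ c' ∈ U, c' ≠ c → K0 ∩ c'.edges = L ∩ c'.edges := by
    intro c' hc' hne
    ext f
    rw [hK0]
    simp only [Finset.mem_inter, Finset.mem_sdiff, Finset.mem_singleton]
    refine ⟨fun g1 => ⟨g1.1.1.1, g1.2⟩, fun g1 => ⟨⟨⟨g1.1, h1.cW hc' g1.2⟩, ?_⟩, g1.2⟩⟩
    rintro rfl
    exact hne (h1.eqc hc' hc g1.2 (hZc he))
  have hcap : ∀ c' ∈ U, c' ≠ c → Acap D (L ∩ c'.edges) := by
    intro c' hc' hne
    refine ⟨hL.m2.mono Finset.inter_subset_left, fun Z' hZ' hs => ?_⟩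
    have g1 := hL.uni Z' hZ' (hs.trans Finset.inter_subset_left)
    rw [g1] at hs
    exact hne (h1.eqc hc' hc (Finset.mem_inter.1 (hs he)).2 (hZc he))
  -- one attach
  have key : ∀ w : ℕ, (w = u ∨ w = v) → s(w, g) ∈ Ucl3 U ∪ PL → ∀ K, AU3 (Fr3 D F) U PL K →
      (∀ c' ∈ U, s(w, g) ∈ c'.edges → K ∩ c'.edges = K0 ∩ c'.edges) → s(w, g) ∉ K →
      ∃ K2, ∃ t : ℕ → ℤ, AU3 (Fr3 D F) U PL K2 ∧ Off3 U K K2 s(w, g) ∧ dv K2 = dv K + (Pi.single w 1 + t) ∧
        (t = Pi.single g 1 ∨ ∃ c' ∈ U, s(w, g) ∈ c'.edges ∧ dg (L ∩ c'.edges) g = 2 ∧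
          ∃ β, NX X.V2 pl mi g β ∧ t = -Pi.single g 1 + β) := by
    intro w hw hwW K hK hloc hwK
    have hwg : w ≠ g := h1.ne hwW
    have hwZ : ∀ a, s(w, a) ∈ L → s(w, a) ∈ Z := by
      intro a ha
      rcases hw with rfl | rfl
      · exact hL.at h1.ish hZ he (v := w) (by simp) ha (by simp)
      · exact hL.at h1.ish hZ he (v := w) (by simp) ha (by simp)
    rcases Finset.mem_union.1 hwW with h2 | h2
    · obtain ⟨c', hc', hec⟩ := mem_Ucl3.1 h2
      by_cases hcc : c' = c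
      · subst hcc
        have h3 := hloc c' hc' hec
        have h4 : Fr3 D F c' (insert s(g, w) (K ∩ c'.edges)) := by
          refine fr3_ins h1.ish hwg.symm (hK.2 c' hc') (fun a ha => ?_) (Or.inr ?_)
          · exfalso
            rw [h3] at ha
            exact hg _ (Finset.mem_sdiff.1 (hK0c ha)).1 (by simp)
          · rw [h3]
            have h5 := dg_mono hK0c w
            have h6 : dg Z w ≤ 2 := (h1.ish Z hZ).m2.le w
            have h7 : dg (Z \ {s(u, v)}) w + 1 ≤ dg Z w := by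
              refine Nat.succ_le_of_lt (Finset.card_lt_card ⟨Finset.filter_subset_filter _ Finset.sdiff_subset, fun h8 => ?_⟩)
              have h9 : s(u, v) ∈ Z.filter fun e => w ∈ e := by
                rw [Finset.mem_filter]
                rcases hw with rfl | rfl
                · exact ⟨he, by simp⟩
                · exact ⟨he, by simp⟩
              have h10 := h8 h9
              simp at h10
            omega
        rw [Sym2.eq_swap] at h4
        obtain ⟨K2, k1, k2, k3⟩ := h1.stepc hK hc' hec (K' := insert s(w, g) (K ∩ c'.edges))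
          (Finset.insert_subset hec Finset.inter_subset_right) h4
        refine ⟨K2, Pi.single g 1, k1, k2, ?_, Or.inl rfl⟩
        rw [k3, XT.dv_insert (fun h5 => hwK (Finset.mem_inter.1 h5).1), dv_pair hwg]
        abel
      · have h3 := hloc c' hc' hec
        rw [hK0o c' hc' hcc] at h3
        obtain ⟨K', k1, k2, t, k3, k4⟩ := h1.att1 hc' (K := L ∩ c'.edges) Finset.inter_subset_right (hcap c' hc' hcc)
          (hFi c') hec (fun a ha => by
            rw [Finset.mem_inter] at ha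
            exact hcc (h1.eqc hc' hc ha.2 (hZc (hwZ a ha.1)))) hS hT hnc.m2 hMd hMO
        obtain ⟨K2, k5, k6, k7⟩ := h1.stepc hK hc' hec k1 k2
        refine ⟨K2, t, k5, k6, ?_, k4.imp id fun k => ⟨c', hc', hec, k.1, k.2⟩⟩
        rw [k7, h3, k3]
        abel
    · obtain ⟨K2, k1, k2, k3⟩ := h1.stepp hK h2 hwK
      exact ⟨K2, Pi.single g 1, k1, k2, k3, Or.inl rfl⟩
  have huL : s(u, g) ∉ K0 := fun h2 => hg _ (hL.at h1.ish hZ he (v := u) (by simp) (hK0L h2) (by simp)) (by simp)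
  have hvL : s(v, g) ∉ K0 := fun h2 => hg _ (hL.at h1.ish hZ he (v := v) (by simp) (hK0L h2) (by simp)) (by simp)
  have hgV : g ∈ X.V2 := h1.v2 huW (by simp)
  have hg2 : ph X.V2 pl mi (Pi.single g 2) ≤ 0 := by
    rw [ph_one hgV]
    have h2 := hmi g hS hT
    by_cases hp : pl g
    · rw [con_Z hp h2]; norm_num
    · rw [con_X hp h2]; norm_num
  by_cases hsame : ∃ c1 ∈ U, s(u, g) ∈ c1.edges ∧ s(v, g) ∈ c1.edges
  · -- both in the same cluster
    obtain ⟨c1, hc1, hu1, hv1⟩ := hsame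
    have hne : c1 ≠ c := by
      rintro rfl
      exact hcon ⟨hu1, hv1⟩
    have huZ : ∀ w, (w = u ∨ w = v) → ∀ a, s(w, a) ∉ L ∩ c1.edges := by
      intro w hw a ha
      rw [Finset.mem_inter] at ha
      have h2 : s(w, a) ∈ Z := by
        rcases hw with rfl | rfl
        · exact hL.at h1.ish hZ he (v := w) (by simp) ha.1 (by simp)
        · exact hL.at h1.ish hZ he (v := w) (by simp) ha.1 (by simp)
      exact hne (h1.eqc hc1 hc ha.2 (hZc h2))
    obtain ⟨K', k1, k2, t, k3, k4⟩ := h1.att2 hc1 (K := L ∩ c1.edges) Finset.inter_subset_right (hcap c1 hc1 hne)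
      (hFi c1) hu1 hv1 huv (fun h2 => hne (h1.eqc hc1 hc h2 (hZc he))) (huZ u (Or.inl rfl)) (huZ v (Or.inr rfl))
      hS hT hnc.m2 hMd hMO
    obtain ⟨K2, k5, _, k7⟩ := h1.stepc hA0 hc1 hu1 k1 k2
    have h2 := h1.ev hZ hL hc hZc k5 (d := t) (by
      rw [k7, hK0o c1 hc1 hne, k3, hd0]
      abel)
    rcases k4 with rfl | k4
    · omega
    · have := k4.le
      omega
  · -- different clusters (or plain edges)
    have hdis : ∀ c' ∈ U, s(u, g) ∈ c'.edges → s(v, g) ∉ c'.edges := fun c' hc' h2 h3 => hsame ⟨c', hc', h2, h3⟩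
    obtain ⟨K1, t1, k1, k2, k3, k4⟩ := key u (Or.inl rfl) huW K0 hA0 (fun _ _ _ => rfl) huL
    have hloc : ∀ c' ∈ U, s(v, g) ∈ c'.edges → K1 ∩ c'.edges = K0 ∩ c'.edges := by
      intro c' hc' h2
      ext f
      simp only [Finset.mem_inter]
      have h3 : f ∈ c'.edges → (f ∈ K1 ↔ f ∈ K0) := by
        intro hf
        refine k2 f ?_ fun c2 hc2 h4 h5 => ?_
        · rintro rfl
          exact hdis c' hc' hf h2
        · have := h1.eqc hc2 hc' h5 hf
          subst this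
          exact hdis c2 hc2 h4 h2
      exact ⟨fun g1 => ⟨(h3 g1.2).1 g1.1, g1.2⟩, fun g1 => ⟨(h3 g1.2).2 g1.1, g1.2⟩⟩
    have hvK1 : s(v, g) ∉ K1 := by
      rw [k2 s(v, g) ?_ hdis]
      · exact hvL
      · rw [Ne, Sym2.eq_iff]
        rintro (⟨g1, _⟩ | ⟨g1, _⟩)
        · exact huv g1.symm
        · exact hvg g1
    obtain ⟨K2, t2, l1, _, l3, l4⟩ := key v (Or.inr rfl) hvW K1 k1 hloc hvK1
    have h2 := h1.ev hZ hL hc hZc l1 (d := t1 + t2) (by
      rw [l3, k3, hd0]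
      abel)
    rcases k4 with rfl | ⟨c1, hc1, e1, d1, β, hβ, rfl⟩
    · rcases l4 with rfl | ⟨c2, hc2, e2, d2, β', hβ', rfl⟩
      · have e : (Pi.single g 1 + Pi.single g 1 : ℕ → ℤ) = Pi.single g 2 := by
          rw [← Pi.single_add]; norm_num
        rw [e] at h2
        omega
      · rw [add_neg_cancel_left] at h2
        have := hβ'.le
        omega
    · rcases l4 with rfl | ⟨c2, hc2, e2, d2, β', hβ', rfl⟩
      · have e : (-Pi.single g 1 + β + Pi.single g 1 : ℕ → ℤ) = β := by abel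
        rw [e] at h2
        have := hβ.le
        omega
      · have hne : c1 ≠ c2 := by
          rintro rfl
          exact hdis c1 hc1 e1 e2
        have hdj := (h1.djc hc1 hc2 hne).mono (Finset.inter_subset_right (s₁ := L)) (Finset.inter_subset_right (s₁ := L))
        have h3 := XF.dg_union hdj g
        have h4 := dg_mono (Finset.union_subset (Finset.inter_subset_left (s₂ := c1.edges))
          (Finset.inter_subset_left (s₁ := L) (s₂ := c2.edges))) g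
        have h5 := hL.m2.le g
        omega

end

end Pool.Agent.P34

end
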