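import Pool.Agent.PFN.M20

section -- file P34/YM

/-!
# Local moves in one cluster (triangles and squares): tools, attaching an edge
-/

set_option autoImplicit false

namespace Pool.Agent.P34.YM

open Finset Pool.Agent.TFC Pool.Agent.PF4 Pool.Agent.PF4.LD Pool.Agent.PF4.XC Pool.Agent.PF4.XT

/-! ### the form is subadditive -/

theorem con_add (p m : Prop) (a b : ℤ) : con p m (a + b) ≤ con p m a + con p m b := by
  unfold con
  split_ifs <;> omega

theorem ph_le (V : Finset ℕ) (pl mi : ℕ → Prop) (d e : ℕ → ℤ) :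
    ph V pl mi (d + e) ≤ ph V pl mi d + ph V pl mi e := by
  unfold ph
  rw [← sum_add_distrib]
  exact sum_le_sum fun v _ => con_add _ _ _ _

theorem con_notX {p m : Prop} (h : m → p) : con p m (-2) ≤ 0 := by
  unfold con
  split_ifs with h1 h2 h2
  · decide
  · norm_num
  · exact absurd (h h2) h1
  · exact le_rfl

theorem single_ev (v : ℕ) (c : ℤ) : (Pi.single v c : ℕ → ℤ) = c • ev v := by
  funext w
  rw [sgl, Pi.smul_apply, ev_apply]
  split_ifs <;> simp

/-- there is an allowed set in the cluster with the vector of `F` changed by `d`, up to a vector without cost -/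
def Mv (V : Finset ℕ) (pl mi : ℕ → Prop) (c : Clu3 ℕ) (Ac : Finset (Sym2 ℕ) → Prop) (F : Finset (Sym2 ℕ))
    (d : ℕ → ℤ) : Prop := ∃ K ⊆ c.edges, Ac K ∧ ∃ z, ph V pl mi z ≤ 0 ∧ dv K = dv F + d + z

/-! ### the hubs -/

/-- `c` has the hubs `r`, `h` and the leaves `L` -/
structure HB (c : Clu3 ℕ) (r h : ℕ) (L : Finset ℕ) : Prop where
  rh : r ≠ h
  rL : r ∉ L
  hL : h ∉ L
  eq : Hub c r h L

section
variable {c : Clu3 ℕ} {r h : ℕ} {L : Finset ℕ}

theorem HB.symm (H : HB c r h L) : HB c h r L :=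
  ⟨H.rh.symm, H.hL, H.rL, by rcases H.eq with e | e | e | e <;> simp [Hub, e]⟩

/-- the edges of a cluster with two hubs -/
theorem HB.edge (H : HB c r h L) {u v : ℕ} (he : s(u, v) ∈ c.edges) :
    ((u = r ∨ u = h) ∧ v ∈ L) ∨ ((v = r ∨ v = h) ∧ u ∈ L) ∨ ((u = r ∧ v = h) ∨ (u = h ∧ v = r)) := by
  rcases H.eq with e | e | e | e <;> rw [e] at he
  · rw [mem3_k2] at he; tauto
  · rw [mem3_k2] at he; tauto
  · rw [mem3_k11] at he; tauto
  · rw [mem3_k11] at he; tauto

theorem HB.mem (H : HB c r h L) {w : ℕ} (hw : w ∈ L) : s(r, w) ∈ c.edges := by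
  rcases H.eq with e | e | e | e <;> rw [e]
  · exact mem3_k2.2 (Or.inl ⟨Or.inl rfl, hw⟩)
  · exact mem3_k2.2 (Or.inl ⟨Or.inr rfl, hw⟩)
  · exact mem3_k11.2 (Or.inr (Or.inl ⟨Or.inl rfl, hw⟩))
  · exact mem3_k11.2 (Or.inr (Or.inl ⟨Or.inr rfl, hw⟩))

theorem HB.mem' (H : HB c r h L) {w : ℕ} (hw : w ∈ L) : s(h, w) ∈ c.edges := H.symm.mem hw

/-- the hubs are determined -/
theorem HB.uniq (H : HB c r h L) {u v : ℕ} {L' : Finset ℕ} (H' : Hub c u v L') :
    ((u = r ∧ v = h) ∨ (u = h ∧ v = r)) ∧ L' = L := by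
  rcases H.eq with e | e | e | e <;> rcases H' with e' | e' | e' | e' <;> rw [e] at e' <;>
    first
      | (rw [Clu3.k2.injEq] at e'; obtain ⟨h1, h2, h3⟩ := e'; subst h1 h2 h3; simp)
      | (rw [Clu3.k11.injEq] at e'; obtain ⟨h1, h2, h3⟩ := e'; subst h1 h2 h3; simp)
      | exact absurd e' (by simp)

/-- an edge of a cluster with two hubs -/
theorem hb_edge (hc : c.Valid) (h2 : Hb c) {u v : ℕ} (he : s(u, v) ∈ c.edges) :
    (∃ h L, HB c u h L ∧ v ∈ L) ∨ (∃ h L, HB c v h L ∧ u ∈ L) ∨ ∃ L, HB c u v L := by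
  obtain ⟨a, b, L, hk⟩ := h2
  have key : HB c a b L := by
    rcases hk with rfl | rfl
    · obtain ⟨ab, aL, bL, _⟩ : a ≠ b ∧ a ∉ L ∧ b ∉ L ∧ 2 ≤ #L := hc
      exact ⟨ab, aL, bL, Or.inl rfl⟩
    · obtain ⟨ab, aL, bL, _⟩ : a ≠ b ∧ a ∉ L ∧ b ∉ L ∧ 1 ≤ #L := hc
      exact ⟨ab, aL, bL, Or.inr (Or.inr (Or.inl rfl))⟩
  rcases key.edge he with ⟨rfl | rfl, g⟩ | ⟨rfl | rfl, g⟩ | ⟨rfl, rfl⟩ | ⟨rfl, rfl⟩
  · exact Or.inl ⟨b, L, key, g⟩
  · exact Or.inl ⟨a, L, key.symm, g⟩
  · exact Or.inr (Or.inl ⟨b, L, key, g⟩)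
  · exact Or.inr (Or.inl ⟨a, L, key.symm, g⟩)
  · exact Or.inr (Or.inr ⟨L, key⟩)
  · exact Or.inr (Or.inr ⟨L, key.symm⟩)

theorem HB.hb (H : HB c r h L) : Hb c := H.eq.hb

/-- a short cycle in a cluster with two hubs -/
theorem HB.sh (H : HB c r h L) (hc : c.Valid) {Z : Finset (Sym2 ℕ)} (hZ : IsSh Z) (hs : Z ⊆ c.edges) :
    (∃ a b, a ∈ L ∧ b ∈ L ∧ a ≠ b ∧ Z = TFC.sq r a h b) ∨ ∃ a, a ∈ L ∧ Z = tri r h a := by
  have nk : ∀ Y, c ≠ Clu3.k4 Y := by
    rintro Y rfl
    exact Hb.not_k4 H.hb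
  rcases hZ with ⟨x, y, p, h3, rfl⟩ | ⟨x, y, q, p, h4, rfl⟩
  · right
    rcases shape3_tri hc h3 hs with ⟨Y, h1, _⟩ | ⟨L', h1, h2, _⟩ | ⟨L', h1, h2, _⟩ | ⟨L', h1, h2, _⟩
    · exact absurd h1 (nk Y)
    · obtain ⟨⟨rfl, rfl⟩ | ⟨rfl, rfl⟩, rfl⟩ := H.uniq h1.hub
      · exact ⟨p, h2, rfl⟩
      · exact ⟨p, h2, by rw [tri_ref]⟩
    · obtain ⟨⟨rfl, rfl⟩ | ⟨rfl, rfl⟩, rfl⟩ := H.uniq h1.hub
      · exact ⟨x, h2, by rw [tri_rot]⟩
      · exact ⟨x, h2, by rw [tri_rev]⟩
    · obtain ⟨⟨rfl, rfl⟩ | ⟨rfl, rfl⟩, rfl⟩ := H.uniq h1.hub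
      · exact ⟨y, h2, by rw [tri_rot2]⟩
      · exact ⟨y, h2, by rw [tri_ref2]⟩
  · left
    obtain ⟨xy, xq, xp, yq, yp, qp⟩ := h4
    rcases shape3_sq hc ⟨xy, xq, xp, yq, yp, qp⟩ hs with h1 | ⟨L', h1, h2, h3, _⟩ | ⟨L', h1, h2, h3, _⟩
    · exact absurd h1 (nk _)
    · obtain ⟨⟨rfl, rfl⟩ | ⟨rfl, rfl⟩, rfl⟩ := H.uniq h1
      · exact ⟨y, p, h2, h3, yp, rfl⟩
      · exact ⟨p, y, h3, h2, yp.symm, by rw [XT.sq_rot, XT.sq_rot]⟩
    · obtain ⟨⟨rfl, rfl⟩ | ⟨rfl, rfl⟩, rfl⟩ := H.uniq h1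
      · exact ⟨q, x, h3, h2, xq.symm, by rw [XT.sq_rot]⟩
      · exact ⟨x, q, h2, h3, xq, by rw [XT.sq_rot, XT.sq_rot, XT.sq_rot]⟩

/-- a 2-matching in the cluster which contains a short cycle is this cycle -/
theorem HB.short (H : HB c r h L) (hc : c.Valid) {F : Finset (Sym2 ℕ)} (hF : F ⊆ c.edges) (hM : M2 F)
    (hS : ¬ NSh F) : (∃ a b, a ∈ L ∧ b ∈ L ∧ a ≠ b ∧ F = TFC.sq r a h b) ∨ ∃ a, a ∈ L ∧ F = tri r h a := by
  unfold NSh at hS
  push Not at hS
  obtain ⟨Z, hZ, hZs⟩ := hS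
  have e1 : F = Z := by
    have h1 := inter_eq3 hc hZ (hZs.trans hF) hM hZs
    rwa [inter_eq_left.2 hF] at h1
  subst e1
  exact H.sh hc hZ hF

end

theorem dg_erase_le {F K : Finset (Sym2 ℕ)} (hF : M2 F) {e : Sym2 ℕ} (he : e ∈ F) (hK : K ⊆ F.erase e) {v : ℕ}
    (hv : v ∈ e) : dg K v ≤ 1 := by
  have h1 : K.filter (fun e => v ∈ e) ⊆ (F.filter fun e => v ∈ e).erase e := by
    intro f hf
    rw [mem_filter] at hf
    have h2 := mem_erase.1 (hK hf.1)
    exact mem_erase.2 ⟨h2.1, mem_filter.2 ⟨h2.2, hf.2⟩⟩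
  have h2 := card_le_card h1
  rw [card_erase_of_mem (mem_filter.2 ⟨he, hv⟩)] at h2
  have h3 := hF.le v
  unfold dg at h3 ⊢
  omega

/-- a pendant edge closes no member of the family -/
theorem free_pend {D : Finset (Finset (Sym2 ℕ))} (hD : ∀ Z ∈ D, IsSh Z) {K : Finset (Sym2 ℕ)}
    (h : ∀ Z ∈ D, ¬ Z ⊆ K) {x t : ℕ} (h0 : ∀ f ∈ K, x ∉ f) : ∀ Z ∈ D, ¬ Z ⊆ insert s(x, t) K := by
  intro Z hZ hs
  by_cases he : s(x, t) ∈ Z
  · obtain ⟨w, hw, hxw⟩ := sh_two (hD Z hZ) he
    rcases mem_insert.1 (hs hxw) with h1 | h1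
    · exact hw (sym2_inj_left h1)
    · exact h0 _ h1 (by simp)
  · exact h Z hZ ((subset_insert_iff_of_notMem he).1 hs)

theorem acap_mono {D : Finset (Finset (Sym2 ℕ))} {K K' : Finset (Sym2 ℕ)} (h : Acap D K) (hK : K' ⊆ K) :
    Acap D K' := ⟨h.1.mono hK, fun Z hZ hs => h.2 Z hZ (hs.trans hK)⟩

theorem acap_pend {D : Finset (Finset (Sym2 ℕ))} (hD : ∀ Z ∈ D, IsSh Z) {K : Finset (Sym2 ℕ)} (hK : Acap D K)
    {x t : ℕ} (hxt : x ≠ t) (h0 : ∀ f ∈ K, x ∉ f) (ht : dg K t ≤ 1) : Acap D (insert s(x, t) K) :=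
  ⟨m2_insert3 hK.1 hxt (by rw [dg_zero3 h0]; norm_num) ht, free_pend hD hK.2 h0⟩

theorem not_mem_of {K : Finset (Sym2 ℕ)} {u v : ℕ} (h : ∀ f ∈ K, u ∉ f) : s(u, v) ∉ K :=
  fun hc => h _ hc (by simp)

/-! ### the part in one cluster -/

/-- the part `F` in the cluster `c`; the family is general -/
structure Lo0 (D : Finset (Finset (Sym2 ℕ))) (c : Clu3 ℕ) (F : Finset (Sym2 ℕ)) (Ac : Finset (Sym2 ℕ) → Prop)
    (V : Finset ℕ) : Prop where
  val : c.Valid
  ish : ∀ Z ∈ D, IsSh Z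
  nl : NoLoop c.edges
  sub : F ⊆ c.edges
  m2 : M2 F
  fr : ∀ Z ∈ D, ¬ Z ⊆ F
  ac : (Ac = NSh ∧ NSh F) ∨ Ac = Acap D
  a4 : ∀ Y, c = Clu3.k4 Y → Ac = Acap D
  vV : ∀ e ∈ c.edges, ∀ v ∈ e, v ∈ V

/-- the family is the uncapped one where `F` has no short cycle and `c` has hubs -/
structure Lo (D : Finset (Finset (Sym2 ℕ))) (c : Clu3 ℕ) (F : Finset (Sym2 ℕ)) (Ac : Finset (Sym2 ℕ) → Prop)
    (V : Finset ℕ) : Prop extends Lo0 D c F Ac V where
  kd : ∀ Y, c = Clu3.k4 Y → ∀ Z, IsSq Z → Z ⊆ c.edges → Z ∈ D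
  a2 : Hb c → NSh F → Ac = NSh

/-- one of the two leaves is not of type X -/
def Vf (pl mi : ℕ → Prop) (c : Clu3 ℕ) (F : Finset (Sym2 ℕ)) (r : ℕ) : Prop :=
  ∀ h L a b, HB c r h L → a ∈ L → b ∈ L → a ≠ b → F = TFC.sq r a h b → (mi a → pl a) ∨ (mi b → pl b)

section
variable {D : Finset (Finset (Sym2 ℕ))} {c : Clu3 ℕ} {F : Finset (Sym2 ℕ)} {Ac : Finset (Sym2 ℕ) → Prop}
  {V : Finset ℕ} {pl mi : ℕ → Prop} {x y r s : ℕ}

theorem Lo0.cap (H : Lo0 D c F Ac V) : Acap D F := ⟨H.m2, H.fr⟩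

/-- attaching a free vertex to a vertex of degree at most one -/
theorem Lo0.att (H : Lo0 D c F Ac V) (hx : ∀ f ∈ F, x ∉ f) (he : s(x, r) ∈ c.edges) (hd : dg F r ≤ 1) :
    Ac (insert s(x, r) F) := by
  rcases H.ac with ⟨h1, h2⟩ | h1 <;> rw [h1]
  · exact nsh_pendant' h2 hx
  · exact acap_pend H.ish H.cap (H.nl.ne he) hx hd

theorem Lo0.att_mv (H : Lo0 D c F Ac V) (hx : ∀ f ∈ F, x ∉ f) (he : s(x, r) ∈ c.edges) (hd : dg F r ≤ 1) :
    Mv V pl mi c Ac F (ev x + ev r) := by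
  refine ⟨_, insert_subset he H.sub, H.att hx he hd, 0, (ph_zero V pl mi).le, ?_⟩
  rw [TFC.dv_insert (H.nl.ne he) (not_mem_of hx)]; module

/-- a vertex of a cluster with hubs: covered hubs -/
theorem Lo0.full (H : Lo0 D c F Ac V) {h : ℕ} {L : Finset ℕ} (hH : HB c r h L) (hS : ¬ NSh F) : ∃ f ∈ F, r ∈ f := by
  rcases hH.short H.val H.sub H.m2 hS with ⟨a, b, _, _, _, hF⟩ | ⟨a, _, hF⟩
  · exact ⟨s(r, a), by rw [hF]; simp [TFC.sq], by simp⟩
  · exact ⟨s(r, h), by rw [hF]; simp [tri], by simp⟩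

/-- a free vertex `x` with an edge `x r` in a cluster with hubs all covered: `r` is a hub and `x` a leaf -/
theorem Lo0.leafOf (H : Lo0 D c F Ac V) (hx : ∀ f ∈ F, x ∉ f) (he : s(x, r) ∈ c.edges) (h2 : Hb c) (hS : ¬ NSh F) :
    ∃ h L, HB c r h L ∧ x ∈ L := by
  rcases hb_edge H.val h2 he with ⟨h, L, hH, hr⟩ | ⟨h, L, hH, hxL⟩ | ⟨L, hH⟩
  · obtain ⟨f, hf, hxf⟩ := H.full hH hS
    exact absurd hxf (hx f hf)
  · exact ⟨h, L, hH, hxL⟩
  · obtain ⟨f, hf, hxf⟩ := H.full hH hS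
    exact absurd hxf (hx f hf)

/-- two edges of the square removed -/
theorem sq_cut {r a h b : ℕ} (rh : r ≠ h) (ra : r ≠ a) (rb : r ≠ b) (hha : h ≠ a) (hb : h ≠ b) (ab : a ≠ b)
    (hF : F = TFC.sq r a h b) :
    dv ((F.erase s(r, b)).erase s(h, b)) = dv F - ev r - ev h + (-2 : ℤ) • ev b ∧
      (∀ f ∈ (F.erase s(r, b)).erase s(h, b), b ∉ f) ∧ dg ((F.erase s(r, b)).erase s(h, b)) r ≤ 1 ∧
      dg ((F.erase s(r, b)).erase s(h, b)) h ≤ 1 ∧ (∀ v, v ≠ r → v ≠ a → v ≠ h → ∀ f ∈ (F.erase s(r, b)).erase s(h, b), v ∉ f) := by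
  have hM : M2 F := by rw [hF]; exact (show IsSh (TFC.sq r a h b) from Or.inr ⟨r, a, h, b, ⟨ra, rh, rb, hha.symm, ab, hb⟩, rfl⟩).m2
  have e1 : s(r, b) ∈ F := by rw [hF]; simp [TFC.sq, Sym2.eq_swap]
  have e2 : s(h, b) ∈ F := by rw [hF]; simp [TFC.sq]
  have e3 : s(h, b) ∈ F.erase s(r, b) := mem_erase.2 ⟨by
    rw [ne_eq, Sym2.eq_iff]
    rintro (⟨g, _⟩ | ⟨g, _⟩)
    · exact rh g.symm
    · exact hb g, e2⟩
  have hsub : (F.erase s(r, b)).erase s(h, b) ⊆ F := (erase_subset _ _).trans (erase_subset _ _)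
  have key : ∀ f ∈ (F.erase s(r, b)).erase s(h, b), f = s(r, a) ∨ f = s(h, a) := by
    intro f hf
    have h1 := mem_erase.1 hf
    have h2 := mem_erase.1 h1.2
    have h3 := h2.2
    rw [hF] at h3
    simp only [TFC.sq, mem_insert, mem_singleton] at h3
    rcases h3 with h3 | h3 | h3 | h3
    · exact Or.inl h3
    · exact Or.inr (by rw [h3, Sym2.eq_swap])
    · exact absurd h3 h1.1
    · exact absurd (by rw [h3, Sym2.eq_swap]) h2.1
  refine ⟨?_, ?_, ?_, ?_, ?_⟩
  · rw [TFC.dv_erase hb e3, TFC.dv_erase rb e1]; module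
  · intro f hf
    rcases key f hf with rfl | rfl
    · simp only [Sym2.mem_iff, not_or]; exact ⟨rb.symm, ab.symm⟩
    · simp only [Sym2.mem_iff, not_or]; exact ⟨hb.symm, ab.symm⟩
  · exact dg_erase_le hM e1 (erase_subset _ _) (by simp)
  · exact dg_erase_le hM e2 (erase_subset_erase _ (erase_subset _ _)) (by simp)
  · intro v v1 v2 v3 f hf
    rcases key f hf with rfl | rfl
    · simp only [Sym2.mem_iff, not_or]; exact ⟨v1, v2⟩
    · simp only [Sym2.mem_iff, not_or]; exact ⟨v3, v2⟩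

theorem ph_leaf {b : ℕ} (hb : b ∈ V) (hnX : mi b → pl b) : ph V pl mi ((-2 : ℤ) • ev b) ≤ 0 := by
  rw [← single_ev, ph_one hb]
  exact con_notX hnX

theorem sq_flip {r a h b : ℕ} : TFC.sq r a h b = TFC.sq r b h a := by
  rw [XT.sq_ref, XT.sq_rot, XT.sq_rot, XT.sq_rot]

/-- **(L1)** attach `x` to `r` -/
theorem Lo.L1 (H : Lo D c F Ac V) (hx : ∀ f ∈ F, x ∉ f) (he : s(x, r) ∈ c.edges) (hv : Vf pl mi c F r) :
    Mv V pl mi c Ac F (ev x + ev r) ∨ (Mv V pl mi c Ac F (ev x - ev r) ∧ dg F r = 2) := by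
  have hxr : x ≠ r := H.nl.ne he
  have z0 : ph V pl mi 0 ≤ 0 := (ph_zero V pl mi).le
  by_cases h1 : dg F r ≤ 1
  · exact Or.inl (H.att_mv hx he h1)
  have h2 : dg F r = 2 := by have := H.m2.le r; omega
  have hswap : Ac = Acap D → ∀ k, s(r, k) ∈ F → s(x, k) ∈ c.edges → Mv V pl mi c Ac F (ev x - ev r) := by
    intro hac k hk hxk'
    have hrk : r ≠ k := H.m2.nl.ne hk
    have hxk : x ≠ k := H.nl.ne hxk'
    have hx' : ∀ f ∈ F.erase s(r, k), x ∉ f := fun f hf => hx f (mem_of_mem_erase hf)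
    refine ⟨insert s(x, k) (F.erase s(r, k)), insert_subset hxk' ((erase_subset _ _).trans H.sub), ?_, 0, z0, ?_⟩
    · rw [hac]
      exact acap_pend H.ish (acap_mono H.cap (erase_subset _ _)) hxk hx'
        (dg_erase_le H.m2 hk Subset.rfl (by simp))
    · rw [TFC.dv_insert hxk (not_mem_of hx'), TFC.dv_erase hrk hk]; module
  rcases k4_or_hb c with ⟨Y, hY⟩ | hb
  · right
    refine ⟨?_, h2⟩
    have hac : Ac = Acap D := H.a4 Y hY
    obtain ⟨k, hk⟩ := exists_nbr (z := F) (v := r) (by omega)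
    refine hswap hac k hk ?_
    have hke := H.sub hk
    have he' := he
    rw [hY, mem3_k4] at hke he' ⊢
    refine ⟨he'.1, hke.2.1, ?_⟩
    rintro rfl
    exact hx _ hk (by simp)
  · by_cases hS : NSh F
    · left
      refine ⟨_, insert_subset he H.sub, ?_, 0, z0, ?_⟩
      · rw [H.a2 hb hS]
        exact nsh_pendant' hS hx
      · rw [TFC.dv_insert hxr (not_mem_of hx)]; module
    · right
      refine ⟨?_, h2⟩
      have hac : Ac = Acap D := by
        rcases H.ac with ⟨_, h4⟩ | h3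
        · exact absurd h4 hS
        · exact h3
      obtain ⟨h, L', hH, hxL⟩ := H.leafOf hx he hb hS
      rcases hH.short H.val H.sub H.m2 hS with ⟨a, b, ha, hb', hab, hF⟩ | ⟨a, ha, hF⟩
      · have key : ∀ a b, a ∈ L' → b ∈ L' → a ≠ b → F = TFC.sq r a h b → (mi b → pl b) →
            Mv V pl mi c Ac F (ev x - ev r) := by
          intro a b ha hb' hab hF hnX
          have ra : r ≠ a := fun e => hH.rL (e ▸ ha)
          have rb : r ≠ b := fun e => hH.rL (e ▸ hb')
          have hha : h ≠ a := fun e => hH.hL (e ▸ ha)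
          have hhb : h ≠ b := fun e => hH.hL (e ▸ hb')
          have hxh : x ≠ h := fun e => hH.hL (e ▸ hxL)
          obtain ⟨c1, _, c3, c4, _⟩ := sq_cut hH.rh ra rb hha hhb hab hF
          have hx' : ∀ f ∈ (F.erase s(r, b)).erase s(h, b), x ∉ f := fun f hf =>
            hx f (mem_of_mem_erase (mem_of_mem_erase hf))
          refine ⟨insert s(x, h) ((F.erase s(r, b)).erase s(h, b)), insert_subset ?_ ?_, ?_, (-2 : ℤ) • ev b, ?_, ?_⟩
          · rw [Sym2.eq_swap]; exact hH.mem' hxL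
          · exact ((erase_subset _ _).trans (erase_subset _ _)).trans H.sub
          · rw [hac]
            exact acap_pend H.ish (acap_mono H.cap ((erase_subset _ _).trans (erase_subset _ _))) hxh hx' c4
          · exact ph_leaf (H.vV s(r, b) (hH.mem hb') b (by simp)) hnX
          · rw [TFC.dv_insert hxh (not_mem_of hx'), c1]; module
        rcases hv h L' a b hH ha hb' hab hF with g | g
        · exact key b a hb' ha hab.symm (by rw [hF, sq_flip]) g
        · exact key a b ha hb' hab hF g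
      · refine hswap hac h ?_ ?_
        · rw [hF]; simp [tri]
        · rw [Sym2.eq_swap]; exact hH.mem' hxL

end

end Pool.Agent.P34.YM

end

section -- file P34/YM2

/-!
# Local moves in one cluster (triangles and squares): the link edge, two new edges
-/

set_option autoImplicit false

namespace Pool.Agent.P34.YM

open Finset Pool.Agent.TFC Pool.Agent.PF4 Pool.Agent.PF4.LD Pool.Agent.PF4.XC Pool.Agent.PF4.XT

section
variable {D : Finset (Finset (Sym2 ℕ))} {c : Clu3 ℕ} {F : Finset (Sym2 ℕ)} {Ac : Finset (Sym2 ℕ) → Prop}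
  {V : Finset ℕ} {pl mi : ℕ → Prop} {x y r s : ℕ}

/-- the edge `r s` is blocked -/
def Bl (D : Finset (Finset (Sym2 ℕ))) (c : Clu3 ℕ) (F : Finset (Sym2 ℕ)) (r s : ℕ) : Prop :=
  (Hb c ∧ NSh F ∧ ¬ NSh (insert s(r, s) F)) ∨
    ((∃ Y, c = Clu3.k4 Y) ∧ dg F r ≤ 1 ∧ dg F s ≤ 1 ∧ ∃ Z ∈ D, Z ⊆ insert s(r, s) F)

theorem Bl.symm (h : Bl D c F r s) : Bl D c F s r := by
  unfold Bl at h ⊢
  rw [Sym2.eq_swap (a := s)]
  rcases h with h | ⟨h1, h2, h3, h4⟩
  · exact Or.inl h
  · exact Or.inr ⟨h1, h3, h2, h4⟩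

/-- the short cycle which is closed by `r s` -/
theorem Bl.cyc (hD : ∀ Z ∈ D, IsSh Z) (hfr : ∀ Z ∈ D, ¬ Z ⊆ F) (h : Bl D c F r s) :
    ∃ Z, IsSh Z ∧ s(r, s) ∈ Z ∧ Z ⊆ insert s(r, s) F := by
  rcases h with ⟨_, h1, h2⟩ | ⟨_, _, _, Z, hZ, hs⟩
  · unfold NSh at h2
    push Not at h2
    obtain ⟨Z, hZ, hs⟩ := h2
    refine ⟨Z, hZ, ?_, hs⟩
    by_contra hc
    exact h1 Z hZ ((subset_insert_iff_of_notMem hc).1 hs)
  · refine ⟨Z, hD Z hZ, ?_, hs⟩
    by_contra hc
    exact hfr Z hZ ((subset_insert_iff_of_notMem hc).1 hs)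

/-- a blocked edge has covered ends -/
theorem Bl.dgr (hD : ∀ Z ∈ D, IsSh Z) (hfr : ∀ Z ∈ D, ¬ Z ⊆ F) (h : Bl D c F r s) : 1 ≤ dg F r := by
  obtain ⟨Z, hZ, hrs, hs⟩ := h.cyc hD hfr
  obtain ⟨v, hv, hrv⟩ := sh_two hZ hrs
  rcases mem_insert.1 (hs hrv) with h1 | h1
  · exact absurd (sym2_inj_left h1) hv
  · exact dg_pos h1

theorem Bl.dgs (hD : ∀ Z ∈ D, IsSh Z) (hfr : ∀ Z ∈ D, ¬ Z ⊆ F) (h : Bl D c F r s) : 1 ≤ dg F s :=
  h.symm.dgr hD hfr

theorem Lo0.le (H : Lo0 D c F Ac V) (w : ℕ) : dv F w ≤ 2 := by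
  rw [TFC.dv_apply]; exact_mod_cast H.m2.le w

theorem Lo.k4le (H : Lo D c F Ac V) {Y : Finset ℕ} (hc : c = Clu3.k4 Y) : #F ≤ 3 := by
  have hv := H.val
  have hs := H.sub
  have hk := H.kd Y hc
  subst hc
  exact XT.k4_le (D := D) (Y := Y) hv (fun Z h1 h2 => hk Z h1 h2) hs ⟨H.m2, H.fr⟩

/-- **(L2)**, `K4`: `r` has two edges -/
theorem Lo.L2k (H : Lo D c F Ac V) {Y : Finset ℕ} (hc : c = Clu3.k4 Y) (he : s(r, s) ∈ c.edges) (hn : s(r, s) ∉ F)
    (hr : 2 ≤ dg F r) : Mv V pl mi c Ac F (ev s - ev r) := by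
  have z0 : ph V pl mi 0 ≤ 0 := (ph_zero V pl mi).le
  have hrs : r ≠ s := H.nl.ne he
  have h3 := H.k4le hc
  subst hc
  obtain ⟨k, hk⟩ := exists_nbr (z := F) (v := r) (by omega)
  obtain ⟨k', hk'k, hk'⟩ := exists_nbr_ne hr k
  have hrk : r ≠ k := H.m2.nl.ne hk
  have hrk' : r ≠ k' := H.m2.nl.ne hk'
  have hsk : s ≠ k := by rintro rfl; exact hn hk
  have hsk' : s ≠ k' := by rintro rfl; exact hn hk'
  -- the general step
  have key : ∀ k, s(r, k) ∈ F → s ≠ k → s(s, k) ∉ F → dg F s ≤ 1 → Mv V pl mi (Clu3.k4 Y) Ac F (ev s - ev r) := by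
    intro k hk hsk hnk hds
    have hrk : r ≠ k := H.m2.nl.ne hk
    have hke := H.sub hk
    have hske : s(s, k) ∈ (Clu3.k4 Y).edges := mem3_k4.2 ⟨(mem3_k4.1 he).2.1, (mem3_k4.1 hke).2.1, hsk⟩
    have hK : insert s(s, k) (F.erase s(r, k)) ⊆ (Clu3.k4 Y).edges :=
      insert_subset hske ((erase_subset _ _).trans H.sub)
    have hnk' : s(s, k) ∉ F.erase s(r, k) := fun h => hnk (mem_of_mem_erase h)
    have hdv' : dv (insert s(s, k) (F.erase s(r, k))) = dv F + (ev s - ev r) + 0 := by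
      rw [TFC.dv_insert hsk hnk', TFC.dv_erase hrk hk]; module
    refine ⟨_, hK, ?_, 0, z0, hdv'⟩
    rw [H.a4 Y rfl]
    refine ⟨M2.of_dv (H.nl.mono hK) ?_, ?_⟩
    · intro w
      rw [hdv']
      have g1 := H.le w
      simp only [Pi.add_apply, Pi.sub_apply, Pi.zero_apply, ev_apply]
      by_cases e1 : w = s
      · subst e1
        have : dv F w ≤ 1 := by rw [TFC.dv_apply]; exact_mod_cast hds
        rw [if_pos rfl, if_neg hrs.symm]
        linarith
      · rw [if_neg e1]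
        split_ifs <;> linarith
    · intro Z hZ hZs
      have hc1 : #(insert s(s, k) (F.erase s(r, k))) ≤ 3 := by
        rw [card_insert_of_notMem hnk', card_erase_of_mem hk]
        have : 0 < #F := card_pos.2 ⟨_, hk⟩
        omega
      have hsZ : s(s, k) ∈ Z := by
        by_contra hcon
        exact H.fr Z hZ (((subset_insert_iff_of_notMem hcon).1 hZs).trans (erase_subset _ _))
      have hZc := card_le_card hZs
      have hr2 : 2 ≤ #(F.filter fun e => r ∈ e) := hr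
      rcases isSh_first (H.ish Z hZ) hsZ with ⟨w, hd, rfl⟩ | ⟨q, p, hd, rfl⟩
      · -- a triangle: it is the whole set, `r` is not in it
        have hZe : tri s k w = insert s(s, k) (F.erase s(r, k)) :=
          eq_of_subset_of_card_le hZs (by rw [card_tri hd]; exact hc1)
        have hkr : s(r, k') ∉ tri s k w → False := by
          intro h1
          rcases eq_or_ne k k' with h2 | h2
          · obtain ⟨k2, hk2k, hk2⟩ := exists_nbr_ne hr k
            have h5 : s(r, k2) ∈ tri s k w := by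
              rw [hZe]
              exact mem_insert_of_mem (mem_erase.2 ⟨fun h => hk2k (sym2_inj_left h), hk2⟩)
            simp only [tri, mem_insert, mem_singleton, Sym2.eq_iff] at h5
            have hwr : w ≠ r := by
              rintro rfl
              have h6 : s(w, s) ∈ insert s(s, k) (F.erase s(w, k)) := by rw [← hZe]; simp [tri]
              rcases mem_insert.1 h6 with h7 | h7
              · rw [Sym2.eq_swap] at h7
                exact hrk (sym2_inj_left h7)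
              · exact hn (mem_of_mem_erase h7)
            rcases h5 with (⟨h5, _⟩ | ⟨h5, _⟩) | (⟨h5, _⟩ | ⟨h5, _⟩) | (⟨h5, _⟩ | ⟨h5, _⟩)
            · exact hrs h5
            · exact hrk h5
            · exact hrk h5
            · exact hwr h5.symm
            · exact hwr h5.symm
            · exact hrs h5
          · apply h1
            rw [hZe]
            exact mem_insert_of_mem (mem_erase.2 ⟨fun h => h2 (sym2_inj_left h).symm, hk'⟩)
        have hwr : w ≠ r := by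
          rintro rfl
          have h6 : s(w, s) ∈ insert s(s, k) (F.erase s(w, k)) := by rw [← hZe]; simp [tri]
          rcases mem_insert.1 h6 with h7 | h7
          · rw [Sym2.eq_swap] at h7
            exact hrk (sym2_inj_left h7)
          · exact hn (mem_of_mem_erase h7)
        apply hkr
        simp only [tri, mem_insert, mem_singleton, Sym2.eq_iff]
        rintro ((⟨h5, _⟩ | ⟨h5, _⟩) | (⟨h5, _⟩ | ⟨h5, _⟩) | (⟨h5, _⟩ | ⟨h5, _⟩))
        · exact hrs h5
        · exact hrk h5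
        · exact hrk h5
        · exact hwr h5.symm
        · exact hwr h5.symm
        · exact hrs h5
      · rw [card_sqV hd] at hZc
        omega
  by_cases h1 : s(s, k) ∈ F
  · have h2 : s(s, k') ∉ F := by
      intro h2
      -- four edges
      have : ({s(r, k), s(r, k'), s(s, k), s(s, k')} : Finset (Sym2 ℕ)) ⊆ F := by
        intro e he
        simp only [mem_insert, mem_singleton] at he
        rcases he with rfl | rfl | rfl | rfl <;> assumption
      have h5 := card_le_card this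
      have h6 : #({s(r, k), s(r, k'), s(s, k), s(s, k')} : Finset (Sym2 ℕ)) = 4 := by
        rw [card_insert_of_notMem, card_insert_of_notMem, card_insert_of_notMem, card_singleton]
        · rw [mem_singleton]
          intro h; exact hk'k (sym2_inj_left h).symm
        · simp only [mem_insert, mem_singleton, Sym2.eq_iff]
          rintro ((⟨g, _⟩ | ⟨g, _⟩) | (⟨g, _⟩ | ⟨g, _⟩))
          · exact hrs g
          · exact hrk g
          · exact hrs g
          · exact hrk' g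
        · simp only [mem_insert, mem_singleton, Sym2.eq_iff]
          rintro ((⟨_, g⟩ | ⟨g, _⟩) | (⟨g, _⟩ | ⟨g, _⟩) | (⟨g, _⟩ | ⟨g, _⟩))
          · exact hk'k g.symm
          · exact hrk' g
          · exact hrs g
          · exact hrk g
          · exact hrs g
          · exact hrk' g
      omega
    refine key k' hk' hsk' h2 ?_
    by_contra h4
    obtain ⟨w, hwk, hw⟩ := exists_nbr_ne (z := F) (v := s) (by omega) k
    have m1 := mem3_k4.1 (H.sub hw)
    have m2 := mem3_k4.1 (H.sub hk)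
    have m3 := mem3_k4.1 (H.sub hk')
    have hwr : w ≠ r := by rintro rfl; exact hn (by rw [Sym2.eq_swap]; exact hw)
    have hwk' : w ≠ k' := by rintro rfl; exact h2 hw
    have h5 : ({s, w, r, k, k'} : Finset ℕ) ⊆ Y := by
      intro v hv
      simp only [mem_insert, mem_singleton] at hv
      rcases hv with rfl | rfl | rfl | rfl | rfl
      · exact m1.1
      · exact m1.2.1
      · exact m2.1
      · exact m2.2.1
      · exact m3.2.1
    have h6 := card_le_card h5
    have h7 : #({s, w, r, k, k'} : Finset ℕ) = 5 := by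
      rw [card_insert_of_notMem, card_insert_of_notMem, card_insert_of_notMem, card_insert_of_notMem, card_singleton]
      · rw [mem_singleton]; exact Ne.symm hk'k
      · simp only [mem_insert, mem_singleton, not_or]; exact ⟨hrk, hrk'⟩
      · simp only [mem_insert, mem_singleton, not_or]; exact ⟨hwr, hwk, hwk'⟩
      · simp only [mem_insert, mem_singleton, not_or]; exact ⟨m1.2.2, hrs.symm, hsk, hsk'⟩
    have h8 : #Y = 4 := H.val
    omega
  · refine key k hk hsk h1 ?_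
    by_contra h4
    obtain ⟨w, hwk, hw⟩ := exists_nbr_ne (z := F) (v := s) (by omega) k'
    have m1 := mem3_k4.1 (H.sub hw)
    have m2 := mem3_k4.1 (H.sub hk)
    have m3 := mem3_k4.1 (H.sub hk')
    have hwr : w ≠ r := by rintro rfl; exact hn (by rw [Sym2.eq_swap]; exact hw)
    have hwk' : w ≠ k := by rintro rfl; exact h1 hw
    have h5 : ({s, w, r, k, k'} : Finset ℕ) ⊆ Y := by
      intro v hv
      simp only [mem_insert, mem_singleton] at hv
      rcases hv with rfl | rfl | rfl | rfl | rfl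
      · exact m1.1
      · exact m1.2.1
      · exact m2.1
      · exact m2.2.1
      · exact m3.2.1
    have h6 := card_le_card h5
    have h7 : #({s, w, r, k, k'} : Finset ℕ) = 5 := by
      rw [card_insert_of_notMem, card_insert_of_notMem, card_insert_of_notMem, card_insert_of_notMem, card_singleton]
      · rw [mem_singleton]; exact Ne.symm hk'k
      · simp only [mem_insert, mem_singleton, not_or]; exact ⟨hrk, hrk'⟩
      · simp only [mem_insert, mem_singleton, not_or]; exact ⟨hwr, hwk', hwk⟩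
      · simp only [mem_insert, mem_singleton, not_or]; exact ⟨m1.2.2, hrs.symm, hsk, hsk'⟩
    have h8 : #Y = 4 := H.val
    omega

theorem Lo.hac (H : Lo D c F Ac V) (hS : ¬ NSh F) : Ac = Acap D := by
  rcases H.ac with ⟨_, h4⟩ | h3
  · exact absurd h4 hS
  · exact h3

/-- the link at a hub `r`, the other end is a leaf, the hubs are full -/
theorem Lo.L2h (H : Lo D c F Ac V) (hn : s(r, s) ∉ F) {h : ℕ} {L : Finset ℕ} (hH : HB c r h L) (hsL : s ∈ L)
    (hS : ¬ NSh F) (hvr : Vf pl mi c F r) : Mv V pl mi c Ac F (ev s - ev r) ∧ 1 ≤ dg F r := by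
  have z0 : ph V pl mi 0 ≤ 0 := (ph_zero V pl mi).le
  have hac := H.hac hS
  have hsh : s ≠ h := fun e => hH.hL (e ▸ hsL)
  have hsr : s ≠ r := fun e => hH.rL (e ▸ hsL)
  have hsh' : s(s, h) ∈ c.edges := by rw [Sym2.eq_swap]; exact hH.mem' hsL
  rcases hH.short H.val H.sub H.m2 hS with ⟨a, b, ha, hb', hab, hF⟩ | ⟨a, ha, hF⟩
  · have key : ∀ a b, a ∈ L → b ∈ L → a ≠ b → F = TFC.sq r a h b → (mi b → pl b) →
        Mv V pl mi c Ac F (ev s - ev r) := by
      intro a b ha hb' hab hF hnX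
      have ra : r ≠ a := fun e => hH.rL (e ▸ ha)
      have rb : r ≠ b := fun e => hH.rL (e ▸ hb')
      have hha : h ≠ a := fun e => hH.hL (e ▸ ha)
      have hhb : h ≠ b := fun e => hH.hL (e ▸ hb')
      have hsa : s ≠ a := by
        rintro rfl
        exact hn (by rw [hF]; simp [TFC.sq])
      obtain ⟨c1, _, _, c4, c5⟩ := sq_cut hH.rh ra rb hha hhb hab hF
      have hx' := c5 s hsr hsa hsh
      refine ⟨insert s(s, h) ((F.erase s(r, b)).erase s(h, b)), insert_subset hsh' ?_, ?_, (-2 : ℤ) • ev b, ?_, ?_⟩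
      · exact ((erase_subset _ _).trans (erase_subset _ _)).trans H.sub
      · rw [hac]
        exact acap_pend H.ish (acap_mono H.cap ((erase_subset _ _).trans (erase_subset _ _))) hsh hx' c4
      · exact ph_leaf (H.vV s(r, b) (hH.mem hb') b (by simp)) hnX
      · rw [TFC.dv_insert hsh (not_mem_of hx'), c1]; module
    refine ⟨?_, dg_pos (a := a) (by rw [hF]; simp [TFC.sq])⟩
    rcases hvr h L a b hH ha hb' hab hF with g | g
    · exact key b a hb' ha hab.symm (by rw [hF, sq_flip]) g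
    · exact key a b ha hb' hab hF g
  · have hk : s(r, h) ∈ F := by rw [hF]; simp [tri]
    have hsa : s ≠ a := by
      rintro rfl
      exact hn (by rw [hF]; simp [tri, Sym2.eq_swap])
    have hx' : ∀ f ∈ F, s ∉ f := by
      intro f hf
      rw [hF] at hf
      simp only [tri, mem_insert, mem_singleton] at hf
      rcases hf with rfl | rfl | rfl
      · simp only [Sym2.mem_iff, not_or]; exact ⟨hsr, hsh⟩
      · simp only [Sym2.mem_iff, not_or]; exact ⟨hsh, hsa⟩
      · simp only [Sym2.mem_iff, not_or]; exact ⟨hsa, hsr⟩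
    have hx2 : ∀ f ∈ F.erase s(r, h), s ∉ f := fun f hf => hx' f (mem_of_mem_erase hf)
    refine ⟨⟨insert s(s, h) (F.erase s(r, h)), insert_subset hsh' ((erase_subset _ _).trans H.sub), ?_, 0, z0, ?_⟩,
      dg_pos hk⟩
    · rw [hac]
      exact acap_pend H.ish (acap_mono H.cap (erase_subset _ _)) hsh hx2 (dg_erase_le H.m2 hk Subset.rfl (by simp))
    · rw [TFC.dv_insert hsh (not_mem_of hx2), TFC.dv_erase hH.rh hk]; module

/-- the link edge between the two full hubs -/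
theorem Lo.L2c (H : Lo D c F Ac V) (hn : s(r, s) ∉ F) {L : Finset ℕ} (hH : HB c r s L) (hS : ¬ NSh F)
    (hvr : Vf pl mi c F r) :
    Mv V pl mi c Ac F (-ev r - ev s) ∧ 2 ≤ dg F r ∧ 2 ≤ dg F s := by
  have hac := H.hac hS
  rcases hH.short H.val H.sub H.m2 hS with ⟨a, b, ha, hb', hab, hF⟩ | ⟨a, ha, hF⟩
  · have key : ∀ a b, a ∈ L → b ∈ L → a ≠ b → F = TFC.sq r a s b → (mi b → pl b) →
        Mv V pl mi c Ac F (-ev r - ev s) := by
      intro a b ha hb' hab hF hnX
      have ra : r ≠ a := fun e => hH.rL (e ▸ ha)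
      have rb : r ≠ b := fun e => hH.rL (e ▸ hb')
      have hha : s ≠ a := fun e => hH.hL (e ▸ ha)
      have hhb : s ≠ b := fun e => hH.hL (e ▸ hb')
      obtain ⟨c1, _, _, _, _⟩ := sq_cut hH.rh ra rb hha hhb hab hF
      refine ⟨(F.erase s(r, b)).erase s(s, b), ?_, ?_, (-2 : ℤ) • ev b, ?_, ?_⟩
      · exact ((erase_subset _ _).trans (erase_subset _ _)).trans H.sub
      · rw [hac]
        exact acap_mono H.cap ((erase_subset _ _).trans (erase_subset _ _))
      · exact ph_leaf (H.vV s(r, b) (hH.mem hb') b (by simp)) hnX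
      · rw [c1]; module
    refine ⟨?_, dg_ge_two (a := a) (b := b) (by rw [hF]; simp [TFC.sq]) (by rw [hF]; simp [TFC.sq, Sym2.eq_swap]) hab,
      dg_ge_two (a := a) (b := b) (by rw [hF]; simp [TFC.sq, Sym2.eq_swap]) (by rw [hF]; simp [TFC.sq]) hab⟩
    rcases hvr s L a b hH ha hb' hab hF with g | g
    · exact key b a hb' ha hab.symm (by rw [hF, sq_flip]) g
    · exact key a b ha hb' hab hF g
  · exact absurd (by rw [hF]; simp [tri]) hn

/-- **(L2)** the link edge `r s` -/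
theorem Lo.L2 (H : Lo D c F Ac V) (he : s(r, s) ∈ c.edges) (hn : s(r, s) ∉ F) (hvr : Vf pl mi c F r)
    (hvs : Vf pl mi c F s) :
    Mv V pl mi c Ac F (ev r + ev s) ∨ (Mv V pl mi c Ac F (ev r - ev s) ∧ 1 ≤ dg F s) ∨
      (Mv V pl mi c Ac F (ev s - ev r) ∧ 1 ≤ dg F r) ∨
      (Mv V pl mi c Ac F (-ev r - ev s) ∧ 2 ≤ dg F r ∧ 2 ≤ dg F s) ∨ Bl D c F r s := by
  have hrs : r ≠ s := H.nl.ne he
  have hins : insert s(r, s) F ⊆ c.edges := insert_subset he H.sub
  have hdv : dv (insert s(r, s) F) = dv F + (ev r + ev s) + 0 := by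
    rw [TFC.dv_insert hrs hn]; module
  have z0 : ph V pl mi 0 ≤ 0 := (ph_zero V pl mi).le
  have hn' : s(s, r) ∉ F := by rw [Sym2.eq_swap]; exact hn
  rcases k4_or_hb c with ⟨Y, hY⟩ | hk2
  · by_cases hr : 2 ≤ dg F r
    · exact Or.inr (Or.inr (Or.inl ⟨H.L2k hY he hn hr, by omega⟩))
    by_cases hs : 2 ≤ dg F s
    · exact Or.inr (Or.inl ⟨H.L2k hY (by rw [Sym2.eq_swap]; exact he) hn' hs, by omega⟩)
    by_cases hf : ∀ Z ∈ D, ¬ Z ⊆ insert s(r, s) F
    · left
      refine ⟨_, hins, ?_, 0, z0, hdv⟩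
      rw [H.a4 Y hY]
      exact ⟨m2_insert3 H.m2 hrs (by omega) (by omega), hf⟩
    · push Not at hf
      obtain ⟨Z, hZ, hZs⟩ := hf
      exact Or.inr (Or.inr (Or.inr (Or.inr (Or.inr ⟨⟨Y, hY⟩, by omega, by omega, Z, hZ, hZs⟩))))
  · by_cases hS : NSh F
    · by_cases hS' : NSh (insert s(r, s) F)
      · left
        refine ⟨_, hins, ?_, 0, z0, hdv⟩
        rw [H.a2 hk2 hS]
        exact hS'
      · exact Or.inr (Or.inr (Or.inr (Or.inr (Or.inl ⟨hk2, hS, hS'⟩))))
    · rcases hb_edge H.val hk2 he with ⟨h, L, hH, hsL⟩ | ⟨h, L, hH, hrL⟩ | ⟨L, hH⟩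
      · exact Or.inr (Or.inr (Or.inl (H.L2h hn hH hsL hS hvr)))
      · exact Or.inr (Or.inl (H.L2h hn' hH hrL hS hvs))
      · exact Or.inr (Or.inr (Or.inr (Or.inl (H.L2c hn hH hS hvr))))

/-- **(L3)** the edges `x r` and `r s` in one cluster -/
theorem Lo.L3 (H : Lo D c F Ac V) (hx : ∀ f ∈ F, x ∉ f) (he : s(x, r) ∈ c.edges) (he' : s(r, s) ∈ c.edges)
    (hn : s(r, s) ∉ F) (hxs : x ≠ s) (hvr : Vf pl mi c F r) :
    Mv V pl mi c Ac F (ev x + ev r + (ev r + ev s)) ∨ Mv V pl mi c Ac F (ev x + ev s) ∨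
      (Mv V pl mi c Ac F (ev x - ev s) ∧ 2 ≤ dg F s) ∨ Bl D c F r s := by
  have hrs : r ≠ s := H.nl.ne he'
  have hxr : x ≠ r := H.nl.ne he
  have z0 : ph V pl mi 0 ≤ 0 := (ph_zero V pl mi).le
  rcases k4_or_hb c with ⟨Y, hY⟩ | hk2
  · right; left
    have hxse : s(x, s) ∈ c.edges := by
      rw [hY] at he he' ⊢
      exact mem3_k4.2 ⟨(mem3_k4.1 he).1, (mem3_k4.1 he').2.1, hxs⟩
    have hds : dg F s ≤ 1 := by
      by_contra hc
      obtain ⟨k, hk⟩ := exists_nbr (z := F) (v := s) (by omega)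
      obtain ⟨k', hk'k, hk'⟩ := exists_nbr_ne (z := F) (v := s) (by omega) k
      have m0 := he
      have m0' := he'
      have m1 := H.sub hk
      have m2 := H.sub hk'
      rw [hY] at m0 m0' m1 m2
      rw [mem3_k4] at m0 m0' m1 m2
      have n1 : k ≠ x := by rintro rfl; exact hx _ hk (by simp)
      have n2 : k' ≠ x := by rintro rfl; exact hx _ hk' (by simp)
      have n3 : k ≠ r := by rintro rfl; exact hn (by rw [Sym2.eq_swap]; exact hk)
      have n4 : k' ≠ r := by rintro rfl; exact hn (by rw [Sym2.eq_swap]; exact hk')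
      have h5 : ({s, x, r, k, k'} : Finset ℕ) ⊆ Y := by
        intro v hv
        simp only [mem_insert, mem_singleton] at hv
        rcases hv with rfl | rfl | rfl | rfl | rfl
        · exact m1.1
        · exact m0.1
        · exact m0.2.1
        · exact m1.2.1
        · exact m2.2.1
      have h6 := card_le_card h5
      have h7 : #({s, x, r, k, k'} : Finset ℕ) = 5 := by
        rw [card_insert_of_notMem, card_insert_of_notMem, card_insert_of_notMem, card_insert_of_notMem, card_singleton]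
        · rw [mem_singleton]; exact Ne.symm hk'k
        · simp only [mem_insert, mem_singleton, not_or]; exact ⟨n3.symm, n4.symm⟩
        · simp only [mem_insert, mem_singleton, not_or]; exact ⟨hxr, n1.symm, n2.symm⟩
        · simp only [mem_insert, mem_singleton, not_or]; exact ⟨hxs.symm, hrs.symm, m1.2.2, m2.2.2⟩
      have h8 : #Y = 4 := by have := H.val; rw [hY] at this; exact this
      omega
    exact H.att_mv hx hxse hds
  · by_cases hS : NSh F
    · by_cases hS' : NSh (insert s(r, s) F)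
      · left
        have hx' : ∀ f ∈ insert s(r, s) F, x ∉ f := by
          intro f hf
          rcases mem_insert.1 hf with rfl | hf
          · rw [Sym2.mem_iff]; exact fun h => h.elim hxr hxs
          · exact hx f hf
        refine ⟨insert s(x, r) (insert s(r, s) F), insert_subset he (insert_subset he' H.sub), ?_, 0, z0, ?_⟩
        · rw [H.a2 hk2 hS]
          exact nsh_pendant' hS' hx'
        · rw [TFC.dv_insert hxr (not_mem_of hx'), TFC.dv_insert hrs hn]; module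
      · exact Or.inr (Or.inr (Or.inr (Or.inl ⟨hk2, hS, hS'⟩)))
    · have hac := H.hac hS
      obtain ⟨h, L, hH, hxL⟩ := H.leafOf hx he hk2 hS
      have hxh : x ≠ h := fun e => hH.hL (e ▸ hxL)
      rcases hH.edge he' with ⟨_, hsL⟩ | ⟨_, hrL⟩ | ⟨_, rfl⟩ | ⟨hh, _⟩
      · -- `s` is a leaf
        right; left
        have hsh : s ≠ h := fun e => hH.hL (e ▸ hsL)
        have hsh' : s(s, h) ∈ c.edges := by rw [Sym2.eq_swap]; exact hH.mem' hsL
        rcases hH.short H.val H.sub H.m2 hS with ⟨a, b, ha, hb', hab, hF⟩ | ⟨a, ha, hF⟩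
        · have key : ∀ a b, a ∈ L → b ∈ L → a ≠ b → F = TFC.sq r a h b → (mi b → pl b) →
              Mv V pl mi c Ac F (ev x + ev s) := by
            intro a b ha hb' hab hF hnX
            have ra : r ≠ a := fun e => hH.rL (e ▸ ha)
            have rb : r ≠ b := fun e => hH.rL (e ▸ hb')
            have hha : h ≠ a := fun e => hH.hL (e ▸ ha)
            have hhb : h ≠ b := fun e => hH.hL (e ▸ hb')
            have hsa : s ≠ a := by
              rintro rfl
              exact hn (by rw [hF]; simp [TFC.sq])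
            obtain ⟨c1, _, c3, c4, c5⟩ := sq_cut hH.rh ra rb hha hhb hab hF
            obtain ⟨G, hG⟩ : ∃ G, G = (F.erase s(r, b)).erase s(h, b) := ⟨_, rfl⟩
            rw [← hG] at c1 c3 c4 c5
            have hGF : G ⊆ F := by rw [hG]; exact (erase_subset _ _).trans (erase_subset _ _)
            have hsG := c5 s hrs.symm hsa hsh
            have hx1 : ∀ f ∈ G, x ∉ f := fun f hf => hx f (hGF hf)
            have hx2 : ∀ f ∈ insert s(s, h) G, x ∉ f := by
              intro f hf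
              rcases mem_insert.1 hf with rfl | hf
              · rw [Sym2.mem_iff]; exact fun h => h.elim hxs hxh
              · exact hx1 f hf
            have hdr : dg (insert s(s, h) G) r ≤ 1 := by
              rw [dg_insert (not_mem_of hsG), if_neg (by rw [Sym2.mem_iff]; exact fun h => h.elim hrs hH.rh)]
              exact c3
            refine ⟨insert s(x, r) (insert s(s, h) G), insert_subset he (insert_subset hsh' (hGF.trans H.sub)), ?_,
              (-2 : ℤ) • ev b, ?_, ?_⟩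
            · rw [hac]
              exact acap_pend H.ish (acap_pend H.ish (acap_mono H.cap hGF) hsh hsG c4) hxr hx2 hdr
            · exact ph_leaf (H.vV s(r, b) (hH.mem hb') b (by simp)) hnX
            · rw [TFC.dv_insert hxr (not_mem_of hx2), TFC.dv_insert hsh (not_mem_of hsG), c1]; module
          rcases hvr h L a b hH ha hb' hab hF with g | g
          · exact key b a hb' ha hab.symm (by rw [hF, sq_flip]) g
          · exact key a b ha hb' hab hF g
        · have hk : s(r, h) ∈ F := by rw [hF]; simp [tri]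
          have hsa : s ≠ a := by
            rintro rfl
            exact hn (by rw [hF]; simp [tri, Sym2.eq_swap])
          have hs' : ∀ f ∈ F, s ∉ f := by
            intro f hf
            rw [hF] at hf
            simp only [tri, mem_insert, mem_singleton] at hf
            rcases hf with rfl | rfl | rfl
            · simp only [Sym2.mem_iff, not_or]; exact ⟨hrs.symm, hsh⟩
            · simp only [Sym2.mem_iff, not_or]; exact ⟨hsh, hsa⟩
            · simp only [Sym2.mem_iff, not_or]; exact ⟨hsa, hrs.symm⟩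
          obtain ⟨G, hG⟩ : ∃ G, G = F.erase s(r, h) := ⟨_, rfl⟩
          have hGF : G ⊆ F := by rw [hG]; exact erase_subset _ _
          have hsG : ∀ f ∈ G, s ∉ f := fun f hf => hs' f (hGF hf)
          have hx2 : ∀ f ∈ insert s(s, h) G, x ∉ f := by
            intro f hf
            rcases mem_insert.1 hf with rfl | hf
            · rw [Sym2.mem_iff]; exact fun h => h.elim hxs hxh
            · exact hx f (hGF hf)
          have hdr : dg (insert s(s, h) G) r ≤ 1 := by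
            rw [dg_insert (not_mem_of hsG), if_neg (by rw [Sym2.mem_iff]; exact fun h => h.elim hrs hH.rh), hG]
            exact dg_erase_le H.m2 hk Subset.rfl (by simp)
          refine ⟨insert s(x, r) (insert s(s, h) G), insert_subset he (insert_subset hsh' (hGF.trans H.sub)), ?_,
            0, z0, ?_⟩
          · rw [hac]
            refine acap_pend H.ish (acap_pend H.ish (acap_mono H.cap hGF) hsh hsG ?_) hxr hx2 hdr
            rw [hG]
            exact dg_erase_le H.m2 hk Subset.rfl (by simp)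
          · rw [TFC.dv_insert hxr (not_mem_of hx2), TFC.dv_insert hsh (not_mem_of hsG), hG, TFC.dv_erase hH.rh hk]
            module
      · exact absurd hrL hH.rL
      · -- `s` is the other hub
        right; right; left
        rcases hH.short H.val H.sub H.m2 hS with ⟨a, b, ha, hb', hab, hF⟩ | ⟨a, ha, hF⟩
        · have key : ∀ a b, a ∈ L → b ∈ L → a ≠ b → F = TFC.sq r a s b → (mi b → pl b) →
              Mv V pl mi c Ac F (ev x - ev s) := by
            intro a b ha hb' hab hF hnX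
            have ra : r ≠ a := fun e => hH.rL (e ▸ ha)
            have rb : r ≠ b := fun e => hH.rL (e ▸ hb')
            have hha : s ≠ a := fun e => hH.hL (e ▸ ha)
            have hhb : s ≠ b := fun e => hH.hL (e ▸ hb')
            obtain ⟨c1, _, c3, _, _⟩ := sq_cut hH.rh ra rb hha hhb hab hF
            obtain ⟨G, hG⟩ : ∃ G, G = (F.erase s(r, b)).erase s(s, b) := ⟨_, rfl⟩
            rw [← hG] at c1 c3
            have hGF : G ⊆ F := by rw [hG]; exact (erase_subset _ _).trans (erase_subset _ _)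
            have hx1 : ∀ f ∈ G, x ∉ f := fun f hf => hx f (hGF hf)
            refine ⟨insert s(x, r) G, insert_subset he (hGF.trans H.sub), ?_, (-2 : ℤ) • ev b, ?_, ?_⟩
            · rw [hac]
              exact acap_pend H.ish (acap_mono H.cap hGF) hxr hx1 c3
            · exact ph_leaf (H.vV s(r, b) (hH.mem hb') b (by simp)) hnX
            · rw [TFC.dv_insert hxr (not_mem_of hx1), c1]; module
          refine ⟨?_, dg_ge_two (a := a) (b := b) (by rw [hF]; simp [TFC.sq, Sym2.eq_swap])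
            (by rw [hF]; simp [TFC.sq]) hab⟩
          rcases hvr s L a b hH ha hb' hab hF with g | g
          · exact key b a hb' ha hab.symm (by rw [hF, sq_flip]) g
          · exact key a b ha hb' hab hF g
        · exact absurd (by rw [hF]; simp [tri]) hn
      · exact absurd hh hH.rh

/-- **(L5)** the edges `x r` and `y s` in one cluster which does not contain `x y` -/
theorem Lo.L5 (H : Lo D c F Ac V) (hx : ∀ f ∈ F, x ∉ f) (hy : ∀ f ∈ F, y ∉ f) (he : s(x, r) ∈ c.edges)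
    (he' : s(y, s) ∈ c.edges) (hxy : s(x, y) ∉ c.edges) (nxy : x ≠ y) (hxs : x ≠ s) (hyr : y ≠ r) (nrs : r ≠ s)
    (hvr : Vf pl mi c F r) :
    (Mv V pl mi c Ac F (ev x + ev r + (ev y + ev s)) ∧ NSh F) ∨ Mv V pl mi c Ac F (ev x + ev y) := by
  have hxr : x ≠ r := H.nl.ne he
  have hys : y ≠ s := H.nl.ne he'
  have z0 : ph V pl mi 0 ≤ 0 := (ph_zero V pl mi).le
  have hk2 : Hb c := by
    rcases k4_or_hb c with ⟨Y, rfl⟩ | hk2
    · exact absurd (mem3_k4.2 ⟨(mem3_k4.1 he).1, (mem3_k4.1 he').1, nxy⟩) hxy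
    · exact hk2
  by_cases hS : NSh F
  · left
    have hx' : ∀ f ∈ insert s(y, s) F, x ∉ f := by
      intro f hf
      rcases mem_insert.1 hf with rfl | hf
      · rw [Sym2.mem_iff]; exact fun h => h.elim nxy hxs
      · exact hx f hf
    refine ⟨⟨insert s(x, r) (insert s(y, s) F), insert_subset he (insert_subset he' H.sub), ?_, 0, z0, ?_⟩, hS⟩
    · rw [H.a2 hk2 hS]
      exact nsh_pendant' (nsh_pendant' hS hy) hx'
    · rw [TFC.dv_insert hxr (not_mem_of hx'), TFC.dv_insert hys (not_mem_of hy)]; module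
  · right
    have hac := H.hac hS
    obtain ⟨h, L, hH, hxL⟩ := H.leafOf hx he hk2 hS
    obtain ⟨h', L', hH', hyL⟩ := H.leafOf hy he' hk2 hS
    obtain ⟨hh, rfl⟩ := hH.uniq hH'.eq
    obtain ⟨hsh, hh'⟩ : s = h ∧ h' = r := by
      rcases hh with ⟨g1, _⟩ | ⟨g1, g2⟩
      · exact absurd g1.symm nrs
      · exact ⟨g1, g2⟩
    subst hsh
    rcases hH.short H.val H.sub H.m2 hS with ⟨a, b, ha, hb', hab, hF⟩ | ⟨a, ha, hF⟩
    · have key : ∀ a b, a ∈ L' → b ∈ L' → a ≠ b → F = TFC.sq r a s b → (mi b → pl b) →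
          Mv V pl mi c Ac F (ev x + ev y) := by
        intro a b ha hb' hab hF hnX
        have ra : r ≠ a := fun e => hH.rL (e ▸ ha)
        have rb : r ≠ b := fun e => hH.rL (e ▸ hb')
        have hha : s ≠ a := fun e => hH.hL (e ▸ ha)
        have hhb : s ≠ b := fun e => hH.hL (e ▸ hb')
        obtain ⟨c1, _, c3, c4, _⟩ := sq_cut hH.rh ra rb hha hhb hab hF
        obtain ⟨G, hG⟩ : ∃ G, G = (F.erase s(r, b)).erase s(s, b) := ⟨_, rfl⟩
        rw [← hG] at c1 c3 c4
        have hGF : G ⊆ F := by rw [hG]; exact (erase_subset _ _).trans (erase_subset _ _)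
        have hyG : ∀ f ∈ G, y ∉ f := fun f hf => hy f (hGF hf)
        have hx2 : ∀ f ∈ insert s(y, s) G, x ∉ f := by
          intro f hf
          rcases mem_insert.1 hf with rfl | hf
          · rw [Sym2.mem_iff]; exact fun h => h.elim nxy hxs
          · exact hx f (hGF hf)
        have hdr : dg (insert s(y, s) G) r ≤ 1 := by
          rw [dg_insert (not_mem_of hyG), if_neg (by rw [Sym2.mem_iff]; exact fun h => h.elim (Ne.symm hyr) nrs)]
          exact c3
        refine ⟨insert s(x, r) (insert s(y, s) G), insert_subset he (insert_subset he' (hGF.trans H.sub)), ?_,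
          (-2 : ℤ) • ev b, ?_, ?_⟩
        · rw [hac]
          exact acap_pend H.ish (acap_pend H.ish (acap_mono H.cap hGF) hys hyG c4) hxr hx2 hdr
        · exact ph_leaf (H.vV s(r, b) (hH.mem hb') b (by simp)) hnX
        · rw [TFC.dv_insert hxr (not_mem_of hx2), TFC.dv_insert hys (not_mem_of hyG), c1]; module
      rcases hvr s L' a b hH ha hb' hab hF with g | g
      · exact key b a hb' ha hab.symm (by rw [hF, sq_flip]) g
      · exact key a b ha hb' hab hF g
    · have hk : s(r, s) ∈ F := by rw [hF]; simp [tri]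
      obtain ⟨G, hG⟩ : ∃ G, G = F.erase s(r, s) := ⟨_, rfl⟩
      have hGF : G ⊆ F := by rw [hG]; exact erase_subset _ _
      have hyG : ∀ f ∈ G, y ∉ f := fun f hf => hy f (hGF hf)
      have hx2 : ∀ f ∈ insert s(y, s) G, x ∉ f := by
        intro f hf
        rcases mem_insert.1 hf with rfl | hf
        · rw [Sym2.mem_iff]; exact fun h => h.elim nxy hxs
        · exact hx f (hGF hf)
      have hdr : dg (insert s(y, s) G) r ≤ 1 := by
        rw [dg_insert (not_mem_of hyG), if_neg (by rw [Sym2.mem_iff]; exact fun h => h.elim (Ne.symm hyr) nrs), hG]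
        exact dg_erase_le H.m2 hk Subset.rfl (by simp)
      refine ⟨insert s(x, r) (insert s(y, s) G), insert_subset he (insert_subset he' (hGF.trans H.sub)), ?_,
        0, z0, ?_⟩
      · rw [hac]
        refine acap_pend H.ish (acap_pend H.ish (acap_mono H.cap hGF) hys hyG ?_) hxr hx2 hdr
        rw [hG]
        exact dg_erase_le H.m2 hk Subset.rfl (by simp)
      · rw [TFC.dv_insert hxr (not_mem_of hx2), TFC.dv_insert hys (not_mem_of hyG), hG, TFC.dv_erase nrs hk]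
        module

/-- **(L6)** the edges `x r`, `y s` and `r s` in one cluster which does not contain `x y` -/
theorem Lo.L6 (H : Lo D c F Ac V) (hx : ∀ f ∈ F, x ∉ f) (hy : ∀ f ∈ F, y ∉ f) (he : s(x, r) ∈ c.edges)
    (he' : s(y, s) ∈ c.edges) (hrs : s(r, s) ∈ c.edges) (hxy : s(x, y) ∉ c.edges) (nxy : x ≠ y) (hxs : x ≠ s)
    (hyr : y ≠ r) (hvr : Vf pl mi c F r) :
    Mv V pl mi c Ac F (ev x + ev y + (2 : ℤ) • ev r) ∨ Mv V pl mi c Ac F (ev x + ev y) := by
  have nrs : r ≠ s := H.nl.ne hrs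
  have hxr : x ≠ r := H.nl.ne he
  have hys : y ≠ s := H.nl.ne he'
  have z0 : ph V pl mi 0 ≤ 0 := (ph_zero V pl mi).le
  have hk2 : Hb c := by
    rcases k4_or_hb c with ⟨Y, rfl⟩ | hk2
    · exact absurd (mem3_k4.2 ⟨(mem3_k4.1 he).1, (mem3_k4.1 he').1, nxy⟩) hxy
    · exact hk2
  rcases H.L5 hx hy he he' hxy nxy hxs hyr nrs hvr with ⟨_, hS⟩ | h1
  swap
  · exact Or.inr h1
  left
  -- `r`, `s` are the hubs
  have key : ∃ L, HB c r s L ∧ y ∈ L := by
    rcases hb_edge H.val hk2 hrs with ⟨h, L, hH, hsL⟩ | ⟨h, L, hH, hrL⟩ | ⟨L, hH⟩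
    · exfalso
      -- `r` hub, `s` leaf: `y = h`
      have hyh : y = h := by
        rcases hH.edge he' with ⟨h1 | h1, _⟩ | ⟨h1 | h1, _⟩ | ⟨h1, _⟩ | ⟨h1, _⟩
        · exact absurd h1 hyr
        · exact h1
        · exact absurd h1.symm nrs
        · exact absurd (h1 ▸ hsL) hH.hL
        · exact absurd h1 hyr
        · exact h1
      subst hyh
      apply hxy
      rcases hH.edge he with ⟨h1 | h1, _⟩ | ⟨_, h1⟩ | ⟨h1, _⟩ | ⟨h1, _⟩
      · exact absurd h1 hxr
      · exact absurd h1 nxy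
      · rw [Sym2.eq_swap]; exact hH.mem' h1
      · exact absurd h1 hxr
      · exact absurd h1 nxy
    · exfalso
      have hxh : x = h := by
        rcases hH.edge he with ⟨h1 | h1, _⟩ | ⟨h1 | h1, _⟩ | ⟨h1, _⟩ | ⟨h1, _⟩
        · exact absurd h1 hxs
        · exact h1
        · exact absurd h1 nrs
        · exact absurd (h1 ▸ hrL) hH.hL
        · exact absurd h1 hxs
        · exact h1
      subst hxh
      apply hxy
      rcases hH.edge he' with ⟨h1 | h1, _⟩ | ⟨_, h1⟩ | ⟨h1, _⟩ | ⟨h1, _⟩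
      · exact absurd h1 hys
      · exact absurd h1.symm nxy
      · exact hH.mem' h1
      · exact absurd h1 hys
      · exact absurd h1.symm nxy
    · refine ⟨L, hH, ?_⟩
      rcases hH.edge he' with ⟨h1 | h1, _⟩ | ⟨_, h1⟩ | ⟨h1, _⟩ | ⟨h1, _⟩
      · exact absurd h1 hyr
      · exact absurd h1 hys
      · exact h1
      · exact absurd h1 hyr
      · exact absurd h1 hys
  obtain ⟨L, hH, hyL⟩ := key
  have hyr' : s(y, r) ∈ c.edges := by rw [Sym2.eq_swap]; exact hH.mem hyL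
  have hx' : ∀ f ∈ insert s(y, r) F, x ∉ f := by
    intro f hf
    rcases mem_insert.1 hf with rfl | hf
    · rw [Sym2.mem_iff]; exact fun h => h.elim nxy hxr
    · exact hx f hf
  refine ⟨insert s(x, r) (insert s(y, r) F), insert_subset he (insert_subset hyr' H.sub), ?_, 0, z0, ?_⟩
  · rw [H.a2 hk2 hS]
    exact nsh_pendant' (nsh_pendant' hS hy) hx'
  · rw [TFC.dv_insert hxr (not_mem_of hx'), TFC.dv_insert hyr (not_mem_of hy)]; module

end

end Pool.Agent.P34.YM

end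

section -- file P34/YV

/-!
Lemma (V) for triangles and squares, adapters for the frames of one world.
-/

set_option autoImplicit false

namespace Pool.Agent.P34.YM

open Finset Pool.Agent.TFC Pool.Agent.PF4 Pool.Agent.PF4.LD Pool.Agent.PF4.XC Pool.Agent.PF4.XT

theorem con_neg_le (p m : Prop) {k : ℤ} (h : 0 ≤ k) : con p m (-k) ≤ k := by
  unfold con; split_ifs <;> omega

/-- the degrees of the leaves -/
theorem hb_sum {c : Clu3 ℕ} {u v : ℕ} {Lf : Finset ℕ} (H : HB c u v Lf) {K : Finset (Sym2 ℕ)} (hK : K ⊆ c.edges) :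
    ∑ l ∈ Lf, dv K l ≤ dv K u + dv K v := by
  obtain ⟨K', hK'⟩ : ∃ K', K' = K.erase s(u, v) := ⟨_, rfl⟩
  have hsub : K' ⊆ K := by rw [hK']; exact erase_subset _ _
  have hKc : K' ⊆ (Clu.k2 u v Lf).edges := by
    intro e he
    induction e using Sym2.ind with
    | _ a b =>
      rw [hK'] at he
      obtain ⟨h1, h2⟩ := mem_erase.1 he
      refine XF.mem_k2.2 ?_
      rcases H.edge (hK h2) with h3 | h3 | h3
      · exact Or.inl h3
      · exact Or.inr h3
      · exfalso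
        apply h1
        rw [Sym2.eq_iff]
        exact h3
  have hle : ∀ w, dv K' w ≤ dv K w := by
    intro w
    rw [TFC.dv_apply, TFC.dv_apply]
    exact_mod_cast card_le_card (filter_subset_filter _ hsub)
  have hl : ∀ l ∈ Lf, dv K l = dv K' l := by
    intro l hl
    rw [TFC.dv_apply, TFC.dv_apply]
    have e0 : K.filter (fun e => l ∈ e) = K'.filter fun e => l ∈ e := by
      ext e
      rw [mem_filter, mem_filter, hK', mem_erase]
      refine ⟨fun h => ⟨⟨?_, h.1⟩, h.2⟩, fun h => ⟨h.1.2, h.2⟩⟩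
      rintro rfl
      rcases Sym2.mem_iff.1 h.2 with rfl | rfl
      · exact H.rL hl
      · exact H.hL hl
    unfold dg
    rw [e0]
  have hsum : ∑ l ∈ Lf, dv K' l = dv K' u + dv K' v := by
    have e := XU.tw_of hKc H.rh H.rL H.hL
    obtain ⟨P', hP'⟩ : ∃ P', P' = Lf.filter fun l => s(u, l) ∈ K' := ⟨_, rfl⟩
    obtain ⟨Q', hQ'⟩ : ∃ Q', Q' = Lf.filter fun l => s(v, l) ∈ K' := ⟨_, rfl⟩
    rw [← hP', ← hQ'] at e
    have hP1 : P' ⊆ Lf := by rw [hP']; exact Finset.filter_subset _ _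
    have hQ1 : Q' ⊆ Lf := by rw [hQ']; exact Finset.filter_subset _ _
    rw [e]
    simp only [XU.dv_tw H.rh H.rL H.hL hP1 hQ1, Finset.sum_add_distrib]
    rw [XU.ind_sum hP1, XU.ind_sum hQ1, if_neg (fun e => H.rL (hP1 e)), if_neg (fun e => H.rL (hQ1 e)),
      if_neg (fun e => H.hL (hP1 e)), if_neg (fun e => H.hL (hQ1 e)), if_neg H.rh, if_neg H.rh.symm,
      Finset.sum_ite_eq' Lf u, Finset.sum_ite_eq' Lf v, if_neg H.rL, if_neg H.hL]
    simp
  rw [sum_congr rfl hl, hsum]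
  have h1 := hle u
  have h2 := hle v
  omega

section
variable {X : XD3} {P : ℕ → Finset (Sym2 ℕ) → Prop} {D : Finset (Finset (Sym2 ℕ))} {j m : ℕ} {S : Finset ℕ}
  {M : ℕ → Finset (Sym2 ℕ)} {A : Clu3 ℕ → Finset (Sym2 ℕ) → Prop} {CL U : List (Clu3 ℕ)} {PL : Finset (Sym2 ℕ)}
  {pl mi : ℕ → Prop}

/-- **(V)** -/
theorem vx (h : PW3 X P D j S M A CL U PL pl mi) {c : Clu3 ℕ} {w v : ℕ} {Lf : Finset ℕ} (hc : c ∈ U)
    (H : HB c w v Lf) (hA : ACp3 D A c) (hO : Out3 A U c (M w)) (hr : w ∈ S)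
    (hT : w ∈ X.T) (hM : M2 (M w)) (h1 : dg (M w) w = 1) {a b : ℕ} (ha : a ∈ Lf) (hb : b ∈ Lf) (hab : a ≠ b)
    (hD : TFC.sq w a v b ∉ D) : ¬ ((mi a ∧ ¬ pl a) ∧ (mi b ∧ ¬ pl b)) := by
  rintro ⟨⟨ma, pa⟩, ⟨mb, pb⟩⟩
  have uv := H.rh
  have uL := H.rL
  have vL := H.hL
  -- the square
  obtain ⟨F, hF⟩ : ∃ F, F = TFC.sq w a v b := ⟨_, rfl⟩
  have h4 : Dist4 w a v b := ⟨fun e => uL (e ▸ ha), uv, fun e => uL (e ▸ hb), fun e => vL (e ▸ ha), hab,
    fun e => vL (e ▸ hb)⟩
  have hFc : F ⊆ c.edges := by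
    intro e he
    rw [hF] at he
    simp only [TFC.sq, mem_insert, mem_singleton] at he
    rcases he with rfl | rfl | rfl | rfl
    · exact H.mem ha
    · rw [Sym2.eq_swap]; exact H.mem' ha
    · exact H.mem' hb
    · rw [Sym2.eq_swap]; exact H.mem hb
  have hFs : IsSh F := Or.inr ⟨w, a, v, b, h4, hF⟩
  have hFa : Acap D F := by
    refine ⟨hFs.m2, fun Z hZ hs => hD ?_⟩
    rw [← hF, ← sh_sub_eq (h.ish Z hZ) hFs hs]
    exact hZ
  have hPs : ({a, b} : Finset ℕ) ⊆ Lf := by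
    intro x hx
    rw [Finset.mem_insert, Finset.mem_singleton] at hx
    rcases hx with rfl | rfl
    · exact ha
    · exact hb
  have hcard : #({a, b} : Finset ℕ) = 2 := by
    rw [Finset.card_insert_of_notMem (by rw [Finset.mem_singleton]; exact hab), Finset.card_singleton]
  have hFt : F = XU.tw w v {a, b} {a, b} := by rw [hF, XT.sq_tw]
  have hdF : ∀ x, dv F x = 2 * (if x ∈ ({a, b} : Finset ℕ) then 1 else 0) +
      ((if x = w then 2 else 0) + if x = v then 2 else 0) := by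
    intro x
    rw [hFt, XU.dv_tw uv uL vL hPs hPs, hcard]
    push_cast
    ring
  have key := h.nc_rep hr hT hc hO hFc (hA F hFc hFa)
  -- the part of the near cover
  obtain ⟨K, hK⟩ : ∃ K, K = M w ∩ c.edges := ⟨_, rfl⟩
  rw [← hK] at key
  have hKc : K ⊆ c.edges := by rw [hK]; exact Finset.inter_subset_right
  have hKM : K ⊆ M w := by rw [hK]; exact Finset.inter_subset_left
  have hK2 : ∀ x, 0 ≤ dv K x ∧ dv K x ≤ 2 := by
    intro x
    refine ⟨Nat.cast_nonneg _, ?_⟩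
    have h5 : dg K x ≤ 2 := (Finset.card_le_card (Finset.filter_subset_filter _ hKM)).trans (hM.2 x)
    show ((dg K x : ℕ) : ℤ) ≤ 2
    exact_mod_cast h5
  have hKw : dv K w ≤ 1 := by
    have h5 : dg K w ≤ 1 := h1 ▸ Finset.card_le_card (Finset.filter_subset_filter _ hKM)
    show ((dg K w : ℕ) : ℤ) ≤ 1
    exact_mod_cast h5
  have hKsum := hb_sum H hKc
  -- support
  obtain ⟨d, hd⟩ : ∃ d, d = dv F - dv K - Pi.single w 1 := ⟨_, rfl⟩
  rw [← hd] at key
  have hdv : ∀ x, d x = dv F x - dv K x - (if x = w then 1 else 0) := by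
    intro x
    rw [hd, Pi.sub_apply, Pi.sub_apply, sgl]
  have hSV : insert w (insert v Lf) ⊆ X.V2 := by
    intro x hx
    rw [Finset.mem_insert, Finset.mem_insert] at hx
    rcases hx with rfl | rfl | hx
    · exact h.v2 (h.cW hc (H.mem ha)) (by simp)
    · exact h.v2 (h.cW hc (H.mem' ha)) (by simp)
    · exact h.v2 (h.cW hc (H.mem hx)) (by simp)
  have hoff : ∀ x ∈ X.V2, x ∉ insert w (insert v Lf) → d x = 0 := by
    intro x _ hx
    rw [Finset.mem_insert, Finset.mem_insert, not_or, not_or] at hx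
    obtain ⟨x1, x2, x3⟩ := hx
    have hvs : x ∉ vs c.edges := by
      intro hm
      obtain ⟨e, he, y, rfl⟩ := mem_vs.1 hm
      rcases H.edge he with ⟨h5 | h5, _⟩ | ⟨_, h5⟩ | ⟨h5, _⟩ | ⟨h5, _⟩
      · exact x1 h5
      · exact x2 h5
      · exact x3 h5
      · exact x1 h5
      · exact x2 h5
    rw [hdv, dv_off hFc hvs, dv_off hKc hvs, if_neg x1]
    ring
  rw [ph_supp hSV hoff, Finset.sum_insert (by rw [Finset.mem_insert, not_or]; exact ⟨uv, uL⟩),
    Finset.sum_insert vL] at key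
  -- leaves
  have hleaf : ∑ l ∈ Lf, con (pl l) (mi l) (d l) ≤ ∑ l ∈ Lf, (dv K l - 2 * (if l ∈ ({a, b} : Finset ℕ) then 1 else 0)) := by
    refine Finset.sum_le_sum fun l hl => ?_
    have l1 : l ≠ w := fun e => uL (e ▸ hl)
    have l2 : l ≠ v := fun e => vL (e ▸ hl)
    rw [hdv, hdF, if_neg l1, if_neg l2]
    by_cases h5 : l ∈ ({a, b} : Finset ℕ)
    · rw [if_pos h5]
      have h6 : mi l ∧ ¬ pl l := by
        rw [Finset.mem_insert, Finset.mem_singleton] at h5
        rcases h5 with rfl | rfl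
        · exact ⟨ma, pa⟩
        · exact ⟨mb, pb⟩
      rw [con_X h6.2 h6.1]
      split_ifs <;> omega
    · rw [if_neg h5]
      have h7 := con_neg_le (pl l) (mi l) (hK2 l).1
      rw [show 2 * (0 : ℤ) + (0 + 0) - dv K l - (if l = w then 1 else 0) = -dv K l by rw [if_neg l1]; ring]
      omega
  rw [Finset.sum_sub_distrib, ← Finset.mul_sum, XU.ind_sum hPs, hcard] at hleaf
  -- hubs
  have hub : con (pl w) (mi w) (d w) ≤ 1 - dv K w := by
    have hFx : dv F w = 2 := by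
      rw [hdF, if_neg (fun e => uL (hPs e)), if_pos rfl, if_neg uv]; ring
    rw [hdv, hFx, if_pos rfl]
    have h6 := (hK2 w).1
    rcases (show dv K w = 0 ∨ dv K w = 1 by omega) with h7 | h7
    · rw [h7]
      have := con_one (pl w) (mi w)
      norm_num
      exact this
    · rw [h7]
      norm_num
      rw [con_zero]
  have hub2 : con (pl v) (mi v) (d v) ≤ 2 - dv K v := by
    have hFx : dv F v = 2 := by
      rw [hdF, if_neg (fun e => vL (hPs e)), if_neg uv.symm, if_pos rfl]; ring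
    rw [hdv, hFx, if_neg uv.symm]
    obtain ⟨h5, h6⟩ := hK2 v
    rcases (show dv K v = 0 ∨ dv K v = 1 ∨ dv K v = 2 by omega) with h7 | h7 | h7
    · rw [h7]
      have := con_two_le (pl v) (mi v)
      norm_num
      exact this
    · rw [h7]
      have := con_one (pl v) (mi v)
      norm_num
      exact this
    · rw [h7]
      norm_num
      rw [con_zero]
  push_cast at hleaf
  omega

end

/-! ### frames -/

section
variable {X : XD3} {P : ℕ → Finset (Sym2 ℕ) → Prop} {D : Finset (Finset (Sym2 ℕ))} {j m : ℕ} {S : Finset ℕ}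
  {M : ℕ → Finset (Sym2 ℕ)} {F : Clu3 ℕ → Prop} {CL U : List (Clu3 ℕ)} {PL : Finset (Sym2 ℕ)}
  {pl mi : ℕ → Prop}

/-- every edge of `X.E` at a vertex of `S` is in the region -/
theorem wreg (h : WA3 X P D j m S M CL U PL) {u : ℕ} (hu : u ∈ S) {e : Sym2 ℕ} (he : e ∈ X.E) (hue : u ∈ e) :
    e ∈ Ucl3 U ∪ PL := by
  obtain ⟨pl, mi, h1, _⟩ := h.fr (fun _ => False) fun _ h => h.elim
  exact h1.rch u (XF.Rch.mono (Nat.zero_le 3) hu) e he hue

theorem facp {c : Clu3 ℕ} (hF : ¬ F c) : ACp3 D (Fr3 D F) c := by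
  intro K _ hs
  rw [Fr3_neg hF]
  exact hs

/-- near covers are allowed in all frames -/
theorem wM (w0 : WA3 X P D j m S M CL U PL) (h : PW3 X P D j S M (Fr3 D F) CL U PL pl mi)
    (hF : ∀ c, F c → Hb c) {w : ℕ} (hw : w ∈ S) (hT : w ∈ X.T) (c : Clu3 ℕ) : Out3 (Fr3 D F) U c (M w) := by
  intro c' hc' _
  have hcC := ((h.uc c').1 hc').1
  exact Fr3_of (fun hf => w0.msf w hw hT c' hcC (hF c' hf)) fun _ => w0.mcap w hw hT c' hcC

/-- the cluster of a member of the family at a vertex of `S` -/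
theorem wcl (h : WA3 X P D j m S M CL U PL) {Z : Finset (Sym2 ℕ)} (hZ : Z ∈ D) {e : Sym2 ℕ} (he : e ∈ Z) {v : ℕ}
    (hv : v ∈ S) (hve : v ∈ e) : ∃ c ∈ U, Z ⊆ c.edges := by
  obtain ⟨pl, mi, hw, -⟩ := h.fr (fun _ => False) fun _ h => h.elim
  have h1 := wreg h hv (hw.dE Z hZ he) hve
  rcases mem_union.1 h1 with h2 | h2
  · obtain ⟨c, hc, hec⟩ := mem_Ucl3.1 h2
    exact ⟨c, hc, hw.clz hZ hc he hec⟩
  · exact absurd he (((hw.pm e).1 h2).2 Z hZ)

end

end Pool.Agent.P34.YM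

end

section -- file P34/YA

/-!
Modified witnesses as states; moves at one site (a cluster or one plain edge).
-/

set_option autoImplicit false

namespace Pool.Agent.P34.YM

open Finset Pool.Agent.TFC Pool.Agent.PF4 Pool.Agent.PF4.LD Pool.Agent.PF4.XC Pool.Agent.PF4.XT

/-- `F` is allowed at the site `E` -/
def Al (A : Clu3 ℕ → Finset (Sym2 ℕ) → Prop) (U : List (Clu3 ℕ)) (PL E F : Finset (Sym2 ℕ)) : Prop :=
  F ⊆ E ∧ ((∃ c ∈ U, E = c.edges ∧ A c F) ∨ ∃ e ∈ PL, E = {e})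

/-- an allowed modification `K` of `L`: total change `d`, changed only in `τ` -/
structure St (A : Clu3 ℕ → Finset (Sym2 ℕ) → Prop) (U : List (Clu3 ℕ)) (PL L : Finset (Sym2 ℕ)) (d : ℕ → ℤ)
    (τ K : Finset (Sym2 ℕ)) : Prop where
  au : AU3 A U PL K
  dv : dv K = dv (L ∩ (Ucl3 U ∪ PL)) + d
  eq : K \ τ = (L ∩ (Ucl3 U ∪ PL)) \ τ

/-- there is an allowed modification with total change `d`, changed only in `τ` -/
def RS (A : Clu3 ℕ → Finset (Sym2 ℕ) → Prop) (U : List (Clu3 ℕ)) (PL L : Finset (Sym2 ℕ)) (d : ℕ → ℤ)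
    (τ : Finset (Sym2 ℕ)) : Prop := ∃ K, St A U PL L d τ K

/-- a move at the site `E` with change `δ` -/
def SMv (A : Clu3 ℕ → Finset (Sym2 ℕ) → Prop) (U : List (Clu3 ℕ)) (PL L E : Finset (Sym2 ℕ)) (δ : ℕ → ℤ) : Prop :=
  ∃ F, Al A U PL E F ∧ dv F = dv (L ∩ E) + δ

theorem dv_rep {K C F : Finset (Sym2 ℕ)} (hF : F ⊆ C) : dv ((K \ C) ∪ F) = dv K - dv (K ∩ C) + dv F := by
  have hd : Disjoint (K \ C) F := Finset.disjoint_of_subset_right hF Finset.sdiff_disjoint
  rw [XT.dv_union hd]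
  congr 1
  have e : K \ C = K \ (K ∩ C) := by
    ext e
    simp only [Finset.mem_inter, Finset.mem_sdiff]
    tauto
  rw [e, dv_sdiff Finset.inter_subset_left]

section
variable {X : XD3} {P : ℕ → Finset (Sym2 ℕ) → Prop} {D : Finset (Finset (Sym2 ℕ))} {j : ℕ} {S : Finset ℕ}
  {M : ℕ → Finset (Sym2 ℕ)} {A : Clu3 ℕ → Finset (Sym2 ℕ) → Prop} {CL U : List (Clu3 ℕ)} {PL : Finset (Sym2 ℕ)}
  {pl mi : ℕ → Prop} {L : Finset (Sym2 ℕ)}

/-- a site lies in the region -/
theorem Al.sub {E F : Finset (Sym2 ℕ)} (hF : Al A U PL E F) : E ⊆ Ucl3 U ∪ PL := by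
  rcases hF.2 with ⟨c, hc, rfl, _⟩ | ⟨e, he, rfl⟩
  · exact fun e he => Finset.mem_union_left _ (mem_Ucl3.2 ⟨c, hc, he⟩)
  · exact Finset.singleton_subset_iff.2 (Finset.mem_union_right _ he)

theorem St.inter {d : ℕ → ℤ} {τ K E : Finset (Sym2 ℕ)} (h : St A U PL L d τ K) (hE : E ⊆ Ucl3 U ∪ PL)
    (hd : Disjoint E τ) : K ∩ E = L ∩ E := by
  ext e
  simp only [Finset.mem_inter]
  refine and_congr_left fun he => ?_
  have h1 : e ∉ τ := Finset.disjoint_left.1 hd he
  have h2 := Finset.ext_iff.1 h.eq e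
  simp only [Finset.mem_sdiff, Finset.mem_inter] at h2
  constructor
  · intro h3
    exact (h2.1 ⟨h3, h1⟩).1.1
  · intro h3
    exact (h2.2 ⟨⟨h3, hE he⟩, h1⟩).1

/-- **one move** -/
theorem step (h : PW3 X P D j S M A CL U PL pl mi) {d δ : ℕ → ℤ} {τ E : Finset (Sym2 ℕ)}
    (hR : RS A U PL L d τ) (hd : Disjoint E τ) (hM : SMv A U PL L E δ) : RS A U PL L (d + δ) (τ ∪ E) := by
  obtain ⟨K, hK⟩ := hR
  obtain ⟨F, hF, hdv⟩ := hM
  have hE := hF.sub
  have hKE := hK.inter hE hd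
  refine ⟨(K \ E) ∪ F, ?_, ?_, ?_⟩
  · rcases hF.2 with ⟨c, hc, rfl, hA⟩ | ⟨e, he, rfl⟩
    · exact (h.rep hc hK.au.1 (fun c' hc' _ => hK.au.2 c' hc') hF.1 hA).1
    · refine ⟨Finset.union_subset (Finset.sdiff_subset.trans hK.au.1) (hF.1.trans hE), fun c hc => ?_⟩
      have hec : e ∉ c.edges := fun h1 => Finset.disjoint_left.1 (h.plain hc) he h1
      have e1 : (K \ {e} ∪ F) ∩ c.edges = K ∩ c.edges := by
        ext f
        simp only [Finset.mem_inter, Finset.mem_union, Finset.mem_sdiff, Finset.mem_singleton]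
        constructor
        · rintro ⟨h1 | h1, h2⟩
          · exact ⟨h1.1, h2⟩
          · have h3 := Finset.mem_singleton.1 (hF.1 h1)
            rw [h3] at h2
            exact absurd h2 hec
        · rintro ⟨h1, h2⟩
          refine ⟨Or.inl ⟨h1, ?_⟩, h2⟩
          rintro rfl
          exact hec h2
      rw [e1]
      exact hK.au.2 c hc
  · rw [dv_rep hF.1, hKE, hdv, hK.dv]
    abel
  · ext e
    have h2 := Finset.ext_iff.1 hK.eq e
    simp only [Finset.mem_sdiff, Finset.mem_inter, Finset.mem_union] at h2 ⊢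
    have h3 : e ∈ F → e ∈ E := fun h => hF.1 h
    tauto

/-- the start: the part in the cluster of the short cycle is replaced -/
theorem start (h : PW3 X P D j S M A CL U PL pl mi) {c : Clu3 ℕ} (hc : c ∈ U) (hO : Out3 A U c L)
    {F : Finset (Sym2 ℕ)} (hF : F ⊆ c.edges) (hA : A c F) {δ : ℕ → ℤ} (hdv : dv F = dv (L ∩ c.edges) + δ) :
    RS A U PL L δ c.edges := by
  refine ⟨((L ∩ (Ucl3 U ∪ PL)) \ c.edges) ∪ F, ?_, ?_, ?_⟩
  · exact (h.rep hc Finset.inter_subset_right (fun c' hc' hne => by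
      rw [h.interW hc']
      exact hO c' hc' hne) hF hA).1
  · rw [dv_rep hF, h.interW hc, hdv]
    abel
  · ext e
    simp only [Finset.mem_sdiff, Finset.mem_inter, Finset.mem_union]
    have h3 : e ∈ F → e ∈ c.edges := fun h => hF h
    tauto

/-- the inequality for a state -/
theorem val1 (h : PW3 X P D j S M A CL U PL pl mi) {Z : Finset (Sym2 ℕ)} (hZ : Z ∈ D) (hZU : Z ⊆ Ucl3 U)
    (hL : Wt3 X P D j Z L) {d : ℕ → ℤ} {τ : Finset (Sym2 ℕ)} (hR : RS A U PL L d τ) : 1 ≤ ph X.V2 pl mi d := by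
  obtain ⟨K, hK⟩ := hR
  have h1 := h.witA Z hZ hZU L hL.mem hL.cov hL.uni K hK.au
  have e : dv K - dv (L ∩ (Ucl3 U ∪ PL)) = d := by rw [hK.dv, add_sub_cancel_left]
  rwa [e] at h1

end

end Pool.Agent.P34.YM

end
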