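import Pool.Agent.PFN.M18
import Pool.Agent.PFN.M21
import Pool.Agent.PFN.M22

section -- file P34/ST1

/-!
Two conflicting short cycles, one of them a triangle: near covers at a common corner.
-/

set_option autoImplicit false

namespace Pool.Agent.P34

open Finset Pool.Agent.TFC Pool.Agent.PF4 Pool.Agent.PF4.LD Pool.Agent.PF4.XC Pool.Agent.PF4.XT
open Pool.Agent.PF4.XF (XD FitK Cv World WJ Av NC Rch dg_off mem_k4 mem_k2)

/-- an edge of a harmful short cycle has an end in `T` -/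
theorem st_edge {T : Finset ℕ} {Z : Finset (Sym2 ℕ)} (h : Hs3 T Z) {a b : ℕ} (he : s(a, b) ∈ Z) :
    a ∈ T ∨ b ∈ T := by
  rcases h with ⟨x, y, z, _, rfl, h1, h2⟩ | ⟨x, y, z, w, _, rfl, h1, h2⟩
  · simp only [tri, mem_insert, mem_singleton, Sym2.eq_iff] at he
    rcases he with (⟨rfl, rfl⟩ | ⟨rfl, rfl⟩) | (⟨rfl, rfl⟩ | ⟨rfl, rfl⟩) | (⟨rfl, rfl⟩ | ⟨rfl, rfl⟩)
    · exact Or.inl h1
    · exact Or.inr h1
    · exact Or.inl h2
    · exact Or.inr h2
    · exact Or.inr h1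
    · exact Or.inl h1
  · simp only [TFC.sq, mem_insert, mem_singleton, Sym2.eq_iff] at he
    rcases he with (⟨rfl, rfl⟩ | ⟨rfl, rfl⟩) | (⟨rfl, rfl⟩ | ⟨rfl, rfl⟩) | (⟨rfl, rfl⟩ | ⟨rfl, rfl⟩) |
      (⟨rfl, rfl⟩ | ⟨rfl, rfl⟩)
    · exact Or.inl h1
    · exact Or.inr h1
    · exact Or.inr h2
    · exact Or.inl h2
    · exact Or.inl h2
    · exact Or.inr h2
    · exact Or.inr h1
    · exact Or.inl h1

/-- an edge set with at most one edge at `x` -/
theorem dg_one_eq {K : Finset (Sym2 ℕ)} {x a b : ℕ} (h : dg K x = 1) (ha : s(x, a) ∈ K) (hb : s(x, b) ∈ K) : a = b := by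
  rw [dg, Finset.card_eq_one] at h
  obtain ⟨e, he⟩ := h
  have h1 : s(x, a) ∈ K.filter fun e => x ∈ e := Finset.mem_filter.2 ⟨ha, by simp⟩
  have h2 : s(x, b) ∈ K.filter fun e => x ∈ e := Finset.mem_filter.2 ⟨hb, by simp⟩
  rw [he, Finset.mem_singleton] at h1 h2
  have h3 : s(x, a) = s(x, b) := h1.trans h2.symm
  exact Sym2.congr_right.1 h3

/-- at most two edges at a vertex -/
theorem m2_three {K : Finset (Sym2 ℕ)} (h : M2 K) {x a b c : ℕ} (ha : s(x, a) ∈ K) (hb : s(x, b) ∈ K)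
    (hc : s(x, c) ∈ K) : a = b ∨ a = c ∨ b = c := by
  by_contra hn
  push Not at hn
  obtain ⟨n1, n2, n3⟩ := hn
  have h1 : ({s(x, a), s(x, b), s(x, c)} : Finset (Sym2 ℕ)) ⊆ K.filter fun e => x ∈ e := by
    intro e he
    simp only [mem_insert, mem_singleton] at he
    rcases he with rfl | rfl | rfl
    · exact Finset.mem_filter.2 ⟨ha, by simp⟩
    · exact Finset.mem_filter.2 ⟨hb, by simp⟩
    · exact Finset.mem_filter.2 ⟨hc, by simp⟩
  have h2 := Finset.card_le_card h1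
  rw [card_insert_of_notMem (by
      simp only [mem_insert, mem_singleton, not_or]
      exact ⟨fun g => n1 (Sym2.congr_right.1 g), fun g => n2 (Sym2.congr_right.1 g)⟩),
    card_insert_of_notMem (by
      simp only [mem_singleton]
      exact fun g => n3 (Sym2.congr_right.1 g)), card_singleton] at h2
  have h3 := h.le x
  rw [dg] at h3
  omega

/-- two edges at a vertex -/
theorem two_edges {K : Finset (Sym2 ℕ)} {c : ℕ} (h : 2 ≤ dg K c) :
    ∃ u v, u ≠ v ∧ s(c, u) ∈ K ∧ s(c, v) ∈ K := by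
  rw [dg] at h
  obtain ⟨e, he, f, hf, hef⟩ := Finset.one_lt_card.1 (by omega : 1 < #(K.filter fun e => c ∈ e))
  obtain ⟨he1, u, rfl⟩ := Finset.mem_filter.1 he
  obtain ⟨hf1, v, rfl⟩ := Finset.mem_filter.1 hf
  exact ⟨u, v, fun g => hef (by rw [g]), he1, hf1⟩

/-- **swap**: the edge `s u` is replaced by `x u`, `x` isolated -/
theorem fr3_swap {D : Finset (Finset (Sym2 ℕ))} (hD : ∀ Z ∈ D, IsSh Z) {F : Clu3 ℕ → Prop} {c : Clu3 ℕ}
    {G : Finset (Sym2 ℕ)} {x s u : ℕ} (hxu : x ≠ u) (hne : s ≠ u) (hA : Fr3 D F c G) (hx : ∀ e ∈ G, x ∉ e) (hsu : s(s, u) ∈ G)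
    (hm : F c ∨ M2 G) : Fr3 D F c (insert s(x, u) (G.erase s(s, u))) ∧
      dv (insert s(x, u) (G.erase s(s, u))) = dv G + (Pi.single x 1 - Pi.single s 1) := by
  have hx' : ∀ e ∈ G.erase s(s, u), x ∉ e := fun e he => hx e (Finset.mem_of_mem_erase he)
  have hn : s(x, u) ∉ G.erase s(s, u) := fun g => hx' _ g (by simp)
  refine ⟨fr3_ins hD hxu (Fr3_mono F c _ _ (Finset.erase_subset _ _) hA)
    (fun a ha => absurd (by simp) (hx' _ ha)) ?_, ?_⟩
  · rcases hm with hm | hm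
    · exact Or.inl hm
    · right
      have h1 := dg_erase hsu (v := u)
      have h2 := hm.le u
      rw [if_pos (by simp)] at h1
      omega
  · rw [XT.dv_insert hn, Finset.erase_eq, dv_sdiff (Finset.singleton_subset_iff.2 hsu), dv_pair hne, dv_pair hxu]
    abel

section
variable {X : XD3} {P : ℕ → Finset (Sym2 ℕ) → Prop} {D : Finset (Finset (Sym2 ℕ))} {j m : ℕ} {S : Finset ℕ}
  {M : ℕ → Finset (Sym2 ℕ)} {F : Clu3 ℕ → Prop} {CL U : List (Clu3 ℕ)} {PL : Finset (Sym2 ℕ)}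
  {pl mi : ℕ → Prop}

/-- the edges at the vertices of `S` are in the region -/
theorem WA3.reg (w0 : WA3 X P D j m S M CL U PL) {v : ℕ} (hv : v ∈ S) {e : Sym2 ℕ} (he : e ∈ X.E) (hve : v ∈ e) :
    e ∈ Ucl3 U ∪ PL := by
  obtain ⟨pl, mi, h, _⟩ := w0.cap
  exact h.rch v (XF.Rch.mono (r := 0) (Nat.zero_le 3) hv) e he hve

/-- the cluster of a member of `D` with an edge at `S` -/
theorem WA3.clz (w0 : WA3 X P D j m S M CL U PL) {v : ℕ} (hv : v ∈ S) {Z : Finset (Sym2 ℕ)} (hZ : Z ∈ D)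
    {e : Sym2 ℕ} (he : e ∈ Z) (hve : v ∈ e) : ∃ c ∈ U, Z ⊆ c.edges := by
  obtain ⟨pl, mi, h, _⟩ := w0.cap
  rcases Finset.mem_union.1 (w0.reg hv (h.dE Z hZ he) hve) with h1 | h1
  · obtain ⟨c, hc, hec⟩ := mem_Ucl3.1 h1
    exact ⟨c, hc, h.clz hZ hc he hec⟩
  · exact absurd he (((h.pm e).1 h1).2 Z hZ)

/-- **a free corner of a member of `D` has type N** -/
theorem PW3.n0 (h : PW3 X P D j S M (Fr3 D F) CL U PL pl mi) {Z L : Finset (Sym2 ℕ)} (hZ : Z ∈ D)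
    (hL : Wt3 X P D j Z L) {c : Clu3 ℕ} (hc : c ∈ U) (hZc : Z ⊆ c.edges)
    (hF : ∀ c' ∈ U, c' ≠ c → F c' → NSh (L ∩ c'.edges)) {a b : ℕ} (he : s(a, b) ∈ Z) (ha : a ∉ X.T) :
    ¬ pl a ∧ ¬ mi a := by
  have h1 := h.L1Y hZ hL hc hZc (h.fr_am c) (h.fr_out hZ hL hc hZc hF) he
  have h2 : ¬ mi a := h.free a (h.ok.vn a (h.v2 (h.cW hc (hZc he)) (by simp))) ha
  exact ⟨fun g => h1 ⟨g, h2⟩, h2⟩

/-- the same, all clusters but the one of the member capped -/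
theorem PW3.n1 (h : PW3 X P D j S M (Fr3 D F) CL U PL pl mi) {Z : Finset (Sym2 ℕ)} (hZ : Z ∈ D)
    {c : Clu3 ℕ} (hc : c ∈ U) (hZc : Z ⊆ c.edges) (hF : ∀ c' ∈ U, c' ≠ c → ¬ F c') {a b : ℕ} (he : s(a, b) ∈ Z)
    (ha : a ∉ X.T) : ¬ pl a ∧ ¬ mi a := by
  obtain ⟨L, hL⟩ := h.wt hZ
  exact h.n0 hZ hL hc hZc (fun c' h1 h2 h3 => absurd h3 (hF c' h1 h2)) he ha

/-- a path with three vertices in `c`, the ends of a member of `D` in the inserted set -/
theorem pth_of_mem {Z K : Finset (Sym2 ℕ)} (hZ : IsSh Z) (hK : ¬ Z ⊆ K) {u v : ℕ} (hs : Z ⊆ insert s(u, v) K) :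
    Pth K u v := by
  have h3 : s(u, v) ∈ Z := by
    by_contra hc
    refine hK fun e he => ?_
    rcases Finset.mem_insert.1 (hs he) with rfl | h4
    · exact absurd he hc
    · exact h4
  rcases isSh_first hZ h3 with ⟨c, hd, rfl⟩ | ⟨q, p, hd, rfl⟩
  · obtain ⟨e1, e2⟩ := tri_mem hd hs
    obtain ⟨n1, n2, n3⟩ := hd
    exact Or.inl ⟨c, ⟨n2, n1, n3.symm⟩, by rwa [Sym2.eq_swap], by rwa [Sym2.eq_swap]⟩
  · obtain ⟨e1, e2, e3⟩ := sq_mem hd hs
    obtain ⟨n1, n2, n3, n4, n5, n6⟩ := hd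
    exact Or.inr ⟨p, q, ⟨n3, n2, n1, n6.symm, n5.symm, n4.symm⟩, by rwa [Sym2.eq_swap], by rwa [Sym2.eq_swap],
      by rwa [Sym2.eq_swap]⟩

/-- **P1**: a near cover at a corner `x` whose neighbour `c` in a member of `D` is free -/
theorem WA3.p1 (w0 : WA3 X P D j m S M CL U PL) {x c : ℕ} (hxS : x ∈ S) (hxT : x ∈ X.T) (hcT : c ∉ X.T)
    {Z : Finset (Sym2 ℕ)} (hZ : Z ∈ D) (hxc : s(x, c) ∈ Z) :
    s(x, c) ∈ M x ∨ ∃ c1 ∈ U, Z ⊆ c1.edges ∧ Pth (M x ∩ c1.edges) x c := by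
  obtain ⟨c1, hc1, hZc⟩ := w0.clz hxS hZ hxc (by simp)
  have hcx : s(c, x) ∈ Z := by rw [Sym2.eq_swap]; exact hxc
  rcases k4_or_hb c1 with ⟨Y, hY⟩ | hb
  · -- K4: the capped frame
    obtain ⟨pl, mi, h, -⟩ := w0.cap
    obtain ⟨hn, hn'⟩ := h.n1 hZ hc1 hZc (fun _ _ _ g => g) hcx hcT
    obtain ⟨g1, -, g3⟩ := w0.ow.nc x hxS hxT
    by_contra hcon
    rw [not_or] at hcon
    obtain ⟨k1, k2⟩ := hcon
    push Not at k2
    have k2' := k2 c1 hc1 hZc
    have hM := w0.fr_M h (fun _ g => g.elim) hxS hxT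
    have hxc' : x ≠ c := h.ne (h.cW hc1 (hZc hxc))
    have hmM : M2 (M x ∩ c1.edges) := g1.m2.mono Finset.inter_subset_left
    have dx : dg (M x ∩ c1.edges) x ≤ 1 := by
      rw [← g1.one]; exact dg_mono Finset.inter_subset_left x
    have hcap : Acap D (M x ∩ c1.edges) := w0.mcap x hxS hxT c1 ((h.uc c1).1 hc1).1
    by_cases dc : dg (M x ∩ c1.edges) c ≤ 1
    · -- the edge can be added
      have hA : Acap D (insert s(x, c) (M x ∩ c1.edges)) := by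
        refine ⟨m2_insert3 hmM hxc' dx dc, fun Z' hZ' hs => k2' ?_⟩
        exact pth_of_mem (h.ish Z' hZ') (hcap.2 Z' hZ') hs
      refine hn (h.L3p hxS hxT hM k1 (Or.inr ⟨c1, hc1, hZc hxc, ?_⟩))
      rw [Fr3_neg (fun g => g)]
      exact hA
    · -- two edges at `c`
      subst hY
      obtain ⟨u, v, huv, hu, hv⟩ := two_edges (by omega : 2 ≤ dg (M x ∩ (Clu3.k4 Y).edges) c)
      have hxc2 : s(c, x) ∉ M x := fun g => k1 (by rwa [Sym2.eq_swap])
      have ux : x ≠ u := by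
        rintro rfl
        exact hxc2 (Finset.mem_inter.1 hu).1
      have vx : x ≠ v := by
        rintro rfl
        exact hxc2 (Finset.mem_inter.1 hv).1
      have yx := (mem3_k4.1 (hZc hxc)).1
      have yu := (mem3_k4.1 (Finset.mem_inter.1 hu).2).2.1
      -- `x` is isolated in the part
      have hxn : ∀ e ∈ M x ∩ (Clu3.k4 Y).edges, x ∉ e := by
        rintro e he ⟨t, rfl⟩
        have yt := (mem3_k4.1 (Finset.mem_inter.1 he).2)
        have hYc : #Y = 4 := h.val hc1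
        have yc := (mem3_k4.1 (hZc hxc)).2.1
        have yv := (mem3_k4.1 (Finset.mem_inter.1 hv).2).2.1
        have cu := (mem3_k4.1 (Finset.mem_inter.1 hu).2).2.2
        have cv := (mem3_k4.1 (Finset.mem_inter.1 hv).2).2.2
        have hYe := four_eq hYc (a := x) (b := c) (c := u) (d := v) ⟨hxc', ux, vx, cu, cv, huv⟩ yx yc yu yv
        have ht := yt.2.1
        rw [hYe] at ht
        simp only [mem_insert, mem_singleton] at ht
        rcases ht with rfl | rfl | rfl | rfl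
        · exact yt.2.2 rfl
        · exact k1 (Finset.mem_inter.1 he).1
        · exact k2' (Or.inl ⟨t, ⟨ux, hxc', cu.symm⟩, he, by rwa [Sym2.eq_swap]⟩)
        · exact k2' (Or.inl ⟨t, ⟨vx, hxc', cv.symm⟩, he, by rwa [Sym2.eq_swap]⟩)
      have hA0 : Fr3 D (fun _ => False) (Clu3.k4 Y) (M x ∩ (Clu3.k4 Y).edges) := by
        rw [Fr3_neg fun g => g]; exact hcap
      obtain ⟨hA, hd⟩ := fr3_swap h.ish ux (h.ne (h.cW hc1 (Finset.mem_inter.1 hu).2)) hA0 hxn hu (Or.inr hmM)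
      have h1 := h.nc_rep hxS hxT hc1 (w0.fr_Mc h (fun _ g => g.elim) hxS hxT _)
        (F := insert s(x, u) ((M x ∩ (Clu3.k4 Y).edges).erase s(c, u)))
        (Finset.insert_subset (mem3_k4.2 ⟨yx, yu, ux⟩) ((Finset.erase_subset _ _).trans Finset.inter_subset_right)) hA
      rw [hd] at h1
      have e : (dv (M x ∩ (Clu3.k4 Y).edges) + (Pi.single x 1 - Pi.single c 1) - dv (M x ∩ (Clu3.k4 Y).edges) -
          Pi.single x 1 : ℕ → ℤ) = Pi.single c (-1) := by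
        rw [Pi.single_neg]; abel
      rw [e, ph_one (h.v2 (h.cW hc1 (hZc hxc)) (by simp))] at h1
      exact hn' (con_neg_eq (p := pl c) (by omega))
  · -- two centres: the frame of this cluster
    obtain ⟨pl, mi, h, -⟩ := w0.fr (fun c' => c' = c1) (fun c' g => g ▸ hb)
    obtain ⟨hn, hn'⟩ := h.n1 hZ hc1 hZc (fun _ _ g g2 => g g2) hcx hcT
    have hM := w0.fr_M h (fun c' g => g ▸ hb) hxS hxT
    have hf : Free3 (Fr3 D fun c' => c' = c1) U (M x) s(x, c) :=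
      w0.fr_free h (fun c' g => g ▸ hb) hxS hxT fun c' h1 h2 => h.eqc h1 hc1 h2 (hZc hxc)
    rcases h.L5 hxS hxT hM (h.cW hc1 (hZc hxc)) hf hn with h1 | ⟨c2, h1, h2, h3⟩
    · exact Or.inl h1
    · have := h.eqc h1 hc1 h2 (hZc hxc)
      subst this
      exact Or.inr ⟨c2, h1, hZc, h3⟩

/-- **NC**: `s` and `c` free, `xs` in a member `R` of `D`, `xc` in the cluster of `R`, `c` not a corner of `R` -/
theorem WA3.ncf (w0 : WA3 X P D j m S M CL U PL) {x s c : ℕ} {R : Finset (Sym2 ℕ)} (hR : R ∈ D) {c1 : Clu3 ℕ}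
    (hc1 : c1 ∈ U) (hRc : R ⊆ c1.edges) (hxs : s(x, s) ∈ R) (hxc : s(x, c) ∈ c1.edges) (hcR : ∀ e ∈ R, c ∉ e)
    (hsT : s ∉ X.T) (hcT : c ∉ X.T) : False := by
  obtain ⟨pl, mi, h, -⟩ := w0.cap
  obtain ⟨Z', hZ', hcZ', hZc'⟩ := h.edz hc1 (e := s(c, x)) (by rw [Sym2.eq_swap]; exact hxc)
  have hn := h.n1 hZ' hc1 hZc' (fun _ _ _ g => g) hcZ' hcT
  have hm := h.n1 hR hc1 hRc (fun _ _ _ g => g) (a := s) (b := x) (by rw [Sym2.eq_swap]; exact hxs) hsT
  obtain ⟨L, hL⟩ := h.wt hR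
  have nxs := h.ne (h.cW hc1 (hRc hxs))
  have nxc := h.ne (h.cW hc1 hxc)
  have nsc : s ≠ c := by
    rintro rfl
    exact hcR _ hxs (by simp)
  have hO := h.fr_out hR hL hc1 hRc (fun _ _ _ g => g.elim)
  -- the new part
  have hmR := (h.ish R hR).m2
  have hcn : s(x, c) ∉ R \ {s(x, s)} := fun g => hcR _ (Finset.mem_sdiff.1 g).1 (by simp)
  have h1 := h.wz hR hL hc1 hRc hO (F := insert s(x, c) (R \ {s(x, s)}))
    (Finset.insert_subset hxc (Finset.sdiff_subset.trans hRc))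
    (by
      rw [Sym2.eq_swap]
      refine fr3_ins h.ish nxc.symm ?_ (fun a ha => absurd (by simp) (hcR _ (Finset.mem_sdiff.1 ha).1)) (Or.inr ?_)
      · exact am3_sub (h.fr_am c1) (h.ish R hR) hRc (Finset.singleton_subset_iff.2 hxs) (by simp)
      · have h1 := dg_erase hxs (v := x)
        have h2 := hmR.le x
        rw [if_pos (by simp), Finset.erase_eq] at h1
        omega)
  rw [XT.dv_insert hcn, dv_sdiff (Finset.singleton_subset_iff.2 hxs), dv_pair nxs, dv_pair nxc] at h1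
  have e : (dv R - (Pi.single x 1 + Pi.single s 1) + (Pi.single x 1 + Pi.single c 1) - dv R : ℕ → ℤ) =
      Pi.single s (-1) + Pi.single c 1 := by
    rw [Pi.single_neg]; abel
  rw [e, ph_two (h.v2 (h.cW hc1 (hRc hxs)) (by simp)) (h.v2 (h.cW hc1 hxc) (by simp)) nsc, con_N hn.1 hn.2,
    con_N hm.1 hm.2] at h1
  omega

end

/-- **END**: two worlds with the same near covers; `x` has a free neighbour `c` in a member `Q` of `D1` and a free
neighbour `s` in a member `R` of `D2` -/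
theorem st_end2 {X₁ X₂ : XD3} {P₁ P₂ : ℕ → Finset (Sym2 ℕ) → Prop} {D₁ D₂ : Finset (Finset (Sym2 ℕ))}
    {j₁ m₁ j₂ m₂ : ℕ} {S₁ S₂ : Finset ℕ} {M : ℕ → Finset (Sym2 ℕ)} {CL₁ U₁ CL₂ U₂ : List (Clu3 ℕ)}
    {PL₁ PL₂ : Finset (Sym2 ℕ)} (w1 : WA3 X₁ P₁ D₁ j₁ m₁ S₁ M CL₁ U₁ PL₁)
    (w2 : WA3 X₂ P₂ D₂ j₂ m₂ S₂ M CL₂ U₂ PL₂)
    (hT : X₁.T = X₂.T) {x c s : ℕ} (hxS : x ∈ S₁) (hxS2 : x ∈ S₂) (hxT : x ∈ X₁.T) (hcs : c ≠ s) (hcT : c ∉ X₁.T) (hsT : s ∉ X₁.T)
    {Q R : Finset (Sym2 ℕ)} (hQ : Q ∈ D₁) (hR : R ∈ D₂) (hxc : s(x, c) ∈ Q) (hxs : s(x, s) ∈ R)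
    (hcR : ∀ e ∈ R, c ∉ e) (hsQ : ∀ e ∈ Q, s ∉ e) : False := by
  obtain ⟨g1, -, -⟩ := w1.ow.nc x hxS hxT
  have one := g1.one
  have m2 := g1.m2
  have uq : ∀ {a b : ℕ}, s(x, a) ∈ M x → s(x, b) ∈ M x → a = b := fun ha hb => dg_one_eq one ha hb
  have hsT2 : s ∉ X₂.T := hT ▸ hsT
  have hcT2 : c ∉ X₂.T := hT ▸ hcT
  have p1 := w1.p1 hxS hxT hcT hQ hxc
  have p2 := w2.p1 hxS2 (hT ▸ hxT) hsT2 hR hxs
  -- an edge `c s` in a cluster
  obtain ⟨_, _, h1, -⟩ := w1.cap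
  obtain ⟨_, _, h2, -⟩ := w2.cap
  have f1 : ∀ c1 ∈ U₁, s(c, s) ∉ c1.edges := by
    intro c1 hc1 he
    obtain ⟨Z, hZ, heZ, -⟩ := h1.edz hc1 he
    rcases st_edge (w1.ow.blk.hs Z hZ).1 heZ with g | g
    · exact hcT g
    · exact hsT g
  have f2 : ∀ c1 ∈ U₂, s(c, s) ∉ c1.edges := by
    intro c1 hc1 he
    obtain ⟨Z, hZ, heZ, -⟩ := h2.edz hc1 he
    rcases st_edge (w2.ow.blk.hs Z hZ).1 heZ with g | g
    · exact hcT2 g
    · exact hsT2 g
  rcases p1 with a1 | ⟨c1, hc1, hQc, a1⟩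
  · rcases p2 with b1 | ⟨c2, hc2, hRc, b1⟩
    · exact hcs (uq a1 b1)
    · rcases b1 with ⟨u, -, b1, b2⟩ | ⟨u, v, -, b1, b2, b3⟩
      · obtain rfl := uq a1 (Finset.mem_inter.1 b1).1
        exact f2 c2 hc2 (Finset.mem_inter.1 b2).2
      · obtain rfl := uq a1 (Finset.mem_inter.1 b1).1
        exact w2.ncf hR hc2 hRc hxs (Finset.mem_inter.1 b1).2 hcR hsT2 hcT2
  · rcases p2 with b1 | ⟨c2, hc2, hRc, b1⟩
    · rcases a1 with ⟨u, -, a1, a2⟩ | ⟨u, v, -, a1, a2, a3⟩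
      · obtain rfl := uq b1 (Finset.mem_inter.1 a1).1
        exact f1 c1 hc1 (by rw [Sym2.eq_swap]; exact (Finset.mem_inter.1 a2).2)
      · obtain rfl := uq b1 (Finset.mem_inter.1 a1).1
        exact w1.ncf hQ hc1 hQc hxc (Finset.mem_inter.1 a1).2 hsQ hcT hsT
    · have sw : ∀ {a b : ℕ}, s(a, b) ∈ M x → s(b, a) ∈ M x := fun h => by rwa [Sym2.eq_swap]
      rcases a1 with ⟨u, ⟨n1, n2, n3⟩, a1, a2⟩ | ⟨u, v, ⟨n1, n2, n3, n4, n5, n6⟩, a1, a2, a3⟩
      · rcases b1 with ⟨u', ⟨m1, m2', m3⟩, b1, b2⟩ | ⟨u', v', ⟨m1, m2', m3, m4, m5, m6⟩, b1, b2, b3⟩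
        · obtain rfl := uq (Finset.mem_inter.1 a1).1 (Finset.mem_inter.1 b1).1
          rcases m2_three m2 (sw (Finset.mem_inter.1 a1).1) (Finset.mem_inter.1 a2).1 (Finset.mem_inter.1 b2).1 with
            g | g | g
          · exact n2 g
          · exact m2' g
          · exact hcs g
        · obtain rfl := uq (Finset.mem_inter.1 a1).1 (Finset.mem_inter.1 b1).1
          rcases m2_three m2 (sw (Finset.mem_inter.1 a1).1) (Finset.mem_inter.1 a2).1 (Finset.mem_inter.1 b2).1 with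
            g | g | g
          · exact n2 g
          · exact m2' g
          · rw [← g] at b3
            exact f2 c2 hc2 (Finset.mem_inter.1 b3).2
      · rcases b1 with ⟨u', ⟨m1, m2', m3⟩, b1, b2⟩ | ⟨u', v', ⟨m1, m2', m3, m4, m5, m6⟩, b1, b2, b3⟩
        · obtain rfl := uq (Finset.mem_inter.1 a1).1 (Finset.mem_inter.1 b1).1
          rcases m2_three m2 (sw (Finset.mem_inter.1 a1).1) (Finset.mem_inter.1 a2).1 (Finset.mem_inter.1 b2).1 with
            g | g | g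
          · exact n2 g
          · exact m2' g
          · rw [g] at a3
            exact f1 c1 hc1 (by rw [Sym2.eq_swap]; exact (Finset.mem_inter.1 a3).2)
        · obtain rfl := uq (Finset.mem_inter.1 a1).1 (Finset.mem_inter.1 b1).1
          rcases m2_three m2 (sw (Finset.mem_inter.1 a1).1) (Finset.mem_inter.1 a2).1 (Finset.mem_inter.1 b2).1 with
            g | g | g
          · exact n2 g
          · exact m2' g
          · subst g
            rcases m2_three m2 (sw (Finset.mem_inter.1 a2).1) (Finset.mem_inter.1 a3).1 (Finset.mem_inter.1 b3).1 with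
              g | g | g
            · exact n5 g
            · exact m5 g
            · exact hcs g

end Pool.Agent.P34

end

section -- file P34/ST2

/-!
Two conflicting short cycles, one of them a triangle: replacing the part of a witness in one cluster.
-/

set_option autoImplicit false

namespace Pool.Agent.P34

open Finset Pool.Agent.TFC Pool.Agent.PF4 Pool.Agent.PF4.LD Pool.Agent.PF4.XC Pool.Agent.PF4.XT
open Pool.Agent.PF4.XF (XD FitK Cv World WJ Av NC Rch dg_off mem_k4 mem_k2)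

theorem con_add_le (p m : Prop) (a b : ℤ) : con p m (a + b) ≤ con p m a + con p m b := by
  unfold con
  split_ifs
  · omega
  · omega
  · omega
  · omega

theorem ph_add_le (V : Finset ℕ) (pl mi : ℕ → Prop) (d d' : ℕ → ℤ) :
    ph V pl mi (d + d') ≤ ph V pl mi d + ph V pl mi d' := by
  unfold ph
  rw [← Finset.sum_add_distrib]
  exact Finset.sum_le_sum fun v _ => con_add_le _ _ _ _

/-- the part `G` in the cluster `c` can be replaced, with the change `δ` of the degree vector -/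
def Rpl (D : Finset (Finset (Sym2 ℕ))) (F : Clu3 ℕ → Prop) (c : Clu3 ℕ) (G : Finset (Sym2 ℕ)) (δ : ℕ → ℤ) : Prop :=
  ∃ K ⊆ c.edges, Fr3 D F c K ∧ dv K = dv G + δ

/-- a 2-matching in a cluster with two centres which contains a short cycle -/
theorem hub_cyc {c : Clu3 ℕ} (hv : c.Valid) {u v : ℕ} {L : Finset ℕ} (hh : Hub c u v L) {G : Finset (Sym2 ℕ)}
    (hG : G ⊆ c.edges) (hm : M2 G) (hs : ¬ NSh G) :
    (Hub1 c u v L ∧ ∃ l ∈ L, G = tri u v l) ∨ ∃ a ∈ L, ∃ b ∈ L, a ≠ b ∧ G = TFC.sq u a v b := by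
  unfold NSh at hs
  push Not at hs
  obtain ⟨Z, hZ, hZG⟩ := hs
  have h1 := inter_eq3 hv hZ (hZG.trans hG) hm hZG
  rw [Finset.inter_eq_left.2 hG] at h1
  rw [h1]
  exact hh.sh hv hZ (hZG.trans hG)

/-- the edges of a cluster with two centres -/
theorem Hub.edge {c : Clu3 ℕ} {u v : ℕ} {L : Finset ℕ} (hh : Hub c u v L) {a b : ℕ} (he : s(a, b) ∈ c.edges) :
    ((a = u ∧ b = v) ∨ (a = v ∧ b = u)) ∨ ((a = u ∨ a = v) ∧ b ∈ L) ∨ ((b = u ∨ b = v) ∧ a ∈ L) :=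
  mem3_k11.1 (hh.sup he)

theorem Hub.ul {c : Clu3 ℕ} {u v : ℕ} {L : Finset ℕ} (hh : Hub c u v L) {l : ℕ} (hl : l ∈ L) : s(u, l) ∈ c.edges :=
  hh.sub (mem_k2.2 (Or.inl ⟨Or.inl rfl, hl⟩))

theorem Hub.vl {c : Clu3 ℕ} {u v : ℕ} {L : Finset ℕ} (hh : Hub c u v L) {l : ℕ} (hl : l ∈ L) : s(v, l) ∈ c.edges :=
  hh.sub (mem_k2.2 (Or.inl ⟨Or.inr rfl, hl⟩))

theorem Hb.hub {c : Clu3 ℕ} (h : Hb c) : ∃ u v L, Hub c u v L := by
  obtain ⟨a, b, L, h | h⟩ := h
  · exact ⟨a, b, L, Or.inl h⟩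
  · exact ⟨a, b, L, Or.inr (Or.inr (Or.inl h))⟩

section
variable {X : XD3} {P : ℕ → Finset (Sym2 ℕ) → Prop} {D : Finset (Finset (Sym2 ℕ))} {j m : ℕ} {S : Finset ℕ}
  {M : ℕ → Finset (Sym2 ℕ)} {F : Clu3 ℕ → Prop} {CL U : List (Clu3 ℕ)} {PL : Finset (Sym2 ℕ)}
  {pl mi : ℕ → Prop}

/-- one leaf `t` of type X: what the near cover at the centre `u` contains -/
theorem WA3.vx1 (w0 : WA3 X P D j m S M CL U PL) (h : PW3 X P D j S M (Fr3 D F) CL U PL pl mi)
    (hF : ∀ c, F c → Hb c) {c : Clu3 ℕ} (hc : c ∈ U) (hn : ¬ F c) {u v : ℕ} {L : Finset ℕ} (hh : Hub c u v L)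
    (hu : u ∈ S) (hT : u ∈ X.T) {t : ℕ} (ht : t ∈ L) (hX : ¬ pl t) :
    s(u, t) ∈ M u ∨ (s(v, t) ∈ M u ∧ (s(u, v) ∈ M u ∨ ∃ t' ∈ L, t' ≠ t ∧ s(u, t') ∈ M u ∧ s(t', v) ∈ M u ∧
      TFC.sq u t v t' ∈ D)) := by
  obtain ⟨uv, uL, vL, _⟩ := hh.dat (h.val hc)
  obtain ⟨g1, -, g3⟩ := w0.ow.nc u hu hT
  by_contra hcon
  rw [not_or] at hcon
  obtain ⟨k1, k2⟩ := hcon
  have ut : u ≠ t := fun e => uL (e ▸ ht)
  have vt : v ≠ t := fun e => vL (e ▸ ht)
  have hmM : M2 (M u ∩ c.edges) := g1.m2.mono Finset.inter_subset_left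
  have du : dg (M u ∩ c.edges) u ≤ 1 := by
    rw [← g1.one]; exact dg_mono Finset.inter_subset_left u
  have hcap : Acap D (M u ∩ c.edges) := w0.mcap u hu hT c ((h.uc c).1 hc).1
  -- the neighbours of `t` in the near cover
  have tn : ∀ a, s(t, a) ∈ M u ∩ c.edges → a = v := by
    intro a ha
    obtain ⟨ha1, ha2⟩ := Finset.mem_inter.1 ha
    rcases hh.edge ha2 with (⟨g, _⟩ | ⟨g, _⟩) | (⟨g | g, _⟩ | ⟨g | g, _⟩)
    · exact absurd g.symm ut
    · exact absurd g.symm vt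
    · exact absurd g.symm ut
    · exact absurd g.symm vt
    · rw [g] at ha1; exact absurd (by rwa [Sym2.eq_swap]) k1
    · exact g
  have dt : dg (M u ∩ c.edges) t ≤ 1 := by
    by_contra hd
    obtain ⟨a, b, hab, ha, hb⟩ := two_edges (by omega : 2 ≤ dg (M u ∩ c.edges) t)
    exact hab ((tn a ha).trans (tn b hb).symm)
  have hnA : ¬ Acap D (insert s(u, t) (M u ∩ c.edges)) := by
    intro hA
    refine hX (h.L3p hu hT (w0.fr_M h hF hu hT) k1 (Or.inr ⟨c, hc, hh.ul ht, ?_⟩))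
    rw [Fr3_neg hn]
    exact hA
  have hnD : ∃ Z ∈ D, Z ⊆ insert s(u, t) (M u ∩ c.edges) := by
    by_contra hc'
    push Not at hc'
    exact hnA ⟨m2_insert3 hmM ut du dt, hc'⟩
  obtain ⟨Z, hZ, hZs⟩ := hnD
  have heZ : s(u, t) ∈ Z := by
    by_contra hc'
    refine hcap.2 Z hZ fun e he => ?_
    rcases Finset.mem_insert.1 (hZs he) with rfl | h4
    · exact absurd he hc'
    · exact h4
  refine k2 ?_
  rcases isSh_first (h.ish Z hZ) heZ with ⟨a, hd, rfl⟩ | ⟨a, b, hd, rfl⟩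
  · obtain ⟨e1, e2⟩ := tri_mem hd hZs
    have := tn a e1
    subst this
    exact ⟨by rw [Sym2.eq_swap]; exact (Finset.mem_inter.1 e1).1,
      Or.inl (by rw [Sym2.eq_swap]; exact (Finset.mem_inter.1 e2).1)⟩
  · obtain ⟨e1, e2, e3⟩ := sq_mem hd hZs
    have := tn a e1
    subst this
    obtain ⟨n1, n2, n3, n4, n5, n6⟩ := hd
    have hb : b ∈ L := by
      rcases hh.edge (Finset.mem_inter.1 e3).2 with (⟨g, _⟩ | ⟨g, _⟩) | (⟨g | g, _⟩ | ⟨g | g, g'⟩)
      · exact absurd g.symm n3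
      · exact absurd g.symm n6
      · exact absurd g.symm n3
      · exact absurd g.symm n6
      · exact g'
      · exact absurd g n2
    exact ⟨by rw [Sym2.eq_swap]; exact (Finset.mem_inter.1 e1).1, Or.inr ⟨b, hb, n5.symm, by
      rw [Sym2.eq_swap]; exact (Finset.mem_inter.1 e3).1, by rw [Sym2.eq_swap]; exact (Finset.mem_inter.1 e2).1, hZ⟩⟩

/-- **(V)**: the leaves of a square outside of `D` are not both of type X -/
theorem WA3.vx (w0 : WA3 X P D j m S M CL U PL) (h : PW3 X P D j S M (Fr3 D F) CL U PL pl mi)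
    (hF : ∀ c, F c → Hb c) {c : Clu3 ℕ} (hc : c ∈ U) (hn : ¬ F c) {u v : ℕ} {L : Finset ℕ} (hh : Hub c u v L)
    (hu : u ∈ S) (hT : u ∈ X.T) {l l' : ℕ} (hl : l ∈ L) (hl' : l' ∈ L) (hne : l ≠ l')
    (hD : TFC.sq u l v l' ∉ D) : con (pl l) (mi l) (-2) ≤ 0 ∨ con (pl l') (mi l') (-2) ≤ 0 := by
  by_contra hcon
  rw [not_or] at hcon
  obtain ⟨c1, c2⟩ := hcon
  obtain ⟨-, x1⟩ := con_neg_two (p := pl l) (m := mi l) (by omega)
  obtain ⟨-, x2⟩ := con_neg_two (p := pl l') (m := mi l') (by omega)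
  obtain ⟨uv, uL, vL, _⟩ := hh.dat (h.val hc)
  obtain ⟨g1, -, g3⟩ := w0.ow.nc u hu hT
  have uq : ∀ {a b : ℕ}, s(u, a) ∈ M u → s(u, b) ∈ M u → a = b := fun ha hb => dg_one_eq g1.one ha hb
  have sw : ∀ {a b : ℕ}, s(a, b) ∈ M u → s(b, a) ∈ M u := fun h => by rwa [Sym2.eq_swap]
  have lv : ∀ {t}, t ∈ L → t ≠ v := fun ht e => vL (e ▸ ht)
  have lu : ∀ {t}, t ∈ L → t ≠ u := fun ht e => uL (e ▸ ht)
  have a1 := w0.vx1 h hF hc hn hh hu hT hl x1
  have a2 := w0.vx1 h hF hc hn hh hu hT hl' x2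
  have key : ∀ {l l' : ℕ}, l ∈ L → l' ∈ L → l ≠ l' → TFC.sq u l v l' ∉ D → s(u, l) ∈ M u →
      (s(u, l') ∈ M u ∨ (s(v, l') ∈ M u ∧ (s(u, v) ∈ M u ∨ ∃ t' ∈ L, t' ≠ l' ∧ s(u, t') ∈ M u ∧ s(t', v) ∈ M u ∧
      TFC.sq u l' v t' ∈ D))) → False := by
    intro l l' hl hl' hne hD b1 b2
    rcases b2 with b2 | ⟨b2, b3 | ⟨t', _, b4, b5, b6, b7⟩⟩
    · exact hne (uq b1 b2)
    · exact lv hl (uq b1 b3)
    · obtain rfl := uq b1 b5
      rw [sq_swp3] at b7
      exact hD b7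
  rcases a1 with a1 | ⟨a1, a3⟩
  · exact key hl hl' hne hD a1 a2
  · rcases a2 with a2 | ⟨a2, a4⟩
    · refine key hl' hl hne.symm (by rw [sq_swp3]; exact hD) a2 (Or.inr ⟨a1, a3⟩)
    · -- neither
      rcases a3 with a3 | ⟨t', b1, b2, b3, b4, b5⟩
      · rcases m2_three g1.m2 a1 a2 (sw a3) with g | g | g
        · exact hne g
        · exact lu hl g
        · exact lu hl' g
      · rcases m2_three g1.m2 a1 a2 (sw b4) with g | g | g
        · exact hne g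
        · exact b2 g.symm
        · subst g
          refine key hl' hl hne.symm (by rw [sq_swp3]; exact hD) b3 (Or.inr ⟨a1, Or.inr ⟨l', b1, b2, b3, b4, b5⟩⟩)

theorem ph_neg_two (h : PW3 X P D j S M (Fr3 D F) CL U PL pl mi) {c : Clu3 ℕ} (hc : c ∈ U) {u v : ℕ}
    {L : Finset ℕ} (hh : Hub c u v L) {l : ℕ} (hl : l ∈ L) (hn : con (pl l) (mi l) (-2) ≤ 0) :
    ph X.V2 pl mi (Pi.single l (-2)) ≤ 0 := by
  rw [ph_one (h.hV hc hh (Or.inr (Or.inr hl)))]
  exact hn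

/-- the part is a short cycle in a cluster with the centres `u`, `v`; the edge `v x`, `x` another leaf -/
theorem WA3.cyc1 (w0 : WA3 X P D j m S M CL U PL) (h : PW3 X P D j S M (Fr3 D F) CL U PL pl mi)
    (hF : ∀ c, F c → Hb c) {c : Clu3 ℕ} (hc : c ∈ U) (hn : ¬ F c) {u v : ℕ} {L : Finset ℕ} (hh : Hub c u v L)
    (hu : u ∈ S) (hT : u ∈ X.T) {G : Finset (Sym2 ℕ)} (hG : G ⊆ c.edges) (hm : M2 G) (hs : ¬ NSh G) (hGD : G ∉ D)
    {x : ℕ} (hx : x ∈ L) (hxG : ∀ e ∈ G, x ∉ e) :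
    ∃ ε, ph X.V2 pl mi ε ≤ 0 ∧ Rpl D F c G (Pi.single x 1 + Pi.single u (-1) + ε) := by
  obtain ⟨uv, uL, vL, _⟩ := hh.dat (h.val hc)
  have lv : ∀ {t}, t ∈ L → t ≠ v := fun ht e => vL (e ▸ ht)
  have lu : ∀ {t}, t ∈ L → t ≠ u := fun ht e => uL (e ▸ ht)
  have hsub : ∀ l ∈ L, hp u l v x ⊆ c.edges := by
    intro l hl e he
    simp only [hp, mem_insert, mem_singleton] at he
    rcases he with rfl | rfl | rfl
    · exact hh.ul hl
    · rw [Sym2.eq_swap]; exact hh.vl hl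
    · exact hh.vl hx
  have hA : ∀ l ∈ L, l ≠ x → Fr3 D F c (hp u l v x) := by
    intro l hl hlx
    have hd : Dist4 u l v x := ⟨(lu hl).symm, uv, (lu hx).symm, lv hl, hlx, (lv hx).symm⟩
    exact fr3_nsh h.ish (hp_nsh hd) fun _ => hp_m2 hd
  rcases hub_cyc (h.val hc) hh hG hm hs with ⟨-, l, hl, rfl⟩ | ⟨l, hl, l', hl', hne, rfl⟩
  · have lx : l ≠ x := by
      rintro rfl
      exact hxG s(v, l) (by simp [tri]) (by simp)
    have hd : Dist4 u l v x := ⟨(lu hl).symm, uv, (lu hx).symm, lv hl, lx, (lv hx).symm⟩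
    refine ⟨0, by rw [ph_zero], _, hsub l hl, hA l hl lx, ?_⟩
    rw [hp_dv hd, dv_tri ⟨uv, (lu hl).symm, (lv hl).symm⟩]
    funext w
    simp only [Pi.add_apply, Pi.zero_apply, sgl, ev_apply]
    split_ifs <;> ring
  · have key : ∀ {l l' : ℕ}, l ∈ L → l' ∈ L → l ≠ l' → l ≠ x → con (pl l') (mi l') (-2) ≤ 0 →
        ∃ ε, ph X.V2 pl mi ε ≤ 0 ∧ Rpl D F c (TFC.sq u l v l') (Pi.single x 1 + Pi.single u (-1) + ε) := by
      intro l l' hl hl' hne lx hc2
      have hd : Dist4 u l v x := ⟨(lu hl).symm, uv, (lu hx).symm, lv hl, lx, (lv hx).symm⟩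
      have hd2 : Dist4 u l v l' := ⟨(lu hl).symm, uv, (lu hl').symm, lv hl, hne, (lv hl').symm⟩
      refine ⟨Pi.single l' (-2), ph_neg_two h hc hh hl' hc2, _, hsub l hl, hA l hl lx, ?_⟩
      rw [hp_dv hd, dv_sq hd2]
      funext w
      simp only [Pi.add_apply, sgl, ev_apply]
      split_ifs <;> ring
    have l1 : l ≠ x := by
      rintro rfl
      exact hxG s(u, l) (by simp [TFC.sq]) (by simp)
    have l2 : l' ≠ x := by
      rintro rfl
      exact hxG s(v, l') (by simp [TFC.sq]) (by simp)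
    rcases w0.vx h hF hc hn hh hu hT hl hl' hne hGD with h1 | h1
    · rw [sq_swp3]
      exact key hl' hl hne.symm l2 h1
    · exact key hl hl' hne l1 h1

/-- the part is a short cycle in a cluster with the centres `u`, `v`; the edges `u x` and `v y`, `x`, `y` other leaves -/
theorem WA3.cyc2 (w0 : WA3 X P D j m S M CL U PL) (h : PW3 X P D j S M (Fr3 D F) CL U PL pl mi)
    (hF : ∀ c, F c → Hb c) {c : Clu3 ℕ} (hc : c ∈ U) (hn : ¬ F c) {u v : ℕ} {L : Finset ℕ} (hh : Hub c u v L)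
    (hu : u ∈ S) (hT : u ∈ X.T) {G : Finset (Sym2 ℕ)} (hG : G ⊆ c.edges) (hm : M2 G) (hs : ¬ NSh G) (hGD : G ∉ D)
    {x y : ℕ} (hx : x ∈ L) (hxG : ∀ e ∈ G, x ∉ e) (hy : y ∈ L) (hyG : ∀ e ∈ G, y ∉ e) (hxy : x ≠ y) :
    ∃ ε, ph X.V2 pl mi ε ≤ 0 ∧ Rpl D F c G (Pi.single x 1 + Pi.single y 1 + ε) := by
  obtain ⟨uv, uL, vL, _⟩ := hh.dat (h.val hc)
  have lv : ∀ {t}, t ∈ L → t ≠ v := fun ht e => vL (e ▸ ht)
  have lu : ∀ {t}, t ∈ L → t ≠ u := fun ht e => uL (e ▸ ht)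
  have nd : ∀ {l}, l ∈ L → l ≠ x → l ≠ y → [x, u, l, v, y].Nodup := by
    intro l hl lx ly
    simp only [List.nodup_cons, List.mem_cons, List.not_mem_nil, or_false, not_or, List.nodup_nil, and_true,
      not_false_eq_true]
    exact ⟨⟨lu hx, lx.symm, lv hx, hxy⟩, ⟨(lu hl).symm, uv, (lu hy).symm⟩, ⟨lv hl, ly⟩, (lv hy).symm⟩
  have hsub : ∀ l ∈ L, ({s(x, u), s(u, l), s(l, v), s(v, y)} : Finset (Sym2 ℕ)) ⊆ c.edges := by
    intro l hl e he
    simp only [mem_insert, mem_singleton] at he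
    rcases he with rfl | rfl | rfl | rfl
    · rw [Sym2.eq_swap]; exact hh.ul hx
    · exact hh.ul hl
    · rw [Sym2.eq_swap]; exact hh.vl hl
    · exact hh.vl hy
  rcases hub_cyc (h.val hc) hh hG hm hs with ⟨-, l, hl, rfl⟩ | ⟨l, hl, l', hl', hne, rfl⟩
  · have lx : l ≠ x := by
      rintro rfl
      exact hxG s(v, l) (by simp [tri]) (by simp)
    have ly : l ≠ y := by
      rintro rfl
      exact hyG s(v, l) (by simp [tri]) (by simp)
    obtain ⟨p1, p2⟩ := pth4_3 (F := F) (c := c) h.ish (nd hl lx ly)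
    refine ⟨0, by rw [ph_zero], _, hsub l hl, p1, ?_⟩
    rw [p2, dv_tri ⟨uv, (lu hl).symm, (lv hl).symm⟩]
    funext w
    simp only [Pi.add_apply, Pi.zero_apply, sgl, ev_apply]
    split_ifs <;> ring
  · have key : ∀ {l l' : ℕ}, l ∈ L → l' ∈ L → l ≠ l' → l ≠ x → l ≠ y → con (pl l') (mi l') (-2) ≤ 0 →
        ∃ ε, ph X.V2 pl mi ε ≤ 0 ∧ Rpl D F c (TFC.sq u l v l') (Pi.single x 1 + Pi.single y 1 + ε) := by
      intro l l' hl hl' hne lx ly hc2
      have hd2 : Dist4 u l v l' := ⟨(lu hl).symm, uv, (lu hl').symm, lv hl, hne, (lv hl').symm⟩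
      obtain ⟨p1, p2⟩ := pth4_3 (F := F) (c := c) h.ish (nd hl lx ly)
      refine ⟨Pi.single l' (-2), ph_neg_two h hc hh hl' hc2, _, hsub l hl, p1, ?_⟩
      rw [p2, dv_sq hd2]
      funext w
      simp only [Pi.add_apply, sgl, ev_apply]
      split_ifs <;> ring
    have l1 : l ≠ x := by
      rintro rfl
      exact hxG s(u, l) (by simp [TFC.sq]) (by simp)
    have l2 : l' ≠ x := by
      rintro rfl
      exact hxG s(v, l') (by simp [TFC.sq]) (by simp)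
    have l3 : l ≠ y := by
      rintro rfl
      exact hyG s(u, l) (by simp [TFC.sq]) (by simp)
    have l4 : l' ≠ y := by
      rintro rfl
      exact hyG s(v, l') (by simp [TFC.sq]) (by simp)
    rcases w0.vx h hF hc hn hh hu hT hl hl' hne hGD with h1 | h1
    · rw [sq_swp3]
      exact key hl' hl hne.symm l2 l4 h1
    · exact key hl hl' hne l1 l3 h1

end

end Pool.Agent.P34

end

section -- file P34/ST3

/-!
Two conflicting short cycles, one of them a triangle: the local moves in one cluster.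
-/

set_option autoImplicit false

namespace Pool.Agent.P34

open Finset Pool.Agent.TFC Pool.Agent.PF4 Pool.Agent.PF4.LD Pool.Agent.PF4.XC Pool.Agent.PF4.XT
open Pool.Agent.PF4.XF (XD FitK Cv World WJ Av NC Rch dg_off mem_k4 mem_k2)

/-- the part `G` in the cluster `c` in the frame `F` -/
structure CG (D : Finset (Finset (Sym2 ℕ))) (F : Clu3 ℕ → Prop) (c : Clu3 ℕ) (G : Finset (Sym2 ℕ)) : Prop where
  sub : G ⊆ c.edges
  m2 : M2 G
  df : ∀ Z ∈ D, ¬ Z ⊆ G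
  fs : F c → NSh G

theorem CG.fr {D : Finset (Finset (Sym2 ℕ))} {F : Clu3 ℕ → Prop} {c : Clu3 ℕ} {G : Finset (Sym2 ℕ)}
    (h : CG D F c G) : Fr3 D F c G := Fr3_of h.fs fun _ => ⟨h.m2, h.df⟩

theorem CG.nD {D : Finset (Finset (Sym2 ℕ))} {F : Clu3 ℕ → Prop} {c : Clu3 ℕ} {G : Finset (Sym2 ℕ)}
    (h : CG D F c G) : G ∉ D := fun hG => h.df G hG le_rfl

/-- both centres are covered by a short cycle -/
theorem hub_cov {c : Clu3 ℕ} (hv : c.Valid) {u v : ℕ} {L : Finset ℕ} (hh : Hub c u v L) {G : Finset (Sym2 ℕ)}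
    (hG : G ⊆ c.edges) (hm : M2 G) (hs : ¬ NSh G) : (∃ e ∈ G, u ∈ e) ∧ ∃ e ∈ G, v ∈ e := by
  rcases hub_cyc hv hh hG hm hs with ⟨-, l, hl, rfl⟩ | ⟨l, hl, l', hl', hne, rfl⟩
  · exact ⟨⟨s(u, v), by simp [tri], by simp⟩, ⟨s(u, v), by simp [tri], by simp⟩⟩
  · exact ⟨⟨s(u, l), by simp [TFC.sq], by simp⟩, ⟨s(l, v), by simp [TFC.sq], by simp⟩⟩

/-- a covered leaf of a short cycle is joined to both centres -/
theorem st_hub_leaf {c : Clu3 ℕ} (hv : c.Valid) {u v : ℕ} {L : Finset ℕ} (hh : Hub c u v L) {G : Finset (Sym2 ℕ)}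
    (hG : G ⊆ c.edges) (hm : M2 G) (hs : ¬ NSh G) {l : ℕ} (hl : l ∈ L) (hlG : ∃ e ∈ G, l ∈ e) : s(u, l) ∈ G := by
  obtain ⟨uv, uL, vL, _⟩ := hh.dat hv
  have lv : ∀ {t}, t ∈ L → t ≠ v := fun ht e => vL (e ▸ ht)
  have lu : ∀ {t}, t ∈ L → t ≠ u := fun ht e => uL (e ▸ ht)
  obtain ⟨e, he, hle⟩ := hlG
  rcases hub_cyc hv hh hG hm hs with ⟨-, a, ha, rfl⟩ | ⟨a, ha, b, hb, hne, rfl⟩
  · rcases tri_vx ⟨e, he, hle⟩ with g | g | g
    · exact absurd g (lu hl)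
    · exact absurd g (lv hl)
    · subst g
      simp only [tri, mem_insert, mem_singleton]
      exact Or.inr (Or.inr Sym2.eq_swap)
  · rcases sq_ends he hle with g | g | g | g
    · exact absurd g (lu hl)
    · subst g; simp [TFC.sq]
    · exact absurd g (lv hl)
    · subst g
      simp only [TFC.sq, mem_insert, mem_singleton]
      exact Or.inr (Or.inr (Or.inr Sym2.eq_swap))

/-- **move**: the only edge `r b` at `b` is replaced by `b s` -/
theorem fr3_move {D : Finset (Finset (Sym2 ℕ))} (hD : ∀ Z ∈ D, IsSh Z) {F : Clu3 ℕ → Prop} {c : Clu3 ℕ}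
    {G : Finset (Sym2 ℕ)} {r s b : ℕ} (hbs : b ≠ s) (hrb : r ≠ b) (hA : Fr3 D F c G) (hb : ∀ a, s(b, a) ∈ G → a = r)
    (hG : s(r, b) ∈ G) (hrs : r ≠ s) (hm : F c ∨ dg (G.erase s(r, b)) s ≤ 1) :
    Fr3 D F c (insert s(b, s) (G.erase s(r, b))) ∧
      dv (insert s(b, s) (G.erase s(r, b))) = dv G + (Pi.single r (-1) + Pi.single s 1) := by
  have hx : ∀ e ∈ G.erase s(r, b), b ∉ e := by
    rintro e he ⟨a, rfl⟩
    obtain ⟨h1, h2⟩ := Finset.mem_erase.1 he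
    obtain rfl := hb a h2
    exact h1 Sym2.eq_swap
  have hn : s(b, s) ∉ G.erase s(r, b) := fun g => hx _ g (by simp)
  refine ⟨fr3_ins hD hbs (Fr3_mono F c _ _ (Finset.erase_subset _ _) hA)
    (fun a ha => absurd (by simp) (hx _ ha)) hm, ?_⟩
  rw [XT.dv_insert hn, Finset.erase_eq, dv_sdiff (Finset.singleton_subset_iff.2 hG), dv_pair hrb, dv_pair hbs,
    Pi.single_neg]
  abel

section
variable {X : XD3} {P : ℕ → Finset (Sym2 ℕ) → Prop} {D : Finset (Finset (Sym2 ℕ))} {j m : ℕ} {S : Finset ℕ}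
  {M : ℕ → Finset (Sym2 ℕ)} {F : Clu3 ℕ → Prop} {CL U : List (Clu3 ℕ)} {PL : Finset (Sym2 ℕ)}
  {pl mi : ℕ → Prop}

/-- **side**: the edge `x s`, `x` isolated in the part -/
theorem WA3.side (w0 : WA3 X P D j m S M CL U PL) (h : PW3 X P D j S M (Fr3 D F) CL U PL pl mi)
    (hF : ∀ c, F c → Hb c) {c : Clu3 ℕ} (hc : c ∈ U) {G : Finset (Sym2 ℕ)} (hg : CG D F c G)
    (hFc : ¬ F c → Hb c → ¬ NSh G) {x s : ℕ} (hx : ∀ e ∈ G, x ∉ e) (hxs : s(x, s) ∈ c.edges) (hs : s ∈ S)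
    (hT : s ∈ X.T) : ∃ (σ : ℤ) (ε : ℕ → ℤ), (σ = 1 ∨ (σ = -1 ∧ dg G s = 2)) ∧ ph X.V2 pl mi ε ≤ 0 ∧
      Rpl D F c G (Pi.single x 1 + Pi.single s σ + ε) := by
  have nxs := h.ne (h.cW hc hxs)
  have hxsG : s(x, s) ∉ G := fun g => hx _ g (by simp)
  by_cases h1 : F c ∨ dg G s ≤ 1
  · refine ⟨1, 0, Or.inl rfl, by rw [ph_zero], insert s(x, s) G, Finset.insert_subset hxs hg.sub,
      fr3_ins h.ish nxs hg.fr (fun a ha => absurd (by simp) (hx _ ha)) h1, ?_⟩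
    rw [XT.dv_insert hxsG, dv_pair nxs, add_zero]
  · rw [not_or] at h1
    obtain ⟨h1, h2⟩ := h1
    have h3 : dg G s = 2 := by have := hg.m2.le s; omega
    rcases k4_or_hb c with ⟨Y, rfl⟩ | hb
    · obtain ⟨u, v, huv, hu, hv⟩ := two_edges (by omega : 2 ≤ dg G s)
      have hxu : x ≠ u := by
        rintro rfl
        exact hx _ hu (by simp)
      have nsu := h.ne (h.cW hc (hg.sub hu))
      obtain ⟨p1, p2⟩ := fr3_swap h.ish hxu nsu hg.fr hx hu (Or.inr hg.m2)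
      refine ⟨-1, 0, Or.inr ⟨rfl, h3⟩, by rw [ph_zero], _, Finset.insert_subset (mem3_k4.2
        ⟨(mem3_k4.1 hxs).1, (mem3_k4.1 (hg.sub hu)).2.1, hxu⟩) ((Finset.erase_subset _ _).trans hg.sub), p1, ?_⟩
      rw [p2, Pi.single_neg, add_zero]
      abel
    · have hns := hFc h1 hb
      obtain ⟨u, v, L, hh⟩ := hb.hub
      have key : ∀ u v, Hub c u v L → s = u → x ∈ L → ∃ (σ : ℤ) (ε : ℕ → ℤ), (σ = 1 ∨ (σ = -1 ∧ dg G s = 2)) ∧
          ph X.V2 pl mi ε ≤ 0 ∧ Rpl D F c G (Pi.single x 1 + Pi.single s σ + ε) := by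
        rintro u v hh rfl hxL
        obtain ⟨ε, p1, p2⟩ := w0.cyc1 h hF hc h1 hh hs hT hg.sub hg.m2 hns hg.nD hxL hx
        exact ⟨-1, ε, Or.inr ⟨rfl, h3⟩, p1, p2⟩
      obtain ⟨⟨e1, he1, hu1⟩, ⟨e2, he2, hu2⟩⟩ := hub_cov (h.val hc) hh hg.sub hg.m2 hns
      have xu : x ≠ u := by rintro rfl; exact hx _ he1 hu1
      have xv : x ≠ v := by rintro rfl; exact hx _ he2 hu2
      rcases hh.edge hxs with (⟨g, _⟩ | ⟨g, _⟩) | (⟨g | g, _⟩ | ⟨g | g, g'⟩)
      · exact absurd g xu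
      · exact absurd g xv
      · exact absurd g xu
      · exact absurd g xv
      · exact key u v hh g g'
      · exact key v u hh.symm g g'

/-- **two side edges in one cluster**, `x`, `y` isolated, ends `s`, `r` equal or distinct -/
theorem WA3.side2 (w0 : WA3 X P D j m S M CL U PL) (h : PW3 X P D j S M (Fr3 D F) CL U PL pl mi)
    (hF : ∀ c, F c → Hb c) {c : Clu3 ℕ} (hc : c ∈ U) {G : Finset (Sym2 ℕ)} (hg : CG D F c G)
    (hFc : ¬ F c → Hb c → ¬ NSh G) {x y s r : ℕ} (hx : ∀ e ∈ G, x ∉ e) (hy : ∀ e ∈ G, y ∉ e)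
    (hxs : s(x, s) ∈ c.edges) (hyr : s(y, r) ∈ c.edges) (hxy : s(x, y) ∉ c.edges) (nxy : x ≠ y) (nys : y ≠ s)
    (hs : s ∈ S) (hT : s ∈ X.T) :
    Rpl D F c G (Pi.single x 1 + Pi.single s 1 + (Pi.single y 1 + Pi.single r 1)) ∨
      ∃ ε, ph X.V2 pl mi ε ≤ 0 ∧ Rpl D F c G (Pi.single x 1 + Pi.single y 1 + ε) := by
  have nxs := h.ne (h.cW hc hxs)
  have nyr := h.ne (h.cW hc hyr)
  by_cases h1 : F c
  · left
    have hxsG : s(x, s) ∉ G := fun g => hx _ g (by simp)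
    have hy' : ∀ e ∈ insert s(x, s) G, y ∉ e := by
      intro e he
      rcases Finset.mem_insert.1 he with rfl | he
      · simp only [Sym2.mem_iff, not_or]; exact ⟨nxy.symm, nys⟩
      · exact hy e he
    have hyrG : s(y, r) ∉ insert s(x, s) G := fun g => hy' _ g (by simp)
    refine ⟨insert s(y, r) (insert s(x, s) G), Finset.insert_subset hyr (Finset.insert_subset hxs hg.sub),
      fr3_ins h.ish nyr (fr3_ins h.ish nxs hg.fr (fun a ha => absurd (by simp) (hx _ ha)) (Or.inl h1))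
        (fun a ha => absurd (by simp) (hy' _ ha)) (Or.inl h1), ?_⟩
    rw [XT.dv_insert hyrG, XT.dv_insert hxsG, dv_pair nxs, dv_pair nyr]
    abel
  · right
    rcases k4_or_hb c with ⟨Y, rfl⟩ | hb
    · exact absurd (mem3_k4.2 ⟨(mem3_k4.1 hxs).1, (mem3_k4.1 hyr).1, nxy⟩) hxy
    · have hns := hFc h1 hb
      obtain ⟨u, v, L, hh⟩ := hb.hub
      have key : ∀ u v, Hub c u v L → s = u → x ∈ L → y ∈ L →
          ∃ ε, ph X.V2 pl mi ε ≤ 0 ∧ Rpl D F c G (Pi.single x 1 + Pi.single y 1 + ε) := by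
        rintro u v hh rfl hxL hyL
        exact w0.cyc2 h hF hc h1 hh hs hT hg.sub hg.m2 hns hg.nD hxL hx hyL hy nxy
      obtain ⟨⟨e1, he1, hu1⟩, ⟨e2, he2, hu2⟩⟩ := hub_cov (h.val hc) hh hg.sub hg.m2 hns
      have xu : x ≠ u := by rintro rfl; exact hx _ he1 hu1
      have xv : x ≠ v := by rintro rfl; exact hx _ he2 hu2
      have yu : y ≠ u := by rintro rfl; exact hy _ he1 hu1
      have yv : y ≠ v := by rintro rfl; exact hy _ he2 hu2
      have yL : y ∈ L := by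
        rcases hh.edge hyr with (⟨g, _⟩ | ⟨g, _⟩) | (⟨g | g, _⟩ | ⟨_, g'⟩)
        · exact absurd g yu
        · exact absurd g yv
        · exact absurd g yu
        · exact absurd g yv
        · exact g'
      rcases hh.edge hxs with (⟨g, _⟩ | ⟨g, _⟩) | (⟨g | g, _⟩ | ⟨g | g, g'⟩)
      · exact absurd g xu
      · exact absurd g xv
      · exact absurd g xu
      · exact absurd g xv
      · exact key u v hh g g' yL
      · exact key v u hh.symm g g' yL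

/-- **a side edge `x s` and the middle edge `r s` in one cluster**, `x` isolated, `x r` not in the cluster -/
theorem WA3.sidemid (w0 : WA3 X P D j m S M CL U PL) (h : PW3 X P D j S M (Fr3 D F) CL U PL pl mi)
    (hF : ∀ c, F c → Hb c) {c : Clu3 ℕ} (hc : c ∈ U) {G : Finset (Sym2 ℕ)} (hg : CG D F c G)
    (hFc : ¬ F c → Hb c → ¬ NSh G) {x s r : ℕ} (hx : ∀ e ∈ G, x ∉ e)
    (hxs : s(x, s) ∈ c.edges) (hrs : s(r, s) ∈ c.edges) (hxr : s(x, r) ∉ c.edges) (nxr : x ≠ r)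
    (hs : s ∈ S) (hT : s ∈ X.T) :
    ∃ (α σ : ℤ) (ε : ℕ → ℤ), (α = 0 ∨ α = 2) ∧ (σ = 1 ∨ (σ = -1 ∧ ∃ e ∈ G, r ∈ e)) ∧ ph X.V2 pl mi ε ≤ 0 ∧
      Rpl D F c G (Pi.single x 1 + Pi.single s α + Pi.single r σ + ε) := by
  have nxs := h.ne (h.cW hc hxs)
  have nrs := h.ne (h.cW hc hrs)
  by_cases hG : s(r, s) ∈ G
  · obtain ⟨p1, p2⟩ := fr3_swap h.ish nxs nrs hg.fr hx hG (Or.inr hg.m2)
    refine ⟨0, -1, 0, Or.inl rfl, Or.inr ⟨rfl, _, hG, by simp⟩, by rw [ph_zero], _,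
      Finset.insert_subset hxs ((Finset.erase_subset _ _).trans hg.sub), p1, ?_⟩
    rw [p2, Pi.single_neg, Pi.single_zero]
    abel
  rcases k4_or_hb c with ⟨Y, rfl⟩ | hb
  · exact absurd (mem3_k4.2 ⟨(mem3_k4.1 hxs).1, (mem3_k4.1 hrs).1, nxr⟩) hxr
  obtain ⟨u, v, L, hh⟩ := hb.hub
  obtain ⟨uv, uL, vL, _⟩ := hh.dat (h.val hc)
  have lv : ∀ {t}, t ∈ L → t ≠ v := fun ht e => vL (e ▸ ht)
  have lu : ∀ {t}, t ∈ L → t ≠ u := fun ht e => uL (e ▸ ht)
  by_cases h1 : F c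
  · by_cases h2 : NSh (insert s(r, s) G)
    · have hx' : ∀ e ∈ insert s(r, s) G, x ∉ e := by
        intro e he
        rcases Finset.mem_insert.1 he with rfl | he
        · simp only [Sym2.mem_iff, not_or]; exact ⟨nxr, nxs⟩
        · exact hx e he
      have hxsG : s(x, s) ∉ insert s(r, s) G := fun g => hx' _ g (by simp)
      refine ⟨2, 1, 0, Or.inr rfl, Or.inl rfl, by rw [ph_zero], insert s(x, s) (insert s(r, s) G),
        Finset.insert_subset hxs (Finset.insert_subset hrs hg.sub),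
        fr3_ins h.ish nxs (by rw [Fr3_pos h1]; exact h2) (fun a ha => absurd (by simp) (hx' _ ha)) (Or.inl h1), ?_⟩
      rw [XT.dv_insert hxsG, XT.dv_insert hG, dv_pair nxs, dv_pair nrs]
      funext w
      simp only [Pi.add_apply, Pi.zero_apply, sgl]
      split_ifs <;> ring
    · have hP := nsh_insert (hg.fs h1) h2
      -- the first edge at `r`
      obtain ⟨t, hts, hrt⟩ := hP.fst
      have hrt' := hg.sub hrt
      -- `r` is a leaf
      have key : ∀ u v, Hub c u v L → s = u → r ∈ L → x ∈ L → s(r, v) ∈ G := by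
        rintro u v hh rfl hrL hxL
        rcases hh.edge hrt' with (⟨g, _⟩ | ⟨g, _⟩) | (⟨g | g, _⟩ | ⟨g | g, g'⟩)
        · exact absurd g nrs
        · exact absurd (g ▸ hrL) ((hh.dat (h.val hc)).2.2.1)
        · exact absurd g nrs
        · exact absurd (g ▸ hrL) ((hh.dat (h.val hc)).2.2.1)
        · exact absurd g hts
        · rw [← g]; exact hrt
      have fin : ∀ v, v ≠ x → v ≠ r → s(r, v) ∈ G → s(x, v) ∈ c.edges → ∃ (α σ : ℤ) (ε : ℕ → ℤ), (α = 0 ∨ α = 2) ∧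
          (σ = 1 ∨ (σ = -1 ∧ ∃ e ∈ G, r ∈ e)) ∧ ph X.V2 pl mi ε ≤ 0 ∧
          Rpl D F c G (Pi.single x 1 + Pi.single s α + Pi.single r σ + ε) := by
        intro v hvx hvr hrv hxv
        obtain ⟨p1, p2⟩ := fr3_swap h.ish hvx.symm hvr.symm hg.fr hx hrv (Or.inr hg.m2)
        refine ⟨0, -1, 0, Or.inl rfl, Or.inr ⟨rfl, _, hrv, by simp⟩, by rw [ph_zero], _,
          Finset.insert_subset hxv ((Finset.erase_subset _ _).trans hg.sub), p1, ?_⟩
        rw [p2, Pi.single_neg, Pi.single_zero]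
        abel
      -- the positions
      rcases hh.edge hxs with (⟨rfl, rfl⟩ | ⟨rfl, rfl⟩) | (⟨hxh, hsL⟩ | ⟨hsh, hxL⟩)
      · -- `x`, `s` both centres: then `r` is a leaf and `x r` an edge
        exfalso
        apply hxr
        rcases hh.edge hrs with (⟨g, _⟩ | ⟨g, _⟩) | (⟨g | g, _⟩ | ⟨_, g'⟩)
        · exact absurd g.symm nxr
        · exact absurd g nrs
        · exact absurd g.symm nxr
        · exact absurd g nrs
        · exact hh.ul g'
      · exfalso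
        apply hxr
        rcases hh.edge hrs with (⟨g, _⟩ | ⟨g, _⟩) | (⟨g | g, _⟩ | ⟨_, g'⟩)
        · exact absurd g nrs
        · exact absurd g.symm nxr
        · exact absurd g nrs
        · exact absurd g.symm nxr
        · exact hh.vl g'
      · -- `s` a leaf, `x` a centre, `r` the other centre; the last edge of the path is at `x`
        exfalso
        have hsn : ∀ a, s(a, s) ∈ G → a = r := by
          intro a ha
          have hax : a ≠ x := by rintro rfl; exact hx _ ha (by simp)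
          have hrh : r = u ∨ r = v := by
            rcases hh.edge hrs with (⟨_, g⟩ | ⟨_, g⟩) | (⟨g, _⟩ | ⟨g | g, _⟩)
            · exact absurd g (lv hsL)
            · exact absurd g (lu hsL)
            · exact g
            · exact absurd g (lu hsL)
            · exact absurd g (lv hsL)
          have hah : a = u ∨ a = v := by
            rcases hh.edge (hg.sub ha) with (⟨_, g⟩ | ⟨_, g⟩) | (⟨g, _⟩ | ⟨g | g, _⟩)
            · exact absurd g (lv hsL)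
            · exact absurd g (lu hsL)
            · exact g
            · exact absurd g (lu hsL)
            · exact absurd g (lv hsL)
          rcases hxh with rfl | rfl
          · rcases hah with rfl | rfl
            · exact absurd rfl hax
            · rcases hrh with rfl | rfl
              · exact absurd rfl nxr
              · rfl
          · rcases hah with rfl | rfl
            · rcases hrh with rfl | rfl
              · rfl
              · exact absurd rfl nxr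
            · exact absurd rfl hax
        rcases hP with ⟨a, ⟨n1, n2, n3⟩, g1, g2⟩ | ⟨a, b, ⟨n1, n2, n3, n4, n5, n6⟩, g1, g2, g3⟩
        · exact n1 (hsn a g2).symm
        · exact n2 (hsn b g3).symm
      · -- `x` a leaf, `s` a centre
        have hrL : r ∈ L := by
          by_contra hrL
          apply hxr
          have hrh : r = u ∨ r = v := by
            rcases hh.edge hrs with (⟨g, _⟩ | ⟨g, _⟩) | (⟨g, _⟩ | ⟨_, g⟩)
            · exact Or.inl g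
            · exact Or.inr g
            · exact g
            · exact absurd g hrL
          rcases hrh with rfl | rfl
          · rw [Sym2.eq_swap]; exact hh.ul hxL
          · rw [Sym2.eq_swap]; exact hh.vl hxL
        rcases hsh with rfl | rfl
        · exact fin v (lv hxL).symm (lv hrL).symm (key s v hh rfl hrL hxL) (by rw [Sym2.eq_swap]; exact hh.vl hxL)
        · exact fin u (lu hxL).symm (lu hrL).symm (key s u hh.symm rfl hrL hxL)
            (by rw [Sym2.eq_swap]; exact hh.ul hxL)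
  · -- capped, the part is a short cycle
    have hns := hFc h1 hb
    obtain ⟨⟨e1, he1, hu1⟩, ⟨e2, he2, hu2⟩⟩ := hub_cov (h.val hc) hh hg.sub hg.m2 hns
    have xu : x ≠ u := by rintro rfl; exact hx _ he1 hu1
    have xv : x ≠ v := by rintro rfl; exact hx _ he2 hu2
    have key : ∀ u v, Hub c u v L → s = u → x ∈ L → r ∈ L → ∃ (α σ : ℤ) (ε : ℕ → ℤ), (α = 0 ∨ α = 2) ∧
          (σ = 1 ∨ (σ = -1 ∧ ∃ e ∈ G, r ∈ e)) ∧ ph X.V2 pl mi ε ≤ 0 ∧
          Rpl D F c G (Pi.single x 1 + Pi.single s α + Pi.single r σ + ε) := by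
      rintro u v hh rfl hxL hrL
      have hr : ∀ e ∈ G, r ∉ e := by
        intro e he hre
        exact hG (by rw [Sym2.eq_swap]; exact st_hub_leaf (h.val hc) hh hg.sub hg.m2 hns hrL ⟨e, he, hre⟩)
      obtain ⟨ε, p1, p2⟩ := w0.cyc2 h hF hc h1 hh hs hT hg.sub hg.m2 hns hg.nD hxL hx hrL hr nxr
      refine ⟨0, 1, ε, Or.inl rfl, Or.inl rfl, p1, ?_⟩
      rw [Pi.single_zero, add_zero]
      exact p2
    have hrL : x ∈ L → (s = u ∨ s = v) → r ∈ L := by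
      intro hxL _
      by_contra hrL
      apply hxr
      have hrh : r = u ∨ r = v := by
        rcases hh.edge hrs with (⟨g, _⟩ | ⟨g, _⟩) | (⟨g, _⟩ | ⟨_, g⟩)
        · exact Or.inl g
        · exact Or.inr g
        · exact g
        · exact absurd g hrL
      rcases hrh with rfl | rfl
      · rw [Sym2.eq_swap]; exact hh.ul hxL
      · rw [Sym2.eq_swap]; exact hh.vl hxL
    rcases hh.edge hxs with (⟨g, _⟩ | ⟨g, _⟩) | (⟨g | g, _⟩ | ⟨g | g, g'⟩)
    · exact absurd g xu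
    · exact absurd g xv
    · exact absurd g xu
    · exact absurd g xv
    · exact key u v hh g g' (hrL g' (Or.inl g))
    · exact key v u hh.symm g g' (hrL g' (Or.inr g))

end

end Pool.Agent.P34

end

section -- file P34/ST4

/-!
Two conflicting short cycles, one of them a triangle: the middle edge.
-/

set_option autoImplicit false

namespace Pool.Agent.P34

open Finset Pool.Agent.TFC Pool.Agent.PF4 Pool.Agent.PF4.LD Pool.Agent.PF4.XC Pool.Agent.PF4.XT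
open Pool.Agent.PF4.XF (XD FitK Cv World WJ Av NC Rch dg_off mem_k4 mem_k2)

section
variable {X : XD3} {P : ℕ → Finset (Sym2 ℕ) → Prop} {D : Finset (Finset (Sym2 ℕ))} {j m : ℕ} {S : Finset ℕ}
  {M : ℕ → Finset (Sym2 ℕ)} {F : Clu3 ℕ → Prop} {CL U : List (Clu3 ℕ)} {PL : Finset (Sym2 ℕ)}
  {pl mi : ℕ → Prop}

/-- the result at the middle edge `r s` -/
def MidR (X : XD3) (D : Finset (Finset (Sym2 ℕ))) (F : Clu3 ℕ → Prop) (pl mi : ℕ → Prop) (c : Clu3 ℕ)
    (G : Finset (Sym2 ℕ)) (r s : ℕ) : Prop :=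
  ∃ (σ τ : ℤ) (ε : ℕ → ℤ), (σ = 1 ∨ (σ = -1 ∧ ∃ e ∈ G, r ∈ e)) ∧ (τ = 1 ∨ (τ = -1 ∧ ∃ e ∈ G, s ∈ e)) ∧
    ph X.V2 pl mi ε ≤ 0 ∧ Rpl D F c G (Pi.single r σ + Pi.single s τ + ε)

theorem MidR.symm {c : Clu3 ℕ} {G : Finset (Sym2 ℕ)} {r s : ℕ} (h : MidR X D F pl mi c G r s) :
    MidR X D F pl mi c G s r := by
  obtain ⟨σ, τ, ε, h1, h2, h3, h4⟩ := h
  exact ⟨τ, σ, ε, h2, h1, h3, by
    rw [show (Pi.single s τ + Pi.single r σ + ε : ℕ → ℤ) = Pi.single r σ + Pi.single s τ + ε by abel]; exact h4⟩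

/-- **middle**, `r` with two edges of the part, `s` covered -/
theorem WA3.mid2 (w0 : WA3 X P D j m S M CL U PL) (h : PW3 X P D j S M (Fr3 D F) CL U PL pl mi)
    (hF : ∀ c, F c → Hb c) {c : Clu3 ℕ} (hc : c ∈ U) {G : Finset (Sym2 ℕ)} (hg : CG D F c G)
    (hFc : ¬ F c → Hb c → ¬ NSh G) {r s : ℕ} (hrs : s(r, s) ∈ c.edges) (hG : s(r, s) ∉ G) (hr2 : 2 ≤ dg G r)
    (hsc : ∃ e ∈ G, s ∈ e) (hr : r ∈ S) (hT : r ∈ X.T) : MidR X D F pl mi c G r s := by
  have nrs := h.ne (h.cW hc hrs)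
  obtain ⟨a, b, hab, ha, hb⟩ := two_edges hr2
  have hrcov : ∃ e ∈ G, r ∈ e := ⟨_, ha, by simp⟩
  have nra := h.ne (h.cW hc (hg.sub ha))
  have nrb := h.ne (h.cW hc (hg.sub hb))
  have nas : a ≠ s := by rintro rfl; exact hG ha
  have nbs : b ≠ s := by rintro rfl; exact hG hb
  have sw : ∀ {a b : ℕ}, s(a, b) ∈ G → s(b, a) ∈ G := fun h => by rwa [Sym2.eq_swap]
  obtain ⟨e, he, t, rfl⟩ := hsc
  have nst := h.ne (h.cW hc (hg.sub he))
  have ntr : t ≠ r := by rintro rfl; exact hG (sw he)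
  rcases k4_or_hb c with ⟨Y, rfl⟩ | hbb
  · -- K4
    have hYc : #Y = 4 := h.val hc
    have yr := (mem3_k4.1 hrs).1
    have ys := (mem3_k4.1 hrs).2.1
    have ya := (mem3_k4.1 (hg.sub ha)).2.1
    have yb := (mem3_k4.1 (hg.sub hb)).2.1
    have yt := (mem3_k4.1 (hg.sub he)).2.1
    have hYe := four_eq hYc (a := r) (b := s) (c := a) (d := b) ⟨nrs, nra, nrb, nas.symm, nbs.symm, hab⟩ yr ys ya yb
    have key : ∀ a b : ℕ, a ≠ b → s(r, a) ∈ G → s(r, b) ∈ G → a ≠ s → b ≠ s → r ≠ a → r ≠ b → a ∈ Y → b ∈ Y →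
        Y = {r, s, a, b} → s(s, a) ∈ G → MidR X D F pl mi (Clu3.k4 Y) G r s := by
      intro a b hab ha hb nas nbs nra nrb ya yb hYe hsa
      by_cases hsb : s(s, b) ∈ G
      · -- a square
        have h4 : Dist4 r a s b := ⟨nra, nrs, nrb, nas, hab, nbs.symm⟩
        have hsq : TFC.sq r a s b ⊆ G := P34.sq_sub.2 ⟨ha, sw hsa, hsb, sw hb⟩
        have hGe : G = TFC.sq r a s b := by
          have h1 := inter_eq3 (h.val hc) (Or.inr ⟨_, _, _, _, h4, rfl⟩) (hsq.trans hg.sub) hg.m2 hsq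
          rwa [Finset.inter_eq_left.2 hg.sub] at h1
        have h5 : Dist4 r a b s := ⟨nra, nrb, nrs, hab, nas, nbs⟩
        refine ⟨-1, -1, 0, Or.inr ⟨rfl, hrcov⟩, Or.inr ⟨rfl, _, hsa, by simp⟩, by rw [ph_zero], hp r a b s,
          hp_edges h5 yr ya yb ys, fr3_nsh h.ish (hp_nsh h5) (fun _ => hp_m2 h5), ?_⟩
        rw [hp_dv h5, hGe, dv_sq h4]
        funext w
        simp only [Pi.add_apply, Pi.zero_apply, sgl, ev_apply]
        split_ifs <;> ring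
      · -- a path
        have hbn : ∀ z, s(b, z) ∈ G → z = r := by
          intro z hz
          have hzY := (mem3_k4.1 (hg.sub hz)).2
          have hz2 := hzY.1
          rw [hYe] at hz2
          simp only [mem_insert, mem_singleton] at hz2
          rcases hz2 with rfl | rfl | rfl | rfl
          · rfl
          · exact absurd (sw hz) hsb
          · exfalso
            rcases m2_three hg.m2 (sw ha) (sw hsa) (sw hz) with g | g | g
            · exact nrs g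
            · exact nrb g
            · exact nbs g.symm
          · exact absurd rfl hzY.2
        have ds : dg (G.erase s(r, b)) s ≤ 1 := by
          by_contra hd
          obtain ⟨p, q, hpq, hp, hq⟩ := two_edges (by omega : 2 ≤ dg (G.erase s(r, b)) s)
          have k : ∀ z, s(s, z) ∈ G.erase s(r, b) → z = a := by
            intro z hz
            have hz1 := Finset.mem_of_mem_erase hz
            have hzY := (mem3_k4.1 (hg.sub hz1)).2
            have hz2 := hzY.1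
            rw [hYe] at hz2
            simp only [mem_insert, mem_singleton] at hz2
            rcases hz2 with rfl | rfl | rfl | rfl
            · exact absurd (sw hz1) hG
            · exact absurd rfl hzY.2
            · rfl
            · exact absurd hz1 hsb
          exact hpq ((k p hp).trans (k q hq).symm)
        obtain ⟨p1, p2⟩ := fr3_move h.ish nbs nrb hg.fr hbn hb nrs (Or.inr ds)
        refine ⟨-1, 1, 0, Or.inr ⟨rfl, hrcov⟩, Or.inl rfl, by rw [ph_zero], _,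
          Finset.insert_subset (mem3_k4.2 ⟨yb, ys, nbs⟩) ((Finset.erase_subset _ _).trans hg.sub), p1, ?_⟩
        rw [p2, add_zero]
    rw [hYe] at yt
    simp only [mem_insert, mem_singleton] at yt
    rcases yt with rfl | rfl | rfl | rfl
    · exact absurd rfl ntr
    · exact absurd rfl nst
    · exact key t b hab ha hb nas nbs nra nrb ya yb hYe he
    · refine key t a hab.symm hb ha nbs nas nrb nra yb ya ?_ he
      rw [hYe]
      ext w; simp only [mem_insert, mem_singleton]; tauto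
  · -- two centres
    obtain ⟨u, v, L, hh⟩ := hbb.hub
    obtain ⟨uv, uL, vL, _⟩ := hh.dat (h.val hc)
    have lv : ∀ {t}, t ∈ L → t ≠ v := fun ht e => vL (e ▸ ht)
    have lu : ∀ {t}, t ∈ L → t ≠ u := fun ht e => uL (e ▸ ht)
    -- both centres
    have central : ∀ u v, Hub c u v L → r = u → s = v → MidR X D F pl mi c G r s := by
      rintro u v hh rfl rfl
      obtain ⟨-, uL, vL, _⟩ := hh.dat (h.val hc)
      have lf : ∀ z, s(r, z) ∈ G → z ∈ L := by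
        intro z hz
        rcases hh.edge (hg.sub hz) with (⟨_, g⟩ | ⟨g, _⟩) | (⟨_, g⟩ | ⟨_, g⟩)
        · exact absurd (g ▸ hz) hG
        · exact absurd g nrs
        · exact g
        · exact absurd g uL
      have ln : ∀ z, s(r, z) ∈ G → s(s, z) ∉ G → ∀ y, s(z, y) ∈ G → y = r := by
        intro z hz hz' y hy
        have hzL := lf z hz
        rcases hh.edge (hg.sub hy) with (⟨g, _⟩ | ⟨g, _⟩) | (⟨g | g, _⟩ | ⟨g | g, _⟩)
        · exact absurd (g ▸ hzL) uL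
        · exact absurd (g ▸ hzL) vL
        · exact absurd (g ▸ hzL) uL
        · exact absurd (g ▸ hzL) vL
        · exact g
        · exact absurd (by rw [← g]; exact sw hy) hz'
      by_cases h1 : F c
      · have hex : ∃ z, s(r, z) ∈ G ∧ s(s, z) ∉ G := by
          by_contra hcon
          push Not at hcon
          exact hg.fs h1 _ (Or.inr ⟨r, a, s, b, ⟨nra, nrs, nrb, nas, hab, nbs.symm⟩, rfl⟩)
            (P34.sq_sub.2 ⟨ha, sw (hcon a ha), hcon b hb, sw hb⟩)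
        obtain ⟨z, hz, hz'⟩ := hex
        have hzL := lf z hz
        have nzs : z ≠ s := fun e => vL (e ▸ hzL)
        have nrz : r ≠ z := fun e => uL (e ▸ hzL)
        obtain ⟨p1, p2⟩ := fr3_move h.ish nzs nrz hg.fr (ln z hz hz') hz nrs (Or.inl h1)
        refine ⟨-1, 1, 0, Or.inr ⟨rfl, hrcov⟩, Or.inl rfl, by rw [ph_zero], _,
          Finset.insert_subset (by rw [Sym2.eq_swap]; exact hh.vl hzL) ((Finset.erase_subset _ _).trans hg.sub), p1, ?_⟩
        rw [p2, add_zero]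
      · have hns := hFc h1 hbb
        rcases hub_cyc (h.val hc) hh hg.sub hg.m2 hns with ⟨-, l, hl, hGe⟩ | ⟨l, hl, l', hl', hne, hGe⟩
        · exact absurd (by rw [hGe]; simp [tri]) hG
        · have key : ∀ {l l' : ℕ}, l ∈ L → l' ∈ L → l ≠ l' → G = TFC.sq r l s l' → con (pl l') (mi l') (-2) ≤ 0 →
              MidR X D F pl mi c G r s := by
            intro l l' hl hl' hne hGe hc2
            have nl1 : l ≠ s := fun e => vL (e ▸ hl)
            have nl2 : r ≠ l := fun e => uL (e ▸ hl)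
            have nl3 : l' ≠ s := fun e => vL (e ▸ hl')
            have nl4 : r ≠ l' := fun e => uL (e ▸ hl')
            have h4 : Dist4 r l s l' := ⟨nl2, nrs, nl4, nl1, hne, nl3.symm⟩
            have hsub : ({s(r, l), s(l, s)} : Finset (Sym2 ℕ)) ⊆ G := by
              rw [hGe]
              intro e he
              simp only [mem_insert, mem_singleton, TFC.sq] at he ⊢
              tauto
            refine ⟨-1, -1, Pi.single l' (-2), Or.inr ⟨rfl, hrcov⟩, Or.inr ⟨rfl, _, he, by simp⟩,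
              ph_neg_two h hc hh hl' hc2, _, hsub.trans hg.sub, Fr3_mono F c _ _ hsub hg.fr, ?_⟩
            have hn : s(r, l) ∉ ({s(l, s)} : Finset (Sym2 ℕ)) := by
              simp only [mem_singleton, Sym2.eq_iff]
              rintro (⟨g, _⟩ | ⟨g, _⟩)
              · exact nl2 g
              · exact nrs g
            rw [XT.dv_insert hn, dv_pair nl1, dv_pair nl2, hGe, dv_sq h4]
            funext w
            simp only [Pi.add_apply, sgl, ev_apply]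
            split_ifs <;> ring
          have hGD : TFC.sq r l s l' ∉ D := hGe ▸ hg.nD
          rcases w0.vx h hF hc h1 hh hr hT hl hl' hne hGD with g | g
          · exact key hl' hl hne.symm (by rw [hGe, sq_swp3]) g
          · exact key hl hl' hne hGe g
    -- `r` a centre, `s` a leaf
    have leafc : ∀ u v, Hub c u v L → r = u → s ∈ L → MidR X D F pl mi c G r s := by
      rintro u v hh rfl hsL
      obtain ⟨ruv, uL, vL, _⟩ := hh.dat (h.val hc)
      have lv : ∀ {t}, t ∈ L → t ≠ v := fun ht e => vL (e ▸ ht)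
      have lu : ∀ {t}, t ∈ L → t ≠ r := fun ht e => uL (e ▸ ht)
      -- the only neighbour of `s`
      have sn : ∀ z, s(s, z) ∈ G → z = v := by
        intro z hz
        rcases hh.edge (hg.sub hz) with (⟨g, _⟩ | ⟨g, _⟩) | (⟨g | g, _⟩ | ⟨g | g, _⟩)
        · exact absurd g (lu hsL)
        · exact absurd g (lv hsL)
        · exact absurd g (lu hsL)
        · exact absurd g (lv hsL)
        · rw [g] at hz; exact absurd (sw hz) hG
        · exact g
      have htv := sn t he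
      rw [htv] at he
      by_cases h1 : F c
      · by_cases h2 : NSh (insert s(r, s) G)
        · refine ⟨1, 1, 0, Or.inl rfl, Or.inl rfl, by rw [ph_zero], _, Finset.insert_subset hrs hg.sub,
            by rw [Fr3_pos h1]; exact h2, ?_⟩
          rw [XT.dv_insert hG, dv_pair nrs, add_zero]
        · have hP := nsh_insert (hg.fs h1) h2
          -- the first vertex of the path, and what it says about `v`
          have hq : ∃ q, s(r, q) ∈ G ∧ q ≠ s ∧ ((q = v) ∨ s(v, q) ∈ G) := by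
            rcases hP with ⟨q, ⟨n1, n2, n3⟩, g1, g2⟩ | ⟨q, q', ⟨n1, n2, n3, n4, n5, n6⟩, g1, g2, g3⟩
            · exact ⟨q, g1, n3, Or.inl (sn q (sw g2))⟩
            · have := sn q' (sw g3)
              subst this
              exact ⟨q, g1, n5, Or.inr (sw g2)⟩
          obtain ⟨q, hq1, hqs, hq2⟩ := hq
          -- another neighbour of `r`
          have hz : ∃ z, s(r, z) ∈ G ∧ z ≠ q ∧ z ≠ s ∧ r ≠ z := by
            by_cases haq : a = q
            · exact ⟨b, hb, fun e => hab (haq.trans e.symm), nbs, nrb⟩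
            · exact ⟨a, ha, haq, nas, nra⟩
          obtain ⟨z, hz, hzq, hzs, hrz⟩ := hz
          have hzv : z ≠ v := by
            rintro rfl
            rcases hq2 with g | g
            · exact hzq g.symm
            · rcases m2_three hg.m2 (sw he) (sw hz) g with g' | g' | g'
              · exact nrs g'.symm
              · exact hqs g'.symm
              · have := h.ne (h.cW hc (hg.sub hq1))
                exact this g'
          have hzL : z ∈ L := by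
            rcases hh.edge (hg.sub hz) with (⟨_, g⟩ | ⟨g, _⟩) | (⟨_, g⟩ | ⟨g, _⟩)
            · exact absurd g hzv
            · exact absurd g ruv
            · exact g
            · rcases g with g | g
              · exact absurd g.symm hrz
              · exact absurd g hzv
          have hzv' : s(v, z) ∉ G := by
            intro g0
            rcases hq2 with g | g
            · subst g
              rcases m2_three hg.m2 (sw he) (sw hq1) g0 with g' | g' | g'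
              · exact nrs g'.symm
              · exact hzs g'.symm
              · exact hrz g'
            · rcases m2_three hg.m2 (sw he) g g0 with g' | g' | g'
              · exact hqs g'.symm
              · exact hzs g'.symm
              · exact hzq g'.symm
          have zn : ∀ y, s(z, y) ∈ G → y = r := by
            intro y hy
            rcases hh.edge (hg.sub hy) with (⟨g, _⟩ | ⟨g, _⟩) | (⟨g | g, _⟩ | ⟨g | g, _⟩)
            · exact absurd g (lu hzL)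
            · exact absurd g (lv hzL)
            · exact absurd g (lu hzL)
            · exact absurd g (lv hzL)
            · exact g
            · rw [g] at hy; exact absurd (sw hy) hzv'
          -- remove `r z` and `s v`, add `z v`
          obtain ⟨p1, p2⟩ := fr3_move h.ish hzv hrz hg.fr zn hz ruv (Or.inl h1)
          have hsv : s(s, v) ∈ insert s(z, v) (G.erase s(r, z)) := by
            refine Finset.mem_insert_of_mem (Finset.mem_erase.2 ⟨?_, he⟩)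
            intro g
            rw [Sym2.eq_iff] at g
            rcases g with ⟨g, _⟩ | ⟨g, _⟩
            · exact nrs g.symm
            · exact hzs g.symm
          refine ⟨-1, -1, 0, Or.inr ⟨rfl, hrcov⟩, Or.inr ⟨rfl, _, he, by simp⟩, by rw [ph_zero],
            (insert s(z, v) (G.erase s(r, z))) \ {s(s, v)},
            Finset.sdiff_subset.trans (Finset.insert_subset (by rw [Sym2.eq_swap]; exact hh.vl hzL)
              ((Finset.erase_subset _ _).trans hg.sub)), Fr3_mono F c _ _ Finset.sdiff_subset p1, ?_⟩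
          rw [dv_sdiff (Finset.singleton_subset_iff.2 hsv), p2, dv_pair (lv hsL)]
          funext w
          simp only [Pi.add_apply, Pi.sub_apply, Pi.zero_apply, sgl]
          split_ifs <;> ring
      · exfalso
        have hns := hFc h1 hbb
        exact hG (st_hub_leaf (h.val hc) hh hg.sub hg.m2 hns hsL ⟨_, he, by simp⟩)
    rcases hh.edge hrs with (⟨g, g'⟩ | ⟨g, g'⟩) | (⟨g | g, g'⟩ | ⟨g, g'⟩)
    · exact central u v hh g g'
    · exact central v u hh.symm g g'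
    · exact leafc u v hh g g'
    · exact leafc v u hh.symm g g'
    · -- `r` a leaf, `s` a centre: both neighbours of `r` are centres
      exfalso
      have k : ∀ z, s(r, z) ∈ G → z = u ∨ z = v := by
        intro z hz
        rcases hh.edge (hg.sub hz) with (⟨g2, _⟩ | ⟨g2, _⟩) | (⟨g2 | g2, _⟩ | ⟨g2, _⟩)
        · exact absurd g2 (lu g')
        · exact absurd g2 (lv g')
        · exact absurd g2 (lu g')
        · exact absurd g2 (lv g')
        · exact g2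
      have ka := k a ha
      have kb := k b hb
      rcases g with rfl | rfl
      · have h1 := ka.resolve_left nas
        have h2 := kb.resolve_left nbs
        exact hab (h1.trans h2.symm)
      · have h1 := ka.resolve_right nas
        have h2 := kb.resolve_right nbs
        exact hab (h1.trans h2.symm)

/-- **middle**: the edge `r s`, no member of `D` in the part with this edge -/
theorem WA3.mid (w0 : WA3 X P D j m S M CL U PL) (h : PW3 X P D j S M (Fr3 D F) CL U PL pl mi)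
    (hF : ∀ c, F c → Hb c) {c : Clu3 ℕ} (hc : c ∈ U) {G : Finset (Sym2 ℕ)} (hg : CG D F c G) {r s : ℕ}
    (hrs : s(r, s) ∈ c.edges) (hdf : ∀ Z ∈ D, ¬ Z ⊆ insert s(r, s) G)
    (hFc : ¬ F c → Hb c → ¬ NSh G ∨ M2 (insert s(r, s) G)) (hFm : F c → ¬ M2 (insert s(r, s) G))
    (hr : r ∈ S) (hrT : r ∈ X.T) (hs : s ∈ S) (hsT : s ∈ X.T) : MidR X D F pl mi c G r s := by
  have nrs := h.ne (h.cW hc hrs)
  by_cases hG : s(r, s) ∈ G
  · refine ⟨-1, -1, 0, Or.inr ⟨rfl, _, hG, by simp⟩, Or.inr ⟨rfl, _, hG, by simp⟩, by rw [ph_zero], G \ {s(r, s)},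
      Finset.sdiff_subset.trans hg.sub, Fr3_mono F c _ _ Finset.sdiff_subset hg.fr, ?_⟩
    rw [dv_sdiff (Finset.singleton_subset_iff.2 hG), dv_pair nrs, Pi.single_neg, Pi.single_neg, add_zero]
    abel
  by_cases h2 : M2 (insert s(r, s) G)
  · have h1 : ¬ F c := fun g => hFm g h2
    refine ⟨1, 1, 0, Or.inl rfl, Or.inl rfl, by rw [ph_zero], _, Finset.insert_subset hrs hg.sub,
      by rw [Fr3_neg h1]; exact ⟨h2, hdf⟩, ?_⟩
    rw [XT.dv_insert hG, dv_pair nrs, add_zero]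
  have hFc' : ¬ F c → Hb c → ¬ NSh G := fun g1 g2 => (hFc g1 g2).resolve_right h2
  have hcov : ∀ {z : ℕ}, dg G z = 2 → ∃ e ∈ G, z ∈ e := by
    intro z hz
    obtain ⟨a, b, _, ha, _⟩ := two_edges (by omega : 2 ≤ dg G z)
    exact ⟨_, ha, by simp⟩
  by_cases h3 : ∃ e ∈ G, s ∈ e
  · by_cases h4 : ∃ e ∈ G, r ∈ e
    · by_cases h5 : 2 ≤ dg G r
      · exact w0.mid2 h hF hc hg hFc' hrs hG h5 h3 hr hrT
      · by_cases h6 : 2 ≤ dg G s
        · refine (w0.mid2 h hF hc hg hFc' (r := s) (s := r) (by rw [Sym2.eq_swap]; exact hrs)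
            (by rw [Sym2.eq_swap]; exact hG) h6 h4 hs hsT).symm
        · exact absurd (m2_insert3 hg.m2 nrs (by omega) (by omega)) h2
    · push Not at h4
      obtain ⟨σ, ε, k1, k2, k3⟩ := w0.side h hF hc hg hFc' h4 hrs hs hsT
      refine ⟨1, σ, ε, Or.inl rfl, ?_, k2, k3⟩
      rcases k1 with k1 | ⟨k1, k4⟩
      · exact Or.inl k1
      · exact Or.inr ⟨k1, hcov k4⟩
  · push Not at h3
    obtain ⟨σ, ε, k1, k2, k3⟩ := w0.side h hF hc hg hFc' h3 (s := r) (by rw [Sym2.eq_swap]; exact hrs) hr hrT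
    refine ⟨σ, 1, ε, ?_, Or.inl rfl, k2, by
      rw [show (Pi.single r σ + Pi.single s 1 + ε : ℕ → ℤ) = Pi.single s 1 + Pi.single r σ + ε by abel]; exact k3⟩
    rcases k1 with k1 | ⟨k1, k4⟩
    · exact Or.inl k1
    · exact Or.inr ⟨k1, hcov k4⟩

end

end Pool.Agent.P34

end

section -- file P34/ST5

/-!
Two conflicting short cycles, one of them a triangle: several moves at once, and the path with two edges (Lemma K).
-/

set_option autoImplicit false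

namespace Pool.Agent.P34

open Finset Pool.Agent.TFC Pool.Agent.PF4 Pool.Agent.PF4.LD Pool.Agent.PF4.XC Pool.Agent.PF4.XT
open Pool.Agent.PF4.XF (XD FitK Cv World WJ Av NC Rch dg_off mem_k4 mem_k2)

/-- an allowed set with the change `δ`, equal to `L` outside of the touched edges `T` -/
def Stt (D : Finset (Finset (Sym2 ℕ))) (F : Clu3 ℕ → Prop) (U : List (Clu3 ℕ)) (PL L T : Finset (Sym2 ℕ))
    (δ : ℕ → ℤ) : Prop :=
  ∃ K, AU3 (Fr3 D F) U PL K ∧ dv K = dv (L ∩ (Ucl3 U ∪ PL)) + δ ∧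
    ∀ e ∈ Ucl3 U ∪ PL, e ∉ T → (e ∈ K ↔ e ∈ L)

section
variable {X : XD3} {P : ℕ → Finset (Sym2 ℕ) → Prop} {D : Finset (Finset (Sym2 ℕ))} {j m : ℕ} {S : Finset ℕ}
  {M : ℕ → Finset (Sym2 ℕ)} {F : Clu3 ℕ → Prop} {CL U : List (Clu3 ℕ)} {PL : Finset (Sym2 ℕ)}
  {pl mi : ℕ → Prop}

theorem Stt.ev (h : PW3 X P D j S M (Fr3 D F) CL U PL pl mi) {Z L T : Finset (Sym2 ℕ)} (hZ : Z ∈ D)
    (hL : Wt3 X P D j Z L) {c : Clu3 ℕ} (hc : c ∈ U) (hZc : Z ⊆ c.edges) {δ : ℕ → ℤ} (hs : Stt D F U PL L T δ) :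
    1 ≤ ph X.V2 pl mi δ := by
  obtain ⟨K, h1, h2, -⟩ := hs
  exact h.ev hZ hL hc hZc h1 h2

/-- the part in the cluster of the member is replaced -/
theorem stt_init (h : PW3 X P D j S M (Fr3 D F) CL U PL pl mi) {Z L : Finset (Sym2 ℕ)} (hZ : Z ∈ D)
    (hL : Wt3 X P D j Z L) {c : Clu3 ℕ} (hc : c ∈ U) (hZc : Z ⊆ c.edges)
    (hFL : ∀ c' ∈ U, F c' → NSh (L ∩ c'.edges)) {F0 : Finset (Sym2 ℕ)} (hF0 : F0 ⊆ c.edges) (hA : Fr3 D F c F0) :
    Stt D F U PL L c.edges (dv F0 - dv Z) := by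
  obtain ⟨h1, h2⟩ := h.wz_au hZ hL hc hZc (h.fr_out hZ hL hc hZc fun c' g1 _ g2 => hFL c' g1 g2) hF0 hA
  refine ⟨_, h1, by rw [h2]; abel, fun e he het => ?_⟩
  rw [Finset.mem_union, Finset.mem_sdiff, Finset.mem_inter]
  constructor
  · rintro (⟨⟨g, _⟩, _⟩ | g)
    · exact g
    · exact absurd (hF0 g) het
  · exact fun g => Or.inl ⟨⟨g, he⟩, het⟩

/-- the part in another cluster is replaced -/
theorem Stt.clu (h : PW3 X P D j S M (Fr3 D F) CL U PL pl mi) {L T : Finset (Sym2 ℕ)} {δ δ' : ℕ → ℤ}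
    (hs : Stt D F U PL L T δ) {c : Clu3 ℕ} (hc : c ∈ U) (hd : Disjoint c.edges T)
    (hR : Rpl D F c (L ∩ c.edges) δ') : Stt D F U PL L (T ∪ c.edges) (δ + δ') := by
  obtain ⟨K, h1, h2, h3⟩ := hs
  obtain ⟨K', k1, k2, k3⟩ := hR
  have e0 : K ∩ c.edges = L ∩ c.edges := by
    ext e
    rw [Finset.mem_inter, Finset.mem_inter]
    constructor
    · rintro ⟨g1, g2⟩
      exact ⟨(h3 e (h.cW hc g2) (Finset.disjoint_left.1 hd g2)).1 g1, g2⟩
    · rintro ⟨g1, g2⟩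
      exact ⟨(h3 e (h.cW hc g2) (Finset.disjoint_left.1 hd g2)).2 g1, g2⟩
  obtain ⟨p1, p2⟩ := h.rep hc h1.1 (fun c' hc' _ => h1.2 c' hc') k1 k2
  refine ⟨_, p1, ?_, fun e he het => ?_⟩
  · rw [p2, h2, e0, k3]; abel
  · rw [Finset.mem_union, not_or] at het
    rw [Finset.mem_union, Finset.mem_sdiff, ← h3 e he het.1]
    constructor
    · rintro (⟨g, _⟩ | g)
      · exact g
      · exact absurd (k1 g) het.2
    · exact fun g => Or.inl ⟨g, het.2⟩

/-- a plain edge is added -/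
theorem Stt.addp (h : PW3 X P D j S M (Fr3 D F) CL U PL pl mi) {L T : Finset (Sym2 ℕ)} {δ : ℕ → ℤ}
    (hs : Stt D F U PL L T δ) {e : Sym2 ℕ} (he : e ∈ PL) (heT : e ∉ T) (heL : e ∉ L) :
    Stt D F U PL L (insert e T) (δ + dv {e}) := by
  obtain ⟨K, h1, h2, h3⟩ := hs
  have heK : e ∉ K := fun g => heL ((h3 e (Finset.mem_union_right _ he) heT).1 g)
  have h4 := h.addp h1 (Finset.singleton_subset_iff.2 he)
  rw [Finset.union_comm, ← Finset.insert_eq] at h4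
  refine ⟨_, h4, by rw [XT.dv_insert heK, h2]; abel, fun f hf hfT => ?_⟩
  rw [Finset.mem_insert, not_or] at hfT
  rw [Finset.mem_insert, ← h3 f hf hfT.2]
  exact ⟨fun g => g.resolve_left hfT.1, Or.inr⟩

/-- a plain edge is removed -/
theorem Stt.remp (h : PW3 X P D j S M (Fr3 D F) CL U PL pl mi) {L T : Finset (Sym2 ℕ)} {δ : ℕ → ℤ}
    (hs : Stt D F U PL L T δ) {e : Sym2 ℕ} (he : e ∈ PL) (heT : e ∉ T) (heL : e ∈ L) :
    Stt D F U PL L (insert e T) (δ - dv {e}) := by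
  obtain ⟨K, h1, h2, h3⟩ := hs
  have heK : e ∈ K := (h3 e (Finset.mem_union_right _ he) heT).2 heL
  have h4 := h.remp h1 (Finset.singleton_subset_iff.2 he)
  refine ⟨_, h4, by rw [dv_sdiff (Finset.singleton_subset_iff.2 heK), h2]; abel, fun f hf hfT => ?_⟩
  rw [Finset.mem_insert, not_or] at hfT
  rw [Finset.mem_sdiff, Finset.mem_singleton, ← h3 f hf hfT.2]
  exact ⟨fun g => g.1, fun g => ⟨g, hfT.1⟩⟩

/-- the part of a witness in another cluster -/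
theorem PW3.cg (h : PW3 X P D j S M (Fr3 D F) CL U PL pl mi) {Z L : Finset (Sym2 ℕ)} (hZ : Z ∈ D)
    (hL : Wt3 X P D j Z L) {c : Clu3 ℕ} (hc : c ∈ U) (hZc : Z ⊆ c.edges)
    (hFL : ∀ c' ∈ U, F c' → NSh (L ∩ c'.edges)) {c' : Clu3 ℕ} (hc' : c' ∈ U) (hne : c' ≠ c) :
    CG D F c' (L ∩ c'.edges) := by
  refine ⟨Finset.inter_subset_right, hL.m2.mono Finset.inter_subset_left, fun Z' hZ' hs => ?_, hFL c' hc'⟩
  have h1 := hL.uni Z' hZ' (hs.trans Finset.inter_subset_left)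
  subst h1
  obtain ⟨e, he⟩ := (h.ish Z' hZ).ne
  exact hne (h.eqc hc' hc (Finset.mem_inter.1 (hs he)).2 (hZc he))

/-- the edges of a witness at a corner of its member -/
theorem PW3.atC (h : PW3 X P D j S M (Fr3 D F) CL U PL pl mi) {Z L : Finset (Sym2 ℕ)} (hZ : Z ∈ D)
    (hL : Wt3 X P D j Z L) {c : Clu3 ℕ} (hZc : Z ⊆ c.edges) {x : ℕ} (hx : ∃ e ∈ Z, x ∈ e) :
    ∀ e ∈ L, x ∈ e → e ∈ c.edges := by
  intro e he hxe
  obtain ⟨f, hf, hxf⟩ := hx
  exact hZc (shc hL.m2 (h.ish Z hZ) hL.sh hf hxf he hxe)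

/-- **a side edge**, outside of the cluster of the member -/
theorem WA3.stepSide (w0 : WA3 X P D j m S M CL U PL) (h : PW3 X P D j S M (Fr3 D F) CL U PL pl mi)
    (hF : ∀ c, F c → Hb c) {Z L : Finset (Sym2 ℕ)} (hZ : Z ∈ D) (hL : Wt3 X P D j Z L) {c : Clu3 ℕ} (hc : c ∈ U)
    (hZc : Z ⊆ c.edges) (hFL : ∀ c' ∈ U, F c' → NSh (L ∩ c'.edges)) {x s : ℕ} (hx : ∃ e ∈ Z, x ∈ e) (hs : s ∈ S)
    (hT : s ∈ X.T) (hxs : s(x, s) ∈ Ucl3 U ∪ PL) (hxc : s(x, s) ∉ c.edges)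
    (hFc : ∀ c' ∈ U, s(x, s) ∈ c'.edges → ¬ F c' → Hb c' → ¬ NSh (L ∩ c'.edges)) {T : Finset (Sym2 ℕ)} {δ : ℕ → ℤ}
    (hst : Stt D F U PL L T δ) (hT0 : s(x, s) ∉ T) (hT1 : ∀ c' ∈ U, s(x, s) ∈ c'.edges → Disjoint c'.edges T) :
    ∃ (σ : ℤ) (ε : ℕ → ℤ) (T' : Finset (Sym2 ℕ)), (σ = 1 ∨ (σ = -1 ∧ ∃ c' ∈ U, s(x, s) ∈ c'.edges ∧
      ∀ e ∈ L, s ∈ e → e ∈ c'.edges)) ∧ ph X.V2 pl mi ε ≤ 0 ∧
      Stt D F U PL L T' (δ + (Pi.single x 1 + Pi.single s σ + ε)) ∧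
      ∀ e ∈ T', e ∈ T ∨ e = s(x, s) ∨ ∃ c' ∈ U, s(x, s) ∈ c'.edges ∧ e ∈ c'.edges := by
  have hxC := h.atC hZ hL hZc hx
  rcases Finset.mem_union.1 hxs with h1 | h1
  · obtain ⟨c', hc', hec⟩ := mem_Ucl3.1 h1
    have hne : c' ≠ c := by rintro rfl; exact hxc hec
    have hcg := h.cg hZ hL hc hZc hFL hc' hne
    have hx' : ∀ e ∈ L ∩ c'.edges, x ∉ e := by
      intro e he hxe
      obtain ⟨g1, g2⟩ := Finset.mem_inter.1 he
      exact hne (h.eqc hc' hc g2 (hxC e g1 hxe))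
    obtain ⟨σ, ε, k1, k2, k3⟩ := w0.side h hF hc' hcg (fun g1 g2 => hFc c' hc' hec g1 g2) hx' hec hs hT
    refine ⟨σ, ε, T ∪ c'.edges, ?_, k2, hst.clu h hc' (hT1 c' hc' hec) k3, fun e he => ?_⟩
    · rcases k1 with k1 | ⟨k1, k4⟩
      · exact Or.inl k1
      · refine Or.inr ⟨k1, c', hc', hec, fun e he hse => ?_⟩
        exact (Finset.mem_inter.1 (sat_of_dg3 hL.m2 Finset.inter_subset_left k4 e he hse)).2
    · rcases Finset.mem_union.1 he with g | g
      · exact Or.inl g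
      · exact Or.inr (Or.inr ⟨c', hc', hec, g⟩)
  · have hn : s(x, s) ∉ L := fun g => Finset.disjoint_left.1 (h.plain hc) h1 (hxC _ g (by simp))
    refine ⟨1, 0, insert s(x, s) T, Or.inl rfl, by rw [ph_zero], ?_, fun e he => ?_⟩
    · have h2 := hst.addp h h1 hT0 hn
      rwa [dv_pair (h.ne hxs), ← add_zero (Pi.single x 1 + Pi.single s 1 : ℕ → ℤ)] at h2
    · rcases Finset.mem_insert.1 he with g | g
      · exact Or.inr (Or.inl g)
      · exact Or.inl g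

/-- both edges of a path at the common edge of a square are not in the cluster of the square -/
theorem sq_notboth {c : Clu3 ℕ} (hv : c.Valid) {x y q p : ℕ} (h4 : Dist4 x y q p) (hs : TFC.sq x y q p ⊆ c.edges)
    {g : ℕ} (hg : ∀ e ∈ TFC.sq x y q p, g ∉ e) (h1 : s(x, g) ∈ c.edges) (h2 : s(y, g) ∈ c.edges) : False := by
  have gx : g ≠ x := by rintro rfl; exact hg s(g, y) (by simp [TFC.sq]) (by simp)
  have gy : g ≠ y := by rintro rfl; exact hg s(g, q) (by simp [TFC.sq]) (by simp)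
  have gq : g ≠ q := by rintro rfl; exact hg s(g, p) (by simp [TFC.sq]) (by simp)
  have gp : g ≠ p := by rintro rfl; exact hg s(g, x) (by simp [TFC.sq]) (by simp)
  rcases shape3_sq hv h4 hs with rfl | ⟨L, hh, l1, l2, l3, l4⟩ | ⟨L, hh, l1, l2, l3, l4⟩
  · have := (mem3_k4.1 h1).2.1
    simp only [mem_insert, mem_singleton] at this
    tauto
  · rcases hh.edge h2 with (⟨a, _⟩ | ⟨a, _⟩) | (⟨a | a, _⟩ | ⟨a | a, _⟩)
    · exact h4.1 a.symm
    · exact h4.2.2.2.1 a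
    · exact h4.1 a.symm
    · exact h4.2.2.2.1 a
    · exact gx a
    · exact gq a
  · rcases hh.edge h1 with (⟨a, _⟩ | ⟨a, _⟩) | (⟨a | a, _⟩ | ⟨a | a, _⟩)
    · exact h4.1 a
    · exact h4.2.2.1 a
    · exact h4.1 a
    · exact h4.2.2.1 a
    · exact gy a
    · exact gp a

theorem con_two_mi {p m : Prop} (h : m) : con p m 2 ≤ 0 := by
  unfold con
  rw [if_pos h, if_pos h]
  split_ifs <;> norm_num

/-- the pieces of `Z` minus an edge -/
theorem dg_erase_one {Z : Finset (Sym2 ℕ)} (hm : M2 Z) {x y : ℕ} (he : s(x, y) ∈ Z) :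
    dg (Z \ {s(x, y)}) x ≤ 1 ∧ dg (Z \ {s(x, y)}) y ≤ 1 := by
  have h1 := dg_erase he (v := x)
  have h2 := dg_erase he (v := y)
  have h3 := hm.le x
  have h4 := hm.le y
  rw [if_pos (by simp), Finset.erase_eq] at h1 h2
  omega

/-- **Lemma K**: `x y` in a member `Z` of `D`, `g` in `S` and in `T`, not a corner of `Z`, `x g` and `y g` edges -/
theorem WA3.stK (w0 : WA3 X P D j m S M CL U PL) {Z : Finset (Sym2 ℕ)} (hZ : Z ∈ D) {c : Clu3 ℕ} (hc : c ∈ U)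
    (hZc : Z ⊆ c.edges) {x y g : ℕ} (he : s(x, y) ∈ Z) (hg : ∀ e ∈ Z, g ∉ e) (hS : g ∈ S) (hT : g ∈ X.T)
    (hx : s(x, g) ∈ X.E) (hy : s(y, g) ∈ X.E) :
    s(x, g) ∈ c.edges ∧ s(y, g) ∈ c.edges ∧ ∃ t, Dist3 x y t ∧ Z = tri x y t ∧ TFC.sq x g y t ∈ D := by
  obtain ⟨_, _, h0, -⟩ := w0.cap
  obtain ⟨L, hL⟩ := h0.wt hZ
  obtain ⟨pl, mi, h, hmi⟩ := w0.fr (fun c' => Hb c' ∧ NSh (L ∩ c'.edges)) fun c' h1 => h1.1
  have hF : ∀ c', (Hb c' ∧ NSh (L ∩ c'.edges)) → Hb c' := fun c' h1 => h1.1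
  have hFL : ∀ c' ∈ U, (Hb c' ∧ NSh (L ∩ c'.edges)) → NSh (L ∩ c'.edges) := fun c' _ h1 => h1.2
  have hFc : ∀ c' : Clu3 ℕ, ¬ (Hb c' ∧ NSh (L ∩ c'.edges)) → Hb c' → ¬ NSh (L ∩ c'.edges) :=
    fun c' h1 h2 h3 => h1 ⟨h2, h3⟩
  have hxg := w0.reg hS hx (by simp)
  have hyg := w0.reg hS hy (by simp)
  have nxy := h.ne (h.cW hc (hZc he))
  have nxg := h.ne hxg
  have nyg := h.ne hyg
  have xZ : ∃ e ∈ Z, x ∈ e := ⟨_, he, by simp⟩
  have yZ : ∃ e ∈ Z, y ∈ e := ⟨_, he, by simp⟩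
  have hxC := h.atC hZ hL hZc xZ
  have hyC := h.atC hZ hL hZc yZ
  have hmi' := hmi g hS hT
  have hgV := h.v2 hxg (v := g) (by simp)
  have hmZ := (h.ish Z hZ).m2
  obtain ⟨dx, dy⟩ := dg_erase_one hmZ he
  have hc2 : con (pl g) (mi g) 2 ≤ 0 := con_two_mi hmi'
  have eval : ∀ (a : ℤ) (ε ε' : ℕ → ℤ) (T : Finset (Sym2 ℕ)), (a = 0 ∨ a = 2) → ph X.V2 pl mi ε ≤ 0 →
      ph X.V2 pl mi ε' ≤ 0 →
      Stt D (fun c' => Hb c' ∧ NSh (L ∩ c'.edges)) U PL L T (Pi.single g a + ε + ε') → False := by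
    intro a ε ε' T ha h1 h2 h3
    have h4 := h3.ev h hZ hL hc hZc
    have h5 := ph_add_le X.V2 pl mi (Pi.single g a + ε) ε'
    have h6 := ph_add_le X.V2 pl mi (Pi.single g a) ε
    rw [ph_one hgV] at h6
    rcases ha with rfl | rfl
    · rw [con_zero] at h6; omega
    · omega
  have hF0 : Fr3 D (fun c' => Hb c' ∧ NSh (L ∩ c'.edges)) c (Z \ {s(x, y)}) :=
    am3_sub (h.fr_am c) (h.ish Z hZ) hZc (Finset.singleton_subset_iff.2 he) (by simp)
  have hd0 : dv (Z \ {s(x, y)}) - dv Z = (-(Pi.single x 1 + Pi.single y 1) : ℕ → ℤ) := by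
    rw [dv_sdiff (Finset.singleton_subset_iff.2 he), dv_pair nxy]; abel
  have hgi : ∀ e ∈ Z \ {s(x, y)}, g ∉ e := fun e he => hg e (Finset.mem_sdiff.1 he).1
  have sgn : ∀ {σ τ : ℤ}, (σ = 1 ∨ (σ = -1 ∧ ∃ c' ∈ U, s(x, g) ∈ c'.edges ∧ ∀ e ∈ L, g ∈ e → e ∈ c'.edges)) →
      (τ = 1 ∨ (τ = -1 ∧ ∃ c' ∈ U, s(y, g) ∈ c'.edges ∧ ∀ e ∈ L, g ∈ e → e ∈ c'.edges)) →
      (∀ c' ∈ U, s(x, g) ∈ c'.edges → s(y, g) ∉ c'.edges) → σ + τ = 0 ∨ σ + τ = 2 := by
    intro σ τ h1 h2 h3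
    rcases h1 with rfl | ⟨rfl, c1, k1, k2, k3⟩
    · rcases h2 with rfl | ⟨rfl, _⟩
      · right; norm_num
      · left; norm_num
    · rcases h2 with rfl | ⟨rfl, c2, l1, l2, l3⟩
      · left; norm_num
      · exfalso
        have h4 : dg L g = 2 := hL.cov g hT
        obtain ⟨a, b, _, ha, _⟩ := two_edges (by omega : 2 ≤ dg L g)
        have := h.eqc k1 l1 (k3 _ ha (by simp)) (l3 _ ha (by simp))
        subst this
        exact h3 c1 k1 k2 l2
  -- one of the edges in the cluster of the member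
  have one : ∀ x y : ℕ, s(x, y) ∈ Z → x ≠ g → y ≠ g → s(x, g) ∈ c.edges → s(y, g) ∉ c.edges →
      s(y, g) ∈ Ucl3 U ∪ PL → dg (Z \ {s(x, y)}) x ≤ 1 → Fr3 D (fun c' => Hb c' ∧ NSh (L ∩ c'.edges)) c
      (Z \ {s(x, y)}) → False := by
    intro x y he nxg nyg h1 h2 hyg dx hF0
    have nxy := h.ne (h.cW hc (hZc he))
    have hgi : ∀ e ∈ Z \ {s(x, y)}, g ∉ e := fun e he => hg e (Finset.mem_sdiff.1 he).1
    have hn : s(g, x) ∉ Z \ {s(x, y)} := fun k => hgi _ k (by simp)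
    have hA := fr3_ins h.ish nxg.symm hF0 (fun a ha => absurd (by simp) (hgi _ ha)) (Or.inr dx)
    have st := stt_init h hZ hL hc hZc hFL (F0 := insert s(g, x) (Z \ {s(x, y)}))
      (Finset.insert_subset (by rw [Sym2.eq_swap]; exact h1) (Finset.sdiff_subset.trans hZc)) hA
    obtain ⟨σ, ε, T', k1, k2, k3, -⟩ := w0.stepSide h hF hZ hL hc hZc hFL (x := y) ⟨_, he, by simp⟩ hS hT hyg h2
      (fun c' _ _ => hFc c') st h2 (fun c' hc' hec => h.djc hc' hc (by rintro rfl; exact h2 hec))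
    refine eval (1 + σ) ε 0 T' ?_ k2 (by rw [ph_zero]) ?_
    · rcases k1 with rfl | ⟨rfl, _⟩
      · right; norm_num
      · left; norm_num
    · rw [XT.dv_insert hn, dv_sdiff (Finset.singleton_subset_iff.2 he), dv_pair nxy, dv_pair nxg.symm] at k3
      have e : (dv Z - (Pi.single x 1 + Pi.single y 1) + (Pi.single g 1 + Pi.single x 1) - dv Z +
          (Pi.single y 1 + Pi.single g σ + ε) : ℕ → ℤ) = Pi.single g (1 + σ) + ε + 0 := by
        rw [Pi.single_add]; abel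
      rwa [e] at k3
  by_cases h1 : s(x, g) ∈ c.edges
  · by_cases h2 : s(y, g) ∈ c.edges
    · refine ⟨h1, h2, ?_⟩
      rcases isSh_first (h.ish Z hZ) he with ⟨t, hd, rfl⟩ | ⟨q, p, hd, rfl⟩
      · refine ⟨t, hd, rfl, ?_⟩
        by_contra hD
        obtain ⟨n1, n2, n3⟩ := id hd
        have ngt : g ≠ t := by rintro rfl; exact hg s(y, g) (by simp [tri]) (by simp)
        have h4 : Dist4 x g y t := ⟨nxg, n1, n2, nyg.symm, ngt, n3⟩
        have hsub : TFC.sq x g y t ⊆ c.edges := by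
          rw [P34.sq_sub]
          refine ⟨h1, by rw [Sym2.eq_swap]; exact h2, hZc (by simp [tri]), hZc (by simp [tri])⟩
        have st := stt_init h hZ hL hc hZc hFL (F0 := TFC.sq x g y t) hsub
          (by
            rw [Fr3_neg]
            · exact acap_sh h.ish (Or.inr ⟨_, _, _, _, h4, rfl⟩) hD
            · intro k
              have := k.2
              rw [inter_eq3 (h.val hc) (h.ish _ hZ) hZc hL.m2 hL.sh] at this
              exact this _ (h.ish _ hZ) le_rfl)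
        have e : (dv (TFC.sq x g y t) - dv (tri x y t) : ℕ → ℤ) = Pi.single g 2 + 0 + 0 := by
          rw [dv_sq h4, dv_tri hd]
          funext w
          simp only [Pi.add_apply, Pi.sub_apply, Pi.zero_apply, sgl, ev_apply]
          split_ifs <;> ring
        rw [e] at st
        exact eval 2 0 0 _ (Or.inr rfl) (by rw [ph_zero]) (by rw [ph_zero]) st
      · exact (sq_notboth (h.val hc) hd hZc hg h1 h2).elim
    · exact (one x y he nxg nyg h1 h2 hyg dx hF0).elim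
  · exfalso
    by_cases h2 : s(y, g) ∈ c.edges
    · refine one y x (by rw [Sym2.eq_swap]; exact he) nyg nxg h2 h1 hxg ?_ ?_
      · rw [Sym2.eq_swap]; exact dy
      · rw [Sym2.eq_swap]; exact hF0
    · have st := stt_init h hZ hL hc hZc hFL (Finset.sdiff_subset.trans hZc) hF0
      rw [hd0] at st
      by_cases h3 : ∃ c' ∈ U, s(x, g) ∈ c'.edges ∧ s(y, g) ∈ c'.edges
      · obtain ⟨c', hc', k1, k2⟩ := h3
        have hne : c' ≠ c := by rintro rfl; exact h1 k1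
        have hcg := h.cg hZ hL hc hZc hFL hc' hne
        have hx' : ∀ e ∈ L ∩ c'.edges, x ∉ e := by
          intro e he hxe
          obtain ⟨g1, g2⟩ := Finset.mem_inter.1 he
          exact hne (h.eqc hc' hc g2 (hxC e g1 hxe))
        have hy' : ∀ e ∈ L ∩ c'.edges, y ∉ e := by
          intro e he hxe
          obtain ⟨g1, g2⟩ := Finset.mem_inter.1 he
          exact hne (h.eqc hc' hc g2 (hyC e g1 hxe))
        rcases w0.side2 h hF hc' hcg (fun g1 g2 => hFc c' g1 g2) hx' hy' k1 k2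
          (fun k => hne (h.eqc hc' hc k (hZc he))) nxy nyg hS hT with k3 | ⟨ε, k3, k4⟩
        · have st' := st.clu h hc' (h.djc hc' hc hne) k3
          have e : (-(Pi.single x 1 + Pi.single y 1) + (Pi.single x 1 + Pi.single g 1 +
              (Pi.single y 1 + Pi.single g 1)) : ℕ → ℤ) = Pi.single g 2 + 0 + 0 := by
            rw [show (2 : ℤ) = 1 + 1 by norm_num, Pi.single_add]; abel
          rw [e] at st'
          exact eval 2 0 0 _ (Or.inr rfl) (by rw [ph_zero]) (by rw [ph_zero]) st'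
        · have st' := st.clu h hc' (h.djc hc' hc hne) k4
          have e : (-(Pi.single x 1 + Pi.single y 1) + (Pi.single x 1 + Pi.single y 1 + ε) : ℕ → ℤ) =
              Pi.single g 0 + ε + 0 := by
            rw [Pi.single_zero]; abel
          rw [e] at st'
          exact eval 0 ε 0 _ (Or.inl rfl) k3 (by rw [ph_zero]) st'
      · push Not at h3
        obtain ⟨σ, ε, T', k1, k2, k3, k4⟩ := w0.stepSide h hF hZ hL hc hZc hFL xZ hS hT hxg h1
          (fun c' _ _ => hFc c') st h1 (fun c' hc' hec => h.djc hc' hc (by rintro rfl; exact h1 hec))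
        obtain ⟨τ, ε', T'', l1, l2, l3, -⟩ := w0.stepSide h hF hZ hL hc hZc hFL yZ hS hT hyg h2
          (fun c' _ _ => hFc c') k3
          (fun k => by
            rcases k4 _ k with g1 | g1 | ⟨c', g1, g2, g3⟩
            · exact h2 g1
            · rw [Sym2.eq_iff] at g1
              rcases g1 with ⟨g1, _⟩ | ⟨g1, _⟩
              · exact nxy g1.symm
              · exact nyg g1
            · exact h3 c' g1 g2 g3)
          (fun c' hc' hec => by
            rw [Finset.disjoint_left]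
            intro e he1 he2
            rcases k4 e he2 with g1 | g1 | ⟨c2, g1, g2, g3⟩
            · exact h2 (h.eqc hc' hc he1 g1 ▸ hec)
            · rw [g1] at he1; exact h3 c' hc' he1 hec
            · have := h.eqc hc' g1 he1 g3
              subst this
              exact h3 c' hc' g2 hec)
        refine eval (σ + τ) ε ε' T'' (sgn k1 l1 h3) k2 l2 ?_
        have e : (-(Pi.single x 1 + Pi.single y 1) + (Pi.single x 1 + Pi.single g σ + ε) +
            (Pi.single y 1 + Pi.single g τ + ε') : ℕ → ℤ) = Pi.single g (σ + τ) + ε + ε' := by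
          rw [Pi.single_add]; abel
        rwa [e] at l3

end

end Pool.Agent.P34

end

section -- file P34/ST6

/-!
Two conflicting short cycles, one of them a triangle: the path with three edges (Lemma M).
-/

set_option autoImplicit false

namespace Pool.Agent.P34

open Finset Pool.Agent.TFC Pool.Agent.PF4 Pool.Agent.PF4.LD Pool.Agent.PF4.XC Pool.Agent.PF4.XT
open Pool.Agent.PF4.XF (XD FitK Cv World WJ Av NC Rch dg_off mem_k4 mem_k2)

/-- the frame: the clusters with two centres in which `L` has no short cycle, but not the cluster of the middle edge `r s`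
if it contains neither of the side edges and `L` with `r s` is a 2-matching there -/
def FM (L : Finset (Sym2 ℕ)) (x y r s : ℕ) (c : Clu3 ℕ) : Prop :=
  Hb c ∧ NSh (L ∩ c.edges) ∧
    ¬ (s(r, s) ∈ c.edges ∧ s(x, s) ∉ c.edges ∧ s(y, r) ∉ c.edges ∧ M2 (insert s(r, s) (L ∩ c.edges)))

open Classical in
/-- a unit edge vector if the edge `x s` is in the cluster -/
noncomputable def inC (c : Clu3 ℕ) (x s : ℕ) : ℕ → ℤ :=
  if s(x, s) ∈ c.edges then (Pi.single x 1 + Pi.single s 1 : ℕ → ℤ) else 0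

theorem inC_pos {c : Clu3 ℕ} {x s : ℕ} (h : s(x, s) ∈ c.edges) :
    inC c x s = (Pi.single x 1 + Pi.single s 1 : ℕ → ℤ) := if_pos h

theorem inC_neg {c : Clu3 ℕ} {x s : ℕ} (h : s(x, s) ∉ c.edges) : inC c x s = 0 := if_neg h

/-- the path `x s r y` and the two chords in a cluster -/
theorem clu_p4 {c : Clu3 ℕ} (hv : c.Valid) {x s r y : ℕ} (h1 : s(x, s) ∈ c.edges) (h3 : s(y, r) ∈ c.edges)
    (h4 : s(x, r) ∉ c.edges) (h5 : s(x, y) ∉ c.edges) (n1 : x ≠ r) (n2 : x ≠ y) (n3 : r ≠ y) : False := by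
  rcases k4_or_hb c with ⟨Y, rfl⟩ | hb
  · exact h5 (mem3_k4.2 ⟨(mem3_k4.1 h1).1, (mem3_k4.1 h3).1, n2⟩)
  · obtain ⟨u, v, L, hh⟩ := hb.hub
    obtain ⟨uv, uL, vL, _⟩ := hh.dat hv
    -- every vertex is a centre or a leaf
    have kx : (x = u ∨ x = v) ∨ x ∈ L := by rcases hh.edge h1 with h | h | h <;> tauto
    have kr : (r = u ∨ r = v) ∨ r ∈ L := by rcases hh.edge h3 with h | h | h <;> tauto
    have ky : (y = u ∨ y = v) ∨ y ∈ L := by rcases hh.edge h3 with h | h | h <;> tauto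
    have adj : ∀ {a b : ℕ}, (a = u ∨ a = v) → b ∈ L → s(a, b) ∈ c.edges := by
      rintro a b (rfl | rfl) hb
      · exact hh.ul hb
      · exact hh.vl hb
    rcases kx with kx | kx
    · have kr' : r = u ∨ r = v := kr.resolve_right fun g => h4 (adj kx g)
      have ky' : y = u ∨ y = v := ky.resolve_right fun g => h5 (adj kx g)
      rcases kx with rfl | rfl <;> rcases kr' with rfl | rfl <;> rcases ky' with rfl | rfl <;> tauto
    · have kr' : r ∈ L := kr.resolve_left fun g => h4 (by rw [Sym2.eq_swap]; exact adj g kx)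
      have ky' : y ∈ L := ky.resolve_left fun g => h5 (by rw [Sym2.eq_swap]; exact adj g kx)
      rcases hh.edge h3 with (⟨g, _⟩ | ⟨g, _⟩) | (⟨g | g, _⟩ | ⟨g | g, _⟩)
      · exact uL (g ▸ ky')
      · exact vL (g ▸ ky')
      · exact uL (g ▸ ky')
      · exact vL (g ▸ ky')
      · exact uL (g ▸ kr')
      · exact vL (g ▸ kr')

section
variable {X : XD3} {P : ℕ → Finset (Sym2 ℕ) → Prop} {D : Finset (Finset (Sym2 ℕ))} {j m : ℕ} {S : Finset ℕ}
  {M : ℕ → Finset (Sym2 ℕ)} {F : Clu3 ℕ → Prop} {CL U : List (Clu3 ℕ)} {PL : Finset (Sym2 ℕ)}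
  {pl mi : ℕ → Prop}

/-- the member without `x y`, with the side edges which lie in its cluster -/
theorem stt_init2 (h : PW3 X P D j S M (Fr3 D F) CL U PL pl mi) {Z L : Finset (Sym2 ℕ)} (hZ : Z ∈ D)
    (hL : Wt3 X P D j Z L) {c : Clu3 ℕ} (hc : c ∈ U) (hZc : Z ⊆ c.edges)
    (hFL : ∀ c' ∈ U, F c' → NSh (L ∩ c'.edges)) {x y r s : ℕ} (he : s(x, y) ∈ Z) (hr : ∀ e ∈ Z, r ∉ e)
    (hs : ∀ e ∈ Z, s ∉ e) (nrs : r ≠ s) :
    Stt D F U PL L c.edges (-(Pi.single x 1 + Pi.single y 1) + inC c x s + inC c y r) := by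
  have nxy := h.ne (h.cW hc (hZc he))
  have hmZ := (h.ish Z hZ).m2
  obtain ⟨dx, dy⟩ := dg_erase_one hmZ he
  have nxs : s ≠ x := by rintro rfl; exact hs _ he (by simp)
  have nys : s ≠ y := by rintro rfl; exact hs _ he (by simp)
  have nxr : r ≠ x := by rintro rfl; exact hr _ he (by simp)
  have nyr : r ≠ y := by rintro rfl; exact hr _ he (by simp)
  have hF0 : Fr3 D F c (Z \ {s(x, y)}) :=
    am3_sub (h.fr_am c) (h.ish Z hZ) hZc (Finset.singleton_subset_iff.2 he) (by simp)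
  have hd0 : dv (Z \ {s(x, y)}) = dv Z - (Pi.single x 1 + Pi.single y 1 : ℕ → ℤ) := by
    rw [dv_sdiff (Finset.singleton_subset_iff.2 he), dv_pair nxy]
  have hri : ∀ e ∈ Z \ {s(x, y)}, r ∉ e := fun e he => hr e (Finset.mem_sdiff.1 he).1
  have hsi : ∀ e ∈ Z \ {s(x, y)}, s ∉ e := fun e he => hs e (Finset.mem_sdiff.1 he).1
  have hsub : Z \ {s(x, y)} ⊆ c.edges := Finset.sdiff_subset.trans hZc
  have nsx : s(s, x) ∉ Z \ {s(x, y)} := fun g => hsi _ g (by simp)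
  have nry : s(r, y) ∉ Z \ {s(x, y)} := fun g => hri _ g (by simp)
  have A1 := fr3_ins h.ish nxs hF0 (fun a ha => absurd (by simp) (hsi _ ha)) (Or.inr dx)
  have A2 := fr3_ins h.ish nyr hF0 (fun a ha => absurd (by simp) (hri _ ha)) (Or.inr dy)
  have hri' : ∀ e ∈ insert s(s, x) (Z \ {s(x, y)}), r ∉ e := by
    intro e he
    rcases Finset.mem_insert.1 he with rfl | he
    · simp only [Sym2.mem_iff, not_or]; exact ⟨nrs, nxr⟩
    · exact hri e he
  have nry' : s(r, y) ∉ insert s(s, x) (Z \ {s(x, y)}) := fun g => hri' _ g (by simp)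
  have dy' : dg (insert s(s, x) (Z \ {s(x, y)})) y ≤ 1 := by
    refine (dg_ins_off' ?_).trans dy
    simp only [Sym2.mem_iff, not_or]
    exact ⟨nys.symm, nxy.symm⟩
  have A3 := fr3_ins h.ish nyr A1 (fun a ha => absurd (by simp) (hri' _ ha)) (Or.inr dy')
  by_cases h1 : s(x, s) ∈ c.edges
  · have h1' : s(s, x) ∈ c.edges := by rwa [Sym2.eq_swap]
    by_cases h2 : s(y, r) ∈ c.edges
    · have h2' : s(r, y) ∈ c.edges := by rwa [Sym2.eq_swap]
      have st := stt_init h hZ hL hc hZc hFL (Finset.insert_subset h2' (Finset.insert_subset h1' hsub)) A3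
      rw [XT.dv_insert nry', XT.dv_insert nsx, hd0, dv_pair nxs, dv_pair nyr] at st
      rw [inC_pos h1, inC_pos h2]
      have e : (dv Z - (Pi.single x 1 + Pi.single y 1) + (Pi.single s 1 + Pi.single x 1) +
          (Pi.single r 1 + Pi.single y 1) - dv Z : ℕ → ℤ) =
          -(Pi.single x 1 + Pi.single y 1) + (Pi.single x 1 + Pi.single s 1) + (Pi.single y 1 + Pi.single r 1) := by
        abel
      rwa [e] at st
    · have st := stt_init h hZ hL hc hZc hFL (Finset.insert_subset h1' hsub) A1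
      rw [XT.dv_insert nsx, hd0, dv_pair nxs] at st
      rw [inC_pos h1, inC_neg h2]
      have e : (dv Z - (Pi.single x 1 + Pi.single y 1) + (Pi.single s 1 + Pi.single x 1) - dv Z : ℕ → ℤ) =
          -(Pi.single x 1 + Pi.single y 1) + (Pi.single x 1 + Pi.single s 1) + 0 := by
        abel
      rwa [e] at st
  · by_cases h2 : s(y, r) ∈ c.edges
    · have h2' : s(r, y) ∈ c.edges := by rwa [Sym2.eq_swap]
      have st := stt_init h hZ hL hc hZc hFL (Finset.insert_subset h2' hsub) A2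
      rw [XT.dv_insert nry, hd0, dv_pair nyr] at st
      rw [inC_neg h1, inC_pos h2]
      have e : (dv Z - (Pi.single x 1 + Pi.single y 1) + (Pi.single r 1 + Pi.single y 1) - dv Z : ℕ → ℤ) =
          -(Pi.single x 1 + Pi.single y 1) + 0 + (Pi.single y 1 + Pi.single r 1) := by
        abel
      rwa [e] at st
    · have st := stt_init h hZ hL hc hZc hFL hsub hF0
      rw [hd0] at st
      rw [inC_neg h1, inC_neg h2]
      have e : (dv Z - (Pi.single x 1 + Pi.single y 1) - dv Z : ℕ → ℤ) =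
          -(Pi.single x 1 + Pi.single y 1) + 0 + 0 := by
        abel
      rwa [e] at st

/-- **a side edge**, anywhere -/
theorem WA3.stepAny (w0 : WA3 X P D j m S M CL U PL) (h : PW3 X P D j S M (Fr3 D F) CL U PL pl mi)
    (hF : ∀ c, F c → Hb c) {Z L : Finset (Sym2 ℕ)} (hZ : Z ∈ D) (hL : Wt3 X P D j Z L) {c : Clu3 ℕ} (hc : c ∈ U)
    (hZc : Z ⊆ c.edges) (hFL : ∀ c' ∈ U, F c' → NSh (L ∩ c'.edges)) {x s : ℕ} (hx : ∃ e ∈ Z, x ∈ e) (hs : s ∈ S)
    (hT : s ∈ X.T) (hxs : s(x, s) ∈ Ucl3 U ∪ PL)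
    (hFc : ∀ c' ∈ U, s(x, s) ∈ c'.edges → ¬ F c' → Hb c' → ¬ NSh (L ∩ c'.edges)) {T : Finset (Sym2 ℕ)} {δ : ℕ → ℤ}
    (hst : Stt D F U PL L T δ) (hT0 : s(x, s) ∉ c.edges → s(x, s) ∉ T)
    (hT1 : s(x, s) ∉ c.edges → ∀ c' ∈ U, s(x, s) ∈ c'.edges → Disjoint c'.edges T) :
    ∃ (σ : ℤ) (ε : ℕ → ℤ) (T' : Finset (Sym2 ℕ)), (σ = 1 ∨ (σ = -1 ∧ ∃ c' ∈ U, s(x, s) ∈ c'.edges ∧
      ∀ e ∈ L, s ∈ e → e ∈ c'.edges)) ∧ ph X.V2 pl mi ε ≤ 0 ∧
      Stt D F U PL L T' (δ - inC c x s + (Pi.single x 1 + Pi.single s σ + ε)) ∧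
      ∀ e ∈ T', e ∈ T ∨ (s(x, s) ∉ c.edges ∧ (e = s(x, s) ∨ ∃ c' ∈ U, s(x, s) ∈ c'.edges ∧ e ∈ c'.edges)) := by
  by_cases h1 : s(x, s) ∈ c.edges
  · refine ⟨1, 0, T, Or.inl rfl, by rw [ph_zero], ?_, fun e he => Or.inl he⟩
    rw [inC_pos h1, add_zero, sub_add_cancel]
    exact hst
  · obtain ⟨σ, ε, T', k1, k2, k3, k4⟩ := w0.stepSide h hF hZ hL hc hZc hFL hx hs hT hxs h1 hFc hst (hT0 h1) (hT1 h1)
    refine ⟨σ, ε, T', k1, k2, ?_, fun e he => (k4 e he).imp_right fun g => ⟨h1, g⟩⟩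
    rw [inC_neg h1, sub_zero]
    exact k3

/-- **the middle edge** -/
theorem WA3.stepMid (w0 : WA3 X P D j m S M CL U PL) {x y r s : ℕ} {L : Finset (Sym2 ℕ)}
    (h : PW3 X P D j S M (Fr3 D (FM L x y r s)) CL U PL pl mi) {Z : Finset (Sym2 ℕ)} (hZ : Z ∈ D)
    (hL : Wt3 X P D j Z L) {c : Clu3 ℕ} (hc : c ∈ U) (hZc : Z ⊆ c.edges) (hrs : s(r, s) ∈ Ucl3 U ∪ PL)
    (hr : r ∈ S) (hrT : r ∈ X.T) (hs : s ∈ S) (hsT : s ∈ X.T) (hrsc : s(r, s) ∉ c.edges)
    (hx : ∀ c' ∈ U, s(r, s) ∈ c'.edges → s(x, s) ∉ c'.edges) (hy : ∀ c' ∈ U, s(r, s) ∈ c'.edges → s(y, r) ∉ c'.edges)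
    (hdf : ∀ c' ∈ U, s(r, s) ∈ c'.edges → ∀ Z3 ∈ D, ¬ Z3 ⊆ insert s(r, s) (L ∩ c'.edges)) {T : Finset (Sym2 ℕ)}
    {δ : ℕ → ℤ} (hst : Stt D (FM L x y r s) U PL L T δ) (hT0 : s(r, s) ∉ T)
    (hT1 : ∀ c' ∈ U, s(r, s) ∈ c'.edges → Disjoint c'.edges T) :
    ∃ (σ τ : ℤ) (ε : ℕ → ℤ) (T' : Finset (Sym2 ℕ)),
      (σ = 1 ∨ (σ = -1 ∧ ∃ e ∈ L, r ∈ e ∧ ∀ c' ∈ U, e ∈ c'.edges → s(r, s) ∈ c'.edges)) ∧
      (τ = 1 ∨ (τ = -1 ∧ ∃ e ∈ L, s ∈ e ∧ ∀ c' ∈ U, e ∈ c'.edges → s(r, s) ∈ c'.edges)) ∧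
      ph X.V2 pl mi ε ≤ 0 ∧ Stt D (FM L x y r s) U PL L T' (δ + (Pi.single r σ + Pi.single s τ + ε)) ∧
      ∀ e ∈ T', e ∈ T ∨ e = s(r, s) ∨ ∃ c' ∈ U, s(r, s) ∈ c'.edges ∧ e ∈ c'.edges := by
  have hF : ∀ c, FM L x y r s c → Hb c := fun c g => g.1
  have hFL : ∀ c' ∈ U, FM L x y r s c' → NSh (L ∩ c'.edges) := fun c' _ g => g.2.1
  rcases Finset.mem_union.1 hrs with h1 | h1
  · obtain ⟨c', hc', hec⟩ := mem_Ucl3.1 h1
    have hne : c' ≠ c := by rintro rfl; exact hrsc hec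
    have hcg := h.cg hZ hL hc hZc hFL hc' hne
    obtain ⟨σ, τ, ε, k1, k2, k3, k4⟩ := w0.mid h hF hc' hcg hec (hdf c' hc' hec)
      (fun g1 g2 => by
        by_contra hcon
        rw [not_or, not_not] at hcon
        exact g1 ⟨g2, hcon.1, fun g3 => hcon.2 g3.2.2.2⟩)
      (fun g1 g2 => g1.2.2 ⟨hec, hx c' hc' hec, hy c' hc' hec, g2⟩) hr hrT hs hsT
    have cv : ∀ {z : ℕ}, (∃ e ∈ L ∩ c'.edges, z ∈ e) →
        ∃ e ∈ L, z ∈ e ∧ ∀ c' ∈ U, e ∈ c'.edges → s(r, s) ∈ c'.edges := by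
      rintro z ⟨e, he, hze⟩
      obtain ⟨g1, g2⟩ := Finset.mem_inter.1 he
      refine ⟨e, g1, hze, fun c2 hc2 g3 => ?_⟩
      rw [h.eqc hc2 hc' g3 g2]; exact hec
    refine ⟨σ, τ, ε, T ∪ c'.edges, k1.imp_right fun g => ⟨g.1, cv g.2⟩, k2.imp_right fun g => ⟨g.1, cv g.2⟩, k3,
      hst.clu h hc' (hT1 c' hc' hec) k4, fun e he => ?_⟩
    rcases Finset.mem_union.1 he with g | g
    · exact Or.inl g
    · exact Or.inr (Or.inr ⟨c', hc', hec, g⟩)
  · have hnc : ∀ c' ∈ U, s(r, s) ∉ c'.edges := fun c' hc' g => Finset.disjoint_left.1 (h.plain hc') h1 g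
    have nrs := h.ne hrs
    by_cases h2 : s(r, s) ∈ L
    · refine ⟨-1, -1, 0, insert s(r, s) T, Or.inr ⟨rfl, _, h2, by simp, fun _ _ g => g⟩,
        Or.inr ⟨rfl, _, h2, by simp, fun _ _ g => g⟩, by rw [ph_zero], ?_, fun e he => ?_⟩
      · have h3 := hst.remp h h1 hT0 h2
        rw [dv_pair nrs] at h3
        have e : (δ - (Pi.single r 1 + Pi.single s 1) : ℕ → ℤ) = δ + (Pi.single r (-1) + Pi.single s (-1) + 0) := by
          rw [Pi.single_neg, Pi.single_neg]; abel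
        rwa [e] at h3
      · rcases Finset.mem_insert.1 he with g | g
        · exact Or.inr (Or.inl g)
        · exact Or.inl g
    · refine ⟨1, 1, 0, insert s(r, s) T, Or.inl rfl, Or.inl rfl, by rw [ph_zero], ?_, fun e he => ?_⟩
      · have h3 := hst.addp h h1 hT0 h2
        rw [dv_pair nrs] at h3
        rwa [add_zero]
      · rcases Finset.mem_insert.1 he with g | g
        · exact Or.inr (Or.inl g)
        · exact Or.inl g

end

end Pool.Agent.P34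

end

section -- file P34/ST7

/-!
Two conflicting short cycles, one of them a triangle: the path with three edges (Lemma M), proof.
-/

set_option autoImplicit false

namespace Pool.Agent.P34

open Finset Pool.Agent.TFC Pool.Agent.PF4 Pool.Agent.PF4.LD Pool.Agent.PF4.XC Pool.Agent.PF4.XT
open Pool.Agent.PF4.XF (XD FitK Cv World WJ Av NC Rch dg_off mem_k4 mem_k2)

section
variable {X : XD3} {P : ℕ → Finset (Sym2 ℕ) → Prop} {D : Finset (Finset (Sym2 ℕ))} {j m : ℕ} {S : Finset ℕ}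
  {M : ℕ → Finset (Sym2 ℕ)} {F : Clu3 ℕ → Prop} {CL U : List (Clu3 ℕ)} {PL : Finset (Sym2 ℕ)}
  {pl mi : ℕ → Prop}

/-- the edges of the clusters are edges -/
theorem PW3.cE (h : PW3 X P D j S M (Fr3 D F) CL U PL pl mi) {c : Clu3 ℕ} (hc : c ∈ U) {e : Sym2 ℕ}
    (he : e ∈ c.edges) : e ∈ X.E := by
  obtain ⟨Z, hZ, heZ, -⟩ := h.edz hc he
  exact h.dE Z hZ heZ

/-- the end of the computation -/
theorem st_eval2 (h : PW3 X P D j S M (Fr3 D F) CL U PL pl mi) {Z L : Finset (Sym2 ℕ)} (hZ : Z ∈ D)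
    (hL : Wt3 X P D j Z L) {c : Clu3 ℕ} (hc : c ∈ U) (hZc : Z ⊆ c.edges) {r s : ℕ} (hrV : r ∈ X.V2) (hsV : s ∈ X.V2)
    (hr : mi r) (hs : mi s) {a b : ℤ} (ha : a = 0 ∨ a = 2) (hb : b = 0 ∨ b = 2) {ε ε' ε'' : ℕ → ℤ}
    (h1 : ph X.V2 pl mi ε ≤ 0) (h2 : ph X.V2 pl mi ε' ≤ 0) (h3 : ph X.V2 pl mi ε'' ≤ 0) {T : Finset (Sym2 ℕ)}
    (hst : Stt D F U PL L T (Pi.single r a + Pi.single s b + ε + ε' + ε'')) : False := by
  have h4 := hst.ev h hZ hL hc hZc
  have h5 := ph_add_le X.V2 pl mi (Pi.single r a + Pi.single s b + ε + ε') ε''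
  have h6 := ph_add_le X.V2 pl mi (Pi.single r a + Pi.single s b + ε) ε'
  have h7 := ph_add_le X.V2 pl mi (Pi.single r a + Pi.single s b) ε
  have h8 := ph_add_le X.V2 pl mi (Pi.single r a) (Pi.single s b)
  have k : ∀ {z : ℕ} {a : ℤ}, z ∈ X.V2 → mi z → (a = 0 ∨ a = 2) → ph X.V2 pl mi (Pi.single z a) ≤ 0 := by
    intro z a hz hm ha
    rw [ph_one hz]
    rcases ha with rfl | rfl
    · rw [con_zero]
    · exact con_two_mi hm
  have h9 := k hrV hr ha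
  have h10 := k hsV hs hb
  omega

/-- **the middle edge and a side edge are not in one cluster** -/
theorem WA3.stA (w0 : WA3 X P D j m S M CL U PL) {Z : Finset (Sym2 ℕ)} (hZ : Z ∈ D) {c : Clu3 ℕ} (hc : c ∈ U)
    (hZc : Z ⊆ c.edges) {x y r s : ℕ} (he : s(x, y) ∈ Z) (hr : ∀ e ∈ Z, r ∉ e) (hs : ∀ e ∈ Z, s ∉ e) (nrs : r ≠ s)
    (hrS : r ∈ S) (hrT : r ∈ X.T) (hsS : s ∈ S) (hsT : s ∈ X.T) (hyr : s(y, r) ∈ X.E) {c' : Clu3 ℕ} (hc' : c' ∈ U)
    (hne : c' ≠ c) (h1 : s(r, s) ∈ c'.edges) (h2 : s(x, s) ∈ c'.edges) : False := by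
  obtain ⟨_, _, h0, -⟩ := w0.cap
  obtain ⟨L, hL⟩ := h0.wt hZ
  by_cases hxr : s(x, r) ∈ c'.edges
  · obtain ⟨k1, -, -⟩ := w0.stK hZ hc hZc he hr hrS hrT (h0.cE hc' hxr) hyr
    exact hne (h0.eqc hc' hc hxr k1)
  obtain ⟨pl, mi, h, hmi⟩ := w0.fr (fun c' => Hb c' ∧ NSh (L ∩ c'.edges)) fun c' h1 => h1.1
  have hF : ∀ c', (Hb c' ∧ NSh (L ∩ c'.edges)) → Hb c' := fun c' h1 => h1.1
  have hFL : ∀ c' ∈ U, (Hb c' ∧ NSh (L ∩ c'.edges)) → NSh (L ∩ c'.edges) := fun c' _ h1 => h1.2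
  have hFc : ∀ c' : Clu3 ℕ, ¬ (Hb c' ∧ NSh (L ∩ c'.edges)) → Hb c' → ¬ NSh (L ∩ c'.edges) :=
    fun c' h1 h2 h3 => h1 ⟨h2, h3⟩
  have nxy := h.ne (h.cW hc (hZc he))
  have nxs : x ≠ s := by rintro rfl; exact hs _ he (by simp)
  have nys : y ≠ s := by rintro rfl; exact hs _ he (by simp)
  have nxr : x ≠ r := by rintro rfl; exact hr _ he (by simp)
  have nyr : y ≠ r := by rintro rfl; exact hr _ he (by simp)
  have hxyc : s(x, y) ∉ c'.edges := fun g => hne (h.eqc hc' hc g (hZc he))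
  have hyrc : s(y, r) ∉ c'.edges := fun g => clu_p4 (h.val hc') h2 g hxr hxyc nxr nxy nyr.symm
  have xZ : ∃ e ∈ Z, x ∈ e := ⟨_, he, by simp⟩
  have yZ : ∃ e ∈ Z, y ∈ e := ⟨_, he, by simp⟩
  have hxC := h.atC hZ hL hZc xZ
  have hcg := h.cg hZ hL hc hZc hFL hc' hne
  have hx' : ∀ e ∈ L ∩ c'.edges, x ∉ e := by
    intro e he hxe
    obtain ⟨g1, g2⟩ := Finset.mem_inter.1 he
    exact hne (h.eqc hc' hc g2 (hxC e g1 hxe))
  obtain ⟨α, σ, ε, k1, k2, k3, k4⟩ := w0.sidemid h hF hc' hcg (fun g1 g2 => hFc c' g1 g2) hx' h2 h1 hxr nxr hsS hsT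
  have st := stt_init2 h hZ hL hc hZc hFL he hr hs nrs
  have hxsc : s(x, s) ∉ c.edges := fun g => hne (h.eqc hc' hc h2 g)
  have hyrW := w0.reg hrS hyr (by simp)
  have st1 := st.clu h hc' (h.djc hc' hc hne) k4
  obtain ⟨σ', ε', T', l1, l2, l3, -⟩ := w0.stepAny h hF hZ hL hc hZc hFL yZ hrS hrT hyrW
    (fun c' _ _ => hFc c') st1
    (fun g1 g2 => by
      rcases Finset.mem_union.1 g2 with g | g
      · exact g1 g
      · exact hyrc g)
    (fun g1 c'' hc'' g2 => by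
      rw [Finset.disjoint_union_right]
      exact ⟨h.djc hc'' hc (by rintro rfl; exact g1 g2), h.djc hc'' hc' (by rintro rfl; exact hyrc g2)⟩)
  rw [inC_neg hxsc] at l3
  have hsgn : σ + σ' = 0 ∨ σ + σ' = 2 := by
    rcases k2 with rfl | ⟨rfl, e, he1, hre⟩
    · rcases l1 with rfl | ⟨rfl, _⟩
      · right; norm_num
      · left; norm_num
    · rcases l1 with rfl | ⟨rfl, c2, m1, m2, m3⟩
      · left; norm_num
      · exfalso
        obtain ⟨g1, g2⟩ := Finset.mem_inter.1 he1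
        have := h.eqc m1 hc' (m3 e g1 hre) g2
        subst this
        exact hyrc m2
  have e : (-(Pi.single x 1 + Pi.single y 1) + 0 + inC c y r +
      (Pi.single x 1 + Pi.single s α + Pi.single r σ + ε) - inC c y r + (Pi.single y 1 + Pi.single r σ' + ε') : ℕ → ℤ) =
      Pi.single r (σ + σ') + Pi.single s α + ε + ε' + 0 := by
    rw [Pi.single_add]; abel
  rw [e] at l3
  exact st_eval2 h hZ hL hc hZc (h.v2 (h.cW hc' h1) (by simp)) (h.v2 (h.cW hc' h1) (by simp)) (hmi r hrS hrT)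
    (hmi s hsS hsT) hsgn k1 k3 l2 (by rw [ph_zero]) l3

/-- **Lemma M** for one witness -/
theorem WA3.stM1 (w0 : WA3 X P D j m S M CL U PL) {Z L : Finset (Sym2 ℕ)} (hZ : Z ∈ D) (hL : Wt3 X P D j Z L)
    {c : Clu3 ℕ} (hc : c ∈ U) (hZc : Z ⊆ c.edges) {x y r s : ℕ} (he : s(x, y) ∈ Z) (hr : ∀ e ∈ Z, r ∉ e)
    (hs : ∀ e ∈ Z, s ∉ e) (nrs : r ≠ s) (hrS : r ∈ S) (hrT : r ∈ X.T) (hsS : s ∈ S) (hsT : s ∈ X.T)
    (hxs : s(x, s) ∈ X.E) (hrs : s(r, s) ∈ X.E) (hyr : s(y, r) ∈ X.E) :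
    ∃ c2 ∈ U, c2 ≠ c ∧ s(r, s) ∈ c2.edges ∧ s(x, s) ∉ c2.edges ∧ s(y, r) ∉ c2.edges ∧ 
      ∃ Z3 ∈ D, Z3 ⊆ insert s(r, s) (L ∩ c2.edges) := by
  obtain ⟨pl, mi, h, hmi⟩ := w0.fr (FM L x y r s) fun c' h1 => h1.1
  have hF : ∀ c, FM L x y r s c → Hb c := fun c g => g.1
  have hFL : ∀ c' ∈ U, FM L x y r s c' → NSh (L ∩ c'.edges) := fun c' _ g => g.2.1
  have nxy := h.ne (h.cW hc (hZc he))
  have nxs : x ≠ s := by rintro rfl; exact hs _ he (by simp)
  have nys : y ≠ s := by rintro rfl; exact hs _ he (by simp)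
  have nxr : x ≠ r := by rintro rfl; exact hr _ he (by simp)
  have nyr : y ≠ r := by rintro rfl; exact hr _ he (by simp)
  have xZ : ∃ e ∈ Z, x ∈ e := ⟨_, he, by simp⟩
  have yZ : ∃ e ∈ Z, y ∈ e := ⟨_, he, by simp⟩
  have hxsW := w0.reg hsS hxs (by simp)
  have hrsW := w0.reg hsS hrs (by simp)
  have hyrW := w0.reg hrS hyr (by simp)
  have hrsc : s(r, s) ∉ c.edges := by
    intro g
    obtain ⟨f, hf, v, hv1, hv2⟩ := cl3_touch (h.val hc) (h.ish Z hZ) hZc g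
    rcases Sym2.mem_iff.1 hv1 with rfl | rfl
    · exact hr f hf hv2
    · exact hs f hf hv2
  have nc : ∀ {c' : Clu3 ℕ}, c' ∈ U → s(r, s) ∈ c'.edges → c' ≠ c := by
    rintro c' _ g rfl
    exact hrsc g
  have hA : ∀ c' ∈ U, s(r, s) ∈ c'.edges → s(x, s) ∉ c'.edges := by
    intro c' hc' g1 g2
    exact w0.stA hZ hc hZc he hr hs nrs hrS hrT hsS hsT hyr hc' (nc hc' g1) g1 g2
  have hA' : ∀ c' ∈ U, s(r, s) ∈ c'.edges → s(y, r) ∉ c'.edges := by
    intro c' hc' g1 g2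
    exact w0.stA hZ hc hZc (x := y) (y := x) (r := s) (s := r) (by rw [Sym2.eq_swap]; exact he) hs hr nrs.symm hsS hsT
      hrS hrT hxs hc' (nc hc' g1) (by rw [Sym2.eq_swap]; exact g1) g2
  have hB : ∀ c' ∈ U, s(x, s) ∈ c'.edges → s(y, r) ∈ c'.edges → c' = c := by
    intro c' hc' g1 g2
    by_contra hne
    have hxyc : s(x, y) ∉ c'.edges := fun g => hne (h.eqc hc' hc g (hZc he))
    have hxr : s(x, r) ∈ c'.edges := by
      by_contra g
      exact clu_p4 (h.val hc') g1 g2 g hxyc nxr nxy nyr.symm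
    obtain ⟨k1, -, -⟩ := w0.stK hZ hc hZc he hr hrS hrT (h.cE hc' hxr) hyr
    exact hne (h.eqc hc' hc hxr k1)
  by_contra hcon
  have hdf : ∀ c' ∈ U, s(r, s) ∈ c'.edges → ∀ Z3 ∈ D, ¬ Z3 ⊆ insert s(r, s) (L ∩ c'.edges) :=
    fun c' hc' g1 Z3 hZ3 g2 => hcon ⟨c', hc', nc hc' g1, g1, hA c' hc' g1, hA' c' hc' g1, Z3, hZ3, g2⟩
  have st := stt_init2 h hZ hL hc hZc hFL he hr hs nrs
  obtain ⟨σ, τ, ε, T', a1, a2, a3, a4, a5⟩ := w0.stepMid h hZ hL hc hZc hrsW hrS hrT hsS hsT hrsc hA hA' hdf st hrsc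
    (fun c' hc' g => h.djc hc' hc (nc hc' g))
  -- the edge `x s`
  have nxsrs : s(x, s) ≠ s(r, s) := by
    intro g
    rw [Sym2.eq_iff] at g
    rcases g with ⟨g, _⟩ | ⟨g, _⟩
    · exact nxr g
    · exact nxs g
  have nyrrs : s(y, r) ≠ s(r, s) := by
    intro g
    rw [Sym2.eq_iff] at g
    rcases g with ⟨g, _⟩ | ⟨g, _⟩
    · exact nyr g
    · exact nys g
  have nyrxs : s(y, r) ≠ s(x, s) := by
    intro g
    rw [Sym2.eq_iff] at g
    rcases g with ⟨g, _⟩ | ⟨g, _⟩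
    · exact nxy g.symm
    · exact nys g
  obtain ⟨σ1, ε1, T1, b1, b2, b3, b4⟩ := w0.stepAny h hF hZ hL hc hZc hFL xZ hsS hsT hxsW
    (fun c' hc' g1 g2 g3 g4 => g2 ⟨g3, g4, fun g5 => g5.2.1 g1⟩) a4
    (fun g1 g2 => by
      rcases a5 _ g2 with g | g | ⟨c', hc', g, g'⟩
      · exact g1 g
      · exact nxsrs g
      · exact hA c' hc' g g')
    (fun g1 c' hc' g2 => by
      rw [Finset.disjoint_left]
      intro e he1 he2
      rcases a5 e he2 with g | g | ⟨c2, hc2, g, g'⟩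
      · exact g1 (h.eqc hc' hc he1 g ▸ g2)
      · rw [g] at he1
        exact hA c' hc' he1 g2
      · have := h.eqc hc' hc2 he1 g'
        subst this
        exact hA c' hc' g g2)
  -- the edge `y r`
  obtain ⟨σ2, ε2, T2, d1, d2, d3, -⟩ := w0.stepAny h hF hZ hL hc hZc hFL yZ hrS hrT hyrW
    (fun c' hc' g1 g2 g3 g4 => g2 ⟨g3, g4, fun g5 => g5.2.2.1 g1⟩) b3
    (fun g1 g2 => by
      rcases b4 _ g2 with g0 | ⟨k1, g0⟩
      · rcases a5 _ g0 with g | g | ⟨c', hc', g, g'⟩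
        · exact g1 g
        · exact nyrrs g
        · exact hA' c' hc' g g'
      · rcases g0 with g | ⟨c', hc', g, g'⟩
        · exact nyrxs g
        · exact k1 (hB c' hc' g g' ▸ g))
    (fun g1 c' hc' g2 => by
      rw [Finset.disjoint_left]
      intro e he1 he2
      rcases b4 e he2 with g0 | ⟨k1, g0⟩
      · rcases a5 e g0 with g | g | ⟨c2, hc2, g, g'⟩
        · exact g1 (h.eqc hc' hc he1 g ▸ g2)
        · rw [g] at he1
          exact hA' c' hc' he1 g2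
        · have := h.eqc hc' hc2 he1 g'
          subst this
          exact hA' c' hc' g g2
      · rcases g0 with g | ⟨c2, hc2, g, g'⟩
        · rw [g] at he1
          exact k1 (hB c' hc' he1 g2 ▸ he1)
        · have := h.eqc hc' hc2 he1 g'
          subst this
          exact k1 (hB c' hc' g g2 ▸ g))
  have s1 : σ + σ2 = 0 ∨ σ + σ2 = 2 := by
    rcases a1 with rfl | ⟨rfl, e, he1, he2, he3⟩
    · rcases d1 with rfl | ⟨rfl, _⟩
      · right; norm_num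
      · left; norm_num
    · rcases d1 with rfl | ⟨rfl, c2, m1, m2, m3⟩
      · left; norm_num
      · exact absurd m2 (hA' c2 m1 (he3 c2 m1 (m3 e he1 he2)))
  have s2 : τ + σ1 = 0 ∨ τ + σ1 = 2 := by
    rcases a2 with rfl | ⟨rfl, e, he1, he2, he3⟩
    · rcases b1 with rfl | ⟨rfl, _⟩
      · right; norm_num
      · left; norm_num
    · rcases b1 with rfl | ⟨rfl, c2, m1, m2, m3⟩
      · left; norm_num
      · exact absurd m2 (hA c2 m1 (he3 c2 m1 (m3 e he1 he2)))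
  have e : (-(Pi.single x 1 + Pi.single y 1) + inC c x s + inC c y r + (Pi.single r σ + Pi.single s τ + ε) -
      inC c x s + (Pi.single x 1 + Pi.single s σ1 + ε1) - inC c y r + (Pi.single y 1 + Pi.single r σ2 + ε2) : ℕ → ℤ) =
      Pi.single r (σ + σ2) + Pi.single s (τ + σ1) + ε + ε1 + ε2 := by
    rw [Pi.single_add, Pi.single_add]; abel
  rw [e] at d3
  exact st_eval2 h hZ hL hc hZc (h.v2 hrsW (by simp)) (h.v2 hrsW (by simp)) (hmi r hrS hrT) (hmi s hsS hsT) s1 s2 a3 b2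
    d2 d3

/-- **Lemma M**: a path `x s r y` with three edges outside of a member `Z` of `D` with the edge `x y`; the corners `r`,
`s` in `S` and in `T`.  The middle edge is in a cluster which contains none of the side edges, and every witness of `Z`
contains a member without `r s` in this cluster. -/
theorem WA3.stM (w0 : WA3 X P D j m S M CL U PL) {Z : Finset (Sym2 ℕ)} (hZ : Z ∈ D)
    {c : Clu3 ℕ} (hc : c ∈ U) (hZc : Z ⊆ c.edges) {x y r s : ℕ} (he : s(x, y) ∈ Z) (hr : ∀ e ∈ Z, r ∉ e)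
    (hs : ∀ e ∈ Z, s ∉ e) (nrs : r ≠ s) (hrS : r ∈ S) (hrT : r ∈ X.T) (hsS : s ∈ S) (hsT : s ∈ X.T)
    (hxs : s(x, s) ∈ X.E) (hrs : s(r, s) ∈ X.E) (hyr : s(y, r) ∈ X.E) :
    ∃ c2 ∈ U, c2 ≠ c ∧ s(r, s) ∈ c2.edges ∧ s(x, s) ∉ c2.edges ∧ s(y, r) ∉ c2.edges ∧ 
      ∀ L, Wt3 X P D j Z L → s(r, s) ∉ L ∧ ∃ Z3 ∈ D, s(r, s) ∈ Z3 ∧ Z3 ⊆ insert s(r, s) (L ∩ c2.edges) := by
  obtain ⟨_, _, h, -⟩ := w0.cap
  obtain ⟨L0, hL0⟩ := h.wt hZ
  obtain ⟨c2, hc2, k1, k2, k3, k4, -⟩ := w0.stM1 hZ hL0 hc hZc he hr hs nrs hrS hrT hsS hsT hxs hrs hyr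
  refine ⟨c2, hc2, k1, k2, k3, k4, fun L hL => ?_⟩
  obtain ⟨c3, hc3, l1, l2, l3, l4, Z3, hZ3, l5⟩ := w0.stM1 hZ hL hc hZc he hr hs nrs hrS hrT hsS hsT hxs hrs hyr
  have := h.eqc hc3 hc2 l2 k2
  subst this
  have key : ¬ Z3 ⊆ L ∩ c3.edges := by
    intro g
    have h1 := hL.uni Z3 hZ3 (g.trans Finset.inter_subset_left)
    subst h1
    obtain ⟨e, he⟩ := (h.ish Z3 hZ3).ne
    exact l1 (h.eqc hc3 hc (Finset.mem_inter.1 (g he)).2 (hZc he))
  have hmem : s(r, s) ∈ Z3 := by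
    by_contra g
    refine key fun e he => ?_
    rcases Finset.mem_insert.1 (l5 he) with rfl | g2
    · exact absurd he g
    · exact g2
  refine ⟨fun g => key ?_, Z3, hZ3, hmem, l5⟩
  rw [Finset.insert_eq_of_mem (Finset.mem_inter.2 ⟨g, l2⟩)] at l5
  exact l5

end

end Pool.Agent.P34

end

section -- file P34/ST8

/-!
Two conflicting short cycles, a triangle and a square: the pattern theorem.
-/

set_option autoImplicit false

namespace Pool.Agent.P34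

open Finset Pool.Agent.TFC Pool.Agent.PF4 Pool.Agent.PF4.LD Pool.Agent.PF4.XC Pool.Agent.PF4.XT
open Pool.Agent.PF4.XF (XD FitK Cv World WJ Av NC Rch dg_off mem_k4 mem_k2)

theorem dg_mono3 {K L : Finset (Sym2 ℕ)} (h : K ⊆ L) (v : ℕ) : dg K v ≤ dg L v :=
  Finset.card_le_card (Finset.filter_subset_filter _ h)

theorem dg_lt3 {K L : Finset (Sym2 ℕ)} (h : K ⊆ L) {v : ℕ} {f : Sym2 ℕ} (hf : f ∈ L) (hfK : f ∉ K) (hv : v ∈ f) :
    dg K v + 1 ≤ dg L v := by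
  refine Finset.card_lt_card ⟨Finset.filter_subset_filter _ h, fun g => hfK ?_⟩
  exact (Finset.mem_filter.1 (g (Finset.mem_filter.2 ⟨hf, hv⟩))).1

/-- the other edge of a short cycle at an end of the edge `x y` -/
theorem st_other {Z K : Finset (Sym2 ℕ)} (hZ : IsSh Z) {x y : ℕ} (he : s(x, y) ∈ Z) (hs : Z ⊆ insert s(x, y) K) :
    (∃ e ∈ K, x ∈ e) ∧ ∃ e ∈ K, y ∈ e := by
  rcases isSh_first hZ he with ⟨c, hd, rfl⟩ | ⟨q, p, hd, rfl⟩
  · obtain ⟨e1, e2⟩ := tri_mem hd hs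
    exact ⟨⟨_, e2, by simp⟩, ⟨_, e1, by simp⟩⟩
  · obtain ⟨e1, e2, e3⟩ := sq_mem hd hs
    exact ⟨⟨_, e3, by simp⟩, ⟨_, e1, by simp⟩⟩

section
variable {X : XD3} {P : ℕ → Finset (Sym2 ℕ) → Prop} {D : Finset (Finset (Sym2 ℕ))} {j m : ℕ} {S : Finset ℕ}
  {M : ℕ → Finset (Sym2 ℕ)} {F : Clu3 ℕ → Prop} {CL U : List (Clu3 ℕ)} {PL : Finset (Sym2 ℕ)}
  {pl mi : ℕ → Prop}

/-- an edge with an isolated end can be added -/
theorem PW3.au_ins (h : PW3 X P D j S M (Fr3 D F) CL U PL pl mi) {K : Finset (Sym2 ℕ)}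
    (hK : AU3 (Fr3 D F) U PL K) {a b : ℕ} (he : s(a, b) ∈ Ucl3 U ∪ PL)
    (hc : ∀ c' ∈ U, s(a, b) ∈ c'.edges → ((∀ e ∈ K ∩ c'.edges, a ∉ e) ∧ dg (K ∩ c'.edges) b ≤ 1) ∨
      ((∀ e ∈ K ∩ c'.edges, b ∉ e) ∧ dg (K ∩ c'.edges) a ≤ 1)) : AU3 (Fr3 D F) U PL (insert s(a, b) K) := by
  refine ⟨Finset.insert_subset he hK.1, fun c' hc' => ?_⟩
  by_cases g : s(a, b) ∈ c'.edges
  · rw [Finset.insert_inter_of_mem g]
    rcases hc c' hc' g with ⟨h1, h2⟩ | ⟨h1, h2⟩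
    · exact fr3_ins h.ish (h.ne he) (hK.2 c' hc') (fun a' ha => absurd (by simp) (h1 _ ha)) (Or.inr h2)
    · rw [Sym2.eq_swap]
      exact fr3_ins h.ish (h.ne he).symm (hK.2 c' hc') (fun a' ha => absurd (by simp) (h1 _ ha)) (Or.inr h2)
  · rw [Finset.insert_inter_of_notMem g]
    exact hK.2 c' hc'

/-- a witness without `x y`, with `x s` and `y r`, in the capped frame -/
theorem PW3.stR (h : PW3 X P D j S M (Fr3 D fun _ => False) CL U PL pl mi) {Z L : Finset (Sym2 ℕ)} (hZ : Z ∈ D)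
    (hL : Wt3 X P D j Z L) {c : Clu3 ℕ} (hc : c ∈ U) (hZc : Z ⊆ c.edges) {x y r s : ℕ} (he : s(x, y) ∈ Z)
    (hr : ∀ e ∈ Z, r ∉ e) (hs : ∀ e ∈ Z, s ∉ e) (nrs : r ≠ s) {c2 : Clu3 ℕ} (hc2 : c2 ∈ U) (hne : c2 ≠ c)
    (hxs : s(x, s) ∉ c2.edges) (hyr : s(y, r) ∉ c2.edges) (hxsW : s(x, s) ∈ Ucl3 U ∪ PL)
    (hyrW : s(y, r) ∈ Ucl3 U ∪ PL) (hrL : ∃ e ∈ L ∩ c2.edges, r ∈ e) (hsL : ∃ e ∈ L ∩ c2.edges, s ∈ e) :
    1 ≤ ph X.V2 pl mi (Pi.single r 1 + Pi.single s 1) := by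
  have nxy := h.ne (h.cW hc (hZc he))
  have nxs := h.ne hxsW
  have nyr := h.ne hyrW
  have nys : y ≠ s := by rintro rfl; exact hs _ he (by simp)
  have nxr : x ≠ r := by rintro rfl; exact hr _ he (by simp)
  have xZ : ∃ e ∈ Z, x ∈ e := ⟨_, he, by simp⟩
  have yZ : ∃ e ∈ Z, y ∈ e := ⟨_, he, by simp⟩
  have hxC := h.atC hZ hL hZc xZ
  have hyC := h.atC hZ hL hZc yZ
  obtain ⟨dx, dy⟩ := dg_erase_one (h.ish Z hZ).m2 he
  obtain ⟨p1, p2⟩ := h.wz_au hZ hL hc hZc (h.fr_out hZ hL hc hZc (fun _ _ _ g => g.elim)) (F := Z \ {s(x, y)})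
    (Finset.sdiff_subset.trans hZc)
    (am3_sub (h.fr_am c) (h.ish Z hZ) hZc (Finset.singleton_subset_iff.2 he) (by simp))
  generalize hK0 : ((L ∩ (Ucl3 U ∪ PL)) \ c.edges) ∪ (Z \ {s(x, y)}) = K0 at p1 p2
  have k1 : ∀ e ∈ K0, e ∈ c.edges → e ∈ Z \ {s(x, y)} := by
    intro e he1 he2
    rw [← hK0] at he1
    rcases Finset.mem_union.1 he1 with g | g
    · exact absurd he2 (Finset.mem_sdiff.1 g).2
    · exact g
  have k2 : ∀ e ∈ K0, e ∉ c.edges → e ∈ L := by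
    intro e he1 he2
    rw [← hK0] at he1
    rcases Finset.mem_union.1 he1 with g | g
    · exact (Finset.mem_inter.1 (Finset.mem_sdiff.1 g).1).1
    · exact absurd (hZc (Finset.mem_sdiff.1 g).1) he2
  have k3 : ∀ c' ∈ U, c' ≠ c → ∀ e ∈ K0 ∩ c'.edges, e ∈ L ∩ c'.edges := by
    intro c' hc' hn e he1
    obtain ⟨g1, g2⟩ := Finset.mem_inter.1 he1
    exact Finset.mem_inter.2 ⟨k2 e g1 fun g => hn (h.eqc hc' hc g2 g), g2⟩
  have k4 : ∀ z, (∃ e ∈ L ∩ c2.edges, z ∈ e) → ∀ c' ∈ U, c' ≠ c → c' ≠ c2 → dg (K0 ∩ c'.edges) z ≤ 1 := by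
    rintro z ⟨f, hf, hzf⟩ c' hc' hn hn2
    obtain ⟨f1, f2⟩ := Finset.mem_inter.1 hf
    have h1 := dg_mono3 (show K0 ∩ c'.edges ⊆ L ∩ c'.edges from k3 c' hc' hn) z
    have h2 := dg_lt3 (Finset.inter_subset_left : L ∩ c'.edges ⊆ L) f1
      (fun g => hn2 (h.eqc hc' hc2 (Finset.mem_inter.1 g).2 f2)) hzf
    have h3 := hL.m2.le z
    omega
  have hxsK : s(x, s) ∉ K0 := by
    intro g
    by_cases g2 : s(x, s) ∈ c.edges
    · exact hs _ (Finset.mem_sdiff.1 (k1 _ g g2)).1 (by simp)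
    · exact g2 (hxC _ (k2 _ g g2) (by simp))
  have a1 : AU3 (Fr3 D fun _ => False) U PL (insert s(x, s) K0) := by
    refine h.au_ins p1 hxsW fun c' hc' g => ?_
    by_cases hn : c' = c
    · subst hn
      right
      refine ⟨fun e he1 he2 => ?_, le_trans (dg_mono3 (fun e he1 => ?_) x) dx⟩
      · obtain ⟨g1, g2⟩ := Finset.mem_inter.1 he1
        exact hs e (Finset.mem_sdiff.1 (k1 e g1 g2)).1 he2
      · obtain ⟨g1, g2⟩ := Finset.mem_inter.1 he1
        exact k1 e g1 g2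
    · left
      refine ⟨fun e he1 he2 => ?_, k4 s hsL c' hc' hn (by rintro rfl; exact hxs g)⟩
      obtain ⟨g1, g2⟩ := Finset.mem_inter.1 (k3 c' hc' hn e he1)
      exact hn (h.eqc hc' hc g2 (hxC e g1 he2))
  have hrxs : r ∉ s(x, s) := by
    simp only [Sym2.mem_iff, not_or]; exact ⟨nxr.symm, nrs⟩
  have hyxs : y ∉ s(x, s) := by
    simp only [Sym2.mem_iff, not_or]; exact ⟨nxy.symm, nys⟩
  have hyrK : s(y, r) ∉ insert s(x, s) K0 := by
    intro g
    rcases Finset.mem_insert.1 g with g | g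
    · exact hyxs (g ▸ by simp)
    · by_cases g2 : s(y, r) ∈ c.edges
      · exact hr _ (Finset.mem_sdiff.1 (k1 _ g g2)).1 (by simp)
      · exact g2 (hyC _ (k2 _ g g2) (by simp))
  have k5 : ∀ c' : Clu3 ℕ, insert s(x, s) K0 ∩ c'.edges ⊆ insert s(x, s) (K0 ∩ c'.edges) := by
    intro c' e he1
    obtain ⟨g1, g2⟩ := Finset.mem_inter.1 he1
    rcases Finset.mem_insert.1 g1 with g | g
    · exact Finset.mem_insert.2 (Or.inl g)
    · exact Finset.mem_insert_of_mem (Finset.mem_inter.2 ⟨g, g2⟩)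
  have a2 : AU3 (Fr3 D fun _ => False) U PL (insert s(y, r) (insert s(x, s) K0)) := by
    refine h.au_ins a1 hyrW fun c' hc' g => ?_
    by_cases hn : c' = c
    · subst hn
      right
      refine ⟨fun e he1 he2 => ?_, ?_⟩
      · rcases Finset.mem_insert.1 (k5 c' he1) with g | g
        · exact hrxs (g ▸ he2)
        · obtain ⟨g1, g2⟩ := Finset.mem_inter.1 g
          exact hr e (Finset.mem_sdiff.1 (k1 e g1 g2)).1 he2
      · refine (dg_mono3 (k5 c') y).trans ((dg_ins_off' hyxs).trans (le_trans (dg_mono3 (fun e he1 => ?_) y) dy))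
        obtain ⟨g1, g2⟩ := Finset.mem_inter.1 he1
        exact k1 e g1 g2
    · left
      refine ⟨fun e he1 he2 => ?_, (dg_mono3 (k5 c') r).trans ((dg_ins_off' hrxs).trans
        (k4 r hrL c' hc' hn (by rintro rfl; exact hyr g)))⟩
      rcases Finset.mem_insert.1 (k5 c' he1) with g | g
      · exact hyxs (g ▸ he2)
      · obtain ⟨g1, g2⟩ := Finset.mem_inter.1 (k3 c' hc' hn e g)
        exact hn (h.eqc hc' hc g2 (hyC e g1 he2))
  refine h.ev hZ hL hc hZc a2 ?_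
  rw [XT.dv_insert hyrK, XT.dv_insert hxsK, p2, dv_sdiff (Finset.singleton_subset_iff.2 he), dv_pair nxy, dv_pair nxs,
    dv_pair nyr]
  abel

/-- **Lemma M, evaluation**: in the capped frame the vector `e_r + e_s` has positive value -/
theorem WA3.stF (w0 : WA3 X P D j m S M CL U PL) {Z : Finset (Sym2 ℕ)} (hZ : Z ∈ D)
    {c : Clu3 ℕ} (hc : c ∈ U) (hZc : Z ⊆ c.edges) {x y r s : ℕ} (he : s(x, y) ∈ Z) (hr : ∀ e ∈ Z, r ∉ e)
    (hs : ∀ e ∈ Z, s ∉ e) (nrs : r ≠ s) (hrS : r ∈ S) (hrT : r ∈ X.T) (hsS : s ∈ S) (hsT : s ∈ X.T)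
    (hxs : s(x, s) ∈ X.E) (hrs : s(r, s) ∈ X.E) (hyr : s(y, r) ∈ X.E) {pl mi : ℕ → Prop}
    (h : PW3 X P D j S M (Fr3 D fun _ => False) CL U PL pl mi) :
    1 ≤ ph X.V2 pl mi (Pi.single r 1 + Pi.single s 1) := by
  obtain ⟨L, hL⟩ := h.wt hZ
  obtain ⟨c2, hc2, k1, k2, k3, k4, k5⟩ := w0.stM hZ hc hZc he hr hs nrs hrS hrT hsS hsT hxs hrs hyr
  obtain ⟨-, Z3, hZ3, k6, k7⟩ := k5 L hL
  obtain ⟨k8, k9⟩ := st_other (h.ish Z3 hZ3) k6 k7
  exact h.stR hZ hL hc hZc he hr hs nrs hc2 k1 k3 k4 (w0.reg hsS hxs (by simp)) (w0.reg hrS hyr (by simp)) k8 k9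

theorem WA3.stG (w0 : WA3 X P D j m S M CL U PL) {Z : Finset (Sym2 ℕ)} (hZ : Z ∈ D)
    {c : Clu3 ℕ} (hc : c ∈ U) (hZc : Z ⊆ c.edges) {x y r s : ℕ} (he : s(x, y) ∈ Z) (hr : ∀ e ∈ Z, r ∉ e)
    (hs : ∀ e ∈ Z, s ∉ e) (nrs : r ≠ s) (hrS : r ∈ S) (hrT : r ∈ X.T) (hsS : s ∈ S) (hsT : s ∈ X.T)
    (hxs : s(x, s) ∈ X.E) (hrs : s(r, s) ∈ X.E) (hyr : s(y, r) ∈ X.E) {pl mi : ℕ → Prop}
    (h : PW3 X P D j S M (Fr3 D fun _ => False) CL U PL pl mi) (h1 : mi r) (h2 : mi s) : pl r ∧ pl s := by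
  have h3 := w0.stF hZ hc hZc he hr hs nrs hrS hrT hsS hsT hxs hrs hyr h
  have hW := w0.reg hsS hrs (by simp)
  rw [ph_two (h.v2 hW (by simp)) (h.v2 hW (by simp)) nrs] at h3
  have k : ∀ {p m : Prop}, m → ¬ p → con p m 1 = -1 := fun hm hp => con_X hp hm 1
  by_contra hcon
  rw [not_and_or] at hcon
  rcases hcon with g | g
  · have h4 := k h1 g
    have h5 := con_one (pl s) (mi s)
    omega
  · have h4 := k h2 g
    have h5 := con_one (pl r) (mi r)
    omega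

/-- **the last step**: `c` free, all other corners in `T` -/
theorem WA3.stFin (w0 : WA3 X P D j m S M CL U PL) {x y c r s : ℕ} (nrs : r ≠ s) (nxy : x ≠ y)
    (hxr : r ≠ x) (hyr : r ≠ y) (hcr : r ≠ c) (hxs : s ≠ x) (hys : s ≠ y) (hcs : s ≠ c)
    (xS : x ∈ S) (yS : y ∈ S) (rS : r ∈ S) (sS : s ∈ S) (xT : x ∈ X.T) (yT : y ∈ X.T) (rT : r ∈ X.T) (sT : s ∈ X.T)
    (cT : c ∉ X.T) (hQ : tri x y c ∈ D) (hR : TFC.sq x y r s ⊆ X.E) : False := by
  have hQe : s(x, y) ∈ tri x y c := by simp [tri]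
  have hQc : s(c, x) ∈ tri x y c := by simp [tri]
  have exy : s(x, y) ∈ X.E := hR (by simp [TFC.sq])
  have eyr : s(y, r) ∈ X.E := hR (by simp [TFC.sq])
  have ers : s(r, s) ∈ X.E := hR (by simp [TFC.sq])
  have esx : s(s, x) ∈ X.E := hR (by simp [TFC.sq])
  have exs : s(x, s) ∈ X.E := by rw [Sym2.eq_swap]; exact esx
  have ery : s(r, y) ∈ X.E := by rw [Sym2.eq_swap]; exact eyr
  obtain ⟨C, hC, hQC⟩ := w0.clz xS hQ hQe (by simp)
  obtain ⟨pl, mi, h, hmi⟩ := w0.cap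
  obtain ⟨L, hL⟩ := h.wt hQ
  have hrQ : ∀ e ∈ tri x y c, r ∉ e := by
    intro e he hre
    rcases tri_vx ⟨e, he, hre⟩ with g | g | g
    · exact hxr g
    · exact hyr g
    · exact hcr g
  have hsQ : ∀ e ∈ tri x y c, s ∉ e := by
    intro e he hre
    rcases tri_vx ⟨e, he, hre⟩ with g | g | g
    · exact hxs g
    · exact hys g
    · exact hcs g
  obtain ⟨c2, hc2, k1, k2, k3, k4, k5⟩ := w0.stM hQ hC hQC hQe hrQ hsQ nrs rS rT sS sT exs ers eyr
  obtain ⟨-, Z3, hZ3, k6, k7⟩ := k5 L hL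
  have hZ3c := h.clz hZ3 hc2 k6 k2
  have nZ3 : ∀ z, (∃ e ∈ tri x y c, z ∈ e) → z ≠ r → z ≠ s → ∀ e ∈ Z3, z ∉ e := by
    intro z hz n1 n2 e he hze
    rcases Finset.mem_insert.1 (k7 he) with g | g
    · rw [g, Sym2.mem_iff] at hze
      rcases hze with g | g
      · exact n1 g
      · exact n2 g
    · obtain ⟨g1, g2⟩ := Finset.mem_inter.1 g
      exact k1 (h.eqc hc2 hC g2 (h.atC hQ hL hQC hz e g1 hze))
  have hx3 := nZ3 x ⟨_, hQe, by simp⟩ hxr.symm hxs.symm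
  have hy3 := nZ3 y ⟨_, hQe, by simp⟩ hyr.symm hys.symm
  obtain ⟨g1, g2⟩ := w0.stG hZ3 hc2 hZ3c (x := r) (y := s) (r := x) (s := y) k6 hx3 hy3 nxy xS xT yS yT ery exy esx h
    (hmi x xS xT) (hmi y yS yT)
  obtain ⟨-, g3⟩ := h.n1 hQ hC hQC (fun _ _ _ g => g) hQc cT
  obtain ⟨v, hv, v1, v2⟩ := h.L1x hQ hL hC hQC (h.fr_am C) (h.fr_out hQ hL hC hQC (fun _ _ _ g => g.elim))
  rcases tri_vx hv with g | g | g
  · exact v2 (g ▸ g1)
  · exact v2 (g ▸ g2)
  · exact g3 (g ▸ v1)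

end

theorem st_nd5 {x y c r s : ℕ} : [x, y, c, r, s].Nodup ↔
    (x ≠ y ∧ x ≠ c ∧ x ≠ r ∧ x ≠ s) ∧ (y ≠ c ∧ y ≠ r ∧ y ≠ s) ∧ (c ≠ r ∧ c ≠ s) ∧ r ≠ s := by
  simp only [List.nodup_cons, List.mem_cons, List.not_mem_nil, or_false, not_or, List.nodup_nil, and_true,
    not_false_eq_true, ne_eq]

/-- **a triangle of `D₁` and a square of `D₂` with one common edge** -/
theorem pt3TS2 (X₁ X₂ : XD3) (P₁ P₂ : ℕ → Finset (Sym2 ℕ) → Prop) (D₁ D₂ : Finset (Finset (Sym2 ℕ)))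
    (j₁ m₁ j₂ m₂ : ℕ) (S₁ S₂ : Finset ℕ) (M : ℕ → Finset (Sym2 ℕ)) (o1 : OW3 X₁ P₁ D₁ j₁ m₁ S₁ M)
    (o2 : OW3 X₂ P₂ D₂ j₂ m₂ S₂ M) (_ : X₁.n = X₂.n) (hT : X₁.T = X₂.T) (x y c r s : ℕ)
    (hn : [x, y, c, r, s].Nodup) (xS : x ∈ S₁) (yS : y ∈ S₁) (rS : r ∈ S₁) (sS : s ∈ S₁) (xS2 : x ∈ S₂)
    (yS2 : y ∈ S₂) (cS2 : c ∈ S₂) (hQ : tri x y c ∈ D₁) (hR : TFC.sq x y r s ∈ D₂)
    (hRE : TFC.sq x y r s ⊆ X₁.E) (hQE : tri x y c ⊆ X₂.E) : False := by
  obtain ⟨⟨nxy, nxc, nxr, nxs⟩, ⟨nyc, nyr, nys⟩, ⟨ncr, ncs⟩, nrs⟩ := st_nd5.1 hn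
  have hd3 : Dist3 x y c := ⟨nxy, nxc, nyc⟩
  have hH := (hs3_tri hd3).1 (o1.blk.hs _ hQ).1
  have hxy : x ∈ X₁.T ∨ y ∈ X₁.T := by tauto
  obtain ⟨CL1, U1, PL1, w1⟩ : ∃ CL U PL, WA3 X₁ P₁ D₁ j₁ m₁ S₁ M CL U PL := by
    refine wa3_of o1 ?_
    rcases hxy with g | g
    · exact ⟨x, xS, g⟩
    · exact ⟨y, yS, g⟩
  obtain ⟨CL2, U2, PL2, w2⟩ : ∃ CL U PL, WA3 X₂ P₂ D₂ j₂ m₂ S₂ M CL U PL := by
    refine wa3_of o2 ?_
    rcases hxy with g | g
    · exact ⟨x, xS2, hT ▸ g⟩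
    · exact ⟨y, yS2, hT ▸ g⟩
  -- `c` is free
  have hcR : ∀ e ∈ TFC.sq x y r s, c ∉ e := by
    intro e he hre
    rcases sq_ends he hre with g | g | g | g
    · exact nxc g.symm
    · exact nyc g.symm
    · exact ncr g
    · exact ncs g
  have cT : c ∉ X₁.T := by
    intro g
    obtain ⟨C2, hC2, hRC⟩ := w2.clz xS2 hR (e := s(x, y)) (by simp [TFC.sq]) (by simp)
    obtain ⟨-, -, t, hd, ht, -⟩ := w2.stK hR hC2 hRC (x := x) (y := y) (g := c) (by simp [TFC.sq]) hcR cS2 (hT ▸ g)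
      (by rw [Sym2.eq_swap]; exact hQE (by simp [tri])) (hQE (by simp [tri]))
    have e1 : s(r, s) ∈ tri x y t := ht ▸ (by simp [TFC.sq])
    have h1 := tri_vx ⟨_, e1, (by simp : r ∈ s(r, s))⟩
    have h2 := tri_vx ⟨_, e1, (by simp : s ∈ s(r, s))⟩
    have h3 : r = t := by
      rcases h1 with g | g | g
      · exact absurd g.symm nxr
      · exact absurd g.symm nyr
      · exact g
    have h4 : s = t := by
      rcases h2 with g | g | g
      · exact absurd g.symm nxs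
      · exact absurd g.symm nys
      · exact g
    exact nrs (h3.trans h4.symm)
  have hxT : x ∈ X₁.T := by tauto
  have hyT : y ∈ X₁.T := by tauto
  by_cases rT : r ∈ X₁.T
  · by_cases sT : s ∈ X₁.T
    · exact w1.stFin nrs nxy nxr.symm nyr.symm ncr.symm nxs.symm nys.symm ncs.symm xS yS rS sS hxT hyT rT sT cT hQ hRE
    · refine st_end2 w1 w2 hT (x := x) (c := c) (s := s) xS xS2 hxT ncs cT sT hQ hR ?_ ?_ hcR ?_
      · rw [Sym2.eq_swap]; simp [tri]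
      · rw [Sym2.eq_swap]; simp [TFC.sq]
      · intro e he hre
        rcases tri_vx ⟨e, he, hre⟩ with g | g | g
        · exact nxs g.symm
        · exact nys g.symm
        · exact ncs g.symm
  · refine st_end2 w1 w2 hT (x := y) (c := c) (s := r) yS yS2 hyT ncr cT rT hQ hR ?_ ?_ hcR ?_
    · simp [tri]
    · simp [TFC.sq]
    · intro e he hre
      rcases tri_vx ⟨e, he, hre⟩ with g | g | g
      · exact nxr g.symm
      · exact nyr g.symm
      · exact ncr g.symm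

theorem pt3TS : Pt3TS := by
  intro X₁ X₂ P₁ P₂ D₁ D₂ j₁ m₁ j₂ m₂ S M o1 o2 en hT x y c r s hn xS yS cS rS sS hQ hR hRE hQE
  exact pt3TS2 X₁ X₂ P₁ P₂ D₁ D₂ j₁ m₁ j₂ m₂ S S M o1 o2 en hT x y c r s hn xS yS rS sS xS yS cS hQ hR hRE hQE

/-- **the pattern theorem: a triangle and a square** -/
theorem ptTS : PtTS := pt3TS.to

end Pool.Agent.P34

end
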