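import Pool.Agent.PFN.M23
import Pool.Agent.PFN.M24
import Pool.Agent.PFN.M25

section -- file P34/YR

/-!
Lemma P for triangles and squares: the block, assembled from the local moves.
-/

set_option autoImplicit false

namespace Pool.Agent.P34.YM

open Finset Pool.Agent.TFC Pool.Agent.PF4 Pool.Agent.PF4.LD Pool.Agent.PF4.XC Pool.Agent.PF4.XT

/-- the frame of a witness: uncapped where the witness has no short cycle -/
def FL (L : Finset (Sym2 ℕ)) (c : Clu3 ℕ) : Prop := Hb c ∧ NSh (L ∩ c.edges)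

/-- data in a general frame `Fc`: `Qc` is a member of `D` with the edge `x y`, `r` and `s` are not corners of it -/
structure BD (X : XD3) (P : ℕ → Finset (Sym2 ℕ) → Prop) (D : Finset (Finset (Sym2 ℕ))) (j m : ℕ) (S : Finset ℕ)
    (M : ℕ → Finset (Sym2 ℕ)) (CL U : List (Clu3 ℕ)) (PL : Finset (Sym2 ℕ)) (x y r s : ℕ) (Qc : Finset (Sym2 ℕ))
    (c1 : Clu3 ℕ) (L : Finset (Sym2 ℕ)) (Fc : Clu3 ℕ → Prop) (pl mi : ℕ → Prop) : Prop where
  wa : WA3 X P D j m S M CL U PL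
  nxy : x ≠ y
  nrs : r ≠ s
  xS : x ∈ S
  yS : y ∈ S
  rS : r ∈ S
  sS : s ∈ S
  rT : r ∈ X.T
  sT : s ∈ X.T
  hQ : Qc ∈ D
  hxy : s(x, y) ∈ Qc
  hr : ∀ f ∈ Qc, r ∉ f
  hs : ∀ f ∈ Qc, s ∉ f
  xr : s(x, r) ∈ X.E
  rs : s(r, s) ∈ X.E
  ys : s(y, s) ∈ X.E
  w : Wt3 X P D j Qc L
  c1U : c1 ∈ U
  q1 : Qc ⊆ c1.edges
  rsL : s(r, s) ∉ L
  kd : ∀ Y, Clu3.k4 Y ∈ U → ∀ Z, IsSq Z → Z ⊆ (Clu3.k4 Y).edges → Z ∈ D
  fc : ∀ c ∈ U, Fc c → Hb c ∧ (c = c1 ∨ NSh (L ∩ c.edges))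
  fb : ∀ c, Fc c → Hb c
  pw : PW3 X P D j S M (Fr3 D Fc) CL U PL pl mi
  mi : ∀ w ∈ S, w ∈ X.T → mi w

section
variable {X : XD3} {P : ℕ → Finset (Sym2 ℕ) → Prop} {D : Finset (Finset (Sym2 ℕ))} {j m : ℕ} {S : Finset ℕ}
  {M : ℕ → Finset (Sym2 ℕ)} {CL U : List (Clu3 ℕ)} {PL : Finset (Sym2 ℕ)} {x y r s : ℕ} {Qc : Finset (Sym2 ℕ)}
  {c1 : Clu3 ℕ} {L : Finset (Sym2 ℕ)} {Fc : Clu3 ℕ → Prop} {pl mi : ℕ → Prop}

theorem BD.symm (h : BD X P D j m S M CL U PL x y r s Qc c1 L Fc pl mi) :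
    BD X P D j m S M CL U PL y x s r Qc c1 L Fc pl mi where
  wa := h.wa
  nxy := h.nxy.symm
  nrs := h.nrs.symm
  xS := h.yS
  yS := h.xS
  rS := h.sS
  sS := h.rS
  rT := h.sT
  sT := h.rT
  hQ := h.hQ
  hxy := by rw [Sym2.eq_swap]; exact h.hxy
  hr := h.hs
  hs := h.hr
  xr := h.ys
  rs := by rw [Sym2.eq_swap]; exact h.rs
  ys := h.xr
  w := h.w
  c1U := h.c1U
  q1 := h.q1
  rsL := by rw [Sym2.eq_swap]; exact h.rsL
  kd := h.kd
  fc := h.fc
  fb := h.fb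
  pw := h.pw
  mi := h.mi

theorem BD.nxr (h : BD X P D j m S M CL U PL x y r s Qc c1 L Fc pl mi) : x ≠ r := by
  rintro rfl
  exact h.hr _ h.hxy (by simp)

theorem BD.nyr (h : BD X P D j m S M CL U PL x y r s Qc c1 L Fc pl mi) : y ≠ r := by
  rintro rfl
  exact h.hr _ h.hxy (by simp)

theorem BD.nxs (h : BD X P D j m S M CL U PL x y r s Qc c1 L Fc pl mi) : x ≠ s := by
  rintro rfl
  exact h.hs _ h.hxy (by simp)

theorem BD.nys (h : BD X P D j m S M CL U PL x y r s Qc c1 L Fc pl mi) : y ≠ s := by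
  rintro rfl
  exact h.hs _ h.hxy (by simp)

/-- edges of the witness at a vertex of the short cycle -/
theorem BD.atQ (h : BD X P D j m S M CL U PL x y r s Qc c1 L Fc pl mi) {v : ℕ} {e g : Sym2 ℕ}
    (he : e ∈ Qc) (hv : v ∈ e) (hg : g ∈ L) (hvg : v ∈ g) : g ∈ Qc :=
  shc h.w.m2 (h.pw.ish _ h.hQ) h.w.sh he hv hg hvg

theorem BD.atx (h : BD X P D j m S M CL U PL x y r s Qc c1 L Fc pl mi) {g : Sym2 ℕ} (hg : g ∈ L) (hx : x ∈ g) :
    g ∈ Qc := h.atQ h.hxy (by simp) hg hx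

theorem BD.hLc (h : BD X P D j m S M CL U PL x y r s Qc c1 L Fc pl mi) : L ∩ c1.edges = Qc :=
  inter_eq3 (h.pw.val h.c1U) (h.pw.ish _ h.hQ) h.q1 h.w.m2 h.w.sh

/-- the part of the witness in another cluster -/
theorem BD.cap (h : BD X P D j m S M CL U PL x y r s Qc c1 L Fc pl mi) {c : Clu3 ℕ} (hc : c ∈ U) (hne : c ≠ c1) :
    Acap D (L ∩ c.edges) := by
  refine ⟨h.w.m2.mono Finset.inter_subset_left, fun Z' hZ' hs => ?_⟩
  have h1 := h.w.uni Z' hZ' (hs.trans Finset.inter_subset_left)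
  subst h1
  exact hne (h.pw.eqc hc h.c1U (Finset.mem_inter.1 (hs h.hxy)).2 (h.q1 h.hxy))

theorem BD.out (h : BD X P D j m S M CL U PL x y r s Qc c1 L Fc pl mi) : Out3 (Fr3 D Fc) U c1 L := by
  intro c hc hne
  refine Fr3_of (fun hf => ?_) fun _ => h.cap hc hne
  exact (h.fc c hc hf).2.resolve_left hne

/-- `x` has no edge of the witness in another cluster -/
theorem BD.nox (h : BD X P D j m S M CL U PL x y r s Qc c1 L Fc pl mi) {c : Clu3 ℕ} (hc : c ∈ U) (hne : c ≠ c1) :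
    ∀ f ∈ L ∩ c.edges, x ∉ f := by
  intro f hf hxf
  obtain ⟨h1, h2⟩ := mem_inter.1 hf
  exact hne (h.pw.eqc hc h.c1U h2 (h.q1 (h.atx h1 hxf)))

/-- the local data, general frame -/
theorem BD.lo0 (h : BD X P D j m S M CL U PL x y r s Qc c1 L Fc pl mi) {c : Clu3 ℕ} (hc : c ∈ U) (hne : c ≠ c1) :
    Lo0 D c (L ∩ c.edges) (Fr3 D Fc c) X.V2 where
  val := h.pw.val hc
  ish := h.pw.ish
  nl := h.pw.nl (h.pw.cW hc)
  sub := inter_subset_right
  m2 := (h.cap hc hne).1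
  fr := (h.cap hc hne).2
  ac := by
    by_cases hf : Fc c
    · exact Or.inl ⟨Fr3_pos hf, (h.fc c hc hf).2.resolve_left hne⟩
    · exact Or.inr (Fr3_neg hf)
  a4 := by
    rintro Y rfl
    refine Fr3_neg fun hf => ?_
    exact Hb.not_k4 (h.fb _ hf)
  vV := fun e he v hv => h.pw.v2 (h.pw.cW hc he) hv

/-! ### states with cost -/

/-- a state up to a vector without cost -/
def RC (V : Finset ℕ) (pl mi : ℕ → Prop) (A : Clu3 ℕ → Finset (Sym2 ℕ) → Prop) (U : List (Clu3 ℕ))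
    (PL L : Finset (Sym2 ℕ)) (d : ℕ → ℤ) (τ : Finset (Sym2 ℕ)) : Prop :=
  ∃ z, ph V pl mi z ≤ 0 ∧ RS A U PL L (d + z) τ

/-- a move at a site up to a vector without cost -/
def GM (V : Finset ℕ) (pl mi : ℕ → Prop) (A : Clu3 ℕ → Finset (Sym2 ℕ) → Prop) (U : List (Clu3 ℕ))
    (PL L E : Finset (Sym2 ℕ)) (δ : ℕ → ℤ) : Prop := ∃ z, ph V pl mi z ≤ 0 ∧ SMv A U PL L E (δ + z)

/-- another site -/
def Site (U : List (Clu3 ℕ)) (PL : Finset (Sym2 ℕ)) (c1 : Clu3 ℕ) (E : Finset (Sym2 ℕ)) : Prop :=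
  (∃ c ∈ U, c ≠ c1 ∧ E = c.edges) ∨ ∃ e ∈ PL, E = {e}

theorem gm_of {V : Finset ℕ} {A : Clu3 ℕ → Finset (Sym2 ℕ) → Prop} {c : Clu3 ℕ} (hc : c ∈ U) {δ : ℕ → ℤ}
    (h : Mv V pl mi c (A c) (L ∩ c.edges) δ) : GM V pl mi A U PL L c.edges δ := by
  obtain ⟨K, h1, h2, z, h3, h4⟩ := h
  exact ⟨z, h3, K, ⟨h1, Or.inl ⟨c, hc, rfl, h2⟩⟩, by rw [h4, add_assoc]⟩

theorem gm_plain {V : Finset ℕ} {A : Clu3 ℕ → Finset (Sym2 ℕ) → Prop} {u t : ℕ} (hut : u ≠ t) (he : s(u, t) ∈ PL)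
    (hL : s(u, t) ∉ L) : GM V pl mi A U PL L {s(u, t)} (ev u + ev t) := by
  refine ⟨0, (ph_zero _ _ _).le, {s(u, t)}, ⟨le_rfl, Or.inr ⟨_, he, rfl⟩⟩, ?_⟩
  have e : L ∩ {s(u, t)} = ∅ := by
    rw [Finset.inter_singleton_of_notMem hL]
  rw [e, dv_empty, dv_pair hut, zero_add, add_zero]
  rfl

theorem BD.site_disj (h : BD X P D j m S M CL U PL x y r s Qc c1 L Fc pl mi) {E E' : Finset (Sym2 ℕ)}
    (hE : Site U PL c1 E) (hE' : Site U PL c1 E') (hne : E ≠ E') : Disjoint E E' := by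
  rw [Finset.disjoint_left]
  intro e he he'
  apply hne
  rcases hE with ⟨c, hc, hc1, rfl⟩ | ⟨f, hf, rfl⟩
  · rcases hE' with ⟨c', hc', _, rfl⟩ | ⟨f, hf, rfl⟩
    · rw [h.pw.eqc hc hc' he he']
    · rw [mem_singleton] at he'
      subst he'
      exact absurd he (Finset.disjoint_left.1 (h.pw.plain hc) hf)
  · rw [mem_singleton] at he
    subst he
    rcases hE' with ⟨c', hc', _, rfl⟩ | ⟨f', hf', rfl⟩
    · exact absurd he' (Finset.disjoint_left.1 (h.pw.plain hc') hf)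
    · rw [mem_singleton] at he'
      rw [he']

theorem BD.site_c1 (h : BD X P D j m S M CL U PL x y r s Qc c1 L Fc pl mi) {E : Finset (Sym2 ℕ)}
    (hE : Site U PL c1 E) : Disjoint E c1.edges := by
  rcases hE with ⟨c, hc, hc1, rfl⟩ | ⟨f, hf, rfl⟩
  · rw [Finset.disjoint_left]
    intro e he he'
    exact hc1 (h.pw.eqc hc h.c1U he he')
  · rw [Finset.disjoint_singleton_left]
    exact Finset.disjoint_left.1 (h.pw.plain h.c1U) hf

theorem BD.step (h : BD X P D j m S M CL U PL x y r s Qc c1 L Fc pl mi) {d δ : ℕ → ℤ} {τ E : Finset (Sym2 ℕ)}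
    (hR : RC X.V2 pl mi (Fr3 D Fc) U PL L d τ) (hd : Disjoint E τ)
    (hM : GM X.V2 pl mi (Fr3 D Fc) U PL L E δ) : RC X.V2 pl mi (Fr3 D Fc) U PL L (d + δ) (τ ∪ E) := by
  obtain ⟨z, h1, h2⟩ := hR
  obtain ⟨z', h3, h4⟩ := hM
  refine ⟨z + z', (ph_le _ _ _ _ _).trans (by omega), ?_⟩
  have h5 := YM.step h.pw h2 hd h4
  have e : d + z + (δ + z') = d + δ + (z + z') := by abel
  rwa [e] at h5

theorem BD.val (h : BD X P D j m S M CL U PL x y r s Qc c1 L Fc pl mi) {d : ℕ → ℤ} {τ : Finset (Sym2 ℕ)}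
    (hR : RC X.V2 pl mi (Fr3 D Fc) U PL L d τ) : 1 ≤ ph X.V2 pl mi d := by
  obtain ⟨z, h1, h2⟩ := hR
  have hZU : Qc ⊆ Ucl3 U := fun e he => mem_Ucl3.2 ⟨c1, h.c1U, h.q1 he⟩
  have h3 := val1 h.pw h.hQ hZU h.w h2
  have h4 := ph_le X.V2 pl mi d z
  omega

/-- the end -/
theorem BD.fin (h : BD X P D j m S M CL U PL x y r s Qc c1 L Fc pl mi) {d : ℕ → ℤ} {τ : Finset (Sym2 ℕ)}
    (hR : RC X.V2 pl mi (Fr3 D Fc) U PL L d τ) {α β : ℤ} (hα : α = 0 ∨ α = 2) (hβ : β = 0 ∨ β = 2)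
    (hd : d = α • ev r + β • ev s) : False := by
  have h3 := h.val hR
  have e : d = Pi.single r α + Pi.single s β := by
    rw [hd, single_ev, single_ev]
  have hV : ∀ v ∈ S, v ∈ X.V2 := h.pw.sv
  rw [e, ph_two (hV r h.rS) (hV s h.sS) h.nrs] at h3
  have key : ∀ v, mi v → ∀ a : ℤ, a = 0 ∨ a = 2 → con (pl v) (mi v) a ≤ 0 := by
    intro v hv a ha
    rcases ha with rfl | rfl
    · exact (con_zero _ _).le
    · unfold con
      rw [if_pos hv, if_pos hv]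
      split_ifs <;> norm_num
  have h5 := key r (h.mi r h.rS h.rT) α hα
  have h6 := key s (h.mi s h.sS h.sT) β hβ
  omega

theorem BD.siteOf (h : BD X P D j m S M CL U PL x y r s Qc c1 L Fc pl mi) {e : Sym2 ℕ} (he : e ∈ Ucl3 U ∪ PL)
    (h1 : e ∉ c1.edges) : ∃ E, Site U PL c1 E ∧ e ∈ E := by
  rcases mem_union.1 he with h2 | h2
  · obtain ⟨c, hc, hec⟩ := mem_Ucl3.1 h2
    exact ⟨c.edges, Or.inl ⟨c, hc, by rintro rfl; exact h1 hec, rfl⟩, hec⟩
  · exact ⟨{e}, Or.inr ⟨e, h2, rfl⟩, mem_singleton_self e⟩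

theorem BD.xrL (h : BD X P D j m S M CL U PL x y r s Qc c1 L Fc pl mi) : s(x, r) ∉ L := fun hc =>
  h.hr _ (h.atx hc (by simp)) (by simp)

/-- attach `x` to `r`, which has at most one edge at the site -/
theorem BD.A0 (h : BD X P D j m S M CL U PL x y r s Qc c1 L Fc pl mi) {E : Finset (Sym2 ℕ)} (hE : Site U PL c1 E)
    (he : s(x, r) ∈ E) (hd : dg (L ∩ E) r ≤ 1) : GM X.V2 pl mi (Fr3 D Fc) U PL L E (ev x + ev r) := by
  rcases hE with ⟨c, hc, hc1, rfl⟩ | ⟨f, hf, rfl⟩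
  · exact gm_of hc ((h.lo0 hc hc1).att_mv (h.nox hc hc1) he hd)
  · rw [mem_singleton] at he
    subst he
    exact gm_plain h.nxr hf h.xrL

/-! ### the start -/

theorem BD.acE (h : BD X P D j m S M CL U PL x y r s Qc c1 L Fc pl mi) : Acap D (Qc.erase s(x, y)) := by
  refine ⟨(h.pw.ish _ h.hQ).m2.mono (erase_subset _ _), fun Z hZ hs => ?_⟩
  have h2 := sh_sub_eq (h.pw.ish _ hZ) (h.pw.ish _ h.hQ) (hs.trans (erase_subset _ _))
  subst h2
  exact notMem_erase _ _ (hs h.hxy)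

theorem BD.nsE (h : BD X P D j m S M CL U PL x y r s Qc c1 L Fc pl mi) : NSh (Qc.erase s(x, y)) :=
  nsh_ssub (h.pw.ish _ h.hQ) (erase_subset _ _) fun h1 => notMem_erase s(x, y) Qc (by rw [h1]; exact h.hxy)

theorem BD.a1 (_ : BD X P D j m S M CL U PL x y r s Qc c1 L Fc pl mi) {F : Finset (Sym2 ℕ)} (hF : Acap D F)
    (hN : NSh F) : Fr3 D Fc c1 F := Fr3_of (fun _ => hN) fun _ => hF

theorem BD.b0 (h : BD X P D j m S M CL U PL x y r s Qc c1 L Fc pl mi) :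
    RC X.V2 pl mi (Fr3 D Fc) U PL L (-ev x - ev y) c1.edges := by
  refine ⟨0, (ph_zero _ _ _).le, ?_⟩
  refine start h.pw h.c1U h.out (F := Qc.erase s(x, y)) ((erase_subset s(x, y) _).trans h.q1) (h.a1 h.acE h.nsE) ?_
  rw [h.hLc, TFC.dv_erase h.nxy h.hxy]
  abel

theorem BD.dx (h : BD X P D j m S M CL U PL x y r s Qc c1 L Fc pl mi) :
    dg (Qc.erase s(x, y)) x ≤ 1 :=
  dg_erase_le (h.pw.ish _ h.hQ).m2 h.hxy Subset.rfl (by simp)

theorem BD.nr (h : BD X P D j m S M CL U PL x y r s Qc c1 L Fc pl mi) : ∀ f ∈ Qc.erase s(x, y), r ∉ f :=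
  fun f hf => h.hr f (mem_of_mem_erase hf)

theorem BD.bx (h : BD X P D j m S M CL U PL x y r s Qc c1 L Fc pl mi) (he : s(x, r) ∈ c1.edges) :
    RC X.V2 pl mi (Fr3 D Fc) U PL L (-ev x - ev y + (ev x + ev r)) c1.edges := by
  refine ⟨0, (ph_zero _ _ _).le, ?_⟩
  refine start h.pw h.c1U h.out (F := insert s(r, x) (Qc.erase s(x, y)))
    (insert_subset (by rw [Sym2.eq_swap]; exact he) ((erase_subset s(x, y) _).trans h.q1))
    (h.a1 (acap_pend h.pw.ish h.acE h.nxr.symm h.nr h.dx) (nsh_pendant' h.nsE h.nr)) ?_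
  rw [h.hLc, TFC.dv_insert h.nxr.symm (not_mem_of h.nr), TFC.dv_erase h.nxy h.hxy]
  abel

theorem BD.bxy (h : BD X P D j m S M CL U PL x y r s Qc c1 L Fc pl mi) (he : s(x, r) ∈ c1.edges)
    (he' : s(y, s) ∈ c1.edges) :
    RC X.V2 pl mi (Fr3 D Fc) U PL L (-ev x - ev y + (ev x + ev r) + (ev y + ev s)) c1.edges := by
  refine ⟨0, (ph_zero _ _ _).le, ?_⟩
  have hA := acap_pend h.pw.ish h.acE h.nxr.symm h.nr h.dx
  have hN := nsh_pendant' (v := x) h.nsE h.nr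
  have hns : ∀ f ∈ insert s(r, x) (Qc.erase s(x, y)), s ∉ f := by
    intro f hf
    rcases mem_insert.1 hf with rfl | h1
    · rw [Sym2.mem_iff]
      rintro (h2 | h2)
      · exact h.nrs h2.symm
      · exact h.nxs h2.symm
    · exact h.symm.nr f (by rw [Sym2.eq_swap]; exact h1)
  have hdy : dg (insert s(r, x) (Qc.erase s(x, y))) y ≤ 1 := by
    rw [dg_insert (not_mem_of h.nr), if_neg]
    · exact dg_erase_le (h.pw.ish _ h.hQ).m2 h.hxy Subset.rfl (by simp)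
    · rw [Sym2.mem_iff]
      rintro (h1 | h1)
      · exact h.nyr h1
      · exact h.nxy h1.symm
  refine start h.pw h.c1U h.out (F := insert s(s, y) (insert s(r, x) (Qc.erase s(x, y))))
    (insert_subset (by rw [Sym2.eq_swap]; exact he')
      (insert_subset (by rw [Sym2.eq_swap]; exact he) ((erase_subset s(x, y) _).trans h.q1)))
    (h.a1 (acap_pend h.pw.ish hA h.nys.symm hns hdy) (nsh_pendant' hN hns)) ?_
  rw [h.hLc, TFC.dv_insert h.nys.symm (not_mem_of hns), TFC.dv_insert h.nxr.symm (not_mem_of h.nr),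
    TFC.dv_erase h.nxy h.hxy]
  abel

theorem BD.deg (h : BD X P D j m S M CL U PL x y r s Qc c1 L Fc pl mi) {E E' : Finset (Sym2 ℕ)}
    (hd : Disjoint E E') (v : ℕ) : dg (L ∩ E) v + dg (L ∩ E') v ≤ 2 := by
  have h1 : Disjoint (L ∩ E) (L ∩ E') := hd.mono inter_subset_right inter_subset_right
  have h2 := XT.dv_union h1
  have h3 := congrFun h2 v
  rw [Pi.add_apply, TFC.dv_apply, TFC.dv_apply, TFC.dv_apply] at h3
  have h4 : dg ((L ∩ E) ∪ (L ∩ E')) v ≤ 2 :=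
    (card_le_card (filter_subset_filter _ (union_subset inter_subset_left inter_subset_left))).trans (h.w.m2.le v)
  omega

end

end Pool.Agent.P34.YM

end

section -- file P34/YR2

/-!
Lemma P for triangles and squares: the assembly.
-/

set_option autoImplicit false

namespace Pool.Agent.P34.YM

open Finset Pool.Agent.TFC Pool.Agent.PF4 Pool.Agent.PF4.LD Pool.Agent.PF4.XC Pool.Agent.PF4.XT

/-- the block at a site -/
def BlkS (D : Finset (Finset (Sym2 ℕ))) (U : List (Clu3 ℕ)) (L E : Finset (Sym2 ℕ)) (r s : ℕ) : Prop :=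
  ∃ c ∈ U, E = c.edges ∧ Bl D c (L ∩ c.edges) r s

theorem BlkS.flip {D : Finset (Finset (Sym2 ℕ))} {U : List (Clu3 ℕ)} {L E : Finset (Sym2 ℕ)} {r s : ℕ}
    (h : BlkS D U L E s r) : BlkS D U L E r s := by
  obtain ⟨c, hc, hE, hk⟩ := h
  exact ⟨c, hc, hE, hk.symm⟩

section
variable {X : XD3} {P : ℕ → Finset (Sym2 ℕ) → Prop} {D : Finset (Finset (Sym2 ℕ))} {j m : ℕ} {S : Finset ℕ}
  {M : ℕ → Finset (Sym2 ℕ)} {CL U : List (Clu3 ℕ)} {PL : Finset (Sym2 ℕ)} {x y r s : ℕ} {Qc : Finset (Sym2 ℕ)}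
  {c1 : Clu3 ℕ} {L : Finset (Sym2 ℕ)} {pl mi : ℕ → Prop}

/-- the local data in the frame of the witness -/
theorem BD.lo (h : BD X P D j m S M CL U PL x y r s Qc c1 L (FL L) pl mi) {c : Clu3 ℕ} (hc : c ∈ U) (hne : c ≠ c1) :
    Lo D c (L ∩ c.edges) (Fr3 D (FL L) c) X.V2 where
  toLo0 := h.lo0 hc hne
  kd := by
    rintro Y rfl
    exact h.kd Y hc
  a2 := fun hk hs => Fr3_pos ⟨hk, hs⟩

/-- (V) -/
theorem BD.vf (h : BD X P D j m S M CL U PL x y r s Qc c1 L (FL L) pl mi) {c : Clu3 ℕ} (hc : c ∈ U) (hne : c ≠ c1) :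
    Vf pl mi c (L ∩ c.edges) r := by
  intro g Λ a b hH ha hb hab hF
  have hsq : IsSh (TFC.sq r a g b) := by
    refine Or.inr ⟨r, a, g, b, ⟨?_, hH.rh, ?_, ?_, hab, ?_⟩, rfl⟩
    · rintro rfl; exact hH.rL ha
    · rintro rfl; exact hH.rL hb
    · rintro rfl; exact hH.hL ha
    · rintro rfl; exact hH.hL hb
  have hns : ¬ FL L c := fun hf => hf.2 _ hsq hF.ge
  have hD : TFC.sq r a g b ∉ D := fun hD => (h.cap hc hne).2 _ hD hF.ge
  obtain ⟨n1, _, _⟩ := h.wa.ow.nc r h.rS h.rT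
  have key := vx h.pw hc hH (facp hns) (wM h.wa h.pw h.fb h.rS h.rT c) h.rS h.rT n1.m2 n1.one ha hb hab hD
  by_contra hcon
  push Not at hcon
  exact key ⟨hcon.1, hcon.2⟩

/-! ### moves at sites -/

/-- attach `x` to `r` -/
theorem BD.A1 (h : BD X P D j m S M CL U PL x y r s Qc c1 L (FL L) pl mi) {E : Finset (Sym2 ℕ)} (hE : Site U PL c1 E)
    (he : s(x, r) ∈ E) : GM X.V2 pl mi (Fr3 D (FL L)) U PL L E (ev x + ev r) ∨
      (GM X.V2 pl mi (Fr3 D (FL L)) U PL L E (ev x - ev r) ∧ dg (L ∩ E) r = 2) := by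
  rcases hE with ⟨c, hc, hc1, rfl⟩ | ⟨f, hf, rfl⟩
  · rcases (h.lo hc hc1).L1 (h.nox hc hc1) he (h.vf hc hc1) with h1 | ⟨h1, h2⟩
    · exact Or.inl (gm_of hc h1)
    · exact Or.inr ⟨gm_of hc h1, h2⟩
  · rw [mem_singleton] at he
    subst he
    exact Or.inl (gm_plain h.nxr hf h.xrL)

/-- link `r` and `s` -/
theorem BD.A2 (h : BD X P D j m S M CL U PL x y r s Qc c1 L (FL L) pl mi) {E : Finset (Sym2 ℕ)} (hE : Site U PL c1 E)
    (he : s(r, s) ∈ E) : GM X.V2 pl mi (Fr3 D (FL L)) U PL L E (ev r + ev s) ∨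
      (GM X.V2 pl mi (Fr3 D (FL L)) U PL L E (ev r - ev s) ∧ 1 ≤ dg (L ∩ E) s) ∨
      (GM X.V2 pl mi (Fr3 D (FL L)) U PL L E (ev s - ev r) ∧ 1 ≤ dg (L ∩ E) r) ∨
      (GM X.V2 pl mi (Fr3 D (FL L)) U PL L E (-ev r - ev s) ∧ 2 ≤ dg (L ∩ E) r ∧ 2 ≤ dg (L ∩ E) s) ∨
      BlkS D U L E r s := by
  rcases hE with ⟨c, hc, hc1, rfl⟩ | ⟨f, hf, rfl⟩
  · rcases (h.lo hc hc1).L2 he (fun h1 => h.rsL (mem_inter.1 h1).1) (h.vf hc hc1) (h.symm.vf hc hc1) with
      h1 | ⟨h1, h2⟩ | ⟨h1, h2⟩ | ⟨h1, h2⟩ | h1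
    · exact Or.inl (gm_of hc h1)
    · exact Or.inr (Or.inl ⟨gm_of hc h1, h2⟩)
    · exact Or.inr (Or.inr (Or.inl ⟨gm_of hc h1, h2⟩))
    · exact Or.inr (Or.inr (Or.inr (Or.inl ⟨gm_of hc h1, h2⟩)))
    · exact Or.inr (Or.inr (Or.inr (Or.inr ⟨c, hc, rfl, h1⟩)))
  · rw [mem_singleton] at he
    subst he
    exact Or.inl (gm_plain h.nrs hf h.rsL)

/-- both `xr` and `rs` at the same site -/
theorem BD.A3 (h : BD X P D j m S M CL U PL x y r s Qc c1 L (FL L) pl mi) {E : Finset (Sym2 ℕ)} (hE : Site U PL c1 E)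
    (he : s(x, r) ∈ E) (he' : s(r, s) ∈ E) :
    GM X.V2 pl mi (Fr3 D (FL L)) U PL L E (ev x + ev r + (ev r + ev s)) ∨
      GM X.V2 pl mi (Fr3 D (FL L)) U PL L E (ev x + ev s) ∨
      (GM X.V2 pl mi (Fr3 D (FL L)) U PL L E (ev x - ev s) ∧ 2 ≤ dg (L ∩ E) s) ∨ BlkS D U L E r s := by
  rcases hE with ⟨c, hc, hc1, rfl⟩ | ⟨f, hf, rfl⟩
  · rcases (h.lo hc hc1).L3 (h.nox hc hc1) he he' (fun h1 => h.rsL (mem_inter.1 h1).1) h.nxs (h.vf hc hc1) with
      h1 | h1 | ⟨h1, h2⟩ | h1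
    · exact Or.inl (gm_of hc h1)
    · exact Or.inr (Or.inl (gm_of hc h1))
    · exact Or.inr (Or.inr (Or.inl ⟨gm_of hc h1, h2⟩))
    · exact Or.inr (Or.inr (Or.inr ⟨c, hc, rfl, h1⟩))
  · exfalso
    rw [mem_singleton] at he he'
    rw [← he, Sym2.eq_iff] at he'
    rcases he' with ⟨h1, _⟩ | ⟨_, h1⟩
    · exact h.nxr h1.symm
    · exact h.nxs h1.symm

theorem BD.nxyc (h : BD X P D j m S M CL U PL x y r s Qc c1 L (FL L) pl mi) {c : Clu3 ℕ} (hc : c ∈ U) (hne : c ≠ c1) :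
    s(x, y) ∉ c.edges := fun h1 => hne (h.pw.eqc hc h.c1U h1 (h.q1 h.hxy))

/-- both `xr` and `ys` at the same site -/
theorem BD.A5 (h : BD X P D j m S M CL U PL x y r s Qc c1 L (FL L) pl mi) {E : Finset (Sym2 ℕ)} (hE : Site U PL c1 E)
    (he : s(x, r) ∈ E) (he' : s(y, s) ∈ E) :
    GM X.V2 pl mi (Fr3 D (FL L)) U PL L E (ev x + ev r + (ev y + ev s)) ∨
      GM X.V2 pl mi (Fr3 D (FL L)) U PL L E (ev x + ev y) := by
  rcases hE with ⟨c, hc, hc1, rfl⟩ | ⟨f, hf, rfl⟩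
  · rcases (h.lo hc hc1).L5 (h.nox hc hc1) (h.symm.nox hc hc1) he he' (h.nxyc hc hc1) h.nxy h.nxs h.nyr h.nrs
      (h.vf hc hc1) with ⟨h1, _⟩ | h1
    · exact Or.inl (gm_of hc h1)
    · exact Or.inr (gm_of hc h1)
  · exfalso
    rw [mem_singleton] at he he'
    rw [← he, Sym2.eq_iff] at he'
    rcases he' with ⟨h1, _⟩ | ⟨h1, _⟩
    · exact h.nxy h1.symm
    · exact h.nyr h1

/-- all three edges at the same site -/
theorem BD.A6 (h : BD X P D j m S M CL U PL x y r s Qc c1 L (FL L) pl mi) {E : Finset (Sym2 ℕ)} (hE : Site U PL c1 E)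
    (he : s(x, r) ∈ E) (he' : s(y, s) ∈ E) (he'' : s(r, s) ∈ E) :
    GM X.V2 pl mi (Fr3 D (FL L)) U PL L E (ev x + ev y + (2 : ℤ) • ev r) ∨
      GM X.V2 pl mi (Fr3 D (FL L)) U PL L E (ev x + ev y) := by
  rcases hE with ⟨c, hc, hc1, rfl⟩ | ⟨f, hf, rfl⟩
  · rcases (h.lo hc hc1).L6 (h.nox hc hc1) (h.symm.nox hc hc1) he he' he'' (h.nxyc hc hc1) h.nxy h.nxs h.nyr
      (h.vf hc hc1) with h1 | h1
    · exact Or.inl (gm_of hc h1)
    · exact Or.inr (gm_of hc h1)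
  · exfalso
    rw [mem_singleton] at he he'
    rw [← he, Sym2.eq_iff] at he'
    rcases he' with ⟨h1, _⟩ | ⟨h1, _⟩
    · exact h.nxy h1.symm
    · exact h.nyr h1

/-! ### the assembly -/

/-- the base is `r + s` and the site of `rs` is new -/
theorem BD.endA (h : BD X P D j m S M CL U PL x y r s Qc c1 L (FL L) pl mi) {τ E : Finset (Sym2 ℕ)}
    (hR : RC X.V2 pl mi (Fr3 D (FL L)) U PL L (ev r + ev s) τ) (hE : Site U PL c1 E) (he : s(r, s) ∈ E)
    (hd : Disjoint E τ) : BlkS D U L E r s := by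
  rcases h.A2 hE he with h1 | ⟨h1, -⟩ | ⟨h1, -⟩ | ⟨h1, -⟩ | h1
  · exact (h.fin (h.step hR hd h1) (α := 2) (β := 2) (Or.inr rfl) (Or.inr rfl) (by module)).elim
  · exact (h.fin (h.step hR hd h1) (α := 2) (β := 0) (Or.inr rfl) (Or.inl rfl) (by module)).elim
  · exact (h.fin (h.step hR hd h1) (α := 0) (β := 2) (Or.inl rfl) (Or.inr rfl) (by module)).elim
  · exact (h.fin (h.step hR hd h1) (α := 0) (β := 0) (Or.inl rfl) (Or.inl rfl) (by module)).elim
  · exact h1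

/-- the base is `r - s` with both edges at `s` used; the site of `rs` is new -/
theorem BD.endB (h : BD X P D j m S M CL U PL x y r s Qc c1 L (FL L) pl mi) {τ E : Finset (Sym2 ℕ)}
    (hR : RC X.V2 pl mi (Fr3 D (FL L)) U PL L (ev r - ev s) τ) (hE : Site U PL c1 E) (he : s(r, s) ∈ E)
    (hd : Disjoint E τ) (hs : dg (L ∩ E) s = 0) : BlkS D U L E r s := by
  rcases h.A2 hE he with h1 | ⟨h1, h2⟩ | ⟨h1, -⟩ | ⟨h1, h2⟩ | h1
  · exact (h.fin (h.step hR hd h1) (α := 2) (β := 0) (Or.inr rfl) (Or.inl rfl) (by module)).elim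
  · omega
  · exact (h.fin (h.step hR hd h1) (α := 0) (β := 0) (Or.inl rfl) (Or.inl rfl) (by module)).elim
  · omega
  · exact h1

/-- both signs negative -/
theorem BD.endC (h : BD X P D j m S M CL U PL x y r s Qc c1 L (FL L) pl mi) {τ E : Finset (Sym2 ℕ)}
    (hR : RC X.V2 pl mi (Fr3 D (FL L)) U PL L (-ev r - ev s) τ) (hE : Site U PL c1 E) (he : s(r, s) ∈ E)
    (hd : Disjoint E τ) (hr : dg (L ∩ E) r = 0) (hs : dg (L ∩ E) s = 0) : BlkS D U L E r s := by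
  rcases h.A2 hE he with h1 | ⟨h1, h2⟩ | ⟨h1, h2⟩ | ⟨h1, h2⟩ | h1
  · exact (h.fin (h.step hR hd h1) (α := 0) (β := 0) (Or.inl rfl) (Or.inl rfl) (by module)).elim
  · omega
  · omega
  · omega
  · exact h1

/-- `x` done, `y` and the link at different sites -/
theorem BD.endY (h : BD X P D j m S M CL U PL x y r s Qc c1 L (FL L) pl mi) {τ E2 E3 : Finset (Sym2 ℕ)}
    (hR : RC X.V2 pl mi (Fr3 D (FL L)) U PL L (ev r - ev y) τ) (hE2 : Site U PL c1 E2) (he2 : s(y, s) ∈ E2)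
    (hE3 : Site U PL c1 E3) (he3 : s(r, s) ∈ E3) (hne : E2 ≠ E3) (hd2 : Disjoint E2 τ) (hd3 : Disjoint E3 τ) :
    BlkS D U L E3 r s := by
  have hd23 := h.site_disj hE2 hE3 hne
  have hd : Disjoint E3 (τ ∪ E2) := Finset.disjoint_union_right.2 ⟨hd3, hd23.symm⟩
  have hdeg := h.deg hd23 s
  rcases h.symm.A1 hE2 he2 with h1 | ⟨h1, h2⟩
  · have h3 := h.step hR hd2 h1
    have e : ev r - ev y + (ev y + ev s) = ev r + ev s := by module
    rw [e] at h3
    exact h.endA h3 hE3 he3 hd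
  · have h3 := h.step hR hd2 h1
    have e : ev r - ev y + (ev y - ev s) = ev r - ev s := by module
    rw [e] at h3
    exact h.endB h3 hE3 he3 hd (by omega)

/-- `xr` in the cluster of the short cycle, `ys` not -/
theorem BD.caseA (h : BD X P D j m S M CL U PL x y r s Qc c1 L (FL L) pl mi) (h1 : s(x, r) ∈ c1.edges)
    (h2 : s(y, s) ∉ c1.edges) {E3 : Finset (Sym2 ℕ)} (hE3 : Site U PL c1 E3) (he3 : s(r, s) ∈ E3) :
    BlkS D U L E3 r s := by
  obtain ⟨E2, hE2, he2⟩ := h.siteOf (wreg h.wa h.yS h.ys (by simp)) h2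
  have hb := h.bx h1
  have e : -ev x - ev y + (ev x + ev r) = ev r - ev y := by module
  rw [e] at hb
  by_cases h3 : E2 = E3
  · subst h3
    rcases h.symm.A3 hE2 he2 (by rw [Sym2.eq_swap]; exact he3) with h4 | h4 | ⟨h4, -⟩ | h4
    · exact (h.fin (h.step hb (h.site_c1 hE2) h4) (α := 2) (β := 2) (Or.inr rfl) (Or.inr rfl) (by module)).elim
    · exact (h.fin (h.step hb (h.site_c1 hE2) h4) (α := 2) (β := 0) (Or.inr rfl) (Or.inl rfl) (by module)).elim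
    · exact (h.fin (h.step hb (h.site_c1 hE2) h4) (α := 0) (β := 0) (Or.inl rfl) (Or.inl rfl) (by module)).elim
    · exact h4.flip
  · exact h.endY hb hE2 he2 hE3 he3 h3 (h.site_c1 hE2) (h.site_c1 hE3)

/-- the three edges are not in one other cluster -/
theorem BD.three (h : BD X P D j m S M CL U PL x y r s Qc c1 L (FL L) pl mi) {E : Finset (Sym2 ℕ)}
    (hE : Site U PL c1 E) (h1 : s(x, r) ∈ E) (h2 : s(y, s) ∈ E) (h3 : s(r, s) ∈ E) : False := by
  have hb := h.b0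
  rcases h.A6 hE h1 h2 h3 with h4 | h4
  · exact h.fin (h.step hb (h.site_c1 hE) h4) (α := 2) (β := 0) (Or.inr rfl) (Or.inl rfl) (by module)
  · exact h.fin (h.step hb (h.site_c1 hE) h4) (α := 0) (β := 0) (Or.inl rfl) (Or.inl rfl) (by module)

/-- `xr` and `rs` at one site, `ys` at another -/
theorem BD.caseB (h : BD X P D j m S M CL U PL x y r s Qc c1 L (FL L) pl mi) {E1 E2 : Finset (Sym2 ℕ)}
    (hE1 : Site U PL c1 E1) (he1 : s(x, r) ∈ E1) (hE2 : Site U PL c1 E2) (he2 : s(y, s) ∈ E2)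
    (he3 : s(r, s) ∈ E1) (hne : E1 ≠ E2) : BlkS D U L E1 r s := by
  have hd := h.site_disj hE1 hE2 hne
  have hb := h.b0
  have hd2 : Disjoint E2 (c1.edges ∪ E1) := Finset.disjoint_union_right.2 ⟨h.site_c1 hE2, hd.symm⟩
  rcases h.A3 hE1 he1 he3 with h4 | h4 | ⟨h4, g4⟩ | h4
  · have h5 := h.step hb (h.site_c1 hE1) h4
    rcases h.symm.A1 hE2 he2 with h6 | ⟨h6, -⟩
    · exact (h.fin (h.step h5 hd2 h6) (α := 2) (β := 2) (Or.inr rfl) (Or.inr rfl) (by module)).elim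
    · exact (h.fin (h.step h5 hd2 h6) (α := 2) (β := 0) (Or.inr rfl) (Or.inl rfl) (by module)).elim
  · have h5 := h.step hb (h.site_c1 hE1) h4
    rcases h.symm.A1 hE2 he2 with h6 | ⟨h6, -⟩
    · exact (h.fin (h.step h5 hd2 h6) (α := 0) (β := 2) (Or.inl rfl) (Or.inr rfl) (by module)).elim
    · exact (h.fin (h.step h5 hd2 h6) (α := 0) (β := 0) (Or.inl rfl) (Or.inl rfl) (by module)).elim
  · have h5 := h.step hb (h.site_c1 hE1) h4
    have hdeg := h.deg hd s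
    rcases h.symm.A1 hE2 he2 with h6 | ⟨h6, g6⟩
    · exact (h.fin (h.step h5 hd2 h6) (α := 0) (β := 0) (Or.inl rfl) (Or.inl rfl) (by module)).elim
    · omega
  · exact h4

/-- neither `xr` nor `ys` in the cluster of the short cycle -/
theorem BD.caseN (h : BD X P D j m S M CL U PL x y r s Qc c1 L (FL L) pl mi) (h1 : s(x, r) ∉ c1.edges)
    (h2 : s(y, s) ∉ c1.edges) {E3 : Finset (Sym2 ℕ)} (hE3 : Site U PL c1 E3) (he3 : s(r, s) ∈ E3) :
    BlkS D U L E3 r s := by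
  obtain ⟨E1, hE1, he1⟩ := h.siteOf (wreg h.wa h.xS h.xr (by simp)) h1
  obtain ⟨E2, hE2, he2⟩ := h.siteOf (wreg h.wa h.yS h.ys (by simp)) h2
  have hb := h.b0
  have hc1 := h.site_c1 hE1
  have hc2 := h.site_c1 hE2
  have hc3 := h.site_c1 hE3
  by_cases h12 : E1 = E2
  · subst h12
    by_cases h13 : E1 = E3
    · subst h13
      exact (h.three hE1 he1 he2 he3).elim
    have hd : Disjoint E3 (c1.edges ∪ E1) :=
      Finset.disjoint_union_right.2 ⟨hc3, (h.site_disj hE1 hE3 h13).symm⟩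
    rcases h.A5 hE1 he1 he2 with h4 | h4
    · have h5 := h.step hb hc1 h4
      have e : -ev x - ev y + (ev x + ev r + (ev y + ev s)) = ev r + ev s := by module
      rw [e] at h5
      exact h.endA h5 hE3 he3 hd
    · exact (h.fin (h.step hb hc1 h4) (α := 0) (β := 0) (Or.inl rfl) (Or.inl rfl) (by module)).elim
  · by_cases h13 : E1 = E3
    · subst h13
      exact h.caseB hE1 he1 hE2 he2 he3 h12
    · by_cases h23 : E2 = E3
      · subst h23
        exact (h.symm.caseB hE2 he2 hE1 he1 (by rw [Sym2.eq_swap]; exact he3) (Ne.symm h12)).flip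
      · have d12 := h.site_disj hE1 hE2 h12
        have d13 := h.site_disj hE1 hE3 h13
        have d23 := h.site_disj hE2 hE3 h23
        have hd2 : Disjoint E2 (c1.edges ∪ E1) := Finset.disjoint_union_right.2 ⟨hc2, d12.symm⟩
        have hd3 : Disjoint E3 (c1.edges ∪ E1) := Finset.disjoint_union_right.2 ⟨hc3, d13.symm⟩
        rcases h.A1 hE1 he1 with h4 | ⟨h4, g4⟩
        · have h5 := h.step hb hc1 h4
          have e : -ev x - ev y + (ev x + ev r) = ev r - ev y := by module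
          rw [e] at h5
          exact h.endY h5 hE2 he2 hE3 he3 h23 hd2 hd3
        · have h5 := h.step hb hc1 h4
          have hdr := h.deg d13 r
          have hds := h.deg d23 s
          have hd : Disjoint E3 (c1.edges ∪ E1 ∪ E2) := Finset.disjoint_union_right.2 ⟨hd3, d23.symm⟩
          rcases h.symm.A1 hE2 he2 with h6 | ⟨h6, g6⟩
          · have h7 := h.step h5 hd2 h6
            have e : -ev x - ev y + (ev x - ev r) + (ev y + ev s) = ev s - ev r := by module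
            rw [e] at h7
            exact (h.symm.endB h7 hE3 (by rw [Sym2.eq_swap]; exact he3) hd (by omega)).flip
          · have h7 := h.step h5 hd2 h6
            have e : -ev x - ev y + (ev x - ev r) + (ev y - ev s) = -ev r - ev s := by module
            rw [e] at h7
            exact h.endC h7 hE3 he3 hd (by omega) (by omega)

theorem BD.rsc1 {Fc : Clu3 ℕ → Prop} (h : BD X P D j m S M CL U PL x y r s Qc c1 L Fc pl mi) : s(r, s) ∉ c1.edges := by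
  intro hc
  obtain ⟨f, hf, v, hv, hvf⟩ := cl3_touch (h.pw.val h.c1U) (h.pw.ish _ h.hQ) h.q1 hc
  rcases Sym2.mem_iff.1 hv with rfl | rfl
  · exact h.hr f hf hvf
  · exact h.hs f hf hvf

/-- **the block** at the site of `rs` -/
theorem BD.blk (h : BD X P D j m S M CL U PL x y r s Qc c1 L (FL L) pl mi) :
    ∃ c ∈ U, c ≠ c1 ∧ s(r, s) ∈ c.edges ∧ Bl D c (L ∩ c.edges) r s := by
  obtain ⟨E3, hE3, he3⟩ := h.siteOf (wreg h.wa h.rS h.rs (by simp)) h.rsc1
  have key : BlkS D U L E3 r s := by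
    by_cases a : s(x, r) ∈ c1.edges
    · by_cases b : s(y, s) ∈ c1.edges
      · have hb := h.bxy a b
        have e : -ev x - ev y + (ev x + ev r) + (ev y + ev s) = ev r + ev s := by module
        rw [e] at hb
        exact h.endA hb hE3 he3 (h.site_c1 hE3)
      · exact h.caseA a b hE3 he3
    · by_cases b : s(y, s) ∈ c1.edges
      · exact (h.symm.caseA b a hE3 (by rw [Sym2.eq_swap]; exact he3)).flip
      · exact h.caseN a b hE3 he3
  obtain ⟨c, hc, rfl, hb⟩ := key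
  exact ⟨c, hc, fun e => h.rsc1 (e ▸ he3), he3, hb⟩

end

end Pool.Agent.P34.YM

end

section -- file P34/YP

/-!
Lemma P for triangles and squares: the edge `r s` is not in the witness.
-/

set_option autoImplicit false

namespace Pool.Agent.P34.YM

open Finset Pool.Agent.TFC Pool.Agent.PF4 Pool.Agent.PF4.LD Pool.Agent.PF4.XC Pool.Agent.PF4.XT

/-- no member of the family through `x r` in a set of edges where the corners of `Qc` have only edges of `Qc`,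
besides `x r` and `y s` -/
theorem nosh {K Z Qc : Finset (Sym2 ℕ)} {x y r s : ℕ} (hQc : ∀ u v, s(u, v) ∈ Qc → ∀ w, s(v, w) ∈ K →
    s(v, w) ∈ Qc ∨ s(v, w) = s(x, r) ∨ s(v, w) = s(y, s)) (hr : ∀ f ∈ Qc, r ∉ f) (hs : ∀ f ∈ Qc, s ∉ f)
    (hxy : s(x, y) ∈ Qc) (hK : s(x, y) ∉ K) (nxy : x ≠ y) (nrs : r ≠ s) (hZ : IsSh Z) (hZK : Z ⊆ K) :
    s(x, r) ∉ Z := by
  intro he
  have nxs : x ≠ s := by rintro rfl; exact hs _ hxy (by simp)
  have nxr : x ≠ r := by rintro rfl; exact hr _ hxy (by simp)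
  have nyr : y ≠ r := by rintro rfl; exact hr _ hxy (by simp)
  -- the edges at a corner other than `x`
  have key : ∀ u v, s(u, v) ∈ Qc → v ≠ x → ∀ w, s(v, w) ∈ K → w ≠ s → s(v, w) ∈ Qc := by
    intro u v hv hvx w hw hws
    rcases hQc u v hv w hw with h1 | h1 | h1
    · exact h1
    · exfalso
      rw [Sym2.eq_iff] at h1
      rcases h1 with ⟨h1, _⟩ | ⟨h1, _⟩
      · exact hvx h1
      · subst h1
        exact hr _ hv (by simp)
    · exfalso
      rw [Sym2.eq_iff] at h1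
      rcases h1 with ⟨_, h1⟩ | ⟨h1, _⟩
      · exact hws h1
      · subst h1
        exact hs _ hv (by simp)
  have keyr : ∀ u v, s(u, v) ∈ Qc → v ≠ x → s(v, r) ∉ K := by
    intro u v hv hvx hc
    exact hr _ (key u v hv hvx r hc nrs) (by simp)
  rw [Sym2.eq_swap] at he
  have xx : ∀ w, s(x, w) ∈ Z → w ≠ r → s(x, w) ∈ Qc := by
    intro w hw hwr
    rcases hQc y x (by rw [Sym2.eq_swap]; exact hxy) w (hZK hw) with h1 | h1 | h1
    · exact h1
    · exact absurd (Sym2.congr_right.1 h1) hwr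
    · exfalso
      rw [Sym2.eq_iff] at h1
      rcases h1 with ⟨h1, _⟩ | ⟨h1, _⟩
      · exact nxy h1
      · exact nxs h1
  rcases isSh_first hZ he with ⟨p, ⟨n1, n2, n3⟩, rfl⟩ | ⟨p, q, ⟨n1, n2, n3, n4, n5, n6⟩, rfl⟩
  · -- triangle `r x p`
    have h1 : s(x, p) ∈ Qc := xx p (by simp [tri]) n2.symm
    exact keyr x p h1 n3.symm (hZK (by simp [tri]))
  · -- square `r x p q`
    have h1 : s(x, p) ∈ Qc := xx p (by simp [TFC.sq]) n2.symm
    have hqK : s(q, r) ∈ K := hZK (by simp [TFC.sq])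
    have hpq : s(p, q) ∈ K := hZK (by simp [TFC.sq])
    by_cases hqs : q = s
    · subst hqs
      rcases hQc x p h1 q hpq with h2 | h2 | h2
      · exact hs _ h2 (by simp)
      · rw [Sym2.eq_iff] at h2
        rcases h2 with ⟨h2, _⟩ | ⟨h2, _⟩
        · exact n4 h2.symm
        · exact n2 h2.symm
      · -- `p = y`
        rw [Sym2.eq_iff] at h2
        rcases h2 with ⟨h2, _⟩ | ⟨h2, _⟩
        · subst h2
          exact hK (hZK (by simp [TFC.sq]))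
        · subst h2
          exact hs _ h1 (by simp)
    · have h2 := key x p h1 n4.symm q hpq hqs
      exact keyr p q h2 n5.symm hqK

section
variable {X : XD3} {P : ℕ → Finset (Sym2 ℕ) → Prop} {D : Finset (Finset (Sym2 ℕ))} {j m : ℕ} {S : Finset ℕ}
  {M : ℕ → Finset (Sym2 ℕ)} {CL U : List (Clu3 ℕ)} {PL : Finset (Sym2 ℕ)} {x y r s : ℕ} {Qc : Finset (Sym2 ℕ)}
  {c1 : Clu3 ℕ} {L : Finset (Sym2 ℕ)}

/-- **`rs` is not in the witness** -/
theorem rs_notin (wa : WA3 X P D j m S M CL U PL) (nxy : x ≠ y) (nrs : r ≠ s) (xS : x ∈ S) (yS : y ∈ S) (rS : r ∈ S)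
    (hQ : Qc ∈ D) (hxy : s(x, y) ∈ Qc) (hr : ∀ f ∈ Qc, r ∉ f) (hs : ∀ f ∈ Qc, s ∉ f)
    (hxr : s(x, r) ∈ X.E) (hrs : s(r, s) ∈ X.E) (hys : s(y, s) ∈ X.E) (hL : Wt3 X P D j Qc L) (c1U : c1 ∈ U)
    (q1 : Qc ⊆ c1.edges) : s(r, s) ∉ L := by
  intro hrsL
  obtain ⟨pl, mi, hw, -⟩ := wa.fr (fun _ => False) fun _ h => h.elim
  have nxs : x ≠ s := by rintro rfl; exact hs _ hxy (by simp)
  have nxr : x ≠ r := by rintro rfl; exact hr _ hxy (by simp)
  have nyr : y ≠ r := by rintro rfl; exact hr _ hxy (by simp)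
  have nys : y ≠ s := by rintro rfl; exact hs _ hxy (by simp)
  have hxrW := wreg wa xS hxr (by simp)
  have hysW := wreg wa yS hys (by simp)
  have hrsW := wreg wa rS hrs (by simp)
  have hxyW : s(x, y) ∈ Ucl3 U ∪ PL := hw.cW c1U (q1 hxy)
  have hat : ∀ {v : ℕ} {e g : Sym2 ℕ}, e ∈ Qc → v ∈ e → g ∈ L → v ∈ g → g ∈ Qc := fun he hv hg hvg =>
    shc hL.m2 (hw.ish _ hQ) hL.sh he hv hg hvg
  set K0 : Finset (Sym2 ℕ) := ((L ∩ (Ucl3 U ∪ PL)).erase s(x, y)).erase s(r, s) with hK0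
  set K : Finset (Sym2 ℕ) := insert s(y, s) (insert s(x, r) K0) with hKd
  have K0L : K0 ⊆ L := (erase_subset _ _).trans ((erase_subset _ _).trans inter_subset_left)
  have K0W : K0 ⊆ Ucl3 U ∪ PL := (erase_subset _ _).trans ((erase_subset _ _).trans inter_subset_right)
  have hKW : K ⊆ Ucl3 U ∪ PL := insert_subset hysW (insert_subset hxrW K0W)
  have hK : ∀ g ∈ K, g ∈ L ∨ g = s(x, r) ∨ g = s(y, s) := by
    intro g hg
    rcases mem_insert.1 hg with h1 | h1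
    · exact Or.inr (Or.inr h1)
    · rcases mem_insert.1 h1 with h2 | h2
      · exact Or.inr (Or.inl h2)
      · exact Or.inl (K0L h2)
  have hxrL : s(x, r) ∉ L := fun hc => hr _ (hat hxy (by simp : x ∈ s(x, y)) hc (by simp)) (by simp)
  have hysL : s(y, s) ∉ L := fun hc => hs _ (hat hxy (by simp : y ∈ s(x, y)) hc (by simp)) (by simp)
  have nys' : s(y, s) ∉ insert s(x, r) K0 := by
    intro hc
    rcases mem_insert.1 hc with h1 | h1
    · have h2 : y ∈ s(x, r) := by rw [← h1]; simp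
      rcases Sym2.mem_iff.1 h2 with h2 | h2
      · exact nxy h2.symm
      · exact nyr h2
    · exact hysL (K0L h1)
  have hxyK : s(x, y) ∉ K := by
    intro hc
    rcases mem_insert.1 hc with h1 | h1
    · rw [Sym2.eq_iff] at h1
      rcases h1 with ⟨h1, _⟩ | ⟨h1, _⟩
      · exact nxy h1
      · exact nxs h1
    · rcases mem_insert.1 h1 with h2 | h2
      · exact nyr (Sym2.congr_right.1 h2)
      · exact (mem_erase.1 (mem_erase.1 h2).2).1 rfl
  have hxyL : s(x, y) ∈ L ∩ (Ucl3 U ∪ PL) := mem_inter.2 ⟨hL.sh hxy, hxyW⟩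
  have hrsL' : s(r, s) ∈ (L ∩ (Ucl3 U ∪ PL)).erase s(x, y) := by
    refine mem_erase.2 ⟨?_, mem_inter.2 ⟨hrsL, hrsW⟩⟩
    rw [ne_eq, Sym2.eq_iff]
    rintro (⟨h1, _⟩ | ⟨h1, _⟩)
    · exact nxr h1.symm
    · exact nyr h1.symm
  have hdv : dv K = dv (L ∩ (Ucl3 U ∪ PL)) + 0 := by
    rw [hKd, TFC.dv_insert nys nys', TFC.dv_insert nxr fun hc => hxrL (K0L hc), hK0, TFC.dv_erase nrs hrsL',
      TFC.dv_erase nxy hxyL]
    abel
  have hM : M2 K := by
    refine M2.of_dv (hw.nl hKW) fun v => ?_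
    rw [hdv, add_zero]
    have := (hL.m2.mono (inter_subset_left : L ∩ (Ucl3 U ∪ PL) ⊆ L)).le v
    show (dg (L ∩ (Ucl3 U ∪ PL)) v : ℤ) ≤ 2
    exact_mod_cast this
  have hfree : ∀ Z ∈ D, ¬ Z ⊆ K := by
    intro Z hZ hsub
    have hc : ∀ u v, s(u, v) ∈ Qc → ∀ w, s(v, w) ∈ K →
        s(v, w) ∈ Qc ∨ s(v, w) = s(x, r) ∨ s(v, w) = s(y, s) := by
      intro u v huv w hvw
      rcases hK _ hvw with h1 | h1
      · exact Or.inl (hat huv (by simp : v ∈ s(u, v)) h1 (by simp))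
      · exact Or.inr h1
    have c1' := nosh hc hr hs hxy hxyK nxy nrs (hw.ish Z hZ) hsub
    have c2' := nosh (x := y) (y := x) (r := s) (s := r) (fun u v huv w hvw => by
      rcases hc u v huv w hvw with h | h | h <;> tauto) hs hr (by rw [Sym2.eq_swap]; exact hxy)
      (by rw [Sym2.eq_swap]; exact hxyK) nxy.symm nrs.symm (hw.ish Z hZ) hsub
    have h1 : Z ⊆ L := by
      intro g hg
      rcases hK g (hsub hg) with h | h | h
      · exact h
      · rw [h] at hg; exact absurd hg c1'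
      · rw [h] at hg; exact absurd hg c2'
    have h2 := hL.uni Z hZ h1
    rw [h2] at hsub
    exact hxyK (hsub hxy)
  have hAU : AU3 (Fr3 D fun _ => False) U PL K := by
    refine ⟨hKW, fun c hc => ?_⟩
    rw [Fr3_neg fun h => h]
    exact ⟨hM.mono inter_subset_left, fun Z hZ hs => hfree Z hZ (hs.trans inter_subset_left)⟩
  have hZU : Qc ⊆ Ucl3 U := fun e he => mem_Ucl3.2 ⟨c1, c1U, q1 he⟩
  have h5 := hw.witA Qc hQ hZU L hL.mem hL.cov hL.uni K hAU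
  rw [hdv, add_zero, sub_self, ph_zero] at h5
  omega

end

end Pool.Agent.P34.YM

end

section -- file P34/YP2

/-!
Lemma P for triangles and squares: after the block.
-/

set_option autoImplicit false

namespace Pool.Agent.P34.YM

open Finset Pool.Agent.TFC Pool.Agent.PF4 Pool.Agent.PF4.LD Pool.Agent.PF4.XC Pool.Agent.PF4.XT

section
variable {D : Finset (Finset (Sym2 ℕ))} {c : Clu3 ℕ} {F : Finset (Sym2 ℕ)} {Ac : Finset (Sym2 ℕ) → Prop}
  {V : Finset ℕ} {pl mi : ℕ → Prop} {x y r s : ℕ}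

/-- attach `x` to `r` and `y` to `s` -/
theorem Lo0.att2 (H : Lo0 D c F Ac V) (hx : ∀ f ∈ F, x ∉ f) (hy : ∀ f ∈ F, y ∉ f) (he : s(x, r) ∈ c.edges)
    (he' : s(y, s) ∈ c.edges) (nxy : x ≠ y) (hxs : x ≠ s) (hyr : y ≠ r) (nrs : r ≠ s) (hr : dg F r ≤ 1)
    (hs : dg F s ≤ 1) : Mv V pl mi c Ac F (ev x + ev r + (ev y + ev s)) := by
  have hxr : x ≠ r := H.nl.ne he
  have hys : y ≠ s := H.nl.ne he'
  have hx2 : ∀ f ∈ insert s(y, s) F, x ∉ f := by
    intro f hf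
    rcases mem_insert.1 hf with rfl | hf
    · rw [Sym2.mem_iff]; exact fun h => h.elim nxy hxs
    · exact hx f hf
  have hdr : dg (insert s(y, s) F) r ≤ 1 := by
    rw [dg_insert (not_mem_of hy), if_neg (by rw [Sym2.mem_iff]; exact fun h => h.elim (Ne.symm hyr) nrs)]
    exact hr
  refine ⟨insert s(x, r) (insert s(y, s) F), insert_subset he (insert_subset he' H.sub), ?_, 0,
    (ph_zero V pl mi).le, ?_⟩
  · rcases H.ac with ⟨h1, h2⟩ | h1 <;> rw [h1]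
    · exact nsh_pendant' (nsh_pendant' h2 hy) hx2
    · exact acap_pend H.ish (acap_pend H.ish H.cap hys hy hs) hxr hx2 hdr
  · rw [TFC.dv_insert hxr (not_mem_of hx2), TFC.dv_insert hys (not_mem_of hy)]; module

/-- the cluster of the block: three shapes -/
theorem blk_shape (hv : c.Valid) (hb : Hb c) (hN : NSh F) (hB : ¬ NSh (insert s(r, s) F)) (hF : F ⊆ c.edges)
    (he : s(r, s) ∈ c.edges) :
    (∃ h L, HB c r h L ∧ s ∈ L ∧ s(h, s) ∈ F ∧ (s(r, h) ∈ F ∨ ∃ a, a ∈ L ∧ a ≠ s ∧ s(r, a) ∈ F ∧ s(h, a) ∈ F)) ∨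
    (∃ h L, HB c s h L ∧ r ∈ L ∧ s(h, r) ∈ F ∧ (s(s, h) ∈ F ∨ ∃ a, a ∈ L ∧ a ≠ r ∧ s(s, a) ∈ F ∧ s(h, a) ∈ F)) ∨
    ∃ L a, HB c r s L ∧ a ∈ L ∧ s(r, a) ∈ F ∧ s(s, a) ∈ F := by
  unfold NSh at hB
  push Not at hB
  obtain ⟨Z, hZ, hs⟩ := hB
  have hrZ : s(r, s) ∈ Z := by
    by_contra hc
    exact hN Z hZ ((subset_insert_iff_of_notMem hc).1 hs)
  have hZc : Z ⊆ c.edges := hs.trans (insert_subset he hF)
  have hm : ∀ {e : Sym2 ℕ}, e ∈ Z → e ≠ s(r, s) → e ∈ F := fun h1 h2 => (mem_insert.1 (hs h1)).resolve_left h2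
  -- the case of a hub `r` and a leaf `s`
  have key : ∀ r s h L, HB c r h L → s ∈ L → s(r, s) ∈ Z → (∀ {e : Sym2 ℕ}, e ∈ Z → e ≠ s(r, s) → e ∈ F) →
      s(h, s) ∈ F ∧ (s(r, h) ∈ F ∨ ∃ a, a ∈ L ∧ a ≠ s ∧ s(r, a) ∈ F ∧ s(h, a) ∈ F) := by
    intro r s h L H hsL hrZ hm
    have rs : r ≠ s := fun e => H.rL (e ▸ hsL)
    have hhs : h ≠ s := fun e => H.hL (e ▸ hsL)
    have n1 : s(h, s) ≠ s(r, s) := by
      intro h1
      rw [Sym2.eq_iff] at h1
      rcases h1 with ⟨h1, _⟩ | ⟨h1, _⟩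
      · exact H.rh h1.symm
      · exact hhs h1
    rcases H.sh hv hZ hZc with ⟨a, b, ha, hb, hab, hZe⟩ | ⟨a, ha, hZe⟩
    · have ra : r ≠ a := fun e => H.rL (e ▸ ha)
      have rb : r ≠ b := fun e => H.rL (e ▸ hb)
      have hha : h ≠ a := fun e => H.hL (e ▸ ha)
      have hhb : h ≠ b := fun e => H.hL (e ▸ hb)
      have hab' : s = a ∨ s = b := by
        have h2 := hrZ
        rw [hZe] at h2
        simp only [TFC.sq, mem_insert, mem_singleton, Sym2.eq_iff] at h2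
        rcases h2 with (⟨_, h2⟩ | ⟨h2, _⟩) | (⟨h2, _⟩ | ⟨h2, _⟩) | (⟨h2, _⟩ | ⟨h2, _⟩) | (⟨h2, _⟩ | ⟨_, h2⟩)
        · exact Or.inl h2
        · exact absurd h2 ra
        · exact absurd h2 ra
        · exact absurd h2 H.rh
        · exact absurd h2 H.rh
        · exact absurd h2 rb
        · exact absurd h2 rb
        · exact Or.inr h2
      have main : ∀ a b, a ∈ L → b ∈ L → a ≠ b → Z = TFC.sq r a h b → s = b →
          s(h, s) ∈ F ∧ (s(r, h) ∈ F ∨ ∃ a, a ∈ L ∧ a ≠ s ∧ s(r, a) ∈ F ∧ s(h, a) ∈ F) := by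
        rintro a b ha hb hab hZe rfl
        have hha : h ≠ a := fun e => H.hL (e ▸ ha)
        refine ⟨hm (by rw [hZe]; simp [TFC.sq]) n1, Or.inr ⟨a, ha, hab, hm (by rw [hZe]; simp [TFC.sq]) ?_,
          hm (by rw [hZe]; simp [TFC.sq, Sym2.eq_swap]) ?_⟩⟩
        · intro h3; exact hab (Sym2.congr_right.1 h3)
        · intro h3
          rw [Sym2.eq_iff] at h3
          rcases h3 with ⟨h3, _⟩ | ⟨h3, _⟩
          · exact H.rh h3.symm
          · exact hhs h3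
      rcases hab' with h3 | h3
      · exact main b a hb ha hab.symm (by rw [hZe, sq_flip]) h3
      · exact main a b ha hb hab hZe h3
    · have has : s = a := by
        have h2 := hrZ
        rw [hZe] at h2
        have ra : r ≠ a := fun e => H.rL (e ▸ ha)
        simp only [tri, mem_insert, mem_singleton, Sym2.eq_iff] at h2
        rcases h2 with (⟨_, h2⟩ | ⟨h2, _⟩) | (⟨h2, _⟩ | ⟨h2, _⟩) | (⟨h2, _⟩ | ⟨_, h2⟩)
        · exact absurd h2.symm hhs
        · exact absurd h2 H.rh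
        · exact absurd h2 H.rh
        · exact absurd h2 ra
        · exact absurd h2 ra
        · exact h2
      subst has
      refine ⟨hm (by rw [hZe]; simp [tri]) n1, Or.inl (hm (by rw [hZe]; simp [tri]) ?_)⟩
      intro h3
      exact hhs (Sym2.congr_right.1 h3)
  rcases hb_edge hv hb he with ⟨h, L, H, hsL⟩ | ⟨h, L, H, hrL⟩ | ⟨L, H⟩
  · exact Or.inl ⟨h, L, H, hsL, key r s h L H hsL hrZ hm⟩
  · exact Or.inr (Or.inl ⟨h, L, H, hrL, key s r h L H hrL (by rw [Sym2.eq_swap]; exact hrZ)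
      (fun h1 h2 => hm h1 (by rw [Sym2.eq_swap]; exact h2))⟩)
  · refine Or.inr (Or.inr ?_)
    rcases H.sh hv hZ hZc with ⟨a, b, ha, hb, hab, hZe⟩ | ⟨a, ha, hZe⟩
    · exfalso
      have ra : r ≠ a := fun e => H.rL (e ▸ ha)
      have rb : r ≠ b := fun e => H.rL (e ▸ hb)
      have sa : s ≠ a := fun e => H.hL (e ▸ ha)
      have sb : s ≠ b := fun e => H.hL (e ▸ hb)
      have h2 := hrZ
      rw [hZe] at h2
      simp only [TFC.sq, mem_insert, mem_singleton, Sym2.eq_iff] at h2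
      rcases h2 with (⟨_, h2⟩ | ⟨h2, _⟩) | (⟨h2, _⟩ | ⟨_, h2⟩) | (⟨h2, _⟩ | ⟨h2, _⟩) | (⟨h2, _⟩ | ⟨_, h2⟩)
      · exact sa h2
      · exact ra h2
      · exact ra h2
      · exact sa h2
      · exact H.rh h2
      · exact rb h2
      · exact rb h2
      · exact sb h2
    · have ra : r ≠ a := fun e => H.rL (e ▸ ha)
      have sa : s ≠ a := fun e => H.hL (e ▸ ha)
      refine ⟨L, a, H, ha, hm (by rw [hZe]; simp [tri, Sym2.eq_swap]) ?_, hm (by rw [hZe]; simp [tri]) ?_⟩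
      · intro h3; exact sa (Sym2.congr_right.1 h3).symm
      · intro h3
        rw [Sym2.eq_iff] at h3
        rcases h3 with ⟨h3, _⟩ | ⟨_, h3⟩
        · exact H.rh h3.symm
        · exact ra h3.symm

end

end Pool.Agent.P34.YM

end

section -- file P34/YP3

/-!
Lemma P for triangles and squares: after the block, the state `r + s`.
-/

set_option autoImplicit false

namespace Pool.Agent.P34.YM

open Finset Pool.Agent.TFC Pool.Agent.PF4 Pool.Agent.PF4.LD Pool.Agent.PF4.XC Pool.Agent.PF4.XT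

section
variable {X : XD3} {P : ℕ → Finset (Sym2 ℕ) → Prop} {D : Finset (Finset (Sym2 ℕ))} {j m : ℕ} {S : Finset ℕ}
  {M : ℕ → Finset (Sym2 ℕ)} {CL U : List (Clu3 ℕ)} {PL : Finset (Sym2 ℕ)} {x y r s : ℕ} {Qc : Finset (Sym2 ℕ)}
  {c1 c2 : Clu3 ℕ} {L : Finset (Sym2 ℕ)} {Fc : Clu3 ℕ → Prop} {pl mi : ℕ → Prop}

/-- the state `L - xy + ys` -/
theorem BD.ysite (h : BD X P D j m S M CL U PL x y r s Qc c1 L Fc pl mi) (hc2 : c2 ∈ U) (ne : c2 ≠ c1)
    (hys : s(y, s) ∉ c2.edges) (hds : 1 ≤ dg (L ∩ c2.edges) s) :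
    ∃ τ, Disjoint c2.edges τ ∧ RC X.V2 pl mi (Fr3 D Fc) U PL L (ev s - ev x) τ := by
  have hs2 : Site U PL c1 c2.edges := Or.inl ⟨c2, hc2, ne, rfl⟩
  have e : -ev x - ev y + (ev y + ev s) = ev s - ev x := by module
  by_cases h1 : s(y, s) ∈ c1.edges
  · have h2 := h.symm.bx h1
    have e' : -ev y - ev x + (ev y + ev s) = ev s - ev x := by module
    rw [e'] at h2
    exact ⟨_, h.site_c1 hs2, h2⟩
  · obtain ⟨E2, hE2, he2⟩ := h.siteOf (wreg h.wa h.yS h.ys (by simp)) h1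
    have hne : E2 ≠ c2.edges := by
      rintro rfl
      exact hys he2
    have hd := h.site_disj hE2 hs2 hne
    have h3 := h.deg hd s
    have h4 := h.step h.b0 (h.site_c1 hE2) (h.symm.A0 hE2 he2 (by omega))
    rw [e] at h4
    exact ⟨_, Finset.disjoint_union_right.2 ⟨h.site_c1 hs2, hd.symm⟩, h4⟩

/-- **`xr` is not in the cluster of `rs`** -/
theorem BD.noxr (h : BD X P D j m S M CL U PL x y r s Qc c1 L (FL L) pl mi) (hc2 : c2 ∈ U) (ne : c2 ≠ c1)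
    (hrs : s(r, s) ∈ c2.edges) (hB : Bl D c2 (L ∩ c2.edges) r s) : s(x, r) ∉ c2.edges := by
  intro hxr
  have hx := h.nox hc2 ne
  have hy := h.symm.nox hc2 ne
  have hs2 : Site U PL c1 c2.edges := Or.inl ⟨c2, hc2, ne, rfl⟩
  have h0 := h.lo0 hc2 ne
  have hcap := h.cap hc2 ne
  have hds := hB.dgs h.pw.ish hcap.2
  have z0 : ph X.V2 pl mi 0 ≤ 0 := (ph_zero X.V2 pl mi).le
  -- `ys` in another place
  have end1 : s(y, s) ∉ c2.edges → GM X.V2 pl mi (Fr3 D (FL L)) U PL L c2.edges (ev x - ev s) → False := by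
    intro hys hg
    obtain ⟨τ, h1, h2⟩ := h.ysite hc2 ne hys hds
    exact h.fin (h.step h2 h1 hg) (α := 0) (β := 0) (Or.inl rfl) (Or.inl rfl) (by module)
  have end2 : s(y, s) ∉ c2.edges → GM X.V2 pl mi (Fr3 D (FL L)) U PL L c2.edges (ev x + ev s) → False := by
    intro hys hg
    obtain ⟨τ, h1, h2⟩ := h.ysite hc2 ne hys hds
    exact h.fin (h.step h2 h1 hg) (α := 0) (β := 2) (Or.inl rfl) (Or.inr rfl) (by module)
  rcases hB with ⟨hb, hN, hS⟩ | ⟨⟨Y, hY⟩, _, hs1, _⟩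
  · have hac : Fr3 D (FL L) c2 = NSh := Fr3_pos ⟨hb, hN⟩
    rcases blk_shape h0.val hb hN hS h0.sub hrs with ⟨g, Λ, H, hsL, hgs, hor⟩ | ⟨g, Λ, H, hrL, hgr, hor⟩ |
      ⟨Λ, a, H, ha, hra, hsa⟩
    · -- `r` a hub, `s` a leaf
      have ngs : g ≠ s := fun e => H.hL (e ▸ hsL)
      have nxg : x ≠ g := by
        rintro rfl
        exact hx _ hgs (by simp)
      have nyg : y ≠ g := by
        rintro rfl
        exact hy _ hgs (by simp)
      have hxL : x ∈ Λ := by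
        rcases H.edge hxr with ⟨h1 | h1, _⟩ | ⟨_, h1⟩ | ⟨h1, _⟩ | ⟨h1, _⟩
        · exact absurd h1 h.nxr
        · exact absurd h1 nxg
        · exact h1
        · exact absurd h1 h.nxr
        · exact absurd h1 nxg
      have hys : s(y, s) ∉ c2.edges := by
        intro h1
        rcases H.edge h1 with ⟨h2 | h2, _⟩ | ⟨h2 | h2, _⟩ | ⟨h2, _⟩ | ⟨h2, _⟩
        · exact h.nyr h2
        · exact nyg h2
        · exact h.nrs h2.symm
        · exact ngs h2.symm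
        · exact h.nyr h2
        · exact nyg h2
      refine end1 hys (gm_of hc2 ⟨insert s(x, g) ((L ∩ c2.edges).erase s(g, s)), ?_, ?_, 0, z0, ?_⟩)
      · refine insert_subset ?_ ((erase_subset _ _).trans inter_subset_right)
        rw [Sym2.eq_swap]; exact H.mem' hxL
      · rw [hac]
        exact nsh_pendant' (hN.mono (erase_subset _ _)) fun f hf => hx f (mem_of_mem_erase hf)
      · rw [TFC.dv_insert nxg (not_mem_of fun f hf => hx f (mem_of_mem_erase hf)), TFC.dv_erase ngs hgs]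
        module
    · -- `s` a hub, `r` a leaf
      rcases H.edge hxr with ⟨h1 | h1, _⟩ | ⟨h1 | h1, _⟩ | ⟨h1, _⟩ | ⟨h1, _⟩
      · exact h.nxs h1
      · rw [h1] at hx
        exact hx _ hgr (by simp)
      · exact h.nrs h1
      · exact H.hL (h1 ▸ hrL)
      · exact h.nxs h1
      · rw [h1] at hx
        exact hx _ hgr (by simp)
    · -- both hubs
      have hxL : x ∈ Λ := by
        rcases H.edge hxr with ⟨h1 | h1, _⟩ | ⟨_, h1⟩ | ⟨h1, _⟩ | ⟨h1, _⟩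
        · exact absurd h1 h.nxr
        · exact absurd h1 h.nxs
        · exact h1
        · exact absurd h1 h.nxr
        · exact absurd h1 h.nxs
      have hxs : s(x, s) ∈ c2.edges := by rw [Sym2.eq_swap]; exact H.mem' hxL
      by_cases hys : s(y, s) ∈ c2.edges
      · have hx2 : ∀ f ∈ insert s(y, s) (L ∩ c2.edges), x ∉ f := by
          intro f hf
          rcases mem_insert.1 hf with rfl | hf
          · rw [Sym2.mem_iff]; exact fun h' => h'.elim h.nxy h.nxs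
          · exact hx f hf
        have hg : GM X.V2 pl mi (Fr3 D (FL L)) U PL L c2.edges (ev x + ev s + (ev y + ev s)) := by
          refine gm_of hc2 ⟨insert s(x, s) (insert s(y, s) (L ∩ c2.edges)), ?_, ?_, 0, z0, ?_⟩
          · exact insert_subset hxs (insert_subset hys inter_subset_right)
          · rw [hac]
            exact nsh_pendant' (nsh_pendant' hN hy) hx2
          · rw [TFC.dv_insert h.nxs (not_mem_of hx2), TFC.dv_insert h.nys (not_mem_of hy)]; module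
        exact h.fin (h.step h.b0 (h.site_c1 hs2) hg) (α := 0) (β := 2) (Or.inl rfl) (Or.inr rfl) (by module)
      · refine end2 hys (gm_of hc2 ⟨insert s(x, s) (L ∩ c2.edges), insert_subset hxs inter_subset_right, ?_, 0, z0,
          ?_⟩)
        · rw [hac]
          exact nsh_pendant' hN hx
        · rw [TFC.dv_insert h.nxs (not_mem_of hx)]; module
  · -- `K4`
    have hxY : s(x, s) ∈ c2.edges := by
      rw [hY] at hxr hrs ⊢
      exact mem3_k4.2 ⟨(mem3_k4.1 hxr).1, (mem3_k4.1 hrs).2.1, h.nxs⟩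
    have hys : s(y, s) ∉ c2.edges := by
      intro h1
      apply h.nxyc hc2 ne
      rw [hY] at hxr h1 ⊢
      exact mem3_k4.2 ⟨(mem3_k4.1 hxr).1, (mem3_k4.1 h1).1, h.nxy⟩
    exact end2 hys (gm_of hc2 (h0.att_mv hx hxY hs1))

theorem BD.noys (h : BD X P D j m S M CL U PL x y r s Qc c1 L (FL L) pl mi) (hc2 : c2 ∈ U) (ne : c2 ≠ c1)
    (hrs : s(r, s) ∈ c2.edges) (hB : Bl D c2 (L ∩ c2.edges) r s) : s(y, s) ∉ c2.edges :=
  h.symm.noxr hc2 ne (by rw [Sym2.eq_swap]; exact hrs) hB.symm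

/-- **the state `r + s`**, in every frame of the witness -/
theorem BD.base2 (h : BD X P D j m S M CL U PL x y r s Qc c1 L Fc pl mi) (hc2 : c2 ∈ U) (ne : c2 ≠ c1)
    (hxr : s(x, r) ∉ c2.edges) (hys : s(y, s) ∉ c2.edges) (hdr : 1 ≤ dg (L ∩ c2.edges) r)
    (hds : 1 ≤ dg (L ∩ c2.edges) s) :
    ∃ τ, Disjoint c2.edges τ ∧ RC X.V2 pl mi (Fr3 D Fc) U PL L (ev r + ev s) τ := by
  have hs2 : Site U PL c1 c2.edges := Or.inl ⟨c2, hc2, ne, rfl⟩
  -- the site of `xr`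
  have xA : ∀ E1, Site U PL c1 E1 → s(x, r) ∈ E1 →
      GM X.V2 pl mi (Fr3 D Fc) U PL L E1 (ev x + ev r) ∧ Disjoint c2.edges E1 := by
    intro E1 hE1 he1
    have hne : E1 ≠ c2.edges := by
      rintro rfl
      exact hxr he1
    have hd := h.site_disj hE1 hs2 hne
    have h3 := h.deg hd r
    exact ⟨h.A0 hE1 he1 (by omega), hd.symm⟩
  have yA : ∀ E2, Site U PL c1 E2 → s(y, s) ∈ E2 →
      GM X.V2 pl mi (Fr3 D Fc) U PL L E2 (ev y + ev s) ∧ Disjoint c2.edges E2 := by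
    intro E2 hE2 he2
    have hne : E2 ≠ c2.edges := by
      rintro rfl
      exact hys he2
    have hd := h.site_disj hE2 hs2 hne
    have h3 := h.deg hd s
    exact ⟨h.symm.A0 hE2 he2 (by omega), hd.symm⟩
  have h2c := h.site_c1 hs2
  by_cases a : s(x, r) ∈ c1.edges
  · by_cases b : s(y, s) ∈ c1.edges
    · have hb := h.bxy a b
      have e : -ev x - ev y + (ev x + ev r) + (ev y + ev s) = ev r + ev s := by module
      rw [e] at hb
      exact ⟨_, h2c, hb⟩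
    · obtain ⟨E2, hE2, he2⟩ := h.siteOf (wreg h.wa h.yS h.ys (by simp)) b
      obtain ⟨g1, g2⟩ := yA E2 hE2 he2
      have hb := h.step (h.bx a) (h.site_c1 hE2) g1
      have e : -ev x - ev y + (ev x + ev r) + (ev y + ev s) = ev r + ev s := by module
      rw [e] at hb
      exact ⟨_, Finset.disjoint_union_right.2 ⟨h2c, g2⟩, hb⟩
  · obtain ⟨E1, hE1, he1⟩ := h.siteOf (wreg h.wa h.xS h.xr (by simp)) a
    obtain ⟨g1, g2⟩ := xA E1 hE1 he1
    by_cases b : s(y, s) ∈ c1.edges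
    · have hb := h.step (h.symm.bx b) (h.site_c1 hE1) g1
      have e : -ev y - ev x + (ev y + ev s) + (ev x + ev r) = ev r + ev s := by module
      rw [e] at hb
      exact ⟨_, Finset.disjoint_union_right.2 ⟨h2c, g2⟩, hb⟩
    · obtain ⟨E2, hE2, he2⟩ := h.siteOf (wreg h.wa h.yS h.ys (by simp)) b
      obtain ⟨g3, g4⟩ := yA E2 hE2 he2
      by_cases h12 : E1 = E2
      · subst h12
        have hdr1 := h.deg (h.site_disj hE1 hs2 (fun e => by subst e; exact hxr he1)) r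
        have hds1 := h.deg (h.site_disj hE1 hs2 (fun e => by subst e; exact hxr he1)) s
        have hg : GM X.V2 pl mi (Fr3 D Fc) U PL L E1 (ev x + ev r + (ev y + ev s)) := by
          rcases hE1 with ⟨c, hc, hc1, rfl⟩ | ⟨f, hf, rfl⟩
          · exact gm_of hc ((h.lo0 hc hc1).att2 (h.nox hc hc1) (h.symm.nox hc hc1) he1 he2 h.nxy h.nxs h.nyr h.nrs
              (by omega) (by omega))
          · exfalso
            rw [mem_singleton] at he1 he2
            rw [← he1, Sym2.eq_iff] at he2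
            rcases he2 with ⟨h1, _⟩ | ⟨h1, _⟩
            · exact h.nxy h1.symm
            · exact h.nyr h1
        have hb := h.step h.b0 (h.site_c1 hE1) hg
        have e : -ev x - ev y + (ev x + ev r + (ev y + ev s)) = ev r + ev s := by module
        rw [e] at hb
        exact ⟨_, Finset.disjoint_union_right.2 ⟨h2c, g2⟩, hb⟩
      · have d12 := h.site_disj hE1 hE2 h12
        have hb := h.step (h.step h.b0 (h.site_c1 hE1) g1)
          (Finset.disjoint_union_right.2 ⟨h.site_c1 hE2, d12.symm⟩) g3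
        have e : -ev x - ev y + (ev x + ev r) + (ev y + ev s) = ev r + ev s := by module
        rw [e] at hb
        exact ⟨_, Finset.disjoint_union_right.2 ⟨Finset.disjoint_union_right.2 ⟨h2c, g2⟩, g4⟩, hb⟩

/-- evaluation after a change in the second cluster -/
theorem BD.eval (h : BD X P D j m S M CL U PL x y r s Qc c1 L Fc pl mi) (hc2 : c2 ∈ U)
    (hR : ∃ τ, Disjoint c2.edges τ ∧ RC X.V2 pl mi (Fr3 D Fc) U PL L (ev r + ev s) τ) {F : Finset (Sym2 ℕ)}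
    (hF : F ⊆ c2.edges) (hA : Fr3 D Fc c2 F) {δ : ℕ → ℤ} (hδ : dv F = dv (L ∩ c2.edges) + δ) :
    1 ≤ ph X.V2 pl mi (ev r + ev s + δ) := by
  obtain ⟨τ, h1, h2⟩ := hR
  refine h.val (h.step h2 h1 (gm_of hc2 ⟨F, hF, hA, 0, (ph_zero _ _ _).le, ?_⟩))
  rw [hδ, add_zero]

end

end Pool.Agent.P34.YM

end

section -- file P34/YP4

/-!
**Lemma P for triangles and squares.** `Qc` a member of `D` with the edge `x y`, `r` and `s` not corners of `Qc`,
`x r`, `r s`, `s y` edges: the edge `r s` is in a cluster `c` which does not contain `Qc`, `x r`, `s y`, and every witness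
`L` of `Qc` is `Z - r s` in this cluster, `Z` a member of `D` with the edge `r s`.
-/

set_option autoImplicit false

namespace Pool.Agent.P34.YM

open Finset Pool.Agent.TFC Pool.Agent.PF4 Pool.Agent.PF4.LD Pool.Agent.PF4.XC Pool.Agent.PF4.XT

/-- three edges at a vertex of a 2-matching -/
theorem m2_three {L : Finset (Sym2 ℕ)} (hL : M2 L) {v a b c : ℕ} (h1 : s(v, a) ∈ L) (h2 : s(v, b) ∈ L)
    (h3 : s(v, c) ∈ L) (hab : a ≠ b) : c = a ∨ c = b := by
  by_contra hc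
  push Not at hc
  have h4 : ({s(v, a), s(v, b), s(v, c)} : Finset (Sym2 ℕ)) ⊆ L.filter fun e => v ∈ e := by
    intro e he
    simp only [mem_insert, mem_singleton] at he
    rw [Finset.mem_filter]
    rcases he with rfl | rfl | rfl
    · exact ⟨h1, by simp⟩
    · exact ⟨h2, by simp⟩
    · exact ⟨h3, by simp⟩
  have h5 := Finset.card_le_card h4
  have h6 := hL.le v
  rw [dg] at h6
  have h7 : #({s(v, a), s(v, b), s(v, c)} : Finset (Sym2 ℕ)) = 3 := by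
    rw [card_insert_of_notMem, card_insert_of_notMem, card_singleton]
    · rw [mem_singleton]
      exact fun h => hc.2 (Sym2.congr_right.1 h).symm
    · rw [mem_insert, mem_singleton, not_or]
      exact ⟨fun h => hab (Sym2.congr_right.1 h), fun h => hc.1 (Sym2.congr_right.1 h).symm⟩
  omega

section
variable {X : XD3} {P : ℕ → Finset (Sym2 ℕ) → Prop} {D : Finset (Finset (Sym2 ℕ))} {j m : ℕ} {S : Finset ℕ}
  {M : ℕ → Finset (Sym2 ℕ)} {CL U : List (Clu3 ℕ)} {PL : Finset (Sym2 ℕ)} {x y r s : ℕ} {Qc : Finset (Sym2 ℕ)}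
  {c1 c2 : Clu3 ℕ} {L : Finset (Sym2 ℕ)} {Fc : Clu3 ℕ → Prop} {pl mi : ℕ → Prop}

/-- the contradiction after a change in the second cluster -/
theorem BD.evf (h : BD X P D j m S M CL U PL x y r s Qc c1 L Fc pl mi) (hc2 : c2 ∈ U)
    (hR : ∃ τ, Disjoint c2.edges τ ∧ RC X.V2 pl mi (Fr3 D Fc) U PL L (ev r + ev s) τ) {F : Finset (Sym2 ℕ)}
    (hF : F ⊆ c2.edges) (hA : Fr3 D Fc c2 F) {δ : ℕ → ℤ} (hδ : dv F = dv (L ∩ c2.edges) + δ)
    {α β : ℤ} (hα : α = 0 ∨ α = 2) (hβ : β = 0 ∨ β = 2) (hd : ev r + ev s + δ = α • ev r + β • ev s) : False := by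
  obtain ⟨τ, h1, h2⟩ := hR
  refine h.fin (h.step h2 h1 (gm_of hc2 ⟨F, hF, hA, 0, (ph_zero _ _ _).le, ?_⟩)) hα hβ hd
  rw [hδ, add_zero]

/-- **only one edge at `r`** in the second cluster -/
theorem BD.oner (h : BD X P D j m S M CL U PL x y r s Qc c1 L (FL L) pl mi) (hc2 : c2 ∈ U) (ne : c2 ≠ c1)
    (hrs : s(r, s) ∈ c2.edges) (hB : Bl D c2 (L ∩ c2.edges) r s) : dg (L ∩ c2.edges) r ≤ 1 := by
  by_contra hcon
  have h0 := h.lo0 hc2 ne
  have hcap := h.cap hc2 ne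
  have hM := hcap.1
  have hR := h.base2 hc2 ne (h.noxr hc2 ne hrs hB) (h.noys hc2 ne hrs hB) (hB.dgr h.pw.ish hcap.2)
    (hB.dgs h.pw.ish hcap.2)
  have hnrs : s(r, s) ∉ L ∩ c2.edges := fun hc => h.rsL (mem_inter.1 hc).1
  rcases hB with ⟨hb, hN, hS⟩ | ⟨_, hr1, _⟩
  swap
  · exact hcon hr1
  have hac : Fr3 D (FL L) c2 = NSh := Fr3_pos ⟨hb, hN⟩
  rcases blk_shape h0.val hb hN hS h0.sub hrs with ⟨g, Λ, H, hsL, hgs, hor⟩ | ⟨g, Λ, H, hrL, hgr, hor⟩ |
    ⟨Λ, a, H, ha, hra, hsa⟩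
  · -- `r` a hub, `s` a leaf
    have ngs : g ≠ s := fun e => H.hL (e ▸ hsL)
    have key : ∃ m, m ∈ Λ ∧ m ≠ s ∧ s(r, m) ∈ L ∩ c2.edges ∧ s(g, m) ∉ L ∩ c2.edges := by
      rcases hor with h1 | ⟨a, ha, has, hra, hga⟩
      · obtain ⟨m, hmg, hm⟩ := exists_nbr_ne (z := L ∩ c2.edges) (v := r) (by omega) g
        have hms : m ≠ s := by rintro rfl; exact hnrs hm
        have hmL : m ∈ Λ := by
          rcases H.edge (mem_inter.1 hm).2 with ⟨_, h2⟩ | ⟨_, h2⟩ | ⟨_, h2⟩ | ⟨h2, _⟩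
          · exact h2
          · exact absurd h2 H.rL
          · exact absurd h2 hmg
          · exact absurd h2 H.rh
        refine ⟨m, hmL, hms, hm, fun hc => ?_⟩
        rcases m2_three hM (v := g) (a := r) (b := s) (c := m) (by rw [Sym2.eq_swap]; exact h1) hgs hc h.nrs
          with h2 | h2
        · exact H.rL (h2 ▸ hmL)
        · exact hms h2
      · obtain ⟨m, hma, hm⟩ := exists_nbr_ne (z := L ∩ c2.edges) (v := r) (by omega) a
        have hms : m ≠ s := by rintro rfl; exact hnrs hm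
        have hmg : m ≠ g := by
          rintro rfl
          rcases m2_three hM (v := m) (a := a) (b := s) (c := r) hga hgs (by rw [Sym2.eq_swap]; exact hm) has
            with h2 | h2
          · exact H.rL (h2 ▸ ha)
          · exact h.nrs h2
        have hmL : m ∈ Λ := by
          rcases H.edge (mem_inter.1 hm).2 with ⟨_, h2⟩ | ⟨_, h2⟩ | ⟨_, h2⟩ | ⟨h2, _⟩
          · exact h2
          · exact absurd h2 H.rL
          · exact absurd h2 hmg
          · exact absurd h2 H.rh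
        refine ⟨m, hmL, hms, hm, fun hc => ?_⟩
        rcases m2_three hM (v := g) (a := a) (b := s) (c := m) hga hgs hc has with h2 | h2
        · exact hma h2
        · exact hms h2
    obtain ⟨m, hmL, hms, hrm, hgm⟩ := key
    have nrm : r ≠ m := fun e => H.rL (e ▸ hmL)
    have ngm : g ≠ m := fun e => H.hL (e ▸ hmL)
    have hrm' : s(r, m) ∈ (L ∩ c2.edges).erase s(g, s) := by
      refine mem_erase.2 ⟨?_, hrm⟩
      rw [ne_eq, Sym2.eq_iff]
      rintro (⟨h1, _⟩ | ⟨h1, _⟩)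
      · exact H.rh h1
      · exact h.nrs h1
    have hmf : ∀ f ∈ ((L ∩ c2.edges).erase s(g, s)).erase s(r, m), m ∉ f := by
      rintro f hf ⟨w, rfl⟩
      have h1 := mem_erase.1 hf
      have h2 := (mem_erase.1 h1.2).2
      have h3 : w = r ∨ w = g := by
        rcases H.edge (mem_inter.1 h2).2 with ⟨h4 | h4, _⟩ | ⟨h4, _⟩ | ⟨h4, _⟩ | ⟨h4, _⟩
        · exact absurd h4.symm nrm
        · exact absurd h4.symm ngm
        · exact h4
        · exact absurd h4.symm nrm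
        · exact absurd h4.symm ngm
      rcases h3 with h4 | h4
      · subst h4; exact h1.1 Sym2.eq_swap
      · subst h4; exact hgm (by rw [Sym2.eq_swap]; exact h2)
    refine h.evf hc2 hR (F := insert s(m, g) (((L ∩ c2.edges).erase s(g, s)).erase s(r, m))) ?_ ?_
      (δ := -ev r - ev s) ?_ (α := 0) (β := 0) (Or.inl rfl) (Or.inl rfl) (by module)
    · refine insert_subset ?_ (((erase_subset _ _).trans (erase_subset _ _)).trans inter_subset_right)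
      rw [Sym2.eq_swap]; exact H.mem' hmL
    · rw [hac]
      exact nsh_pendant' (hN.mono ((erase_subset _ _).trans (erase_subset _ _))) hmf
    · rw [TFC.dv_insert ngm.symm (not_mem_of hmf), TFC.dv_erase nrm hrm', TFC.dv_erase ngs hgs]
      module
  · -- `r` a leaf
    obtain ⟨m, hmg, hm⟩ := exists_nbr_ne (z := L ∩ c2.edges) (v := r) (by omega) g
    have hms : m ≠ s := by rintro rfl; exact hnrs hm
    rcases H.edge (mem_inter.1 hm).2 with ⟨h2 | h2, _⟩ | ⟨h2 | h2, _⟩ | ⟨h2, _⟩ | ⟨_, h2⟩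
    · exact h.nrs h2
    · exact H.hL (h2 ▸ hrL)
    · exact hms h2
    · exact hmg h2
    · exact h.nrs h2
    · exact hms h2
  · -- both hubs
    obtain ⟨m, hma, hm⟩ := exists_nbr_ne (z := L ∩ c2.edges) (v := r) (by omega) a
    have hms : m ≠ s := by rintro rfl; exact hnrs hm
    have hmL : m ∈ Λ := by
      rcases H.edge (mem_inter.1 hm).2 with ⟨_, h2⟩ | ⟨_, h2⟩ | ⟨_, h2⟩ | ⟨h2, _⟩
      · exact h2
      · exact absurd h2 H.rL
      · exact absurd h2 hms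
      · exact absurd h2 h.nrs
    have nrm : r ≠ m := fun e => H.rL (e ▸ hmL)
    have nsm : s ≠ m := fun e => H.hL (e ▸ hmL)
    have nra : r ≠ a := fun e => H.rL (e ▸ ha)
    have nsa : s ≠ a := fun e => H.hL (e ▸ ha)
    have hsm : s(s, m) ∉ L ∩ c2.edges := by
      intro hc
      refine hN (TFC.sq r a s m) (Or.inr ⟨r, a, s, m, ⟨nra, h.nrs, nrm, nsa.symm, Ne.symm hma, nsm⟩, rfl⟩) ?_
      intro e he
      simp only [TFC.sq, mem_insert, mem_singleton] at he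
      rcases he with rfl | rfl | rfl | rfl
      · exact hra
      · rw [Sym2.eq_swap]; exact hsa
      · exact hc
      · rw [Sym2.eq_swap]; exact hm
    have hmf : ∀ f ∈ (L ∩ c2.edges).erase s(r, m), m ∉ f := by
      rintro f hf ⟨w, rfl⟩
      have h1 := mem_erase.1 hf
      have h3 : w = r ∨ w = s := by
        rcases H.edge (mem_inter.1 h1.2).2 with ⟨h4 | h4, _⟩ | ⟨h4, _⟩ | ⟨h4, _⟩ | ⟨h4, _⟩
        · exact absurd h4.symm nrm
        · exact absurd h4.symm nsm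
        · exact h4
        · exact absurd h4.symm nrm
        · exact absurd h4.symm nsm
      rcases h3 with h4 | h4
      · subst h4; exact h1.1 Sym2.eq_swap
      · subst h4; exact hsm (by rw [Sym2.eq_swap]; exact h1.2)
    refine h.evf hc2 hR (F := insert s(m, s) ((L ∩ c2.edges).erase s(r, m))) ?_ ?_
      (δ := ev s - ev r) ?_ (α := 0) (β := 2) (Or.inl rfl) (Or.inr rfl) (by module)
    · refine insert_subset ?_ ((erase_subset _ _).trans inter_subset_right)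
      rw [Sym2.eq_swap]; exact H.mem' hmL
    · rw [hac]
      exact nsh_pendant' (hN.mono (erase_subset _ _)) hmf
    · rw [TFC.dv_insert hms (not_mem_of hmf), TFC.dv_erase nrm hm]
      module

theorem BD.ones (h : BD X P D j m S M CL U PL x y r s Qc c1 L (FL L) pl mi) (hc2 : c2 ∈ U) (ne : c2 ≠ c1)
    (hrs : s(r, s) ∈ c2.edges) (hB : Bl D c2 (L ∩ c2.edges) r s) : dg (L ∩ c2.edges) s ≤ 1 :=
  h.symm.oner hc2 ne (by rw [Sym2.eq_swap]; exact hrs) hB.symm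

end

/-- the conclusion of Lemma P for one witness -/
structure PCon (X : XD3) (P : ℕ → Finset (Sym2 ℕ) → Prop) (D : Finset (Finset (Sym2 ℕ))) (j : ℕ) (r s : ℕ)
    (Qc : Finset (Sym2 ℕ)) (c : Clu3 ℕ) (L Z : Finset (Sym2 ℕ)) : Prop where
  rsL : s(r, s) ∉ L
  hZ : Z ∈ D
  rsZ : s(r, s) ∈ Z
  eq : L ∩ c.edges = Z.erase s(r, s)

section
variable {X : XD3} {P : ℕ → Finset (Sym2 ℕ) → Prop} {D : Finset (Finset (Sym2 ℕ))} {j m : ℕ} {S : Finset ℕ}
  {M : ℕ → Finset (Sym2 ℕ)} {CL U : List (Clu3 ℕ)} {PL : Finset (Sym2 ℕ)} {x y r s : ℕ} {Qc : Finset (Sym2 ℕ)}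
  {c1 c2 : Clu3 ℕ} {L : Finset (Sym2 ℕ)} {Fc : Clu3 ℕ → Prop} {pl mi : ℕ → Prop}

/-- the configuration of Lemma P -/
structure PHyp (X : XD3) (D : Finset (Finset (Sym2 ℕ))) (S : Finset ℕ) (x y r s : ℕ) (Qc : Finset (Sym2 ℕ)) :
    Prop where
  nxy : x ≠ y
  nrs : r ≠ s
  xS : x ∈ S
  yS : y ∈ S
  rS : r ∈ S
  sS : s ∈ S
  rT : r ∈ X.T
  sT : s ∈ X.T
  hQ : Qc ∈ D
  hxy : s(x, y) ∈ Qc
  hr : ∀ f ∈ Qc, r ∉ f
  hs : ∀ f ∈ Qc, s ∉ f
  xr : s(x, r) ∈ X.E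
  rs : s(r, s) ∈ X.E
  ys : s(y, s) ∈ X.E

theorem kd_of (wa : WA3 X P D j m S M CL U PL) :
    ∀ Y, Clu3.k4 Y ∈ U → ∀ Z, IsSq Z → Z ⊆ (Clu3.k4 Y).edges → Z ∈ D := by
  rintro Y hY Z ⟨a, b, c, d, h4, rfl⟩ hs
  have h1 := mem3_k4.1 (hs (by simp [TFC.sq] : s(a, b) ∈ TFC.sq a b c d))
  have h2 := mem3_k4.1 (hs (by simp [TFC.sq] : s(c, d) ∈ TFC.sq a b c d))
  exact wa.k4sq hY h4 h1.1 h1.2.1 h2.1 h2.2.1

/-- the data in a frame -/
theorem PHyp.bd (h : PHyp X D S x y r s Qc) (wa : WA3 X P D j m S M CL U PL) (hL : Wt3 X P D j Qc L) (c1U : c1 ∈ U)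
    (q1 : Qc ⊆ c1.edges) (fc : ∀ c ∈ U, Fc c → Hb c ∧ (c = c1 ∨ NSh (L ∩ c.edges))) (fb : ∀ c, Fc c → Hb c)
    (hw : PW3 X P D j S M (Fr3 D Fc) CL U PL pl mi) (hmi : ∀ w ∈ S, w ∈ X.T → mi w) :
    BD X P D j m S M CL U PL x y r s Qc c1 L Fc pl mi :=
  ⟨wa, h.nxy, h.nrs, h.xS, h.yS, h.rS, h.sS, h.rT, h.sT, h.hQ, h.hxy, h.hr, h.hs, h.xr, h.rs, h.ys, hL, c1U, q1,
    rs_notin wa h.nxy h.nrs h.xS h.yS h.rS h.hQ h.hxy h.hr h.hs h.xr h.rs h.ys hL c1U q1, kd_of wa, fc, fb, hw, hmi⟩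

/-- **Lemma P for one witness** -/
theorem PHyp.one (h : PHyp X D S x y r s Qc) (wa : WA3 X P D j m S M CL U PL) (hL : Wt3 X P D j Qc L)
    (c1U : c1 ∈ U) (q1 : Qc ⊆ c1.edges) :
    ∃ c ∈ U, c ≠ c1 ∧ s(r, s) ∈ c.edges ∧ s(x, r) ∉ c.edges ∧ s(y, s) ∉ c.edges ∧ dg (L ∩ c.edges) r = 1 ∧
      dg (L ∩ c.edges) s = 1 ∧ ∃ Z, PCon X P D j r s Qc c L Z := by
  obtain ⟨pl, mi, hw, hmi⟩ := wa.fr (FL L) fun c hc => hc.1
  have b1 : BD X P D j m S M CL U PL x y r s Qc c1 L (FL L) pl mi :=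
    h.bd wa hL c1U q1 (fun c _ hf => ⟨hf.1, Or.inr hf.2⟩) (fun c hf => hf.1) hw hmi
  obtain ⟨c, hc, ne, hrs, hB⟩ := b1.blk
  have hcap := b1.cap hc ne
  have n1 := b1.noxr hc ne hrs hB
  have n2 := b1.noys hc ne hrs hB
  have d1 := hB.dgr b1.pw.ish hcap.2
  have d2 := hB.dgs b1.pw.ish hcap.2
  have o1 := b1.oner hc ne hrs hB
  have o2 := b1.ones hc ne hrs hB
  refine ⟨c, hc, ne, hrs, n1, n2, by omega, by omega, ?_⟩
  obtain ⟨pl0, mi0, hw0, hmi0⟩ := wa.fr (fun _ => False) fun _ h => h.elim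
  have b0 : BD X P D j m S M CL U PL x y r s Qc c1 L (fun _ => False) pl0 mi0 :=
    h.bd wa hL c1U q1 (fun c _ hf => hf.elim) (fun c hf => hf.elim) hw0 hmi0
  have hR := b0.base2 hc ne n1 n2 d1 d2
  have hnrs : s(r, s) ∉ L ∩ c.edges := fun hcc => b1.rsL (mem_inter.1 hcc).1
  have hM : M2 (insert s(r, s) (L ∩ c.edges)) := m2_insert3 hcap.1 h.nrs o1 o2
  have key : ∃ Z ∈ D, Z ⊆ insert s(r, s) (L ∩ c.edges) := by
    by_contra hcon
    push Not at hcon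
    refine b0.evf hc hR (F := insert s(r, s) (L ∩ c.edges)) (insert_subset hrs inter_subset_right) ?_
      (δ := ev r + ev s) ?_ (α := 2) (β := 2) (Or.inr rfl) (Or.inr rfl) (by module)
    · rw [Fr3_neg fun h => h]
      exact ⟨hM, hcon⟩
    · rw [TFC.dv_insert h.nrs hnrs]; module
  obtain ⟨Z, hZ, hZs⟩ := key
  have hrsZ : s(r, s) ∈ Z := by
    by_contra hcon
    exact hcap.2 Z hZ ((subset_insert_iff_of_notMem hcon).1 hZs)
  have hZc : Z ⊆ c.edges := hZs.trans (insert_subset hrs inter_subset_right)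
  refine ⟨Z, b1.rsL, hZ, hrsZ, ?_⟩
  ext e
  rw [mem_erase]
  constructor
  · intro he
    refine ⟨fun h1 => hnrs (h1 ▸ he), ?_⟩
    obtain ⟨f, hf, v, hv, hvf⟩ := cl3_touch (hw.val hc) (hw.ish Z hZ) hZc (mem_inter.1 he).2
    exact shc hM (hw.ish Z hZ) hZs hf hvf (mem_insert_of_mem he) hv
  · rintro ⟨h1, h2⟩
    exact (mem_insert.1 (hZs h2)).resolve_left h1

/-- **the types**: in every frame where the witness is allowed, `r` and `s` are of type Z; the value of every change in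
the second cluster -/
theorem PHyp.ty (h : PHyp X D S x y r s Qc) (wa : WA3 X P D j m S M CL U PL) (hL : Wt3 X P D j Qc L)
    (c1U : c1 ∈ U) (q1 : Qc ⊆ c1.edges) (fc : ∀ c ∈ U, Fc c → Hb c ∧ (c = c1 ∨ NSh (L ∩ c.edges)))
    (fb : ∀ c, Fc c → Hb c) (hw : PW3 X P D j S M (Fr3 D Fc) CL U PL pl mi) (hmi : ∀ w ∈ S, w ∈ X.T → mi w)
    (hc2 : c2 ∈ U) (hrs : s(r, s) ∈ c2.edges) :
    (pl r ∧ mi r) ∧ (pl s ∧ mi s) ∧ ∀ F ⊆ c2.edges, Fr3 D Fc c2 F → ∀ δ : ℕ → ℤ, dv F = dv (L ∩ c2.edges) + δ →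
      1 ≤ ph X.V2 pl mi (ev r + ev s + δ) := by
  obtain ⟨c, hc, ne, hrs', n1, n2, d1, d2, -⟩ := h.one wa hL c1U q1
  have e := hw.eqc hc hc2 hrs' hrs
  subst e
  have b := h.bd wa hL c1U q1 fc fb hw hmi
  have hR := b.base2 hc ne n1 n2 (by omega) (by omega)
  have mr := hmi r h.rS h.rT
  have ms := hmi s h.sS h.sT
  have hv : 1 ≤ ph X.V2 pl mi (ev r + ev s) := by
    obtain ⟨τ, -, h2⟩ := hR
    exact b.val h2
  have e1 : ev r + ev s = Pi.single r 1 + Pi.single s 1 := by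
    rw [single_ev, single_ev]; simp
  rw [e1, ph_two (hw.sv r h.rS) (hw.sv s h.sS) h.nrs] at hv
  have g : ∀ v, mi v → ¬ pl v → con (pl v) (mi v) 1 = -1 := fun v h1 h2 => con_X h2 h1 1
  have pr : pl r := by
    by_contra hcon
    have := g r mr hcon
    have := con_one (pl s) (mi s)
    omega
  have ps : pl s := by
    by_contra hcon
    have := g s ms hcon
    have := con_one (pl r) (mi r)
    omega
  exact ⟨⟨pr, mr⟩, ⟨ps, ms⟩, fun F hF hA δ hδ => b.eval hc hR hF hA hδ⟩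

/-- **Lemma P** -/
theorem PHyp.lp (h : PHyp X D S x y r s Qc) (wa : WA3 X P D j m S M CL U PL) :
    ∃ c1 ∈ U, Qc ⊆ c1.edges ∧ ∃ c ∈ U, c ≠ c1 ∧ s(r, s) ∈ c.edges ∧ s(x, r) ∉ c.edges ∧ s(y, s) ∉ c.edges ∧
      ∀ L, Wt3 X P D j Qc L → ∃ Z, PCon X P D j r s Qc c L Z := by
  obtain ⟨pl, mi, hw, -⟩ := wa.fr (fun _ => False) fun _ h => h.elim
  obtain ⟨c1, c1U, q1⟩ := wcl wa h.hQ h.hxy h.xS (by simp)
  obtain ⟨L0, hL0⟩ : ∃ L, Wt3 X P D j Qc L := by
    obtain ⟨L, h1, h2, h3, h4, h5, h6⟩ := hw.witE Qc h.hQ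
    exact ⟨L, ⟨h1, h2, h3, h4, h5, h6⟩⟩
  obtain ⟨c, hc, ne, hrs, n1, n2, -⟩ := h.one wa hL0 c1U q1
  refine ⟨c1, c1U, q1, c, hc, ne, hrs, n1, n2, fun L hL => ?_⟩
  obtain ⟨c', hc', ne', hrs', -, -, -, -, Z, hZ⟩ := h.one wa hL c1U q1
  have e := hw.eqc hc' hc hrs' hrs
  subst e
  exact ⟨Z, hZ⟩

end

end Pool.Agent.P34.YM

end

section -- file P34/Cor3

/-!
# The corollary: no free corner

One world. `R = x y s r` is in `D`, `Q = x y q p` and `Z' = r s b a` are squares of the graph, all eight vertices have demand 2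
and near covers. Lemma M (for `R` and the far edge `p q` of `Q`) gives a member through `p q`; Lemma M for this member and the
far edge `x y` gives: `x` and `y` are not of type X. The same with `Z'` for `r`, `s`: so `R` has no corner of type X.
-/

set_option autoImplicit false

namespace Pool.Agent.P34

open Finset Pool.Agent.TFC Pool.Agent.PF4 Pool.Agent.PF4.LD Pool.Agent.PF4.XC Pool.Agent.PF4.XT
open Pool.Agent.PF4.XF (XD FitK Cv World WJ Av NC Rch dg_off mem_k4 mem_k2)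

/-- **Lemma P** (`YM.PHyp.lp`, `YM.PHyp.ty`), the part which is used here: `Z` in `D`, `x y` an edge of `Z`, `x y s r` a square of
the graph, `r`, `s` not in `Z` and of demand 2. For every witness of `Z` there is a member through `r s` whose other edges are in
the witness; and in the capped frame `r` and `s` are not of type X. -/
def LM3 (X : XD3) (P : ℕ → Finset (Sym2 ℕ) → Prop) (D : Finset (Finset (Sym2 ℕ))) (j : ℕ) (S : Finset ℕ)
    (M : ℕ → Finset (Sym2 ℕ)) (CL U : List (Clu3 ℕ)) (PL : Finset (Sym2 ℕ)) : Prop :=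
  ∀ Z ∈ D, ∀ x y r s : ℕ, s(x, y) ∈ Z → (∀ e ∈ Z, r ∉ e) → (∀ e ∈ Z, s ∉ e) → r ≠ s → x ∈ S → y ∈ S → r ∈ S → s ∈ S →
    r ∈ X.T → s ∈ X.T → s(x, r) ∈ X.E → s(r, s) ∈ X.E → s(y, s) ∈ X.E →
    (∀ L, Wt3 X P D j Z L → ∃ Z3 ∈ D, s(r, s) ∈ Z3 ∧ Z3 \ {s(r, s)} ⊆ L) ∧
    ∀ pl mi : ℕ → Prop, PW3 X P D j S M (Fr3 D fun _ => False) CL U PL pl mi → (∀ w ∈ S, w ∈ X.T → mi w) →
      pl r ∧ pl s

/-- a cycle through `r s`, the other edges in a witness of `Z`, avoids `Z` -/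
theorem cor_off {X : XD3} {P : ℕ → Finset (Sym2 ℕ) → Prop} {D : Finset (Finset (Sym2 ℕ))} {j : ℕ}
    (hD : ∀ Z ∈ D, IsSh Z) {Z L Z3 : Finset (Sym2 ℕ)} (hZ : Z ∈ D) (hL : Wt3 X P D j Z L) (h3 : Z3 ∈ D) {r s : ℕ}
    (hr : ∀ e ∈ Z, r ∉ e) (hs : ∀ e ∈ Z, s ∉ e) (he : s(r, s) ∈ Z3) (hsub : Z3 \ {s(r, s)} ⊆ L) {v : ℕ}
    (hv : ∃ f ∈ Z, v ∈ f) : ∀ e ∈ Z3, v ∉ e := by
  obtain ⟨f, hf, hvf⟩ := hv
  have vr : v ≠ r := by rintro rfl; exact hr f hf hvf
  have vs : v ≠ s := by rintro rfl; exact hs f hf hvf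
  -- an edge of `Z3` at `v` which is in `L` would be in `Z`
  have key : ∀ a, s(v, a) ∈ L → a ≠ r ∧ a ≠ s := by
    intro a ha
    have h1 := hL.at hD hZ hf hvf ha (by simp)
    constructor
    · rintro rfl; exact hr _ h1 (by simp)
    · rintro rfl; exact hs _ h1 (by simp)
  have mem : ∀ a b, s(a, b) ∈ Z3 → s(a, b) ≠ s(r, s) → s(a, b) ∈ L := fun a b h1 h2 =>
    hsub (Finset.mem_sdiff.2 ⟨h1, by rwa [Finset.mem_singleton]⟩)
  have nrs : ∀ {a b : ℕ}, a = v ∨ b = v → s(a, b) ≠ s(r, s) := by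
    rintro a b (rfl | rfl) h1 <;> rw [Sym2.eq_iff] at h1
    · rcases h1 with ⟨h1, _⟩ | ⟨h1, _⟩
      · exact vr h1
      · exact vs h1
    · rcases h1 with ⟨_, h1⟩ | ⟨_, h1⟩
      · exact vs h1
      · exact vr h1
  rcases isSh_first (hD Z3 h3) he with ⟨c, ⟨d1, d2, d3⟩, rfl⟩ | ⟨q, p, ⟨d1, d2, d3, d4, d5, d6⟩, rfl⟩
  · intro e he' hve
    rcases tri_vx ⟨e, he', hve⟩ with h | h | h
    · exact vr h
    · exact vs h
    · subst h
      exact (key s (by rw [Sym2.eq_swap]; exact mem s v (by simp [tri]) (nrs (Or.inr rfl)))).2 rfl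
  · intro e he' hve
    have h : v = r ∨ v = s ∨ v = q ∨ v = p := by
      simp only [TFC.sq, Finset.mem_insert, Finset.mem_singleton] at he'
      rcases he' with rfl | rfl | rfl | rfl <;> rw [Sym2.mem_iff] at hve <;> rcases hve with rfl | rfl <;> simp
    rcases h with h | h | h | h
    · exact vr h
    · exact vs h
    · subst h
      exact (key s (by rw [Sym2.eq_swap]; exact mem s v (by simp [TFC.sq]) (nrs (Or.inr rfl)))).2 rfl
    · subst h
      exact (key r (mem v r (by simp [TFC.sq]) (nrs (Or.inl rfl)))).1 rfl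

section
variable {X : XD3} {P : ℕ → Finset (Sym2 ℕ) → Prop} {D : Finset (Finset (Sym2 ℕ))} {j m : ℕ} {S : Finset ℕ}
  {M : ℕ → Finset (Sym2 ℕ)} {CL U : List (Clu3 ℕ)} {PL : Finset (Sym2 ℕ)}

/-- Lemma P gives `LM3` -/
theorem WA3.lm3 (w0 : WA3 X P D j m S M CL U PL) : LM3 X P D j S M CL U PL := by
  intro Z hZ x y r s hxy hr hs nrs xS yS rS sS rT sT h1 h2 h3
  obtain ⟨pl0, mi0, h0, -⟩ := w0.cap
  have nxy : x ≠ y := (h0.ish Z hZ).m2.nl.ne hxy
  have hP : YM.PHyp X D S x y r s Z := ⟨nxy, nrs, xS, yS, rS, sS, rT, sT, hZ, hxy, hr, hs, h1, h2, h3⟩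
  obtain ⟨c1, c1U, q1, c, hc, -, hrs, -, -, hall⟩ := hP.lp w0
  constructor
  · intro L hL
    obtain ⟨Z3, hZ3⟩ := hall L hL
    refine ⟨Z3, hZ3.hZ, hZ3.rsZ, ?_⟩
    intro e he
    obtain ⟨he1, he2⟩ := Finset.mem_sdiff.1 he
    rw [Finset.mem_singleton] at he2
    have h4 : e ∈ L ∩ c.edges := by rw [hZ3.eq, Finset.mem_erase]; exact ⟨he2, he1⟩
    exact (Finset.mem_inter.1 h4).1
  · intro pl mi hw hmi
    obtain ⟨L, hL⟩ := hw.wt hZ
    obtain ⟨⟨pr, -⟩, ⟨ps, -⟩, -⟩ := hP.ty w0 hL c1U q1 (fun _ _ h => h.elim) (fun _ h => h.elim) hw hmi hc hrs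
    exact ⟨pr, ps⟩

/-- **the ends of the common edge are not of type X** (capped frame) -/
theorem WA3.cor (w0 : WA3 X P D j m S M CL U PL) {R : Finset (Sym2 ℕ)} (hR : R ∈ D)
    {x y p q : ℕ} (hxy : s(x, y) ∈ R) (hp : ∀ e ∈ R, p ∉ e) (hq : ∀ e ∈ R, q ∉ e) (pq : p ≠ q) (hx : x ∈ S)
    (hy : y ∈ S) (pS : p ∈ S) (qS : q ∈ S) (tx : x ∈ X.T) (ty : y ∈ X.T) (tp : p ∈ X.T) (tq : q ∈ X.T)
    (e1 : s(x, p) ∈ X.E) (e2 : s(p, q) ∈ X.E) (e3 : s(y, q) ∈ X.E) {pl mi : ℕ → Prop}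
    (h : PW3 X P D j S M (Fr3 D fun _ => False) CL U PL pl mi) (hm : ∀ w ∈ S, w ∈ X.T → mi w) : pl x ∧ pl y := by
  have lm := w0.lm3
  have hne : x ≠ y := (h.ish R hR).m2.nl.ne hxy
  obtain ⟨h1, _⟩ := lm R hR x y p q hxy hp hq pq hx hy pS qS tp tq e1 e2 e3
  obtain ⟨L, hL⟩ := h.wt hR
  obtain ⟨Z3, hZ3, hpq, hs⟩ := h1 L hL
  have hxo := cor_off h.ish hR hL hZ3 hp hq hpq hs (v := x) ⟨_, hxy, by simp⟩
  have hyo := cor_off h.ish hR hL hZ3 hp hq hpq hs (v := y) ⟨_, hxy, by simp⟩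
  obtain ⟨_, h2⟩ := lm Z3 hZ3 p q x y hpq hxo hyo hne pS qS hx hy tx ty (by rwa [Sym2.eq_swap])
    (h.dE R hR hxy) (by rwa [Sym2.eq_swap])
  exact h2 pl mi h hm

/-- **the corollary** (letters: `R = sq x y s r ∈ D`, `Q = sq x y q p`, `Z' = sq r s b a` in the graph) -/
theorem WA3.cor3 (w0 : WA3 X P D j m S M CL U PL) {x y q p r s a b : ℕ}
    (hnd : [x, y, q, p, r, s, a, b].Nodup) (hv : ∀ v ∈ [x, y, q, p, r, s, a, b], v ∈ S ∧ v ∈ X.T)
    (hR : TFC.sq x y s r ∈ D) (hQE : TFC.sq x y q p ⊆ X.E) (hZE : TFC.sq r s b a ⊆ X.E) : False := by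
  obtain ⟨⟨xy, xq, xp, xr, xs, xa, xb⟩, ⟨yq, yp, yr, ys, ya, yb⟩, ⟨qp, qr, qs, qa, qb⟩, ⟨pr, ps, pa, pb⟩,
    ⟨rs, ra, rb⟩, ⟨sa, sb⟩, ab⟩ := nd8 hnd
  obtain ⟨xS, xT⟩ := hv x (by simp)
  obtain ⟨yS, yT⟩ := hv y (by simp)
  obtain ⟨qS, qT⟩ := hv q (by simp)
  obtain ⟨pS, pT⟩ := hv p (by simp)
  obtain ⟨rS, rT⟩ := hv r (by simp)
  obtain ⟨sS, sT⟩ := hv s (by simp)
  obtain ⟨aS, aT⟩ := hv a (by simp)
  obtain ⟨bS, bT⟩ := hv b (by simp)
  obtain ⟨pl, mi, h, hm⟩ := w0.cap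
  have hends : ∀ {e : Sym2 ℕ}, e ∈ TFC.sq x y s r → ∀ {v : ℕ}, v ∈ e → v = x ∨ v = y ∨ v = s ∨ v = r := by
    intro e he v hv
    simp only [TFC.sq, Finset.mem_insert, Finset.mem_singleton] at he
    rcases he with rfl | rfl | rfl | rfl <;> rw [Sym2.mem_iff] at hv <;> rcases hv with rfl | rfl <;> simp
  have hoff : ∀ v, v ≠ x → v ≠ y → v ≠ s → v ≠ r → ∀ e ∈ TFC.sq x y s r, v ∉ e := by
    intro v h1 h2 h3 h4 e he hv
    rcases hends he hv with h | h | h | h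
    · exact h1 h
    · exact h2 h
    · exact h3 h
    · exact h4 h
  obtain ⟨px, py⟩ := w0.cor hR (x := x) (y := y) (p := p) (q := q) (by simp [TFC.sq])
    (hoff p xp.symm yp.symm ps pr) (hoff q xq.symm yq.symm qs qr) qp.symm xS yS pS qS xT yT pT qT
    (hQE (by rw [TFC.sq, Sym2.eq_swap (a := p) (b := x)]; simp))
    (hQE (by rw [TFC.sq, Sym2.eq_swap (a := q) (b := p)]; simp)) (hQE (by simp [TFC.sq])) h hm
  obtain ⟨pr', ps'⟩ := w0.cor hR (x := r) (y := s) (p := a) (q := b)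
    (by rw [TFC.sq, Sym2.eq_swap (a := s) (b := r)]; simp)
    (hoff a xa.symm ya.symm sa.symm ra.symm) (hoff b xb.symm yb.symm sb.symm rb.symm) ab rS sS aS bS rT sT aT bT
    (hZE (by rw [TFC.sq, Sym2.eq_swap (a := a) (b := r)]; simp))
    (hZE (by rw [TFC.sq, Sym2.eq_swap (a := b) (b := a)]; simp)) (hZE (by simp [TFC.sq])) h hm
  -- the cluster of `R`
  obtain ⟨L, hL⟩ := h.wt hR
  have hxyW : s(x, y) ∈ Ucl3 U ∪ PL := h.rch x (XF.Rch.mono (r := 0) (Nat.zero_le 3) xS) _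
    (h.dE _ hR (by simp [TFC.sq])) (by simp)
  have hRc : ∃ c ∈ U, TFC.sq x y s r ⊆ c.edges := by
    rcases Finset.mem_union.1 hxyW with h1 | h1
    · obtain ⟨c, hc, hec⟩ := mem_Ucl3.1 h1
      exact ⟨c, hc, h.clz hR hc (by simp [TFC.sq]) hec⟩
    · exact absurd (by simp [TFC.sq]) (((h.pm _).1 h1).2 _ hR)
  obtain ⟨c, hc, hRc⟩ := hRc
  obtain ⟨z, ⟨e, he, hz⟩, -, z2⟩ := h.L1x hR hL hc hRc (h.fr_am c) (h.fr_out hR hL hc hRc fun _ _ _ hf => hf.elim)
  rcases hends he hz with rfl | rfl | rfl | rfl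
  · exact z2 px
  · exact z2 py
  · exact z2 ps'
  · exact z2 pr'

end

end Pool.Agent.P34

end

section -- file P34/P4b

/-!
# Two squares with six vertices, all of demand 2

The patterns `p4a` and `p4b`, from the theorem `T1` (`Pt3T1`), the theorem on a triangle and a square (`pt3TS2`), Lemma P and the
corollary (`WA3.cor3`).
-/

set_option autoImplicit false

namespace Pool.Agent.P34

open Finset Pool.Agent.TFC Pool.Agent.PF4 Pool.Agent.PF4.LD Pool.Agent.PF4.XC Pool.Agent.PF4.XT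

/-- **T1**: the two squares `Q = x y q p` and `R = x y s r`; a free corner `p`; near covers at `x`, `y`, `r`, `s` in the
first world, at all six vertices in the second world -/
def Pt3T1 : Prop :=
  ∀ (X₁ X₂ : XD3) (P₁ P₂ : ℕ → Finset (Sym2 ℕ) → Prop) (D₁ D₂ : Finset (Finset (Sym2 ℕ))) (j₁ m₁ j₂ m₂ : ℕ)
    (S₁ S₂ : Finset ℕ) (M : ℕ → Finset (Sym2 ℕ)),
    OW3 X₁ P₁ D₁ j₁ m₁ S₁ M → OW3 X₂ P₂ D₂ j₂ m₂ S₂ M → X₁.n = X₂.n → X₁.T = X₂.T →
    ∀ x y q p r s : ℕ, [x, y, q, p, r, s].Nodup → (∀ v ∈ [x, y, r, s], v ∈ S₁) →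
      (∀ v ∈ [x, y, q, p, r, s], v ∈ S₂) → TFC.sq x y q p ∈ D₁ → TFC.sq x y s r ∈ D₂ → TFC.sq x y s r ⊆ X₁.E →
      TFC.sq x y q p ⊆ X₂.E →
      (∀ u v c, s(u, v) ∈ TFC.sq x y s r → c ∉ ({x, y, s, r} : Finset ℕ) → tri u v c ∉ D₁) →
      (∀ u v c w z, [u, v, c, w, z].Nodup → tri u v c ∈ D₂ → (∀ t ∈ [u, v, c], t ∈ ({x, y, s, r} : Finset ℕ)) →
        TFC.sq u v w z ∈ D₁ → w ∈ S₂ → z ∈ S₂ → False) →
      (∀ v ∈ [x, y, q, r, s], v ∈ X₁.T) → p ∉ X₁.T → False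

/-- one world over the graph `G` -/
structure W0 (n : ℕ) (T : Finset ℕ) (G : Finset (Sym2 ℕ)) (M : ℕ → Finset (Sym2 ℕ)) (S : Finset ℕ)
    (X : XD3) (P : ℕ → Finset (Sym2 ℕ) → Prop) (D : Finset (Finset (Sym2 ℕ))) (j m : ℕ) : Prop where
  ow : OW3 X P D j m S M
  hn : X.n = n
  hT : X.T = T
  hG : X.E ⊆ G
  hE : ∀ e ∈ G, (∀ v ∈ e, v ∈ S) → e ∈ X.E

section
variable {n : ℕ} {T : Finset ℕ} {G : Finset (Sym2 ℕ)} {M : ℕ → Finset (Sym2 ℕ)} {V : Finset ℕ} {Q R : Finset (Sym2 ℕ)}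
  {S S₁ S₂ : Finset ℕ} {X X₁ X₂ : XD3} {P P₁ P₂ : ℕ → Finset (Sym2 ℕ) → Prop} {D D₁ D₂ : Finset (Finset (Sym2 ℕ))}
  {j m j₁ m₁ j₂ m₂ : ℕ}

theorem BW3.w01 (hb : BW3 n T G M V Q R) (hV : V ⊆ S) (hc : #(S \ V) ≤ 8) (hn : ∀ v ∈ S, v < n) :
    ∃ X P D j m, W0 n T G M S X P D j m ∧ Q ∈ D := by
  obtain ⟨X, P, D, j, m, h1, h2, h3, h4, h5, h6, _⟩ := hb.w1 S hV hc hn
  exact ⟨X, P, D, j, m, ⟨h1, h2, h3, h4, h6⟩, h5⟩

/-- the members are sets of edges of the graph, with end vertices less than `n` -/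
theorem W0.lt (w : W0 n T G M S X P D j m) {Z : Finset (Sym2 ℕ)} (hZ : Z ∈ D) {e : Sym2 ℕ} (he : e ∈ Z) {v : ℕ}
    (hv : v ∈ e) : v < n := w.hn ▸ w.ow.ok.lt e (w.ow.sqE hZ he) v hv

theorem W0.sub (w : W0 n T G M S X P D j m) {Z : Finset (Sym2 ℕ)} (hZ : Z ⊆ G) (hv : ∀ e ∈ Z, ∀ v ∈ e, v ∈ S) :
    Z ⊆ X.E := fun e he => w.hE e (hZ he) (hv e he)

/-- a triangle of one world and a square of the other one with exactly one common edge -/
theorem ts0 (w1 : W0 n T G M S₁ X₁ P₁ D₁ j₁ m₁) (w2 : W0 n T G M S₂ X₂ P₂ D₂ j₂ m₂) {x y c r s : ℕ}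
    (hd : [x, y, c, r, s].Nodup) (h1 : ∀ v ∈ [x, y, r, s], v ∈ S₁) (h2 : ∀ v ∈ [x, y, c], v ∈ S₂)
    (ht : tri x y c ∈ D₁) (hq : TFC.sq x y r s ∈ D₂) : False := by
  refine pt3TS2 X₁ X₂ P₁ P₂ D₁ D₂ j₁ m₁ j₂ m₂ S₁ S₂ M w1.ow w2.ow (w1.hn.trans w2.hn.symm) (w1.hT.trans w2.hT.symm)
    x y c r s hd (h1 x (by simp)) (h1 y (by simp)) (h1 r (by simp)) (h1 s (by simp)) (h2 x (by simp))
    (h2 y (by simp)) (h2 c (by simp)) ht hq (w1.sub ((w2.ow.sqE hq).trans w2.hG) fun e he v hv => ?_)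
    (w2.sub ((w1.ow.sqE ht).trans w1.hG) fun e he v hv => ?_)
  · rcases sq_ends he hv with rfl | rfl | rfl | rfl
    · exact h1 _ (by simp)
    · exact h1 _ (by simp)
    · exact h1 _ (by simp)
    · exact h1 _ (by simp)
  · rcases tri_ends he hv with rfl | rfl | rfl
    · exact h2 _ (by simp)
    · exact h2 _ (by simp)
    · exact h2 _ (by simp)

/-- **(n1)**: no triangle of the first world shares exactly one edge with a square `R` which is in all families of the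
second world -/
theorem n1_of (hb : BW3 n T G M V Q R) (w1 : W0 n T G M S₁ X₁ P₁ D₁ j₁ m₁) {x y s r : ℕ}
    (h4 : Dist4 x y s r) (hR : R = TFC.sq x y s r) (hV : ∀ v ∈ ({x, y, s, r} : Finset ℕ), v ∈ V ∧ v ∈ S₁) :
    ∀ u v c, s(u, v) ∈ TFC.sq x y s r → c ∉ ({x, y, s, r} : Finset ℕ) → tri u v c ∉ D₁ := by
  intro u v c huv hc ht
  obtain ⟨w, z, ⟨a1, a2, a3, a4, a5, a6⟩, hq, hset⟩ := XF.sq_at' h4 huv
  have hcn : c < n := w1.lt ht (e := s(v, c)) (by simp [tri]) (by simp)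
  obtain ⟨X₂, P₂, D₂, j₂, m₂, w2, hR2⟩ := hb.swap.w01 (S := insert c V) (Finset.subset_insert _ _)
    ((Finset.card_le_card (t := {c}) (by
      intro t ht
      rw [Finset.mem_sdiff, Finset.mem_insert] at ht
      rw [Finset.mem_singleton]
      exact ht.1.resolve_right ht.2)).trans (by simp))
    (fun t ht => (Finset.mem_insert.1 ht).elim (fun h => h ▸ hcn) (hb.lt t))
  rw [hset] at hV hc
  simp only [Finset.mem_insert, Finset.mem_singleton, not_or] at hc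
  have hd : [u, v, c, w, z].Nodup := by
    simp only [List.nodup_cons, List.mem_cons, List.not_mem_nil, or_false, not_or, List.nodup_nil, and_true,
      not_false_eq_true]
    exact ⟨⟨a1, fun h => hc.1 h.symm, a2, a3⟩, ⟨fun h => hc.2.1 h.symm, a4, a5⟩, ⟨hc.2.2.1, hc.2.2.2⟩, a6⟩
  refine ts0 w1 w2 hd (fun t ht => (hV t ?_).2) (fun t ht => ?_) ht (r := w) (s := z) ?_
  · simpa using ht
  · simp only [List.mem_cons, List.not_mem_nil, or_false] at ht
    rcases ht with rfl | rfl | rfl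
    · exact Finset.mem_insert_of_mem (hV _ (by simp)).1
    · exact Finset.mem_insert_of_mem (hV _ (by simp)).1
    · exact Finset.mem_insert_self _ _
  · rw [← hq, ← hR]; exact hR2

/-- **(n2)**: no triangle of the second world with its corners in a set where the first world has near covers shares
exactly one edge with a square of the first world -/
theorem n2_of (w1 : W0 n T G M S₁ X₁ P₁ D₁ j₁ m₁) (w2 : W0 n T G M S₂ X₂ P₂ D₂ j₂ m₂) {V' : Finset ℕ}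
    (h1 : V' ⊆ S₁) (h2 : V' ⊆ S₂) :
    ∀ u v c w z, [u, v, c, w, z].Nodup → tri u v c ∈ D₂ → (∀ t ∈ [u, v, c], t ∈ V') →
        TFC.sq u v w z ∈ D₁ → w ∈ S₂ → z ∈ S₂ → False := by
  intro u v c w z hd ht hV hq hw hz
  refine ts0 w2 w1 hd (fun t ht => ?_) (fun t ht => h1 (hV t ht)) ht hq
  simp only [List.mem_cons, List.not_mem_nil, or_false] at ht
  rcases ht with rfl | rfl | rfl | rfl
  · exact h2 (hV _ (by simp))
  · exact h2 (hV _ (by simp))
  · exact hw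
  · exact hz

/-- **T1** for two worlds over the same graph -/
theorem t1_of (h1 : Pt3T1) (hb : BW3 n T G M V Q R) (w1 : W0 n T G M S₁ X₁ P₁ D₁ j₁ m₁)
    (w2 : W0 n T G M S₂ X₂ P₂ D₂ j₂ m₂) {x y q p r s : ℕ} (hd : [x, y, q, p, r, s].Nodup)
    (hR : R = TFC.sq x y s r) (hV : ∀ v ∈ [x, y, r, s], v ∈ V ∧ v ∈ S₁) (hS : ∀ v ∈ [x, y, q, p, r, s], v ∈ S₂)
    (hQ1 : TFC.sq x y q p ∈ D₁) (hR2 : TFC.sq x y s r ∈ D₂) (hT : ∀ v ∈ [x, y, q, r, s], v ∈ T) (hp : p ∉ T) :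
    False := by
  obtain ⟨⟨a1, a2, a3, a4, a5⟩, ⟨b1, b2, b3, b4⟩, ⟨c1, c2, c3⟩, ⟨d1, d2⟩, f1⟩ := XF.nodup6.1 hd
  have hV' : ∀ v ∈ ({x, y, s, r} : Finset ℕ), v ∈ V ∧ v ∈ S₁ := by
    intro v hv
    refine hV v ?_
    simp only [Finset.mem_insert, Finset.mem_singleton] at hv
    simp only [List.mem_cons, List.not_mem_nil, or_false]
    tauto
  refine h1 X₁ X₂ P₁ P₂ D₁ D₂ j₁ m₁ j₂ m₂ S₁ S₂ M w1.ow w2.ow (w1.hn.trans w2.hn.symm) (w1.hT.trans w2.hT.symm)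
    x y q p r s hd (fun v hv => (hV v hv).2) hS hQ1 hR2 (w1.sub ((w2.ow.sqE hR2).trans w2.hG) fun e he v hv => ?_)
    (w2.sub ((w1.ow.sqE hQ1).trans w1.hG) fun e he v hv => ?_)
    (n1_of hb w1 ⟨a1, a5, a4, b4, b3, f1.symm⟩ hR hV')
    (n2_of w1 w2 (fun v hv => (hV' v hv).2) fun v hv => hS v ?_) (by rw [w1.hT]; exact hT) (by rw [w1.hT]; exact hp)
  · have := hV' v (by simpa using sq_ends he hv)
    exact this.2
  · refine hS v ?_
    have := sq_ends he hv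
    simp only [List.mem_cons, List.not_mem_nil, or_false]
    tauto
  · simp only [Finset.mem_insert, Finset.mem_singleton] at hv
    simp only [List.mem_cons, List.not_mem_nil, or_false]
    tauto

end

/-- **p4b**, from T1 -/
theorem p4b_of (h1 : Pt3T1) :
    PtS6 fun T x y q p r s => x ∈ T ∧ y ∈ T ∧ r ∈ T ∧ s ∈ T ∧ q ∈ T ∧ p ∈ T := by
  rintro n T G M x y q p r s hd hb ⟨xT, yT, rT, sT, qT, pT⟩
  obtain ⟨⟨xy, xq, xp, xr, xs⟩, ⟨yq, yp, yr, ys⟩, ⟨qp, qr, qs⟩, ⟨pr, ps⟩, rs⟩ := XF.nodup6.1 hd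
  set V : Finset ℕ := {x, y, q, p, r, s} with hVd
  have xV : x ∈ V := by simp [hVd]
  have yV : y ∈ V := by simp [hVd]
  have qV : q ∈ V := by simp [hVd]
  have pV : p ∈ V := by simp [hVd]
  have rV : r ∈ V := by simp [hVd]
  have sV : s ∈ V := by simp [hVd]
  -- the first world
  obtain ⟨X₁, P₁, D₁, j₁, m₁, w1, hQ1⟩ := hb.w01 (S := V) (Finset.Subset.refl _) (by simp) hb.lt
  obtain ⟨CL, U, PL, a1⟩ := wa3_of w1.ow ⟨x, xV, by rw [w1.hT]; exact xT⟩
  obtain ⟨pl, mi, h, -⟩ := a1.cap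
  have hRE : TFC.sq x y r s ⊆ X₁.E := w1.sub hb.r fun e he v hv => by
    rcases sq_ends he hv with rfl | rfl | rfl | rfl
    · exact xV
    · exact yV
    · exact rV
    · exact sV
  have hoff : ∀ v, v ≠ x → v ≠ y → v ≠ q → v ≠ p → ∀ e ∈ TFC.sq x y q p, v ∉ e := by
    intro v h1 h2 h3 h4 e he hv
    rcases sq_ends he hv with h | h | h | h
    · exact h1 h
    · exact h2 h
    · exact h3 h
    · exact h4 h
  have hrQ := hoff r xr.symm yr.symm qr.symm pr.symm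
  have hsQ := hoff s xs.symm ys.symm qs.symm ps.symm
  obtain ⟨lm, -⟩ := a1.lm3 _ hQ1 x y s r (by simp [TFC.sq]) hsQ hrQ rs.symm xV yV sV rV (by rw [w1.hT]; exact sT)
    (by rw [w1.hT]; exact rT) (hRE (by rw [TFC.sq, Sym2.eq_swap (a := s) (b := x)]; simp))
    (hRE (by rw [TFC.sq, Sym2.eq_swap (a := r) (b := s)]; simp)) (hRE (by simp [TFC.sq]))
  obtain ⟨L, hL⟩ := h.wt hQ1
  obtain ⟨Z3, hZ3, hsr, hsub⟩ := lm L hL
  have off : ∀ v, (∃ f ∈ TFC.sq x y q p, v ∈ f) → ∀ e ∈ Z3, v ∉ e := fun v hv =>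
    cor_off h.ish hQ1 hL hZ3 hsQ hrQ hsr hsub hv
  have ox := off x ⟨s(x, y), by simp [TFC.sq], by simp⟩
  have oy := off y ⟨s(x, y), by simp [TFC.sq], by simp⟩
  have oq := off q ⟨s(q, p), by simp [TFC.sq], by simp⟩
  have op := off p ⟨s(q, p), by simp [TFC.sq], by simp⟩
  have hR1 : TFC.sq x y r s = TFC.sq s r y x := PF4.XT.sq_ref x y r s
  rcases isSh_first (h.ish Z3 hZ3) hsr with ⟨a, ⟨d1, d2, d3⟩, rfl⟩ | ⟨b, a, ⟨d1, d2, d3, d4, d5, d6⟩, rfl⟩
  · -- a triangle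
    have han : ∀ v, (∀ e ∈ tri s r a, v ∉ e) → a ≠ v := fun v h1 h2 => h1 s(r, a) (by simp [tri]) (by simp [h2])
    refine n1_of hb w1 (x := x) (y := y) (s := r) (r := s) ⟨xy, xr, xs, yr, ys, rs⟩ rfl ?_ s r a
      (by rw [hR1]; simp [TFC.sq]) ?_ hZ3
    · intro v hv
      simp only [Finset.mem_insert, Finset.mem_singleton] at hv
      rcases hv with rfl | rfl | rfl | rfl
      · exact ⟨xV, xV⟩
      · exact ⟨yV, yV⟩
      · exact ⟨rV, rV⟩
      · exact ⟨sV, sV⟩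
    · simp only [Finset.mem_insert, Finset.mem_singleton, not_or]
      exact ⟨han x ox, han y oy, d3.symm, d2.symm⟩
  · -- a square
    have hbn : ∀ v, (∀ e ∈ TFC.sq s r b a, v ∉ e) → b ≠ v := fun v h1 h2 =>
      h1 s(r, b) (by simp [TFC.sq]) (by simp [h2])
    have han : ∀ v, (∀ e ∈ TFC.sq s r b a, v ∉ e) → a ≠ v := fun v h1 h2 =>
      h1 s(b, a) (by simp [TFC.sq]) (by simp [h2])
    have hbn' : b < n := w1.lt hZ3 (e := s(r, b)) (by simp [TFC.sq]) (by simp)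
    have han' : a < n := w1.lt hZ3 (e := s(b, a)) (by simp [TFC.sq]) (by simp)
    have hVS : V ⊆ insert a (insert b V) := (Finset.subset_insert _ _).trans (Finset.subset_insert _ _)
    obtain ⟨X₂, P₂, D₂, j₂, m₂, w2, hR2⟩ := hb.swap.w01 (S := insert a (insert b V)) hVS
      ((Finset.card_le_card (t := {a, b}) (by
        intro t ht
        simp only [Finset.mem_sdiff, Finset.mem_insert] at ht
        simp only [Finset.mem_insert, Finset.mem_singleton]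
        tauto)).trans (Finset.card_le_two.trans (by norm_num)))
      (fun t ht => by
        simp only [Finset.mem_insert] at ht
        rcases ht with rfl | rfl | h
        · exact han'
        · exact hbn'
        · exact hb.lt t (by rw [hVd]; simpa [hVd] using h))
    have aS : a ∈ insert a (insert b V) := Finset.mem_insert_self _ _
    have bS : b ∈ insert a (insert b V) := Finset.mem_insert_of_mem (Finset.mem_insert_self _ _)
    by_cases aT : a ∈ T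
    · by_cases bT : b ∈ T
      · -- the corollary
        obtain ⟨CL', U', PL', a2⟩ := wa3_of w2.ow ⟨x, hVS xV, by rw [w2.hT]; exact xT⟩
        refine a2.cor3 (x := x) (y := y) (q := q) (p := p) (r := s) (s := r) (a := a) (b := b) ?_ ?_ hR2
          (w2.sub hb.q fun e he v hv => ?_) (w2.sub ((w1.ow.sqE hZ3).trans w1.hG) fun e he v hv => ?_)
        · simp only [List.nodup_cons, List.mem_cons, List.not_mem_nil, or_false, not_or, List.nodup_nil, and_true,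
            not_false_eq_true]
          exact ⟨⟨xy, xq, xp, xs, xr, (han x ox).symm, (hbn x ox).symm⟩,
            ⟨yq, yp, ys, yr, (han y oy).symm, (hbn y oy).symm⟩, ⟨qp, qs, qr, (han q oq).symm, (hbn q oq).symm⟩,
            ⟨ps, pr, (han p op).symm, (hbn p op).symm⟩, ⟨rs.symm, d3, d2⟩, ⟨d5, d4⟩, d6.symm⟩
        · intro v hv
          simp only [List.mem_cons, List.not_mem_nil, or_false] at hv
          rw [w2.hT]
          rcases hv with rfl | rfl | rfl | rfl | rfl | rfl | rfl | rfl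
          · exact ⟨hVS xV, xT⟩
          · exact ⟨hVS yV, yT⟩
          · exact ⟨hVS qV, qT⟩
          · exact ⟨hVS pV, pT⟩
          · exact ⟨hVS sV, sT⟩
          · exact ⟨hVS rV, rT⟩
          · exact ⟨aS, aT⟩
          · exact ⟨bS, bT⟩
        · rcases sq_ends he hv with rfl | rfl | rfl | rfl
          · exact hVS xV
          · exact hVS yV
          · exact hVS qV
          · exact hVS pV
        · rcases sq_ends he hv with rfl | rfl | rfl | rfl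
          · exact hVS sV
          · exact hVS rV
          · exact bS
          · exact aS
      · -- `b` is free
        refine t1_of h1 hb w1 w2 (x := r) (y := s) (q := a) (p := b) (r := y) (s := x) ?_ ?_ ?_ ?_ ?_ ?_ ?_ bT
        · simp only [List.nodup_cons, List.mem_cons, List.not_mem_nil, or_false, not_or, List.nodup_nil, and_true,
            not_false_eq_true]
          exact ⟨⟨rs, d5, d4, yr.symm, xr.symm⟩, ⟨d3, d2, ys.symm, xs.symm⟩, ⟨d6.symm, han y oy, han x ox⟩,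
            ⟨hbn y oy, hbn x ox⟩, xy.symm⟩
        · rw [hR1]; exact XF.sq_ref s r y x
        · intro v hv
          simp only [List.mem_cons, List.not_mem_nil, or_false] at hv
          rcases hv with rfl | rfl | rfl | rfl
          · exact ⟨rV, rV⟩
          · exact ⟨sV, sV⟩
          · exact ⟨yV, yV⟩
          · exact ⟨xV, xV⟩
        · intro v hv
          simp only [List.mem_cons, List.not_mem_nil, or_false] at hv
          rcases hv with rfl | rfl | rfl | rfl | rfl | rfl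
          · exact hVS rV
          · exact hVS sV
          · exact aS
          · exact bS
          · exact hVS yV
          · exact hVS xV
        · rw [← XF.sq_ref s r b a]; exact hZ3
        · rw [← XF.sq_ref s r y x, ← hR1]; exact hR2
        · intro v hv
          simp only [List.mem_cons, List.not_mem_nil, or_false] at hv
          rcases hv with rfl | rfl | rfl | rfl | rfl
          · exact rT
          · exact sT
          · exact aT
          · exact yT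
          · exact xT
    · -- `a` is free
      have bT : b ∈ T := by
        have h1 := (w1.ow.blk.hs _ hZ3).1
        rw [w1.hT] at h1
        rcases hs3_opp ⟨d1, d2, d3, d4, d5, d6⟩ h1 with h2 | h2
        · exact h2.2
        · exact absurd h2.2 aT
      refine t1_of h1 hb w1 w2 (x := s) (y := r) (q := b) (p := a) (r := x) (s := y) ?_ ?_ ?_ ?_ ?_ ?_ ?_ aT
      · simp only [List.nodup_cons, List.mem_cons, List.not_mem_nil, or_false, not_or, List.nodup_nil, and_true,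
          not_false_eq_true]
        exact ⟨⟨rs.symm, d2, d3, xs.symm, ys.symm⟩, ⟨d4, d5, xr.symm, yr.symm⟩, ⟨d6, hbn x ox, hbn y oy⟩,
          ⟨han x ox, han y oy⟩, xy⟩
      · exact hR1
      · intro v hv
        simp only [List.mem_cons, List.not_mem_nil, or_false] at hv
        rcases hv with rfl | rfl | rfl | rfl
        · exact ⟨sV, sV⟩
        · exact ⟨rV, rV⟩
        · exact ⟨xV, xV⟩
        · exact ⟨yV, yV⟩
      · intro v hv
        simp only [List.mem_cons, List.not_mem_nil, or_false] at hv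
        rcases hv with rfl | rfl | rfl | rfl | rfl | rfl
        · exact hVS sV
        · exact hVS rV
        · exact bS
        · exact aS
        · exact hVS xV
        · exact hVS yV
      · exact hZ3
      · rw [← hR1]; exact hR2
      · intro v hv
        simp only [List.mem_cons, List.not_mem_nil, or_false] at hv
        rcases hv with rfl | rfl | rfl | rfl | rfl
        · exact sT
        · exact rT
        · exact bT
        · exact xT
        · exact yT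

/-- **p4a**, from T1 -/
theorem p4a_of (h1 : Pt3T1) :
    PtS6 fun T x y q p r s => x ∈ T ∧ y ∈ T ∧ r ∈ T ∧ s ∈ T ∧ q ∈ T ∧ p ∉ T := by
  rintro n T G M x y q p r s hd hb ⟨xT, yT, rT, sT, qT, pT⟩
  obtain ⟨⟨xy, xq, xp, xr, xs⟩, ⟨yq, yp, yr, ys⟩, ⟨qp, qr, qs⟩, ⟨pr, ps⟩, rs⟩ := XF.nodup6.1 hd
  obtain ⟨X₁, P₁, D₁, j₁, m₁, w1, hQ1⟩ := hb.w01 (Finset.Subset.refl _) (by simp) hb.lt
  obtain ⟨X₂, P₂, D₂, j₂, m₂, w2, hR2⟩ := hb.swap.w01 (Finset.Subset.refl _) (by simp) hb.lt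
  refine t1_of h1 hb w1 w2 (x := x) (y := y) (q := q) (p := p) (r := s) (s := r) ?_ rfl ?_ ?_ hQ1 hR2 ?_ pT
  · simp only [List.nodup_cons, List.mem_cons, List.not_mem_nil, or_false, not_or, List.nodup_nil, and_true,
      not_false_eq_true]
    exact ⟨⟨xy, xq, xp, xs, xr⟩, ⟨yq, yp, ys, yr⟩, ⟨qp, qs, qr⟩, ⟨ps, pr⟩, rs.symm⟩
  · intro v hv
    simp only [List.mem_cons, List.not_mem_nil, or_false] at hv
    rcases hv with rfl | rfl | rfl | rfl <;> simp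
  · intro v hv
    simp only [List.mem_cons, List.not_mem_nil, or_false] at hv
    rcases hv with rfl | rfl | rfl | rfl | rfl | rfl <;> simp
  · intro v hv
    simp only [List.mem_cons, List.not_mem_nil, or_false] at hv
    rcases hv with rfl | rfl | rfl | rfl | rfl
    · exact xT
    · exact yT
    · exact qT
    · exact sT
    · exact rT

end Pool.Agent.P34

end

section -- file P34/YP5

/-!
Lemma P for triangles and squares: the forms used in the patterns.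
-/

set_option autoImplicit false

namespace Pool.Agent.P34.YM

open Finset Pool.Agent.TFC Pool.Agent.PF4 Pool.Agent.PF4.LD Pool.Agent.PF4.XC Pool.Agent.PF4.XT

section
variable {X : XD3} {P : ℕ → Finset (Sym2 ℕ) → Prop} {D : Finset (Finset (Sym2 ℕ))} {j m : ℕ} {S : Finset ℕ}
  {M : ℕ → Finset (Sym2 ℕ)} {CL U : List (Clu3 ℕ)} {PL : Finset (Sym2 ℕ)} {x y r s : ℕ} {Qc : Finset (Sym2 ℕ)}
  {c1 c2 : Clu3 ℕ} {L Z : Finset (Sym2 ℕ)} {Fc : Clu3 ℕ → Prop} {pl mi : ℕ → Prop}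

/-- vertices of `S ∩ T` have a near cover below, in every frame -/
theorem mi_of (wa : WA3 X P D j m S M CL U PL) (hw : PW3 X P D j S M (Fr3 D Fc) CL U PL pl mi)
    (fb : ∀ c, Fc c → Hb c) : ∀ w ∈ S, w ∈ X.T → mi w := by
  intro w hw' hT
  refine hw.mi' w hw' hT ⟨Finset.inter_subset_right, fun c hcU => ?_⟩
  rw [interW3 hcU]
  exact fr3_near wa.ow wa.cls fb hw' hT ((hw.uc c).1 hcU).1

/-- the witness has no short cycle in the cluster of `rs` -/
theorem PCon.nsh (h : PCon X P D j r s Qc c2 L Z) (hD : IsSh Z) : NSh (L ∩ c2.edges) := by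
  rw [h.eq]
  exact nsh_ssub hD (erase_subset _ _) fun h1 => notMem_erase s(r, s) Z (by rw [h1]; exact h.rsZ)

theorem PCon.sub (h : PCon X P D j r s Qc c2 L Z) : Z ⊆ insert s(r, s) (L ∩ c2.edges) := by
  rw [h.eq]
  intro e he
  rw [mem_insert, mem_erase]
  by_cases h1 : e = s(r, s)
  · exact Or.inl h1
  · exact Or.inr ⟨h1, he⟩

/-- everything at once, for every witness of `Qc` -/
structure PAll (X : XD3) (P : ℕ → Finset (Sym2 ℕ) → Prop) (D : Finset (Finset (Sym2 ℕ))) (j : ℕ) (S : Finset ℕ)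
    (M : ℕ → Finset (Sym2 ℕ)) (CL U : List (Clu3 ℕ)) (PL : Finset (Sym2 ℕ)) (r s : ℕ) (Qc : Finset (Sym2 ℕ))
    (c1 c : Clu3 ℕ) (L Z : Finset (Sym2 ℕ)) : Prop where
  rsL : s(r, s) ∉ L
  hZ : Z ∈ D
  rsZ : s(r, s) ∈ Z
  zc : Z ⊆ c.edges
  eq : L ∩ c.edges = Z.erase s(r, s)
  sub : Z ⊆ insert s(r, s) (L ∩ c.edges)
  dr : dg (L ∩ c.edges) r = 1
  ds : dg (L ∩ c.edges) s = 1
  nsh : NSh (L ∩ c.edges)
  /-- the types and all changes in the cluster of `rs`, in every frame in which the witness is allowed -/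
  ty : ∀ (Fc : Clu3 ℕ → Prop) (pl mi : ℕ → Prop), (∀ c, Fc c → Hb c) →
    (∀ c ∈ U, Fc c → c = c1 ∨ NSh (L ∩ c.edges)) → PW3 X P D j S M (Fr3 D Fc) CL U PL pl mi →
    (pl r ∧ mi r) ∧ (pl s ∧ mi s) ∧ ∀ F ⊆ c.edges, Fr3 D Fc c F → ∀ δ : ℕ → ℤ, dv F = dv (L ∩ c.edges) + δ →
      1 ≤ ph X.V2 pl mi (ev r + ev s + δ)

/-- **Lemma P, all conclusions** -/
theorem PHyp.all (h : PHyp X D S x y r s Qc) (wa : WA3 X P D j m S M CL U PL) :
    ∃ c1 ∈ U, Qc ⊆ c1.edges ∧ ∃ c ∈ U, c ≠ c1 ∧ s(r, s) ∈ c.edges ∧ s(x, r) ∉ c.edges ∧ s(y, s) ∉ c.edges ∧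
      ∀ L, Wt3 X P D j Qc L → ∃ Z, PAll X P D j S M CL U PL r s Qc c1 c L Z := by
  obtain ⟨c1, c1U, q1, c, hc, ne, hrs, n1, n2, -⟩ := h.lp wa
  refine ⟨c1, c1U, q1, c, hc, ne, hrs, n1, n2, fun L hL => ?_⟩
  obtain ⟨c', hc', -, hrs', -, -, d1, d2, Z, hZ⟩ := h.one wa hL c1U q1
  obtain ⟨pl, mi, hw, -⟩ := wa.fr (fun _ => False) fun _ h => h.elim
  have e := hw.eqc hc' hc hrs' hrs
  subst e
  refine ⟨Z, hZ.rsL, hZ.hZ, hZ.rsZ, hw.clz hZ.hZ hc' hZ.rsZ hrs', hZ.eq, hZ.sub, d1, d2,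
    hZ.nsh (hw.ish Z hZ.hZ), ?_⟩
  intro Fc pl mi fb fc hw
  exact h.ty wa hL c1U q1 (fun c hc hf => ⟨fb c hf, fc c hc hf⟩) fb hw (mi_of wa hw fb) hc' hrs'

/-- the form with the two squares -/
def LPH (X : XD3) (P : ℕ → Finset (Sym2 ℕ) → Prop) (D : Finset (Finset (Sym2 ℕ))) (j : ℕ) (S : Finset ℕ)
    (U : List (Clu3 ℕ)) : Prop :=
  ∀ x y q p r s : ℕ, [x, y, q, p, r, s].Nodup → x ∈ S → y ∈ S → r ∈ S → s ∈ S → x ∈ X.T → y ∈ X.T → r ∈ X.T →
    s ∈ X.T → TFC.sq x y q p ∈ D → s(x, r) ∈ X.E → s(r, s) ∈ X.E → s(y, s) ∈ X.E →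
    ∃ c ∈ U, s(r, s) ∈ c.edges ∧ s(x, r) ∉ c.edges ∧ s(y, s) ∉ c.edges ∧
      ∀ L, Wt3 X P D j (TFC.sq x y q p) L → s(r, s) ∉ L ∧ ∃ Z' ∈ D, s(r, s) ∈ Z' ∧
        Z' ⊆ insert s(r, s) (L ∩ c.edges)

theorem phyp_sq {q p : ℕ} (nd : [x, y, q, p, r, s].Nodup) (xS : x ∈ S) (yS : y ∈ S) (rS : r ∈ S) (sS : s ∈ S)
    (rT : r ∈ X.T) (sT : s ∈ X.T) (hQ : TFC.sq x y q p ∈ D) (xr : s(x, r) ∈ X.E) (rs : s(r, s) ∈ X.E)
    (ys : s(y, s) ∈ X.E) : PHyp X D S x y r s (TFC.sq x y q p) := by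
  simp only [List.nodup_cons, List.mem_cons, List.not_mem_nil, or_false, not_or, List.nodup_nil, and_true,
    not_false_eq_true] at nd
  obtain ⟨⟨nxy, nxq, nxp, nxr, nxs⟩, ⟨nyq, nyp, nyr, nys⟩, ⟨nqp, nqr, nqs⟩, ⟨npr, nps⟩, nrs⟩ := nd
  refine ⟨nxy, nrs, xS, yS, rS, sS, rT, sT, hQ, by simp [TFC.sq], ?_, ?_, xr, rs, ys⟩
  · intro f hf
    simp only [TFC.sq, mem_insert, mem_singleton] at hf
    rcases hf with rfl | rfl | rfl | rfl <;> simp only [Sym2.mem_iff, not_or] <;>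
      exact ⟨fun e => by subst e; tauto, fun e => by subst e; tauto⟩
  · intro f hf
    simp only [TFC.sq, mem_insert, mem_singleton] at hf
    rcases hf with rfl | rfl | rfl | rfl <;> simp only [Sym2.mem_iff, not_or] <;>
      exact ⟨fun e => by subst e; tauto, fun e => by subst e; tauto⟩

theorem lph (wa : WA3 X P D j m S M CL U PL) : LPH X P D j S U := by
  intro x y q p r s nd xS yS rS sS _ _ rT sT hQ xr rs ys
  obtain ⟨c1, c1U, q1, c, hc, ne, hrs, n1, n2, hall⟩ := (phyp_sq nd xS yS rS sS rT sT hQ xr rs ys).all wa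
  refine ⟨c, hc, hrs, n1, n2, fun L hL => ?_⟩
  obtain ⟨Z, hZ⟩ := hall L hL
  exact ⟨hZ.rsL, Z, hZ.hZ, hZ.rsZ, hZ.sub⟩

end

end Pool.Agent.P34.YM

end
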