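import Pool.Agent.PFN.M23
import Pool.Agent.PFN.M25

section -- file P34/V3a

/-!
# Pattern p4 for triangles and squares: tools

`nsh_p3`: a path between the ends of an edge of the cluster forbids short cycles in the cluster. `PW3.lemE`: a witness has
no short cycle in every other cluster with two centres at a corner which is not of type X. `PW3.e8`: the evaluation
`L - xy + xr + ys`.
-/

set_option autoImplicit false

namespace Pool.Agent.P34

open Finset Pool.Agent.TFC Pool.Agent.PF4 Pool.Agent.PF4.LD Pool.Agent.PF4.XC Pool.Agent.PF4.XT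
open Pool.Agent.PF4.XF (XD FitK Cv World WJ Av NC Rch dg_off mem_k4 mem_k2)

/-- a short cycle with a path of three edges is a square -/
theorem sh_close {Z : Finset (Sym2 ℕ)} (hZ : IsSh Z) {r e f s : ℕ} (h4 : Dist4 r e f s) (h1 : s(r, e) ∈ Z)
    (h2 : s(e, f) ∈ Z) (h3 : s(f, s) ∈ Z) : Z = TFC.sq r e f s := by
  obtain ⟨n1, n2, n3, n4, n5, n6⟩ := id h4
  rcases isSh_first hZ h2 with ⟨t, ⟨m1, m2, m3⟩, rfl⟩ | ⟨q, p, ⟨m1, m2, m3, m4, m5, m6⟩, rfl⟩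
  · exfalso
    simp only [tri, Finset.mem_insert, Finset.mem_singleton, Sym2.eq_iff] at h1 h3
    have h5 : r = t := by
      rcases h1 with (⟨g1, _⟩ | ⟨g1, _⟩) | (⟨_, g1⟩ | ⟨g1, _⟩) | (⟨g1, _⟩ | ⟨g1, _⟩)
      · exact absurd g1 n1
      · exact absurd g1 n2
      · exact absurd g1 m2
      · exact g1
      · exact g1
      · exact absurd g1 n1
    have h6 : s = t := by
      rcases h3 with (⟨g1, _⟩ | ⟨_, g1⟩) | (⟨_, g1⟩ | ⟨g1, _⟩) | (⟨g1, _⟩ | ⟨g1, _⟩)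
      · exact absurd g1 m1.symm
      · exact absurd g1 n5.symm
      · exact g1
      · exact absurd g1 m3
      · exact absurd g1 m3
      · exact absurd g1 m1.symm
    exact n3 (h5.trans h6.symm)
  · simp only [TFC.sq, Finset.mem_insert, Finset.mem_singleton, Sym2.eq_iff] at h1 h3
    have h5 : r = p := by
      rcases h1 with (⟨g1, _⟩ | ⟨g1, _⟩) | (⟨_, g1⟩ | ⟨_, g1⟩) | (⟨_, g1⟩ | ⟨_, g1⟩) | (⟨g1, _⟩ | ⟨g1, _⟩)
      · exact absurd g1 n1
      · exact absurd g1 n2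
      · exact absurd g1 m2
      · exact absurd g1 m1
      · exact absurd g1 m3
      · exact absurd g1 m2
      · exact g1
      · exact absurd g1 n1
    have h6 : s = q := by
      rcases h3 with (⟨g1, _⟩ | ⟨_, g1⟩) | (⟨_, g1⟩ | ⟨g1, _⟩) | (⟨g1, _⟩ | ⟨g1, _⟩) | (⟨g1, _⟩ | ⟨g1, _⟩)
      · exact absurd g1 m1.symm
      · exact absurd g1 n5.symm
      · exact g1
      · exact absurd g1 m4
      · exact absurd g1 m4
      · exact absurd g1 m5
      · exact absurd g1 m5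
      · exact absurd g1 m1.symm
    subst h5 h6
    rw [XT.sq_rot, XT.sq_rot, XT.sq_rot]

/-- a 2-matching which contains a path `r e f s` of a cluster, but not the edge `rs` of the cluster, has no short cycle in
the cluster -/
theorem nsh_p3 {L : Finset (Sym2 ℕ)} (hL : M2 L) {c : Clu3 ℕ} (hv : c.Valid) {r e f s : ℕ}
    (hp : P3 (L ∩ c.edges) r e f s) (hrs : s(r, s) ∉ L) (hc : s(r, s) ∈ c.edges) : NSh (L ∩ c.edges) := by
  intro S' hS' hs
  have hsL : S' ⊆ L := hs.trans Finset.inter_subset_left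
  have hsc : S' ⊆ c.edges := hs.trans Finset.inter_subset_right
  obtain ⟨h4, p1, p2, p3⟩ := hp
  have q1 := (Finset.mem_inter.1 p1).1
  have q2 := (Finset.mem_inter.1 p2).1
  have q3 := (Finset.mem_inter.1 p3).1
  have cl : ∀ {g g' : Sym2 ℕ} {z : ℕ}, g ∈ S' → z ∈ g → g' ∈ L → z ∈ g' → g' ∈ S' := fun hg hz hg' hz' =>
    shc hL hS' hsL hg hz hg' hz'
  have fin : s(r, e) ∈ S' → s(e, f) ∈ S' → s(f, s) ∈ S' → False := by
    intro e1 e2 e3
    have h5 := sh_close hS' h4 e1 e2 e3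
    exact hrs (hsL (by rw [h5, TFC.sq, Sym2.eq_swap (a := s) (b := r)]; simp))
  obtain ⟨g, hg, z, hz, hzg⟩ := cl3_touch hv hS' hsc hc
  rcases Sym2.mem_iff.1 hz with rfl | rfl
  · have e1 := cl hg hzg q1 (by simp)
    have e2 := cl e1 (z := e) (by simp) q2 (by simp)
    exact fin e1 e2 (cl e2 (z := f) (by simp) q3 (by simp))
  · have e3 := cl hg hzg q3 (by simp)
    have e2 := cl e3 (z := f) (by simp) q2 (by simp)
    exact fin (cl e2 (z := e) (by simp) q1 (by simp)) e2 e3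

/-- two neighbours of a corner -/
theorem sh_other {Z : Finset (Sym2 ℕ)} (hZ : IsSh Z) {e0 : Sym2 ℕ} (he0 : e0 ∈ Z) {v : ℕ} (hv : v ∈ e0) (e : ℕ) :
    ∃ v', v' ≠ e ∧ s(v, v') ∈ Z := by
  obtain ⟨w, rfl⟩ := Sym2.mem_iff_exists.1 hv
  by_cases h : w = e
  · obtain ⟨w', h1, h2⟩ := sh_two hZ he0
    exact ⟨w', fun h' => h1 (h'.trans h.symm), h2⟩
  · exact ⟨w, h, he0⟩

section
variable {X : XD3} {P : ℕ → Finset (Sym2 ℕ) → Prop} {D : Finset (Finset (Sym2 ℕ))} {j : ℕ} {S : Finset ℕ}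
  {M : ℕ → Finset (Sym2 ℕ)} {F : Clu3 ℕ → Prop} {CL U : List (Clu3 ℕ)} {PL : Finset (Sym2 ℕ)} {pl mi : ℕ → Prop}

/-- a short cycle of a cluster with two centres which is not in `D`: there is a leaf of type X which is not on it, all other
leaves are not of type X (all clusters capped) -/
theorem PW3.star3 (h : PW3 X P D j S M (Fr3 D fun _ => False) CL U PL pl mi) {c : Clu3 ℕ} (hc : c ∈ U) {u w : ℕ}
    {Lf : Finset ℕ} (hH : Hub c u w Lf) {G : Finset (Sym2 ℕ)} (hG : IsSh G) (hGc : G ⊆ c.edges) (hD : G ∉ D) :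
    ∃ e ∈ Lf, mi e ∧ ¬ pl e ∧ (∀ g ∈ G, e ∉ g) ∧ ∀ l ∈ Lf, l ≠ e → ¬ (mi l ∧ ¬ pl l) := by
  have hv := h.val hc
  have hO := h.fr_gdc hc fun _ _ _ hf => hf
  have hA : ACp3 D (Fr3 D fun _ => False) c := fr3_acp fun hf => hf
  have key : ∀ u w : ℕ, (c = Clu3.k2 u w Lf ∨ c = Clu3.k11 u w Lf) →
      ∃ e ∈ Lf, mi e ∧ ¬ pl e ∧ (∀ g ∈ G, e ∉ g) ∧ ∀ l ∈ Lf, l ≠ e → ¬ (mi l ∧ ¬ pl l) := by
    intro u w hcc
    have hHub : Hub c u w Lf := by
      rcases hcc with h1 | h1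
      · exact Or.inl h1
      · exact Or.inr (Or.inr (Or.inl h1))
    obtain ⟨uw, uL, wL⟩ := hHub.dist hv
    have hsh := hHub.sh hv hG hGc
    have fin : ∀ e, Star3 D u w Lf e → ((∀ l ∈ Lf, tri u w l ≠ G) ∨ tri u w e ∈ D) → ∀ g ∈ G, e ∉ g := by
      intro e hs ht g hg heg
      have eu : e ≠ u := fun h1 => uL (h1 ▸ hs.mem)
      have ew : e ≠ w := fun h1 => wL (h1 ▸ hs.mem)
      rcases hsh with ⟨_, l, hl, rfl⟩ | ⟨a, ha, b, hb, hab, rfl⟩
      · have el : e ≠ l := by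
          rintro rfl
          rcases ht with ht | ht
          · exact ht e hl rfl
          · exact hD ht
        rcases tri_vx ⟨g, hg, heg⟩ with h1 | h1 | h1
        · exact eu h1
        · exact ew h1
        · exact el h1
      · have ea : e ≠ a := by
          rintro rfl
          exact hD (hs.sq b hb hab.symm)
        have eb : e ≠ b := by
          rintro rfl
          exact hD (by rw [sq_swp3]; exact hs.sq a ha hab)
        rcases sq_vert hg heg with h1 | h1 | h1 | h1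
        · exact eu h1
        · exact ea h1
        · exact ew h1
        · exact eb h1
    rcases hcc with hcc | hcc
    · rcases h.shape2 hc hcc hO hA with h1 | ⟨e, h1, h2, h3, h4⟩
      · exfalso
        rcases hsh with ⟨g1 | g1, _⟩ | ⟨a, ha, b, hb, hab, rfl⟩
        · rw [hcc] at g1; exact absurd g1 (by simp)
        · rw [hcc] at g1; exact absurd g1 (by simp)
        · exact hD (h1 a ha b hb hab)
      · refine ⟨e, h1.mem, h2.1, h2.2, fin e h1 (Or.inl fun l hl hc' => ?_), h4⟩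
        rcases hsh with ⟨g1 | g1, _⟩ | ⟨a, ha, b, hb, hab, rfl⟩
        · rw [hcc] at g1; exact absurd g1 (by simp)
        · rw [hcc] at g1; exact absurd g1 (by simp)
        · exact tri_not_sq ⟨_, _, _, tri_hub uw uL wL hl, hc'.symm⟩ ⟨_, _, _, _, sq_hub uw uL wL ha hb hab, rfl⟩
    · rcases h.shape11 hc (Or.inl hcc) hO hA with ⟨h1, h2, _⟩ | ⟨e, h1, h2, h3, _, h5⟩
      · exfalso
        rcases hsh with ⟨_, l, hl, rfl⟩ | ⟨a, ha, b, hb, hab, rfl⟩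
        · exact hD (h1 l hl)
        · exact hD (h2 a ha b hb hab)
      · exact ⟨e, h1.mem, h3.1, h3.2, fin e h1 (Or.inr h2), h5⟩
  rcases hH with h1 | h1 | h1 | h1
  · exact key u w (Or.inl h1)
  · exact key w u (Or.inl h1)
  · exact key u w (Or.inr h1)
  · exact key w u (Or.inr h1)

/-- **Lemma E** (all clusters capped): a witness has no short cycle in every other cluster with two centres at a corner which
is not of type X -/
theorem PW3.lemE (h : PW3 X P D j S M (Fr3 D fun _ => False) CL U PL pl mi) {Z L : Finset (Sym2 ℕ)} (hZ : Z ∈ D)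
    (hL : Wt3 X P D j Z L) {c0 c' : Clu3 ℕ} (hc0 : c0 ∈ U) (hZc : Z ⊆ c0.edges) (hc' : c' ∈ U) (hne : c' ≠ c0)
    (hk : Hb c') {v t : ℕ} {e0 : Sym2 ℕ} (he0 : e0 ∈ Z) (hv : v ∈ e0) (hvt : s(v, t) ∈ c'.edges)
    (hX : ¬ (mi v ∧ ¬ pl v)) : NSh (L ∩ c'.edges) := by
  intro S' hS' hs
  have hsL : S' ⊆ L := hs.trans Finset.inter_subset_left
  have hsc : S' ⊆ c'.edges := hs.trans Finset.inter_subset_right
  have hval := h.val hc'
  have hout : ∀ g ∈ S', ∀ z, z ∈ g → ∀ f ∈ Z, z ∉ f := by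
    intro g hg z hz f hf hzf
    exact hne (h.eqc hc' hc0 (hsc hg) (hZc (hL.at h.ish hZ hf hzf (hsL hg) hz)))
  have hi : L ∩ c'.edges = S' := inter_eq3 hval hS' hsc hL.m2 hsL
  have hD : S' ∉ D := by
    intro hd
    have h1 := hL.uni _ hd hsL
    obtain ⟨g, hg⟩ := hS'.ne
    induction g using Sym2.ind with
    | _ a b => exact hout _ hg a (by simp) s(a, b) (by rw [← h1]; exact hg) (by simp)
  -- `v` is a leaf
  have iso : ∀ a, s(v, a) ∉ S' := fun a ha => hout _ ha v (by simp) e0 he0 hv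
  obtain ⟨w, Lf, b, hH, vL, uw, uL, wL, hb, bv, hsh⟩ := hub_sh hval hk hS' hsc hvt iso
  obtain ⟨e, he, e1, e2, eS, eX⟩ := h.star3 hc' hH hS' hsc hD
  have ev : e ≠ v := by rintro rfl; exact hX ⟨e1, e2⟩
  have bS : s(t, b) ∈ S' := by
    rcases hsh with rfl | ⟨_, _, _, _, rfl⟩
    · simp [tri]
    · simp [TFC.sq]
  have eb : e ≠ b := by rintro rfl; exact eS _ bS (by simp)
  obtain ⟨v', ve', hvv'⟩ := sh_other (h.ish Z hZ) he0 hv e
  have v'b : v' ≠ b := by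
    rintro rfl
    exact hout _ bS v' (by simp) _ hvv' (by simp)
  have nL : ∀ l ∈ Lf, l ≠ t ∧ l ≠ w := fun l hl => ⟨fun h => uL (h ▸ hl), fun h => wL (h ▸ hl)⟩
  have vt : v ≠ t := (nL v vL).1
  have vw : v ≠ w := (nL v vL).2
  obtain ⟨p1, p2⟩ := pth4_3 (D := D) h.ish (F := fun _ => False) (c := c') (v := v) (u := t) (e := e)
    (w := w) (b := b) (by
      simp only [List.nodup_cons, List.mem_cons, List.not_mem_nil, or_false, not_or, List.nodup_nil, and_true,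
        not_false_eq_true]
      exact ⟨⟨vt, ev.symm, vw, bv.symm⟩, ⟨(nL e he).1.symm, uw, (nL b hb).1.symm⟩, ⟨(nL e he).2, eb⟩,
        (nL b hb).2.symm⟩)
  have K0 := h.base hZ hL hc0 hZc (fun _ _ hf => hf.elim) (R := {s(v, v')}) (Finset.singleton_subset_iff.2 hvv')
    (by simp)
  have hFs : ({s(v, t), s(t, e), s(e, w), s(w, b)} : Finset (Sym2 ℕ)) ⊆ c'.edges := by
    intro f hf
    simp only [Finset.mem_insert, Finset.mem_singleton] at hf
    rcases hf with rfl | rfl | rfl | rfl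
    · exact hvt
    · exact (hH.mem he).1
    · rw [Sym2.eq_swap]; exact (hH.mem he).2
    · exact (hH.mem hb).2
  obtain ⟨K1, K2⟩ := h.rep hc' K0.1 (fun c'' h'' _ => K0.2 c'' h'') hFs p1
  have hKi : (L ∩ (Ucl3 U ∪ PL)) \ {s(v, v')} ∩ c'.edges = S' := by
    rw [← hi, ← h.interW hc' L]
    ext f
    simp only [Finset.mem_inter, Finset.mem_sdiff, Finset.mem_singleton]
    refine ⟨fun h1 => ⟨h1.1.1, h1.2⟩, fun h1 => ⟨⟨h1.1, ?_⟩, h1.2⟩⟩
    rintro rfl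
    exact hne (h.eqc hc' hc0 h1.2 (hZc hvv'))
  have hvW : s(v, v') ∈ L ∩ (Ucl3 U ∪ PL) := Finset.mem_inter.2 ⟨hL.sh hvv', h.cW hc0 (hZc hvv')⟩
  have vv' : v ≠ v' := h.ne (h.cW hc0 (hZc hvv'))
  have t2 : ∀ z : ℕ, (Pi.single z 2 : ℕ → ℤ) = Pi.single z 1 + Pi.single z 1 := fun z => by
    rw [← Pi.single_add]; norm_num
  have t3 : ∀ z : ℕ, (Pi.single z (-2) : ℕ → ℤ) = -(Pi.single z 1 + Pi.single z 1) := fun z => by
    rw [← Pi.single_add, ← Pi.single_neg]; norm_num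
  have t4 : ∀ z : ℕ, (Pi.single z (-1) : ℕ → ℤ) = -Pi.single z 1 := fun z => by rw [← Pi.single_neg]
  have hV : ∀ {l : ℕ}, l ∈ Lf → l ∈ X.V2 := fun {l} hl => h.v2 (h.cW hc' (hH.mem hl).1) (by simp)
  have g1 : con (pl e) (mi e) 2 = -2 := con_X e2 e1 2
  have g2 := con_neg_one (pl b) (mi b)
  have g3 := con_neg_one (pl v') (mi v')
  have hv'V : v' ∈ X.V2 := h.v2 (h.cW hc0 (hZc hvv')) (by simp)
  rcases hsh with hsh | ⟨c, hc, cv, bc, hsh⟩
  · have dq := dv_tri (a := t) (b := b) (c := w) ⟨(nL b hb).1.symm, uw, (nL b hb).2⟩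
    simp only [ev_single] at dq
    have h4 := h.ev hZ hL hc0 hZc K1 (d := Pi.single e 2 + Pi.single b (-1) + Pi.single v' (-1)) (by
      rw [K2, hKi, hsh, dv_sdiff (Finset.singleton_subset_iff.2 hvW), dv_pair vv', dq, p2, t2 e, t4 b, t4 v']
      abel)
    rw [ph_three (hV he) (hV hb) hv'V eb ve'.symm v'b.symm] at h4
    omega
  · have v'c : v' ≠ c := by
      rintro rfl
      exact hout s(v', t) (by rw [hsh]; simp [TFC.sq]) v' (by simp) _ hvv' (by simp)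
    have ec : e ≠ c := by
      rintro rfl
      exact eS s(e, t) (by rw [hsh]; simp [TFC.sq]) (by simp)
    have d4 : Dist4 t b w c := ⟨(nL b hb).1.symm, uw, (nL c hc).1.symm, (nL b hb).2, bc, (nL c hc).2.symm⟩
    have dq := dv_sq d4
    simp only [ev_single] at dq
    have h4 := h.ev hZ hL hc0 hZc K1
      (d := Pi.single e 2 + Pi.single b (-1) + Pi.single c (-2) + Pi.single v' (-1)) (by
        rw [K2, hKi, hsh, dv_sdiff (Finset.singleton_subset_iff.2 hvW), dv_pair vv', dq, p2, t2 e, t3 c, t4 b, t4 v']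
        abel)
    rw [ph_four (hV he) (hV hb) (hV hc) hv'V eb ec ve'.symm bc v'b.symm v'c.symm] at h4
    have g4 : con (pl c) (mi c) (-2) ≤ 0 := by
      by_contra hcon
      obtain ⟨h5, h6⟩ := con_neg_two (p := pl c) (m := mi c) (by omega)
      exact eX c hc ec.symm ⟨h5, h6⟩
    omega

/-- **the evaluation for the types**: `L - xy + xr + ys`, `xr` and `ys` not in the cluster `c2` of the path -/
theorem PW3.e8 (h : PW3 X P D j S M (Fr3 D F) CL U PL pl mi) {x y q p r s e f : ℕ} (nd : [x, y, q, p, r, s].Nodup)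
    (hQ : TFC.sq x y q p ∈ D) {L : Finset (Sym2 ℕ)} (hL : Wt3 X P D j (TFC.sq x y q p) L) {c1 c2 : Clu3 ℕ}
    (hc1 : c1 ∈ U) (hQ1 : TFC.sq x y q p ⊆ c1.edges) (hc2 : c2 ∈ U) (hp : P3 (L ∩ c2.edges) r e f s)
    (hF : ∀ c ∈ U, F c → c ≠ c1 → NSh (L ∩ c.edges)) (hxr : s(x, r) ∈ Ucl3 U ∪ PL) (hys : s(y, s) ∈ Ucl3 U ∪ PL)
    (h1 : s(x, r) ∉ c2.edges) (h2 : s(y, s) ∉ c2.edges) :
    1 ≤ con (pl r) (mi r) 1 + con (pl s) (mi s) 1 := by
  obtain ⟨⟨xy, xq, xp, xr, xs⟩, ⟨yq, yp, yr, ys⟩, ⟨qp, qr, qs⟩, ⟨pr, ps⟩, rs⟩ := nd6 nd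
  have hxy : s(x, y) ∈ TFC.sq x y q p := by simp [TFC.sq]
  have K0 := h.base hQ hL hc1 hQ1 hF (R := {s(x, y)}) (Finset.singleton_subset_iff.2 hxy) (by simp)
  -- edges at `x`, `y` in `L` are edges of `Q`
  have hx : ∀ g ∈ L, x ∈ g → g ∈ TFC.sq x y q p := fun g hg hxg => hL.at h.ish hQ hxy (by simp) hg hxg
  have hy : ∀ g ∈ L, y ∈ g → g ∈ TFC.sq x y q p := fun g hg hyg => hL.at h.ish hQ hxy (by simp) hg hyg
  have hLc : L ∩ c1.edges = TFC.sq x y q p := inter_eq3 (h.val hc1) (h.ish _ hQ) hQ1 hL.m2 hL.sh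
  obtain ⟨hd, p1, p2, p3⟩ := hp
  rw [Finset.mem_inter] at p1 p2 p3
  have hout : ∀ g ∈ L, g ∈ c1.edges → r ∉ g ∧ s ∉ g := by
    intro g hg hgc
    have hgQ : g ∈ TFC.sq x y q p := by rw [← hLc]; exact Finset.mem_inter.2 ⟨hg, hgc⟩
    constructor
    · intro hv
      rcases sq_vert hgQ hv with h3 | h3 | h3 | h3
      · exact xr h3.symm
      · exact yr h3.symm
      · exact qr h3.symm
      · exact pr h3.symm
    · intro hv
      rcases sq_vert hgQ hv with h3 | h3 | h3 | h3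
      · exact xs h3.symm
      · exact ys h3.symm
      · exact qs h3.symm
      · exact ps h3.symm
  have memK : ∀ {g : Sym2 ℕ}, g ∈ (L ∩ (Ucl3 U ∪ PL)) \ {s(x, y)} → g ∈ L ∧ g ≠ s(x, y) := by
    intro g hg
    rw [Finset.mem_sdiff, Finset.mem_inter, Finset.mem_singleton] at hg
    exact ⟨hg.1.1, hg.2⟩
  have hsub : (L ∩ (Ucl3 U ∪ PL)) \ {s(x, y)} ⊆ L := Finset.sdiff_subset.trans Finset.inter_subset_left
  have hxyK : s(x, y) ∉ (L ∩ (Ucl3 U ∪ PL)) \ {s(x, y)} := by simp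
  have K1 := h.ins K0 hxr (by
    intro c hc hec
    by_cases hcc : c = c1
    · subst hcc
      right
      refine ⟨fun a ha hac => ?_, Or.inr ?_⟩
      · exact absurd (by simp) (hout _ (memK ha).1 hac).1
      · exact dgLe1' hL.m2 hsub (hL.sh hxy) (by simp) hxyK
    · left
      refine ⟨fun a ha hac => ?_, ?_⟩
      · exact absurd (h.eqc hc hc1 hac (hQ1 (hx _ (memK ha).1 (by simp)))) hcc
      · right
        refine (h.dgK hc r).trans (dgLe1 hL.m2 p1.1 (by simp) fun hc' => ?_)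
        have := h.eqc hc hc2 hc' p1.2
        subst this
        exact h1 hec)
  have K2 := h.ins K1 hys (by
    intro c hc hec
    by_cases hcc : c = c1
    · subst hcc
      right
      refine ⟨fun a ha hac => ?_, Or.inr ?_⟩
      · rcases Finset.mem_insert.1 ha with ha | ha
        · exfalso
          have h3 : s ∈ s(x, r) := by rw [← ha]; simp
          rcases Sym2.mem_iff.1 h3 with h3 | h3
          · exact xs h3.symm
          · exact rs h3.symm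
        · exact absurd (by simp) (hout _ (memK ha).1 hac).2
      · refine (dg_ins_off ?_).trans (dgLe1' hL.m2 hsub (hL.sh hxy) (by simp) hxyK)
        rw [Sym2.mem_iff]
        rintro (h3 | h3)
        · exact xy h3.symm
        · exact yr h3
    · left
      refine ⟨fun a ha hac => ?_, ?_⟩
      · rcases Finset.mem_insert.1 ha with ha | ha
        · exfalso
          have h3 : y ∈ s(x, r) := by rw [← ha]; simp
          rcases Sym2.mem_iff.1 h3 with h3 | h3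
          · exact xy h3.symm
          · exact yr h3
        · exact absurd (h.eqc hc hc1 hac (hQ1 (hy _ (memK ha).1 (by simp)))) hcc
      · right
        refine (dg_ins_off ?_).trans ((h.dgK hc s).trans (dgLe1 hL.m2 p3.1 (by simp) fun hc' => ?_))
        · rw [Sym2.mem_iff]
          rintro (h3 | h3)
          · exact xs h3.symm
          · exact rs h3.symm
        · have := h.eqc hc hc2 hc' p3.2
          subst this
          exact h2 hec)
  -- the degrees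
  have nxr : s(x, r) ∉ (L ∩ (Ucl3 U ∪ PL)) \ {s(x, y)} := fun hc => by
    rcases sq_vert (v := r) (hx _ (memK hc).1 (by simp)) (by simp) with h3 | h3 | h3 | h3
    · exact xr h3.symm
    · exact yr h3.symm
    · exact qr h3.symm
    · exact pr h3.symm
  have nys : s(y, s) ∉ insert s(x, r) ((L ∩ (Ucl3 U ∪ PL)) \ {s(x, y)}) := fun hc => by
    rcases Finset.mem_insert.1 hc with hc | hc
    · have h3 : y ∈ s(x, r) := by rw [← hc]; simp
      rcases Sym2.mem_iff.1 h3 with h3 | h3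
      · exact xy h3.symm
      · exact yr h3
    · rcases sq_vert (v := s) (hy _ (memK hc).1 (by simp)) (by simp) with h3 | h3 | h3 | h3
      · exact xs h3.symm
      · exact ys h3.symm
      · exact qs h3.symm
      · exact ps h3.symm
  have hxyW : s(x, y) ∈ L ∩ (Ucl3 U ∪ PL) := Finset.mem_inter.2 ⟨hL.sh hxy, h.cW hc1 (hQ1 hxy)⟩
  have h4 := h.ev hQ hL hc1 hQ1 K2 (d := Pi.single r 1 + Pi.single s 1) (by
    rw [XT.dv_insert nys, XT.dv_insert nxr, dv_sdiff (Finset.singleton_subset_iff.2 hxyW), dv_pair xy, dv_pair xr,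
      dv_pair ys]
    abel)
  rwa [ph_two (h.v2 hxr (by simp)) (h.v2 hys (by simp)) rs] at h4

end

end Pool.Agent.P34

end

section -- file P34/V3b

/-!
# Pattern p4 for triangles and squares: the configuration of world 1, STEP 0

`LPH`: what is used of Lemma P. `V3`: the configuration (squares `Q = x y q p` and `Z = r s b a` of `D`, `R = x y s r` in the
graph, `p` free). `V3.of`: it exists. `V3.xrP`, `V3.ysP`: `xr` and `ys` are in no member of `D`.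
-/

set_option autoImplicit false

namespace Pool.Agent.P34

open Finset Pool.Agent.TFC Pool.Agent.PF4 Pool.Agent.PF4.LD Pool.Agent.PF4.XC Pool.Agent.PF4.XT
open Pool.Agent.PF4.XF (XD FitK Cv World WJ Av NC Rch dg_off mem_k4 mem_k2)

/-- **Lemma P** (what is used of it): `Q = x y q p` in `D`, `R = x y s r` in the graph -/
def LPH (X : XD3) (P : ℕ → Finset (Sym2 ℕ) → Prop) (D : Finset (Finset (Sym2 ℕ))) (j : ℕ) (S : Finset ℕ)
    (U : List (Clu3 ℕ)) : Prop :=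
  ∀ x y q p r s : ℕ, [x, y, q, p, r, s].Nodup → x ∈ S → y ∈ S → r ∈ S → s ∈ S → x ∈ X.T → y ∈ X.T → r ∈ X.T →
    s ∈ X.T → TFC.sq x y q p ∈ D → s(x, r) ∈ X.E → s(r, s) ∈ X.E → s(y, s) ∈ X.E →
    ∃ c ∈ U, s(r, s) ∈ c.edges ∧ s(x, r) ∉ c.edges ∧ s(y, s) ∉ c.edges ∧
      ∀ L, Wt3 X P D j (TFC.sq x y q p) L → s(r, s) ∉ L ∧ ∃ Z ∈ D, s(r, s) ∈ Z ∧
        Z ⊆ insert s(r, s) (L ∩ c.edges)

/-- **the configuration of world 1** -/
structure V3 (X : XD3) (P : ℕ → Finset (Sym2 ℕ) → Prop) (D : Finset (Finset (Sym2 ℕ))) (j m : ℕ) (S : Finset ℕ)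
    (M : ℕ → Finset (Sym2 ℕ)) (CL U : List (Clu3 ℕ)) (PL : Finset (Sym2 ℕ)) (x y q p r s a b : ℕ)
    (c1 c2 : Clu3 ℕ) (L1 L2 : Finset (Sym2 ℕ)) : Prop where
  wa : WA3 X P D j m S M CL U PL
  nd : [x, y, q, p, r, s, a, b].Nodup
  xS : x ∈ S
  yS : y ∈ S
  rS : r ∈ S
  sS : s ∈ S
  xT : x ∈ X.T
  yT : y ∈ X.T
  rT : r ∈ X.T
  sT : s ∈ X.T
  pT : p ∉ X.T
  hQ : TFC.sq x y q p ∈ D
  hZ : TFC.sq r s b a ∈ D
  xr : s(x, r) ∈ X.E
  ys : s(y, s) ∈ X.E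
  c1U : c1 ∈ U
  c2U : c2 ∈ U
  k1 : Hb c1
  q1 : TFC.sq x y q p ⊆ c1.edges
  z2 : TFC.sq r s b a ⊆ c2.edges
  /-- a witness of `Q`; it contains the path `r a b s` and not `rs` -/
  w1 : Wt3 X P D j (TFC.sq x y q p) L1
  rs1 : s(r, s) ∉ L1
  p1 : P3 (L1 ∩ c2.edges) r a b s
  /-- a witness of `Z`; it contains a path of `c1` between `x` and `y` and not `xy` -/
  w2 : Wt3 X P D j (TFC.sq r s b a) L2
  xy2 : s(x, y) ∉ L2
  p2 : ∃ e f, P3 (L2 ∩ c1.edges) x e f y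
  /-- the other edges of `R` are in none of the two clusters -/
  xr1 : s(x, r) ∉ c1.edges
  xr2 : s(x, r) ∉ c2.edges
  ys1 : s(y, s) ∉ c1.edges
  ys2 : s(y, s) ∉ c2.edges
  /-- no triangle of `D` contains an edge of `R` -/
  f1 : ∀ t ∈ D, IsTri t → ∀ e ∈ TFC.sq x y s r, e ∉ t

section
variable {X : XD3} {P : ℕ → Finset (Sym2 ℕ) → Prop} {D : Finset (Finset (Sym2 ℕ))} {j m : ℕ} {S : Finset ℕ}
  {M : ℕ → Finset (Sym2 ℕ)} {CL U : List (Clu3 ℕ)} {PL : Finset (Sym2 ℕ)} {x y q p r s a b : ℕ}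
  {c1 c2 : Clu3 ℕ} {L1 L2 : Finset (Sym2 ℕ)}

theorem WA3.wt (h : WA3 X P D j m S M CL U PL) {Z : Finset (Sym2 ℕ)} (hZ : Z ∈ D) : ∃ L, Wt3 X P D j Z L := by
  obtain ⟨pl, mi, h1, _⟩ := h.cap
  exact h1.wt hZ

/-- **the square of Lemma P**: no triangle of `D` contains exactly one edge of `R` -/
theorem WA3.sqP (hw : WA3 X P D j m S M CL U PL) (hLP : LPH X P D j S U) {x y q p r s : ℕ}
    (nd : [x, y, q, p, r, s].Nodup) (xS : x ∈ S) (yS : y ∈ S) (rS : r ∈ S) (sS : s ∈ S) (xT : x ∈ X.T)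
    (yT : y ∈ X.T) (rT : r ∈ X.T) (sT : s ∈ X.T) (hQ : TFC.sq x y q p ∈ D) (hxr : s(x, r) ∈ X.E)
    (hrs : s(r, s) ∈ X.E) (hys : s(y, s) ∈ X.E)
    (hts : ∀ c, c ∉ ({x, y, s, r} : Finset ℕ) → tri r s c ∉ D) :
    ∃ c ∈ U, s(r, s) ∈ c.edges ∧ s(x, r) ∉ c.edges ∧ s(y, s) ∉ c.edges ∧
      ∀ L, Wt3 X P D j (TFC.sq x y q p) L → s(r, s) ∉ L ∧ ∃ a b, [x, y, q, p, r, s, a, b].Nodup ∧
        P3 (L ∩ c.edges) r a b s ∧ TFC.sq r s b a ∈ D := by
  obtain ⟨c, hc, hrc, n1, n2, hall⟩ := hLP x y q p r s nd xS yS rS sS xT yT rT sT hQ hxr hrs hys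
  refine ⟨c, hc, hrc, n1, n2, fun L hL => ?_⟩
  obtain ⟨h1, Z, hZ, hrZ, hsub⟩ := hall L hL
  obtain ⟨pl, mi, h, _⟩ := hw.cap
  obtain ⟨⟨xy, xq, xp, xr, xs⟩, ⟨yq, yp, yr, ys⟩, ⟨qp, qr, qs⟩, ⟨pr, ps⟩, rs⟩ := nd6 nd
  have inL : ∀ {e : Sym2 ℕ}, e ∈ Z → e ≠ s(r, s) → e ∈ L ∩ c.edges := fun he hne =>
    (Finset.mem_insert.1 (hsub he)).resolve_left hne
  have key : ∀ z w : ℕ, s(w, z) ∈ L → (∃ e ∈ TFC.sq x y q p, z ∈ e) → (w = r ∨ w = s) → False := by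
    rintro z w hz ⟨e, he, hze⟩ hw'
    have h4 := hL.at h.ish hQ he hze hz (by simp)
    rcases hw' with rfl | rfl
    · rcases sq_vert h4 (v := w) (by simp) with h5 | h5 | h5 | h5
      · exact xr h5.symm
      · exact yr h5.symm
      · exact qr h5.symm
      · exact pr h5.symm
    · rcases sq_vert h4 (v := w) (by simp) with h5 | h5 | h5 | h5
      · exact xs h5.symm
      · exact ys h5.symm
      · exact qs h5.symm
      · exact ps h5.symm
  have vx : ∃ e ∈ TFC.sq x y q p, x ∈ e := ⟨s(x, y), by simp [TFC.sq], by simp⟩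
  have vy : ∃ e ∈ TFC.sq x y q p, y ∈ e := ⟨s(x, y), by simp [TFC.sq], by simp⟩
  have vq : ∃ e ∈ TFC.sq x y q p, q ∈ e := ⟨s(y, q), by simp [TFC.sq], by simp⟩
  have vp : ∃ e ∈ TFC.sq x y q p, p ∈ e := ⟨s(p, x), by simp [TFC.sq], by simp⟩
  refine ⟨h1, ?_⟩
  rcases isSh_first (h.ish Z hZ) hrZ with ⟨t, ⟨m1, m2, m3⟩, rfl⟩ | ⟨b, a, ⟨m1, m2, m3, m4, m5, m6⟩, rfl⟩
  · exfalso
    have e1 : s(t, r) ∈ L ∩ c.edges := inL (by simp [tri]) (by
      rw [Ne, Sym2.eq_iff]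
      rintro (⟨g1, _⟩ | ⟨g1, _⟩)
      · exact m2 g1.symm
      · exact m3 g1.symm)
    have e2 : s(s, t) ∈ L ∩ c.edges := inL (by simp [tri]) (by
      rw [Ne, Sym2.eq_iff]
      rintro (⟨g1, _⟩ | ⟨_, g1⟩)
      · exact m1 g1.symm
      · exact m2 g1.symm)
    rw [Finset.mem_inter] at e1 e2
    refine hts t ?_ hZ
    simp only [Finset.mem_insert, Finset.mem_singleton, not_or]
    refine ⟨?_, ?_, m3.symm, m2.symm⟩
    · rintro rfl; exact key t s e2.1 vx (Or.inr rfl)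
    · rintro rfl; exact key t s e2.1 vy (Or.inr rfl)
  · have e1 : s(a, r) ∈ L ∩ c.edges := inL (by simp [TFC.sq]) (by
      rw [Ne, Sym2.eq_iff]
      rintro (⟨g1, _⟩ | ⟨g1, _⟩)
      · exact m3 g1.symm
      · exact m5 g1.symm)
    have e2 : s(b, a) ∈ L ∩ c.edges := inL (by simp [TFC.sq]) (by
      rw [Ne, Sym2.eq_iff]
      rintro (⟨g1, _⟩ | ⟨g1, _⟩)
      · exact m2 g1.symm
      · exact m4 g1.symm)
    have e3 : s(s, b) ∈ L ∩ c.edges := inL (by simp [TFC.sq]) (by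
      rw [Ne, Sym2.eq_iff]
      rintro (⟨g1, _⟩ | ⟨_, g1⟩)
      · exact m1 g1.symm
      · exact m2 g1.symm)
    have f1 := (Finset.mem_inter.1 e1).1
    have f3 := (Finset.mem_inter.1 e3).1
    rw [Sym2.eq_swap] at f1
    have xa : x ≠ a := by rintro rfl; exact key x r f1 vx (Or.inl rfl)
    have ya : y ≠ a := by rintro rfl; exact key y r f1 vy (Or.inl rfl)
    have qa : q ≠ a := by rintro rfl; exact key q r f1 vq (Or.inl rfl)
    have pa : p ≠ a := by rintro rfl; exact key p r f1 vp (Or.inl rfl)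
    have xb : x ≠ b := by rintro rfl; exact key x s f3 vx (Or.inr rfl)
    have yb : y ≠ b := by rintro rfl; exact key y s f3 vy (Or.inr rfl)
    have qb : q ≠ b := by rintro rfl; exact key q s f3 vq (Or.inr rfl)
    have pb : p ≠ b := by rintro rfl; exact key p s f3 vp (Or.inr rfl)
    refine ⟨a, b, ?_, ⟨⟨m3, m2, m1, m6.symm, m5.symm, m4.symm⟩, by rwa [Sym2.eq_swap], by rwa [Sym2.eq_swap],
      by rwa [Sym2.eq_swap]⟩, hZ⟩
    simp only [List.nodup_cons, List.mem_cons, List.not_mem_nil, or_false, not_or, List.nodup_nil, and_true,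
      not_false_eq_true]
    exact ⟨⟨xy, xq, xp, xr, xs, xa, xb⟩, ⟨yq, yp, yr, ys, ya, yb⟩, ⟨qp, qr, qs, qa, qb⟩, ⟨pr, ps, pa, pb⟩,
      ⟨rs, m3, m2⟩, ⟨m5, m4⟩, m6.symm⟩

/-- **the configuration exists** -/
theorem V3.of (wa : WA3 X P D j m S M CL U PL) (hLP : LPH X P D j S U) {x y q p r s : ℕ}
    (nd : [x, y, q, p, r, s].Nodup) (xS : x ∈ S) (yS : y ∈ S) (rS : r ∈ S) (sS : s ∈ S) (xT : x ∈ X.T)
    (yT : y ∈ X.T) (rT : r ∈ X.T) (sT : s ∈ X.T) (pT : p ∉ X.T) (hQ : TFC.sq x y q p ∈ D)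
    (hR : TFC.sq x y s r ⊆ X.E)
    (hts : ∀ u v c, s(u, v) ∈ TFC.sq x y s r → c ∉ ({x, y, s, r} : Finset ℕ) → tri u v c ∉ D) :
    ∃ a b c1 c2 L1 L2, V3 X P D j m S M CL U PL x y q p r s a b c1 c2 L1 L2 := by
  obtain ⟨pl, mi, h, hmi⟩ := wa.cap
  have exr : s(x, r) ∈ X.E := hR (by rw [TFC.sq, Sym2.eq_swap (a := x) (b := r)]; simp)
  have ers : s(r, s) ∈ X.E := hR (by rw [Sym2.eq_swap]; simp [TFC.sq])
  have eys : s(y, s) ∈ X.E := hR (by simp [TFC.sq])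
  have exy : s(x, y) ∈ X.E := hR (by simp [TFC.sq])
  obtain ⟨c2, hc2, hrs2, xr2, ys2, hall⟩ := wa.sqP hLP nd xS yS rS sS xT yT rT sT hQ exr ers eys
    fun c hc => hts r s c (by rw [Sym2.eq_swap]; simp [TFC.sq]) hc
  obtain ⟨L1, hL1⟩ := wa.wt hQ
  obtain ⟨hrs, a, b, nd', hP1, hZ⟩ := hall L1 hL1
  obtain ⟨⟨xy, xq, xp, xr, xs, xa, xb⟩, ⟨yq, yp, yr, ys, ya, yb⟩, ⟨qp, qr, qs, qa, qb⟩, ⟨pr, ps, pa, pb⟩,
    ⟨rs, ra, rb⟩, ⟨sa, sb⟩, ab⟩ := nd8 nd'
  have nd2 : [r, s, b, a, x, y].Nodup := by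
    simp only [List.nodup_cons, List.mem_cons, List.not_mem_nil, or_false, not_or, List.nodup_nil, and_true,
      not_false_eq_true]
    exact ⟨⟨rs, rb, ra, xr.symm, yr.symm⟩, ⟨sb, sa, xs.symm, ys.symm⟩, ⟨ab.symm, xb.symm, yb.symm⟩,
      ⟨xa.symm, ya.symm⟩, xy⟩
  obtain ⟨c1, hc1, hxy1, xr1, ys1, hall2⟩ := wa.sqP hLP nd2 rS sS xS yS rT sT xT yT hZ
    (by rw [Sym2.eq_swap]; exact exr) exy (by rw [Sym2.eq_swap]; exact eys)
    fun c hc => hts x y c (by simp [TFC.sq]) (by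
      simp only [Finset.mem_insert, Finset.mem_singleton, not_or] at hc ⊢
      tauto)
  rw [Sym2.eq_swap] at xr1
  rw [Sym2.eq_swap] at ys1
  obtain ⟨L2, hL2⟩ := wa.wt hZ
  obtain ⟨hxy2, e, f, _, hP2, _⟩ := hall2 L2 hL2
  have hq1 : TFC.sq x y q p ⊆ c1.edges := h.clz hQ hc1 (by simp [TFC.sq] : s(x, y) ∈ TFC.sq x y q p) hxy1
  have hz2 : TFC.sq r s b a ⊆ c2.edges := h.clz hZ hc2 (by simp [TFC.sq] : s(r, s) ∈ TFC.sq r s b a) hrs2
  -- no triangle of `D` contains an edge of `R`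
  have f1 : ∀ t ∈ D, IsTri t → ∀ e ∈ TFC.sq x y s r, e ∉ t := by
    intro t ht htri e he het
    have g1 : s(x, y) ∈ t → s(x, r) ∉ t ∧ s(y, s) ∉ t := fun h1 =>
      ⟨fun h2 => xr1 (h.clz ht hc1 h1 hxy1 h2), fun h2 => ys1 (h.clz ht hc1 h1 hxy1 h2)⟩
    have g2 : s(r, s) ∈ t → s(x, r) ∉ t ∧ s(y, s) ∉ t := fun h1 =>
      ⟨fun h2 => xr2 (h.clz ht hc2 h1 hrs2 h2), fun h2 => ys2 (h.clz ht hc2 h1 hrs2 h2)⟩
    induction e using Sym2.ind with
    | _ u v =>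
    rcases isSh_first (Or.inl htri) het with ⟨c, hd, rfl⟩ | ⟨q', p', hd, rfl⟩
    · by_cases hcV : c ∈ ({x, y, s, r} : Finset ℕ)
      · obtain ⟨d1, d2, d3⟩ := hd
        have m1 : s(u, v) ∈ tri u v c := by simp [tri]
        have m2 : s(v, c) ∈ tri u v c := by simp [tri]
        have m3 : s(c, u) ∈ tri u v c := by simp [tri]
        have sw : ∀ {z w : ℕ}, s(z, w) ∈ tri u v c → s(w, z) ∈ tri u v c := fun hz => by rwa [Sym2.eq_swap]
        simp only [Finset.mem_insert, Finset.mem_singleton] at hcV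
        simp only [TFC.sq, Finset.mem_insert, Finset.mem_singleton, Sym2.eq_iff] at he
        rcases he with (⟨rfl, rfl⟩ | ⟨rfl, rfl⟩) | (⟨rfl, rfl⟩ | ⟨rfl, rfl⟩) | (⟨rfl, rfl⟩ | ⟨rfl, rfl⟩) |
            (⟨rfl, rfl⟩ | ⟨rfl, rfl⟩) <;> rcases hcV with rfl | rfl | rfl | rfl <;>
          first
            | exact absurd rfl d1
            | exact absurd rfl d2
            | exact absurd rfl d3
            | exact (g1 m1).1 m2
            | exact (g1 m1).1 (sw m2)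
            | exact (g1 m1).1 m3
            | exact (g1 m1).1 (sw m3)
            | exact (g1 m1).2 m2
            | exact (g1 m1).2 (sw m2)
            | exact (g1 m1).2 m3
            | exact (g1 m1).2 (sw m3)
            | exact (g1 (sw m1)).1 m2
            | exact (g1 (sw m1)).1 (sw m2)
            | exact (g1 (sw m1)).1 m3
            | exact (g1 (sw m1)).1 (sw m3)
            | exact (g1 (sw m1)).2 m2
            | exact (g1 (sw m1)).2 (sw m2)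
            | exact (g1 (sw m1)).2 m3
            | exact (g1 (sw m1)).2 (sw m3)
            | exact (g2 m1).1 m2
            | exact (g2 m1).1 (sw m2)
            | exact (g2 m1).1 m3
            | exact (g2 m1).1 (sw m3)
            | exact (g2 m1).2 m2
            | exact (g2 m1).2 (sw m2)
            | exact (g2 m1).2 m3
            | exact (g2 m1).2 (sw m3)
            | exact (g2 (sw m1)).1 m2
            | exact (g2 (sw m1)).1 (sw m2)
            | exact (g2 (sw m1)).1 m3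
            | exact (g2 (sw m1)).1 (sw m3)
            | exact (g2 (sw m1)).2 m2
            | exact (g2 (sw m1)).2 (sw m2)
            | exact (g2 (sw m1)).2 m3
            | exact (g2 (sw m1)).2 (sw m3)
            | exact (g1 m2).1 m1
            | exact (g1 m2).1 (sw m1)
            | exact (g1 m2).2 m1
            | exact (g1 m2).2 (sw m1)
            | exact (g1 (sw m2)).1 m1
            | exact (g1 (sw m2)).1 (sw m1)
            | exact (g1 (sw m2)).2 m1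
            | exact (g1 (sw m2)).2 (sw m1)
            | exact (g1 m3).1 m1
            | exact (g1 m3).1 (sw m1)
            | exact (g1 m3).2 m1
            | exact (g1 m3).2 (sw m1)
            | exact (g1 (sw m3)).1 m1
            | exact (g1 (sw m3)).1 (sw m1)
            | exact (g1 (sw m3)).2 m1
            | exact (g1 (sw m3)).2 (sw m1)
            | exact (g2 m2).1 m1
            | exact (g2 m2).1 (sw m1)
            | exact (g2 m2).2 m1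
            | exact (g2 m2).2 (sw m1)
            | exact (g2 (sw m2)).1 m1
            | exact (g2 (sw m2)).1 (sw m1)
            | exact (g2 (sw m2)).2 m1
            | exact (g2 (sw m2)).2 (sw m1)
            | exact (g2 m3).1 m1
            | exact (g2 m3).1 (sw m1)
            | exact (g2 m3).2 m1
            | exact (g2 m3).2 (sw m1)
            | exact (g2 (sw m3)).1 m1
            | exact (g2 (sw m3)).1 (sw m1)
      · exact hts u v c he hcV ht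
    · exact tri_not_sq htri ⟨_, _, _, _, hd, rfl⟩
  -- `c1` has two centres
  have k1 : Hb c1 := by
    rcases k4_or_hb c1 with ⟨Y, rfl⟩ | hb
    · exfalso
      have e1 := mem3_k4.1 (hq1 (by simp [TFC.sq] : s(x, y) ∈ TFC.sq x y q p))
      have e2 := mem3_k4.1 (hq1 (by simp [TFC.sq] : s(q, p) ∈ TFC.sq x y q p))
      have h3 := (h.k4tri hc1 (h.fr_gdc hc1 fun _ _ _ hf => hf) (fr3_acp fun hf => hf)
        (a := x) (b := y) (c := q) (d := p) ⟨xy, xq, xp, yq, yp, qp⟩ e1.1 e1.2.1 e2.1 e2.2.1).2 (fun hX =>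
          h.free p (h.ok.vn p (h.v2 (h.cW hc1 (hq1 (by simp [TFC.sq] : s(q, p) ∈ TFC.sq x y q p))) (by simp))) pT
            hX.1)
      exact f1 _ h3 ⟨_, _, _, ⟨xy, xq, yq⟩, rfl⟩ s(x, y) (by simp [TFC.sq]) (by simp [tri])
    · exact hb
  exact ⟨a, b, c1, c2, L1, L2, ⟨wa, nd', xS, yS, rS, sS, xT, yT, rT, sT, pT, hQ, hZ, exr, eys, hc1, hc2, k1, hq1,
    hz2, hL1, hrs, hP1, hL2, hxy2, ⟨e, f, hP2⟩, xr1, xr2, ys1, ys2, f1⟩⟩

end

end Pool.Agent.P34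

end

section -- file P34/V3c

/-!
# Pattern p4 for triangles and squares: types in the frames `F ⊆ {c1, c2}`, STEP 0
-/

set_option autoImplicit false

namespace Pool.Agent.P34

open Finset Pool.Agent.TFC Pool.Agent.PF4 Pool.Agent.PF4.LD Pool.Agent.PF4.XC Pool.Agent.PF4.XT
open Pool.Agent.PF4.XF (XD FitK Cv World WJ Av NC Rch dg_off mem_k4 mem_k2)

section
variable {X : XD3} {P : ℕ → Finset (Sym2 ℕ) → Prop} {D : Finset (Finset (Sym2 ℕ))} {j m : ℕ} {S : Finset ℕ}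
  {M : ℕ → Finset (Sym2 ℕ)} {CL U : List (Clu3 ℕ)} {PL : Finset (Sym2 ℕ)} {x y q p r s a b : ℕ}
  {c1 c2 : Clu3 ℕ} {L1 L2 : Finset (Sym2 ℕ)}

/-- `c1` and `c2` are different -/
theorem V3.ne (v : V3 X P D j m S M CL U PL x y q p r s a b c1 c2 L1 L2) : c1 ≠ c2 := by
  rintro rfl
  obtain ⟨pl, mi, h, _⟩ := v.wa.cap
  obtain ⟨⟨xy, xq, xp, xr, xs, xa, xb⟩, ⟨yq, yp, yr, ys, ya, yb⟩, ⟨qp, qr, qs, qa, qb⟩, ⟨pr, ps, pa, pb⟩,
    ⟨rs, ra, rb⟩, ⟨sa, sb⟩, ab⟩ := nd8 v.nd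
  have h1 : s(r, a) ∈ L1 ∩ c1.edges := v.p1.2.1
  rw [inter_eq3 (h.val v.c1U) (h.ish _ v.hQ) v.q1 v.w1.m2 v.w1.sh] at h1
  rcases sq_vert h1 (v := r) (by simp) with h2 | h2 | h2 | h2
  · exact xr h2.symm
  · exact yr h2.symm
  · exact qr h2.symm
  · exact pr h2.symm

theorem V3.n1 (v : V3 X P D j m S M CL U PL x y q p r s a b c1 c2 L1 L2) : NSh (L1 ∩ c2.edges) := by
  obtain ⟨pl, mi, h, _⟩ := v.wa.cap
  exact nsh_p3 v.w1.m2 (h.val v.c2U) v.p1 v.rs1 (v.z2 (by simp [TFC.sq]))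

theorem V3.n2 (v : V3 X P D j m S M CL U PL x y q p r s a b c1 c2 L1 L2) : NSh (L2 ∩ c1.edges) := by
  obtain ⟨pl, mi, h, _⟩ := v.wa.cap
  obtain ⟨e, f, hp⟩ := v.p2
  exact nsh_p3 v.w2.m2 (h.val v.c1U) hp v.xy2 (v.q1 (by simp [TFC.sq]))

theorem V3.nd1 (v : V3 X P D j m S M CL U PL x y q p r s a b c1 c2 L1 L2) : [x, y, q, p, r, s].Nodup := by
  have h := v.nd
  have e : [x, y, q, p, r, s, a, b] = [x, y, q, p, r, s] ++ [a, b] := rfl
  rw [e, List.nodup_append] at h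
  exact h.1

theorem V3.nd2 (v : V3 X P D j m S M CL U PL x y q p r s a b c1 c2 L1 L2) : [r, s, b, a, x, y].Nodup := by
  obtain ⟨⟨xy, xq, xp, xr, xs, xa, xb⟩, ⟨yq, yp, yr, ys, ya, yb⟩, ⟨qp, qr, qs, qa, qb⟩, ⟨pr, ps, pa, pb⟩,
    ⟨rs, ra, rb⟩, ⟨sa, sb⟩, ab⟩ := nd8 v.nd
  simp only [List.nodup_cons, List.mem_cons, List.not_mem_nil, or_false, not_or, List.nodup_nil, and_true,
    not_false_eq_true]
  exact ⟨⟨rs, rb, ra, xr.symm, yr.symm⟩, ⟨sb, sa, xs.symm, ys.symm⟩, ⟨ab.symm, xb.symm, yb.symm⟩,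
    ⟨xa.symm, ya.symm⟩, xy⟩

/-- the frames in `{c1, c2}` exist -/
theorem V3.frame (v : V3 X P D j m S M CL U PL x y q p r s a b c1 c2 L1 L2) : ∃ pl mi,
    PW3 X P D j S M (Fr3 D fun c => c = c1 ∨ (c = c2 ∧ Hb c2)) CL U PL pl mi ∧ ∀ w ∈ S, w ∈ X.T → mi w := by
  refine v.wa.fr _ fun c hc => ?_
  rcases hc with rfl | ⟨rfl, hc⟩
  · exact v.k1
  · exact hc

theorem V3.frame1 (v : V3 X P D j m S M CL U PL x y q p r s a b c1 c2 L1 L2) : ∃ pl mi,
    PW3 X P D j S M (Fr3 D fun c => c = c1) CL U PL pl mi ∧ ∀ w ∈ S, w ∈ X.T → mi w :=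
  v.wa.fr _ fun c hc => by rw [show c = c1 from hc]; exact v.k1

/-- the witness of `Q` is allowed outside of `c1` -/
theorem V3.o1 (v : V3 X P D j m S M CL U PL x y q p r s a b c1 c2 L1 L2) {F : Clu3 ℕ → Prop} {pl mi : ℕ → Prop}
    (h : PW3 X P D j S M (Fr3 D F) CL U PL pl mi) (hF : ∀ c, F c → c = c1 ∨ c = c2) : Out3 (Fr3 D F) U c1 L1 :=
  h.out v.hQ v.w1 v.c1U v.q1 (fun c _ hf hne => by
    rcases hF c hf with rfl | rfl
    · exact absurd rfl hne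
    · exact v.n1)

/-- **types of `r`, `s`**: frames in `{c1, c2}` -/
theorem V3.rsZ (v : V3 X P D j m S M CL U PL x y q p r s a b c1 c2 L1 L2) {F : Clu3 ℕ → Prop} {pl mi : ℕ → Prop}
    (h : PW3 X P D j S M (Fr3 D F) CL U PL pl mi) (hm : ∀ w ∈ S, w ∈ X.T → mi w) (hF : ∀ c, F c → c = c1 ∨ c = c2) :
    pl r ∧ pl s := by
  refine both_pl ?_ (hm r v.rS v.rT) (hm s v.sS v.sT)
  refine h.e8 v.nd1 v.hQ v.w1 v.c1U v.q1 v.c2U v.p1 (fun c hc hf hne => ?_) (v.wa.reg v.xS v.xr (by simp))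
    (v.wa.reg v.yS v.ys (by simp)) v.xr2 v.ys2
  rcases hF c hf with rfl | rfl
  · exact absurd rfl hne
  · exact v.n1

/-- **types of `x`, `y`**: frames in `{c1, c2}` -/
theorem V3.xyZ (v : V3 X P D j m S M CL U PL x y q p r s a b c1 c2 L1 L2) {F : Clu3 ℕ → Prop} {pl mi : ℕ → Prop}
    (h : PW3 X P D j S M (Fr3 D F) CL U PL pl mi) (hm : ∀ w ∈ S, w ∈ X.T → mi w) (hF : ∀ c, F c → c = c1 ∨ c = c2) :
    pl x ∧ pl y := by
  refine both_pl ?_ (hm x v.xS v.xT) (hm y v.yS v.yT)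
  obtain ⟨e, f, hp⟩ := v.p2
  refine h.e8 v.nd2 v.hZ v.w2 v.c2U v.z2 v.c1U hp (fun c hc hf hne => ?_) ?_ ?_ ?_ ?_
  · rcases hF c hf with rfl | rfl
    · exact v.n2
    · exact absurd rfl hne
  · rw [Sym2.eq_swap]; exact v.wa.reg v.xS v.xr (by simp)
  · rw [Sym2.eq_swap]; exact v.wa.reg v.yS v.ys (by simp)
  · rw [Sym2.eq_swap]; exact v.xr1
  · rw [Sym2.eq_swap]; exact v.ys1

/-- **`p` is of type N** -/
theorem V3.pN (v : V3 X P D j m S M CL U PL x y q p r s a b c1 c2 L1 L2) {F : Clu3 ℕ → Prop} {pl mi : ℕ → Prop}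
    (h : PW3 X P D j S M (Fr3 D F) CL U PL pl mi) (hF : ∀ c, F c → c = c1 ∨ c = c2) : ¬ pl p ∧ ¬ mi p := by
  refine h.n0 v.hQ v.w1 v.c1U v.q1 (fun c _ hne hf => ?_) (a := p) (b := x) (by simp [TFC.sq]) v.pT
  rcases hF c hf with rfl | rfl
  · exact absurd rfl hne
  · exact v.n1

/-- **`q` is of type X** -/
theorem V3.qX (v : V3 X P D j m S M CL U PL x y q p r s a b c1 c2 L1 L2) {F : Clu3 ℕ → Prop} {pl mi : ℕ → Prop}
    (h : PW3 X P D j S M (Fr3 D F) CL U PL pl mi) (hm : ∀ w ∈ S, w ∈ X.T → mi w) (hF : ∀ c, F c → c = c1 ∨ c = c2) :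
    mi q ∧ ¬ pl q := by
  obtain ⟨hx, hy⟩ := v.xyZ h hm hF
  obtain ⟨z, ⟨e, he, hz⟩, z1, z2⟩ := h.L1x v.hQ v.w1 v.c1U v.q1 (fr3_am3 h.ish F c1) (v.o1 h hF)
  rcases sq_vert he hz with rfl | rfl | rfl | rfl
  · exact absurd hx z2
  · exact absurd hy z2
  · exact ⟨z1, z2⟩
  · exact absurd z1 (v.pN h hF).2

/-- **leaves of `c1`** if the centres are `x`, `q` -/
theorem V3.leafX (v : V3 X P D j m S M CL U PL x y q p r s a b c1 c2 L1 L2) {F : Clu3 ℕ → Prop} {pl mi : ℕ → Prop}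
    (h : PW3 X P D j S M (Fr3 D F) CL U PL pl mi) (hF : ∀ c, F c → c = c1 ∨ c = c2) {Lf : Finset ℕ}
    (hH : Hub c1 x q Lf) {l : ℕ} (hl : l ∈ Lf) (ly : l ≠ y) (lp : l ≠ p) : pl l := by
  obtain ⟨⟨xy, xq, xp, xr, xs, xa, xb⟩, ⟨yq, yp, yr, ys, ya, yb⟩, ⟨qp, qr, qs, qa, qb⟩, ⟨pr, ps, pa, pb⟩,
    ⟨rs, ra, rb⟩, ⟨sa, sb⟩, ab⟩ := nd8 v.nd
  obtain ⟨_, xL, qL⟩ := hH.dist (h.val v.c1U)
  have lx : l ≠ x := fun e => xL (e ▸ hl)
  have lq : l ≠ q := fun e => qL (e ▸ hl)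
  obtain ⟨e1, e2⟩ := pth4_3 h.ish (F := F) (c := c1) (v := l) (u := x) (e := y) (w := q) (b := p)
    (by simp [List.nodup_cons, lx, lq, ly, lp, xy, xq, xp, yq, yp, qp])
  have hs : ({s(l, x), s(x, y), s(y, q), s(q, p)} : Finset (Sym2 ℕ)) ⊆ c1.edges := by
    intro g hg
    simp only [Finset.mem_insert, Finset.mem_singleton] at hg
    rcases hg with rfl | rfl | rfl | rfl
    · rw [Sym2.eq_swap]; exact (hH.mem hl).1
    · exact v.q1 (by simp [TFC.sq])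
    · exact v.q1 (by simp [TFC.sq])
    · exact v.q1 (by simp [TFC.sq])
  have h1 := h.wz v.hQ v.w1 v.c1U v.q1 (v.o1 h hF) hs e1
  have dq := dv_sq (a := x) (b := y) (c := q) (d := p) ⟨xy, xq, xp, yq, yp, qp⟩
  simp only [ev_single] at dq
  have e : dv ({s(l, x), s(x, y), s(y, q), s(q, p)} : Finset (Sym2 ℕ)) - dv (TFC.sq x y q p) =
      Pi.single l 1 + Pi.single p (-1) := by
    have t4 : (Pi.single p (-1) : ℕ → ℤ) = -Pi.single p 1 := by rw [← Pi.single_neg]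
    rw [e2, dq, t4]
    abel
  rw [e, ph_two (h.v2 (h.cW v.c1U (hH.mem hl).1) (by simp))
    (h.v2 (h.cW v.c1U (v.q1 (by simp [TFC.sq] : s(q, p) ∈ TFC.sq x y q p))) (by simp)) lp] at h1
  have h2 := con_neg_one_free (p := pl p) (v.pN h hF).2
  exact con_one_eq (m := mi l) (by omega)

/-- **`c2` a `K4`** -/
theorem V3.k4c (v : V3 X P D j m S M CL U PL x y q p r s a b c1 c2 L1 L2) {Y : Finset ℕ} (hY : c2 = Clu3.k4 Y) :
    Y = {r, s, a, b} ∧ tri s a b ∈ D ∧ tri r a b ∈ D ∧ tri r s a ∉ D ∧ tri r s b ∉ D ∧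
      ∀ {pl mi : ℕ → Prop}, PW3 X P D j S M (Fr3 D fun _ => False) CL U PL pl mi →
        (mi a ∧ ¬ pl a) ∧ (mi b ∧ ¬ pl b) := by
  subst hY
  obtain ⟨⟨xy, xq, xp, xr, xs, xa, xb⟩, ⟨yq, yp, yr, ys, ya, yb⟩, ⟨qp, qr, qs, qa, qb⟩, ⟨pr, ps, pa, pb⟩,
    ⟨rs, ra, rb⟩, ⟨sa, sb⟩, ab⟩ := nd8 v.nd
  obtain ⟨pl0, mi0, h0, hm0⟩ := v.wa.cap
  have hY4 : #Y = 4 := h0.val v.c2U
  have e1 := mem3_k4.1 (v.z2 (by simp [TFC.sq] : s(r, s) ∈ TFC.sq r s b a))
  have e2 := mem3_k4.1 (v.z2 (by simp [TFC.sq] : s(b, a) ∈ TFC.sq r s b a))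
  have hr := e1.1
  have hs := e1.2.1
  have hb := e2.1
  have ha := e2.2.1
  have n1 : tri r s a ∉ D := fun hD => v.f1 _ hD ⟨_, _, _, ⟨rs, ra, sa⟩, rfl⟩ s(s, r) (by simp [TFC.sq])
    (by rw [Sym2.eq_swap]; simp [tri])
  have n2 : tri r s b ∉ D := fun hD => v.f1 _ hD ⟨_, _, _, ⟨rs, rb, sb⟩, rfl⟩ s(s, r) (by simp [TFC.sq])
    (by rw [Sym2.eq_swap]; simp [tri])
  have ty : ∀ {pl mi : ℕ → Prop}, PW3 X P D j S M (Fr3 D fun _ => False) CL U PL pl mi →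
        (mi a ∧ ¬ pl a) ∧ (mi b ∧ ¬ pl b) := by
    intro pl mi h
    have hO := h.fr_gdc v.c2U fun _ _ _ hf => hf
    have hA : ACp3 D (Fr3 D fun _ => False) (Clu3.k4 Y) := fr3_acp fun hf => hf
    constructor
    · by_contra hX
      exact n2 ((h.k4tri v.c2U hO hA (a := r) (b := s) (c := b) (d := a) ⟨rs, rb, ra, sb, sa, ab.symm⟩ hr hs hb ha).2
        hX)
    · by_contra hX
      exact n1 ((h.k4tri v.c2U hO hA (a := r) (b := s) (c := a) (d := b) ⟨rs, ra, rb, sa, sb, ab⟩ hr hs ha hb).2 hX)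
  have hO := h0.fr_gdc v.c2U fun _ _ _ hf => hf
  have hA : ACp3 D (Fr3 D fun _ => False) (Clu3.k4 Y) := fr3_acp fun hf => hf
  obtain ⟨hpr, hps⟩ := v.rsZ h0 hm0 fun _ hf => hf.elim
  refine ⟨?_, ?_, ?_, n1, n2, ty⟩
  · refine (Finset.eq_of_subset_of_card_le ?_ ?_).symm
    · intro w hw
      simp only [Finset.mem_insert, Finset.mem_singleton] at hw
      rcases hw with rfl | rfl | rfl | rfl <;> assumption
    · rw [hY4, Finset.card_insert_of_notMem (by simp [rs, ra, rb]), Finset.card_insert_of_notMem (by simp [sa, sb]),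
        Finset.card_insert_of_notMem (by simp [ab]), Finset.card_singleton]
  · exact (h0.k4tri v.c2U hO hA (a := s) (b := a) (c := b) (d := r) ⟨sa, sb, rs.symm, ab, ra.symm, rb.symm⟩ hs ha hb
      hr).2 fun hX => hX.2 hpr
  · exact (h0.k4tri v.c2U hO hA (a := r) (b := a) (c := b) (d := s) ⟨ra, rb, rs, ab, sa.symm, sb.symm⟩ hr ha hb
      hs).2 fun hX => hX.2 hps

/-- **(ii)** `y` is a corner of no member of `D` outside `c1` -/
theorem V3.yc (v : V3 X P D j m S M CL U PL x y q p r s a b c1 c2 L1 L2) {Z4 : Finset (Sym2 ℕ)} (hZ4 : Z4 ∈ D)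
    {c4 : Clu3 ℕ} (hc4 : c4 ∈ U) (hZ4c : Z4 ⊆ c4.edges) (hne : c4 ≠ c1) : ∀ e ∈ Z4, y ∉ e := by
  intro e he hye
  obtain ⟨y', rfl⟩ := Sym2.mem_iff_exists.1 hye
  obtain ⟨pl0, mi0, h0, hm0⟩ := v.wa.cap
  obtain ⟨p0x, p0y⟩ := v.xyZ h0 hm0 fun _ h => h.elim
  obtain ⟨L4, hL4⟩ := h0.wt hZ4
  have hyq : s(y, q) ∈ c1.edges := v.q1 (by simp [TFC.sq])
  have hN : NSh (L4 ∩ c1.edges) := h0.lemE hZ4 hL4 hc4 hZ4c v.c1U (Ne.symm hne) v.k1 he (v := y) (by simp) hyq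
    fun h1 => h1.2 p0y
  obtain ⟨pl, mi, h, hm⟩ := v.frame1
  have hF : ∀ c, c = c1 → c = c1 ∨ c = c2 := fun c hc => Or.inl hc
  have hq := v.qX h hm hF
  refine h.L2X hZ4 hL4 hc4 hZ4c (fr3_am3 h.ish _ _) (h.out hZ4 hL4 hc4 hZ4c fun c' _ hf _ => ?_) he
    (h.cW v.c1U hyq) (fun hc => hne (h.eqc hc4 v.c1U hc hyq)) (h.fr_freeL fun c' hc' hec => ?_) hq
  · rw [show c' = c1 from hf]
    exact hN
  · have := h.eqc hc' v.c1U hec hyq
    exact ⟨this, by rw [this]; exact hN⟩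

/-- **STEP 0**: `ys` is plain -/
theorem V3.ysP (v : V3 X P D j m S M CL U PL x y q p r s a b c1 c2 L1 L2) : s(y, s) ∈ PL := by
  rcases Finset.mem_union.1 (v.wa.reg v.yS v.ys (by simp)) with h1 | h1
  · exfalso
    obtain ⟨c, hc, hec⟩ := mem_Ucl3.1 h1
    obtain ⟨pl, mi, h, _⟩ := v.wa.cap
    obtain ⟨Z4, hZ4, he4, hZ4c⟩ := h.edz hc hec
    refine v.yc hZ4 hc hZ4c ?_ _ he4 (by simp)
    rintro rfl
    exact v.ys1 hec
  · exact h1

/-- **STEP 0**: `xr` is plain -/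
theorem V3.xrP (v : V3 X P D j m S M CL U PL x y q p r s a b c1 c2 L1 L2) (hLP : LPH X P D j S U) :
    s(x, r) ∈ PL := by
  obtain ⟨⟨xy, xq, xp, xr, xs, xa, xb⟩, ⟨yq, yp, yr, ys, ya, yb⟩, ⟨qp, qr, qs, qa, qb⟩, ⟨pr, ps, pa, pb⟩,
    ⟨rs, ra, rb⟩, ⟨sa, sb⟩, ab⟩ := nd8 v.nd
  obtain ⟨pl, mi, h, _⟩ := v.wa.cap
  rcases Finset.mem_union.1 (v.wa.reg v.xS v.xr (by simp)) with h1 | h1
  swap
  · exact h1
  exfalso
  obtain ⟨c, hc, hxr⟩ := mem_Ucl3.1 h1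
  have hcc1 : c ≠ c1 := by rintro rfl; exact v.xr1 hxr
  have hcc2 : c ≠ c2 := by rintro rfl; exact v.xr2 hxr
  obtain ⟨Z3, hZ3, hx3, hZ3c⟩ := h.edz hc hxr
  have hrs2 : s(r, s) ∈ c2.edges := v.z2 (by simp [TFC.sq])
  have hxy1 : s(x, y) ∈ c1.edges := v.q1 (by simp [TFC.sq])
  have hyZ := v.yc hZ3 hc hZ3c hcc1
  have ersE : s(r, s) ∈ X.E := h.dE _ v.hZ (by simp [TFC.sq])
  have exyE : s(x, y) ∈ X.E := h.dE _ v.hQ (by simp [TFC.sq])
  rcases isSh_first (h.ish Z3 hZ3) hx3 with ⟨t, hd, rfl⟩ | ⟨q', p', ⟨m1, m2, m3, m4, m5, m6⟩, rfl⟩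
  · exact v.f1 _ hZ3 ⟨_, _, _, hd, rfl⟩ s(r, x) (by simp [TFC.sq]) (by rw [Sym2.eq_swap]; simp [tri])
  · have yq' : y ≠ q' := by rintro rfl; exact hyZ s(r, y) (by simp [TFC.sq]) (by simp)
    have yp' : y ≠ p' := by rintro rfl; exact hyZ s(y, x) (by simp [TFC.sq]) (by simp)
    by_cases hsq : s = q'
    · subst hsq
      exact hcc2 (h.eqc hc v.c2U (hZ3c (by simp [TFC.sq] : s(r, s) ∈ TFC.sq x r s p')) hrs2)
    by_cases hsp : s = p'
    · subst hsp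
      obtain ⟨g1, g2⟩ := v.wa.lemK hZ3 hc hZ3c (u := s) (v := x) (g := y) (by simp [TFC.sq]) hyZ v.yS v.yT
        (by rw [Sym2.eq_swap]; exact v.ys) exyE
      exact hcc1 (h.eqc hc v.c1U g2 hxy1)
    have e : TFC.sq x r q' p' = TFC.sq r x p' q' := by
      rw [XT.sq_ref, XT.sq_rot, XT.sq_rot]
    rw [e] at hZ3
    obtain ⟨c', hc', hec, _⟩ := hLP r x p' q' s y (by
      simp only [List.nodup_cons, List.mem_cons, List.not_mem_nil, or_false, not_or, List.nodup_nil, and_true,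
        not_false_eq_true]
      exact ⟨⟨xr.symm, m5, m4, rs, yr.symm⟩, ⟨m3, m2, xs, xy⟩, ⟨m6.symm, Ne.symm hsp, yp'.symm⟩,
        ⟨Ne.symm hsq, yq'.symm⟩, ys.symm⟩) v.rS v.xS v.sS v.yS v.rT v.xT v.sT v.yT hZ3 ersE
      (by rw [Sym2.eq_swap]; exact v.ys) exyE
    rw [Sym2.eq_swap] at hec
    exact Finset.disjoint_left.1 (h.plain hc') v.ysP hec

end

end Pool.Agent.P34

end
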