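import Pool.Agent.PFN.M21
import Pool.Agent.PFN.M22

section -- file P34/XL4

/-!
Local moves in a `K4` (triangles and squares): attach an end (`k4_side3`) and change two parities (`k4_link3`).
-/

set_option autoImplicit false

namespace Pool.Agent.P34

open Finset Pool.Agent.TFC Pool.Agent.PF4 Pool.Agent.PF4.LD Pool.Agent.PF4.XC Pool.Agent.PF4.XT
open Pool.Agent.PF4.XF (XD FitK Cv World WJ Av NC Rch dg_off mem_k4 mem_k2)

/-- a short cycle in a `K4` which avoids `u` is the triangle without `u` -/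
theorem sh_in3 {Y : Finset ℕ} (hY : #Y = 4) {K : Finset (Sym2 ℕ)} (hK : K ⊆ (Clu3.k4 Y).edges) {u : ℕ} (hu : u ∈ Y)
    (h : ∀ e ∈ K, u ∉ e) {Z : Finset (Sym2 ℕ)} (hZ : IsSh Z) (hs : Z ⊆ K) {t z : ℕ} (ht : t ∈ Y) (hz : z ∈ Y)
    (htu : t ≠ u) (hzu : z ≠ u) (htz : t ≠ z) : s(t, z) ∈ Z := by
  rcases hZ with ⟨a, b, c, ⟨ab, ac, bc⟩, rfl⟩ | hq
  · obtain ⟨e1, e2, e3⟩ := tri_sub.1 hs
    have m1 := mem3_k4.1 (hK e1)
    have m2 := mem3_k4.1 (hK e2)
    have ua : a ≠ u := fun e => h _ e1 (by rw [e]; simp)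
    have ub : b ≠ u := fun e => h _ e1 (by rw [e]; simp)
    have uc : c ≠ u := fun e => h _ e2 (by rw [e]; simp)
    have h3 : ({a, b, c} : Finset ℕ) = Y.erase u := by
      refine eq_of_subset_of_card_le ?_ ?_
      · intro w hw
        simp only [mem_insert, mem_singleton] at hw
        rcases hw with rfl | rfl | rfl
        · exact mem_erase.2 ⟨ua, m1.1⟩
        · exact mem_erase.2 ⟨ub, m1.2.1⟩
        · exact mem_erase.2 ⟨uc, m2.2.1⟩
      · rw [card_erase_of_mem hu, hY, card_insert_of_notMem (by simp [ab, ac]), card_pair bc]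
    have ht' : t ∈ ({a, b, c} : Finset ℕ) := by rw [h3]; exact mem_erase.2 ⟨htu, ht⟩
    have hz' : z ∈ ({a, b, c} : Finset ℕ) := by rw [h3]; exact mem_erase.2 ⟨hzu, hz⟩
    simp only [mem_insert, mem_singleton] at ht' hz'
    rcases ht' with rfl | rfl | rfl <;> rcases hz' with rfl | rfl | rfl <;>
      first
        | exact absurd rfl htz
        | simp [tri]
  · exact absurd hs (l4_nsq hY hK hu h Z hq)

/-- **attach**: give `u` one edge -/
theorem k4_side3 {Y : Finset ℕ} (hY : #Y = 4) {K : Finset (Sym2 ℕ)} (hK : K ⊆ (Clu3.k4 Y).edges) (hM : M2 K)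
    {u t : ℕ} (hu : u ∈ Y) (ht : t ∈ Y) (hut : u ≠ t) (h0 : dg K u = 0) :
    ∃ F ⊆ (Clu3.k4 Y).edges, M2 F ∧ NSh F ∧ ∃ ε : ℤ, (ε = 1 ∨ (ε = -1 ∧ dg K t = 2)) ∧
      dv F = dv K + Pi.single u 1 + Pi.single t ε := by
  have hoff := l4_off h0
  by_cases h1 : dg K t ≤ 1
  · have hn : s(u, t) ∉ K := fun hc => hoff _ hc (by simp)
    have hns : NSh K := by
      intro Z hZ hs
      -- `t` has two edges in `Z`
      obtain ⟨c, hc, d, hd, h4⟩ := two_more hY hut hu ht
      obtain ⟨n1, n2, n3, n4, n5, n6⟩ := h4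
      have e1 := hs (sh_in3 hY hK hu hoff hZ hs ht hc hut.symm n1.symm n5.symm)
      have e2 := hs (sh_in3 hY hK hu hoff hZ hs ht hd hut.symm n2.symm n6.symm)
      have h5 : ({s(t, c), s(t, d)} : Finset (Sym2 ℕ)) ⊆ K.filter fun e => t ∈ e := by
        intro e he
        simp only [mem_insert, mem_singleton] at he
        rcases he with rfl | rfl
        · exact mem_filter.2 ⟨e1, by simp⟩
        · exact mem_filter.2 ⟨e2, by simp⟩
      have h6 := card_le_card h5
      rw [card_pair (by rw [Ne, Sym2.congr_right]; exact n4)] at h6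
      have : #(K.filter fun e => t ∈ e) ≤ 1 := h1
      omega
    exact ⟨insert s(u, t) K, Finset.insert_subset (mem3_k4.2 ⟨hu, ht, hut⟩) hK,
      l4_m2_insert hM hut (by omega) h1, nsh_pendant' hns hoff, 1, Or.inl rfl, l4_insert hut hn⟩
  · have h2 : dg K t = 2 := by have := hM.le t; omega
    have h3 : 0 < #(K.filter fun e => t ∈ e) := by
      have : #(K.filter fun e => t ∈ e) = 2 := h2
      omega
    obtain ⟨e, he⟩ := Finset.card_pos.1 h3
    obtain ⟨heK, hte⟩ := Finset.mem_filter.1 he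
    obtain ⟨z, rfl⟩ := hte
    obtain ⟨_, hz, htz⟩ := mem3_k4.1 (hK heK)
    have huz : u ≠ z := by
      rintro rfl
      exact hoff _ heK (by simp)
    have hK' : K.erase s(t, z) ⊆ K := Finset.erase_subset _ _
    have hoff' : ∀ e ∈ K.erase s(t, z), u ∉ e := fun e he => hoff e (hK' he)
    have hn : s(u, z) ∉ K.erase s(t, z) := fun hc => hoff' _ hc (by simp)
    have hz1 : dg (K.erase s(t, z)) z ≤ 1 := by
      have h4 := dg_erase heK z
      rw [if_pos (by simp)] at h4
      have := hM.le z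
      omega
    have hu0 : dg (K.erase s(t, z)) u ≤ 1 := by
      have := dg_mono hK' u
      omega
    have hns : NSh (K.erase s(t, z)) := by
      intro Z hZ hs
      exact Finset.notMem_erase _ _ (hs (sh_in3 hY hK hu hoff hZ (hs.trans hK') ht hz hut.symm huz.symm htz))
    refine ⟨insert s(u, z) (K.erase s(t, z)), Finset.insert_subset (mem3_k4.2 ⟨hu, hz, huz⟩) (hK'.trans hK),
      l4_m2_insert (hM.mono hK') huz hu0 hz1, nsh_pendant' hns hoff', -1, Or.inr ⟨rfl, h2⟩, ?_⟩
    rw [l4_insert huz hn, l4_erase htz heK]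
    funext w
    simp only [Pi.add_apply, sgl]
    split_ifs <;> ring

/-- an edge set in `K4(r, p, q, s)` with the path `r p q s` in which `r` and `s` have degree at most one is this path -/
theorem k4_eq_hp {Y : Finset ℕ} (hY : #Y = 4) {K : Finset (Sym2 ℕ)} (hK : K ⊆ (Clu3.k4 Y).edges) (hM : M2 K)
    {r p q s : ℕ} (h4 : Dist4 r p q s) (hr : dg K r ≤ 1) (hs : dg K s ≤ 1) (e1 : s(r, p) ∈ K) (e2 : s(p, q) ∈ K)
    (e3 : s(q, s) ∈ K) : K = hp r p q s := by
  obtain ⟨n1, n2, n3, n4, n5, n6⟩ := h4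
  have hYe := four_eq hY ⟨n1, n2, n3, n4, n5, n6⟩ (mem3_k4.1 (hK e1)).1 (mem3_k4.1 (hK e1)).2.1
    (mem3_k4.1 (hK e3)).1 (mem3_k4.1 (hK e3)).2.1
  have one : ∀ {v a b : ℕ}, dg K v ≤ 1 → s(v, a) ∈ K → s(v, b) ∈ K → a = b := by
    intro v a b hv ha hb
    have h1 : s(v, a) = s(v, b) := card_le_one.1 (show #(K.filter fun e => v ∈ e) ≤ 1 from hv) _
      (mem_filter.2 ⟨ha, by simp⟩) _ (mem_filter.2 ⟨hb, by simp⟩)
    exact Sym2.congr_right.1 h1
  refine Finset.Subset.antisymm ?_ ?_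
  · intro e he
    induction e using Sym2.ind with
    | _ a b =>
    have ha := (mem3_k4.1 (hK he)).1
    rw [hYe] at ha
    simp only [mem_insert, mem_singleton] at ha
    rcases ha with rfl | rfl | rfl | rfl
    · rw [one hr he e1]
      simp [hp]
    · rcases nbr_two (hM.le a) (by rw [Sym2.eq_swap]; exact e1 : s(a, r) ∈ K) e2 n2 he with h | h
      · rw [h, Sym2.eq_swap]
        simp [hp]
      · rw [h]
        simp [hp]
    · rcases nbr_two (hM.le a) (by rw [Sym2.eq_swap]; exact e2 : s(a, p) ∈ K) e3 n5 he with h | h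
      · rw [h, Sym2.eq_swap]
        simp [hp]
      · rw [h]
        simp [hp]
    · rw [one hs he (by rw [Sym2.eq_swap]; exact e3 : s(a, q) ∈ K), Sym2.eq_swap]
      simp [hp]
  · intro e he
    simp only [hp, mem_insert, mem_singleton] at he
    rcases he with rfl | rfl | rfl <;> assumption

/-- the same with a path with two edges -/
theorem k4_eq_p2 {Y : Finset ℕ} (hY : #Y = 4) {K : Finset (Sym2 ℕ)} (hK : K ⊆ (Clu3.k4 Y).edges) (hM : M2 K)
    {r c s : ℕ} (h3 : Dist3 r c s) (hr : dg K r ≤ 1) (hs : dg K s ≤ 1) (e1 : s(r, c) ∈ K) (e2 : s(c, s) ∈ K) :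
    K = {s(r, c), s(c, s)} := by
  obtain ⟨n1, n2, n3⟩ := h3
  obtain ⟨d, hd, m1, m2, m3, m4, m5, m6⟩ := fourth hY ⟨n1, n2, n3⟩ (mem3_k4.1 (hK e1)).1 (mem3_k4.1 (hK e1)).2.1
    (mem3_k4.1 (hK e2)).2.1
  have hYe := four_eq hY ⟨m1, m2, m3, m4, m5, m6⟩ (mem3_k4.1 (hK e1)).1 (mem3_k4.1 (hK e1)).2.1
    (mem3_k4.1 (hK e2)).2.1 hd
  have one : ∀ {v a b : ℕ}, dg K v ≤ 1 → s(v, a) ∈ K → s(v, b) ∈ K → a = b := by
    intro v a b hv ha hb
    have h1 : s(v, a) = s(v, b) := card_le_one.1 (show #(K.filter fun e => v ∈ e) ≤ 1 from hv) _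
      (mem_filter.2 ⟨ha, by simp⟩) _ (mem_filter.2 ⟨hb, by simp⟩)
    exact Sym2.congr_right.1 h1
  have k : ∀ a b, s(a, b) ∈ K → (a = r ∨ a = c ∨ a = s) → s(a, b) ∈ ({s(r, c), s(c, s)} : Finset (Sym2 ℕ)) := by
    rintro a b he (rfl | rfl | rfl)
    · rw [one hr he e1]
      simp
    · rcases nbr_two (hM.le a) (by rw [Sym2.eq_swap]; exact e1 : s(a, r) ∈ K) e2 n2 he with h | h
      · rw [h, Sym2.eq_swap]
        simp
      · rw [h]
        simp
    · rw [one hs he (by rw [Sym2.eq_swap]; exact e2 : s(a, c) ∈ K), Sym2.eq_swap]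
      simp
  refine Finset.Subset.antisymm ?_ ?_
  · intro e he
    induction e using Sym2.ind with
    | _ a b =>
    obtain ⟨ha, hb, hab⟩ := mem3_k4.1 (hK he)
    rw [hYe] at ha hb
    simp only [mem_insert, mem_singleton] at ha hb
    by_cases had : a = d
    · subst had
      have he' : s(b, a) ∈ K := by rw [Sym2.eq_swap]; exact he
      rw [show s(a, b) = s(b, a) from Sym2.eq_swap]
      refine k b a he' ?_
      rcases hb with rfl | rfl | rfl | rfl
      · exact Or.inl rfl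
      · exact Or.inr (Or.inl rfl)
      · exact Or.inr (Or.inr rfl)
      · exact absurd rfl hab
    · exact k a b he (by tauto)
  · intro e he
    simp only [mem_insert, mem_singleton] at he
    rcases he with rfl | rfl <;> assumption

/-- auxiliary: `r` has two edges -/
theorem k4_link_two {Y : Finset ℕ} (hY : #Y = 4) {K : Finset (Sym2 ℕ)} (hK : K ⊆ (Clu3.k4 Y).edges) (hM : M2 K)
    (hq : NSq K) {r s : ℕ} (hr : r ∈ Y) (hs : s ∈ Y) (hrs : r ≠ s) (he : s(r, s) ∉ K) (h2 : dg K r = 2) :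
    ∃ F ⊆ (Clu3.k4 Y).edges, M2 F ∧ NSh F ∧ dv F = dv K + Pi.single r (-1) + Pi.single s 1 := by
  by_cases h0 : dg K s = 0
  · obtain ⟨F, f1, f2, f3, ε, h3, f4⟩ := k4_side3 hY hK hM hs hr hrs.symm h0
    -- choose the branch `-1` by hand
    have h4 : 0 < #(K.filter fun e => r ∈ e) := by
      have : #(K.filter fun e => r ∈ e) = 2 := h2
      omega
    obtain ⟨e, he'⟩ := Finset.card_pos.1 h4
    obtain ⟨heK, hre⟩ := Finset.mem_filter.1 he'
    obtain ⟨z, rfl⟩ := hre
    obtain ⟨_, hz, hrz⟩ := mem3_k4.1 (hK heK)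
    have hoff := l4_off h0
    have hsz : s ≠ z := by
      rintro rfl
      exact hoff _ heK (by simp)
    have hK' : K.erase s(r, z) ⊆ K := Finset.erase_subset _ _
    have hoff' : ∀ e ∈ K.erase s(r, z), s ∉ e := fun e he => hoff e (hK' he)
    have hn : s(s, z) ∉ K.erase s(r, z) := fun hc => hoff' _ hc (by simp)
    have hz1 : dg (K.erase s(r, z)) z ≤ 1 := by
      have h4 := dg_erase heK z
      rw [if_pos (by simp)] at h4
      have := hM.le z
      omega
    have hs0 : dg (K.erase s(r, z)) s ≤ 1 := by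
      have := dg_mono hK' s
      omega
    have hns : NSh (K.erase s(r, z)) := by
      intro Z hZ hs'
      exact Finset.notMem_erase _ _ (hs' (sh_in3 hY hK hs hoff hZ (hs'.trans hK') hr hz hrs hsz.symm hrz))
    refine ⟨insert s(s, z) (K.erase s(r, z)), Finset.insert_subset (mem3_k4.2 ⟨hs, hz, hsz⟩) (hK'.trans hK),
      l4_m2_insert (hM.mono hK') hsz hs0 hz1, nsh_pendant' hns hoff', ?_⟩
    rw [l4_insert hsz hn, l4_erase hrz heK]
    funext w
    simp only [Pi.add_apply, sgl]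
    split_ifs <;> ring
  · -- `s` has an edge `s k`
    have h3 : 0 < #(K.filter fun e => s ∈ e) := by
      have : #(K.filter fun e => s ∈ e) = dg K s := rfl
      omega
    obtain ⟨e, he'⟩ := Finset.card_pos.1 h3
    obtain ⟨heK, hse⟩ := Finset.mem_filter.1 he'
    obtain ⟨k, rfl⟩ := hse
    obtain ⟨_, hk, hsk⟩ := mem3_k4.1 (hK heK)
    have hkr : k ≠ r := by
      rintro rfl
      rw [Sym2.eq_swap] at heK
      exact he heK
    obtain ⟨k', hk', m1, m2, m3, m4, m5, m6⟩ := fourth hY (a := r) (b := s) (c := k) ⟨hrs, hkr.symm, hsk⟩ hr hs hk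
    have hYe := four_eq hY ⟨m1, m2, m3, m4, m5, m6⟩ hr hs hk hk'
    -- the two edges at `r` are `r k` and `r k'`
    have hrk : s(r, k) ∈ K ∧ s(r, k') ∈ K := by
      have h5 : K.filter (fun e => r ∈ e) ⊆ {s(r, k), s(r, k')} := by
        intro f hf
        obtain ⟨hfK, hrf⟩ := mem_filter.1 hf
        obtain ⟨w, rfl⟩ := hrf
        obtain ⟨_, hw, hrw⟩ := mem3_k4.1 (hK hfK)
        rw [hYe] at hw
        simp only [mem_insert, mem_singleton] at hw
        rcases hw with rfl | rfl | rfl | rfl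
        · exact absurd rfl hrw
        · exact absurd hfK he
        · simp
        · simp
      have h6 : K.filter (fun e => r ∈ e) = {s(r, k), s(r, k')} := by
        refine eq_of_subset_of_card_le h5 ?_
        have : #(K.filter fun e => r ∈ e) = 2 := h2
        rw [this]
        exact card_le_two
      have h7 : s(r, k) ∈ K.filter fun e => r ∈ e := by rw [h6]; simp
      have h8 : s(r, k') ∈ K.filter fun e => r ∈ e := by rw [h6]; simp
      exact ⟨(mem_filter.1 h7).1, (mem_filter.1 h8).1⟩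
    -- `s k'` is not in `K`
    have hsk' : s(s, k') ∉ K := by
      intro hc
      refine hq (TFC.sq r k s k') ⟨r, k, s, k', ⟨m2, m1, m3, m4.symm, m6, m5⟩, rfl⟩ (sq_sub.2 ⟨hrk.1, ?_, hc, ?_⟩)
      · rw [Sym2.eq_swap]; exact heK
      · rw [Sym2.eq_swap]; exact hrk.2
    have hs1 : dg K s ≤ 1 := by
      show #(K.filter fun e => s ∈ e) ≤ 1
      refine card_le_one.2 fun f hf f' hf' => ?_
      have key : ∀ f ∈ K.filter (fun e => s ∈ e), f = s(s, k) := by
        intro f hf
        obtain ⟨hfK, hsf⟩ := mem_filter.1 hf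
        obtain ⟨w, rfl⟩ := hsf
        obtain ⟨_, hw, hsw⟩ := mem3_k4.1 (hK hfK)
        rw [hYe] at hw
        simp only [mem_insert, mem_singleton] at hw
        rcases hw with rfl | rfl | rfl | rfl
        · rw [Sym2.eq_swap] at hfK
          exact absurd hfK he
        · exact absurd rfl hsw
        · rfl
        · exact absurd hfK hsk'
      rw [key f hf, key f' hf']
    have hk'1 : dg K k' ≤ 1 := by
      show #(K.filter fun e => k' ∈ e) ≤ 1
      refine card_le_one.2 fun f hf f' hf' => ?_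
      have key : ∀ f ∈ K.filter (fun e => k' ∈ e), f = s(k', r) := by
        intro f hf
        obtain ⟨hfK, hsf⟩ := mem_filter.1 hf
        obtain ⟨w, rfl⟩ := hsf
        obtain ⟨_, hw, hsw⟩ := mem3_k4.1 (hK hfK)
        rw [hYe] at hw
        simp only [mem_insert, mem_singleton] at hw
        rcases hw with rfl | rfl | rfl | rfl
        · rfl
        · rw [Sym2.eq_swap] at hfK
          exact absurd hfK hsk'
        · exfalso
          have h9 := nbr_two (hM.le w) (by rw [Sym2.eq_swap]; exact hrk.1 : s(w, r) ∈ K)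
            (by rw [Sym2.eq_swap]; exact heK : s(w, s) ∈ K) m1 (by rw [Sym2.eq_swap]; exact hfK : s(w, k') ∈ K)
          rcases h9 with h9 | h9
          · exact m3 h9.symm
          · exact m5 h9.symm
        · exact absurd rfl hsw
      rw [key f hf, key f' hf']
    have hKe : K = hp k' r k s := k4_eq_hp hY hK hM ⟨m3.symm, m6.symm, m5.symm, m2, m1, m4.symm⟩ hk'1 hs1
      (by rw [Sym2.eq_swap]; exact hrk.2) hrk.1 (by rw [Sym2.eq_swap]; exact heK)
    have d4 : Dist4 k' s k r := ⟨m5.symm, m6.symm, m3.symm, m4, m1.symm, m2.symm⟩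
    refine ⟨hp k' s k r, hp_edges d4 hk' hs hk hr, hp_m2 d4, hp_nsh d4, ?_⟩
    rw [hKe, hp_dv d4, hp_dv ⟨m3.symm, m6.symm, m5.symm, m2, m1, m4.symm⟩]
    funext w
    simp only [Pi.add_apply, sgl, ev_apply]
    split_ifs <;> omega

/-- **link**: change the parities of `r` and `s` (`rs` not in `K`), or `rs` is blocked -/
theorem k4_link3 {D : Finset (Finset (Sym2 ℕ))} (hD : ∀ Z ∈ D, IsSh Z) {Y : Finset ℕ} (hY : #Y = 4)
    {K : Finset (Sym2 ℕ)} (hK : K ⊆ (Clu3.k4 Y).edges) (hc : Acap D K) (hq : NSq K) {r s : ℕ} (hr : r ∈ Y)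
    (hs : s ∈ Y) (hrs : r ≠ s) (he : s(r, s) ∉ K) :
    (∃ F ⊆ (Clu3.k4 Y).edges, Acap D F ∧ ∃ ε1 ε2 : ℤ, (ε1 = 1 ∨ ε1 = -1) ∧ (ε2 = 1 ∨ ε2 = -1) ∧
      dv F = dv K + Pi.single r ε1 + Pi.single s ε2) ∨
    (∃ k ∈ Y, Dist3 r k s ∧ K = {s(r, k), s(k, s)} ∧ tri r k s ∈ D) ∨
    (∃ k ∈ Y, ∃ k' ∈ Y, Dist4 r k k' s ∧ K = hp r k k' s ∧ tri r k k' ∈ D ∧ tri k k' s ∈ D ∧
      TFC.sq r k k' s ∈ D) := by
  have hM := hc.1
  have cap : ∀ F, M2 F → NSh F → Acap D F := fun F h1 h2 => ⟨h1, fun Z hZ => h2 Z (hD Z hZ)⟩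
  by_cases hr1 : dg K r ≤ 1
  swap
  · left
    obtain ⟨F, f1, f2, f3, f4⟩ := k4_link_two hY hK hM hq hr hs hrs he (by have := hM.le r; omega)
    exact ⟨F, f1, cap F f2 f3, -1, 1, Or.inr rfl, Or.inl rfl, f4⟩
  by_cases hs1 : dg K s ≤ 1
  swap
  · left
    obtain ⟨F, f1, f2, f3, f4⟩ := k4_link_two hY hK hM hq hs hr hrs.symm (by rw [Sym2.eq_swap]; exact he)
      (by have := hM.le s; omega)
    refine ⟨F, f1, cap F f2 f3, 1, -1, Or.inl rfl, Or.inr rfl, ?_⟩
    rw [f4]
    abel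
  have hM' := l4_m2_insert hM hrs hr1 hs1
  by_cases hA : Acap D (insert s(r, s) K)
  · exact Or.inl ⟨insert s(r, s) K, Finset.insert_subset (mem3_k4.2 ⟨hr, hs, hrs⟩) hK, hA, 1, 1, Or.inl rfl,
      Or.inl rfl, l4_insert hrs he⟩
  · have hA' : ∃ Z ∈ D, Z ⊆ insert s(r, s) K := by
      by_contra hn
      push Not at hn
      exact hA ⟨hM', hn⟩
    obtain ⟨Z, hZ, hZs⟩ := hA'
    have hsz : s(r, s) ∈ Z := by
      by_contra hn
      refine hc.2 Z hZ fun e heZ => ?_
      rcases Finset.mem_insert.1 (hZs heZ) with rfl | h4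
      · exact absurd heZ hn
      · exact h4
    rcases isSh_first (hD Z hZ) hsz with ⟨c, hd, rfl⟩ | ⟨q, p, hd, rfl⟩
    · right; left
      obtain ⟨e1, e2⟩ := tri_mem hd hZs
      obtain ⟨n1, n2, n3⟩ := hd
      have e1' : s(c, s) ∈ K := by rw [Sym2.eq_swap]; exact e1
      have e2' : s(r, c) ∈ K := by rw [Sym2.eq_swap]; exact e2
      refine ⟨c, (mem3_k4.1 (hK e1')).1, ⟨n2, n1, n3.symm⟩,
        k4_eq_p2 hY hK hM ⟨n2, n1, n3.symm⟩ hr1 hs1 e2' e1', ?_⟩
      rw [tri_ref2]
      exact hZ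
    · obtain ⟨e1, e2, e3⟩ := sq_mem hd hZs
      obtain ⟨n1, n2, n3, n4, n5, n6⟩ := hd
      have e1' : s(q, s) ∈ K := by rw [Sym2.eq_swap]; exact e1
      have e2' : s(p, q) ∈ K := by rw [Sym2.eq_swap]; exact e2
      have e3' : s(r, p) ∈ K := by rw [Sym2.eq_swap]; exact e3
      have hq' := (mem3_k4.1 (hK e1')).1
      have hp' := (mem3_k4.1 (hK e2')).1
      have d4 : Dist4 r p q s := ⟨n3, n2, n1, n6.symm, n5.symm, n4.symm⟩
      have hKe := k4_eq_hp hY hK hM d4 hr1 hs1 e3' e2' e1'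
      by_cases t1 : tri r p q ∈ D
      · by_cases t2 : tri p q s ∈ D
        · right; right
          refine ⟨p, hp', q, hq', d4, hKe, t1, t2, ?_⟩
          have : TFC.sq r p q s = TFC.sq r s q p := by
            rw [sq_ref r p q s, sq_rot, sq_rot, sq_rot]
          rw [this]
          exact hZ
        · left
          have d3 : Dist3 p q s := ⟨n6.symm, n5.symm, n4.symm⟩
          refine ⟨tri p q s, tri_edges d3 hp' hq' hs, acap_sh hD (Or.inl ⟨_, _, _, d3, rfl⟩) t2, -1, 1, Or.inr rfl,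
            Or.inl rfl, ?_⟩
          rw [hKe, hp_dv d4, dv_tri d3]
          funext w
          simp only [Pi.add_apply, sgl, ev_apply]
          split_ifs <;> omega
      · left
        have d3 : Dist3 r p q := ⟨n3, n2, n6.symm⟩
        refine ⟨tri r p q, tri_edges d3 hr hp' hq', acap_sh hD (Or.inl ⟨_, _, _, d3, rfl⟩) t1, 1, -1, Or.inl rfl,
          Or.inr rfl, ?_⟩
        rw [hKe, hp_dv d4, dv_tri d3]
        funext w
        simp only [Pi.add_apply, sgl, ev_apply]
        split_ifs <;> omega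

end Pool.Agent.P34

end

section -- file P34/XAB

/-!
# STEP 1 of the case `x, y, r, s ∈ T`, `p` free, triangles and squares

Lemma AB: the part of a near cover in the cluster of the square `x y q p` can be changed so that only the parity of `x`, or
only the parity of `y`, changes. Then the near covers of `x`, `r`, `s`.
-/

set_option autoImplicit false

namespace Pool.Agent.P34

open Finset Pool.Agent.TFC Pool.Agent.PF4 Pool.Agent.PF4.LD Pool.Agent.PF4.XC Pool.Agent.PF4.XT Pool.Agent.PF4.XTg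
open Pool.Agent.PF4.XF (XD FitK Cv World WJ Av NC Rch dg_off mem_k2 mem_k4)

theorem chg_congr {K K' : Finset (Sym2 ℕ)} (v : ℕ) : ∀ {l : List (Sym2 ℕ)}, (∀ e ∈ l, (e ∈ K ↔ e ∈ K')) →
    chg K l v = chg K' l v := by
  intro l
  induction l with
  | nil => exact fun _ => rfl
  | cons e l ih =>
    intro h
    have h1 : sg K e = sg K' e := by
      unfold sg
      simp only [h e List.mem_cons_self]
    rw [chg, chg, h1, ih fun f hf => h f (List.mem_cons_of_mem _ hf)]

theorem mem_tgs_iff {l : List (Sym2 ℕ)} (hl : l.Nodup) {K : Finset (Sym2 ℕ)} {f : Sym2 ℕ} :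
    f ∈ tgs K l ↔ (f ∈ l ∧ f ∉ K) ∨ (f ∉ l ∧ f ∈ K) := by
  by_cases h : f ∈ l
  · rw [mem_tgs hl h]; tauto
  · rw [mem_tgs_not h]; tauto

section
variable {X : XD3} {P : ℕ → Finset (Sym2 ℕ) → Prop} {D : Finset (Finset (Sym2 ℕ))} {j : ℕ} {S : Finset ℕ}
  {M : ℕ → Finset (Sym2 ℕ)} {A : Clu3 ℕ → Finset (Sym2 ℕ) → Prop} {CL U : List (Clu3 ℕ)} {PL : Finset (Sym2 ℕ)}
  {pl mi : ℕ → Prop}

theorem au3_tgp (h : PW3 X P D j S M A CL U PL pl mi) : ∀ {l : List (Sym2 ℕ)} {K : Finset (Sym2 ℕ)},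
    AU3 A U PL K → (∀ e ∈ l, e ∈ PL) → AU3 A U PL (tgs K l) := by
  intro l
  induction l with
  | nil => exact fun hK _ => hK
  | cons e l ih =>
    intro K hK hp
    rw [tgs]
    exact ih (pw3_tgp h hK (hp e List.mem_cons_self)) fun f hf => hp f (List.mem_cons_of_mem _ hf)

/-- **near cover: the parts in some clusters are replaced, plain edges are toggled** -/
theorem PW3.nmt (h : PW3 X P D j S M A CL U PL pl mi) {w : ℕ} (hw : w ∈ S) (hT : w ∈ X.T)
    (cs : List (Clu3 ℕ × Finset (Sym2 ℕ))) (hn : (cs.map Prod.fst).Nodup)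
    (hs : ∀ t ∈ cs, t.1 ∈ U ∧ t.2 ⊆ t.1.edges ∧ A t.1 t.2)
    (hA : ∀ c ∈ U, A c (M w ∩ c.edges)) {l : List (Sym2 ℕ)} (hl : l.Nodup)
    (hp : ∀ e ∈ l, e ∈ PL) :
    ∃ v ∈ X.V2, 0 < con (pl v) (mi v) (dch3 (M w) cs v + chg (M w) l v - if v = w then 1 else 0) := by
  obtain ⟨K, h1, h2, h3, h4, h5⟩ := h.multi0 (K0 := M w ∩ (Ucl3 U ∪ PL)) Finset.inter_subset_right cs hn
    fun t ht => ⟨(hs t ht).1, (hs t ht).2.1⟩
  have hAU : AU3 A U PL K := by
    refine ⟨h1, fun c hc => ?_⟩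
    by_cases hcc : c ∈ cs.map Prod.fst
    · obtain ⟨t, ht, rfl⟩ := List.mem_map.1 hcc
      rw [h3 t ht]
      exact (hs t ht).2.2
    · rw [h2 c hc hcc, h.interW hc]
      exact hA c hc
  have e : dch3 (M w ∩ (Ucl3 U ∪ PL)) cs = dch3 (M w) cs := by
    unfold dch3
    congr 1
    refine List.map_congr_left fun t ht => ?_
    rw [h.interW (hs t ht).1]
  by_contra hcon
  push Not at hcon
  have h6 := h.nc w hw hT _ (au3_tgp h hAU hp)
  have h7 : ph X.V2 pl mi (dv (tgs K l) - dv (M w ∩ (Ucl3 U ∪ PL)) - Pi.single w 1) ≤ 0 := by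
    refine ph_le fun v hv => ?_
    have h8 := hcon v hv
    have e2 : chg K l v = chg (M w) l v := by
      refine chg_congr v fun f hf => ?_
      have hfP := hp f hf
      constructor
      · intro hfK
        have h9 : f ∈ K ∩ PL := Finset.mem_inter.2 ⟨hfK, hfP⟩
        rw [h4] at h9
        exact (Finset.mem_inter.1 (Finset.mem_inter.1 h9).1).1
      · intro hfM
        have h9 : f ∈ (M w ∩ (Ucl3 U ∪ PL)) ∩ PL :=
          Finset.mem_inter.2 ⟨Finset.mem_inter.2 ⟨hfM, Finset.mem_union_right _ hfP⟩, hfP⟩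
        rw [← h4] at h9
        exact (Finset.mem_inter.1 h9).1
    have e1 : (dv (tgs K l) - dv (M w ∩ (Ucl3 U ∪ PL)) - Pi.single w 1 : ℕ → ℤ) v =
        dch3 (M w) cs v + chg (M w) l v - if v = w then (1 : ℤ) else 0 := by
      rw [Pi.sub_apply, Pi.sub_apply, dv_tgs v hl, h5, e, e2, sgl, Pi.add_apply]
      ring
    rw [e1]
    exact h8
  omega

end

/-! ### Lemma AB -/

/-- a set of edges of a cluster with two centres without short cycles -/
theorem Hub.nsh {c : Clu3 ℕ} {u v : ℕ} {L : Finset ℕ} (h : Hub c u v L) (hv : c.Valid) {K : Finset (Sym2 ℕ)}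
    (hK : K ⊆ c.edges) (h3 : ∀ l ∈ L, s(u, v) ∈ K → s(u, l) ∈ K → s(v, l) ∈ K → False)
    (h4 : ∀ l ∈ L, ∀ l' ∈ L, l ≠ l' → s(u, l) ∈ K → s(v, l) ∈ K → s(u, l') ∈ K → s(v, l') ∈ K → False) : NSh K :=
  nsh_k11 (show (Clu3.k11 u v L).Valid from h.dat hv) (hK.trans h.sup) h3 h4

/-- **the change**: only the parity of `x`, nothing is lost at `q`, everything at `p` -/
structure Ch (pl mi : ℕ → Prop) (N K : Finset (Sym2 ℕ)) (x y q p : ℕ) : Prop where
  ox : (dv K x - dv N x) % 2 = 1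
  ey : (dv K y - dv N y) % 2 = 0
  nq : 0 ≤ dv K q - dv N q
  ev : ∀ v, v ≠ x → v ≠ y → v ≠ q → v ≠ p →
    (dv K v - dv N v) % 2 = 0 ∧ con (pl v) (mi v) (dv K v - dv N v) ≤ 0

/-- the change by toggling edges -/
theorem Ch.tg {pl mi : ℕ → Prop} {N : Finset (Sym2 ℕ)} {l : List (Sym2 ℕ)} (hl : l.Nodup) {x y q p : ℕ}
    (h1 : chg N l x % 2 = 1) (h2 : chg N l y % 2 = 0) (h3 : 0 ≤ chg N l q)
    (h4 : ∀ v, v ≠ x → v ≠ y → v ≠ q → v ≠ p → chg N l v % 2 = 0 ∧ con (pl v) (mi v) (chg N l v) ≤ 0) :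
    Ch pl mi N (tgs N l) x y q p := by
  have e : ∀ v, dv (tgs N l) v - dv N v = chg N l v := fun v => by rw [dv_tgs v hl]; ring
  exact ⟨by rw [e]; exact h1, by rw [e]; exact h2, by rw [e]; exact h3, fun v a b c d => by rw [e]; exact h4 v a b c d⟩

/-- three edges at one vertex -/
theorem three3 {K : Finset (Sym2 ℕ)} (hK : M2 K) {v a b c : ℕ} (ha : s(v, a) ∈ K) (hb : s(v, b) ∈ K)
    (hc : s(v, c) ∈ K) (hab : a ≠ b) (hac : a ≠ c) (hbc : b ≠ c) : False := by
  have h1 := hK.le v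
  have h2 : ({s(v, a), s(v, b), s(v, c)} : Finset (Sym2 ℕ)) ⊆ K.filter fun e => v ∈ e := by
    intro e he
    simp only [Finset.mem_insert, Finset.mem_singleton] at he
    rw [Finset.mem_filter]
    rcases he with rfl | rfl | rfl
    · exact ⟨ha, by simp⟩
    · exact ⟨hb, by simp⟩
    · exact ⟨hc, by simp⟩
  have h3 := Finset.card_le_card h2
  have h4 : #({s(v, a), s(v, b), s(v, c)} : Finset (Sym2 ℕ)) = 3 := by
    have n1 : s(v, a) ≠ s(v, b) := fun h => hab (Sym2.congr_right.1 h)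
    have n2 : s(v, a) ≠ s(v, c) := fun h => hac (Sym2.congr_right.1 h)
    have n3 : s(v, b) ≠ s(v, c) := fun h => hbc (Sym2.congr_right.1 h)
    rw [Finset.card_insert_of_notMem (by simp [n1, n2]), Finset.card_insert_of_notMem (by simp [n3]),
      Finset.card_singleton]
  rw [h4] at h3
  exact absurd (h3.trans h1) (by norm_num)

section
variable {pl mi : ℕ → Prop} {c : Clu3 ℕ} {x y q p : ℕ} {N : Finset (Sym2 ℕ)}

/-- **Lemma AB**, centres `y`, `p` -/
theorem ab_yp (hv : c.Valid) {L : Finset ℕ} (hH : Hub c y p L) (hx : x ∈ L) (hq : q ∈ L) (xq : x ≠ q)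
    (hN : N ⊆ c.edges) (hs : NSh N) :
    (∃ K ⊆ c.edges, NSh K ∧ Ch pl mi N K x y q p) ∨
    ((∃ K ⊆ c.edges, NSh K ∧ Ch pl mi N K y x q p) ∧
      ∃ e f, Dist4 x e f p ∧ s(x, e) ∈ N ∧ s(e, f) ∈ N ∧ s(f, p) ∈ N) := by
  obtain ⟨yp, yL, pL, _⟩ := hH.dat hv
  have xy : x ≠ y := fun e => yL (e ▸ hx)
  have xp : x ≠ p := fun e => pL (e ▸ hx)
  have qy : q ≠ y := fun e => yL (e ▸ hq)
  have qp : q ≠ p := fun e => pL (e ▸ hq)
  have exp : s(x, p) ∈ c.edges := hH.sub (mem_k2.2 (Or.inr ⟨Or.inr rfl, hx⟩))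
  have exy : s(x, y) ∈ c.edges := hH.sub (mem_k2.2 (Or.inr ⟨Or.inl rfl, hx⟩))
  have hxn : ∀ a, s(x, a) ∈ c.edges → a = y ∨ a = p := by
    intro a ha
    rcases mem3_k11.1 (hH.sup ha) with (⟨h1, _⟩ | ⟨h1, _⟩) | (⟨h1 | h1, _⟩ | ⟨h1, _⟩)
    · exact absurd h1 xy
    · exact absurd h1 xp
    · exact absurd h1 xy
    · exact absurd h1 xp
    · exact h1
  by_cases h1 : s(x, p) ∈ N
  · -- remove `x p`
    left
    refine ⟨tgs N [s(x, p)], tgs_sub hN (by simpa using exp), hs.mono ?_, Ch.tg (by simp) ?_ ?_ ?_ ?_⟩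
    · intro e he
      rcases (mem_tgs_iff (by simp)).1 he with ⟨g1, g2⟩ | ⟨_, g⟩
      · rw [List.mem_singleton.1 g1] at g2; exact absurd h1 g2
      · exact g
    · simp only [chg, inc_mk, sg_mem h1, true_or, if_true]; norm_num
    · simp [chg, inc_mk, xy.symm, yp]
    · simp [chg, inc_mk, xq.symm, qp]
    · intro v a b _ d
      have e : chg N [s(x, p)] v = 0 := by simp [chg, inc_mk, a, d]
      rw [e]; exact ⟨rfl, (con_zero _ _).le⟩
  by_cases h2 : NSh (insert s(x, p) N)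
  · -- add `x p`
    left
    refine ⟨tgs N [s(x, p)], tgs_sub hN (by simpa using exp), h2.mono ?_, Ch.tg (by simp) ?_ ?_ ?_ ?_⟩
    · intro e he
      rcases (mem_tgs_iff (by simp)).1 he with ⟨g1, _⟩ | ⟨_, g⟩
      · rw [List.mem_singleton.1 g1]; exact Finset.mem_insert_self _ _
      · exact Finset.mem_insert_of_mem g
    · simp only [chg, inc_mk, sg_not h1, true_or, if_true]; norm_num
    · simp [chg, inc_mk, xy.symm, yp]
    · simp [chg, inc_mk, xq.symm, qp]
    · intro v a b _ d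
      have e : chg N [s(x, p)] v = 0 := by simp [chg, inc_mk, a, d]
      rw [e]; exact ⟨rfl, (con_zero _ _).le⟩
  rcases nsh_insert hs h2 with ⟨a, ⟨n1, n2, n3⟩, g1, g2⟩ | ⟨a, b, ⟨n1, n2, n3, n4, n5, n6⟩, g1, g2, g3⟩
  · -- the path `x y p`
    obtain rfl : a = y := (hxn a (hN g1)).resolve_right n3
    left
    have nd : [s(x, a), s(a, p)].Nodup := by
      simp only [List.nodup_cons, List.mem_singleton, List.not_mem_nil, not_false_iff, List.nodup_nil, and_true]
      intro h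
      rw [Sym2.eq_iff] at h
      rcases h with ⟨h, _⟩ | ⟨h, _⟩
      · exact xy h
      · exact xp h
    refine ⟨tgs N [s(x, a), s(a, p)], tgs_sub hN ?_, hs.mono ?_, Ch.tg nd ?_ ?_ ?_ ?_⟩
    · intro e he
      simp only [List.mem_cons, List.not_mem_nil, or_false] at he
      rcases he with rfl | rfl
      · exact hN g1
      · exact hN g2
    · intro e he
      rcases (mem_tgs_iff nd).1 he with ⟨k1, k2⟩ | ⟨_, k⟩
      · simp only [List.mem_cons, List.not_mem_nil, or_false] at k1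
        rcases k1 with rfl | rfl
        · exact absurd g1 k2
        · exact absurd g2 k2
      · exact k
    · simp only [chg, inc_mk, sg_mem g1, sg_mem g2, xy, xp, true_or, or_self, if_true, if_false]; norm_num
    · simp only [chg, inc_mk, sg_mem g1, sg_mem g2, true_or, or_true, if_true]; norm_num
    · simp [chg, inc_mk, xq.symm, qy, qp]
    · intro v b1 b2 _ b4
      have e : chg N [s(x, a), s(a, p)] v = 0 := by simp [chg, inc_mk, b1, b2, b4]
      rw [e]; exact ⟨rfl, (con_zero _ _).le⟩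
  · -- the path `x y b p`
    obtain rfl : a = y := (hxn a (hN g1)).resolve_right n5
    right
    have hyp : s(a, p) ∉ N := fun h => hs (tri a b p) (Or.inl ⟨a, b, p, ⟨n4, n5, n6⟩, rfl⟩)
      (tri_sub.2 ⟨g2, g3, by rwa [Sym2.eq_swap]⟩)
    have nd : [s(x, a), s(x, p)].Nodup := by
      simp only [List.nodup_cons, List.mem_singleton, List.not_mem_nil, not_false_iff, List.nodup_nil, and_true]
      exact fun h => n5 (Sym2.congr_right.1 h)
    refine ⟨⟨tgs N [s(x, a), s(x, p)], tgs_sub hN ?_, ?_, Ch.tg nd ?_ ?_ ?_ ?_⟩, a, b, ⟨n1, n2, n3, n4, n5, n6⟩,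
      g1, g2, g3⟩
    · intro e he
      simp only [List.mem_cons, List.not_mem_nil, or_false] at he
      rcases he with rfl | rfl
      · exact hN g1
      · exact exp
    · have hK : tgs N [s(x, a), s(x, p)] ⊆ c.edges := by
        refine tgs_sub hN ?_
        intro e he
        simp only [List.mem_cons, List.not_mem_nil, or_false] at he
        rcases he with rfl | rfl
        · exact hN g1
        · exact exp
      have hm : ∀ e, e ∈ tgs N [s(x, a), s(x, p)] → e ≠ s(x, p) → e ∈ N ∧ e ≠ s(x, a) := by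
        intro e he hne
        rcases (mem_tgs_iff nd).1 he with ⟨k1, k2⟩ | ⟨k1, k2⟩
        · simp only [List.mem_cons, List.not_mem_nil, or_false] at k1
          rcases k1 with rfl | rfl
          · exact absurd g1 k2
          · exact absurd rfl hne
        · simp only [List.mem_cons, List.not_mem_nil, or_false, not_or] at k1
          exact ⟨k2, k1.1⟩
      have n7 : s(a, p) ≠ s(x, p) := by
        intro h
        rw [Sym2.eq_iff] at h
        rcases h with ⟨h, _⟩ | ⟨h, _⟩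
        · exact xy h.symm
        · exact yp h
      refine hH.nsh hv hK (fun l _ k1 _ _ => hyp (hm _ k1 n7).1) fun l hl l' hl' hne k1 k2 k3 k4 => ?_
      have hal : ∀ l ∈ L, s(a, l) ∈ tgs N [s(x, a), s(x, p)] → s(a, l) ∈ N ∧ l ≠ x := by
        intro l hl k
        have n8 : s(a, l) ≠ s(x, p) := by
          intro h
          rw [Sym2.eq_iff] at h
          rcases h with ⟨h, _⟩ | ⟨h, _⟩
          · exact xy h.symm
          · exact yp h
        obtain ⟨m1, m2⟩ := hm _ k n8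
        exact ⟨m1, fun h => m2 (by rw [h, Sym2.eq_swap])⟩
      have hpl : ∀ l ∈ L, l ≠ x → s(p, l) ∈ tgs N [s(x, a), s(x, p)] → s(p, l) ∈ N := by
        intro l hl hlx k
        refine (hm _ k ?_).1
        intro h
        rw [Sym2.eq_iff] at h
        rcases h with ⟨h, _⟩ | ⟨_, h⟩
        · exact xp h.symm
        · exact hlx h
      obtain ⟨m1, m2⟩ := hal l hl k1
      obtain ⟨m3, m4⟩ := hal l' hl' k3
      have m5 := hpl l hl m2 k2
      have m6 := hpl l' hl' m4 k4
      have al : a ≠ l := fun e => yL (by rw [e]; exact hl)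
      have al' : a ≠ l' := fun e => yL (by rw [e]; exact hl')
      have ppl : p ≠ l := fun e => pL (e ▸ hl)
      have ppl' : p ≠ l' := fun e => pL (e ▸ hl')
      exact hs (TFC.sq a l p l') (Or.inr ⟨a, l, p, l', ⟨al, n5, al', ppl.symm, hne, ppl'⟩, rfl⟩)
        (P34.sq_sub.2 ⟨m1, by rwa [Sym2.eq_swap], m6, by rwa [Sym2.eq_swap]⟩)
    · simp only [chg, inc_mk, sg_mem g1, sg_not h1, xy.symm, yp, true_or, or_true, or_self, if_true, if_false]
      norm_num
    · simp only [chg, inc_mk, sg_mem g1, sg_not h1, true_or, if_true]; norm_num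
    · simp [chg, inc_mk, xq.symm, qy, qp]
    · intro v b1 b2 _ b4
      have e : chg N [s(x, a), s(x, p)] v = 0 := by simp [chg, inc_mk, b1, b2, b4]
      rw [e]; exact ⟨rfl, (con_zero _ _).le⟩

/-- a set of edges of a cluster without an edge between the two centres, without short cycles -/
theorem nsh_h2 {c : Clu3 ℕ} {u v : ℕ} {L : Finset ℕ} (h : Hub c u v L) (hv : c.Valid) {K : Finset (Sym2 ℕ)}
    (hK : K ⊆ c.edges) (huv : s(u, v) ∉ K) (h4 : ∀ l ∈ L, ∀ l' ∈ L, l ≠ l' → s(u, l) ∈ K → s(v, l) ∈ K →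
      s(u, l') ∈ K → s(v, l') ∈ K → False) : NSh K :=
  h.nsh hv hK (fun _ _ k _ _ => huv k) h4

/-- **Lemma AB**, centres `x`, `q` -/
theorem ab_xq (hv : c.Valid) {L : Finset ℕ} (hH : Hub c x q L) (hy : y ∈ L) (hp : p ∈ L) (yp : y ≠ p)
    (h2 : s(x, q) ∉ c.edges) (hl : ∀ l ∈ L, l ≠ y → l ≠ p → mi l → pl l) (hN : N ⊆ c.edges) (hs : NSh N) (hM : M2 N) :
    (∃ K ⊆ c.edges, NSh K ∧ Ch pl mi N K x y q p) ∨
    ((∃ K ⊆ c.edges, NSh K ∧ Ch pl mi N K y x q p) ∧
      ∃ e f, Dist4 x e f p ∧ s(x, e) ∈ N ∧ s(e, f) ∈ N ∧ s(f, p) ∈ N) := by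
  obtain ⟨xq, xL, qL, _⟩ := hH.dat hv
  have yx : y ≠ x := fun e => xL (e ▸ hy)
  have px : p ≠ x := fun e => xL (e ▸ hp)
  have yq : y ≠ q := fun e => qL (e ▸ hy)
  have pq : p ≠ q := fun e => qL (e ▸ hp)
  have cx : ∀ l ∈ L, s(x, l) ∈ c.edges := fun l hl => hH.sub (mem_k2.2 (Or.inl ⟨Or.inl rfl, hl⟩))
  have cq : ∀ l ∈ L, s(q, l) ∈ c.edges := fun l hl => hH.sub (mem_k2.2 (Or.inl ⟨Or.inr rfl, hl⟩))
  have exp : s(x, p) ∈ c.edges := cx p hp
  have hxn : ∀ a, s(x, a) ∈ c.edges → a ∈ L := by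
    intro a ha
    rcases mem3_k11.1 (hH.sup ha) with (⟨_, h1⟩ | ⟨h1, _⟩) | (⟨_, h1⟩ | ⟨h1, _⟩)
    · exact absurd (h1 ▸ ha) h2
    · exact absurd h1 xq
    · exact h1
    · exact absurd ‹x ∈ L› xL
  have hpn : ∀ a, s(a, p) ∈ c.edges → a = x ∨ a = q := by
    intro a ha
    rcases mem3_k11.1 (hH.sup ha) with (⟨h1, _⟩ | ⟨h1, _⟩) | (⟨h1, _⟩ | ⟨h1, _⟩)
    · exact Or.inl h1
    · exact Or.inr h1
    · exact h1
    · exact absurd h1 (by rintro (h | h); exacts [px h, pq h])
  have hxqK : ∀ {K : Finset (Sym2 ℕ)}, K ⊆ c.edges → s(x, q) ∉ K := fun hK h => h2 (hK h)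
  by_cases h1 : s(x, p) ∈ N
  · -- remove `x p`
    left
    refine ⟨tgs N [s(x, p)], tgs_sub hN (by simpa using exp), hs.mono ?_, Ch.tg (by simp) ?_ ?_ ?_ ?_⟩
    · intro e he
      rcases (mem_tgs_iff (by simp)).1 he with ⟨g1, g2⟩ | ⟨_, g⟩
      · rw [List.mem_singleton.1 g1] at g2; exact absurd h1 g2
      · exact g
    · simp only [chg, inc_mk, sg_mem h1, true_or, if_true]; norm_num
    · simp [chg, inc_mk, yx, yp]
    · simp [chg, inc_mk, xq.symm, pq.symm]
    · intro v a b _ d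
      have e : chg N [s(x, p)] v = 0 := by simp [chg, inc_mk, a, d]
      rw [e]; exact ⟨rfl, (con_zero _ _).le⟩
  by_cases h3 : NSh (insert s(x, p) N)
  · -- add `x p`
    left
    refine ⟨tgs N [s(x, p)], tgs_sub hN (by simpa using exp), h3.mono ?_, Ch.tg (by simp) ?_ ?_ ?_ ?_⟩
    · intro e he
      rcases (mem_tgs_iff (by simp)).1 he with ⟨g1, _⟩ | ⟨_, g⟩
      · rw [List.mem_singleton.1 g1]; exact Finset.mem_insert_self _ _
      · exact Finset.mem_insert_of_mem g
    · simp only [chg, inc_mk, sg_not h1, true_or, if_true]; norm_num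
    · simp [chg, inc_mk, yx, yp]
    · simp [chg, inc_mk, xq.symm, pq.symm]
    · intro v a b _ d
      have e : chg N [s(x, p)] v = 0 := by simp [chg, inc_mk, a, d]
      rw [e]; exact ⟨rfl, (con_zero _ _).le⟩
  rcases nsh_insert hs h3 with ⟨a, ⟨n1, n2, n3⟩, g1, g2⟩ | ⟨a, b, ⟨n1, n2, n3, n4, n5, n6⟩, g1, g2, g3⟩
  · -- no path `x a p`
    exfalso
    rcases hpn a (hN g2) with h | h
    · exact n1 h.symm
    · exact h2 (h ▸ hN g1)
  · -- the path `x a q p`
    obtain rfl : b = q := (hpn b (hN g3)).resolve_left n2.symm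
    have ha : a ∈ L := hxn a (hN g1)
    have qp := g3
    have qa : s(b, a) ∈ N := by rw [Sym2.eq_swap]; exact g2
    have hb : ∀ l, s(b, l) ∈ N → l = a ∨ l = p := by
      intro l k
      by_contra hc
      rw [not_or] at hc
      exact three3 hM k qa qp hc.1 hc.2 n5
    have hP : ∃ e f, Dist4 x e f p ∧ s(x, e) ∈ N ∧ s(e, f) ∈ N ∧ s(f, p) ∈ N :=
      ⟨a, b, ⟨n1, n2, n3, n4, n5, n6⟩, g1, g2, g3⟩
    by_cases hay : a = y
    · -- `a = y`
      subst hay
      right
      have nd : [s(x, a), s(x, p)].Nodup := by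
        simp only [List.nodup_cons, List.mem_singleton, List.not_mem_nil, not_false_iff, List.nodup_nil, and_true]
        exact fun h => n5 (Sym2.congr_right.1 h)
      have hK : tgs N [s(x, a), s(x, p)] ⊆ c.edges := by
        refine tgs_sub hN ?_
        intro e he
        simp only [List.mem_cons, List.not_mem_nil, or_false] at he
        rcases he with rfl | rfl
        · exact hN g1
        · exact exp
      have hm : ∀ e, e ∈ tgs N [s(x, a), s(x, p)] → e ≠ s(x, p) → e ∈ N ∧ e ≠ s(x, a) := by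
        intro e he hne
        rcases (mem_tgs_iff nd).1 he with ⟨k1, k2⟩ | ⟨k1, k2⟩
        · simp only [List.mem_cons, List.not_mem_nil, or_false] at k1
          rcases k1 with rfl | rfl
          · exact absurd g1 k2
          · exact absurd rfl hne
        · simp only [List.mem_cons, List.not_mem_nil, or_false, not_or] at k1
          exact ⟨k2, k1.1⟩
      refine ⟨⟨tgs N [s(x, a), s(x, p)], hK, ?_, Ch.tg nd ?_ ?_ ?_ ?_⟩, hP⟩
      · refine nsh_h2 hH hv hK (hxqK hK) fun l hl l' hl' hne k1 k2 k3 k4 => ?_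
        have hbl : ∀ l, s(b, l) ∈ tgs N [s(x, a), s(x, p)] → l = a ∨ l = p := by
          intro l k
          refine hb l (hm _ k ?_).1
          intro h
          rw [Sym2.eq_iff] at h
          rcases h with ⟨h, _⟩ | ⟨h, _⟩
          · exact xq h.symm
          · exact pq h.symm
        have hxa : s(x, a) ∉ tgs N [s(x, a), s(x, p)] := fun k =>
          (hm _ k fun h => n5 (Sym2.congr_right.1 h)).2 rfl
        rcases hbl l k2 with rfl | rfl
        · exact hxa k1
        · rcases hbl l' k4 with rfl | rfl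
          · exact hxa k3
          · exact hne rfl
      · simp only [chg, inc_mk, sg_mem g1, sg_not h1, yx, yp, true_or, or_true, or_self, if_true, if_false]
        norm_num
      · simp only [chg, inc_mk, sg_mem g1, sg_not h1, true_or, if_true]; norm_num
      · simp [chg, inc_mk, xq.symm, yq.symm, pq.symm]
      · intro v b1 b2 _ b4
        have e : chg N [s(x, a), s(x, p)] v = 0 := by simp [chg, inc_mk, b1, b2, b4]
        rw [e]; exact ⟨rfl, (con_zero _ _).le⟩
    have hqy : s(b, y) ∉ N := fun k => by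
      rcases hb y k with h | h
      · exact hay h.symm
      · exact yp h
    by_cases hxy : s(x, y) ∈ N
    · -- `- x y + b y`
      left
      have nd : [s(x, y), s(b, y)].Nodup := by
        simp only [List.nodup_cons, List.mem_singleton, List.not_mem_nil, not_false_iff, List.nodup_nil, and_true]
        intro h
        rw [Sym2.eq_iff] at h
        rcases h with ⟨h, _⟩ | ⟨h, _⟩
        · exact xq h
        · exact yx h.symm
      have hK : tgs N [s(x, y), s(b, y)] ⊆ c.edges := by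
        refine tgs_sub hN ?_
        intro e he
        simp only [List.mem_cons, List.not_mem_nil, or_false] at he
        rcases he with rfl | rfl
        · exact hN hxy
        · exact cq y hy
      have hm : ∀ e, e ∈ tgs N [s(x, y), s(b, y)] → e ≠ s(b, y) → e ∈ N ∧ e ≠ s(x, y) := by
        intro e he hne
        rcases (mem_tgs_iff nd).1 he with ⟨k1, k2⟩ | ⟨k1, k2⟩
        · simp only [List.mem_cons, List.not_mem_nil, or_false] at k1
          rcases k1 with rfl | rfl
          · exact absurd hxy k2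
          · exact absurd rfl hne
        · simp only [List.mem_cons, List.not_mem_nil, or_false, not_or] at k1
          exact ⟨k2, k1.1⟩
      refine ⟨tgs N [s(x, y), s(b, y)], hK, ?_, Ch.tg nd ?_ ?_ ?_ ?_⟩
      · refine nsh_h2 hH hv hK (hxqK hK) fun l hl l' hl' hne k1 k2 k3 k4 => ?_
        have hxl : ∀ l ∈ L, s(x, l) ∈ tgs N [s(x, y), s(b, y)] → l = a := by
          intro l hlL k
          have hne : s(x, l) ≠ s(b, y) := by
            intro h
            rw [Sym2.eq_iff] at h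
            rcases h with ⟨h, _⟩ | ⟨h, _⟩
            · exact xq h
            · exact yx h.symm
          obtain ⟨m1, m2⟩ := hm _ k hne
          by_contra hla
          exact three3 hM m1 g1 hxy hla (fun h => m2 (by rw [h])) hay
        exact hne ((hxl l hl k1).trans (hxl l' hl' k3).symm)
      · simp only [chg, inc_mk, sg_mem hxy, sg_not hqy, xq, yx.symm, true_or, or_self, if_true, if_false]
        norm_num
      · simp only [chg, inc_mk, sg_mem hxy, sg_not hqy, or_true, if_true]; norm_num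
      · simp only [chg, inc_mk, sg_mem hxy, sg_not hqy, xq.symm, yq.symm, true_or, or_self, if_true, if_false]
        norm_num
      · intro v b1 b2 b3 _
        have e : chg N [s(x, y), s(b, y)] v = 0 := by simp [chg, inc_mk, b1, b2, b3]
        rw [e]; exact ⟨rfl, (con_zero _ _).le⟩
    · -- `- x a - a b + x p + b y`
      right
      have d1 : s(x, a) ≠ s(b, a) := by
        intro h
        rw [Sym2.eq_iff] at h
        rcases h with ⟨h, _⟩ | ⟨h, _⟩
        · exact xq h
        · exact n1 h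
      have d2 : s(x, a) ≠ s(x, p) := fun h => n5 (Sym2.congr_right.1 h)
      have d3 : s(x, a) ≠ s(b, y) := by
        intro h
        rw [Sym2.eq_iff] at h
        rcases h with ⟨h, _⟩ | ⟨h, _⟩
        · exact xq h
        · exact yx h.symm
      have d4 : s(b, a) ≠ s(x, p) := by
        intro h
        rw [Sym2.eq_iff] at h
        rcases h with ⟨h, _⟩ | ⟨_, h⟩
        · exact xq h.symm
        · exact n1 h.symm
      have d5 : s(b, a) ≠ s(b, y) := fun h => hay (Sym2.congr_right.1 h)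
      have d6 : s(x, p) ≠ s(b, y) := by
        intro h
        rw [Sym2.eq_iff] at h
        rcases h with ⟨h, _⟩ | ⟨h, _⟩
        · exact xq h
        · exact yx h.symm
      have nd : [s(x, a), s(b, a), s(x, p), s(b, y)].Nodup := by
        simp [d1, d2, d3, d4, d5, d6]
      have hK : tgs N [s(x, a), s(b, a), s(x, p), s(b, y)] ⊆ c.edges := by
        refine tgs_sub hN ?_
        intro e he
        simp only [List.mem_cons, List.not_mem_nil, or_false] at he
        rcases he with rfl | rfl | rfl | rfl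
        · exact hN g1
        · exact hN qa
        · exact exp
        · exact cq y hy
      have hm : ∀ e, e ∈ tgs N [s(x, a), s(b, a), s(x, p), s(b, y)] → e ≠ s(x, p) → e ≠ s(b, y) →
          e ∈ N ∧ e ≠ s(x, a) ∧ e ≠ s(b, a) := by
        intro e he hne hne'
        rcases (mem_tgs_iff nd).1 he with ⟨k1, k2⟩ | ⟨k1, k2⟩
        · simp only [List.mem_cons, List.not_mem_nil, or_false] at k1
          rcases k1 with rfl | rfl | rfl | rfl
          · exact absurd g1 k2
          · exact absurd qa k2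
          · exact absurd rfl hne
          · exact absurd rfl hne'
        · simp only [List.mem_cons, List.not_mem_nil, or_false, not_or] at k1
          exact ⟨k2, k1.1, k1.2.1⟩
      refine ⟨⟨tgs N [s(x, a), s(b, a), s(x, p), s(b, y)], hK, ?_, Ch.tg nd ?_ ?_ ?_ ?_⟩, hP⟩
      · refine nsh_h2 hH hv hK (hxqK hK) fun l hl l' hl' hne k1 k2 k3 k4 => ?_
        have hyk : s(x, y) ∉ tgs N [s(x, a), s(b, a), s(x, p), s(b, y)] := by
          intro k
          refine hxy (hm _ k (fun h => yp (Sym2.congr_right.1 h)) ?_).1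
          intro h
          rw [Sym2.eq_iff] at h
          rcases h with ⟨h, _⟩ | ⟨h, _⟩
          · exact xq h
          · exact yx h.symm
        have hbl : ∀ l ∈ L, s(b, l) ∈ tgs N [s(x, a), s(b, a), s(x, p), s(b, y)] → l = y ∨ l = p := by
          intro l hlL k
          by_cases h5 : l = y
          · exact Or.inl h5
          have hne : s(b, l) ≠ s(x, p) := by
            intro h
            rw [Sym2.eq_iff] at h
            rcases h with ⟨h, _⟩ | ⟨h, _⟩
            · exact xq h.symm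
            · exact pq h.symm
          obtain ⟨m1, m2, m3⟩ := hm _ k hne (fun h => h5 (Sym2.congr_right.1 h))
          rcases hb l m1 with rfl | h6
          · exact absurd rfl m3
          · exact Or.inr h6
        rcases hbl l hl k2 with rfl | rfl
        · exact hyk k1
        · rcases hbl l' hl' k4 with rfl | rfl
          · exact hyk k3
          · exact hne rfl
      · simp only [chg, inc_mk, sg_mem g1, sg_mem qa, sg_not h1, sg_not hqy, yx, yq, yp, Ne.symm hay, true_or,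
          or_true, or_self, if_true, if_false]
        norm_num
      · simp only [chg, inc_mk, sg_mem g1, sg_mem qa, sg_not h1, sg_not hqy, xq, n1, yx.symm, true_or,
          or_true, or_self, if_true, if_false]
        norm_num
      · simp only [chg, inc_mk, sg_mem g1, sg_mem qa, sg_not h1, sg_not hqy, xq.symm, pq.symm, n4.symm, true_or,
          or_true, or_self, if_true, if_false]
        norm_num
      · intro v b1 b2 b3 b4
        by_cases hva : v = a
        · subst hva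
          have e : chg N [s(x, v), s(b, v), s(x, p), s(b, y)] v = -2 := by
            simp only [chg, inc_mk, sg_mem g1, sg_mem qa, sg_not h1, sg_not hqy, b1, b2, b3, b4, true_or,
              or_true, or_self, if_true, if_false]
            norm_num
          rw [e]
          exact ⟨rfl, con_nX (hl v ha b1 b4) (by norm_num) rfl⟩
        · have e : chg N [s(x, a), s(b, a), s(x, p), s(b, y)] v = 0 := by simp [chg, inc_mk, b1, b2, b3, b4, hva]
          rw [e]; exact ⟨rfl, (con_zero _ _).le⟩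

end

end Pool.Agent.P34

end

section -- file P34/XS1

/-!
# STEP 1 of the case `x, y, r, s ∈ T`, `p` free, triangles and squares

The near covers of `x`, `r`, `s` contain paths: `x e f p` in the cluster of the square `x y q p`, and paths from `r` to `s`
in the cluster of `r s`.
-/

set_option autoImplicit false

namespace Pool.Agent.P34

open Finset Pool.Agent.TFC Pool.Agent.PF4 Pool.Agent.PF4.LD Pool.Agent.PF4.XC Pool.Agent.PF4.XT Pool.Agent.PF4.XTg
open Pool.Agent.PF4.XF (XD FitK Cv World WJ Av NC Rch dg_off mem_k2 mem_k4)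

/-- **the frame of STEP 1** -/
structure S1 (X : XD3) (P : ℕ → Finset (Sym2 ℕ) → Prop) (D : Finset (Finset (Sym2 ℕ))) (j m : ℕ) (S : Finset ℕ)
    (M : ℕ → Finset (Sym2 ℕ)) (CL U : List (Clu3 ℕ)) (PL : Finset (Sym2 ℕ)) (F : Clu3 ℕ → Prop) (pl mi : ℕ → Prop)
    (x y q p r s : ℕ) (c1 c2 : Clu3 ℕ) : Prop where
  wa : WA3 X P D j m S M CL U PL
  hb : ∀ c, F c → Hb c
  pw : PW3 X P D j S M (Fr3 D F) CL U PL pl mi
  u1 : c1 ∈ U
  u2 : c2 ∈ U
  ne : c1 ≠ c2
  f1 : F c1
  nd : [x, y, q, p, r, s].Nodup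
  xS : x ∈ S
  rS : r ∈ S
  sS : s ∈ S
  xT : x ∈ X.T
  rT : r ∈ X.T
  sT : s ∈ X.T
  zx : pl x ∧ mi x
  zy : pl y ∧ mi y
  zr : pl r ∧ mi r
  zs : pl s ∧ mi s
  qm : mi q
  qn : ¬ pl q
  pn : ¬ pl p
  pm : ¬ mi p
  xr : s(x, r) ∈ PL
  ys : s(y, s) ∈ PL
  rs : s(r, s) ∈ c2.edges
  /-- the cluster of the square `x y q p` -/
  k1 : (∃ L, Hub c1 y p L ∧ x ∈ L ∧ q ∈ L) ∨
    (∃ L, Hub c1 x q L ∧ y ∈ L ∧ p ∈ L ∧ s(x, q) ∉ c1.edges ∧ ∀ l ∈ L, l ≠ y → l ≠ p → mi l → pl l)
  /-- the cluster of `r s` -/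
  k2 : F c2 ∨ ∃ Y, c2 = Clu3.k4 Y ∧ ∀ k ∈ Y, Dist3 r k s → tri r k s ∉ D

section
variable {X : XD3} {P : ℕ → Finset (Sym2 ℕ) → Prop} {D : Finset (Finset (Sym2 ℕ))} {j m : ℕ} {S : Finset ℕ}
  {M : ℕ → Finset (Sym2 ℕ)} {CL U : List (Clu3 ℕ)} {PL : Finset (Sym2 ℕ)} {F : Clu3 ℕ → Prop} {pl mi : ℕ → Prop}
  {x y q p r s : ℕ} {c1 c2 : Clu3 ℕ}

/-- **the contradiction**: parts in `c1`, `c2` replaced, plain edges toggled -/
theorem S1.fin (h : S1 X P D j m S M CL U PL F pl mi x y q p r s c1 c2) {w : ℕ} (hw : w ∈ S) (hT : w ∈ X.T)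
    {K1 K2 : Finset (Sym2 ℕ)} (h1 : K1 ⊆ c1.edges) (n1 : NSh K1) (h2 : K2 ⊆ c2.edges) (n2 : Fr3 D F c2 K2)
    {l : List (Sym2 ℕ)} (hl : l.Nodup) (hp : ∀ e ∈ l, e ∈ PL)
    (e4 : ∀ v, v = x ∨ v = y ∨ v = r ∨ v = s → ((dv K1 v - dv (M w ∩ c1.edges) v) + (dv K2 v - dv (M w ∩ c2.edges) v) +
      chg (M w) l v - if v = w then 1 else 0) % 2 = 0)
    (eq : 0 ≤ (dv K1 q - dv (M w ∩ c1.edges) q) + (dv K2 q - dv (M w ∩ c2.edges) q) +
      chg (M w) l q - if q = w then 1 else 0)
    (eo : ∀ v, v ≠ x → v ≠ y → v ≠ r → v ≠ s → v ≠ q → v ≠ p →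
      con (pl v) (mi v) ((dv K1 v - dv (M w ∩ c1.edges) v) + (dv K2 v - dv (M w ∩ c2.edges) v) +
      chg (M w) l v - if v = w then 1 else 0) ≤ 0) : False := by
  have hF1 : Fr3 D F c1 K1 := by
    rw [Fr3_pos h.f1]; exact n1
  have hO : ∀ c ∈ U, Fr3 D F c (M w ∩ c.edges) := fun c hc =>
    fr3_near h.wa.ow h.wa.cls h.hb hw hT ((h.pw.uc c).1 hc).1
  obtain ⟨v, _, hv⟩ := h.pw.nmt hw hT [(c1, K1), (c2, K2)] (by simpa using h.ne) (by
    intro t ht
    simp only [List.mem_cons, List.not_mem_nil, or_false] at ht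
    rcases ht with rfl | rfl
    · exact ⟨h.u1, h1, hF1⟩
    · exact ⟨h.u2, h2, n2⟩) hO hl hp
  have e : dch3 (M w) [(c1, K1), (c2, K2)] v =
      (dv K1 v - dv (M w ∩ c1.edges) v) + (dv K2 v - dv (M w ∩ c2.edges) v) := by
    simp only [dch3, List.map_cons, List.map_nil, List.sum_cons, List.sum_nil, Pi.add_apply, Pi.sub_apply, Pi.zero_apply,
      add_zero]
  rw [e] at hv
  by_cases g1 : v = x
  · subst g1; exact absurd hv (not_lt.2 (con_even h.zx.1 h.zx.2 (e4 v (by tauto))))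
  by_cases g2 : v = y
  · subst g2; exact absurd hv (not_lt.2 (con_even h.zy.1 h.zy.2 (e4 v (by tauto))))
  by_cases g3 : v = r
  · subst g3; exact absurd hv (not_lt.2 (con_even h.zr.1 h.zr.2 (e4 v (by tauto))))
  by_cases g4 : v = s
  · subst g4; exact absurd hv (not_lt.2 (con_even h.zs.1 h.zs.2 (e4 v (by tauto))))
  by_cases g5 : v = q
  · subst g5; exact absurd hv (not_lt.2 (con_X_nonneg h.qn h.qm eq))
  by_cases g6 : v = p
  · subst g6; exact absurd hv (not_lt.2 (con_free h.pn h.pm))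
  exact absurd hv (not_lt.2 (eo v g1 g2 g3 g4 g5 g6))

theorem S1.dist (h : S1 X P D j m S M CL U PL F pl mi x y q p r s c1 c2) :
    x ≠ y ∧ x ≠ q ∧ x ≠ p ∧ x ≠ r ∧ x ≠ s ∧ y ≠ q ∧ y ≠ p ∧ y ≠ r ∧ y ≠ s ∧ q ≠ p ∧ q ≠ r ∧ q ≠ s ∧ p ≠ r ∧ p ≠ s ∧
      r ≠ s := by
  have := h.nd
  simp only [List.nodup_cons, List.mem_cons, List.not_mem_nil, or_false, not_or, not_false_iff, List.nodup_nil,
    and_true] at this
  tauto

/-- Lemma AB for the near covers -/
theorem S1.ab (h : S1 X P D j m S M CL U PL F pl mi x y q p r s c1 c2) {w : ℕ} (hw : w ∈ S) (hT : w ∈ X.T) :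
    (∃ K ⊆ c1.edges, NSh K ∧ Ch pl mi (M w ∩ c1.edges) K x y q p) ∨
    ((∃ K ⊆ c1.edges, NSh K ∧ Ch pl mi (M w ∩ c1.edges) K y x q p) ∧
      ∃ e f, Dist4 x e f p ∧ s(x, e) ∈ M w ∩ c1.edges ∧ s(e, f) ∈ M w ∩ c1.edges ∧ s(f, p) ∈ M w ∩ c1.edges) := by
  have hv := h.pw.val h.u1
  have hs : NSh (M w ∩ c1.edges) := h.wa.msf w hw hT c1 ((h.pw.uc c1).1 h.u1).1 (h.hb c1 h.f1)
  have hM : M2 (M w ∩ c1.edges) := (h.wa.ow.nc w hw hT).1.m2.mono Finset.inter_subset_left
  obtain ⟨d1, d2, d3, d4, d5, d6, d7, d8, d9, d10, d11, d12, d13, d14, d15⟩ := h.dist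
  rcases h.k1 with ⟨L, g1, g2, g3⟩ | ⟨L, g1, g2, g3, g4, g5⟩
  · exact ab_yp hv g1 g2 g3 d2 Finset.inter_subset_right hs
  · exact ab_xq hv g1 g2 g3 d7 g4 g5 Finset.inter_subset_right hs hM

/-- the link `r s` in a near cover, or `r s` is blocked by a path -/
theorem S1.link (h : S1 X P D j m S M CL U PL F pl mi x y q p r s c1 c2) {w : ℕ} (hw : w ∈ S) (hT : w ∈ X.T) :
    (∃ K ⊆ c2.edges, Fr3 D F c2 K ∧ (dv K r - dv (M w ∩ c2.edges) r) % 2 = 1 ∧
      (dv K s - dv (M w ∩ c2.edges) s) % 2 = 1 ∧ ∀ v, v ≠ r → v ≠ s → dv K v - dv (M w ∩ c2.edges) v = 0) ∨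
    (s(r, s) ∉ M w ∧ Pth (M w ∩ c2.edges) r s) := by
  obtain ⟨d1, d2, d3, d4, d5, d6, d7, d8, d9, d10, d11, d12, d13, d14, d15⟩ := h.dist
  have hO : Fr3 D F c2 (M w ∩ c2.edges) := fr3_near h.wa.ow h.wa.cls h.hb hw hT ((h.pw.uc c2).1 h.u2).1
  have key : ∀ K, K = tgs (M w ∩ c2.edges) [s(r, s)] → Fr3 D F c2 K →
      (∃ K ⊆ c2.edges, Fr3 D F c2 K ∧ (dv K r - dv (M w ∩ c2.edges) r) % 2 = 1 ∧
      (dv K s - dv (M w ∩ c2.edges) s) % 2 = 1 ∧ ∀ v, v ≠ r → v ≠ s → dv K v - dv (M w ∩ c2.edges) v = 0) := by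
    intro K hK hF
    have e : ∀ v, dv K v - dv (M w ∩ c2.edges) v = chg (M w ∩ c2.edges) [s(r, s)] v := fun v => by
      rw [hK, dv_tgs v (by simp)]; ring
    refine ⟨K, ?_, hF, ?_, ?_, ?_⟩
    · rw [hK]; exact tgs_sub Finset.inter_subset_right (by simpa using h.rs)
    · rw [e]
      simp only [chg, inc_mk, true_or, if_true]
      rcases sg_or (M w ∩ c2.edges) s(r, s) with h1 | h1 <;> rw [h1] <;> norm_num
    · rw [e]
      simp only [chg, inc_mk, or_true, if_true]
      rcases sg_or (M w ∩ c2.edges) s(r, s) with h1 | h1 <;> rw [h1] <;> norm_num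
    · intro v h1 h2
      rw [e]
      simp [chg, inc_mk, h1, h2]
  by_cases h1 : s(r, s) ∈ M w
  · left
    refine key _ rfl (fr3_dwn D F c2 _ _ ?_ hO)
    intro e he
    rcases (mem_tgs_iff (by simp)).1 he with ⟨g1, g2⟩ | ⟨_, g⟩
    · rw [List.mem_singleton.1 g1] at g2; exact absurd (Finset.mem_inter.2 ⟨h1, h.rs⟩) g2
    · exact g
  rcases h.k2 with hf | ⟨Y, hY, htri⟩
  · by_cases h2 : NSh (insert s(r, s) (M w ∩ c2.edges))
    · left
      refine key _ rfl ?_
      rw [Fr3_pos hf]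
      refine h2.mono ?_
      intro e he
      rcases (mem_tgs_iff (by simp)).1 he with ⟨g1, _⟩ | ⟨_, g⟩
      · rw [List.mem_singleton.1 g1]; exact Finset.mem_insert_self _ _
      · exact Finset.mem_insert_of_mem g
    · right
      rw [Fr3_pos hf] at hO
      exact ⟨h1, nsh_insert hO h2⟩
  · subst hY
    have hf : ¬ F (Clu3.k4 Y) := fun hf => Hb.not_k4 (h.hb _ hf)
    rw [Fr3_neg hf] at hO
    have hv : (Clu3.k4 Y).Valid := h.pw.val h.u2
    have hY4 : #Y = 4 := hv
    obtain ⟨hr, hs, _⟩ := mem3_k4.1 h.rs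
    have hq : NSq (M w ∩ (Clu3.k4 Y).edges) := by
      rintro Z ⟨a, b, c, d, h4, rfl⟩ hZ
      have hZ2 : TFC.sq a b c d ⊆ (Clu3.k4 Y).edges := hZ.trans Finset.inter_subset_right
      obtain ⟨z1, z2, z3, z4⟩ := P34.sq_sub.1 hZ2
      exact hO.2 _ (h.wa.k4sq h.u2 h4 (mem3_k4.1 z1).1 (mem3_k4.1 z2).1 (mem3_k4.1 z3).1 (mem3_k4.1 z4).1) hZ
    rcases k4_link3 (fun Z hZ => h.pw.ish Z hZ) hY4 Finset.inter_subset_right hO hq hr hs d15
      (fun hh => h1 (Finset.mem_inter.1 hh).1) with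
      ⟨K, g1, g2, ε1, ε2, g3, g4, g5⟩ | ⟨k, g1, g2, g3, g4⟩ | ⟨k, g1, k', g2, g3, g4, g5, g6, g7⟩
    · left
      refine ⟨K, g1, by rw [Fr3_neg hf]; exact g2, ?_, ?_, ?_⟩
      · rw [g5]
        simp only [Pi.add_apply, sgl, if_pos rfl, if_neg d15]
        rcases g3 with rfl | rfl <;> ring_nf <;> norm_num
      · rw [g5]
        simp only [Pi.add_apply, sgl, if_pos rfl, if_neg d15.symm]
        rcases g4 with rfl | rfl <;> ring_nf <;> norm_num
      · intro v h2 h3
        rw [g5]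
        simp only [Pi.add_apply, sgl, if_neg h2, if_neg h3]
        ring
    · exact absurd g4 (htri k g1 g2)
    · right
      refine ⟨h1, Or.inr ⟨k, k', g3, ?_, ?_, ?_⟩⟩ <;> rw [g4] <;> simp [hp]

/-- **the near cover of `x`** -/
theorem S1.mx (h : S1 X P D j m S M CL U PL F pl mi x y q p r s c1 c2) :
    ∃ e f, Dist4 x e f p ∧ s(x, e) ∈ M x ∩ c1.edges ∧ s(e, f) ∈ M x ∩ c1.edges ∧ s(f, p) ∈ M x ∩ c1.edges := by
  obtain ⟨d1, d2, d3, d4, d5, d6, d7, d8, d9, d10, d11, d12, d13, d14, d15⟩ := h.dist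
  rcases h.ab h.xS h.xT with ⟨K, g1, g2, g3⟩ | ⟨_, g⟩
  swap
  · exact g
  exfalso
  have hO : Fr3 D F c2 (M x ∩ c2.edges) := fr3_near h.wa.ow h.wa.cls h.hb h.xS h.xT ((h.pw.uc c2).1 h.u2).1
  refine h.fin h.xS h.xT g1 g2 Finset.inter_subset_right hO (l := []) List.nodup_nil (by simp) ?_ ?_ ?_
  · intro v hv
    have := g3.ox
    have := g3.ey
    have k3 := (g3.ev r d4.symm d8.symm d11.symm d13.symm).1
    have k4 := (g3.ev s d5.symm d9.symm d12.symm d14.symm).1
    simp only [chg]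
    rcases hv with rfl | rfl | rfl | rfl
    · simp only [if_true]; omega
    · simp only [if_neg d1.symm]; omega
    · simp only [if_neg d4.symm]; omega
    · simp only [if_neg d5.symm]; omega
  · have := g3.nq
    simp only [chg, if_neg d2.symm]; omega
  · intro v h1 h2 h3 h4 h5 h6
    have := (g3.ev v h1 h2 h5 h6).2
    simp only [chg, if_neg h1]
    rw [show dv K v - dv (M x ∩ c1.edges) v + (dv (M x ∩ c2.edges) v - dv (M x ∩ c2.edges) v) + 0 - 0 =
      dv K v - dv (M x ∩ c1.edges) v by ring]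
    exact this

/-- **the near cover of `r`** -/
theorem S1.mr (h : S1 X P D j m S M CL U PL F pl mi x y q p r s c1 c2) :
    s(r, s) ∉ M r ∧ Pth (M r ∩ c2.edges) r s := by
  obtain ⟨d1, d2, d3, d4, d5, d6, d7, d8, d9, d10, d11, d12, d13, d14, d15⟩ := h.dist
  have hO : Fr3 D F c2 (M r ∩ c2.edges) := fr3_near h.wa.ow h.wa.cls h.hb h.rS h.rT ((h.pw.uc c2).1 h.u2).1
  rcases h.ab h.rS h.rT with ⟨K, g1, g2, g3⟩ | ⟨⟨K, g1, g2, g3⟩, _⟩
  · -- `A`, toggle `x r`
    exfalso
    refine h.fin h.rS h.rT g1 g2 Finset.inter_subset_right hO (l := [s(x, r)]) (by simp)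
      (by simpa using h.xr) ?_ ?_ ?_
    · intro v hv
      have := g3.ox
      have := g3.ey
      have k3 := (g3.ev r d4.symm d8.symm d11.symm d13.symm).1
      have k4 := (g3.ev s d5.symm d9.symm d12.symm d14.symm).1
      have k5 := sg_or (M r) s(x, r)
      simp only [chg, inc_mk]
      rcases hv with rfl | rfl | rfl | rfl
      · simp only [true_or, if_true, if_neg d4]; omega
      · simp only [d1.symm, d8, or_self, if_false]; omega
      · simp only [or_true, if_true]; omega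
      · simp only [d5.symm, d15.symm, or_self, if_false]; omega
    · have := g3.nq
      simp only [chg, inc_mk, d2.symm, d11, or_self, if_false]; omega
    · intro v h1 h2 h3 h4 h5 h6
      have := (g3.ev v h1 h2 h5 h6).2
      simp only [chg, inc_mk, h1, h3, or_self, if_false, mul_zero, add_zero]
      rw [show dv K v - dv (M r ∩ c1.edges) v + (dv (M r ∩ c2.edges) v - dv (M r ∩ c2.edges) v) - 0 =
        dv K v - dv (M r ∩ c1.edges) v by ring]
      exact this
  · -- `B`, toggle `y s`, link `r s`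
    rcases h.link h.rS h.rT with ⟨K', f1, f2, f3, f4, f5⟩ | hl
    swap
    · exact hl
    exfalso
    refine h.fin h.rS h.rT g1 g2 f1 f2 (l := [s(y, s)]) (by simp) (by simpa using h.ys) ?_ ?_ ?_
    · intro v hv
      have := g3.ox
      have := g3.ey
      have k3 := (g3.ev r d8.symm d4.symm d11.symm d13.symm).1
      have k4 := (g3.ev s d9.symm d5.symm d12.symm d14.symm).1
      have k5 := sg_or (M r) s(y, s)
      have k6 := f5 x d4 d5
      have k7 := f5 y d8 d9
      simp only [chg, inc_mk]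
      rcases hv with rfl | rfl | rfl | rfl
      · simp only [d1, d5, or_self, if_false, if_neg d4]; omega
      · simp only [true_or, if_true, if_neg d8]; omega
      · simp only [d8.symm, d15, or_self, if_false, if_true]; omega
      · simp only [or_true, if_true, if_neg d15.symm]; omega
    · have := g3.nq
      have k8 := f5 q d11 d12
      simp only [chg, inc_mk, d6.symm, d12, or_self, if_false, if_neg d11]; omega
    · intro v h1 h2 h3 h4 h5 h6
      have := (g3.ev v h2 h1 h5 h6).2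
      have k8 := f5 v h3 h4
      simp only [chg, inc_mk, h2, h3, h4, or_self, if_false, mul_zero, add_zero]
      rw [k8, add_zero, sub_zero]
      exact this

/-- **the near cover of `s`** -/
theorem S1.ms (h : S1 X P D j m S M CL U PL F pl mi x y q p r s c1 c2) :
    s(r, s) ∉ M s ∧ Pth (M s ∩ c2.edges) r s := by
  obtain ⟨d1, d2, d3, d4, d5, d6, d7, d8, d9, d10, d11, d12, d13, d14, d15⟩ := h.dist
  have hO : Fr3 D F c2 (M s ∩ c2.edges) := fr3_near h.wa.ow h.wa.cls h.hb h.sS h.sT ((h.pw.uc c2).1 h.u2).1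
  rcases h.ab h.sS h.sT with ⟨K, g1, g2, g3⟩ | ⟨⟨K, g1, g2, g3⟩, _⟩
  · -- `A`, toggle `x r`, link `r s`
    rcases h.link h.sS h.sT with ⟨K', f1, f2, f3, f4, f5⟩ | hl
    swap
    · exact hl
    exfalso
    refine h.fin h.sS h.sT g1 g2 f1 f2 (l := [s(x, r)]) (by simp) (by simpa using h.xr) ?_ ?_ ?_
    · intro v hv
      have := g3.ox
      have := g3.ey
      have k3 := (g3.ev r d4.symm d8.symm d11.symm d13.symm).1
      have k4 := (g3.ev s d5.symm d9.symm d12.symm d14.symm).1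
      have k5 := sg_or (M s) s(x, r)
      have k6 := f5 x d4 d5
      have k7 := f5 y d8 d9
      simp only [chg, inc_mk]
      rcases hv with rfl | rfl | rfl | rfl
      · simp only [true_or, if_true, if_neg d5]; omega
      · simp only [d1.symm, d8, or_self, if_false, if_neg d9]; omega
      · simp only [or_true, if_true, if_neg d15]; omega
      · simp only [d5.symm, d15.symm, or_self, if_false, if_true]; omega
    · have := g3.nq
      have k8 := f5 q d11 d12
      simp only [chg, inc_mk, d2.symm, d11, or_self, if_false, if_neg d12]; omega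
    · intro v h1 h2 h3 h4 h5 h6
      have := (g3.ev v h1 h2 h5 h6).2
      have k8 := f5 v h3 h4
      simp only [chg, inc_mk, h1, h3, h4, or_self, if_false, mul_zero, add_zero]
      rw [k8, add_zero, sub_zero]
      exact this
  · -- `B`, toggle `y s`
    exfalso
    refine h.fin h.sS h.sT g1 g2 Finset.inter_subset_right hO (l := [s(y, s)]) (by simp)
      (by simpa using h.ys) ?_ ?_ ?_
    · intro v hv
      have := g3.ox
      have := g3.ey
      have k3 := (g3.ev r d8.symm d4.symm d11.symm d13.symm).1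
      have k4 := (g3.ev s d9.symm d5.symm d12.symm d14.symm).1
      have k5 := sg_or (M s) s(y, s)
      simp only [chg, inc_mk]
      rcases hv with rfl | rfl | rfl | rfl
      · simp only [d1, d5, or_self, if_false]; omega
      · simp only [true_or, if_true, if_neg d9]; omega
      · simp only [d8.symm, d15, or_self, if_false]; omega
      · simp only [or_true, if_true]; omega
    · have := g3.nq
      simp only [chg, inc_mk, d6.symm, d12, or_self, if_false]; omega
    · intro v h1 h2 h3 h4 h5 h6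
      have := (g3.ev v h2 h1 h5 h6).2
      simp only [chg, inc_mk, h2, h4, or_self, if_false, mul_zero, add_zero]
      rw [show dv K v - dv (M s ∩ c1.edges) v + (dv (M s ∩ c2.edges) v - dv (M s ∩ c2.edges) v) - 0 =
        dv K v - dv (M s ∩ c1.edges) v by ring]
      exact this

end

end Pool.Agent.P34

end
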