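import Pool.Agent.PFN.M18
import Pool.Agent.PFN.M21

section -- file P34/XTT

/-!
Two conflicting triangles.
-/

set_option autoImplicit false

namespace Pool.Agent.P34

open Finset Pool.Agent.TFC Pool.Agent.PF4 Pool.Agent.PF4.LD Pool.Agent.PF4.XC Pool.Agent.PF4.XT
open Pool.Agent.PF4.XF (XD FitK Cv World WJ Av NC Rch dg_off)

/-! ### the frames -/

theorem ttAM (D : Finset (Finset (Sym2 ℕ))) (hD : ∀ Z ∈ D, IsSh Z) (F : Clu3 ℕ → Prop) (c : Clu3 ℕ) :
    AM3 (Fr3 D F) c := by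
  intro K _ hm hs
  exact Fr3_of (fun _ => hs) fun _ => ⟨hm, fun Z hZ => hs Z (hD Z hZ)⟩

section
variable {X : XD3} {P : ℕ → Finset (Sym2 ℕ) → Prop} {D : Finset (Finset (Sym2 ℕ))} {j m : ℕ} {S : Finset ℕ}
  {M : ℕ → Finset (Sym2 ℕ)} {CL U : List (Clu3 ℕ)} {PL : Finset (Sym2 ℕ)} {pl mi : ℕ → Prop}
  {F : Clu3 ℕ → Prop}

/-- a witness is allowed outside the cluster of its member (frames with at most this cluster uncapped) -/
theorem ttOut (h : PW3 X P D j S M (Fr3 D F) CL U PL pl mi) {c : Clu3 ℕ} (hF : ∀ c', F c' → c' = c) {Z L : Finset (Sym2 ℕ)}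
    (hZ : Z ∈ D) (hL : Wt3 X P D j Z L) (hc : c ∈ U) (hZc : Z ⊆ c.edges) : Out3 (Fr3 D F) U c L := by
  intro c' hc' hne
  refine Fr3_of (fun hf => absurd (hF c' hf) hne) fun _ => ⟨hL.m2.mono Finset.inter_subset_left, fun Z' hZ' hs => ?_⟩
  have h1 := hL.uni Z' hZ' (hs.trans Finset.inter_subset_left)
  subst h1
  obtain ⟨e, he⟩ := (h.ish Z' hZ').ne
  exact hne (h.eqc hc' hc (Finset.mem_inter.1 (hs he)).2 (hZc he))

/-- the ends of an edge of a cluster are not of type Y -/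
theorem ttNY (h : PW3 X P D j S M (Fr3 D F) CL U PL pl mi) {c : Clu3 ℕ} (hF : ∀ c', F c' → c' = c) (hc : c ∈ U)
    {a b : ℕ} (he : s(a, b) ∈ c.edges) : ¬ (pl a ∧ ¬ mi a) := by
  obtain ⟨Z, hZ, heZ, hZc⟩ := h.edz hc he
  obtain ⟨L, hL⟩ := h.wt hZ
  exact h.L1Y hZ hL hc hZc (ttAM D h.ish F c) (ttOut h hF hZ hL hc hZc) heZ

/-- an edge of a cluster has an end in `T` -/
theorem ttFF (h : OW3 X P D j m S M) (hc : Cls3 D CL) {c : Clu3 ℕ} (hcC : c ∈ CL) {a b : ℕ}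
    (he : s(a, b) ∈ c.edges) : a ∈ X.T ∨ b ∈ X.T := by
  obtain ⟨Z, hZ, heZ, _⟩ := hc.edge_sq hcC he
  have hh := (h.blk.hs Z hZ).1
  rcases isSh_first (h.ish hZ) heZ with ⟨t, hd, rfl⟩ | ⟨q, p, hd, rfl⟩
  · rw [hs3_tri hd] at hh
    tauto
  · rw [hs3_sq hd] at hh
    tauto

/-- an edge of `E` at a vertex of `S` is in the region -/
theorem PW3.edS {A : Clu3 ℕ → Finset (Sym2 ℕ) → Prop} (h : PW3 X P D j S M A CL U PL pl mi) {e : Sym2 ℕ}
    (he : e ∈ X.E) {a : ℕ} (ha : a ∈ e) (haS : a ∈ S) : e ∈ Ucl3 U ∪ PL :=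
  h.rch a (XF.Rch.mono (r := 0) (Nat.zero_le 3) haS) e he ha

/-- the cluster of a member of `D` at a vertex of `S` -/
theorem PW3.cluS {A : Clu3 ℕ → Finset (Sym2 ℕ) → Prop} (h : PW3 X P D j S M A CL U PL pl mi) {Z : Finset (Sym2 ℕ)}
    (hZ : Z ∈ D) {e : Sym2 ℕ} (he : e ∈ Z) {a : ℕ} (ha : a ∈ e) (haS : a ∈ S) : ∃ c ∈ U, Z ⊆ c.edges := by
  rcases Finset.mem_union.1 (h.edS (h.dE Z hZ he) ha haS) with h1 | h1
  · obtain ⟨c, hc, hec⟩ := mem_Ucl3.1 h1
    exact ⟨c, hc, h.clz hZ hc he hec⟩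
  · exact absurd he (((h.pm e).1 h1).2 Z hZ)

theorem tt_dv {x y p r : ℕ} (hd : [x, y, p, r].Nodup) :
    dv (TFC.sq x p y r) - dv (tri x y p) = Pi.single r 2 := by
  obtain ⟨⟨h1, h2, h3⟩, ⟨h4, h5⟩, h6⟩ := nodup4.1 hd
  rw [dv_sq ⟨h2, h1, h3, h4.symm, h6, h5⟩, dv_tri ⟨h1, h2, h4⟩]
  funext v
  simp only [Pi.sub_apply, Pi.add_apply, sgl, ev_apply]
  by_cases e1 : v = x
  · subst e1
    simp [h1, h2, h3]
  · by_cases e2 : v = y
    · subst e2
      simp [e1, h4, h5]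
    · by_cases e3 : v = p
      · subst e3
        simp [e1, e2, h6]
      · by_cases e4 : v = r
        · subst e4
          simp [e1, e2, e3]
        · simp [e1, e2, e3, e4]

/-- **the square is not inside the cluster of the triangle** -/
theorem tt_sq (hW : WA3 X P D j m S M CL U PL) {x y p r : ℕ} (hd : [x, y, p, r].Nodup) (hQ : tri x y p ∈ D)
    (hS : TFC.sq x p y r ∉ D) {c : Clu3 ℕ} (hc : c ∈ U) (hQc : tri x y p ⊆ c.edges)
    (hs : TFC.sq x p y r ⊆ c.edges) : False := by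
  obtain ⟨⟨h1, h2, h3⟩, ⟨h4, h5⟩, h6⟩ := nodup4.1 hd
  obtain ⟨pl, mi, h, _⟩ := hW.fr (fun _ => False) fun _ h => h.elim
  obtain ⟨L, hL⟩ := h.wt hQ
  have hsh : IsSh (TFC.sq x p y r) := Or.inr ⟨x, p, y, r, ⟨h2, h1, h3, h4.symm, h6, h5⟩, rfl⟩
  have k1 := h.wz hQ hL hc hQc (ttOut h (fun _ hf => hf.elim) hQ hL hc hQc) (F := TFC.sq x p y r) hs
    (by
      rw [Fr3_neg (fun hf => hf)]
      refine ⟨hsh.m2, fun Z' hZ' hs' => ?_⟩
      have := sh_sub_eq (h.ish Z' hZ') hsh hs'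
      rw [this] at hZ'
      exact hS hZ')
  have hxr : s(r, x) ∈ c.edges := hs (by simp [TFC.sq])
  rw [tt_dv hd, ph_one (h.v2 (h.cW hc hxr) (by simp))] at k1
  exact ttNY h (fun _ hf => hf.elim) hc hxr (con_two_pos k1)

/-- **the edge `x r` is not in the cluster of the triangle** -/
theorem tt_no (hW : WA3 X P D j m S M CL U PL) {x y p r : ℕ} (hd : [x, y, p, r].Nodup) (hQ : tri x y p ∈ D)
    (hS : TFC.sq x p y r ∉ D) (hp : p ∉ X.T) (hr : r ∉ X.T) {c : Clu3 ℕ} (hc : c ∈ U)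
    (hQc : tri x y p ⊆ c.edges) : s(x, r) ∉ c.edges := by
  intro hxr
  obtain ⟨⟨h1, h2, h3⟩, ⟨h4, h5⟩, h6⟩ := nodup4.1 hd
  obtain ⟨pl, mi, h, _⟩ := hW.fr (fun _ => False) fun _ h => h.elim
  have hcC := ((h.uc c).1 hc).1
  have hff : s(p, r) ∉ c.edges := fun hpr => (ttFF hW.ow hW.cls hcC hpr).elim hp hr
  have hsub : s(y, r) ∈ c.edges → TFC.sq x p y r ⊆ c.edges := by
    intro hyr
    obtain ⟨t1, t2, t3⟩ := tri_sub.1 hQc
    exact P34.sq_sub.2 ⟨by rwa [Sym2.eq_swap], by rwa [Sym2.eq_swap], hyr, by rwa [Sym2.eq_swap]⟩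
  rcases shape3_tri (h.val hc) ⟨h1, h2, h4⟩ hQc with ⟨Y, rfl, _, hx, hy, hp'⟩ | ⟨L, h7, h8, _⟩ | ⟨L, h7, h8, _⟩ |
    ⟨L, h7, h8, _⟩
  · rw [mem3_k4] at hxr
    exact hff (mem3_k4.2 ⟨hp', hxr.2.1, h6⟩)
  · -- hubs `x`, `y`
    refine tt_sq hW hd hQ hS hc hQc (hsub ?_)
    rcases h7 with rfl | rfl
    · rcases mem3_k11.1 hxr with (⟨_, g⟩ | ⟨_, g⟩) | (⟨_, g⟩ | ⟨_, g⟩)
      · exact absurd g.symm h5
      · exact absurd g.symm h3
      · exact mem3_k11.2 (Or.inr (Or.inl ⟨Or.inr rfl, g⟩))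
      · exact absurd g (h.val hc).2.1
    · rcases mem3_k11.1 hxr with (⟨g, _⟩ | ⟨_, g⟩) | (⟨_, g⟩ | ⟨_, g⟩)
      · exact absurd g h1
      · exact absurd g.symm h5
      · exact mem3_k11.2 (Or.inr (Or.inl ⟨Or.inl rfl, g⟩))
      · exact absurd g (h.val hc).2.2.1
  · -- hubs `y`, `p`
    have hv := h.val hc
    rcases h7 with rfl | rfl
    · rcases mem3_k11.1 hxr with (⟨g, _⟩ | ⟨g, _⟩) | (⟨g | g, _⟩ | ⟨g | g, _⟩)
      · exact h1 g
      · exact h2 g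
      · exact h1 g
      · exact h2 g
      · exact h5 g.symm
      · exact h6 g.symm
    · rcases mem3_k11.1 hxr with (⟨g, _⟩ | ⟨g, _⟩) | (⟨g | g, _⟩ | ⟨g | g, _⟩)
      · exact h2 g
      · exact h1 g
      · exact h2 g
      · exact h1 g
      · exact h6 g.symm
      · exact h5 g.symm
  · -- hubs `p`, `x`
    apply hff
    rcases h7 with rfl | rfl
    · rcases mem3_k11.1 hxr with (⟨g, _⟩ | ⟨_, g⟩) | (⟨_, g⟩ | ⟨_, g⟩)
      · exact absurd g h2
      · exact absurd g.symm h6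
      · exact mem3_k11.2 (Or.inr (Or.inl ⟨Or.inl rfl, g⟩))
      · exact absurd g (h.val hc).2.2.1
    · rcases mem3_k11.1 hxr with (⟨_, g⟩ | ⟨g, _⟩) | (⟨_, g⟩ | ⟨_, g⟩)
      · exact absurd g.symm h6
      · exact absurd g h2
      · exact mem3_k11.2 (Or.inr (Or.inl ⟨Or.inr rfl, g⟩))
      · exact absurd g (h.val hc).2.1

/-! ### near covers -/

/-- a short cycle through `u v` in `K + u v` gives a path of `K` -/
theorem pth_of_sh {K Z : Finset (Sym2 ℕ)} (hZ : IsSh Z) {u v : ℕ} (he : s(u, v) ∈ Z)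
    (hs : Z ⊆ insert s(u, v) K) : Pth K u v := by
  rcases isSh_first hZ he with ⟨c, hd, rfl⟩ | ⟨q, p, hd, rfl⟩
  · obtain ⟨e1, e2⟩ := tri_mem hd hs
    obtain ⟨n1, n2, n3⟩ := hd
    exact Or.inl ⟨c, ⟨n2, n1, n3.symm⟩, by rwa [Sym2.eq_swap], by rwa [Sym2.eq_swap]⟩
  · obtain ⟨e1, e2, e3⟩ := sq_mem hd hs
    obtain ⟨n1, n2, n3, n4, n5, n6⟩ := hd
    exact Or.inr ⟨p, q, ⟨n3, n2, n1, n6.symm, n5.symm, n4.symm⟩, by rwa [Sym2.eq_swap], by rwa [Sym2.eq_swap],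
      by rwa [Sym2.eq_swap]⟩

theorem two_at {K : Finset (Sym2 ℕ)} {v a b : ℕ} (hab : a ≠ b) (ha : s(v, a) ∈ K) (hb : s(v, b) ∈ K) : 2 ≤ dg K v := by
  have h1 : ({s(v, a), s(v, b)} : Finset (Sym2 ℕ)) ⊆ K.filter fun e => v ∈ e := by
    intro e he
    rw [mem_insert, mem_singleton] at he
    rcases he with rfl | rfl
    · exact mem_filter.2 ⟨ha, by simp⟩
    · exact mem_filter.2 ⟨hb, by simp⟩
  have h2 := card_le_card h1
  rwa [card_pair (fun hc => hab (by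
    rw [Sym2.eq_iff] at hc
    rcases hc with ⟨_, h⟩ | ⟨h, h'⟩
    · exact h
    · exact h'.trans h))] at h2

theorem three_at {K : Finset (Sym2 ℕ)} (hK : M2 K) {v a b c : ℕ} (hab : a ≠ b) (hac : a ≠ c) (hbc : b ≠ c)
    (ha : s(v, a) ∈ K) (hb : s(v, b) ∈ K) (hc : s(v, c) ∈ K) : False := by
  have e1 : ∀ {s t : ℕ}, s ≠ t → s(v, s) ≠ s(v, t) := by
    intro s t hst h
    rw [Sym2.eq_iff] at h
    rcases h with ⟨_, h⟩ | ⟨h, h'⟩
    · exact hst h
    · exact hst (h'.trans h)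
  have h1 : ({s(v, a), s(v, b), s(v, c)} : Finset (Sym2 ℕ)) ⊆ K.filter fun e => v ∈ e := by
    intro e he
    rw [mem_insert, mem_insert, mem_singleton] at he
    rcases he with rfl | rfl | rfl
    · exact mem_filter.2 ⟨ha, by simp⟩
    · exact mem_filter.2 ⟨hb, by simp⟩
    · exact mem_filter.2 ⟨hc, by simp⟩
  have h2 := card_le_card h1
  rw [card_insert_of_notMem (by simp only [mem_insert, mem_singleton, not_or]; exact ⟨e1 hab, e1 hac⟩),
    card_pair (e1 hbc)] at h2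
  have h3 := hK.le v
  unfold dg at h3
  omega

/-- **K4**: in a 2-matching of `K4` without the edge `x p` and without a short path from `x` to `p`, the degree of `x` can be
raised by one, only the degree of `p` changes besides -/
theorem tt_k4 {D : Finset (Finset (Sym2 ℕ))} (hD : ∀ Z ∈ D, IsSh Z) {Y : Finset ℕ} (hY : (Clu3.k4 Y).Valid)
    {x p : ℕ} (hxp : s(x, p) ∈ (Clu3.k4 Y).edges) {K0 : Finset (Sym2 ℕ)} (hK0 : K0 ⊆ (Clu3.k4 Y).edges)
    (hA : Acap D K0) (hx : dg K0 x ≤ 1) (hn : s(x, p) ∉ K0) (hP : ¬ Pth K0 x p) :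
    ∃ K ⊆ (Clu3.k4 Y).edges, Acap D K ∧ ∃ a : ℤ, dv K = dv K0 + Pi.single x 1 + Pi.single p a := by
  have hxp' := mem3_k4.1 hxp
  obtain ⟨hxY, hpY, nxp⟩ := hxp'
  by_cases hp : dg K0 p ≤ 1
  · refine ⟨insert s(x, p) K0, insert_subset hxp hK0, ⟨⟨?_, fun v => ?_⟩, fun Z hZ hs => ?_⟩, 1, ?_⟩
    · intro e he
      rcases mem_insert.1 he with rfl | he
      · simpa using nxp
      · exact hA.1.nl e he
    · have h1 := XT.dv_insert hn
      have h2 := congrFun h1 v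
      rw [Pi.add_apply, dv_pair nxp, Pi.add_apply, sgl, sgl, dv_apply, dv_apply] at h2
      have h3 := hA.1.le v
      by_cases e1 : v = x
      · subst e1
        rw [if_pos rfl, if_neg nxp] at h2
        omega
      · by_cases e2 : v = p
        · subst e2
          rw [if_pos rfl, if_neg e1] at h2
          omega
        · rw [if_neg e1, if_neg e2] at h2
          omega
    · by_cases h1 : s(x, p) ∈ Z
      · exact hP (pth_of_sh (hD Z hZ) h1 hs)
      · refine hA.2 Z hZ fun e he => ?_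
        rcases mem_insert.1 (hs he) with rfl | h2
        · exact absurd he h1
        · exact h2
    · rw [XT.dv_insert hn, dv_pair nxp, add_assoc]
  · -- two edges at `p`
    have hp2 : 2 ≤ #(K0.filter fun e => p ∈ e) := by
      unfold dg at hp
      omega
    -- the neighbours
    obtain ⟨e1, he1, e2, he2, hne⟩ := one_lt_card.1 (show 1 < #(K0.filter fun e => p ∈ e) by omega)
    rw [mem_filter] at he1 he2
    obtain ⟨g1, y, rfl⟩ := he1
    obtain ⟨g2, b, rfl⟩ := he2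
    have q1 := mem3_k4.1 (hK0 g1)
    have q2 := mem3_k4.1 (hK0 g2)
    have yb : y ≠ b := fun h => hne (by rw [h])
    have xy : x ≠ y := by
      rintro rfl
      exact hn (by rwa [Sym2.eq_swap])
    have xb : x ≠ b := by
      rintro rfl
      exact hn (by rwa [Sym2.eq_swap])
    have hYe : Y = {x, p, y, b} := by
      symm
      refine eq_of_subset_of_card_le ?_ ?_
      · intro v hv
        simp only [mem_insert, mem_singleton] at hv
        rcases hv with rfl | rfl | rfl | rfl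
        · exact hxY
        · exact hpY
        · exact q1.2.1
        · exact q2.2.1
      · have h4 : #Y = 4 := hY
        rw [h4, card_insert_of_notMem (by simp only [mem_insert, mem_singleton, not_or]; exact ⟨nxp, xy, xb⟩),
          card_insert_of_notMem (by simp only [mem_insert, mem_singleton, not_or]; exact ⟨q1.2.2, q2.2.2⟩),
          card_pair yb]
    -- no edge at `x`
    have hx0 : ∀ t, s(x, t) ∉ K0 := by
      intro t ht
      have h5 := mem3_k4.1 (hK0 ht)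
      rw [hYe] at h5
      have h6 := h5.2.1
      simp only [mem_insert, mem_singleton] at h6
      rcases h6 with rfl | rfl | rfl | rfl
      · exact h5.2.2 rfl
      · exact hn ht
      · exact hP (Or.inl ⟨t, ⟨xy, nxp, q1.2.2.symm⟩, ht, by rwa [Sym2.eq_swap]⟩)
      · exact hP (Or.inl ⟨t, ⟨xb, nxp, q2.2.2.symm⟩, ht, by rwa [Sym2.eq_swap]⟩)
    have hd4 : Dist4 x y b p := ⟨xy, xb, nxp, yb, q1.2.2.symm, q2.2.2.symm⟩
    have hsq : IsSh (TFC.sq x y b p) := Or.inr ⟨x, y, b, p, hd4, rfl⟩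
    have hKs : (K0 \ {s(p, y)}) ∪ {s(x, y)} ⊆ TFC.sq x y b p := by
      intro e he
      rcases mem_union.1 he with h7 | h7
      · obtain ⟨h8, h9⟩ := mem_sdiff.1 h7
        rw [mem_singleton] at h9
        induction e using Sym2.ind with
        | _ s t =>
        have h10 := mem3_k4.1 (hK0 h8)
        rw [hYe] at h10
        obtain ⟨hs, ht, hst⟩ := h10
        simp only [mem_insert, mem_singleton] at hs ht
        rcases hs with rfl | rfl | rfl | rfl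
        · exact absurd h8 (hx0 t)
        · rcases ht with rfl | rfl | rfl | rfl
          · exact absurd (by rwa [Sym2.eq_swap]) (hx0 s)
          · exact absurd rfl hst
          · exact absurd rfl h9
          · simp [TFC.sq]
        · rcases ht with rfl | rfl | rfl | rfl
          · exact absurd (by rwa [Sym2.eq_swap]) (hx0 s)
          · exact absurd Sym2.eq_swap h9
          · exact absurd rfl hst
          · simp [TFC.sq]
        · rcases ht with rfl | rfl | rfl | rfl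
          · exact absurd (by rwa [Sym2.eq_swap]) (hx0 s)
          · simp [TFC.sq]
          · simp [TFC.sq]
          · exact absurd rfl hst
      · rw [mem_singleton] at h7
        rw [h7]
        simp [TFC.sq]
    have hne' : (K0 \ {s(p, y)}) ∪ {s(x, y)} ≠ TFC.sq x y b p := by
      intro h7
      have h8 : s(p, x) ∈ (K0 \ {s(p, y)}) ∪ {s(x, y)} := by rw [h7]; simp [TFC.sq]
      rcases mem_union.1 h8 with h9 | h9
      · exact hx0 p (by rw [Sym2.eq_swap]; exact (mem_sdiff.1 h9).1)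
      · rw [mem_singleton, Sym2.eq_iff] at h9
        rcases h9 with ⟨h9, _⟩ | ⟨h9, _⟩
        · exact nxp h9.symm
        · exact q1.2.2 h9
    have hnsh := nsh_ssub hsq hKs hne'
    refine ⟨(K0 \ {s(p, y)}) ∪ {s(x, y)}, ?_, ⟨hsq.m2.mono hKs, fun Z hZ => hnsh Z (hD Z hZ)⟩, -1, ?_⟩
    · refine union_subset (sdiff_subset.trans hK0) (singleton_subset_iff.2 (mem3_k4.2 ⟨hxY, q1.2.1, xy⟩))
    · rw [dv_swap (singleton_subset_iff.2 g1) (disjoint_singleton_left.2 (hx0 y)), dv_pair q1.2.2, dv_pair xy,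
        Pi.single_neg]
      abel

/-- **near cover**: `p` free in a cluster with `x`: the edge `x p` is in `M x`, or there is a short path -/
theorem tt_path (hW : WA3 X P D j m S M CL U PL) {x p : ℕ} (hx : x ∈ S) (hT : x ∈ X.T) (hp : p ∉ X.T)
    {c : Clu3 ℕ} (hc : c ∈ U) (he : s(x, p) ∈ c.edges) : s(x, p) ∈ M x ∨ Pth (M x ∩ c.edges) x p := by
  obtain ⟨pl, mi, h, _⟩ := hW.fr (fun c' => c' = c ∧ Hb c) fun c' hc' => by rw [hc'.1]; exact hc'.2
  have hF : ∀ c', (c' = c ∧ Hb c) → c' = c := fun _ h => h.1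
  have hpV : p ∈ X.V2 := h.v2 (h.cW hc he) (by simp)
  have hmi : ¬ mi p := h.free p (h.ok.vn p hpV) hp
  have hpl : ¬ pl p := fun hpl => ttNY h hF hc (a := p) (b := x) (by rwa [Sym2.eq_swap]) ⟨hpl, hmi⟩
  have hcC : ∀ {c'}, c' ∈ U → c' ∈ CL := fun hc' => ((h.uc _).1 hc').1
  have hfr : ∀ c' ∈ U, Fr3 D (fun c' => c' = c ∧ Hb c) c' (M x ∩ c'.edges) := fun c' hc' =>
    Fr3_of (fun hf => hW.msf x hx hT c' (hcC hc') (by rw [hf.1]; exact hf.2)) fun _ => hW.mcap x hx hT c' (hcC hc')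
  by_cases hb : Hb c
  · have hM : AU3 (Fr3 D fun c' => c' = c ∧ Hb c) U PL (M x ∩ (Ucl3 U ∪ PL)) :=
      ⟨Finset.inter_subset_right, fun c' hc' => by rw [h.interW hc']; exact hfr c' hc'⟩
    have hfree : Free3 (Fr3 D fun c' => c' = c ∧ Hb c) U (M x) s(x, p) := by
      intro c' hc' hec
      have := h.eqc hc' hc hec he
      subst this
      exact ⟨fun K _ hK => by rw [Fr3_pos (⟨rfl, hb⟩ : c' = c' ∧ Hb c')]; exact hK, hW.msf x hx hT c' (hcC hc') hb⟩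
    rcases h.L5 hx hT hM (h.cW hc he) hfree hpl with h1 | ⟨c', hc', h1, h2⟩
    · exact Or.inl h1
    · rw [h.eqc hc' hc h1 he] at h2
      exact Or.inr h2
  · obtain ⟨Y, rfl⟩ := (k4_or_hb c).resolve_right hb
    by_contra hn
    rw [not_or] at hn
    obtain ⟨h3, _, _⟩ := hW.ow.nc x hx hT
    have hdg : dg (M x ∩ (Clu3.k4 Y).edges) x ≤ 1 := by
      rw [← h3.one]
      exact Finset.card_le_card (Finset.filter_subset_filter _ Finset.inter_subset_left)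
    obtain ⟨K, hK, hKA, a, hdv⟩ := tt_k4 h.ish (h.val hc) he (K0 := M x ∩ (Clu3.k4 Y).edges)
      Finset.inter_subset_right (hW.mcap x hx hT _ (hcC hc)) hdg (fun h1 => hn.1 (Finset.mem_inter.1 h1).1) hn.2
    have h4 := h.nc_rep hx hT hc (fun c' hc' _ => hfr c' hc') hK
      (by rw [Fr3_neg (fun hf => hb hf.2)]; exact hKA)
    have e : (dv K - dv (M x ∩ (Clu3.k4 Y).edges) - Pi.single x 1 : ℕ → ℤ) = Pi.single p a := by
      rw [hdv]; abel
    rw [e, ph_one hpV, con_N hpl hmi] at h4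
    omega

/-- **the combination of the two worlds at the near cover of `x`** -/
theorem tt_comb {K C1 C2 : Finset (Sym2 ℕ)} (hK : M2 K) {x p r : ℕ} (h1 : dg K x = 1) (hpr : p ≠ r)
    (a1 : s(x, p) ∈ K ∨ Pth (K ∩ C1) x p) (a2 : s(x, r) ∈ K ∨ Pth (K ∩ C2) x r) (n1 : s(x, r) ∉ C1)
    (n2 : s(x, p) ∉ C2) (f1 : s(r, p) ∉ C1) (f2 : s(p, r) ∉ C2) : False := by
  have uni : ∀ {a b : ℕ}, s(x, a) ∈ K → s(x, b) ∈ K → a = b := by
    intro a b ha hb
    by_contra hab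
    have := two_at hab ha hb
    omega
  have mk : ∀ {e : Sym2 ℕ} {C : Finset (Sym2 ℕ)}, e ∈ K ∩ C → e ∈ K ∧ e ∈ C := fun h => Finset.mem_inter.1 h
  have sw : ∀ {s t : ℕ} {C : Finset (Sym2 ℕ)}, s(s, t) ∈ C → s(t, s) ∈ C := fun h => by rwa [Sym2.eq_swap]
  rcases a1 with a1 | a1
  · rcases a2 with a2 | a2
    · exact hpr (uni a1 a2)
    · obtain ⟨a, _, ha⟩ := a2.fst
      have := uni a1 (mk ha).1
      subst this
      exact n2 (mk ha).2
  · rcases a2 with a2 | a2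
    · obtain ⟨a, _, ha⟩ := a1.fst
      have := uni a2 (mk ha).1
      subst this
      exact n1 (mk ha).2
    · rcases a1 with ⟨u, ⟨d1, d2, d3⟩, b1, b2⟩ | ⟨u, v, ⟨d1, d2, d3, d4, d5, d6⟩, b1, b2, b3⟩
      · rcases a2 with ⟨u', ⟨g1, g2, g3⟩, c1, c2⟩ | ⟨u', v', ⟨g1, g2, g3, g4, g5, g6⟩, c1, c2, c3⟩
        · have := uni (mk b1).1 (mk c1).1
          subst this
          exact three_at hK d2 g2 hpr (sw (mk b1).1) (mk b2).1 (mk c2).1
        · have := uni (mk b1).1 (mk c1).1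
          subst this
          by_cases e1 : p = v'
          · subst e1
            exact f2 (mk c3).2
          · exact three_at hK d2 g2 e1 (sw (mk b1).1) (mk b2).1 (mk c2).1
      · rcases a2 with ⟨u', ⟨g1, g2, g3⟩, c1, c2⟩ | ⟨u', v', ⟨g1, g2, g3, g4, g5, g6⟩, c1, c2, c3⟩
        · have := uni (mk b1).1 (mk c1).1
          subst this
          by_cases e1 : r = v
          · subst e1
            exact f1 (mk b3).2
          · exact three_at hK g2 d2 e1 (sw (mk b1).1) (mk c2).1 (mk b2).1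
        · have := uni (mk b1).1 (mk c1).1
          subst this
          by_cases e1 : v = v'
          · subst e1
            exact three_at hK d5 g5 hpr (sw (mk b2).1) (mk b3).1 (mk c3).1
          · exact three_at hK d2 g2 e1 (sw (mk b1).1) (mk b2).1 (mk c2).1

end

/-- **Lemma K** (helper41's `WA3.lemK`): `Z` in `D`, `u`, `v` consecutive corners of `Z`; a vertex of demand 2 outside `Z` is
adjacent to both only inside the cluster of `Z` -/
def LemKS : Prop :=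
  ∀ (X : XD3) (P : ℕ → Finset (Sym2 ℕ) → Prop) (D : Finset (Finset (Sym2 ℕ))) (j m : ℕ) (S : Finset ℕ)
    (M : ℕ → Finset (Sym2 ℕ)) (CL U : List (Clu3 ℕ)) (PL : Finset (Sym2 ℕ)), WA3 X P D j m S M CL U PL →
    ∀ Z ∈ D, ∀ c ∈ U, Z ⊆ c.edges → ∀ u v g : ℕ, s(u, v) ∈ Z → (∀ e ∈ Z, g ∉ e) → g ∈ S → g ∈ X.T →
      s(u, g) ∈ X.E → s(v, g) ∈ X.E → s(u, g) ∈ c.edges ∧ s(v, g) ∈ c.edges

section
variable {X : XD3} {P : ℕ → Finset (Sym2 ℕ) → Prop} {D : Finset (Finset (Sym2 ℕ))} {j m : ℕ} {S : Finset ℕ}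
  {M : ℕ → Finset (Sym2 ℕ)} {CL U : List (Clu3 ℕ)} {PL : Finset (Sym2 ℕ)}

/-- the third corner of the other triangle is free -/
theorem tt_free (hK : LemKS) (hW : WA3 X P D j m S M CL U PL) {x y p r : ℕ} (hd : [x, y, p, r].Nodup)
    (hQ : tri x y p ∈ D) (hS : TFC.sq x p y r ∉ D) (hr : r ∈ S) (hE : tri x y r ⊆ X.E) {c : Clu3 ℕ} (hc : c ∈ U)
    (hQc : tri x y p ⊆ c.edges) : r ∉ X.T := by
  intro hrT
  obtain ⟨⟨h1, h2, h3⟩, ⟨h4, h5⟩, h6⟩ := nodup4.1 hd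
  obtain ⟨t1, t2, t3⟩ := tri_sub.1 hE
  obtain ⟨g1, g2⟩ := hK _ _ _ _ _ _ _ _ _ _ hW _ hQ c hc hQc x y r (by simp [tri])
    (fun e he hre => by rcases tri_ends he hre with h | h | h <;> [exact h3 h.symm; exact h5 h.symm; exact h6 h.symm])
    hr hrT (by rwa [Sym2.eq_swap]) t2
  obtain ⟨s1, s2, s3⟩ := tri_sub.1 hQc
  exact tt_sq hW hd hQ hS hc hQc
    (P34.sq_sub.2 ⟨by rwa [Sym2.eq_swap], by rwa [Sym2.eq_swap], g2, by rwa [Sym2.eq_swap]⟩)

end

/-- **two conflicting triangles** -/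
theorem pt3TT (hK : LemKS) : Pt3TT := by
  intro X₁ X₂ P₁ P₂ D₁ D₂ j₁ m₁ j₂ m₂ S M w1 w2 en et x y p r hd hx hy hp hr q1 q2 e1 e2 u1 u2
  obtain ⟨⟨h1, h2, h3⟩, ⟨h4, h5⟩, h6⟩ := nodup4.1 hd
  have hT : (x ∈ X₁.T ∧ y ∈ X₁.T) ∨ (y ∈ X₁.T ∧ p ∈ X₁.T) ∨ (x ∈ X₁.T ∧ p ∈ X₁.T) := by
    have hh := (w1.blk.hs _ q1).1
    rwa [hs3_tri ⟨h1, h2, h4⟩] at hh
  have hne : ∃ w ∈ S, w ∈ X₁.T := by
    rcases hT with h | h | h
    · exact ⟨x, hx, h.1⟩
    · exact ⟨y, hy, h.1⟩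
    · exact ⟨x, hx, h.1⟩
  obtain ⟨CL1, U1, PL1, A1⟩ := wa3_of w1 hne
  obtain ⟨CL2, U2, PL2, A2⟩ := wa3_of w2 (by rw [← et]; exact hne)
  obtain ⟨_, _, B1, _⟩ := A1.fr (fun _ => False) fun _ h => h.elim
  obtain ⟨_, _, B2, _⟩ := A2.fr (fun _ => False) fun _ h => h.elim
  obtain ⟨c1, hc1, hq1⟩ := B1.cluS q1 (show s(x, y) ∈ tri x y p by simp [tri]) (a := x) (by simp) hx
  obtain ⟨c2, hc2, hq2⟩ := B2.cluS q2 (show s(x, y) ∈ tri x y r by simp [tri]) (a := x) (by simp) hx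
  have hd' : [x, y, r, p].Nodup := nodup4.2 ⟨⟨h1, h3, h2⟩, ⟨h5, h4⟩, h6.symm⟩
  have u2' : TFC.sq x r y p ∉ D₂ := by
    have e : TFC.sq x r y p = TFC.sq x p y r := by
      ext e
      simp only [TFC.sq, mem_insert, mem_singleton]
      rw [Sym2.eq_swap (a := x) (b := r), Sym2.eq_swap (a := r) (b := y), Sym2.eq_swap (a := y) (b := p),
        Sym2.eq_swap (a := p) (b := x)]
      clear * -
      tauto
    rw [e]
    exact u2
  -- `r`, `p` are free
  have hrT : r ∉ X₁.T := tt_free hK A1 hd q1 u1 hr e1 hc1 hq1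
  have hpT' : p ∉ X₂.T := tt_free hK A2 hd' q2 u2' hp e2 hc2 hq2
  have hpT : p ∉ X₁.T := by rw [et]; exact hpT'
  have hrT' : r ∉ X₂.T := by rw [← et]; exact hrT
  have hxT : x ∈ X₁.T := by
    rcases hT with h | h | h
    · exact h.1
    · exact absurd h.2 hpT
    · exact h.1
  have hxT' : x ∈ X₂.T := by rw [← et]; exact hxT
  obtain ⟨hn, _, _⟩ := w1.nc x hx hxT
  refine tt_comb hn.m2 hn.one h6 (tt_path A1 hx hxT hpT hc1 (hq1 (by simp [tri])))
    (tt_path A2 hx hxT' hrT' hc2 (hq2 (by simp [tri]))) (tt_no A1 hd q1 u1 hpT hrT hc1 hq1)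
    (tt_no A2 hd' q2 u2' hrT' hpT' hc2 hq2) (fun h => ?_) fun h => ?_
  · exact (ttFF w1 A1.cls ((B1.uc _).1 hc1).1 h).elim hrT hpT
  · exact (ttFF w2 A2.cls ((B2.uc _).1 hc2).1 h).elim hpT' hrT'

end Pool.Agent.P34

end

section -- file P34/X5

/-!
Two conflicting squares with five vertices.
-/

set_option autoImplicit false

namespace Pool.Agent.P34

open Finset Pool.Agent.TFC Pool.Agent.PF4 Pool.Agent.PF4.LD Pool.Agent.PF4.XC Pool.Agent.PF4.XT
open Pool.Agent.PF4.XF (XD FitK Cv World WJ Av NC Rch dg_off)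

theorem nod5x {x y q p r : ℕ} : [x, y, q, p, r].Nodup ↔
    (x ≠ y ∧ x ≠ q ∧ x ≠ p ∧ x ≠ r) ∧ (y ≠ q ∧ y ≠ p ∧ y ≠ r) ∧ (q ≠ p ∧ q ≠ r) ∧ p ≠ r := by
  simp only [List.nodup_cons, List.mem_cons, List.not_mem_nil, or_false, not_or, List.nodup_nil, and_true,
    not_false_eq_true, ne_eq]

/-- the edges of a cluster with two centres -/
theorem hub_mem5 {c : Clu3 ℕ} {u v : ℕ} {L : Finset ℕ} (h : Hub c u v L) {a b : ℕ} (he : s(a, b) ∈ c.edges) :
    ((a = u ∧ b = v) ∨ (a = v ∧ b = u)) ∨ ((a = u ∨ a = v) ∧ b ∈ L) ∨ ((b = u ∨ b = v) ∧ a ∈ L) := by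
  rcases h with rfl | rfl | rfl | rfl
  · exact Or.inr (mem3_k2.1 he)
  · rw [mem3_k2] at he; tauto
  · exact mem3_k11.1 he
  · rw [mem3_k11] at he; tauto

/-- an edge of the cluster at a leaf -/
theorem hub_leaf5 {c : Clu3 ℕ} {u v : ℕ} {L : Finset ℕ} (h : Hub c u v L) (uL : u ∉ L) (vL : v ∉ L) {l w : ℕ}
    (hl : l ∈ L) (he : s(l, w) ∈ c.edges) : w = u ∨ w = v := by
  rcases hub_mem5 h he with (⟨h1, _⟩ | ⟨h1, _⟩) | (⟨h1 | h1, _⟩ | ⟨h1, _⟩)
  · exact absurd hl (h1 ▸ uL)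
  · exact absurd hl (h1 ▸ vL)
  · exact absurd hl (h1 ▸ uL)
  · exact absurd hl (h1 ▸ vL)
  · exact h1

/-- a vertex outside a square is adjacent in its cluster to at most one of two consecutive corners -/
theorem nb5 {c : Clu3 ℕ} (hc : c.Valid) {x y q p r : ℕ} (hd : [x, y, q, p, r].Nodup)
    (hs : TFC.sq x y q p ⊆ c.edges) (h1 : s(y, r) ∈ c.edges) (h2 : s(q, r) ∈ c.edges) : False := by
  obtain ⟨⟨xy, xq, xp, xr⟩, ⟨yq, yp, yr⟩, ⟨qp, qr⟩, pr⟩ := nod5x.1 hd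
  rcases shape3_sq hc ⟨xy, xq, xp, yq, yp, qp⟩ hs with rfl | ⟨L, h, hy, _, hx, hq⟩ | ⟨L, h, _, hq, hy, hp⟩
  · have h3 := (mem3_k4.1 h1).2.1
    simp only [mem_insert, mem_singleton] at h3
    rcases h3 with h | h | h | h
    · exact xr h.symm
    · exact yr h.symm
    · exact qr h.symm
    · exact pr h.symm
  · rcases hub_leaf5 h hx hq hy h1 with h | h
    · exact xr h.symm
    · exact qr h.symm
  · rcases hub_leaf5 h hy hp hq h2 with h | h
    · exact yr h.symm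
    · exact pr h.symm

/-- the path `r q y x p` -/
theorem path5_nsh {x y q p r : ℕ} (hd : [x, y, q, p, r].Nodup) :
    NSh ({s(r, q), s(q, y), s(y, x), s(x, p)} : Finset (Sym2 ℕ)) := by
  obtain ⟨⟨xy, xq, xp, xr⟩, ⟨yq, yp, yr⟩, ⟨qp, qr⟩, pr⟩ := nod5x.1 hd
  refine nsh_pendant' (nsh_pendant' (nsh_small ?_) ?_) ?_
  · exact lt_of_le_of_lt card_le_two (by norm_num)
  · intro f hf
    simp only [mem_insert, mem_singleton] at hf
    rcases hf with rfl | rfl <;> rw [Sym2.mem_iff] <;> rintro (h | h)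
    · exact yq h.symm
    · exact xq h.symm
    · exact xq h.symm
    · exact qp h
  · intro f hf
    simp only [mem_insert, mem_singleton] at hf
    rcases hf with rfl | rfl | rfl <;> rw [Sym2.mem_iff] <;> rintro (h | h)
    · exact qr h.symm
    · exact yr h.symm
    · exact yr h.symm
    · exact xr h.symm
    · exact xr h.symm
    · exact pr h.symm

theorem path5_dv {x y q p r : ℕ} (hd : [x, y, q, p, r].Nodup) :
    dv ({s(r, q), s(q, y), s(y, x), s(x, p)} : Finset (Sym2 ℕ)) =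
      ev r + (ev q + ev q) + (ev y + ev y) + (ev x + ev x) + ev p := by
  obtain ⟨⟨xy, xq, xp, xr⟩, ⟨yq, yp, yr⟩, ⟨qp, qr⟩, pr⟩ := nod5x.1 hd
  rw [XT.dv_insert, XT.dv_insert, XT.dv_insert, XT.dv_pair xp, XT.dv_pair xy.symm, XT.dv_pair yq.symm,
    XT.dv_pair qr.symm]
  · show ev x + ev p + (ev y + ev x) + (ev q + ev y) + (ev r + ev q) = _
    abel
  · rw [mem_singleton, Sym2.eq_iff]
    rintro (⟨h1, _⟩ | ⟨h1, _⟩)
    · exact xy h1.symm
    · exact yp h1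
  · simp only [mem_insert, mem_singleton, Sym2.eq_iff]
    rintro ((⟨h1, _⟩ | ⟨h1, _⟩) | (⟨h1, _⟩ | ⟨h1, _⟩))
    · exact yq h1.symm
    · exact xq h1.symm
    · exact xq h1.symm
    · exact qp h1
  · simp only [mem_insert, mem_singleton, Sym2.eq_iff]
    rintro ((⟨h1, _⟩ | ⟨h1, _⟩) | (⟨h1, _⟩ | ⟨h1, _⟩) | (⟨h1, _⟩ | ⟨h1, _⟩))
    · exact qr h1.symm
    · exact yr h1.symm
    · exact yr h1.symm
    · exact xr h1.symm
    · exact xr h1.symm
    · exact pr h1.symm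

theorem path5_m2 {x y q p r : ℕ} (hd : [x, y, q, p, r].Nodup) :
    M2 ({s(r, q), s(q, y), s(y, x), s(x, p)} : Finset (Sym2 ℕ)) := by
  have hv := path5_dv hd
  obtain ⟨⟨xy, xq, xp, xr⟩, ⟨yq, yp, yr⟩, ⟨qp, qr⟩, pr⟩ := nod5x.1 hd
  refine M2.of_dv ?_ ?_
  · intro f hf
    simp only [mem_insert, mem_singleton] at hf
    rcases hf with rfl | rfl | rfl | rfl
    · simpa using qr.symm
    · simpa using yq.symm
    · simpa using xy.symm
    · simpa using xp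
  · intro w
    rw [hv]
    simp only [Pi.add_apply, ev_apply]
    by_cases h1 : w = x
    · subst h1
      simp [xy, xq, xp, xr]
    · by_cases h2 : w = y
      · subst h2
        simp [h1, yq, yp, yr]
      · by_cases h3 : w = q
        · subst h3
          simp [h1, h2, qp, qr]
        · by_cases h4 : w = p
          · subst h4
            simp [h1, h2, h3, pr]
          · simp only [h1, h2, h3, h4, if_false]
            split_ifs <;> norm_num

section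
variable {X : XD3} {P : ℕ → Finset (Sym2 ℕ) → Prop} {D : Finset (Finset (Sym2 ℕ))} {j m : ℕ} {S : Finset ℕ}
  {M : ℕ → Finset (Sym2 ℕ)} {CL U : List (Clu3 ℕ)} {PL : Finset (Sym2 ℕ)}

/-- **the edge `q r` is not in the cluster of the square** -/
theorem s5_no (hW : WA3 X P D j m S M CL U PL) {x y q p r : ℕ} (hd : [x, y, q, p, r].Nodup)
    (hQ : TFC.sq x y q p ∈ D) (hp : p ∉ X.T) (hr : r ∉ X.T) {c : Clu3 ℕ} (hc : c ∈ U)
    (hQc : TFC.sq x y q p ⊆ c.edges) : s(q, r) ∉ c.edges := by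
  intro hqr
  obtain ⟨⟨xy, xq, xp, xr⟩, ⟨yq, yp, yr⟩, ⟨qp, qr⟩, pr⟩ := nod5x.1 hd
  obtain ⟨pl, mi, h, _⟩ := hW.fr (fun _ => False) fun _ h => h.elim
  obtain ⟨L, hL⟩ := h.wt hQ
  obtain ⟨t1, t2, t3, t4⟩ := P34.sq_sub.1 hQc
  have hF : ({s(r, q), s(q, y), s(y, x), s(x, p)} : Finset (Sym2 ℕ)) ⊆ c.edges := by
    intro e he
    simp only [mem_insert, mem_singleton] at he
    rcases he with rfl | rfl | rfl | rfl
    · rwa [Sym2.eq_swap]
    · rwa [Sym2.eq_swap]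
    · rwa [Sym2.eq_swap]
    · rwa [Sym2.eq_swap]
  have k1 := h.wz hQ hL hc hQc (ttOut h (fun _ hf => hf.elim) hQ hL hc hQc) hF
    (ttAM D h.ish _ c _ hF (path5_m2 hd) (path5_nsh hd))
  have hpV : p ∈ X.V2 := h.v2 (h.cW hc t3) (by simp)
  have hrV : r ∈ X.V2 := h.v2 (h.cW hc hqr) (by simp)
  have e : dv ({s(r, q), s(q, y), s(y, x), s(x, p)} : Finset (Sym2 ℕ)) - dv (TFC.sq x y q p) =
      Pi.single p (-1) + Pi.single r 1 := by
    rw [path5_dv hd, dv_sq ⟨xy, xq, xp, yq, yp, qp⟩, Pi.single_neg]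
    show ev r + (ev q + ev q) + (ev y + ev y) + (ev x + ev x) + ev p -
      (ev x + ev x + ev y + ev y + ev q + ev q + ev p + ev p) = -ev p + ev r
    abel
  rw [e, ph_two hpV hrV pr] at k1
  have k2 := con_neg_one_free (p := pl p) (h.free p (h.ok.vn p hpV) hp)
  have k3 : pl r := con_one_eq (m := mi r) (by omega)
  exact ttNY h (fun _ hf => hf.elim) hc (a := r) (b := q) (by rwa [Sym2.eq_swap])
    ⟨k3, h.free r (h.ok.vn r hrV) hr⟩

/-- the fifth vertex is free -/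
theorem s5_free (hK : LemKS) (hW : WA3 X P D j m S M CL U PL) {x y q p r : ℕ} (hd : [x, y, q, p, r].Nodup)
    (hQ : TFC.sq x y q p ∈ D) (hr : r ∈ S) (hyr : s(y, r) ∈ X.E) (hqr : s(q, r) ∈ X.E) {c : Clu3 ℕ} (hc : c ∈ U)
    (hQc : TFC.sq x y q p ⊆ c.edges) : r ∉ X.T := by
  intro hrT
  obtain ⟨_, _, B, _⟩ := hW.fr (fun _ => False) fun _ h => h.elim
  obtain ⟨⟨xy, xq, xp, xr⟩, ⟨yq, yp, yr⟩, ⟨qp, qr⟩, pr⟩ := nod5x.1 hd
  obtain ⟨g1, g2⟩ := hK _ _ _ _ _ _ _ _ _ _ hW _ hQ c hc hQc y q r (by simp [TFC.sq])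
    (fun e he hre => by
      rcases sq_ends he hre with h | h | h | h
      · exact xr h.symm
      · exact yr h.symm
      · exact qr h.symm
      · exact pr h.symm) hr hrT hyr hqr
  exact nb5 (B.val hc) hd hQc g1 g2

end

/-- **two conflicting squares with five vertices** -/
theorem pt35 (hK : LemKS) : Pt35 := by
  intro X₁ X₂ P₁ P₂ D₁ D₂ j₁ m₁ j₂ m₂ S M w1 w2 en et x y q p r hd hx hy hq hp hr q1 q2 e1 e2
  obtain ⟨⟨xy, xq, xp, xr⟩, ⟨yq, yp, yr⟩, ⟨qp, qr⟩, pr⟩ := nod5x.1 hd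
  have d4 : Dist4 x y q p := ⟨xy, xq, xp, yq, yp, qp⟩
  have hT := (w1.blk.hs _ q1).1
  rw [hs3_sq d4] at hT
  have hne : ∃ w ∈ S, w ∈ X₁.T := by
    rcases hT with h | h
    · exact ⟨x, hx, h.1⟩
    · exact ⟨y, hy, h.1⟩
  obtain ⟨CL1, U1, PL1, A1⟩ := wa3_of w1 hne
  obtain ⟨CL2, U2, PL2, A2⟩ := wa3_of w2 (by rw [← et]; exact hne)
  obtain ⟨_, _, B1, _⟩ := A1.fr (fun _ => False) fun _ h => h.elim
  obtain ⟨_, _, B2, _⟩ := A2.fr (fun _ => False) fun _ h => h.elim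
  -- world 2: the square is `y x q r`
  have hd' : [y, x, q, r, p].Nodup := nod5x.2 ⟨⟨xy.symm, yq, yr, yp⟩, ⟨xq, xr, xp⟩, ⟨qr, qp⟩, pr.symm⟩
  have eR : TFC.sq x y r q = TFC.sq y x q r := by
    ext e
    simp only [TFC.sq, mem_insert, mem_singleton]
    rw [Sym2.eq_swap (a := x) (b := y), Sym2.eq_swap (a := y) (b := r), Sym2.eq_swap (a := r) (b := q),
      Sym2.eq_swap (a := q) (b := x)]
    clear * -
    tauto
  rw [eR] at q2
  obtain ⟨c1, hc1, hq1⟩ := B1.cluS q1 (show s(x, y) ∈ TFC.sq x y q p by simp [TFC.sq]) (a := x) (by simp) hx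
  obtain ⟨c2, hc2, hq2⟩ := B2.cluS q2 (show s(y, x) ∈ TFC.sq y x q r by simp [TFC.sq]) (a := x) (by simp) hx
  obtain ⟨a1, a2, a3, a4⟩ := P34.sq_sub.1 e1
  obtain ⟨b1, b2, b3, b4⟩ := P34.sq_sub.1 e2
  -- `r`, `p` are free
  have hrT : r ∉ X₁.T := s5_free hK A1 hd q1 hr a2 (by rwa [Sym2.eq_swap]) hc1 hq1
  have hpT' : p ∉ X₂.T := s5_free hK A2 hd' q2 hp (by rwa [Sym2.eq_swap]) b3 hc2 hq2
  have hpT : p ∉ X₁.T := by rw [et]; exact hpT'
  have hrT' : r ∉ X₂.T := by rw [← et]; exact hrT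
  have hqT : q ∈ X₁.T := by tauto
  have hqT' : q ∈ X₂.T := by rw [← et]; exact hqT
  obtain ⟨hn, _, _⟩ := w1.nc q hq hqT
  refine tt_comb hn.m2 hn.one pr (tt_path A1 hq hqT hpT hc1 (hq1 (by simp [TFC.sq])))
    (tt_path A2 hq hqT' hrT' hc2 (hq2 (by simp [TFC.sq]))) (s5_no A1 hd q1 hpT hrT hc1 hq1)
    (s5_no A2 hd' q2 hrT' hpT' hc2 hq2) (fun h => ?_) fun h => ?_
  · exact (ttFF w1 A1.cls ((B1.uc _).1 hc1).1 h).elim hrT hpT
  · exact (ttFF w2 A2.cls ((B2.uc _).1 hc2).1 h).elim hpT' hrT'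

end Pool.Agent.P34

end

section -- file P34/Xp2

/-!
Two conflicting squares, six vertices, two free corners which are both adjacent to `x` (pattern `p2`).
-/

set_option autoImplicit false

namespace Pool.Agent.P34

open Finset Pool.Agent.TFC Pool.Agent.PF4 Pool.Agent.PF4.LD Pool.Agent.PF4.XC Pool.Agent.PF4.XT
open Pool.Agent.PF4.XF (XD FitK Cv World WJ Av NC Rch dg_off)

section
variable {X : XD3} {P : ℕ → Finset (Sym2 ℕ) → Prop} {D : Finset (Finset (Sym2 ℕ))} {j m : ℕ} {S : Finset ℕ}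
  {M : ℕ → Finset (Sym2 ℕ)} {CL U : List (Clu3 ℕ)} {PL : Finset (Sym2 ℕ)}

/-- two free leaves: if `u p v l` is in `D` and `p` is free, then every other leaf is in `T` -/
theorem WA3.leaf_free (hW : WA3 X P D j m S M CL U PL) {c : Clu3 ℕ} (hc : c ∈ U) {u v : ℕ} {L : Finset ℕ}
    (hh : Hub c u v L) {p l s : ℕ} (hp : p ∈ L) (hl : l ∈ L) (hs : s ∈ L) (sp : s ≠ p) (sl : s ≠ l) (pl' : p ≠ l)
    (hD : TFC.sq u p v l ∈ D) (hpT : p ∉ X.T) : s ∈ X.T := by
  by_contra hsT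
  obtain ⟨pl, mi, h, _⟩ := hW.cap
  have hO := h.fr_gdc hc fun _ _ _ hf => hf
  have hA : AM3 (Fr3 D fun _ => False) c := h.fr_am c
  have h1 := h.leaf hc hh hO hA hs hp hl sp sl pl' hD
  have hpV := h.hV hc hh (Or.inr (Or.inr hp))
  have hsV := h.hV hc hh (Or.inr (Or.inr hs))
  have h2 := con_neg_one_free (p := pl p) (h.free p (h.ok.vn p hpV) hpT)
  have h3 : pl s := con_one_eq (m := mi s) (by omega)
  exact h.leafY hc hh hO hA hs ⟨h3, h.free s (h.ok.vn s hsV) hsT⟩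

/-- the free corner `s` is not joined to `x` in the cluster of the square `x y q p` with the free corner `p` -/
theorem p2_no (hW : WA3 X P D j m S M CL U PL) {x y q p s : ℕ} (hd : Dist4 x y q p) (sx : s ≠ x) (sy : s ≠ y)
    (sq' : s ≠ q) (sp : s ≠ p) (hQ : TFC.sq x y q p ∈ D) (hp : p ∉ X.T) (hs : s ∉ X.T) {c : Clu3 ℕ} (hc : c ∈ U)
    (hQc : TFC.sq x y q p ⊆ c.edges) : s(x, s) ∉ c.edges := by
  intro hxs
  obtain ⟨pl, mi, h, _⟩ := hW.cap
  obtain ⟨xy, xq, xp, yq, yp, qp⟩ := hd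
  rcases shape3_sq (h.val hc) ⟨xy, xq, xp, yq, yp, qp⟩ hQc with rfl | ⟨L, h1, h2, h3, _⟩ | ⟨L, h1, h2, h3, _⟩
  · have h4 := (mem3_k4.1 hxs).2.1
    simp only [mem_insert, mem_singleton] at h4
    tauto
  · -- hubs `x`, `q`
    have h4 := h1.sup hxs
    obtain ⟨_, uL, vL, _⟩ := h1.dat (h.val hc)
    rcases mem3_k11.1 h4 with (⟨_, g⟩ | ⟨g, _⟩) | (⟨_, g⟩ | ⟨_, g⟩)
    · exact sq' g
    · exact xq g
    · exact hs (hW.leaf_free hc h1 h3 h2 g sp sy yp.symm (by rw [sq_swp3]; exact hQ) hp)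
    · exact uL g
  · -- hubs `y`, `p`
    have h4 := h1.sup hxs
    obtain ⟨_, uL, vL, _⟩ := h1.dat (h.val hc)
    rcases mem3_k11.1 h4 with (⟨g, _⟩ | ⟨g, _⟩) | (⟨g | g, _⟩ | ⟨g | g, _⟩)
    · exact xy g
    · exact xp g
    · exact xy g
    · exact xp g
    · exact sy g
    · exact sp g

end

/-- **pattern `p2`**: two free corners, both adjacent to `x` -/
theorem pt36_p2 : Pt36 fun T x y q p r s => x ∈ T ∧ y ∈ T ∧ q ∈ T ∧ r ∈ T ∧ p ∉ T ∧ s ∉ T := by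
  rintro X₁ X₂ P₁ P₂ D₁ D₂ j₁ m₁ j₂ m₂ S M w1 w2 en et x y q p r s hd hx hy hq hp hr hs q1 q2 e1 e2
    ⟨hxT, hyT, hqT, hrT, hpT, hsT⟩
  obtain ⟨⟨a1, a2, a3, a4, a5⟩, ⟨b1, b2, b3, b4⟩, ⟨c1, c2, c3⟩, ⟨d1, d2⟩, f1⟩ := XF.nodup6.1 hd
  have hxT' : x ∈ X₂.T := by rw [← et]; exact hxT
  have hpT' : p ∉ X₂.T := by rw [← et]; exact hpT
  have hsT' : s ∉ X₂.T := by rw [← et]; exact hsT
  obtain ⟨CL1, U1, PL1, A1⟩ := wa3_of w1 ⟨x, hx, hxT⟩
  obtain ⟨CL2, U2, PL2, A2⟩ := wa3_of w2 ⟨x, hx, hxT'⟩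
  obtain ⟨_, _, B1, _⟩ := A1.cap
  obtain ⟨_, _, B2, _⟩ := A2.cap
  obtain ⟨k1, hk1, hq1⟩ := B1.cluS q1 (show s(x, y) ∈ TFC.sq x y q p by simp [TFC.sq]) (a := x) (by simp) hx
  obtain ⟨k2, hk2, hq2⟩ := B2.cluS q2 (show s(x, y) ∈ TFC.sq x y r s by simp [TFC.sq]) (a := x) (by simp) hx
  obtain ⟨hn, _, _⟩ := w1.nc x hx hxT
  refine tt_comb hn.m2 hn.one d2 (tt_path A1 hx hxT hpT hk1 (hq1 (by simp [TFC.sq])))
    (tt_path A2 hx hxT' hsT' hk2 (hq2 (by simp [TFC.sq])))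
    (p2_no A1 ⟨a1, a2, a3, b1, b2, c1⟩ a5.symm b4.symm c3.symm d2.symm q1 hpT hsT hk1 hq1)
    (p2_no A2 ⟨a1, a4, a5, b3, b4, f1⟩ a3.symm b2.symm d1 d2 q2 hsT' hpT' hk2 hq2) (fun h => ?_) fun h => ?_
  · exact (ttFF w1 A1.cls ((B1.uc _).1 hk1).1 h).elim hsT hpT
  · exact (ttFF w2 A2.cls ((B2.uc _).1 hk2).1 h).elim hpT' hsT'

end Pool.Agent.P34

end

section -- file P34/Xp3

/-!
Two conflicting squares, six vertices, two free corners `p` (adjacent to `x`) and `r` (adjacent to `y`): pattern `p3`.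

`Q = sq x y q p` is in the first world, `R = sq x y r s` in the second one. Everything is stated for the near covers and the
clusters `c1` of `Q`, `c2` of `R` only (`O3`, `C3`); the exchange of the two worlds is `(x, y, q, p, r, s) ↦ (y, x, s, r, p, q)`.
-/

set_option autoImplicit false

namespace Pool.Agent.P34

open Finset Pool.Agent.TFC Pool.Agent.PF4 Pool.Agent.PF4.LD Pool.Agent.PF4.XC Pool.Agent.PF4.XT
open Pool.Agent.PF4.XF (XD FitK Cv World WJ Av NC Rch dg_off)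

/-- near covers at one cluster: types `pl`, `mi` in the frame in which this cluster is uncapped -/
structure O3 (V : Finset ℕ) (M : ℕ → Finset (Sym2 ℕ)) (pl mi : ℕ → Prop) (c : Clu3 ℕ) (W : Finset ℕ) : Prop where
  val : c.Valid
  nl : ∀ {a b : ℕ}, s(a, b) ∈ c.edges → a ≠ b
  v2 : ∀ {a b : ℕ}, s(a, b) ∈ c.edges → a ∈ V ∧ b ∈ V
  m2 : ∀ {w : ℕ}, w ∈ W → M2 (M w)
  one : ∀ {w : ℕ}, w ∈ W → dg (M w) w = 1
  hmi : ∀ {w : ℕ}, w ∈ W → mi w
  wV : ∀ {w : ℕ}, w ∈ W → w ∈ V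
  nsh : ∀ {w : ℕ}, w ∈ W → NSh (M w ∩ c.edges)
  rep : ∀ {w : ℕ}, w ∈ W → ∀ {K : Finset (Sym2 ℕ)}, K ⊆ c.edges → NSh K →
    1 ≤ ph V pl mi (dv K - dv (M w ∩ c.edges) - Pi.single w 1)

section
variable {V : Finset ℕ} {M : ℕ → Finset (Sym2 ℕ)} {pl mi : ℕ → Prop} {c : Clu3 ℕ} {W : Finset ℕ}

/-- an edge at `w` is added -/
theorem O3.add1 (h : O3 V M pl mi c W) {w z : ℕ} (hw : w ∈ W) (he : s(w, z) ∈ c.edges) (hz : ¬ pl z) :
    s(w, z) ∈ M w ∨ Pth (M w ∩ c.edges) w z := by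
  by_contra hn
  rw [not_or] at hn
  obtain ⟨hn, hp⟩ := hn
  have hN : NSh (insert s(w, z) (M w ∩ c.edges)) := by
    by_contra h'
    exact hp (nsh_insert (h.nsh hw) h')
  have h1 := h.rep hw (Finset.insert_subset he Finset.inter_subset_right) hN
  rw [dv_insert (fun h' => hn (Finset.mem_inter.1 h').1), dv_pair (h.nl he)] at h1
  have e : dv (M w ∩ c.edges) + (Pi.single w 1 + Pi.single z 1) - dv (M w ∩ c.edges) - Pi.single w 1 =
      (Pi.single z 1 : ℕ → ℤ) := by abel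
  rw [e, ph_one (h.v2 he).2] at h1
  exact hz (con_one_eq (m := mi z) (by omega))

/-- an edge not at `w` is added -/
theorem O3.add2 (h : O3 V M pl mi c W) {w a b : ℕ} (hw : w ∈ W) (hwa : w ≠ a) (hwb : w ≠ b)
    (he : s(a, b) ∈ c.edges) (ha : mi a ∧ ¬ pl a) (hb : ¬ mi b ∧ ¬ pl b) :
    s(a, b) ∈ M w ∨ Pth (M w ∩ c.edges) a b := by
  by_contra hn
  rw [not_or] at hn
  obtain ⟨hn, hp⟩ := hn
  have hN : NSh (insert s(a, b) (M w ∩ c.edges)) := by
    by_contra h'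
    exact hp (nsh_insert (h.nsh hw) h')
  have h1 := h.rep hw (Finset.insert_subset he Finset.inter_subset_right) hN
  rw [dv_insert (fun h' => hn (Finset.mem_inter.1 h').1), dv_pair (h.nl he)] at h1
  have e : dv (M w ∩ c.edges) + (Pi.single a 1 + Pi.single b 1) - dv (M w ∩ c.edges) - Pi.single w 1 =
      (Pi.single w (-1) + Pi.single a 1 + Pi.single b 1 : ℕ → ℤ) := by
    rw [Pi.single_neg]
    abel
  rw [e, ph_three (h.wV hw) (h.v2 he).1 (h.v2 he).2 hwa hwb (h.nl he), con_X ha.2 ha.1, con_N hb.2 hb.1] at h1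
  have := con_neg_one (pl w) (mi w)
  omega

/-- an edge at `w` to a vertex of type N is removed: `w` has not `pl` -/
theorem O3.rem (h : O3 V M pl mi c W) {w z : ℕ} (hw : w ∈ W) (he : s(w, z) ∈ c.edges) (hM : s(w, z) ∈ M w)
    (hz : ¬ mi z ∧ ¬ pl z) : ¬ pl w := by
  intro hpl
  have hm : s(w, z) ∈ M w ∩ c.edges := Finset.mem_inter.2 ⟨hM, he⟩
  have h1 := h.rep hw (K := (M w ∩ c.edges).erase s(w, z)) ((Finset.erase_subset _ _).trans Finset.inter_subset_right)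
    ((h.nsh hw).mono (Finset.erase_subset _ _))
  have h2 : dv (M w ∩ c.edges) = dv ((M w ∩ c.edges).erase s(w, z)) + (Pi.single w 1 + Pi.single z 1) := by
    rw [← dv_pair (h.nl he), ← dv_insert (Finset.notMem_erase _ _), Finset.insert_erase hm]
  rw [h2] at h1
  have e : dv ((M w ∩ c.edges).erase s(w, z)) -
      (dv ((M w ∩ c.edges).erase s(w, z)) + (Pi.single w 1 + Pi.single z 1)) - Pi.single w 1 =
      (Pi.single w (-2) + Pi.single z (-1) : ℕ → ℤ) := by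
    have e2 : (Pi.single w (-2) : ℕ → ℤ) = - Pi.single w 1 - Pi.single w 1 := by
      rw [← Pi.single_neg, ← Pi.single_sub]
      norm_num
    rw [e2, Pi.single_neg]
    abel
  rw [e, ph_two (h.v2 he).1 (h.v2 he).2 (h.nl he), con_Z hpl (h.hmi hw), con_N hz.2 hz.1] at h1
  omega

end

/-- **the configuration in one world**: the square `x y q p` in the cluster `c`, `p` free -/
structure C3 (V : Finset ℕ) (M : ℕ → Finset (Sym2 ℕ)) (pl mi : ℕ → Prop) (c : Clu3 ℕ) (W : Finset ℕ)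
    (x y q p r s : ℕ) : Prop where
  o : O3 V M pl mi c W
  nd : [x, y, q, p, r, s].Nodup
  xW : x ∈ W
  yW : y ∈ W
  qW : q ∈ W
  sW : s ∈ W
  sq : TFC.sq x y q p ⊆ c.edges
  pN : ¬ mi p ∧ ¬ pl p
  x1 : pl x → pl y → pl q → False
  shp : ∃ L, (Hub c y p L ∧ x ∈ L ∧ q ∈ L) ∨ (Hub (Clu3.k2 x q L) x q L ∧ (c = Clu3.k2 x q L ∨ c = Clu3.k2 q x L) ∧
    y ∈ L ∧ p ∈ L)
  n3 : s(p, r) ∉ c.edges
  n2 : s(x, r) ∉ c.edges
  n1 : s(y, r) ∉ c.edges

section
variable {V : Finset ℕ} {M : ℕ → Finset (Sym2 ℕ)} {pl mi : ℕ → Prop} {c : Clu3 ℕ} {W : Finset ℕ}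
  {x y q p r s : ℕ}

theorem C3.exy (h : C3 V M pl mi c W x y q p r s) : s(x, y) ∈ c.edges := h.sq (by simp [TFC.sq])

theorem C3.eyq (h : C3 V M pl mi c W x y q p r s) : s(y, q) ∈ c.edges := h.sq (by simp [TFC.sq])

theorem C3.eqp (h : C3 V M pl mi c W x y q p r s) : s(q, p) ∈ c.edges := h.sq (by simp [TFC.sq])

theorem C3.exp (h : C3 V M pl mi c W x y q p r s) : s(x, p) ∈ c.edges := by
  rw [Sym2.eq_swap]
  exact h.sq (by simp [TFC.sq])

/-- the edges of a cluster with the centres `y`, `p` at a leaf -/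
theorem hub_leaf {u v l a : ℕ} {L : Finset ℕ} (h : Hub c u v L) (hv : c.Valid) (hl : l ∈ L)
    (he : s(l, a) ∈ c.edges) : a = u ∨ a = v := by
  obtain ⟨_, uL, vL, _⟩ := h.dat hv
  rcases mem3_k11.1 (h.sup he) with (⟨g, _⟩ | ⟨g, _⟩) | (⟨g | g, _⟩ | ⟨g, _⟩)
  · exact absurd (g ▸ hl) uL
  · exact absurd (g ▸ hl) vL
  · exact absurd (g ▸ hl) uL
  · exact absurd (g ▸ hl) vL
  · exact g

/-- the two centres of a `K2` cluster are not adjacent -/
theorem k2_nh {u v : ℕ} {L : Finset ℕ} (hc : c = Clu3.k2 u v L ∨ c = Clu3.k2 v u L) (hv : c.Valid) :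
    s(u, v) ∉ c.edges := by
  intro he
  rcases hc with rfl | rfl
  · obtain ⟨uv, uL, vL, _⟩ : u ≠ v ∧ u ∉ L ∧ v ∉ L ∧ 2 ≤ #L := hv
    rcases mem3_k2.1 he with ⟨_, g⟩ | ⟨_, g⟩
    · exact vL g
    · exact uL g
  · obtain ⟨uv, uL, vL, _⟩ : v ≠ u ∧ v ∉ L ∧ u ∉ L ∧ 2 ≤ #L := hv
    rcases mem3_k2.1 he with ⟨_, g⟩ | ⟨_, g⟩
    · exact uL g
    · exact vL g

/-- the shape of the cluster: every leaf is adjacent to the centres only -/
theorem C3.cases (h : C3 V M pl mi c W x y q p r s) :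
    ((∀ a, s(x, a) ∈ c.edges → a = y ∨ a = p) ∧ (∀ a, s(q, a) ∈ c.edges → a = y ∨ a = p)) ∨
    ((∀ a, s(y, a) ∈ c.edges → a = x ∨ a = q) ∧ (∀ a, s(p, a) ∈ c.edges → a = x ∨ a = q) ∧
      s(x, q) ∉ c.edges) := by
  obtain ⟨L, ⟨h1, h2, h3⟩ | ⟨_, h1, h2, h3⟩⟩ := h.shp
  · exact Or.inl ⟨fun a ha => hub_leaf h1 h.o.val h2 ha, fun a ha => hub_leaf h1 h.o.val h3 ha⟩
  · have hh : Hub c x q L := by
      rcases h1 with h1 | h1
      · exact Or.inl h1
      · exact Or.inr (Or.inl h1)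
    exact Or.inr ⟨fun a ha => hub_leaf hh h.o.val h2 ha, fun a ha => hub_leaf hh h.o.val h3 ha,
      k2_nh h1 h.o.val⟩

theorem C3.t1 (h : C3 V M pl mi c W x y q p r s) {a : ℕ} (h1 : s(x, a) ∈ c.edges) (h2 : s(a, p) ∈ c.edges) :
    a = y := by
  rcases h.cases with ⟨g1, _⟩ | ⟨_, g2, g3⟩
  · rcases g1 a h1 with e | e
    · exact e
    · exact absurd e (h.o.nl h2)
  · rw [Sym2.eq_swap] at h2
    rcases g2 a h2 with e | e
    · exact absurd e.symm (h.o.nl h1)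
    · rw [e] at h1
      exact absurd h1 g3

theorem C3.t2 (h : C3 V M pl mi c W x y q p r s) {a : ℕ} (h1 : s(y, a) ∈ c.edges) (h2 : s(a, q) ∈ c.edges) :
    a = p := by
  rcases h.cases with ⟨_, g1⟩ | ⟨g2, _, g3⟩
  · rw [Sym2.eq_swap] at h2
    rcases g1 a h2 with e | e
    · exact absurd e.symm (h.o.nl h1)
    · exact e
  · rcases g2 a h1 with e | e
    · rw [e] at h2
      exact absurd h2 g3
    · exact absurd e (h.o.nl h2)

theorem C3.t5 (h : C3 V M pl mi c W x y q p r s) {a b : ℕ} (h1 : s(x, a) ∈ c.edges) (h2 : s(b, p) ∈ c.edges)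
    (ha : a ≠ p) (hb : b ≠ x) : a = y ∨ b = q := by
  rcases h.cases with ⟨g1, _⟩ | ⟨_, g2, _⟩
  · exact Or.inl ((g1 a h1).resolve_right ha)
  · rw [Sym2.eq_swap] at h2
    exact Or.inr ((g2 b h2).resolve_left hb)

theorem C3.t6 (h : C3 V M pl mi c W x y q p r s) {e : ℕ} (h1 : s(q, e) ∈ c.edges) (h2 : s(e, p) ∈ c.edges) :
    e = y := by
  rcases h.cases with ⟨_, g1⟩ | ⟨_, g2, g3⟩
  · rcases g1 e h1 with g | g
    · exact g
    · exact absurd g (h.o.nl h2)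
  · rw [Sym2.eq_swap] at h2
    rcases g2 e h2 with g | g
    · rw [g, Sym2.eq_swap] at h1
      exact absurd h1 g3
    · exact absurd g.symm (h.o.nl h1)

theorem C3.t7 (h : C3 V M pl mi c W x y q p r s) {e f : ℕ} (h1 : s(q, e) ∈ c.edges) (h2 : s(f, p) ∈ c.edges)
    (he : e ≠ p) (hf : f ≠ q) : e = y ∨ f = x := by
  rcases h.cases with ⟨_, g1⟩ | ⟨_, g2, _⟩
  · exact Or.inl ((g1 e h1).resolve_right he)
  · rw [Sym2.eq_swap] at h2
    exact Or.inr ((g2 f h2).resolve_right hf)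

/-- the near cover of `x` -/
theorem C3.px (h : C3 V M pl mi c W x y q p r s) : s(x, p) ∈ M x ∨ Pth (M x ∩ c.edges) x p :=
  h.o.add1 h.xW h.exp h.pN.2

end

/-- the only edge at `x` -/
theorem nb1 {K : Finset (Sym2 ℕ)} {x a b : ℕ} (h : dg K x = 1) (ha : s(x, a) ∈ K) (hb : s(x, b) ∈ K) : a = b := by
  by_contra hab
  have := two_at hab ha hb
  omega

theorem mk3 {K C : Finset (Sym2 ℕ)} {e : Sym2 ℕ} (h : e ∈ K ∩ C) : e ∈ K ∧ e ∈ C := Finset.mem_inter.1 h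

theorem sw3 {K : Finset (Sym2 ℕ)} {a b : ℕ} (h : s(a, b) ∈ K) : s(b, a) ∈ K := by rwa [Sym2.eq_swap]

section
variable {V V' : Finset ℕ} {M : ℕ → Finset (Sym2 ℕ)} {pl mi pl' mi' : ℕ → Prop} {c c' : Clu3 ℕ} {W W' : Finset ℕ}
  {x y q p r s : ℕ}

/-- `M x` has no path of the second cluster from `x` to `s` -/
theorem noPxs (h : C3 V M pl mi c W x y q p r s) (h' : C3 V' M pl' mi' c' W' y x s r p q) :
    ¬ Pth (M x ∩ c'.edges) x s := by
  intro hP
  have hd := XF.nodup6.1 h.nd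
  obtain ⟨⟨a1, a2, a3, a4, a5⟩, ⟨b1, b2, b3, b4⟩, ⟨c1, c2, c3⟩, ⟨d1, d2⟩, f1⟩ := hd
  have hK := h.o.m2 h.xW
  have h1 := h.o.one h.xW
  rcases h.px with e | e
  · obtain ⟨a, _, ha⟩ := hP.fst
    have := nb1 h1 e (mk3 ha).1
    subst this
    exact h'.n1 (mk3 ha).2
  · rcases e with ⟨a, ⟨g1, g2, g3⟩, k1, k2⟩ | ⟨a, b, ⟨g1, g2, g3, g4, g5, g6⟩, k1, k2, k3⟩
    · have := h.t1 (mk3 k1).2 (mk3 k2).2
      subst this
      rcases hP with ⟨e, ⟨m1, m2, m3⟩, n1, n2⟩ | ⟨e, f, ⟨m1, m2, m3, m4, m5, m6⟩, n1, n2, n3⟩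
      · have := nb1 h1 (mk3 k1).1 (mk3 n1).1
        subst this
        exact three_at hK a3 a5 d2 (sw3 (mk3 k1).1) (mk3 k2).1 (mk3 n2).1
      · have := nb1 h1 (mk3 k1).1 (mk3 n1).1
        subst this
        by_cases ef : p = f
        · subst ef
          exact h'.n2 (mk3 n2).2
        · exact three_at hK a3 m2 ef (sw3 (mk3 k1).1) (mk3 k2).1 (mk3 n2).1
    · rcases hP with ⟨e, ⟨m1, m2, m3⟩, n1, n2⟩ | ⟨e, f, ⟨m1, m2, m3, m4, m5, m6⟩, n1, n2, n3⟩
      · have := nb1 h1 (mk3 k1).1 (mk3 n1).1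
        subst this
        have := h'.t2 (mk3 n1).2 (mk3 n2).2
        subst this
        exact h.n2 (mk3 k1).2
      · have := nb1 h1 (mk3 k1).1 (mk3 n1).1
        subst this
        by_cases ef : b = f
        · subst ef
          exact three_at hK g5 m5 d2 (sw3 (mk3 k2).1) (mk3 k3).1 (mk3 n3).1
        · exact three_at hK g2 m2 ef (sw3 (mk3 k1).1) (mk3 k2).1 (mk3 n2).1

/-- **step A**: `s` has `pl` in the second world -/
theorem stepA3 (h : C3 V M pl mi c W x y q p r s) (h' : C3 V' M pl' mi' c' W' y x s r p q) : pl' s := by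
  by_contra hs
  have hd := XF.nodup6.1 h.nd
  obtain ⟨⟨a1, a2, a3, a4, a5⟩, ⟨b1, b2, b3, b4⟩, ⟨c1, c2, c3⟩, ⟨d1, d2⟩, f1⟩ := hd
  have hK := h.o.m2 h.xW
  have h1 := h.o.one h.xW
  rcases h'.o.add1 h'.yW h'.eyq hs with e0 | e0
  · have hP := h'.o.add2 (w := x) (a := s) (b := r) h'.yW a5 a4 h'.eqp ⟨h'.o.hmi h'.qW, hs⟩ h'.pN
    rcases h.px with e | e
    · exact d2 (nb1 h1 e e0)
    · rcases e with ⟨a, ⟨g1, g2, g3⟩, k1, k2⟩ | ⟨a, b, ⟨g1, g2, g3, g4, g5, g6⟩, k1, k2, k3⟩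
      · have := nb1 h1 e0 (mk3 k1).1
        subst this
        exact b4 (h.t1 (mk3 k1).2 (mk3 k2).2).symm
      · have := nb1 h1 e0 (mk3 k1).1
        subst this
        rcases hP with hP | ⟨e, ⟨m1, m2, m3⟩, n1, n2⟩ | ⟨e, f, ⟨m1, m2, m3, m4, m5, m6⟩, n1, n2, n3⟩
        · by_cases br : b = r
          · subst br
            exact h.n3 (sw3 (mk3 k3).2)
          · exact three_at hK g2 a4 br (sw3 e0) (mk3 k2).1 hP
        · by_cases ex : x = e
          · subst ex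
            exact f1 (nb1 h1 (mk3 n2).1 e0)
          · by_cases be : b = e
            · subst be
              exact three_at hK g5 m2 d1 (sw3 (mk3 k2).1) (mk3 k3).1 (mk3 n2).1
            · exact three_at hK g2 ex be (sw3 e0) (mk3 k2).1 (mk3 n1).1
        · by_cases ex : x = e
          · subst ex
            exact m2 (nb1 h1 e0 (mk3 n2).1)
          · by_cases be : b = e
            · subst be
              by_cases pf : p = f
              · subst pf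
                exact h'.n3 (sw3 (mk3 n3).2)
              · exact three_at hK g5 m2 pf (sw3 (mk3 k2).1) (mk3 k3).1 (mk3 n2).1
            · exact three_at hK g2 ex be (sw3 e0) (mk3 k2).1 (mk3 n1).1
  · exact noPxs h h' e0

/-- `x y` not in `M x`, `x p` not in `M x`: no path of `M x` from `x` to `y` in any set -/
theorem noPxy (h : C3 V M pl mi c W x y q p r s) (hxy : s(x, y) ∉ M x) (hxp : s(x, p) ∉ M x)
    {C : Finset (Sym2 ℕ)} : ¬ Pth (M x ∩ C) x y := by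
  intro hP
  obtain ⟨⟨a1, a2, a3, a4, a5⟩, ⟨b1, b2, b3, b4⟩, ⟨c1, c2, c3⟩, ⟨d1, d2⟩, f1⟩ := XF.nodup6.1 h.nd
  have hK := h.o.m2 h.xW
  have h1 := h.o.one h.xW
  rcases h.px with e | e
  · exact hxp e
  · rcases e with ⟨a, ⟨g1, g2, g3⟩, k1, k2⟩ | ⟨a, b, ⟨g1, g2, g3, g4, g5, g6⟩, k1, k2, k3⟩
    · have := h.t1 (mk3 k1).2 (mk3 k2).2
      subst this
      exact hxy (mk3 k1).1
    · rcases h.t5 (mk3 k1).2 (mk3 k3).2 g5 g2.symm with e | e
      · subst e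
        exact hxy (mk3 k1).1
      · subst e
        rcases hP with ⟨e, ⟨m1, m2, m3⟩, n1, n2⟩ | ⟨e, f, ⟨m1, m2, m3, m4, m5, m6⟩, n1, n2, n3⟩
        · have := nb1 h1 (mk3 k1).1 (mk3 n1).1
          subst this
          exact three_at hK a2 a1 b1.symm (sw3 (mk3 k1).1) (mk3 k2).1 (mk3 n2).1
        · have := nb1 h1 (mk3 k1).1 (mk3 n1).1
          subst this
          by_cases ef : b = f
          · subst ef
            exact three_at hK g5 m5 b2.symm (sw3 (mk3 k2).1) (mk3 k3).1 (mk3 n3).1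
          · exact three_at hK g2 m2 ef (sw3 (mk3 k1).1) (mk3 k2).1 (mk3 n2).1

/-- **step B** -/
theorem stepB3 (h : C3 V M pl mi c W x y q p r s) (h' : C3 V' M pl' mi' c' W' y x s r p q)
    (hxy : s(x, y) ∉ M x) : pl' y ∧ (¬ pl x ∨ pl y) := by
  obtain ⟨⟨a1, a2, a3, a4, a5⟩, ⟨b1, b2, b3, b4⟩, ⟨c1, c2, c3⟩, ⟨d1, d2⟩, f1⟩ := XF.nodup6.1 h.nd
  have h1 := h.o.one h.xW
  constructor
  · by_contra hy
    rcases h'.o.add1 h'.yW (sw3 h'.exy) hy with e | e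
    · exact hxy e
    · by_cases hxp : s(x, p) ∈ M x
      · obtain ⟨a, _, ha⟩ := e.fst
        have := nb1 h1 hxp (mk3 ha).1
        subst this
        exact h'.n1 (mk3 ha).2
      · exact noPxy h hxy hxp e
  · by_cases hxp : s(x, p) ∈ M x
    · exact Or.inl (h.o.rem h.xW h.exp hxp h.pN)
    · right
      by_contra hy
      rcases h.o.add1 h.xW h.exy hy with e | e
      · exact hxy e
      · exact noPxy h hxy hxp e

/-- **step C**: `x` has `pl` in the first world -/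
theorem stepC3 (h : C3 V M pl mi c W x y q p r s) (h' : C3 V' M pl' mi' c' W' y x s r p q) : pl x := by
  by_contra hx
  obtain ⟨⟨a1, a2, a3, a4, a5⟩, ⟨b1, b2, b3, b4⟩, ⟨c1, c2, c3⟩, ⟨d1, d2⟩, f1⟩ := XF.nodup6.1 h.nd
  have hps : pl' s := stepA3 h h'
  have hK := h.o.m2 h.sW
  have h1 := h.o.one h.sW
  have hb2 := h.o.add2 (w := s) (a := x) (b := p) h.sW a5.symm d2.symm h.exp ⟨h.o.hmi h.xW, hx⟩ h.pN
  rcases h'.o.add1 h'.qW h'.eqp h'.pN.2 with e | e
  · exact h'.o.rem h'.qW h'.eqp e h'.pN hps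
  -- the first vertex of the path is `x`, and then `g`
  have key : ∀ g, s(s, x) ∈ M s → s(x, g) ∈ M s → g ≠ s → (g = r ∨ (g ≠ p ∧ s(g, r) ∈ M s ∧ g ≠ r)) → False := by
    intro g k1 k2 gs hg
    rcases hb2 with e2 | ⟨u, ⟨m1, m2, m3⟩, n1, n2⟩ | ⟨u, v, ⟨m1, m2, m3, m4, m5, m6⟩, n1, n2, n3⟩
    · rcases hg with hg | ⟨hg, _⟩
      · subst hg
        exact three_at hK f1.symm d2.symm d1.symm (sw3 k1) k2 e2
      · exact three_at hK gs.symm d2.symm hg (sw3 k1) k2 e2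
    · by_cases us : u = s
      · subst us
        exact a3 (nb1 h1 k1 (mk3 n2).1)
      · by_cases ug : u = g
        · subst ug
          rcases hg with hg | ⟨hg, g2, g3⟩
          · subst hg
            exact h.n2 (mk3 n1).2
          · exact three_at hK a4 a3 d1.symm (sw3 k2) g2 (mk3 n2).1
        · exact three_at hK (Ne.symm us) gs.symm ug (sw3 k1) (mk3 n1).1 k2
    · by_cases us : u = s
      · subst us
        exact m2 (nb1 h1 k1 (mk3 n2).1)
      · by_cases ug : u = g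
        · subst ug
          rcases hg with hg | ⟨hg, g2, g3⟩
          · subst hg
            exact h.n2 (mk3 n1).2
          · by_cases rv : r = v
            · subst rv
              exact h.n3 (sw3 (mk3 n3).2)
            · exact three_at hK a4 m2 rv (sw3 k2) g2 (mk3 n2).1
        · exact three_at hK (Ne.symm us) gs.symm ug (sw3 k1) (mk3 n1).1 k2
  rcases e with ⟨e, ⟨m1, m2, m3⟩, n1, n2⟩ | ⟨e, f, ⟨m1, m2, m3, m4, m5, m6⟩, n1, n2, n3⟩
  · have := h'.t6 (mk3 n1).2 (mk3 n2).2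
    subst this
    exact key r (mk3 n1).1 (mk3 n2).1 m2.symm (Or.inl rfl)
  · by_cases ex : e = x
    · subst ex
      refine key f (mk3 n1).1 (mk3 n2).1 m2.symm (Or.inr ⟨?_, (mk3 n3).1, m6⟩)
      rintro rfl
      exact h'.n3 (sw3 (mk3 n3).2)
    · have hf := (h'.t7 (mk3 n1).2 (mk3 n3).2 m5 m2.symm).resolve_left ex
      subst hf
      -- `M s` contains `s e y r`
      have hpx : pl' x := by
        by_contra hx'
        rcases h'.o.add1 h'.qW (sw3 h'.eyq) hx' with e2 | ⟨u, ⟨w1, w2, w3⟩, z1, z2⟩ |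
            ⟨u, v, ⟨w1, w2, w3, w4, w5, w6⟩, z1, z2, z3⟩
        · exact ex (nb1 h1 (mk3 n1).1 e2)
        · have := nb1 h1 (mk3 n1).1 (mk3 z1).1
          subst this
          exact three_at hK b4.symm a5.symm a1.symm (sw3 (mk3 n1).1) (mk3 n2).1 (mk3 z2).1
        · have := nb1 h1 (mk3 n1).1 (mk3 z1).1
          subst this
          by_cases fv : f = v
          · subst fv
            exact three_at hK m5 ex a4.symm (sw3 (mk3 n2).1) (mk3 n3).1 (mk3 z3).1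
          · exact three_at hK b4.symm w2 fv (sw3 (mk3 n1).1) (mk3 n2).1 (mk3 z2).1
      have hpy : ¬ pl' f := fun hy => h'.x1 hy hpx hps
      have hxy : s(x, f) ∈ M x := by
        by_contra hn
        exact hpy (stepB3 h h' hn).1
      have hK' := h.o.m2 h.xW
      have h1' := h.o.one h.xW
      have hb3 := h'.o.add2 (w := x) (a := f) (b := r) h'.yW a1 a4 h'.exp ⟨h'.o.hmi h'.xW, hpy⟩ h'.pN
      rcases h.px with e2 | ⟨a, ⟨g1, g2, g3⟩, k1, k2⟩ | ⟨a, b, ⟨g1, g2, g3, g4, g5, g6⟩, k1, k2, k3⟩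
      · exact b2 (nb1 h1' hxy e2)
      · have := nb1 h1' hxy (mk3 k1).1
        subst this
        rcases hb3 with e3 | ⟨u, ⟨w1, w2, w3⟩, z1, z2⟩ | ⟨u, v, ⟨w1, w2, w3, w4, w5, w6⟩, z1, z2, z3⟩
        · exact three_at hK' a3 a4 d1 (sw3 hxy) (mk3 k2).1 e3
        · by_cases xu : x = u
          · subst xu
            exact b3 (nb1 h1' hxy (mk3 z2).1)
          · by_cases pu : p = u
            · subst pu
              exact h'.n2 (mk3 z1).2
            · exact three_at hK' a3 xu pu (sw3 hxy) (mk3 k2).1 (mk3 z1).1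
        · by_cases xu : x = u
          · subst xu
            exact w2 (nb1 h1' hxy (mk3 z2).1)
          · by_cases pu : p = u
            · subst pu
              exact h'.n2 (mk3 z1).2
            · exact three_at hK' a3 xu pu (sw3 hxy) (mk3 k2).1 (mk3 z1).1
      · have := nb1 h1' hxy (mk3 k1).1
        subst this
        rcases hb3 with e3 | ⟨u, ⟨w1, w2, w3⟩, z1, z2⟩ | ⟨u, v, ⟨w1, w2, w3, w4, w5, w6⟩, z1, z2, z3⟩
        · by_cases br : b = r
          · subst br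
            exact h.n3 (sw3 (mk3 k3).2)
          · exact three_at hK' g2 a4 br (sw3 hxy) (mk3 k2).1 e3
        · by_cases xu : x = u
          · subst xu
            exact b3 (nb1 h1' hxy (mk3 z2).1)
          · by_cases bu : b = u
            · subst bu
              exact three_at hK' b2 b3 d1 (sw3 (mk3 k2).1) (mk3 k3).1 (mk3 z2).1
            · exact three_at hK' g2 xu bu (sw3 hxy) (mk3 k2).1 (mk3 z1).1
        · by_cases xu : x = u
          · subst xu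
            exact w2 (nb1 h1' hxy (mk3 z2).1)
          · by_cases bu : b = u
            · subst bu
              by_cases pv : p = v
              · subst pv
                exact h'.n3 (sw3 (mk3 z3).2)
              · exact three_at hK' b2 w2 pv (sw3 (mk3 k2).1) (mk3 k3).1 (mk3 z2).1
            · exact three_at hK' g2 xu bu (sw3 hxy) (mk3 k2).1 (mk3 z1).1

/-- **the contradiction** -/
theorem stepD3 (h : C3 V M pl mi c W x y q p r s) (h' : C3 V' M pl' mi' c' W' y x s r p q) : False := by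
  obtain ⟨⟨a1, a2, a3, a4, a5⟩, ⟨b1, b2, b3, b4⟩, ⟨c1, c2, c3⟩, ⟨d1, d2⟩, f1⟩ := XF.nodup6.1 h.nd
  have px := stepC3 h h'
  have py' := stepC3 h' h
  have pq := stepA3 h' h
  have ps' := stepA3 h h'
  have npy : ¬ pl y := fun hy => h.x1 px hy pq
  have npx' : ¬ pl' x := fun hx => h'.x1 py' hx ps'
  have hxy : s(x, y) ∈ M x := by
    by_contra hn
    rcases (stepB3 h h' hn).2 with h2 | h2
    · exact h2 px
    · exact npy h2
  have hK := h.o.m2 h.xW
  have h1 := h.o.one h.xW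
  have hxs : s(x, s) ∉ M x := fun e => b4 (nb1 h1 hxy e)
  have exs : s(x, s) ∈ c'.edges := h'.eyq
  have esr : s(s, r) ∈ c'.edges := h'.eqp
  have hN1 : NSh (insert s(x, s) (M x ∩ c'.edges)) := by
    by_contra hn
    exact noPxs h h' (nsh_insert (h'.o.nsh h'.yW) hn)
  -- `y r` is not in `M x`
  have hyr : s(y, r) ∉ M x := by
    intro e
    rcases h.px with e2 | ⟨a, ⟨g1, g2, g3⟩, k1, k2⟩ | ⟨a, b, ⟨g1, g2, g3, g4, g5, g6⟩, k1, k2, k3⟩
    · exact b2 (nb1 h1 hxy e2)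
    · have := nb1 h1 hxy (mk3 k1).1
      subst this
      exact three_at hK a3 a4 d1 (sw3 hxy) (mk3 k2).1 e
    · have := nb1 h1 hxy (mk3 k1).1
      subst this
      by_cases br : b = r
      · subst br
        exact h.n3 (sw3 (mk3 k3).2)
      · exact three_at hK g2 a4 br (sw3 hxy) (mk3 k2).1 e
  by_cases hsr : s(s, r) ∈ M x
  · have hm : s(s, r) ∈ M x ∩ c'.edges := Finset.mem_inter.2 ⟨hsr, esr⟩
    have hne : s(x, s) ∉ (M x ∩ c'.edges).erase s(s, r) := fun e => hxs (Finset.mem_inter.1 (Finset.mem_of_mem_erase e)).1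
    have h2 := h'.o.rep h'.yW (K := insert s(x, s) ((M x ∩ c'.edges).erase s(s, r)))
      (Finset.insert_subset exs ((Finset.erase_subset _ _).trans Finset.inter_subset_right))
      (hN1.mono (Finset.insert_subset_insert _ (Finset.erase_subset _ _)))
    have h3 : dv (M x ∩ c'.edges) = dv ((M x ∩ c'.edges).erase s(s, r)) + (Pi.single s 1 + Pi.single r 1) := by
      rw [← dv_pair (h'.o.nl esr), ← dv_insert (Finset.notMem_erase _ _), Finset.insert_erase hm]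
    rw [dv_insert hne, dv_pair (h'.o.nl exs), h3] at h2
    have e : dv ((M x ∩ c'.edges).erase s(s, r)) + (Pi.single x 1 + Pi.single s 1) -
        (dv ((M x ∩ c'.edges).erase s(s, r)) + (Pi.single s 1 + Pi.single r 1)) - Pi.single x 1 =
        (Pi.single r (-1) : ℕ → ℤ) := by
      rw [Pi.single_neg]
      abel
    rw [e, ph_one (h'.o.v2 esr).2, con_N h'.pN.2 h'.pN.1] at h2
    omega
  · have hne1 : s(x, s) ∉ M x ∩ c'.edges := fun e => hxs (Finset.mem_inter.1 e).1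
    have hne2 : s(s, r) ∉ insert s(x, s) (M x ∩ c'.edges) := by
      intro e
      rcases Finset.mem_insert.1 e with e | e
      · rw [Sym2.eq_iff] at e
        rcases e with ⟨e1, _⟩ | ⟨_, e2⟩
        · exact a5 e1.symm
        · exact a4 e2.symm
      · exact hsr (Finset.mem_inter.1 e).1
    have ins : ∀ {a b : ℕ}, s(a, b) ∈ insert s(x, s) (M x ∩ c'.edges) →
        s(a, b) = s(x, s) ∨ (s(a, b) ∈ M x ∧ s(a, b) ∈ c'.edges) := fun e =>
      (Finset.mem_insert.1 e).imp id fun e => Finset.mem_inter.1 e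
    have inc : ∀ {a b : ℕ}, s(a, b) ∈ insert s(x, s) (M x ∩ c'.edges) → s(a, b) ∈ c'.edges := fun e => by
      rcases ins e with e | e
      · rw [e]; exact exs
      · exact e.2
    have hN2 : NSh (insert s(s, r) (insert s(x, s) (M x ∩ c'.edges))) := by
      by_contra hn
      have yr : ∀ {v : ℕ}, s(v, r) ∈ insert s(x, s) (M x ∩ c'.edges) → v = x ∨ v = y → False := by
        rintro v e (rfl | rfl)
        · rcases ins e with e | e
          · rw [Sym2.eq_iff] at e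
            rcases e with ⟨_, e2⟩ | ⟨_, e2⟩
            · exact f1 e2
            · exact a4 e2.symm
          · exact b3 (nb1 h1 hxy e.1)
        · rcases ins e with e | e
          · rw [Sym2.eq_iff] at e
            rcases e with ⟨e1, _⟩ | ⟨_, e2⟩
            · exact a1 e1.symm
            · exact a4 e2.symm
          · exact hyr e.1
      rcases nsh_insert hN1 hn with ⟨u, ⟨w1, w2, w3⟩, z1, z2⟩ | ⟨u, v, ⟨w1, w2, w3, w4, w5, w6⟩, z1, z2, z3⟩
      · exact yr z2 (Or.inl (h'.t6 (inc z1) (inc z2)))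
      · rcases h'.t7 (inc z1) (inc z3) w5 w2.symm with e | e
        · subst e
          rcases ins z2 with e2 | e2
          · rw [Sym2.eq_iff] at e2
            rcases e2 with ⟨_, e2⟩ | ⟨e2, _⟩
            · exact w2 e2.symm
            · exact a5 e2
          · exact yr z3 (Or.inr (nb1 h1 e2.1 hxy))
        · exact yr z3 (Or.inr e)
    have h2 := h'.o.rep h'.yW (Finset.insert_subset esr (Finset.insert_subset exs Finset.inter_subset_right)) hN2
    rw [dv_insert hne2, dv_insert hne1, dv_pair (h'.o.nl exs), dv_pair (h'.o.nl esr)] at h2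
    have e : dv (M x ∩ c'.edges) + (Pi.single x 1 + Pi.single s 1) + (Pi.single s 1 + Pi.single r 1) -
        dv (M x ∩ c'.edges) - Pi.single x 1 = (Pi.single s 2 + Pi.single r 1 : ℕ → ℤ) := by
      have e2 : (Pi.single s 2 : ℕ → ℤ) = Pi.single s 1 + Pi.single s 1 := by
        rw [← Pi.single_add]
        norm_num
      rw [e2]
      abel
    rw [e, ph_two (h'.o.v2 esr).1 (h'.o.v2 esr).2 (h'.o.nl esr), con_Z ps' (h'.o.hmi h'.qW),
      con_N h'.pN.2 h'.pN.1] at h2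
    omega

end

/-! ### the bridge -/

section
variable {X : XD3} {P : ℕ → Finset (Sym2 ℕ) → Prop} {D : Finset (Finset (Sym2 ℕ))} {j m : ℕ} {S : Finset ℕ}
  {M : ℕ → Finset (Sym2 ℕ)} {CL U : List (Clu3 ℕ)} {PL : Finset (Sym2 ℕ)}

/-- the frame in which the cluster `c` is uncapped -/
theorem WA3.o3 (hW : WA3 X P D j m S M CL U PL) {c : Clu3 ℕ} (hc : c ∈ U) (hb : Hb c) :
    ∃ pl mi, PW3 X P D j S M (Fr3 D fun c' => c' = c) CL U PL pl mi ∧
      O3 X.V2 M pl mi c (S.filter fun w => w ∈ X.T) := by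
  obtain ⟨pl, mi, h, hmi⟩ := hW.fr (fun c' => c' = c) fun c' hc' => by rw [hc']; exact hb
  have hcC : ∀ {c'}, c' ∈ U → c' ∈ CL := fun hc' => ((h.uc _).1 hc').1
  have hfr : ∀ {w}, w ∈ S → w ∈ X.T → ∀ c' ∈ U, Fr3 D (fun c' => c' = c) c' (M w ∩ c'.edges) :=
    fun {w} hw hT c' hc' =>
      Fr3_of (fun hf => hW.msf w hw hT c' (hcC hc') (by rw [hf]; exact hb)) fun _ => hW.mcap w hw hT c' (hcC hc')
  refine ⟨pl, mi, h, ?_⟩
  refine ⟨h.val hc, fun he => h.ne (h.cW hc he), fun he => ⟨h.v2 (h.cW hc he) (by simp), h.v2 (h.cW hc he) (by simp)⟩,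
    fun hw => ?_, fun hw => ?_, fun hw => ?_, fun hw => ?_, fun hw => ?_, fun {w} hw K hK hN => ?_⟩ <;>
    obtain ⟨hw, hT⟩ := Finset.mem_filter.1 hw
  · exact (hW.ow.nc _ hw hT).1.m2
  · exact (hW.ow.nc _ hw hT).1.one
  · exact hmi _ hw hT
  · exact h.sv _ hw
  · exact hW.msf _ hw hT c (hcC hc) hb
  · exact h.nc_rep hw hT hc (fun c' hc' _ => hfr hw hT c' hc') hK (Fr3_of (fun _ => hN) fun hf => absurd rfl hf)

/-- the configuration in one world -/
theorem WA3.c3 (hW : WA3 X P D j m S M CL U PL) {x y q p r s : ℕ} (nd : [x, y, q, p, r, s].Nodup)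
    (hx : x ∈ S) (hy : y ∈ S) (hq : q ∈ S) (hs : s ∈ S) (hxT : x ∈ X.T) (hyT : y ∈ X.T) (hqT : q ∈ X.T)
    (hsT : s ∈ X.T) (hp : p ∉ X.T) (hr : r ∉ X.T) (hQ : TFC.sq x y q p ∈ D) {c : Clu3 ℕ} (hc : c ∈ U)
    (hQc : TFC.sq x y q p ⊆ c.edges) (hxq : s(x, q) ∉ c.edges) :
    ∃ pl mi, C3 X.V2 M pl mi c (S.filter fun w => w ∈ X.T) x y q p r s := by
  obtain ⟨⟨a1, a2, a3, a4, a5⟩, ⟨b1, b2, b3, b4⟩, ⟨c1, c2, c3⟩, ⟨d1, d2⟩, f1⟩ := XF.nodup6.1 nd
  have hd : Dist4 x y q p := ⟨a1, a2, a3, b1, b2, c1⟩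
  obtain ⟨_, _, h0, _⟩ := hW.cap
  -- the shape
  have hshp : ∃ L, (Hub c y p L ∧ x ∈ L ∧ q ∈ L) ∨
      (Hub (Clu3.k2 x q L) x q L ∧ (c = Clu3.k2 x q L ∨ c = Clu3.k2 q x L) ∧ y ∈ L ∧ p ∈ L) := by
    rcases shape3_sq (h0.val hc) hd hQc with h1 | ⟨L, h1, h2, h3, _⟩ | ⟨L, h1, h2, h3, _⟩
    · exfalso
      apply hxq
      rw [h1]
      exact mem3_k4.2 ⟨by simp, by simp, a2⟩
    · refine ⟨L, Or.inr ⟨Or.inl rfl, ?_, h2, h3⟩⟩
      rcases h1 with h1 | h1 | h1 | h1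
      · exact Or.inl h1
      · exact Or.inr h1
      · exact absurd (Hub1.mem (Or.inl h1)) hxq
      · exact absurd (Hub1.mem (Or.inr h1)) hxq
    · exact ⟨L, Or.inl ⟨h1, h2, h3⟩⟩
  have hb : Hb c := by
    obtain ⟨L, ⟨h1, _⟩ | ⟨_, h1 | h1, _⟩⟩ := hshp
    · exact h1.hb
    · exact ⟨_, _, _, Or.inl h1⟩
    · exact ⟨_, _, _, Or.inl h1⟩
  obtain ⟨pl, mi, h, ho⟩ := hW.o3 hc hb
  have hF : ∀ c' : Clu3 ℕ, c' = c → c' = c := fun _ h => h
  have hpV : p ∈ X.V2 := h.v2 (h.cW hc (hQc (show s(p, x) ∈ TFC.sq x y q p by simp [TFC.sq]))) (by simp)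
  have hmi : ¬ mi p := h.free p (h.ok.vn p hpV) hp
  have hpl : ¬ pl p := fun hpl => ttNY h hF hc (a := p) (b := x)
    (hQc (show s(p, x) ∈ TFC.sq x y q p by simp [TFC.sq])) ⟨hpl, hmi⟩
  have n3 : s(p, r) ∉ c.edges := fun he => (ttFF hW.ow hW.cls ((h.uc _).1 hc).1 he).elim hp hr
  refine ⟨pl, mi, ho, nd, Finset.mem_filter.2 ⟨hx, hxT⟩, Finset.mem_filter.2 ⟨hy, hyT⟩,
    Finset.mem_filter.2 ⟨hq, hqT⟩, Finset.mem_filter.2 ⟨hs, hsT⟩, hQc, ⟨hmi, hpl⟩, ?_, hshp, n3, ?_, ?_⟩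
  · intro g1 g2 g3
    obtain ⟨L, hL⟩ := h.wt hQ
    obtain ⟨v, ⟨e, he, hv⟩, h1, h2⟩ := h.L1x hQ hL hc hQc (ttAM D h.ish _ c) (ttOut h hF hQ hL hc hQc)
    simp only [TFC.sq, mem_insert, mem_singleton] at he
    rcases he with rfl | rfl | rfl | rfl <;> rcases Sym2.mem_iff.1 hv with rfl | rfl <;>
      first
        | exact h2 g1
        | exact h2 g2
        | exact h2 g3
        | exact hmi h1
  · exact p2_no hW hd a4.symm b3.symm c2.symm d1.symm hQ hp hr hc hQc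
  · intro he
    obtain ⟨L, ⟨h1, h2, h3⟩ | ⟨_, h1, h2, h3⟩⟩ := hshp
    · obtain ⟨_, uL, vL, _⟩ := h1.dat ho.val
      have h4 := h1.sup he
      rcases mem3_k11.1 h4 with (⟨_, g⟩ | ⟨g, _⟩) | (⟨_, g⟩ | ⟨_, g⟩)
      · exact d1 g.symm
      · exact b2 g
      · exact n3 (h1.sub (XF.mem_k2.2 (Or.inl ⟨Or.inr rfl, g⟩)))
      · exact uL g
    · have hh : Hub c x q L := by
        rcases h1 with h1 | h1
        · exact Or.inl h1
        · exact Or.inr (Or.inl h1)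
      rcases hub_leaf hh ho.val h2 he with g | g
      · exact a4 g.symm
      · exact c2 g.symm

end

/-- **pattern `p3`**: two free corners, `p` adjacent to `x`, `r` adjacent to `y` -/
theorem ptS6_p3 (hK : LemKS) :
    PtS6 fun T x y q p r s => x ∈ T ∧ y ∈ T ∧ q ∈ T ∧ s ∈ T ∧ p ∉ T ∧ r ∉ T := by
  rintro n T G M x y q p r s hd hb ⟨hxT, hyT, hqT, hsT, hpT, hrT⟩
  obtain ⟨⟨a1, a2, a3, a4, a5⟩, ⟨b1, b2, b3, b4⟩, ⟨c1, c2, c3⟩, ⟨d1, d2⟩, f1⟩ := XF.nodup6.1 hd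
  obtain ⟨X₁, P₁, D₁, j₁, m₁, w1, n1, t1, g1, q1, e1, _⟩ := hb.w1 _ (Finset.Subset.refl _) (by simp) hb.lt
  obtain ⟨X₂, P₂, D₂, j₂, m₂, w2, n2, t2, g2, q2, e2, _⟩ := hb.w2 _ (Finset.Subset.refl _) (by simp) hb.lt
  obtain ⟨S, hS⟩ : ∃ S : Finset ℕ, S = {x, y, q, p, r, s} := ⟨_, rfl⟩
  rw [← hS] at w1 w2 e1 e2
  have mx : x ∈ S := by rw [hS]; simp
  have my : y ∈ S := by rw [hS]; simp
  have mq : q ∈ S := by rw [hS]; simp
  have ms : s ∈ S := by rw [hS]; simp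
  obtain ⟨CL1, U1, PL1, A1⟩ := wa3_of w1 ⟨x, mx, by rw [t1]; exact hxT⟩
  obtain ⟨CL2, U2, PL2, A2⟩ := wa3_of w2 ⟨x, mx, by rw [t2]; exact hxT⟩
  obtain ⟨_, _, B1, _⟩ := A1.cap
  obtain ⟨_, _, B2, _⟩ := A2.cap
  obtain ⟨k1, hk1, hq1⟩ := B1.cluS q1 (show s(x, y) ∈ TFC.sq x y q p by simp [TFC.sq]) (a := x) (by simp) mx
  obtain ⟨k2, hk2, hq2⟩ := B2.cluS q2 (show s(x, y) ∈ TFC.sq x y r s by simp [TFC.sq]) (a := x) (by simp) mx
  -- an edge of `G` between corners is in both worlds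
  have gE1 : ∀ {a b : ℕ}, s(a, b) ∈ G → a ∈ S → b ∈ S → s(a, b) ∈ X₁.E := fun h ha hb' =>
    e1 _ h fun v hv => by rcases Sym2.mem_iff.1 hv with rfl | rfl <;> assumption
  have gE2 : ∀ {a b : ℕ}, s(a, b) ∈ G → a ∈ S → b ∈ S → s(a, b) ∈ X₂.E := fun h ha hb' =>
    e2 _ h fun v hv => by rcases Sym2.mem_iff.1 hv with rfl | rfl <;> assumption
  have hkE1 : k1.edges ⊆ X₁.E := fun e he => w1.clE A1.cls ((B1.uc _).1 hk1).1 he
  have hkE2 : k2.edges ⊆ X₂.E := fun e he => w2.clE A2.cls ((B2.uc _).1 hk2).1 he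
  -- `x q` is not an edge of the first cluster (Lemma K in the second world)
  have hxq : s(x, q) ∉ k1.edges := by
    intro he
    have h1 : s(x, q) ∈ X₂.E := gE2 (g1 (hkE1 he)) mx mq
    have h2 : s(y, q) ∈ X₂.E := gE2 (g1 (hkE1 (hq1 (by simp [TFC.sq])))) my mq
    obtain ⟨h3, h4⟩ := hK X₂ P₂ D₂ j₂ m₂ S M CL2 U2 PL2 A2 _ q2 k2 hk2 hq2 x y q (by simp [TFC.sq])
      (by
        intro e he hqe
        simp only [TFC.sq, mem_insert, mem_singleton] at he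
        rcases he with rfl | rfl | rfl | rfl <;> rcases Sym2.mem_iff.1 hqe with g | g
        · exact a2 g.symm
        · exact b1 g.symm
        · exact b1 g.symm
        · exact c2 g
        · exact c2 g
        · exact c3 g
        · exact c3 g
        · exact a2 g.symm)
      mq (by rw [t2]; exact hqT) h1 h2
    rcases shape3_sq (B2.val hk2) (⟨a1, a4, a5, b3, b4, f1⟩ : Dist4 x y r s) hq2 with g | ⟨L, g, l1, _⟩ |
        ⟨L, g, l1, _⟩
    · rw [g] at h3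
      have := (mem3_k4.1 h3).2.1
      simp only [mem_insert, mem_singleton] at this
      rcases this with h | h | h | h
      · exact a2 h.symm
      · exact b1 h.symm
      · exact c2 h
      · exact c3 h
    · rcases hub_leaf g (B2.val hk2) l1 h4 with h | h
      · exact a2 h.symm
      · exact c2 h
    · rcases hub_leaf g (B2.val hk2) l1 h3 with h | h
      · exact b1 h.symm
      · exact c3 h
  have hys : s(y, s) ∉ k2.edges := by
    intro he
    have h1 : s(y, s) ∈ X₁.E := gE1 (g2 (hkE2 he)) my ms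
    have h2 : s(x, s) ∈ X₁.E := by
      refine gE1 (g2 (hkE2 ?_)) mx ms
      rw [Sym2.eq_swap]
      exact hq2 (by simp [TFC.sq])
    obtain ⟨h3, h4⟩ := hK X₁ P₁ D₁ j₁ m₁ S M CL1 U1 PL1 A1 _ q1 k1 hk1 hq1 x y s (by simp [TFC.sq])
      (by
        intro e he hqe
        simp only [TFC.sq, mem_insert, mem_singleton] at he
        rcases he with rfl | rfl | rfl | rfl <;> rcases Sym2.mem_iff.1 hqe with g | g
        · exact a5 g.symm
        · exact b4 g.symm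
        · exact b4 g.symm
        · exact c3 g.symm
        · exact c3 g.symm
        · exact d2 g.symm
        · exact d2 g.symm
        · exact a5 g.symm)
      ms (by rw [t1]; exact hsT) h2 h1
    rcases shape3_sq (B1.val hk1) (⟨a1, a2, a3, b1, b2, c1⟩ : Dist4 x y q p) hq1 with g | ⟨L, g, l1, _⟩ |
        ⟨L, g, l1, _⟩
    · rw [g] at h3
      have := (mem3_k4.1 h3).2.1
      simp only [mem_insert, mem_singleton] at this
      rcases this with h | h | h | h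
      · exact a5 h.symm
      · exact b4 h.symm
      · exact c3 h.symm
      · exact d2 h.symm
    · rcases hub_leaf g (B1.val hk1) l1 h4 with h | h
      · exact a5 h.symm
      · exact c3 h.symm
    · rcases hub_leaf g (B1.val hk1) l1 h3 with h | h
      · exact b4 h.symm
      · exact d2 h.symm
  obtain ⟨pl1, mi1, C1'⟩ := A1.c3 hd mx my mq ms (by rw [t1]; exact hxT) (by rw [t1]; exact hyT)
    (by rw [t1]; exact hqT) (by rw [t1]; exact hsT) (by rw [t1]; exact hpT) (by rw [t1]; exact hrT) q1 hk1 hq1 hxq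
  have hd2 : [y, x, s, r, p, q].Nodup := XF.nd_side (XF.nd_world hd)
  have hR : TFC.sq x y r s = TFC.sq y x s r := XF.sq_ref x y r s
  obtain ⟨pl2, mi2, C2'⟩ := A2.c3 hd2 my mx ms mq (by rw [t2]; exact hyT) (by rw [t2]; exact hxT)
    (by rw [t2]; exact hsT) (by rw [t2]; exact hqT) (by rw [t2]; exact hrT) (by rw [t2]; exact hpT)
    (by rw [← hR]; exact q2) hk2 (by rw [← hR]; exact hq2) hys
  exact stepD3 C1' C2'

end Pool.Agent.P34

end
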