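import Pool.Agent.PFN.M15
import Pool.Agent.PFN.M19
import Pool.Agent.PFN.M29

section -- file P34/CluF3

/-! The cluster function fulfils the interface of the solver. -/

set_option autoImplicit false

namespace Pool.Agent.P34

open Finset Pool.Agent.TFC Pool.Agent.PF4 Pool.Agent.Lib.helper60

/-- the interface of the clusters -/
structure ClsFn3 (cls : List Sq4 → List Cl3) : Prop where
  spec : ∀ (x : Ins) (D : List Sq4), (∀ q ∈ D, q ∈ cyG x) → StarV (CF D) →
    ClsOK3 x (cls D) ∧ ∀ q ∈ D, ∃ c ∈ cls D, cys q ⊆ fs (clE3 c)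

theorem clsFn3_clusters : ClsFn3 clusters3L := by
  refine ⟨?_⟩
  intro x D hD hst
  obtain ⟨h1, h2, h3, h4, _⟩ := clusters3L_spec (D := D) (fun q hq => cyG_ok q (hD q hq)) hst
  refine ⟨⟨h1, h2, ?_, fun c hc => card43_exP3 (h1 c hc)⟩, h4⟩
  intro c hc e he
  obtain ⟨Q, hQ, he', _⟩ := h3 c hc e he
  exact cyG_sub (hD Q hQ) he'

end Pool.Agent.P34

end

section -- file P34/SolI3

/-!
# The solver: facts at the start, sizes, polynomial time
-/

set_option autoImplicit false

namespace Pool.Agent.P34.SV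

open Finset Pool.Agent.TFC Pool.Agent.PF4 Pool.Agent.Lib.helper60
open Pool.Agent.PF4.SV (kno uMi uPl plu tgL AtP tkP tkS realS tstS uPo kno_iff forall2_getD getD_mem pt_slJ pt_unP pt_edP pt_hsl)

/-! ### the facts at the start -/

theorem init_fact {y : SI} (hy : WfS y) {p : ℕ × List (List ℕ)} (hp : p ∈ initS y) : FactS y p.1 p.2 := by
  obtain ⟨q, hq, rfl⟩ := List.mem_map.1 hp
  obtain ⟨h1, h2, h3, h4⟩ := hy.w q hq
  refine ⟨by simp only; omega, cfgM3_exact hy.x hy.c _ h2 1, ?_⟩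
  intro v _
  have h5 := ttl_near3 hy.x hy.c h2.1 h1 (hy.g q.1) h3 h4 v
  have h6 : q.1 ≠ y.1.1 + 1 + v := by omega
  simp only at h5 ⊢
  rw [if_neg h6, add_zero, ← h5]
  congr 1
  by_cases h7 : v = q.1
  · rw [if_pos h7, if_pos h7.symm]
  · rw [if_neg h7, if_neg fun h => h7 h.symm]

theorem init_nodup {y : SI} (hy : WfS y) : ((initS y).map Prod.fst).Nodup := by
  have : (initS y).map Prod.fst = y.2.2.1.map Prod.fst := by
    rw [initS, List.map_map]
    rfl
  rw [this]
  exact hy.nod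

theorem init_ne {y : SI} (hy : WfS y) : initS y ≠ [] := by
  intro h
  exact hy.ne (List.map_eq_nil_iff.1 h)

/-! ### the last step -/

/-- an exact configuration at an unknown port is a solution or a new fact -/
def finS (w : SI × Fct (List (List ℕ)) × ℕ × List (List ℕ)) : Bool × ℕ × List (List ℕ) :=
  (decide (w.2.2.1 = 2 * w.1.1.1 + 1), w.2.2.1, w.2.2.2)

theorem mu_zero {C : List Cl3} {ks : List (List ℕ)} (h : muS C ks = 0) {j : ℕ} (hj : j < C.length) :
    pmem3 (exP3 (C.getD j (0, 0, 0, []))) (ks.getD j []) = true := by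
  unfold muS at h
  rw [List.length_eq_zero_iff, List.filter_eq_nil_iff] at h
  have := h j (List.mem_range.2 hj)
  unfold nx at this
  simpa using this

/-- exchange the pieces of the clusters -/
theorem forall2_clusters3 {R : Pc → List ℕ → Prop} {φ ψ : Cl3 → Pc} {C : List Cl3} {E : List Pc} {ks : List (List ℕ)}
    (h : List.Forall₂ R (C.map φ ++ E) ks) (c0 : Cl3)
    (h2 : ∀ j < C.length, R (ψ (C.getD j c0)) (ks.getD j [])) : List.Forall₂ R (C.map ψ ++ E) ks := by
  induction C generalizing ks with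
  | nil => exact h
  | cons c C ih =>
    cases h with
    | cons h3 h4 =>
      refine List.Forall₂.cons (h2 0 (by simp)) (ih h4 ?_)
      intro j hj
      exact h2 (j + 1) (by simpa using hj)

theorem exact_of_mu {y : SI} {F : Fct (List (List ℕ))} {ks : List (List ℕ)}
    (h : List.Forall₂ (fun p k => pmem3 p k = true) (rlP y F) ks) (hm : muS y.2.2.2 ks = 0) :
    List.Forall₂ (fun p k => pmem3 p k = true) (xcP y) ks := by
  unfold rlP pcs3 at h
  unfold xcP pcs3
  rw [List.append_assoc] at h ⊢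
  exact forall2_clusters3 h (0, 0, 0, []) fun j hj => mu_zero hm hj

theorem fin_true {y : SI} (hy : WfS y) {F : Fct (List (List ℕ))} {r : ℕ × List (List ℕ)} (hr : GoodS y F r)
    (hm : muS y.2.2.2 r.2 = 0) (h : (finS (y, F, r)).1 = true) : SolS y (finS (y, F, r)).2.2 := by
  have h1 : r.1 = 2 * y.1.1 + 1 := by simpa [finS] using h
  refine ⟨exact_of_mu hr.mem hm, ?_⟩
  intro v hv
  have h2 := hr.at_ v hv
  have hn : 0 < y.1.1 := by
    obtain ⟨p, hp⟩ := List.exists_mem_of_ne_nil _ hy.ne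
    have := (hy.w p hp).1
    omega
  rw [h1, if_neg (by omega)] at h2
  simp only [finS]
  unfold tgt at h2 ⊢
  by_cases h4 : v < y.1.1
  · rw [if_pos h4] at h2 ⊢
    rw [if_neg (by omega)] at h2
    omega
  · have h5 : v = y.1.1 := by omega
    rw [if_neg h4, if_pos h5] at h2 ⊢
    rw [if_pos (by omega)] at h2
    omega

theorem fin_false {y : SI} {F : Fct (List (List ℕ))} {r : ℕ × List (List ℕ)} (hr : GoodS y F r)
    (hm : muS y.2.2.2 r.2 = 0) (h : (finS (y, F, r)).1 = false) :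
    (finS (y, F, r)).2.1 < 2 * y.1.1 + 2 ∧ FactS y (finS (y, F, r)).2.1 (finS (y, F, r)).2.2 ∧
      (finS (y, F, r)).2.1 ∉ F.map Prod.fst := by
  have h1 : r.1 ≠ 2 * y.1.1 + 1 := by simpa [finS] using h
  have h2 := hr.lt
  refine ⟨by simp only [finS]; omega, ⟨by simp only [finS]; omega, exact_of_mu hr.mem hm, hr.at_⟩, ?_⟩
  intro h3
  have h4 := hr.unk
  have h5 : kno F r.1 = true := kno_iff.2 h3
  rw [h5] at h4
  cases h4

/-! ### sizes -/

theorem leg_of3 {P : List Pc} {ks : List (List ℕ)} (h : List.Forall₂ (fun p k => pmem3 p k = true) P ks) :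
    Leg pmem3 (false, [], []) P ks :=
  ⟨h.length_eq.symm, fun _ hq => forall2_getD h hq _ _⟩

/-- the pieces are good for the exchange -/
theorem pcs_ok {y : SI} (hy : WfS y) {φ : Cl3 → Pc} (hφ : ∀ c ∈ y.2.2.2, PcOK pmem3 (y.1.1 + 1) (φ c)) :
    ∀ p ∈ pcs3 φ y.1 y.2.1 y.2.2.2, PcOK pmem3 (y.1.1 + 1) p := by
  intro p hp
  rcases List.mem_append.1 hp with hp | hp
  · rcases List.mem_append.1 hp with hp | hp
    · obtain ⟨c, hc, rfl⟩ := List.mem_map.1 hp
      exact hφ c hc
    · obtain ⟨e, he, rfl⟩ := List.mem_map.1 hp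
      have h1 : fe e ∈ fs (plE3 y.1 y.2.2.2) := fe_mem_fs he
      rw [plE3, fs_rest, Finset.mem_sdiff] at h1
      have h2 := hy.x.vlt h1.1 (v := e.1) (by rw [fe]; exact Sym2.mem_mk_left _ _)
      have h3 := hy.x.vlt h1.1 (v := e.2) (by rw [fe]; exact Sym2.mem_mk_right _ _)
      exact pcok3_edge (by omega) (by omega)
  · rcases List.mem_append.1 hp with hp | hp
    · obtain ⟨q, hq, rfl⟩ := List.mem_map.1 hp
      have := (mem_slJ.1 hq).1
      exact pcok3_pair (by omega) (by omega)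
    · obtain ⟨q, hq, rfl⟩ := List.mem_map.1 hp
      exact pcok3_pair (by omega) (by omega)

theorem clV_lt {y : SI} (hy : WfS y) {c : Cl3} (hc : c ∈ y.2.2.2) :
    (∀ v ∈ c.2.2.2, v < y.1.1) ∧ (c.1 ≠ 0 → c.2.1 < y.1.1 ∧ c.2.2.1 < y.1.1) := by
  have ho := hy.c.ok c hc
  have hs := hy.c.sub c hc
  have key : ∀ a b, (a, b) ∈ clE3 c ∨ (b, a) ∈ clE3 c → a < y.1.1 := by
    intro a b h
    rcases h with h | h
    · exact hy.x.vlt (hs (fe_mem_fs h)) (by rw [fe]; exact Sym2.mem_mk_left _ _)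
    · exact hy.x.vlt (hs (fe_mem_fs h)) (by rw [fe]; exact Sym2.mem_mk_right _ _)
  obtain ⟨b, x, z, L⟩ := c
  by_cases h0 : b = 0
  · subst h0
    have h4 := ho.k4 rfl
    have hn := ho.nd
    simp only at h4 hn
    refine ⟨fun v hv => ?_, fun h => absurd rfl h⟩
    simp only at hv
    obtain ⟨u, hu, huv⟩ : ∃ u ∈ L, u ≠ v := by
      by_contra hcon
      push Not at hcon
      have h5 : L.toFinset ⊆ {v} := by
        intro u hu
        rw [Finset.mem_singleton]
        exact hcon u (List.mem_toFinset.1 hu)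
      have h6 := Finset.card_le_card h5
      rw [List.toFinset_card_of_nodup hn, Finset.card_singleton] at h6
      omega
    have hE : clE3 (0, x, z, L) = prs L := rfl
    rcases lt_or_gt_of_ne huv with h | h
    · refine key v u (Or.inr ?_)
      rw [hE, prs, List.mem_filter, mem_prd, decide_eq_true_eq]
      exact ⟨⟨hu, hv⟩, h⟩
    · refine key v u (Or.inl ?_)
      rw [hE, prs, List.mem_filter, mem_prd, decide_eq_true_eq]
      exact ⟨⟨hv, hu⟩, h⟩
  · obtain ⟨-, -, -, h4⟩ := ho.k2 h0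
    have hE : ∀ e, e ∈ L.map (fun l => (x, l)) ++ L.map (fun l => (z, l)) → e ∈ clE3 (b, x, z, L) := by
      intro e he
      simp only [clE3, h0, decide_false, cond_false]
      exact List.mem_append_right _ he
    simp only at h4
    obtain ⟨l0, hl0⟩ : ∃ l, l ∈ L := by
      cases L with
      | nil => simp at h4
      | cons a L => exact ⟨a, List.mem_cons_self⟩
    refine ⟨fun v hv => key v x (Or.inr ?_), fun _ => ⟨key x l0 (Or.inl ?_), key z l0 (Or.inl ?_)⟩⟩
    · exact hE _ (List.mem_append_left _ (List.mem_map.2 ⟨v, hv, rfl⟩))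
    · exact hE _ (List.mem_append_left _ (List.mem_map.2 ⟨l0, hl0, rfl⟩))
    · exact hE _ (List.mem_append_right _ (List.mem_map.2 ⟨l0, hl0, rfl⟩))

theorem clB' {y : SI} (hy : WfS y) {c : Cl3} (hc : c ∈ y.2.2.2) : Cl3B (y.1.1 + 1) c :=
  ⟨fun v hv => ((clV_lt hy hc).1 v hv).le.trans (Nat.le_succ _), fun hb =>
    ⟨((clV_lt hy hc).2 hb).1.le.trans (Nat.le_succ _), ((clV_lt hy hc).2 hb).2.le.trans (Nat.le_succ _)⟩⟩

theorem xc_ok {y : SI} (hy : WfS y) : ∀ p ∈ xcP y, PcOK pmem3 (y.1.1 + 1) p :=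
  pcs_ok hy fun c hc => pcok_exP3 (clB' hy hc) (hy.c.ok c hc)

theorem rl_ok {y : SI} (hy : WfS y) (F : Fct (List (List ℕ))) : ∀ p ∈ rlP y F, PcOK pmem3 (y.1.1 + 1) p :=
  pcs_ok hy fun c hc => pcok_rxP3 (clB' hy hc) (hy.c.ok c hc) (psi3_ok _ (hy.c.ok c hc))

/-- number of pieces -/
def npc (y : SI) : ℕ := (xcP y).length

theorem len_pcs (φ : Cl3 → Pc) (y : SI) : (pcs3 φ y.1 y.2.1 y.2.2.2).length = npc y := by
  simp [pcs3, npc, xcP]

/-- size bound -/
def BS (y : SI) : ℕ := npc y * (16 * (y.1.1 + 1) + 18) + 1 + (4 * y.1.1 + 10)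

theorem size_conf {y : SI} {P : List Pc} (hP : ∀ p ∈ P, PcOK pmem3 (y.1.1 + 1) p) (hl : P.length = npc y)
    {ks : List (List ℕ)} (h : List.Forall₂ (fun p k => pmem3 p k = true) P ks) :
    tsize ks ≤ npc y * (16 * (y.1.1 + 1) + 18) + 1 := by
  have h1 := tsize_leg (mem := pmem3) (m := y.1.1 + 1) (d := (false, [], [])) (P := P)
    (fun q hq => hP _ (getD_mem hq _)) (leg_of3 h)
  rw [hl] at h1
  exact h1

theorem size_fact {y : SI} (hy : WfS y) {s : ℕ} {ks : List (List ℕ)} (h : FactS y s ks) : tsize ks ≤ BS y :=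
  (size_conf (xc_ok hy) rfl h.mem).trans (Nat.le_add_right _ _)

theorem size_sol {y : SI} (hy : WfS y) {ks : List (List ℕ)} (h : SolS y ks) : tsize ks ≤ BS y :=
  (size_conf (xc_ok hy) rfl h.mem).trans (Nat.le_add_right _ _)

theorem size_good {y : SI} (hy : WfS y) {F : Fct (List (List ℕ))} {r : ℕ × List (List ℕ)} (h : GoodS y F r) :
    tsize r ≤ BS y := by
  have h1 := size_conf (rl_ok hy F) (len_pcs _ y) h.mem
  have h2 := h.lt
  obtain ⟨s, ks⟩ := r
  simp only at h1 h2
  rw [tsize_pair, tsize_nat, BS]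
  omega

theorem mu_le (C : List Cl3) (ks : List (List ℕ)) : muS C ks ≤ C.length := by
  unfold muS
  refine (List.length_filter_le _ _).trans ?_
  rw [List.length_range]

/-! ### polynomial time -/

section pt

variable {ι : Type} [DEnc ι]

theorem pt_plE3 {x : ι → Ins} {C : ι → List Cl3} (hx : PT x) (hC : PT C) : PT (fun i => plE3 (x i) (C i)) :=
  pt_rest (PT.p2 hx) (PT.flatMap hC (g := fun y : ι × Cl3 => clE3 y.2) (pt_clE3 PT.snd))

theorem pt_pcs3 {φ : ι × Cl3 → Pc} {x : ι → Ins} {g : ι → List ℕ} {C : ι → List Cl3} (hφ : PT φ) (hx : PT x)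
    (hg : PT g) (hC : PT C) : PT (fun i => pcs3 (fun c => φ (i, c)) (x i) (g i) (C i)) := by
  have hn := PT.p1 hx
  refine PT.append (PT.append (PT.map hC hφ) ?_) (PT.append ?_ ?_)
  · exact PT.map (pt_plE3 hx hC) (g := fun y : ι × Ed => edP y.2) (pt_edP PT.snd)
  · exact PT.map (pt_slJ hn hg) (g := fun y : ι × (ℕ × ℕ) => unP y.2.1 (x y.1).1)
      (pt_unP PT.snd.p1 (hn.comp PT.fst))
  · exact PT.map (PT.range hn) (g := fun y : ι × ℕ => unP (x y.1).1 (x y.1).1)
      (pt_unP (hn.comp PT.fst) (hn.comp PT.fst))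

theorem pt_cfgM3 {x : ι → Ins} {g : ι → List ℕ} {C : ι → List Cl3} {M : ι → List Ed} {ρ : ι → ℕ} (hx : PT x)
    (hg : PT g) (hC : PT C) (hM : PT M) (hρ : PT ρ) : PT (fun i => cfgM3 (x i) (g i) (C i) (M i) (ρ i)) := by
  have hn := PT.p1 hx
  have hh := pt_hsl hx hg hM
  refine PT.append (PT.append ?_ ?_) (PT.append ?_ ?_)
  · exact PT.map hC (g := fun y : ι × Cl3 => ends2 (norm (clE3 y.2) (M y.1)))
      (pt_ends2 (pt_norm (pt_clE3 PT.snd) (hM.comp PT.fst)))
  · exact PT.map (pt_plE3 hx hC) (g := fun y : ι × Ed => ends2 (bif hasE (M y.1) y.2 then [y.2] else []))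
      (pt_ends2 (PT.cond (pt_hasE (hM.comp PT.fst) PT.snd) (PT.cons PT.snd (PT.const [])) (PT.const [])))
  · exact PT.map (pt_slJ hn hg) (g := fun y : ι × (ℕ × ℕ) =>
      bif decide (y.2.2 < 2 - degL (M y.1) y.2.1) then [y.2.1, (x y.1).1] else [])
      (PT.cond (PT.nlt PT.snd.p2 (PT.nsub (PT.const 2) (pt_degL (hM.comp PT.fst) PT.snd.p1)))
        (PT.cons PT.snd.p1 (PT.cons (hn.comp PT.fst) (PT.const []))) (PT.const []))
  · exact PT.map (PT.range hn) (g := fun y : ι × ℕ =>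
      bif decide (hsl (x y.1) (g y.1) (M y.1) + 2 * y.2 + 2 + ρ y.1 ≤ 2 * (x y.1).1) then
        [(x y.1).1, (x y.1).1] else [])
      (PT.cond (PT.nle (PT.nadd (PT.nadd (PT.nadd (hh.comp PT.fst) (PT.nmul (PT.const 2) PT.snd)) (PT.const 2))
        (hρ.comp PT.fst)) (PT.nmul (PT.const 2) (hn.comp PT.fst)))
        (PT.cons (hn.comp PT.fst) (PT.cons (hn.comp PT.fst) (PT.const []))) (PT.const []))

theorem pt_rlz3 {p : ι → Pc} {k : ι → List ℕ} (hp : PT p) (hk : PT k) : PT (fun i => rlz3 (p i) (k i)) :=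
  pt_findD (p := fun y : ι × List Ed => okS3 y.2 && eqK (k y.1) (ends2 y.2))
    (PT.band (pt_okS3 PT.snd) (pt_eqK (hk.comp PT.fst) (pt_ends2 PT.snd))) (pt_subs (PT.p1 (PT.p2 hp)) 4) (PT.const [])

theorem pt_eps3 {x : ι → Ins} {C : ι → List Cl3} (hx : PT x) (hC : PT C) :
    PT (fun i => (C i).map exP3 ++ (plE3 (x i) (C i)).map edP) :=
  PT.append (PT.map hC (g := fun y : ι × Cl3 => exP3 y.2) (pt_exP3 PT.snd))
    (PT.map (pt_plE3 hx hC) (g := fun y : ι × Ed => edP y.2) (pt_edP PT.snd))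

theorem pt_decM3 {x : ι → Ins} {C : ι → List Cl3} {ks : ι → List (List ℕ)} (hx : PT x) (hC : PT C) (hk : PT ks) :
    PT (fun i => decM3 (x i) (C i) (ks i)) := by
  have he := pt_eps3 hx hC
  exact PT.flatMap (PT.range (PT.length he))
    (g := fun y : ι × ℕ => rlz3 (((C y.1).map exP3 ++ (plE3 (x y.1) (C y.1)).map edP).getD y.2 (false, [], []))
      ((ks y.1).getD y.2 []))
    (pt_rlz3 (PT.getD (he.comp PT.fst) PT.snd (PT.const (false, [], [])))
      (PT.getD (hk.comp PT.fst) PT.snd (PT.const [])))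

theorem pt_nx {C : ι → List Cl3} {ks : ι → List (List ℕ)} {j : ι → ℕ} (hC : PT C) (hk : PT ks) (hj : PT j) :
    PT (fun i => nx (C i) (ks i) (j i)) :=
  PT.bnot (pt_pmem3 (pt_exP3 (PT.getD hC hj (PT.const (0, 0, 0, [])))) (PT.getD hk hj (PT.const [])))

theorem pt_muS {C : ι → List Cl3} {ks : ι → List (List ℕ)} (hC : PT C) (hk : PT ks) :
    PT (fun i => muS (C i) (ks i)) :=
  PT.length (PT.filter (PT.range (PT.length hC)) (p := fun y : ι × ℕ => nx (C y.1) (ks y.1) y.2)
    (pt_nx (hC.comp PT.fst) (hk.comp PT.fst) PT.snd))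

theorem pt_initS : PT initS :=
  PT.map (l := fun y : SI => y.2.2.1) PT.snd.p2.p1
    (g := fun z : SI × (ℕ × List Ed) => (z.2.1, cfgM3 z.1.1 z.1.2.1 z.1.2.2.2 z.2.2 1))
    (PT.pair PT.snd.p1 (pt_cfgM3 PT.fst.p1 PT.fst.p2.p1 PT.fst.p2.p2.p2 PT.snd.p2 (PT.const 1)))

theorem pt_finS : PT finS :=
  PT.pair (PT.neq PT.snd.p2.p1 (PT.nadd (PT.nmul (PT.const 2) PT.fst.p1.p1) (PT.const 1)))
    (PT.pair PT.snd.p2.p1 PT.snd.p2.p2)

theorem pt_npc : PT npc :=
  PT.length (pt_pcs3 (φ := fun z : SI × Cl3 => exP3 z.2) (x := fun y : SI => y.1) (g := fun y : SI => y.2.1)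
    (C := fun y : SI => y.2.2.2) (pt_exP3 PT.snd) PT.fst PT.snd.p1 PT.snd.p2.p2)

theorem pt_BS : PT BS :=
  PT.nadd (PT.nadd (PT.nmul pt_npc (PT.nadd (PT.nmul (PT.const 16) (PT.nadd PT.fst.p1 (PT.const 1))) (PT.const 18)))
    (PT.const 1)) (PT.nadd (PT.nmul (PT.const 4) PT.fst.p1) (PT.const 10))

end pt

end Pool.Agent.P34.SV

end

section -- file P34/SolZ3

/-!
# The solver for families of triangles and squares with the star condition
-/

set_option autoImplicit false

namespace Pool.Agent.P34.SV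

open Finset Pool.Agent.TFC Pool.Agent.PF4 Pool.Agent.Lib.helper60
open Pool.Agent.PF4.SV (kno uMi uPl plu tgL AtP tkP tkS realS tstS uPo kno_iff forall2_getD getD_mem cvB)

/-- the two steps of the solver -/
structure Rows : Prop where
  relax_good : ∀ (y : SI) (F : Fct (List (List ℕ))), WfS y → (∀ p ∈ F, FactS y p.1 p.2) → F ≠ [] →
    (relaxS (y, F)).1 = true → GoodS y F (relaxS (y, F)).2
  relax_none : ∀ (y : SI) (F : Fct (List (List ℕ))), WfS y → (∀ p ∈ F, FactS y p.1 p.2) → F ≠ [] →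
    (relaxS (y, F)).1 = false → ¬ ∃ ks, SolS y ks
  pt_relaxS : PT relaxS
  red_spec : ∀ (y : SI) (F : Fct (List (List ℕ))) (r : ℕ × List (List ℕ)), WfS y →
    (∀ p ∈ F, FactS y p.1 p.2) → (F.map Prod.fst).Nodup → F ≠ [] → GoodS y F r → 0 < muS y.2.2.2 r.2 →
    GoodS y F (redS (y, F, r)) ∧ muS y.2.2.2 (redS (y, F, r)).2 < muS y.2.2.2 r.2
  pt_redS : PT redS

theorem facts_ne {y : SI} (hy : WfS y) {F : Fct (List (List ℕ))} (h : ∀ p ∈ initS y, p ∈ F) : F ≠ [] := by
  obtain ⟨p, hp⟩ := List.exists_mem_of_ne_nil _ (init_ne hy)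
  exact List.ne_nil_of_mem (h p hp)

/-- the instance -/
def api (Z : Rows) : SolApi SI (List (List ℕ)) (ℕ × List (List ℕ)) where
  np := fun y => 2 * y.1.1 + 2
  mub := fun y => y.2.2.2.length
  B := BS
  wf := WfS
  fact := FactS
  sol := SolS
  good := GoodS
  mu := fun y r => muS y.2.2.2 r.2
  init := initS
  s0 := []
  r0 := (0, [])
  relax := relaxS
  red := fun w => (true, redS w, 0, [])
  fin := finS
  pt_np := PT.nadd (PT.nmul (PT.const 2) PT.fst.p1) (PT.const 2)
  pt_mub := PT.length PT.snd.p2.p2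
  pt_B := pt_BS
  pt_mu := pt_muS PT.fst.p2.p2.p2 PT.snd.p2
  pt_init := pt_initS
  pt_relax := Z.pt_relaxS
  pt_red := PT.pair (PT.const true) (PT.pair Z.pt_redS (PT.const (0, [])))
  pt_fin := pt_finS
  size_fact := fun _ _ _ hy h => size_fact hy h
  size_sol := fun _ _ hy h => size_sol hy h
  size_good := fun _ _ _ hy h => size_good hy h
  mu_le := fun y _ r _ _ => mu_le y.2.2.2 r.2
  init_spec := fun y hy => ⟨fun p hp => by
    have h := init_fact hy hp
    exact ⟨by have := h.lt; omega, h⟩, init_nodup hy⟩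
  relax_spec := fun y F hy hF _ hi => by
    have hF' : ∀ p ∈ F, FactS y p.1 p.2 := fun p hp => (hF p hp).2
    exact ⟨Z.relax_good y F hy hF' (facts_ne hy hi), Z.relax_none y F hy hF' (facts_ne hy hi)⟩
  red_spec := fun y F r hy hF hn hi hr hm => by
    have hF' : ∀ p ∈ F, FactS y p.1 p.2 := fun p hp => (hF p hp).2
    exact ⟨fun _ => Z.red_spec y F r hy hF' hn (facts_ne hy hi) hr hm, fun h => by cases h⟩
  fin_spec := fun y F r hy _ _ _ hr hm => ⟨fin_true hy hr hm, fin_false hr hm⟩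

/-- **the solver for lists of clusters** -/
theorem solve_cl (Z : Rows) {y : SI} (hy : WfS y) :
    (((api Z).solve y).1 = true → MG y.1 (decM3 y.1 y.2.2.2 ((api Z).solve y).2) ∧
      Cov y.1.1 y.2.1 (degL (decM3 y.1 y.2.2.2 ((api Z).solve y).2)) ∧
      ∀ q : Sq4, CyOK q → (∃ c ∈ y.2.2.2, cys q ⊆ fs (clE3 c)) →
        cyIn (decM3 y.1 y.2.2.2 ((api Z).solve y).2) q = false) ∧
    (((api Z).solve y).1 = false → ¬ ∃ L, VM3 y.1 L ∧ Cov y.1.1 y.2.1 (degL L)) := by
  obtain ⟨h1, h2⟩ := (api Z).solve_spec (x := y) hy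
  constructor
  · intro h
    have h3 : SolS y ((api Z).solve y).2 := h1 h
    refine decM3_spec hy.x hy.c hy.g h3.mem ?_
    intro v hv
    rw [h3.at_ v (by omega), tgt, if_pos hv]
  · rintro h ⟨L, hL, hc⟩
    exact h2 h ⟨cfgM3 y.1 y.2.1 y.2.2.2 L 0, cfgM3_exact hy.x hy.c _ hL 0, fun v _ => ttl_cover3 hy.x hy.c hL.1 hc v⟩

/-- the solver; `cls` computes the clusters -/
def slv (Z : Rows) (cls : List Sq4 → List Cl3) (w : Ins × List ℕ × List (ℕ × List Ed) × List Sq4) :
    Bool × List Ed :=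
  bif w.2.2.1.any (fun p => cvB w.1 w.2.1 p) then (true, (findD (fun p => cvB w.1 w.2.1 p) w.2.2.1 (0, [])).2)
  else (((api Z).solve (w.1, w.2.1, w.2.2.1, cls w.2.2.2)).1,
    decM3 w.1 (cls w.2.2.2) ((api Z).solve (w.1, w.2.1, w.2.2.1, cls w.2.2.2)).2)

theorem pt_slv (Z : Rows) {cls : List Sq4 → List Cl3} (hc : PT cls) : PT (slv Z cls) := by
  have hx : PT (fun w : Ins × List ℕ × List (ℕ × List Ed) × List Sq4 => w.1) := PT.fst
  have hg : PT (fun w : Ins × List ℕ × List (ℕ × List Ed) × List Sq4 => w.2.1) := PT.snd.p1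
  have hW : PT (fun w : Ins × List ℕ × List (ℕ × List Ed) × List Sq4 => w.2.2.1) := PT.snd.p2.p1
  have hD : PT (fun w : Ins × List ℕ × List (ℕ × List Ed) × List Sq4 => w.2.2.2) := PT.snd.p2.p2
  have hC : PT (fun w : Ins × List ℕ × List (ℕ × List Ed) × List Sq4 => cls w.2.2.2) := hc.comp hD
  have hcv : PT (fun z : (Ins × List ℕ × List (ℕ × List Ed) × List Sq4) × (ℕ × List Ed) =>
      cvB z.1.1 z.1.2.1 z.2) :=
    PT.all (PT.range (PT.p1 (hx.comp PT.fst)))
      (p := fun t : ((Ins × List ℕ × List (ℕ × List Ed) × List Sq4) × (ℕ × List Ed)) × ℕ =>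
        decide (t.1.1.2.1.getD t.2 0 ≤ degL t.1.2.2 t.2))
      (PT.nle (PT.getD (hg.comp PT.fst.p1) PT.snd (PT.const 0)) (pt_degL PT.fst.p2.p2 PT.snd))
  have hs : PT (fun w : Ins × List ℕ × List (ℕ × List Ed) × List Sq4 =>
      (api Z).solve (w.1, w.2.1, w.2.2.1, cls w.2.2.2)) :=
    (api Z).pt_solve.comp (PT.pair hx (PT.pair hg (PT.pair hW hC)))
  exact PT.cond (PT.any hW hcv) (PT.pair (PT.const true) (PT.p2 (pt_findD hcv hW (PT.const (0, [])))))
    (PT.pair (PT.p1 hs) (pt_decM3 hx hC (PT.p2 hs)))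

/-- **The solver is correct.** -/
theorem slv_spec (Z : Rows) {cls : List Sq4 → List Cl3} (hcl : ClsFn3 cls) (x : Ins) (g : List ℕ)
    (W : List (ℕ × List Ed)) (v : ℕ) (D : List Sq4) (hx : InsWF x) (hd : Da3 x g W v)
    (hg2 : ∀ u < x.1, g.getD u 0 ≤ 2)
    (h1 : ∀ Q ∈ D, Q ∈ cyG x) (h2 : StarV (CF D)) :
    ((slv Z cls (x, g, W, D)).1 = true →
      MG x (slv Z cls (x, g, W, D)).2 ∧ Cov x.1 g (degL (slv Z cls (x, g, W, D)).2) ∧
      ∀ Q ∈ D, cyIn (slv Z cls (x, g, W, D)).2 Q = false) ∧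
    ((slv Z cls (x, g, W, D)).1 = false → ¬ ∃ L, VM3 x L ∧ Cov x.1 g (degL L)) := by
  have hg : ∀ u, g.getD u 0 ≤ 2 := by
    intro u
    by_cases hu : u < x.1
    · exact hg2 u hu
    · have : g.getD u 0 = 0 := by
        rw [List.getD_eq_getElem?_getD, List.getElem?_eq_none (by rw [hd.len]; omega)]
        rfl
      omega
  unfold slv
  simp only
  by_cases hc : W.any (fun p => cvB x g p) = true
  · rw [hc, cond_true]
    refine ⟨fun _ => ?_, fun h => by simp at h⟩
    rw [List.any_eq_true] at hc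
    obtain ⟨h3, h4⟩ := findD_spec (fun p => cvB x g p) W (0, []) hc
    obtain ⟨-, h5, -⟩ := hd.tab _ h3
    refine ⟨h5.1, ?_, fun Q hQ => h5.2 Q (h1 Q hQ)⟩
    intro u hu
    change (List.range x.1).all (fun u => decide (g.getD u 0 ≤ degL (findD (fun p => cvB x g p) W (0, [])).2 u)) = true
      at h4
    rw [List.all_eq_true] at h4
    exact of_decide_eq_true (h4 u (List.mem_range.2 hu))
  · have hc' : W.any (fun p => cvB x g p) = false := by simpa using hc
    rw [hc', cond_false]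
    obtain ⟨h3, h4⟩ := hcl.spec x D h1 h2
    have hne : W ≠ [] := by
      intro h
      have := (hd.sup v hd.lt).1 hd.one
      rw [h] at this
      simp at this
    have hwf : WfS (x, g, W, cls D) := by
      refine ⟨hx, h3, hg, ?_, hd.nod, hne⟩
      intro p hp
      obtain ⟨k1, k2, k3⟩ := hd.tab p hp
      refine ⟨k1, k2, k3, ?_⟩
      simp only at k1 k3 ⊢
      have k4 := k3 p.1 k1
      rw [if_pos rfl] at k4
      by_contra hcon
      apply hc
      rw [List.any_eq_true]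
      refine ⟨p, hp, ?_⟩
      unfold cvB
      rw [List.all_eq_true]
      intro u hu
      rw [List.mem_range] at hu
      rw [decide_eq_true_eq]
      have k5 := k3 u hu
      by_cases hup : u = p.1
      · subst hup
        omega
      · rw [if_neg hup] at k5
        exact k5
    obtain ⟨h5, h6⟩ := solve_cl Z hwf
    refine ⟨fun h => ?_, h6⟩
    obtain ⟨k1, k2, k3⟩ := h5 h
    exact ⟨k1, k2, fun Q hQ => k3 Q (cyG_ok Q (h1 Q hQ)) (h4 Q hQ)⟩

end Pool.Agent.P34.SV

end

section -- file P34/SolR3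

/-!
# The relaxation of the solver for families of triangles and squares with the star condition
-/

set_option autoImplicit false

namespace Pool.Agent.P34.SV

open Finset Pool.Agent.TFC Pool.Agent.Lib.helper60 Pool.Agent.PF4
open scoped Pointwise
open Pool.Agent.PF4.SV (kno uMi uPl plu tgL AtP tkP tkS realS tstS uPo kno_iff forall2_getD getD_mem pt_slJ pt_unP pt_edP pt_hsl UB_one sumU_one kvec_two_le use_high pv_high mem_uMi mem_uPl tgL_getD pt_kno pt_uMi pt_uPl pt_plu pt_tgL)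

/-! ### pieces and units -/

/-- the vectors of the units are the vectors of the piece -/
def Br (n : ℕ) (u : List (List ℕ × List ℕ)) (p : Pc) : Prop := ∀ k, Gd.PV n u k ↔ pmem3 p k = true

theorem rx3_UB {n : ℕ} {c : Cl3} (ho : Cl3OK c) (hb : (∀ v ∈ c.2.2.2, v < n) ∧ (c.1 ≠ 0 → c.2.1 < n ∧ c.2.2.1 < n))
    {ch : ℕ × ℕ} (hc : Ch3OK c ch) : Gd.UB n (rxU3 c ch) := by
  obtain ⟨b, x, y, L⟩ := c
  obtain ⟨w, m⟩ := ch
  obtain ⟨hL, hxy⟩ := hb
  simp only at hL hxy
  by_cases h0 : b = 0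
  · subst h0
    have hn := ho.nd
    have h4 := ho.k4 rfl
    have hvL := hc.k4 rfl
    simp only at hn h4 hvL
    obtain ⟨a, b, d, hl, -, haL, hbL, hdL⟩ := ltf_four hn h4 hvL
    have ha := hL a haL
    have hb := hL b hbL
    have hd := hL d hdL
    have hm := hL m hvL
    simp only [rxU3, decide_true, cond_true, hl, List.headD_cons, List.tail_cons]
    intro u hu
    simp only [List.mem_cons, List.not_mem_nil, or_false] at hu
    rcases hu with rfl | rfl | rfl
    · exact ⟨by simpa using ha, by simpa using hm⟩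
    · exact ⟨by simpa using hb, by simpa using ⟨ha, hb, hm⟩⟩
    · exact ⟨by simpa using hd, by simpa using ⟨ha, hb, hd, hm⟩⟩
  · obtain ⟨hx, hy⟩ := hxy h0
    have hw : w < n := by
      rcases hc.w h0 with e | e
      · simp only at e; rw [e]; exact hx
      · simp only at e; rw [e]; exact hy
    have how : oth (b, x, y, L) w < n := by
      unfold oth
      split_ifs
      · exact hy
      · exact hx
    have hleaf : ∀ (K : List ℕ), (∀ l ∈ K, l ∈ L) → ∀ u ∈ (K.map fun l => (([l], [x, y]) : List ℕ × List ℕ)),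
        (∀ s ∈ u.1, s < n) ∧ ∀ t ∈ u.2, t < n := by
      intro K hK u hu
      obtain ⟨l, hl, rfl⟩ := List.mem_map.1 hu
      exact ⟨by simpa using hL l (hK l hl), by simpa using ⟨hx, hy⟩⟩
    have hltf : ∀ l ∈ ltf m L, l ∈ L := fun l hl => (mem_ltf.1 hl).1
    by_cases h1 : b = 1
    · subst h1
      have hm : m < n := hL m (hc.k2 rfl)
      simp only [rxU3, one_ne_zero, decide_false, decide_true, cond_true, cond_false]
      intro u hu
      rcases List.mem_append.1 hu with hu | hu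
      · exact hleaf _ hltf u hu
      · simp only [List.mem_cons, List.not_mem_nil, or_false] at hu
        rcases hu with rfl | rfl
        · exact ⟨by simpa using hw, hL⟩
        · exact ⟨by simpa using how, by simpa using hm⟩
    · have hb2 : b = 2 := by
        have := ho.kd
        simp only at this
        omega
      by_cases hmw : m = w
      · simp only [rxU3, h0, h1, hmw, decide_false, decide_true, cond_true, cond_false]
        intro u hu
        rcases List.mem_append.1 hu with hu | hu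
        · exact hleaf _ (fun l hl => hl) u hu
        · rw [List.mem_singleton] at hu
          subst hu
          refine ⟨by simpa using hw, ?_⟩
          intro t ht
          rcases List.mem_cons.1 ht with rfl | ht
          · exact how
          · exact hL t ht
      · have hm : m < n := by
          rcases hc.k11 hb2 with e | e
          · exact absurd e hmw
          · exact hL m e
        simp only [rxU3, h0, h1, hmw, decide_false, cond_false]
        intro u hu
        rcases List.mem_append.1 hu with hu | hu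
        · exact hleaf _ hltf u hu
        · simp only [List.mem_cons, List.not_mem_nil, or_false] at hu
          rcases hu with rfl | rfl
          · refine ⟨by simpa using hw, ?_⟩
            intro t ht
            rcases List.mem_cons.1 ht with rfl | ht
            · exact how
            · exact hL t ht
          · exact ⟨by simpa using how, by simpa using ⟨hm, hw⟩⟩

theorem br_rx {n : ℕ} {c : Cl3} (ho : Cl3OK c) (hb : (∀ v ∈ c.2.2.2, v < n) ∧ (c.1 ≠ 0 → c.2.1 < n ∧ c.2.2.1 < n))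
    {ch : ℕ × ℕ} (hc : Ch3OK c ch) : Br n (rxU3 c ch) (rxP3 c ch) := by
  intro k
  rw [pmem3_iff (card43_rxP3 ho ch), Gd.pv_sumU (rx3_UB ho hb hc), rxP3_eq ho hc]
  rfl

theorem br_un {n u v : ℕ} (hu : u < n) (hv : v < n) : Br n [([u], [v])] (unP u v) := by
  intro k
  rw [Gd.pv_sumU (UB_one hu hv), sumU_one]
  have e : pmem3 (unP u v) k = true ↔ kvec k = 0 ∨ kvec k = ev u + ev v := by
    show pmem3 (true, [], [[u, v]]) k = true ↔ _
    rw [pmem3_iff (card43_nil [[u, v]]), pcS3_nil, Gd.pcS_two]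
    constructor
    · rintro (h | ⟨s, hs, t, ht, h⟩)
      · exact Or.inl h
      · rw [Finset.mem_singleton] at hs ht
        subst hs ht
        exact Or.inr h
    · rintro (h | h)
      · exact Or.inl h
      · exact Or.inr ⟨u, by simp, v, by simp, h⟩
  rw [e]
  exact ⟨fun h => h.1, fun h => ⟨h, kvec_two_le u v h⟩⟩

theorem JS_one {e : Ed} (he : e.1 ≠ e.2) (x : ℕ → ℤ) :
    x ∈ JS3 (fs [e]) noZ ↔ x = 0 ∨ x = ev e.1 + ev e.2 := by
  rw [← PF4.SV.JS_one he]
  constructor
  · rintro ⟨z, hz, hM, hg, rfl⟩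
    exact ⟨z, hz, hM, ((gd_noZ_iff hM.nl).1 hg).1, rfl⟩
  · rintro ⟨z, hz, hM, hg, rfl⟩
    refine ⟨z, hz, hM, (gd_noZ_iff hM.nl).2 ⟨hg, ?_⟩, rfl⟩
    intro a b c h1 h2 h3
    rw [fs_cons, fs_nil] at hz
    have hz1 := hz h1
    have hz2 := hz h2
    simp only [insert_empty_eq, Finset.mem_singleton] at hz1 hz2
    have h4 : s(a, b) = s(b, c) := hz1.trans hz2.symm
    have h5 : a ≠ b := hM.nl.ne h1
    have h6 : c ≠ a := hM.nl.ne h3
    rw [Sym2.eq_iff] at h4
    rcases h4 with ⟨h4, -⟩ | ⟨h4, -⟩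
    · exact h5 h4
    · exact h6 h4.symm

theorem br_ed {n : ℕ} {e : Ed} (he : e.1 ≠ e.2) (hu : e.1 < n) (hv : e.2 < n) : Br n [([e.1], [e.2])] (edP e) := by
  intro k
  rw [Gd.pv_sumU (UB_one hu hv), sumU_one]
  have h1 : pmem3 (edP e) k = true ↔ kvec k = 0 ∨ kvec k = ev e.1 + ev e.2 := by
    show pmem3 (true, [e], []) k = true ↔ _
    rw [pmem3_iff (card43_edge e []), pcS3_plain, JS_one he]
  rw [h1]
  exact ⟨fun h => h.1, fun h => ⟨h, kvec_two_le e.1 e.2 h⟩⟩

theorem plE_mem {x : Ins} (hx : InsWF x) {C : List Cl3} {e : Ed} (he : e ∈ plE3 x C) :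
    e.1 ≠ e.2 ∧ e.1 < x.1 ∧ e.2 < x.1 := by
  have h1 : fe e ∈ fs (plE3 x C) := fe_mem_fs he
  rw [plE3, fs_rest, Finset.mem_sdiff] at h1
  refine ⟨?_, hx.vlt h1.1 (Sym2.mem_mk_left _ _), hx.vlt h1.1 (Sym2.mem_mk_right _ _)⟩
  intro h
  refine hx.nl _ h1.1 ?_
  rw [fe, h]
  exact Sym2.mk_isDiag_iff.2 rfl

/-- the units of the relaxed pieces give the relaxed pieces -/
theorem br_all {y : SI} (hy : WfS y) (F : Fct (List (List ℕ))) :
    List.Forall₂ (Br (y.1.1 + 1)) (rlU y F) (rlP y F) := by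
  refine forall2_append (forall2_append ?_ ?_) (forall2_append ?_ ?_)
  · refine forall2_map y.2.2.2 fun c hc => ?_
    obtain ⟨h1, h2⟩ := clV_lt hy hc
    refine br_rx (hy.c.ok c hc) ⟨fun v hv => (h1 v hv).trans (Nat.lt_succ_self _), fun h => ?_⟩
      (psi3_ok _ (hy.c.ok c hc))
    exact ⟨(h2 h).1.trans (Nat.lt_succ_self _), (h2 h).2.trans (Nat.lt_succ_self _)⟩
  · refine forall2_map (plE3 y.1 y.2.2.2) fun e he => ?_
    obtain ⟨h1, h2, h3⟩ := plE_mem hy.x he
    exact br_ed h1 (h2.trans (Nat.lt_succ_self _)) (h3.trans (Nat.lt_succ_self _))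
  · refine forall2_map (slJ y.1.1 y.2.1) fun p hp => ?_
    exact br_un ((mem_slJ.1 hp).1.trans (Nat.lt_succ_self _)) (Nat.lt_succ_self _)
  · refine forall2_map (List.range y.1.1) fun j _ => ?_
    exact br_un (Nat.lt_succ_self _) (Nat.lt_succ_self _)

theorem forall2_br {n : ℕ} {us : List (List (List ℕ × List ℕ))} {ps : List Pc} (h : List.Forall₂ (Br n) us ps)
    (ks : List (List ℕ)) : List.Forall₂ (Gd.PV n) us ks ↔ List.Forall₂ (fun p k => pmem3 p k = true) ps ks := by
  induction h generalizing ks with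
  | nil => simp
  | cons h1 _ ih =>
    cases ks with
    | nil => simp
    | cons k ks => rw [List.forall₂_cons, List.forall₂_cons, ih, h1 k]

/-- relaxed configurations, in terms of units -/
theorem pv_rl {y : SI} (hy : WfS y) (F : Fct (List (List ℕ))) (ks : List (List ℕ)) :
    List.Forall₂ (Gd.PV (y.1.1 + 1)) (rlU y F) ks ↔
      List.Forall₂ (fun p k => pmem3 p k = true) (rlP y F) ks := forall2_br (br_all hy F) ks

/-- exact configurations are relaxed configurations -/
theorem xc_rl {y : SI} (hy : WfS y) (F : Fct (List (List ℕ))) {ks : List (List ℕ)}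
    (h : List.Forall₂ (fun p k => pmem3 p k = true) (xcP y) ks) :
    List.Forall₂ (fun p k => pmem3 p k = true) (rlP y F) ks := by
  obtain ⟨k1, k2, rfl, h1, h2⟩ := forall2_split h
  obtain ⟨k3, k4, rfl, h3, h4⟩ := forall2_split h1
  refine forall2_append (forall2_append ?_ h4) h2
  clear h h1 h2 h4
  have hok : ∀ c ∈ y.2.2.2, Cl3OK c := hy.c.ok
  revert h3 hok
  generalize y.2.2.2 = C
  intro h3 hok
  rw [List.forall₂_map_left_iff] at h3 ⊢
  induction h3 with
  | nil => exact List.Forall₂.nil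
  | @cons c k C ks h5 _ ih =>
    refine List.Forall₂.cons ?_ (ih fun c hc => hok c (List.mem_cons_of_mem _ hc))
    exact pmem3_complete (card43_rxP3 (hok c List.mem_cons_self) _) (exP3_sub_rxP3 _ _ (pmem3_sound h5))

/-! ### coordinates above the slack vertex -/

/-! ### ports -/

/-- the configurations of the round gadget are the relaxed configurations at an unknown port -/
theorem cfg_iff {y : SI} (hy : WfS y) (F : Fct (List (List ℕ))) (ks : List (List ℕ)) (s : ℕ) :
    Gd.Cfg (y.1.1 + 1) (tgL y.1.1) (rlU y F) (uMi y.1.1 F) (uPl y.1.1 F) ks s ↔ GoodS y F (s, ks) := by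
  have hs : ∀ v, (ks.map fun k => k.count v).sum = ttl ks v := fun _ => rfl
  constructor
  · rintro ⟨h1, h2⟩
    have h3 := (pv_rl hy F ks).1 h1
    rcases h2 with ⟨m1, m2, m3⟩ | ⟨v₀, m1, m2, m4, m3⟩
    · refine ⟨?_, (mem_uMi.1 m1).2, h3, ?_⟩
      · show s < 2 * (y.1.1 + 1)
        omega
      · intro v hv
        have h4 := m3 v hv
        rw [hs, tgL_getD hv] at h4
        show ttl ks v + (if s = v then 1 else 0) = tgt y.1.1 1 v + (if s = y.1.1 + 1 + v then 1 else 0)
        rw [h4, if_neg (by omega : ¬ s = y.1.1 + 1 + v), add_zero]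
    · refine ⟨?_, ?_, h3, ?_⟩
      · show s < 2 * (y.1.1 + 1)
        omega
      · show kno F s = false
        rw [m4]
        exact (mem_uPl.1 m1).2
      · intro v hv
        have h4 := m3 v hv
        rw [hs, tgL_getD hv] at h4
        show ttl ks v + (if s = v then 1 else 0) = tgt y.1.1 1 v + (if s = y.1.1 + 1 + v then 1 else 0)
        rw [h4, if_neg (by omega : ¬ s = v), m4]
        have h5 : (y.1.1 + 1 + v₀ = y.1.1 + 1 + v) ↔ v₀ = v := by omega
        simp only [h5, add_zero]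
  · rintro ⟨h1, h2, h3, h4⟩
    change s < 2 * (y.1.1 + 1) at h1
    change kno F s = false at h2
    refine ⟨(pv_rl hy F ks).2 h3, ?_⟩
    by_cases hlt : s < y.1.1 + 1
    · left
      refine ⟨mem_uMi.2 ⟨hlt, h2⟩, hlt, fun v hv => ?_⟩
      have h5 := h4 v hv
      change ttl ks v + (if s = v then 1 else 0) = tgt y.1.1 1 v + (if s = y.1.1 + 1 + v then 1 else 0) at h5
      rw [hs, tgL_getD hv, h5, if_neg (by omega : ¬ s = y.1.1 + 1 + v), add_zero]
    · right
      refine ⟨s - (y.1.1 + 1), mem_uPl.2 ⟨by omega, ?_⟩, by omega, by omega, fun v hv => ?_⟩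
      · rw [show y.1.1 + 1 + (s - (y.1.1 + 1)) = s by omega]
        exact h2
      · have h5 := h4 v hv
        change ttl ks v + (if s = v then 1 else 0) = tgt y.1.1 1 v + (if s = y.1.1 + 1 + v then 1 else 0) at h5
        rw [if_neg (by omega : ¬ s = v)] at h5
        have h6 : (s - (y.1.1 + 1) = v) ↔ s = y.1.1 + 1 + v := by omega
        rw [hs, tgL_getD hv]
        simp only [h6]
        omega

theorem relax_good {y : SI} {F : Fct (List (List ℕ))} (hy : WfS y) (h : (relaxS (y, F)).1 = true) :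
    GoodS y F (relaxS (y, F)).2 :=
  (cfg_iff hy F _ _).1 (Gd.cap_ok h)

theorem relax_none' {y : SI} {F : Fct (List (List ℕ))} (hy : WfS y) (h : (relaxS (y, F)).1 = false)
    (r : ℕ × List (List ℕ)) : ¬ GoodS y F r := by
  intro hr
  have h1 := Gd.cap_of ((cfg_iff hy F r.2 r.1).2 hr)
  have h2 : (relaxS (y, F)).1 = true := h1
  rw [h] at h2
  cases h2

/-- the goal is a relaxed configuration at an unknown port -/
theorem sol_good {y : SI} {F : Fct (List (List ℕ))} (hy : WfS y) (hF : ∀ p ∈ F, FactS y p.1 p.2)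
    {ks : List (List ℕ)} (h : SolS y ks) (hn : 0 < y.1.1) : GoodS y F (2 * y.1.1 + 1, ks) := by
  refine ⟨?_, ?_, xc_rl hy F h.mem, ?_⟩
  · show 2 * y.1.1 + 1 < 2 * (y.1.1 + 1)
    omega
  · show kno F (2 * y.1.1 + 1) = false
    rw [← Bool.not_eq_true, kno_iff]
    intro h1
    obtain ⟨p, hp, e⟩ := List.mem_map.1 h1
    have := (hF p hp).lt
    omega
  · intro v hv
    show ttl ks v + (if 2 * y.1.1 + 1 = v then 1 else 0) =
      tgt y.1.1 1 v + (if 2 * y.1.1 + 1 = y.1.1 + 1 + v then 1 else 0)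
    rw [h.at_ v hv, if_neg (by omega : ¬ 2 * y.1.1 + 1 = v), tgt, tgt]
    by_cases h1 : v < y.1.1
    · rw [if_pos h1, if_pos h1, if_neg (by omega)]
    · have h2 : v = y.1.1 := by omega
      rw [if_neg h1, if_neg h1, if_pos h2, if_pos h2, if_pos (by omega)]
      omega

theorem wf_pos {y : SI} (hy : WfS y) : 0 < y.1.1 := by
  obtain ⟨p, hp⟩ := List.exists_mem_of_ne_nil _ hy.ne
  have := (hy.w p hp).1
  omega

theorem relax_none {y : SI} {F : Fct (List (List ℕ))} (hy : WfS y) (hF : ∀ p ∈ F, FactS y p.1 p.2)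
    (h : (relaxS (y, F)).1 = false) : ¬ ∃ ks, SolS y ks := by
  rintro ⟨ks, hk⟩
  exact relax_none' hy h _ (sol_good hy hF hk (wf_pos hy))

/-! ### polynomial time -/

section pt

variable {ι : Type} [DEnc ι]

theorem pt_psiF {c : ι → Cl3} {n : ι → ℕ} {F : ι → Fct (List (List ℕ))} (hc : PT c) (hn : PT n) (hF : PT F) :
    PT (fun x => psi3 (plu (n x) (F x)) (c x)) :=
  pt_psi3 (P := fun z : ι × ℕ => plu (n z.1) (F z.1) z.2)
    (pt_plu (hn.comp PT.fst) (hF.comp PT.fst) PT.snd) hc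

theorem pt_rlU : PT (fun w : SI × Fct (List (List ℕ)) => rlU w.1 w.2) := by
  have h1 : PT (fun w : SI × Fct (List (List ℕ)) => w.1.1) := PT.p1 PT.fst
  have hn : PT (fun w : SI × Fct (List (List ℕ)) => w.1.1.1) := PT.p1 h1
  have hg : PT (fun w : SI × Fct (List (List ℕ)) => w.1.2.1) := PT.p1 (PT.p2 PT.fst)
  have hC : PT (fun w : SI × Fct (List (List ℕ)) => w.1.2.2.2) := PT.p2 (PT.p2 (PT.p2 PT.fst))
  have hF : PT (fun w : SI × Fct (List (List ℕ)) => w.2) := PT.snd
  refine PT.append (PT.append ?_ ?_) (PT.append ?_ ?_)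
  · exact PT.map hC (g := fun z : (SI × Fct (List (List ℕ))) × Cl3 => rxU3 z.2 (psi3 (plu z.1.1.1.1 z.1.2) z.2))
      (pt_rxU3 PT.snd (pt_psiF PT.snd (hn.comp PT.fst) (hF.comp PT.fst)))
  · exact PT.map (pt_plE3 h1 hC) (g := fun z : (SI × Fct (List (List ℕ))) × Ed => [([z.2.1], [z.2.2])])
      (PT.cons (PT.pair (PT.cons PT.snd.p1 (PT.const [])) (PT.cons PT.snd.p2 (PT.const []))) (PT.const []))
  · exact PT.map (pt_slJ hn hg) (g := fun z : (SI × Fct (List (List ℕ))) × (ℕ × ℕ) => [([z.2.1], [z.1.1.1.1])])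
      (PT.cons (PT.pair (PT.cons PT.snd.p1 (PT.const [])) (PT.cons (hn.comp PT.fst) (PT.const []))) (PT.const []))
  · exact PT.map (PT.range hn) (g := fun z : (SI × Fct (List (List ℕ))) × ℕ => [([z.1.1.1.1], [z.1.1.1.1])])
      (PT.cons (PT.pair (PT.cons (hn.comp PT.fst) (PT.const [])) (PT.cons (hn.comp PT.fst) (PT.const [])))
        (PT.const []))

theorem pt_relaxS : PT relaxS := by
  have h1 : PT (fun w : SI × Fct (List (List ℕ)) => w.1.1) := PT.p1 PT.fst
  have hn : PT (fun w : SI × Fct (List (List ℕ)) => w.1.1.1) := PT.p1 h1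
  have hF : PT (fun w : SI × Fct (List (List ℕ)) => w.2) := PT.snd
  have ht := pt_tgL hn
  have hm := pt_uMi hn hF
  have hp := pt_uPl hn hF
  exact PT.pair (Gd.pt_capF (PT.nsucc hn) ht pt_rlU hm hp)
    (PT.pair (Gd.pt_capP (PT.nsucc hn) ht pt_rlU hm hp) (Gd.pt_capS (PT.nsucc hn) ht pt_rlU hm hp))

end pt

/-- the relaxation part of the solver -/
theorem rows_of (h1 : ∀ (y : SI) (F : Fct (List (List ℕ))) (r : ℕ × List (List ℕ)), WfS y →
      (∀ p ∈ F, FactS y p.1 p.2) → (F.map Prod.fst).Nodup → F ≠ [] → GoodS y F r → 0 < muS y.2.2.2 r.2 →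
      GoodS y F (redS (y, F, r)) ∧ muS y.2.2.2 (redS (y, F, r)).2 < muS y.2.2.2 r.2)
    (h2 : PT redS) : Rows where
  relax_good := fun _ _ hy _ _ h => relax_good hy h
  relax_none := fun _ _ hy hF _ h => relax_none hy hF h
  pt_relaxS := pt_relaxS
  red_spec := h1
  pt_redS := h2

end Pool.Agent.P34.SV

end

section -- file P34/SolT3

/-!
# The solver for families of triangles and squares with the star condition: the final form
-/

set_option autoImplicit false

namespace Pool.Agent.P34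

open Finset Pool.Agent.TFC Pool.Agent.PF4 Pool.Agent.Lib.helper60

/-- the two steps of the solver -/
theorem rows3 : SV.Rows :=
  SV.rows_of (fun _ _ _ hy hF _ hne hr hm => SVR.red_spec hy hF hne hr hm) SVR.pt_redS

/-- the solver -/
def solZ3 : Ins × List ℕ × List (ℕ × List Ed) × List Sq4 → Bool × List Ed := SV.slv rows3 clusters3L

theorem pt_solZ3 : PT solZ3 := SV.pt_slv rows3 (pt_clusters3L PT.id)

/-- **the solver is correct** -/
theorem solZ3_spec (x : Ins) (g : List ℕ) (W : List (ℕ × List Ed)) (v : ℕ) (D : List Sq4) (hx : InsWF x)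
    (hd : Da3 x g W v) (hg : Ev x g) (_ : D.Nodup) (h1 : ∀ Q ∈ D, Q ∈ cyG x ∧ harm3 g Q = true)
    (h2 : StarV (CF D)) :
    ((solZ3 (x, g, W, D)).1 = true →
      MG x (solZ3 (x, g, W, D)).2 ∧ Cov x.1 g (degL (solZ3 (x, g, W, D)).2) ∧
      ∀ Q ∈ D, cyIn (solZ3 (x, g, W, D)).2 Q = false) ∧
    ((solZ3 (x, g, W, D)).1 = false → ¬ ∃ L, VM3 x L ∧ Cov x.1 g (degL L)) :=
  SV.slv_spec rows3 clsFn3_clusters x g W v D hx hd
    (fun u hu => by rcases hg u hu with h | h <;> omega) (fun Q hQ => (h1 Q hQ).1) h2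

end Pool.Agent.P34

end

section -- file P34/XZ3

/-!
Final assembly for triangles and squares: the theorem on two conflicting short cycles gives a polynomial algorithm.
-/

set_option autoImplicit false

namespace Pool.Agent.P34

open Pool.Agent.Lib.helper60 Pool.Agent.PF4

/-- **a polynomial algorithm, from the theorem on two conflicting short cycles** -/
theorem inP_of_Xf3 (hX : XfStatement3) : InP TwoF34 := by
  obtain ⟨xf1, h1, h2, h3⟩ := xf13_exists hX
  exact inP_of_SX3 ⟨solZ3, xf1, pt_solZ3, h1, solZ3_spec, h2, h3⟩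

/-- **a polynomial algorithm, from the pattern theorems** -/
theorem inP_of_pat3 (hP : Pat3) (h5 : PtS5) (hts : PtTS) (hK : LemKS) : InP TwoF34 :=
  inP_of_Xf3 (xf3_of_pat hP h5 hts (pt3TT hK).to)

end Pool.Agent.P34

end
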