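import Pool.Agent.PFN.M23
import Pool.Agent.PFN.M25
import Pool.Agent.PFN.M29

section -- file P34/LemKS

/-!
Lemma K in the form of `XTT`.
-/

set_option autoImplicit false

namespace Pool.Agent.P34

theorem lemKS : LemKS := by
  intro X P D j m S M CL U PL h Z hZ c hc hZc u v g he hg hS hT hu hv
  exact h.lemK hZ hc hZc he hg hS hT hu hv

end Pool.Agent.P34

end

section -- file P34/Xp1a

/-!
Pattern `p1` (a free common vertex): lemmas for one world.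
-/

set_option autoImplicit false

namespace Pool.Agent.P34

open Finset Pool.Agent.TFC Pool.Agent.PF4 Pool.Agent.PF4.LD Pool.Agent.PF4.XC Pool.Agent.PF4.XT
open Pool.Agent.PF4.XF (XD FitK Cv World WJ Av NC Rch dg_off)

/-- the vertices of a hub cluster -/
theorem Hub.vert {c : Clu3 ℕ} {u v : ℕ} {L : Finset ℕ} (h : Hub c u v L) {a b : ℕ} (he : s(a, b) ∈ c.edges) :
    a = u ∨ a = v ∨ a ∈ L := by
  by_cases h1 : a = u
  · exact Or.inl h1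
  · by_cases h2 : a = v
    · exact Or.inr (Or.inl h2)
    · exact Or.inr (Or.inr (h.nb he h1 h2).1)

/-- the neighbours of a leaf -/
theorem Hub.lnb {c : Clu3 ℕ} {u v : ℕ} {L : Finset ℕ} (h : Hub c u v L) (hv : c.Valid) {a b : ℕ} (ha : a ∈ L)
    (he : s(a, b) ∈ c.edges) : b = u ∨ b = v := by
  obtain ⟨_, uL, vL⟩ := h.dist hv
  exact (h.nb he (fun e => uL (e ▸ ha)) fun e => vL (e ▸ ha)).2

theorem dg_leaf {c : Clu3 ℕ} {u v : ℕ} {L : Finset ℕ} (h : Hub c u v L) (hv : c.Valid) {e : ℕ} (he : e ∈ L)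
    {K : Finset (Sym2 ℕ)} (hK : K ⊆ c.edges) (hn : s(u, e) ∉ K) : dg K e ≤ 1 := by
  have h1 : K.filter (fun f => e ∈ f) ⊆ {s(v, e)} := by
    intro f hf
    obtain ⟨h2, b, rfl⟩ := mem_filter.1 hf
    rw [mem_singleton]
    rcases h.lnb hv he (hK h2) with rfl | rfl
    · exact absurd (by rwa [Sym2.eq_swap]) hn
    · exact Sym2.eq_swap
  exact (card_le_card h1).trans (by simp)

section
variable {X : XD3} {P : ℕ → Finset (Sym2 ℕ) → Prop} {D : Finset (Finset (Sym2 ℕ))} {j m : ℕ} {S : Finset ℕ}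
  {M : ℕ → Finset (Sym2 ℕ)} {CL U : List (Clu3 ℕ)} {PL : Finset (Sym2 ℕ)} {pl mi : ℕ → Prop}
  {F : Clu3 ℕ → Prop}

/-! ### the witness outside of the cluster of its member -/

/-- an edge of the witness at a corner of its member is in the cluster of the member -/
theorem wno {A : Clu3 ℕ → Finset (Sym2 ℕ) → Prop} (h : PW3 X P D j S M A CL U PL pl mi) {Q L : Finset (Sym2 ℕ)}
    (hQ : Q ∈ D) (hL : Wt3 X P D j Q L) {c1 c : Clu3 ℕ} (hc1 : c1 ∈ U) (hQc : Q ⊆ c1.edges) (hc : c ∈ U)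
    (hne : c ≠ c1) {y y' t : ℕ} (hy : s(y, y') ∈ Q) (ht : s(y, t) ∈ L) : s(y, t) ∉ c.edges := fun h1 =>
  hne (h.eqc hc hc1 h1 (hQc (shc hL.m2 (h.ish Q hQ) hL.sh hy (v := y) (by simp) ht (by simp))))

/-- `y` a centre: no short cycle -/
theorem wnsh_hub {A : Clu3 ℕ → Finset (Sym2 ℕ) → Prop} (h : PW3 X P D j S M A CL U PL pl mi)
    {Q L : Finset (Sym2 ℕ)} (hQ : Q ∈ D) (hL : Wt3 X P D j Q L) {c1 c : Clu3 ℕ} (hc1 : c1 ∈ U)
    (hQc : Q ⊆ c1.edges) (hc : c ∈ U) (hne : c ≠ c1) {y y' z : ℕ} (hy : s(y, y') ∈ Q) {Lf : Finset ℕ}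
    (hh : Hub c y z Lf) : NSh (L ∩ c.edges) := by
  intro Z hZ hs
  have h1 : ∃ t, s(y, t) ∈ Z := by
    rcases hh.sh (h.val hc) hZ (hs.trans inter_subset_right) with ⟨_, l, _, rfl⟩ | ⟨a, _, b, _, _, rfl⟩
    · exact ⟨z, by simp [tri]⟩
    · exact ⟨a, by simp [TFC.sq]⟩
  obtain ⟨t, ht⟩ := h1
  obtain ⟨h2, h3⟩ := mem_inter.1 (hs ht)
  exact wno h hQ hL hc1 hQc hc hne hy h2 h3

/-- all short cycles of the cluster are members: no short cycle -/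
theorem wnsh_cpl {A : Clu3 ℕ → Finset (Sym2 ℕ) → Prop} (h : PW3 X P D j S M A CL U PL pl mi)
    {Q L : Finset (Sym2 ℕ)} (hQ : Q ∈ D) (hL : Wt3 X P D j Q L) {c1 c : Clu3 ℕ} (hc1 : c1 ∈ U)
    (hQc : Q ⊆ c1.edges) (hc : c ∈ U) (hne : c ≠ c1) (hcp : ∀ Z, IsSh Z → Z ⊆ c.edges → Z ∈ D) :
    NSh (L ∩ c.edges) := by
  intro Z hZ hs
  have h1 := hL.uni Z (hcp Z hZ (hs.trans inter_subset_right)) (hs.trans inter_subset_left)
  obtain ⟨e, he⟩ := (h.ish Q hQ).ne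
  have h2 : e ∈ c.edges := by
    rw [← h1] at he
    exact (mem_inter.1 (hs he)).2
  exact hne (h.eqc hc hc1 h2 (hQc he))

/-- **the shape of a hub cluster in the capped frame** -/
theorem hub_shape (h : PW3 X P D j S M (Fr3 D fun _ => False) CL U PL pl mi) {c : Clu3 ℕ} (hc : c ∈ U) {u v : ℕ}
    {L : Finset ℕ} (hh : Hub c u v L) : (∀ Z, IsSh Z → Z ⊆ c.edges → Z ∈ D) ∨
      ∃ e, Star3 D u v L e ∧ (mi e ∧ ¬ pl e) ∧ ∀ b ∈ L, b ≠ e → ¬ (mi b ∧ ¬ pl b) := by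
  have hO := h.fr_gdc hc fun _ _ _ hf => hf
  have hA : ACp3 D (Fr3 D fun _ => False) c := fr3_acp fun hf => hf
  by_cases h1 : Hub1 c u v L
  · rcases h.shape11 hc h1 hO hA with ⟨g1, g2, _⟩ | ⟨e, g1, _, g3, _, g4⟩
    · left
      intro Z hZ hs
      rcases hh.sh (h.val hc) hZ hs with ⟨_, l, hl, rfl⟩ | ⟨a, ha, b, hb, hab, rfl⟩
      · exact g1 l hl
      · exact g2 a ha b hb hab
    · exact Or.inr ⟨e, g1, g3, g4⟩
  · have h2 : c = Clu3.k2 u v L ∨ c = Clu3.k2 v u L := by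
      rcases hh with g | g | g | g
      · exact Or.inl g
      · exact Or.inr g
      · exact absurd (Or.inl g) h1
      · exact absurd (Or.inr g) h1
    have cpl : (∀ b ∈ L, ∀ d ∈ L, b ≠ d → TFC.sq u b v d ∈ D) → ∀ Z, IsSh Z → Z ⊆ c.edges → Z ∈ D := by
      intro g Z hZ hs
      rcases hh.sh (h.val hc) hZ hs with ⟨g1, _⟩ | ⟨a, ha, b, hb, hab, rfl⟩
      · exact absurd g1 h1
      · exact g a ha b hb hab
    rcases h2 with h2 | h2
    · rcases h.shape2 hc h2 hO hA with g | ⟨e, g1, g2, _, g4⟩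
      · exact Or.inl (cpl g)
      · exact Or.inr ⟨e, g1, g2, g4⟩
    · rcases h.shape2 hc h2 hO hA with g | ⟨e, g1, g2, _, g4⟩
      · refine Or.inl (cpl fun b hb d hd bd => ?_)
        rw [sq_swp3']
        exact g b hb d hd bd
      · refine Or.inr ⟨e, ⟨g1.mem, fun b hb be => ?_, fun b hb d hd be de bd => ?_, fun b hb be hD => ?_⟩, g2, g4⟩
        · rw [sq_swp3']
          exact g1.sq b hb be
        · rw [sq_swp3']
          exact g1.nsq b hb d hd be de bd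
        · obtain ⟨uv, uL, vL⟩ := hh.dist (h.val hc)
          have h3 : s(u, b) ∈ tri u v b := by simp [tri, Sym2.eq_swap]
          have h4 := h.clz hD hc h3 (hh.mem hb).1
          rcases hh.sh (h.val hc) (h.ish _ hD) h4 with ⟨g5, _⟩ | ⟨a, ha, d, hd, had, g5⟩
          · exact h1 g5
          · exact tri_not_sq ⟨u, v, b, tri_hub uv uL vL hb, rfl⟩ ⟨u, a, v, d, sq_hub uv uL vL ha hd had, g5⟩

/-- **neighbours of a corner of a member in another cluster `c` are not of type X** (frame: `c` uncapped) -/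
theorem nbX {c1 c : Clu3 ℕ} (h : PW3 X P D j S M (Fr3 D fun c0 => c0 = c) CL U PL pl mi) {Q L : Finset (Sym2 ℕ)}
    (hQ : Q ∈ D) (hL : Wt3 X P D j Q L) (hc1 : c1 ∈ U) (hQc : Q ⊆ c1.edges) (hc : c ∈ U) (hne : c ≠ c1)
    (hN : NSh (L ∩ c.edges)) {y y' z : ℕ} (hy : s(y, y') ∈ Q) (hz : s(y, z) ∈ c.edges) : ¬ (mi z ∧ ¬ pl z) := by
  refine h.L2X hQ hL hc1 hQc (h.fr_am c1) (h.out hQ hL hc1 hQc fun c' _ hf _ => hf ▸ hN) hy (h.cW hc hz)
    (fun h1 => hne (h.eqc hc hc1 hz h1)) fun c' hc' hec => ?_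
  have := h.eqc hc' hc hec hz
  subst this
  exact ⟨fr3_asf rfl, hN⟩

/-- a member in `c` has a corner of type X (frame: at most `c` uncapped) -/
theorem mbX {c : Clu3 ℕ} (h : PW3 X P D j S M (Fr3 D F) CL U PL pl mi) (hF : ∀ c', F c' → c' = c) (hc : c ∈ U)
    {Z : Finset (Sym2 ℕ)} (hZ : Z ∈ D) (hZc : Z ⊆ c.edges) : ∃ v, (∃ e ∈ Z, v ∈ e) ∧ mi v ∧ ¬ pl v := by
  obtain ⟨L, hL⟩ := h.wt hZ
  exact h.L1x hZ hL hc hZc (h.fr_am c) (ttOut h hF hZ hL hc hZc)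

/-- the edge of `M w` at `w` -/
theorem nc_uni (hW : WA3 X P D j m S M CL U PL) {w a b : ℕ} (hw : w ∈ S) (hT : w ∈ X.T) (ha : s(w, a) ∈ M w)
    (hb : s(w, b) ∈ M w) : a = b := by
  by_contra hab
  have h1 := two_at hab ha hb
  have h2 := (hW.ow.nc w hw hT).1.one
  omega

/-- **a leaf of type X (capped frame)**: the edge from the centre `r` is in `M r`, or there is a short path -/
theorem star_add (hW : WA3 X P D j m S M CL U PL) (h : PW3 X P D j S M (Fr3 D fun _ => False) CL U PL pl mi)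
    {c : Clu3 ℕ} (hc : c ∈ U) {r v e : ℕ} {L : Finset ℕ} (hh : Hub c r v L) (hr : r ∈ S) (hT : r ∈ X.T)
    (he : e ∈ L) (hX : mi e ∧ ¬ pl e) : s(r, e) ∈ M r ∨ Pth (M r ∩ c.edges) r e := by
  by_contra hn
  rw [not_or] at hn
  obtain ⟨h1, h2⟩ := hn
  have hec := (hh.mem he).1
  have hre : r ≠ e := h.ne (h.cW hc hec)
  have hn1 : s(r, e) ∉ M r ∩ c.edges := fun g => h1 (mem_inter.1 g).1
  have hA := hW.mcap r hr hT c ((h.uc c).1 hc).1
  refine hX.2 (h.L3p hr hT (hW.fr_M h (fun _ g => g.elim) hr hT) h1 (Or.inr ⟨c, hc, hec, ?_⟩))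
  rw [Fr3_neg fun g => g]
  refine ⟨m2_insert3 hA.1 hre ?_ (dg_leaf hh (h.val hc) he inter_subset_right hn1), fun Z hZ hs => ?_⟩
  · rw [← (hW.ow.nc r hr hT).1.one]
    exact card_le_card (filter_subset_filter _ inter_subset_left)
  · by_cases h3 : s(r, e) ∈ Z
    · exact h2 (pth_of_sh (h.ish Z hZ) h3 hs)
    · refine hA.2 Z hZ fun f hf => ?_
      rcases mem_insert.1 (hs hf) with rfl | h4
      · exact absurd hf h3
      · exact h4

/-- **`M r` contains the path `r s v y`** in a hub cluster with the centres `r`, `v`: a leaf of type X (capped frame) is `s`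
or `y` -/
theorem path3_star (hW : WA3 X P D j m S M CL U PL) (h : PW3 X P D j S M (Fr3 D fun _ => False) CL U PL pl mi)
    {c : Clu3 ℕ} (hc : c ∈ U) {r v s y e : ℕ} {L : Finset ℕ} (hh : Hub c r v L) (hr : r ∈ S) (hT : r ∈ X.T)
    (h1 : s(r, s) ∈ M r) (h2 : s(s, v) ∈ M r) (h3 : s(v, y) ∈ M r) (hs : s ∈ L) (hy : y ∈ L) (sy : s ≠ y)
    (he : e ∈ L) (hX : mi e ∧ ¬ pl e) : e = s ∨ e = y := by
  have hv := h.val hc
  obtain ⟨rv, rL, vL⟩ := hh.dist hv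
  have hm2 := (hW.ow.nc r hr hT).1.m2
  by_contra hn
  rw [not_or] at hn
  rcases star_add hW h hc hh hr hT he hX with g | g
  · exact hn.1 (nc_uni hW hr hT g h1)
  · rcases g with ⟨a, ⟨d1, d2, d3⟩, g1, g2⟩ | ⟨a, b, ⟨d1, d2, d3, d4, d5, d6⟩, g1, g2, g3⟩
    · have := nc_uni hW hr hT (mem_inter.1 g1).1 h1
      subst this
      rcases hh.lnb hv hs (mem_inter.1 g2).2 with g | g
      · exact rL (g ▸ he)
      · exact vL (g ▸ he)
    · have := nc_uni hW hr hT (mem_inter.1 g1).1 h1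
      subst this
      rcases hh.lnb hv hs (mem_inter.1 g2).2 with g | g
      · exact d2 g.symm
      · subst g
        exact three_at hm2 (Ne.symm hn.1) sy hn.2 (by rw [Sym2.eq_swap]; exact h2) (mem_inter.1 g3).1 h3

end

end Pool.Agent.P34

end

section -- file P34/Xp1b

/-!
Pattern `p1` (a free common vertex): lemmas for one world, second part.
-/

set_option autoImplicit false

namespace Pool.Agent.P34

open Finset Pool.Agent.TFC Pool.Agent.PF4 Pool.Agent.PF4.LD Pool.Agent.PF4.XC Pool.Agent.PF4.XT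
open Pool.Agent.PF4.XF (XD FitK Cv World WJ Av NC Rch dg_off)

section
variable {X : XD3} {P : ℕ → Finset (Sym2 ℕ) → Prop} {D : Finset (Finset (Sym2 ℕ))} {j m : ℕ} {S : Finset ℕ}
  {M : ℕ → Finset (Sym2 ℕ)} {CL U : List (Clu3 ℕ)} {PL : Finset (Sym2 ℕ)} {pl mi : ℕ → Prop}
  {F : Clu3 ℕ → Prop}

/-- a vertex of the region which is not in `T` has not `mi` -/
theorem p1_nmi {A : Clu3 ℕ → Finset (Sym2 ℕ) → Prop} (h : PW3 X P D j S M A CL U PL pl mi) {a b : ℕ}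
    (he : s(a, b) ∈ Ucl3 U ∪ PL) (ha : a ∉ X.T) : ¬ mi a :=
  h.free a (h.ok.vn a (h.v2 he (by simp))) ha

/-- a free end of an edge of a cluster has type N -/
theorem p1_npl (h : PW3 X P D j S M (Fr3 D F) CL U PL pl mi) {c : Clu3 ℕ} (hF : ∀ c', F c' → c' = c) (hc : c ∈ U)
    {a b : ℕ} (he : s(a, b) ∈ c.edges) (ha : a ∉ X.T) : ¬ pl a := fun hp =>
  ttNY h hF hc he ⟨hp, p1_nmi h (h.cW hc he) ha⟩

/-- **the edge from the free corner `y` to `r` is in a cluster** -/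
theorem p1_clu (hW : WA3 X P D j m S M CL U PL) {Q : Finset (Sym2 ℕ)} (hQ : Q ∈ D) {c1 : Clu3 ℕ} (hc1 : c1 ∈ U)
    (hQc : Q ⊆ c1.edges) {y y' r : ℕ} (hy : s(y, y') ∈ Q) (hyT : y ∉ X.T) (hr : r ∈ S) (hT : r ∈ X.T)
    (hE : s(y, r) ∈ X.E) : ∃ c ∈ U, s(y, r) ∈ c.edges := by
  obtain ⟨pl, mi, h, _⟩ := hW.cap
  obtain ⟨L, hL⟩ := h.wt hQ
  have hWe := h.edS hE (a := r) (by simp) hr
  rcases Finset.mem_union.1 hWe with h1 | h1
  · exact mem_Ucl3.1 h1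
  exfalso
  have hnc : ∀ c ∈ U, s(y, r) ∉ c.edges := fun c hc he => Finset.disjoint_left.1 (h.plain hc) h1 he
  have hF : ∀ c', (fun _ : Clu3 ℕ => False) c' → c' = c1 := fun _ g => g.elim
  have hmi := p1_nmi h hWe hyT
  have hpl := p1_npl h hF hc1 (hQc hy) hyT
  have hWe' : s(r, y) ∈ Ucl3 U ∪ PL := by rwa [Sym2.eq_swap]
  rcases h.L5 hr hT (hW.fr_M h (fun _ g => g.elim) hr hT) hWe' (fun c hc he => absurd (by rwa [Sym2.eq_swap]) (hnc c hc))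
    hpl with h2 | ⟨c, hc, h2, _⟩
  · have h3 := h.L4w (fr3_dwn _ _) hr hT (hW.fr_M h (fun _ g => g.elim) hr hT) h2 hWe'
    rw [con_N hpl hmi] at h3
    exact h.L2X hQ hL hc1 hQc (h.fr_am c1) (ttOut h hF hQ hL hc1 hQc) hy hWe (hnc c1 hc1)
      (fun c hc he => absurd he (hnc c hc)) (con_neg_two (by omega))
  · exact hnc c hc (by rwa [Sym2.eq_swap])

/-- **`M r` contains a short path from `r` to the free corner `y` in the cluster of the edge `y r`**, if this is not the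
cluster of the member -/
theorem p1_path (hW : WA3 X P D j m S M CL U PL) {Q : Finset (Sym2 ℕ)} (hQ : Q ∈ D) {c1 c : Clu3 ℕ} (hc1 : c1 ∈ U)
    (hQc : Q ⊆ c1.edges) {y y' r : ℕ} (hy : s(y, y') ∈ Q) (hyT : y ∉ X.T) (hr : r ∈ S) (hT : r ∈ X.T)
    (hc : c ∈ U) (hE : s(y, r) ∈ c.edges) (hne : c ≠ c1) (hb : Hb c) : Pth (M r ∩ c.edges) r y := by
  have hE' : s(r, y) ∈ c.edges := by rwa [Sym2.eq_swap]
  refine (tt_path hW hr hT hyT hc hE').resolve_left fun hM => ?_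
  obtain ⟨pl0, mi0, h0, _⟩ := hW.cap
  obtain ⟨L, hL⟩ := h0.wt hQ
  by_cases hG : NSh (L ∩ c.edges)
  · obtain ⟨pl, mi, h, _⟩ := hW.fr (fun c0 => c0 = c) fun c0 g => g ▸ hb
    have hmi := p1_nmi h (h.cW hc hE) hyT
    have hpl := p1_npl h (fun _ g => g) hc hE hyT
    have h3 := h.L4w (fr3_dwn _ _) hr hT (hW.fr_M h (fun c0 g => g ▸ hb) hr hT) hM (h.cW hc hE')
    rw [con_N hpl hmi] at h3
    exact nbX h hQ hL hc1 hQc hc hne hG hy hE (con_neg_two (by omega))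
  · unfold NSh at hG
    push Not at hG
    obtain ⟨Z, hZ, hZs⟩ := hG
    have hv := h0.val hc
    obtain ⟨v, Lf, a, hh, hyL, -⟩ := hub_sh hv hb hZ (hZs.trans inter_subset_right) hE fun a ha =>
      wno h0 hQ hL hc1 hQc hc hne hy (mem_inter.1 (hZs ha)).1 (mem_inter.1 (hZs ha)).2
    have hmi := p1_nmi h0 (h0.cW hc hE) hyT
    have hpl := p1_npl h0 (fun _ g => g.elim) hc hE hyT
    rcases hub_shape h0 hc hh with g | ⟨e, g1, g2, _⟩
    · exact wnsh_cpl h0 hQ hL hc1 hQc hc hne g Z hZ hZs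
    · have hey : e ≠ y := by
        rintro rfl
        exact hmi g2.1
      have hec := (hh.mem g1.mem).1
      have hre : r ≠ e := h0.ne (h0.cW hc hec)
      have hry : r ≠ y := h0.ne (h0.cW hc hE')
      have hren : s(r, e) ∉ M r := fun g => hey (nc_uni hW hr hT g hM)
      have hA := hW.mcap r hr hT c ((h0.uc c).1 hc).1
      have hK0 : (M r ∩ c.edges) \ {s(r, y)} ⊆ c.edges := sdiff_subset.trans inter_subset_right
      have hAK : Fr3 D (fun _ => False) c (insert s(r, e) ((M r ∩ c.edges) \ {s(r, y)})) := by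
        refine fr3_ins h0.ish hre ?_ (fun a ha => ?_) (Or.inr (dg_leaf hh hv g1.mem hK0 fun g =>
          hren (mem_inter.1 (mem_sdiff.1 g).1).1))
        · rw [Fr3_neg fun g => g]
          exact Acap.mono3 hA sdiff_subset
        · obtain ⟨h5, h6⟩ := mem_sdiff.1 ha
          have h7 := nc_uni hW hr hT (mem_inter.1 h5).1 hM
          rw [h7] at h6
          exact absurd (mem_singleton_self _) h6
      have h8 := h0.nc_rep hr hT hc (hW.fr_Mc h0 (fun _ g => g.elim) hr hT c)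
        (insert_subset hec hK0) hAK
      have h9 : s(r, e) ∉ (M r ∩ c.edges) \ {s(r, y)} := fun g => hren (mem_inter.1 (mem_sdiff.1 g).1).1
      rw [XT.dv_insert h9, dv_sdiff (singleton_subset_iff.2 (mem_inter.2 ⟨hM, hE'⟩)), dv_pair hre, dv_pair hry] at h8
      have e1 : (dv (M r ∩ c.edges) - (Pi.single r 1 + Pi.single y 1) + (Pi.single r 1 + Pi.single e 1) -
          dv (M r ∩ c.edges) - Pi.single r 1 : ℕ → ℤ) = Pi.single y (-1) + Pi.single e 1 + Pi.single r (-1) := by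
        rw [Pi.single_neg, Pi.single_neg]
        abel
      rw [e1, ph_three (h0.v2 (h0.cW hc hE) (by simp)) (h0.v2 (h0.cW hc hec) (by simp))
        (h0.v2 (h0.cW hc hE') (by simp)) hey.symm hry.symm hre.symm, con_N hpl hmi, con_X g2.2 g2.1] at h8
      have h10 := con_neg_one (pl0 r) (mi0 r)
      omega

/-- **`r` is joined to the free corner `y` inside the cluster of the square `x y q p`** -/
theorem p1_in (hW : WA3 X P D j m S M CL U PL) {x y q p r : ℕ} (hd : Dist4 x y q p) (rx : r ≠ x) (ry : r ≠ y)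
    (rq : r ≠ q) (rp : r ≠ p) (hQ : TFC.sq x y q p ∈ D) {c1 : Clu3 ℕ} (hc1 : c1 ∈ U)
    (hQc : TFC.sq x y q p ⊆ c1.edges) (hyT : y ∉ X.T) (hr : r ∈ S) (hT : r ∈ X.T) (hE : s(y, r) ∈ c1.edges) :
    ∃ Lf, Hub c1 y p Lf ∧ x ∈ Lf ∧ q ∈ Lf ∧ r ∈ Lf ∧ Pth (M r ∩ c1.edges) r y := by
  obtain ⟨_, _, h0, _⟩ := hW.cap
  have hv := h0.val hc1
  obtain ⟨xy, xq, xp, yq, yp, qp⟩ := hd
  rcases shape3_sq hv ⟨xy, xq, xp, yq, yp, qp⟩ hQc with rfl | ⟨Lf, h1, h2, h3, _⟩ | ⟨Lf, h1, h2, h3, _⟩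
  · have h4 := (mem3_k4.1 hE).2.1
    simp only [mem_insert, mem_singleton] at h4
    tauto
  · rcases h1.lnb hv h2 hE with g | g
    · exact absurd g rx
    · exact absurd g rq
  · have hrL : r ∈ Lf := by
      rcases h1.vert (show s(r, y) ∈ c1.edges by rwa [Sym2.eq_swap]) with g | g | g
      · exact absurd g ry
      · exact absurd g rp
      · exact g
    refine ⟨Lf, h1, h2, h3, hrL, ?_⟩
    have hE' : s(r, y) ∈ c1.edges := by rwa [Sym2.eq_swap]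
    refine (tt_path hW hr hT hyT hc1 hE').resolve_left fun hM => ?_
    obtain ⟨pl, mi, h, _⟩ := hW.fr (fun c0 => c0 = c1) fun c0 g => g ▸ h1.hb
    have hmi := p1_nmi h (h.cW hc1 hE) hyT
    have hpl := p1_npl h (fun _ g => g) hc1 hE hyT
    have h4 := h.L4w (fr3_dwn _ _) hr hT (hW.fr_M h (fun c0 g => g ▸ h1.hb) hr hT) hM (h.cW hc1 hE')
    rw [con_N hpl hmi] at h4
    refine h.leaf_nX hc1 h1 (h.fr_gdc hc1 fun _ _ g g' => g g') (h.fr_am c1) hrL h2 h3 rx rq xq ?_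
      (con_neg_two (by omega))
    rw [← XF.sq_ref]
    exact hQ

/-- **a hub cluster with the free corner `y` as a centre** (frame: this cluster uncapped): the other centre has type X, the
cluster is a `K2` -/
theorem p1_hub {c1 c : Clu3 ℕ} (h : PW3 X P D j S M (Fr3 D fun c0 => c0 = c) CL U PL pl mi) {Q : Finset (Sym2 ℕ)}
    (hQ : Q ∈ D) (hc1 : c1 ∈ U) (hQc : Q ⊆ c1.edges) (hc : c ∈ U) (hne : c ≠ c1) {y y' z : ℕ} (hy : s(y, y') ∈ Q)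
    (hyT : y ∉ X.T) {Lf : Finset ℕ} (hh : Hub c y z Lf) : (mi z ∧ ¬ pl z) ∧ ¬ Hub1 c y z Lf := by
  obtain ⟨L, hL⟩ := h.wt hQ
  have hN := wnsh_hub h hQ hL hc1 hQc hc hne hy hh
  have hv := h.val hc
  obtain ⟨_, _, _, h1⟩ := hh.dat hv
  obtain ⟨l, hl⟩ := card_pos.1 (by omega : 0 < #Lf)
  have hyl := (hh.mem hl).1
  obtain ⟨Z, hZ, _, hZc⟩ := h.edz hc hyl
  obtain ⟨v, ⟨e, he, t, rfl⟩, hX⟩ := mbX h (fun _ g => g) hc hZ hZc
  have hXz : mi z ∧ ¬ pl z := by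
    rcases hh.vert (hZc he) with g | g | g
    · subst g
      exact absurd hX.1 (p1_nmi h (h.cW hc hyl) hyT)
    · subst g
      exact hX
    · exact absurd hX (nbX h hQ hL hc1 hQc hc hne hN hy (hh.mem g).1)
  exact ⟨hXz, fun h1 => nbX h hQ hL hc1 hQc hc hne hN hy h1.mem hXz⟩

/-- **a hub cluster with the free corner `y` as a leaf and the path `q p v y` in `M q`** -/
theorem p1_leaf (hW : WA3 X P D j m S M CL U PL) {pl0 mi0 : ℕ → Prop}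
    (h0 : PW3 X P D j S M (Fr3 D fun _ => False) CL U PL pl0 mi0) {Q L : Finset (Sym2 ℕ)} (hQ : Q ∈ D)
    (hL : Wt3 X P D j Q L) {c1 c : Clu3 ℕ} (hc1 : c1 ∈ U) (hQc : Q ⊆ c1.edges) (hc : c ∈ U) (hne : c ≠ c1)
    {y : ℕ} (hyT : y ∉ X.T) {q v p : ℕ} {Lf : Finset ℕ} (hh : Hub c q v Lf) (hq : q ∈ S) (hT : q ∈ X.T)
    (h1 : s(q, p) ∈ M q) (h2 : s(p, v) ∈ M q) (h3 : s(v, y) ∈ M q) (hp : p ∈ Lf) (hy : y ∈ Lf) (py : p ≠ y) :
    TFC.sq q p v y ∈ D ∧ (NSh (L ∩ c.edges) ∨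
      ((mi0 p ∧ ¬ pl0 p) ∧ ∀ b ∈ Lf, b ≠ p → ¬ (mi0 b ∧ ¬ pl0 b))) := by
  have hv := h0.val hc
  obtain ⟨uv, uL, vL⟩ := hh.dist hv
  rcases hub_shape h0 hc hh with g | ⟨e, g1, g2, g3⟩
  · exact ⟨g _ (Or.inr ⟨_, _, _, _, sq_hub uv uL vL hp hy py, rfl⟩) (hh.sq_sub hp hy),
      Or.inl (wnsh_cpl h0 hQ hL hc1 hQc hc hne g)⟩
  · have hmi := p1_nmi h0 (h0.cW hc (show s(y, q) ∈ c.edges by rw [Sym2.eq_swap]; exact (hh.mem hy).1)) hyT
    rcases path3_star hW h0 hc hh hq hT h1 h2 h3 hp hy py g1.mem g2 with rfl | rfl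
    · exact ⟨g1.sq y hy py.symm, Or.inr ⟨g2, g3⟩⟩
    · exact absurd g2.1 hmi

/-- the only possible corner of type X is `p` (frame: `c` uncapped, the witness has no short cycle in `c`) -/
theorem p1_leafX {c1 c : Clu3 ℕ} (h : PW3 X P D j S M (Fr3 D fun c0 => c0 = c) CL U PL pl mi)
    {Q L : Finset (Sym2 ℕ)} (hQ : Q ∈ D) (hL : Wt3 X P D j Q L) (hc1 : c1 ∈ U) (hQc : Q ⊆ c1.edges) (hc : c ∈ U)
    (hne : c ≠ c1) (hN : NSh (L ∩ c.edges)) {y y' : ℕ} (hy : s(y, y') ∈ Q) (hyT : y ∉ X.T) {q v p : ℕ}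
    {Lf : Finset ℕ} (hh : Hub c q v Lf) (hyL : y ∈ Lf) (hZ : TFC.sq q p v y ∈ D) (hpL : p ∈ Lf) :
    mi p ∧ ¬ pl p := by
  have hyq := (hh.mem hyL).1
  have hyv := (hh.mem hyL).2
  obtain ⟨w, ⟨e, he, t, rfl⟩, hX⟩ := mbX h (fun _ g => g) hc hZ (hh.sq_sub hpL hyL)
  rcases sq_ends he (v := w) (by simp) with g | g | g | g
  · subst g
    exact absurd hX (nbX h hQ hL hc1 hQc hc hne hN hy (by rw [Sym2.eq_swap]; exact hyq))
  · subst g
    exact hX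
  · subst g
    exact absurd hX (nbX h hQ hL hc1 hQc hc hne hN hy (by rw [Sym2.eq_swap]; exact hyv))
  · subst g
    exact absurd hX.1 (p1_nmi h (h.cW hc (show s(w, q) ∈ c.edges by rw [Sym2.eq_swap]; exact hyq)) hyT)

end

end Pool.Agent.P34

end

section -- file P34/Xp1

/-!
Two conflicting squares, six vertices, a free common vertex (pattern `p1`).
-/

set_option autoImplicit false

namespace Pool.Agent.P34

open Finset Pool.Agent.TFC Pool.Agent.PF4 Pool.Agent.PF4.LD Pool.Agent.PF4.XC Pool.Agent.PF4.XT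
open Pool.Agent.PF4.XF (XD FitK Cv World WJ Av NC Rch dg_off)

/-- one world with all its data -/
structure Wld (n : ℕ) (T : Finset ℕ) (G : Finset (Sym2 ℕ)) (S : Finset ℕ) (M : ℕ → Finset (Sym2 ℕ)) where
  X : XD3
  P : ℕ → Finset (Sym2 ℕ) → Prop
  D : Finset (Finset (Sym2 ℕ))
  j : ℕ
  m : ℕ
  CL : List (Clu3 ℕ)
  U : List (Clu3 ℕ)
  PL : Finset (Sym2 ℕ)
  w : WA3 X P D j m S M CL U PL
  hn : X.n = n
  ht : X.T = T
  eg : X.E ⊆ G
  ge : ∀ e ∈ G, (∀ v ∈ e, v ∈ S) → e ∈ X.E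

theorem wld_of {n : ℕ} {T : Finset ℕ} {G : Finset (Sym2 ℕ)} {S : Finset ℕ} {M : ℕ → Finset (Sym2 ℕ)}
    {Q R : Finset (Sym2 ℕ)} (h : WW n T G M S Q R) (hS : ∃ w ∈ S, w ∈ T) : ∃ W : Wld n T G S M, Q ∈ W.D := by
  obtain ⟨X, P, D, j, m, h1, h2, h3, h4, h5, h6, _⟩ := h
  obtain ⟨CL, U, PL, h7⟩ := wa3_of h1 (by rw [h3]; exact hS)
  exact ⟨⟨X, P, D, j, m, CL, U, PL, h7, h2, h3, h4, h6⟩, h5⟩

/-- two paths of the same near cover -/
theorem pth_both {K A B : Finset (Sym2 ℕ)} (hK : M2 K) {r y : ℕ} (h1 : dg K r = 1) (hA : Pth (K ∩ A) r y)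
    (hB : Pth (K ∩ B) r y) : Pth (K ∩ (A ∩ B)) r y := by
  have uni : ∀ {a b : ℕ}, s(r, a) ∈ K → s(r, b) ∈ K → a = b := by
    intro a b ha hb
    by_contra hab
    have := two_at hab ha hb
    omega
  have mk : ∀ {e : Sym2 ℕ} {C : Finset (Sym2 ℕ)}, e ∈ K ∩ C → e ∈ K ∧ e ∈ C := fun h => Finset.mem_inter.1 h
  have mk3 : ∀ {e : Sym2 ℕ}, e ∈ K ∩ A → e ∈ K ∩ B → e ∈ K ∩ (A ∩ B) := fun h h' =>
    mem_inter.2 ⟨(mk h).1, mem_inter.2 ⟨(mk h).2, (mk h').2⟩⟩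
  have sw : ∀ {s t : ℕ} {C : Finset (Sym2 ℕ)}, s(s, t) ∈ C → s(t, s) ∈ C := fun h => by rwa [Sym2.eq_swap]
  rcases hA with ⟨u, ⟨d1, d2, d3⟩, b1, b2⟩ | ⟨u, v, ⟨d1, d2, d3, d4, d5, d6⟩, b1, b2, b3⟩
  · rcases hB with ⟨u', ⟨g1, g2, g3⟩, c1, c2⟩ | ⟨u', v', ⟨g1, g2, g3, g4, g5, g6⟩, c1, c2, c3⟩
    · have := uni (mk b1).1 (mk c1).1
      subst this
      exact Or.inl ⟨u, ⟨d1, d2, d3⟩, mk3 b1 c1, mk3 b2 c2⟩
    · have := uni (mk b1).1 (mk c1).1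
      subst this
      exact (three_at hK d2 g2 g6.symm (sw (mk b1).1) (mk b2).1 (mk c2).1).elim
  · rcases hB with ⟨u', ⟨g1, g2, g3⟩, c1, c2⟩ | ⟨u', v', ⟨g1, g2, g3, g4, g5, g6⟩, c1, c2, c3⟩
    · have := uni (mk b1).1 (mk c1).1
      subst this
      exact (three_at hK d2 g2 d6 (sw (mk b1).1) (mk b2).1 (mk c2).1).elim
    · have := uni (mk b1).1 (mk c1).1
      subst this
      by_cases e : v = v'
      · subst e
        exact Or.inr ⟨u, v, ⟨d1, d2, d3, d4, d5, d6⟩, mk3 b1 c1, mk3 b2 c2, mk3 b3 c3⟩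
      · exact (three_at hK d2 g2 e (sw (mk b1).1) (mk b2).1 (mk c2).1).elim

section
variable {n : ℕ} {T : Finset ℕ} {G : Finset (Sym2 ℕ)} {S : Finset ℕ} {M : ℕ → Finset (Sym2 ℕ)}

theorem Wld.lemK (W : Wld n T G S M) {Z : Finset (Sym2 ℕ)} (hZ : Z ∈ W.D) {c : Clu3 ℕ} (hc : c ∈ W.U)
    (hZc : Z ⊆ c.edges) {u v g : ℕ} (he : s(u, v) ∈ Z) (hg : ∀ e ∈ Z, g ∉ e) (hS : g ∈ S) (hT : g ∈ T)
    (hu : s(u, g) ∈ W.X.E) (hv : s(v, g) ∈ W.X.E) : s(u, g) ∈ c.edges ∧ s(v, g) ∈ c.edges :=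
  W.w.lemK hZ hc hZc he hg hS (by rw [W.ht]; exact hT) hu hv

theorem Wld.val (W : Wld n T G S M) {c : Clu3 ℕ} (hc : c ∈ W.U) : c.Valid := by
  obtain ⟨_, _, h, _⟩ := W.w.cap
  exact h.val hc

theorem Wld.eqc (W : Wld n T G S M) {c c' : Clu3 ℕ} (hc : c ∈ W.U) (hc' : c' ∈ W.U) {e : Sym2 ℕ}
    (he : e ∈ c.edges) (he' : e ∈ c'.edges) : c = c' := by
  obtain ⟨_, _, h, _⟩ := W.w.cap
  exact h.eqc hc hc' he he'

theorem Wld.cE (W : Wld n T G S M) {c : Clu3 ℕ} (hc : c ∈ W.U) : c.edges ⊆ W.X.E := by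
  obtain ⟨_, _, h, _⟩ := W.w.cap
  exact W.w.ow.clE W.w.cls ((h.uc c).1 hc).1

theorem Wld.clu (W : Wld n T G S M) {Z : Finset (Sym2 ℕ)} (hZ : Z ∈ W.D) {a b : ℕ} (he : s(a, b) ∈ Z)
    (haS : a ∈ S) : ∃ c ∈ W.U, Z ⊆ c.edges := by
  obtain ⟨_, _, h, _⟩ := W.w.cap
  exact h.cluS hZ he (a := a) (by simp) haS

theorem Wld.edz (W : Wld n T G S M) {c : Clu3 ℕ} (hc : c ∈ W.U) {e : Sym2 ℕ} (he : e ∈ c.edges) :
    ∃ Z ∈ W.D, e ∈ Z ∧ Z ⊆ c.edges := by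
  obtain ⟨_, _, h, _⟩ := W.w.cap
  exact h.edz hc he

theorem Wld.isSh (W : Wld n T G S M) {Z : Finset (Sym2 ℕ)} (hZ : Z ∈ W.D) : IsSh Z := W.w.ow.ish hZ

/-- the path of `M w` in a cluster, if `w z` is not in `M w` -/
theorem Wld.path (W : Wld n T G S M) {w z : ℕ} (hw : w ∈ S) (hT : w ∈ T) (hz : z ∉ T) {c : Clu3 ℕ} (hc : c ∈ W.U)
    (he : s(w, z) ∈ c.edges) {a : ℕ} (ha : a ≠ z) (hM : s(w, a) ∈ M w) : Pth (M w ∩ c.edges) w z :=
  (tt_path W.w hw (by rw [W.ht]; exact hT) (by rw [W.ht]; exact hz) hc he).resolve_left fun h =>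
    ha (nc_uni W.w hw (by rw [W.ht]; exact hT) hM h)

theorem Wld.m2 (W : Wld n T G S M) {w : ℕ} (hw : w ∈ S) (hT : w ∈ T) : M2 (M w) ∧ dg (M w) w = 1 ∧ M w ⊆ W.X.E := by
  obtain ⟨h, _, _⟩ := W.w.ow.nc w hw (by rw [W.ht]; exact hT)
  exact ⟨h.m2, h.one, h.sub⟩

/-- a vertex `x` joined to both ends of the edge `a y` of the cluster `c`, with `x y` not in `c`: then `x` is a corner of a
square `a y t x` in `c` -/
theorem Wld.tria (W : Wld n T G S M) {c : Clu3 ℕ} (hc : c ∈ W.U) {x y a : ℕ} (hay : s(a, y) ∈ c.edges)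
    (hx : x ∈ S) (hT : x ∈ T) (hxa : s(x, a) ∈ W.X.E) (hxy : s(x, y) ∈ W.X.E) (hn : s(x, y) ∉ c.edges)
    (xa : x ≠ a) (xy : x ≠ y) : ∃ t, Dist4 a y t x ∧ TFC.sq a y t x ⊆ c.edges := by
  obtain ⟨Z, hZ, he, hZc⟩ := W.edz hc hay
  by_cases hV : ∀ e ∈ Z, x ∉ e
  · exact absurd (W.lemK hZ hc hZc he hV hx hT (by rwa [Sym2.eq_swap]) (by rwa [Sym2.eq_swap])).2
      (by rwa [Sym2.eq_swap])
  · push Not at hV
    obtain ⟨e, heZ, hxe⟩ := hV
    rcases isSh_first (W.isSh hZ) he with ⟨t, hd, rfl⟩ | ⟨t, u, hd, rfl⟩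
    · rcases tri_ends heZ hxe with g | g | g
      · exact absurd g xa
      · exact absurd g xy
      · subst g
        exact absurd (hZc (show s(y, x) ∈ tri a y x by simp [tri])) (by rwa [Sym2.eq_swap])
    · rcases sq_ends heZ hxe with g | g | g | g
      · exact absurd g xa
      · exact absurd g xy
      · subst g
        exact absurd (hZc (show s(y, x) ∈ TFC.sq a y x u by simp [TFC.sq])) (by rwa [Sym2.eq_swap])
      · subst g
        exact ⟨t, hd, hZc⟩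

end

/-- the data of the two worlds -/
structure PD (n : ℕ) (T : Finset ℕ) (G : Finset (Sym2 ℕ)) (S : Finset ℕ) (M : ℕ → Finset (Sym2 ℕ))
    (W₁ W₂ : Wld n T G S M) (c1 c2 : Clu3 ℕ) (x y q p r s : ℕ) : Prop where
  nd : [x, y, q, p, r, s].Nodup
  xS : x ∈ S
  yS : y ∈ S
  qS : q ∈ S
  pS : p ∈ S
  rS : r ∈ S
  sS : s ∈ S
  yT : y ∉ T
  xT : x ∈ T
  qT : q ∈ T
  rT : r ∈ T
  q1 : TFC.sq x y q p ∈ W₁.D
  r2 : TFC.sq x y r s ∈ W₂.D
  u1 : c1 ∈ W₁.U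
  u2 : c2 ∈ W₂.U
  s1 : TFC.sq x y q p ⊆ c1.edges
  s2 : TFC.sq x y r s ⊆ c2.edges
  k1 : ∀ Y, Clu3.k4 Y ∈ W₁.U → s(y, r) ∉ (Clu3.k4 Y).edges
  k2 : ∀ Y, Clu3.k4 Y ∈ W₂.U → s(y, q) ∉ (Clu3.k4 Y).edges

section
variable {n : ℕ} {T : Finset ℕ} {G : Finset (Sym2 ℕ)} {S : Finset ℕ} {M : ℕ → Finset (Sym2 ℕ)}
  {W₁ W₂ : Wld n T G S M} {c1 c2 : Clu3 ℕ} {x y q p r s : ℕ}

theorem PD.swap (h : PD n T G S M W₁ W₂ c1 c2 x y q p r s) : PD n T G S M W₂ W₁ c2 c1 x y r s q p :=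
  ⟨XF.nd_world h.nd, h.xS, h.yS, h.rS, h.sS, h.qS, h.pS, h.yT, h.xT, h.rT, h.qT, h.r2, h.q1, h.u2, h.u1, h.s2, h.s1,
    h.k2, h.k1⟩

theorem PD.e1 (h : PD n T G S M W₁ W₂ c1 c2 x y q p r s) {e : Sym2 ℕ} (he : e ∈ G) {a b : ℕ} (hab : e = s(a, b))
    (ha : a ∈ S) (hb : b ∈ S) : e ∈ W₁.X.E := by
  subst hab
  refine W₁.ge _ he fun v hv => ?_
  rcases Sym2.mem_iff.1 hv with rfl | rfl
  · exact ha
  · exact hb

/-- the edges of `Q` and `R` are in `G` -/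
theorem PD.gQ (h : PD n T G S M W₁ W₂ c1 c2 x y q p r s) {e : Sym2 ℕ} (he : e ∈ TFC.sq x y q p) : e ∈ G :=
  W₁.eg (W₁.w.ow.sqE h.q1 he)

theorem PD.gR (h : PD n T G S M W₁ W₂ c1 c2 x y q p r s) {e : Sym2 ℕ} (he : e ∈ TFC.sq x y r s) : e ∈ G :=
  W₂.eg (W₂.w.ow.sqE h.r2 he)

/-- the edge `y r` is in a hub cluster of the first world, and `M r` contains a short path from `r` to `y` in it -/
theorem PD.cr (h : PD n T G S M W₁ W₂ c1 c2 x y q p r s) : ∃ c ∈ W₁.U, s(y, r) ∈ c.edges ∧ Hb c ∧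
    Pth (M r ∩ c.edges) r y := by
  obtain ⟨⟨a1, a2, a3, a4, a5⟩, ⟨b1, b2, b3, b4⟩, ⟨c1', c2', c3'⟩, ⟨d1, d2⟩, f1⟩ := XF.nodup6.1 h.nd
  have hyT : y ∉ W₁.X.T := by rw [W₁.ht]; exact h.yT
  have hrT : r ∈ W₁.X.T := by rw [W₁.ht]; exact h.rT
  have hyx : s(y, x) ∈ TFC.sq x y q p := by
    rw [Sym2.eq_swap]; simp [TFC.sq]
  have hE : s(y, r) ∈ W₁.X.E := h.e1 (h.gR (by simp [TFC.sq])) rfl h.yS h.rS
  obtain ⟨c, hc, hec⟩ := p1_clu W₁.w h.q1 h.u1 h.s1 hyx hyT h.rS hrT hE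
  by_cases hcc : c = c1
  · subst hcc
    obtain ⟨Lf, g1, _, _, _, g5⟩ := p1_in W₁.w ⟨a1, a2, a3, b1, b2, c1'⟩ a4.symm b3.symm c2'.symm d1.symm h.q1 hc h.s1
      hyT h.rS hrT hec
    exact ⟨c, hc, hec, g1.hb, g5⟩
  · rcases k4_or_hb c with ⟨Y, rfl⟩ | hb
    · exact absurd hec (h.k1 Y hc)
    · exact ⟨c, hc, hec, hb, p1_path W₁.w h.q1 h.u1 h.s1 hyx hyT h.rS hrT hc hec hcc hb⟩

/-- the path is in both clusters -/
theorem PD.cr2 (h : PD n T G S M W₁ W₂ c1 c2 x y q p r s) {c : Clu3 ℕ} (hP : Pth (M r ∩ c.edges) r y) :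
    Pth (M r ∩ (c.edges ∩ c2.edges)) r y := by
  obtain ⟨a, h1, h2⟩ := hP.fst
  obtain ⟨g1, g2, _⟩ := W₂.m2 h.rS h.rT
  exact pth_both g1 g2 hP (W₂.path h.rS h.rT h.yT h.u2 (h.s2 (by rw [Sym2.eq_swap]; simp [TFC.sq])) h1
    (mem_inter.1 h2).1)

/-- **case 1**: `y r` is in the cluster of `Q` -/
theorem PD.case1 (h : PD n T G S M W₁ W₂ c1 c2 x y q p r s) (h1 : s(y, r) ∈ c1.edges) : False := by
  obtain ⟨⟨a1, a2, a3, a4, a5⟩, ⟨b1, b2, b3, b4⟩, ⟨c1', c2', c3'⟩, ⟨d1, d2⟩, f1⟩ := XF.nodup6.1 h.nd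
  have hyT : y ∉ W₁.X.T := by rw [W₁.ht]; exact h.yT
  have hrT : r ∈ W₁.X.T := by rw [W₁.ht]; exact h.rT
  have hyT2 : y ∉ W₂.X.T := by rw [W₂.ht]; exact h.yT
  have hqT2 : q ∈ W₂.X.T := by rw [W₂.ht]; exact h.qT
  obtain ⟨L1, g1, hx1, hq1, hr1, hP⟩ := p1_in W₁.w ⟨a1, a2, a3, b1, b2, c1'⟩ a4.symm b3.symm c2'.symm d1.symm h.q1
    h.u1 h.s1 hyT h.rS hrT h1
  have v1 := W₁.val h.u1
  have v2 := W₂.val h.u2
  obtain ⟨a, hay, ha⟩ := (h.cr2 hP).fst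
  obtain ⟨_, ha2⟩ := mem_inter.1 ha
  obtain ⟨ha3, ha4⟩ := mem_inter.1 ha2
  have hap : a = p := (g1.lnb v1 hr1 ha3).resolve_left hay
  subst hap
  -- the shape of `c2`
  obtain ⟨L2, g2, hy2, hs2⟩ : ∃ L2, Hub c2 x r L2 ∧ y ∈ L2 ∧ s ∈ L2 := by
    rcases shape3_sq v2 ⟨a1, a4, a5, b3, b4, f1⟩ h.s2 with e | ⟨L, e1, e2, e3, _⟩ | ⟨L, e1, e2, e3, _⟩
    · rw [e] at ha4
      have h4 := (mem3_k4.1 ha4).2.1
      simp only [mem_insert, mem_singleton] at h4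
      rcases h4 with g | g | g | g
      · exact absurd g.symm a3
      · exact absurd g.symm b2
      · exact absurd g d1
      · exact absurd g d2
    · exact ⟨L, e1, e2, e3⟩
    · rcases e1.lnb v2 e3 ha4 with g | g
      · exact absurd g.symm b2
      · exact absurd g d2
  have hp2 : a ∈ L2 := by
    rcases g2.vert (show s(a, r) ∈ c2.edges by rwa [Sym2.eq_swap]) with g | g | g
    · exact absurd g.symm a3
    · exact absurd g d1
    · exact g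
  -- the second cluster in world 2
  obtain ⟨c, hc, hec, hb, hPq⟩ := h.swap.cr
  have hcc : c ≠ c2 := by
    rintro rfl
    rcases g2.lnb v2 hy2 hec with g | g
    · exact a2 g.symm
    · exact c2' g
  have vc := W₂.val hc
  have hPq2 := h.swap.cr2 hPq
  have hxy2 : s(x, y) ∉ c.edges := fun g => hcc (W₂.eqc hc h.u2 g (h.s2 (by simp [TFC.sq])))
  -- `p` is not of type X
  have hpX : ∀ {F : Clu3 ℕ → Prop} {pl mi : ℕ → Prop}
      (hh : PW3 W₂.X W₂.P W₂.D W₂.j S M (Fr3 W₂.D F) W₂.CL W₂.U W₂.PL pl mi) {L : Finset (Sym2 ℕ)},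
      Wt3 W₂.X W₂.P W₂.D W₂.j (TFC.sq x y r s) L → (∀ c' ∈ W₂.U, F c' → c' ≠ c2 → NSh (L ∩ c'.edges)) →
      ¬ (mi a ∧ ¬ pl a) := by
    intro F pl mi hh L hL hF
    obtain ⟨k1, k2⟩ := pth4_3 (D := W₂.D) (F := F) (c := c2) hh.ish (v := a) (u := x) (e := s) (w := r) (b := y) (by
      simp only [List.nodup_cons, List.mem_cons, List.not_mem_nil, or_false, not_or, List.nodup_nil, and_true,
        not_false_eq_true]
      exact ⟨⟨a3.symm, d2, d1, b2.symm⟩, ⟨a5, a4, a1⟩, ⟨f1.symm, b4.symm⟩, b3.symm⟩)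
    have k3 : ({s(a, x), s(x, s), s(s, r), s(r, y)} : Finset (Sym2 ℕ)) ⊆ c2.edges := by
      intro e he
      simp only [mem_insert, mem_singleton] at he
      rcases he with rfl | rfl | rfl | rfl
      · rw [Sym2.eq_swap]; exact (g2.mem hp2).1
      · exact (g2.mem hs2).1
      · rw [Sym2.eq_swap]; exact (g2.mem hs2).2
      · exact (g2.mem hy2).2
    have k4 := hh.wz h.r2 hL h.u2 h.s2 (hh.out h.r2 hL h.u2 h.s2 hF) k3 k1
    have k5 : (dv ({s(a, x), s(x, s), s(s, r), s(r, y)} : Finset (Sym2 ℕ)) - dv (TFC.sq x y r s) : ℕ → ℤ) =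
        Pi.single a 1 + Pi.single y (-1) := by
      rw [k2, dv_sq ⟨a1, a4, a5, b3, b4, f1⟩, Pi.single_neg]
      show _ = _
      funext w
      simp only [Pi.sub_apply, Pi.add_apply, Pi.neg_apply, sgl, ev_apply]
      ring
    have hyN : ¬ mi y := p1_nmi hh (hh.cW h.u2 (show s(y, x) ∈ c2.edges by
      rw [Sym2.eq_swap]; exact (g2.mem hy2).1)) hyT2
    rw [k5, ph_two (hh.v2 (hh.cW h.u2 (g2.mem hp2).1) (by simp)) (hh.v2 (hh.cW h.u2 (g2.mem hy2).1) (by simp))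
      b2.symm] at k4
    have k6 := con_neg_one_free (p := pl y) hyN
    exact con_one_X (by omega)
  have hcase : ∀ v, Dist4 q a v y → s(q, a) ∈ M q → s(a, v) ∈ M q → s(v, y) ∈ M q → TFC.sq q a v y ⊆ c.edges →
      False := by
    intro v hd m1 m2 m3 hsub
    obtain ⟨pl0, mi0, h0, _⟩ := W₂.w.cap
    obtain ⟨L, hL⟩ := h0.wt h.r2
    have hyx : s(y, x) ∈ TFC.sq x y r s := by
      rw [Sym2.eq_swap]; simp [TFC.sq]
    rcases shape3_sq vc hd hsub with e | ⟨Lf, e1, e2, e3, _⟩ | ⟨Lf, e1, e2, e3, _⟩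
    · exact Hb.not_k4 (e ▸ hb)
    · -- centres `q`, `v`
      obtain ⟨k1, k2⟩ := p1_leaf W₂.w h0 h.r2 hL h.u2 h.s2 hc hcc hyT2 e1 h.qS hqT2 m1 m2 m3 e2 e3 b2.symm
      rcases k2 with k2 | k2
      · obtain ⟨pl, mi, h3, _⟩ := W₂.w.fr (fun c0 => c0 = c) fun c0 g => g ▸ hb
        exact hpX h3 hL (fun c' _ g _ => g ▸ k2) (p1_leafX h3 h.r2 hL h.u2 h.s2 hc hcc k2 hyx hyT2 e1 e3 k1 e2)
      · exact hpX h0 hL (fun c' _ g _ => g.elim) k2.1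
    · -- centres `p`, `y`
      obtain ⟨pl, mi, h3, _⟩ := W₂.w.fr (fun c0 => c0 = c) fun c0 g => g ▸ hb
      exact hpX h3 hL (fun c' _ g _ => g ▸ wnsh_hub h3 h.r2 hL h.u2 h.s2 hc hcc hyx e1.symm)
        (p1_hub h3 h.r2 h.u2 h.s2 hc hcc hyx hyT2 e1.symm).1
  rcases hPq2 with ⟨b, ⟨k1, k2, k3⟩, m1, m2⟩ | ⟨b, v, ⟨k1, k2, k3, k4, k5, k6⟩, m1, m2, m3⟩
  · -- the path `q p y`
    obtain ⟨_, m1'⟩ := mem_inter.1 m1
    obtain ⟨_, m2'⟩ := mem_inter.1 m2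
    have hb2 : b = a := (g1.lnb v1 hq1 (mem_inter.1 m1').2).resolve_left k3
    subst hb2
    obtain ⟨t, ht1, ht2⟩ := W₂.tria hc (mem_inter.1 m2').1 h.xS h.xT
      (h.swap.e1 (h.gQ (show s(x, b) ∈ TFC.sq x y q b by rw [Sym2.eq_swap]; simp [TFC.sq])) rfl h.xS h.pS)
      (h.swap.e1 (h.gQ (by simp [TFC.sq])) rfl h.xS h.yS) hxy2 a3 a1
    exact hcc (W₂.eqc hc h.u2 (ht2 (show s(x, b) ∈ TFC.sq b y t x by simp [TFC.sq])) (g2.mem hp2).1)
  · obtain ⟨m1a, m1'⟩ := mem_inter.1 m1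
    obtain ⟨m2a, m2'⟩ := mem_inter.1 m2
    obtain ⟨m3a, m3'⟩ := mem_inter.1 m3
    have hb2 : b = a := (g1.lnb v1 hq1 (mem_inter.1 m1').2).resolve_left k5
    subst hb2
    refine hcase v ⟨k1, k2, k3, k4, k5, k6⟩ m1a m2a m3a (P34.sq_sub.2 ⟨(mem_inter.1 m1').1, (mem_inter.1 m2').1,
      (mem_inter.1 m3').1, hec⟩)

end

end Pool.Agent.P34

end

section -- file P34/Xp1k

/-!
Pattern `p1`: no `K4`.
-/

set_option autoImplicit false

namespace Pool.Agent.P34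

open Finset Pool.Agent.TFC Pool.Agent.PF4 Pool.Agent.PF4.LD Pool.Agent.PF4.XC Pool.Agent.PF4.XT
open Pool.Agent.PF4.XF (XD FitK Cv World WJ Av NC Rch dg_off)

/-- the edge `y r` is in no cluster `K4` of the first world -/
theorem p1_k4 {n : ℕ} {T : Finset ℕ} {G : Finset (Sym2 ℕ)} {M : ℕ → Finset (Sym2 ℕ)} {V : Finset ℕ}
    {x y q p r s : ℕ} (hd : [x, y, q, p, r, s].Nodup) (hV : ∀ v ∈ [x, y, q, p, r, s], v ∈ V)
    (hlt : ∀ v ∈ V, v < n)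
    (w2 : ∀ S : Finset ℕ, V ⊆ S → #(S \ V) ≤ 8 → (∀ v ∈ S, v < n) →
      WW n T G M S (TFC.sq x y r s) (TFC.sq x y q p))
    (hR : TFC.sq x y r s ⊆ G) (hyT : y ∉ T) (hxT : x ∈ T) (W₁ : Wld n T G V M) {c1 : Clu3 ℕ} (u1 : c1 ∈ W₁.U)
    (s1 : TFC.sq x y q p ⊆ c1.edges) {Y : Finset ℕ} (hY : Clu3.k4 Y ∈ W₁.U) :
    s(y, r) ∉ (Clu3.k4 Y).edges := by
  intro hyr
  simp only [List.nodup_cons, List.mem_cons, List.not_mem_nil, or_false, not_or, List.nodup_nil, and_true,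
    not_false_eq_true] at hd
  obtain ⟨⟨xy, xq, xp, xr, xs⟩, ⟨yq, yp, yr, ys⟩, ⟨qp, qr, qs⟩, ⟨pr, ps⟩, rs⟩ := hd
  obtain ⟨hy, hr, _⟩ := mem3_k4.1 hyr
  have hY4 : #Y = 4 := W₁.val hY
  have hxV : x ∈ V := hV x (by simp)
  have hyV : y ∈ V := hV y (by simp)
  have hrV : r ∈ V := hV r (by simp)
  have hsV : s ∈ V := hV s (by simp)
  -- `x ∉ Y`
  have hx : x ∉ Y := by
    intro hx
    have h1 : s(x, y) ∈ (Clu3.k4 Y).edges := mem3_k4.2 ⟨hx, hy, xy⟩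
    have h2 := W₁.eqc hY u1 h1 (s1 (by simp [TFC.sq]))
    have h3 := s1 (show s(q, p) ∈ TFC.sq x y q p by simp [TFC.sq])
    rw [← h2] at h3
    obtain ⟨hq, hp, _⟩ := mem3_k4.1 h3
    have h4 : ({x, y, q, p, r} : Finset ℕ) ⊆ Y := by
      intro v hv
      simp only [mem_insert, mem_singleton] at hv
      rcases hv with rfl | rfl | rfl | rfl | rfl <;> assumption
    have h5 := card_le_card h4
    rw [card_insert_of_notMem (by simp only [mem_insert, mem_singleton, not_or]; exact ⟨xy, xq, xp, xr⟩),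
      card_insert_of_notMem (by simp only [mem_insert, mem_singleton, not_or]; exact ⟨yq, yp, yr⟩),
      card_insert_of_notMem (by simp only [mem_insert, mem_singleton, not_or]; exact ⟨qp, qr⟩),
      card_insert_of_notMem (by simpa using pr), card_singleton, hY4] at h5
    omega
  have ge : ∀ {u v : ℕ}, s(u, v) ∈ TFC.sq x y r s → u ∈ V → v ∈ V → s(u, v) ∈ W₁.X.E := fun h hu hv =>
    W₁.ge _ (hR h) (by
      intro w hw
      rcases Sym2.mem_iff.1 hw with rfl | rfl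
      · exact hu
      · exact hv)
  -- `s ∉ Y`
  have hs : s ∉ Y := by
    intro hs
    obtain ⟨t, _, h1⟩ := W₁.tria hY (x := x) (y := y) (a := s) (mem3_k4.2 ⟨hs, hy, Ne.symm ys⟩) hxV hxT
      (ge (by rw [Sym2.eq_swap]; simp [TFC.sq]) hxV hsV) (ge (by simp [TFC.sq]) hxV hyV)
      (fun h => hx (mem3_k4.1 h).1) xs xy
    exact hx (mem3_k4.1 (h1 (show s(t, x) ∈ TFC.sq s y t x by simp [TFC.sq]))).2.1
  -- a third vertex
  obtain ⟨a, a', ⟨_, ya, _, ra, _, _⟩, hYe⟩ := k4_four hY4 hy hr yr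
  have ha : a ∈ Y := by rw [hYe]; simp
  have xa : a ≠ x := fun e => hx (e ▸ ha)
  have sa : a ≠ s := fun e => hs (e ▸ ha)
  have hya : s(y, a) ∈ (Clu3.k4 Y).edges := mem3_k4.2 ⟨hy, ha, ya⟩
  have hra : s(r, a) ∈ (Clu3.k4 Y).edges := mem3_k4.2 ⟨hr, ha, ra⟩
  obtain ⟨_, _, h0, _⟩ := W₁.w.cap
  have haT : a ∈ T := by
    have h1 := ttFF W₁.w.ow W₁.w.cls ((h0.uc _).1 hY).1 hya
    rw [W₁.ht] at h1
    exact h1.resolve_left hyT
  have han : a < n := by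
    rw [← W₁.hn]
    exact h0.ok.vn a (h0.v2 (h0.cW hY hya) (by simp))
  -- the world with `a`
  obtain ⟨W, hW⟩ := wld_of (w2 (insert a V) (subset_insert _ _) (by
      refine (card_le_card (?_ : insert a V \ V ⊆ {a})).trans (by simp)
      intro v hv
      rw [mem_sdiff, mem_insert] at hv
      rw [mem_singleton]
      tauto) (by
      intro v hv
      rcases mem_insert.1 hv with rfl | hv
      · exact han
      · exact hlt v hv)) ⟨x, mem_insert_of_mem hxV, hxT⟩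
  obtain ⟨c2, hc2, hR2⟩ := W.clu hW (a := x) (b := y) (by simp [TFC.sq]) (mem_insert_of_mem hxV)
  have gE : ∀ {u : ℕ}, u ∈ V → s(u, a) ∈ (Clu3.k4 Y).edges → s(u, a) ∈ W.X.E := fun hu h =>
    W.ge _ (W₁.eg (W₁.cE hY h)) (by
      intro w hw
      rcases Sym2.mem_iff.1 hw with rfl | rfl
      · exact mem_insert_of_mem hu
      · exact mem_insert_self _ _)
  obtain ⟨k1, k2⟩ := W.lemK hW hc2 hR2 (u := y) (v := r) (g := a) (by simp [TFC.sq]) (by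
      intro e he hae
      rcases sq_ends he hae with h | h | h | h
      · exact xa h
      · exact ya h.symm
      · exact ra h.symm
      · exact sa h) (mem_insert_self _ _) haT (gE hyV hya) (gE hrV hra)
  have hv := W.val hc2
  rcases shape3_sq hv ⟨xy, xr, xs, yr, ys, rs⟩ hR2 with rfl | ⟨L, h1, h2, _⟩ | ⟨L, h1, _, h2, _⟩
  · have h3 := (mem3_k4.1 k1).2.1
    simp only [mem_insert, mem_singleton] at h3
    rcases h3 with h3 | h3 | h3 | h3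
    · exact xa h3
    · exact ya h3.symm
    · exact ra h3.symm
    · exact sa h3
  · rcases h1.lnb hv h2 k1 with h3 | h3
    · exact xa h3
    · exact ra h3.symm
  · rcases h1.lnb hv h2 k2 with h3 | h3
    · exact ya h3.symm
    · exact sa h3

end Pool.Agent.P34

end

section -- file P34/Xp1c

/-!
Two conflicting squares, six vertices, a free common vertex (pattern `p1`): the last case and the theorem.
-/

set_option autoImplicit false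

namespace Pool.Agent.P34

open Finset Pool.Agent.TFC Pool.Agent.PF4 Pool.Agent.PF4.LD Pool.Agent.PF4.XC Pool.Agent.PF4.XT
open Pool.Agent.PF4.XF (XD FitK Cv World WJ Av NC Rch dg_off)

section
variable {n : ℕ} {T : Finset ℕ} {G : Finset (Sym2 ℕ)} {S : Finset ℕ} {M : ℕ → Finset (Sym2 ℕ)}
  {W₁ W₂ : Wld n T G S M} {c1 c2 : Clu3 ℕ} {x y q p r s : ℕ}

/-- `s` in `T`: the edges `r s` and `y r` are in different clusters -/
theorem PD.rs (h : PD n T G S M W₁ W₂ c1 c2 x y q p r s) (hsT : s ∈ T) {c : Clu3 ℕ} (hc : c ∈ W₁.U)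
    (h1 : s(y, r) ∈ c.edges) : s(r, s) ∉ c.edges := by
  obtain ⟨⟨a1, a2, a3, a4, a5⟩, ⟨b1, b2, b3, b4⟩, ⟨c1', c2', c3'⟩, ⟨d1, d2⟩, f1⟩ := XF.nodup6.1 h.nd
  intro h2
  have hV : ∀ {g : ℕ}, g ≠ x → g ≠ y → g ≠ q → g ≠ p → ∀ e ∈ TFC.sq x y q p, g ∉ e := by
    intro g g1 g2 g3 g4 e he hg
    rcases sq_ends he hg with g | g | g | g
    · exact g1 g
    · exact g2 g
    · exact g3 g
    · exact g4 g
  obtain ⟨c', hc', _, k1, _, k2, _⟩ := W₁.w.stM h.q1 h.u1 h.s1 (x := x) (y := y) (r := r) (s := s)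
    (by simp [TFC.sq]) (hV a4.symm b3.symm c2'.symm d1.symm) (hV a5.symm b4.symm c3'.symm d2.symm) f1 h.rS
    (by rw [W₁.ht]; exact h.rT) h.sS (by rw [W₁.ht]; exact hsT)
    (h.e1 (h.gR (by rw [Sym2.eq_swap]; simp [TFC.sq])) rfl h.xS h.sS)
    (h.e1 (h.gR (by simp [TFC.sq])) rfl h.rS h.sS) (h.e1 (h.gR (by simp [TFC.sq])) rfl h.yS h.rS)
  have := W₁.eqc hc' hc k1 h2
  subst this
  exact k2 h1

/-- `x r` is not an edge -/
theorem PD.xr (h : PD n T G S M W₁ W₂ c1 c2 x y q p r s) (h1 : s(y, r) ∉ c1.edges) : s(x, r) ∉ G := by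
  obtain ⟨⟨a1, a2, a3, a4, a5⟩, ⟨b1, b2, b3, b4⟩, ⟨c1', c2', c3'⟩, ⟨d1, d2⟩, f1⟩ := XF.nodup6.1 h.nd
  intro h2
  refine h1 (W₁.lemK h.q1 h.u1 h.s1 (u := x) (v := y) (g := r) (by simp [TFC.sq]) (fun e he hg => ?_) h.rS h.rT
    (h.e1 h2 rfl h.xS h.rS) (h.e1 (h.gR (by simp [TFC.sq])) rfl h.yS h.rS)).2
  rcases sq_ends he hg with g | g | g | g
  · exact a4 g.symm
  · exact b3 g.symm
  · exact c2' g.symm
  · exact d1 g.symm

/-- **case 3**: `y r` is not in the cluster of `Q` -/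
theorem PD.case3 (h : PD n T G S M W₁ W₂ c1 c2 x y q p r s) (h1 : s(y, r) ∉ c1.edges) : False := by
  obtain ⟨⟨a1, a2, a3, a4, a5⟩, ⟨b1, b2, b3, b4⟩, ⟨c1', c2', c3'⟩, ⟨d1, d2⟩, f1⟩ := XF.nodup6.1 h.nd
  have hyT : y ∉ W₁.X.T := by rw [W₁.ht]; exact h.yT
  have hrT : r ∈ W₁.X.T := by rw [W₁.ht]; exact h.rT
  have v2 := W₂.val h.u2
  have hxr := h.xr h1
  obtain ⟨c, hc, hec, hb, hP⟩ := h.cr
  have hcc : c ≠ c1 := by
    rintro rfl
    exact h1 hec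
  have vc := W₁.val hc
  have hxy : s(x, y) ∉ c.edges := fun g => hcc (W₁.eqc hc h.u1 g (h.s1 (by simp [TFC.sq])))
  have hyx : s(y, x) ∈ TFC.sq x y q p := by
    rw [Sym2.eq_swap]; simp [TFC.sq]
  have hP2 := h.cr2 hP
  have sub3 : ∀ {e : Sym2 ℕ}, e ∈ M r ∩ (c.edges ∩ c2.edges) → e ∈ M r ∧ e ∈ c.edges ∧ e ∈ c2.edges := by
    intro e he
    obtain ⟨g1, g2⟩ := mem_inter.1 he
    obtain ⟨g3, g4⟩ := mem_inter.1 g2
    exact ⟨g1, g3, g4⟩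
  -- `s` is in `T` or the path is `r s v y`
  have hs : s(r, s) ∈ c.edges ∧ (s(s, y) ∈ c.edges ∨ ∃ v, Dist4 r s v y ∧ s(r, s) ∈ M r ∧ s(s, v) ∈ M r ∧
      s(v, y) ∈ M r ∧ TFC.sq r s v y ⊆ c.edges) := by
    -- the case that the first edge is `r s`
    have hfin : ∀ a, a ≠ y → (a = s ∨ a = x) → s(r, a) ∈ M r ∩ (c.edges ∩ c2.edges) → a = s := by
      rintro a - (g | g) ha
      · exact g
      · subst g
        refine absurd (W₂.eg (W₂.cE h.u2 (sub3 ha).2.2)) ?_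
        rwa [Sym2.eq_swap]
    have hmain : (∀ a, a ≠ y → a ≠ r → s(r, a) ∈ M r ∩ (c.edges ∩ c2.edges) → a = s) →
        s(r, s) ∈ c.edges ∧ (s(s, y) ∈ c.edges ∨ ∃ v, Dist4 r s v y ∧ s(r, s) ∈ M r ∧ s(s, v) ∈ M r ∧
          s(v, y) ∈ M r ∧ TFC.sq r s v y ⊆ c.edges) := by
      intro hk
      rcases hP2 with ⟨a, ⟨g1, g2, g3⟩, m1, m2⟩ | ⟨a, v, ⟨g1, g2, g3, g4, g5, g6⟩, m1, m2, m3⟩
      · have := hk a g3 g1.symm m1
        subst this
        exact ⟨(sub3 m1).2.1, Or.inl (sub3 m2).2.1⟩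
      · have := hk a g5 g1.symm m1
        subst this
        exact ⟨(sub3 m1).2.1, Or.inr ⟨v, ⟨g1, g2, g3, g4, g5, g6⟩, (sub3 m1).1, (sub3 m2).1, (sub3 m3).1,
          P34.sq_sub.2 ⟨(sub3 m1).2.1, (sub3 m2).2.1, (sub3 m3).2.1, hec⟩⟩⟩
    rcases shape3_sq v2 ⟨a1, a4, a5, b3, b4, f1⟩ h.s2 with e | ⟨L, e1, e2, e3, _⟩ | ⟨L, e1, e2, e3, _⟩
    · refine hmain fun a hay har ha => hfin a hay ?_ ha
      have h4 := (sub3 ha).2.2
      rw [e] at h4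
      have h5 := (mem3_k4.1 h4).2.1
      simp only [mem_insert, mem_singleton] at h5
      rcases h5 with g | g | g | g
      · exact Or.inr g
      · exact absurd g hay
      · exact absurd g har
      · exact Or.inl g
    · -- hubs `x`, `r`: the last vertex before `y` is `x`
      exfalso
      rcases hP2 with ⟨a, ⟨g1, g2, g3⟩, m1, m2⟩ | ⟨a, v, ⟨g1, g2, g3, g4, g5, g6⟩, m1, m2, m3⟩
      · rcases e1.lnb v2 e2 (show s(y, a) ∈ c2.edges by rw [Sym2.eq_swap]; exact (sub3 m2).2.2) with g | g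
        · subst g
          exact hxy (sub3 m2).2.1
        · exact g1 g.symm
      · rcases e1.lnb v2 e2 (show s(y, v) ∈ c2.edges by rw [Sym2.eq_swap]; exact (sub3 m3).2.2) with g | g
        · subst g
          exact hxy (sub3 m3).2.1
        · exact g2 g.symm
    · -- hubs `y`, `s`
      refine hmain fun a hay har ha => ?_
      exact (e1.lnb v2 e3 (sub3 ha).2.2).resolve_left hay
  obtain ⟨hrs, hs⟩ := hs
  by_cases hsT : s ∈ T
  · exact h.rs hsT hc hec hrs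
  have hsT1 : s ∉ W₁.X.T := by rw [W₁.ht]; exact hsT
  rcases hs with hs | ⟨v, hd, m1, m2, m3, hsub⟩
  · obtain ⟨_, _, h0, _⟩ := W₁.w.cap
    rcases ttFF W₁.w.ow W₁.w.cls ((h0.uc c).1 hc).1 hs with g | g
    · exact hsT1 g
    · exact hyT g
  · rcases shape3_sq vc hd hsub with e | ⟨Lf, e1, e2, e3, _⟩ | ⟨Lf, e1, e2, e3, _⟩
    · exact Hb.not_k4 (e ▸ hb)
    · obtain ⟨pl0, mi0, h0, _⟩ := W₁.w.cap
      obtain ⟨L, hL⟩ := h0.wt h.q1
      obtain ⟨k1, k2⟩ := p1_leaf W₁.w h0 h.q1 hL h.u1 h.s1 hc hcc hyT e1 h.rS hrT m1 m2 m3 e2 e3 b4.symm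
      rcases k2 with k2 | k2
      · obtain ⟨pl, mi, h3, _⟩ := W₁.w.fr (fun c0 => c0 = c) fun c0 g => g ▸ hb
        exact p1_nmi h3 (h3.cW hc (show s(s, r) ∈ c.edges by rwa [Sym2.eq_swap])) hsT1
          (p1_leafX h3 h.q1 hL h.u1 h.s1 hc hcc k2 hyx hyT e1 e3 k1 e2).1
      · exact p1_nmi h0 (h0.cW hc (show s(s, r) ∈ c.edges by rwa [Sym2.eq_swap])) hsT1 k2.1.1
    · obtain ⟨pl, mi, h3, _⟩ := W₁.w.fr (fun c0 => c0 = c) fun c0 g => g ▸ hb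
      exact p1_nmi h3 (h3.cW hc (show s(s, r) ∈ c.edges by rwa [Sym2.eq_swap])) hsT1
        (p1_hub h3 h.q1 h.u1 h.s1 hc hcc hyx hyT e1.symm).1.1

end

/-- **pattern `p1`**: the common vertex `y` is free -/
theorem pt36_p1 : PtS6 fun T _ y _ _ _ _ => y ∉ T := by
  intro n T G M x y q p r s hd hb hyT
  obtain ⟨⟨a1, a2, a3, a4, a5⟩, ⟨b1, b2, b3, b4⟩, ⟨c1', c2', c3'⟩, ⟨d1, d2⟩, f1⟩ := XF.nodup6.1 hd
  obtain ⟨hxT, hqT⟩ := (hs3_opp (T := T) ⟨a1, a2, a3, b1, b2, c1'⟩ hb.hs).resolve_right fun g => hyT g.1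
  obtain ⟨_, hrT⟩ := (hs3_opp (T := T) ⟨a1, a4, a5, b3, b4, f1⟩ hb.swap.hs).resolve_right fun g => hyT g.1
  have hm : ∀ v ∈ [x, y, q, p, r, s], v ∈ ({x, y, q, p, r, s} : Finset ℕ) := by
    intro v hv
    simpa using hv
  obtain ⟨W₁, q1⟩ := wld_of (hb.w1 _ (Finset.Subset.refl _) (by simp) hb.lt) ⟨x, hm x (by simp), hxT⟩
  obtain ⟨W₂, r2⟩ := wld_of (hb.w2 _ (Finset.Subset.refl _) (by simp) hb.lt) ⟨x, hm x (by simp), hxT⟩
  obtain ⟨c1, u1, s1⟩ := W₁.clu q1 (show s(x, y) ∈ TFC.sq x y q p by simp [TFC.sq]) (hm x (by simp))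
  obtain ⟨c2, u2, s2⟩ := W₂.clu r2 (show s(x, y) ∈ TFC.sq x y r s by simp [TFC.sq]) (hm x (by simp))
  have h : PD n T G _ M W₁ W₂ c1 c2 x y q p r s :=
    { nd := hd
      xS := hm x (by simp)
      yS := hm y (by simp)
      qS := hm q (by simp)
      pS := hm p (by simp)
      rS := hm r (by simp)
      sS := hm s (by simp)
      yT := hyT
      xT := hxT
      qT := hqT
      rT := hrT
      q1 := q1
      r2 := r2
      u1 := u1
      u2 := u2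
      s1 := s1
      s2 := s2
      k1 := fun Y hY => p1_k4 hd hm hb.lt hb.w2 hb.r hyT hxT W₁ u1 s1 hY
      k2 := fun Y hY => p1_k4 (XF.nd_world hd) (fun v hv => hm v (by
        simp only [List.mem_cons, List.not_mem_nil, or_false] at hv ⊢
        tauto)) hb.lt hb.w1 hb.q hyT hxT W₂ u2 s2 hY }
  by_cases h1 : s(y, r) ∈ c1.edges
  · exact h.case1 h1
  · exact h.case3 h1

end Pool.Agent.P34

end
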