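import Pool.Agent.PFN.M26
import Pool.Agent.PFN.M27
import Pool.Agent.PFN.M28
import Pool.Agent.PFN.M30
import Pool.Agent.PFN.M31

section -- file P34/XT1a

/-!
# The configuration of world 1 gives the frame of STEP 1
-/

set_option autoImplicit false

namespace Pool.Agent.P34

open Finset Pool.Agent.TFC Pool.Agent.PF4 Pool.Agent.PF4.LD Pool.Agent.PF4.XC Pool.Agent.PF4.XT
open Pool.Agent.PF4.XF (XD FitK Cv World WJ Av NC Rch dg_off mem_k4 mem_k2)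

section
variable {X : XD3} {P : ℕ → Finset (Sym2 ℕ) → Prop} {D : Finset (Finset (Sym2 ℕ))} {j m : ℕ} {S : Finset ℕ}
  {M : ℕ → Finset (Sym2 ℕ)} {CL U : List (Clu3 ℕ)} {PL : Finset (Sym2 ℕ)} {x y q p r s a b : ℕ}
  {c1 c2 : Clu3 ℕ} {L1 L2 : Finset (Sym2 ℕ)}

/-- if the centres of `c1` are `x`, `q`, then `x q` is not in `c1` -/
theorem V3.xq_not (v : V3 X P D j m S M CL U PL x y q p r s a b c1 c2 L1 L2) {L : Finset ℕ} (hH : Hub c1 x q L)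
    (hy : y ∈ L) (hp : p ∈ L) : s(x, q) ∉ c1.edges := by
  intro hxq
  obtain ⟨⟨xy, xq, xp, xr, xs, xa, xb⟩, ⟨yq, yp, yr, ys, ya, yb⟩, ⟨qp, qr, qs, qa, qb⟩, ⟨pr, ps, pa, pb⟩,
    ⟨rs, ra, rb⟩, ⟨sa, sb⟩, ab⟩ := nd8 v.nd
  obtain ⟨pl, mi, h, _⟩ := v.wa.cap
  obtain ⟨_, xL, qL, _⟩ := hH.dat (h.val v.c1U)
  have h1 : Hub1 c1 x q L := by
    rcases hH with rfl | rfl | h1 | h1
    · exfalso
      rcases mem3_k2.1 hxq with ⟨_, h2⟩ | ⟨_, h2⟩
      · exact qL h2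
      · exact xL h2
    · exfalso
      rcases mem3_k2.1 hxq with ⟨_, h2⟩ | ⟨_, h2⟩
      · exact qL h2
      · exact xL h2
    · exact Or.inl h1
    · exact Or.inr h1
  have ht : tri x q y ∉ D := fun hD => v.f1 _ hD ⟨_, _, _, ⟨xq, xy, yq.symm⟩, rfl⟩ s(x, y) (by simp [TFC.sq])
    (by rw [Sym2.eq_swap]; simp [tri])
  rcases h.shape11 v.c1U h1 (h.fr_gdc v.c1U fun _ _ _ hf => hf) (fr3_acp fun hf => hf) with
    ⟨g1, _⟩ | ⟨e, g1, g2, g3, _, _⟩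
  · exact ht (g1 y hy)
  · have hye : y ≠ e := by
      rintro rfl
      exact ht g2
    have hpe : p ≠ e := by
      rintro rfl
      exact (v.pN h fun _ hf => hf.elim).2 g3.1
    exact g1.nsq y hy p hp hye hpe yp v.hQ

/-- **the frame of STEP 1** -/
theorem V3.s1 (v : V3 X P D j m S M CL U PL x y q p r s a b c1 c2 L1 L2) (hLP : LPH X P D j S U) :
    ∃ F pl mi, S1 X P D j m S M CL U PL F pl mi x y q p r s c1 c2 := by
  obtain ⟨⟨xy, xq, xp, xr, xs, xa, xb⟩, ⟨yq, yp, yr, ys, ya, yb⟩, ⟨qp, qr, qs, qa, qb⟩, ⟨pr, ps, pa, pb⟩,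
    ⟨rs, ra, rb⟩, ⟨sa, sb⟩, ab⟩ := nd8 v.nd
  obtain ⟨pl, mi, h, hm⟩ := v.frame
  have hF : ∀ c, (c = c1 ∨ (c = c2 ∧ Hb c2)) → c = c1 ∨ c = c2 := fun c hc => hc.imp id fun h => h.1
  obtain ⟨hr, hs⟩ := v.rsZ h hm hF
  obtain ⟨hx, hy⟩ := v.xyZ h hm hF
  obtain ⟨hp1, hp2⟩ := v.pN h hF
  obtain ⟨hq1, hq2⟩ := v.qX h hm hF
  refine ⟨_, pl, mi, ⟨v.wa, ?_, h, v.c1U, v.c2U, v.ne, Or.inl rfl, v.nd1, v.xS, v.rS, v.sS, v.xT, v.rT, v.sT,
    ⟨hx, hm x v.xS v.xT⟩, ⟨hy, hm y v.yS v.yT⟩, ⟨hr, hm r v.rS v.rT⟩, ⟨hs, hm s v.sS v.sT⟩, hq1, hq2, hp1, hp2,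
    v.xrP hLP, v.ysP, v.z2 (by simp [TFC.sq]), ?_, ?_⟩⟩
  · rintro c (rfl | ⟨rfl, hc⟩)
    · exact v.k1
    · exact hc
  · rcases shape3_sq (h.val v.c1U) ⟨xy, xq, xp, yq, yp, qp⟩ v.q1 with h1 | ⟨L, h1, h2, h3, _, _⟩ | ⟨L, h1, h2, h3, _, _⟩
    · exact absurd (h1 ▸ v.k1) Hb.not_k4
    · exact Or.inr ⟨L, h1, h2, h3, v.xq_not h1 h2 h3, fun l hl ly lp _ => v.leafX h hF h1 hl ly lp⟩
    · exact Or.inl ⟨L, h1, h2, h3⟩
  · rcases k4_or_hb c2 with ⟨Y, hY⟩ | hb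
    · right
      obtain ⟨hYe, _, _, n1, n2, _⟩ := v.k4c hY
      refine ⟨Y, hY, fun k hk ⟨d1, d2, d3⟩ hD => ?_⟩
      have e : tri r k s = tri r s k := by
        ext f
        simp only [tri, Finset.mem_insert, Finset.mem_singleton]
        rw [Sym2.eq_swap (a := r) (b := k), Sym2.eq_swap (a := k) (b := s), Sym2.eq_swap (a := s) (b := r)]
        clear * -
        tauto
      rw [e] at hD
      rw [hYe] at hk
      simp only [Finset.mem_insert, Finset.mem_singleton] at hk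
      rcases hk with rfl | rfl | rfl | rfl
      · exact d1 rfl
      · exact d3 rfl
      · exact n1 hD
      · exact n2 hD
    · exact Or.inl (Or.inr ⟨rfl, hb⟩)

end

end Pool.Agent.P34

end

section -- file P34/XT1b

/-!
# World 1 of the case `x, y, r, s ∈ T`, `p` free: what world 2 uses
-/

set_option autoImplicit false

namespace Pool.Agent.P34

open Finset Pool.Agent.TFC Pool.Agent.PF4 Pool.Agent.PF4.LD Pool.Agent.PF4.XC Pool.Agent.PF4.XT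
open Pool.Agent.PF4.XF (XD FitK Cv World WJ Av NC Rch dg_off mem_k4 mem_k2)

/-- **the facts of world 1 which world 2 uses**: `E` is the graph of world 1, `C` is the cluster of `r s` -/
structure W1C (E : Finset (Sym2 ℕ)) (M : ℕ → Finset (Sym2 ℕ)) (x y p r s : ℕ) (C : Finset (Sym2 ℕ)) : Prop where
  /-- the near cover of `x` -/
  mx : ∃ e f, Dist4 x e f p ∧ e ≠ r ∧ f ≠ r ∧ s(x, e) ∈ M x ∧ s(e, f) ∈ M x ∧ s(f, p) ∈ M x
  /-- the near cover of `r` -/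
  mr1 : s(r, s) ∉ M r
  mr : Pth (M r ∩ C) r s
  /-- the near cover of `s` -/
  ms1 : s(r, s) ∉ M s
  ms : Pth (M s ∩ C) r s
  xr : s(x, r) ∉ C
  ys : s(y, s) ∉ C
  yc : ∀ v, s(y, v) ∉ C
  /-- no diagonals -/
  yr : s(y, r) ∉ E
  xs : s(x, s) ∉ E

section
variable {X : XD3} {P : ℕ → Finset (Sym2 ℕ) → Prop} {D : Finset (Finset (Sym2 ℕ))} {j m : ℕ} {S : Finset ℕ}
  {M : ℕ → Finset (Sym2 ℕ)} {CL U : List (Clu3 ℕ)} {PL : Finset (Sym2 ℕ)} {x y q p r s a b : ℕ}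
  {c1 c2 : Clu3 ℕ} {L1 L2 : Finset (Sym2 ℕ)}

/-- a vertex outside a square -/
theorem not_corner {x y q p w : ℕ} (h1 : w ≠ x) (h2 : w ≠ y) (h3 : w ≠ q) (h4 : w ≠ p) :
    ∀ e ∈ TFC.sq x y q p, w ∉ e := by
  intro e he hw
  rcases sq_vert he hw with h | h | h | h
  · exact h1 h
  · exact h2 h
  · exact h3 h
  · exact h4 h

/-- **no diagonals** -/
theorem V3.yr_not (v : V3 X P D j m S M CL U PL x y q p r s a b c1 c2 L1 L2) : s(y, r) ∉ X.E := by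
  intro hE
  obtain ⟨⟨xy, xq, xp, xr, xs, xa, xb⟩, ⟨yq, yp, yr, ys, ya, yb⟩, ⟨qp, qr, qs, qa, qb⟩, ⟨pr, ps, pa, pb⟩,
    ⟨rs, ra, rb⟩, ⟨sa, sb⟩, ab⟩ := nd8 v.nd
  exact v.xr1 (v.wa.lemK v.hQ v.c1U v.q1 (u := x) (v := y) (g := r) (by simp [TFC.sq])
    (not_corner xr.symm yr.symm qr.symm pr.symm) v.rS v.rT v.xr hE).1

theorem V3.xs_not (v : V3 X P D j m S M CL U PL x y q p r s a b c1 c2 L1 L2) : s(x, s) ∉ X.E := by
  intro hE
  obtain ⟨⟨xy, xq, xp, xr, xs, xa, xb⟩, ⟨yq, yp, yr, ys, ya, yb⟩, ⟨qp, qr, qs, qa, qb⟩, ⟨pr, ps, pa, pb⟩,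
    ⟨rs, ra, rb⟩, ⟨sa, sb⟩, ab⟩ := nd8 v.nd
  exact v.ys1 (v.wa.lemK v.hQ v.c1U v.q1 (u := x) (v := y) (g := s) (by simp [TFC.sq])
    (not_corner xs.symm ys.symm qs.symm ps.symm) v.sS v.sT hE v.ys).2

/-- the cluster of `r s` does not contain `y` -/
theorem V3.yoff (v : V3 X P D j m S M CL U PL x y q p r s a b c1 c2 L1 L2) (w : ℕ) : s(y, w) ∉ c2.edges := by
  intro h1
  obtain ⟨pl, mi, h, _⟩ := v.wa.cap
  obtain ⟨Z4, hZ4, he4, hZ4c⟩ := h.edz v.c2U h1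
  exact v.yc hZ4 v.c2U hZ4c v.ne.symm _ he4 (by simp)

theorem V3.w1c (v : V3 X P D j m S M CL U PL x y q p r s a b c1 c2 L1 L2) (hLP : LPH X P D j S U) :
    W1C X.E M x y p r s c2.edges := by
  obtain ⟨F, pl, mi, h⟩ := v.s1 hLP
  obtain ⟨e, f, h4, g1, g2, g3⟩ := h.mx
  have hf : f ≠ r := by
    rintro rfl
    -- `f = r` is a vertex of `c1`, so the centres are `y`, `p` and `e = y`
    rcases h.k1 with ⟨L, k1, k2, k3⟩ | ⟨L, k1, k2, k3, k4, _⟩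
    · obtain ⟨d1, yL, pL, _⟩ := k1.dat (h.pw.val h.u1)
      obtain ⟨e1, e2, e3, e4, e5, e6⟩ := h4
      have hxe := (Finset.mem_inter.1 g1).2
      rcases mem3_k11.1 (k1.sup hxe) with (⟨h1, _⟩ | ⟨h1, _⟩) | (⟨h1 | h1, _⟩ | ⟨h1 | h1, _⟩)
      · exact yL (h1 ▸ k2)
      · exact pL (h1 ▸ k2)
      · exact yL (h1 ▸ k2)
      · exact pL (h1 ▸ k2)
      · subst h1
        exact v.yr_not ((v.wa.ow.nc x v.xS v.xT).1.sub (Finset.mem_inter.1 g2).1)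
      · exact e5 h1
    · obtain ⟨d1, xL, qL, _⟩ := k1.dat (h.pw.val h.u1)
      obtain ⟨e1, e2, e3, e4, e5, e6⟩ := h4
      have hfp := (Finset.mem_inter.1 g3).2
      rcases mem3_k11.1 (k1.sup hfp) with (⟨h1, _⟩ | ⟨h1, _⟩) | (⟨h1 | h1, _⟩ | ⟨h1 | h1, _⟩)
      · exact e2 h1.symm
      · exact h.dist.2.2.2.2.2.2.2.2.2.2.1 h1.symm
      · exact e2 h1.symm
      · exact h.dist.2.2.2.2.2.2.2.2.2.2.1 h1.symm
      · exact e3 h1.symm
      · exact h.dist.2.2.2.2.2.2.2.2.2.1 h1.symm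
  have he : e ≠ r := by
    rintro rfl
    exact v.xr1 (Finset.mem_inter.1 g1).2
  exact ⟨⟨e, f, h4, he, hf, (Finset.mem_inter.1 g1).1, (Finset.mem_inter.1 g2).1, (Finset.mem_inter.1 g3).1⟩,
    h.mr.1, h.mr.2, h.ms.1, h.ms.2, v.xr2, v.ys2, v.yoff, v.yr_not, v.xs_not⟩

/-- **world 1** -/
theorem w1c_of (ow : OW3 X P D j m S M) (nd : [x, y, q, p, r, s].Nodup) (xS : x ∈ S) (yS : y ∈ S) (rS : r ∈ S)
    (sS : s ∈ S) (xT : x ∈ X.T) (yT : y ∈ X.T) (rT : r ∈ X.T) (sT : s ∈ X.T) (pT : p ∉ X.T)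
    (hQ : TFC.sq x y q p ∈ D) (hR : TFC.sq x y s r ⊆ X.E)
    (hts : ∀ u v c, s(u, v) ∈ TFC.sq x y s r → c ∉ ({x, y, s, r} : Finset ℕ) → tri u v c ∉ D) :
    ∃ C, W1C X.E M x y p r s C := by
  obtain ⟨CL, U, PL, wa⟩ := wa3_of ow ⟨x, xS, xT⟩
  have hLP : LPH X P D j S U := YM.lph wa
  obtain ⟨a, b, c1, c2, L1, L2, v⟩ := V3.of wa hLP nd xS yS rS sS xT yT rT sT pT hQ hR hts
  exact ⟨_, v.w1c hLP⟩

end

end Pool.Agent.P34

end

section -- file P34/XS2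

/-!
# Pattern p4 for triangles and squares: STEP 2 (world 2)

The near covers of `x`, `r`, `s` contain the paths found in world 1 (step 1). In the world of the square `R = x y s r` all
corners of `R` get `pl`, a contradiction.
-/

set_option autoImplicit false

namespace Pool.Agent.P34

open Finset Pool.Agent.TFC Pool.Agent.PF4 Pool.Agent.PF4.LD Pool.Agent.PF4.XC Pool.Agent.PF4.XT
open Pool.Agent.PF4.XF (XD FitK Cv World WJ Av NC Rch dg_off mem_k4 mem_k2)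

/-- the first two edges of a path -/
theorem Pth.two {K : Finset (Sym2 ℕ)} {u v : ℕ} (h : Pth K u v) :
    ∃ a z, a ≠ u ∧ a ≠ v ∧ z ≠ u ∧ z ≠ a ∧ s(u, a) ∈ K ∧ s(a, z) ∈ K ∧ (z = v ∨ (z ≠ v ∧ s(z, v) ∈ K)) := by
  rcases h with ⟨a, ⟨n1, n2, n3⟩, h2, h3⟩ | ⟨a, b, ⟨n1, n2, n3, n4, n5, n6⟩, h2, h3, h4⟩
  · exact ⟨a, v, n1.symm, n3, n2.symm, n3.symm, h2, h3, Or.inl rfl⟩
  · exact ⟨a, b, n1.symm, n5, n2.symm, n4.symm, h2, h3, Or.inr ⟨n6, h4⟩⟩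

section
variable {X : XD3} {P : ℕ → Finset (Sym2 ℕ) → Prop} {D : Finset (Finset (Sym2 ℕ))} {j m : ℕ} {S : Finset ℕ}
  {M : ℕ → Finset (Sym2 ℕ)} {CL U : List (Clu3 ℕ)} {PL : Finset (Sym2 ℕ)}

/-- the block lemma for a near cover in the frame of one cluster -/
theorem WA3.blk1 (wa : WA3 X P D j m S M CL U PL) {c : Clu3 ℕ} (hc : c ∈ U) (hb : Hb c) {pl mi : ℕ → Prop}
    (h : PW3 X P D j S M (Fr3 D fun c' => c' = c) CL U PL pl mi) {w z : ℕ} (hw : w ∈ S) (hT : w ∈ X.T)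
    (he : s(w, z) ∈ c.edges) (hn : s(w, z) ∉ M w) : pl z ∨ Pth (M w ∩ c.edges) w z := by
  have hF : ∀ c', c' = c → Hb c' := fun c' h1 => h1 ▸ hb
  have hM := wa.fr_M h hF hw hT
  rcases h.block (K := M w) (h.cW hc he) (wa.fr_free h hF hw hT fun c' hc' hec => h.eqc hc' hc hec he) with h1 | h1
  · exact Or.inl (h.L3p hw hT hM hn h1)
  · obtain ⟨c', hc', hec, hp⟩ := h1
    rw [h.eqc hc' hc hec he] at hp
    exact Or.inr hp

/-- the edges of a near cover at a corner: the path in `C` -/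
structure Q2 (K : Finset (Sym2 ℕ)) (C : Finset (Sym2 ℕ)) (y r s a z : ℕ) : Prop where
  m2 : M2 K
  one : dg K r = 1
  ar : a ≠ r
  as : a ≠ s
  zr : z ≠ r
  za : z ≠ a
  ay : a ≠ y
  zy : z ≠ y
  ra : s(r, a) ∈ K
  raC : s(r, a) ∈ C
  az : s(a, z) ∈ K
  azC : s(a, z) ∈ C
  zs : z = s ∨ (z ≠ s ∧ s(z, s) ∈ K ∧ s(z, s) ∈ C)

theorem Q2.of {K C : Finset (Sym2 ℕ)} (hm : M2 K) {y r s : ℕ} (h1 : dg K r = 1) (hp : Pth (K ∩ C) r s)
    (hy : ∀ e ∈ C, y ∉ e) : ∃ a z, Q2 K C y r s a z := by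
  obtain ⟨a, z, ar, as, zr, za, ra, az, hz⟩ := hp.two
  rw [Finset.mem_inter] at ra az
  refine ⟨a, z, hm, h1, ar, as, zr, za, ?_, ?_, ra.1, ra.2, az.1, az.2, ?_⟩
  · rintro rfl; exact hy _ ra.2 (by simp)
  · rintro rfl; exact hy _ az.2 (by simp)
  · rcases hz with hz | ⟨hz, hz'⟩
    · exact Or.inl hz
    · rw [Finset.mem_inter] at hz'
      exact Or.inr ⟨hz, hz'⟩

/-- another path at `r` in `K` -/
theorem Q2.eq {K C C' : Finset (Sym2 ℕ)} {y r s t a z : ℕ} (h : Q2 K C y r s a z) (hp : Pth (K ∩ C') r t) :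
    a ≠ t ∧ s(r, a) ∈ C' ∧ s(a, z) ∈ C' ∧ (z = t ∨ (z ≠ t ∧ s(z, t) ∈ K ∧ s(z, t) ∈ C')) := by
  obtain ⟨a', z', ar, as, zr, za, ra, az, hz⟩ := hp.two
  rw [Finset.mem_inter] at ra az
  have ea : a' = a := dg_one_eq h.one ra.1 h.ra
  subst ea
  have ez : z' = z := by
    rcases m2_three h.m2 (by rw [Sym2.eq_swap]; exact h.ra) h.az az.1 with h2 | h2 | h2
    · exact absurd h2.symm h.zr
    · exact absurd h2.symm zr
    · exact h2.symm
  subst ez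
  refine ⟨as, ra.2, az.2, ?_⟩
  rcases hz with hz | ⟨hz, hz'⟩
  · exact Or.inl hz
  · rw [Finset.mem_inter] at hz'
    exact Or.inr ⟨hz, hz'⟩

/-- a corner `r` of a square in a hub cluster, the path at `r` avoids `y`; another corner `t` is adjacent to `r` -/
theorem Q2.no {c : Clu3 ℕ} {K C : Finset (Sym2 ℕ)} {x y r s t a z : ℕ} (h : Q2 K C y r s a z)
    (hub : (∃ L, Hub c x s L ∧ y ∈ L ∧ r ∈ L ∧ x ∉ L ∧ s ∉ L) ∨
        (∃ L, Hub c y r L ∧ x ∈ L ∧ s ∈ L ∧ y ∉ L ∧ r ∉ L)) (yr : y ≠ r) (ax : a ≠ x)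
    (hp : Pth (K ∩ c.edges) r t) : False := by
  obtain ⟨_, q1, q2, _⟩ := h.eq hp
  rcases hub with ⟨L, hH, hyL, hrL, hxL, hsL⟩ | ⟨L, hH, hxL, hsL, hyL, hrL⟩
  · rcases hub_leaf5 hH hxL hsL hrL q1 with h2 | h2
    · exact ax h2
    · exact h.as h2
  · have haL : a ∈ L := by
      rcases hub_mem5 hH q1 with (⟨h2, _⟩ | ⟨_, h2⟩) | (⟨_, h2⟩ | ⟨_, h2⟩)
      · exact absurd h2.symm yr
      · exact absurd h2 h.ay
      · exact h2
      · exact absurd h2 hrL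
    rcases hub_leaf5 hH hyL hrL haL q2 with h2 | h2
    · exact h.zy h2
    · exact h.zr h2

/-- the cluster of `R` is no `K4` -/
theorem step2_k4 (wa : WA3 X P D j m S M CL U PL) {x y r s : ℕ} (h4 : Dist4 x y s r) (sS : s ∈ S) (sT : s ∈ X.T)
    {Y : Finset ℕ} (hc : Clu3.k4 Y ∈ U) (hRc : TFC.sq x y s r ⊆ (Clu3.k4 Y).edges)
    (ht1 : tri x y s ∉ D) {C : Finset (Sym2 ℕ)} {b w : ℕ} (hs : s(r, s) ∉ M s) (q : Q2 (M s) C y s r b w)
    (hxr : s(x, r) ∉ C) : False := by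
  obtain ⟨xy, xs, xr, ys, yr, sr⟩ := id h4
  have sw : ∀ {K : Finset (Sym2 ℕ)} {u v : ℕ}, s(u, v) ∈ K → s(v, u) ∈ K := fun h => by rwa [Sym2.eq_swap]
  obtain ⟨pl, mi, h, hm⟩ := wa.cap
  have m1 := mem3_k4.1 (hRc (by simp [TFC.sq] : s(x, y) ∈ TFC.sq x y s r))
  have csr : s(s, r) ∈ (Clu3.k4 Y).edges := hRc (by simp [TFC.sq])
  have m2 := mem3_k4.1 csr
  have hO := h.fr_gdc hc fun _ _ _ hf => hf
  have hA : ACp3 D (Fr3 D fun _ => False) (Clu3.k4 Y) := fr3_acp fun hf => hf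
  have hX : mi r ∧ ¬ pl r := by
    by_contra hn
    exact ht1 ((h.k4tri hc hO hA (a := x) (b := y) (c := s) (d := r) h4 m1.1 m1.2.1 m2.1 m2.2.1).2 hn)
  have hYe := four_eq (h.val hc) h4 m1.1 m1.2.1 m2.1 m2.2.1
  have hM := wa.fr_M h (fun _ hf => hf.elim) sS sT
  have hcap := wa.mcap s sS sT (Clu3.k4 Y) ((h.uc _).1 hc).1
  have key : ∀ u, u ≠ x → u ≠ y → u ≠ s → u ≠ r → u ∉ Y := by
    intro u h1 h2 h3 h4 h5
    rw [hYe] at h5
    simp only [Finset.mem_insert, Finset.mem_singleton] at h5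
    tauto
  -- the last vertex before `r`
  have hu : ∃ u, u ∉ Y ∧ s(r, u) ∈ M s ∧ (b = x → s(x, u) ∈ M s) := by
    rcases q.zs with hwr | ⟨hwr, hwr', hwC⟩
    · subst hwr
      have bx : b ≠ x := by rintro rfl; exact hxr q.azC
      exact ⟨b, key b bx q.ay q.ar q.as, sw q.az, fun h1 => absurd h1 bx⟩
    · have wx : w ≠ x := by rintro rfl; exact hxr hwC
      exact ⟨w, key w wx q.zy q.zr hwr, sw hwr', fun h1 => h1 ▸ q.az⟩
  obtain ⟨u, uY, ru, bu⟩ := hu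
  have ruc : s(r, u) ∉ (Clu3.k4 Y).edges := fun h1 => uY (mem3_k4.1 h1).2.1
  have hsr : s(s, r) ∉ M s := fun h1 => hs (sw h1)
  refine hX.2 (h.L3p sS sT hM hsr (Or.inr ⟨_, hc, csr, ?_⟩))
  rw [Fr3_neg (fun hf => hf)]
  refine ⟨?_, fun Z hZ hs' => ?_⟩
  · -- at most two edges
    have g1 : dg (M s ∩ (Clu3.k4 Y).edges) s ≤ 1 := by
      rw [← q.one]; exact dg_mono Finset.inter_subset_left s
    have g2 : dg (M s ∩ (Clu3.k4 Y).edges) r ≤ 1 := dgLe1 q.m2 ru (by simp) ruc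
    have hni : s(s, r) ∉ M s ∩ (Clu3.k4 Y).edges := fun h1 => hsr (Finset.mem_inter.1 h1).1
    refine M2.of_dv (hcap.1.nl.insert sr) fun v => ?_
    have g3 := hcap.1.le v
    rw [XT.dv_insert hni, dv_pair sr, Pi.add_apply, Pi.add_apply, dv_apply, Pi.single_apply, Pi.single_apply]
    by_cases e1 : v = s
    · subst e1
      rw [if_pos rfl, if_neg sr]
      push_cast
      omega
    · rw [if_neg e1]
      by_cases e2 : v = r
      · subst e2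
        rw [if_pos rfl]
        push_cast
        omega
      · rw [if_neg e2]
        push_cast
        omega
  · -- no member of `D`
    have hp := pth_of_mem (h.ish Z hZ) (hcap.2 Z hZ) hs'
    obtain ⟨_, q1, q2, _⟩ := q.eq hp
    have hb := (mem3_k4.1 q1).2.1
    have hw := (mem3_k4.1 q2).2.1
    have hbx : b = x := by
      by_contra h1
      exact key b h1 q.ay q.ar q.as hb
    have xu := bu hbx
    subst hbx
    rcases m2_three q.m2 (sw q.ra) xu q.az with h1 | h1 | h1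
    · exact uY (h1 ▸ m2.1)
    · exact q.zr h1.symm
    · exact uY (h1 ▸ hw)

/-- the centres of the cluster of `R` -/
def HR (c : Clu3 ℕ) (x y r s : ℕ) : Prop := (∃ L, Hub c x s L ∧ y ∈ L ∧ r ∈ L ∧ x ∉ L ∧ s ∉ L) ∨
  (∃ L, Hub c y r L ∧ x ∈ L ∧ s ∈ L ∧ y ∉ L ∧ r ∉ L)

/-- `y r` is no edge of the cluster if the triangles are not in `D` -/
theorem step2_yr (wa : WA3 X P D j m S M CL U PL) {x y r s : ℕ} (h4 : Dist4 x y s r) {c : Clu3 ℕ} (hc : c ∈ U)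
    (hub : HR c x y r s) (hR : TFC.sq x y s r ∈ D) (ht2 : tri x y r ∉ D) (ht3 : tri y r s ∉ D) :
    s(y, r) ∉ c.edges := by
  intro hyr
  obtain ⟨xy, xs, xr, ys, yr, sr⟩ := id h4
  rcases hub with ⟨L, hH, hyL, hrL, hxL, hsL⟩ | ⟨L, hH, hxL, hsL, hyL, hrL⟩
  · rcases hub_leaf5 hH hxL hsL hyL hyr with h2 | h2
    · exact xr h2.symm
    · exact sr h2.symm
  · obtain ⟨pl0, mi0, h0, hm0⟩ := wa.cap
    have hH1 : Hub1 c y r L := by
      rcases hH with h2 | h2 | h2 | h2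
      · exfalso
        rw [h2] at hyr
        rcases mem3_k2.1 hyr with ⟨_, h3⟩ | ⟨_, h3⟩
        · exact hrL h3
        · exact hyL h3
      · exfalso
        rw [h2] at hyr
        rcases mem3_k2.1 hyr with ⟨_, h3⟩ | ⟨_, h3⟩
        · exact hrL h3
        · exact hyL h3
      · exact Or.inl h2
      · exact Or.inr h2
    have hO := h0.fr_gdc hc fun _ _ _ hf => hf
    have hA : ACp3 D (Fr3 D fun _ => False) c := fr3_acp fun hf => hf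
    have t1 : tri y r x ∉ D := fun h2 => ht2 (by rw [tri_rot]; exact h2)
    rcases h0.shape11 hc hH1 hO hA with ⟨h2, _⟩ | ⟨k, h2, h3, _⟩
    · exact ht3 (h2 s hsL)
    · have kx : k ≠ x := by rintro rfl; exact t1 h3
      have ks : k ≠ s := by rintro rfl; exact ht3 h3
      refine h2.nsq s hsL x hxL (Ne.symm ks) (Ne.symm kx) xs.symm ?_
      rw [← XT.sq_rot]
      exact hR

/-- (A) `pl r` -/
theorem step2_r (wa : WA3 X P D j m S M CL U PL) {x y p r s : ℕ} (nd : [x, y, p, r, s].Nodup) (xS : x ∈ S)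
    (xT : x ∈ X.T) (hR : TFC.sq x y s r ∈ D) (ht2 : tri x y r ∉ D)
    (hx : ∃ e f, P3 (M x) x e f p ∧ e ≠ r ∧ (f = r → e = y ∧ tri y r s ∉ D)) {c : Clu3 ℕ} (hc : c ∈ U)
    (hb : Hb c) (hub : HR c x y r s) (hRc : TFC.sq x y s r ⊆ c.edges) {pl mi : ℕ → Prop}
    (h : PW3 X P D j S M (Fr3 D fun c' => c' = c) CL U PL pl mi) : pl r := by
  obtain ⟨⟨xy, xp, xr, xs⟩, ⟨yp, yr, ys⟩, ⟨pr, ps⟩, rs⟩ := nod5x.1 nd
  have nx := (wa.ow.nc x xS xT).1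
  have sw : ∀ {K : Finset (Sym2 ℕ)} {u v : ℕ}, s(u, v) ∈ K → s(v, u) ∈ K := fun h => by rwa [Sym2.eq_swap]
  have cxr : s(x, r) ∈ c.edges := sw (hRc (by simp [TFC.sq]))
  obtain ⟨e, f, ⟨⟨xe, xf, _, ef, ep, fp⟩, p1, p2, p3⟩, er, hf⟩ := hx
  have hn : s(x, r) ∉ M x := fun h1 => er (dg_one_eq nx.one p1 h1)
  rcases wa.blk1 hc hb h xS xT cxr hn with h1 | h1
  · exact h1
  exfalso
  obtain ⟨e', f', _, _, f'x, _, q1, q2, hq⟩ := h1.two
  have ee : e' = e := dg_one_eq nx.one (Finset.mem_inter.1 q1).1 p1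
  subst ee
  have ff : f' = f := by
    rcases m2_three nx.m2 (sw p1) p2 (Finset.mem_inter.1 q2).1 with h2 | h2 | h2
    · exact absurd h2 xf
    · exact absurd h2.symm f'x
    · exact h2.symm
  subst ff
  rcases hq with hq | ⟨hq, hq'⟩
  · obtain ⟨hey, hD⟩ := hf hq
    subst hq hey
    exact step2_yr wa ⟨xy, xs, xr, ys, yr, rs.symm⟩ hc hub hR ht2 hD (Finset.mem_inter.1 q2).2
  · rcases m2_three nx.m2 (sw p2) p3 (Finset.mem_inter.1 hq').1 with h2 | h2 | h2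
    · exact ep h2
    · exact er h2
    · exact pr h2

/-- **STEP 2**: the contradiction in the world of `R = x y s r` -/
theorem step2_3 (wa : WA3 X P D j m S M CL U PL) {x y p r s : ℕ} (nd : [x, y, p, r, s].Nodup) (xS : x ∈ S)
    (yS : y ∈ S) (rS : r ∈ S) (sS : s ∈ S) (xT : x ∈ X.T) (yT : y ∈ X.T) (rT : r ∈ X.T) (sT : s ∈ X.T)
    (hR : TFC.sq x y s r ∈ D) (ht1 : tri x y s ∉ D) (ht2 : tri x y r ∉ D) {C : Finset (Sym2 ℕ)}
    (hx : ∃ e f, P3 (M x) x e f p ∧ e ≠ r ∧ (f = r → e = y ∧ tri y r s ∉ D))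
    (hr : s(r, s) ∉ M r ∧ Pth (M r ∩ C) r s) (hs : s(r, s) ∉ M s ∧ Pth (M s ∩ C) s r) (hxr : s(x, r) ∉ C)
    (hy : ∀ e ∈ C, y ∉ e) : False := by
  obtain ⟨⟨xy, xp, xr, xs⟩, ⟨yp, yr, ys⟩, ⟨pr, ps⟩, rs⟩ := nod5x.1 nd
  have nr := (wa.ow.nc r rS rT).1
  have ns := (wa.ow.nc s sS sT).1
  have h4 : Dist4 x y s r := ⟨xy, xs, xr, ys, yr, rs.symm⟩
  obtain ⟨c, hc, hRc⟩ := wa.clz xS hR (e := s(x, y)) (by simp [TFC.sq]) (by simp)
  have cys : s(y, s) ∈ c.edges := hRc (by simp [TFC.sq])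
  have csr : s(s, r) ∈ c.edges := hRc (by simp [TFC.sq])
  have crx : s(r, x) ∈ c.edges := hRc (by simp [TFC.sq])
  have sw : ∀ {K : Finset (Sym2 ℕ)} {u v : ℕ}, s(u, v) ∈ K → s(v, u) ∈ K := fun h => by rwa [Sym2.eq_swap]
  obtain ⟨a, z, qr⟩ := Q2.of nr.m2 nr.one hr.2 hy
  obtain ⟨b, w, qs⟩ := Q2.of ns.m2 ns.one hs.2 hy
  have ax : a ≠ x := by rintro rfl; exact hxr (sw qr.raC)
  rcases k4_or_hb c with ⟨Y, rfl⟩ | hb
  · exact step2_k4 wa h4 sS sT hc hRc ht1 hs.1 qs hxr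
  · -- two centres
    obtain ⟨pl, mi, h, hm⟩ := wa.fr (fun c' => c' = c) (fun c' h1 => h1 ▸ hb)
    -- the centres are opposite corners of `R`
    have hub : HR c x y r s := by
      rcases shape3_sq (h.val hc) h4 hRc with h1 | h1 | h1
      · exact absurd hb (h1 ▸ Hb.not_k4)
      · exact Or.inl h1
      · exact Or.inr h1
    have pr' := step2_r wa nd xS xT hR ht2 hx hc hb hub hRc h
    -- (B) `pl x`
    have px' : pl x := by
      have hn : s(r, x) ∉ M r := fun h1 => ax (dg_one_eq nr.one qr.ra h1)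
      rcases wa.blk1 hc hb h rS rT crx hn with h1 | h1
      · exact h1
      · exact (qr.no hub yr ax h1).elim
    -- (C) `pl s`
    have ps' : pl s := by
      rcases wa.blk1 hc hb h rS rT (sw csr) hr.1 with h1 | h1
      · exact h1
      · exact (qr.no hub yr ax h1).elim
    -- (D) `pl y`
    have py' : pl y := by
      have hn : s(s, y) ∉ M s := fun h1 => qs.ay (dg_one_eq ns.one qs.ra h1)
      rcases wa.blk1 hc hb h sS sT (sw cys) hn with h1 | h1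
      · exact h1
      exfalso
      obtain ⟨_, q1, q2, hq⟩ := qs.eq h1
      rcases hub with ⟨L, hH, hyL, hrL, hxL, hsL⟩ | ⟨L, hH, hxL, hsL, hyL, hrL⟩
      · have hw' : w = x := by
          rcases hq with hq | ⟨_, _, hq⟩
          · exact absurd hq qs.zy
          · exact (hub_leaf5 hH hxL hsL hyL (sw hq)).resolve_right qs.zr
        subst hw'
        rcases qs.zs with hwr | ⟨_, _, hwr⟩
        · exact xr hwr
        · exact hxr hwr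
      · rcases hub_leaf5 hH hyL hrL hsL q1 with h2 | h2
        · exact qs.ay h2
        · exact qs.as h2
    obtain ⟨L, hL⟩ := h.wt hR
    obtain ⟨v, ⟨e, he, hve⟩, v1, v2⟩ := h.L1x hR hL hc hRc (h.fr_am c) (h.fr_out hR hL hc hRc fun c' _ h1 h2 =>
      absurd h2 h1)
    rcases sq_vert he hve with rfl | rfl | rfl | rfl
    · exact v2 px'
    · exact v2 py'
    · exact v2 ps'
    · exact v2 pr'

/-! ### world 1 -/

section
variable {x y q p r s a b : ℕ} {c1 c2 : Clu3 ℕ} {L1 L2 : Finset (Sym2 ℕ)}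

end

end

end Pool.Agent.P34

end

section -- file P34/XT1

/-!
# Theorem T1: two squares on six vertices in two worlds, `x, y, r, s ∈ T`, `p` free
-/

set_option autoImplicit false

namespace Pool.Agent.P34

open Finset Pool.Agent.TFC Pool.Agent.PF4 Pool.Agent.PF4.LD Pool.Agent.PF4.XC Pool.Agent.PF4.XT
open Pool.Agent.PF4.XF (XD FitK Cv World WJ Av NC Rch dg_off mem_k4 mem_k2)

/-- **Theorem T1** -/
theorem pt3T1 : Pt3T1 := by
  intro X1 X2 P1 P2 D1 D2 j1 m1 j2 m2 S1 S2 M o1 o2 hn hT x y q p r s nd hS1 hS2 hQ hR hR1 hQ2 n1 n2 hTT hp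
  have T : ∀ v ∈ [x, y, q, r, s], v ∈ X2.T := fun v hv => by rw [← hT]; exact hTT v hv
  obtain ⟨C, w⟩ := w1c_of o1 nd (hS1 x (by simp)) (hS1 y (by simp)) (hS1 r (by simp)) (hS1 s (by simp))
    (hTT x (by simp)) (hTT y (by simp)) (hTT r (by simp)) (hTT s (by simp)) hp hQ hR1 n1
  obtain ⟨CL, U, PL, wa⟩ := wa3_of o2 ⟨x, hS2 x (by simp), T x (by simp)⟩
  have nd' := nd
  simp only [List.nodup_cons, List.mem_cons, List.not_mem_nil, or_false, not_or, List.nodup_nil, and_true,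
    not_false_eq_true] at nd'
  obtain ⟨⟨xy, xq, xp, xr, xs⟩, ⟨yq, yp, yr, ys⟩, ⟨qp, qr, qs⟩, ⟨pr, ps⟩, rs⟩ := nd'
  have t1 : tri x y s ∉ D2 := fun h => n2 x y s q p
    (by simp [xy, xs, xq, xp, ys, yq, yp, Ne.symm qs, Ne.symm ps, qp]) h (by simp) hQ (hS2 q (by simp)) (hS2 p (by simp))
  have t2 : tri x y r ∉ D2 := fun h => n2 x y r q p
    (by simp [xy, xr, xq, xp, yr, yq, yp, Ne.symm qr, Ne.symm pr, qp]) h (by simp) hQ (hS2 q (by simp)) (hS2 p (by simp))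
  obtain ⟨e, f, h4, h5, h6, g1, g2, g3⟩ := w.mx
  refine step2_3 wa (x := x) (y := y) (p := p) (r := r) (s := s) (C := C)
    (by simp [xy, xp, xr, xs, yp, yr, ys, pr, ps, rs]) (hS2 x (by simp)) (hS2 y (by simp)) (hS2 r (by simp))
    (hS2 s (by simp)) (T x (by simp)) (T y (by simp)) (T r (by simp)) (T s (by simp)) hR t1 t2
    ⟨e, f, ⟨h4, g1, g2, g3⟩, h5, fun h => absurd h h6⟩ ⟨w.mr1, w.mr⟩ ⟨w.ms1, w.ms.symm⟩ w.xr ?_
  intro g hg hy
  obtain ⟨v, rfl⟩ := Sym2.mem_iff_exists.1 hy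
  exact w.yc v hg

end Pool.Agent.P34

end

section -- file P34/Fin34

/-!
2F({3,4}) is in P: the final assembly.
-/

set_option autoImplicit false

namespace Pool.Agent.P34

open Pool.Agent.Lib.helper60 Pool.Agent.PF4

/-- the patterns of two squares with six vertices -/
theorem pat3 : Pat3 :=
  ⟨pt36_p1, pt36_p2.to, ptS6_p3 lemKS, p4a_of pt3T1, p4b_of pt3T1⟩

/-- **a polynomial algorithm for 2F({3,4})** -/
theorem inP_two34 : InP TwoF34 :=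
  inP_of_pat3 pat3 (pt35 lemKS).to ptTS lemKS

end Pool.Agent.P34

end
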